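import Pool.Agent.RCG.Own

/-! Construction of the hazards by a capped equation and continuation (MP_73ccd0_lc, general
graphs). -/

namespace Pool.Agent.RCG

open Set Finset Pool.Agent.RCRSHalf

set_option linter.unusedSectionVars false

/-- clamp to `[0, 1]` -/
noncomputable def cl1 (t : ℝ) : ℝ := max 0 (min 1 t)

theorem cl1_mem (t : ℝ) : cl1 t ∈ Icc (0 : ℝ) 1 :=
  ⟨le_max_left _ _, max_le zero_le_one (min_le_left _ _)⟩

theorem cl1_of_mem {t : ℝ} (ht : t ∈ Icc (0 : ℝ) 1) : cl1 t = t := by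
  unfold cl1
  rw [min_eq_right ht.2, max_eq_right ht.1]

theorem continuous_cl1 : Continuous cl1 := by unfold cl1; fun_prop

theorem bdd_cl1 {f : ℝ → ℝ} (hf : ContinuousOn f (Icc (0 : ℝ) 1)) :
    ∃ C, ∀ t, |f (cl1 t)| ≤ C := by
  obtain ⟨C, hC⟩ := isCompact_Icc.exists_bound_of_continuousOn hf
  exact ⟨C, fun t => by simpa using hC _ (cl1_mem t)⟩

theorem cont_cl1 {f : ℝ → ℝ} (hf : ContinuousOn f (Icc (0 : ℝ) 1)) :
    Continuous fun t => f (cl1 t) :=
  hf.comp_continuous continuous_cl1 cl1_mem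

variable {V : Type*} [Fintype V] [DecidableEq V]

/-- coordinatewise clamp -/
noncomputable def clw (y : Finset V → ℝ) (F : Finset V) : ℝ := max 0 (min 1 (y F))

theorem ubl_pr (W : Finset V) : UBL fun (_ : ℝ) (y : Finset V → ℝ) => pr (clw y) W := by
  unfold RCRSHalf.pr clw
  exact UBL.sum _ fun F _ => (UBL.coord F).mul (UBL.const _)

theorem clw_law {h : ℝ → V → V → ℝ} {U : Finset V} {μ : ℝ → Finset V → ℝ}
    (hμ : IsLaw h U 1 μ) {t : ℝ} (ht : t ∈ Icc (0 : ℝ) 1) : clw (μ t) = μ t := by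
  funext F
  have h0 := hμ.nonneg F t ht
  have h1 : μ t F ≤ 1 := by
    rw [← hμ.total t ht]
    exact Finset.single_le_sum (f := fun F => μ t F) (fun G _ => hμ.nonneg G t ht)
      (Finset.mem_univ F)
  unfold clw
  rw [min_eq_right h1, max_eq_right h0]

/-- uniqueness of the free probabilities -/
theorem pr_unique {h : ℝ → V → V → ℝ} {H : V → V → ℝ → ℝ} (hh : Haz h H) {U : Finset V}
    {μ μ' : ℝ → Finset V → ℝ} (hμ : IsLaw h U 1 μ) (hμ' : IsLaw h U 1 μ') {W : Finset V}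
    (hW : W ⊆ U) {s : ℝ} (hs : s ∈ Icc (0 : ℝ) 1) : pr (μ s) W = pr (μ' s) W := by
  obtain ⟨S, hS, hS1⟩ := hh.exists_ev W hs (fun _ => 1) (fun _ => zero_le_one)
  have e1 := duality2 hh hμ hW hs hS
  have e2 := duality2 hh hμ' hW hs hS
  have e : (fun F => S F s) = fun _ => (1 : ℝ) := by funext F; exact hS1 F
  rw [e, ex_one] at e1 e2
  rw [e1, e2]

/-- the data of the certificate: weights, selection densities, caps -/
structure Data (x : V → V → ℝ) (φ cap : V → V → ℝ → ℝ) (δ : ℝ) : Prop where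
  xs : ∀ a b, x a b = x b a
  x0 : ∀ a b, 0 ≤ x a b
  xd : ∀ a, x a a = 0
  φs : ∀ a b t, φ a b t = φ b a t
  φ0 : ∀ a b, ∀ t ∈ Icc (0 : ℝ) 1, 0 ≤ φ a b t
  φc : ∀ a b, ContinuousOn (φ a b) (Icc 0 1)
  cs : ∀ a b t, cap a b t = cap b a t
  c0 : ∀ a b, ∀ t ∈ Icc (0 : ℝ) 1, 0 ≤ cap a b t
  cc : ∀ a b, ContinuousOn (cap a b) (Icc 0 1)
  δ0 : 0 < δ
  δ1 : δ ≤ 1
  δc : ∀ a b, x a b ≠ 0 → ∀ t ∈ Icc (0 : ℝ) 1, δ * cap a b t ≤ x a b * φ a b t
  cp : ∀ a b, x a b ≠ 0 → ∀ t ∈ Icc (0 : ℝ) 1, 0 < cap a b t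
  cz : ∀ a b, x a b ≠ 0 → x a b * φ a b 0 ≤ cap a b 0

/-- the statement which the certificate has to prove -/
def Certified (x : V → V → ℝ) (φ cap : V → V → ℝ → ℝ) : Prop :=
  ∀ (h : ℝ → V → V → ℝ) (H : V → V → ℝ → ℝ), Haz h H →
    (∀ t ∈ Icc (0 : ℝ) 1, ∀ a b, h t a b ≤ cap a b t) →
    (∀ t ∈ Icc (0 : ℝ) 1, ∀ a b, x a b = 0 → h t a b = 0) →
    ∀ t ∈ Icc (0 : ℝ) 1, (∀ s ∈ Icc 0 t, ∀ a b, h s a b * pp h a b s = x a b * φ a b s) →
    ∀ a b, x a b ≠ 0 → φ a b t ≤ Real.exp (H a b t) * pp h a b t ∧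
      x a b * φ a b t < cap a b t * pp h a b t

/-- the nonlinear hazards -/
noncomputable def hzc (x : V → V → ℝ) (φ cap : V → V → ℝ → ℝ) (δ : ℝ) (t : ℝ)
    (y : Finset V → ℝ) (a b : V) : ℝ :=
  if x a b = 0 then 0 else
    min (cap a b (cl1 t)) ((x a b * φ a b (cl1 t)) * (max (pr (clw y) {a, b}) δ)⁻¹)

theorem hzc_ubl {x : V → V → ℝ} {φ cap : V → V → ℝ → ℝ} {δ : ℝ} (hD : Data x φ cap δ) (a b : V) :
    UBL fun t y => hzc x φ cap δ t y a b := by
  unfold hzc
  by_cases hx : x a b = 0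
  · simp only [if_pos hx]; exact UBL.const 0
  · simp only [if_neg hx]
    refine UBL.min ?_ (UBL.mul ?_ ((ubl_pr _).inv hD.δ0))
    · obtain ⟨C, hC⟩ := bdd_cl1 (hD.cc a b)
      exact UBL.ofTime (cont_cl1 (hD.cc a b)) hC
    · have hcont : ContinuousOn (fun t => x a b * φ a b t) (Icc (0 : ℝ) 1) :=
        continuousOn_const.mul (hD.φc a b)
      obtain ⟨C, hC⟩ := bdd_cl1 hcont
      exact UBL.ofTime (cont_cl1 hcont) hC

theorem hzc_nonneg {x : V → V → ℝ} {φ cap : V → V → ℝ → ℝ} {δ : ℝ} (hD : Data x φ cap δ)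
    (t : ℝ) (y : Finset V → ℝ) (a b : V) : 0 ≤ hzc x φ cap δ t y a b := by
  unfold hzc
  split_ifs
  · exact le_rfl
  · have ht := cl1_mem t
    refine le_min (hD.c0 a b _ ht) (mul_nonneg (mul_nonneg (hD.x0 a b) (hD.φ0 a b _ ht)) ?_)
    exact inv_nonneg.2 (hD.δ0.le.trans (le_max_right _ _))

theorem hzc_symm {x : V → V → ℝ} {φ cap : V → V → ℝ → ℝ} {δ : ℝ} (hD : Data x φ cap δ)
    (t : ℝ) (y : Finset V → ℝ) (a b : V) : hzc x φ cap δ t y a b = hzc x φ cap δ t y b a := by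
  unfold hzc
  rw [hD.xs a b, hD.φs a b, hD.cs a b, Finset.pair_comm a b]

/-- The bootstrap theorem. -/
theorem bootstrap {x : V → V → ℝ} {φ cap : V → V → ℝ → ℝ} {δ : ℝ} (hD : Data x φ cap δ)
    (hC : Certified x φ cap) :
    ∃ (h : ℝ → V → V → ℝ) (H : V → V → ℝ → ℝ), Haz h H ∧
      ∀ t ∈ Icc (0 : ℝ) 1, ∀ a b, h t a b * pp h a b t = x a b * φ a b t ∧
        (x a b = 0 → h t a b = 0) ∧
        (x a b ≠ 0 → φ a b t ≤ Real.exp (H a b t) * pp h a b t ∧ 0 < pp h a b t) := by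
  obtain ⟨μf, hμ0, hμc⟩ := exists_law2 (hz := fun t y a b => hzc x φ cap δ t y a b)
    (hzc_ubl hD) (hzc_nonneg hD) Finset.univ
  set h : ℝ → V → V → ℝ := fun t a b => hzc x φ cap δ t (μf (cl1 t)) a b with hh
  have hf : IsLaw h Finset.univ 1 μf :=
    ⟨hμ0.start, fun F t ht => by
      have := hμ0.deriv F t ht
      simp only [hh, cl1_of_mem ht]
      exact this, hμ0.nonneg, hμ0.total⟩
  have hprc : ∀ W : Finset V, Continuous fun t => pr (clw (μf (cl1 t))) W := by
    intro W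
    unfold pr clw
    refine continuous_finsetSum _ fun F _ => ?_
    have h2 : Continuous fun t => μf (cl1 t) F := hμc F
    exact (continuous_const.max (continuous_const.min h2)).mul continuous_const
  have hcont : ∀ a b, Continuous fun t => h t a b := by
    intro a b
    simp only [hh]
    unfold hzc
    by_cases hx : x a b = 0
    · simp only [if_pos hx]; exact continuous_const
    · simp only [if_neg hx]
      refine Continuous.min (cont_cl1 (hD.cc a b)) (Continuous.mul ?_ ?_)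
      · exact continuous_const.mul (cont_cl1 (hD.φc a b))
      · refine Continuous.inv₀ ((hprc _).max continuous_const) fun t => ?_
        exact (hD.δ0.trans_le (le_max_right _ _)).ne'
  have hbdd : ∃ C, ∀ t a b, h t a b ≤ C := by
    have h1 : ∀ a b, ∃ C, ∀ t, h t a b ≤ C := by
      intro a b
      obtain ⟨K, C, _, _, _, hb⟩ := (hzc_ubl hD a b).ex
      exact ⟨C, fun t => (le_abs_self _).trans (hb t _)⟩
    choose C hC using h1
    refine ⟨∑ a, ∑ b, |C a b|, fun t a b => (hC a b t).trans ((le_abs_self _).trans ?_)⟩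
    refine (Finset.single_le_sum (f := fun b => |C a b|) (fun _ _ => abs_nonneg _)
      (Finset.mem_univ b)).trans ?_
    exact Finset.single_le_sum (f := fun a => ∑ b, |C a b|)
      (fun _ _ => Finset.sum_nonneg fun _ _ => abs_nonneg _) (Finset.mem_univ a)
  set H : V → V → ℝ → ℝ := fun a b t => ∫ τ in (0 : ℝ)..t, h τ a b with hHc
  have hz0 : ∀ t a b, x a b = 0 → h t a b = 0 := fun t a b hx => by
    simp only [hh]; unfold hzc; rw [if_pos hx]
  have hhaz : Haz h H := by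
    refine ⟨fun t a b => hzc_symm hD _ _ _ _, fun t a => hz0 t a a (hD.xd a),
      fun t a b => hzc_nonneg hD _ _ _ _, hcont, hbdd, fun a b t => ?_, fun a b => ?_⟩
    · simp only [hHc]
      exact intervalIntegral.integral_hasDerivAt_right ((hcont a b).intervalIntegrable _ _)
        ((hcont a b).stronglyMeasurableAtFilter _ _) (hcont a b).continuousAt
    · simp [hHc]
  have hpp : ∀ t ∈ Icc (0 : ℝ) 1, ∀ a b, pp h a b t = pr (μf t) {a, b} := by
    intro t ht a b
    have h1 := hhaz.lw (∅ : Finset V)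
    have e : (∅ : Finset V)ᶜ = Finset.univ := Finset.compl_empty
    rw [e] at h1
    exact pr_unique hhaz h1 hf (Finset.subset_univ _) ht
  have hcap : ∀ t ∈ Icc (0 : ℝ) 1, ∀ a b, h t a b ≤ cap a b t := by
    intro t ht a b
    simp only [hh]
    unfold hzc
    rw [cl1_of_mem ht]
    split_ifs
    · exact hD.c0 a b t ht
    · exact min_le_left _ _
  -- exact flux whenever the cap is not active
  have hflux : ∀ t ∈ Icc (0 : ℝ) 1, ∀ a b, x a b ≠ 0 →
      x a b * φ a b t ≤ cap a b t * pr (μf t) {a, b} →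
      h t a b * pp h a b t = x a b * φ a b t := by
    intro t ht a b hx hle
    have hc := hD.cp a b hx t ht
    have h1 := hD.δc a b hx t ht
    have hδp : δ ≤ pr (μf t) {a, b} := by
      have : cap a b t * δ ≤ cap a b t * pr (μf t) {a, b} := by linarith
      exact le_of_mul_le_mul_left this hc
    have hppos : 0 < pr (μf t) {a, b} := hD.δ0.trans_le hδp
    rw [hpp t ht]
    simp only [hh]
    unfold hzc
    rw [cl1_of_mem ht, if_neg hx, clw_law hf ht, max_eq_left hδp, min_eq_right]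
    · rw [mul_assoc, inv_mul_cancel₀ hppos.ne', mul_one]
    · rw [← div_eq_mul_inv, div_le_iff₀ hppos]
      exact hle
  have hflux0 : ∀ t ∈ Icc (0 : ℝ) 1, ∀ a b, x a b = 0 →
      h t a b * pp h a b t = x a b * φ a b t := by
    intro t _ a b hx
    rw [hz0 t a b hx, hx]; ring
  -- continuity of the flux difference
  have hprcont : ∀ a b, Continuous fun t => pr (μf (cl1 t)) {a, b} := by
    intro a b
    unfold pr
    refine continuous_finsetSum _ fun F _ => ?_
    have h2 : Continuous fun t => μf (cl1 t) F := hμc F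
    exact h2.mul continuous_const
  -- continuation
  set Sx : Set ℝ := {t | t ∈ Icc (0:ℝ) 1 ∧ ∀ s ∈ Icc 0 t, ∀ a b,
    h s a b * pp h a b s = x a b * φ a b s} with hSx
  have h0S : (0 : ℝ) ∈ Sx := by
    refine ⟨⟨le_rfl, zero_le_one⟩, fun s hs a b => ?_⟩
    have hs0 : s = 0 := le_antisymm hs.2 hs.1
    subst hs0
    by_cases hx : x a b = 0
    · exact hflux0 0 ⟨le_rfl, zero_le_one⟩ a b hx
    · refine hflux 0 ⟨le_rfl, zero_le_one⟩ a b hx ?_
      have : pr (μf 0) {a, b} = 1 := by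
        rw [hf.pr_start, if_pos (Finset.subset_univ _)]
      rw [this, mul_one]
      exact hD.cz a b hx
  -- supremum argument
  have hbd : BddAbove Sx := ⟨1, fun t ht => ht.1.2⟩
  set T := sSup Sx with hT
  have hT0 : 0 ≤ T := le_csSup hbd h0S
  have hT1 : T ≤ 1 := csSup_le ⟨0, h0S⟩ fun t ht => ht.1.2
  have hlt : ∀ s ∈ Ico 0 T, ∀ a b, h s a b * pp h a b s = x a b * φ a b s := by
    intro s hs a b
    obtain ⟨t, ht, hst⟩ := exists_lt_of_lt_csSup ⟨0, h0S⟩ hs.2
    exact ht.2 s ⟨hs.1, hst.le⟩ a b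
  have hTmem : T ∈ Icc (0:ℝ) 1 := ⟨hT0, hT1⟩
  have hTS : T ∈ Sx := by
    refine ⟨hTmem, fun s hs a b => ?_⟩
    rcases lt_or_eq_of_le hs.2 with hsT | hsT
    · exact hlt s ⟨hs.1, hsT⟩ a b
    · rw [hsT]
      by_cases hT00 : T = 0
      · exact h0S.2 T ⟨hT0, by rw [hT00]⟩ a b
      have hTpos : 0 < T := lt_of_le_of_ne hT0 (Ne.symm hT00)
      -- limit
      have hc1 : ContinuousWithinAt (fun t => h t a b * pr (μf (cl1 t)) {a, b}
          - x a b * φ a b (cl1 t)) (Iio T) T :=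
        (((hcont a b).mul (hprcont a b)).sub
          (continuous_const.mul (cont_cl1 (hD.φc a b)))).continuousWithinAt
      have hc2 : Filter.Tendsto (fun t => h t a b * pr (μf (cl1 t)) {a, b}
          - x a b * φ a b (cl1 t)) (nhdsWithin T (Iio T))
          (nhds (h T a b * pr (μf (cl1 T)) {a, b} - x a b * φ a b (cl1 T))) := hc1
      have hc3 : Filter.Tendsto (fun t => h t a b * pr (μf (cl1 t)) {a, b}
          - x a b * φ a b (cl1 t)) (nhdsWithin T (Iio T)) (nhds 0) := by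
        refine Filter.Tendsto.congr' ?_ tendsto_const_nhds
        have : Ioo 0 T ∈ nhdsWithin T (Iio T) := Ioo_mem_nhdsLT hTpos
        filter_upwards [this] with t ht
        have ht1 : t ∈ Icc (0:ℝ) 1 := ⟨ht.1.le, ht.2.le.trans hT1⟩
        have := hlt t ⟨ht.1.le, ht.2⟩ a b
        rw [hpp t ht1] at this
        rw [cl1_of_mem ht1, this, sub_self]
      have : (nhdsWithin T (Iio T)).NeBot := inferInstance
      have := tendsto_nhds_unique hc2 hc3
      rw [cl1_of_mem hTmem] at this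
      rw [hpp T hTmem]
      linarith
  have hTeq : T = 1 := by
    by_contra hne
    have hTlt : T < 1 := lt_of_le_of_ne hT1 hne
    -- strictness at T
    have hstr := hC h H hhaz hcap (fun t _ a b hx => hz0 t a b hx) T hTmem hTS.2
    have hev : ∀ a b, ∀ᶠ t in nhdsWithin T (Ioi T), x a b ≠ 0 →
        x a b * φ a b (cl1 t) < cap a b (cl1 t) * pr (μf (cl1 t)) {a, b} := by
      intro a b
      by_cases hx : x a b = 0
      · exact Filter.Eventually.of_forall fun t h => absurd hx h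
      have h1 := (hstr a b hx).2
      rw [hpp T hTmem] at h1
      have hc1 : Continuous fun t => cap a b (cl1 t) * pr (μf (cl1 t)) {a, b}
          - x a b * φ a b (cl1 t) :=
        ((cont_cl1 (hD.cc a b)).mul (hprcont a b)).sub
          (continuous_const.mul (cont_cl1 (hD.φc a b)))
      have h2 : (0:ℝ) < cap a b (cl1 T) * pr (μf (cl1 T)) {a, b} - x a b * φ a b (cl1 T) := by
        rw [cl1_of_mem hTmem]; linarith
      have h3 := (hc1.continuousAt (x := T)).eventually (lt_mem_nhds h2)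
      filter_upwards [nhdsWithin_le_nhds h3] with t ht _
      linarith
    have hall : ∀ᶠ t in nhdsWithin T (Ioi T), ∀ a b, x a b ≠ 0 →
        x a b * φ a b (cl1 t) < cap a b (cl1 t) * pr (μf (cl1 t)) {a, b} := by
      rw [Filter.eventually_all]; intro a
      rw [Filter.eventually_all]; intro b
      exact hev a b
    obtain ⟨ε, hε, hεall⟩ := (mem_nhdsGT_iff_exists_Ioo_subset.1 hall)
    -- pick a time beyond T
    set t1 := min ((T + ε) / 2) 1 with ht1
    have hTε : T < ε := hε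
    have hTt1 : T < t1 := lt_min (by linarith) hTlt
    have ht1ε : t1 < ε := lt_of_le_of_lt (min_le_left _ _) (by linarith)
    have ht11 : t1 ≤ 1 := min_le_right _ _
    have ht1S : t1 ∈ Sx := by
      refine ⟨⟨hT0.trans hTt1.le, ht11⟩, fun s hs a b => ?_⟩
      rcases le_or_gt s T with hsT | hsT
      · exact hTS.2 s ⟨hs.1, hsT⟩ a b
      · have hs1 : s ∈ Icc (0:ℝ) 1 := ⟨hs.1, hs.2.trans ht11⟩
        by_cases hx : x a b = 0
        · exact hflux0 s hs1 a b hx
        · have h3 : s ∈ Ioo T ε := ⟨hsT, lt_of_le_of_lt hs.2 ht1ε⟩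
          have h4 := hεall h3 a b hx
          rw [cl1_of_mem hs1] at h4
          exact hflux s hs1 a b hx h4.le
    have := le_csSup hbd ht1S
    linarith
  rw [hTeq] at hTS
  refine ⟨h, H, hhaz, fun t ht a b => ⟨hTS.2 t ht a b, hz0 t a b, fun hx => ?_⟩⟩
  have hstr := hC h H hhaz hcap (fun t _ a b hx => hz0 t a b hx) t ht
    (fun s hs => hTS.2 s ⟨hs.1, hs.2.trans ht.2⟩) a b hx
  refine ⟨hstr.1, ?_⟩
  have h1 := mul_nonneg (hD.x0 a b) (hD.φ0 a b t ht)
  have h2 := hD.cp a b hx t ht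
  by_contra hneg
  push Not at hneg
  have : cap a b t * pp h a b t ≤ 0 := mul_nonpos_of_nonneg_of_nonpos h2.le hneg
  linarith [hstr.2]

end Pool.Agent.RCG
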