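import Pool.Agent.RCG.Xi

/-! Closure data and the resulting influence bounds (MP_73ccd0_lc, general graphs). -/

namespace Pool.Agent.RCG

open Set Finset Pool.Agent.RCRSHalf

set_option linter.unusedSectionVars false

variable {V : Type*} [Fintype V] [DecidableEq V]
variable {h : ℝ → V → V → ℝ} {H : V → V → ℝ → ℝ}

/-- closure data for the target `w` with horizon `t` on the vertex set `H0` -/
structure Clo (h : ℝ → V → V → ℝ) (w : V) (H0 : Finset V) (t : ℝ) (P N : V → ℝ → ℝ) : Prop where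
  P0 : ∀ a ∈ H0, ∀ r ∈ Icc 0 t, 0 ≤ P a r
  N0 : ∀ a ∈ H0, ∀ r ∈ Icc 0 t, 0 ≤ N a r
  N1 : ∀ a ∈ H0, ∀ r ∈ Icc 0 t, N a r ≤ 1
  Pd : ∀ a ∈ H0, ∀ r ∈ Icc 0 t, ∃ P', HasDerivAt (P a) P' r ∧
    (1 + P a r) * (h r w a + ∑ b ∈ H0, h r a b * N b r) ≤ -P'
  Nd : ∀ a ∈ H0, ∀ r ∈ Icc 0 t, ∃ N', HasDerivAt (N a) N' r ∧ ∑ b ∈ H0, h r a b * P b r ≤ -N'

/-- influence bounds from closure data, for general backward functions with target `w` -/
theorem Clo.inf (hh : Haz h H) {w : V} {H0 : Finset V} {t s : ℝ} {P N : V → ℝ → ℝ}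
    (hC : Clo h w H0 t P N) (hs : s ≤ t) {ρ c : ℝ → ℝ} (ρ0 : ∀ t, 0 ≤ ρ t) (c0 : ∀ t, 0 ≤ c t)
    {R : Finset V → ℝ → ℝ} (hR : IsEv h (fun r a => h r w a) ρ c s R)
    (hPs : ∀ G ⊆ H0, ∀ a ∈ G, R (G.erase a) s ≤ (1 + P a s) * R G s)
    (hNs : ∀ G ⊆ H0, ∀ a ∈ G, (1 - N a s) * R G s ≤ R (G.erase a) s) : Inf H0 s R P N := by
  have hm : ∀ r ∈ Icc 0 s, r ∈ Icc 0 t := fun r hr => ⟨hr.1, hr.2.trans hs⟩
  have key := infl (P := P) (N := N) (P' := fun a => deriv (P a)) (N' := fun a => deriv (N a))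
    hh.symm hh.diag hh.nonneg (fun t a => hh.nonneg t w a) ρ0 c0 hR H0
    (fun a ha r hr => by
      obtain ⟨P', h1, _⟩ := hC.Pd a ha r (hm r hr)
      rw [h1.deriv]; exact h1)
    (fun a ha r hr => by
      obtain ⟨N', h1, _⟩ := hC.Nd a ha r (hm r hr)
      rw [h1.deriv]; exact h1)
    (fun a ha r hr => hC.P0 a ha r (hm r hr)) (fun a ha r hr => hC.N0 a ha r (hm r hr))
    (fun a ha r hr => hC.N1 a ha r (hm r hr))
    (fun a ha r hr => by
      obtain ⟨P', h1, h2⟩ := hC.Pd a ha r (hm r hr)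
      rw [h1.deriv]; exact h2)
    (fun a ha r hr => by
      obtain ⟨N', h1, h2⟩ := hC.Nd a ha r (hm r hr)
      rw [h1.deriv]; exact h2)
    hPs hNs
  exact ⟨fun a ha r hr => hC.P0 a ha r (hm r hr), fun a ha r hr => hC.N0 a ha r (hm r hr),
    fun a ha r hr => hC.N1 a ha r (hm r hr), fun G hG a ha r hr => (key G hG a ha r hr).1,
    fun G hG a ha r hr => (key G hG a ha r hr).2⟩

theorem Clo.tgt (hh : Haz h H) {w : V} {H0 : Finset V} {t : ℝ} {P N : V → ℝ → ℝ}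
    (hC : Clo h w H0 t P N) (ht : t ∈ Icc (0 : ℝ) 1) : Inf H0 t (tgt h w t) P N := by
  have hT := hh.tgt w ht
  refine hC.inf hh le_rfl (fun _ => le_rfl) (fun _ => le_rfl) hT.ev (fun G hG a ha => ?_)
    (fun G hG a ha => ?_)
  · rw [hT.end_, hT.end_]
    linarith [hC.P0 a (hG ha) t ⟨ht.1, le_rfl⟩]
  · rw [hT.end_, hT.end_]
    linarith [hC.N0 a (hG ha) t ⟨ht.1, le_rfl⟩]

theorem Clo.src (hh : Haz h H) {u w : V} {H0 : Finset V} {t : ℝ} {P N : V → ℝ → ℝ}
    (hC : Clo h w H0 t P N) (ht : t ∈ Icc (0 : ℝ) 1) : Inf H0 t (src h u w t) P N := by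
  have hT := hh.src u w ht
  refine hC.inf hh le_rfl (fun r => hh.nonneg r u w) (fun r => hh.nonneg r u w) hT.ev
    (fun G hG a ha => ?_) (fun G hG a ha => ?_)
  · rw [hT.end_, hT.end_]; simp
  · rw [hT.end_, hT.end_]; simp

/-- restarted source function -/
theorem Clo.src_restart (hh : Haz h H) {u w : V} {H0 : Finset V} {t s : ℝ} {P N : V → ℝ → ℝ}
    (hC : Clo h w H0 t P N) (ht : t ∈ Icc (0 : ℝ) 1) (hs : s ∈ Icc 0 t) {R : Finset V → ℝ → ℝ}
    (hR : IsEv h (fun r a => h r w a) (fun _ => 0) (fun _ => 0) s R)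
    (hRs : ∀ F, R F s = RCG.src h u w t F s) : Inf H0 s R P N := by
  have hI := hC.src (u := u) hh ht
  refine hC.inf hh hs.2 (fun _ => le_rfl) (fun _ => le_rfl) hR (fun G hG a ha => ?_)
    (fun G hG a ha => ?_)
  · rw [hRs, hRs]; exact hI.up G hG a ha s hs
  · rw [hRs, hRs]; exact hI.lo G hG a ha s hs

/-- closure data from exponential form -/
theorem Clo.mk_exp (hh : Haz h H) {w : V} {H0 : Finset V} {t : ℝ} {Y N Y' N' : V → ℝ → ℝ}
    (ht0 : 0 ≤ t)
    (hY0 : ∀ a ∈ H0, ∀ r ∈ Icc 0 t, 0 ≤ Y a r)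
    (hN0 : ∀ a ∈ H0, ∀ r ∈ Icc 0 t, 0 ≤ N a r) (hN1 : ∀ a ∈ H0, ∀ r ∈ Icc 0 t, N a r ≤ 1)
    (hYd : ∀ a ∈ H0, ∀ r ∈ Icc 0 t, HasDerivAt (Y a) (Y' a r) r)
    (hNd : ∀ a ∈ H0, ∀ r ∈ Icc 0 t, HasDerivAt (N a) (N' a r) r)
    (hY : ∀ a ∈ H0, ∀ r ∈ Icc 0 t, ∑ b ∈ H0, h r a b * N b r ≤ -Y' a r)
    (hN : ∀ a ∈ H0, ∀ r ∈ Icc 0 t,
      ∑ b ∈ H0, h r a b * (Real.exp (H w b t - H w b r + Y b r) - 1) ≤ -N' a r) :
    Clo h w H0 t (fun a r => Real.exp (H w a t - H w a r + Y a r) - 1) N := by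
  refine ⟨fun a ha r hr => ?_, hN0, hN1, fun a ha r hr => ?_, fun a ha r hr => ⟨_, hNd a ha r hr,
    hN a ha r hr⟩⟩
  · have h1 := hh.Hmono w a hr.2
    have := Real.one_le_exp (add_nonneg (sub_nonneg.2 h1) (hY0 a ha r hr))
    linarith
  · have d1 := ((((hh.Hd w a r).const_sub (H w a t)).add (hYd a ha r hr)).exp).sub_const 1
    refine ⟨_, d1, ?_⟩
    have e0 : 0 ≤ Real.exp (H w a t - H w a r + Y a r) := (Real.exp_pos _).le
    have := mul_le_mul_of_nonneg_left (hY a ha r hr) e0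
    show (1 + (Real.exp (H w a t - H w a r + Y a r) - 1)) * (h r w a + ∑ b ∈ H0, h r a b * N b r)
      ≤ -(Real.exp (H w a t - H w a r + Y a r) * (-h r w a + Y' a r))
    nlinarith

/-- expectation of the source function (3.4) -/
noncomputable def zx (h : ℝ → V → V → ℝ) (H : V → V → ℝ → ℝ) (D : Finset V) (u w : V) (t s : ℝ) :
    ℝ := Real.exp (-H u w s) * ex (lw h D s) {w} (fun F => src h u w t F s)

theorem zx_deriv (hh : Haz h H) {D : Finset V} {u w : V} {t : ℝ} (ht : t ∈ Icc (0 : ℝ) 1) {s : ℝ}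
    (hs : s ∈ Icc 0 t) :
    HasDerivAt (zx h H D u w t) (-(h s u w * Real.exp (-H u w s) * bb h D w s)) s := by
  have hμ := hh.lw D
  have hZ := hh.src u w ht
  set Z := RCG.src h u w t with hZdef
  have h1 := hμ.deriv_sum
    (φ := fun s F => if ({w} : Finset V) ⊆ F then Z (F \ {w}) s else 0)
    (φ' := fun s F => if ({w} : Finset V) ⊆ F then
      (-(gen (h s) (fun G => Z G s) (F \ {w}) - (∑ a ∈ F \ {w}, h s w a) * Z (F \ {w}) s
        - h s u w * Z (F \ {w}) s + h s u w)) else 0)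
    (t := s) ⟨hs.1, hs.2.trans ht.2⟩
    (fun F => by
      by_cases hF : ({w} : Finset V) ⊆ F
      · simp only [if_pos hF]
        exact hZ.ev.deriv _ s hs
      · simp only [if_neg hF]
        exact hasDerivAt_const _ _)
  have h2 := (hh.Hd u w s).neg.exp.mul h1
  have e0 : zx h H D u w t = fun s => Real.exp (-H u w s) * ∑ F : Finset V, lw h D s F *
      (if ({w} : Finset V) ⊆ F then Z (F \ {w}) s else 0) := rfl
  rw [e0]
  refine h2.congr_deriv ?_
  have e1 : ∀ F : Finset V, gen (h s) (fun G => if ({w} : Finset V) ⊆ G then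
        Z (G \ {w}) s else 0) F
      + (if ({w} : Finset V) ⊆ F then
      (-(gen (h s) (fun G => Z G s) (F \ {w}) - (∑ a ∈ F \ {w}, h s w a) * Z (F \ {w}) s
        - h s u w * Z (F \ {w}) s + h s u w)) else 0)
      = if ({w} : Finset V) ⊆ F then h s u w * Z (F \ {w}) s - h s u w else 0 := by
    intro F
    by_cases hF : ({w} : Finset V) ⊆ F
    · have e2 := gen_super (h s) (hh.symm s) {w} F hF (fun G => Z G s)
      rw [e2, if_pos hF, if_pos hF]
      simp only [Finset.sum_singleton, hh.diag]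
      ring
    · rw [if_neg hF, if_neg hF]
      have : gen (h s) (fun G => if ({w} : Finset V) ⊆ G then
          Z (G \ {w}) s else 0) F = gen (h s) (fun _ => 0) F := by
        refine gen_congr fun G hG => ?_
        rw [if_neg (fun hh => hF (hh.trans hG))]
      rw [this, gen_const, add_zero]
  simp only [e1]
  simp only [Pi.neg_apply]
  have e5 : ∑ F : Finset V, lw h D s F * (if ({w} : Finset V) ⊆ F then
        h s u w * Z (F \ {w}) s - h s u w else 0)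
      = h s u w * ∑ F : Finset V, lw h D s F *
      (if ({w} : Finset V) ⊆ F then Z (F \ {w}) s else 0) - h s u w * bb h D w s := by
    unfold bb pr
    rw [Finset.mul_sum, Finset.mul_sum, ← Finset.sum_sub_distrib]
    refine Finset.sum_congr rfl fun F _ => ?_
    split_ifs <;> ring
  rw [e5]
  ring

theorem zx_end (hh : Haz h H) {D : Finset V} {u w : V} {t : ℝ} (ht : t ∈ Icc (0 : ℝ) 1) :
    zx h H D u w t t = 0 := by
  unfold zx ex
  rw [Finset.sum_eq_zero, mul_zero]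
  intro F _
  have := (hh.src u w ht).end_ (F \ {w})
  split_ifs
  · simp only [this, mul_zero]
  · simp

/-- upper bound for the expectation of the source function -/
theorem zx_le (hh : Haz h H) {D : Finset V} {u w : V} {t : ℝ} (ht : t ∈ Icc (0 : ℝ) 1)
    {J J' : ℝ → ℝ} (hJ : ∀ s ∈ Icc 0 t, HasDerivAt J (J' s) s) (hJt : 0 ≤ J t)
    (hJ' : ∀ s ∈ Icc 0 t, h s u w * Real.exp (-H u w s) * bb h D w s ≤ -J' s) :
    ∀ s ∈ Icc 0 t, zx h H D u w t s ≤ J s := by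
  intro s hs
  have key := nonneg_of_backward (U := fun s => J s - zx h H D u w t s)
    (U' := fun s => J' s - (-(h s u w * Real.exp (-H u w s) * bb h D w s)))
    (a := 0) (s := t) (fun s hs => (hJ s hs).sub (zx_deriv hh ht hs))
    (by rw [zx_end hh ht]; linarith) (fun s hs _ => by have := hJ' s hs; linarith) s hs
  linarith

end Pool.Agent.RCG
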