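import Pool.Agent.RCG.Infl

/-! Comparison of the backward function of several targets with the product of the target functions
(MP_73ccd0_lc, general graphs). -/

namespace Pool.Agent.RCG

open Set Finset Pool.Agent.RCRSHalf

set_option linter.unusedSectionVars false

variable {V : Type*} [Fintype V] [DecidableEq V]

/-- total rate -/
noncomputable def rate (h : V → V → ℝ) (F : Finset V) : ℝ := (1 / 2) * ∑ a ∈ F, ∑ b ∈ F, h a b

theorem rate_nonneg {h : V → V → ℝ} (h0 : ∀ a b, 0 ≤ h a b) (F : Finset V) : 0 ≤ rate h F :=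
  mul_nonneg (by norm_num) (Finset.sum_nonneg fun _ _ => Finset.sum_nonneg fun _ _ => h0 _ _)

/-- monotonicity of the generator up to the total rate -/
theorem gen_mono {h : V → V → ℝ} (h0 : ∀ a b, 0 ≤ h a b) {φ ψ : Finset V → ℝ} {F : Finset V}
    (hle : ∀ a ∈ F, ∀ b ∈ F, φ ((F.erase a).erase b) ≤ ψ ((F.erase a).erase b)) :
    gen h φ F + rate h F * φ F ≤ gen h ψ F + rate h F * ψ F := by
  have e : ∀ χ : Finset V → ℝ, gen h χ F + rate h F * χ F
      = (1 / 2) * ∑ a ∈ F, ∑ b ∈ F, h a b * χ ((F.erase a).erase b) := by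
    intro χ
    unfold gen rate
    rw [mul_assoc, Finset.sum_mul, ← mul_add, ← Finset.sum_add_distrib]
    congr 1
    refine Finset.sum_congr rfl fun a _ => ?_
    rw [Finset.sum_mul, ← Finset.sum_add_distrib]
    exact Finset.sum_congr rfl fun b _ => by ring
  rw [e, e]
  refine mul_le_mul_of_nonneg_left ?_ (by norm_num)
  exact Finset.sum_le_sum fun a ha => Finset.sum_le_sum fun b hb =>
    mul_le_mul_of_nonneg_left (hle a ha b hb) (h0 _ _)

theorem gen_smul (h : V → V → ℝ) (c : ℝ) (φ : Finset V → ℝ) (F : Finset V) :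
    gen h (fun G => c * φ G) F = c * gen h φ F := (genL h F).map_smul c φ

theorem gen_add (h : V → V → ℝ) (φ ψ : Finset V → ℝ) (F : Finset V) :
    gen h (fun G => φ G + ψ G) F = gen h φ F + gen h ψ F := (genL h F).map_add φ ψ

theorem gen_sub (h : V → V → ℝ) (φ ψ : Finset V → ℝ) (F : Finset V) :
    gen h (fun G => φ G - ψ G) F = gen h φ F - gen h ψ F := (genL h F).map_sub φ ψ

section cmp

variable {h : ℝ → V → V → ℝ} {ι : Type*} [DecidableEq ι] {W : Finset ι} {k : ι → ℝ → V → ℝ}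
  {s : ℝ} {R : ι → Finset V → ℝ → ℝ} {S : Finset V → ℝ → ℝ}

/-- Upper comparison. -/
theorem cmpU (h0 : ∀ t a b, 0 ≤ h t a b) (k0 : ∀ i ∈ W, ∀ t a, 0 ≤ k i t a)
    (hR : ∀ i ∈ W, IsEv h (k i) (fun _ => 0) (fun _ => 0) s (R i))
    (hS : IsEv h (fun t a => ∑ i ∈ W, k i t a) (fun _ => 0) (fun _ => 0) s S) (H0 : Finset V)
    {κ κ' : ℝ → ℝ} (hκd : ∀ r ∈ Icc 0 s, HasDerivAt κ (κ' r) r)
    (hend : ∀ G ⊆ H0, S G s ≤ Real.exp (κ s) * ∏ i ∈ W, R i G s)
    (hQ : ∀ G ⊆ H0, ∀ r ∈ Icc 0 s, gen (h r) (fun F => ∏ i ∈ W, R i F r) G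
      - ∑ i ∈ W, (∏ j ∈ W.erase i, R j G r) * gen (h r) (fun F => R i F r) G
      ≤ (-κ' r) * ∏ i ∈ W, R i G r) :
    ∀ G ⊆ H0, ∀ r ∈ Icc 0 s, S G r ≤ Real.exp (κ r) * ∏ i ∈ W, R i G r := by
  intro G
  induction hn : G.card using Nat.strong_induction_on generalizing G with
  | _ n ih =>
  intro hG
  have key := nonneg_of_backward (U := fun r => Real.exp (κ r) * ∏ i ∈ W, R i G r - S G r)
    (U' := fun r => (Real.exp (κ r) * κ' r * ∏ i ∈ W, R i G r + Real.exp (κ r) *
        ∑ i ∈ W, (∏ j ∈ W.erase i, R j G r) •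
          (-(gen (h r) (fun F => R i F r) G - (∑ c ∈ G, k i r c) * R i G r - 0 * R i G r + 0)))
      - (-(gen (h r) (fun F => S F r) G - (∑ c ∈ G, ∑ i ∈ W, k i r c) * S G r - 0 * S G r + 0)))
    (a := 0) (s := s) (fun r hr => by
      have hp : HasDerivAt (fun r => ∏ i ∈ W, R i G r) (∑ i ∈ W, (∏ j ∈ W.erase i, R j G r) •
          (-(gen (h r) (fun F => R i F r) G - (∑ c ∈ G, k i r c) * R i G r - 0 * R i G r + 0))) r :=
        HasDerivAt.fun_finsetProd fun i hi => (hR i hi).deriv G r hr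
      exact ((hκd r hr).exp.mul hp).sub (hS.deriv G r hr))
    (by have := hend G hG; linarith) ?_
  · intro r hr
    have := key r hr
    linarith
  · intro r hr hU
    set E : ℝ := Real.exp (κ r) with hE
    have hE0 : 0 < E := Real.exp_pos _
    set Pi0 : ℝ := ∏ i ∈ W, R i G r with hPi
    set U : ℝ := E * Pi0 - S G r with hUdef
    set D : ℝ := ∑ i ∈ W, (∏ j ∈ W.erase i, R j G r) * gen (h r) (fun F => R i F r) G with hD
    -- the derivative of the product
    have e1 : ∑ i ∈ W, (∏ j ∈ W.erase i, R j G r) •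
          (-(gen (h r) (fun F => R i F r) G - (∑ c ∈ G, k i r c) * R i G r - 0 * R i G r + 0))
        = -D + (∑ c ∈ G, ∑ i ∈ W, k i r c) * Pi0 := by
      rw [Finset.sum_comm, hD, ← Finset.sum_neg_distrib, Finset.sum_mul, ← Finset.sum_add_distrib]
      refine Finset.sum_congr rfl fun i hi => ?_
      rw [hPi, ← Finset.mul_prod_erase W (fun i => R i G r) hi, smul_eq_mul]
      ring
    have t1 : gen (h r) (fun F => S F r) G + rate (h r) G * S G r
        ≤ gen (h r) (fun F => E * ∏ i ∈ W, R i F r) G + rate (h r) G * (E * Pi0) := by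
      refine gen_mono (h0 r) fun a ha b hb => ?_
      have hcard : ((G.erase a).erase b).card < n := by
        rw [← hn]
        exact (Finset.card_le_card (Finset.erase_subset _ _)).trans_lt
          (Finset.card_erase_lt_of_mem ha)
      exact ih _ hcard ((G.erase a).erase b) rfl
        ((Finset.erase_subset _ _).trans ((Finset.erase_subset _ _).trans hG)) r hr
    rw [gen_smul] at t1
    have t2 := hQ G hG r hr
    rw [← hD, ← hPi] at t2
    have t3 := mul_le_mul_of_nonneg_left t2 hE0.le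
    have t5 : 0 ≤ ∑ c ∈ G, ∑ i ∈ W, k i r c :=
      Finset.sum_nonneg fun c _ => Finset.sum_nonneg fun i hi => k0 i hi _ _
    have u1 : rate (h r) G * U ≤ 0 :=
      mul_nonpos_of_nonneg_of_nonpos (rate_nonneg (h0 r) G) hU.le
    have u3 : (∑ c ∈ G, ∑ i ∈ W, k i r c) * U ≤ 0 := mul_nonpos_of_nonneg_of_nonpos t5 hU.le
    have eU : S G r = E * Pi0 - U := by rw [hUdef]; ring
    rw [e1]
    have e2 : (∑ c ∈ G, ∑ i ∈ W, k i r c) * S G r
        = (∑ c ∈ G, ∑ i ∈ W, k i r c) * (E * Pi0) - (∑ c ∈ G, ∑ i ∈ W, k i r c) * U := by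
      rw [eU]; ring
    have e3 : rate (h r) G * S G r = rate (h r) G * (E * Pi0) - rate (h r) G * U := by
      rw [eU]; ring
    nlinarith [t1, t3, u1, u3, e2, e3]

/-- Lower comparison. -/
theorem cmpL (h0 : ∀ t a b, 0 ≤ h t a b) (k0 : ∀ i ∈ W, ∀ t a, 0 ≤ k i t a)
    (hR : ∀ i ∈ W, IsEv h (k i) (fun _ => 0) (fun _ => 0) s (R i))
    (hS : IsEv h (fun t a => ∑ i ∈ W, k i t a) (fun _ => 0) (fun _ => 0) s S) (H0 : Finset V)
    {κ κ' : ℝ → ℝ} (hκd : ∀ r ∈ Icc 0 s, HasDerivAt κ (κ' r) r)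
    (hend : ∀ G ⊆ H0, Real.exp (-κ s) * ∏ i ∈ W, R i G s ≤ S G s)
    (hQ : ∀ G ⊆ H0, ∀ r ∈ Icc 0 s, -((-κ' r) * ∏ i ∈ W, R i G r) ≤
      gen (h r) (fun F => ∏ i ∈ W, R i F r) G
      - ∑ i ∈ W, (∏ j ∈ W.erase i, R j G r) * gen (h r) (fun F => R i F r) G) :
    ∀ G ⊆ H0, ∀ r ∈ Icc 0 s, Real.exp (-κ r) * ∏ i ∈ W, R i G r ≤ S G r := by
  intro G
  induction hn : G.card using Nat.strong_induction_on generalizing G with
  | _ n ih =>
  intro hG
  have key := nonneg_of_backward (U := fun r => S G r - Real.exp (-κ r) * ∏ i ∈ W, R i G r)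
    (U' := fun r => (-(gen (h r) (fun F => S F r) G - (∑ c ∈ G, ∑ i ∈ W, k i r c) * S G r
        - 0 * S G r + 0))
      - (Real.exp (-κ r) * (-κ' r) * ∏ i ∈ W, R i G r + Real.exp (-κ r) *
        ∑ i ∈ W, (∏ j ∈ W.erase i, R j G r) •
          (-(gen (h r) (fun F => R i F r) G - (∑ c ∈ G, k i r c) * R i G r - 0 * R i G r + 0))))
    (a := 0) (s := s) (fun r hr => by
      have hp : HasDerivAt (fun r => ∏ i ∈ W, R i G r) (∑ i ∈ W, (∏ j ∈ W.erase i, R j G r) •
          (-(gen (h r) (fun F => R i F r) G - (∑ c ∈ G, k i r c) * R i G r - 0 * R i G r + 0))) r :=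
        HasDerivAt.fun_finsetProd fun i hi => (hR i hi).deriv G r hr
      exact (hS.deriv G r hr).sub ((hκd r hr).neg.exp.mul hp))
    (by have := hend G hG; linarith) ?_
  · intro r hr
    have := key r hr
    linarith
  · intro r hr hU
    set E : ℝ := Real.exp (-κ r) with hE
    have hE0 : 0 < E := Real.exp_pos _
    set Pi0 : ℝ := ∏ i ∈ W, R i G r with hPi
    set U : ℝ := S G r - E * Pi0 with hUdef
    set D : ℝ := ∑ i ∈ W, (∏ j ∈ W.erase i, R j G r) * gen (h r) (fun F => R i F r) G with hD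
    have e1 : ∑ i ∈ W, (∏ j ∈ W.erase i, R j G r) •
          (-(gen (h r) (fun F => R i F r) G - (∑ c ∈ G, k i r c) * R i G r - 0 * R i G r + 0))
        = -D + (∑ c ∈ G, ∑ i ∈ W, k i r c) * Pi0 := by
      rw [Finset.sum_comm, hD, ← Finset.sum_neg_distrib, Finset.sum_mul, ← Finset.sum_add_distrib]
      refine Finset.sum_congr rfl fun i hi => ?_
      rw [hPi, ← Finset.mul_prod_erase W (fun i => R i G r) hi, smul_eq_mul]
      ring
    have t1 : gen (h r) (fun F => E * ∏ i ∈ W, R i F r) G + rate (h r) G * (E * Pi0)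
        ≤ gen (h r) (fun F => S F r) G + rate (h r) G * S G r := by
      refine gen_mono (h0 r) fun a ha b hb => ?_
      have hcard : ((G.erase a).erase b).card < n := by
        rw [← hn]
        exact (Finset.card_le_card (Finset.erase_subset _ _)).trans_lt
          (Finset.card_erase_lt_of_mem ha)
      exact ih _ hcard ((G.erase a).erase b) rfl
        ((Finset.erase_subset _ _).trans ((Finset.erase_subset _ _).trans hG)) r hr
    rw [gen_smul] at t1
    have t2 := hQ G hG r hr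
    rw [← hD, ← hPi] at t2
    have t3 := mul_le_mul_of_nonneg_left t2 hE0.le
    have t5 : 0 ≤ ∑ c ∈ G, ∑ i ∈ W, k i r c :=
      Finset.sum_nonneg fun c _ => Finset.sum_nonneg fun i hi => k0 i hi _ _
    have u1 : rate (h r) G * U ≤ 0 :=
      mul_nonpos_of_nonneg_of_nonpos (rate_nonneg (h0 r) G) hU.le
    have u3 : (∑ c ∈ G, ∑ i ∈ W, k i r c) * U ≤ 0 := mul_nonpos_of_nonneg_of_nonpos t5 hU.le
    have eU : S G r = E * Pi0 + U := by rw [hUdef]; ring
    rw [e1]
    have e2 : (∑ c ∈ G, ∑ i ∈ W, k i r c) * S G r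
        = (∑ c ∈ G, ∑ i ∈ W, k i r c) * (E * Pi0) + (∑ c ∈ G, ∑ i ∈ W, k i r c) * U := by
      rw [eU]; ring
    have e3 : rate (h r) G * S G r = rate (h r) G * (E * Pi0) + rate (h r) G * U := by
      rw [eU]; ring
    nlinarith [t1, t3, u1, u3, e2, e3]

end cmp

end Pool.Agent.RCG
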