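import Pool.Agent.RCG.Del2

/-! Comparison with an additional vertex which is present in the world but deleted in the product of
the target functions (MP_73ccd0_lc, general graphs). -/

namespace Pool.Agent.RCG

open Set Finset Matrix Pool.Agent.RCRSHalf

set_option linter.unusedSectionVars false

variable {V : Type*} [Fintype V] [DecidableEq V]

section

variable {h : ℝ → V → V → ℝ} {ι : Type*} [DecidableEq ι] {W : Finset ι} {k : ι → ℝ → V → ℝ}
  {s : ℝ} {R : ι → Finset V → ℝ → ℝ} {S : Finset V → ℝ → ℝ} {P N : ι → V → ℝ → ℝ}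
  {H0 : Finset V}

/-- additional rate by the matches of the extra vertex -/
noncomputable def exB (h : V → V → ℝ) (H0 : Finset V) (b : V) (W : Finset ι) (P : ι → V → ℝ) : ℝ :=
  ∑ d ∈ H0, h b d * (∏ i ∈ W, (1 + P i d) - 1)

theorem one_le_prod' (W : Finset ι) {p : ι → ℝ} (hp : ∀ i ∈ W, 0 ≤ p i) :
    1 ≤ ∏ i ∈ W, (1 + p i) := by
  induction W using Finset.induction_on with
  | empty => simp
  | insert a W ha ih =>
    rw [Finset.prod_insert ha]
    have h1 := ih fun i hi => hp i (Finset.mem_insert_of_mem hi)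
    have h2 := hp a (Finset.mem_insert_self _ _)
    nlinarith

theorem exB_nonneg {h : V → V → ℝ} (h0 : ∀ a b, 0 ≤ h a b) {b : V} {P : ι → V → ℝ}
    (hP : ∀ i ∈ W, ∀ d ∈ H0, 0 ≤ P i d) : 0 ≤ exB h H0 b W P := by
  unfold exB
  refine Finset.sum_nonneg fun d hd => mul_nonneg (h0 _ _) ?_
  have := one_le_prod' W (p := fun i => P i d) fun i hi => hP i hi d hd
  linarith

/-- Upper comparison with an additional vertex. -/
theorem cmpU_ext (hs : ∀ t a b, h t a b = h t b a) (haa : ∀ t a, h t a a = 0)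
    (h0 : ∀ t a b, 0 ≤ h t a b) (k0 : ∀ i ∈ W, ∀ t a, 0 ≤ k i t a)
    (hR : ∀ i ∈ W, IsEv h (k i) (fun _ => 0) (fun _ => 0) s (R i))
    (hS : IsEv h (fun t a => ∑ i ∈ W, k i t a) (fun _ => 0) (fun _ => 0) s S) {b : V}
    (hI : ∀ i ∈ W, Inf H0 s (R i) (P i) (N i))
    {κ κ' : ℝ → ℝ} (hκd : ∀ r ∈ Icc 0 s, HasDerivAt κ (κ' r) r)
    (hend : ∀ G ⊆ insert b H0, S G s ≤ Real.exp (κ s) * ∏ i ∈ W, R i (G.erase b) s)
    (hκ : ∀ r ∈ Icc 0 s, kupR (h r) H0 W (fun i a => P i a r) (fun i a => N i a r)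
      + exB (h r) H0 b W (fun i a => P i a r) ≤ -κ' r) :
    ∀ G ⊆ insert b H0, ∀ r ∈ Icc 0 s,
      S G r ≤ Real.exp (κ r) * ∏ i ∈ W, R i (G.erase b) r := by
  intro G
  induction hn : G.card using Nat.strong_induction_on generalizing G with
  | _ n ih =>
  intro hG
  set G' := G.erase b with hG'
  have hG'H : G' ⊆ H0 := by
    intro z hz
    have h1 := Finset.mem_erase.1 hz
    exact (Finset.mem_insert.1 (hG h1.2)).resolve_left h1.1
  have key := nonneg_of_backward (U := fun r => Real.exp (κ r) * ∏ i ∈ W, R i G' r - S G r)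
    (U' := fun r => (Real.exp (κ r) * κ' r * ∏ i ∈ W, R i G' r + Real.exp (κ r) *
        ∑ i ∈ W, (∏ j ∈ W.erase i, R j G' r) •
          (-(gen (h r) (fun F => R i F r) G' - (∑ c ∈ G', k i r c) * R i G' r - 0 * R i G' r + 0)))
      - (-(gen (h r) (fun F => S F r) G - (∑ c ∈ G, ∑ i ∈ W, k i r c) * S G r - 0 * S G r + 0)))
    (a := 0) (s := s) (fun r hr => by
      have hp : HasDerivAt (fun r => ∏ i ∈ W, R i G' r) (∑ i ∈ W, (∏ j ∈ W.erase i, R j G' r) •
          (-(gen (h r) (fun F => R i F r) G' - (∑ c ∈ G', k i r c) * R i G' r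
            - 0 * R i G' r + 0))) r :=
        HasDerivAt.fun_finsetProd fun i hi => (hR i hi).deriv G' r hr
      exact ((hκd r hr).exp.mul hp).sub (hS.deriv G r hr))
    (by have := hend G hG; linarith) ?_
  · intro r hr
    have := key r hr
    linarith
  · intro r hr hU
    set E : ℝ := Real.exp (κ r) with hE
    have hE0 : 0 < E := Real.exp_pos _
    set Pi0 : ℝ := ∏ i ∈ W, R i G' r with hPi
    have hPi0 : 0 ≤ Pi0 := Finset.prod_nonneg fun i hi => (hR i hi).nonneg G' r hr
    set U : ℝ := E * Pi0 - S G r with hUdef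
    set D : ℝ := ∑ i ∈ W, (∏ j ∈ W.erase i, R j G' r) * gen (h r) (fun F => R i F r) G' with hD
    have e1 : ∑ i ∈ W, (∏ j ∈ W.erase i, R j G' r) •
          (-(gen (h r) (fun F => R i F r) G' - (∑ c ∈ G', k i r c) * R i G' r
            - 0 * R i G' r + 0))
        = -D + (∑ c ∈ G', ∑ i ∈ W, k i r c) * Pi0 := by
      rw [Finset.sum_comm, hD, ← Finset.sum_neg_distrib, Finset.sum_mul, ← Finset.sum_add_distrib]
      refine Finset.sum_congr rfl fun i hi => ?_
      rw [hPi, ← Finset.mul_prod_erase W (fun i => R i G' r) hi, smul_eq_mul]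
      ring
    have t1 : gen (h r) (fun F => S F r) G + rate (h r) G * S G r
        ≤ gen (h r) (fun F => E * ∏ i ∈ W, R i (F.erase b) r) G + rate (h r) G * (E * Pi0) := by
      refine gen_mono (h0 r) fun a ha b' hb' => ?_
      have hcard : ((G.erase a).erase b').card < n := by
        rw [← hn]
        exact (Finset.card_le_card (Finset.erase_subset _ _)).trans_lt
          (Finset.card_erase_lt_of_mem ha)
      exact ih _ hcard ((G.erase a).erase b') rfl
        ((Finset.erase_subset _ _).trans ((Finset.erase_subset _ _).trans hG)) r hr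
    rw [gen_smul] at t1
    -- the generator with the extra vertex
    have hex0 : 0 ≤ exB (h r) H0 b W (fun i a => P i a r) := exB_nonneg (h0 r)
      fun i hi d hd => (hI i hi).P0 d hd r hr
    have tg : gen (h r) (fun F => ∏ i ∈ W, R i (F.erase b) r) G
        ≤ gen (h r) (fun F => ∏ i ∈ W, R i F r) G'
          + exB (h r) H0 b W (fun i a => P i a r) * Pi0 := by
      by_cases hbG : b ∈ G
      · have hbG' : b ∉ G' := Finset.notMem_erase _ _
        have hins : insert b G' = G := Finset.insert_erase hbG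
        have e2 : ∀ F : Finset V, b ∉ F → (insert b F).erase b = F := fun F hF =>
          Finset.erase_insert hF
        rw [← hins, gen_insert (h r) (hs r) (haa r) _ hbG']
        refine add_le_add (le_of_eq ?_) ?_
        · unfold gen
          congr 1
          refine Finset.sum_congr rfl fun x _ => Finset.sum_congr rfl fun y _ => ?_
          rw [e2 _ hbG', e2 _ (fun hh => hbG' (Finset.mem_of_mem_erase (Finset.mem_of_mem_erase hh)))]
        · unfold exB
          rw [Finset.sum_mul]
          have hterm : ∀ d ∈ H0, 0 ≤ h r b d * (∏ i ∈ W, (1 + P i d r) - 1) * Pi0 := by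
            intro d hd
            have := one_le_prod' W (p := fun i => P i d r) fun i hi => (hI i hi).P0 d hd r hr
            exact mul_nonneg (mul_nonneg (h0 _ _ _) (by linarith)) hPi0
          refine le_trans ?_ (Finset.sum_le_sum_of_subset_of_nonneg hG'H fun d hd _ => hterm d hd)
          refine Finset.sum_le_sum fun d hd => ?_
          rw [e2 _ hbG', Finset.erase_eq_of_notMem
            (fun hh : b ∈ G'.erase d => hbG' (Finset.mem_of_mem_erase hh)), mul_assoc]
          refine mul_le_mul_of_nonneg_left ?_ (h0 _ _ _)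
          have h5 : ∏ i ∈ W, R i (G'.erase d) r ≤ ∏ i ∈ W, ((1 + P i d r) * R i G' r) :=
            Finset.prod_le_prod (fun i hi => (hR i hi).nonneg _ r hr)
              fun i hi => (hI i hi).up G' hG'H d hd r hr
          rw [Finset.prod_mul_distrib, ← hPi] at h5
          rw [sub_mul, one_mul]
          linarith
      · have e3 : G' = G := Finset.erase_eq_of_notMem hbG
        have e4 : gen (h r) (fun F => ∏ i ∈ W, R i (F.erase b) r) G
            = gen (h r) (fun F => ∏ i ∈ W, R i F r) G := by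
          refine gen_congr fun F hF => ?_
          rw [Finset.erase_eq_of_notMem (fun hh : b ∈ F => hbG (hF hh))]
        rw [e4, ← e3]
        have := mul_nonneg hex0 hPi0
        linarith
    have t2 := (dev_bounds h0 haa (fun i hi F r hr => (hR i hi).nonneg F r hr) hI hG'H hr).1
    rw [← hD, ← hPi] at t2
    have t5 : 0 ≤ ∑ c ∈ G, ∑ i ∈ W, k i r c :=
      Finset.sum_nonneg fun c _ => Finset.sum_nonneg fun i hi => k0 i hi _ _
    have t6 : ∑ c ∈ G', ∑ i ∈ W, k i r c ≤ ∑ c ∈ G, ∑ i ∈ W, k i r c :=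
      Finset.sum_le_sum_of_subset_of_nonneg (Finset.erase_subset _ _)
        fun c _ _ => Finset.sum_nonneg fun i hi => k0 i hi _ _
    have hκr := hκ r hr
    have u1 : rate (h r) G * U ≤ 0 :=
      mul_nonpos_of_nonneg_of_nonpos (rate_nonneg (h0 r) G) hU.le
    have u3 : (∑ c ∈ G, ∑ i ∈ W, k i r c) * U ≤ 0 := mul_nonpos_of_nonneg_of_nonpos t5 hU.le
    have u4 : (∑ c ∈ G', ∑ i ∈ W, k i r c) * (E * Pi0) ≤ (∑ c ∈ G, ∑ i ∈ W, k i r c) * (E * Pi0) :=
      mul_le_mul_of_nonneg_right t6 (mul_nonneg hE0.le hPi0)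
    have eU : S G r = E * Pi0 - U := by rw [hUdef]; ring
    rw [e1]
    have e2 : (∑ c ∈ G, ∑ i ∈ W, k i r c) * S G r
        = (∑ c ∈ G, ∑ i ∈ W, k i r c) * (E * Pi0) - (∑ c ∈ G, ∑ i ∈ W, k i r c) * U := by
      rw [eU]; ring
    have e3 : rate (h r) G * S G r = rate (h r) G * (E * Pi0) - rate (h r) G * U := by
      rw [eU]; ring
    have t3 := mul_le_mul_of_nonneg_left (add_le_add tg le_rfl (c := 0)) hE0.le
    have t4 : E * (gen (h r) (fun F => ∏ i ∈ W, R i F r) G') ≤ E * (D
        + kupR (h r) H0 W (fun i a => P i a r) (fun i a => N i a r) * Pi0) :=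
      mul_le_mul_of_nonneg_left (by linarith) hE0.le
    have t7 : E * ((kupR (h r) H0 W (fun i a => P i a r) (fun i a => N i a r)
        + exB (h r) H0 b W (fun i a => P i a r)) * Pi0) ≤ E * (-κ' r * Pi0) :=
      mul_le_mul_of_nonneg_left (mul_le_mul_of_nonneg_right hκr hPi0) hE0.le
    nlinarith [t1, t3, t4, t7, u1, u3, u4, e2, e3]

end

end Pool.Agent.RCG
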