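import Pool.Agent.RCG.Gul

/-! Comparison lemmas with the exponent computed from influence bounds (MP_73ccd0_lc, general
graphs). -/

namespace Pool.Agent.RCG

open Set Finset Pool.Agent.RCRSHalf

set_option linter.unusedSectionVars false

variable {V : Type*} [Fintype V] [DecidableEq V]

/-- influence bounds on subsets of `H0` on the time interval `[0, s]` -/
structure Inf (H0 : Finset V) (s : ℝ) (R : Finset V → ℝ → ℝ) (P N : V → ℝ → ℝ) : Prop where
  P0 : ∀ a ∈ H0, ∀ r ∈ Icc 0 s, 0 ≤ P a r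
  N0 : ∀ a ∈ H0, ∀ r ∈ Icc 0 s, 0 ≤ N a r
  N1 : ∀ a ∈ H0, ∀ r ∈ Icc 0 s, N a r ≤ 1
  up : ∀ G ⊆ H0, ∀ a ∈ G, ∀ r ∈ Icc 0 s, R (G.erase a) r ≤ (1 + P a r) * R G r
  lo : ∀ G ⊆ H0, ∀ a ∈ G, ∀ r ∈ Icc 0 s, (1 - N a r) * R G r ≤ R (G.erase a) r

theorem Inf.mono {H0 H1 : Finset V} {s s' : ℝ} {R : Finset V → ℝ → ℝ} {P N : V → ℝ → ℝ}
    (hI : Inf H0 s R P N) (hH : H1 ⊆ H0) (hs : s' ≤ s) : Inf H1 s' R P N :=
  ⟨fun a ha r hr => hI.P0 a (hH ha) r ⟨hr.1, hr.2.trans hs⟩,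
    fun a ha r hr => hI.N0 a (hH ha) r ⟨hr.1, hr.2.trans hs⟩,
    fun a ha r hr => hI.N1 a (hH ha) r ⟨hr.1, hr.2.trans hs⟩,
    fun G hG a ha r hr => hI.up G (hG.trans hH) a ha r ⟨hr.1, hr.2.trans hs⟩,
    fun G hG a ha r hr => hI.lo G (hG.trans hH) a ha r ⟨hr.1, hr.2.trans hs⟩⟩

/-- two-vertex deletion -/
theorem Inf.pair {H0 : Finset V} {s : ℝ} {R : Finset V → ℝ → ℝ} {P N : V → ℝ → ℝ}
    (hI : Inf H0 s R P N) {G : Finset V} (hG : G ⊆ H0) {a b : V} (ha : a ∈ G) (hb : b ∈ G)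
    (hab : a ≠ b) {r : ℝ} (hr : r ∈ Icc 0 s) (hR : 0 ≤ R G r) :
    R ((G.erase a).erase b) r ≤ (1 + ((1 + P a r) * (1 + P b r) - 1)) * R G r ∧
      (1 - (N a r + N b r)) * R G r ≤ R ((G.erase a).erase b) r := by
  have hb' : b ∈ G.erase a := Finset.mem_erase.2 ⟨fun e => hab e.symm, hb⟩
  have hsub : G.erase a ⊆ H0 := (Finset.erase_subset _ _).trans hG
  have i1 := hI.up G hG a ha r hr
  have i2 := hI.lo G hG a ha r hr
  have j1 := hI.up (G.erase a) hsub b hb' r hr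
  have j2 := hI.lo (G.erase a) hsub b hb' r hr
  have Pb := hI.P0 b (hG hb) r hr
  have Pa := hI.P0 a (hG ha) r hr
  have Na := hI.N0 a (hG ha) r hr
  have Nb := hI.N0 b (hG hb) r hr
  have Nb1 := hI.N1 b (hG hb) r hr
  constructor
  · calc R ((G.erase a).erase b) r ≤ (1 + P b r) * R (G.erase a) r := j1
      _ ≤ (1 + P b r) * ((1 + P a r) * R G r) := mul_le_mul_of_nonneg_left i1 (by linarith)
      _ = _ := by ring
  · have e1 : (1 - N b r) * ((1 - N a r) * R G r) ≤ R ((G.erase a).erase b) r :=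
      (mul_le_mul_of_nonneg_left i2 (by linarith)).trans j2
    have e2 := mul_nonneg (mul_nonneg Na Nb) hR
    nlinarith

section

variable {h : ℝ → V → V → ℝ} {ι : Type*} [DecidableEq ι] {W : Finset ι} {k : ι → ℝ → V → ℝ}
  {s : ℝ} {R : ι → Finset V → ℝ → ℝ} {S : Finset V → ℝ → ℝ}

/-- double sum form of the deviation of the generator -/
theorem gen_dev (h : V → V → ℝ) (W : Finset ι) (R : ι → Finset V → ℝ) (G : Finset V) :
    gen h (fun F => ∏ i ∈ W, R i F) G - ∑ i ∈ W, (∏ j ∈ W.erase i, R j G) * gen h (R i) G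
      = (1 / 2) * ∑ a ∈ G, ∑ b ∈ G, h a b * (∏ i ∈ W, R i ((G.erase a).erase b) - ∏ i ∈ W, R i G
        - ∑ i ∈ W, (∏ j ∈ W.erase i, R j G) * (R i ((G.erase a).erase b) - R i G)) := by
  unfold gen
  have e : ∑ i ∈ W, (∏ j ∈ W.erase i, R j G) * ((1 / 2) * ∑ a ∈ G, ∑ b ∈ G,
        h a b * (R i ((G.erase a).erase b) - R i G))
      = (1 / 2) * ∑ a ∈ G, ∑ b ∈ G, h a b *
        ∑ i ∈ W, (∏ j ∈ W.erase i, R j G) * (R i ((G.erase a).erase b) - R i G) := by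
    have e1 : ∀ i ∈ W, (∏ j ∈ W.erase i, R j G) * ((1 / 2) * ∑ a ∈ G, ∑ b ∈ G,
        h a b * (R i ((G.erase a).erase b) - R i G))
        = (1 / 2) * ∑ a ∈ G, ∑ b ∈ G, h a b *
          ((∏ j ∈ W.erase i, R j G) * (R i ((G.erase a).erase b) - R i G)) := by
      intro i _
      rw [mul_left_comm, Finset.mul_sum]
      congr 1
      refine Finset.sum_congr rfl fun a _ => ?_
      rw [Finset.mul_sum]
      exact Finset.sum_congr rfl fun b _ => by ring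
    rw [Finset.sum_congr rfl e1, ← Finset.mul_sum, Finset.sum_comm]
    congr 1
    refine Finset.sum_congr rfl fun a _ => ?_
    rw [Finset.sum_comm]
    refine Finset.sum_congr rfl fun b _ => ?_
    rw [Finset.mul_sum]
  rw [e, ← mul_sub, ← Finset.sum_sub_distrib]
  congr 1
  refine Finset.sum_congr rfl fun a _ => ?_
  rw [← Finset.sum_sub_distrib]
  exact Finset.sum_congr rfl fun b _ => by ring

variable {P N : ι → V → ℝ → ℝ} {H0 : Finset V}

/-- rate of the upper exponent -/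
noncomputable def kupR (h : V → V → ℝ) (H0 : Finset V) (W : Finset ι) (P N : ι → V → ℝ) : ℝ :=
  (1 / 2) * ∑ a ∈ H0, ∑ b ∈ H0, h a b *
    GUp W (fun i => (1 + P i a) * (1 + P i b) - 1) (fun i => N i a + N i b)

/-- rate of the lower exponent -/
noncomputable def kloR (h : V → V → ℝ) (H0 : Finset V) (W : Finset ι) (P N : ι → V → ℝ) : ℝ :=
  (1 / 2) * ∑ a ∈ H0, ∑ b ∈ H0, h a b *
    GLo W (fun i => (1 + P i a) * (1 + P i b) - 1) (fun i => N i a + N i b)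

theorem pair_P0 {P : V → ℝ} {a b : V} (ha : 0 ≤ P a) (hb : 0 ≤ P b) :
    0 ≤ (1 + P a) * (1 + P b) - 1 := by nlinarith [mul_nonneg ha hb]

/-- the deviation bounds -/
theorem dev_bounds (h0 : ∀ t a b, 0 ≤ h t a b) (haa : ∀ t a, h t a a = 0)
    (hRn : ∀ i ∈ W, ∀ F, ∀ r ∈ Icc 0 s, 0 ≤ R i F r)
    (hI : ∀ i ∈ W, Inf H0 s (R i) (P i) (N i)) {G : Finset V} (hG : G ⊆ H0) {r : ℝ}
    (hr : r ∈ Icc 0 s) :
    gen (h r) (fun F => ∏ i ∈ W, R i F r) G
      - ∑ i ∈ W, (∏ j ∈ W.erase i, R j G r) * gen (h r) (fun F => R i F r) G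
      ≤ kupR (h r) H0 W (fun i a => P i a r) (fun i a => N i a r) * ∏ i ∈ W, R i G r ∧
    -(kloR (h r) H0 W (fun i a => P i a r) (fun i a => N i a r) * ∏ i ∈ W, R i G r) ≤
      gen (h r) (fun F => ∏ i ∈ W, R i F r) G
      - ∑ i ∈ W, (∏ j ∈ W.erase i, R j G r) * gen (h r) (fun F => R i F r) G := by
  have hPi0 : 0 ≤ ∏ i ∈ W, R i G r := Finset.prod_nonneg fun i hi => hRn i hi G r hr
  have hPp : ∀ a ∈ H0, ∀ b ∈ H0, ∀ i ∈ W, 0 ≤ (1 + P i a r) * (1 + P i b r) - 1 :=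
    fun a ha b hb i hi => pair_P0 (P := fun a => P i a r) ((hI i hi).P0 a ha r hr)
      ((hI i hi).P0 b hb r hr)
  have hNp : ∀ a ∈ H0, ∀ b ∈ H0, ∀ i ∈ W, 0 ≤ N i a r + N i b r :=
    fun a ha b hb i hi => add_nonneg ((hI i hi).N0 a ha r hr) ((hI i hi).N0 b hb r hr)
  have key : ∀ a ∈ G, ∀ b ∈ G,
      h r a b * (∏ i ∈ W, R i ((G.erase a).erase b) r - ∏ i ∈ W, R i G r
        - ∑ i ∈ W, (∏ j ∈ W.erase i, R j G r) * (R i ((G.erase a).erase b) r - R i G r))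
      ≤ (h r a b * GUp W (fun i => (1 + P i a r) * (1 + P i b r) - 1)
          (fun i => N i a r + N i b r)) * ∏ i ∈ W, R i G r ∧
      -((h r a b * GLo W (fun i => (1 + P i a r) * (1 + P i b r) - 1)
          (fun i => N i a r + N i b r)) * ∏ i ∈ W, R i G r) ≤
      h r a b * (∏ i ∈ W, R i ((G.erase a).erase b) r - ∏ i ∈ W, R i G r
        - ∑ i ∈ W, (∏ j ∈ W.erase i, R j G r) * (R i ((G.erase a).erase b) r - R i G r)) := by
    intro a ha b hb
    by_cases hab : a = b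
    · subst hab; rw [haa]; simp
    · obtain ⟨q1, q2⟩ := prod_dev W (x := fun i => R i G r)
        (y := fun i => R i ((G.erase a).erase b) r)
        (p := fun i => (1 + P i a r) * (1 + P i b r) - 1) (n := fun i => N i a r + N i b r)
        (fun i hi => hRn i hi G r hr) (fun i hi => hRn i hi _ r hr)
        (hNp a (hG ha) b (hG hb)) (hPp a (hG ha) b (hG hb))
        (fun i hi => ((hI i hi).pair hG ha hb hab hr (hRn i hi G r hr)).2)
        (fun i hi => ((hI i hi).pair hG ha hb hab hr (hRn i hi G r hr)).1)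
      have k1 := mul_le_mul_of_nonneg_left q1 (h0 r a b)
      have k2 := mul_le_mul_of_nonneg_left q2 (h0 r a b)
      constructor
      · refine k1.trans (le_of_eq (by ring))
      · refine le_trans (le_of_eq (by ring)) k2
  rw [gen_dev (h r) W (fun i F => R i F r) G]
  constructor
  · refine le_trans (b := ((1 / 2) * ∑ a ∈ G, ∑ b ∈ G, h r a b *
      GUp W (fun i => (1 + P i a r) * (1 + P i b r) - 1) (fun i => N i a r + N i b r))
        * ∏ i ∈ W, R i G r) ?_ ?_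
    · rw [mul_assoc, Finset.sum_mul]
      refine mul_le_mul_of_nonneg_left (Finset.sum_le_sum fun a ha => ?_) (by norm_num)
      rw [Finset.sum_mul]
      exact Finset.sum_le_sum fun b hb => (key a ha b hb).1
    · refine mul_le_mul_of_nonneg_right ?_ hPi0
      unfold kupR
      refine mul_le_mul_of_nonneg_left ?_ (by norm_num)
      refine le_trans (Finset.sum_le_sum fun a ha => Finset.sum_le_sum_of_subset_of_nonneg hG
        fun b hb _ => mul_nonneg (h0 _ _ _) (GUp_nonneg W (hNp a (hG ha) b hb)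
          (hPp a (hG ha) b hb))) ?_
      exact Finset.sum_le_sum_of_subset_of_nonneg hG fun a ha _ => Finset.sum_nonneg fun b hb =>
        mul_nonneg (h0 _ _ _) (GUp_nonneg W (hNp a ha b hb) (hPp a ha b hb))
  · refine le_trans (b := -(((1 / 2) * ∑ a ∈ G, ∑ b ∈ G, h r a b *
      GLo W (fun i => (1 + P i a r) * (1 + P i b r) - 1) (fun i => N i a r + N i b r))
        * ∏ i ∈ W, R i G r)) ?_ ?_
    · refine neg_le_neg (mul_le_mul_of_nonneg_right ?_ hPi0)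
      unfold kloR
      refine mul_le_mul_of_nonneg_left ?_ (by norm_num)
      refine le_trans (Finset.sum_le_sum fun a ha => Finset.sum_le_sum_of_subset_of_nonneg hG
        fun b hb _ => mul_nonneg (h0 _ _ _) (GLo_nonneg W (hNp a (hG ha) b hb)
          (hPp a (hG ha) b hb))) ?_
      exact Finset.sum_le_sum_of_subset_of_nonneg hG fun a ha _ => Finset.sum_nonneg fun b hb =>
        mul_nonneg (h0 _ _ _) (GLo_nonneg W (hNp a ha b hb) (hPp a ha b hb))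
    · rw [mul_assoc, Finset.sum_mul, ← mul_neg, ← Finset.sum_neg_distrib]
      refine mul_le_mul_of_nonneg_left (Finset.sum_le_sum fun a ha => ?_) (by norm_num)
      rw [Finset.sum_mul, ← Finset.sum_neg_distrib]
      exact Finset.sum_le_sum fun b hb => (key a ha b hb).2

/-- Upper comparison with influence bounds (2.1). -/
theorem cmpU_infl (h0 : ∀ t a b, 0 ≤ h t a b) (haa : ∀ t a, h t a a = 0)
    (k0 : ∀ i ∈ W, ∀ t a, 0 ≤ k i t a)
    (hR : ∀ i ∈ W, IsEv h (k i) (fun _ => 0) (fun _ => 0) s (R i))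
    (hS : IsEv h (fun t a => ∑ i ∈ W, k i t a) (fun _ => 0) (fun _ => 0) s S)
    (hI : ∀ i ∈ W, Inf H0 s (R i) (P i) (N i))
    {κ κ' : ℝ → ℝ} (hκd : ∀ r ∈ Icc 0 s, HasDerivAt κ (κ' r) r)
    (hend : ∀ G ⊆ H0, S G s ≤ Real.exp (κ s) * ∏ i ∈ W, R i G s)
    (hκ : ∀ r ∈ Icc 0 s, kupR (h r) H0 W (fun i a => P i a r) (fun i a => N i a r) ≤ -κ' r) :
    ∀ G ⊆ H0, ∀ r ∈ Icc 0 s, S G r ≤ Real.exp (κ r) * ∏ i ∈ W, R i G r :=
  cmpU h0 k0 hR hS H0 hκd hend fun G hG r hr =>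
    (dev_bounds h0 haa (fun i hi F r hr => (hR i hi).nonneg F r hr) hI hG hr).1.trans
      (mul_le_mul_of_nonneg_right (hκ r hr)
        (Finset.prod_nonneg fun i hi => (hR i hi).nonneg G r hr))

/-- Lower comparison with influence bounds (2.2). -/
theorem cmpL_infl (h0 : ∀ t a b, 0 ≤ h t a b) (haa : ∀ t a, h t a a = 0)
    (k0 : ∀ i ∈ W, ∀ t a, 0 ≤ k i t a)
    (hR : ∀ i ∈ W, IsEv h (k i) (fun _ => 0) (fun _ => 0) s (R i))
    (hS : IsEv h (fun t a => ∑ i ∈ W, k i t a) (fun _ => 0) (fun _ => 0) s S)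
    (hI : ∀ i ∈ W, Inf H0 s (R i) (P i) (N i))
    {κ κ' : ℝ → ℝ} (hκd : ∀ r ∈ Icc 0 s, HasDerivAt κ (κ' r) r)
    (hend : ∀ G ⊆ H0, Real.exp (-κ s) * ∏ i ∈ W, R i G s ≤ S G s)
    (hκ : ∀ r ∈ Icc 0 s, kloR (h r) H0 W (fun i a => P i a r) (fun i a => N i a r) ≤ -κ' r) :
    ∀ G ⊆ H0, ∀ r ∈ Icc 0 s, Real.exp (-κ r) * ∏ i ∈ W, R i G r ≤ S G r :=
  cmpL h0 k0 hR hS H0 hκd hend fun G hG r hr =>
    le_trans (neg_le_neg (mul_le_mul_of_nonneg_right (hκ r hr)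
        (Finset.prod_nonneg fun i hi => (hR i hi).nonneg G r hr)))
      (dev_bounds h0 haa (fun i hi F r hr => (hR i hi).nonneg F r hr) hI hG hr).2

end

end Pool.Agent.RCG
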