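import Pool.Agent.RCG.XNeg2

/-! Lower bound for the covariance expectation with flux-level costs (MP_73ccd0_lc, general
graphs). -/

namespace Pool.Agent.RCG

open Set Finset Pool.Agent.RCRSHalf

set_option linter.unusedSectionVars false

variable {V : Type*} [Fintype V] [DecidableEq V]
variable {h : ℝ → V → V → ℝ} {H : V → V → ℝ → ℝ}

/-- expectation of a sum over one more free vertex -/
theorem ex_ssum (μ : Finset V → ℝ) (W : Finset V) (Φ : V → Finset V → ℝ) :
    ex μ W (fun F => ∑ c ∈ F, Φ c (F.erase c)) = ∑ c ∈ Wᶜ, ex μ (insert c W) (Φ c) := by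
  unfold ex
  rw [Finset.sum_comm]
  refine Finset.sum_congr rfl fun F _ => ?_
  by_cases hF : W ⊆ F
  · rw [if_pos hF, Finset.mul_sum]
    have hsub : F \ W ⊆ Wᶜ := fun z hz => Finset.mem_compl.2 (Finset.mem_sdiff.1 hz).2
    rw [← Finset.sum_subset hsub]
    · refine Finset.sum_congr rfl fun c hc => ?_
      have h1 : insert c W ⊆ F := by
        intro z hz
        rcases Finset.mem_insert.1 hz with rfl | hz
        · exact (Finset.mem_sdiff.1 hc).1
        · exact hF hz
      rw [if_pos h1]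
      have e : (F \ W).erase c = F \ insert c W := by
        ext z
        simp only [Finset.mem_erase, Finset.mem_sdiff, Finset.mem_insert]
        tauto
      rw [e]
    · intro c hc hcn
      rw [if_neg, mul_zero]
      intro hh'
      exact hcn (Finset.mem_sdiff.2 ⟨hh' (Finset.mem_insert_self _ _), Finset.mem_compl.1 hc⟩)
  · rw [if_neg hF, mul_zero]
    symm
    refine Finset.sum_eq_zero fun c _ => ?_
    rw [if_neg, mul_zero]
    exact fun hh' => hF ((Finset.subset_insert _ _).trans hh')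

/-- expectation of a double sum over two more free vertices -/
theorem ex_dsum (μ : Finset V → ℝ) (u v : V) (g : V → V → ℝ) (Φ : V → V → Finset V → ℝ) :
    ex μ {u, v} (fun F => (1 / 2) * ∑ a ∈ F, ∑ b ∈ F, g a b * Φ a b ((F.erase a).erase b))
      = (1 / 2) * ∑ a ∈ ({u, v} : Finset V)ᶜ, ∑ b ∈ ({u, v} : Finset V)ᶜ, g a b *
        ex μ {u, v, a, b} (Φ a b) := by
  unfold ex
  have e2 : ∀ F : Finset V, μ F * (if ({u, v} : Finset V) ⊆ F then
      (1 / 2) * ∑ a ∈ F \ {u, v}, ∑ b ∈ F \ {u, v}, g a b *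
        Φ a b (((F \ {u, v}).erase a).erase b) else 0)
      = (1 / 2) * ∑ a ∈ ({u, v} : Finset V)ᶜ, ∑ b ∈ ({u, v} : Finset V)ᶜ, g a b *
        (μ F * (if ({u, v, a, b} : Finset V) ⊆ F then Φ a b (F \ {u, v, a, b}) else 0)) := by
    intro F
    by_cases hF : ({u, v} : Finset V) ⊆ F
    · rw [if_pos hF, mul_left_comm, Finset.mul_sum]
      congr 1
      have hsubs : F \ {u, v} ⊆ ({u, v} : Finset V)ᶜ := fun z hz =>
        Finset.mem_compl.2 (Finset.mem_sdiff.1 hz).2
      rw [← Finset.sum_subset hsubs]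
      · refine Finset.sum_congr rfl fun a ha => ?_
        rw [Finset.mul_sum, ← Finset.sum_subset hsubs]
        · refine Finset.sum_congr rfl fun b hb => ?_
          have h4 : ({u, v, a, b} : Finset V) ⊆ F := by
            intro z hz
            simp only [Finset.mem_insert, Finset.mem_singleton] at hz
            rcases hz with rfl | rfl | rfl | rfl
            · exact hF (by simp)
            · exact hF (by simp)
            · exact (Finset.mem_sdiff.1 ha).1
            · exact (Finset.mem_sdiff.1 hb).1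
          have e5 : ((F \ {u, v}).erase a).erase b = F \ {u, v, a, b} := by
            ext z
            simp only [Finset.mem_erase, Finset.mem_sdiff, Finset.mem_insert,
              Finset.mem_singleton]
            tauto
          rw [if_pos h4, e5]
          ring
        · intro b hb hbn
          rw [if_neg]
          · ring
          · intro hh'
            exact hbn (Finset.mem_sdiff.2 ⟨hh' (by simp), Finset.mem_compl.1 hb⟩)
      · intro a ha han
        refine Finset.sum_eq_zero fun b hb => ?_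
        rw [if_neg]
        · ring
        · intro hh'
          exact han (Finset.mem_sdiff.2 ⟨hh' (by simp), Finset.mem_compl.1 ha⟩)
    · rw [if_neg hF, mul_zero]
      symm
      rw [Finset.sum_eq_zero, mul_zero]
      intro a _
      refine Finset.sum_eq_zero fun b _ => ?_
      rw [if_neg]
      · ring
      · intro hh'
        exact hF fun z hz => hh' (by
          simp only [Finset.mem_insert, Finset.mem_singleton] at hz ⊢
          tauto)
  rw [Finset.sum_congr rfl fun F _ => e2 F, ← Finset.mul_sum, Finset.sum_comm]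
  congr 1
  refine Finset.sum_congr rfl fun a _ => ?_
  rw [Finset.sum_comm]
  refine Finset.sum_congr rfl fun b _ => ?_
  rw [← Finset.mul_sum]

/-- product of deviations -/
theorem dev_prod_ge {D D' p x p' x' : ℝ} (hp : 0 ≤ p) (hx : 0 ≤ x) (hp' : 0 ≤ p') (hx' : 0 ≤ x')
    (h1 : D ≤ p) (h2 : -x ≤ D) (h3 : D' ≤ p') (h4 : -x' ≤ D') :
    -(p * x' + p' * x) ≤ D * D' := by
  rcases le_total 0 D with hD | hD <;> rcases le_total 0 D' with hD' | hD'
  · have := mul_nonneg hD hD'
    have := mul_nonneg hp hx'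
    have := mul_nonneg hp' hx
    linarith
  · have a1 := mul_nonneg hD (by linarith : 0 ≤ D' + x')
    have a2 := mul_nonneg (by linarith : 0 ≤ p - D) hx'
    have a3 := mul_nonneg hp' hx
    nlinarith
  · have a1 := mul_nonneg hD' (by linarith : 0 ≤ D + x)
    have a2 := mul_nonneg (by linarith : 0 ≤ p' - D') hx
    have a3 := mul_nonneg hp hx'
    nlinarith
  · have a1 := mul_nonneg_of_nonpos_of_nonpos hD hD'
    have := mul_nonneg hp hx'
    have := mul_nonneg hp' hx
    linarith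

theorem gP_nonneg {Pa Pb : ℝ} (ha : 0 ≤ Pa) (hb : 0 ≤ Pb) : 0 ≤ gP Pa Pb := by
  unfold gP
  have h1 : 1 ≤ (1 + Pa) * (1 + Pb) := by nlinarith [mul_nonneg ha hb]
  have : ((1 + Pa) * (1 + Pb))⁻¹ ≤ 1 := inv_le_one_of_one_le₀ h1
  linarith

/-- relative upper bound of the deviation with base `F \ g` -/
theorem base_up {R : Finset V → ℝ → ℝ} {H0 : Finset V} {t : ℝ} {P N : V → ℝ → ℝ}
    (hI : Inf H0 t R P N) {r : ℝ} (hr : r ∈ Icc 0 t) {F : Finset V} (hF : F ⊆ H0) {a b : V}
    (ha : a ∈ F) (hb : b ∈ F) (hab : a ≠ b) :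
    R ((F.erase a).erase b) r - R F r ≤ gP (P a r) (P b r) * R ((F.erase a).erase b) r := by
  have hbG : b ∈ F.erase a := Finset.mem_erase.2 ⟨hab.symm, hb⟩
  have haH := hF ha
  have hbH := hF hb
  have Pa := hI.P0 a haH r hr
  have Pb := hI.P0 b hbH r hr
  have j1 := hI.up F hF a ha r hr
  have j2 := hI.up (F.erase a) ((Finset.erase_subset _ _).trans hF) b hbG r hr
  have j3 : R ((F.erase a).erase b) r ≤ (1 + P b r) * ((1 + P a r) * R F r) :=
    j2.trans (mul_le_mul_of_nonneg_left j1 (by linarith))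
  have hpos : 0 < (1 + P a r) * (1 + P b r) := by positivity
  have j4 : ((1 + P a r) * (1 + P b r))⁻¹ * R ((F.erase a).erase b) r ≤ R F r := by
    rw [inv_mul_le_iff₀ hpos]
    refine j3.trans (le_of_eq (by ring))
  unfold gP
  linarith

/-- lower bound for the covariance expectation -/
theorem cov_lower (hh : Haz h H) {u v : V} {t : ℝ} (ht : t ∈ Icc (0 : ℝ) 1)
    {Pu Nu Pv Nv : V → ℝ → ℝ}
    (hIu : Inf ({u, v} : Finset V)ᶜ t (RCG.tgt h u t) Pu Nu)
    (hIv : Inf ({u, v} : Finset V)ᶜ t (RCG.tgt h v t) Pv Nv)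
    {s : ℝ} (hs : s ∈ Icc 0 t) {Xu Xv : V → V → Finset V → ℝ}
    (hXu0 : ∀ a ∈ ({u, v} : Finset V)ᶜ, ∀ b ∈ ({u, v} : Finset V)ᶜ, a ≠ b →
      ∀ G ⊆ ({u, v, a, b} : Finset V)ᶜ, 0 ≤ Xu a b G)
    (hXv0 : ∀ a ∈ ({u, v} : Finset V)ᶜ, ∀ b ∈ ({u, v} : Finset V)ᶜ, a ≠ b →
      ∀ G ⊆ ({u, v, a, b} : Finset V)ᶜ, 0 ≤ Xv a b G)
    (hXu : ∀ a ∈ ({u, v} : Finset V)ᶜ, ∀ b ∈ ({u, v} : Finset V)ᶜ, a ≠ b →
      h s a b ≠ 0 → ∀ G ⊆ ({u, v, a, b} : Finset V)ᶜ,
      RCG.tgt h u t (insert a (insert b G)) s - RCG.tgt h u t G s ≤ Xu a b G)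
    (hXv : ∀ a ∈ ({u, v} : Finset V)ᶜ, ∀ b ∈ ({u, v} : Finset V)ᶜ, a ≠ b →
      h s a b ≠ 0 → ∀ G ⊆ ({u, v, a, b} : Finset V)ᶜ,
      RCG.tgt h v t (insert a (insert b G)) s - RCG.tgt h v t G s ≤ Xv a b G) :
    -((1 / 2) * ∑ a ∈ ({u, v} : Finset V)ᶜ, ∑ b ∈ ({u, v} : Finset V)ᶜ, h s a b *
      ex (lw h ∅ s) {u, v, a, b} (fun G => gP (Pu a s) (Pu b s) * (RCG.tgt h u t G s * Xv a b G)
        + gP (Pv a s) (Pv b s) * (RCG.tgt h v t G s * Xu a b G)))
      ≤ ex (lw h ∅ s) {u, v} (fun F => cov (h s) (fun G => RCG.tgt h u t G s)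
          (fun G => RCG.tgt h v t G s) F) := by
  have hs1 : s ∈ Icc (0 : ℝ) 1 := ⟨hs.1, hs.2.trans ht.2⟩
  have hTu := hh.tgt u ht
  have hTv := hh.tgt v ht
  set Ru := RCG.tgt h u t with hRu
  set Rv := RCG.tgt h v t with hRv
  have hμ0 := fun F => (hh.lw (∅ : Finset V)).nonneg F s hs1
  set Φ : V → V → Finset V → ℝ := fun a b G => gP (Pu a s) (Pu b s) * (Ru G s * Xv a b G)
        + gP (Pv a s) (Pv b s) * (Rv G s * Xu a b G) with hΦ
  have hpt : ∀ F ⊆ ({u, v} : Finset V)ᶜ,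
      -((1 / 2) * ∑ a ∈ F, ∑ b ∈ F, h s a b * Φ a b ((F.erase a).erase b))
      ≤ cov (h s) (fun G => Ru G s) (fun G => Rv G s) F := by
    intro F hF
    unfold cov
    rw [← mul_neg, ← Finset.sum_neg_distrib]
    refine mul_le_mul_of_nonneg_left (Finset.sum_le_sum fun a ha => ?_) (by norm_num)
    rw [← Finset.sum_neg_distrib]
    refine Finset.sum_le_sum fun b hb => ?_
    by_cases hab : a = b
    · subst hab; rw [hh.diag]; simp
    by_cases h0 : h s a b = 0
    · rw [h0]; simp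
    have aH := hF ha
    have bH := hF hb
    set G := (F.erase a).erase b with hG
    have hbF : b ∈ F.erase a := Finset.mem_erase.2 ⟨fun e => hab e.symm, hb⟩
    have eF : insert a (insert b G) = F := by
      rw [hG, Finset.insert_erase hbF, Finset.insert_erase ha]
    have hGs : G ⊆ ({u, v, a, b} : Finset V)ᶜ := by
      intro z hz
      have h1 : z ∈ F := Finset.mem_of_mem_erase (Finset.mem_of_mem_erase hz)
      have h2 : z ≠ b := Finset.ne_of_mem_erase hz
      have h3 : z ≠ a := Finset.ne_of_mem_erase (Finset.mem_of_mem_erase hz)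
      have h4 := hF h1
      simp only [Finset.mem_compl, Finset.mem_insert, Finset.mem_singleton, not_or] at h4 ⊢
      exact ⟨h4.1, h4.2, h3, h2⟩
    have i1 := base_up hIu hs hF ha hb hab
    have i2 := base_up hIv hs hF ha hb hab
    have i3 := hXu a aH b bH hab h0 G hGs
    have i4 := hXv a aH b bH hab h0 G hGs
    rw [eF] at i3 i4
    have j1 := hXu0 a aH b bH hab G hGs
    have j2 := hXv0 a aH b bH hab G hGs
    have g1 := gP_nonneg (hIu.P0 a aH s hs) (hIu.P0 b bH s hs)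
    have g2 := gP_nonneg (hIv.P0 a aH s hs) (hIv.P0 b bH s hs)
    have R1 : 0 ≤ Ru G s := hTu.ev.nonneg G s hs
    have R2 : 0 ≤ Rv G s := hTv.ev.nonneg G s hs
    have key := dev_prod_ge (D := Ru G s - Ru F s) (D' := Rv G s - Rv F s)
      (p := gP (Pu a s) (Pu b s) * Ru G s) (x := Xu a b G)
      (p' := gP (Pv a s) (Pv b s) * Rv G s) (x' := Xv a b G)
      (mul_nonneg g1 R1) j1 (mul_nonneg g2 R2) j2 i1 (by linarith) i2 (by linarith)
    have k := mul_le_mul_of_nonneg_left key (hh.nonneg s a b)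
    refine le_trans (le_of_eq ?_) k
    simp only [hΦ]
    ring
  have e1 := ex_dsum (lw h ∅ s) u v (h s) Φ
  have e2 : -((1 / 2) * ∑ a ∈ ({u, v} : Finset V)ᶜ, ∑ b ∈ ({u, v} : Finset V)ᶜ, h s a b *
      ex (lw h ∅ s) {u, v, a, b} (Φ a b))
      = ex (lw h ∅ s) {u, v} (fun F => -((1 / 2) * ∑ a ∈ F, ∑ b ∈ F, h s a b *
        Φ a b ((F.erase a).erase b))) := by
    rw [← e1]
    have := ex_smul (lw h ∅ s) {u, v} (-1) (fun F => (1 / 2) * ∑ a ∈ F, ∑ b ∈ F, h s a b *
        Φ a b ((F.erase a).erase b))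
    rw [neg_one_mul] at this
    rw [← this]
    congr 1
    funext F
    ring
  rw [e2]
  refine ex_mono hμ0 fun F hF _ => hpt _ fun z hz => Finset.mem_compl.2 (Finset.mem_sdiff.1 hz).2

/-- expectation of the negative influence bound -/
theorem ex_bn_le (hh : Haz h H) {u v a b : V} {t : ℝ} (ht : t ∈ Icc (0 : ℝ) 1)
    {Pv Nv : V → ℝ → ℝ} {P N : V → V → ℝ → ℝ} {κ y Y : V → ℝ → ℝ}
    (hB : BDat h v a t ({u, v, a, b} : Finset V)ᶜ Pv Nv P N κ y Y) {s : ℝ} (hs : s ∈ Icc 0 t) :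
    ex (lw h ∅ s) {u, v, a, b} (fun G => RCG.tgt h u t G s * bn h v a t κ y G s)
      ≤ ∑ c ∈ ({u, v, a, b} : Finset V)ᶜ, Real.exp (κ c s) *
          ex (lw h ∅ s) {u, v, b, a, c}
            (fun F => RCG.tgt h u t (insert c F) s * RCG.tgt h v t F s * RCG.prf h v a c t F s)
        + (∑ c ∈ ({u, v, a, b} : Finset V)ᶜ, (1 + Pv c s) * y c s) *
          ex (lw h ∅ s) {u, v, a, b} (fun F => RCG.tgt h u t F s * RCG.tgt h v t F s) := by
  have hs1 : s ∈ Icc (0 : ℝ) 1 := ⟨hs.1, hs.2.trans ht.2⟩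
  have hTu := hh.tgt u ht
  have hTv := hh.tgt v ht
  have hμ0 := fun F => (hh.lw (∅ : Finset V)).nonneg F s hs1
  set H4 := ({u, v, a, b} : Finset V)ᶜ with hH4
  set Ru := RCG.tgt h u t with hRu
  set Rv := RCG.tgt h v t with hRv
  have e1 := ex_ssum (lw h ∅ s) {u, v, a, b} (fun c F => Real.exp (κ c s) *
    (Ru (insert c F) s * Rv F s * RCG.prf h v a c t F s))
  have e2 : ∀ c, (insert c ({u, v, a, b} : Finset V)) = {u, v, b, a, c} := by
    intro c; ext z; simp only [Finset.mem_insert, Finset.mem_singleton]; tauto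
  have e3 : ∑ c ∈ H4, Real.exp (κ c s) *
          ex (lw h ∅ s) {u, v, b, a, c}
            (fun F => Ru (insert c F) s * Rv F s * RCG.prf h v a c t F s)
      = ex (lw h ∅ s) {u, v, a, b} (fun F => ∑ c ∈ F, Real.exp (κ c s) *
        (Ru (insert c (F.erase c)) s * Rv (F.erase c) s *
          RCG.prf h v a c t (F.erase c) s)) := by
    rw [e1]
    refine Finset.sum_congr rfl fun c _ => ?_
    rw [e2 c, ex_smul]
  rw [e3, ← ex_smul, ← ex_add]
  refine ex_mono hμ0 fun F hF _ => ?_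
  set G := F \ {u, v, a, b} with hG
  have hGs : G ⊆ H4 := fun z hz => Finset.mem_compl.2 (Finset.mem_sdiff.1 hz).2
  have R1 : ∀ F, 0 ≤ Ru F s := fun F => hTu.ev.nonneg F s hs
  have R2 : ∀ F, 0 ≤ Rv F s := fun F => hTv.ev.nonneg F s hs
  unfold bn
  rw [Finset.mul_sum]
  have hy : ∑ c ∈ G, (1 + Pv c s) * y c s ≤ ∑ c ∈ H4, (1 + Pv c s) * y c s := by
    refine Finset.sum_le_sum_of_subset_of_nonneg hGs fun c hc _ => ?_
    exact mul_nonneg (by linarith [hB.iv.P0 c hc s hs]) (hB.y0 c hc s hs)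
  have hy2 := mul_le_mul_of_nonneg_right hy (mul_nonneg (R1 G) (R2 G))
  refine le_trans ?_ (add_le_add_right hy2 _)
  rw [Finset.sum_mul, ← Finset.sum_add_distrib]
  refine Finset.sum_le_sum fun c hc => ?_
  have hcH := hGs hc
  have i2 := hB.iv.up G hGs c hc s hs
  have hyc := hB.y0 c hcH s hs
  rw [Finset.insert_erase hc]
  have q2 : Ru G s * (Rv (G.erase c) s * y c s)
      ≤ Ru G s * (((1 + Pv c s) * Rv G s) * y c s) :=
    mul_le_mul_of_nonneg_left (mul_le_mul_of_nonneg_right i2 hyc) (R1 _)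
  calc Ru G s * (Rv (G.erase c) s * (Real.exp (κ c s) * RCG.prf h v a c t (G.erase c) s + y c s))
      = Real.exp (κ c s) * (Ru G s * Rv (G.erase c) s * RCG.prf h v a c t (G.erase c) s)
        + Ru G s * (Rv (G.erase c) s * y c s) := by ring
    _ ≤ Real.exp (κ c s) * (Ru G s * Rv (G.erase c) s * RCG.prf h v a c t (G.erase c) s)
        + Ru G s * (((1 + Pv c s) * Rv G s) * y c s) := add_le_add_right q2 _
    _ = _ := by ring

end Pool.Agent.RCG
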