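import Pool.Agent.RCG.GlueA

/-! The certificate, abstract part: weights, densities, free probabilities (MP_73ccd0_lc). -/

namespace Pool.Agent.RCG.Ct

open Finset Set Pool.Agent.RCRSHalf

set_option linter.unusedSectionVars false

variable {V : Type*} [Fintype V] [DecidableEq V]

/-- weights on the extended vertex set; `P` marks the real vertices, the other vertices are
pendant (they have a single neighbour, which is real) -/
structure Wt (x : V → V → ℝ) (P : V → Prop) (d : ℝ) : Prop where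
  d0 : 0 ≤ d
  d1 : d ≤ 1
  le : ∀ a b, P a → P b → x a b ≤ d
  symm : ∀ a b, x a b = x b a
  nonneg : ∀ a b, 0 ≤ x a b
  diag : ∀ a, x a a = 0
  row : ∀ a, ∑ b, x a b ≤ 1
  row1 : ∀ a, P a → ∑ b, x a b = 1
  pend : ∀ a b, ¬ P b → x a b ≠ 0 → P a
  pend1 : ∀ a b c, ¬ P b → x a b ≠ 0 → x b c ≠ 0 → c = a

variable {x : V → V → ℝ} {P : V → Prop} [DecidablePred P] {d : ℝ}

/-- the real part of the weights -/
noncomputable def xr (x : V → V → ℝ) (P : V → Prop) [DecidablePred P] (a b : V) : ℝ :=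
  if P a ∧ P b then x a b else 0

theorem xr_nonneg (hx : Wt x P d) (a b : V) : 0 ≤ xr x P a b := by
  unfold xr; split_ifs; exacts [hx.nonneg a b, le_rfl]

theorem xr_le (hx : Wt x P d) (a b : V) : xr x P a b ≤ x a b := by
  unfold xr; split_ifs; exacts [le_rfl, hx.nonneg a b]

theorem xr_symm (hx : Wt x P d) (a b : V) : xr x P a b = xr x P b a := by
  unfold xr; rw [hx.symm a b]; simp only [and_comm]

theorem xr_diag (hx : Wt x P d) (a : V) : xr x P a a = 0 := by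
  unfold xr; rw [hx.diag]; simp

theorem xr_row (hx : Wt x P d) (a : V) : ∑ b, xr x P a b ≤ 1 :=
  (Finset.sum_le_sum fun b _ => xr_le hx a b).trans (hx.row a)

theorem xr_le_d (hx : Wt x P d) (a b : V) : xr x P a b ≤ d := by
  unfold xr; split_ifs with h; exacts [hx.le a b h.1 h.2, hx.d0]

theorem xr_add_le (hx : Wt x P d) {a b c : V} (hbc : b ≠ c) : xr x P a b + xr x P a c ≤ 1 := by
  refine le_trans ?_ (xr_row hx a)
  rw [← Finset.sum_pair (f := fun b => xr x P a b) hbc]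
  exact Finset.sum_le_sum_of_subset_of_nonneg (Finset.subset_univ _) fun d _ _ =>
    xr_nonneg hx a d

/-- functions of the certificate (first argument: the weight of the edge, second: the time) -/
structure Fn where
  al : ℝ → ℝ → ℝ
  al' : ℝ → ℝ → ℝ
  e1 : ℝ → ℝ → ℝ
  e1' : ℝ → ℝ → ℝ
  e2 : ℝ → ℝ → ℝ
  e2' : ℝ → ℝ → ℝ

/-- the density of an edge with weight `y` and with the values `S`, `W` of the functionals -/
noncomputable def Fn.den (c : Fn) (y S W t : ℝ) : ℝ :=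
  ((1 + t) ^ 2)⁻¹ - c.al' y t + c.e1' y t * S + c.e2' y t * W

/-- the selection densities -/
noncomputable def phi (x : V → V → ℝ) (P : V → Prop) [DecidablePred P] (c : Fn)
    (S W : V → V → ℝ) (a b : V) (t : ℝ) : ℝ :=
  if P a ∧ P b then c.den (x a b) (S a b) (W a b) t else ((1 + t) ^ 2)⁻¹

/-- basic properties of the functions -/
structure Fn.Ok (c : Fn) (d : ℝ) : Prop where
  dal : ∀ y ∈ Icc (0 : ℝ) d, ∀ t ∈ Icc (0 : ℝ) 1, HasDerivAt (c.al y) (c.al' y t) t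
  de1 : ∀ y ∈ Icc (0 : ℝ) d, ∀ t ∈ Icc (0 : ℝ) 1, HasDerivAt (c.e1 y) (c.e1' y t) t
  de2 : ∀ y ∈ Icc (0 : ℝ) d, ∀ t ∈ Icc (0 : ℝ) 1, HasDerivAt (c.e2 y) (c.e2' y t) t
  al0 : ∀ y ∈ Icc (0 : ℝ) d, c.al y 0 = 0
  e10 : ∀ y ∈ Icc (0 : ℝ) d, c.e1 y 0 = 0
  e20 : ∀ y ∈ Icc (0 : ℝ) d, c.e2 y 0 = 0
  aln : ∀ y ∈ Icc (0 : ℝ) d, ∀ t ∈ Icc (0 : ℝ) 1, 0 ≤ c.al y t
  e1n : ∀ y ∈ Icc (0 : ℝ) d, ∀ t ∈ Icc (0 : ℝ) 1, 0 ≤ c.e1 y t
  e2n : ∀ y ∈ Icc (0 : ℝ) d, ∀ t ∈ Icc (0 : ℝ) 1, 0 ≤ c.e2 y t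

variable {h : ℝ → V → V → ℝ} {H : V → V → ℝ → ℝ} {c : Fn} {S W : V → V → ℝ}

theorem xmem (hx : Wt x P d) (a b : V) : xr x P a b ∈ Icc (0 : ℝ) d :=
  ⟨xr_nonneg hx a b, xr_le_d hx a b⟩

/-- The free probability of a real vertex. -/
theorem bb_formula (hx : Wt x P d) (hc : c.Ok d) (hh : Haz h H) {t : ℝ} (ht : t ∈ Icc (0 : ℝ) 1)
    (hfl : ∀ s ∈ Icc 0 t, ∀ a b, h s a b * pp h a b s = x a b * phi x P c S W a b s)
    {a : V} (ha : P a) {s : ℝ} (hs : s ∈ Icc 0 t) :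
    bb h ∅ a s = (1 + s)⁻¹ + ∑ b, xr x P a b * (c.al (xr x P a b) s
      - c.e1 (xr x P a b) s * S a b - c.e2 (xr x P a b) s * W a b) := by
  refine bb_eq_of_flux hh ht a (f := fun b s => x a b * phi x P c S W a b s)
    (fun s hs b => hfl s hs a b) (α := fun s => (1 + s)⁻¹ + ∑ b, xr x P a b *
      (c.al (xr x P a b) s - c.e1 (xr x P a b) s * S a b - c.e2 (xr x P a b) s * W a b))
    (fun r hr => ?_) ?_ s hs
  · have hr1 : r ∈ Icc (0 : ℝ) 1 := ⟨hr.1, hr.2.trans ht.2⟩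
    have hr0 : (1 + r) ≠ 0 := by linarith [hr.1]
    have h1 : HasDerivAt (fun s : ℝ => (1 + s)⁻¹) (-((1 + r) ^ 2)⁻¹) r := by
      have := (((hasDerivAt_id r).const_add 1).inv hr0)
      refine this.congr_deriv ?_
      simp only [id]; rw [neg_div, one_div]
    have h2 : ∀ b, HasDerivAt (fun s => xr x P a b * (c.al (xr x P a b) s
        - c.e1 (xr x P a b) s * S a b - c.e2 (xr x P a b) s * W a b))
        (xr x P a b * (c.al' (xr x P a b) r - c.e1' (xr x P a b) r * S a b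
          - c.e2' (xr x P a b) r * W a b)) r := fun b =>
      (((hc.dal _ (xmem hx a b) r hr1).sub ((hc.de1 _ (xmem hx a b) r hr1).mul_const _)).sub
        ((hc.de2 _ (xmem hx a b) r hr1).mul_const _)).const_mul _
    refine (h1.add (HasDerivAt.fun_sum fun b _ => h2 b)).congr_deriv ?_
    have e1 : ∑ b, x a b * phi x P c S W a b r = ∑ b, (x a b * ((1 + r) ^ 2)⁻¹
        - xr x P a b * (c.al' (xr x P a b) r - c.e1' (xr x P a b) r * S a b
          - c.e2' (xr x P a b) r * W a b)) := by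
      refine Finset.sum_congr rfl fun b _ => ?_
      unfold phi xr Fn.den
      by_cases hb : P b
      · rw [if_pos ⟨ha, hb⟩, if_pos ⟨ha, hb⟩]; ring
      · rw [if_neg (fun hh => hb hh.2), if_neg (fun hh => hb hh.2)]; ring
    rw [e1, Finset.sum_sub_distrib, ← Finset.sum_mul, hx.row1 a ha, one_mul]
    ring
  · simp only [add_zero, inv_one]
    rw [Finset.sum_eq_zero, add_zero]
    intro b _
    rw [hc.al0 _ (xmem hx a b), hc.e10 _ (xmem hx a b), hc.e20 _ (xmem hx a b)]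
    ring

/-- neighbour lemma and related functions -/
structure Nb (x : V → V → ℝ) (P : V → Prop) [DecidablePred P] (c : Fn) (S W : V → V → ℝ)
    (ps : ℝ → ℝ → ℝ) (d : ℝ) : Prop where
  S0 : ∀ a b, 0 ≤ S a b
  W0 : ∀ a b, 0 ≤ W a b
  Ss : ∀ a b, S a b = S b a
  Ws : ∀ a b, W a b = W b a
  ps0 : ∀ t ∈ Icc (0 : ℝ) 1, ps 0 t = 0
  psn : ∀ y ∈ Icc (0 : ℝ) d, ∀ t ∈ Icc (0 : ℝ) 1, 0 ≤ ps y t
  nb : ∀ a, P a → ∀ t ∈ Icc (0 : ℝ) 1,
    ∑ b, xr x P a b * (c.e1 (xr x P a b) t * S a b + c.e2 (xr x P a b) t * W a b)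
      ≤ ∑ b, ps (xr x P a b) t
  eta : ∀ y ∈ Icc (0 : ℝ) d, ∀ t ∈ Icc (0 : ℝ) 1, ps y t ≤ y * c.al y t

variable {ps : ℝ → ℝ → ℝ}

theorem bb_low (hx : Wt x P d) (hc : c.Ok d) (hN : Nb x P c S W ps d) (hh : Haz h H) {t : ℝ}
    (ht : t ∈ Icc (0 : ℝ) 1)
    (hfl : ∀ s ∈ Icc 0 t, ∀ a b, h s a b * pp h a b s = x a b * phi x P c S W a b s)
    {a : V} (ha : P a) {s : ℝ} (hs : s ∈ Icc 0 t) :
    (1 + s)⁻¹ + ∑ b, (xr x P a b * c.al (xr x P a b) s - ps (xr x P a b) s) ≤ bb h ∅ a s := by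
  rw [bb_formula hx hc hh ht hfl ha hs]
  have hs1 : s ∈ Icc (0 : ℝ) 1 := ⟨hs.1, hs.2.trans ht.2⟩
  have h1 := hN.nb a ha s hs1
  have e1 : ∑ b, xr x P a b * (c.al (xr x P a b) s - c.e1 (xr x P a b) s * S a b
      - c.e2 (xr x P a b) s * W a b) = ∑ b, xr x P a b * c.al (xr x P a b) s
      - ∑ b, xr x P a b * (c.e1 (xr x P a b) s * S a b + c.e2 (xr x P a b) s * W a b) := by
    rw [← Finset.sum_sub_distrib]
    exact Finset.sum_congr rfl fun b _ => by ring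
  rw [e1, Finset.sum_sub_distrib]
  linarith

theorem bb_ge (hx : Wt x P d) (hc : c.Ok d) (hN : Nb x P c S W ps d) (hh : Haz h H) {t : ℝ}
    (ht : t ∈ Icc (0 : ℝ) 1)
    (hfl : ∀ s ∈ Icc 0 t, ∀ a b, h s a b * pp h a b s = x a b * phi x P c S W a b s)
    {a : V} (ha : P a) {s : ℝ} (hs : s ∈ Icc 0 t) : (1 + s)⁻¹ ≤ bb h ∅ a s := by
  refine le_trans ?_ (bb_low hx hc hN hh ht hfl ha hs)
  have hs1 : s ∈ Icc (0 : ℝ) 1 := ⟨hs.1, hs.2.trans ht.2⟩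
  have : 0 ≤ ∑ b, (xr x P a b * c.al (xr x P a b) s - ps (xr x P a b) s) :=
    Finset.sum_nonneg fun b _ => by
      have := hN.eta _ (xmem hx a b) s hs1
      linarith
  linarith

theorem bb_up (hx : Wt x P d) (hc : c.Ok d) (hN : Nb x P c S W ps d) (hh : Haz h H) {t : ℝ}
    (ht : t ∈ Icc (0 : ℝ) 1)
    (hfl : ∀ s ∈ Icc 0 t, ∀ a b, h s a b * pp h a b s = x a b * phi x P c S W a b s)
    {a : V} (ha : P a) {s : ℝ} (hs : s ∈ Icc 0 t) :
    bb h ∅ a s ≤ (1 + s)⁻¹ + ∑ b, xr x P a b * c.al (xr x P a b) s := by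
  rw [bb_formula hx hc hh ht hfl ha hs]
  have hs1 : s ∈ Icc (0 : ℝ) 1 := ⟨hs.1, hs.2.trans ht.2⟩
  refine add_le_add le_rfl (Finset.sum_le_sum fun b _ => ?_)
  have h1 := mul_nonneg (hc.e1n _ (xmem hx a b) s hs1) (hN.S0 a b)
  have h2 := mul_nonneg (hc.e2n _ (xmem hx a b) s hs1) (hN.W0 a b)
  exact mul_le_mul_of_nonneg_left (by linarith) (xr_nonneg hx a b)

end Pool.Agent.RCG.Ct
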