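import Pool.Agent.RCG.GlueF

/-! The exponential structure: own gain, A-lemma, N-part main kernel in terms of
`E_{p|q} = ∫ f_pq / a_p` (MP_73ccd0_lc, general graphs). -/

namespace Pool.Agent.RCG

open Set Finset Pool.Agent.RCRSHalf

set_option linter.unusedSectionVars false

variable {V : Type*} [Fintype V] [DecidableEq V]
variable {h : ℝ → V → V → ℝ} {H : V → V → ℝ → ℝ}

/-- the density of `E_{p|q}` -/
noncomputable def dE (h : ℝ → V → V → ℝ) (p q : V) (s : ℝ) : ℝ := h s p q * pp h p q s / bb h ∅ p s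

theorem dE_nonneg (hh : Haz h H) (p q : V) {s : ℝ} (hs : s ∈ Icc (0 : ℝ) 1) : 0 ≤ dE h p q s :=
  div_nonneg (mul_nonneg (hh.nonneg _ _ _) (pp_nonneg hh _ _ hs)) (bb_nonneg hh _ _ hs)

theorem dE_cont (hh : Haz h H) (p q : V) : ContinuousOn (dE h p q) (Icc 0 1) := by
  have h1 : ContinuousOn (fun s => h s p q) (Icc (0 : ℝ) 1) := (hh.cont p q).continuousOn
  exact (h1.mul (pp_cont hh p q)).div (bb_cont hh ∅ p)
    fun s hs => (bb_pos hh (Finset.notMem_empty p) hs).ne'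

/-- The exponent functions `E_{p|q}` exist. -/
theorem exists_E (hh : Haz h H) (p q : V) {t : ℝ} (ht : t ∈ Icc (0 : ℝ) 1) :
    ∃ E : ℝ → ℝ, E 0 = 0 ∧ ∀ s ∈ Icc 0 t, HasDerivAt E (dE h p q s) s :=
  exists_prim ht.1 ((dE_cont hh p q).mono (Icc_subset_Icc le_rfl ht.2))

/-- lower bound of the N-part -/
theorem n_low (hh : Haz h H) {D : Finset V} {p q : V} {T : ℝ} (hT : T ∈ Icc (0 : ℝ) 1)
    {P N : V → ℝ → ℝ}
    (hI : Inf (insert p (insert q D))ᶜ T (RCG.tgt h p T) P N) {s : ℝ} (hs : s ∈ Icc 0 T)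
    {yb : ℝ} (hyb : ∑ w ∈ (insert p (insert q D))ᶜ, h s q w * N w s ≤ yb) :
    -∑ w ∈ ({p, q} : Finset V)ᶜ, h s q w *
          ex (lw h D s) {p, q, w} (fun F => RCG.tgt h p T F s - RCG.tgt h p T (insert w F) s)
      ≤ yb * ex (lw h D s) {p, q} (fun F => RCG.tgt h p T F s) := by
  have hTp := hh.tgt p hT
  have hs1 : s ∈ Icc (0 : ℝ) 1 := ⟨hs.1, hs.2.trans hT.2⟩
  have hμ0 := fun F => (hh.lw D).nonneg F s hs1
  set X := ex (lw h D s) {p, q} (fun F => RCG.tgt h p T F s) with hX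
  have hX0 : 0 ≤ X := ex_nonneg hμ0 fun F => hTp.ev.nonneg F s hs
  have hterm : ∀ w ∈ ({p, q} : Finset V)ᶜ, -(h s q w *
      ex (lw h D s) {p, q, w} (fun F => RCG.tgt h p T F s - RCG.tgt h p T (insert w F) s))
      ≤ (if w ∈ (insert p (insert q D))ᶜ then h s q w * N w s else 0) * X := by
    intro w hw
    by_cases hwD : w ∈ D
    · have : ex (lw h D s) {p, q, w}
          (fun F => RCG.tgt h p T F s - RCG.tgt h p T (insert w F) s) = 0 := by
        unfold ex
        refine Finset.sum_eq_zero fun F _ => ?_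
        by_cases hF0 : lw h D s F = 0
        · rw [hF0, zero_mul]
        · have hFD := lw_support hh D hs1 hF0
          rw [if_neg, mul_zero]
          intro hsub
          have := hFD (hsub (by simp : w ∈ ({p, q, w} : Finset V)))
          rw [Finset.mem_compl] at this
          exact this hwD
      rw [this, mul_zero, neg_zero, if_neg (by
        simp only [Finset.mem_compl, Finset.mem_insert, not_or, not_and, not_not]
        exact fun _ _ => hwD), zero_mul]
    · have hwm : w ∈ (insert p (insert q D))ᶜ := by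
        simp only [Finset.mem_compl, Finset.mem_insert, Finset.mem_singleton, not_or] at hw ⊢
        exact ⟨hw.1, hw.2, hwD⟩
      rw [if_pos hwm]
      have hNw := hI.N0 w hwm s hs
      have h1 : -(N w s * X) ≤ ex (lw h D s) {p, q, w}
          (fun F => RCG.tgt h p T F s - RCG.tgt h p T (insert w F) s) := by
        rw [hX]
        unfold ex
        rw [Finset.mul_sum, ← Finset.sum_neg_distrib]
        refine Finset.sum_le_sum fun F _ => ?_
        by_cases hF0 : lw h D s F = 0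
        · rw [hF0]; simp
        · have hFD := lw_support hh D hs1 hF0
          by_cases hF : ({p, q, w} : Finset V) ⊆ F
          · have hF2 : ({p, q} : Finset V) ⊆ F := fun z hz => hF (by
              simp only [Finset.mem_insert, Finset.mem_singleton] at hz ⊢
              tauto)
            rw [if_pos hF, if_pos hF2]
            have hwF : w ∈ F := hF (by simp)
            have hwn : w ∉ ({p, q} : Finset V) := by
              rw [← Finset.mem_compl]; exact hw
            have e4 : insert w (F \ {p, q, w}) = F \ {p, q} := by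
              ext z
              simp only [Finset.mem_insert, Finset.mem_sdiff, Finset.mem_singleton]
              constructor
              · rintro (rfl | ⟨h1, h2⟩)
                · refine ⟨hwF, ?_⟩
                  simpa using hwn
                · tauto
              · rintro ⟨h1, h2⟩
                by_cases hz : z = w
                · exact Or.inl hz
                · right; tauto
            beta_reduce
            rw [e4]
            have hsubs : F \ {p, q} ⊆ (insert p (insert q D))ᶜ := by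
              intro z hz
              have h1 := hFD (Finset.mem_sdiff.1 hz).1
              have h2 := (Finset.mem_sdiff.1 hz).2
              simp only [Finset.mem_compl, Finset.mem_insert, Finset.mem_singleton] at *
              tauto
            have h3 := hI.lo (F \ {p, q}) hsubs w (Finset.mem_sdiff.2 ⟨hwF, hwn⟩) s hs
            have e7 : (F \ {p, q}).erase w = F \ {p, q, w} := by
              rw [← e4, Finset.erase_insert (by simp)]
            rw [e7] at h3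
            have h4 := mul_le_mul_of_nonneg_left h3 (hμ0 F)
            nlinarith
          · rw [if_neg hF, mul_zero]
            have : 0 ≤ N w s * (lw h D s F *
                (if ({p, q} : Finset V) ⊆ F then RCG.tgt h p T (F \ {p, q}) s else 0)) := by
              refine mul_nonneg hNw (mul_nonneg (hμ0 F) ?_)
              split_ifs
              · exact hTp.ev.nonneg _ s hs
              · exact le_rfl
            linarith
      have h2 := mul_le_mul_of_nonneg_left h1 (hh.nonneg s q w)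
      nlinarith
  rw [← Finset.sum_neg_distrib]
  refine (Finset.sum_le_sum hterm).trans ?_
  rw [← Finset.sum_mul]
  refine mul_le_mul_of_nonneg_right ?_ hX0
  rw [← Finset.sum_filter]
  refine le_trans (le_of_eq ?_) hyb
  refine Finset.sum_congr ?_ fun _ _ => rfl
  ext z
  simp only [Finset.mem_filter, Finset.mem_compl, Finset.mem_insert, Finset.mem_singleton]
  tauto

/-- The own gain, simple form with constant exponent bounds:
`W ≤ e^{-E} + ν' + (1 - e^{-E}) (ν + d + d')`. -/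
theorem own_E (hh : Haz h H) {u v : V} (huv : u ≠ v) {t : ℝ} (ht : t ∈ Icc (0 : ℝ) 1)
    {E : ℝ → ℝ} (hE : ∀ s ∈ Icc 0 t, HasDerivAt E (dE h u v s) s) (hE0 : E 0 = 0)
    {κ1 Q1 Q2 : ℝ → ℝ} {κ2 : ℝ → ℝ → ℝ} {d d' ν ν' : ℝ} (hd0 : 0 ≤ d + d') (hd'0 : 0 ≤ d')
    (hν0 : 0 ≤ ν)
    (hpp : ∀ s ∈ Icc 0 t,
      Real.exp (H u v s) * pp h u v s ≤ Real.exp (κ1 s) * (bb h {v} u s * bb h {u} v s))
    (hex : ∀ s ∈ Icc 0 t, Real.exp (-H u v s - Q1 s) * (bb h {v} u t * bb h {u} v s)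
      ≤ ex (lw h ∅ s) {u, v} (fun F => RCG.tgt h u t F s))
    (hd : ∀ s ∈ Icc 0 t, κ1 s + Q1 s ≤ d)
    (hpp' : ∀ s ∈ Icc 0 t,
      Real.exp (-Q2 s) * (bb h {v} u s * bb h {u} v s) ≤ Real.exp (H u v s) * pp h u v s)
    (hex' : ∀ T ∈ Icc 0 t, ∀ s ∈ Icc 0 T, ex (lw h ∅ s) {u, v} (fun F => RCG.tgt h u T F s)
      ≤ Real.exp (-H u v s + κ2 T s) * (bb h {v} u T * bb h {u} v s))
    (hd' : ∀ T ∈ Icc 0 t, ∀ s ∈ Icc 0 T, κ2 T s + Q2 s ≤ d')
    {Γ2 g2 : ℝ → ℝ} (hΓ2 : ∀ s ∈ Icc 0 t, HasDerivAt Γ2 (g2 s) s)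
    (hg2 : ∀ s ∈ Icc 0 t, ∑ w ∈ ({u, v} : Finset V)ᶜ, h s v w *
          ex (lw h ∅ s) {u, v, w} (fun F => RCG.tgt h u t F s - RCG.tgt h u t (insert w F) s)
      ≤ bb h {v} u t * g2 s) (hν' : Γ2 t - Γ2 0 ≤ ν')
    (hlow : ∀ T ∈ Icc 0 t, ∃ Γ3 g3 : ℝ → ℝ, (∀ s ∈ Icc 0 T, HasDerivAt Γ3 (g3 s) s) ∧
      (∀ s ∈ Icc 0 T, -(bb h {v} u T * g3 s) ≤ ∑ w ∈ ({u, v} : Finset V)ᶜ, h s v w *
          ex (lw h ∅ s) {u, v, w} (fun F => RCG.tgt h u T F s - RCG.tgt h u T (insert w F) s)) ∧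
      Γ3 T - Γ3 0 ≤ ν) :
    Wr h u v t ≤ Real.exp (-E t) + ν' + (1 - Real.exp (-E t)) * (ν + (d + d')) := by
  have hc : ContinuousOn (fun s => dE h u v s * Wr h u v s) (Icc 0 t) :=
    ((dE_cont hh u v).mul (Wr_cont hh huv)).mono (Icc_subset_Icc le_rfl ht.2)
  obtain ⟨I, hI0, hI⟩ := exists_prim ht.1 hc
  have hW0 : ∀ s ∈ Icc 0 t, 0 ≤ Wr h u v s := fun s hs =>
    (Wr_pos hh huv ⟨hs.1, hs.2.trans ht.2⟩).le
  have hE'0 : ∀ s ∈ Icc 0 t, 0 ≤ dE h u v s := fun s hs =>
    dE_nonneg hh u v ⟨hs.1, hs.2.trans ht.2⟩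
  have hup := own_up hh huv ht hpp hex hd (Γ := fun s => Real.exp (-d) * I s)
    (fun s hs => by
      refine ((hI s hs).const_mul (Real.exp (-d))).congr_deriv ?_
      unfold dE; ring) hΓ2 hg2
  have hlo : ∀ T ∈ Icc 0 t, 1 - ν - Real.exp d' * I T ≤ Wr h u v T := by
    intro T hT
    obtain ⟨Γ3, g3, h1, h2, h3⟩ := hlow T hT
    have hT1 : T ∈ Icc (0 : ℝ) 1 := ⟨hT.1, hT.2.trans ht.2⟩
    have := own_lo hh huv hT1 (κ := κ2 T) (Q := Q2) (d := fun _ => d')
      (fun s hs => hpp' s ⟨hs.1, hs.2.trans hT.2⟩) (hex' T hT) (hd' T hT)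
      (Γ := fun s => Real.exp d' * I s) (fun s hs => by
        refine ((hI s ⟨hs.1, hs.2.trans hT.2⟩).const_mul (Real.exp d')).congr_deriv ?_
        unfold dE; ring) h1 h2
    simp only [hI0, mul_zero, sub_zero] at this
    linarith
  have hEt : 0 ≤ E t :=
    nonneg_of_forward (U := E) (U' := dE h u v) (a := 0) (s := t) hE (by rw [hE0])
      (fun r hr _ => hE'0 r hr) t ⟨ht.1, le_rfl⟩
  have hg := gron (W := Wr h u v) (I := fun s => Real.exp d' * I s)
    (E := fun s => Real.exp d' * E s) (E' := fun s => Real.exp d' * dE h u v s) (c := 1 - ν) ht.1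
    (fun s hs => (hE s hs).const_mul _) (by simp [hE0])
    (fun s hs => mul_nonneg (Real.exp_pos _).le (hE'0 s hs))
    (fun s hs => ((hI s hs).const_mul (Real.exp d')).congr_deriv (by ring)) (by simp [hI0])
    (fun s hs => hlo s hs)
  simp only [hI0, mul_zero, sub_zero] at hup
  have hIt : 0 ≤ I t :=
    nonneg_of_forward (U := I) (U' := fun s => dE h u v s * Wr h u v s) (a := 0) (s := t) hI
      (by rw [hI0]) (fun r hr _ => mul_nonneg (hE'0 r hr) (hW0 r hr)) t ⟨ht.1, le_rfl⟩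
  have he1 : Real.exp (-E t) ≤ 1 := Real.exp_le_one_iff.2 (by linarith)
  have he0 := Real.exp_pos (-E t)
  by_cases hν1 : ν ≤ 1
  · have e1 : Real.exp (-(Real.exp d' * E t)) ≤ Real.exp (-E t) := by
      refine Real.exp_le_exp.2 ?_
      nlinarith [Real.one_le_exp hd'0]
    have e2 : (1 - ν) * (1 - Real.exp (-E t)) ≤ Real.exp d' * I t := by
      refine le_trans ?_ hg
      exact mul_le_mul_of_nonneg_left (by linarith) (by linarith)
    have e3 : Real.exp (-(d + d')) * ((1 - ν) * (1 - Real.exp (-E t))) ≤ Real.exp (-d) * I t := by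
      have := mul_le_mul_of_nonneg_left e2 (Real.exp_pos (-(d + d'))).le
      refine this.trans (le_of_eq ?_)
      rw [← mul_assoc, ← Real.exp_add]
      congr 2; ring
    have e4 : 1 - (d + d') ≤ Real.exp (-(d + d')) := by
      linarith [Real.add_one_le_exp (-(d + d'))]
    have e5 := mul_le_mul_of_nonneg_right e4
      (mul_nonneg (sub_nonneg.2 hν1) (sub_nonneg.2 he1))
    nlinarith [mul_nonneg (mul_nonneg hν0 hd0) (sub_nonneg.2 he1)]
  · push Not at hν1
    have e6 : 0 ≤ Real.exp (-d) * I t := mul_nonneg (Real.exp_pos _).le hIt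
    nlinarith [mul_nonneg (sub_nonneg.2 he1) (sub_nonneg.2 hν1.le),
      mul_nonneg (sub_nonneg.2 he1) hd0]

/-- The A-lemma in exponential form. -/
theorem aLem_E (hh : Haz h H) {D : Finset V} {p q : V} (hp : p ∉ D) (hq : q ∉ D) (hpq : p ≠ q)
    {T : ℝ} (hT : T ∈ Icc (0 : ℝ) 1) {P N : V → ℝ → ℝ}
    (hI : Inf (insert p (insert q D))ᶜ T (RCG.tgt h p T) P N)
    {E : ℝ → ℝ} (hE : ∀ s ∈ Icc 0 T, HasDerivAt E (dE h p q s) s) (hE0 : E 0 = 0)
    {yb κ Q r β w : ℝ → ℝ} {ε n : ℝ}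
    (hyb : ∀ s ∈ Icc 0 T, ∑ w ∈ (insert p (insert q D))ᶜ, h s q w * N w s ≤ yb s)
    (hyb0 : ∀ s ∈ Icc 0 T, 0 ≤ yb s)
    (hcmp : ∀ s ∈ Icc 0 T, ex (lw h D s) {p, q} (fun F => RCG.tgt h p T F s)
      ≤ Real.exp (-H p q s + κ s) * (bb h (insert q D) p T * bb h (insert p D) q s))
    (hQ : ∀ s ∈ Icc 0 T, Real.exp (-Q s) * (bb h {q} p s * bb h {p} q s)
      ≤ Real.exp (H p q s) * pp h p q s)
    (hr : ∀ s ∈ Icc 0 T, bb h (insert p D) q s ≤ r s * bb h {p} q s)
    (hβ : ∀ s ∈ Icc 0 T, Real.exp (-H p q s) * bb h (insert p D) q s ≤ β s)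
    (hw : ∀ s ∈ Icc 0 T, Wr h p q s ≤ Real.exp (-E s) * (1 + w s))
    (hε : ∀ s ∈ Icc 0 T, (1 + w s) * (r s * Real.exp (κ s + Q s)) ≤ 1 + ε)
    {Z Z' : ℝ → ℝ} (hZ : ∀ s ∈ Icc 0 T, HasDerivAt Z (Z' s) s)
    (hZ' : ∀ s ∈ Icc 0 T, yb s * Real.exp (κ s) * β s ≤ Z' s) (hZn : Z T - Z 0 ≤ n) :
    bb h (insert q D) p T * (Real.exp (-E T) - (1 - Real.exp (-E T)) * ε - n) ≤ bb h D p T := by
  have hr0 : ∀ s ∈ Icc 0 T, 0 ≤ r s := by
    intro s hs
    have hs1 : s ∈ Icc (0 : ℝ) 1 := ⟨hs.1, hs.2.trans hT.2⟩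
    by_contra hneg
    push Not at hneg
    have h4 := hr s hs
    have h5 : 0 ≤ bb h (insert p D) q s := bb_nonneg hh _ _ hs1
    have h6 := bb_pos hh (show q ∉ ({p} : Finset V) by simpa using hpq.symm) hs1
    nlinarith
  have key := aLem_flux hh hp hq hpq hT hI hyb hyb0 hcmp hQ hr hβ
    (Γ := fun s => (1 + ε) * (-Real.exp (-E s)) + Z s)
    (g := fun s => (1 + ε) * (Real.exp (-E s) * dE h p q s) + Z' s)
    (fun s hs => by
      have d1 := ((hE s hs).neg.exp).neg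
      refine ((d1.const_mul (1 + ε)).add (hZ s hs)).congr_deriv ?_
      simp only [Pi.neg_apply]
      ring)
    (fun s hs => by
      have hs1 : s ∈ Icc (0 : ℝ) 1 := ⟨hs.1, hs.2.trans hT.2⟩
      refine add_le_add ?_ (hZ' s hs)
      have e0 := dE_nonneg hh p q hs1
      have e1 : 0 ≤ r s * Real.exp (κ s + Q s) := mul_nonneg (hr0 s hs) (Real.exp_pos _).le
      calc h s p q * pp h p q s / bb h ∅ p s * Wr h p q s * r s * Real.exp (κ s + Q s)
          = dE h p q s * Wr h p q s * (r s * Real.exp (κ s + Q s)) := by unfold dE; ring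
        _ ≤ dE h p q s * (Real.exp (-E s) * (1 + w s)) * (r s * Real.exp (κ s + Q s)) :=
            mul_le_mul_of_nonneg_right (mul_le_mul_of_nonneg_left (hw s hs) e0) e1
        _ = dE h p q s * Real.exp (-E s) * ((1 + w s) * (r s * Real.exp (κ s + Q s))) := by ring
        _ ≤ dE h p q s * Real.exp (-E s) * (1 + ε) :=
            mul_le_mul_of_nonneg_left (hε s hs) (mul_nonneg e0 (Real.exp_pos _).le)
        _ = _ := by ring)
  have hB0 : 0 ≤ bb h (insert q D) p T := bb_nonneg hh _ _ hT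
  refine le_trans (mul_le_mul_of_nonneg_left ?_ hB0) key
  simp only [hE0, neg_zero, Real.exp_zero]
  nlinarith

/-- bound of the ratio from `aLem_E` -/
theorem ratio_E {x y E ε n α : ℝ} (hx : 0 ≤ x) (hα0 : 0 ≤ α)
    (h : x * (Real.exp (-E) - (1 - Real.exp (-E)) * ε - n) ≤ y)
    (hα : 1 ≤ (1 + α) * (1 - (Real.exp E - 1) * ε - Real.exp E * n)) :
    x ≤ Real.exp E * (1 + α) * y := by
  have e1 : Real.exp E * Real.exp (-E) = 1 := by rw [← Real.exp_add, add_neg_cancel, Real.exp_zero]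
  have e2 := mul_le_mul_of_nonneg_left h
    (mul_nonneg (Real.exp_pos E).le (show 0 ≤ 1 + α by linarith))
  have e3 : Real.exp E * (1 + α) * (x * (Real.exp (-E) - (1 - Real.exp (-E)) * ε - n))
      = x * ((1 + α) * (Real.exp E * Real.exp (-E) - (Real.exp E - Real.exp E * Real.exp (-E)) * ε
        - Real.exp E * n)) := by ring
  rw [e3, e1] at e2
  have e4 := mul_le_mul_of_nonneg_left hα hx
  linarith

/-- the source value in exponential form -/
theorem t1_J (hh : Haz h H) {u v w : V} (huw : u ≠ w) {t : ℝ} (ht : t ∈ Icc (0 : ℝ) 1)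
    {P R R' : ℝ → ℝ} (hR : ∀ s ∈ Icc 0 t, HasDerivAt R (R' s) s) {Q w1 α : ℝ → ℝ} {c : ℝ}
    (hQ : ∀ r ∈ Icc 0 t, Real.exp (-Q r) * (bb h {w} u r * bb h {u} w r)
      ≤ Real.exp (H u w r) * pp h u w r)
    (hW : ∀ r ∈ Icc 0 t, Wr h u w r ≤ Real.exp (-P r) * (1 + w1 r))
    (hA : ∀ r ∈ Icc 0 t, bb h {u, v} w r ≤ Real.exp (R r) * (1 + α r) * bb h {u} w r)
    (hα0 : ∀ r ∈ Icc 0 t, 0 ≤ α r)
    (hc : ∀ r ∈ Icc 0 t, (1 + w1 r) * (1 + α r) * Real.exp (Q r) ≤ 1 + c)
    {Ψ Ψ' : ℝ → ℝ} (hΨd : ∀ s ∈ Icc 0 t, HasDerivAt Ψ (Ψ' s) s) (hΨt : 0 ≤ Ψ t)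
    (hc0 : 0 ≤ 1 + c)
    (hΨ : ∀ s ∈ Icc 0 t, Ψ s * R' s + dE h u w s * Real.exp (P t - P s) ≤ -Ψ' s) :
    ∀ s ∈ Icc 0 t, zx h H {u, v} u w t s ≤ (1 + c) * (Real.exp (-P t + R s) * Ψ s) := by
  refine zx_flux hh huw ht (Q := Q) (A := fun r => Real.exp (R r) * (1 + α r)) hQ hA
    (J' := fun s => (1 + c) * (Real.exp (-P t + R s) * R' s * Ψ s + Real.exp (-P t + R s) * Ψ' s))
    (fun s hs => (((((hR s hs).const_add (-P t)).exp).mul (hΨd s hs)).const_mul (1 + c)))
    (mul_nonneg hc0 (mul_nonneg (Real.exp_pos _).le hΨt)) fun r hr => ?_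
  have hr1 : r ∈ Icc (0 : ℝ) 1 := ⟨hr.1, hr.2.trans ht.2⟩
  have e0 := dE_nonneg hh u w hr1
  have e1 : 0 ≤ Real.exp (R r) * (1 + α r) * Real.exp (Q r) := by
    have := hα0 r hr; positivity
  calc h r u w * pp h u w r / bb h ∅ u r * Wr h u w r * (Real.exp (R r) * (1 + α r)) *
        Real.exp (Q r)
      = dE h u w r * Wr h u w r * (Real.exp (R r) * (1 + α r) * Real.exp (Q r)) := by
        unfold dE; ring
    _ ≤ dE h u w r * (Real.exp (-P r) * (1 + w1 r)) *
          (Real.exp (R r) * (1 + α r) * Real.exp (Q r)) :=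
        mul_le_mul_of_nonneg_right (mul_le_mul_of_nonneg_left (hW r hr) e0) e1
    _ = dE h u w r * Real.exp (-P r) * Real.exp (R r) *
          ((1 + w1 r) * (1 + α r) * Real.exp (Q r)) := by ring
    _ ≤ dE h u w r * Real.exp (-P r) * Real.exp (R r) * (1 + c) :=
        mul_le_mul_of_nonneg_left (hc r hr)
          (mul_nonneg (mul_nonneg e0 (Real.exp_pos _).le) (Real.exp_pos _).le)
    _ = (1 + c) * Real.exp (-P t + R r) * (dE h u w r * Real.exp (P t - P r)) := by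
        have : Real.exp (-P r) * Real.exp (R r) = Real.exp (-P t + R r) * Real.exp (P t - P r) := by
          rw [← Real.exp_add, ← Real.exp_add]; congr 1; ring
        rw [mul_assoc (dE h u w r), this]; ring
    _ ≤ (1 + c) * Real.exp (-P t + R r) * (-Ψ' r - Ψ r * R' r) :=
        mul_le_mul_of_nonneg_left (by linarith [hΨ r hr])
          (mul_nonneg hc0 (Real.exp_pos _).le)
    _ = _ := by ring

/-- The main N-part term in exponential form. -/
theorem t1_term (hh : Haz h H) {u v w : V} (huv : u ≠ v) (huw : u ≠ w) (hvw : v ≠ w) {t : ℝ}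
    (ht : t ∈ Icc (0 : ℝ) 1) {s : ℝ} (hs : s ∈ Icc 0 t) {K κ K' Y Q Yv Yw Rs Pt α2 w2 c Ψ Θ : ℝ}
    (hxi : ex (lw h ∅ s) {u, v, w} (fun F => RCG.tgt h u t F s - RCG.tgt h u t (insert w F) s)
      ≤ Real.exp κ * ex (lw h ∅ s) {u, v, w} (fun F => RCG.tgt h u t F s * RCG.src h u w t F s)
        + Y * ex (lw h ∅ s) {u, v, w} (fun F => RCG.tgt h u t F s))
    (hm : ex (lw h ∅ s) {u, v, w} (fun F => RCG.tgt h u t F s * RCG.src h u w t F s)
      ≤ Real.exp (-(H u v s + H v w s) + K) *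
        (bb h {v, w} u t * bb h {u, w} v s * zx h H {u, v} u w t s))
    (hcr : ex (lw h ∅ s) {u, v, w} (fun F => RCG.tgt h u t F s)
      ≤ Real.exp (-(H u v s + H u w s + H v w s) + K') *
        (bb h {v, w} u t * bb h {u, w} v s * bb h {u, v} w s))
    (hY0 : 0 ≤ Y)
    (hQ : Real.exp (-Q) * (bb h {w} v s * bb h {v} w s) ≤ Real.exp (H v w s) * pp h v w s)
    (hdv : bb h {u, w} v s ≤ Real.exp (H u v s + Yv) * bb h {w} v s)
    (hdw : bb h {u, v} w s ≤ Real.exp (H u w s + Yw) * bb h {v} w s)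
    (hA : bb h {v, w} u t ≤ Real.exp Pt * (1 + α2) * bb h {v} u t) (hα2 : 0 ≤ 1 + α2)
    (hW : Wr h w v s ≤ Real.exp (-Rs) * (1 + w2))
    (hJ : zx h H {u, v} u w t s ≤ (1 + c) * (Real.exp (-Pt + Rs) * Ψ)) (hΨ : 0 ≤ Ψ) (hc : 0 ≤ 1 + c)
    (hΘ : (1 + α2) * (1 + w2) * (1 + c) * Real.exp (κ + K + Q + Yv) ≤ Θ) :
    h s v w * ex (lw h ∅ s) {u, v, w}
        (fun F => RCG.tgt h u t F s - RCG.tgt h u t (insert w F) s)
      ≤ bb h {v} u t * (dE h w v s * Ψ * Θ +
        Real.exp Pt * (1 + α2) * (Y * (h s v w * pp h v w s) *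
          Real.exp (K' + Q + Yv + Yw))) := by
  have hs1 : s ∈ Icc (0 : ℝ) 1 := ⟨hs.1, hs.2.trans ht.2⟩
  have key := n_term hh huv huw hvw ht hs (A := Real.exp Pt * (1 + α2))
    (J := (1 + c) * (Real.exp (-Pt + Rs) * Ψ)) hxi hm hcr hY0 hQ hdv hdw hA hJ (by positivity)
  refine key.trans (mul_le_mul_of_nonneg_left ?_ (bb_nonneg hh _ _ ht))
  rw [mul_add]
  refine add_le_add ?_ le_rfl
  have hsym : h s v w * pp h v w s / bb h ∅ w s = dE h w v s := by
    unfold dE
    rw [hh.symm s v w]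
    have : pp h v w s = pp h w v s := by unfold pp; rw [Finset.pair_comm]
    rw [this]
  rw [hsym]
  have e0 := dE_nonneg hh w v hs1
  have e3 : Real.exp Pt * Real.exp (-Rs) * Real.exp (-Pt + Rs) = 1 := by
    rw [← Real.exp_add, ← Real.exp_add, ← Real.exp_zero]; congr 1; ring
  calc Real.exp Pt * (1 + α2) * (dE h w v s * Wr h w v s *
        ((1 + c) * (Real.exp (-Pt + Rs) * Ψ)) * Real.exp (κ + K + Q + Yv))
      = (Real.exp Pt * (1 + α2) * dE h w v s * ((1 + c) * (Real.exp (-Pt + Rs) * Ψ)) *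
          Real.exp (κ + K + Q + Yv)) * Wr h w v s := by ring
    _ ≤ (Real.exp Pt * (1 + α2) * dE h w v s * ((1 + c) * (Real.exp (-Pt + Rs) * Ψ)) *
          Real.exp (κ + K + Q + Yv)) * (Real.exp (-Rs) * (1 + w2)) := by
        refine mul_le_mul_of_nonneg_left hW ?_
        positivity
    _ = (Real.exp Pt * Real.exp (-Rs) * Real.exp (-Pt + Rs)) * (dE h w v s * Ψ *
          ((1 + α2) * (1 + w2) * (1 + c) * Real.exp (κ + K + Q + Yv))) := by ring
    _ ≤ _ := by
        rw [e3, one_mul]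
        exact mul_le_mul_of_nonneg_left hΘ (mul_nonneg e0 hΨ)

/-- crude bound of an N-part term -/
theorem n_crude (hh : Haz h H) {u v w : V} (huw : u ≠ w) (hvw : v ≠ w) {t : ℝ}
    (ht : t ∈ Icc (0 : ℝ) 1) {s : ℝ} (hs : s ∈ Icc 0 t) {H0 : Finset V} {P N : V → ℝ → ℝ}
    (hH0 : ({u, v} : Finset V)ᶜ ⊆ H0) (hI : Inf H0 t (RCG.tgt h u t) P N)
    {θ K' Q Yv Yw A : ℝ}
    (hθ : 1 - (1 + P w s)⁻¹ ≤ θ)
    (hcr : ex (lw h ∅ s) {u, v, w} (fun F => RCG.tgt h u t F s)
      ≤ Real.exp (-(H u v s + H u w s + H v w s) + K') *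
        (bb h {v, w} u t * bb h {u, w} v s * bb h {u, v} w s))
    (hQ : Real.exp (-Q) * (bb h {w} v s * bb h {v} w s) ≤ Real.exp (H v w s) * pp h v w s)
    (hdv : bb h {u, w} v s ≤ Real.exp (H u v s + Yv) * bb h {w} v s)
    (hdw : bb h {u, v} w s ≤ Real.exp (H u w s + Yw) * bb h {v} w s)
    (hA : bb h {v, w} u t ≤ A * bb h {v} u t) :
    h s v w * ex (lw h ∅ s) {u, v, w}
        (fun F => RCG.tgt h u t F s - RCG.tgt h u t (insert w F) s)
      ≤ bb h {v} u t * (A * (θ * (h s v w * pp h v w s) * Real.exp (K' + Q + Yv + Yw))) := by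
  have hs1 : s ∈ Icc (0 : ℝ) 1 := ⟨hs.1, hs.2.trans ht.2⟩
  have hμ0 := fun F => (hh.lw ∅).nonneg F s hs1
  have hwH : w ∈ H0 := hH0 (by simp [huw.symm, hvw.symm])
  have hP0 := hI.P0 w hwH s hs
  have hθ0 : 0 ≤ θ := by
    refine le_trans ?_ hθ
    have : (1 + P w s)⁻¹ ≤ 1 := inv_le_one_of_one_le₀ (by linarith)
    linarith
  -- pointwise bound
  have h1 : ex (lw h ∅ s) {u, v, w}
      (fun F => RCG.tgt h u t F s - RCG.tgt h u t (insert w F) s)
      ≤ θ * ex (lw h ∅ s) {u, v, w} (fun F => RCG.tgt h u t F s) := by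
    rw [← ex_smul]
    refine ex_mono hμ0 fun F hF hF0 => ?_
    have hsub : insert w (F \ {u, v, w}) ⊆ H0 := by
      refine subset_trans ?_ hH0
      intro z hz
      simp only [Finset.mem_insert, Finset.mem_sdiff, Finset.mem_singleton, Finset.mem_compl] at *
      rcases hz with rfl | hz
      · tauto
      · tauto
    have h2 := hI.up _ hsub w (Finset.mem_insert_self _ _) s hs
    rw [Finset.erase_insert (by simp)] at h2
    have h3 : 0 ≤ RCG.tgt h u t (F \ {u, v, w}) s := (hh.tgt u ht).ev.nonneg _ s hs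
    have hp : 0 < 1 + P w s := by linarith
    have h4 : (1 + P w s)⁻¹ * RCG.tgt h u t (F \ {u, v, w}) s
        ≤ RCG.tgt h u t (insert w (F \ {u, v, w})) s := by
      rw [inv_mul_eq_div, div_le_iff₀ hp]
      linarith
    have h5 := mul_le_mul_of_nonneg_right hθ h3
    linarith
  have hf := hh.nonneg s v w
  have hX0 : 0 ≤ ex (lw h ∅ s) {u, v, w} (fun F => RCG.tgt h u t F s) :=
    ex_nonneg hμ0 fun F => (hh.tgt u ht).ev.nonneg F s hs
  have bv := bb_nonneg hh {w} v hs1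
  have bw := bb_nonneg hh {v} w hs1
  have bu := bb_nonneg hh {v, w} u ht
  have h2 := hz_up hh hvw hs1 hQ
  have h6 := bb_nonneg hh {u, w} v hs1
  have h7 := bb_nonneg hh {u, v} w hs1
  have bvu : 0 ≤ bb h {v} u t := bb_nonneg hh _ _ ht
  have hf' : 0 ≤ h s v w * pp h v w s := mul_nonneg hf (pp_nonneg hh _ _ hs1)
  calc h s v w * ex (lw h ∅ s) {u, v, w}
        (fun F => RCG.tgt h u t F s - RCG.tgt h u t (insert w F) s)
      ≤ h s v w * (θ * (Real.exp (-(H u v s + H u w s + H v w s) + K') *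
        (bb h {v, w} u t * bb h {u, w} v s * bb h {u, v} w s))) :=
        mul_le_mul_of_nonneg_left (h1.trans (mul_le_mul_of_nonneg_left hcr hθ0)) hf
    _ ≤ h s v w * (θ * (Real.exp (-(H u v s + H u w s + H v w s) + K') *
        (bb h {v, w} u t * (Real.exp (H u v s + Yv) * bb h {w} v s) *
          (Real.exp (H u w s + Yw) * bb h {v} w s)))) := by
        gcongr
    _ = θ * bb h {v, w} u t * Real.exp (K' + Yv + Yw) *
          (h s v w * Real.exp (-H v w s) * (bb h {w} v s * bb h {v} w s)) := by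
        have : Real.exp (-(H u v s + H u w s + H v w s) + K') * Real.exp (H u v s + Yv) *
            Real.exp (H u w s + Yw) = Real.exp (K' + Yv + Yw) * Real.exp (-H v w s) := by
          rw [← Real.exp_add, ← Real.exp_add, ← Real.exp_add]; congr 1; ring
        calc _ = h s v w * θ * bb h {v, w} u t * (bb h {w} v s * bb h {v} w s) *
              (Real.exp (-(H u v s + H u w s + H v w s) + K') * Real.exp (H u v s + Yv) *
            Real.exp (H u w s + Yw)) := by ring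
          _ = _ := by rw [this]; ring
    _ ≤ θ * bb h {v, w} u t * Real.exp (K' + Yv + Yw) * (h s v w * pp h v w s * Real.exp Q) :=
        mul_le_mul_of_nonneg_left h2 (by positivity)
    _ = θ * Real.exp (K' + Q + Yv + Yw) * (h s v w * pp h v w s) * bb h {v, w} u t := by
        rw [show K' + Q + Yv + Yw = (K' + Yv + Yw) + Q by ring, Real.exp_add (K' + Yv + Yw)]; ring
    _ ≤ θ * Real.exp (K' + Q + Yv + Yw) * (h s v w * pp h v w s) * (A * bb h {v} u t) :=
        mul_le_mul_of_nonneg_left hA (by positivity)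
    _ = _ := by ring

end Pool.Agent.RCG
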