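import Pool.Agent.RCG.CtA
import Pool.Agent.RCG.EStr

/-! The certificate, abstract part: lower bound of the product `U_u U_v` (MP_73ccd0_lc). -/

namespace Pool.Agent.RCG.Ct

open Finset Set Pool.Agent.RCRSHalf

set_option linter.unusedSectionVars false

variable {V : Type*} [Fintype V] [DecidableEq V]
variable {x : V → V → ℝ} {P : V → Prop} [DecidablePred P] {d : ℝ}
variable {h : ℝ → V → V → ℝ} {H : V → V → ℝ → ℝ} {c : Fn} {S W : V → V → ℝ} {ps : ℝ → ℝ → ℝ}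

/-- `(1 + t) (q + x α)` -/
noncomputable def DD (c : Fn) (y t : ℝ) : ℝ := 1 + y * ((1 + t) * c.al y t)

theorem DD_pos (hc : c.Ok d) {y t : ℝ} (hy : y ∈ Icc (0 : ℝ) d) (ht : t ∈ Icc (0 : ℝ) 1) :
    1 ≤ DD c y t := by
  have h1 := hc.aln y hy t ht
  have h2 : 0 ≤ 1 + t := by linarith [ht.1]
  have := mul_nonneg hy.1 (mul_nonneg h2 h1)
  unfold DD; linarith

/-- `1 / (q + x α)` -/
noncomputable def rr (c : Fn) (y t : ℝ) : ℝ := (1 + t) / DD c y t

theorem rr_pos (hc : c.Ok d) {y t : ℝ} (hy : y ∈ Icc (0 : ℝ) d) (ht : t ∈ Icc (0 : ℝ) 1) :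
    0 < rr c y t :=
  div_pos (by linarith [ht.1]) (by linarith [DD_pos hc hy ht])

theorem rr_mul (hc : c.Ok d) {y t : ℝ} (hy : y ∈ Icc (0 : ℝ) d) (ht : t ∈ Icc (0 : ℝ) 1) :
    rr c y t * ((1 + t)⁻¹ + y * c.al y t) = 1 := by
  have h1 := DD_pos hc hy ht
  have h2 : (1 + t) ≠ 0 := by linarith [ht.1]
  unfold rr
  have h3 : DD c y t ≠ 0 := by linarith
  field_simp
  unfold DD; ring

theorem DD_deriv (hc : c.Ok d) {y t : ℝ} (hy : y ∈ Icc (0 : ℝ) d) (ht : t ∈ Icc (0 : ℝ) 1) :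
    HasDerivAt (DD c y) (y * (c.al y t + (1 + t) * c.al' y t)) t := by
  unfold DD
  have h1 : HasDerivAt (fun t : ℝ => 1 + t) 1 t := by
    simpa using (hasDerivAt_id t).const_add 1
  have := ((h1.mul (hc.dal y hy t ht)).const_mul y).const_add 1
  refine this.congr_deriv ?_
  ring

theorem rr_deriv (hc : c.Ok d) {y t : ℝ} (hy : y ∈ Icc (0 : ℝ) d) (ht : t ∈ Icc (0 : ℝ) 1) :
    HasDerivAt (rr c y) ((1 - y * ((1 + t) ^ 2 * c.al' y t)) / DD c y t ^ 2) t := by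
  unfold rr
  have h1 : HasDerivAt (fun t : ℝ => 1 + t) 1 t := by
    simpa using (hasDerivAt_id t).const_add 1
  have h3 : DD c y t ≠ 0 := by linarith [DD_pos hc hy ht]
  refine (h1.div (DD_deriv hc hy ht) h3).congr_deriv ?_
  congr 1
  unfold DD; ring

/-- Functions for the lower bound of the exponents `E`. -/
structure EFn where
  ga : ℝ → ℝ → ℝ
  ga' : ℝ → ℝ → ℝ
  j : ℝ → ℝ → ℝ → ℝ
  j' : ℝ → ℝ → ℝ → ℝ
  n1 : ℝ → ℝ → ℝ
  n1' : ℝ → ℝ → ℝ
  n2 : ℝ → ℝ → ℝ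
  n2' : ℝ → ℝ → ℝ
  ph : ℝ → ℝ → ℝ

structure EFn.Ok (e : EFn) (c : Fn) (d : ℝ) : Prop where
  dga : ∀ y ∈ Icc (0 : ℝ) d, ∀ t ∈ Icc (0 : ℝ) 1, HasDerivAt (e.ga y) (e.ga' y t) t
  gap : ∀ y ∈ Icc (0 : ℝ) d, ∀ t ∈ Icc (0 : ℝ) 1, 0 < e.ga y t
  ga0 : ∀ y ∈ Icc (0 : ℝ) d, e.ga y 0 ≤ 1
  gai : ∀ y ∈ Icc (0 : ℝ) d, ∀ t ∈ Icc (0 : ℝ) 1,
    e.ga' y t * ((1 + t) * DD c y t) ≤ 2 * y * e.ga y t * (1 + (1 + t) * c.al y t)
  dj : ∀ y ∈ Icc (0 : ℝ) d, ∀ z ∈ Icc (0 : ℝ) d, ∀ t ∈ Icc (0 : ℝ) 1,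
    HasDerivAt (e.j y z) (e.j' y z t) t
  j0 : ∀ y ∈ Icc (0 : ℝ) d, ∀ z ∈ Icc (0 : ℝ) d, 0 ≤ e.j y z 0
  ji : ∀ y ∈ Icc (0 : ℝ) d, ∀ z ∈ Icc (0 : ℝ) d, ∀ t ∈ Icc (0 : ℝ) 1, y + z ≤ 1 →
    y * e.ph y t * (z * c.al z t) * (1 + t) ^ 2 ≤ e.j' y z t * DD c y t ^ 2
  dn1 : ∀ y ∈ Icc (0 : ℝ) d, ∀ t ∈ Icc (0 : ℝ) 1, HasDerivAt (e.n1 y) (e.n1' y t) t
  n10 : ∀ y ∈ Icc (0 : ℝ) d, 0 ≤ e.n1 y 0
  n1i : ∀ y ∈ Icc (0 : ℝ) d, ∀ t ∈ Icc (0 : ℝ) 1,
    y * c.e1 y t * (1 - y * ((1 + t) ^ 2 * c.al' y t)) ≤ e.n1' y t * DD c y t ^ 2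
  dn2 : ∀ y ∈ Icc (0 : ℝ) d, ∀ t ∈ Icc (0 : ℝ) 1, HasDerivAt (e.n2 y) (e.n2' y t) t
  n20 : ∀ y ∈ Icc (0 : ℝ) d, 0 ≤ e.n2 y 0
  n2i : ∀ y ∈ Icc (0 : ℝ) d, ∀ t ∈ Icc (0 : ℝ) 1,
    y * c.e2 y t * (1 - y * ((1 + t) ^ 2 * c.al' y t)) ≤ e.n2' y t * DD c y t ^ 2

variable {e : EFn}

theorem inv_add_ge {q m r : ℝ} (hm : 0 ≤ m) (hr : 0 < r) (hrq : r * q = 1) :
    r - m * r ^ 2 ≤ (q + m)⁻¹ := by
  have hq : 0 < q := by
    by_contra hh
    push Not at hh
    have := mul_nonpos_of_nonneg_of_nonpos hr.le hh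
    linarith
  have hqm : 0 < q + m := by linarith
  rw [← one_div, le_div_iff₀ hqm]
  have : (r - m * r ^ 2) * (q + m) = 1 - (m * r) ^ 2 := by
    have e1 : r ^ 2 * q = r := by rw [pow_two, mul_assoc, hrq, mul_one]
    linear_combination hrq - m * e1
  rw [this]
  nlinarith [sq_nonneg (m * r)]

/-- the sum of a function of the weights at `u` without the edge `u v` -/
theorem sum_split {u v : V} (huv : u ≠ v) (hx : Wt x P d) (f : ℝ → ℝ) (hf : f 0 = 0) :
    ∑ b, f (xr x P u b) = f (xr x P u v) + ∑ b ∈ ({u, v} : Finset V)ᶜ, f (xr x P u b) := by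
  rw [← Finset.sum_add_sum_compl ({u, v} : Finset V), Finset.sum_pair huv, xr_diag hx, hf,
    zero_add]

/-- Lower bound of the exponent `E_{u|v}`. -/
theorem E_low (hx : Wt x P d) (hc : c.Ok d) (hN : Nb x P c S W ps d) (he : e.Ok c d) (hh : Haz h H)
    {t : ℝ} (ht : t ∈ Icc (0 : ℝ) 1)
    (hfl : ∀ s ∈ Icc 0 t, ∀ a b, h s a b * pp h a b s = x a b * phi x P c S W a b s)
    {u v : V} (hu : P u) (hv : P v) (huv : u ≠ v)
    (hp0 : ∀ s ∈ Icc 0 t, 0 ≤ phi x P c S W u v s)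
    (hp1 : ∀ s ∈ Icc 0 t, phi x P c S W u v s ≤ e.ph (x u v) s)
    {E : ℝ → ℝ} (hE0 : E 0 = 0) (hE : ∀ s ∈ Icc 0 t, HasDerivAt E (dE h u v s) s)
    {s : ℝ} (hs : s ∈ Icc 0 t) :
    Real.log (e.ga (x u v) s) / 2 - Real.log (DD c (x u v) s)
      - ∑ b ∈ ({u, v} : Finset V)ᶜ, e.j (x u v) (xr x P u b) s
      - (e.n1 (x u v) s - x u v * c.e1 (x u v) s * rr c (x u v) s) * S u v
      - (e.n2 (x u v) s - x u v * c.e2 (x u v) s * rr c (x u v) s) * W u v ≤ E s := by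
  have hxe : xr x P u v = x u v := by unfold xr; rw [if_pos ⟨hu, hv⟩]
  have hy : x u v ∈ Icc (0 : ℝ) d := hxe ▸ xmem hx u v
  set y := x u v with hyd
  have key := nonneg_of_forward (a := 0) (s := t)
    (U := fun s => E s - (Real.log (e.ga y s) / 2 - Real.log (DD c y s)
      - ∑ b ∈ ({u, v} : Finset V)ᶜ, e.j y (xr x P u b) s
      - (e.n1 y s - y * c.e1 y s * rr c y s) * S u v
      - (e.n2 y s - y * c.e2 y s * rr c y s) * W u v))
    (U' := fun s => dE h u v s - (e.ga' y s / e.ga y s / 2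
      - (y * (c.al y s + (1 + s) * c.al' y s)) / DD c y s
      - ∑ b ∈ ({u, v} : Finset V)ᶜ, e.j' y (xr x P u b) s
      - (e.n1' y s - (y * c.e1' y s * rr c y s + y * c.e1 y s *
          ((1 - y * ((1 + s) ^ 2 * c.al' y s)) / DD c y s ^ 2))) * S u v
      - (e.n2' y s - (y * c.e2' y s * rr c y s + y * c.e2 y s *
          ((1 - y * ((1 + s) ^ 2 * c.al' y s)) / DD c y s ^ 2))) * W u v))
    (fun r hr => by
      have hr1 : r ∈ Icc (0 : ℝ) 1 := ⟨hr.1, hr.2.trans ht.2⟩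
      have hD := DD_pos hc hy hr1
      have d1 := ((he.dga y hy r hr1).log (he.gap y hy r hr1).ne').div_const 2
      have d2 := (DD_deriv hc hy hr1).log (by linarith)
      have d3 : HasDerivAt (fun s => ∑ b ∈ ({u, v} : Finset V)ᶜ, e.j y (xr x P u b) s)
          (∑ b ∈ ({u, v} : Finset V)ᶜ, e.j' y (xr x P u b) r) r :=
        HasDerivAt.fun_sum fun b _ => he.dj y hy _ (xmem hx u b) r hr1
      have d4 := ((he.dn1 y hy r hr1).sub (((hc.de1 y hy r hr1).const_mul y).mul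
        (rr_deriv hc hy hr1))).mul_const (S u v)
      have d5 := ((he.dn2 y hy r hr1).sub (((hc.de2 y hy r hr1).const_mul y).mul
        (rr_deriv hc hy hr1))).mul_const (W u v)
      exact (hE r hr).sub ((((d1.sub d2).sub d3).sub d4).sub d5))
    (by
      have h0 : (0 : ℝ) ∈ Icc (0 : ℝ) 1 := ⟨le_rfl, zero_le_one⟩
      have h1 : Real.log (e.ga y 0) ≤ 0 :=
        Real.log_nonpos (he.gap y hy 0 h0).le (he.ga0 y hy)
      have h2 : DD c y 0 = 1 := by unfold DD; rw [hc.al0 y hy]; ring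
      have h3 : 0 ≤ ∑ b ∈ ({u, v} : Finset V)ᶜ, e.j y (xr x P u b) 0 :=
        Finset.sum_nonneg fun b _ => he.j0 y hy _ (xmem hx u b)
      have h4 := mul_nonneg (he.n10 y hy) (hN.S0 u v)
      have h5 := mul_nonneg (he.n20 y hy) (hN.W0 u v)
      rw [hE0, h2, Real.log_one, hc.e10 y hy, hc.e20 y hy]
      simp only [mul_zero, zero_mul, sub_zero]
      linarith)
    (fun r hr _ => by
      have hr1 : r ∈ Icc (0 : ℝ) 1 := ⟨hr.1, hr.2.trans ht.2⟩
      have hD := DD_pos hc hy hr1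
      have hD0 : 0 < DD c y r := by linarith
      have hT : 0 < 1 + r := by linarith [hr.1]
      set m : ℝ := ∑ b ∈ ({u, v} : Finset V)ᶜ, xr x P u b * c.al (xr x P u b) r with hm
      have hm0 : 0 ≤ m := Finset.sum_nonneg fun b _ =>
        mul_nonneg (xr_nonneg hx u b) (hc.aln _ (xmem hx u b) r hr1)
      have hrr := rr_pos hc hy hr1
      have hrm := rr_mul hc hy hr1
      have hub : bb h ∅ u r ≤ ((1 + r)⁻¹ + y * c.al y r) + m := by
        have h1 := bb_up hx hc hN hh ht hfl hu hr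
        have h2 := sum_split (f := fun z => z * c.al z r) huv hx (by simp)
        simp only [hxe] at h2
        rw [h2] at h1
        linarith
      have hb0 : 0 < bb h ∅ u r := bb_pos hh (Finset.notMem_empty u) hr1
      have hinv : rr c y r - m * rr c y r ^ 2 ≤ (bb h ∅ u r)⁻¹ :=
        (inv_add_ge hm0 hrr hrm).trans (inv_anti₀ hb0 hub)
      have hφ : phi x P c S W u v r = c.den y (S u v) (W u v) r := by
        unfold phi; rw [if_pos ⟨hu, hv⟩]
      have hφ0 := hp0 r hr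
      have hφ1 := hp1 r hr
      have hdE : y * phi x P c S W u v r * (rr c y r - m * rr c y r ^ 2) ≤ dE h u v r := by
        unfold dE
        rw [hfl r hr u v, div_eq_mul_inv]
        exact mul_le_mul_of_nonneg_left hinv (mul_nonneg hy.1 hφ0)
      have hrD : rr c y r = (1 + r) / DD c y r := rfl
      -- the part of the neighbours
      have hj : y * phi x P c S W u v r * (m * rr c y r ^ 2)
          ≤ ∑ b ∈ ({u, v} : Finset V)ᶜ, e.j' y (xr x P u b) r := by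
        have h1 : y * phi x P c S W u v r * (m * rr c y r ^ 2)
            ≤ y * e.ph y r * (m * rr c y r ^ 2) := by
          refine mul_le_mul_of_nonneg_right (mul_le_mul_of_nonneg_left hφ1 hy.1) (by positivity)
        refine h1.trans ?_
        rw [hm, Finset.sum_mul, Finset.mul_sum]
        refine Finset.sum_le_sum fun b hb => ?_
        have hbv : b ≠ v := by
          intro hh'; rw [hh'] at hb; simp at hb
        have h2 := he.ji y hy _ (xmem hx u b) r hr1 (by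
          have := xr_add_le hx (a := u) (Ne.symm hbv)
          rwa [hxe] at this)
        rw [hrD, div_pow, ← mul_div_assoc, ← mul_div_assoc, div_le_iff₀ (by positivity)]
        refine le_trans (le_of_eq ?_) h2
        ring
      -- the logarithmic part
      have hg : e.ga' y r / e.ga y r / 2 ≤ y * (1 + (1 + r) * c.al y r) / ((1 + r) * DD c y r) := by
        have h1 := he.gai y hy r hr1
        have h2 := he.gap y hy r hr1
        rw [div_div, div_le_div_iff₀ (by positivity) (by positivity)]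
        nlinarith
      have hn1 : y * c.e1 y r * ((1 - y * ((1 + r) ^ 2 * c.al' y r)) / DD c y r ^ 2)
          ≤ e.n1' y r := by
        rw [← mul_div_assoc, div_le_iff₀ (by positivity)]
        exact he.n1i y hy r hr1
      have hn2 : y * c.e2 y r * ((1 - y * ((1 + r) ^ 2 * c.al' y r)) / DD c y r ^ 2)
          ≤ e.n2' y r := by
        rw [← mul_div_assoc, div_le_iff₀ (by positivity)]
        exact he.n2i y hy r hr1
      have hS := mul_le_mul_of_nonneg_right hn1 (hN.S0 u v)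
      have hW := mul_le_mul_of_nonneg_right hn2 (hN.W0 u v)
      have hid : y * (((1 + r) ^ 2)⁻¹ - c.al' y r) * rr c y r
          + (y * (c.al y r + (1 + r) * c.al' y r)) / DD c y r
          = y * (1 + (1 + r) * c.al y r) / ((1 + r) * DD c y r) := by
        rw [hrD]; field_simp; ring
      have hexp : y * phi x P c S W u v r * rr c y r
          = y * (((1 + r) ^ 2)⁻¹ - c.al' y r) * rr c y r + y * c.e1' y r * rr c y r * S u v
            + y * c.e2' y r * rr c y r * W u v := by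
        rw [hφ]; unfold Fn.den; ring
      have hsplit : y * phi x P c S W u v r * (rr c y r - m * rr c y r ^ 2)
          = y * phi x P c S W u v r * rr c y r
            - y * phi x P c S W u v r * (m * rr c y r ^ 2) := by ring
      rw [hsplit, hexp] at hdE
      nlinarith [hdE, hj, hg, hS, hW, hid])
    s hs
  linarith

end Pool.Agent.RCG.Ct
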