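import Pool.Agent.RCG.CtB

/-! The certificate, abstract part: the final inequality (MP_73ccd0_lc). -/

namespace Pool.Agent.RCG.Ct

open Finset Set Pool.Agent.RCRSHalf

set_option linter.unusedSectionVars false

variable {V : Type*} [Fintype V] [DecidableEq V]
variable {x : V → V → ℝ} {P : V → Prop} [DecidablePred P] {d : ℝ}
variable {h : ℝ → V → V → ℝ} {H : V → V → ℝ → ℝ} {c : Fn} {S W : V → V → ℝ} {ps : ℝ → ℝ → ℝ}
variable {e : EFn}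

/-- functions for the final inequality -/
structure FFn where
  c1 : ℝ → ℝ → ℝ
  c2 : ℝ → ℝ → ℝ
  cW : ℝ
  ka : ℝ → ℝ
  kh : ℝ
  G : ℝ → ℝ → ℝ
  nu : ℝ → ℝ → ℝ
  K1 : ℝ → ℝ → ℝ
  K2 : ℝ → ℝ → ℝ
  sg : ℝ → ℝ → ℝ
  cc : ℝ → ℝ → ℝ
  Ch : ℝ → ℝ → ℝ
  jh : ℝ → ℝ → ℝ
  Jh : ℝ → ℝ → ℝ
  o : ℝ → ℝ → ℝ
  r0 : ℝ → ℝ → ℝ

structure FFn.Ok (f : FFn) (c : Fn) (e : EFn) (ps : ℝ → ℝ → ℝ) (d : ℝ) : Prop where
  cWn : 0 ≤ f.cW
  khn : 0 ≤ f.kh
  kan : ∀ z ∈ Icc (0 : ℝ) d, 0 ≤ f.ka z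
  kah : ∀ z ∈ Icc (0 : ℝ) d, f.ka z ≤ f.kh * z
  Gn : ∀ y ∈ Icc (0 : ℝ) d, ∀ t ∈ Icc (0 : ℝ) 1, 0 ≤ f.G y t
  nun : ∀ y ∈ Icc (0 : ℝ) d, ∀ t ∈ Icc (0 : ℝ) 1, 0 ≤ f.nu y t
  K1n : ∀ y ∈ Icc (0 : ℝ) d, ∀ t ∈ Icc (0 : ℝ) 1, 0 ≤ f.K1 y t
  K2n : ∀ y ∈ Icc (0 : ℝ) d, ∀ t ∈ Icc (0 : ℝ) 1, 0 ≤ f.K2 y t
  sgn : ∀ y ∈ Icc (0 : ℝ) d, ∀ t ∈ Icc (0 : ℝ) 1, 0 ≤ f.sg y t
  c1n : ∀ y ∈ Icc (0 : ℝ) d, ∀ t ∈ Icc (0 : ℝ) 1, 0 ≤ f.c1 y t
  c2n : ∀ y ∈ Icc (0 : ℝ) d, ∀ t ∈ Icc (0 : ℝ) 1, 0 ≤ f.c2 y t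
  jn : ∀ y ∈ Icc (0 : ℝ) d, ∀ z ∈ Icc (0 : ℝ) d, ∀ t ∈ Icc (0 : ℝ) 1, 0 ≤ e.j y z t
  jhn : ∀ y ∈ Icc (0 : ℝ) d, ∀ t ∈ Icc (0 : ℝ) 1, 0 ≤ f.jh y t
  jhi : ∀ y ∈ Icc (0 : ℝ) d, ∀ z ∈ Icc (0 : ℝ) d, ∀ t ∈ Icc (0 : ℝ) 1, y + z ≤ 1 →
    e.j y z t ≤ f.jh y t * z
  Jhi : ∀ y ∈ Icc (0 : ℝ) d, ∀ t ∈ Icc (0 : ℝ) 1,
    2 * (1 - y) * (f.jh y t + f.nu y t * f.kh) ≤ f.Jh y t
  Jh1 : ∀ y ∈ Icc (0 : ℝ) d, ∀ t ∈ Icc (0 : ℝ) 1, f.Jh y t ≤ 1
  cci : ∀ y ∈ Icc (0 : ℝ) d, ∀ t ∈ Icc (0 : ℝ) 1, f.c1 y t ≤ f.cc y t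
  cci2 : ∀ y ∈ Icc (0 : ℝ) d, ∀ t ∈ Icc (0 : ℝ) 1, f.c2 y t ≤ f.cW * f.cc y t
  on : ∀ y ∈ Icc (0 : ℝ) d, ∀ t ∈ Icc (0 : ℝ) 1, 0 ≤ f.o y t
  r0n : ∀ y ∈ Icc (0 : ℝ) d, ∀ t ∈ Icc (0 : ℝ) 1, 0 ≤ f.r0 y t
  r0i : ∀ y ∈ Icc (0 : ℝ) d, ∀ t ∈ Icc (0 : ℝ) 1,
    (1 - (1 + t) ^ 2 * c.al' y t) * f.o y t ≤ (1 - f.Ch y t) * f.r0 y t
  Chi : ∀ y ∈ Icc (0 : ℝ) d, ∀ t ∈ Icc (0 : ℝ) 1,
    f.o y t + (1 - y) * (f.cc y t * f.kh) ≤ f.Ch y t
  Ch1 : ∀ y ∈ Icc (0 : ℝ) d, ∀ t ∈ Icc (0 : ℝ) 1, f.Ch y t < 1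
  B1 : ∀ y ∈ Icc (0 : ℝ) d, ∀ t ∈ Icc (0 : ℝ) 1,
    (1 - (1 + t) ^ 2 * c.al' y t) * f.c1 y t + (1 + t) ^ 2 * c.e1' y t ≤ f.G y t
  B2 : ∀ y ∈ Icc (0 : ℝ) d, ∀ t ∈ Icc (0 : ℝ) 1,
    (1 - (1 + t) ^ 2 * c.al' y t) * f.c2 y t + (1 + t) ^ 2 * c.e2' y t ≤ f.cW * f.G y t
  N1 : ∀ y ∈ Icc (0 : ℝ) d, ∀ t ∈ Icc (0 : ℝ) 1,
    e.n1 y t - y * c.e1 y t * rr c y t ≤ f.nu y t
  N2 : ∀ y ∈ Icc (0 : ℝ) d, ∀ t ∈ Icc (0 : ℝ) 1,
    e.n2 y t - y * c.e2 y t * rr c y t ≤ f.cW * f.nu y t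
  pn : ∀ y ∈ Icc (0 : ℝ) d, ∀ t ∈ Icc (0 : ℝ) 1, ps y t * rr c y t ≤ 1
  C0 : ∀ y ∈ Icc (0 : ℝ) d, ∀ t ∈ Icc (0 : ℝ) 1,
    2 * (1 - y) * f.K2 y t + f.sg y t + f.r0 y t + (1 - (1 + t) ^ 2 * c.al' y t)
      ≤ e.ga y t * (1 - 2 * (ps y t * rr c y t))
  C1 : ∀ y ∈ Icc (0 : ℝ) d, ∀ t ∈ Icc (0 : ℝ) 1,
    f.K1 y t ≤ e.ga y t * (1 - ps y t * rr c y t) * (1 - f.Jh y t) * rr c y t
  C3 : ∀ y ∈ Icc (0 : ℝ) d, ∀ z ∈ Icc (0 : ℝ) d, ∀ t ∈ Icc (0 : ℝ) 1, y + z ≤ 1 →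
    f.G y t * f.ka z / 2 ≤ (1 - f.Ch y t) * (f.K2 y t * z + f.K1 y t * (z * c.al z t - ps z t)
      - e.ga y t * e.j y z t - e.ga y t * f.nu y t * f.ka z)

variable {f : FFn}

set_option maxHeartbeats 4000000 in
/-- Abstract lower bound for `e^H p`. -/
theorem P_low (hx : Wt x P d) (hc : c.Ok d) (hN : Nb x P c S W ps d) (he : e.Ok c d)
    (hf : f.Ok c e ps d) (hh : Haz h H) {t : ℝ} (ht : t ∈ Icc (0 : ℝ) 1)
    (hfl : ∀ s ∈ Icc 0 t, ∀ a b, h s a b * pp h a b s = x a b * phi x P c S W a b s)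
    {u v : V} (hu : P u) (hv : P v) (huv : u ≠ v)
    (hp0 : ∀ s ∈ Icc 0 t, 0 ≤ phi x P c S W u v s)
    (hp1 : ∀ s ∈ Icc 0 t, phi x P c S W u v s ≤ e.ph (x u v) s)
    {E E' : ℝ → ℝ} (hE0 : E 0 = 0) (hE : ∀ s ∈ Icc 0 t, HasDerivAt E (dE h u v s) s)
    (hE0' : E' 0 = 0) (hE' : ∀ s ∈ Icc 0 t, HasDerivAt E' (dE h v u s) s)
    (hP : bb h ∅ u t * bb h ∅ v t * Real.exp (E t + E' t) *
      (1 - (f.o (x u v) t + f.c1 (x u v) t * S u v + f.c2 (x u v) t * W u v))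
        ≤ Real.exp (H u v t) * pp h u v t)
    (hown : S u v + f.cW * W u v
      ≤ (∑ b ∈ ({u, v} : Finset V)ᶜ, (f.ka (xr x P u b) + f.ka (xr x P v b))) / 2) :
    (1 + t) ^ 2 * phi x P c S W u v t + (1 - f.Ch (x u v) t) * f.sg (x u v) t
      ≤ (1 + t) ^ 2 * (Real.exp (H u v t) * pp h u v t) := by
  have htt : t ∈ Icc 0 t := ⟨ht.1, le_rfl⟩
  have hxe : xr x P u v = x u v := by unfold xr; rw [if_pos ⟨hu, hv⟩]
  have hy : x u v ∈ Icc (0 : ℝ) d := hxe ▸ xmem hx u v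
  have hxs : x v u = x u v := hx.symm v u
  have hSs := hN.Ss v u
  have hWs := hN.Ws v u
  have hphis : ∀ s, phi x P c S W v u s = phi x P c S W u v s := fun s => by
    unfold phi; rw [hxs, hSs, hWs]; simp only [and_comm]
  have hset : ({v, u} : Finset V)ᶜ = ({u, v} : Finset V)ᶜ := by rw [Finset.pair_comm]
  have h1 := E_low hx hc hN he hh ht hfl hu hv huv hp0 hp1 hE0 hE htt
  have h2 := E_low hx hc hN he hh ht hfl hv hu huv.symm (fun s hs => by rw [hphis]; exact hp0 s hs)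
    (fun s hs => by rw [hphis, hxs]; exact hp1 s hs) hE0' hE' htt
  rw [hxs, hSs, hWs, hset] at h2
  set y := x u v with hyd
  set Hs : Finset V := ({u, v} : Finset V)ᶜ with hHs
  set s := S u v with hs
  set w := W u v with hw
  have hs0 : 0 ≤ s := hN.S0 u v
  have hw0 : 0 ≤ w := hN.W0 u v
  set F := s + f.cW * w with hF
  have hF0 : 0 ≤ F := add_nonneg hs0 (mul_nonneg hf.cWn hw0)
  set ga := e.ga y t with hga
  have hga0 : 0 < ga := he.gap y hy t ht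
  set D := DD c y t with hD
  have hD1 : 1 ≤ D := DD_pos hc hy ht
  set r := rr c y t with hr
  have hr0 : 0 < r := rr_pos hc hy ht
  have hrm := rr_mul hc hy ht
  have hT : 0 < 1 + t := by linarith [ht.1]
  set Ju := ∑ b ∈ Hs, e.j y (xr x P u b) t with hJu
  set Jv := ∑ b ∈ Hs, e.j y (xr x P v b) t with hJv
  set N := f.nu y t * F with hNd
  have hnu := hf.nun y hy t ht
  have hN0 : 0 ≤ N := mul_nonneg hnu hF0
  have hNN : (e.n1 y t - y * c.e1 y t * r) * s + (e.n2 y t - y * c.e2 y t * r) * w ≤ N := by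
    have a1 := mul_le_mul_of_nonneg_right (hf.N1 y hy t ht) hs0
    have a2 := mul_le_mul_of_nonneg_right (hf.N2 y hy t ht) hw0
    have a3 : f.nu y t * (s + f.cW * w) = f.nu y t * s + f.cW * f.nu y t * w := by ring
    rw [hNd, hF, a3]
    exact add_le_add a1 a2
  -- sums of the weights
  have hsum : ∀ {a b : V}, a ≠ b → xr x P a b = y → ∑ d ∈ ({a, b} : Finset V)ᶜ, xr x P a d
      ≤ 1 - y := by
    intro a b hab hyab
    have a1 := sum_split (P := P) (f := fun z => z) hab hx rfl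
    have a2 := xr_row hx a
    rw [hyab] at a1
    linarith
  have hsu : ∑ b ∈ Hs, xr x P u b ≤ 1 - y := hsum huv hxe
  have hsv : ∑ b ∈ Hs, xr x P v b ≤ 1 - y := by
    have := hsum huv.symm (by rw [xr_symm hx v u, hxe])
    rwa [hset] at this
  have hyz : ∀ b ∈ Hs, y + xr x P u b ≤ 1 := fun b hb => by
    have hbv : v ≠ b := by rintro rfl; simp [hHs] at hb
    have := xr_add_le hx (a := u) hbv
    rwa [hxe] at this
  have hyz' : ∀ b ∈ Hs, y + xr x P v b ≤ 1 := fun b hb => by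
    have hbu : u ≠ b := by rintro rfl; simp [hHs] at hb
    have := xr_add_le hx (a := v) hbu
    rwa [xr_symm hx v u, hxe] at this
  -- own part
  have hκ : (∑ b ∈ Hs, (f.ka (xr x P u b) + f.ka (xr x P v b))) / 2 ≤ f.kh * (1 - y) := by
    have a1 : ∑ b ∈ Hs, (f.ka (xr x P u b) + f.ka (xr x P v b))
        ≤ ∑ b ∈ Hs, (f.kh * xr x P u b + f.kh * xr x P v b) :=
      Finset.sum_le_sum fun b _ => add_le_add (hf.kah _ (xmem hx u b)) (hf.kah _ (xmem hx v b))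
    rw [Finset.sum_add_distrib (f := fun b => f.kh * xr x P u b), ← Finset.mul_sum,
      ← Finset.mul_sum] at a1
    have a2 := mul_le_mul_of_nonneg_left hsu hf.khn
    have a3 := mul_le_mul_of_nonneg_left hsv hf.khn
    linarith
  have hFk : F ≤ f.kh * (1 - y) := hown.trans hκ
  have hy1 : 0 ≤ 1 - y := by linarith [hy.2, hx.d1]
  -- the cost
  set C := f.o y t + f.c1 y t * s + f.c2 y t * w with hC
  have hcc0 : 0 ≤ f.cc y t := (hf.c1n y hy t ht).trans (hf.cci y hy t ht)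
  have hCle : C ≤ f.Ch y t := by
    have a1 := mul_le_mul_of_nonneg_right (hf.cci y hy t ht) hs0
    have a2 := mul_le_mul_of_nonneg_right (hf.cci2 y hy t ht) hw0
    have a3 := mul_le_mul_of_nonneg_left hFk hcc0
    have a4 := hf.Chi y hy t ht
    have a5 : f.cc y t * F = f.cc y t * s + f.cW * f.cc y t * w := by rw [hF]; ring
    have a6 : f.cc y t * (f.kh * (1 - y)) = (1 - y) * (f.cc y t * f.kh) := by ring
    rw [hC]
    linarith
  have hCh1 := hf.Ch1 y hy t ht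
  -- the exponents
  have hJu0 : 0 ≤ Ju := Finset.sum_nonneg fun b _ => hf.jn y hy _ (xmem hx u b) t ht
  have hJv0 : 0 ≤ Jv := Finset.sum_nonneg fun b _ => hf.jn y hy _ (xmem hx v b) t ht
  have hjh0 := hf.jhn y hy t ht
  have hJN : Ju + Jv + 2 * N ≤ f.Jh y t := by
    have a1 : Ju ≤ f.jh y t * (1 - y) := by
      refine (Finset.sum_le_sum fun b hb => hf.jhi y hy _ (xmem hx u b) t ht (hyz b hb)).trans ?_
      rw [← Finset.mul_sum]
      exact mul_le_mul_of_nonneg_left hsu hjh0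
    have a2 : Jv ≤ f.jh y t * (1 - y) := by
      refine (Finset.sum_le_sum fun b hb => hf.jhi y hy _ (xmem hx v b) t ht (hyz' b hb)).trans ?_
      rw [← Finset.mul_sum]
      exact mul_le_mul_of_nonneg_left hsv hjh0
    have a3 := mul_le_mul_of_nonneg_left hFk hnu
    have a4 := hf.Jhi y hy t ht
    have a5 : 2 * (1 - y) * (f.jh y t + f.nu y t * f.kh) = f.jh y t * (1 - y)
      + f.jh y t * (1 - y) + 2 * (f.nu y t * (f.kh * (1 - y))) := by ring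
    rw [hNd]
    linarith
  have hJh1 := hf.Jh1 y hy t ht
  have hlow : 0 ≤ 1 - (Ju + Jv + 2 * N) := by linarith
  have hexp : ga / D ^ 2 * (1 - (Ju + Jv + 2 * N)) ≤ Real.exp (E t + E' t) := by
    have a1 : Real.log ga - 2 * Real.log D - (Ju + Jv + 2 * N) ≤ E t + E' t := by linarith
    refine le_trans ?_ (Real.exp_le_exp.2 a1)
    have a2 : Real.exp (Real.log ga - 2 * Real.log D - (Ju + Jv + 2 * N))
        = ga / D ^ 2 * Real.exp (-(Ju + Jv + 2 * N)) := by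
      rw [show Real.log ga - 2 * Real.log D - (Ju + Jv + 2 * N)
        = Real.log ga + (-(Real.log D + Real.log D)) + -(Ju + Jv + 2 * N) by ring,
        Real.exp_add, Real.exp_add, Real.exp_log hga0, Real.exp_neg, Real.exp_add,
        Real.exp_log (by linarith), div_eq_mul_inv, pow_two]
    rw [a2]
    refine mul_le_mul_of_nonneg_left ?_ (by positivity)
    have := Real.add_one_le_exp (-(Ju + Jv + 2 * N))
    linarith
  -- the free probabilities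
  set Mu := ∑ b ∈ Hs, (xr x P u b * c.al (xr x P u b) t - ps (xr x P u b) t) with hMu
  set Mv := ∑ b ∈ Hs, (xr x P v b * c.al (xr x P v b) t - ps (xr x P v b) t) with hMv
  have hMu0 : 0 ≤ Mu := Finset.sum_nonneg fun b _ => by
    have := hN.eta _ (xmem hx u b) t ht
    linarith
  have hMv0 : 0 ≤ Mv := Finset.sum_nonneg fun b _ => by
    have := hN.eta _ (xmem hx v b) t ht
    linarith
  set p := 1 - ps y t * r with hp
  have hp0' : 0 ≤ p := by have := hf.pn y hy t ht; rw [hp]; linarith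
  have hps0 : 0 ≤ ps y t * r := mul_nonneg (hN.psn y hy t ht) hr0.le
  have hbu : p + Mu * r ≤ bb h ∅ u t * r := by
    have a1 := bb_low hx hc hN hh ht hfl hu htt
    have a2 := sum_split (P := P) (f := fun z => z * c.al z t - ps z t) huv hx (by
      simp [hN.ps0 t ht])
    simp only [hxe] at a2
    rw [a2] at a1
    have a3 := mul_le_mul_of_nonneg_right a1 hr0.le
    have a4 : ((1 + t)⁻¹ + (y * c.al y t - ps y t + Mu)) * r
        = r * ((1 + t)⁻¹ + y * c.al y t) - ps y t * r + Mu * r := by ring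
    rw [a4, hrm] at a3
    rw [hp]
    linarith
  have hbv : p + Mv * r ≤ bb h ∅ v t * r := by
    have a1 := bb_low hx hc hN hh ht hfl hv htt
    have a2 := sum_split (P := P) (f := fun z => z * c.al z t - ps z t) huv.symm hx (by
      simp [hN.ps0 t ht])
    simp only [xr_symm hx v u, hxe, hset] at a2
    rw [a2] at a1
    have a3 := mul_le_mul_of_nonneg_right a1 hr0.le
    have a4 : ((1 + t)⁻¹ + (y * c.al y t - ps y t + Mv)) * r
        = r * ((1 + t)⁻¹ + y * c.al y t) - ps y t * r + Mv * r := by ring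
    rw [a4, hrm] at a3
    rw [hp]
    linarith
  have hA0 : 0 ≤ Mu * r := mul_nonneg hMu0 hr0.le
  have hB0 : 0 ≤ Mv * r := mul_nonneg hMv0 hr0.le
  have hprod : (p + Mu * r) * (p + Mv * r) ≤ (bb h ∅ u t * r) * (bb h ∅ v t * r) :=
    mul_le_mul hbu hbv (by positivity) (le_trans (by positivity) hbu)
  -- the product
  set Jh := f.Jh y t with hJh
  have hPi : 1 - 2 * (ps y t * r) + p * (1 - Jh) * ((Mu + Mv) * r) - (Ju + Jv + 2 * N)
      ≤ (p + Mu * r) * (p + Mv * r) * (1 - (Ju + Jv + 2 * N)) := by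
    set q := ps y t * r with hq
    set A := Mu * r with hA
    set B := Mv * r with hB
    set J := Ju + Jv + 2 * N with hJ
    have hJ0 : 0 ≤ J := by rw [hJ]; positivity
    have a1 : 0 ≤ p * (A + B) * (Jh - J) :=
      mul_nonneg (mul_nonneg hp0' (by linarith)) (by linarith)
    have a2 : 0 ≤ A * B * (1 - J) := mul_nonneg (mul_nonneg hA0 hB0) hlow
    have hp1 : p ≤ 1 := by rw [hp]; linarith
    have a3 : 0 ≤ q ^ 2 + (1 - p ^ 2) * J := by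
      have b1 : 0 ≤ (1 - p) * (1 + p) := mul_nonneg (by linarith) (by linarith)
      have b2 : 1 - p ^ 2 = (1 - p) * (1 + p) := by ring
      rw [b2]
      exact add_nonneg (sq_nonneg _) (mul_nonneg b1 hJ0)
    have e1 : (Mu + Mv) * r = A + B := by rw [hA, hB]; ring
    rw [e1]
    have e2 : p ^ 2 = 1 - 2 * q + q ^ 2 := by rw [hp]; ring
    have e3 : (p + A) * (p + B) * (1 - J) - (1 - 2 * q + p * (1 - Jh) * (A + B) - J)
        = p * (A + B) * (Jh - J) + A * B * (1 - J) + (q ^ 2 + (1 - p ^ 2) * J)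
          + (p ^ 2 - (1 - 2 * q + q ^ 2)) := by ring
    rw [e2] at e3
    rw [e2] at a3
    linarith
  have hfin : ga * (1 - 2 * (ps y t * r) + p * (1 - Jh) * ((Mu + Mv) * r) - (Ju + Jv + 2 * N))
      * (1 - C) ≤ (1 + t) ^ 2 * (Real.exp (H u v t) * pp h u v t) := by
    have hC1 : 0 ≤ 1 - C := by linarith
    have hbb : 0 ≤ bb h ∅ u t * bb h ∅ v t := mul_nonneg (bb_nonneg hh _ _ ht) (bb_nonneg hh _ _ ht)
    have a1 : bb h ∅ u t * bb h ∅ v t * (ga / D ^ 2 * (1 - (Ju + Jv + 2 * N))) * (1 - C)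
        ≤ Real.exp (H u v t) * pp h u v t := by
      refine le_trans ?_ hP
      exact mul_le_mul_of_nonneg_right (mul_le_mul_of_nonneg_left hexp hbb) hC1
    have a2 := mul_le_mul_of_nonneg_left a1 (by positivity : (0:ℝ) ≤ (1 + t) ^ 2)
    refine le_trans ?_ a2
    have e1 : (1 + t) ^ 2 * (bb h ∅ u t * bb h ∅ v t * (ga / D ^ 2 * (1 - (Ju + Jv + 2 * N)))
        * (1 - C)) = ga * ((bb h ∅ u t * r) * (bb h ∅ v t * r) * (1 - (Ju + Jv + 2 * N)))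
          * (1 - C) := by
      have : r = (1 + t) / D := rfl
      rw [this]; field_simp
    rw [e1]
    refine mul_le_mul_of_nonneg_right (mul_le_mul_of_nonneg_left ?_ hga0.le) hC1
    exact hPi.trans (mul_le_mul_of_nonneg_right hprod hlow)
  refine le_trans ?_ hfin
  -- the final estimate
  have hφ : (1 + t) ^ 2 * phi x P c S W u v t = (1 - (1 + t) ^ 2 * c.al' y t)
      + (1 + t) ^ 2 * c.e1' y t * s + (1 + t) ^ 2 * c.e2' y t * w := by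
    unfold phi; rw [if_pos ⟨hu, hv⟩]; unfold Fn.den
    rw [← hyd, ← hs, ← hw]; field_simp
  rw [hφ]
  set f0 := 1 - (1 + t) ^ 2 * c.al' y t with hf0
  set Rt : ℝ → ℝ := fun z => f.K2 y t * z + f.K1 y t * (z * c.al z t - ps z t)
      - ga * e.j y z t - ga * f.nu y t * f.ka z with hRt
  have hC3 : ∀ z ∈ Icc (0 : ℝ) d, y + z ≤ 1 → f.G y t * f.ka z / 2 ≤ (1 - f.Ch y t) * Rt z :=
    fun z hz hyz => hf.C3 y hy z hz t ht hyz
  have hRt0 : ∀ z ∈ Icc (0 : ℝ) d, y + z ≤ 1 → 0 ≤ Rt z := by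
    intro z hz hyz
    have a1 := hC3 z hz hyz
    have a2 := mul_nonneg (hf.Gn y hy t ht) (hf.kan z hz)
    by_contra hcon
    push Not at hcon
    have : (1 - f.Ch y t) * Rt z < 0 := mul_neg_of_pos_of_neg (by linarith) hcon
    linarith
  have hG := mul_le_mul_of_nonneg_left hown (hf.Gn y hy t ht)
  have hB1 := mul_le_mul_of_nonneg_right (hf.B1 y hy t ht) hs0
  have hB2 := mul_le_mul_of_nonneg_right (hf.B2 y hy t ht) hw0
  -- the bracket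
  set Q := ga * (1 - 2 * (ps y t * r) + p * (1 - Jh) * ((Mu + Mv) * r) - (Ju + Jv + 2 * N)) with hQ
  have hsumR : ∑ b ∈ Hs, (Rt (xr x P u b) + Rt (xr x P v b)) + f.sg y t + f.r0 y t + f0 ≤ Q := by
    have e1 : ∑ b ∈ Hs, (Rt (xr x P u b) + Rt (xr x P v b))
        = f.K2 y t * (∑ b ∈ Hs, xr x P u b + ∑ b ∈ Hs, xr x P v b) + f.K1 y t * (Mu + Mv)
          - ga * (Ju + Jv) - ga * f.nu y t
            * ∑ b ∈ Hs, (f.ka (xr x P u b) + f.ka (xr x P v b)) := by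
      rw [hMu, hMv, hJu, hJv, ← Finset.sum_add_distrib, ← Finset.sum_add_distrib,
        ← Finset.sum_add_distrib, Finset.mul_sum, Finset.mul_sum, Finset.mul_sum, Finset.mul_sum,
        ← Finset.sum_add_distrib, ← Finset.sum_sub_distrib, ← Finset.sum_sub_distrib]
      refine Finset.sum_congr rfl fun b _ => ?_
      simp only [hRt]; ring
    rw [e1]
    have a1 : f.K2 y t * (∑ b ∈ Hs, xr x P u b + ∑ b ∈ Hs, xr x P v b)
        ≤ f.K2 y t * (2 * (1 - y)) :=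
      mul_le_mul_of_nonneg_left (by linarith) (hf.K2n y hy t ht)
    have a2 : 2 * (1 - y) * f.K2 y t + f.sg y t + f.r0 y t + f0 ≤ ga * (1 - 2 * (ps y t * r)) :=
      hf.C0 y hy t ht
    have a3 : f.K1 y t * (Mu + Mv) ≤ ga * p * (1 - Jh) * r * (Mu + Mv) :=
      mul_le_mul_of_nonneg_right (hf.C1 y hy t ht) (by linarith)
    have a4 : ga * N * 2 ≤ ga * f.nu y t *
        ∑ b ∈ Hs, (f.ka (xr x P u b) + f.ka (xr x P v b)) := by
      have b1 := mul_le_mul_of_nonneg_left hown (mul_nonneg hga0.le hnu)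
      have b2 : ga * N * 2 = 2 * (ga * f.nu y t * F) := by rw [hNd]; ring
      have b3 : ga * f.nu y t * ∑ b ∈ Hs, (f.ka (xr x P u b) + f.ka (xr x P v b))
          = 2 * (ga * f.nu y t *
            ((∑ b ∈ Hs, (f.ka (xr x P u b) + f.ka (xr x P v b))) / 2)) := by ring
      rw [b2, b3]
      linarith
    have a5 : ga * (1 - 2 * (ps y t * r) + p * (1 - Jh) * ((Mu + Mv) * r) - (Ju + Jv + 2 * N))
        = ga * (1 - 2 * (ps y t * r)) + ga * p * (1 - Jh) * r * (Mu + Mv) - ga * (Ju + Jv)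
          - ga * N * 2 := by ring
    have a6 : f.K2 y t * (2 * (1 - y)) = 2 * (1 - y) * f.K2 y t := by ring
    rw [hQ, a5]
    linarith
  have hsumG : f.G y t * ((∑ b ∈ Hs, (f.ka (xr x P u b) + f.ka (xr x P v b))) / 2)
      ≤ (1 - f.Ch y t) * ∑ b ∈ Hs, (Rt (xr x P u b) + Rt (xr x P v b)) := by
    rw [Finset.mul_sum, Finset.sum_div, Finset.mul_sum]
    refine Finset.sum_le_sum fun b hb => ?_
    have b1 := hC3 _ (xmem hx u b) (hyz b hb)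
    have b2 := hC3 _ (xmem hx v b) (hyz' b hb)
    have b3 : f.G y t * ((f.ka (xr x P u b) + f.ka (xr x P v b)) / 2)
        = f.G y t * f.ka (xr x P u b) / 2 + f.G y t * f.ka (xr x P v b) / 2 := by ring
    rw [b3, mul_add]
    exact add_le_add b1 b2
  have hsumR0 : 0 ≤ ∑ b ∈ Hs, (Rt (xr x P u b) + Rt (xr x P v b)) + f.sg y t + f.r0 y t := by
    refine add_nonneg (add_nonneg (Finset.sum_nonneg fun b hb => ?_) (hf.sgn y hy t ht))
      (hf.r0n y hy t ht)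
    exact add_nonneg (hRt0 _ (xmem hx u b) (hyz b hb)) (hRt0 _ (xmem hx v b) (hyz' b hb))
  set R := ∑ b ∈ Hs, (Rt (xr x P u b) + Rt (xr x P v b)) + f.sg y t + f.r0 y t with hR
  have k1 : (1 - f.Ch y t) * R ≤ (1 - C) * R := mul_le_mul_of_nonneg_right (by linarith) hsumR0
  have k2 : (1 - C) * (R + f0) ≤ (1 - C) * Q := mul_le_mul_of_nonneg_left hsumR (by linarith)
  have k3 : f0 * C = f0 * f.o y t + f0 * f.c1 y t * s + f0 * f.c2 y t * w := by rw [hC]; ring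
  have k0 : f0 * f.o y t ≤ (1 - f.Ch y t) * f.r0 y t := hf.r0i y hy t ht
  have k4 : f.G y t * (s + f.cW * w) ≤ (1 - f.Ch y t) *
      ∑ b ∈ Hs, (Rt (xr x P u b) + Rt (xr x P v b)) := hG.trans hsumG
  have k5 : (1 - f.Ch y t) * R = (1 - f.Ch y t) *
      ∑ b ∈ Hs, (Rt (xr x P u b) + Rt (xr x P v b)) + (1 - f.Ch y t) * f.sg y t
        + (1 - f.Ch y t) * f.r0 y t := by
    rw [hR]; ring
  have k6 : Q * (1 - C) = (1 - C) * Q := mul_comm _ _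
  have k7 : (1 - C) * (R + f0) = (1 - C) * R + f0 - f0 * C := by ring
  rw [k6]
  have k8 : f0 * f.c1 y t * s + (1 + t) ^ 2 * c.e1' y t * s ≤ f.G y t * s := by
    refine le_trans (le_of_eq ?_) hB1; ring
  have k9 : f0 * f.c2 y t * w + (1 + t) ^ 2 * c.e2' y t * w ≤ f.cW * f.G y t * w := by
    refine le_trans (le_of_eq ?_) hB2; ring
  have k10 : f.G y t * (s + f.cW * w) = f.G y t * s + f.cW * f.G y t * w := by ring
  linarith

end Pool.Agent.RCG.Ct
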