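import Pool.Agent.RCG.CtC

/-! Stage 1 of the certificate: the two functionals, own part and neighbour part
(MP_73ccd0_lc). -/

namespace Pool.Agent.RCG.Ct

open Finset Set Pool.Agent.RCRSHalf

set_option linter.unusedSectionVars false

variable {V : Type*} [Fintype V] [DecidableEq V]
variable {x : V → V → ℝ} {P : V → Prop} [DecidablePred P] {d : ℝ} {B : V → V → ℝ} {β : ℝ}

/-- nonnegative symmetric kernels with bounded row sums -/
structure Ker (B : V → V → ℝ) (β : ℝ) : Prop where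
  nn : ∀ a b, 0 ≤ B a b
  sy : ∀ a b, B a b = B b a
  rw : ∀ a, ∑ b, B a b ≤ β

theorem quad {C : V → V → ℝ} (hC : ∀ a b, 0 ≤ C a b) (h1 : ∀ a, ∑ b, C a b ≤ β)
    (h2 : ∀ b, ∑ a, C a b ≤ β) (F : Finset V) (y z : V → ℝ) :
    ∑ a ∈ F, ∑ b ∈ F, y a * C a b * z b ≤ β / 2 * ∑ a ∈ F, (y a ^ 2 + z a ^ 2) := by
  have e1 : ∑ a ∈ F, ∑ b ∈ F, y a * C a b * z b
      ≤ ∑ a ∈ F, ∑ b ∈ F, (C a b * (y a ^ 2 / 2) + C a b * (z b ^ 2 / 2)) := by
    refine Finset.sum_le_sum fun a _ => Finset.sum_le_sum fun b _ => ?_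
    have h : y a * z b ≤ y a ^ 2 / 2 + z b ^ 2 / 2 := by nlinarith [sq_nonneg (y a - z b)]
    have := mul_le_mul_of_nonneg_left h (hC a b)
    calc y a * C a b * z b = C a b * (y a * z b) := by ring
      _ ≤ _ := this
      _ = _ := by ring
  refine e1.trans ?_
  simp only [Finset.sum_add_distrib]
  have e2 : ∑ a ∈ F, ∑ b ∈ F, C a b * (y a ^ 2 / 2) ≤ ∑ a ∈ F, β * (y a ^ 2 / 2) := by
    refine Finset.sum_le_sum fun a _ => ?_
    rw [← Finset.sum_mul]
    refine mul_le_mul_of_nonneg_right ((Finset.sum_le_sum_of_subset_of_nonneg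
      (Finset.subset_univ F) fun b _ _ => hC a b).trans (h1 a)) (by positivity)
  have e3 : ∑ a ∈ F, ∑ b ∈ F, C a b * (z b ^ 2 / 2) ≤ ∑ a ∈ F, β * (z a ^ 2 / 2) := by
    rw [Finset.sum_comm]
    refine Finset.sum_le_sum fun a _ => ?_
    rw [← Finset.sum_mul]
    refine mul_le_mul_of_nonneg_right ((Finset.sum_le_sum_of_subset_of_nonneg
      (Finset.subset_univ F) fun b _ _ => hC b a).trans (h2 a)) (by positivity)
  refine (add_le_add e2 e3).trans (le_of_eq ?_)
  rw [← Finset.mul_sum, ← Finset.mul_sum, ← mul_add, ← Finset.sum_div, ← Finset.sum_div]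
  ring

/-- the quadratic functional -/
noncomputable def Sf (x : V → V → ℝ) (P : V → Prop) [DecidablePred P] (u v : V) : ℝ :=
  ∑ w ∈ ({u, v} : Finset V)ᶜ, xr x P u w * xr x P v w

/-- the functional of a kernel -/
noncomputable def Wf (x : V → V → ℝ) (P : V → Prop) [DecidablePred P] (B : V → V → ℝ)
    (u v : V) : ℝ :=
  ∑ a ∈ ({u, v} : Finset V)ᶜ, ∑ c ∈ ({u, v} : Finset V)ᶜ, xr x P u a * B a c * xr x P v c

theorem Sf_nonneg (hx : Wt x P d) (u v : V) : 0 ≤ Sf x P u v :=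
  Finset.sum_nonneg fun w _ => mul_nonneg (xr_nonneg hx u w) (xr_nonneg hx v w)

theorem Wf_nonneg (hx : Wt x P d) (hB : Ker B β) (u v : V) : 0 ≤ Wf x P B u v :=
  Finset.sum_nonneg fun a _ => Finset.sum_nonneg fun c _ =>
    mul_nonneg (mul_nonneg (xr_nonneg hx u a) (hB.nn a c)) (xr_nonneg hx v c)

theorem Sf_symm (u v : V) : Sf x P u v = Sf x P v u := by
  unfold Sf
  rw [Finset.pair_comm v u]
  exact Finset.sum_congr rfl fun w _ => mul_comm _ _

theorem Wf_symm (hB : Ker B β) (u v : V) : Wf x P B u v = Wf x P B v u := by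
  unfold Wf
  rw [Finset.pair_comm v u, Finset.sum_comm]
  refine Finset.sum_congr rfl fun a _ => Finset.sum_congr rfl fun c _ => ?_
  rw [hB.sy a c]; ring

/-- own part -/
theorem own_le (hx : Wt x P d) (hB : Ker B β) {cW : ℝ} (hcW : 0 ≤ cW) (u v : V) :
    Sf x P u v + cW * Wf x P B u v ≤ (∑ b ∈ ({u, v} : Finset V)ᶜ,
      ((1 + cW * β) * xr x P u b ^ 2 + (1 + cW * β) * xr x P v b ^ 2)) / 2 := by
  have h1 : Sf x P u v ≤ 1 / 2 * ∑ b ∈ ({u, v} : Finset V)ᶜ,
      (xr x P u b ^ 2 + xr x P v b ^ 2) := by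
    unfold Sf
    rw [Finset.mul_sum]
    refine Finset.sum_le_sum fun b _ => ?_
    nlinarith [sq_nonneg (xr x P u b - xr x P v b)]
  have h2 : Wf x P B u v ≤ β / 2 * ∑ b ∈ ({u, v} : Finset V)ᶜ,
      (xr x P u b ^ 2 + xr x P v b ^ 2) :=
    quad hB.nn hB.rw (fun b => by simpa only [hB.sy _ b] using hB.rw b) _ _ _
  have h3 := mul_le_mul_of_nonneg_left h2 hcW
  have h4 : (∑ b ∈ ({u, v} : Finset V)ᶜ,
      ((1 + cW * β) * xr x P u b ^ 2 + (1 + cW * β) * xr x P v b ^ 2)) / 2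
      = 1 / 2 * ∑ b ∈ ({u, v} : Finset V)ᶜ, (xr x P u b ^ 2 + xr x P v b ^ 2)
        + cW * (β / 2 * ∑ b ∈ ({u, v} : Finset V)ᶜ, (xr x P u b ^ 2 + xr x P v b ^ 2)) := by
    have : ∑ b ∈ ({u, v} : Finset V)ᶜ,
      ((1 + cW * β) * xr x P u b ^ 2 + (1 + cW * β) * xr x P v b ^ 2)
        = (1 + cW * β) * ∑ b ∈ ({u, v} : Finset V)ᶜ, (xr x P u b ^ 2 + xr x P v b ^ 2) := by
      rw [Finset.mul_sum]
      exact Finset.sum_congr rfl fun b _ => by ring
    rw [this]; ring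
  rw [h4]
  exact add_le_add h1 h3

theorem row_xr (hx : Wt x P d) (a : V) : ∑ b, xr x P a b ≤ 1 := xr_row hx a

theorem col_xr (hx : Wt x P d) (b : V) : ∑ a, xr x P a b ≤ 1 := by
  simpa only [xr_symm hx _ b] using xr_row hx b

/-- neighbour part -/
theorem nb_S (hx : Wt x P d) (u : V) :
    ∑ v, xr x P u v * Sf x P u v ≤ ∑ v, xr x P u v ^ 2 := by
  have h1 : ∑ v, xr x P u v * Sf x P u v
      ≤ ∑ v, ∑ w, xr x P u v * xr x P v w * xr x P u w := by
    refine Finset.sum_le_sum fun v _ => ?_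
    unfold Sf
    rw [Finset.mul_sum]
    refine (Finset.sum_le_sum_of_subset_of_nonneg (Finset.subset_univ _) fun w _ _ =>
      mul_nonneg (xr_nonneg hx u v) (mul_nonneg (xr_nonneg hx u w)
        (xr_nonneg hx v w))).trans (le_of_eq ?_)
    exact Finset.sum_congr rfl fun w _ => by ring
  refine h1.trans ((quad (fun a b => xr_nonneg hx a b) (row_xr hx) (col_xr hx) Finset.univ
    (fun v => xr x P u v) (fun v => xr x P u v)).trans (le_of_eq ?_))
  rw [Finset.mul_sum]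
  exact Finset.sum_congr rfl fun w _ => by ring

theorem nb_W (hx : Wt x P d) (hB : Ker B β) (hβ : 0 ≤ β) (u : V) :
    ∑ v, xr x P u v * Wf x P B u v ≤ β * ∑ v, xr x P u v ^ 2 := by
  set C : V → V → ℝ := fun a v => ∑ c, B a c * xr x P c v with hC
  have hC0 : ∀ a v, 0 ≤ C a v := fun a v => Finset.sum_nonneg fun c _ =>
    mul_nonneg (hB.nn a c) (xr_nonneg hx c v)
  have hC1 : ∀ a, ∑ v, C a v ≤ β := by
    intro a
    simp only [hC]
    rw [Finset.sum_comm]
    refine le_trans (Finset.sum_le_sum fun c _ => ?_) (hB.rw a)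
    rw [← Finset.mul_sum]
    exact mul_le_of_le_one_right (hB.nn a c) (xr_row hx c)
  have hC2 : ∀ v, ∑ a, C a v ≤ β := by
    intro v
    simp only [hC]
    rw [Finset.sum_comm]
    have : ∀ c, ∑ a, B a c * xr x P c v ≤ β * xr x P c v := fun c => by
      rw [← Finset.sum_mul]
      refine mul_le_mul_of_nonneg_right ?_ (xr_nonneg hx c v)
      simpa only [hB.sy _ c] using hB.rw c
    refine (Finset.sum_le_sum fun c _ => this c).trans ?_
    rw [← Finset.mul_sum]
    exact mul_le_of_le_one_right hβ (col_xr hx v)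
  have h1 : ∑ v, xr x P u v * Wf x P B u v
      ≤ ∑ a, ∑ v, xr x P u a * C a v * xr x P u v := by
    rw [Finset.sum_comm (s := Finset.univ) (t := Finset.univ)
      (f := fun a v => xr x P u a * C a v * xr x P u v)]
    refine Finset.sum_le_sum fun v _ => ?_
    unfold Wf
    have e0 : ∀ a c, 0 ≤ xr x P u a * B a c * xr x P v c := fun a c =>
      mul_nonneg (mul_nonneg (xr_nonneg hx u a) (hB.nn a c)) (xr_nonneg hx v c)
    have e1 : ∑ a ∈ ({u, v} : Finset V)ᶜ, ∑ c ∈ ({u, v} : Finset V)ᶜ,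
        xr x P u a * B a c * xr x P v c ≤ ∑ a, ∑ c, xr x P u a * B a c * xr x P v c := by
      refine (Finset.sum_le_sum fun a _ => Finset.sum_le_sum_of_subset_of_nonneg
        (Finset.subset_univ _) fun c _ _ => e0 a c).trans ?_
      exact Finset.sum_le_sum_of_subset_of_nonneg (Finset.subset_univ _) fun a _ _ =>
        Finset.sum_nonneg fun c _ => e0 a c
    refine (mul_le_mul_of_nonneg_left e1 (xr_nonneg hx u v)).trans (le_of_eq ?_)
    rw [Finset.mul_sum]
    refine Finset.sum_congr rfl fun a _ => ?_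
    simp only [hC]
    rw [Finset.mul_sum, Finset.mul_sum, Finset.sum_mul]
    refine Finset.sum_congr rfl fun c _ => ?_
    rw [xr_symm hx v c]; ring
  refine h1.trans ((quad hC0 hC1 hC2 Finset.univ
    (fun v => xr x P u v) (fun v => xr x P u v)).trans (le_of_eq ?_))
  rw [Finset.mul_sum, Finset.mul_sum]
  exact Finset.sum_congr rfl fun w _ => by ring

end Pool.Agent.RCG.Ct
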