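import Pool.Agent.RCG.CtD

/-! Stage 1 of the certificate: the functions of the certificate from functions of one variable
(MP_73ccd0_lc). -/

namespace Pool.Agent.RCG.Ct

open Finset Set Pool.Agent.RCRSHalf

set_option linter.unusedSectionVars false

/-- numerical data of the certificate: functions of the time -/
structure Num where
  d : ℝ
  β : ℝ
  cW : ℝ
  r : ℝ
  rE : ℝ
  a : ℝ → ℝ
  a' : ℝ → ℝ
  e1 : ℝ → ℝ
  e1' : ℝ → ℝ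
  e2 : ℝ → ℝ
  e2' : ℝ → ℝ
  g : ℝ → ℝ
  g' : ℝ → ℝ
  jj : ℝ → ℝ
  jj' : ℝ → ℝ
  n1 : ℝ → ℝ
  n1' : ℝ → ℝ
  n2 : ℝ → ℝ
  n2' : ℝ → ℝ
  nn : ℝ → ℝ
  G0 : ℝ → ℝ
  G1 : ℝ → ℝ
  k2 : ℝ → ℝ
  c0 : ℝ → ℝ
  c1 : ℝ → ℝ
  c2 : ℝ → ℝ
  cc : ℝ → ℝ
  r0 : ℝ → ℝ
  U : ℝ → ℝ
  U' : ℝ → ℝ
  Ue : ℝ → ℝ

namespace Num

variable (N : Num)

/-- constant of the own part -/
noncomputable def K : ℝ := 1 + N.cW * N.β
/-- total coefficient of the neighbour part -/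
noncomputable def eb (t : ℝ) : ℝ := N.e1 t + N.β * N.e2 t
/-- bound of the total cost -/
noncomputable def Ch (t : ℝ) : ℝ := N.d * (N.c0 t + N.K * N.cc t)

structure Ok : Prop where
  d0 : 0 < N.d
  d1 : N.d ≤ 1 / 2
  β0 : 0 ≤ N.β
  cW0 : 0 ≤ N.cW
  r0n : 0 ≤ N.r
  rE0 : 0 ≤ N.rE
  da : ∀ t ∈ Icc (0 : ℝ) 1, HasDerivAt N.a (N.a' t) t
  de1 : ∀ t ∈ Icc (0 : ℝ) 1, HasDerivAt N.e1 (N.e1' t) t
  de2 : ∀ t ∈ Icc (0 : ℝ) 1, HasDerivAt N.e2 (N.e2' t) t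
  dg : ∀ t ∈ Icc (0 : ℝ) 1, HasDerivAt N.g (N.g' t) t
  djj : ∀ t ∈ Icc (0 : ℝ) 1, HasDerivAt N.jj (N.jj' t) t
  dn1 : ∀ t ∈ Icc (0 : ℝ) 1, HasDerivAt N.n1 (N.n1' t) t
  dn2 : ∀ t ∈ Icc (0 : ℝ) 1, HasDerivAt N.n2 (N.n2' t) t
  a_0 : N.a 0 = 0
  e1_0 : N.e1 0 = 0
  e2_0 : N.e2 0 = 0
  g_0 : N.g 0 = 0
  jj_0 : N.jj 0 = 0
  n1_0 : N.n1 0 = 0
  n2_0 : N.n2 0 = 0
  an : ∀ t ∈ Icc (0 : ℝ) 1, 0 ≤ N.a t
  e1n : ∀ t ∈ Icc (0 : ℝ) 1, 0 ≤ N.e1 t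
  e2n : ∀ t ∈ Icc (0 : ℝ) 1, 0 ≤ N.e2 t
  gn : ∀ t ∈ Icc (0 : ℝ) 1, 0 ≤ N.g t
  jjn : ∀ t ∈ Icc (0 : ℝ) 1, 0 ≤ N.jj t
  nnn : ∀ t ∈ Icc (0 : ℝ) 1, 0 ≤ N.nn t
  G0n : ∀ t ∈ Icc (0 : ℝ) 1, 0 ≤ N.G0 t
  G1n : ∀ t ∈ Icc (0 : ℝ) 1, 0 ≤ N.G1 t
  k2n : ∀ t ∈ Icc (0 : ℝ) 1, 0 ≤ N.k2 t
  c0n : ∀ t ∈ Icc (0 : ℝ) 1, 0 ≤ N.c0 t
  c1n : ∀ t ∈ Icc (0 : ℝ) 1, 0 ≤ N.c1 t
  c2n : ∀ t ∈ Icc (0 : ℝ) 1, 0 ≤ N.c2 t
  rn : ∀ t ∈ Icc (0 : ℝ) 1, 0 ≤ N.r0 t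
  Un : ∀ t ∈ Icc (0 : ℝ) 1, 0 ≤ N.U t
  Un' : ∀ t ∈ Icc (0 : ℝ) 1, 0 ≤ N.U' t
  Uen : ∀ t ∈ Icc (0 : ℝ) 1, 0 ≤ N.Ue t
  gi : ∀ t ∈ Icc (0 : ℝ) 1, (1 + t) * N.g' t ≤ 1
  jji : ∀ t ∈ Icc (0 : ℝ) 1, (1 + N.r) * N.a t ≤ N.jj' t
  n1i : ∀ t ∈ Icc (0 : ℝ) 1, 21 / 20 * N.e1 t ≤ N.n1' t
  n2i : ∀ t ∈ Icc (0 : ℝ) 1, 21 / 20 * N.e2 t ≤ N.n2' t
  ai : ∀ t ∈ Icc (0 : ℝ) 1, -(N.d ^ 2 * ((1 + t) ^ 2 * N.a' t)) ≤ 1 / 20
  cc1 : ∀ t ∈ Icc (0 : ℝ) 1, N.c1 t ≤ N.cc t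
  cc2 : ∀ t ∈ Icc (0 : ℝ) 1, N.c2 t ≤ N.cW * N.cc t
  Ch1 : ∀ t ∈ Icc (0 : ℝ) 1, N.Ch t ≤ 1 / 2
  B1a : ∀ t ∈ Icc (0 : ℝ) 1, N.c1 t + (1 + t) ^ 2 * N.e1' t ≤ N.G0 t
  B1b : ∀ t ∈ Icc (0 : ℝ) 1, -((1 + t) ^ 2 * N.a' t * N.c1 t) ≤ N.G1 t
  B2a : ∀ t ∈ Icc (0 : ℝ) 1, N.c2 t + (1 + t) ^ 2 * N.e2' t ≤ N.cW * N.G0 t
  B2b : ∀ t ∈ Icc (0 : ℝ) 1, -((1 + t) ^ 2 * N.a' t * N.c2 t) ≤ N.cW * N.G1 t
  N1 : ∀ t ∈ Icc (0 : ℝ) 1, N.n1 t - 199 / 200 * ((1 + t) * N.e1 t) ≤ N.nn t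
  N2 : ∀ t ∈ Icc (0 : ℝ) 1, N.n2 t - 199 / 200 * ((1 + t) * N.e2 t) ≤ N.cW * N.nn t
  ri0 : ∀ t ∈ Icc (0 : ℝ) 1, N.c0 t ≤ (1 - N.Ch t) * N.r0 t
  ri1 : ∀ t ∈ Icc (0 : ℝ) 1,
    (1 - N.d * ((1 + t) ^ 2 * N.a' t)) * N.c0 t ≤ (1 - N.Ch t) * N.r0 t
  C3a : ∀ t ∈ Icc (0 : ℝ) 1,
    N.G0 t * N.K / 2 ≤ (1 - N.Ch t) * ((1 + t) * (N.a t - N.eb t))
  C3b : ∀ t ∈ Icc (0 : ℝ) 1, N.G1 t * N.K / 2
    ≤ (1 - N.Ch t) * (N.k2 t / N.d - (1 + 2 * (N.d * N.g t)) * (N.jj t + N.nn t * N.K))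
  C0 : ∀ y ∈ Icc (0 : ℝ) N.d, ∀ t ∈ Icc (0 : ℝ) 1,
    2 * (1 - y) * N.k2 t + N.r0 t - (1 + t) ^ 2 * N.a' t
      + 2 * (N.eb t * (y * ((1 + t) * (1 + 2 * (y * N.g t))))) ≤ 2 * N.g t
  C1 : ∀ y ∈ Icc (0 : ℝ) N.d, ∀ t ∈ Icc (0 : ℝ) 1,
    1 + y * (y * ((1 + t) * N.a t)) ≤ (1 + 2 * (y * N.g t)) * (1 - N.eb t * (y ^ 2 * (1 + t)))
      * (1 - 2 * (y * (N.d * (N.jj t + N.nn t * N.K))))
  J1 : ∀ t ∈ Icc (0 : ℝ) 1, 2 * (N.d * (N.d * (N.jj t + N.nn t * N.K))) ≤ 1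
  D1 : ∀ t ∈ Icc (0 : ℝ) 1, N.d ^ 2 * ((1 + t) * N.a t) ≤ 1 / 199
  P1 : ∀ t ∈ Icc (0 : ℝ) 1, N.eb t * (N.d ^ 2 * (1 + t)) ≤ 1
  et : ∀ t ∈ Icc (0 : ℝ) 1, N.eb t ≤ N.a t
  BU : ∀ t ∈ Icc (0 : ℝ) 1, N.d * ((1 + t) * N.a t) ≤ 1 / 200
  U1 : ∀ t ∈ Icc (0 : ℝ) 1, (1 + t) ^ 2 * N.e1' t ≤ N.U t
  U2 : ∀ t ∈ Icc (0 : ℝ) 1, (1 + t) ^ 2 * N.e2' t ≤ N.cW * N.U t
  U3 : ∀ t ∈ Icc (0 : ℝ) 1, N.U t * (N.K * N.d) ≤ N.r
  U4 : ∀ t ∈ Icc (0 : ℝ) 1, N.U t * (N.K * N.d) - N.d * ((1 + t) ^ 2 * N.a' t) ≤ N.r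
  V1 : ∀ t ∈ Icc (0 : ℝ) 1, -((1 + t) ^ 2 * N.e1' t) ≤ N.U' t
  V2 : ∀ t ∈ Icc (0 : ℝ) 1, -((1 + t) ^ 2 * N.e2' t) ≤ N.cW * N.U' t
  V3 : ∀ t ∈ Icc (0 : ℝ) 1, N.U' t * (N.K * N.d) ≤ 1 / 2
  V4 : ∀ t ∈ Icc (0 : ℝ) 1, N.U' t * (N.K * N.d) + N.d * ((1 + t) ^ 2 * N.a' t) ≤ 1 / 2
  X1 : ∀ t ∈ Icc (0 : ℝ) 1, (1 + t) * N.e1 t ≤ N.Ue t
  X2 : ∀ t ∈ Icc (0 : ℝ) 1, (1 + t) * N.e2 t ≤ N.cW * N.Ue t
  X3 : ∀ t ∈ Icc (0 : ℝ) 1, N.Ue t * (N.K * N.d) ≤ N.rE * N.g t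
  X4 : ∀ t ∈ Icc (0 : ℝ) 1,
    N.Ue t * (N.K * N.d) + N.d * (N.jj t - (1 + t) * N.a t) ≤ N.rE * N.g t
  a_1 : N.a 1 = 0
  e1_1 : N.e1 1 = 0
  e2_1 : N.e2 1 = 0
  ca : ContinuousOn N.a' (Icc 0 1)
  ce1 : ContinuousOn N.e1' (Icc 0 1)
  ce2 : ContinuousOn N.e2' (Icc 0 1)
  a'0 : 0 ≤ N.a' 0
  e1'0 : N.e1' 0 = 0
  e2'0 : N.e2' 0 = 0

/-- the density functions -/
noncomputable def fn : Fn where
  al y t := y * N.a t
  al' y t := y * N.a' t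
  e1 _ t := N.e1 t
  e1' _ t := N.e1' t
  e2 _ t := N.e2 t
  e2' _ t := N.e2' t

noncomputable def ps (y t : ℝ) : ℝ := N.eb t * y ^ 2

noncomputable def efn : EFn where
  ga y t := 1 + 2 * (y * N.g t)
  ga' y t := 2 * (y * N.g' t)
  j y z t := y * z ^ 2 * N.jj t
  j' y z t := y * z ^ 2 * N.jj' t
  n1 y t := y * N.n1 t
  n1' y t := y * N.n1' t
  n2 y t := y * N.n2 t
  n2' y t := y * N.n2' t
  ph _ t := (1 + N.r) * ((1 + t) ^ 2)⁻¹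

noncomputable def ffn : FFn where
  c1 _ t := N.c1 t
  c2 _ t := N.c2 t
  cW := N.cW
  ka z := N.K * z ^ 2
  kh := N.K * N.d
  G y t := N.G0 t + y * N.G1 t
  nu y t := y * N.nn t
  K1 _ t := 1 + t
  K2 y t := y * N.k2 t
  sg _ _ := 0
  cc _ t := N.cc t
  Ch _ t := N.Ch t
  jh y t := y * N.d * N.jj t
  Jh y t := 2 * (y * (N.d * (N.jj t + N.nn t * N.K)))
  o y t := N.c0 t * y
  r0 y t := y * N.r0 t

variable {N}

theorem K_pos (hN : N.Ok) : 0 < N.K := by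
  have := mul_nonneg hN.cW0 hN.β0
  unfold K; linarith

theorem eb_nonneg (hN : N.Ok) {t : ℝ} (ht : t ∈ Icc (0 : ℝ) 1) : 0 ≤ N.eb t :=
  add_nonneg (hN.e1n t ht) (mul_nonneg hN.β0 (hN.e2n t ht))

theorem fn_ok (hN : N.Ok) : N.fn.Ok N.d where
  dal y _ t ht := (hN.da t ht).const_mul y
  de1 _ _ t ht := hN.de1 t ht
  de2 _ _ t ht := hN.de2 t ht
  al0 y _ := by show y * N.a 0 = 0; rw [hN.a_0, mul_zero]
  e10 _ _ := hN.e1_0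
  e20 _ _ := hN.e2_0
  aln y hy t ht := mul_nonneg hy.1 (hN.an t ht)
  e1n _ _ t ht := hN.e1n t ht
  e2n _ _ t ht := hN.e2n t ht

theorem DD_eq (y t : ℝ) : DD N.fn y t = 1 + y * (y * ((1 + t) * N.a t)) := by
  unfold DD
  show 1 + y * ((1 + t) * (y * N.a t)) = _
  ring

theorem DD_le (hN : N.Ok) {y t : ℝ} (hy : y ∈ Icc (0 : ℝ) N.d) (ht : t ∈ Icc (0 : ℝ) 1) :
    DD N.fn y t ≤ 200 / 199 := by
  rw [DD_eq]
  have h1 := hN.D1 t ht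
  have h2 : 0 ≤ (1 + t) * N.a t := mul_nonneg (by linarith [ht.1]) (hN.an t ht)
  have h3 : y * y ≤ N.d ^ 2 := by rw [pow_two]; exact mul_le_mul hy.2 hy.2 hy.1 hN.d0.le
  have h4 := mul_le_mul_of_nonneg_right h3 h2
  linarith

theorem DD_ge (hN : N.Ok) {y t : ℝ} (hy : y ∈ Icc (0 : ℝ) N.d) (ht : t ∈ Icc (0 : ℝ) 1) :
    1 ≤ DD N.fn y t := DD_pos (fn_ok hN) hy ht

theorem rr_le (hN : N.Ok) {y t : ℝ} (hy : y ∈ Icc (0 : ℝ) N.d) (ht : t ∈ Icc (0 : ℝ) 1) :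
    rr N.fn y t ≤ 1 + t := by
  unfold rr
  have h1 := DD_ge hN hy ht
  rw [div_le_iff₀ (by linarith)]
  nlinarith [ht.1]

theorem le_rr (hN : N.Ok) {y t : ℝ} (hy : y ∈ Icc (0 : ℝ) N.d) (ht : t ∈ Icc (0 : ℝ) 1) :
    199 / 200 * (1 + t) ≤ rr N.fn y t := by
  unfold rr
  have h1 := DD_ge hN hy ht
  have h2 := DD_le hN hy ht
  rw [le_div_iff₀ (by linarith)]
  nlinarith [ht.1]

theorem efn_ok (hN : N.Ok) : N.efn.Ok N.fn N.d where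
  dga y _ t ht := by
    have := (((hN.dg t ht).const_mul y).const_mul 2).const_add 1
    exact this
  gap y hy t ht := by
    have := mul_nonneg hy.1 (hN.gn t ht)
    show 0 < 1 + 2 * (y * N.g t)
    linarith
  ga0 y _ := by
    show 1 + 2 * (y * N.g 0) ≤ 1
    rw [hN.g_0]; linarith
  gai y hy t ht := by
    show 2 * (y * N.g' t) * ((1 + t) * DD N.fn y t) ≤
      2 * y * (1 + 2 * (y * N.g t)) * (1 + (1 + t) * (y * N.a t))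
    have h1 := hN.gi t ht
    have h2 := DD_ge hN hy ht
    have h3 := mul_nonneg hy.1 (hN.gn t ht)
    have h4 : 0 ≤ (1 + t) * (y * N.a t) :=
      mul_nonneg (by linarith [ht.1]) (mul_nonneg hy.1 (hN.an t ht))
    have h5 : DD N.fn y t ≤ 1 + (1 + t) * (y * N.a t) := by
      rw [DD_eq]
      have e : y * (y * ((1 + t) * N.a t)) = y * ((1 + t) * (y * N.a t)) := by ring
      rw [e]
      have : y * ((1 + t) * (y * N.a t)) ≤ 1 * ((1 + t) * (y * N.a t)) :=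
        mul_le_mul_of_nonneg_right (by linarith [hy.2, hN.d1]) h4
      linarith
    have h6 : (1 + t) * N.g' t * DD N.fn y t ≤ 1 * DD N.fn y t :=
      mul_le_mul_of_nonneg_right h1 (by linarith)
    have h7 : DD N.fn y t ≤ (1 + 2 * (y * N.g t)) * (1 + (1 + t) * (y * N.a t)) := by
      have := mul_nonneg h3 (show 0 ≤ 1 + (1 + t) * (y * N.a t) by linarith)
      nlinarith
    have h8 : 0 ≤ 2 * y := by linarith [hy.1]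
    have h9 := mul_le_mul_of_nonneg_left (h6.trans ((one_mul _).le.trans h7)) h8
    calc _ = 2 * y * ((1 + t) * N.g' t * DD N.fn y t) := by ring
      _ ≤ _ := h9
      _ = _ := by ring
  dj y _ z _ t ht := (hN.djj t ht).const_mul _
  j0 y hy z hz := by
    show 0 ≤ y * z ^ 2 * N.jj 0
    rw [hN.jj_0]; simp
  ji y hy z hz t ht _ := by
    show y * ((1 + N.r) * ((1 + t) ^ 2)⁻¹) * (z * (z * N.a t)) * (1 + t) ^ 2
      ≤ y * z ^ 2 * N.jj' t * DD N.fn y t ^ 2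
    have hT : (1 + t) ^ 2 ≠ 0 := by have := ht.1; positivity
    have e : y * ((1 + N.r) * ((1 + t) ^ 2)⁻¹) * (z * (z * N.a t)) * (1 + t) ^ 2
        = y * z ^ 2 * ((1 + N.r) * N.a t) := by
      calc _ = y * z ^ 2 * ((1 + N.r) * N.a t) * (((1 + t) ^ 2)⁻¹ * (1 + t) ^ 2) := by ring
        _ = _ := by rw [inv_mul_cancel₀ hT, mul_one]
    rw [e]
    have h1 := hN.jji t ht
    have h2 := DD_ge hN hy ht
    have h3 : 1 ≤ DD N.fn y t ^ 2 := one_le_pow₀ h2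
    have h4 : 0 ≤ y * z ^ 2 := mul_nonneg hy.1 (sq_nonneg z)
    have h5 : 0 ≤ (1 + N.r) * N.a t := mul_nonneg (by linarith [hN.r0n]) (hN.an t ht)
    have h6 : (1 + N.r) * N.a t ≤ N.jj' t * DD N.fn y t ^ 2 := by nlinarith
    calc _ ≤ y * z ^ 2 * (N.jj' t * DD N.fn y t ^ 2) := mul_le_mul_of_nonneg_left h6 h4
      _ = _ := by ring
  dn1 y _ t ht := (hN.dn1 t ht).const_mul y
  n10 y _ := by show 0 ≤ y * N.n1 0; rw [hN.n1_0]; simp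
  n1i y hy t ht := by
    show y * N.e1 t * (1 - y * ((1 + t) ^ 2 * (y * N.a' t))) ≤ y * N.n1' t * DD N.fn y t ^ 2
    exact nai_aux hN hy ht (hN.e1n t ht) (hN.n1i t ht)
  dn2 y _ t ht := (hN.dn2 t ht).const_mul y
  n20 y _ := by show 0 ≤ y * N.n2 0; rw [hN.n2_0]; simp
  n2i y hy t ht := by
    show y * N.e2 t * (1 - y * ((1 + t) ^ 2 * (y * N.a' t))) ≤ y * N.n2' t * DD N.fn y t ^ 2
    exact nai_aux hN hy ht (hN.e2n t ht) (hN.n2i t ht)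
where
  nai_aux (hN : N.Ok) {y t e n : ℝ} (hy : y ∈ Icc (0 : ℝ) N.d) (ht : t ∈ Icc (0 : ℝ) 1)
      (he : 0 ≤ e) (hn : 21 / 20 * e ≤ n) :
      y * e * (1 - y * ((1 + t) ^ 2 * (y * N.a' t))) ≤ y * n * DD N.fn y t ^ 2 := by
    have h1 := hN.ai t ht
    have h2 := DD_ge hN hy ht
    have h3 : 1 ≤ DD N.fn y t ^ 2 := one_le_pow₀ h2
    have h4 : 1 - y * ((1 + t) ^ 2 * (y * N.a' t)) ≤ 21 / 20 := by
      have e1 : y * ((1 + t) ^ 2 * (y * N.a' t)) = y ^ 2 * ((1 + t) ^ 2 * N.a' t) := by ring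
      rw [e1]
      have h5 : y ^ 2 ≤ N.d ^ 2 := pow_le_pow_left₀ hy.1 hy.2 2
      by_cases h6 : 0 ≤ (1 + t) ^ 2 * N.a' t
      · have := mul_nonneg (sq_nonneg y) h6
        linarith
      · push Not at h6
        have : N.d ^ 2 * ((1 + t) ^ 2 * N.a' t) ≤ y ^ 2 * ((1 + t) ^ 2 * N.a' t) :=
          mul_le_mul_of_nonpos_right h5 h6.le
        linarith
    have h7 : e * (1 - y * ((1 + t) ^ 2 * (y * N.a' t))) ≤ n * DD N.fn y t ^ 2 := by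
      have b1 : e * (1 - y * ((1 + t) ^ 2 * (y * N.a' t))) ≤ e * (21 / 20) :=
        mul_le_mul_of_nonneg_left h4 he
      have b2 : 0 ≤ n := by linarith
      nlinarith
    calc _ = y * (e * (1 - y * ((1 + t) ^ 2 * (y * N.a' t)))) := by ring
      _ ≤ y * (n * DD N.fn y t ^ 2) := mul_le_mul_of_nonneg_left h7 hy.1
      _ = _ := by ring

theorem ffn_ok (hN : N.Ok) : N.ffn.Ok N.fn N.efn N.ps N.d where
  cWn := hN.cW0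
  khn := mul_nonneg (K_pos hN).le hN.d0.le
  kan z _ := mul_nonneg (K_pos hN).le (sq_nonneg z)
  kah z hz := by
    show N.K * z ^ 2 ≤ N.K * N.d * z
    have h1 : z ^ 2 ≤ N.d * z := by rw [pow_two]; exact mul_le_mul_of_nonneg_right hz.2 hz.1
    calc _ ≤ N.K * (N.d * z) := mul_le_mul_of_nonneg_left h1 (K_pos hN).le
      _ = _ := by ring
  Gn y hy t ht := add_nonneg (hN.G0n t ht) (mul_nonneg hy.1 (hN.G1n t ht))
  nun y hy t ht := mul_nonneg hy.1 (hN.nnn t ht)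
  K1n y _ t ht := by show 0 ≤ 1 + t; linarith [ht.1]
  K2n y hy t ht := mul_nonneg hy.1 (hN.k2n t ht)
  sgn _ _ _ _ := le_rfl
  c1n _ _ t ht := hN.c1n t ht
  c2n _ _ t ht := hN.c2n t ht
  jn y hy z _ t ht := mul_nonneg (mul_nonneg hy.1 (sq_nonneg z)) (hN.jjn t ht)
  jhn y hy t ht := mul_nonneg (mul_nonneg hy.1 hN.d0.le) (hN.jjn t ht)
  jhi y hy z hz t ht _ := by
    show y * z ^ 2 * N.jj t ≤ y * N.d * N.jj t * z
    have h1 : z ^ 2 ≤ N.d * z := by rw [pow_two]; exact mul_le_mul_of_nonneg_right hz.2 hz.1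
    calc y * z ^ 2 * N.jj t = (y * N.jj t) * z ^ 2 := by ring
      _ ≤ (y * N.jj t) * (N.d * z) :=
          mul_le_mul_of_nonneg_left h1 (mul_nonneg hy.1 (hN.jjn t ht))
      _ = _ := by ring
  Jhi y hy t ht := by
    show 2 * (1 - y) * (y * N.d * N.jj t + y * N.nn t * (N.K * N.d))
      ≤ 2 * (y * (N.d * (N.jj t + N.nn t * N.K)))
    have h1 : 0 ≤ y * (N.d * (N.jj t + N.nn t * N.K)) :=
      mul_nonneg hy.1 (mul_nonneg hN.d0.le (add_nonneg (hN.jjn t ht)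
        (mul_nonneg (hN.nnn t ht) (K_pos hN).le)))
    have h2 : 0 ≤ y * (y * (N.d * (N.jj t + N.nn t * N.K))) := mul_nonneg hy.1 h1
    nlinarith
  Jh1 y hy t ht := by
    show 2 * (y * (N.d * (N.jj t + N.nn t * N.K))) ≤ 1
    have h1 := hN.J1 t ht
    have h0 : 0 ≤ N.d * (N.jj t + N.nn t * N.K) := mul_nonneg hN.d0.le (add_nonneg (hN.jjn t ht)
        (mul_nonneg (hN.nnn t ht) (K_pos hN).le))
    have h2 := mul_le_mul_of_nonneg_right hy.2 h0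
    linarith
  cci _ _ t ht := hN.cc1 t ht
  cci2 _ _ t ht := hN.cc2 t ht
  on y hy t ht := mul_nonneg (hN.c0n t ht) hy.1
  r0n y hy t ht := mul_nonneg hy.1 (hN.rn t ht)
  r0i y hy t ht := by
    show (1 - (1 + t) ^ 2 * (y * N.a' t)) * (N.c0 t * y) ≤ (1 - N.Ch t) * (y * N.r0 t)
    have h0 := hN.ri0 t ht
    have h1 := hN.ri1 t ht
    have hc := hN.c0n t ht
    have h2 : (1 - y * ((1 + t) ^ 2 * N.a' t)) * N.c0 t ≤ (1 - N.Ch t) * N.r0 t := by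
      by_cases h6 : 0 ≤ (1 + t) ^ 2 * N.a' t
      · have b1 := mul_nonneg (mul_nonneg hy.1 h6) hc
        have b2 : (1 - y * ((1 + t) ^ 2 * N.a' t)) * N.c0 t
            = N.c0 t - y * ((1 + t) ^ 2 * N.a' t) * N.c0 t := by ring
        linarith
      · push Not at h6
        have b1 : N.d * ((1 + t) ^ 2 * N.a' t) ≤ y * ((1 + t) ^ 2 * N.a' t) :=
          mul_le_mul_of_nonpos_right hy.2 h6.le
        have b2 := mul_le_mul_of_nonneg_right b1 hc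
        have b3 : (1 - y * ((1 + t) ^ 2 * N.a' t)) * N.c0 t
            = N.c0 t - y * ((1 + t) ^ 2 * N.a' t) * N.c0 t := by ring
        have b4 : (1 - N.d * ((1 + t) ^ 2 * N.a' t)) * N.c0 t
            = N.c0 t - N.d * ((1 + t) ^ 2 * N.a' t) * N.c0 t := by ring
        linarith
    have h3 := mul_le_mul_of_nonneg_left h2 hy.1
    calc _ = y * ((1 - y * ((1 + t) ^ 2 * N.a' t)) * N.c0 t) := by ring
      _ ≤ _ := h3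
      _ = _ := by ring
  Chi y hy t ht := by
    show N.c0 t * y + (1 - y) * (N.cc t * (N.K * N.d)) ≤ N.Ch t
    have h1 := mul_le_mul_of_nonneg_left hy.2 (hN.c0n t ht)
    have h2 : 0 ≤ N.cc t * (N.K * N.d) :=
      mul_nonneg ((hN.c1n t ht).trans (hN.cc1 t ht)) (mul_nonneg (K_pos hN).le hN.d0.le)
    have h3 := mul_nonneg hy.1 h2
    unfold Ch
    nlinarith
  Ch1 _ _ t ht := by have := hN.Ch1 t ht; show N.Ch t < 1; linarith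
  B1 y hy t ht := by
    show (1 - (1 + t) ^ 2 * (y * N.a' t)) * N.c1 t + (1 + t) ^ 2 * N.e1' t
      ≤ N.G0 t + y * N.G1 t
    have h1 := hN.B1a t ht
    have h2 := mul_le_mul_of_nonneg_left (hN.B1b t ht) hy.1
    linarith
  B2 y hy t ht := by
    show (1 - (1 + t) ^ 2 * (y * N.a' t)) * N.c2 t + (1 + t) ^ 2 * N.e2' t
      ≤ N.cW * (N.G0 t + y * N.G1 t)
    have h1 := hN.B2a t ht
    have h2 := mul_le_mul_of_nonneg_left (hN.B2b t ht) hy.1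
    linarith
  N1 y hy t ht := by
    show y * N.n1 t - y * N.e1 t * rr N.fn y t ≤ y * N.nn t
    have h1 := mul_le_mul_of_nonneg_left (hN.N1 t ht) hy.1
    have h2 := mul_le_mul_of_nonneg_left (le_rr hN hy ht) (mul_nonneg hy.1 (hN.e1n t ht))
    linarith
  N2 y hy t ht := by
    show y * N.n2 t - y * N.e2 t * rr N.fn y t ≤ N.cW * (y * N.nn t)
    have h1 := mul_le_mul_of_nonneg_left (hN.N2 t ht) hy.1
    have h2 := mul_le_mul_of_nonneg_left (le_rr hN hy ht) (mul_nonneg hy.1 (hN.e2n t ht))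
    linarith
  pn y hy t ht := by
    show N.eb t * y ^ 2 * rr N.fn y t ≤ 1
    have h0 := eb_nonneg hN ht
    have h1 := rr_le hN hy ht
    have h2 : y ^ 2 ≤ N.d ^ 2 := pow_le_pow_left₀ hy.1 hy.2 2
    have h3 : y ^ 2 * rr N.fn y t ≤ N.d ^ 2 * (1 + t) :=
      mul_le_mul h2 h1 (rr_pos (fn_ok hN) hy ht).le (by positivity)
    have h4 := mul_le_mul_of_nonneg_left h3 h0
    have h5 := hN.P1 t ht
    calc _ = N.eb t * (y ^ 2 * rr N.fn y t) := by ring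
      _ ≤ _ := h4
      _ ≤ 1 := h5
  C0 y hy t ht := by
    show 2 * (1 - y) * (y * N.k2 t) + 0 + y * N.r0 t + (1 - (1 + t) ^ 2 * (y * N.a' t))
      ≤ (1 + 2 * (y * N.g t)) * (1 - 2 * (N.eb t * y ^ 2 * rr N.fn y t))
    have h0 := mul_le_mul_of_nonneg_left (hN.C0 y hy t ht) hy.1
    have hg : 0 ≤ 1 + 2 * (y * N.g t) := by
      have := mul_nonneg hy.1 (hN.gn t ht); linarith
    have h1 := mul_le_mul_of_nonneg_left (rr_le hN hy ht)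
      (mul_nonneg hg (mul_nonneg (eb_nonneg hN ht) (sq_nonneg y)))
    have e1 : (1 + 2 * (y * N.g t)) * (1 - 2 * (N.eb t * y ^ 2 * rr N.fn y t))
        = 1 + 2 * (y * N.g t)
          - 2 * ((1 + 2 * (y * N.g t)) * (N.eb t * y ^ 2) * rr N.fn y t) := by ring
    rw [e1]
    have e2 : (1 + 2 * (y * N.g t)) * (N.eb t * y ^ 2) * (1 + t)
        = y * (N.eb t * (y * ((1 + t) * (1 + 2 * (y * N.g t))))) := by ring
    rw [e2] at h1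
    linarith
  C1 y hy t ht := by
    show 1 + t ≤ (1 + 2 * (y * N.g t)) * (1 - N.eb t * y ^ 2 * rr N.fn y t)
      * (1 - 2 * (y * (N.d * (N.jj t + N.nn t * N.K)))) * rr N.fn y t
    have h0 := hN.C1 y hy t ht
    rw [← DD_eq] at h0
    have hD := DD_ge hN hy ht
    have hr : rr N.fn y t = (1 + t) / DD N.fn y t := rfl
    have hT : 0 ≤ 1 + t := by linarith [ht.1]
    have hg : 0 ≤ 1 + 2 * (y * N.g t) := by
      have := mul_nonneg hy.1 (hN.gn t ht); linarith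
    have hJ : 0 ≤ 1 - 2 * (y * (N.d * (N.jj t + N.nn t * N.K))) := by
      have h1 := hN.J1 t ht
      have h0 : 0 ≤ N.d * (N.jj t + N.nn t * N.K) := mul_nonneg hN.d0.le (add_nonneg
        (hN.jjn t ht) (mul_nonneg (hN.nnn t ht) (K_pos hN).le))
      have h2 := mul_le_mul_of_nonneg_right hy.2 h0
      linarith
    have h1 : 1 - N.eb t * (y ^ 2 * (1 + t)) ≤ 1 - N.eb t * y ^ 2 * rr N.fn y t := by
      have := mul_le_mul_of_nonneg_left (rr_le hN hy ht)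
        (mul_nonneg (eb_nonneg hN ht) (sq_nonneg y))
      linarith
    have h2 : DD N.fn y t ≤ (1 + 2 * (y * N.g t)) * (1 - N.eb t * y ^ 2 * rr N.fn y t)
        * (1 - 2 * (y * (N.d * (N.jj t + N.nn t * N.K)))) :=
      h0.trans (mul_le_mul_of_nonneg_right (mul_le_mul_of_nonneg_left h1 hg) hJ)
    have h3 := mul_le_mul_of_nonneg_right h2 (rr_pos (fn_ok hN) hy ht).le
    refine le_trans (le_of_eq ?_) h3
    rw [hr, mul_div_cancel₀]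
    linarith
  C3 y hy z hz t ht _ := by
    show (N.G0 t + y * N.G1 t) * (N.K * z ^ 2) / 2 ≤ (1 - N.Ch t) * (y * N.k2 t * z
      + (1 + t) * (z * (z * N.a t) - N.eb t * z ^ 2) - (1 + 2 * (y * N.g t)) *
        (y * z ^ 2 * N.jj t) - (1 + 2 * (y * N.g t)) * (y * N.nn t) * (N.K * z ^ 2))
    have ha := mul_le_mul_of_nonneg_left (hN.C3a t ht) (sq_nonneg z)
    have hb := mul_le_mul_of_nonneg_left (hN.C3b t ht) (mul_nonneg hy.1 (sq_nonneg z))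
    have hC : 0 ≤ 1 - N.Ch t := by have := hN.Ch1 t ht; linarith
    have h1 : z ^ 2 * (N.k2 t / N.d) ≤ N.k2 t * z := by
      have b1 : z ^ 2 ≤ z * N.d := by
        rw [pow_two]; exact mul_le_mul_of_nonneg_left hz.2 hz.1
      have b2 : 0 ≤ N.k2 t / N.d := div_nonneg (hN.k2n t ht) hN.d0.le
      have b3 := mul_le_mul_of_nonneg_right b1 b2
      have b4 : z * N.d * (N.k2 t / N.d) = N.k2 t * z := by
        have := hN.d0.ne'; field_simp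
      linarith
    have h2 : (1 + 2 * (y * N.g t)) * (N.jj t + N.nn t * N.K)
        ≤ (1 + 2 * (N.d * N.g t)) * (N.jj t + N.nn t * N.K) := by
      have b1 := mul_le_mul_of_nonneg_right hy.2 (hN.gn t ht)
      refine mul_le_mul_of_nonneg_right (by linarith) (add_nonneg (hN.jjn t ht)
        (mul_nonneg (hN.nnn t ht) (K_pos hN).le))
    have h3 : z ^ 2 * (N.k2 t / N.d - (1 + 2 * (N.d * N.g t)) * (N.jj t + N.nn t * N.K))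
        ≤ N.k2 t * z - (1 + 2 * (y * N.g t)) * (z ^ 2 * N.jj t)
          - (1 + 2 * (y * N.g t)) * (N.nn t * (N.K * z ^ 2)) := by
      have b1 := mul_le_mul_of_nonneg_left h2 (sq_nonneg z)
      linarith
    have h4 := mul_le_mul_of_nonneg_left h3 (mul_nonneg hy.1 hC)
    linarith

end Num

end Pool.Agent.RCG.Ct
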