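import Pool.Agent.RCG.WClo

/-! Bounds for the rates of the exponents by bilinear walk forms (MP_73ccd0_lc, general graphs). -/

namespace Pool.Agent.RCG

open Set Finset Matrix Pool.Agent.RCRSHalf

set_option linter.unusedSectionVars false

variable {V : Type*} [Fintype V] [DecidableEq V]

/-- the bilinear form of a pair of targets -/
noncomputable def Bq (X : V → V → ℝ) (H0 : Finset V) (p p' : V → ℝ) : ℝ :=
  ∑ a ∈ H0, (∑ b ∈ H0, X a b) * (p a * p' a) + ∑ a ∈ H0, ∑ b ∈ H0, X a b * (p a * p' b)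

variable {X : V → V → ℝ} {H0 : Finset V}

theorem Bq_eq (hs : ∀ a b, X a b = X b a) (p p' : V → ℝ) :
    (1 / 2) * ∑ a ∈ H0, ∑ b ∈ H0, X a b * ((p a + p b) * (p' a + p' b)) = Bq X H0 p p' := by
  have e : ∀ a ∈ H0, ∀ b ∈ H0, X a b * ((p a + p b) * (p' a + p' b))
      = X a b * (p a * p' a) + X b a * (p b * p' b) + X a b * (p a * p' b)
        + X b a * (p b * p' a) := fun a _ b _ => by rw [hs b a]; ring
  have e1 : ∑ a ∈ H0, ∑ b ∈ H0, X a b * ((p a + p b) * (p' a + p' b))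
      = ∑ a ∈ H0, ∑ b ∈ H0, X a b * (p a * p' a) + ∑ a ∈ H0, ∑ b ∈ H0, X b a * (p b * p' b)
        + ∑ a ∈ H0, ∑ b ∈ H0, X a b * (p a * p' b)
        + ∑ a ∈ H0, ∑ b ∈ H0, X b a * (p b * p' a) := by
    rw [← Finset.sum_add_distrib, ← Finset.sum_add_distrib, ← Finset.sum_add_distrib]
    refine Finset.sum_congr rfl fun a ha => ?_
    rw [← Finset.sum_add_distrib, ← Finset.sum_add_distrib, ← Finset.sum_add_distrib]
    exact Finset.sum_congr rfl fun b hb => e a ha b hb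
  have e2 : ∑ a ∈ H0, ∑ b ∈ H0, X b a * (p b * p' b) = ∑ a ∈ H0, ∑ b ∈ H0, X a b * (p a * p' a) :=
    Finset.sum_comm
  have e3 : ∑ a ∈ H0, ∑ b ∈ H0, X b a * (p b * p' a) = ∑ a ∈ H0, ∑ b ∈ H0, X a b * (p a * p' b) :=
    Finset.sum_comm
  have e4 : ∑ a ∈ H0, ∑ b ∈ H0, X a b * (p a * p' a) = ∑ a ∈ H0, (∑ b ∈ H0, X a b) * (p a * p' a) :=
    Finset.sum_congr rfl fun a _ => by rw [Finset.sum_mul]
  rw [e1, e2, e3, e4]
  unfold Bq
  ring

theorem Bq_symm (hs : ∀ a b, X a b = X b a) (p p' : V → ℝ) : Bq X H0 p p' = Bq X H0 p' p := by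
  rw [← Bq_eq hs, ← Bq_eq hs]
  congr 1
  exact Finset.sum_congr rfl fun a _ => Finset.sum_congr rfl fun b _ => by ring

theorem Bq_nonneg (h0 : ∀ a b, 0 ≤ X a b) {p p' : V → ℝ} (hp : ∀ a ∈ H0, 0 ≤ p a)
    (hp' : ∀ a ∈ H0, 0 ≤ p' a) : 0 ≤ Bq X H0 p p' := by
  unfold Bq
  refine add_nonneg (Finset.sum_nonneg fun a ha => ?_)
    (Finset.sum_nonneg fun a ha => Finset.sum_nonneg fun b hb => ?_)
  · exact mul_nonneg (Finset.sum_nonneg fun b _ => h0 a b) (mul_nonneg (hp a ha) (hp' a ha))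
  · exact mul_nonneg (h0 a b) (mul_nonneg (hp a ha) (hp' b hb))

theorem Bq_mono (h0 : ∀ a b, 0 ≤ X a b) {p q p' q' : V → ℝ} (hp : ∀ a ∈ H0, 0 ≤ p a)
    (hp' : ∀ a ∈ H0, 0 ≤ p' a) (hpq : ∀ a ∈ H0, p a ≤ q a) (hpq' : ∀ a ∈ H0, p' a ≤ q' a) :
    Bq X H0 p p' ≤ Bq X H0 q q' := by
  unfold Bq
  refine add_le_add (Finset.sum_le_sum fun a ha => ?_)
    (Finset.sum_le_sum fun a ha => Finset.sum_le_sum fun b hb => ?_)
  · refine mul_le_mul_of_nonneg_left ?_ (Finset.sum_nonneg fun b _ => h0 a b)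
    exact mul_le_mul (hpq a ha) (hpq' a ha) (hp' a ha) ((hp a ha).trans (hpq a ha))
  · refine mul_le_mul_of_nonneg_left ?_ (h0 a b)
    exact mul_le_mul (hpq a ha) (hpq' b hb) (hp' b hb) ((hp a ha).trans (hpq a ha))

theorem Bq_smul (c c' : ℝ) (p p' : V → ℝ) :
    Bq X H0 (fun a => c * p a) (fun a => c' * p' a) = c * c' * Bq X H0 p p' := by
  unfold Bq
  rw [mul_add, Finset.mul_sum, Finset.mul_sum]
  congr 1
  · exact Finset.sum_congr rfl fun a _ => by ring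
  · refine Finset.sum_congr rfl fun a _ => ?_
    rw [Finset.mul_sum]
    exact Finset.sum_congr rfl fun b _ => by ring

/-- double sum with weights -/
noncomputable def HS (X : V → V → ℝ) (H0 : Finset V) (Φ : V → V → ℝ) : ℝ :=
  (1 / 2) * ∑ a ∈ H0, ∑ b ∈ H0, X a b * Φ a b

theorem HS_add (Φ Ψ : V → V → ℝ) :
    HS X H0 (fun a b => Φ a b + Ψ a b) = HS X H0 Φ + HS X H0 Ψ := by
  unfold HS
  rw [← mul_add, ← Finset.sum_add_distrib]
  congr 1
  refine Finset.sum_congr rfl fun a _ => ?_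
  rw [← Finset.sum_add_distrib]
  exact Finset.sum_congr rfl fun b _ => by ring

theorem HS_smul (c : ℝ) (Φ : V → V → ℝ) : HS X H0 (fun a b => c * Φ a b) = c * HS X H0 Φ := by
  unfold HS
  rw [mul_left_comm c, Finset.mul_sum (a := c)]
  congr 1
  refine Finset.sum_congr rfl fun a _ => ?_
  rw [Finset.mul_sum]
  exact Finset.sum_congr rfl fun b _ => by ring

theorem HS_Bq (hs : ∀ a b, X a b = X b a) (p p' : V → ℝ) :
    HS X H0 (fun a b => (p a + p b) * (p' a + p' b)) = Bq X H0 p p' := Bq_eq hs p p'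

/-- influence bounds of one target at one time: `P ≤ p`, `N ≤ n` on active vertices, `P ≤ ε` -/
structure PNb (X : V → V → ℝ) (H0 : Finset V) (P N p n : V → ℝ) (ε : ℝ) : Prop where
  P0 : ∀ a ∈ H0, 0 ≤ P a
  N0 : ∀ a ∈ H0, 0 ≤ N a
  Pp : ∀ a ∈ H0, ∀ b ∈ H0, X a b ≠ 0 → P b ≤ p b
  Nn : ∀ a ∈ H0, N a ≤ n a
  pe : ∀ a ∈ H0, ∀ b ∈ H0, X a b ≠ 0 → P b ≤ ε
  e0 : 0 ≤ ε

section

variable {P N p n : V → ℝ} {ε : ℝ}

/-- pair bound -/
theorem PNb.pair (hb : PNb X H0 P N p n ε) (hs : ∀ a b, X a b = X b a) {a b : V} (ha : a ∈ H0)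
    (hb' : b ∈ H0) (hab : X a b ≠ 0) :
    0 ≤ (1 + P a) * (1 + P b) - 1 ∧ (1 + P a) * (1 + P b) - 1 ≤ (1 + ε / 2) * (p a + p b) ∧
      (1 + P a) * (1 + P b) - 1 ≤ (1 + ε / 2) * (2 * ε) := by
  have hba : X b a ≠ 0 := by rwa [hs b a]
  have h1 := hb.P0 a ha
  have h2 := hb.P0 b hb'
  have h3 := hb.Pp b hb' a ha hba
  have h4 := hb.Pp a ha b hb' hab
  have h5 := hb.pe b hb' a ha hba
  have h6 := hb.pe a ha b hb' hab
  have h7 := hb.e0
  have k1 : (1 + P a) * (1 + P b) - 1 ≤ (1 + ε / 2) * (P a + P b) := by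
    nlinarith [mul_nonneg h1 (by linarith : 0 ≤ ε - P b), mul_nonneg h2 (by linarith : 0 ≤ ε - P a)]
  refine ⟨by nlinarith, k1.trans ?_, k1.trans ?_⟩
  · exact mul_le_mul_of_nonneg_left (by linarith) (by linarith)
  · exact mul_le_mul_of_nonneg_left (by linarith) (by linarith)

end

section

variable {h : V → V → ℝ} {μ : ℝ}
variable {P1 N1 p1 n1 P2 N2 p2 n2 P3 N3 p3 n3 P4 N4 p4 n4 : V → ℝ} {ε : ℝ}

/-- from pointwise bounds to bounds of the double sum -/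
theorem half_sum_le (hh0 : ∀ a b, 0 ≤ h a b) (hle : ∀ a b, h a b ≤ μ * X a b)
    {Φ Ψ : V → V → ℝ} (hΨ : ∀ a ∈ H0, ∀ b ∈ H0, X a b ≠ 0 → 0 ≤ Ψ a b)
    (hΦ : ∀ a ∈ H0, ∀ b ∈ H0, X a b ≠ 0 → Φ a b ≤ Ψ a b) :
    (1 / 2) * ∑ a ∈ H0, ∑ b ∈ H0, h a b * Φ a b
      ≤ μ * HS X H0 Ψ := by
  unfold HS
  rw [mul_left_comm μ]
  refine mul_le_mul_of_nonneg_left ?_ (by norm_num)
  rw [Finset.mul_sum]
  refine Finset.sum_le_sum fun a ha => ?_
  rw [Finset.mul_sum]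
  refine Finset.sum_le_sum fun b hb => ?_
  by_cases hab : X a b = 0
  · have : h a b = 0 := le_antisymm (by simpa [hab] using hle a b) (hh0 a b)
    rw [this, hab]; simp
  · calc h a b * Φ a b ≤ h a b * Ψ a b := mul_le_mul_of_nonneg_left (hΦ a ha b hb hab) (hh0 a b)
      _ ≤ (μ * X a b) * Ψ a b := mul_le_mul_of_nonneg_right (hle a b) (hΨ a ha b hb hab)
      _ = _ := by ring

/-- upper exponent for two targets -/
theorem rate2_up (hs : ∀ a b, X a b = X b a) (hh0 : ∀ a b, 0 ≤ h a b)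
    (hle : ∀ a b, h a b ≤ μ * X a b) (b1 : PNb X H0 P1 N1 p1 n1 ε) (b2 : PNb X H0 P2 N2 p2 n2 ε) :
    k2R h H0 P1 N1 P2 N2 ≤ μ * ((1 + ε / 2) ^ 2 * Bq X H0 p1 p2 + Bq X H0 n1 n2) := by
  unfold k2R
  refine (half_sum_le (X := X) (μ := μ) hh0 hle
    (Ψ := fun a b => (1 + ε / 2) ^ 2 * ((p1 a + p1 b) * (p2 a + p2 b))
      + (n1 a + n1 b) * (n2 a + n2 b)) (fun a ha b hb hab => ?_)
    (fun a ha b hb hab => ?_)).trans (le_of_eq ?_)
  · have q1 := (b1.pair hs ha hb hab).1.trans (b1.pair hs ha hb hab).2.1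
    have q2 := (b2.pair hs ha hb hab).1.trans (b2.pair hs ha hb hab).2.1
    have r1 := add_nonneg ((b1.N0 a ha).trans (b1.Nn a ha)) ((b1.N0 b hb).trans (b1.Nn b hb))
    have r2 := add_nonneg ((b2.N0 a ha).trans (b2.Nn a ha)) ((b2.N0 b hb).trans (b2.Nn b hb))
    nlinarith [mul_nonneg q1 q2, mul_nonneg r1 r2]
  · obtain ⟨u0, u1, -⟩ := b1.pair hs ha hb hab
    obtain ⟨v0, v1, -⟩ := b2.pair hs ha hb hab
    have m1 := mul_le_mul u1 v1 v0 (u0.trans u1)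
    have m2 : (N1 a + N1 b) * (N2 a + N2 b) ≤ (n1 a + n1 b) * (n2 a + n2 b) :=
      mul_le_mul (add_le_add (b1.Nn a ha) (b1.Nn b hb)) (add_le_add (b2.Nn a ha) (b2.Nn b hb))
        (add_nonneg (b2.N0 a ha) (b2.N0 b hb))
        (add_nonneg ((b1.N0 a ha).trans (b1.Nn a ha)) ((b1.N0 b hb).trans (b1.Nn b hb)))
    nlinarith
  · rw [HS_add, HS_smul, HS_Bq hs, HS_Bq hs]

/-- lower exponent for two targets -/
theorem rate2_lo (hs : ∀ a b, X a b = X b a) (hh0 : ∀ a b, 0 ≤ h a b)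
    (hle : ∀ a b, h a b ≤ μ * X a b) (b1 : PNb X H0 P1 N1 p1 n1 ε) (b2 : PNb X H0 P2 N2 p2 n2 ε) :
    (1 / 2) * ∑ a ∈ H0, ∑ b ∈ H0, h a b *
        ((N1 a + N1 b) * ((1 + P2 a) * (1 + P2 b) - 1)
          + (N2 a + N2 b) * ((1 + P1 a) * (1 + P1 b) - 1))
      ≤ μ * ((1 + ε / 2) * (Bq X H0 n1 p2 + Bq X H0 n2 p1)) := by
  refine (half_sum_le (X := X) (μ := μ) hh0 hle
    (Ψ := fun a b => (1 + ε / 2) * ((n1 a + n1 b) * (p2 a + p2 b))
      + (1 + ε / 2) * ((n2 a + n2 b) * (p1 a + p1 b))) (fun a ha b hb hab => ?_)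
    (fun a ha b hb hab => ?_)).trans (le_of_eq ?_)
  · have q1 := (b1.pair hs ha hb hab).1.trans (b1.pair hs ha hb hab).2.1
    have q2 := (b2.pair hs ha hb hab).1.trans (b2.pair hs ha hb hab).2.1
    have r1 := add_nonneg ((b1.N0 a ha).trans (b1.Nn a ha)) ((b1.N0 b hb).trans (b1.Nn b hb))
    have r2 := add_nonneg ((b2.N0 a ha).trans (b2.Nn a ha)) ((b2.N0 b hb).trans (b2.Nn b hb))
    nlinarith [mul_nonneg q1 r2, mul_nonneg q2 r1]
  · obtain ⟨u0, u1, -⟩ := b1.pair hs ha hb hab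
    obtain ⟨v0, v1, -⟩ := b2.pair hs ha hb hab
    have r1 := add_nonneg ((b1.N0 a ha).trans (b1.Nn a ha)) ((b1.N0 b hb).trans (b1.Nn b hb))
    have r2 := add_nonneg ((b2.N0 a ha).trans (b2.Nn a ha)) ((b2.N0 b hb).trans (b2.Nn b hb))
    have m1 := mul_le_mul (add_le_add (b1.Nn a ha) (b1.Nn b hb)) v1 v0 r1
    have m2 := mul_le_mul (add_le_add (b2.Nn a ha) (b2.Nn b hb)) u1 u0 r2
    nlinarith
  · rw [HS_add, HS_smul, HS_smul, HS_Bq hs, HS_Bq hs, mul_add (1 + ε / 2)]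

/-- upper exponent for three targets (form used in `n_main`) -/
theorem rate3_up (hs : ∀ a b, X a b = X b a) (hh0 : ∀ a b, 0 ≤ h a b)
    (hle : ∀ a b, h a b ≤ μ * X a b) (b1 : PNb X H0 P1 N1 p1 n1 ε) (b2 : PNb X H0 P2 N2 p2 n2 ε)
    (b3 : PNb X H0 P3 N3 p3 n3 ε) {ω : ℝ} (hω : (1 + ε / 2) * (2 * ε) ≤ 3 * ω) :
    (1 / 2) * ∑ a ∈ H0, ∑ b ∈ H0,
      h a b * (((1 + P1 a) * (1 + P1 b) - 1) * ((1 + P2 a) * (1 + P2 b) - 1)
        + ((1 + P1 a) * (1 + P1 b) - 1) * ((1 + P3 a) * (1 + P3 b) - 1)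
        + ((1 + P2 a) * (1 + P2 b) - 1) * ((1 + P3 a) * (1 + P3 b) - 1)
        + ((1 + P1 a) * (1 + P1 b) - 1) * ((1 + P2 a) * (1 + P2 b) - 1)
          * ((1 + P3 a) * (1 + P3 b) - 1)
        + ((N1 a + N1 b) * (N2 a + N2 b) + (N1 a + N1 b) * (N3 a + N3 b)
          + (N2 a + N2 b) * (N3 a + N3 b)))
      ≤ μ * ((1 + ω) * (1 + ε / 2) ^ 2 * (Bq X H0 p1 p2 + Bq X H0 p1 p3 + Bq X H0 p2 p3)
        + (Bq X H0 n1 n2 + Bq X H0 n1 n3 + Bq X H0 n2 n3)) := by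
  have hω0 : 0 ≤ ω := by have := b1.e0; nlinarith
  refine (half_sum_le (X := X) (μ := μ) hh0 hle
    (Ψ := fun a b => (1 + ω) * (1 + ε / 2) ^ 2 * (((p1 a + p1 b) * (p2 a + p2 b)
        + (p1 a + p1 b) * (p3 a + p3 b)) + (p2 a + p2 b) * (p3 a + p3 b))
      + (((n1 a + n1 b) * (n2 a + n2 b) + (n1 a + n1 b) * (n3 a + n3 b))
        + (n2 a + n2 b) * (n3 a + n3 b))) (fun a ha b hb hab => ?_)
    (fun a ha b hb hab => ?_)).trans (le_of_eq ?_)
  · have q1 : 0 ≤ p1 a + p1 b := by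
      obtain ⟨u0, u1, -⟩ := b1.pair hs ha hb hab
      exact nonneg_of_mul_nonneg_right (u0.trans u1) (by have := b1.e0; linarith)
    have q2 : 0 ≤ p2 a + p2 b := by
      obtain ⟨u0, u1, -⟩ := b2.pair hs ha hb hab
      exact nonneg_of_mul_nonneg_right (u0.trans u1) (by have := b1.e0; linarith)
    have q3 : 0 ≤ p3 a + p3 b := by
      obtain ⟨u0, u1, -⟩ := b3.pair hs ha hb hab
      exact nonneg_of_mul_nonneg_right (u0.trans u1) (by have := b1.e0; linarith)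
    have r1 := add_nonneg ((b1.N0 a ha).trans (b1.Nn a ha)) ((b1.N0 b hb).trans (b1.Nn b hb))
    have r2 := add_nonneg ((b2.N0 a ha).trans (b2.Nn a ha)) ((b2.N0 b hb).trans (b2.Nn b hb))
    have r3 := add_nonneg ((b3.N0 a ha).trans (b3.Nn a ha)) ((b3.N0 b hb).trans (b3.Nn b hb))
    have := b1.e0
    positivity
  · obtain ⟨u0, u1, u2⟩ := b1.pair hs ha hb hab
    obtain ⟨v0, v1, v2⟩ := b2.pair hs ha hb hab
    obtain ⟨w0, w1, w2⟩ := b3.pair hs ha hb hab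
    have r1 := add_nonneg ((b1.N0 a ha).trans (b1.Nn a ha)) ((b1.N0 b hb).trans (b1.Nn b hb))
    have r2 := add_nonneg ((b2.N0 a ha).trans (b2.Nn a ha)) ((b2.N0 b hb).trans (b2.Nn b hb))
    have s1 := add_le_add (b1.Nn a ha) (b1.Nn b hb)
    have s2 := add_le_add (b2.Nn a ha) (b2.Nn b hb)
    have s3 := add_le_add (b3.Nn a ha) (b3.Nn b hb)
    have t2 := add_nonneg (b2.N0 a ha) (b2.N0 b hb)
    have t3 := add_nonneg (b3.N0 a ha) (b3.N0 b hb)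
    have m12 := mul_le_mul s1 s2 t2 r1
    have m13 := mul_le_mul s1 s3 t3 r1
    have m23 := mul_le_mul s2 s3 t3 r2
    generalize (1 + P1 a) * (1 + P1 b) - 1 = U at u0 u1 u2 ⊢
    generalize (1 + P2 a) * (1 + P2 b) - 1 = V' at v0 v1 v2 ⊢
    generalize (1 + P3 a) * (1 + P3 b) - 1 = W at w0 w1 w2 ⊢
    have k0 : U * V' * W ≤ ω * (U * V' + U * W + V' * W) := by
      have j1 := mul_le_mul_of_nonneg_left (w2.trans hω) (mul_nonneg u0 v0)
      have j2 := mul_le_mul_of_nonneg_left (v2.trans hω) (mul_nonneg u0 w0)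
      have j3 := mul_le_mul_of_nonneg_left (u2.trans hω) (mul_nonneg v0 w0)
      have e1 : U * V' * W * 3 = U * V' * W + U * W * V' + V' * W * U := by ring
      have e2 : U * V' * (3 * ω) + U * W * (3 * ω) + V' * W * (3 * ω)
        = ω * (U * V' + U * W + V' * W) * 3 := by ring
      linarith
    have k1 := mul_le_mul u1 v1 v0 (u0.trans u1)
    have k2 := mul_le_mul u1 w1 w0 (u0.trans u1)
    have k3 := mul_le_mul v1 w1 w0 (v0.trans v1)
    have k4 : U * V' + U * W + V' * W ≤ (1 + ε / 2) ^ 2 * (((p1 a + p1 b) * (p2 a + p2 b)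
        + (p1 a + p1 b) * (p3 a + p3 b)) + (p2 a + p2 b) * (p3 a + p3 b)) :=
      (add_le_add (add_le_add k1 k2) k3).trans (le_of_eq (by ring))
    have k5 := mul_le_mul_of_nonneg_left k4 (by linarith : 0 ≤ 1 + ω)
    have k6 : (1 + ω) * ((1 + ε / 2) ^ 2 * (((p1 a + p1 b) * (p2 a + p2 b)
        + (p1 a + p1 b) * (p3 a + p3 b)) + (p2 a + p2 b) * (p3 a + p3 b)))
        = (1 + ω) * (1 + ε / 2) ^ 2 * (((p1 a + p1 b) * (p2 a + p2 b)
        + (p1 a + p1 b) * (p3 a + p3 b)) + (p2 a + p2 b) * (p3 a + p3 b)) := by ring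
    have k7 : (1 + ω) * (U * V' + U * W + V' * W)
        = U * V' + U * W + V' * W + ω * (U * V' + U * W + V' * W) := by ring
    rw [k6, k7] at k5
    linarith
  · rw [HS_add, HS_smul, HS_add, HS_add, HS_add, HS_add, HS_Bq hs, HS_Bq hs, HS_Bq hs, HS_Bq hs,
      HS_Bq hs, HS_Bq hs]

/-- upper exponent for four targets -/
theorem rate4_up (hs : ∀ a b, X a b = X b a) (hh0 : ∀ a b, 0 ≤ h a b)
    (hle : ∀ a b, h a b ≤ μ * X a b) (b1 : PNb X H0 P1 N1 p1 n1 ε) (b2 : PNb X H0 P2 N2 p2 n2 ε)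
    (b3 : PNb X H0 P3 N3 p3 n3 ε) (b4 : PNb X H0 P4 N4 p4 n4 ε) {π ω : ℝ}
    (hπ : (1 + ε / 2) * (2 * ε) ≤ π) (hω : 2 * π / 3 + π ^ 2 / 6 ≤ ω) :
    (1 / 2) * ∑ a ∈ H0, ∑ b ∈ H0, h a b *
        gu4 ((1 + P1 a) * (1 + P1 b) - 1) ((1 + P2 a) * (1 + P2 b) - 1)
          ((1 + P3 a) * (1 + P3 b) - 1) ((1 + P4 a) * (1 + P4 b) - 1)
          (N1 a + N1 b) (N2 a + N2 b) (N3 a + N3 b) (N4 a + N4 b)
      ≤ μ * ((1 + ω) * (1 + ε / 2) ^ 2 * (Bq X H0 p1 p2 + Bq X H0 p1 p3 + Bq X H0 p1 p4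
          + Bq X H0 p2 p3 + Bq X H0 p2 p4 + Bq X H0 p3 p4)
        + (Bq X H0 n1 n2 + Bq X H0 n1 n3 + Bq X H0 n1 n4 + Bq X H0 n2 n3 + Bq X H0 n2 n4
          + Bq X H0 n3 n4)) := by
  have he := b1.e0
  have hπ0 : 0 ≤ π := by nlinarith
  have hω0 : 0 ≤ ω := by nlinarith [sq_nonneg π]
  refine (half_sum_le (X := X) (μ := μ) hh0 hle
    (Ψ := fun a b => (1 + ω) * (1 + ε / 2) ^ 2 * ((p1 a + p1 b) * (p2 a + p2 b)
        + (p1 a + p1 b) * (p3 a + p3 b) + (p1 a + p1 b) * (p4 a + p4 b)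
        + (p2 a + p2 b) * (p3 a + p3 b) + (p2 a + p2 b) * (p4 a + p4 b)
        + (p3 a + p3 b) * (p4 a + p4 b))
      + ((n1 a + n1 b) * (n2 a + n2 b) + (n1 a + n1 b) * (n3 a + n3 b)
        + (n1 a + n1 b) * (n4 a + n4 b) + (n2 a + n2 b) * (n3 a + n3 b)
        + (n2 a + n2 b) * (n4 a + n4 b) + (n3 a + n3 b) * (n4 a + n4 b)))
    (fun a ha b hb hab => ?_)
    (fun a ha b hb hab => ?_)).trans (le_of_eq ?_)
  · have q1 : 0 ≤ p1 a + p1 b := by
      obtain ⟨u0, u1, -⟩ := b1.pair hs ha hb hab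
      exact nonneg_of_mul_nonneg_right (u0.trans u1) (by linarith)
    have q2 : 0 ≤ p2 a + p2 b := by
      obtain ⟨u0, u1, -⟩ := b2.pair hs ha hb hab
      exact nonneg_of_mul_nonneg_right (u0.trans u1) (by linarith)
    have q3 : 0 ≤ p3 a + p3 b := by
      obtain ⟨u0, u1, -⟩ := b3.pair hs ha hb hab
      exact nonneg_of_mul_nonneg_right (u0.trans u1) (by linarith)
    have q4 : 0 ≤ p4 a + p4 b := by
      obtain ⟨u0, u1, -⟩ := b4.pair hs ha hb hab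
      exact nonneg_of_mul_nonneg_right (u0.trans u1) (by linarith)
    have r1 := add_nonneg ((b1.N0 a ha).trans (b1.Nn a ha)) ((b1.N0 b hb).trans (b1.Nn b hb))
    have r2 := add_nonneg ((b2.N0 a ha).trans (b2.Nn a ha)) ((b2.N0 b hb).trans (b2.Nn b hb))
    have r3 := add_nonneg ((b3.N0 a ha).trans (b3.Nn a ha)) ((b3.N0 b hb).trans (b3.Nn b hb))
    have r4 := add_nonneg ((b4.N0 a ha).trans (b4.Nn a ha)) ((b4.N0 b hb).trans (b4.Nn b hb))
    positivity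
  · obtain ⟨u0, u1, u2⟩ := b1.pair hs ha hb hab
    obtain ⟨v0, v1, v2⟩ := b2.pair hs ha hb hab
    obtain ⟨w0, w1, w2⟩ := b3.pair hs ha hb hab
    obtain ⟨z0, z1, z2⟩ := b4.pair hs ha hb hab
    have r1 := add_nonneg ((b1.N0 a ha).trans (b1.Nn a ha)) ((b1.N0 b hb).trans (b1.Nn b hb))
    have r2 := add_nonneg ((b2.N0 a ha).trans (b2.Nn a ha)) ((b2.N0 b hb).trans (b2.Nn b hb))
    have r3 := add_nonneg ((b3.N0 a ha).trans (b3.Nn a ha)) ((b3.N0 b hb).trans (b3.Nn b hb))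
    have s1 := add_le_add (b1.Nn a ha) (b1.Nn b hb)
    have s2 := add_le_add (b2.Nn a ha) (b2.Nn b hb)
    have s3 := add_le_add (b3.Nn a ha) (b3.Nn b hb)
    have s4 := add_le_add (b4.Nn a ha) (b4.Nn b hb)
    have t2 := add_nonneg (b2.N0 a ha) (b2.N0 b hb)
    have t3 := add_nonneg (b3.N0 a ha) (b3.N0 b hb)
    have t4 := add_nonneg (b4.N0 a ha) (b4.N0 b hb)
    have m12 := mul_le_mul s1 s2 t2 r1
    have m13 := mul_le_mul s1 s3 t3 r1
    have m14 := mul_le_mul s1 s4 t4 r1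
    have m23 := mul_le_mul s2 s3 t3 r2
    have m24 := mul_le_mul s2 s4 t4 r2
    have m34 := mul_le_mul s3 s4 t4 r3
    unfold gu4
    generalize (1 + P1 a) * (1 + P1 b) - 1 = U at u0 u1 u2 ⊢
    generalize (1 + P2 a) * (1 + P2 b) - 1 = V' at v0 v1 v2 ⊢
    generalize (1 + P3 a) * (1 + P3 b) - 1 = W at w0 w1 w2 ⊢
    generalize (1 + P4 a) * (1 + P4 b) - 1 = Z at z0 z1 z2 ⊢
    have uπ := u2.trans hπ
    have vπ := v2.trans hπ
    have wπ := w2.trans hπ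
    have zπ := z2.trans hπ
    -- triple products
    have tr : ∀ A B C : ℝ, 0 ≤ A → 0 ≤ B → 0 ≤ C → A ≤ π → B ≤ π → C ≤ π →
        A * B * C ≤ π / 3 * (A * B + A * C + B * C) := by
      intro A B C hA hB hC hA' hB' hC'
      have j1 := mul_le_mul_of_nonneg_left hC' (mul_nonneg hA hB)
      have j2 := mul_le_mul_of_nonneg_left hB' (mul_nonneg hA hC)
      have j3 := mul_le_mul_of_nonneg_left hA' (mul_nonneg hB hC)
      have e1 : A * B * C * 3 = A * B * C + A * C * B + B * C * A := by ring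
      have e2 : π / 3 * (A * B + A * C + B * C) * 3 = A * B * π + A * C * π + B * C * π := by ring
      linarith
    have e1 := tr U V' W u0 v0 w0 uπ vπ wπ
    have e2 := tr U V' Z u0 v0 z0 uπ vπ zπ
    have e3 := tr U W Z u0 w0 z0 uπ wπ zπ
    have e4 := tr V' W Z v0 w0 z0 vπ wπ zπ
    -- quadruple product
    have qd : ∀ A B C D : ℝ, 0 ≤ A → 0 ≤ B → 0 ≤ C → 0 ≤ D → C ≤ π → D ≤ π →
        A * B * C * D ≤ π ^ 2 * (A * B) := by
      intro A B C D hA hB hC hD hC' hD'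
      have j1 : C * D ≤ π * π := mul_le_mul hC' hD' hD hπ0
      have := mul_le_mul_of_nonneg_left j1 (mul_nonneg hA hB)
      calc A * B * C * D = A * B * (C * D) := by ring
        _ ≤ A * B * (π * π) := this
        _ = π ^ 2 * (A * B) := by ring
    have f1 := qd U V' W Z u0 v0 w0 z0 wπ zπ
    have f2 := qd U W V' Z u0 w0 v0 z0 vπ zπ
    have f3 := qd U Z V' W u0 z0 v0 w0 vπ wπ
    have f4 := qd V' W U Z v0 w0 u0 z0 uπ zπ
    have f5 := qd V' Z U W v0 z0 u0 w0 uπ wπ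
    have f6 := qd W Z U V' w0 z0 u0 v0 uπ vπ
    have k1 := mul_le_mul u1 v1 v0 (u0.trans u1)
    have k2 := mul_le_mul u1 w1 w0 (u0.trans u1)
    have k3 := mul_le_mul u1 z1 z0 (u0.trans u1)
    have k4 := mul_le_mul v1 w1 w0 (v0.trans v1)
    have k5 := mul_le_mul v1 z1 z0 (v0.trans v1)
    have k6 := mul_le_mul w1 z1 z0 (w0.trans w1)
    set E := U * V' + U * W + U * Z + V' * W + V' * Z + W * Z with hE
    have hE0 : 0 ≤ E := by positivity
    have hEle : E ≤ (1 + ε / 2) ^ 2 * ((p1 a + p1 b) * (p2 a + p2 b)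
        + (p1 a + p1 b) * (p3 a + p3 b) + (p1 a + p1 b) * (p4 a + p4 b)
        + (p2 a + p2 b) * (p3 a + p3 b) + (p2 a + p2 b) * (p4 a + p4 b)
        + (p3 a + p3 b) * (p4 a + p4 b)) := by
      rw [hE]
      refine (add_le_add (add_le_add (add_le_add (add_le_add (add_le_add k1 k2) k3) k4) k5) k6).trans
        (le_of_eq ?_)
      ring
    have hexp : (1 + U) * (1 + V') * (1 + W) * (1 + Z) - 1 - U - V' - W - Z
        = E + (U * V' * W + U * V' * Z + U * W * Z + V' * W * Z) + U * V' * W * Z := by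
      rw [hE]; ring
    have h3 : U * V' * W + U * V' * Z + U * W * Z + V' * W * Z ≤ 2 * π / 3 * E := by
      rw [hE]; linarith
    have h4 : U * V' * W * Z ≤ π ^ 2 / 6 * E := by
      rw [hE]
      have g2 : U * W * V' * Z = U * V' * W * Z := by ring
      have g3 : U * Z * V' * W = U * V' * W * Z := by ring
      have g4 : V' * W * U * Z = U * V' * W * Z := by ring
      have g5 : V' * Z * U * W = U * V' * W * Z := by ring
      have g6 : W * Z * U * V' = U * V' * W * Z := by ring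
      rw [g2] at f2
      rw [g3] at f3
      rw [g4] at f4
      rw [g5] at f5
      rw [g6] at f6
      linarith
    have h5 : (1 + U) * (1 + V') * (1 + W) * (1 + Z) - 1 - U - V' - W - Z ≤ (1 + ω) * E := by
      rw [hexp]
      have := mul_le_mul_of_nonneg_right hω hE0
      linarith
    have h6 := mul_le_mul_of_nonneg_left hEle (by linarith : 0 ≤ 1 + ω)
    have h7 : (1 + ω) * ((1 + ε / 2) ^ 2 * ((p1 a + p1 b) * (p2 a + p2 b)
        + (p1 a + p1 b) * (p3 a + p3 b) + (p1 a + p1 b) * (p4 a + p4 b)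
        + (p2 a + p2 b) * (p3 a + p3 b) + (p2 a + p2 b) * (p4 a + p4 b)
        + (p3 a + p3 b) * (p4 a + p4 b))) = (1 + ω) * (1 + ε / 2) ^ 2 *
        ((p1 a + p1 b) * (p2 a + p2 b)
        + (p1 a + p1 b) * (p3 a + p3 b) + (p1 a + p1 b) * (p4 a + p4 b)
        + (p2 a + p2 b) * (p3 a + p3 b) + (p2 a + p2 b) * (p4 a + p4 b)
        + (p3 a + p3 b) * (p4 a + p4 b)) := by ring
    rw [h7] at h6
    linarith
  · rw [HS_add, HS_smul]
    simp only [HS_add, HS_Bq hs]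

end

end Pool.Agent.RCG
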