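import Pool.Agent.RCG.GlueF
import Pool.Agent.RCG.Rate

/-! Explicit closures for a general killing rate (MP_73ccd0_lc, general graphs). -/

namespace Pool.Agent.RCG

open Set Finset Matrix Pool.Agent.RCRSHalf

set_option linter.unusedSectionVars false

variable {V : Type*} [Fintype V] [DecidableEq V]
variable {h : ℝ → V → V → ℝ} {H : V → V → ℝ → ℝ} {X : V → V → ℝ}

/-- closure data from exponential form, general killing -/
theorem CloK.mk_exp {k : ℝ → V → ℝ} (k0 : ∀ t a, 0 ≤ k t a) {K : V → ℝ → ℝ}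
    (hKd : ∀ a r, HasDerivAt (K a) (k r a) r)
    {H0 : Finset V} {t : ℝ} {Y N Y' N' : V → ℝ → ℝ}
    (hY0 : ∀ a ∈ H0, ∀ r ∈ Icc 0 t, 0 ≤ Y a r)
    (hN0 : ∀ a ∈ H0, ∀ r ∈ Icc 0 t, 0 ≤ N a r) (hN1 : ∀ a ∈ H0, ∀ r ∈ Icc 0 t, N a r ≤ 1)
    (hYd : ∀ a ∈ H0, ∀ r ∈ Icc 0 t, HasDerivAt (Y a) (Y' a r) r)
    (hNd : ∀ a ∈ H0, ∀ r ∈ Icc 0 t, HasDerivAt (N a) (N' a r) r)
    (hY : ∀ a ∈ H0, ∀ r ∈ Icc 0 t, ∑ b ∈ H0, h r a b * N b r ≤ -Y' a r)
    (hN : ∀ a ∈ H0, ∀ r ∈ Icc 0 t,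
      ∑ b ∈ H0, h r a b * (Real.exp (K b t - K b r + Y b r) - 1) ≤ -N' a r) :
    CloK h k H0 t (fun a r => Real.exp (K a t - K a r + Y a r) - 1) N := by
  have hKm : ∀ a, Monotone (K a) := fun a =>
    monotone_of_deriv_nonneg (fun x => (hKd a x).differentiableAt)
      (fun x => by rw [(hKd a x).deriv]; exact k0 x a)
  refine ⟨fun a ha r hr => ?_, hN0, hN1, fun a ha r hr => ?_, fun a ha r hr => ⟨_, hNd a ha r hr,
    hN a ha r hr⟩⟩
  · have h1 := hKm a hr.2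
    have := Real.one_le_exp (add_nonneg (sub_nonneg.2 h1) (hY0 a ha r hr))
    linarith
  · have d1 := ((((hKd a r).const_sub (K a t)).add (hYd a ha r hr)).exp).sub_const 1
    refine ⟨_, d1, ?_⟩
    have e0 : 0 ≤ Real.exp (K a t - K a r + Y a r) := (Real.exp_pos _).le
    have := mul_le_mul_of_nonneg_left (hY a ha r hr) e0
    show (1 + (Real.exp (K a t - K a r + Y a r) - 1)) * (k r a + ∑ b ∈ H0, h r a b * N b r)
      ≤ -(Real.exp (K a t - K a r + Y a r) * (-k r a + Y' a r))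
    nlinarith

/-- Closure data in the uniform clock, general killing. -/
theorem CloK.of_clock {k : ℝ → V → ℝ} (k0 : ∀ t a, 0 ≤ k t a) {K : V → ℝ → ℝ}
    (hKd : ∀ a r, HasDerivAt (K a) (k r a) r) {x : V → V → ℝ} {M μ : ℝ → ℝ} {T m1 : ℝ}
    {H0 : Finset V}
    (hM : ∀ r ∈ Icc 0 T, HasDerivAt M (μ r) r) (hμ : ∀ r ∈ Icc 0 T, 0 ≤ μ r)
    (hm : ∀ r ∈ Icc 0 T, M T - M r ∈ Icc 0 m1)
    (hx0 : ∀ a b, 0 ≤ x a b)
    (hle : ∀ r ∈ Icc 0 T, ∀ a b, h r a b ≤ μ r * x a b)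
    {y : V → ℝ} (hKy : ∀ b ∈ H0, ∀ r ∈ Icc 0 T, K b T - K b r ≤ (M T - M r) * y b)
    {N N' Y Y' : V → ℝ → ℝ}
    (hN0 : ∀ a ∈ H0, ∀ m ∈ Icc 0 m1, 0 ≤ N a m) (hN1 : ∀ a ∈ H0, ∀ m ∈ Icc 0 m1, N a m ≤ 1)
    (hY0 : ∀ a ∈ H0, ∀ m ∈ Icc 0 m1, 0 ≤ Y a m)
    (hNd : ∀ a ∈ H0, ∀ m ∈ Icc 0 m1, HasDerivAt (N a) (N' a m) m)
    (hYd : ∀ a ∈ H0, ∀ m ∈ Icc 0 m1, HasDerivAt (Y a) (Y' a m) m)
    (hN : ∀ a ∈ H0, ∀ m ∈ Icc 0 m1,
      ∑ b ∈ H0, x a b * (Real.exp (m * y b + Y b m) - 1) ≤ N' a m)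
    (hY : ∀ a ∈ H0, ∀ m ∈ Icc 0 m1, ∑ b ∈ H0, x a b * N b m ≤ Y' a m) :
    CloK h k H0 T (fun a r => Real.exp (K a T - K a r + Y a (M T - M r)) - 1)
      (fun a r => N a (M T - M r)) := by
  have hKm : ∀ a, Monotone (K a) := fun a =>
    monotone_of_deriv_nonneg (fun x => (hKd a x).differentiableAt)
      (fun x => by rw [(hKd a x).deriv]; exact k0 x a)
  have hmd : ∀ r ∈ Icc 0 T, HasDerivAt (fun r => M T - M r) (-μ r) r := fun r hr =>
    (hM r hr).const_sub (M T)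
  refine CloK.mk_exp k0 hKd (Y := fun a r => Y a (M T - M r))
    (Y' := fun a r => Y' a (M T - M r) * -μ r)
    (N' := fun a r => N' a (M T - M r) * -μ r)
    (fun a ha r hr => hY0 a ha _ (hm r hr)) (fun a ha r hr => hN0 a ha _ (hm r hr))
    (fun a ha r hr => hN1 a ha _ (hm r hr))
    (fun a ha r hr => (hYd a ha _ (hm r hr)).comp r (hmd r hr))
    (fun a ha r hr => (hNd a ha _ (hm r hr)).comp r (hmd r hr)) (fun a ha r hr => ?_)
    (fun a ha r hr => ?_)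
  · have h1 := mul_le_mul_of_nonneg_left (hY a ha _ (hm r hr)) (hμ r hr)
    rw [mul_neg, neg_neg, mul_comm (Y' a _)]
    refine le_trans ?_ h1
    rw [Finset.mul_sum]
    refine Finset.sum_le_sum fun b hb => ?_
    have := mul_le_mul_of_nonneg_right (hle r hr a b) (hN0 b hb _ (hm r hr))
    linarith
  · have h1 := mul_le_mul_of_nonneg_left (hN a ha _ (hm r hr)) (hμ r hr)
    rw [mul_neg, neg_neg, mul_comm (N' a _)]
    refine le_trans ?_ h1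
    rw [Finset.mul_sum]
    refine Finset.sum_le_sum fun b hb => ?_
    have hK := hKy b hb r hr
    have hK0 : 0 ≤ K b T - K b r := by linarith [hKm b hr.2]
    have hYb := hY0 b hb _ (hm r hr)
    have e1 : Real.exp (K b T - K b r + Y b (M T - M r)) - 1
        ≤ Real.exp ((M T - M r) * y b + Y b (M T - M r)) - 1 := by
      have := Real.exp_le_exp.2 (add_le_add_left hK (Y b (M T - M r)))
      linarith
    have e2 : 0 ≤ Real.exp (K b T - K b r + Y b (M T - M r)) - 1 := by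
      have := Real.one_le_exp (add_nonneg hK0 hYb); linarith
    calc h r a b * (Real.exp (K b T - K b r + Y b (M T - M r)) - 1)
        ≤ (μ r * x a b) * (Real.exp (K b T - K b r + Y b (M T - M r)) - 1) :=
          mul_le_mul_of_nonneg_right (hle r hr a b) e2
      _ ≤ (μ r * x a b) * (Real.exp ((M T - M r) * y b + Y b (M T - M r)) - 1) :=
          mul_le_mul_of_nonneg_left e1 (mul_nonneg (hμ r hr) (hx0 a b))
      _ = _ := by ring

/-- the explicit closure, general killing -/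
theorem wcloK (hh : Haz h H) (hX : Wt X) {k : ℝ → V → ℝ} (k0 : ∀ t a, 0 ≤ k t a)
    {K : V → ℝ → ℝ} (hKd : ∀ a r, HasDerivAt (K a) (k r a) r) {M μ : ℝ → ℝ} {T m1 : ℝ}
    (hc : Clk h X M μ T m1) {c κ θ σ : ℝ} (hG : Good c κ θ σ m1) {H0 : Finset V}
    {y F : V → ℝ} (hKy : ∀ b ∈ H0, ∀ r ∈ Icc 0 T, K b T - K b r ≤ (M T - M r) * y b)
    (hF : ∀ a, 0 ≤ F a) (hσ : ∀ a, (rm X H0 *ᵥ F) a ≤ σ)
    (hFe : ∀ a ∈ H0, ∀ b ∈ H0, X a b ≠ 0 → ∀ m ∈ Icc 0 m1, Real.exp (m * y b) ≤ 1 + m * F b) :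
    CloK h k H0 T
      (fun a r => Real.exp (K a T - K a r + Yw c κ θ (rm X H0) F (M T - M r) a) - 1)
      (fun a r => Nw c κ θ (rm X H0) F (M T - M r) a) := by
  have hA := hX.rm_nonneg H0
  have hrow := hX.rm_row H0
  refine CloK.of_clock k0 hKd hc.Md hc.μ0 hc.m hX.nonneg hc.le hKy
    (N := fun a m => Nw c κ θ (rm X H0) F m a)
    (N' := fun a m => al c m * (rm X H0 *ᵥ F) a
      + κ * g3 c m * (rm X H0 *ᵥ (rm X H0 *ᵥ (rm X H0 *ᵥ Res θ (rm X H0 * rm X H0) F))) a)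
    (Y := fun a m => Yw c κ θ (rm X H0) F m a)
    (Y' := fun a m => (rm X H0 *ᵥ Nw c κ θ (rm X H0) F m) a)
    (fun a _ m hm => Nw_nonneg hG hA hF hm a)
    (fun a _ m hm => Nw_le_one hG hA hrow hF hσ hm a)
    (fun a _ m hm => Yw_nonneg hG hA hF hm a)
    (fun a _ m _ => Nw_deriv c κ θ _ F m a) (fun a _ m _ => Yw_deriv c κ θ _ F m a)
    (fun a ha m hm => ?_) (fun a ha m hm => ?_)
  · set A := rm X H0 with hAd
    have e : al c m * (A *ᵥ F) a + κ * g3 c m * (A *ᵥ (A *ᵥ (A *ᵥ Res θ (A * A) F))) a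
        = ∑ b ∈ H0, X a b * (al c m * F b + κ * g3 c m * (A *ᵥ (A *ᵥ Res θ (A * A) F)) b) := by
      rw [hAd, rm_mulVec H0 F ha, rm_mulVec H0 _ ha, ← hAd, Finset.mul_sum, Finset.mul_sum,
        ← Finset.sum_add_distrib]
      exact Finset.sum_congr rfl fun b _ => by ring
    rw [e]
    refine Finset.sum_le_sum fun b hb => ?_
    by_cases hab : X a b = 0
    · rw [hab, zero_mul, zero_mul]
    · exact mul_le_mul_of_nonneg_left
        (Pw_bound hG hA hrow hF hσ hm b (hFe a ha b hb hab m hm)) (hX.nonneg a b)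
  · rw [rm_mulVec H0 _ ha]

/-- the explicit closure for the group of two targets -/
theorem wclo2 (hh : Haz h H) (hX : Wt X) {M μ : ℝ → ℝ} {T m1 : ℝ}
    (hc : Clk h X M μ T m1) {c κ θ σ : ℝ} (hG : Good c κ θ σ m1) {p q : V} {H0 : Finset V}
    {F : V → ℝ} (hF : ∀ a, 0 ≤ F a) (hσ : ∀ a, (rm X H0 *ᵥ F) a ≤ σ)
    (hFe : ∀ a ∈ H0, ∀ b ∈ H0, X a b ≠ 0 → ∀ m ∈ Icc 0 m1,
      Real.exp (m * (X p b + X q b)) ≤ 1 + m * F b) :
    CloK h (fun r z => h r p z + h r q z) H0 T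
      (fun a r => Real.exp ((H p a T + H q a T) - (H p a r + H q a r)
        + Yw c κ θ (rm X H0) F (M T - M r) a) - 1)
      (fun a r => Nw c κ θ (rm X H0) F (M T - M r) a) :=
  wcloK hh hX (K := fun a r => H p a r + H q a r)
    (fun t a => add_nonneg (hh.nonneg _ _ _) (hh.nonneg _ _ _))
    (fun a r => (hh.Hd p a r).add (hh.Hd q a r)) hc hG (y := fun b => X p b + X q b)
    (fun b _ r hr => by
      have h1 := hh.clock hc.Md hc.le p b hr.1 hr.2 le_rfl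
      have h2 := hh.clock hc.Md hc.le q b hr.1 hr.2 le_rfl
      linarith) hF hσ hFe

end Pool.Agent.RCG
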