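import Pool.Agent.RCG.EStr
import Pool.Agent.RCG.WCloK

/-! The context of the explicit bounds: hazards dominated by `μ x` with clock `M`, `M t ≤ 23/20`;
explicit closures for one target and for a group of two targets (MP_73ccd0_lc, general graphs). -/

namespace Pool.Agent.RCG

open Set Finset Matrix Pool.Agent.RCRSHalf

set_option linter.unusedSectionVars false

variable {V : Type*} [Fintype V] [DecidableEq V]
variable {h : ℝ → V → V → ℝ} {H : V → V → ℝ → ℝ} {X : V → V → ℝ} {M μ : ℝ → ℝ} {t : ℝ}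

/-- the context -/
structure Cx (h : ℝ → V → V → ℝ) (H : V → V → ℝ → ℝ) (X : V → V → ℝ) (M μ : ℝ → ℝ) (t : ℝ) :
    Prop where
  hh : Haz h H
  hX : Wt X
  t0 : 0 ≤ t
  t1 : t ≤ 1
  Md : ∀ r ∈ Icc 0 t, HasDerivAt M (μ r) r
  μ0 : ∀ r ∈ Icc 0 t, 0 ≤ μ r
  M0 : M 0 = 0
  Mt : M t ≤ 23 / 20
  le : ∀ r ∈ Icc 0 t, ∀ a b, h r a b ≤ μ r * X a b

theorem Cx.mono (hC : Cx h H X M μ t) {T : ℝ} (hT : T ∈ Icc 0 t) : ∀ r ∈ Icc 0 T, M r ≤ M T := by
  intro r hr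
  have := nonneg_of_forward (U := fun s => M s - M r) (U' := μ) (a := r) (s := T)
    (fun s hs => (hC.Md s ⟨hr.1.trans hs.1, hs.2.trans hT.2⟩).sub_const _) (by simp)
    (fun s hs _ => hC.μ0 s ⟨hr.1.trans hs.1, hs.2.trans hT.2⟩) T ⟨hr.2, le_rfl⟩
  linarith

theorem Cx.Mnn (hC : Cx h H X M μ t) {r : ℝ} (hr : r ∈ Icc 0 t) : 0 ≤ M r := by
  have := hC.mono hr 0 ⟨le_rfl, hr.1⟩
  rwa [hC.M0] at this

theorem Cx.Mle (hC : Cx h H X M μ t) {r : ℝ} (hr : r ∈ Icc 0 t) : M r ≤ 23 / 20 :=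
  (hC.mono ⟨hC.t0, le_rfl⟩ r hr).trans hC.Mt

theorem Cx.ht (hC : Cx h H X M μ t) : t ∈ Icc (0 : ℝ) 1 := ⟨hC.t0, hC.t1⟩

theorem Cx.mem (hC : Cx h H X M μ t) {r : ℝ} (hr : r ∈ Icc 0 t) : r ∈ Icc (0 : ℝ) 1 :=
  ⟨hr.1, hr.2.trans hC.t1⟩

theorem Cx.clk (hC : Cx h H X M μ t) {T : ℝ} (hT : T ∈ Icc 0 t) : Clk h X M μ T (23 / 20) where
  Md r hr := hC.Md r ⟨hr.1, hr.2.trans hT.2⟩
  μ0 r hr := hC.μ0 r ⟨hr.1, hr.2.trans hT.2⟩
  le r hr := hC.le r ⟨hr.1, hr.2.trans hT.2⟩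
  m r hr := ⟨by linarith [hC.mono hT r hr], by
    linarith [hC.Mle hT, hC.Mnn (show r ∈ Icc 0 t from ⟨hr.1, hr.2.trans hT.2⟩)]⟩

/-- the context at a smaller time -/
theorem Cx.sub (hC : Cx h H X M μ t) {T : ℝ} (hT : T ∈ Icc 0 t) : Cx h H X M μ T where
  hh := hC.hh
  hX := hC.hX
  t0 := hT.1
  t1 := hT.2.trans hC.t1
  Md := (hC.clk hT).Md
  μ0 := (hC.clk hT).μ0
  M0 := hC.M0
  Mt := hC.Mle hT
  le := (hC.clk hT).le

theorem Cx.hz0 (hC : Cx h H X M μ t) {a b : V} (hab : X a b = 0) {r : ℝ} (hr : r ∈ Icc 0 t) :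
    h r a b = 0 :=
  le_antisymm (by simpa [hab] using hC.le r hr a b) (hC.hh.nonneg _ _ _)

theorem Cx.dH (hC : Cx h H X M μ t) (a b : V) {r s : ℝ} (hr : 0 ≤ r) (hrs : r ≤ s) (hs : s ≤ t) :
    H a b s - H a b r ≤ (M s - M r) * X a b :=
  hC.hh.clock hC.Md hC.le a b hr hrs hs

theorem Cx.Hle (hC : Cx h H X M μ t) (a b : V) {s : ℝ} (hs : s ∈ Icc 0 t) :
    H a b s ≤ M s * X a b := by
  have := hC.dH a b le_rfl hs.1 hs.2
  rwa [hC.hh.H0, hC.M0, sub_zero, sub_zero] at this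

/-! ### Rows -/

theorem Wt.pair_row (hX : Wt X) {p q : V} (hpq : p ≠ q) (b : V) : X p b + X q b ≤ 1 := by
  have h1 : ∑ c ∈ ({p, q} : Finset V), X b c ≤ 1 :=
    (Finset.sum_le_sum_of_subset_of_nonneg (Finset.subset_univ _)
      fun c _ _ => hX.nonneg b c).trans (hX.row b)
  rw [Finset.sum_pair hpq] at h1
  rwa [hX.symm p b, hX.symm q b]

theorem Wt.tri_row (hX : Wt X) {p q r : V} (hpq : p ≠ q) (hpr : p ≠ r) (hqr : q ≠ r) (b : V) :
    X p b + X q b + X r b ≤ 1 := by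
  have h1 : ∑ c ∈ ({p, q, r} : Finset V), X b c ≤ 1 :=
    (Finset.sum_le_sum_of_subset_of_nonneg (Finset.subset_univ _)
      fun c _ _ => hX.nonneg b c).trans (hX.row b)
  rw [Finset.sum_insert (by simp [hpq, hpr]), Finset.sum_pair hqr] at h1
  rw [hX.symm p b, hX.symm q b, hX.symm r b]
  linarith

theorem Wt.row_le (hX : Wt X) (a : V) (S : Finset V) : ∑ b ∈ S, X a b ≤ 1 :=
  (Finset.sum_le_sum_of_subset_of_nonneg (Finset.subset_univ _)
      fun c _ _ => hX.nonneg a c).trans (hX.row a)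

/-! ### Constants -/

/-- the vector `F` with `exp (m y) ≤ 1 + m F y` for `m ≤ 23/20`, `y ≤ 1` -/
noncomputable def Fc (y : ℝ) : ℝ := y * (1 + 877 / 1000 * y)

theorem Fc_nonneg {y : ℝ} (hy : 0 ≤ y) : 0 ≤ Fc y := by unfold Fc; positivity

theorem exp_Fc {m y : ℝ} (hm : m ∈ Icc (0 : ℝ) (23 / 20)) (hy0 : 0 ≤ y) (hy1 : y ≤ 1) :
    Real.exp (m * y) ≤ 1 + m * Fc y := by
  set z := m * y / 2 with hz
  have hx0 : 0 ≤ m * y := mul_nonneg hm.1 hy0
  have hx1 : m * y ≤ 23 / 20 := by nlinarith [hm.1, hm.2]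
  have hz0 : 0 ≤ z := by positivity
  have hz1 : z ≤ 23 / 40 := by rw [hz]; linarith
  have hb := Real.exp_bound' hz0 (show z ≤ 1 by linarith) (n := 6) (by norm_num)
  have hsum : ∑ m ∈ Finset.range 6, z ^ m / (m.factorial : ℝ)
      = 1 + z + z ^ 2 / 2 + z ^ 3 / 6 + z ^ 4 / 24 + z ^ 5 / 120 := by
    simp [Finset.sum_range_succ, Nat.factorial]
  have hf : ((6 : ℕ).factorial : ℝ) = 720 := by norm_num [Nat.factorial]
  rw [hsum, hf] at hb
  push_cast at hb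
  have hexp : Real.exp (m * y) = Real.exp z ^ 2 := by
    rw [← Real.exp_nat_mul]; congr 1; rw [hz]; push_cast; ring
  rw [hexp]
  set P := 1 + z + z ^ 2 / 2 + z ^ 3 / 6 + z ^ 4 / 24 + z ^ 5 / 120 + z ^ 6 * (7 / 4320) with hP
  have hb' : Real.exp z ≤ P := hb.trans (le_of_eq (by rw [hP]; ring))
  have h1 : Real.exp z ^ 2 ≤ P ^ 2 := pow_le_pow_left₀ (Real.exp_pos z).le hb' 2
  refine h1.trans ?_
  -- P^2 ≤ 1 + 2 z + (30504/10000) z^2
  have hp : ∀ n : ℕ, z ^ n ≤ (23 / 40) ^ n := fun n => pow_le_pow_left₀ hz0 hz1 n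
  have h2 : P ^ 2 = 1 + 2 * z + z ^ 2 * (2 + (4 / 3) * z ^ 1 + (2 / 3) * z ^ 2 + (4 / 15) * z ^ 3
      + (1 / 120 + 1 / 24 + 1 / 36 + 1 / 120 + 7 / 2160) * z ^ 4
      + (7 / 2160 + 1 / 120 + 1 / 72) * z ^ 5 + (7 / 4320 + 1 / 576 + 1 / 360) * z ^ 6
      + (7 / 12960 + 1 / 1440) * z ^ 7 + (7 / 51840 + 1 / 14400) * z ^ 8
      + (7 / 259200) * z ^ 9 + (49 / 18662400) * z ^ 10) := by
    rw [hP]; ring
  have h3 : 2 + (4 / 3) * z ^ 1 + (2 / 3) * z ^ 2 + (4 / 15) * z ^ 3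
      + (1 / 120 + 1 / 24 + 1 / 36 + 1 / 120 + 7 / 2160) * z ^ 4
      + (7 / 2160 + 1 / 120 + 1 / 72) * z ^ 5 + (7 / 4320 + 1 / 576 + 1 / 360) * z ^ 6
      + (7 / 12960 + 1 / 1440) * z ^ 7 + (7 / 51840 + 1 / 14400) * z ^ 8
      + (7 / 259200) * z ^ 9 + (49 / 18662400) * z ^ 10 ≤ 305 / 100 := by
    refine le_trans (add_le_add (add_le_add (add_le_add (add_le_add (add_le_add (add_le_add
      (add_le_add (add_le_add (add_le_add (add_le_add le_rfl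
      (mul_le_mul_of_nonneg_left (hp 1) (by norm_num)))
      (mul_le_mul_of_nonneg_left (hp 2) (by norm_num)))
      (mul_le_mul_of_nonneg_left (hp 3) (by norm_num)))
      (mul_le_mul_of_nonneg_left (hp 4) (by norm_num)))
      (mul_le_mul_of_nonneg_left (hp 5) (by norm_num)))
      (mul_le_mul_of_nonneg_left (hp 6) (by norm_num)))
      (mul_le_mul_of_nonneg_left (hp 7) (by norm_num)))
      (mul_le_mul_of_nonneg_left (hp 8) (by norm_num)))
      (mul_le_mul_of_nonneg_left (hp 9) (by norm_num)))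
      (mul_le_mul_of_nonneg_left (hp 10) (by norm_num))) ?_
    norm_num
  rw [h2]
  have h4 := mul_le_mul_of_nonneg_left h3 (pow_nonneg hz0 2)
  have h5 : z ^ 2 * (305 / 100) ≤ m * (877 / 1000 * y ^ 2) := by
    rw [hz]
    have : (m * y / 2) ^ 2 * (305 / 100) = m * y ^ 2 * (305 / 400 * m) := by ring
    rw [this]
    have h6 : 305 / 400 * m ≤ 877 / 1000 := by nlinarith [hm.2]
    have h7 := mul_le_mul_of_nonneg_left h6 (mul_nonneg hm.1 (pow_nonneg hy0 2))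
    linarith
  have h6 : 2 * z = m * y := by rw [hz]; ring
  unfold Fc
  nlinarith

theorem good_aux2 {c κ θ σ m1 Y : ℝ} (hc : 0 ≤ c) (hκ : 0 ≤ κ) (hθ : 0 ≤ θ) (hθ1 : θ < 1)
    (hσ : 0 ≤ σ) (hm1 : 0 ≤ m1) (hg5 : κ * m1 ^ 2 ≤ 20 * θ)
    (hY : σ * (1 / 6 + c * m1 ^ 3 / 30) + σ / (1 - θ) * (κ * (m1 ^ 2 / 120 + c * m1 ^ 5 / 1680)) ≤ Y)
    (hY1 : κ * Y ≤ c) (hY2 : 1 + (Y * m1 ^ 3) / 2 + (Y * m1 ^ 3) ^ 2 / 6
      + (Y * m1 ^ 3) ^ 3 * (5 / 96) ≤ κ) (hY3 : Y * m1 ^ 3 ≤ 1)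
    (hn : σ * (m1 ^ 2 / 2 + c * m1 ^ 5 / 5) + σ / (1 - θ) * (κ * (m1 ^ 4 / 24 + c * m1 ^ 7 / 210)) ≤ 1) :
    Good c κ θ σ m1 where
  c0 := hc
  κ0 := hκ
  θ0 := hθ
  θ1 := hθ1
  σ0 := hσ
  g5le m hm := by
    have h1 : κ * m ^ 2 ≤ 20 * θ :=
      (mul_le_mul_of_nonneg_left (pow_le_pow_left₀ hm.1 hm.2 2) hκ).trans hg5
    have hm3 : 0 ≤ m ^ 3 := pow_nonneg hm.1 3
    have h2 : 0 ≤ m ^ 3 * (1 / 120 + c * m ^ 3 / 1680) := by
      have := mul_nonneg hc hm3; positivity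
    have h3 := mul_le_mul_of_nonneg_right h1 h2
    have h4 : 0 ≤ θ * (c * m ^ 6) := mul_nonneg hθ (mul_nonneg hc (pow_nonneg hm.1 6))
    unfold g5 g3
    nlinarith
  ey m hm y hy0 hy := by
    have hsθ : 0 ≤ σ / (1 - θ) := div_nonneg hσ (by linarith)
    have hp : ∀ n : ℕ, m ^ n ≤ m1 ^ n := fun n => pow_le_pow_left₀ hm.1 hm.2 n
    have hY0 : 0 ≤ Y := by
      refine le_trans ?_ hY
      have : 0 ≤ σ / (1 - θ) * (κ * (m1 ^ 2 / 120 + c * m1 ^ 5 / 1680)) := by positivity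
      positivity
    have h1 : y ≤ Y * m ^ 3 := by
      refine hy.trans ?_
      have e1 : σ * g3 c m + σ / (1 - θ) * g5 c κ m
          = (σ * (1 / 6 + c * m ^ 3 / 30) + σ / (1 - θ) * (κ * (m ^ 2 / 120 + c * m ^ 5 / 1680)))
            * m ^ 3 := by
        unfold g3 g5; ring
      rw [e1]
      refine mul_le_mul_of_nonneg_right (le_trans ?_ hY) (pow_nonneg hm.1 3)
      have a1 : σ * (1 / 6 + c * m ^ 3 / 30) ≤ σ * (1 / 6 + c * m1 ^ 3 / 30) := by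
        refine mul_le_mul_of_nonneg_left ?_ hσ
        have := mul_le_mul_of_nonneg_left (hp 3) hc
        linarith
      have a2 : σ / (1 - θ) * (κ * (m ^ 2 / 120 + c * m ^ 5 / 1680))
          ≤ σ / (1 - θ) * (κ * (m1 ^ 2 / 120 + c * m1 ^ 5 / 1680)) := by
        refine mul_le_mul_of_nonneg_left (mul_le_mul_of_nonneg_left ?_ hκ) hsθ
        have := mul_le_mul_of_nonneg_left (hp 5) hc
        have := hp 2
        linarith
      linarith
    have hm3 : 0 ≤ m ^ 3 := pow_nonneg hm.1 3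
    have h2 : y ≤ Y * m1 ^ 3 := h1.trans (mul_le_mul_of_nonneg_left (hp 3) hY0)
    constructor
    · have hy1 : y ≤ 1 := h2.trans hY3
      have hb := Real.exp_bound' hy0 hy1 (n := 4) (by norm_num)
      have hsum : ∑ m ∈ Finset.range 4, y ^ m / (m.factorial : ℝ) = 1 + y + y ^ 2 / 2 + y ^ 3 / 6 := by
        simp [Finset.sum_range_succ, Nat.factorial]
      rw [hsum] at hb
      have hf : ((4 : ℕ).factorial : ℝ) = 24 := by norm_num [Nat.factorial]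
      rw [hf] at hb
      have h3 : Real.exp y ≤ 1 + y * (1 + y / 2 + y ^ 2 / 6 + y ^ 3 * (5 / 96)) := by
        refine hb.trans (le_of_eq ?_)
        push_cast
        ring
      refine h3.trans ?_
      have h4 : 1 + y / 2 + y ^ 2 / 6 + y ^ 3 * (5 / 96) ≤ κ := by
        refine le_trans ?_ hY2
        have b2 := pow_le_pow_left₀ hy0 h2 2
        have b3 := pow_le_pow_left₀ hy0 h2 3
        linarith
      have := mul_le_mul_of_nonneg_left h4 hy0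
      linarith
    · calc κ * y ≤ κ * (Y * m ^ 3) := mul_le_mul_of_nonneg_left h1 hκ
        _ = (κ * Y) * m ^ 3 := by ring
        _ ≤ c * m ^ 3 := mul_le_mul_of_nonneg_right hY1 hm3
  n1 m hm := by
    refine le_trans ?_ hn
    have hsθ : 0 ≤ σ / (1 - θ) := div_nonneg hσ (by linarith)
    have hp : ∀ n : ℕ, m ^ n ≤ m1 ^ n := fun n => pow_le_pow_left₀ hm.1 hm.2 n
    have a1 : σ * b2 c m ≤ σ * (m1 ^ 2 / 2 + c * m1 ^ 5 / 5) := by
      refine mul_le_mul_of_nonneg_left ?_ hσ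
      unfold b2
      have := mul_le_mul_of_nonneg_left (hp 5) hc
      have := hp 2
      linarith
    have a2 : σ / (1 - θ) * b4 c κ m ≤ σ / (1 - θ) * (κ * (m1 ^ 4 / 24 + c * m1 ^ 7 / 210)) := by
      refine mul_le_mul_of_nonneg_left ?_ hsθ
      unfold b4
      refine mul_le_mul_of_nonneg_left ?_ hκ
      have := mul_le_mul_of_nonneg_left (hp 7) hc
      have := hp 4
      linarith
    linarith

/-- constants for one target -/
theorem good1 : Good (151 / 1000) (1111 / 1000) (745 / 10000) (7193 / 10000) (23 / 20) :=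
  good_aux2 (Y := 1351 / 10000) (by norm_num) (by norm_num) (by norm_num) (by norm_num)
    (by norm_num) (by norm_num) (by norm_num) (by norm_num) (by norm_num) (by norm_num)
    (by norm_num) (by norm_num)

/-- constants for a group of two targets -/
theorem good2 : Good (241 / 1000) (1174 / 1000) (785 / 10000) (10566 / 10000) (23 / 20) :=
  good_aux2 (Y := 20425 / 100000) (by norm_num) (by norm_num) (by norm_num) (by norm_num)
    (by norm_num) (by norm_num) (by norm_num) (by norm_num) (by norm_num) (by norm_num)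
    (by norm_num) (by norm_num)

/-! ### Sup bounds -/

theorem mulVec_rm_eq (H0 : Finset V) (F : V → ℝ) {a : V} (ha : a ∈ H0) :
    (rm X H0 *ᵥ F) a = ∑ b ∈ H0, X a b * F b := rm_mulVec H0 F ha

theorem bi_bound {x y : ℝ} (hx : 0 ≤ x) (hy : 0 ≤ y) (hxy : x + y ≤ 1) :
    x * Fc y ≤ 1 / 4 * x + (1 / 4 + 877 / 4000) * y := by
  unfold Fc
  by_cases h1 : y * (1 + 877 / 1000 * y) ≤ 1 / 4
  · nlinarith
  · push Not at h1
    have h2 : x * (y * (1 + 877 / 1000 * y) - 1 / 4)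
        ≤ (1 - y) * (y * (1 + 877 / 1000 * y) - 1 / 4) :=
      mul_le_mul_of_nonneg_right (by linarith) (by linarith)
    nlinarith [mul_nonneg hy (sq_nonneg (1 / 2 - y)), sq_nonneg (1 / 2 - y)]

theorem bi_bound2 {x s : ℝ} (hx : 0 ≤ x) (hs : 0 ≤ s) (hxs : x + s ≤ 1) :
    x * Fc s ≤ (4 / 9 + 4 / 27 * (877 / 1000)) * x + (1 / 9 + 4 / 27 * (877 / 1000)) * s := by
  unfold Fc
  by_cases h1 : s * (1 + 877 / 1000 * s) ≤ 4 / 9 + 4 / 27 * (877 / 1000)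
  · nlinarith
  · push Not at h1
    have h2 : x * (s * (1 + 877 / 1000 * s) - (4 / 9 + 4 / 27 * (877 / 1000)))
        ≤ (1 - s) * (s * (1 + 877 / 1000 * s) - (4 / 9 + 4 / 27 * (877 / 1000))) :=
      mul_le_mul_of_nonneg_right (by linarith) (by linarith)
    nlinarith [mul_nonneg hs (sq_nonneg (s - 2 / 3)), sq_nonneg (s - 2 / 3)]

theorem sup1 (hX : Wt X) {w : V} {H0 : Finset V} (hw : w ∉ H0) (a : V) :
    (rm X H0 *ᵥ fun b => Fc (X w b)) a ≤ 7193 / 10000 := by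
  by_cases ha : a ∈ H0
  · rw [mulVec_rm_eq H0 _ ha]
    have haw : a ≠ w := fun e => hw (e ▸ ha)
    calc ∑ b ∈ H0, X a b * Fc (X w b)
        ≤ ∑ b ∈ H0, (1 / 4 * X a b + (1 / 4 + 877 / 4000) * X w b) :=
          Finset.sum_le_sum fun b _ => bi_bound (hX.nonneg a b) (hX.nonneg w b)
            (hX.pair_row haw b)
      _ = 1 / 4 * ∑ b ∈ H0, X a b + (1 / 4 + 877 / 4000) * ∑ b ∈ H0, X w b := by
          rw [Finset.sum_add_distrib, Finset.mul_sum, Finset.mul_sum]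
      _ ≤ _ := by have := hX.row_le a H0; have := hX.row_le w H0; linarith
  · rw [rm_mulVec_out H0 _ ha]; norm_num

theorem sup2 (hX : Wt X) {p q : V} (hpq : p ≠ q) {H0 : Finset V} (hp : p ∉ H0) (hq : q ∉ H0)
    (a : V) : (rm X H0 *ᵥ fun b => Fc (X p b + X q b)) a ≤ 10566 / 10000 := by
  by_cases ha : a ∈ H0
  · rw [mulVec_rm_eq H0 _ ha]
    have hap : a ≠ p := fun e => hp (e ▸ ha)
    have haq : a ≠ q := fun e => hq (e ▸ ha)
    calc ∑ b ∈ H0, X a b * Fc (X p b + X q b)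
        ≤ ∑ b ∈ H0, ((4 / 9 + 4 / 27 * (877 / 1000)) * X a b
            + (1 / 9 + 4 / 27 * (877 / 1000)) * (X p b + X q b)) :=
          Finset.sum_le_sum fun b _ => bi_bound2 (hX.nonneg a b)
            (add_nonneg (hX.nonneg p b) (hX.nonneg q b)) (by
              have := hX.tri_row hap haq hpq b; linarith)
      _ = (4 / 9 + 4 / 27 * (877 / 1000)) * ∑ b ∈ H0, X a b
          + (1 / 9 + 4 / 27 * (877 / 1000)) * (∑ b ∈ H0, X p b + ∑ b ∈ H0, X q b) := by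
          rw [Finset.sum_add_distrib, ← Finset.mul_sum, ← Finset.mul_sum, Finset.sum_add_distrib]
      _ ≤ _ := by
          have := hX.row_le a H0; have := hX.row_le p H0; have := hX.row_le q H0; linarith
  · rw [rm_mulVec_out H0 _ ha]; norm_num

/-! ### The closures -/

/-- lower influence, one target -/
noncomputable def Nt (X : V → V → ℝ) (H0 : Finset V) (w : V) (m : ℝ) (a : V) : ℝ :=
  Nw (151 / 1000) (1111 / 1000) (745 / 10000) (rm X H0) (fun b => Fc (X w b)) m a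

/-- exponent of the upper influence, one target -/
noncomputable def Yt (X : V → V → ℝ) (H0 : Finset V) (w : V) (m : ℝ) (a : V) : ℝ :=
  Yw (151 / 1000) (1111 / 1000) (745 / 10000) (rm X H0) (fun b => Fc (X w b)) m a

/-- lower influence, two targets -/
noncomputable def Nt2 (X : V → V → ℝ) (H0 : Finset V) (p q : V) (m : ℝ) (a : V) : ℝ :=
  Nw (241 / 1000) (1174 / 1000) (785 / 10000) (rm X H0) (fun b => Fc (X p b + X q b)) m a

/-- exponent of the upper influence, two targets -/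
noncomputable def Yt2 (X : V → V → ℝ) (H0 : Finset V) (p q : V) (m : ℝ) (a : V) : ℝ :=
  Yw (241 / 1000) (1174 / 1000) (785 / 10000) (rm X H0) (fun b => Fc (X p b + X q b)) m a

/-- upper influence, one target -/
noncomputable def Pt (H : V → V → ℝ → ℝ) (X : V → V → ℝ) (M : ℝ → ℝ) (H0 : Finset V) (w : V)
    (T : ℝ) (a : V) (r : ℝ) : ℝ :=
  Real.exp (H w a T - H w a r + Yt X H0 w (M T - M r) a) - 1

/-- upper influence, two targets -/
noncomputable def Pt2 (H : V → V → ℝ → ℝ) (X : V → V → ℝ) (M : ℝ → ℝ) (H0 : Finset V) (p q : V)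
    (T : ℝ) (a : V) (r : ℝ) : ℝ :=
  Real.exp ((H p a T + H q a T) - (H p a r + H q a r) + Yt2 X H0 p q (M T - M r) a) - 1

theorem Cx.clo (hC : Cx h H X M μ t) {T : ℝ} (hT : T ∈ Icc 0 t) {w : V} {H0 : Finset V}
    (hw : w ∉ H0) :
    Clo h w H0 T (Pt H X M H0 w T) (fun a r => Nt X H0 w (M T - M r) a) :=
  wclo hC.hh hC.hX hT.1 (hC.clk hT) good1 (fun b => Fc_nonneg (hC.hX.nonneg w b))
    (sup1 hC.hX hw) (fun _ _ b _ _ m hm => exp_Fc hm (hC.hX.nonneg w b) (hC.hX.le_one w b))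

theorem Cx.clo2 (hC : Cx h H X M μ t) {T : ℝ} (hT : T ∈ Icc 0 t) {p q : V} (hpq : p ≠ q)
    {H0 : Finset V} (hp : p ∉ H0) (hq : q ∉ H0) :
    CloK h (fun r z => h r p z + h r q z) H0 T (Pt2 H X M H0 p q T)
      (fun a r => Nt2 X H0 p q (M T - M r) a) :=
  wclo2 hC.hh hC.hX (hC.clk hT) good2
    (fun b => Fc_nonneg (add_nonneg (hC.hX.nonneg p b) (hC.hX.nonneg q b)))
    (sup2 hC.hX hpq hp hq)
    (fun _ _ b _ _ m hm => exp_Fc hm (add_nonneg (hC.hX.nonneg p b) (hC.hX.nonneg q b))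
      (hC.hX.pair_row hpq b))

/-- influences of a target, possibly on a smaller interval and a smaller set -/
theorem Cx.inf (hC : Cx h H X M μ t) {T : ℝ} (hT : T ∈ Icc 0 t) {w : V} {H0 : Finset V}
    (hw : w ∉ H0) {H1 : Finset V} (h1 : H1 ⊆ H0) {s : ℝ} (hs : s ≤ T) :
    Inf H1 s (RCG.tgt h w T) (Pt H X M H0 w T) (fun a r => Nt X H0 w (M T - M r) a) :=
  ((hC.clo hT hw).tgt hC.hh (hC.mem hT)).mono h1 hs

end Pool.Agent.RCG
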