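import Pool.Agent.RCG.CtE
import Pool.Agent.RCG.Cx

/-! Stage 1 of the certificate: rates, integrated rates, certified densities (MP_73ccd0_lc). -/

namespace Pool.Agent.RCG.Ct

open Finset Set Pool.Agent.RCRSHalf

set_option linter.unusedSectionVars false

section general

variable {V : Type*} [Fintype V] [DecidableEq V]
variable {x : V → V → ℝ} {P : V → Prop} [DecidablePred P] {N : Num} {B : V → V → ℝ}
variable {h : ℝ → V → V → ℝ} {H : V → V → ℝ → ℝ}

/-- the quadratic functional, zero on the diagonal -/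
noncomputable def Sd (x : V → V → ℝ) (P : V → Prop) [DecidablePred P] (u v : V) : ℝ :=
  if u = v then 0 else Sf x P u v

/-- the functional of a kernel, zero on the diagonal -/
noncomputable def Wd (x : V → V → ℝ) (P : V → Prop) [DecidablePred P] (B : V → V → ℝ)
    (u v : V) : ℝ :=
  if u = v then 0 else Wf x P B u v

theorem Sd_nonneg (hx : Wt x P N.d) (u v : V) : 0 ≤ Sd x P u v := by
  unfold Sd; split_ifs; exacts [le_rfl, Sf_nonneg hx u v]

theorem Wd_nonneg (hx : Wt x P N.d) (hB : Ker B N.β) (u v : V) : 0 ≤ Wd x P B u v := by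
  unfold Wd; split_ifs; exacts [le_rfl, Wf_nonneg hx hB u v]

theorem Sd_symm (u v : V) : Sd x P u v = Sd x P v u := by
  unfold Sd; by_cases h : u = v
  · simp [h]
  · rw [if_neg h, if_neg (Ne.symm h), Sf_symm]

theorem Wd_symm (hB : Ker B N.β) (u v : V) : Wd x P B u v = Wd x P B v u := by
  unfold Wd; by_cases h : u = v
  · simp [h]
  · rw [if_neg h, if_neg (Ne.symm h), Wf_symm hB]

theorem nb_ok (hN : N.Ok) (hx : Wt x P N.d) (hB : Ker B N.β) :
    Nb x P N.fn (Sd x P) (Wd x P B) N.ps N.d where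
  S0 := Sd_nonneg hx
  W0 := Wd_nonneg hx hB
  Ss := Sd_symm
  Ws := Wd_symm hB
  ps0 t _ := by show N.eb t * 0 ^ 2 = 0; ring
  psn y _ t ht := mul_nonneg (Num.eb_nonneg hN ht) (sq_nonneg y)
  nb a _ t ht := by
    show ∑ b, xr x P a b * (N.e1 t * Sd x P a b + N.e2 t * Wd x P B a b)
      ≤ ∑ b, N.eb t * xr x P a b ^ 2
    have h1 := mul_le_mul_of_nonneg_left (nb_S hx a) (hN.e1n t ht)
    have h2 := mul_le_mul_of_nonneg_left (nb_W hx hB hN.β0 a) (hN.e2n t ht)
    have h3 : ∑ b, xr x P a b * (N.e1 t * Sd x P a b + N.e2 t * Wd x P B a b)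
        ≤ N.e1 t * ∑ b, xr x P a b * Sf x P a b + N.e2 t * ∑ b, xr x P a b * Wf x P B a b := by
      rw [Finset.mul_sum, Finset.mul_sum, ← Finset.sum_add_distrib]
      refine Finset.sum_le_sum fun b _ => ?_
      have b1 : Sd x P a b ≤ Sf x P a b := by
        unfold Sd; split_ifs; exacts [Sf_nonneg hx a b, le_rfl]
      have b2 : Wd x P B a b ≤ Wf x P B a b := by
        unfold Wd; split_ifs; exacts [Wf_nonneg hx hB a b, le_rfl]
      have b3 := mul_le_mul_of_nonneg_left b1 (hN.e1n t ht)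
      have b4 := mul_le_mul_of_nonneg_left b2 (hN.e2n t ht)
      have b5 := mul_le_mul_of_nonneg_left (add_le_add b3 b4) (xr_nonneg hx a b)
      refine b5.trans (le_of_eq ?_)
      ring
    have h4 : ∑ b, N.eb t * xr x P a b ^ 2
        = N.e1 t * ∑ b, xr x P a b ^ 2 + N.e2 t * (N.β * ∑ b, xr x P a b ^ 2) := by
      rw [← Finset.mul_sum]; unfold Num.eb; ring
    rw [h4]
    exact h3.trans (add_le_add h1 h2)
  eta y hy t ht := by
    show N.eb t * y ^ 2 ≤ y * (y * N.a t)
    have := mul_le_mul_of_nonneg_right (hN.et t ht) (sq_nonneg y)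
    calc _ ≤ N.a t * y ^ 2 := this
      _ = _ := by ring

/-- rows without one neighbour -/
theorem row_minus (hx : Wt x P N.d) (u v : V) :
    ∑ b ∈ ({u, v} : Finset V)ᶜ, xr x P u b ≤ 1 :=
  (Finset.sum_le_sum_of_subset_of_nonneg (Finset.subset_univ _) fun b _ _ =>
    xr_nonneg hx u b).trans (xr_row hx u)

/-- own part with the constants of the certificate -/
theorem own_K (hN : N.Ok) (hx : Wt x P N.d) (hB : Ker B N.β) {u v : V} (huv : u ≠ v) :
    Sd x P u v + N.cW * Wd x P B u v ≤ (∑ b ∈ ({u, v} : Finset V)ᶜ,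
      (N.K * xr x P u b ^ 2 + N.K * xr x P v b ^ 2)) / 2 := by
  have := own_le hx hB hN.cW0 u v
  unfold Sd Wd
  rw [if_neg huv, if_neg huv]
  exact this

theorem F_le (hN : N.Ok) (hx : Wt x P N.d) (hB : Ker B N.β) (u v : V) :
    Sd x P u v + N.cW * Wd x P B u v ≤ N.K * N.d := by
  have hK := Num.K_pos hN
  by_cases huv : u = v
  · have e1 : Sd x P u v = 0 := if_pos huv
    have e2 : Wd x P B u v = 0 := if_pos huv
    rw [e1, e2]
    have := mul_nonneg hK.le hN.d0.le
    linarith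
  · refine (own_K hN hx hB huv).trans ?_
    have h1 : ∀ w, ∑ b ∈ ({u, v} : Finset V)ᶜ, N.K * xr x P w b ^ 2
        ≤ N.K * N.d * ∑ b ∈ ({u, v} : Finset V)ᶜ, xr x P w b := by
      intro w
      rw [Finset.mul_sum]
      refine Finset.sum_le_sum fun b _ => ?_
      have a1 := xmem hx w b
      have a2 : xr x P w b ^ 2 ≤ N.d * xr x P w b := by
        rw [pow_two]; exact mul_le_mul_of_nonneg_right a1.2 a1.1
      calc _ ≤ N.K * (N.d * xr x P w b) := mul_le_mul_of_nonneg_left a2 hK.le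
        _ = _ := by ring
    have h2 := row_minus (N := N) hx u v
    have h3 : ∑ b ∈ ({u, v} : Finset V)ᶜ, xr x P v b ≤ 1 := by
      have := row_minus (N := N) hx v u
      rwa [Finset.pair_comm v u] at this
    have h4 := mul_nonneg hK.le hN.d0.le
    have h5 := mul_le_mul_of_nonneg_left h2 h4
    have h6 := mul_le_mul_of_nonneg_left h3 h4
    rw [Finset.sum_add_distrib]
    have h7 := h1 u
    have h8 := h1 v
    linarith

/-- the densities -/
noncomputable def ph (N : Num) (x : V → V → ℝ) (P : V → Prop) [DecidablePred P] (B : V → V → ℝ) :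
    V → V → ℝ → ℝ := phi x P N.fn (Sd x P) (Wd x P B)

theorem ph_eq {u v : V} (hu : P u) (hv : P v) {t : ℝ} (ht : 0 ≤ t) :
    (1 + t) ^ 2 * ph N x P B u v t = 1 - x u v * ((1 + t) ^ 2 * N.a' t)
      + (1 + t) ^ 2 * N.e1' t * Sd x P u v + (1 + t) ^ 2 * N.e2' t * Wd x P B u v := by
  unfold ph phi
  rw [if_pos ⟨hu, hv⟩]
  show (1 + t) ^ 2 * (((1 + t) ^ 2)⁻¹ - x u v * N.a' t + N.e1' t * Sd x P u v
    + N.e2' t * Wd x P B u v) = _
  have hT : (1 + t) ^ 2 ≠ 0 := by positivity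
  have e : (1 + t) ^ 2 * ((1 + t) ^ 2)⁻¹ = 1 := mul_inv_cancel₀ hT
  calc _ = (1 + t) ^ 2 * ((1 + t) ^ 2)⁻¹ - x u v * ((1 + t) ^ 2 * N.a' t)
      + (1 + t) ^ 2 * N.e1' t * Sd x P u v + (1 + t) ^ 2 * N.e2' t * Wd x P B u v := by ring
    _ = _ := by rw [e]

theorem ph_pend {u v : V} (h : ¬(P u ∧ P v)) (t : ℝ) : ph N x P B u v t = ((1 + t) ^ 2)⁻¹ := by
  unfold ph phi; rw [if_neg h]

theorem ph_symm (hx : Wt x P N.d) (hB : Ker B N.β) (u v : V) (t : ℝ) :
    ph N x P B u v t = ph N x P B v u t := by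
  unfold ph phi
  rw [hx.symm u v, Sd_symm u v, Wd_symm hB u v]
  simp only [and_comm]

theorem xmem' (hN : N.Ok) (hx : Wt x P N.d) {u v : V} (hu : P u) (hv : P v) :
    x u v ∈ Icc (0 : ℝ) N.d := ⟨hx.nonneg u v, hx.le u v hu hv⟩

theorem ph_up (hN : N.Ok) (hx : Wt x P N.d) (hB : Ker B N.β) {u v : V} (hu : P u) (hv : P v)
    {t : ℝ} (ht : t ∈ Icc (0 : ℝ) 1) : (1 + t) ^ 2 * ph N x P B u v t ≤ 1 + N.r := by
  rw [ph_eq hu hv ht.1]
  have hy := xmem' hN hx hu hv
  have hS := Sd_nonneg hx u v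
  have hW := Wd_nonneg hx hB u v
  have h1 := mul_le_mul_of_nonneg_right (hN.U1 t ht) hS
  have h2 := mul_le_mul_of_nonneg_right (hN.U2 t ht) hW
  have h3 := mul_le_mul_of_nonneg_left (F_le hN hx hB u v) (hN.Un t ht)
  have h4 := hN.U3 t ht
  have h5 := hN.U4 t ht
  by_cases h6 : 0 ≤ (1 + t) ^ 2 * N.a' t
  · have := mul_nonneg hy.1 h6
    linarith
  · push Not at h6
    have : N.d * ((1 + t) ^ 2 * N.a' t) ≤ x u v * ((1 + t) ^ 2 * N.a' t) :=
      mul_le_mul_of_nonpos_right hy.2 h6.le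
    linarith

theorem ph_low (hN : N.Ok) (hx : Wt x P N.d) (hB : Ker B N.β) {u v : V} (hu : P u) (hv : P v)
    {t : ℝ} (ht : t ∈ Icc (0 : ℝ) 1) : 1 / 2 ≤ (1 + t) ^ 2 * ph N x P B u v t := by
  rw [ph_eq hu hv ht.1]
  have hy := xmem' hN hx hu hv
  have hS := Sd_nonneg hx u v
  have hW := Wd_nonneg hx hB u v
  have h1 := mul_le_mul_of_nonneg_right (hN.V1 t ht) hS
  have h2 := mul_le_mul_of_nonneg_right (hN.V2 t ht) hW
  have h3 := mul_le_mul_of_nonneg_left (F_le hN hx hB u v) (hN.Un' t ht)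
  have h4 := hN.V3 t ht
  have h5 := hN.V4 t ht
  by_cases h6 : 0 ≤ (1 + t) ^ 2 * N.a' t
  · have := mul_le_mul_of_nonneg_right hy.2 h6
    linarith
  · push Not at h6
    have : x u v * ((1 + t) ^ 2 * N.a' t) ≤ 0 := mul_nonpos_of_nonneg_of_nonpos hy.1 h6.le
    linarith

theorem ph_ge (hN : N.Ok) (hx : Wt x P N.d) (hB : Ker B N.β) (u v : V)
    {t : ℝ} (ht : t ∈ Icc (0 : ℝ) 1) : 1 / 8 ≤ ph N x P B u v t := by
  have hT : 0 < 1 + t := by linarith [ht.1]
  have hT2 : (1 + t) ^ 2 ≤ 4 := by nlinarith [ht.1, ht.2]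
  have hT0 : 0 < (1 + t) ^ 2 := by positivity
  by_cases huv : P u ∧ P v
  · have h1 := ph_low hN hx hB huv.1 huv.2 ht
    by_contra hc
    push Not at hc
    have : (1 + t) ^ 2 * ph N x P B u v t < (1 + t) ^ 2 * (1 / 8) := by
      exact mul_lt_mul_of_pos_left hc hT0
    linarith
  · rw [ph_pend huv]
    have h1 := inv_anti₀ hT0 hT2
    norm_num at h1 ⊢
    linarith

theorem ph_pos (hN : N.Ok) (hx : Wt x P N.d) (hB : Ker B N.β) (u v : V)
    {t : ℝ} (ht : t ∈ Icc (0 : ℝ) 1) : 0 < ph N x P B u v t := by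
  have := ph_ge hN hx hB u v ht
  linarith

theorem g_le (hN : N.Ok) {t : ℝ} (ht : t ∈ Icc (0 : ℝ) 1) : N.g t ≤ Real.log (1 + t) := by
  have key := nonneg_of_forward (a := 0) (s := 1) (U := fun s => Real.log (1 + s) - N.g s)
    (U' := fun s => (1 + s)⁻¹ - N.g' s)
    (fun r hr => by
      have h1 : HasDerivAt (fun s : ℝ => Real.log (1 + s)) ((1 + r)⁻¹) r := by
        have := ((hasDerivAt_id r).const_add 1).log (by simp only [id]; linarith [hr.1])
        simpa using this
      exact h1.sub (hN.dg r hr))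
    (by simp [hN.g_0])
    (fun r hr _ => by
      have h1 := hN.gi r hr
      have hT : 0 < 1 + r := by linarith [hr.1]
      have h2 : N.g' r ≤ (1 + r)⁻¹ := by
        rw [← one_div, le_div_iff₀ hT]
        linarith
      linarith) t ht
  linarith

/-- what is known on the interval `[0, t]` -/
structure Kn (N : Num) (x : V → V → ℝ) (P : V → Prop) (h : ℝ → V → V → ℝ)
    (H : V → V → ℝ → ℝ) (t : ℝ) : Prop where
  hh : Haz h H
  ht : t ∈ Icc (0 : ℝ) 1
  cap : ∀ s ∈ Icc 0 t, ∀ a b, h s a b ≤ (101 / 100 + 11 / 100 * s) * x a b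
  bge : ∀ s ∈ Icc 0 t, ∀ a, (1 + s)⁻¹ ≤ bb h ∅ a s
  bup : ∀ s ∈ Icc 0 t, ∀ a, P a → bb h ∅ a s ≤ 201 / 200 * (1 + s)⁻¹
  rate : ∀ s ∈ Icc 0 t, ∀ a b, dE h a b s ≤ (1 + N.r) * x a b / (1 + s)
  Eint : ∀ a b, ∀ s ∈ Icc 0 t, ∀ E : ℝ → ℝ, E 0 = 0 →
    (∀ r ∈ Icc 0 s, HasDerivAt E (dE h a b r) r) → E s ≤ (1 + N.rE) * (x a b * Real.log (1 + s))

/-- the estimate of the analytic part -/
def Est (N : Num) (x : V → V → ℝ) (P : V → Prop) [DecidablePred P] (B : V → V → ℝ) : Prop :=
  ∀ (h : ℝ → V → V → ℝ) (H : V → V → ℝ → ℝ) (t : ℝ), Kn N x P h H t →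
    ∀ u v, P u → P v → u ≠ v → ∀ E E' : ℝ → ℝ,
    E 0 = 0 → (∀ s ∈ Icc 0 t, HasDerivAt E (dE h u v s) s) →
    E' 0 = 0 → (∀ s ∈ Icc 0 t, HasDerivAt E' (dE h v u s) s) →
    bb h ∅ u t * bb h ∅ v t * Real.exp (E t + E' t) *
      (1 - (N.c0 t * x u v + N.c1 t * Sf x P u v + N.c2 t * Wf x P B u v))
      ≤ Real.exp (H u v t) * pp h u v t

variable {t : ℝ}

/-- lower bound for the free probability of any vertex -/
theorem bb_low_all (hN : N.Ok) (hx : Wt x P N.d) (hB : Ker B N.β) (hh : Haz h H)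
    (ht : t ∈ Icc (0 : ℝ) 1)
    (hfl : ∀ s ∈ Icc 0 t, ∀ a b, h s a b * pp h a b s = x a b * ph N x P B a b s)
    (a : V) {s : ℝ} (hs : s ∈ Icc 0 t) : (1 + s)⁻¹ ≤ bb h ∅ a s := by
  by_cases ha : P a
  · exact bb_ge hx (Num.fn_ok hN) (nb_ok hN hx hB) hh ht hfl ha hs
  · have hb := bb_eq_of_flux hh ht a (f := fun b s => x a b * ph N x P B a b s)
      (fun s hs b => hfl s hs a b)
      (α := fun s => (1 - ∑ b, x a b) + (∑ b, x a b) * (1 + s)⁻¹)
      (fun r hr => by
        have hr0 : (1 + r) ≠ 0 := by linarith [hr.1]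
        have h1 : HasDerivAt (fun s : ℝ => (1 + s)⁻¹) (-((1 + r) ^ 2)⁻¹) r := by
          have := (((hasDerivAt_id r).const_add 1).inv hr0)
          refine this.congr_deriv ?_
          simp only [id]; rw [neg_div, one_div]
        refine ((h1.const_mul _).const_add _).congr_deriv ?_
        have e1 : ∑ b, x a b * ph N x P B a b r = ∑ b, x a b * ((1 + r) ^ 2)⁻¹ :=
          Finset.sum_congr rfl fun b _ => by rw [ph_pend (fun hh => ha hh.1)]
        rw [e1, ← Finset.sum_mul]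
        ring)
      (by simp) s hs
    rw [hb]
    have h1 := hx.row a
    have h2 : (1 + s)⁻¹ ≤ 1 := inv_le_one_of_one_le₀ (by linarith [hs.1])
    nlinarith

theorem bb_up_real (hN : N.Ok) (hx : Wt x P N.d) (hB : Ker B N.β) (hh : Haz h H)
    (ht : t ∈ Icc (0 : ℝ) 1)
    (hfl : ∀ s ∈ Icc 0 t, ∀ a b, h s a b * pp h a b s = x a b * ph N x P B a b s)
    {a : V} (ha : P a) {s : ℝ} (hs : s ∈ Icc 0 t) : bb h ∅ a s ≤ 201 / 200 * (1 + s)⁻¹ := by
  have h1 := bb_up hx (Num.fn_ok hN) (nb_ok hN hx hB) hh ht hfl ha hs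
  have hs1 : s ∈ Icc (0 : ℝ) 1 := ⟨hs.1, hs.2.trans ht.2⟩
  have hT : 0 < 1 + s := by linarith [hs.1]
  have h2 : ∑ b, xr x P a b * N.fn.al (xr x P a b) s ≤ N.d * N.a s := by
    have e1 : ∀ b, xr x P a b * N.fn.al (xr x P a b) s ≤ xr x P a b * (N.d * N.a s) := fun b =>
      mul_le_mul_of_nonneg_left (mul_le_mul_of_nonneg_right (xr_le_d hx a b) (hN.an s hs1))
        (xr_nonneg hx a b)
    refine (Finset.sum_le_sum fun b _ => e1 b).trans ?_
    rw [← Finset.sum_mul]
    exact mul_le_of_le_one_left (mul_nonneg hN.d0.le (hN.an s hs1)) (xr_row hx a)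
  have h3 := hN.BU s hs1
  have h4 : N.d * N.a s ≤ 1 / 200 * (1 + s)⁻¹ := by
    rw [← div_eq_mul_inv, le_div_iff₀ hT]
    linarith
  linarith

theorem dE_up (hN : N.Ok) (hx : Wt x P N.d) (hB : Ker B N.β) (hh : Haz h H)
    (ht : t ∈ Icc (0 : ℝ) 1)
    (hfl : ∀ s ∈ Icc 0 t, ∀ a b, h s a b * pp h a b s = x a b * ph N x P B a b s)
    (a b : V) {s : ℝ} (hs : s ∈ Icc 0 t) :
    dE h a b s ≤ x a b * ((1 + s) * ph N x P B a b s) := by
  have hs1 : s ∈ Icc (0 : ℝ) 1 := ⟨hs.1, hs.2.trans ht.2⟩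
  have hb := bb_low_all hN hx hB hh ht hfl a hs
  have hT : 0 < 1 + s := by linarith [hs.1]
  have hb0 : 0 < bb h ∅ a s := lt_of_lt_of_le (inv_pos.2 hT) hb
  have hinv : (bb h ∅ a s)⁻¹ ≤ 1 + s := by
    have := inv_anti₀ (inv_pos.2 hT) hb
    rwa [inv_inv] at this
  unfold dE
  rw [hfl s hs a b, div_eq_mul_inv]
  have h0 : 0 ≤ x a b * ph N x P B a b s :=
    mul_nonneg (hx.nonneg a b) (ph_pos hN hx hB a b hs1).le
  calc _ ≤ x a b * ph N x P B a b s * (1 + s) := mul_le_mul_of_nonneg_left hinv h0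
    _ = _ := by ring

theorem rate_pend (hN : N.Ok) (hx : Wt x P N.d) (hB : Ker B N.β) (hh : Haz h H)
    (ht : t ∈ Icc (0 : ℝ) 1)
    (hfl : ∀ s ∈ Icc 0 t, ∀ a b, h s a b * pp h a b s = x a b * ph N x P B a b s)
    {a b : V} (hab : ¬(P a ∧ P b)) {s : ℝ} (hs : s ∈ Icc 0 t) :
    dE h a b s ≤ x a b * (1 + s)⁻¹ := by
  refine (dE_up hN hx hB hh ht hfl a b hs).trans ?_
  have hT : 0 < 1 + s := by linarith [hs.1]
  rw [ph_pend hab]
  refine mul_le_mul_of_nonneg_left (le_of_eq ?_) (hx.nonneg a b)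
  field_simp

theorem kn (hN : N.Ok) (hx : Wt x P N.d) (hB : Ker B N.β) (hh : Haz h H)
    (ht : t ∈ Icc (0 : ℝ) 1) (hcap : ∀ s ∈ Icc 0 t, ∀ a b, h s a b ≤ (101 / 100 + 11 / 100 * s)
      * x a b)
    (hfl : ∀ s ∈ Icc 0 t, ∀ a b, h s a b * pp h a b s = x a b * ph N x P B a b s) :
    Kn N x P h H t where
  hh := hh
  ht := ht
  cap := hcap
  bge s hs a := bb_low_all hN hx hB hh ht hfl a hs
  bup s hs a ha := bb_up_real hN hx hB hh ht hfl ha hs
  rate s hs a b := by
    have hs1 : s ∈ Icc (0 : ℝ) 1 := ⟨hs.1, hs.2.trans ht.2⟩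
    have hT : 0 < 1 + s := by linarith [hs.1]
    by_cases hab : P a ∧ P b
    · refine (dE_up hN hx hB hh ht hfl a b hs).trans ?_
      have h1 := mul_le_mul_of_nonneg_left (ph_up hN hx hB hab.1 hab.2 hs1) (hx.nonneg a b)
      rw [le_div_iff₀ hT]
      calc _ = x a b * ((1 + s) ^ 2 * ph N x P B a b s) := by ring
        _ ≤ _ := h1
        _ = _ := by ring
    · refine (rate_pend hN hx hB hh ht hfl hab hs).trans ?_
      rw [div_eq_mul_inv]
      refine mul_le_mul_of_nonneg_right ?_ (inv_pos.2 hT).le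
      have := mul_nonneg hN.r0n (hx.nonneg a b)
      linarith
  Eint a b s' hs' E hE0 hE := by
    have hs : s' ∈ Icc 0 s' := ⟨hs'.1, le_rfl⟩
    have hs1 : s' ∈ Icc (0 : ℝ) 1 := ⟨hs'.1, hs'.2.trans ht.2⟩
    have hsub : ∀ r ∈ Icc 0 s', r ∈ Icc 0 t := fun r hr => ⟨hr.1, hr.2.trans hs'.2⟩
    by_cases hab : P a ∧ P b
    · have hy := xmem' hN hx hab.1 hab.2
      set S := Sd x P a b with hS
      set W := Wd x P B a b with hW
      have hS0 : 0 ≤ S := Sd_nonneg hx a b
      have hW0 : 0 ≤ W := Wd_nonneg hx hB a b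
      set y := x a b with hyd
      have key := nonneg_of_forward (a := 0) (s := s')
        (U := fun s => y * (Real.log (1 + s) + y * (N.jj s - (1 + s) * N.a s)
          + ((1 + s) * N.e1 s * S + (1 + s) * N.e2 s * W)) - E s)
        (U' := fun s => y * ((1 + s)⁻¹ + y * (N.jj' s - (1 * N.a s + (1 + s) * N.a' s))
          + ((1 * N.e1 s + (1 + s) * N.e1' s) * S + (1 * N.e2 s + (1 + s) * N.e2' s) * W))
            - dE h a b s)
        (fun r hr => by
          have hr1 : r ∈ Icc (0 : ℝ) 1 := ⟨hr.1, (hsub r hr).2.trans ht.2⟩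
          have d0 : HasDerivAt (fun s : ℝ => 1 + s) 1 r := by
            simpa using (hasDerivAt_id r).const_add 1
          have d1 : HasDerivAt (fun s : ℝ => Real.log (1 + s)) ((1 + r)⁻¹) r := by
            have := d0.log (by linarith [hr.1])
            simpa using this
          have d2 := ((hN.djj r hr1).sub (d0.mul (hN.da r hr1))).const_mul y
          have d3 := ((d0.mul (hN.de1 r hr1)).mul_const S).add
            ((d0.mul (hN.de2 r hr1)).mul_const W)
          exact (((d1.add d2).add d3).const_mul y).sub (hE r hr))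
        (by
          simp only [hE0, hN.jj_0, hN.a_0, hN.e1_0, hN.e2_0, add_zero, Real.log_one, mul_zero,
            zero_mul, sub_zero, le_refl])
        (fun r hr _ => by
          have hr1 : r ∈ Icc (0 : ℝ) 1 := ⟨hr.1, (hsub r hr).2.trans ht.2⟩
          have h1 := dE_up hN hx hB hh ht hfl a b (hsub r hr)
          have hT : 0 < 1 + r := by linarith [hr.1]
          have h2 := ph_eq (N := N) (x := x) (B := B) hab.1 hab.2 hr.1
          have h3 : (1 + r) * ph N x P B a b r = (1 + r)⁻¹ - y * ((1 + r) * N.a' r)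
              + (1 + r) * N.e1' r * S + (1 + r) * N.e2' r * W := by
            have e1 : (1 + r) * ph N x P B a b r
                = (1 + r)⁻¹ * ((1 + r) ^ 2 * ph N x P B a b r) := by field_simp
            have e2 : (1 + r)⁻¹ * (1 + r) ^ 2 = 1 + r := by field_simp
            rw [e1, h2]
            calc _ = (1 + r)⁻¹ - y * (((1 + r)⁻¹ * (1 + r) ^ 2) * N.a' r)
                + ((1 + r)⁻¹ * (1 + r) ^ 2) * N.e1' r * S
                + ((1 + r)⁻¹ * (1 + r) ^ 2) * N.e2' r * W := by ring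
              _ = _ := by rw [e2]
          rw [h3] at h1
          have h4 := hN.jji r hr1
          have h5 := hN.an r hr1
          have h6 := hN.e1n r hr1
          have h7 := hN.e2n r hr1
          have h8 : 0 ≤ y * (N.jj' r - N.a r) + N.e1 r * S + N.e2 r * W := by
            have b1 : 0 ≤ N.jj' r - N.a r := by
              have := mul_nonneg hN.r0n h5
              linarith
            have := mul_nonneg hy.1 b1
            have := mul_nonneg h6 hS0
            have := mul_nonneg h7 hW0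
            linarith
          have h9 := mul_nonneg hy.1 h8
          have e2 : y * ((1 + r)⁻¹ + y * (N.jj' r - (1 * N.a r + (1 + r) * N.a' r))
            + ((1 * N.e1 r + (1 + r) * N.e1' r) * S + (1 * N.e2 r + (1 + r) * N.e2' r) * W))
            = y * ((1 + r)⁻¹ - y * ((1 + r) * N.a' r) + (1 + r) * N.e1' r * S
              + (1 + r) * N.e2' r * W) + y * (y * (N.jj' r - N.a r) + N.e1 r * S + N.e2 r * W) := by
            ring
          rw [e2]
          linarith)
        s' hs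
      have h1 := mul_le_mul_of_nonneg_right (hN.X1 s' hs1) hS0
      have h2 := mul_le_mul_of_nonneg_right (hN.X2 s' hs1) hW0
      have h3 := mul_le_mul_of_nonneg_left (F_le hN hx hB a b) (hN.Uen s' hs1)
      rw [← hS, ← hW] at h3
      have h4 := hN.X3 s' hs1
      have h5 := hN.X4 s' hs1
      have h6 := mul_le_mul_of_nonneg_left (g_le hN hs1) hN.rE0
      have h7 : y * (N.jj s' - (1 + s') * N.a s') + ((1 + s') * N.e1 s' * S
          + (1 + s') * N.e2 s' * W) ≤ N.rE * Real.log (1 + s') := by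
        by_cases h8 : 0 ≤ N.jj s' - (1 + s') * N.a s'
        · have := mul_le_mul_of_nonneg_right hy.2 h8
          linarith
        · push Not at h8
          have : y * (N.jj s' - (1 + s') * N.a s') ≤ 0 :=
            mul_nonpos_of_nonneg_of_nonpos hy.1 h8.le
          linarith
      have h9 := mul_le_mul_of_nonneg_left h7 hy.1
      have e3 : (1 + N.rE) * (y * Real.log (1 + s')) = y * Real.log (1 + s')
        + y * (N.rE * Real.log (1 + s')) := by ring
      rw [e3]
      linarith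
    · have key := nonneg_of_forward (a := 0) (s := s')
        (U := fun s => x a b * Real.log (1 + s) - E s)
        (U' := fun s => x a b * (1 + s)⁻¹ - dE h a b s)
        (fun r hr => by
          have d0 : HasDerivAt (fun s : ℝ => 1 + s) 1 r := by
            simpa using (hasDerivAt_id r).const_add 1
          have d1 : HasDerivAt (fun s : ℝ => Real.log (1 + s)) ((1 + r)⁻¹) r := by
            have := d0.log (by linarith [hr.1])
            simpa using this
          exact (d1.const_mul _).sub (hE r hr))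
        (by simp [hE0])
        (fun r hr _ => by
          have h1 := rate_pend hN hx hB hh ht hfl hab (hsub r hr)
          linarith)
        s' hs
      have h6 : 0 ≤ Real.log (1 + s') := Real.log_nonneg (by linarith [hs'.1])
      have h7 := mul_nonneg hN.rE0 (mul_nonneg (hx.nonneg a b) h6)
      linarith

/-- lower bound for `e^H p` for a real pair -/
theorem real_le (hN : N.Ok) (hx : Wt x P N.d) (hB : Ker B N.β) (hE : Est N x P B)
    (hh : Haz h H) (ht : t ∈ Icc (0 : ℝ) 1)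
    (hcap : ∀ s ∈ Icc 0 t, ∀ a b, h s a b ≤ (101 / 100 + 11 / 100 * s) * x a b)
    (hfl : ∀ s ∈ Icc 0 t, ∀ a b, h s a b * pp h a b s = x a b * ph N x P B a b s)
    {u v : V} (hu : P u) (hv : P v) (huv : u ≠ v) :
    ph N x P B u v t ≤ Real.exp (H u v t) * pp h u v t := by
  obtain ⟨E, hE0, hEd⟩ := exists_E hh u v ht
  obtain ⟨E', hE0', hEd'⟩ := exists_E hh v u ht
  have h1 := hE h H t (kn hN hx hB hh ht hcap hfl) u v hu hv huv E E' hE0 hEd hE0' hEd'
  have h2 := P_low hx (Num.fn_ok hN) (nb_ok hN hx hB) (Num.efn_ok hN) (Num.ffn_ok hN) hh ht hfl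
    hu hv huv
    (fun s hs => (ph_pos hN hx hB u v ⟨hs.1, hs.2.trans ht.2⟩).le)
    (fun s hs => by
      have hs1 : s ∈ Icc (0 : ℝ) 1 := ⟨hs.1, hs.2.trans ht.2⟩
      have := ph_up hN hx hB hu hv hs1
      show ph N x P B u v s ≤ (1 + N.r) * ((1 + s) ^ 2)⁻¹
      have hT : 0 < (1 + s) ^ 2 := by have := hs.1; positivity
      rw [← div_eq_mul_inv, le_div_iff₀ hT]
      linarith)
    hE0 hEd hE0' hEd'
    (by
      show _ * (1 - (N.c0 t * x u v + N.c1 t * Sd x P u v + N.c2 t * Wd x P B u v)) ≤ _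
      have e1 : Sd x P u v = Sf x P u v := if_neg huv
      have e2 : Wd x P B u v = Wf x P B u v := if_neg huv
      rw [e1, e2]
      exact h1)
    (own_K hN hx hB huv)
  have h3 : (1 - N.ffn.Ch (x u v) t) * N.ffn.sg (x u v) t = 0 := by
    show (1 - N.Ch t) * 0 = 0
    ring
  rw [h3, add_zero] at h2
  have hT : 0 < (1 + t) ^ 2 := by have := ht.1; positivity
  exact le_of_mul_le_mul_left h2 hT

/-- the strict cap for a real pair -/
theorem real_cap (hN : N.Ok) (hd : N.d ≤ 1 / 20) (hx : Wt x P N.d) (hB : Ker B N.β)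
    (hE : Est N x P B)
    (hh : Haz h H) (ht : t ∈ Icc (0 : ℝ) 1)
    (hcap : ∀ s ∈ Icc 0 t, ∀ a b, h s a b ≤ (101 / 100 + 11 / 100 * s) * x a b)
    (hfl : ∀ s ∈ Icc 0 t, ∀ a b, h s a b * pp h a b s = x a b * ph N x P B a b s)
    {u v : V} (hu : P u) (hv : P v) (huv : u ≠ v) :
    ph N x P B u v t < (101 / 100 + 11 / 100 * t) * pp h u v t := by
  have hle : ∀ s ∈ Icc 0 t, ph N x P B u v s ≤ Real.exp (H u v s) * pp h u v s := fun s hs =>
    real_le hN hx hB hE hh ⟨hs.1, hs.2.trans ht.2⟩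
      (fun r hr => hcap r ⟨hr.1, hr.2.trans hs.2⟩) (fun r hr => hfl r ⟨hr.1, hr.2.trans hs.2⟩)
      hu hv huv
  have hy := xmem' hN hx hu hv
  set y := x u v with hyd
  have hyd' : y ≤ 1 / 20 := hy.2.trans hd
  -- `exp (-H) ≥ 1 - y t`
  have key := nonneg_of_forward (a := 0) (s := t)
    (U := fun s => Real.exp (-H u v s) - (1 - y * s))
    (U' := fun s => Real.exp (-H u v s) * (-h s u v) - (0 - y * 1))
    (fun r _ => by
      have d1 : HasDerivAt (fun s => Real.exp (-H u v s))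
          (Real.exp (-H u v r) * (-h r u v)) r := ((hh.Hd u v r).neg).exp
      have d2 := ((hasDerivAt_id r).const_mul y).const_sub 1
      have d3 := d1.sub d2
      refine d3.congr_deriv ?_
      ring)
    (by simp [hh.H0])
    (fun r hr _ => by
      have hr1 : r ∈ Icc (0 : ℝ) 1 := ⟨hr.1, hr.2.trans ht.2⟩
      have h1 := hle r hr
      have h2 := hfl r hr u v
      have h3 := ph_pos hN hx hB u v hr1
      have h4 : 0 < pp h u v r := by
        have : 0 < Real.exp (H u v r) * pp h u v r := lt_of_lt_of_le h3 h1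
        exact pos_of_mul_pos_right this (Real.exp_pos _).le
      have h5 : Real.exp (-H u v r) * h r u v ≤ y := by
        have h6 : Real.exp (-H u v r) * ph N x P B u v r ≤ pp h u v r := by
          have := mul_le_mul_of_nonneg_left h1 (Real.exp_pos (-H u v r)).le
          rwa [← mul_assoc, ← Real.exp_add, neg_add_cancel, Real.exp_zero, one_mul] at this
        have h7 : Real.exp (-H u v r) * h r u v * pp h u v r ≤ y * pp h u v r := by
          calc _ = Real.exp (-H u v r) * (h r u v * pp h u v r) := by ring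
            _ = y * (Real.exp (-H u v r) * ph N x P B u v r) := by rw [h2]; ring
            _ ≤ _ := mul_le_mul_of_nonneg_left h6 hy.1
        exact le_of_mul_le_mul_right h7 h4
      linarith)
    t ⟨ht.1, le_rfl⟩
  have h1 := hle t ⟨ht.1, le_rfl⟩
  have h3 := ph_pos hN hx hB u v ht
  have h6 : Real.exp (-H u v t) * ph N x P B u v t ≤ pp h u v t := by
    have := mul_le_mul_of_nonneg_left h1 (Real.exp_pos (-H u v t)).le
    rwa [← mul_assoc, ← Real.exp_add, neg_add_cancel, Real.exp_zero, one_mul] at this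
  have h7 : (1 - y * t) * ph N x P B u v t ≤ pp h u v t :=
    (mul_le_mul_of_nonneg_right (by linarith) h3.le).trans h6
  have hm : 0 < 101 / 100 + 11 / 100 * t := by linarith [ht.1]
  have h8 : 1 < (101 / 100 + 11 / 100 * t) * (1 - y * t) := by
    have b1 : y * t ≤ 1 / 20 * t := mul_le_mul_of_nonneg_right hyd' ht.1
    have b2 : (101 / 100 + 11 / 100 * t) * (1 - 1 / 20 * t)
        ≤ (101 / 100 + 11 / 100 * t) * (1 - y * t) :=
      mul_le_mul_of_nonneg_left (by linarith) hm.le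
    nlinarith [ht.1, ht.2]
  calc ph N x P B u v t = 1 * ph N x P B u v t := (one_mul _).symm
    _ < (101 / 100 + 11 / 100 * t) * (1 - y * t) * ph N x P B u v t :=
        mul_lt_mul_of_pos_right h8 h3
    _ = (101 / 100 + 11 / 100 * t) * ((1 - y * t) * ph N x P B u v t) := by ring
    _ ≤ _ := mul_le_mul_of_nonneg_left h7 hm.le

end general

end Pool.Agent.RCG.Ct
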