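import Pool.Agent.RCG.Gam

/-! Four-target comparison for the Gamma part (8.1), (8.2) (MP_73ccd0_lc, general graphs). -/

namespace Pool.Agent.RCG

open Set Finset Pool.Agent.RCRSHalf

set_option linter.unusedSectionVars false

variable {V : Type*} [Fintype V] [DecidableEq V]
variable {h : ℝ → V → V → ℝ} {H : V → V → ℝ → ℝ}

/-- pair quantity from influences -/
def pq (P : V → ℝ → ℝ) (a b : V) (r : ℝ) : ℝ := (1 + P a r) * (1 + P b r) - 1

/-- pair quantity from influences -/
def nq (N : V → ℝ → ℝ) (a b : V) (r : ℝ) : ℝ := N a r + N b r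

/-- the excess for four functions, upper -/
def gu4 (p1 p2 p3 p4 n1 n2 n3 n4 : ℝ) : ℝ :=
  ((1 + p1) * (1 + p2) * (1 + p3) * (1 + p4) - 1 - p1 - p2 - p3 - p4)
    + (n1 * n2 + n1 * n3 + n1 * n4 + n2 * n3 + n2 * n4 + n3 * n4)

/-- the excess for four functions, lower -/
def gl4 (p1 p2 p3 p4 n1 n2 n3 n4 : ℝ) : ℝ :=
  (n1 * p2 + n2 * p1) * ((1 + p3) * (1 + p4)) + (n1 * p3 + n3 * p1) * ((1 + p2) * (1 + p4))
    + (n1 * p4 + n4 * p1) * ((1 + p2) * (1 + p3)) + (n2 * p3 + n3 * p2) * ((1 + p1) * (1 + p4))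
    + (n2 * p4 + n4 * p2) * ((1 + p1) * (1 + p3)) + (n3 * p4 + n4 * p3) * ((1 + p1) * (1 + p2))

theorem GLo_four {ι : Type*} [DecidableEq ι] {a b c d : ι} (hab : a ≠ b) (hac : a ≠ c)
    (had : a ≠ d) (hbc : b ≠ c) (hbd : b ≠ d) (hcd : c ≠ d)
    (p n : ι → ℝ) : GLo {a, b, c, d} p n = gl4 (p a) (p b) (p c) (p d) (n a) (n b) (n c) (n d) := by
  have h1 : a ∉ ({b, c, d} : Finset ι) := by simp [hab, hac, had]
  have h2 : b ∉ ({c, d} : Finset ι) := by simp [hbc, hbd]
  have h3 : c ∉ ({d} : Finset ι) := by simp [hcd]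
  have ea : ({a, b, c, d} : Finset ι).erase a = {b, c, d} := Finset.erase_insert h1
  have eb : ({a, b, c, d} : Finset ι).erase b = {a, c, d} := by
    ext z; simp only [Finset.mem_erase, Finset.mem_insert, Finset.mem_singleton]
    constructor
    · tauto
    · rintro (rfl | rfl | rfl)
      · exact ⟨hab, by tauto⟩
      · exact ⟨hbc.symm, by tauto⟩
      · exact ⟨hbd.symm, by tauto⟩
  have ec : ({a, b, c, d} : Finset ι).erase c = {a, b, d} := by
    ext z; simp only [Finset.mem_erase, Finset.mem_insert, Finset.mem_singleton]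
    constructor
    · tauto
    · rintro (rfl | rfl | rfl)
      · exact ⟨hac, by tauto⟩
      · exact ⟨hbc, by tauto⟩
      · exact ⟨hcd.symm, by tauto⟩
  have ed : ({a, b, c, d} : Finset ι).erase d = {a, b, c} := by
    ext z; simp only [Finset.mem_erase, Finset.mem_insert, Finset.mem_singleton]
    constructor
    · tauto
    · rintro (rfl | rfl | rfl)
      · exact ⟨had, by tauto⟩
      · exact ⟨hbd, by tauto⟩
      · exact ⟨hcd, by tauto⟩
  have tri : ∀ {x y z : ι}, x ≠ y → x ≠ z → y ≠ z → ∀ f : ι → ℝ,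
      ∑ i ∈ ({x, y, z} : Finset ι), f i = f x + f y + f z := by
    intro x y z hxy hxz hyz f
    rw [Finset.sum_insert (by simp [hxy, hxz]), Finset.sum_pair hyz]; ring
  have er1 : ∀ {x y z : ι}, x ≠ y → x ≠ z → ({x, y, z} : Finset ι).erase x = {y, z} := by
    intro x y z hxy hxz
    exact Finset.erase_insert (by simp [hxy, hxz])
  have er2 : ∀ {x y z : ι}, x ≠ y → y ≠ z → ({x, y, z} : Finset ι).erase y = {x, z} := by
    intro x y z hxy hyz
    rw [Finset.erase_insert_of_ne hxy, Finset.erase_insert (by simp [hyz])]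
  have er3 : ∀ {x y z : ι}, x ≠ z → y ≠ z → ({x, y, z} : Finset ι).erase z = {x, y} := by
    intro x y z hxz hyz
    rw [Finset.erase_insert_of_ne hxz, Finset.erase_insert_of_ne hyz, Finset.erase_singleton]
    rfl
  unfold GLo gl4
  rw [Finset.sum_insert h1, Finset.sum_insert h2, Finset.sum_insert h3, Finset.sum_singleton,
    ea, eb, ec, ed, tri hbc hbd hcd, tri hac had hcd, tri hab had hbd, tri hab hac hbc,
    er1 hbc hbd, er2 hbc hcd, er3 hbd hcd, er1 hac had, er2 hac hcd, er3 had hcd,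
    er1 hab had, er2 hab hbd, er3 had hbd, er1 hab hac, er2 hab hbc, er3 hac hbc]
  rw [Finset.prod_pair hcd, Finset.prod_pair hbd, Finset.prod_pair hbc, Finset.prod_pair had,
    Finset.prod_pair hac, Finset.prod_pair hab]
  ring

section

variable {u v a b : V} {t s : ℝ}
  {Pu Nu Pv Nv Pa Na Pb Nb : V → ℝ → ℝ}

/-- (8.1), comparison for four targets -/
theorem ex_four_le (hh : Haz h H) (huv : u ≠ v) (hua : u ≠ a) (hub : u ≠ b)
    (hva : v ≠ a) (hvb : v ≠ b) (hab : a ≠ b) (ht : t ∈ Icc (0 : ℝ) 1) (hs : s ∈ Icc 0 t)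
    (hIu : Inf ({u, v, a, b} : Finset V)ᶜ s (RCG.tgt h u t) Pu Nu)
    (hIv : Inf ({u, v, a, b} : Finset V)ᶜ s (RCG.tgt h v t) Pv Nv)
    (hIa : Inf ({u, v, a, b} : Finset V)ᶜ s (RCG.tgt h a s) Pa Na)
    (hIb : Inf ({u, v, a, b} : Finset V)ᶜ s (RCG.tgt h b s) Pb Nb)
    {κ κ' : ℝ → ℝ} (hκd : ∀ r ∈ Icc 0 s, HasDerivAt κ (κ' r) r) (hκs : 0 ≤ κ s)
    (hκ : ∀ r ∈ Icc 0 s, (1 / 2) * ∑ c ∈ ({u, v, a, b} : Finset V)ᶜ,
      ∑ d ∈ ({u, v, a, b} : Finset V)ᶜ, h r c d *
        gu4 (pq Pu c d r) (pq Pv c d r) (pq Pa c d r) (pq Pb c d r)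
          (nq Nu c d r) (nq Nv c d r) (nq Na c d r) (nq Nb c d r) ≤ -κ' r) :
    ex (lw h ∅ s) {u, v, a, b} (fun F => RCG.tgt h u t F s * RCG.tgt h v t F s)
      ≤ Real.exp (-HW H {u, v, a, b} s + κ 0) *
        (bb h {v, a, b} u t * bb h {u, a, b} v t * bb h {u, v, b} a s * bb h {u, v, a} b s) := by
  have hs1 : s ∈ Icc (0 : ℝ) 1 := ⟨hs.1, hs.2.trans ht.2⟩
  have hTu := hh.tgt u ht
  have hTv := hh.tgt v ht
  have hTa := hh.tgt a hs1
  have hTb := hh.tgt b hs1
  have hdisE : Disjoint (∅ : Finset V) {u, v, a, b} := Finset.disjoint_empty_left _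
  have eD : (∅ : Finset V) ∪ {u, v, a, b} = {u, v, a, b} := Finset.empty_union _
  have h1 : u ∉ ({v, a, b} : Finset V) := by simp [huv, hua, hub]
  have h2 : v ∉ ({a, b} : Finset V) := by simp [hva, hvb]
  have key := ex_le hh (W := {u, v, a, b}) (D := ∅) (s := s)
    (R := fun z => if z = u then RCG.tgt h u t else if z = v then RCG.tgt h v t
      else if z = a then RCG.tgt h a s else RCG.tgt h b s)
    (P := fun z => if z = u then Pu else if z = v then Pv else if z = a then Pa else Pb)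
    (N := fun z => if z = u then Nu else if z = v then Nv else if z = a then Na else Nb)
    (ψ := fun F => RCG.tgt h u t F s * RCG.tgt h v t F s) hdisE hs1
    (fun z hz => by
      simp only [Finset.mem_insert, Finset.mem_singleton] at hz
      rcases hz with rfl | rfl | rfl | rfl
      · simpa using hTu.ev.mono hs.2
      · simp only [if_neg huv.symm, if_true]; exact hTv.ev.mono hs.2
      · simp only [if_neg hua.symm, if_neg hva.symm, if_true]; exact hTa.ev
      · simp only [if_neg hub.symm, if_neg hvb.symm, if_neg hab.symm]; exact hTb.ev)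
    (fun z hz => by
      rw [eD]
      simp only [Finset.mem_insert, Finset.mem_singleton] at hz
      rcases hz with rfl | rfl | rfl | rfl
      · simpa using hIu
      · simp only [if_neg huv.symm, if_true]; exact hIv
      · simp only [if_neg hua.symm, if_neg hva.symm, if_true]; exact hIa
      · simp only [if_neg hub.symm, if_neg hvb.symm, if_neg hab.symm]; exact hIb)
    (fun F => mul_nonneg (hTu.ev.nonneg F s hs) (hTv.ev.nonneg F s hs))
    (fun F _ => by
      rw [Finset.prod_insert h1, Finset.prod_insert h2, Finset.prod_pair hab]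
      simp only [if_true, if_neg huv.symm, if_neg hua.symm, if_neg hub.symm, if_neg hva.symm,
        if_neg hvb.symm, if_neg hab.symm, hTa.end_, hTb.end_, mul_one]
      exact le_rfl)
    hκd hκs
    (fun r hr => by
      refine le_trans (le_of_eq ?_) (hκ r hr)
      rw [eD]
      unfold kupR
      congr 1
      refine Finset.sum_congr rfl fun c _ => Finset.sum_congr rfl fun d _ => ?_
      rw [GUp_four huv hua hub hva hvb hab]
      simp only [if_true, if_neg huv.symm, if_neg hua.symm, if_neg hub.symm, if_neg hva.symm,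
        if_neg hvb.symm, if_neg hab.symm]
      rfl)
  refine key.trans (le_of_eq ?_)
  rw [eD, Finset.prod_insert h1, Finset.prod_insert h2, Finset.prod_pair hab]
  simp only [if_true, if_neg huv.symm, if_neg hua.symm, if_neg hub.symm, if_neg hva.symm,
        if_neg hvb.symm, if_neg hab.symm]
  have e5 : bb h {v, a, b} u t = RCG.tgt h u t ({u, v, a, b} : Finset V)ᶜ 0 :=
    bb_eq hh (D := {v, a, b}) h1 ht
  have e6 : bb h {u, a, b} v t = RCG.tgt h v t ({u, v, a, b} : Finset V)ᶜ 0 := by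
    rw [bb_eq hh (D := {u, a, b}) (u := v) (by simp [huv.symm, hva, hvb]) ht]
    congr 2
    exact Finset.insert_comm v u {a, b}
  have e7 : bb h {u, v, b} a s = RCG.tgt h a s ({u, v, a, b} : Finset V)ᶜ 0 := by
    rw [bb_eq hh (D := {u, v, b}) (u := a) (by simp [hua.symm, hva.symm, hab]) hs1]
    congr 2
    ext z
    simp only [Finset.mem_insert, Finset.mem_singleton]
    tauto
  have e8 : bb h {u, v, a} b s = RCG.tgt h b s ({u, v, a, b} : Finset V)ᶜ 0 := by
    rw [bb_eq hh (D := {u, v, a}) (u := b) (by simp [hub.symm, hvb.symm, hab.symm]) hs1]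
    congr 2
    ext z
    simp only [Finset.mem_insert, Finset.mem_singleton]
    tauto
  rw [← e5, ← e6, ← e7, ← e8]
  ring

/-- (8.2), lower comparison for four targets -/
theorem le_ex_four (hh : Haz h H) (huv : u ≠ v) (hua : u ≠ a) (hub : u ≠ b)
    (hva : v ≠ a) (hvb : v ≠ b) (hab : a ≠ b) (ht : t ∈ Icc (0 : ℝ) 1) (hs : s ∈ Icc 0 t)
    (hIu : Inf ({u, v, a, b} : Finset V)ᶜ s (RCG.tgt h u t) Pu Nu)
    (hIv : Inf ({u, v, a, b} : Finset V)ᶜ s (RCG.tgt h v t) Pv Nv)
    (hIa : Inf ({u, v, a, b} : Finset V)ᶜ s (RCG.tgt h a s) Pa Na)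
    (hIb : Inf ({u, v, a, b} : Finset V)ᶜ s (RCG.tgt h b s) Pb Nb)
    {κ κ' : ℝ → ℝ} (hκd : ∀ r ∈ Icc 0 s, HasDerivAt κ (κ' r) r) (hκs : 0 ≤ κ s)
    (hκ : ∀ r ∈ Icc 0 s, (1 / 2) * ∑ c ∈ ({u, v, a, b} : Finset V)ᶜ,
      ∑ d ∈ ({u, v, a, b} : Finset V)ᶜ, h r c d *
        gl4 (pq Pu c d r) (pq Pv c d r) (pq Pa c d r) (pq Pb c d r)
          (nq Nu c d r) (nq Nv c d r) (nq Na c d r) (nq Nb c d r) ≤ -κ' r) :
    Real.exp (-HW H {u, v, a, b} s - κ 0) *
        (bb h {v, a, b} u t * bb h {u, a, b} v t * bb h {u, v, b} a s * bb h {u, v, a} b s)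
      ≤ ex (lw h ∅ s) {u, v, a, b} (fun F => RCG.tgt h u t F s * RCG.tgt h v t F s) := by
  have hs1 : s ∈ Icc (0 : ℝ) 1 := ⟨hs.1, hs.2.trans ht.2⟩
  have hTu := hh.tgt u ht
  have hTv := hh.tgt v ht
  have hTa := hh.tgt a hs1
  have hTb := hh.tgt b hs1
  have hdisE : Disjoint (∅ : Finset V) {u, v, a, b} := Finset.disjoint_empty_left _
  have eD : (∅ : Finset V) ∪ {u, v, a, b} = {u, v, a, b} := Finset.empty_union _
  have h1 : u ∉ ({v, a, b} : Finset V) := by simp [huv, hua, hub]
  have h2 : v ∉ ({a, b} : Finset V) := by simp [hva, hvb]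
  have key := le_ex hh (W := {u, v, a, b}) (D := ∅) (s := s)
    (R := fun z => if z = u then RCG.tgt h u t else if z = v then RCG.tgt h v t
      else if z = a then RCG.tgt h a s else RCG.tgt h b s)
    (P := fun z => if z = u then Pu else if z = v then Pv else if z = a then Pa else Pb)
    (N := fun z => if z = u then Nu else if z = v then Nv else if z = a then Na else Nb)
    (ψ := fun F => RCG.tgt h u t F s * RCG.tgt h v t F s) hdisE hs1
    (fun z hz => by
      simp only [Finset.mem_insert, Finset.mem_singleton] at hz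
      rcases hz with rfl | rfl | rfl | rfl
      · simpa using hTu.ev.mono hs.2
      · simp only [if_neg huv.symm, if_true]; exact hTv.ev.mono hs.2
      · simp only [if_neg hua.symm, if_neg hva.symm, if_true]; exact hTa.ev
      · simp only [if_neg hub.symm, if_neg hvb.symm, if_neg hab.symm]; exact hTb.ev)
    (fun z hz => by
      rw [eD]
      simp only [Finset.mem_insert, Finset.mem_singleton] at hz
      rcases hz with rfl | rfl | rfl | rfl
      · simpa using hIu
      · simp only [if_neg huv.symm, if_true]; exact hIv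
      · simp only [if_neg hua.symm, if_neg hva.symm, if_true]; exact hIa
      · simp only [if_neg hub.symm, if_neg hvb.symm, if_neg hab.symm]; exact hIb)
    (fun F => mul_nonneg (hTu.ev.nonneg F s hs) (hTv.ev.nonneg F s hs))
    (fun F _ => by
      rw [Finset.prod_insert h1, Finset.prod_insert h2, Finset.prod_pair hab]
      simp only [if_true, if_neg huv.symm, if_neg hua.symm, if_neg hub.symm, if_neg hva.symm,
        if_neg hvb.symm, if_neg hab.symm, hTa.end_, hTb.end_, mul_one]
      exact le_rfl)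
    hκd hκs
    (fun r hr => by
      refine le_trans (le_of_eq ?_) (hκ r hr)
      rw [eD]
      unfold kloR
      congr 1
      refine Finset.sum_congr rfl fun c _ => Finset.sum_congr rfl fun d _ => ?_
      rw [GLo_four huv hua hub hva hvb hab]
      simp only [if_true, if_neg huv.symm, if_neg hua.symm, if_neg hub.symm, if_neg hva.symm,
        if_neg hvb.symm, if_neg hab.symm]
      rfl)
  refine le_trans (le_of_eq ?_) key
  rw [eD, Finset.prod_insert h1, Finset.prod_insert h2, Finset.prod_pair hab]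
  simp only [if_true, if_neg huv.symm, if_neg hua.symm, if_neg hub.symm, if_neg hva.symm,
        if_neg hvb.symm, if_neg hab.symm]
  have e5 : bb h {v, a, b} u t = RCG.tgt h u t ({u, v, a, b} : Finset V)ᶜ 0 :=
    bb_eq hh (D := {v, a, b}) h1 ht
  have e6 : bb h {u, a, b} v t = RCG.tgt h v t ({u, v, a, b} : Finset V)ᶜ 0 := by
    rw [bb_eq hh (D := {u, a, b}) (u := v) (by simp [huv.symm, hva, hvb]) ht]
    congr 2
    exact Finset.insert_comm v u {a, b}
  have e7 : bb h {u, v, b} a s = RCG.tgt h a s ({u, v, a, b} : Finset V)ᶜ 0 := by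
    rw [bb_eq hh (D := {u, v, b}) (u := a) (by simp [hua.symm, hva.symm, hab]) hs1]
    congr 2
    ext z
    simp only [Finset.mem_insert, Finset.mem_singleton]
    tauto
  have e8 : bb h {u, v, a} b s = RCG.tgt h b s ({u, v, a, b} : Finset V)ᶜ 0 := by
    rw [bb_eq hh (D := {u, v, a}) (u := b) (by simp [hub.symm, hvb.symm, hab.symm]) hs1]
    congr 2
    ext z
    simp only [Finset.mem_insert, Finset.mem_singleton]
    tauto
  rw [← e5, ← e6, ← e7, ← e8]
  ring

end

end Pool.Agent.RCG
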