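import Pool.Agent.RCG.S1E
import Pool.Agent.RCGF.Pq

/-! Small edges: the polynomials of the cost (MP_73ccd0_lc). -/

namespace Pool.Agent.RCG

open Set Finset Matrix Pool.Agent.RCRSHalf

set_option linter.unusedSectionVars false

section poly

variable {R : Type} [Add R] [Mul R] [QC R]

/-- `M t - M (t - D)` in powers of `D` -/
def cM (t : R) : List R := [QC.q 0 1, QC.q 101 100 + QC.q 11 100 * t, QC.q (-55) 1000]

/-- `pi3 (t - D)` in powers of `D` -/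
def cp (t : R) : List R :=
  [QC.q 1 1 + t * (QC.q (-17) 18 + t * (QC.q 2 3 + QC.q (-2) 9 * t)),
   QC.q 17 18 + t * (QC.q (-4) 3 + QC.q 2 3 * t), QC.q 2 3 + QC.q (-2) 3 * t, QC.q 2 9]

def cJ (t : R) : List R := lmul (cp t) (lmul (cM t) (lmul (cM t) (cM t)))
def cP (t : R) : List R := lI (cp t)
def c1 (t : R) : List R := lmul (cM t) (lmul (cp t) (lmul (cP t) (cP t)))
def c2a (t : R) : List R := lmul (cM t) (lmul (cp t) (lI (cJ t)))
def c2b (t : R) : List R := lmul (cM t) (lmul (cM t) (c1 t))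
def c3 (t : R) : List R := lmul (cM t) (lmul (cM t) (c2a t))

/-- the profile `t^4 (1/8 - 3t/20 + t^2/10 - 27 t^3/1000)` -/
def K0p (t : R) : R := t * (t * (t * (t * (QC.q 1 8 + t * (QC.q (-3) 20 + t * (QC.q 1 10
  + QC.q (-27) 1000 * t))))))

/-- checks: `I1 ≤ c1 K0` etc. -/
def ch1 (t : R) : R := QC.q 204 100 * K0p t + ng (hint (c1 t) t)
def ch2a (t : R) : R := QC.q 82 100 * K0p t + ng (hint (c2a t) t)
def ch2b (t : R) : R := QC.q 165 100 * K0p t + ng (hint (c2b t) t)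
def ch3 (t : R) : R := QC.q 73 100 * K0p t + ng (hint (c3 t) t)

end poly

set_option maxRecDepth 100000 in
theorem ck_1 : QE.nonnegB 30 0 0 0 (ch1 QE.A) = true := by decide +kernel
set_option maxRecDepth 100000 in
theorem ck_2a : QE.nonnegB 30 0 0 0 (ch2a QE.A) = true := by decide +kernel
set_option maxRecDepth 100000 in
theorem ck_2b : QE.nonnegB 30 0 0 0 (ch2b QE.A) = true := by decide +kernel
set_option maxRecDepth 100000 in
theorem ck_3 : QE.nonnegB 30 0 0 0 (ch3 QE.A) = true := by decide +kernel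


section ev

variable {x y z w : ℝ}

theorem ev_cM (a : QE) : (cM a).map (QE.eval x y z w) = cM (QE.eval x y z w a) := by
  simp only [cM, List.map_cons, List.map_nil, ev_add, ev_mul, ev_q]

theorem ev_cp (a : QE) : (cp a).map (QE.eval x y z w) = cp (QE.eval x y z w a) := by
  simp only [cp, List.map_cons, List.map_nil, ev_add, ev_mul, ev_q]

theorem ev_cJ (a : QE) : (cJ a).map (QE.eval x y z w) = cJ (QE.eval x y z w a) := by
  simp only [cJ, map_lmul, ev_cM, ev_cp]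

theorem ev_cP (a : QE) : (cP a).map (QE.eval x y z w) = cP (QE.eval x y z w a) := by
  simp only [cP, map_lI, ev_cp]

theorem ev_c1 (a : QE) : (c1 a).map (QE.eval x y z w) = c1 (QE.eval x y z w a) := by
  simp only [c1, map_lmul, ev_cM, ev_cp, ev_cP]

theorem ev_c2a (a : QE) : (c2a a).map (QE.eval x y z w) = c2a (QE.eval x y z w a) := by
  simp only [c2a, map_lmul, map_lI, ev_cM, ev_cp, ev_cJ]

theorem ev_c2b (a : QE) : (c2b a).map (QE.eval x y z w) = c2b (QE.eval x y z w a) := by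
  simp only [c2b, map_lmul, ev_cM, ev_c1]

theorem ev_c3 (a : QE) : (c3 a).map (QE.eval x y z w) = c3 (QE.eval x y z w a) := by
  simp only [c3, map_lmul, ev_cM, ev_c2a]

theorem ev_K0p (a : QE) : QE.eval x y z w (K0p a) = K0p (QE.eval x y z w a) := by
  simp only [K0p, ev_add, ev_mul, ev_q]

end ev

theorem chk_t {e : QE} {f : ℝ → ℝ} (hf : ∀ x : ℝ, QE.eval x 0 0 0 e = f x)
    (h : QE.nonnegB 30 0 0 0 e = true) {t : ℝ} (ht : t ∈ Icc (0 : ℝ) 1) : 0 ≤ f t := by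
  rw [← hf]
  exact QE.nonneg_of_check h ht.1 ht.2 le_rfl zero_le_one le_rfl zero_le_one le_rfl zero_le_one

theorem hint_c1 {t : ℝ} (ht : t ∈ Icc (0 : ℝ) 1) : hint (c1 t) t ≤ 204 / 100 * K0p t := by
  have := chk_t (e := ch1 QE.A) (f := ch1) (fun x => by
    simp only [ch1, ev_add, ev_mul, ev_q, ev_ng, ev_hint, ev_c1, ev_K0p]; rfl) ck_1 ht
  simp only [ch1, add_ng, QC.q] at this
  push_cast at this
  linarith

theorem hint_c2a {t : ℝ} (ht : t ∈ Icc (0 : ℝ) 1) : hint (c2a t) t ≤ 82 / 100 * K0p t := by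
  have := chk_t (e := ch2a QE.A) (f := ch2a) (fun x => by
    simp only [ch2a, ev_add, ev_mul, ev_q, ev_ng, ev_hint, ev_c2a, ev_K0p]; rfl) ck_2a ht
  simp only [ch2a, add_ng, QC.q] at this
  push_cast at this
  linarith

theorem hint_c2b {t : ℝ} (ht : t ∈ Icc (0 : ℝ) 1) : hint (c2b t) t ≤ 165 / 100 * K0p t := by
  have := chk_t (e := ch2b QE.A) (f := ch2b) (fun x => by
    simp only [ch2b, ev_add, ev_mul, ev_q, ev_ng, ev_hint, ev_c2b, ev_K0p]; rfl) ck_2b ht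
  simp only [ch2b, add_ng, QC.q] at this
  push_cast at this
  linarith

theorem hint_c3 {t : ℝ} (ht : t ∈ Icc (0 : ℝ) 1) : hint (c3 t) t ≤ 73 / 100 * K0p t := by
  have := chk_t (e := ch3 QE.A) (f := ch3) (fun x => by
    simp only [ch3, ev_add, ev_mul, ev_q, ev_ng, ev_hint, ev_c3, ev_K0p]; rfl) ck_3 ht
  simp only [ch3, add_ng, QC.q] at this
  push_cast at this
  linarith

theorem hor_cM (t s : ℝ) : hor (cM t) (t - s)
    = (101 / 100 * t + 11 / 200 * t ^ 2) - (101 / 100 * s + 11 / 200 * s ^ 2) := by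
  simp only [hor, cM, QC.q]
  push_cast
  ring

theorem hor_cp (t s : ℝ) : hor (cp t) (t - s) = pi3 s := by
  simp only [hor, cp, QC.q, pi3]
  push_cast
  ring

theorem hor_cP (t s : ℝ) : hor (cP t) (t - s) = Pi3 t - Pi3 s := by
  rw [cP, hor_lI]
  simp only [hint, hin, cp, QC.q, Pi3]
  push_cast
  ring

theorem hint_rev (cs : List ℝ) (t s : ℝ) :
    HasDerivAt (fun s => hint cs (t - s)) (-hor cs (t - s)) s := by
  have h1 : HasDerivAt (fun x : ℝ => t - x) (-1) s := (hasDerivAt_id s).const_sub t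
  have h2 := (hint_deriv cs (t - s)).comp s h1
  exact h2.congr_deriv (by ring)

variable {V : Type*} [Fintype V] [DecidableEq V]
variable {h : ℝ → V → V → ℝ} {H : V → V → ℝ → ℝ} {X : V → V → ℝ} {M μ : ℝ → ℝ} {t : ℝ}

theorem K0p_real (t : ℝ) : K0p t = t ^ 4 * (1 / 8 - 3 / 20 * t + 1 / 10 * t ^ 2
    - 27 / 1000 * t ^ 3) := by
  simp only [K0p, QC.q]
  push_cast
  ring

/-- **The pair part of the estimate for small edges.** -/
theorem Cx.gx_s (hC : Cx h H X M μ t) (hδ : ∀ a b, X a b ≤ 1 / 100)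
    (hMf : ∀ r ∈ Icc 0 t, M r = 101 / 100 * r + 11 / 200 * r ^ 2)
    (hE : ERate h X t (102 / 100)) {u v : V} (huv : u ≠ v) :
    bb h {v} u t * bb h {u} v t * (1 - K0p t * (
        3174 / 1000 * F12 X ({u, v} : Finset V)ᶜ (X u) (X v)
        + 446 / 1000 * (F12 X ({u, v} : Finset V)ᶜ (X u) (Zs X ({u, v} : Finset V)ᶜ v)
          + F12 X ({u, v} : Finset V)ᶜ (X v) (Zs X ({u, v} : Finset V)ᶜ u))
        + 69 / 1000 *
          F12 X ({u, v} : Finset V)ᶜ (Zs X ({u, v} : Finset V)ᶜ u) (Zs X ({u, v} : Finset V)ᶜ v)))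
      ≤ Real.exp (H u v t) * pp h u v t := by
  have hX := hC.hX
  have htt : t ∈ Icc 0 t := ⟨hC.t0, le_rfl⟩
  have ht1 := hC.ht
  have hM : M t ≤ 213 / 200 := by
    rw [hMf t htt]; nlinarith [ht1.1, ht1.2]
  have hm : ∀ s ∈ Icc 0 t, M t - M s = hor (cM t) (t - s) := fun s hs => by
    rw [hor_cM, hMf t htt, hMf s hs]
  have hJ : ∀ r ∈ Icc 0 t, HasDerivAt (fun s => hint (cJ t) (t - s))
      (-(pi3 r * (M t - M r) ^ 3)) r := fun r hr => by
    refine (hint_rev (cJ t) t r).congr_deriv ?_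
    rw [cJ, hor_lmul, hor_lmul, hor_lmul, hor_cp, hm r hr]
    ring
  have hJt : hint (cJ t) (t - t) = 0 := by rw [sub_self, hint_zero]
  have key := hC.G_s hδ hM (by norm_num : (0 : ℝ) ≤ 102 / 100) hE hJ huv
    (G1 := fun s => -(1 / 2 * hint (c1 t) (t - s)))
    (G2 := fun s => -(17884 / 100000 * hint (c2a t) (t - s)
      + 1728 / 10000 * (102 / 100) * (1 / 2 * hint (c2b t) (t - s))))
    (G3 := fun s => -hint (c3 t) (t - s))
    (fun s hs => by
      refine (((hint_rev (c1 t) t s).const_mul (1 / 2)).neg).congr_deriv ?_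
      rw [c1, hor_lmul, hor_lmul, hor_lmul, hor_cp, hor_cP, hm s hs]
      ring)
    (fun s hs => by
      refine ((((hint_rev (c2a t) t s).const_mul (17884 / 100000)).add
        (((hint_rev (c2b t) t s).const_mul (1 / 2)).const_mul
          (1728 / 10000 * (102 / 100)))).neg).congr_deriv ?_
      rw [hJt, c2a, c2b, c1]
      simp only [hor_lmul, hor_lI, hor_cp, hor_cP]
      rw [← hm s hs]
      ring)
    (fun s hs => by
      refine ((hint_rev (c3 t) t s).neg).congr_deriv ?_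
      rw [hJt, c3, c2a]
      simp only [hor_lmul, hor_lI, hor_cp, hor_cP]
      rw [← hm s hs]
      ring)
  have hbb : 0 ≤ bb h {v} u t * bb h {u} v t :=
    mul_nonneg (bb_nonneg hC.hh _ _ hC.ht) (bb_nonneg hC.hh _ _ hC.ht)
  refine le_trans (mul_le_mul_of_nonneg_left ?_ hbb) key
  have hX0 := hX.nonneg
  have f1 := F12_nonneg hX ({u, v} : Finset V)ᶜ (hX0 u) (hX0 v)
  have f2 := F12_nonneg hX ({u, v} : Finset V)ᶜ (hX0 u) (Zs_nonneg hX ({u, v} : Finset V)ᶜ v)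
  have f3 := F12_nonneg hX ({u, v} : Finset V)ᶜ (hX0 v) (Zs_nonneg hX ({u, v} : Finset V)ᶜ u)
  have f4 := F12_nonneg hX ({u, v} : Finset V)ᶜ (Zs_nonneg hX ({u, v} : Finset V)ᶜ u)
    (Zs_nonneg hX ({u, v} : Finset V)ᶜ v)
  have i1 := hint_c1 ht1
  have i2 := hint_c2a ht1
  have i3 := hint_c2b ht1
  have i4 := hint_c3 ht1
  simp only [sub_self, hint_zero, sub_zero, mul_zero, neg_zero, add_zero, zero_sub, neg_neg]
  obtain ⟨K, hK⟩ : ∃ K, K = K0p t := ⟨_, rfl⟩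
  rw [← hK] at i1 i2 i3 i4 ⊢
  have hK0 : 0 ≤ K := by
    rw [hK, K0p_real]
    have h1 : t ^ 2 ≤ 1 := by nlinarith [ht1.1, ht1.2]
    have h3 : t ^ 3 ≤ t ^ 2 := by nlinarith [ht1.1, ht1.2, sq_nonneg t]
    have : 0 ≤ 1 / 8 - 3 / 20 * t + 1 / 10 * t ^ 2 - 27 / 1000 * t ^ 3 := by
      nlinarith [sq_nonneg (t - 1), ht1.1, ht1.2]
    exact mul_nonneg (pow_nonneg ht1.1 4) this
  obtain ⟨A1, hA1⟩ : ∃ A1, A1 = F12 X ({u, v} : Finset V)ᶜ (X u) (X v) := ⟨_, rfl⟩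
  obtain ⟨A2, hA2⟩ : ∃ A2, A2 = F12 X ({u, v} : Finset V)ᶜ (X u) (Zs X ({u, v} : Finset V)ᶜ v)
          + F12 X ({u, v} : Finset V)ᶜ (X v) (Zs X ({u, v} : Finset V)ᶜ u) := ⟨_, rfl⟩
  obtain ⟨A3, hA3⟩ : ∃ A3, A3 = F12 X ({u, v} : Finset V)ᶜ (Zs X ({u, v} : Finset V)ᶜ u)
    (Zs X ({u, v} : Finset V)ᶜ v) := ⟨_, rfl⟩
  have g2 := add_nonneg f2 f3
  rw [← hA1] at f1 ⊢
  rw [← hA2] at g2 ⊢
  rw [← hA3] at f4 ⊢
  obtain ⟨I1, hI1⟩ : ∃ I1, I1 = hint (c1 t) t := ⟨_, rfl⟩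
  obtain ⟨I2, hI2⟩ : ∃ I2, I2 = hint (c2a t) t := ⟨_, rfl⟩
  obtain ⟨I3, hI3⟩ : ∃ I3, I3 = hint (c2b t) t := ⟨_, rfl⟩
  obtain ⟨I4, hI4⟩ : ∃ I4, I4 = hint (c3 t) t := ⟨_, rfl⟩
  rw [← hI1] at i1 ⊢
  rw [← hI2] at i2 ⊢
  rw [← hI3] at i3 ⊢
  rw [← hI4] at i4 ⊢
  have j1 := mul_le_mul_of_nonneg_right i1 f1
  have j2 := mul_le_mul_of_nonneg_right i2 g2
  have j3 := mul_le_mul_of_nonneg_right i3 g2
  have j4 := mul_le_mul_of_nonneg_right i4 f4
  have k1 := mul_nonneg hK0 f1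
  have k2 := mul_nonneg hK0 g2
  have k3 := mul_nonneg hK0 f4
  nlinarith

end Pool.Agent.RCG
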