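import Pool.Agent.RCG.CtM
import Pool.Agent.RCG.S1P

/-! Stage 1 of the certificate: the kernel of the pair part (MP_73ccd0_lc). -/

namespace Pool.Agent.RCG.Ct

open Finset Set Matrix Filter Topology Pool.Agent.RCRSHalf Pool.Agent.RCG.Lt

set_option linter.unusedSectionVars false

variable {V : Type*} [Fintype V] [DecidableEq V]

section mat

variable {A B C : Matrix V V ℝ}

/-- `A² (1 - 0.13 A²)⁻¹` -/
noncomputable def Ls (A : Matrix V V ℝ) : Matrix V V ℝ := A * A * Si (13 / 100) A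

/-- second factor of the kernel of the pair part -/
noncomputable def Dg (a b c : ℝ) (A : Matrix V V ℝ) : Matrix V V ℝ :=
  (1 + A) * (a • 1 + b • Ls A + c • (Ls A * Ls A))

theorem Ls_nn (hA : Sub A) : MN (Ls A) := AAS_nonneg hA (by norm_num) (by norm_num)

theorem Ls_comm (hA : Sub A) : A * Ls A = Ls A * A := AAS_comm hA (by norm_num) (by norm_num)

theorem Ls_symm (hA : Sub A) : (Ls A)ᵀ = Ls A := AAS_symm hA (by norm_num) (by norm_num)

theorem Ls_mono (hA : Sub A) (hB : Sub B) (h : ML A B) : ML (Ls A) (Ls B) :=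
  (h.mul h hA.nn hB.nn).mul (Si_mono hA hB h (by norm_num) (by norm_num))
    (Si_nonneg hA (by norm_num) (by norm_num)) (hB.nn.mul hB.nn)

theorem mulVec_const_le (hA : Sub A) {z : V → ℝ} {c : ℝ} (hc : 0 ≤ c) (hz : ∀ a, z a ≤ c) (a : V) :
    (A *ᵥ z) a ≤ c := hA.le_const hc hz a

theorem Ls_row (hA : Sub A) {z : V → ℝ} {c : ℝ} (hc : 0 ≤ c) (hz : ∀ a, z a ≤ c) (a : V) :
    (Ls A *ᵥ z) a ≤ 100 / 87 * c := by
  unfold Ls
  rw [← Matrix.mulVec_mulVec, ← Matrix.mulVec_mulVec]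
  refine hA.le_const (by positivity) (fun b => hA.le_const (by positivity) (fun d => ?_) b) a
  have h1 := mulVec_mono (Si_nonneg hA (θ := 13 / 100) (by norm_num) (by norm_num)) hz d
  have h2 := Si_exc hA (θ := 13 / 100) (by norm_num) (by norm_num) (z := fun _ => c)
    (fun _ => hc) (fun a => hA.const hc a) d
  have e : (1 : ℝ) / (1 - 13 / 100) = 100 / 87 := by norm_num
  rw [e] at h2
  exact h1.trans h2

theorem Dg_nn (hA : Sub A) {a b c : ℝ} (ha : 0 ≤ a) (hb : 0 ≤ b) (hc : 0 ≤ c) : MN (Dg a b c A) :=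
  (MN.one.add hA.nn).mul (((MN.one.smul ha).add ((Ls_nn hA).smul hb)).add
    (((Ls_nn hA).mul (Ls_nn hA)).smul hc))

theorem Dg_mono (hA : Sub A) (hB : Sub B) (h : ML A B) {a b c : ℝ} (ha : 0 ≤ a) (hb : 0 ≤ b)
    (hc : 0 ≤ c) : ML (Dg a b c A) (Dg a b c B) := by
  have h1 := Ls_mono hA hB h
  refine ((ML.refl _).add h).mul ((((ML.refl _).smul ha).add (h1.smul hb)).add
    ((h1.mul h1 (Ls_nn hA) (Ls_nn hB)).smul hc)) ?_ (MN.one.add hB.nn)
  exact ((MN.one.smul ha).add ((Ls_nn hA).smul hb)).add (((Ls_nn hA).mul (Ls_nn hA)).smul hc)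

theorem inner_comm (hA : Sub A) {a b c : ℝ} : A * (a • 1 + b • Ls A + c • (Ls A * Ls A))
    = (a • 1 + b • Ls A + c • (Ls A * Ls A)) * A := by
  simp only [mul_add, add_mul, Matrix.mul_smul, Matrix.smul_mul, mul_one, one_mul, Ls_comm hA]
  congr 2
  rw [← Matrix.mul_assoc, Ls_comm hA, Matrix.mul_assoc, Ls_comm hA, ← Matrix.mul_assoc]

theorem Dg_comm (hA : Sub A) {a b c : ℝ} : A * Dg a b c A = Dg a b c A * A := by
  unfold Dg
  rw [Matrix.mul_assoc, ← inner_comm hA, ← Matrix.mul_assoc, ← Matrix.mul_assoc]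
  congr 1
  rw [mul_add, add_mul, mul_one, one_mul]

theorem inner_symm (hA : Sub A) {a b c : ℝ} : (a • (1 : Matrix V V ℝ) + b • Ls A
    + c • (Ls A * Ls A))ᵀ = a • 1 + b • Ls A + c • (Ls A * Ls A) := by
  simp only [Matrix.transpose_add, Matrix.transpose_smul, Matrix.transpose_one,
    Matrix.transpose_mul, Ls_symm hA]

theorem Dg_symm (hA : Sub A) {a b c : ℝ} : (Dg a b c A)ᵀ = Dg a b c A := by
  unfold Dg
  have hi := inner_symm hA (a := a) (b := b) (c := c)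
  have hc := inner_comm hA (a := a) (b := b) (c := c)
  generalize a • (1 : Matrix V V ℝ) + b • Ls A + c • (Ls A * Ls A) = I at hi hc ⊢
  rw [Matrix.transpose_mul, hi, Matrix.transpose_add, Matrix.transpose_one, hA.symm,
    mul_add, add_mul, mul_one, one_mul, hc]

theorem ADg_symm (hA : Sub A) {a b c : ℝ} : (A * Dg a b c A)ᵀ = A * Dg a b c A := by
  rw [Matrix.transpose_mul, Dg_symm hA, hA.symm, Dg_comm hA]

theorem inner_row (hA : Sub A) {a b c : ℝ} (ha : 0 ≤ a) (hb : 0 ≤ b) (hc : 0 ≤ c) (d : V) :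
    ((a • (1 : Matrix V V ℝ) + b • Ls A + c • (Ls A * Ls A)) *ᵥ fun _ => 1) d
      ≤ a + b * (100 / 87) + c * (100 / 87 * (100 / 87)) := by
  simp only [Matrix.add_mulVec, Matrix.smul_mulVec, Matrix.one_mulVec, Pi.add_apply,
    Pi.smul_apply, smul_eq_mul, ← Matrix.mulVec_mulVec]
  have h1 : ∀ e, (Ls A *ᵥ fun _ => (1 : ℝ)) e ≤ 100 / 87 := fun e => by
    have := Ls_row hA (zero_le_one) (fun _ => le_refl (1 : ℝ)) e
    linarith
  have h2 := Ls_row hA (z := Ls A *ᵥ fun _ => (1 : ℝ)) (c := 100 / 87) (by norm_num) h1 d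
  have := mul_le_mul_of_nonneg_left (h1 d) hb
  have := mul_le_mul_of_nonneg_left h2 hc
  linarith

theorem ADg_row (hA : Sub A) {a b c : ℝ} (ha : 0 ≤ a) (hb : 0 ≤ b) (hc : 0 ≤ c) (d : V) :
    ((A * Dg a b c A) *ᵥ fun _ => 1) d
      ≤ 2 * (a + b * (100 / 87) + c * (100 / 87 * (100 / 87))) := by
  set k := a + b * (100 / 87) + c * (100 / 87 * (100 / 87)) with hk
  have hk0 : 0 ≤ k := by positivity
  unfold Dg
  rw [← Matrix.mulVec_mulVec, ← Matrix.mulVec_mulVec]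
  refine hA.le_const (by positivity) (fun e => ?_) d
  rw [Matrix.add_mulVec, Matrix.one_mulVec, Pi.add_apply]
  have h1 := inner_row hA ha hb hc e
  have h2 := hA.le_const hk0 (inner_row hA ha hb hc) e
  linarith

end mat

section gx

variable {x : V → V → ℝ} {P : V → Prop} [DecidablePred P] {d β : ℝ}

theorem wt_of (hx : Wt x P d) : Pool.Agent.RCG.Wt x where
  symm := hx.symm
  nonneg := hx.nonneg
  diag := hx.diag
  row := hx.row

/-- the weights as a matrix -/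
def mx (x : V → V → ℝ) : Matrix V V ℝ := x

/-- bilinear form of a matrix -/
noncomputable def Qf (f g : V → ℝ) (M : Matrix V V ℝ) : ℝ := ∑ a, f a * (M *ᵥ g) a

theorem Qf_add (f g : V → ℝ) (M N : Matrix V V ℝ) : Qf f g (M + N) = Qf f g M + Qf f g N := by
  unfold Qf
  rw [← Finset.sum_add_distrib]
  exact Finset.sum_congr rfl fun a _ => by rw [Matrix.add_mulVec, Pi.add_apply, mul_add]

theorem Qf_smul (f g : V → ℝ) (c : ℝ) (M : Matrix V V ℝ) : Qf f g (c • M) = c * Qf f g M := by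
  unfold Qf
  rw [Finset.mul_sum]
  refine Finset.sum_congr rfl fun a _ => ?_
  rw [Matrix.smul_mulVec, Pi.smul_apply, smul_eq_mul]; ring

theorem Qf_mul (f g : V → ℝ) (M N : Matrix V V ℝ) : Qf f g (M * N) = Qf f (N *ᵥ g) M := by
  unfold Qf
  exact Finset.sum_congr rfl fun a _ => by rw [Matrix.mulVec_mulVec]

theorem Qf_move (f g : V → ℝ) {M : Matrix V V ℝ} (hM : Mᵀ = M) (N : Matrix V V ℝ) :
    Qf (M *ᵥ f) g N = Qf f g (M * N) := by
  have e1 : Qf (M *ᵥ f) g N = (M *ᵥ f) ⬝ᵥ (N *ᵥ g) := rfl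
  have e2 : Qf f g (M * N) = f ⬝ᵥ ((M * N) *ᵥ g) := rfl
  rw [e1, e2, ← Matrix.mulVec_mulVec, Matrix.dotProduct_mulVec f, ← Matrix.mulVec_transpose, hM]

theorem Qf_swap (f g : V → ℝ) {M : Matrix V V ℝ} (hM : Mᵀ = M) : Qf f g M = Qf g f M := by
  have e1 : Qf f g M = f ⬝ᵥ (M *ᵥ g) := rfl
  have e2 : Qf g f M = g ⬝ᵥ (M *ᵥ f) := rfl
  rw [e1, e2, Matrix.dotProduct_mulVec f, ← Matrix.mulVec_transpose, hM, dotProduct_comm]

theorem Qf_mono_r {f g g' : V → ℝ} {M : Matrix V V ℝ} (hM : MN M) (hf : ∀ a, 0 ≤ f a)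
    (hg : ∀ a, g a ≤ g' a) : Qf f g M ≤ Qf f g' M :=
  Finset.sum_le_sum fun a _ => mul_le_mul_of_nonneg_left (mulVec_mono hM hg a) (hf a)

theorem Qf_mono_l {f f' g : V → ℝ} {M : Matrix V V ℝ} (hM : MN M) (hg : ∀ a, 0 ≤ g a)
    (hf : ∀ a, f a ≤ f' a) : Qf f g M ≤ Qf f' g M :=
  Finset.sum_le_sum fun a _ => mul_le_mul_of_nonneg_right (hf a) (mulVec_nonneg hM hg a)

theorem Qf_nonneg {f g : V → ℝ} {M : Matrix V V ℝ} (hM : MN M) (hf : ∀ a, 0 ≤ f a)
    (hg : ∀ a, 0 ≤ g a) : 0 ≤ Qf f g M :=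
  Finset.sum_nonneg fun a _ => mul_nonneg (hf a) (mulVec_nonneg hM hg a)

theorem Qf_scal_r (f g : V → ℝ) (c : ℝ) (M : Matrix V V ℝ) :
    Qf f (fun b => c * g b) M = c * Qf f g M := by
  unfold Qf
  have : (fun b => c * g b) = c • g := rfl
  rw [this, Matrix.mulVec_smul, Finset.mul_sum]
  refine Finset.sum_congr rfl fun a _ => ?_
  rw [Pi.smul_apply, smul_eq_mul]; ring

theorem Qf_scal_l (f g : V → ℝ) (c : ℝ) (M : Matrix V V ℝ) :
    Qf (fun b => c * f b) g M = c * Qf f g M := by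
  unfold Qf
  rw [Finset.mul_sum]
  exact Finset.sum_congr rfl fun a _ => by ring

/-- The pair form is at most the form of the kernel. -/
theorem conv_g (hx : Wt x P d) (hδ : ∀ a b, x a b ≤ 1 / 100) {u v : V} (hu : P u) (hv : P v)
    {Bf : Matrix V V ℝ} (hle : ML (mx x * Dg (3174 / 1000) (9 / 10) (71 / 1000) (mx x)) Bf) :
    3174 / 1000 * F12 x ({u, v} : Finset V)ᶜ (x u) (x v)
      + 446 / 1000 * (F12 x ({u, v} : Finset V)ᶜ (x u) (Zs x ({u, v} : Finset V)ᶜ v)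
        + F12 x ({u, v} : Finset V)ᶜ (x v) (Zs x ({u, v} : Finset V)ᶜ u))
      + 69 / 1000 * F12 x ({u, v} : Finset V)ᶜ (Zs x ({u, v} : Finset V)ᶜ u)
        (Zs x ({u, v} : Finset V)ᶜ v) ≤ Wf x P Bf u v := by
  have hX : Pool.Agent.RCG.Wt x := wt_of hx
  have hA : Sub (rm x ({u, v} : Finset V)ᶜ) := sub_rm hx _
  have hXs : Sub (mx x) := sub_x hx
  have hAX : ML (rm x ({u, v} : Finset V)ᶜ) (mx x) := rm_le_x hx _
  have hconv : ∑ a, ∑ b, x u a * (rm x ({u, v} : Finset V)ᶜ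
      * Dg (3174 / 1000) (9 / 10) (71 / 1000) (rm x ({u, v} : Finset V)ᶜ)) a b * x v b
      ≤ Wf x P Bf u v :=
    conv hx hu hv (hA.nn.mul (Dg_nn hA (by norm_num) (by norm_num) (by norm_num))) (Dg_comm hA)
      (fun a b => le_trans ((hAX.mul (Dg_mono hA hXs hAX (by norm_num)
        (by norm_num) (by norm_num)) (Dg_nn hA (by norm_num) (by norm_num) (by norm_num))
        hXs.nn) a b) (hle a b))
  have eF : ∀ f g : V → ℝ, F12 x ({u, v} : Finset V)ᶜ f g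
      = Qf f g (rm x ({u, v} : Finset V)ᶜ * (1 + rm x ({u, v} : Finset V)ᶜ)) := by
    intro f g
    unfold F12 Qf
    have e2 : ∀ a, (rm x ({u, v} : Finset V)ᶜ *ᵥ g) a
        + (rm x ({u, v} : Finset V)ᶜ *ᵥ (rm x ({u, v} : Finset V)ᶜ *ᵥ g)) a
        = ((rm x ({u, v} : Finset V)ᶜ * (1 + rm x ({u, v} : Finset V)ᶜ)) *ᵥ g) a := fun a => by
      rw [mul_add, mul_one, Matrix.add_mulVec, Pi.add_apply, Matrix.mulVec_mulVec]
    rw [Finset.sum_congr rfl fun a _ => by rw [e2 a]]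
    refine Finset.sum_subset (Finset.subset_univ _) fun a _ ha => ?_
    have : ((rm x ({u, v} : Finset V)ᶜ * (1 + rm x ({u, v} : Finset V)ᶜ)) *ᵥ g) a = 0 := by
      rw [← Matrix.mulVec_mulVec]
      simp only [Matrix.mulVec, dotProduct]
      refine Finset.sum_eq_zero fun b _ => ?_
      have : rm x ({u, v} : Finset V)ᶜ a b = 0 := by
        simp only [rm]; rw [if_neg (fun h => ha h.1)]
      rw [this, zero_mul]
    rw [this, mul_zero]
  have hZ0 : ∀ w a, 0 ≤ Zs x ({u, v} : Finset V)ᶜ w a := fun w a => Zs_nonneg hX _ w a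
  have hZ : ∀ w a, Zs x ({u, v} : Finset V)ᶜ w a
      ≤ 100877 / 100000 * (Ls (rm x ({u, v} : Finset V)ᶜ) *ᵥ x w) a := by
    intro w a
    have hF0 : ∀ b, 0 ≤ Fc (x w b) := fun b => Fc_nonneg (hx.nonneg w b)
    have eZ : Zs x ({u, v} : Finset V)ᶜ w
        = Ls (rm x ({u, v} : Finset V)ᶜ) *ᵥ fun b => Fc (x w b) := by
      show rm x ({u, v} : Finset V)ᶜ *ᵥ (rm x ({u, v} : Finset V)ᶜ *ᵥ Rh x ({u, v} : Finset V)ᶜ w)
        = _
      have e1 : Rh x ({u, v} : Finset V)ᶜ w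
          = Si (13 / 100) (rm x ({u, v} : Finset V)ᶜ) *ᵥ fun b => Fc (x w b) :=
        Res_eq_Si hA (by norm_num) (by norm_num) hF0
      rw [e1, Matrix.mulVec_mulVec, Matrix.mulVec_mulVec]
      unfold Ls
      rw [Matrix.mul_assoc]
    rw [eZ]
    have h1 : ∀ b, Fc (x w b) ≤ ((100877 / 100000 : ℝ) • x w) b := fun b =>
      Fc_s (hx.nonneg w b) (hδ w b)
    have h2 := mulVec_mono (Ls_nn hA) h1 a
    rw [Matrix.mulVec_smul, Pi.smul_apply, smul_eq_mul] at h2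
    exact h2
  rw [eF, eF, eF, eF]
  generalize rm x ({u, v} : Finset V)ᶜ = A at *
  have hL0 : ∀ w a, 0 ≤ (Ls A *ᵥ x w) a := fun w a => mulVec_nonneg (Ls_nn hA) (hx.nonneg w) a
  have hG0 : MN (A * (1 + A)) := hA.nn.mul (MN.one.add hA.nn)
  have symG : (A * (1 + A))ᵀ = A * (1 + A) := by
    rw [Matrix.transpose_mul, Matrix.transpose_add, Matrix.transpose_one, hA.symm, add_mul,
      mul_add, one_mul, mul_one]
  have commG : A * (1 + A) * Ls A = Ls A * (A * (1 + A)) := by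
    rw [mul_add, mul_one, add_mul, mul_add, Ls_comm hA, Matrix.mul_assoc A A, Ls_comm hA,
      ← Matrix.mul_assoc A (Ls A) A, Ls_comm hA, Matrix.mul_assoc]
  have t2 : Qf (x u) (Zs x ({u, v} : Finset V)ᶜ v) (A * (1 + A))
      ≤ 100877 / 100000 * Qf (x u) (x v) (A * (1 + A) * Ls A) := by
    refine (Qf_mono_r hG0 (hx.nonneg u) (hZ v)).trans (le_of_eq ?_)
    rw [Qf_scal_r, Qf_mul (x u) (x v) (A * (1 + A)) (Ls A)]
  have t3 : Qf (x v) (Zs x ({u, v} : Finset V)ᶜ u) (A * (1 + A))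
      ≤ 100877 / 100000 * Qf (x u) (x v) (A * (1 + A) * Ls A) := by
    refine (Qf_mono_r hG0 (hx.nonneg v) (hZ u)).trans (le_of_eq ?_)
    rw [Qf_scal_r, Qf_swap (x v) _ symG, Qf_move _ _ (Ls_symm hA), commG]
  have t4 : Qf (Zs x ({u, v} : Finset V)ᶜ u) (Zs x ({u, v} : Finset V)ᶜ v) (A * (1 + A))
      ≤ 100877 / 100000 * (100877 / 100000
        * Qf (x u) (x v) (A * (1 + A) * (Ls A * Ls A))) := by
    refine (Qf_mono_r hG0 (hZ0 u) (hZ v)).trans ?_
    rw [Qf_scal_r]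
    refine mul_le_mul_of_nonneg_left ?_ (by norm_num)
    refine (Qf_mono_l hG0 (hL0 v) (hZ u)).trans (le_of_eq ?_)
    rw [Qf_scal_l, Qf_move _ _ (Ls_symm hA), ← commG,
      ← Matrix.mul_assoc (A * (1 + A)) (Ls A) (Ls A), Qf_mul (x u) (x v) (A * (1 + A) * Ls A) (Ls A)]
  have hsum : Qf (x u) (x v) (A * Dg (3174 / 1000) (9 / 10) (71 / 1000) A)
      = 3174 / 1000 * Qf (x u) (x v) (A * (1 + A))
        + 9 / 10 * Qf (x u) (x v) (A * (1 + A) * Ls A)
        + 71 / 1000 * Qf (x u) (x v) (A * (1 + A) * (Ls A * Ls A)) := by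
    unfold Dg
    rw [← Matrix.mul_assoc, Matrix.mul_add (A * (1 + A)), Matrix.mul_add (A * (1 + A)),
      Matrix.mul_smul, Matrix.mul_smul, Matrix.mul_smul, Matrix.mul_one, Qf_add, Qf_add,
      Qf_smul, Qf_smul, Qf_smul]
  have e3 : ∑ a, ∑ b, x u a * (A * Dg (3174 / 1000) (9 / 10) (71 / 1000) A) a b * x v b
      = Qf (x u) (x v) (A * Dg (3174 / 1000) (9 / 10) (71 / 1000) A) := by
    unfold Qf
    refine Finset.sum_congr rfl fun a _ => ?_
    simp only [Matrix.mulVec, dotProduct, Finset.mul_sum]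
    exact Finset.sum_congr rfl fun b _ => by ring
  rw [e3, hsum] at hconv
  refine le_trans ?_ hconv
  have q1 : 0 ≤ Qf (x u) (x v) (A * (1 + A) * Ls A) :=
    Qf_nonneg (hG0.mul (Ls_nn hA)) (hx.nonneg u) (hx.nonneg v)
  have q2 : 0 ≤ Qf (x u) (x v) (A * (1 + A) * (Ls A * Ls A)) :=
    Qf_nonneg (hG0.mul ((Ls_nn hA).mul (Ls_nn hA))) (hx.nonneg u) (hx.nonneg v)
  linarith

end gx

end Pool.Agent.RCG.Ct
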