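import Pool.Agent.RCG.Poly4

/-! Polynomials given by integer coefficient lists (MP_73ccd0_lc, certificate). -/

namespace Pool.Agent.RCG

open QE

/-- value of an integer coefficient list (Horner) -/
noncomputable def hz : List ℤ → ℝ → ℝ
  | [], _ => 0
  | a :: l, t => (a : ℝ) + t * hz l t

/-- sum of coefficient lists -/
def zadd : List ℤ → List ℤ → List ℤ
  | [], l => l
  | a :: l, [] => a :: l
  | a :: l, b :: m => (a + b) :: zadd l m

theorem hz_zadd (l m : List ℤ) (t : ℝ) : hz (zadd l m) t = hz l t + hz m t := by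
  induction l generalizing m with
  | nil => simp [zadd, hz]
  | cons a l ih =>
    cases m with
    | nil => simp [zadd, hz]
    | cons b m =>
      simp only [zadd, hz, ih]
      push_cast
      ring

/-- derivative of a coefficient list -/
def ldf : List ℤ → List ℤ
  | [] => []
  | _ :: l => zadd l (0 :: ldf l)

theorem hz_hasDerivAt (l : List ℤ) (t : ℝ) : HasDerivAt (hz l) (hz (ldf l) t) t := by
  induction l with
  | nil => simpa [hz, ldf] using hasDerivAt_const t (0 : ℝ)
  | cons a l ih =>
    have h1 : HasDerivAt (fun s : ℝ => (a : ℝ) + s * hz l s) (1 * hz l t + t * hz (ldf l) t) t :=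
      ((hasDerivAt_id t).mul ih).const_add _
    have e : hz (ldf (a :: l)) t = 1 * hz l t + t * hz (ldf l) t := by
      simp only [ldf, hz_zadd, hz]
      push_cast
      ring
    rw [e]
    exact h1

/-- polynomial expression of a coefficient list in a given variable -/
def lq (v : QE) : List ℤ → QE
  | [] => QE.c 0 1
  | a :: l => QE.add (QE.c a 1) (QE.mul v (lq v l))

theorem eval_lq (x y z w : ℝ) (v : QE) (l : List ℤ) :
    QE.eval x y z w (lq v l) = hz l (QE.eval x y z w v) := by
  induction l with
  | nil => simp [lq, hz, QE.eval]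
  | cons a l ih =>
    simp only [lq, hz, QE.eval, ih]
    norm_num

/-- polynomials with a common denominator -/
structure PL where
  d : ℕ
  l : List ℤ

namespace PL

noncomputable def v (p : PL) (t : ℝ) : ℝ := hz p.l t / (p.d : ℝ)

def df (p : PL) : PL := ⟨p.d, ldf p.l⟩

theorem hasDerivAt (p : PL) (t : ℝ) : HasDerivAt p.v (p.df.v t) t := by
  have := (hz_hasDerivAt p.l t).div_const (p.d : ℝ)
  exact this

/-- expression in the variable `A` -/
def q (p : PL) : QE := QE.mul (QE.c 1 p.d) (lq QE.A p.l)

theorem eval_q (x y z w : ℝ) (p : PL) : QE.eval x y z w p.q = p.v x := by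
  unfold q v
  simp only [QE.eval, eval_lq]
  push_cast
  rw [one_div, mul_comm, ← div_eq_mul_inv]

theorem continuous (p : PL) : Continuous p.v :=
  continuous_iff_continuousAt.2 fun t => (p.hasDerivAt t).continuousAt

end PL

namespace QE

instance : Add QE := ⟨QE.add⟩
instance : Mul QE := ⟨QE.mul⟩
instance : Sub QE := ⟨fun a b => QE.add a (QE.mul (QE.c (-1) 1) b)⟩

theorem eval_add' (x y z w : ℝ) (a b : QE) : eval x y z w (a + b)
    = eval x y z w a + eval x y z w b := rfl
theorem eval_mul' (x y z w : ℝ) (a b : QE) : eval x y z w (a * b)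
    = eval x y z w a * eval x y z w b := rfl
theorem eval_sub' (x y z w : ℝ) (a b : QE) : eval x y z w (a - b)
    = eval x y z w a - eval x y z w b := by
  have : eval x y z w (a - b) = eval x y z w a + (((-1 : ℤ) : ℝ) / ((1 : ℕ) : ℝ)) * eval x y z w b :=
    rfl
  rw [this]; push_cast; ring
theorem eval_c (x y z w : ℝ) (n : ℤ) (d : ℕ) : eval x y z w (QE.c n d) = (n : ℝ) / (d : ℝ) := rfl
theorem eval_A (x y z w : ℝ) : eval x y z w QE.A = x := rfl
theorem eval_B (x y z w : ℝ) : eval x y z w QE.B = y := rfl

end QE

end Pool.Agent.RCG
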