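import Pool.Agent.RCG.CtE
import Pool.Agent.RCG.CtP

/-! Numerical data of the certificate, stage 1 (generated; MP_73ccd0_lc). -/

namespace Pool.Agent.RCG.Ct.N1

open Set QE

set_option maxRecDepth 100000
set_option linter.unusedSimpArgs false

def pa : PL := ⟨100000, [0, 337966, -1885737, 5375630, -9011326, 8765275, -4565757, 983949]⟩
def pe1 : PL := ⟨100000, [0, 0, 192036, -895993, 2050192, -2803436, 2292656, -1032100, 196645]⟩
def pe2 : PL := ⟨100000, [0, 0, 39310, -170101, 374694, -501372, 401828, -177775, 33416]⟩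
def pg : PL := ⟨6000000, [0, 5999340, -2988840, 1906840, -1155855, 501528, -104480]⟩
def pjj : PL := ⟨200000000, [0, 0, 344725320, -1282301160, 2741571300, -3676621008, 2980193500, -1330592040, 250906995]⟩
def pn1 : PL := ⟨120000000, [0, 0, 0, 80655120, -282237795, 516648384, -588721560, 412678080, -162555750, 27530300]⟩
def pn2 : PL := ⟨240000000, [0, 0, 0, 33020400, -107163630, 188845776, -210576240, 144658080, -55999125, 9356480]⟩
def pnn : PL := ⟨100000, [0, 3142806, -12215868, 15932405, -6855284]⟩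
def pG0 : PL := ⟨100000, [0, 408398, -2148646, 4949689, -5099945, -242222, 5549682, -4712583, 1320062, -24435]⟩
def pG1 : PL := ⟨100000, [0, 5676520, -19359653, 12782812, 14092268, -5393695, -10741330, -5359135, 8438705]⟩
def pk2 : PL := ⟨100000, [103412, -901826, 3040169, -3538712, -3189824, 12105005, -10974452, 3357550]⟩
def pc0 : PL := ⟨20, [0, 0, 0, 0, 1]⟩
def pc1 : PL := ⟨100000, [0, 0, 105001, -102860, 92428, -54392, 35975, -16594, 3601]⟩
def pc2 : PL := ⟨625, [0, 0, 0, 0, 375, -450, 300, -81]⟩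
def pcc : PL := ⟨100000, [0, 0, 105001, -102860, 92428, -54392, 78415, -16594, 3601]⟩
def pr0 : PL := ⟨50, [0, 0, 0, 0, 3]⟩
def pU : PL := ⟨5, [2, -2]⟩
def pU1 : PL := ⟨1, [2]⟩
def pUe : PL := ⟨19212480, [0, 11998680, -11977020, 6802520, -4218550, 2158911, -710488, 104480]⟩
def T : QE := QE.c 1 1 + QE.A
def T2 : QE := T * T
def eb : QE := pe1.q + QE.c 683 250 * pe2.q
def Ch : QE := QE.c 1 100 * (pc0.q + QE.c 20013 12500 * pcc.q)
def JN : QE := pjj.q + pnn.q * QE.c 20013 12500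
def y : QE := QE.c 1 100 * QE.B

theorem ck_an : nonnegB 6 0 0 0 (pa.q) = true := by decide +kernel
theorem ck_e1n : nonnegB 6 0 0 0 (pe1.q) = true := by decide +kernel
theorem ck_e2n : nonnegB 6 0 0 0 (pe2.q) = true := by decide +kernel
theorem ck_gn : nonnegB 6 0 0 0 (pg.q) = true := by decide +kernel
theorem ck_jjn : nonnegB 6 0 0 0 (pjj.q) = true := by decide +kernel
theorem ck_nnn : nonnegB 6 0 0 0 (pnn.q) = true := by decide +kernel
theorem ck_G0n : nonnegB 6 0 0 0 (pG0.q) = true := by decide +kernel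
theorem ck_G1n : nonnegB 6 0 0 0 (pG1.q) = true := by decide +kernel
theorem ck_k2n : nonnegB 6 0 0 0 (pk2.q) = true := by decide +kernel
theorem ck_c0n : nonnegB 6 0 0 0 (pc0.q) = true := by decide +kernel
theorem ck_c1n : nonnegB 6 0 0 0 (pc1.q) = true := by decide +kernel
theorem ck_c2n : nonnegB 6 0 0 0 (pc2.q) = true := by decide +kernel
theorem ck_rn : nonnegB 6 0 0 0 (pr0.q) = true := by decide +kernel
theorem ck_Un : nonnegB 6 0 0 0 (pU.q) = true := by decide +kernel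
theorem ck_Un' : nonnegB 6 0 0 0 (pU1.q) = true := by decide +kernel
theorem ck_Uen : nonnegB 6 0 0 0 (pUe.q) = true := by decide +kernel
theorem ck_gi : nonnegB 6 0 0 0 (QE.c 1 1 - T * pg.df.q) = true := by decide +kernel
theorem ck_jji : nonnegB 6 0 0 0 (pjj.df.q - QE.c 51 50 * pa.q) = true := by decide +kernel
theorem ck_n1i : nonnegB 6 0 0 0 (pn1.df.q - QE.c 21 20 * pe1.q) = true := by decide +kernel
theorem ck_n2i : nonnegB 6 0 0 0 (pn2.df.q - QE.c 21 20 * pe2.q) = true := by decide +kernel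
theorem ck_ai : nonnegB 6 0 0 0 (QE.c 1 20 + QE.c 1 10000 * (T2 * pa.df.q)) = true := by decide +kernel
theorem ck_cc1 : nonnegB 6 0 0 0 (pcc.q - pc1.q) = true := by decide +kernel
theorem ck_cc2 : nonnegB 6 0 0 0 (QE.c 11 50 * pcc.q - pc2.q) = true := by decide +kernel
theorem ck_Ch1 : nonnegB 6 0 0 0 (QE.c 1 2 - Ch) = true := by decide +kernel
theorem ck_B1a : nonnegB 6 0 0 0 (pG0.q - (pc1.q + T2 * pe1.df.q)) = true := by decide +kernel
theorem ck_B1b : nonnegB 6 0 0 0 (pG1.q + T2 * pa.df.q * pc1.q) = true := by decide +kernel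
theorem ck_B2a : nonnegB 6 0 0 0 (QE.c 11 50 * pG0.q - (pc2.q + T2 * pe2.df.q)) = true := by decide +kernel
theorem ck_B2b : nonnegB 6 0 0 0 (QE.c 11 50 * pG1.q + T2 * pa.df.q * pc2.q) = true := by decide +kernel
theorem ck_N1 : nonnegB 6 0 0 0 (pnn.q - (pn1.q - QE.c 199 200 * (T * pe1.q))) = true := by decide +kernel
theorem ck_N2 : nonnegB 6 0 0 0 (QE.c 11 50 * pnn.q - (pn2.q - QE.c 199 200 * (T * pe2.q))) = true := by decide +kernel
theorem ck_ri0 : nonnegB 6 0 0 0 ((QE.c 1 1 - Ch) * pr0.q - pc0.q) = true := by decide +kernel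
theorem ck_ri1 : nonnegB 6 0 0 0 ((QE.c 1 1 - Ch) * pr0.q - (QE.c 1 1 - QE.c 1 100 * (T2 * pa.df.q)) * pc0.q) = true := by decide +kernel
theorem ck_C3a : nonnegB 6 0 0 0 ((QE.c 1 1 - Ch) * (T * (pa.q - eb)) - QE.c 20013 25000 * pG0.q) = true := by decide +kernel
theorem ck_C3b : nonnegB 6 0 0 0 ((QE.c 1 1 - Ch) * (QE.c 100 1 * pk2.q - (QE.c 1 1 + QE.c 1 50 * pg.q) * JN) - QE.c 20013 25000 * pG1.q) = true := by decide +kernel
theorem ck_C0 : nonnegB 6 4 0 0 (QE.c 2 1 * pg.q - (QE.c 2 1 * (QE.c 1 1 - y) * pk2.q + pr0.q - T2 * pa.df.q + QE.c 2 1 * (eb * (y * (T * (QE.c 1 1 + QE.c 2 1 * (y * pg.q))))))) = true := by decide +kernel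
theorem ck_C1 : nonnegB 6 4 0 0 ((QE.c 1 1 + QE.c 2 1 * (y * pg.q)) * (QE.c 1 1 - eb * (y * y * T)) * (QE.c 1 1 - QE.c 2 1 * (y * (QE.c 1 100 * JN))) - (QE.c 1 1 + y * (y * (T * pa.q)))) = true := by decide +kernel
theorem ck_J1 : nonnegB 6 0 0 0 (QE.c 1 1 - QE.c 2 1 * (QE.c 1 100 * (QE.c 1 100 * JN))) = true := by decide +kernel
theorem ck_D1 : nonnegB 6 0 0 0 (QE.c 1 199 - QE.c 1 10000 * (T * pa.q)) = true := by decide +kernel
theorem ck_P1 : nonnegB 6 0 0 0 (QE.c 1 1 - eb * (QE.c 1 10000 * T)) = true := by decide +kernel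
theorem ck_et : nonnegB 6 0 0 0 (pa.q - eb) = true := by decide +kernel
theorem ck_BU : nonnegB 6 0 0 0 (QE.c 1 200 - QE.c 1 100 * (T * pa.q)) = true := by decide +kernel
theorem ck_U1 : nonnegB 6 0 0 0 (pU.q - T2 * pe1.df.q) = true := by decide +kernel
theorem ck_U2 : nonnegB 6 0 0 0 (QE.c 11 50 * pU.q - T2 * pe2.df.q) = true := by decide +kernel
theorem ck_U3 : nonnegB 6 0 0 0 (QE.c 1 50 - pU.q * QE.c 20013 1250000) = true := by decide +kernel
theorem ck_U4 : nonnegB 6 0 0 0 (QE.c 1 50 - (pU.q * QE.c 20013 1250000 - QE.c 1 100 * (T2 * pa.df.q))) = true := by decide +kernel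
theorem ck_V1 : nonnegB 6 0 0 0 (pU1.q + T2 * pe1.df.q) = true := by decide +kernel
theorem ck_V2 : nonnegB 6 0 0 0 (QE.c 11 50 * pU1.q + T2 * pe2.df.q) = true := by decide +kernel
theorem ck_V3 : nonnegB 6 0 0 0 (QE.c 1 2 - pU1.q * QE.c 20013 1250000) = true := by decide +kernel
theorem ck_V4 : nonnegB 6 0 0 0 (QE.c 1 2 - (pU1.q * QE.c 20013 1250000 + QE.c 1 100 * (T2 * pa.df.q))) = true := by decide +kernel
theorem ck_X1 : nonnegB 6 0 0 0 (pUe.q - T * pe1.q) = true := by decide +kernel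
theorem ck_X2 : nonnegB 6 0 0 0 (QE.c 11 50 * pUe.q - T * pe2.q) = true := by decide +kernel
theorem ck_X3 : nonnegB 6 0 0 0 (QE.c 1 100 * pg.q - pUe.q * QE.c 20013 1250000) = true := by decide +kernel
theorem ck_X4 : nonnegB 6 0 0 0 (QE.c 1 100 * pg.q - (pUe.q * QE.c 20013 1250000 + QE.c 1 100 * (pjj.q - T * pa.q))) = true := by decide +kernel

/-- the data -/
noncomputable def N : Num where
  d := 1 / 100
  β := 683 / 250
  cW := 11 / 50
  r := 1 / 50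
  rE := 1 / 100
  a := pa.v
  a' := pa.df.v
  e1 := pe1.v
  e1' := pe1.df.v
  e2 := pe2.v
  e2' := pe2.df.v
  g := pg.v
  g' := pg.df.v
  jj := pjj.v
  jj' := pjj.df.v
  n1 := pn1.v
  n1' := pn1.df.v
  n2 := pn2.v
  n2' := pn2.df.v
  nn := pnn.v
  G0 := pG0.v
  G1 := pG1.v
  k2 := pk2.v
  c0 := pc0.v
  c1 := pc1.v
  c2 := pc2.v
  cc := pcc.v
  r0 := pr0.v
  U := pU.v
  U' := pU1.v
  Ue := pUe.v

theorem K_eq : N.K = 20013 / 12500 := by
  show 1 + (11 / 50 : ℝ) * (683 / 250) = 20013 / 12500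
  norm_num

theorem of_ck {e : QE} {n m : ℕ} (h : nonnegB n m 0 0 e = true) {t : ℝ} (ht : t ∈ Icc (0 : ℝ) 1) :
    0 ≤ QE.eval t 0 0 0 e :=
  nonneg_of_check h ht.1 ht.2 le_rfl zero_le_one le_rfl zero_le_one le_rfl zero_le_one

theorem of_ck2 {e : QE} {n m : ℕ} (h : nonnegB n m 0 0 e = true) {t s : ℝ}
    (ht : t ∈ Icc (0 : ℝ) 1) (hs : s ∈ Icc (0 : ℝ) 1) : 0 ≤ QE.eval t s 0 0 e :=
  nonneg_of_check h ht.1 ht.2 hs.1 hs.2 le_rfl zero_le_one le_rfl zero_le_one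

theorem f_an {t : ℝ} (ht : t ∈ Icc (0 : ℝ) 1) : 0 ≤ pa.v t := by
  have h := of_ck ck_an ht
  simp only [T, T2, eb, Ch, JN, y, eval_sub', eval_add', eval_mul', eval_c, eval_A, eval_B, PL.eval_q] at h
  push_cast at h
  linarith
theorem f_e1n {t : ℝ} (ht : t ∈ Icc (0 : ℝ) 1) : 0 ≤ pe1.v t := by
  have h := of_ck ck_e1n ht
  simp only [T, T2, eb, Ch, JN, y, eval_sub', eval_add', eval_mul', eval_c, eval_A, eval_B, PL.eval_q] at h
  push_cast at h
  linarith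
theorem f_e2n {t : ℝ} (ht : t ∈ Icc (0 : ℝ) 1) : 0 ≤ pe2.v t := by
  have h := of_ck ck_e2n ht
  simp only [T, T2, eb, Ch, JN, y, eval_sub', eval_add', eval_mul', eval_c, eval_A, eval_B, PL.eval_q] at h
  push_cast at h
  linarith
theorem f_gn {t : ℝ} (ht : t ∈ Icc (0 : ℝ) 1) : 0 ≤ pg.v t := by
  have h := of_ck ck_gn ht
  simp only [T, T2, eb, Ch, JN, y, eval_sub', eval_add', eval_mul', eval_c, eval_A, eval_B, PL.eval_q] at h
  push_cast at h
  linarith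
theorem f_jjn {t : ℝ} (ht : t ∈ Icc (0 : ℝ) 1) : 0 ≤ pjj.v t := by
  have h := of_ck ck_jjn ht
  simp only [T, T2, eb, Ch, JN, y, eval_sub', eval_add', eval_mul', eval_c, eval_A, eval_B, PL.eval_q] at h
  push_cast at h
  linarith
theorem f_nnn {t : ℝ} (ht : t ∈ Icc (0 : ℝ) 1) : 0 ≤ pnn.v t := by
  have h := of_ck ck_nnn ht
  simp only [T, T2, eb, Ch, JN, y, eval_sub', eval_add', eval_mul', eval_c, eval_A, eval_B, PL.eval_q] at h
  push_cast at h
  linarith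
theorem f_G0n {t : ℝ} (ht : t ∈ Icc (0 : ℝ) 1) : 0 ≤ pG0.v t := by
  have h := of_ck ck_G0n ht
  simp only [T, T2, eb, Ch, JN, y, eval_sub', eval_add', eval_mul', eval_c, eval_A, eval_B, PL.eval_q] at h
  push_cast at h
  linarith
theorem f_G1n {t : ℝ} (ht : t ∈ Icc (0 : ℝ) 1) : 0 ≤ pG1.v t := by
  have h := of_ck ck_G1n ht
  simp only [T, T2, eb, Ch, JN, y, eval_sub', eval_add', eval_mul', eval_c, eval_A, eval_B, PL.eval_q] at h
  push_cast at h
  linarith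
theorem f_k2n {t : ℝ} (ht : t ∈ Icc (0 : ℝ) 1) : 0 ≤ pk2.v t := by
  have h := of_ck ck_k2n ht
  simp only [T, T2, eb, Ch, JN, y, eval_sub', eval_add', eval_mul', eval_c, eval_A, eval_B, PL.eval_q] at h
  push_cast at h
  linarith
theorem f_c0n {t : ℝ} (ht : t ∈ Icc (0 : ℝ) 1) : 0 ≤ pc0.v t := by
  have h := of_ck ck_c0n ht
  simp only [T, T2, eb, Ch, JN, y, eval_sub', eval_add', eval_mul', eval_c, eval_A, eval_B, PL.eval_q] at h
  push_cast at h
  linarith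
theorem f_c1n {t : ℝ} (ht : t ∈ Icc (0 : ℝ) 1) : 0 ≤ pc1.v t := by
  have h := of_ck ck_c1n ht
  simp only [T, T2, eb, Ch, JN, y, eval_sub', eval_add', eval_mul', eval_c, eval_A, eval_B, PL.eval_q] at h
  push_cast at h
  linarith
theorem f_c2n {t : ℝ} (ht : t ∈ Icc (0 : ℝ) 1) : 0 ≤ pc2.v t := by
  have h := of_ck ck_c2n ht
  simp only [T, T2, eb, Ch, JN, y, eval_sub', eval_add', eval_mul', eval_c, eval_A, eval_B, PL.eval_q] at h
  push_cast at h
  linarith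
theorem f_rn {t : ℝ} (ht : t ∈ Icc (0 : ℝ) 1) : 0 ≤ pr0.v t := by
  have h := of_ck ck_rn ht
  simp only [T, T2, eb, Ch, JN, y, eval_sub', eval_add', eval_mul', eval_c, eval_A, eval_B, PL.eval_q] at h
  push_cast at h
  linarith
theorem f_Un {t : ℝ} (ht : t ∈ Icc (0 : ℝ) 1) : 0 ≤ pU.v t := by
  have h := of_ck ck_Un ht
  simp only [T, T2, eb, Ch, JN, y, eval_sub', eval_add', eval_mul', eval_c, eval_A, eval_B, PL.eval_q] at h
  push_cast at h
  linarith
theorem f_Un' {t : ℝ} (ht : t ∈ Icc (0 : ℝ) 1) : 0 ≤ pU1.v t := by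
  have h := of_ck ck_Un' ht
  simp only [T, T2, eb, Ch, JN, y, eval_sub', eval_add', eval_mul', eval_c, eval_A, eval_B, PL.eval_q] at h
  push_cast at h
  linarith
theorem f_Uen {t : ℝ} (ht : t ∈ Icc (0 : ℝ) 1) : 0 ≤ pUe.v t := by
  have h := of_ck ck_Uen ht
  simp only [T, T2, eb, Ch, JN, y, eval_sub', eval_add', eval_mul', eval_c, eval_A, eval_B, PL.eval_q] at h
  push_cast at h
  linarith
theorem f_gi {t : ℝ} (ht : t ∈ Icc (0 : ℝ) 1) : (1 + t) * pg.df.v t ≤ 1 := by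
  have h := of_ck ck_gi ht
  simp only [T, T2, eb, Ch, JN, y, eval_sub', eval_add', eval_mul', eval_c, eval_A, eval_B, PL.eval_q] at h
  push_cast at h
  linarith
theorem f_jji {t : ℝ} (ht : t ∈ Icc (0 : ℝ) 1) : (1 + 1 / 50) * pa.v t ≤ pjj.df.v t := by
  have h := of_ck ck_jji ht
  simp only [T, T2, eb, Ch, JN, y, eval_sub', eval_add', eval_mul', eval_c, eval_A, eval_B, PL.eval_q] at h
  push_cast at h
  linarith
theorem f_n1i {t : ℝ} (ht : t ∈ Icc (0 : ℝ) 1) : 21 / 20 * pe1.v t ≤ pn1.df.v t := by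
  have h := of_ck ck_n1i ht
  simp only [T, T2, eb, Ch, JN, y, eval_sub', eval_add', eval_mul', eval_c, eval_A, eval_B, PL.eval_q] at h
  push_cast at h
  linarith
theorem f_n2i {t : ℝ} (ht : t ∈ Icc (0 : ℝ) 1) : 21 / 20 * pe2.v t ≤ pn2.df.v t := by
  have h := of_ck ck_n2i ht
  simp only [T, T2, eb, Ch, JN, y, eval_sub', eval_add', eval_mul', eval_c, eval_A, eval_B, PL.eval_q] at h
  push_cast at h
  linarith
theorem f_ai {t : ℝ} (ht : t ∈ Icc (0 : ℝ) 1) : -((1 / 100) ^ 2 * ((1 + t) ^ 2 * pa.df.v t)) ≤ 1 / 20 := by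
  have h := of_ck ck_ai ht
  simp only [T, T2, eb, Ch, JN, y, eval_sub', eval_add', eval_mul', eval_c, eval_A, eval_B, PL.eval_q] at h
  push_cast at h
  linarith
theorem f_cc1 {t : ℝ} (ht : t ∈ Icc (0 : ℝ) 1) : pc1.v t ≤ pcc.v t := by
  have h := of_ck ck_cc1 ht
  simp only [T, T2, eb, Ch, JN, y, eval_sub', eval_add', eval_mul', eval_c, eval_A, eval_B, PL.eval_q] at h
  push_cast at h
  linarith
theorem f_cc2 {t : ℝ} (ht : t ∈ Icc (0 : ℝ) 1) : pc2.v t ≤ 11 / 50 * pcc.v t := by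
  have h := of_ck ck_cc2 ht
  simp only [T, T2, eb, Ch, JN, y, eval_sub', eval_add', eval_mul', eval_c, eval_A, eval_B, PL.eval_q] at h
  push_cast at h
  linarith
theorem f_Ch1 {t : ℝ} (ht : t ∈ Icc (0 : ℝ) 1) : (1 / 100 * (pc0.v t + (20013 / 12500) * pcc.v t)) ≤ 1 / 2 := by
  have h := of_ck ck_Ch1 ht
  simp only [T, T2, eb, Ch, JN, y, eval_sub', eval_add', eval_mul', eval_c, eval_A, eval_B, PL.eval_q] at h
  push_cast at h
  linarith
theorem f_B1a {t : ℝ} (ht : t ∈ Icc (0 : ℝ) 1) : pc1.v t + (1 + t) ^ 2 * pe1.df.v t ≤ pG0.v t := by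
  have h := of_ck ck_B1a ht
  simp only [T, T2, eb, Ch, JN, y, eval_sub', eval_add', eval_mul', eval_c, eval_A, eval_B, PL.eval_q] at h
  push_cast at h
  linarith
theorem f_B1b {t : ℝ} (ht : t ∈ Icc (0 : ℝ) 1) : -((1 + t) ^ 2 * pa.df.v t * pc1.v t) ≤ pG1.v t := by
  have h := of_ck ck_B1b ht
  simp only [T, T2, eb, Ch, JN, y, eval_sub', eval_add', eval_mul', eval_c, eval_A, eval_B, PL.eval_q] at h
  push_cast at h
  linarith
theorem f_B2a {t : ℝ} (ht : t ∈ Icc (0 : ℝ) 1) : pc2.v t + (1 + t) ^ 2 * pe2.df.v t ≤ 11 / 50 * pG0.v t := by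
  have h := of_ck ck_B2a ht
  simp only [T, T2, eb, Ch, JN, y, eval_sub', eval_add', eval_mul', eval_c, eval_A, eval_B, PL.eval_q] at h
  push_cast at h
  linarith
theorem f_B2b {t : ℝ} (ht : t ∈ Icc (0 : ℝ) 1) : -((1 + t) ^ 2 * pa.df.v t * pc2.v t) ≤ 11 / 50 * pG1.v t := by
  have h := of_ck ck_B2b ht
  simp only [T, T2, eb, Ch, JN, y, eval_sub', eval_add', eval_mul', eval_c, eval_A, eval_B, PL.eval_q] at h
  push_cast at h
  linarith
theorem f_N1 {t : ℝ} (ht : t ∈ Icc (0 : ℝ) 1) : pn1.v t - 199 / 200 * ((1 + t) * pe1.v t) ≤ pnn.v t := by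
  have h := of_ck ck_N1 ht
  simp only [T, T2, eb, Ch, JN, y, eval_sub', eval_add', eval_mul', eval_c, eval_A, eval_B, PL.eval_q] at h
  push_cast at h
  linarith
theorem f_N2 {t : ℝ} (ht : t ∈ Icc (0 : ℝ) 1) : pn2.v t - 199 / 200 * ((1 + t) * pe2.v t) ≤ 11 / 50 * pnn.v t := by
  have h := of_ck ck_N2 ht
  simp only [T, T2, eb, Ch, JN, y, eval_sub', eval_add', eval_mul', eval_c, eval_A, eval_B, PL.eval_q] at h
  push_cast at h
  linarith
theorem f_ri0 {t : ℝ} (ht : t ∈ Icc (0 : ℝ) 1) : pc0.v t ≤ (1 - (1 / 100 * (pc0.v t + (20013 / 12500) * pcc.v t))) * pr0.v t := by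
  have h := of_ck ck_ri0 ht
  simp only [T, T2, eb, Ch, JN, y, eval_sub', eval_add', eval_mul', eval_c, eval_A, eval_B, PL.eval_q] at h
  push_cast at h
  linarith
theorem f_ri1 {t : ℝ} (ht : t ∈ Icc (0 : ℝ) 1) : (1 - 1 / 100 * ((1 + t) ^ 2 * pa.df.v t)) * pc0.v t ≤ (1 - (1 / 100 * (pc0.v t + (20013 / 12500) * pcc.v t))) * pr0.v t := by
  have h := of_ck ck_ri1 ht
  simp only [T, T2, eb, Ch, JN, y, eval_sub', eval_add', eval_mul', eval_c, eval_A, eval_B, PL.eval_q] at h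
  push_cast at h
  linarith
theorem f_C3a {t : ℝ} (ht : t ∈ Icc (0 : ℝ) 1) : pG0.v t * (20013 / 12500) / 2 ≤ (1 - (1 / 100 * (pc0.v t + (20013 / 12500) * pcc.v t))) * ((1 + t) * (pa.v t - (pe1.v t + 683 / 250 * pe2.v t))) := by
  have h := of_ck ck_C3a ht
  simp only [T, T2, eb, Ch, JN, y, eval_sub', eval_add', eval_mul', eval_c, eval_A, eval_B, PL.eval_q] at h
  push_cast at h
  linarith
theorem f_C3b {t : ℝ} (ht : t ∈ Icc (0 : ℝ) 1) : pG1.v t * (20013 / 12500) / 2 ≤ (1 - (1 / 100 * (pc0.v t + (20013 / 12500) * pcc.v t))) * (pk2.v t / (1 / 100) - (1 + 2 * (1 / 100 * pg.v t)) * (pjj.v t + pnn.v t * (20013 / 12500))) := by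
  have h := of_ck ck_C3b ht
  simp only [T, T2, eb, Ch, JN, y, eval_sub', eval_add', eval_mul', eval_c, eval_A, eval_B, PL.eval_q] at h
  push_cast at h
  linarith
theorem f_J1 {t : ℝ} (ht : t ∈ Icc (0 : ℝ) 1) : 2 * (1 / 100 * (1 / 100 * (pjj.v t + pnn.v t * (20013 / 12500)))) ≤ 1 := by
  have h := of_ck ck_J1 ht
  simp only [T, T2, eb, Ch, JN, y, eval_sub', eval_add', eval_mul', eval_c, eval_A, eval_B, PL.eval_q] at h
  push_cast at h
  linarith
theorem f_D1 {t : ℝ} (ht : t ∈ Icc (0 : ℝ) 1) : (1 / 100) ^ 2 * ((1 + t) * pa.v t) ≤ 1 / 199 := by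
  have h := of_ck ck_D1 ht
  simp only [T, T2, eb, Ch, JN, y, eval_sub', eval_add', eval_mul', eval_c, eval_A, eval_B, PL.eval_q] at h
  push_cast at h
  linarith
theorem f_P1 {t : ℝ} (ht : t ∈ Icc (0 : ℝ) 1) : (pe1.v t + 683 / 250 * pe2.v t) * ((1 / 100) ^ 2 * (1 + t)) ≤ 1 := by
  have h := of_ck ck_P1 ht
  simp only [T, T2, eb, Ch, JN, y, eval_sub', eval_add', eval_mul', eval_c, eval_A, eval_B, PL.eval_q] at h
  push_cast at h
  linarith
theorem f_et {t : ℝ} (ht : t ∈ Icc (0 : ℝ) 1) : (pe1.v t + 683 / 250 * pe2.v t) ≤ pa.v t := by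
  have h := of_ck ck_et ht
  simp only [T, T2, eb, Ch, JN, y, eval_sub', eval_add', eval_mul', eval_c, eval_A, eval_B, PL.eval_q] at h
  push_cast at h
  linarith
theorem f_BU {t : ℝ} (ht : t ∈ Icc (0 : ℝ) 1) : 1 / 100 * ((1 + t) * pa.v t) ≤ 1 / 200 := by
  have h := of_ck ck_BU ht
  simp only [T, T2, eb, Ch, JN, y, eval_sub', eval_add', eval_mul', eval_c, eval_A, eval_B, PL.eval_q] at h
  push_cast at h
  linarith
theorem f_U1 {t : ℝ} (ht : t ∈ Icc (0 : ℝ) 1) : (1 + t) ^ 2 * pe1.df.v t ≤ pU.v t := by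
  have h := of_ck ck_U1 ht
  simp only [T, T2, eb, Ch, JN, y, eval_sub', eval_add', eval_mul', eval_c, eval_A, eval_B, PL.eval_q] at h
  push_cast at h
  linarith
theorem f_U2 {t : ℝ} (ht : t ∈ Icc (0 : ℝ) 1) : (1 + t) ^ 2 * pe2.df.v t ≤ 11 / 50 * pU.v t := by
  have h := of_ck ck_U2 ht
  simp only [T, T2, eb, Ch, JN, y, eval_sub', eval_add', eval_mul', eval_c, eval_A, eval_B, PL.eval_q] at h
  push_cast at h
  linarith
theorem f_U3 {t : ℝ} (ht : t ∈ Icc (0 : ℝ) 1) : pU.v t * ((20013 / 12500) * (1 / 100)) ≤ 1 / 50 := by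
  have h := of_ck ck_U3 ht
  simp only [T, T2, eb, Ch, JN, y, eval_sub', eval_add', eval_mul', eval_c, eval_A, eval_B, PL.eval_q] at h
  push_cast at h
  linarith
theorem f_U4 {t : ℝ} (ht : t ∈ Icc (0 : ℝ) 1) : pU.v t * ((20013 / 12500) * (1 / 100)) - 1 / 100 * ((1 + t) ^ 2 * pa.df.v t) ≤ 1 / 50 := by
  have h := of_ck ck_U4 ht
  simp only [T, T2, eb, Ch, JN, y, eval_sub', eval_add', eval_mul', eval_c, eval_A, eval_B, PL.eval_q] at h
  push_cast at h
  linarith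
theorem f_V1 {t : ℝ} (ht : t ∈ Icc (0 : ℝ) 1) : -((1 + t) ^ 2 * pe1.df.v t) ≤ pU1.v t := by
  have h := of_ck ck_V1 ht
  simp only [T, T2, eb, Ch, JN, y, eval_sub', eval_add', eval_mul', eval_c, eval_A, eval_B, PL.eval_q] at h
  push_cast at h
  linarith
theorem f_V2 {t : ℝ} (ht : t ∈ Icc (0 : ℝ) 1) : -((1 + t) ^ 2 * pe2.df.v t) ≤ 11 / 50 * pU1.v t := by
  have h := of_ck ck_V2 ht
  simp only [T, T2, eb, Ch, JN, y, eval_sub', eval_add', eval_mul', eval_c, eval_A, eval_B, PL.eval_q] at h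
  push_cast at h
  linarith
theorem f_V3 {t : ℝ} (ht : t ∈ Icc (0 : ℝ) 1) : pU1.v t * ((20013 / 12500) * (1 / 100)) ≤ 1 / 2 := by
  have h := of_ck ck_V3 ht
  simp only [T, T2, eb, Ch, JN, y, eval_sub', eval_add', eval_mul', eval_c, eval_A, eval_B, PL.eval_q] at h
  push_cast at h
  linarith
theorem f_V4 {t : ℝ} (ht : t ∈ Icc (0 : ℝ) 1) : pU1.v t * ((20013 / 12500) * (1 / 100)) + 1 / 100 * ((1 + t) ^ 2 * pa.df.v t) ≤ 1 / 2 := by
  have h := of_ck ck_V4 ht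
  simp only [T, T2, eb, Ch, JN, y, eval_sub', eval_add', eval_mul', eval_c, eval_A, eval_B, PL.eval_q] at h
  push_cast at h
  linarith
theorem f_X1 {t : ℝ} (ht : t ∈ Icc (0 : ℝ) 1) : (1 + t) * pe1.v t ≤ pUe.v t := by
  have h := of_ck ck_X1 ht
  simp only [T, T2, eb, Ch, JN, y, eval_sub', eval_add', eval_mul', eval_c, eval_A, eval_B, PL.eval_q] at h
  push_cast at h
  linarith
theorem f_X2 {t : ℝ} (ht : t ∈ Icc (0 : ℝ) 1) : (1 + t) * pe2.v t ≤ 11 / 50 * pUe.v t := by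
  have h := of_ck ck_X2 ht
  simp only [T, T2, eb, Ch, JN, y, eval_sub', eval_add', eval_mul', eval_c, eval_A, eval_B, PL.eval_q] at h
  push_cast at h
  linarith
theorem f_X3 {t : ℝ} (ht : t ∈ Icc (0 : ℝ) 1) : pUe.v t * ((20013 / 12500) * (1 / 100)) ≤ 1 / 100 * pg.v t := by
  have h := of_ck ck_X3 ht
  simp only [T, T2, eb, Ch, JN, y, eval_sub', eval_add', eval_mul', eval_c, eval_A, eval_B, PL.eval_q] at h
  push_cast at h
  linarith
theorem f_X4 {t : ℝ} (ht : t ∈ Icc (0 : ℝ) 1) : pUe.v t * ((20013 / 12500) * (1 / 100)) + 1 / 100 * (pjj.v t - (1 + t) * pa.v t) ≤ 1 / 100 * pg.v t := by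
  have h := of_ck ck_X4 ht
  simp only [T, T2, eb, Ch, JN, y, eval_sub', eval_add', eval_mul', eval_c, eval_A, eval_B, PL.eval_q] at h
  push_cast at h
  linarith
theorem f_C0 {y t : ℝ} (hy : y ∈ Icc (0 : ℝ) (1 / 100)) (ht : t ∈ Icc (0 : ℝ) 1) :
    2 * (1 - y) * pk2.v t + pr0.v t - (1 + t) ^ 2 * pa.df.v t
      + 2 * ((pe1.v t + 683 / 250 * pe2.v t) * (y * ((1 + t) * (1 + 2 * (y * pg.v t))))) ≤ 2 * pg.v t := by
  have h := of_ck2 ck_C0 ht (s := 100 * y) ⟨by linarith [hy.1], by linarith [hy.2]⟩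
  simp only [T, T2, eb, Ch, JN, N1.y, eval_sub', eval_add', eval_mul', eval_c, eval_A, eval_B, PL.eval_q] at h
  push_cast at h
  linarith
theorem f_C1 {y t : ℝ} (hy : y ∈ Icc (0 : ℝ) (1 / 100)) (ht : t ∈ Icc (0 : ℝ) 1) :
    1 + y * (y * ((1 + t) * pa.v t)) ≤ (1 + 2 * (y * pg.v t)) * (1 - (pe1.v t + 683 / 250 * pe2.v t) * (y ^ 2 * (1 + t)))
      * (1 - 2 * (y * (1 / 100 * (pjj.v t + pnn.v t * (20013 / 12500))))) := by
  have h := of_ck2 ck_C1 ht (s := 100 * y) ⟨by linarith [hy.1], by linarith [hy.2]⟩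
  simp only [T, T2, eb, Ch, JN, N1.y, eval_sub', eval_add', eval_mul', eval_c, eval_A, eval_B, PL.eval_q] at h
  push_cast at h
  linarith

theorem K_eq' : N.K = 20013 / 12500 := K_eq
theorem Ch_eq (t : ℝ) : N.Ch t = (1 / 100 * (pc0.v t + (20013 / 12500) * pcc.v t)) := by
  show 1 / 100 * (pc0.v t + N.K * pcc.v t) = _
  rw [K_eq]
theorem eb_eq (t : ℝ) : N.eb t = (pe1.v t + 683 / 250 * pe2.v t) := rfl

theorem v0 (p : PL) : p.v 0 = (p.l.headD 0 : ℝ) / p.d := by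
  unfold PL.v
  cases h : p.l with
  | nil => simp [hz]
  | cons a l => simp [hz]

theorem ok : N.Ok := by
  have hK := K_eq
  exact {
    d0 := by show (0:ℝ) < 1 / 100; norm_num
    d1 := by show (1 / 100 : ℝ) ≤ 1 / 2; norm_num
    β0 := by show (0:ℝ) ≤ 683 / 250; norm_num
    cW0 := by show (0:ℝ) ≤ 11 / 50; norm_num
    r0n := by show (0:ℝ) ≤ 1 / 50; norm_num
    rE0 := by show (0:ℝ) ≤ 1 / 100; norm_num
    da := fun t _ => pa.hasDerivAt t
    de1 := fun t _ => pe1.hasDerivAt t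
    de2 := fun t _ => pe2.hasDerivAt t
    dg := fun t _ => pg.hasDerivAt t
    djj := fun t _ => pjj.hasDerivAt t
    dn1 := fun t _ => pn1.hasDerivAt t
    dn2 := fun t _ => pn2.hasDerivAt t
    a_0 := by show pa.v 0 = 0; rw [v0]; simp [pa]
    e1_0 := by show pe1.v 0 = 0; rw [v0]; simp [pe1]
    e2_0 := by show pe2.v 0 = 0; rw [v0]; simp [pe2]
    g_0 := by show pg.v 0 = 0; rw [v0]; simp [pg]
    jj_0 := by show pjj.v 0 = 0; rw [v0]; simp [pjj]
    n1_0 := by show pn1.v 0 = 0; rw [v0]; simp [pn1]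
    n2_0 := by show pn2.v 0 = 0; rw [v0]; simp [pn2]
    an := fun t ht => f_an ht
    e1n := fun t ht => f_e1n ht
    e2n := fun t ht => f_e2n ht
    gn := fun t ht => f_gn ht
    jjn := fun t ht => f_jjn ht
    nnn := fun t ht => f_nnn ht
    G0n := fun t ht => f_G0n ht
    G1n := fun t ht => f_G1n ht
    k2n := fun t ht => f_k2n ht
    c0n := fun t ht => f_c0n ht
    c1n := fun t ht => f_c1n ht
    c2n := fun t ht => f_c2n ht
    rn := fun t ht => f_rn ht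
    Un := fun t ht => f_Un ht
    Un' := fun t ht => f_Un' ht
    Uen := fun t ht => f_Uen ht
    gi := fun t ht => f_gi ht
    jji := fun t ht => f_jji ht
    n1i := fun t ht => f_n1i ht
    n2i := fun t ht => f_n2i ht
    ai := fun t ht => f_ai ht
    cc1 := fun t ht => f_cc1 ht
    cc2 := fun t ht => f_cc2 ht
    Ch1 := fun t ht => by rw [Ch_eq]; exact f_Ch1 ht
    B1a := fun t ht => f_B1a ht
    B1b := fun t ht => f_B1b ht
    B2a := fun t ht => f_B2a ht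
    B2b := fun t ht => f_B2b ht
    N1 := fun t ht => f_N1 ht
    N2 := fun t ht => f_N2 ht
    ri0 := fun t ht => by rw [Ch_eq]; exact f_ri0 ht
    ri1 := fun t ht => by rw [Ch_eq]; exact f_ri1 ht
    C3a := fun t ht => by rw [Ch_eq, hK]; exact f_C3a ht
    C3b := fun t ht => by rw [Ch_eq, hK]; exact f_C3b ht
    C0 := fun y hy t ht => f_C0 hy ht
    C1 := fun y hy t ht => by rw [hK]; exact f_C1 hy ht
    J1 := fun t ht => by rw [hK]; exact f_J1 ht
    D1 := fun t ht => f_D1 ht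
    P1 := fun t ht => f_P1 ht
    et := fun t ht => f_et ht
    BU := fun t ht => f_BU ht
    U1 := fun t ht => f_U1 ht
    U2 := fun t ht => f_U2 ht
    U3 := fun t ht => by rw [hK]; exact f_U3 ht
    U4 := fun t ht => by rw [hK]; exact f_U4 ht
    V1 := fun t ht => f_V1 ht
    V2 := fun t ht => f_V2 ht
    V3 := fun t ht => by rw [hK]; exact f_V3 ht
    V4 := fun t ht => by rw [hK]; exact f_V4 ht
    X1 := fun t ht => f_X1 ht
    X2 := fun t ht => f_X2 ht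
    X3 := fun t ht => by rw [hK]; exact f_X3 ht
    X4 := fun t ht => by rw [hK]; exact f_X4 ht
    a_1 := by show pa.v 1 = 0; simp [PL.v, hz, pa]; norm_num
    e1_1 := by show pe1.v 1 = 0; simp [PL.v, hz, pe1]; norm_num
    e2_1 := by show pe2.v 1 = 0; simp [PL.v, hz, pe2]; norm_num
    ca := pa.df.continuous.continuousOn
    ce1 := pe1.df.continuous.continuousOn
    ce2 := pe2.df.continuous.continuousOn
    a'0 := by show 0 ≤ pa.df.v 0; rw [v0]; simp [PL.df, ldf, zadd, pa]; norm_num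
    e1'0 := by show pe1.df.v 0 = 0; rw [v0]; simp [PL.df, ldf, zadd, pe1]
    e2'0 := by show pe2.df.v 0 = 0; rw [v0]; simp [PL.df, ldf, zadd, pe2] }

end Pool.Agent.RCG.Ct.N1
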