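import Pool.Agent.RCG.CtH
import Pool.Agent.RCG.CtN1
import Pool.Agent.RCGF.Em11

/-! Stage 1 of the certificate: the estimate for small weights (MP_73ccd0_lc). -/

namespace Pool.Agent.RCG.Ct

open Finset Set Matrix Filter Topology Pool.Agent.RCRS Pool.Agent.RCRSHalf Pool.Agent.RCG.Lt
  Pool.Agent.RCG.SK

set_option linter.unusedSectionVars false

section loc

open QE N1

/-- polynomial upper bound of the logarithm -/
def plb : PL := ⟨6000000, [0, 6000060, -2988840, 1906840, -1155855, 501528, -104480]⟩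
/-- coefficient of the quadratic form -/
def pqb : PL := ⟨200, [207, 6, 0, 10]⟩

theorem ck_plb : nonnegB 6 0 0 0 (N1.T * plb.df.q - QE.c 1 1) = true := by decide +kernel

theorem ck_plc : nonnegB 6 0 0 0 (N1.pc1.q - plb.q * plb.q * pqb.q) = true := by decide +kernel

theorem log_le_plb {t : ℝ} (ht : t ∈ Icc (0 : ℝ) 1) : Real.log (1 + t) ≤ plb.v t := by
  have key := nonneg_of_forward (a := 0) (s := 1) (U := fun s => plb.v s - Real.log (1 + s))
    (U' := fun s => plb.df.v s - (1 + s)⁻¹)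
    (fun r hr => by
      have h1 : HasDerivAt (fun s : ℝ => Real.log (1 + s)) ((1 + r)⁻¹) r := by
        have := ((hasDerivAt_id r).const_add 1).log (by simp only [id]; linarith [hr.1])
        simpa using this
      exact (plb.hasDerivAt r).sub h1)
    (by
      simp only [add_zero, Real.log_one, sub_zero]
      rw [v0]; simp [plb])
    (fun r hr _ => by
      have h := of_ck ck_plb hr
      simp only [N1.T, eval_sub', eval_add', eval_mul', eval_c, eval_A, PL.eval_q] at h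
      push_cast at h
      have hT : 0 < 1 + r := by linarith [hr.1]
      have h2 : (1 + r)⁻¹ ≤ plb.df.v r := by
        rw [← one_div, div_le_iff₀ hT]
        linarith
      linarith) t ht
  linarith

theorem c1_ge {t : ℝ} (ht : t ∈ Icc (0 : ℝ) 1) :
    Real.log (1 + t) ^ 2 * (1035 / 1000 + 3 / 100 * t + 1 / 20 * t ^ 3) ≤ N1.N.c1 t := by
  have h := of_ck ck_plc ht
  simp only [eval_sub', eval_mul', PL.eval_q] at h
  have h1 := log_le_plb ht
  have h0 : 0 ≤ Real.log (1 + t) := Real.log_nonneg (by linarith [ht.1])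
  have h2 : Real.log (1 + t) ^ 2 ≤ plb.v t ^ 2 := pow_le_pow_left₀ h0 h1 2
  have e : pqb.v t = 1035 / 1000 + 3 / 100 * t + 1 / 20 * t ^ 3 := by
    simp only [PL.v, pqb, hz]
    push_cast
    ring
  have h3 : 0 ≤ 1035 / 1000 + 3 / 100 * t + 1 / 20 * t ^ 3 := by
    have := ht.1; positivity
  have h4 := mul_le_mul_of_nonneg_right h2 h3
  rw [e] at h
  show _ ≤ N1.pc1.v t
  linarith

theorem c0_eq (t : ℝ) : N1.N.c0 t = t ^ 4 / 20 := by
  show N1.pc0.v t = _
  simp only [PL.v, N1.pc0, hz]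
  push_cast
  ring

theorem c2_eq (t : ℝ) : N1.N.c2 t = 24 / 5 * K0p t := by
  show N1.pc2.v t = _
  rw [K0p_real]
  simp only [PL.v, N1.pc2, hz]
  push_cast
  ring

end loc

section est

variable {V : Type*} [Fintype V] [DecidableEq V]
variable {x : V → V → ℝ} {P : V → Prop} [DecidablePred P] {d β : ℝ} {A : Matrix V V ℝ}

/-- second factor of the kernel of the whole estimate -/
noncomputable def Dh (A : Matrix V V ℝ) : Matrix V V ℝ :=
  Dg (3174 / 1000) (9 / 10) (71 / 1000) A + (164 / 100 : ℝ) • (A * Si (13 / 100) A)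

theorem Dh_nn (hA : Sub A) : MN (Dh A) :=
  (Dg_nn hA (by norm_num) (by norm_num) (by norm_num)).add
    ((hA.nn.mul (Si_nonneg hA (by norm_num) (by norm_num))).smul (by norm_num))

theorem Dh_mono {B : Matrix V V ℝ} (hA : Sub A) (hB : Sub B) (h : ML A B) : ML (Dh A) (Dh B) :=
  (Dg_mono hA hB h (by norm_num) (by norm_num) (by norm_num)).add
    ((h.mul (Si_mono hA hB h (by norm_num) (by norm_num))
      (Si_nonneg hA (by norm_num) (by norm_num)) hB.nn).smul (by norm_num))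

theorem ADh (A : Matrix V V ℝ) : A * Dh A
    = A * Dg (3174 / 1000) (9 / 10) (71 / 1000) A + (164 / 100 : ℝ) • Ls A := by
  unfold Dh Ls
  rw [mul_add, Matrix.mul_smul, ← Matrix.mul_assoc]

theorem Dh_comm (hA : Sub A) : A * Dh A = Dh A * A := by
  rw [ADh]
  unfold Dh Ls
  rw [add_mul, Matrix.smul_mul, Dg_comm hA, Matrix.mul_assoc A (Si (13 / 100) A) A,
    ← Si_comm hA (by norm_num) (by norm_num), ← Matrix.mul_assoc]

theorem ADh_symm (hA : Sub A) : (A * Dh A)ᵀ = A * Dh A := by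
  rw [ADh, Matrix.transpose_add, ADg_symm hA, Matrix.transpose_smul, Ls_symm hA]

theorem ADh_row (hA : Sub A) (a : V) : ((A * Dh A) *ᵥ fun _ => 1) a ≤ 1049 / 100 := by
  rw [ADh, Matrix.add_mulVec, Matrix.smul_mulVec, Pi.add_apply, Pi.smul_apply, smul_eq_mul]
  have h1 := ADg_row hA (a := 3174 / 1000) (b := 9 / 10) (c := 71 / 1000) (by norm_num)
    (by norm_num) (by norm_num) a
  have h2 := Ls_row hA zero_le_one (fun _ => le_refl (1 : ℝ)) a
  norm_num at h1 h2 ⊢
  linarith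

/-- the kernel of stage 1 -/
noncomputable def Bk (x : V → V → ℝ) : Matrix V V ℝ := (5 / 24 : ℝ) • (mx x * Dh (mx x))

theorem ker_Bk (hx : Wt x P d) : Ker (Bk x) (683 / 250) := by
  have hA : Sub (mx x) := sub_x hx
  refine ker_of ((hA.nn.mul (Dh_nn hA)).smul (by norm_num)) ?_ (fun a => ?_)
  · unfold Bk
    rw [Matrix.transpose_smul, ADh_symm hA]
  · unfold Bk
    rw [Matrix.smul_mulVec, Pi.smul_apply, smul_eq_mul]
    have := ADh_row hA a
    linarith

theorem Wf_smul (c : ℝ) (B : Matrix V V ℝ) (u v : V) :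
    Wf x P (c • B) u v = c * Wf x P B u v := by
  unfold Wf
  rw [Finset.mul_sum]
  refine Finset.sum_congr rfl fun a _ => ?_
  rw [Finset.mul_sum]
  refine Finset.sum_congr rfl fun b _ => ?_
  rw [Matrix.smul_apply, smul_eq_mul]; ring

/-- the whole form is at most the form of the kernel -/
theorem conv_h (hx : Wt x P d) (hδ : ∀ a b, x a b ≤ 1 / 100) {u v : V} (hu : P u) (hv : P v) :
    81 / 100 * (∑ w ∈ ({u, v} : Finset V)ᶜ, x u w * Zs x ({u, v} : Finset V)ᶜ v w
        + ∑ w ∈ ({u, v} : Finset V)ᶜ, x v w * Zs x ({u, v} : Finset V)ᶜ u w)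
      + 3174 / 1000 * F12 x ({u, v} : Finset V)ᶜ (x u) (x v)
      + 446 / 1000 * (F12 x ({u, v} : Finset V)ᶜ (x u) (Zs x ({u, v} : Finset V)ᶜ v)
        + F12 x ({u, v} : Finset V)ᶜ (x v) (Zs x ({u, v} : Finset V)ᶜ u))
      + 69 / 1000 * F12 x ({u, v} : Finset V)ᶜ (Zs x ({u, v} : Finset V)ᶜ u)
        (Zs x ({u, v} : Finset V)ᶜ v) ≤ 24 / 5 * Wf x P (Bk x) u v := by
  have hXs : Sub (mx x) := sub_x hx
  have hX : Pool.Agent.RCG.Wt x := wt_of hx
  have hA : Sub (rm x ({u, v} : Finset V)ᶜ) := sub_rm hx _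
  have hAX : ML (rm x ({u, v} : Finset V)ᶜ) (mx x) := rm_le_x hx _
  have e0 : 24 / 5 * Wf x P (Bk x) u v = Wf x P (mx x * Dh (mx x)) u v := by
    unfold Bk; rw [Wf_smul]; ring
  have e1 : Wf x P (mx x * Dh (mx x)) u v
      = Wf x P (mx x * Dg (3174 / 1000) (9 / 10) (71 / 1000) (mx x)) u v
        + 164 / 100 * Wf x P (Ls (mx x)) u v := by
    rw [ADh]
    unfold Wf
    rw [Finset.mul_sum, ← Finset.sum_add_distrib]
    refine Finset.sum_congr rfl fun a _ => ?_
    rw [Finset.mul_sum, ← Finset.sum_add_distrib]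
    refine Finset.sum_congr rfl fun b _ => ?_
    rw [Matrix.add_apply, Matrix.smul_apply, smul_eq_mul]; ring
  have h1 := conv_g hx hδ hu hv (ML.refl _)
  -- the terms with `Zs`
  have hLs : ∑ a, ∑ b, x u a * (rm x ({u, v} : Finset V)ᶜ
      * (rm x ({u, v} : Finset V)ᶜ * Si (13 / 100) (rm x ({u, v} : Finset V)ᶜ))) a b * x v b
      ≤ Wf x P (Ls (mx x)) u v :=
    conv hx hu hv
      (hA.nn.mul (hA.nn.mul (Si_nonneg hA (by norm_num) (by norm_num))))
      (by
        rw [Matrix.mul_assoc (rm x ({u, v} : Finset V)ᶜ) (Si _ _) (rm x ({u, v} : Finset V)ᶜ),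
          ← Si_comm hA (by norm_num) (by norm_num)])
      (by
        rw [← Matrix.mul_assoc]
        exact Ls_mono hA hXs hAX)
  rw [← Matrix.mul_assoc] at hLs
  have e3 : ∑ a, ∑ b, x u a * (rm x ({u, v} : Finset V)ᶜ * rm x ({u, v} : Finset V)ᶜ
      * Si (13 / 100) (rm x ({u, v} : Finset V)ᶜ)) a b * x v b
      = Qf (x u) (x v) (Ls (rm x ({u, v} : Finset V)ᶜ)) := by
    unfold Qf Ls
    refine Finset.sum_congr rfl fun a _ => ?_
    simp only [Matrix.mulVec, dotProduct, Finset.mul_sum]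
    exact Finset.sum_congr rfl fun b _ => by ring
  rw [e3] at hLs
  have hZ : ∀ w a, Zs x ({u, v} : Finset V)ᶜ w a
      ≤ 100877 / 100000 * (Ls (rm x ({u, v} : Finset V)ᶜ) *ᵥ x w) a := by
    intro w a
    have hF0 : ∀ b, 0 ≤ Fc (x w b) := fun b => Fc_nonneg (hx.nonneg w b)
    have eZ : Zs x ({u, v} : Finset V)ᶜ w
        = Ls (rm x ({u, v} : Finset V)ᶜ) *ᵥ fun b => Fc (x w b) := by
      show rm x ({u, v} : Finset V)ᶜ *ᵥ (rm x ({u, v} : Finset V)ᶜ *ᵥ Rh x ({u, v} : Finset V)ᶜ w)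
        = _
      have e1 : Rh x ({u, v} : Finset V)ᶜ w
          = Si (13 / 100) (rm x ({u, v} : Finset V)ᶜ) *ᵥ fun b => Fc (x w b) :=
        Res_eq_Si hA (by norm_num) (by norm_num) hF0
      rw [e1, Matrix.mulVec_mulVec, Matrix.mulVec_mulVec]
      unfold Ls
      rw [Matrix.mul_assoc]
    rw [eZ]
    have h1 : ∀ b, Fc (x w b) ≤ ((100877 / 100000 : ℝ) • x w) b := fun b =>
      Fc_s (hx.nonneg w b) (hδ w b)
    have h2 := mulVec_mono (Ls_nn hA) h1 a
    rw [Matrix.mulVec_smul, Pi.smul_apply, smul_eq_mul] at h2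
    exact h2
  have hZ0 : ∀ w a, 0 ≤ Zs x ({u, v} : Finset V)ᶜ w a := fun w a => Zs_nonneg hX _ w a
  have hT : ∀ p q, ∑ w ∈ ({u, v} : Finset V)ᶜ, x p w * Zs x ({u, v} : Finset V)ᶜ q w
      ≤ 100877 / 100000 * Qf (x p) (x q) (Ls (rm x ({u, v} : Finset V)ᶜ)) := by
    intro p q
    refine (Finset.sum_le_sum_of_subset_of_nonneg (Finset.subset_univ _) fun w _ _ =>
      mul_nonneg (hx.nonneg p w) (hZ0 q w)).trans ?_
    unfold Qf
    rw [Finset.mul_sum]
    refine Finset.sum_le_sum fun w _ => ?_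
    have := mul_le_mul_of_nonneg_left (hZ q w) (hx.nonneg p w)
    linarith
  have h2 := hT u v
  have h3 := hT v u
  rw [Qf_swap (x v) (x u) (Ls_symm hA)] at h3
  have h4 : 0 ≤ Qf (x u) (x v) (Ls (rm x ({u, v} : Finset V)ᶜ)) :=
    Qf_nonneg (Ls_nn hA) (hx.nonneg u) (hx.nonneg v)
  rw [e0, e1]
  linarith

theorem Sf_eq (hx : Wt x P d) {u v : V} (hu : P u) (hv : P v) (huv : u ≠ v) :
    ∑ w ∈ ({u, v} : Finset V)ᶜ, x u w * x v w = Sf x P u v := by
  unfold Sf
  refine Finset.sum_congr rfl fun w _ => ?_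
  unfold xr
  by_cases hw : P w
  · rw [if_pos ⟨hu, hw⟩, if_pos ⟨hv, hw⟩]
  · rw [if_neg (fun h => hw h.2), zero_mul]
    by_contra hne
    have h1 : x u w ≠ 0 := fun e => hne (by rw [e, zero_mul])
    have h2 : x w v ≠ 0 := fun e => hne (by rw [hx.symm v w, e, mul_zero])
    exact huv (hx.pend1 u w v hw h1 h2).symm

/-- **The analytic estimate for small weights.** -/
theorem est_small (hx : Wt x P d) (hδ : ∀ a b, x a b ≤ 1 / 100)
    (hp : ∀ p, P p ∨ ∃ c, ∀ r, r ≠ c → x p r = 0) : Est N1.N x P (Bk x) := by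
  intro h H t hK u v hu hv huv E E' hE0 hE hE'0 hE'
  have ht := hK.ht
  have hXw : Pool.Agent.RCG.Wt x := wt_of hx
  have hMd : ∀ r ∈ Icc 0 t, HasDerivAt (fun r : ℝ => 101 / 100 * r + 11 / 200 * r ^ 2)
      (101 / 100 + 11 / 100 * r) r := by
    intro r _
    have h1 := ((hasDerivAt_id r).const_mul (101 / 100 : ℝ)).add
      (((hasDerivAt_id r).pow 2).const_mul (11 / 200 : ℝ))
    refine h1.congr_deriv ?_
    simp only [id]
    ring
  have hcx : Cx h H x (fun r : ℝ => 101 / 100 * r + 11 / 200 * r ^ 2)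
      (fun r => 101 / 100 + 11 / 100 * r) t :=
    ⟨hK.hh, hXw, ht.1, ht.2, hMd, fun r hr => by linarith [hr.1], by norm_num,
      by nlinarith [ht.1, ht.2], fun r hr a b => hK.cap r hr a b⟩
  have hrN : (1 : ℝ) + N1.N.r = 102 / 100 := by
    show (1 : ℝ) + 1 / 50 = 102 / 100
    norm_num
  have hrE : (1 : ℝ) + N1.N.rE = 101 / 100 := by
    show (1 : ℝ) + 1 / 100 = 101 / 100
    norm_num
  have hblo : ∀ p, P p → ∀ s ∈ Icc 0 t, 1 / (1 + s) ≤ bb h ∅ p s := fun p _ s hs => by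
    rw [one_div]; exact hK.bge s hs p
  have hbup : ∀ p, P p → ∀ s ∈ Icc 0 t, bb h ∅ p s ≤ 1005 / 1000 / (1 + s) :=
    fun p hp' s hs => by
      refine (hK.bup s hs p hp').trans (le_of_eq ?_)
      rw [show (201 : ℝ) / 200 = 1005 / 1000 by norm_num, ← div_eq_mul_inv]
  have hrt : ∀ p q, P p → P q → p ≠ q → ∀ s ∈ Icc 0 t,
      dE h p q s ≤ 103 / 100 * x p q / (1 + s) := fun p q _ _ _ s hs => by
    refine (hK.rate s hs p q).trans ?_
    have hT : 0 < 1 + s := by linarith [hs.1]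
    rw [hrN]
    refine div_le_div_of_nonneg_right ?_ hT.le
    have := hx.nonneg p q
    linarith
  have hit : ∀ p q, P p → P q → p ≠ q → ∀ s ∈ Icc 0 t, ∀ E : ℝ → ℝ,
      (∀ r ∈ Icc 0 s, HasDerivAt E (dE h p q r) r) → E 0 = 0 →
      E s ≤ 101 / 100 * x p q * Real.log (1 + s) := fun p q _ _ _ s hs E hE hE0 => by
    have := hK.Eint p q s hs E hE0 hE
    rw [hrE] at this
    linarith
  have hS1 : S1 P h H x (fun r : ℝ => 101 / 100 * r + 11 / 200 * r ^ 2)
      (fun r => 101 / 100 + 11 / 100 * r) t :=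
    ⟨hcx, fun s _ => rfl, fun s _ => rfl, fun a b => (hδ a b).trans (by norm_num), hp, hblo,
      hbup, hrt, hit⟩
  have hER : ERate h x t (102 / 100) := fun p q _ s hs => by
    have := hK.rate s hs p q
    rw [hrN] at this
    exact this
  have key := S1.est hS1 hδ hER hu hv huv hE hE0 hE' hE'0
  have hSf := Sf_eq hx hu hv huv
  have hcv := conv_h hx hδ hu hv
  have hc1 := c1_ge ht
  have hS0 := Sf_nonneg hx u v (P := P)
  have hK0 : 0 ≤ K0p t := by
    have := N1.ok.c2n t ht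
    rw [c2_eq] at this
    linarith
  refine le_trans (mul_le_mul_of_nonneg_left ?_ ?_) key
  · rw [hSf]
    have a1 := mul_le_mul_of_nonneg_right hc1 hS0
    have a2 := mul_le_mul_of_nonneg_left hcv hK0
    have a3 : t ^ 4 / 50 * x u v ≤ N1.N.c0 t * x u v := by
      rw [c0_eq]
      refine mul_le_mul_of_nonneg_right ?_ (hx.nonneg u v)
      have : 0 ≤ t ^ 4 := pow_nonneg ht.1 4
      linarith
    have a4 : N1.N.c2 t * Wf x P (Bk x) u v = K0p t * (24 / 5 * Wf x P (Bk x) u v) := by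
      rw [c2_eq]; ring
    rw [a4]
    linarith
  · have b1 := hK.bge t ⟨ht.1, le_rfl⟩ u
    have b2 := hK.bge t ⟨ht.1, le_rfl⟩ v
    have hi : 0 < (1 + t)⁻¹ := inv_pos.2 (by linarith [ht.1])
    exact mul_nonneg (mul_nonneg (hi.le.trans b1) (hi.le.trans b2)) (Real.exp_pos _).le

end est

section main

variable {V : Type} [Fintype V] [DecidableEq V] {G : SimpleGraph V} [Fintype G.edgeSet]
  [DecidableEq G.edgeSet] {x : G.edgeSet → ℝ}

/-- **Exact one half for small weights.** -/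
theorem half_small (hx : IsFractionalMatching G x) (hxd : ∀ e, x e ≤ 1 / 100) :
    ∃ S : Scheme G, ∀ e : G.edgeSet, S.selProb x e = x e / 2 := by
  have hK : 0 < 100 := by norm_num
  have hw : Wt (xk x : V ⊕ V × Fin 100 → V ⊕ V × Fin 100 → ℝ) (PK V 100) (1 / 100) :=
    wt_xk hx hK (by norm_num) (by norm_num) hxd
  have hle : ∀ a b : V ⊕ V × Fin 100, xk x a b ≤ 1 / 100 :=
    xk_le hx (by norm_num) hK (by norm_num) hxd
  exact half_of_estK (N := N1.N) (B := Bk (xk x)) N1.ok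
    (by show (1 / 100 : ℝ) ≤ 1 / 20; norm_num) hx hK hxd (ker_Bk hw)
    (est_small hw hle fun p => pend_or p)

end main

end Pool.Agent.RCG.Ct
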