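import Pool.Agent.RCG.CtF
import Pool.Agent.RCG.FinBK

/-! Stage 1 of the certificate: the extended graph and the final reduction (MP_73ccd0_lc). -/

namespace Pool.Agent.RCG.Ct

open MeasureTheory Finset Set Pool.Agent.RCRS Pool.Agent.RCRSHalf Pool.Agent.RCG.SK

set_option linter.unusedSectionVars false

section pend

variable {V : Type} [Fintype V] [DecidableEq V] {G : SimpleGraph V} [Fintype G.edgeSet]
  [DecidableEq G.edgeSet] {K : ℕ} {x : G.edgeSet → ℝ}
  {h : ℝ → V ⊕ V × Fin K → V ⊕ V × Fin K → ℝ} {H : V ⊕ V × Fin K → V ⊕ V × Fin K → ℝ → ℝ}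

/-- the real vertices -/
def PK (V : Type) (K : ℕ) (a : V ⊕ V × Fin K) : Prop := a.isLeft = true

instance : DecidablePred (PK V K) := fun a => inferInstanceAs (Decidable (a.isLeft = true))

theorem PK_inl (a : V) : PK V K (Sum.inl a) := rfl

theorem not_PK_inr (a : V × Fin K) : ¬PK V K (Sum.inr a) := by simp [PK]

theorem wt_xk (hx : IsFractionalMatching G x) (hK : 0 < K) {d : ℝ} (hd0 : 0 ≤ d) (hd1 : d ≤ 1)
    (hd : ∀ e, x e ≤ d) : Wt (xk x) (PK V K) d where
  d0 := hd0
  d1 := hd1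
  le a b ha hb := by
    rcases a with a | a
    · rcases b with b | b
      · show xw x a b ≤ d
        by_cases h : G.Adj a b
        · rw [xw_adj x h]; exact hd _
        · rw [xw_nadj x h]; exact hd0
      · exact absurd hb (not_PK_inr b)
    · exact absurd ha (not_PK_inr a)
  symm := xk_symm x
  nonneg := xk_nonneg x hx
  diag := xk_diag x
  row := xk_row x hx hK
  row1 a ha := by
    rcases a with a | a
    · exact xk_row_inl x hK a
    · exact absurd ha (not_PK_inr a)
  pend a b hb hab := by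
    rcases b with b | b
    · exact absurd (PK_inl b) hb
    · rcases a with a | a
      · exact PK_inl a
      · exact absurd rfl hab
  pend1 a b c hb hab hbc := by
    rcases b with b | b
    · exact absurd (PK_inl b) hb
    · rcases a with a | a
      · rcases c with c | c
        · simp only [xk] at hab hbc
          have h1 : a = b.1 := by by_contra hc; rw [if_neg hc] at hab; exact hab rfl
          have h2 : b.1 = c := by by_contra hc; rw [if_neg hc] at hbc; exact hbc rfl
          rw [h1, h2]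
        · exact absurd rfl hbc
      · exact absurd rfl hab

/-- a pendant edge joins a vertex and its pendant vertex -/
theorem xk_pend {a : V} {b : V × Fin K} (h : xk x (Sum.inl a) (Sum.inr b) ≠ 0) : b.1 = a := by
  simp only [xk] at h
  by_contra hc
  rw [if_neg (Ne.symm hc)] at h
  exact h rfl

/-- every weight is small -/
theorem xk_le (hx : IsFractionalMatching G x) {d : ℝ} (hd0 : 0 ≤ d) (hK : 0 < K)
    (hKd : (1 : ℝ) / K ≤ d) (hd : ∀ e, x e ≤ d) (a b : V ⊕ V × Fin K) : xk x a b ≤ d := by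
  have hp : ∀ v : V, defect x v / K ≤ d := fun v =>
    (div_le_div_of_nonneg_right (defect_le_one hx v) (Nat.cast_nonneg K)).trans hKd
  rcases a with a | a
  · rcases b with b | b
    · show xw x a b ≤ d
      by_cases h : G.Adj a b
      · rw [xw_adj x h]; exact hd _
      · rw [xw_nadj x h]; exact hd0
    · simp only [xk]
      split_ifs
      · exact hp a
      · exact hd0
  · rcases b with b | b
    · simp only [xk]
      split_ifs
      · exact hp b
      · exact hd0
    · exact hd0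

/-- a pendant vertex has one neighbour -/
theorem pend_or (a : V ⊕ V × Fin K) : PK V K a ∨ ∃ c, ∀ r, r ≠ c → xk x a r = 0 := by
  rcases a with a | a
  · exact Or.inl (PK_inl a)
  · refine Or.inr ⟨Sum.inl a.1, fun r hr => ?_⟩
    rcases r with r | r
    · simp only [xk]
      rw [if_neg]
      intro e; exact hr (by rw [e])
    · rfl

end pend

section final

variable {V : Type} [Fintype V] [DecidableEq V] {G : SimpleGraph V} [Fintype G.edgeSet]
  [DecidableEq G.edgeSet] {K : ℕ} {x : G.edgeSet → ℝ} {N : Num} {B : V ⊕ V × Fin K → V ⊕ V × Fin K → ℝ}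

/-- the caps -/
noncomputable def cp (x : G.edgeSet → ℝ) (a b : V ⊕ V × Fin K) (t : ℝ) : ℝ :=
  (101 / 100 + 11 / 100 * t) * xk x a b

theorem data_ok (hN : N.Ok) (hd : N.d ≤ 1 / 20) (hx : IsFractionalMatching G x) (hK : 0 < K)
    (hxd : ∀ e, x e ≤ N.d) (hB : Ker B N.β) :
    Data (xk x) (ph N (xk x) (PK V K) B) (cp x) (1 / 10) := by
  have hw : Wt (xk x) (PK V K) N.d := wt_xk hx hK hN.d0.le (by linarith) hxd
  refine ⟨xk_symm x, xk_nonneg x hx, xk_diag x, fun a b t => ph_symm hw hB a b t,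
    fun a b t ht => (ph_pos hN hw hB a b ht).le, fun a b => ?_, fun a b t => ?_,
    fun a b t ht => ?_, fun a b => ?_, by norm_num, by norm_num, fun a b _ t ht => ?_,
    fun a b hab t ht => ?_, fun a b _ => ?_⟩
  · have hT : ContinuousOn (fun t : ℝ => ((1 + t) ^ 2)⁻¹) (Icc 0 1) := by
      refine ContinuousOn.inv₀ (by fun_prop) fun t ht => ?_
      have := ht.1
      positivity
    by_cases hab : PK V K a ∧ PK V K b
    · have e : ph N (xk x) (PK V K) B a b = fun t => ((1 + t) ^ 2)⁻¹ - xk x a b * N.a' t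
          + N.e1' t * Sd (xk x) (PK V K) a b + N.e2' t * Wd (xk x) (PK V K) B a b := by
        funext t
        unfold ph phi
        rw [if_pos hab]
        rfl
      rw [e]
      exact ((hT.sub (hN.ca.const_mul _)).add (hN.ce1.mul_const _)).add (hN.ce2.mul_const _)
    · have e : ph N (xk x) (PK V K) B a b = fun t => ((1 + t) ^ 2)⁻¹ := by
        funext t; exact ph_pend hab t
      rw [e]; exact hT
  · unfold cp; rw [xk_symm x a b]
  · unfold cp
    exact mul_nonneg (by linarith [ht.1]) (xk_nonneg x hx a b)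
  · unfold cp; fun_prop
  · unfold cp
    have h1 := ph_ge hN hw hB a b ht
    have h2 := mul_le_mul_of_nonneg_left h1 (xk_nonneg x hx a b)
    have h3 : 1 / 10 * ((101 / 100 + 11 / 100 * t) * xk x a b) ≤ xk x a b * (1 / 8) := by
      have := mul_le_mul_of_nonneg_right (show 1 / 10 * (101 / 100 + 11 / 100 * t) ≤ 1 / 8 by
        linarith [ht.2]) (xk_nonneg x hx a b)
      linarith
    linarith
  · unfold cp
    have : 0 < xk x a b := lt_of_le_of_ne (xk_nonneg x hx a b) (Ne.symm hab)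
    have h2 : 0 < 101 / 100 + 11 / 100 * t := by linarith [ht.1]
    positivity
  · unfold cp
    have h0 : (0 : ℝ) ∈ Icc (0 : ℝ) 1 := ⟨le_rfl, zero_le_one⟩
    have h1 : ph N (xk x) (PK V K) B a b 0 ≤ 1 := by
      by_cases hab : PK V K a ∧ PK V K b
      · have h2 := ph_eq (N := N) (x := xk x) (B := B) hab.1 hab.2 (le_refl (0 : ℝ))
        rw [hN.e1'0, hN.e2'0] at h2
        have h3 := mul_nonneg (xk_nonneg x hx a b) hN.a'0
        simp only [add_zero, one_pow, one_mul, mul_zero, zero_mul] at h2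
        linarith
      · rw [ph_pend hab]; norm_num
    have h2 := mul_le_mul_of_nonneg_left h1 (xk_nonneg x hx a b)
    have h3 := xk_nonneg x hx a b
    linarith

theorem certified_ok (hN : N.Ok) (hd : N.d ≤ 1 / 20) (hx : IsFractionalMatching G x) (hK : 0 < K)
    (hxd : ∀ e, x e ≤ N.d) (hB : Ker B N.β) (hE : Est N (xk x) (PK V K) B) :
    Certified (xk x) (ph N (xk x) (PK V K) B) (cp x) := by
  have hw : Wt (xk x) (PK V K) N.d := wt_xk hx hK hN.d0.le (by linarith) hxd
  intro h H hh hcap hz t ht hfl a b hab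
  have hcap' : ∀ s ∈ Icc 0 t, ∀ a b, h s a b ≤ (101 / 100 + 11 / 100 * s) * xk x a b :=
    fun s hs a b => hcap s ⟨hs.1, hs.2.trans ht.2⟩ a b
  have hx0 : 0 < xk x a b := lt_of_le_of_ne (xk_nonneg x hx a b) (Ne.symm hab)
  have hab' : a ≠ b := fun e => hab (by rw [e]; exact xk_diag x b)
  -- pendant edges
  have hpend : ∀ w : V × Fin K, ((1 + t) ^ 2)⁻¹ ≤ Real.exp (H (Sum.inl w.1) (Sum.inr w) t)
      * pp h (Sum.inl w.1) (Sum.inr w) t ∧
      ((1 + t) ^ 2)⁻¹ < (101 / 100 + 11 / 100 * t) * pp h (Sum.inl w.1) (Sum.inr w) t := by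
    rintro ⟨v, k⟩
    simp only []
    rw [pp_pend hh hz v k ht]
    have h1 := bb_ge hw (Num.fn_ok hN) (nb_ok hN hw hB) hh ht hfl (PK_inl v) ⟨ht.1, le_rfl⟩
    have hT : 0 < 1 + t := by linarith [ht.1]
    have hT1 : (1 + t)⁻¹ ≤ 1 := inv_le_one_of_one_le₀ (by linarith [ht.1])
    have hT2 : 0 < (1 + t)⁻¹ := inv_pos.2 hT
    have e1 : ((1 + t) ^ 2)⁻¹ = (1 + t)⁻¹ * (1 + t)⁻¹ := by rw [pow_two, mul_inv]
    have h2 : ((1 + t) ^ 2)⁻¹ ≤ (1 + t)⁻¹ := by
      rw [e1]; exact mul_le_of_le_one_left hT2.le hT1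
    have hH0 : 0 ≤ H (Sum.inl v) (Sum.inr (v, k)) t := by
      have key := nonneg_of_forward (a := 0) (s := t)
        (U := fun s => H (Sum.inl v) (Sum.inr (v, k)) s) (U' := fun s => h s (Sum.inl v) (Sum.inr (v, k)))
        (fun r _ => hh.Hd _ _ r) (by simp [hh.H0]) (fun r _ _ => hh.nonneg _ _ _) t ⟨ht.1, le_rfl⟩
      exact key
    have h3 : 1 ≤ Real.exp (H (Sum.inl v) (Sum.inr (v, k)) t) := Real.one_le_exp hH0
    have hb0 : 0 < bb h ∅ (Sum.inl v) t := lt_of_lt_of_le hT2 h1
    constructor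
    · calc ((1 + t) ^ 2)⁻¹ ≤ (1 + t)⁻¹ := h2
        _ ≤ bb h ∅ (Sum.inl v) t := h1
        _ = 1 * bb h ∅ (Sum.inl v) t := (one_mul _).symm
        _ ≤ _ := mul_le_mul_of_nonneg_right h3 hb0.le
    · have h4 : 1 < 101 / 100 + 11 / 100 * t := by linarith [ht.1]
      calc ((1 + t) ^ 2)⁻¹ ≤ (1 + t)⁻¹ := h2
        _ ≤ bb h ∅ (Sum.inl v) t := h1
        _ = 1 * bb h ∅ (Sum.inl v) t := (one_mul _).symm
        _ < _ := mul_lt_mul_of_pos_right h4 hb0
  have fin : ph N (xk x) (PK V K) B a b t ≤ Real.exp (H a b t) * pp h a b t ∧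
      ph N (xk x) (PK V K) B a b t < (101 / 100 + 11 / 100 * t) * pp h a b t := by
    rcases a with a | a
    · rcases b with b | b
      · exact ⟨real_le hN hw hB hE hh ht hcap' hfl (PK_inl a) (PK_inl b) hab',
          real_cap hN hd hw hB hE hh ht hcap' hfl (PK_inl a) (PK_inl b) hab'⟩
      · have := xk_pend hab
        subst this
        rw [ph_pend (fun hh => not_PK_inr b hh.2)]
        exact hpend b
    · rcases b with b | b
      · have hab2 : xk x (Sum.inl b) (Sum.inr a) ≠ 0 := by rwa [xk_symm]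
        have := xk_pend hab2
        subst this
        rw [ph_pend (fun hh => not_PK_inr a hh.1)]
        have e1 : pp h (Sum.inr a) (Sum.inl a.1) t = pp h (Sum.inl a.1) (Sum.inr a) t := by
          unfold pp; rw [Finset.pair_comm]
        have e2 : H (Sum.inr a) (Sum.inl a.1) t = H (Sum.inl a.1) (Sum.inr a) t := by
          exact hh.Hsymm _ _ _
        rw [e1, e2]
        exact hpend a
      · exact absurd rfl hab
  refine ⟨fin.1, ?_⟩
  unfold cp
  have := mul_lt_mul_of_pos_left fin.2 hx0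
  calc _ < xk x a b * ((101 / 100 + 11 / 100 * t) * pp h a b t) := this
    _ = _ := by ring

theorem int_ph (hN : N.Ok) (e : G.edgeSet) :
    ∫ t in Ico (0:ℝ) 1, ph N (xk x) (PK V K) B (Sum.inl (fe e)) (Sum.inl (se e)) t = 1 / 2 := by
  set y := xk x (Sum.inl (fe e)) (Sum.inl (se e)) with hy
  set S := Sd (xk x) (PK V K) (Sum.inl (fe e)) (Sum.inl (se e)) with hS
  set W := Wd (xk x) (PK V K) B (Sum.inl (fe e)) (Sum.inl (se e)) with hW
  have e1 : ∀ t, ph N (xk x) (PK V K) B (Sum.inl (fe e)) (Sum.inl (se e)) t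
      = ((1 + t) ^ 2)⁻¹ - y * N.a' t + N.e1' t * S + N.e2' t * W := by
    intro t
    unfold ph phi
    rw [if_pos ⟨PK_inl _, PK_inl _⟩]
    rfl
  simp only [e1]
  rw [integral_Ico_eq_integral_Ioc, ← intervalIntegral.integral_of_le zero_le_one]
  have hd : ∀ t ∈ Set.uIcc (0 : ℝ) 1, HasDerivAt (fun t => -(1 + t)⁻¹ - y * N.a t + N.e1 t * S
      + N.e2 t * W) (((1 + t) ^ 2)⁻¹ - y * N.a' t + N.e1' t * S + N.e2' t * W) t := by
    intro t ht
    rw [Set.uIcc_of_le zero_le_one] at ht
    have hT : (1 + t) ≠ 0 := by linarith [ht.1]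
    have d1 : HasDerivAt (fun s : ℝ => -(1 + s)⁻¹) (((1 + t) ^ 2)⁻¹) t := by
      have := (((hasDerivAt_id t).const_add 1).inv hT).neg
      refine this.congr_deriv ?_
      simp only [id]; rw [neg_div, one_div, neg_neg]
    exact ((d1.sub ((hN.da t ht).const_mul y)).add ((hN.de1 t ht).mul_const S)).add
      ((hN.de2 t ht).mul_const W)
  have hc : ContinuousOn (fun t => ((1 + t) ^ 2)⁻¹ - y * N.a' t + N.e1' t * S + N.e2' t * W)
      (Set.uIcc (0 : ℝ) 1) := by
    rw [Set.uIcc_of_le zero_le_one]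
    have hT : ContinuousOn (fun t : ℝ => ((1 + t) ^ 2)⁻¹) (Icc 0 1) := by
      refine ContinuousOn.inv₀ (by fun_prop) fun t ht => ?_
      have := ht.1
      positivity
    exact ((hT.sub (hN.ca.const_mul _)).add (hN.ce1.mul_const _)).add (hN.ce2.mul_const _)
  rw [intervalIntegral.integral_eq_sub_of_hasDerivAt hd hc.intervalIntegrable]
  rw [hN.a_0, hN.a_1, hN.e1_0, hN.e1_1, hN.e2_0, hN.e2_1]
  norm_num

/-- The reduction of the theorem for small weights to the analytic estimate. -/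
theorem half_of_estK (hN : N.Ok) (hd : N.d ≤ 1 / 20) (hx : IsFractionalMatching G x) (hK : 0 < K)
    (hxd : ∀ e, x e ≤ N.d) (hB : Ker B N.β) (hE : Est N (xk x) (PK V K) B) :
    ∃ S : Scheme G, ∀ e : G.edgeSet, S.selProb x e = x e / 2 :=
  exact_half_of_cert hx hK (data_ok hN hd hx hK hxd hB) (certified_ok hN hd hx hK hxd hB hE)
    (int_ph hN)

end final

end Pool.Agent.RCG.Ct
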