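import Pool.Agent.RCRSHalf.Func3

/-! Resolvents of symmetric substochastic matrices (MP_73ccd0_lc, light weights). -/

namespace Pool.Agent.RCG.Lt

open Finset Matrix Filter Topology Pool.Agent.RCRSHalf

set_option linter.unusedSectionVars false

variable {V : Type*} [Fintype V] [DecidableEq V]

/-- symmetric nonnegative matrices with row sums at most one -/
structure Sub (A : Matrix V V ℝ) : Prop where
  nn : MN A
  symm : Aᵀ = A
  row : ∀ a, (A *ᵥ fun _ => 1) a ≤ 1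

/-- the resolvent `S = (1 - θ A²)⁻¹` as the limit of its partial sums -/
noncomputable def Si (θ : ℝ) (A : Matrix V V ℝ) : Matrix V V ℝ := fun a b => ⨆ n, Sn θ A n a b

variable {A B : Matrix V V ℝ} {θ : ℝ}

theorem Sub.const (hA : Sub A) {c : ℝ} (hc : 0 ≤ c) (a : V) : (A *ᵥ fun _ => c) a ≤ c := by
  have h : (fun _ : V => c) = c • (fun _ => (1 : ℝ)) := by funext a; simp
  rw [h, Matrix.mulVec_smul, Pi.smul_apply, smul_eq_mul]
  nlinarith [hA.row a]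

theorem Sub.le_const (hA : Sub A) {z : V → ℝ} {c : ℝ} (hc : 0 ≤ c) (hz : ∀ a, z a ≤ c) (a : V) :
    (A *ᵥ z) a ≤ c := (mulVec_mono hA.nn hz a).trans (hA.const hc a)

theorem Sn_le (hA : Sub A) (hθ : 0 ≤ θ) (hθ1 : θ < 1) (n : ℕ) (a b : V) :
    Sn θ A n a b ≤ 1 / (1 - θ) := by
  have h1 := Sn_exc hθ hθ1 hA.nn (z := fun _ => 1) (fun _ => zero_le_one) hA.row n a
  rw [mul_one] at h1
  refine le_trans ?_ h1
  simp only [Matrix.mulVec, dotProduct, mul_one]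
  exact Finset.single_le_sum (f := fun b => Sn θ A n a b)
    (fun c _ => Sn_nonneg hθ hA.nn n a c) (Finset.mem_univ b)

theorem Si_tendsto (hA : Sub A) (hθ : 0 ≤ θ) (hθ1 : θ < 1) (a b : V) :
    Tendsto (fun n => Sn θ A n a b) atTop (𝓝 (Si θ A a b)) := by
  refine tendsto_atTop_ciSup (monotone_nat_of_le_succ fun n => Sn_succ_le hθ hA.nn n a b) ?_
  exact ⟨1 / (1 - θ), by rintro _ ⟨n, rfl⟩; exact Sn_le hA hθ hθ1 n a b⟩

/-- limits of products from the left with fixed matrices -/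
theorem tendsto_mul_left {F : ℕ → Matrix V V ℝ} {F0 : Matrix V V ℝ}
    (h : ∀ a b, Tendsto (fun n => F n a b) atTop (𝓝 (F0 a b))) (C : Matrix V V ℝ) (a b : V) :
    Tendsto (fun n => (C * F n) a b) atTop (𝓝 ((C * F0) a b)) := by
  simp only [Matrix.mul_apply]
  exact tendsto_finsetSum _ fun c _ => (h c b).const_mul _

theorem tendsto_mul_right {F : ℕ → Matrix V V ℝ} {F0 : Matrix V V ℝ}
    (h : ∀ a b, Tendsto (fun n => F n a b) atTop (𝓝 (F0 a b))) (C : Matrix V V ℝ) (a b : V) :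
    Tendsto (fun n => (F n * C) a b) atTop (𝓝 ((F0 * C) a b)) := by
  simp only [Matrix.mul_apply]
  exact tendsto_finsetSum _ fun c _ => (h a c).mul_const _

theorem Si_eq (hA : Sub A) (hθ : 0 ≤ θ) (hθ1 : θ < 1) : Si θ A = 1 + θ • (A * A * Si θ A) := by
  have h := Si_tendsto hA hθ hθ1
  ext a b
  refine tendsto_nhds_unique ((tendsto_add_atTop_iff_nat 1).2 (h a b)) ?_
  have h2 := tendsto_mul_left h (A * A) a b
  have e : ∀ n, Sn θ A (n + 1) a b = (1 : Matrix V V ℝ) a b + θ * (A * A * Sn θ A n) a b := by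
    intro n; simp only [Sn, Matrix.add_apply, Matrix.smul_apply, smul_eq_mul]
  simp only [e, Matrix.add_apply, Matrix.smul_apply, smul_eq_mul]
  exact (h2.const_mul θ).const_add _

theorem Si_comm (hA : Sub A) (hθ : 0 ≤ θ) (hθ1 : θ < 1) : A * Si θ A = Si θ A * A := by
  have h := Si_tendsto hA hθ hθ1
  ext a b
  refine tendsto_nhds_unique (tendsto_mul_left h A a b) ?_
  have := tendsto_mul_right h A a b
  simp only [Sn_comm]
  exact this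

theorem Si_symm (hA : Sub A) (hθ : 0 ≤ θ) (hθ1 : θ < 1) : (Si θ A)ᵀ = Si θ A := by
  have h := Si_tendsto hA hθ hθ1
  ext a b
  refine tendsto_nhds_unique (h b a) ?_
  have e : ∀ n, Sn θ A n b a = Sn θ A n a b := fun n => by
    have := congrFun (congrFun (Sn_symm (θ := θ) hA.symm n) a) b
    simpa [Matrix.transpose_apply] using this
  simp only [e]
  exact h a b

theorem Si_nonneg (hA : Sub A) (hθ : 0 ≤ θ) (hθ1 : θ < 1) : MN (Si θ A) := fun a b =>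
  ge_of_tendsto' (Si_tendsto hA hθ hθ1 a b) fun n => Sn_nonneg hθ hA.nn n a b

theorem Si_mono (hA : Sub A) (hB : Sub B) (h : ML A B) (hθ : 0 ≤ θ) (hθ1 : θ < 1) :
    ML (Si θ A) (Si θ B) := fun a b =>
  le_of_tendsto_of_tendsto' (Si_tendsto hA hθ hθ1 a b) (Si_tendsto hB hθ hθ1 a b)
    fun n => Sn_mono hθ hA.nn hB.nn h n a b

theorem Si_exc (hA : Sub A) (hθ : 0 ≤ θ) (hθ1 : θ < 1) {z : V → ℝ} (hz : ∀ a, 0 ≤ z a)
    (hAz : ∀ a, (A *ᵥ z) a ≤ z a) (a : V) : (Si θ A *ᵥ z) a ≤ 1 / (1 - θ) * z a := by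
  have h : Tendsto (fun n => (Sn θ A n *ᵥ z) a) atTop (𝓝 ((Si θ A *ᵥ z) a)) := by
    simp only [Matrix.mulVec, dotProduct]
    exact tendsto_finsetSum _ fun c _ => (Si_tendsto hA hθ hθ1 a c).mul_const _
  exact le_of_tendsto' h fun n => Sn_exc hθ hθ1 hA.nn hz hAz n a

/-- `Z_t = 1 + t A² S` -/
noncomputable def Zi (θ t : ℝ) (A : Matrix V V ℝ) : Matrix V V ℝ := 1 + t • (A * A * Si θ A)

/-- the walk matrix of the functional `G1` -/
noncomputable def Wi (θ t1 t2 γ : ℝ) (A : Matrix V V ℝ) : Matrix V V ℝ :=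
  Zi θ t2 A * Zi θ t1 A * (A + γ • (A * A))

variable {t t1 t2 γ : ℝ}

theorem AAS_nonneg (hA : Sub A) (hθ : 0 ≤ θ) (hθ1 : θ < 1) : MN (A * A * Si θ A) :=
  (hA.nn.mul hA.nn).mul (Si_nonneg hA hθ hθ1)

theorem Zi_nonneg (hA : Sub A) (hθ : 0 ≤ θ) (hθ1 : θ < 1) (ht : 0 ≤ t) : MN (Zi θ t A) :=
  MN.one.add ((AAS_nonneg hA hθ hθ1).smul ht)

theorem Wi_nonneg (hA : Sub A) (hθ : 0 ≤ θ) (hθ1 : θ < 1) (h1 : 0 ≤ t1) (h2 : 0 ≤ t2)
    (hγ : 0 ≤ γ) : MN (Wi θ t1 t2 γ A) :=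
  ((Zi_nonneg hA hθ hθ1 h2).mul (Zi_nonneg hA hθ hθ1 h1)).mul
    (hA.nn.add ((hA.nn.mul hA.nn).smul hγ))

theorem Zi_mono (hA : Sub A) (hB : Sub B) (h : ML A B) (hθ : 0 ≤ θ) (hθ1 : θ < 1) (ht : 0 ≤ t) :
    ML (Zi θ t A) (Zi θ t B) :=
  (ML.refl _).add (((h.mul h hA.nn hB.nn).mul (Si_mono hA hB h hθ hθ1) (Si_nonneg hA hθ hθ1)
    (hB.nn.mul hB.nn)).smul ht)

theorem Wi_mono (hA : Sub A) (hB : Sub B) (h : ML A B) (hθ : 0 ≤ θ) (hθ1 : θ < 1) (h1 : 0 ≤ t1)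
    (h2 : 0 ≤ t2) (hγ : 0 ≤ γ) : ML (Wi θ t1 t2 γ A) (Wi θ t1 t2 γ B) := by
  have e1 := Zi_mono hA hB h hθ hθ1 h2
  have e2 := Zi_mono hA hB h hθ hθ1 h1
  have e3 := e1.mul e2 (Zi_nonneg hA hθ hθ1 h1) (Zi_nonneg hB hθ hθ1 h2)
  exact e3.mul (h.add ((h.mul h hA.nn hB.nn).smul hγ)) (hA.nn.add ((hA.nn.mul hA.nn).smul hγ))
    ((Zi_nonneg hB hθ hθ1 h2).mul (Zi_nonneg hB hθ hθ1 h1))

theorem AAS_comm (hA : Sub A) (hθ : 0 ≤ θ) (hθ1 : θ < 1) :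
    A * (A * A * Si θ A) = A * A * Si θ A * A := by
  rw [Matrix.mul_assoc (A * A), ← Si_comm hA hθ hθ1, ← Matrix.mul_assoc (A * A) A,
    ← Matrix.mul_assoc A (A * A), ← Matrix.mul_assoc A A A]

theorem Zi_comm (hA : Sub A) (hθ : 0 ≤ θ) (hθ1 : θ < 1) : A * Zi θ t A = Zi θ t A * A := by
  simp only [Zi, mul_add, add_mul, mul_one, one_mul, Matrix.mul_smul, Matrix.smul_mul,
    AAS_comm hA hθ hθ1]

theorem Zi_Zi_comm (t1 t2 : ℝ) : Zi θ t1 A * Zi θ t2 A = Zi θ t2 A * Zi θ t1 A := by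
  simp only [Zi, mul_add, add_mul, mul_one, one_mul, Matrix.mul_smul, Matrix.smul_mul]
  rw [smul_comm t2 t1]
  abel

theorem AAS_symm (hA : Sub A) (hθ : 0 ≤ θ) (hθ1 : θ < 1) :
    (A * A * Si θ A)ᵀ = A * A * Si θ A := by
  rw [Matrix.transpose_mul, Matrix.transpose_mul, Si_symm hA hθ hθ1, hA.symm,
    ← Matrix.mul_assoc, ← Si_comm hA hθ hθ1, Matrix.mul_assoc, ← Si_comm hA hθ hθ1,
    ← Matrix.mul_assoc]

theorem Zi_symm (hA : Sub A) (hθ : 0 ≤ θ) (hθ1 : θ < 1) : (Zi θ t A)ᵀ = Zi θ t A := by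
  simp only [Zi, Matrix.transpose_add, Matrix.transpose_one, Matrix.transpose_smul,
    AAS_symm hA hθ hθ1]

theorem AA_comm_Zi (hA : Sub A) (hθ : 0 ≤ θ) (hθ1 : θ < 1) :
    (A * A) * Zi θ t A = Zi θ t A * (A * A) := by
  rw [Matrix.mul_assoc, Zi_comm hA hθ hθ1, ← Matrix.mul_assoc, Zi_comm hA hθ hθ1,
    Matrix.mul_assoc]

theorem Wi_symm (hA : Sub A) (hθ : 0 ≤ θ) (hθ1 : θ < 1) : (Wi θ t1 t2 γ A)ᵀ = Wi θ t1 t2 γ A := by
  have e : (A + γ • (A * A)) * (Zi θ t1 A * Zi θ t2 A)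
      = Zi θ t1 A * Zi θ t2 A * (A + γ • (A * A)) := by
    rw [← Matrix.mul_assoc, Matrix.mul_assoc (Zi θ t1 A)]
    have h1 : ∀ t, (A + γ • (A * A)) * Zi θ t A = Zi θ t A * (A + γ • (A * A)) := by
      intro t
      rw [add_mul, mul_add, Zi_comm hA hθ hθ1, Matrix.smul_mul, Matrix.mul_smul,
        AA_comm_Zi hA hθ hθ1]
    rw [h1 t1, Matrix.mul_assoc, h1 t2]
  unfold Wi
  rw [Matrix.transpose_mul, Matrix.transpose_mul, Zi_symm hA hθ hθ1, Zi_symm hA hθ hθ1,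
    Matrix.transpose_add, Matrix.transpose_smul, Matrix.transpose_mul, hA.symm, e,
    Zi_Zi_comm t1 t2]

theorem Zi_exc (hA : Sub A) (hθ : 0 ≤ θ) (hθ1 : θ < 1) (ht : 0 ≤ t) {z : V → ℝ}
    (hz : ∀ a, 0 ≤ z a) (hAz : ∀ a, (A *ᵥ z) a ≤ z a) (a : V) :
    (Zi θ t A *ᵥ z) a ≤ (1 + t / (1 - θ)) * z a := by
  have hpos : 0 < 1 - θ := by linarith
  simp only [Zi, Matrix.add_mulVec, Matrix.one_mulVec, Matrix.smul_mulVec, Pi.add_apply,
      Pi.smul_apply, smul_eq_mul]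
  have e1 : ((A * A * Si θ A) *ᵥ z) a ≤ 1 / (1 - θ) * z a := by
    rw [← Matrix.mulVec_mulVec, ← Matrix.mulVec_mulVec]
    have h1 : ∀ b, (A *ᵥ (Si θ A *ᵥ z)) b ≤ 1 / (1 - θ) * z b := by
      intro b
      refine (mulVec_mono hA.nn (Si_exc hA hθ hθ1 hz hAz) b).trans ?_
      have : (fun b => 1 / (1 - θ) * z b) = (1 / (1 - θ)) • z := rfl
      rw [this, Matrix.mulVec_smul, Pi.smul_apply, smul_eq_mul]
      exact mul_le_mul_of_nonneg_left (hAz b) (by positivity)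
    refine (mulVec_mono hA.nn h1 a).trans ?_
    have : (fun b => 1 / (1 - θ) * z b) = (1 / (1 - θ)) • z := rfl
    rw [this, Matrix.mulVec_smul, Pi.smul_apply, smul_eq_mul]
    exact mul_le_mul_of_nonneg_left (hAz a) (by positivity)
  have e2 : z a + t * (1 / (1 - θ) * z a) = (1 + t / (1 - θ)) * z a := by ring
  nlinarith [mul_le_mul_of_nonneg_left e1 ht]

theorem Zi_row (hA : Sub A) (hθ : 0 ≤ θ) (hθ1 : θ < 1) (ht : 0 ≤ t) {z : V → ℝ} {c : ℝ}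
    (hc : 0 ≤ c) (hz : ∀ a, z a ≤ c) (a : V) : (Zi θ t A *ᵥ z) a ≤ (1 + t / (1 - θ)) * c :=
  (mulVec_mono (Zi_nonneg hA hθ hθ1 ht) hz a).trans
    (Zi_exc hA hθ hθ1 ht (fun _ => hc) (fun a => hA.const hc a) a)

/-- row sums of the walk matrix -/
theorem Wi_row (hA : Sub A) (hθ : 0 ≤ θ) (hθ1 : θ < 1) (h1 : 0 ≤ t1) (h2 : 0 ≤ t2)
    (hγ : 0 ≤ γ) {z : V → ℝ} {c : ℝ} (hc : 0 ≤ c) (hz : ∀ a, z a ≤ c) (a : V) :
    (Wi θ t1 t2 γ A *ᵥ z) a ≤ (1 + t2 / (1 - θ)) * ((1 + t1 / (1 - θ)) * ((1 + γ) * c)) := by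
  have hpos : 0 < 1 - θ := by linarith
  unfold Wi
  rw [← Matrix.mulVec_mulVec, ← Matrix.mulVec_mulVec]
  refine Zi_row hA hθ hθ1 h2 (by positivity) (fun b => Zi_row hA hθ hθ1 h1 (by positivity)
    (fun d => ?_) b) a
  rw [Matrix.add_mulVec, Matrix.smul_mulVec, Pi.add_apply, Pi.smul_apply, smul_eq_mul,
    ← Matrix.mulVec_mulVec]
  have e1 := hA.le_const hc hz d
  have e2 := hA.le_const hc (fun a => hA.le_const hc hz a) d
  nlinarith [mul_le_mul_of_nonneg_left e2 hγ]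

end Pool.Agent.RCG.Lt
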