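import Pool.Agent.RCG.Forms

/-! The closures in terms of one resolvent vector (MP_73ccd0_lc, general graphs). -/

namespace Pool.Agent.RCG

open Set Finset Matrix Pool.Agent.RCRSHalf

set_option linter.unusedSectionVars false

variable {V : Type*} [Fintype V] [DecidableEq V]
variable {h : ℝ → V → V → ℝ} {H : V → V → ℝ → ℝ} {X : V → V → ℝ} {M μ : ℝ → ℝ} {t : ℝ}

theorem Res_mono_theta {B : Matrix V V ℝ} {θ θ' : ℝ} (hθ : 0 ≤ θ) (hθθ : θ ≤ θ') (hθ1 : θ' < 1)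
    (hB : MN B) (hrow : ∀ a, (B *ᵥ fun _ => 1) a ≤ 1) {F : V → ℝ} (hF : ∀ a, 0 ≤ F a) (a : V) :
    Res θ B F a ≤ Res θ' B F a := by
  unfold Res
  refine (Res_summable hθ (lt_of_le_of_lt hθθ hθ1) hB hrow hF a).tsum_le_tsum (fun n => ?_)
    (Res_summable (hθ.trans hθθ) hθ1 hB hrow hF a)
  exact mul_le_mul_of_nonneg_right (pow_le_pow_left₀ hθ hθθ n)
    (mulVec_nonneg (MN.pow hB n) hF a)

/-- `Res = F + θ A² Res` -/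
theorem Res_sq {A : Matrix V V ℝ} {θ : ℝ} (hθ : 0 ≤ θ) (hθ1 : θ < 1) (hA : MN A)
    (hrow : ∀ a, (A *ᵥ fun _ => 1) a ≤ 1) {F : V → ℝ} (hF : ∀ a, 0 ≤ F a) (a : V) :
    Res θ (A * A) F a = F a + θ * (A *ᵥ (A *ᵥ Res θ (A * A) F)) a := by
  have h := Res_eq hθ hθ1 (hA.mul hA) (sq_row hA hrow) hF
  have h2 := congrFun h a
  rw [Pi.add_apply, Pi.smul_apply, smul_eq_mul, ← Matrix.mulVec_mulVec] at h2
  exact h2

section gen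

variable {A : Matrix V V ℝ} {c κ θ θ' σ m1 m : ℝ} {F : V → ℝ}

theorem A_Res {θ' : ℝ} (hθ : 0 ≤ θ') (hθ1 : θ' < 1) (hA : MN A)
    (hrow : ∀ a, (A *ᵥ fun _ => 1) a ≤ 1) (hF : ∀ a, 0 ≤ F a) (a : V) :
    (A *ᵥ Res θ' (A * A) F) a = (A *ᵥ F) a
      + θ' * (A *ᵥ (A *ᵥ (A *ᵥ Res θ' (A * A) F))) a := by
  have e : Res θ' (A * A) F = F + θ' • (A *ᵥ (A *ᵥ Res θ' (A * A) F)) := by
    funext b
    rw [Pi.add_apply, Pi.smul_apply, smul_eq_mul]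
    exact Res_sq hθ hθ1 hA hrow hF b
  conv_lhs => rw [e]
  rw [Matrix.mulVec_add, Matrix.mulVec_smul, Pi.add_apply, Pi.smul_apply, smul_eq_mul]

theorem Nw_le_Res2 (hG : Good c κ θ σ m1) (hθ : θ ≤ θ') (hθ1 : θ' < 1) (hA : MN A)
    (hrow : ∀ a, (A *ᵥ fun _ => 1) a ≤ 1) (hF : ∀ a, 0 ≤ F a) (hm : m ∈ Icc 0 m1)
    (hb : b4 c κ m ≤ θ' * b2 c m) (a : V) :
    Nw c κ θ A F m a ≤ b2 c m * (A *ᵥ Res θ' (A * A) F) a := by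
  have hθ0 : 0 ≤ θ' := hG.θ0.trans hθ
  rw [A_Res hθ0 hθ1 hA hrow hF]
  unfold Nw
  have hr0 : ∀ b, 0 ≤ Res θ (A * A) F b := Res_nonneg hG.θ0 (hA.mul hA) hF
  have hr1 : ∀ b, Res θ (A * A) F b ≤ Res θ' (A * A) F b :=
    Res_mono_theta hG.θ0 hθ hθ1 (hA.mul hA) (sq_row hA hrow) hF
  have e3 : (A *ᵥ (A *ᵥ (A *ᵥ Res θ (A * A) F))) a ≤ (A *ᵥ (A *ᵥ (A *ᵥ Res θ' (A * A) F))) a :=
    mulVec_mono hA (fun b => mulVec_mono hA (fun b => mulVec_mono hA hr1 b) b) a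
  have e0 : 0 ≤ (A *ᵥ (A *ᵥ (A *ᵥ Res θ' (A * A) F))) a :=
    mulVec_nonneg hA (fun b => mulVec_nonneg hA (fun b => mulVec_nonneg hA
      (fun b => (hr0 b).trans (hr1 b)) b) b) a
  have h4 := b4_nonneg hG.c0 hG.κ0 hm.1
  calc _ ≤ b2 c m * (A *ᵥ F) a + b4 c κ m * (A *ᵥ (A *ᵥ (A *ᵥ Res θ' (A * A) F))) a :=
        add_le_add le_rfl (mul_le_mul_of_nonneg_left e3 h4)
    _ ≤ b2 c m * (A *ᵥ F) a + (θ' * b2 c m) * (A *ᵥ (A *ᵥ (A *ᵥ Res θ' (A * A) F))) a :=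
        add_le_add le_rfl (mul_le_mul_of_nonneg_right hb e0)
    _ = _ := by ring

theorem Yw_le_Res2 (hG : Good c κ θ σ m1) (hθ : θ ≤ θ') (hθ1 : θ' < 1) (hA : MN A)
    (hrow : ∀ a, (A *ᵥ fun _ => 1) a ≤ 1) (hF : ∀ a, 0 ≤ F a) (hm : m ∈ Icc 0 m1)
    (hb : g5 c κ m ≤ θ' * g3 c m) (a : V) :
    Yw c κ θ A F m a ≤ g3 c m * (A *ᵥ (A *ᵥ Res θ' (A * A) F)) a := by
  have hθ0 : 0 ≤ θ' := hG.θ0.trans hθ
  have e : A *ᵥ Res θ' (A * A) F = (A *ᵥ F) + θ' • (A *ᵥ (A *ᵥ (A *ᵥ Res θ' (A * A) F))) := by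
    funext b
    rw [Pi.add_apply, Pi.smul_apply, smul_eq_mul]
    exact A_Res hθ0 hθ1 hA hrow hF b
  have e' : (A *ᵥ (A *ᵥ Res θ' (A * A) F)) a = (A *ᵥ (A *ᵥ F)) a
      + θ' * (A *ᵥ (A *ᵥ (A *ᵥ (A *ᵥ Res θ' (A * A) F)))) a := by
    conv_lhs => rw [e]
    rw [Matrix.mulVec_add, Matrix.mulVec_smul, Pi.add_apply, Pi.smul_apply, smul_eq_mul]
  rw [e']
  unfold Yw
  have hr0 : ∀ b, 0 ≤ Res θ (A * A) F b := Res_nonneg hG.θ0 (hA.mul hA) hF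
  have hr1 : ∀ b, Res θ (A * A) F b ≤ Res θ' (A * A) F b :=
    Res_mono_theta hG.θ0 hθ hθ1 (hA.mul hA) (sq_row hA hrow) hF
  have e3 : (A *ᵥ (A *ᵥ (A *ᵥ (A *ᵥ Res θ (A * A) F)))) a
      ≤ (A *ᵥ (A *ᵥ (A *ᵥ (A *ᵥ Res θ' (A * A) F)))) a :=
    mulVec_mono hA (fun b => mulVec_mono hA (fun b => mulVec_mono hA
      (fun b => mulVec_mono hA hr1 b) b) b) a
  have e0 : 0 ≤ (A *ᵥ (A *ᵥ (A *ᵥ (A *ᵥ Res θ' (A * A) F)))) a :=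
    mulVec_nonneg hA (fun b => mulVec_nonneg hA (fun b => mulVec_nonneg hA (fun b =>
      mulVec_nonneg hA (fun b => (hr0 b).trans (hr1 b)) b) b) b) a
  have h5 := g5_nonneg hG.c0 hG.κ0 hm.1
  calc _ ≤ g3 c m * (A *ᵥ (A *ᵥ F)) a
        + g5 c κ m * (A *ᵥ (A *ᵥ (A *ᵥ (A *ᵥ Res θ' (A * A) F)))) a :=
        add_le_add le_rfl (mul_le_mul_of_nonneg_left e3 h5)
    _ ≤ g3 c m * (A *ᵥ (A *ᵥ F)) a
        + (θ' * g3 c m) * (A *ᵥ (A *ᵥ (A *ᵥ (A *ᵥ Res θ' (A * A) F)))) a :=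
        add_le_add le_rfl (mul_le_mul_of_nonneg_right hb e0)
    _ = _ := by ring

end gen

/-- the resolvent vector of a target -/
noncomputable def Rh (X : V → V → ℝ) (H0 : Finset V) (p : V) : V → ℝ :=
  Res (13 / 100) (rm X H0 * rm X H0) (fun b => Fc (X p b))

noncomputable def Rh2 (X : V → V → ℝ) (H0 : Finset V) (p q : V) : V → ℝ :=
  Res (13 / 100) (rm X H0 * rm X H0) (fun b => Fc (X p b + X q b))

theorem b42_1 {m : ℝ} (hm : m ∈ Icc (0 : ℝ) (23 / 20)) :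
    b4 (151 / 1000) (1111 / 1000) m ≤ 13 / 100 * b2 (151 / 1000) m := by
  unfold b4 b2
  have h2 : m ^ 2 ≤ (23 / 20) ^ 2 := pow_le_pow_left₀ hm.1 hm.2 2
  have a2 : 0 ≤ m ^ 2 := by positivity
  have a5 : 0 ≤ m ^ 5 := by exact pow_nonneg hm.1 5
  have e4 : m ^ 4 = m ^ 2 * m ^ 2 := by ring
  have e7 : m ^ 7 = m ^ 5 * m ^ 2 := by ring
  rw [e4, e7]
  nlinarith [mul_le_mul_of_nonneg_left h2 a2, mul_le_mul_of_nonneg_left h2 a5]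

theorem b42_2 {m : ℝ} (hm : m ∈ Icc (0 : ℝ) (23 / 20)) :
    b4 (241 / 1000) (1174 / 1000) m ≤ 13 / 100 * b2 (241 / 1000) m := by
  unfold b4 b2
  have h2 : m ^ 2 ≤ (23 / 20) ^ 2 := pow_le_pow_left₀ hm.1 hm.2 2
  have a2 : 0 ≤ m ^ 2 := by positivity
  have a5 : 0 ≤ m ^ 5 := by exact pow_nonneg hm.1 5
  have e4 : m ^ 4 = m ^ 2 * m ^ 2 := by ring
  have e7 : m ^ 7 = m ^ 5 * m ^ 2 := by ring
  rw [e4, e7]
  nlinarith [mul_le_mul_of_nonneg_left h2 a2, mul_le_mul_of_nonneg_left h2 a5]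

theorem g53_1 {m : ℝ} (hm : m ∈ Icc (0 : ℝ) (23 / 20)) :
    g5 (151 / 1000) (1111 / 1000) m ≤ 13 / 100 * g3 (151 / 1000) m := by
  unfold g5 g3
  have h2 : m ^ 2 ≤ (23 / 20) ^ 2 := pow_le_pow_left₀ hm.1 hm.2 2
  have a3 : 0 ≤ m ^ 3 := by exact pow_nonneg hm.1 3
  have a6 : 0 ≤ m ^ 6 := by exact pow_nonneg hm.1 6
  have e5 : m ^ 5 = m ^ 3 * m ^ 2 := by ring
  have e8 : m ^ 8 = m ^ 6 * m ^ 2 := by ring
  rw [e5, e8]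
  nlinarith [mul_le_mul_of_nonneg_left h2 a3, mul_le_mul_of_nonneg_left h2 a6]

theorem g53_2 {m : ℝ} (hm : m ∈ Icc (0 : ℝ) (23 / 20)) :
    g5 (241 / 1000) (1174 / 1000) m ≤ 13 / 100 * g3 (241 / 1000) m := by
  unfold g5 g3
  have h2 : m ^ 2 ≤ (23 / 20) ^ 2 := pow_le_pow_left₀ hm.1 hm.2 2
  have a3 : 0 ≤ m ^ 3 := by exact pow_nonneg hm.1 3
  have a6 : 0 ≤ m ^ 6 := by exact pow_nonneg hm.1 6
  have e5 : m ^ 5 = m ^ 3 * m ^ 2 := by ring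
  have e8 : m ^ 8 = m ^ 6 * m ^ 2 := by ring
  rw [e5, e8]
  nlinarith [mul_le_mul_of_nonneg_left h2 a3, mul_le_mul_of_nonneg_left h2 a6]

theorem Rh_nonneg (hX : Wt X) (H0 : Finset V) (p a : V) : 0 ≤ Rh X H0 p a :=
  Res_nonneg (by norm_num) ((hX.rm_nonneg H0).mul (hX.rm_nonneg H0))
    (fun b => Fc_nonneg (hX.nonneg p b)) a

theorem Rh2_nonneg (hX : Wt X) (H0 : Finset V) (p q a : V) : 0 ≤ Rh2 X H0 p q a :=
  Res_nonneg (by norm_num) ((hX.rm_nonneg H0).mul (hX.rm_nonneg H0))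
    (fun b => Fc_nonneg (add_nonneg (hX.nonneg p b) (hX.nonneg q b))) a

theorem Fc_le_Rh (hX : Wt X) (H0 : Finset V) (p a : V) : Fc (X p a) ≤ Rh X H0 p a := by
  unfold Rh
  rw [Res_sq (by norm_num) (by norm_num) (hX.rm_nonneg H0) (hX.rm_row H0)
    (fun b => Fc_nonneg (hX.nonneg p b))]
  have : 0 ≤ (rm X H0 *ᵥ (rm X H0 *ᵥ Res (13 / 100) (rm X H0 * rm X H0)
      (fun b => Fc (X p b)))) a :=
    mulVec_nonneg (hX.rm_nonneg H0) (fun b => mulVec_nonneg (hX.rm_nonneg H0)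
      (fun b => Rh_nonneg hX H0 p b) b) a
  linarith

theorem Nt_le (hX : Wt X) (H0 : Finset V) (p : V) {m : ℝ} (hm : m ∈ Icc (0 : ℝ) (23 / 20))
    (a : V) : Nt X H0 p m a ≤ b2 (151 / 1000) m * (rm X H0 *ᵥ Rh X H0 p) a :=
  Nw_le_Res2 good1 (by norm_num) (by norm_num) (hX.rm_nonneg H0) (hX.rm_row H0)
    (fun b => Fc_nonneg (hX.nonneg p b)) hm (b42_1 hm) a

theorem Yt_le (hX : Wt X) (H0 : Finset V) (p : V) {m : ℝ} (hm : m ∈ Icc (0 : ℝ) (23 / 20))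
    (a : V) : Yt X H0 p m a ≤ g3 (151 / 1000) m * (rm X H0 *ᵥ (rm X H0 *ᵥ Rh X H0 p)) a :=
  Yw_le_Res2 good1 (by norm_num) (by norm_num) (hX.rm_nonneg H0) (hX.rm_row H0)
    (fun b => Fc_nonneg (hX.nonneg p b)) hm (g53_1 hm) a

theorem Nt2_le (hX : Wt X) (H0 : Finset V) (p q : V) {m : ℝ} (hm : m ∈ Icc (0 : ℝ) (23 / 20))
    (a : V) : Nt2 X H0 p q m a ≤ b2 (241 / 1000) m * (rm X H0 *ᵥ Rh2 X H0 p q) a :=
  Nw_le_Res2 good2 (by norm_num) (by norm_num) (hX.rm_nonneg H0) (hX.rm_row H0)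
    (fun b => Fc_nonneg (add_nonneg (hX.nonneg p b) (hX.nonneg q b))) hm (b42_2 hm) a

theorem Yt2_le (hX : Wt X) (H0 : Finset V) (p q : V) {m : ℝ} (hm : m ∈ Icc (0 : ℝ) (23 / 20))
    (a : V) : Yt2 X H0 p q m a ≤ g3 (241 / 1000) m * (rm X H0 *ᵥ (rm X H0 *ᵥ Rh2 X H0 p q)) a :=
  Yw_le_Res2 good2 (by norm_num) (by norm_num) (hX.rm_nonneg H0) (hX.rm_row H0)
    (fun b => Fc_nonneg (add_nonneg (hX.nonneg p b) (hX.nonneg q b))) hm (g53_2 hm) a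

end Pool.Agent.RCG
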