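import Pool.Agent.RCG.CtK
import Pool.Agent.RCG.LtMat
import Pool.Agent.RCG.Rh

/-! Stage 1 of the certificate: kernels given by matrices (MP_73ccd0_lc). -/

namespace Pool.Agent.RCG.Ct

open Finset Set Matrix Filter Topology Pool.Agent.RCRSHalf Pool.Agent.RCG.Lt

set_option linter.unusedSectionVars false

variable {V : Type*} [Fintype V] [DecidableEq V]

section res

variable {A : Matrix V V ℝ} {θ : ℝ}

theorem Sn_eq_sum (n : ℕ) : Sn θ A n = ∑ k ∈ Finset.range (n + 1), θ ^ k • (A * A) ^ k := by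
  induction n with
  | zero => simp [Sn]
  | succ n ih =>
    rw [Finset.sum_range_succ', pow_zero, pow_zero, one_smul,
      show Sn θ A (n + 1) = 1 + θ • (A * A * Sn θ A n) from rfl, add_comm,
      ih, Finset.mul_sum, Finset.smul_sum]
    congr 1
    refine Finset.sum_congr rfl fun k _ => ?_
    rw [Matrix.mul_smul, smul_smul, pow_succ' θ, pow_succ' (A * A)]

theorem Sn_mulVec (F : V → ℝ) (n : ℕ) (a : V) : (Sn θ A n *ᵥ F) a
    = ∑ k ∈ Finset.range (n + 1), θ ^ k * (((A * A) ^ k) *ᵥ F) a := by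
  rw [Sn_eq_sum, Matrix.sum_mulVec, Finset.sum_apply]
  refine Finset.sum_congr rfl fun k _ => ?_
  rw [Matrix.smul_mulVec, Pi.smul_apply, smul_eq_mul]

theorem Res_eq_Si (hA : Sub A) (hθ : 0 ≤ θ) (hθ1 : θ < 1) {F : V → ℝ} (hF : ∀ a, 0 ≤ F a) :
    Res θ (A * A) F = Si θ A *ᵥ F := by
  funext a
  have h1 : Tendsto (fun n => (Sn θ A n *ᵥ F) a) atTop (𝓝 ((Si θ A *ᵥ F) a)) := by
    simp only [Matrix.mulVec, dotProduct]
    exact tendsto_finsetSum _ fun c _ => (Si_tendsto hA hθ hθ1 a c).mul_const _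
  have hs := Res_summable hθ hθ1 (hA.nn.mul hA.nn) (sq_row hA.nn hA.row) hF a
  have h2 : Tendsto (fun n => (Sn θ A n *ᵥ F) a) atTop (𝓝 (Res θ (A * A) F a)) := by
    simp only [Sn_mulVec]
    exact (tendsto_add_atTop_iff_nat 1).2 hs.hasSum.tendsto_sum_nat
  exact tendsto_nhds_unique h2 h1

end res

section conv

variable {x : V → V → ℝ} {P : V → Prop} [DecidablePred P] {d β : ℝ}

theorem sub_x (hx : Wt x P d) : Sub (x : Matrix V V ℝ) where
  nn := hx.nonneg
  symm := by ext a b; exact hx.symm b a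
  row a := by
    simp only [Matrix.mulVec, dotProduct, mul_one]
    exact hx.row a

theorem sub_rm (hx : Wt x P d) (H0 : Finset V) : Sub (rm x H0) where
  nn a b := by unfold rm; split_ifs; exacts [hx.nonneg a b, le_rfl]
  symm := by
    ext a b
    simp only [Matrix.transpose_apply, rm]
    rw [hx.symm b a]
    simp only [and_comm]
  row a := by
    simp only [Matrix.mulVec, dotProduct, mul_one]
    refine le_trans (Finset.sum_le_sum fun b _ => ?_) (hx.row a)
    unfold rm; split_ifs; exacts [le_rfl, hx.nonneg a b]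

theorem rm_le_x (hx : Wt x P d) (H0 : Finset V) : ML (rm x H0) (x : Matrix V V ℝ) := fun a b => by
  unfold rm; split_ifs; exacts [le_rfl, hx.nonneg a b]

/-- Conversion of a restricted quadratic form to the functional of a kernel. -/
theorem conv (hx : Wt x P d) {u v : V} (hu : P u) (hv : P v)
    {D Bf : Matrix V V ℝ} (hn : MN (rm x ({u, v} : Finset V)ᶜ * D))
    (hc : rm x ({u, v} : Finset V)ᶜ * D = D * rm x ({u, v} : Finset V)ᶜ)
    (hle : ML (rm x ({u, v} : Finset V)ᶜ * D) Bf) :
    ∑ a, ∑ b, x u a * (rm x ({u, v} : Finset V)ᶜ * D) a b * x v b ≤ Wf x P Bf u v := by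
  set A : Matrix V V ℝ := rm x ({u, v} : Finset V)ᶜ with hA
  have hout : ∀ a, a ∉ ({u, v} : Finset V)ᶜ → ∀ c, A a c = 0 := fun a ha c => by
    simp only [hA, rm]; rw [if_neg (fun hh => ha hh.1)]
  have hAs : ∀ a c, A a c = A c a := fun a c => by
    simp only [hA, rm]; rw [hx.symm a c]; simp only [and_comm]
  have hzr : ∀ a, (∀ c, A a c = 0) → ∀ b, (A * D) a b = 0 := fun a h b => by
    rw [Matrix.mul_apply]; exact Finset.sum_eq_zero fun c _ => by rw [h c, zero_mul]
  have hzc : ∀ b, (∀ c, A b c = 0) → ∀ a, (A * D) a b = 0 := fun b h a => by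
    rw [hc, Matrix.mul_apply]
    exact Finset.sum_eq_zero fun c _ => by rw [hAs c b, h c, mul_zero]
  -- pendant neighbours of `u` and `v`
  have hp : ∀ w, w = u ∨ w = v → ∀ a, ¬P a → x w a ≠ 0 → ∀ c, A a c = 0 := by
    intro w hw a ha hwa c
    by_contra hne
    have hne' : ¬ (if a ∈ ({u, v} : Finset V)ᶜ ∧ c ∈ ({u, v} : Finset V)ᶜ then x a c else 0) = 0 :=
      hne
    by_cases h1 : a ∈ ({u, v} : Finset V)ᶜ ∧ c ∈ ({u, v} : Finset V)ᶜ
    · rw [if_pos h1] at hne'
      have h2 := hx.pend1 w a c ha hwa hne'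
      have h3 := h1.2
      rw [Finset.mem_compl, Finset.mem_insert, Finset.mem_singleton, not_or] at h3
      rcases hw with rfl | rfl
      · exact h3.1 h2
      · exact h3.2 h2
    · rw [if_neg h1] at hne'; exact hne' rfl
  have key : ∀ a b, x u a * (A * D) a b * x v b
      ≤ if a ∈ ({u, v} : Finset V)ᶜ ∧ b ∈ ({u, v} : Finset V)ᶜ then
        xr x P u a * Bf a b * xr x P v b else 0 := by
    intro a b
    by_cases h1 : a ∈ ({u, v} : Finset V)ᶜ ∧ b ∈ ({u, v} : Finset V)ᶜ
    · rw [if_pos h1]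
      have hB0 : 0 ≤ Bf a b := (hn a b).trans (hle a b)
      by_cases ha : P a
      · by_cases hb : P b
        · unfold xr
          rw [if_pos ⟨hu, ha⟩, if_pos ⟨hv, hb⟩]
          exact mul_le_mul_of_nonneg_right (mul_le_mul_of_nonneg_left (hle a b)
            (hx.nonneg u a)) (hx.nonneg v b)
        · have h0 : x u a * (A * D) a b * x v b = 0 := by
            by_cases h2 : x v b = 0
            · rw [h2, mul_zero]
            · rw [hzc b (hp v (Or.inr rfl) b hb h2) a, mul_zero, zero_mul]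
          rw [h0]
          exact mul_nonneg (mul_nonneg (xr_nonneg hx u a) hB0) (xr_nonneg hx v b)
      · have h0 : x u a * (A * D) a b * x v b = 0 := by
          by_cases h2 : x u a = 0
          · rw [h2, zero_mul, zero_mul]
          · rw [hzr a (hp u (Or.inl rfl) a ha h2) b, mul_zero, zero_mul]
        rw [h0]
        exact mul_nonneg (mul_nonneg (xr_nonneg hx u a) hB0) (xr_nonneg hx v b)
    · rw [if_neg h1]
      rw [not_and_or] at h1
      rcases h1 with h1 | h1
      · rw [hzr a (hout a h1) b, mul_zero, zero_mul]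
      · rw [hzc b (hout b h1) a, mul_zero, zero_mul]
  refine (Finset.sum_le_sum fun a _ => Finset.sum_le_sum fun b _ => key a b).trans
    (le_of_eq ?_)
  unfold Wf
  rw [← Finset.sum_subset (Finset.subset_univ (({u, v} : Finset V)ᶜ))]
  · refine Finset.sum_congr rfl fun a ha => ?_
    rw [← Finset.sum_subset (Finset.subset_univ (({u, v} : Finset V)ᶜ))]
    · exact Finset.sum_congr rfl fun b hb => by rw [if_pos ⟨ha, hb⟩]
    · intro b _ hb
      rw [if_neg (fun h => hb h.2)]
  · intro a _ ha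
    exact Finset.sum_eq_zero fun b _ => by rw [if_neg (fun h => ha h.1)]

/-- kernels given by matrices -/
theorem ker_of {B : Matrix V V ℝ} (h1 : MN B) (h2 : Bᵀ = B) (h3 : ∀ a, (B *ᵥ fun _ => 1) a ≤ β) :
    Ker B β where
  nn := h1
  sy a b := by
    have := congrFun (congrFun h2 b) a
    simpa [Matrix.transpose_apply] using this
  rw a := by
    have := h3 a
    simpa only [Matrix.mulVec, dotProduct, mul_one] using this

end conv

end Pool.Agent.RCG.Ct
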