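import Pool.Agent.RCG.Clo

/-! Deletion ratios (5.1), flux versus deletion (4.1), and the A-lemma (5.2)
(MP_73ccd0_lc, general graphs). -/

namespace Pool.Agent.RCG

open Set Finset Pool.Agent.RCRSHalf

set_option linter.unusedSectionVars false

variable {V : Type*} [Fintype V] [DecidableEq V]
variable {h : ℝ → V → V → ℝ} {H : V → V → ℝ → ℝ}

theorem bb_nonneg (hh : Haz h H) (D : Finset V) (u : V) {t : ℝ} (ht : t ∈ Icc (0 : ℝ) 1) :
    0 ≤ bb h D u t := (hh.lw D).pr_nonneg _ ht

theorem bb_le_one (hh : Haz h H) (D : Finset V) (u : V) {t : ℝ} (ht : t ∈ Icc (0 : ℝ) 1) :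
    bb h D u t ≤ 1 := (hh.lw D).pr_le_one _ ht

/-- insertion bounds -/
structure InsB (a : V) (H0 : Finset V) (s : ℝ) (R : Finset V → ℝ → ℝ) (p N : ℝ → ℝ) : Prop where
  up : ∀ G ⊆ H0, ∀ r ∈ Icc 0 s, R (insert a G) r ≤ (1 - p r + N r) * R G r

/-- insertion bounds from closure data -/
theorem Clo.ins (hh : Haz h H) {w a : V} {H0 : Finset V} {t : ℝ} {P N : V → ℝ → ℝ}
    (hC : Clo h w H0 t P N) (ht : t ∈ Icc (0 : ℝ) 1) (ha : a ∈ H0) {p p' full : ℝ → ℝ}
    (hpd : ∀ r ∈ Icc 0 t, HasDerivAt p (p' r) r)
    (hp' : ∀ r ∈ Icc 0 t, -h r w a + full r * p r ≤ p' r)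
    (hfull : ∀ r ∈ Icc 0 t, h r w a + ∑ b ∈ H0, h r a b ≤ full r)
    (hp0 : ∀ r ∈ Icc 0 t, 0 ≤ p r) (hpt : p t = 0) :
    InsB a (H0.erase a) t (RCG.tgt h w t) p (N a) := by
  have hT := hh.tgt w ht
  have hI := hC.tgt hh ht
  have key := insertion (P := P) (N := N a) (N' := deriv (N a)) (p := p) (p' := p') (full := full)
    hh.symm hh.diag hh.nonneg (fun t a => hh.nonneg t w a) hT.ev (H0 := H0.erase a)
    (Finset.notMem_erase _ _)
    (fun b hb => hC.P0 b (Finset.mem_of_mem_erase hb))
    (fun G hG b hb r hr => hI.up G (hG.trans (Finset.erase_subset _ _)) b hb r hr)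
    (fun r hr => by
      obtain ⟨N', h1, _⟩ := hC.Nd a ha r hr
      rw [h1.deriv]; exact h1)
    hpd hp'
    (fun r hr => by
      refine le_trans ?_ (hfull r hr)
      have : ∑ b ∈ H0.erase a, h r a b ≤ ∑ b ∈ H0, h r a b :=
        Finset.sum_le_sum_of_subset_of_nonneg (Finset.erase_subset _ _) fun b _ _ =>
          hh.nonneg _ _ _
      linarith)
    (hC.N0 a ha) hp0
    (fun G hG => by
      rw [hT.end_, hT.end_, hpt]
      linarith [hC.N0 a ha t ⟨ht.1, le_rfl⟩])
    (fun r hr => by
      obtain ⟨N', h1, h2⟩ := hC.Nd a ha r hr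
      rw [h1.deriv]
      refine le_trans ?_ h2
      exact Finset.sum_le_sum_of_subset_of_nonneg (Finset.erase_subset _ _) fun b hb _ =>
        mul_nonneg (hh.nonneg _ _ _) (hC.P0 b hb r hr))
  exact ⟨key⟩

theorem compl_erase_insert {D : Finset V} {u q : V} :
    (insert u D)ᶜ.erase q = (insert u (insert q D))ᶜ := by
  ext a
  simp only [Finset.mem_erase, Finset.mem_compl, Finset.mem_insert]
  tauto

/-- (5.1), deletion of `q` in the world without `D` -/
theorem bb_del (hh : Haz h H) {D : Finset V} {u q : V} (hu : u ∉ D) (hq : q ∉ D) (huq : u ≠ q)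
    {t : ℝ} (ht : t ∈ Icc (0 : ℝ) 1) {H0 : Finset V} (hH0 : (insert u D)ᶜ ⊆ H0)
    {P N : V → ℝ → ℝ} (hI : Inf H0 t (RCG.tgt h u t) P N) :
    bb h (insert q D) u t ≤ (1 + P q 0) * bb h D u t ∧
      (1 - N q 0) * bb h D u t ≤ bb h (insert q D) u t := by
  have hq' : q ∈ (insert u D)ᶜ := by
    simp only [Finset.mem_compl, Finset.mem_insert, not_or]
    exact ⟨huq.symm, hq⟩
  rw [bb_eq hh hu ht, bb_eq hh (D := insert q D) (u := u) (by simp [huq, hu]) ht,
    ← compl_erase_insert]
  exact ⟨hI.up _ hH0 q hq' 0 ⟨le_rfl, ht.1⟩, hI.lo _ hH0 q hq' 0 ⟨le_rfl, ht.1⟩⟩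

/-- (5.1), insertion form -/
theorem bb_ins (hh : Haz h H) {D : Finset V} {u q : V} (hu : u ∉ D) (hq : q ∉ D) (huq : u ≠ q)
    {t : ℝ} (ht : t ∈ Icc (0 : ℝ) 1) {H0 : Finset V} (hH0 : (insert u (insert q D))ᶜ ⊆ H0)
    {p N : ℝ → ℝ} (hI : InsB q H0 t (RCG.tgt h u t) p N) :
    bb h D u t ≤ (1 - p 0 + N 0) * bb h (insert q D) u t := by
  have hq' : q ∈ (insert u D)ᶜ := by
    simp only [Finset.mem_compl, Finset.mem_insert, not_or]
    exact ⟨huq.symm, hq⟩
  have e : insert q (insert u (insert q D))ᶜ = (insert u D)ᶜ := by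
    rw [← compl_erase_insert, Finset.insert_erase hq']
  rw [bb_eq hh hu ht, bb_eq hh (D := insert q D) (u := u) (by simp [huq, hu]) ht, ← e]
  exact hI.up _ hH0 0 ⟨le_rfl, ht.1⟩

/-- expectation form of the comparison for two targets with horizons `T` (target `p`) and `s`
(target `q`) -/
theorem ex_pair_le (hh : Haz h H) {D : Finset V} {p q : V} (hp : p ∉ D) (hq : q ∉ D) (hpq : p ≠ q)
    {T s : ℝ} (hT : T ∈ Icc (0 : ℝ) 1) (hs : s ∈ Icc 0 T) {Pp Np Pq Nq : V → ℝ → ℝ}
    (hIp : Inf (insert p (insert q D))ᶜ s (RCG.tgt h p T) Pp Np)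
    (hIq : Inf (insert p (insert q D))ᶜ s (RCG.tgt h q s) Pq Nq)
    {κ κ' : ℝ → ℝ} (hκd : ∀ r ∈ Icc 0 s, HasDerivAt κ (κ' r) r) (hκs : 0 ≤ κ s)
    (hκ : ∀ r ∈ Icc 0 s, k2R (h r) (insert p (insert q D))ᶜ (fun a => Pp a r) (fun a => Np a r)
      (fun a => Pq a r) (fun a => Nq a r) ≤ -κ' r) :
    ex (lw h D s) {p, q} (fun F => RCG.tgt h p T F s)
      ≤ Real.exp (-H p q s + κ 0) * (bb h (insert q D) p T * bb h (insert p D) q s) := by
  have hs1 : s ∈ Icc (0 : ℝ) 1 := ⟨hs.1, hs.2.trans hT.2⟩
  have hTp := hh.tgt p hT
  have hTq := hh.tgt q hs1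
  have eD : D ∪ {p, q} = insert p (insert q D) := by
    ext a; simp only [Finset.mem_union, Finset.mem_insert, Finset.mem_singleton]; tauto
  have hdis : Disjoint D {p, q} := by
    rw [Finset.disjoint_left]
    intro a ha
    simp only [Finset.mem_insert, Finset.mem_singleton]
    rintro (rfl | rfl)
    · exact hp ha
    · exact hq ha
  have key := ex_le hh (W := {p, q}) (D := D) (s := s)
    (R := fun w => if w = p then RCG.tgt h p T else RCG.tgt h q s)
    (P := fun w => if w = p then Pp else Pq) (N := fun w => if w = p then Np else Nq)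
    (ψ := fun F => RCG.tgt h p T F s) hdis hs1
    (fun w hw => by
      simp only [Finset.mem_insert, Finset.mem_singleton] at hw
      rcases hw with rfl | rfl
      · simpa using hTp.ev.mono hs.2
      · simp only [if_neg hpq.symm]; exact hTq.ev)
    (fun w hw => by
      rw [eD]
      simp only [Finset.mem_insert, Finset.mem_singleton] at hw
      rcases hw with rfl | rfl
      · simpa using hIp
      · simp only [if_neg hpq.symm]; exact hIq)
    (fun F => hTp.ev.nonneg F s hs)
    (fun F _ => by
      rw [Finset.prod_pair hpq]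
      simp only [if_true, if_neg hpq.symm, hTq.end_, mul_one]
      exact le_rfl)
    hκd hκs
    (fun r hr => by
      refine le_trans (le_of_eq ?_) (hκ r hr)
      rw [eD]
      unfold kupR k2R GUp
      congr 1
      refine Finset.sum_congr rfl fun a _ => Finset.sum_congr rfl fun b _ => ?_
      rw [Finset.prod_pair hpq, Finset.sum_pair hpq, Finset.sum_pair hpq]
      have e1 : ({p, q} : Finset V).erase p = {q} := by
        ext c; simp only [Finset.mem_erase, Finset.mem_insert, Finset.mem_singleton]
        constructor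
        · tauto
        · rintro rfl; exact ⟨hpq.symm, Or.inr rfl⟩
      have e2 : ({p, q} : Finset V).erase q = {p} := by
        ext c; simp only [Finset.mem_erase, Finset.mem_insert, Finset.mem_singleton]
        constructor
        · tauto
        · rintro rfl; exact ⟨hpq, Or.inl rfl⟩
      rw [e1, e2, Finset.sum_singleton, Finset.sum_singleton]
      simp only [if_true, if_neg hpq.symm]
      ring)
  refine key.trans (le_of_eq ?_)
  rw [HW_pair hh hpq, Finset.prod_pair hpq]
  simp only [if_true, if_neg hpq.symm]
  have e3 : insert q (insert p D) = insert p (insert q D) := Finset.insert_comm q p D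
  rw [bb_eq hh (D := insert q D) (u := p) (by simp [hpq, hp]) hT,
    bb_eq hh (D := insert p D) (u := q) (by simp [hpq.symm, hq]) hs1, e3, eD]

/-- lower version -/
theorem le_ex_pair (hh : Haz h H) {D : Finset V} {p q : V} (hp : p ∉ D) (hq : q ∉ D) (hpq : p ≠ q)
    {T s : ℝ} (hT : T ∈ Icc (0 : ℝ) 1) (hs : s ∈ Icc 0 T) {Pp Np Pq Nq : V → ℝ → ℝ}
    (hIp : Inf (insert p (insert q D))ᶜ s (RCG.tgt h p T) Pp Np)
    (hIq : Inf (insert p (insert q D))ᶜ s (RCG.tgt h q s) Pq Nq)
    {κ κ' : ℝ → ℝ} (hκd : ∀ r ∈ Icc 0 s, HasDerivAt κ (κ' r) r) (hκs : 0 ≤ κ s)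
    (hκ : ∀ r ∈ Icc 0 s, (1 / 2) * ∑ a ∈ (insert p (insert q D))ᶜ,
      ∑ b ∈ (insert p (insert q D))ᶜ, h r a b *
        ((Np a r + Np b r) * ((1 + Pq a r) * (1 + Pq b r) - 1)
          + (Nq a r + Nq b r) * ((1 + Pp a r) * (1 + Pp b r) - 1)) ≤ -κ' r) :
    Real.exp (-H p q s - κ 0) * (bb h (insert q D) p T * bb h (insert p D) q s)
      ≤ ex (lw h D s) {p, q} (fun F => RCG.tgt h p T F s) := by
  have hs1 : s ∈ Icc (0 : ℝ) 1 := ⟨hs.1, hs.2.trans hT.2⟩
  have hTp := hh.tgt p hT
  have hTq := hh.tgt q hs1
  have eD : D ∪ {p, q} = insert p (insert q D) := by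
    ext a; simp only [Finset.mem_union, Finset.mem_insert, Finset.mem_singleton]; tauto
  have hdis : Disjoint D {p, q} := by
    rw [Finset.disjoint_left]
    intro a ha
    simp only [Finset.mem_insert, Finset.mem_singleton]
    rintro (rfl | rfl)
    · exact hp ha
    · exact hq ha
  have key := le_ex hh (W := {p, q}) (D := D) (s := s)
    (R := fun w => if w = p then RCG.tgt h p T else RCG.tgt h q s)
    (P := fun w => if w = p then Pp else Pq) (N := fun w => if w = p then Np else Nq)
    (ψ := fun F => RCG.tgt h p T F s) hdis hs1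
    (fun w hw => by
      simp only [Finset.mem_insert, Finset.mem_singleton] at hw
      rcases hw with rfl | rfl
      · simpa using hTp.ev.mono hs.2
      · simp only [if_neg hpq.symm]; exact hTq.ev)
    (fun w hw => by
      rw [eD]
      simp only [Finset.mem_insert, Finset.mem_singleton] at hw
      rcases hw with rfl | rfl
      · simpa using hIp
      · simp only [if_neg hpq.symm]; exact hIq)
    (fun F => hTp.ev.nonneg F s hs)
    (fun F _ => by
      rw [Finset.prod_pair hpq]
      simp only [if_true, if_neg hpq.symm, hTq.end_, mul_one]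
      exact le_rfl)
    hκd hκs
    (fun r hr => by
      refine le_trans (le_of_eq ?_) (hκ r hr)
      rw [eD]
      unfold kloR GLo
      congr 1
      refine Finset.sum_congr rfl fun a _ => Finset.sum_congr rfl fun b _ => ?_
      have e1 : ({p, q} : Finset V).erase p = {q} := by
        ext c; simp only [Finset.mem_erase, Finset.mem_insert, Finset.mem_singleton]
        constructor
        · tauto
        · rintro rfl; exact ⟨hpq.symm, Or.inr rfl⟩
      have e2 : ({p, q} : Finset V).erase q = {p} := by
        ext c; simp only [Finset.mem_erase, Finset.mem_insert, Finset.mem_singleton]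
        constructor
        · tauto
        · rintro rfl; exact ⟨hpq, Or.inl rfl⟩
      rw [Finset.sum_pair hpq, e1, e2, Finset.sum_singleton, Finset.sum_singleton]
      simp only [if_true, if_neg hpq.symm, Finset.erase_singleton, Finset.prod_empty]
      ring)
  refine le_trans (le_of_eq ?_) key
  rw [HW_pair hh hpq, Finset.prod_pair hpq]
  simp only [if_true, if_neg hpq.symm]
  have e3 : insert q (insert p D) = insert p (insert q D) := Finset.insert_comm q p D
  rw [bb_eq hh (D := insert q D) (u := p) (by simp [hpq, hp]) hT,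
    bb_eq hh (D := insert p D) (u := q) (by simp [hpq.symm, hq]) hs1, e3, eD]

/-- The A-lemma (5.2). -/
theorem aLem (hh : Haz h H) {D : Finset V} {p q : V} (hp : p ∉ D) (hq : q ∉ D) (hpq : p ≠ q)
    {T : ℝ} (hT : T ∈ Icc (0 : ℝ) 1) {P N : V → ℝ → ℝ}
    (hI : Inf (insert p (insert q D))ᶜ T (RCG.tgt h p T) P N)
    {yb κ : ℝ → ℝ}
    (hyb : ∀ s ∈ Icc 0 T, ∑ w ∈ (insert p (insert q D))ᶜ, h s q w * N w s ≤ yb s)
    (hcmp : ∀ s ∈ Icc 0 T, ex (lw h D s) {p, q} (fun F => RCG.tgt h p T F s)
      ≤ Real.exp (-H p q s + κ s) * (bb h (insert q D) p T * bb h (insert p D) q s))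
    {Γ g : ℝ → ℝ} (hΓ : ∀ s ∈ Icc 0 T, HasDerivAt Γ (g s) s)
    (hg : ∀ s ∈ Icc 0 T,
      (h s p q + yb s) * (Real.exp (-H p q s + κ s) * bb h (insert p D) q s) ≤ g s) :
    bb h (insert q D) p T * (1 - (Γ T - Γ 0)) ≤ bb h D p T := by
  have hTp := hh.tgt p hT
  set B := bb h (insert q D) p T with hB
  have hB0 : 0 ≤ B := bb_nonneg hh _ _ hT
  have key := duh1_le hh (D := D) (u := p) (v := q) hp hpq hT (Γ := fun s => B * Γ s)
    (g := fun s => B * g s) (fun s hs => (hΓ s hs).const_mul B) (fun s hs => by
      have hs1 : s ∈ Icc (0 : ℝ) 1 := ⟨hs.1, hs.2.trans hT.2⟩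
      have hμ0 := fun F => (hh.lw D).nonneg F s hs1
      set X := ex (lw h D s) {p, q} (fun F => RCG.tgt h p T F s) with hX
      have hX0 : 0 ≤ X := ex_nonneg hμ0 fun F => hTp.ev.nonneg F s hs
      -- bound of the negative terms
      have e1 : -∑ w ∈ ({p, q} : Finset V)ᶜ, h s q w *
          ex (lw h D s) {p, q, w} (fun F => RCG.tgt h p T F s - RCG.tgt h p T (insert w F) s)
          ≤ yb s * X := by
        have hterm : ∀ w ∈ ({p, q} : Finset V)ᶜ, -(h s q w *
            ex (lw h D s) {p, q, w} (fun F => RCG.tgt h p T F s - RCG.tgt h p T (insert w F) s))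
            ≤ (if w ∈ (insert p (insert q D))ᶜ then h s q w * N w s else 0) * X := by
          intro w hw
          by_cases hwD : w ∈ D
          · -- the expectation vanishes
            have : ex (lw h D s) {p, q, w}
                (fun F => RCG.tgt h p T F s - RCG.tgt h p T (insert w F) s) = 0 := by
              unfold ex
              refine Finset.sum_eq_zero fun F _ => ?_
              by_cases hF0 : lw h D s F = 0
              · rw [hF0, zero_mul]
              · have hFD := lw_support hh D hs1 hF0
                rw [if_neg, mul_zero]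
                intro hsub
                have := hFD (hsub (by simp : w ∈ ({p, q, w} : Finset V)))
                rw [Finset.mem_compl] at this
                exact this hwD
            rw [this, mul_zero, neg_zero, if_neg (by
              simp only [Finset.mem_compl, Finset.mem_insert, not_or, not_and, not_not]
              exact fun _ _ => hwD), zero_mul]
          · have hwm : w ∈ (insert p (insert q D))ᶜ := by
              simp only [Finset.mem_compl, Finset.mem_insert, Finset.mem_singleton, not_or] at hw ⊢
              exact ⟨hw.1, hw.2, hwD⟩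
            rw [if_pos hwm]
            have hNw := hI.N0 w hwm s hs
            have h1 : -(N w s * X) ≤ ex (lw h D s) {p, q, w}
                (fun F => RCG.tgt h p T F s - RCG.tgt h p T (insert w F) s) := by
              rw [hX]
              unfold ex
              rw [Finset.mul_sum, ← Finset.sum_neg_distrib]
              refine Finset.sum_le_sum fun F _ => ?_
              by_cases hF0 : lw h D s F = 0
              · rw [hF0]; simp
              · have hFD := lw_support hh D hs1 hF0
                by_cases hF : ({p, q, w} : Finset V) ⊆ F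
                · have hF2 : ({p, q} : Finset V) ⊆ F := fun z hz => hF (by
                    simp only [Finset.mem_insert, Finset.mem_singleton] at hz ⊢
                    tauto)
                  rw [if_pos hF, if_pos hF2]
                  have hwF : w ∈ F := hF (by simp)
                  have hwn : w ∉ ({p, q} : Finset V) := by
                    rw [← Finset.mem_compl]; exact hw
                  have e4 : insert w (F \ {p, q, w}) = F \ {p, q} := by
                    ext z
                    simp only [Finset.mem_insert, Finset.mem_sdiff, Finset.mem_singleton]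
                    constructor
                    · rintro (rfl | ⟨h1, h2⟩)
                      · refine ⟨hwF, ?_⟩
                        simpa using hwn
                      · tauto
                    · rintro ⟨h1, h2⟩
                      by_cases hz : z = w
                      · exact Or.inl hz
                      · right; tauto
                  beta_reduce
                  rw [e4]
                  have hsubs : F \ {p, q} ⊆ (insert p (insert q D))ᶜ := by
                    intro z hz
                    have h1 := hFD (Finset.mem_sdiff.1 hz).1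
                    have h2 := (Finset.mem_sdiff.1 hz).2
                    simp only [Finset.mem_compl, Finset.mem_insert, Finset.mem_singleton] at *
                    tauto
                  have h3 := hI.lo (F \ {p, q}) hsubs w (Finset.mem_sdiff.2 ⟨hwF, hwn⟩) s hs
                  have e7 : (F \ {p, q}).erase w = F \ {p, q, w} := by
                    rw [← e4, Finset.erase_insert (by simp)]
                  rw [e7] at h3
                  have h4 := mul_le_mul_of_nonneg_left h3 (hμ0 F)
                  nlinarith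
                · rw [if_neg hF, mul_zero]
                  have : 0 ≤ N w s * (lw h D s F *
                      (if ({p, q} : Finset V) ⊆ F then RCG.tgt h p T (F \ {p, q}) s else 0)) := by
                    refine mul_nonneg hNw (mul_nonneg (hμ0 F) ?_)
                    split_ifs
                    · exact hTp.ev.nonneg _ s hs
                    · exact le_rfl
                  linarith
            have h2 := mul_le_mul_of_nonneg_left h1 (hh.nonneg s q w)
            nlinarith
        rw [← Finset.sum_neg_distrib]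
        refine (Finset.sum_le_sum hterm).trans ?_
        rw [← Finset.sum_mul]
        refine mul_le_mul_of_nonneg_right ?_ hX0
        rw [← Finset.sum_filter]
        refine le_trans (le_of_eq ?_) (hyb s hs)
        refine Finset.sum_congr ?_ fun _ _ => rfl
        ext z
        simp only [Finset.mem_filter, Finset.mem_compl, Finset.mem_insert, Finset.mem_singleton]
        tauto
      have e2 := hcmp s hs
      have e3 := hg s hs
      have hyb0 : 0 ≤ yb s := le_trans (Finset.sum_nonneg fun w hw =>
        mul_nonneg (hh.nonneg _ _ _) (hI.N0 w hw s hs)) (hyb s hs)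
      have e4 : (h s p q + yb s) * X ≤ (h s p q + yb s) *
          (Real.exp (-H p q s + κ s) * (B * bb h (insert p D) q s)) :=
        mul_le_mul_of_nonneg_left e2 (add_nonneg (hh.nonneg _ _ _) hyb0)
      have e5 := mul_le_mul_of_nonneg_left e3 hB0
      have e6 : (h s p q + yb s) * (Real.exp (-H p q s + κ s) * (B * bb h (insert p D) q s))
          = B * ((h s p q + yb s) * (Real.exp (-H p q s + κ s) * bb h (insert p D) q s)) := by ring
      linarith)
  have : B * Γ T - B * Γ 0 = B * (Γ T - Γ 0) := by ring
  linarith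

end Pool.Agent.RCG
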