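import Pool.Agent.RCG.FamN

/-! Interpolation with two deleted vertices (MP_73ccd0_lc, general graphs). -/

namespace Pool.Agent.RCG

open Set Finset Matrix Pool.Agent.RCRSHalf

set_option linter.unusedSectionVars false

variable {V : Type*} [Fintype V] [DecidableEq V]
variable {h : ℝ → V → V → ℝ} {H : V → V → ℝ → ℝ} {X : V → V → ℝ} {M μ : ℝ → ℝ} {t : ℝ}

/-- generator of the test function -/
theorem gen_duh_two {h : V → V → ℝ} (hs : ∀ a b, h a b = h b a) (haa : ∀ a, h a a = 0)
    (h0 : ∀ a b, 0 ≤ h a b) (R : Finset V → ℝ) (hR : ∀ F, 0 ≤ R F) {v a b : V} (hva : v ≠ a)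
    (hvb : v ≠ b) (hab : a ≠ b) {F : Finset V} (hvF : v ∈ F) :
    gen h (fun G => if v ∈ G then R (((G.erase v).erase a).erase b) else 0) F
      ≤ gen h R (((F.erase v).erase a).erase b)
          - (∑ x ∈ ((F.erase v).erase a).erase b, h v x) * R (((F.erase v).erase a).erase b)
          + (if a ∈ F then ∑ c ∈ ((F.erase v).erase a).erase b, h a c *
            (R ((((F.erase v).erase a).erase b).erase c) - R (((F.erase v).erase a).erase b)) else 0)
          + (if b ∈ F then ∑ c ∈ ((F.erase v).erase a).erase b, h b c *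
            (R ((((F.erase v).erase a).erase b).erase c) - R (((F.erase v).erase a).erase b)) else 0)
      := by
  have e0 := gen_duh hs haa (fun G => R (G.erase b)) hva F
  rw [if_pos hvF] at e0
  rw [e0]
  set F2 := (F.erase v).erase a with hF2
  set F3 := F2.erase b with hF3
  by_cases hb : b ∈ F
  · have hbF2 : b ∈ F2 := Finset.mem_erase.2 ⟨hab.symm, Finset.mem_erase.2 ⟨hvb.symm, hb⟩⟩
    have hbF3 : b ∉ F3 := Finset.notMem_erase _ _
    have hins : insert b F3 = F2 := Finset.insert_erase hbF2
    rw [if_pos hb]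
    have e1 : ∀ G : Finset V, b ∉ G → (insert b G).erase b = G := fun G hG =>
      Finset.erase_insert hG
    have e2 : gen h (fun G => R (G.erase b)) F2 = gen h R F3
        + ∑ c ∈ F3, h b c * (R (F3.erase c) - R F3) := by
      rw [← hins, gen_insert h hs haa _ hbF3]
      congr 1
      · unfold gen
        congr 1
        refine Finset.sum_congr rfl fun x _ => Finset.sum_congr rfl fun y _ => ?_
        rw [e1 _ hbF3, e1 _ (fun hh => hbF3 (Finset.mem_of_mem_erase (Finset.mem_of_mem_erase hh)))]
      · refine Finset.sum_congr rfl fun x _ => ?_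
        rw [e1 _ hbF3, Finset.erase_eq_of_notMem (fun hh : b ∈ F3.erase x =>
          hbF3 (Finset.mem_of_mem_erase hh))]
    have e3 : ∑ x ∈ F2, h v x = h v b + ∑ x ∈ F3, h v x := by
      rw [← hins, Finset.sum_insert hbF3]
    have e4 : ∑ c ∈ F2, h a c * (R ((F2.erase c).erase b) - R (F2.erase b))
        = ∑ c ∈ F3, h a c * (R (F3.erase c) - R F3) := by
      conv_lhs => rw [← hins]
      rw [Finset.sum_insert hbF3, hins]
      have : R ((F2.erase b).erase b) - R (F2.erase b) = 0 := by
        rw [Finset.erase_eq_of_notMem hbF3, sub_self]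
      rw [this, mul_zero, zero_add]
      refine Finset.sum_congr rfl fun c _ => ?_
      rw [Finset.erase_right_comm]
    rw [e2, e3, e4]
    have h1 := mul_nonneg (h0 v b) (hR F3)
    have h2 := mul_nonneg (h0 v a) (hR F3)
    split_ifs with ha
    · nlinarith
    · nlinarith
  · have hbF2 : b ∉ F2 := fun hh =>
      hb (Finset.mem_of_mem_erase (Finset.mem_of_mem_erase hh))
    have e1 : F3 = F2 := Finset.erase_eq_of_notMem hbF2
    rw [if_neg hb, e1]
    have e2 : gen h (fun G => R (G.erase b)) F2 = gen h R F2 := by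
      refine gen_congr fun G hG => ?_
      rw [Finset.erase_eq_of_notMem (fun hh : b ∈ G => hbF2 (hG hh))]
    have e4 : ∑ c ∈ F2, h a c * (R ((F2.erase c).erase b) - R (F2.erase b))
        = ∑ c ∈ F2, h a c * (R (F2.erase c) - R F2) := by
      refine Finset.sum_congr rfl fun c _ => ?_
      rw [Finset.erase_eq_of_notMem hbF2, Finset.erase_eq_of_notMem
        (fun hh : b ∈ F2.erase c => hbF2 (Finset.mem_of_mem_erase hh))]
    rw [e2]
    have h2 := mul_nonneg (h0 v a) (hR F2)
    split_ifs with ha
    · have : ∑ c ∈ F2, h a c * (R ((F2.erase c).erase b) - R F2)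
          = ∑ c ∈ F2, h a c * (R (F2.erase c) - R F2) := by
        rw [← e4, Finset.erase_eq_of_notMem hbF2]
      rw [this]
      linarith
    · linarith

/-- the interpolating function, two deleted vertices -/
noncomputable def Phi2 (h : ℝ → V → V → ℝ) (D : Finset V) (v a b : V) (R : Finset V → ℝ → ℝ)
    (s : ℝ) : ℝ :=
  ∑ F : Finset V, lw h D s F * (if v ∈ F then R (((F.erase v).erase a).erase b) s else 0)

/-- the integrand -/
noncomputable def xd2 (h : ℝ → V → V → ℝ) (D : Finset V) (v a b : V) (R : Finset V → ℝ → ℝ)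
    (s : ℝ) : ℝ :=
  ∑ c ∈ ({v, a, b} : Finset V)ᶜ, h s a c *
    ex (lw h D s) {v, a, c} (fun K => max 0 (R (K.erase b) s - R (insert c (K.erase b)) s))

theorem xd_aux {h : V → V → ℝ} (h0 : ∀ a b, 0 ≤ h a b) {R : Finset V → ℝ} {v a b : V}
    (hva : v ≠ a) (hvb : v ≠ b) (hab : a ≠ b) {F : Finset V} (hvF : v ∈ F) :
    (if a ∈ F then ∑ c ∈ ((F.erase v).erase a).erase b, h a c *
            (R ((((F.erase v).erase a).erase b).erase c) - R (((F.erase v).erase a).erase b)) else 0)
      ≤ ∑ c ∈ ({v, a, b} : Finset V)ᶜ, h a c *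
        (if ({v, a, c} : Finset V) ⊆ F then
          max 0 (R ((F \ {v, a, c}).erase b) - R (insert c ((F \ {v, a, c}).erase b))) else 0) := by
  have hnn : ∀ c, 0 ≤ h a c *
        (if ({v, a, c} : Finset V) ⊆ F then
          max 0 (R ((F \ {v, a, c}).erase b) - R (insert c ((F \ {v, a, c}).erase b))) else 0) := by
    intro c
    refine mul_nonneg (h0 _ _) ?_
    split_ifs
    · exact le_max_left _ _
    · exact le_rfl
  by_cases ha : a ∈ F
  · rw [if_pos ha]
    set F3 := ((F.erase v).erase a).erase b with hF3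
    have hsub : F3 ⊆ ({v, a, b} : Finset V)ᶜ := by
      intro z hz
      simp only [hF3, Finset.mem_erase] at hz
      simp only [Finset.mem_compl, Finset.mem_insert, Finset.mem_singleton, not_or]
      tauto
    refine le_trans ?_ (Finset.sum_le_sum_of_subset_of_nonneg hsub fun c _ _ => hnn c)
    refine Finset.sum_le_sum fun c hc => mul_le_mul_of_nonneg_left ?_ (h0 _ _)
    have hc' := hc
    simp only [hF3, Finset.mem_erase] at hc'
    obtain ⟨hcb, hca, hcv, hcF⟩ := hc'
    have h3 : ({v, a, c} : Finset V) ⊆ F := by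
      intro z hz
      simp only [Finset.mem_insert, Finset.mem_singleton] at hz
      rcases hz with rfl | rfl | rfl
      · exact hvF
      · exact ha
      · exact hcF
    have e1 : (F \ {v, a, c}).erase b = F3.erase c := by
      ext z
      simp only [hF3, Finset.mem_erase, Finset.mem_sdiff, Finset.mem_insert, Finset.mem_singleton]
      tauto
    rw [if_pos h3, e1, Finset.insert_erase hc]
    exact le_max_right _ _
  · rw [if_neg ha]
    exact Finset.sum_nonneg fun c _ => hnn c

/-- derivative bound of the interpolating function -/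
theorem Phi2_deriv (hh : Haz h H) (D : Finset V) {v a b : V} (hva : v ≠ a) (hvb : v ≠ b)
    (hab : a ≠ b) {t : ℝ} (ht : t ∈ Icc (0 : ℝ) 1) {R : Finset V → ℝ → ℝ}
    (hR : IsEv h (fun r a => h r v a) (fun _ => 0) (fun _ => 0) t R) {s : ℝ} (hs : s ∈ Icc 0 t) :
    ∃ d, HasDerivAt (Phi2 h D v a b R) d s ∧ d ≤ xd2 h D v a b R s + xd2 h D v b a R s := by
  have hμ := hh.lw D
  have hs1 : s ∈ Icc (0 : ℝ) 1 := ⟨hs.1, hs.2.trans ht.2⟩
  have h1 := hμ.deriv_sum
    (φ := fun s F => if v ∈ F then R (((F.erase v).erase a).erase b) s else 0)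
    (φ' := fun s F => if v ∈ F then
      -(gen (h s) (fun G => R G s) (((F.erase v).erase a).erase b)
      - (∑ x ∈ ((F.erase v).erase a).erase b, h s v x) * R (((F.erase v).erase a).erase b) s
      - 0 * R (((F.erase v).erase a).erase b) s + 0) else 0) (t := s) hs1
    (fun F => by
      by_cases hu : v ∈ F
      · simp only [if_pos hu]
        exact hR.deriv _ s hs
      · simp only [if_neg hu]
        exact hasDerivAt_const _ _)
  refine ⟨_, h1, ?_⟩
  have e1 : ∀ F : Finset V, gen (h s) (fun G => if v ∈ G then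
        R (((G.erase v).erase a).erase b) s else 0) F
      + (if v ∈ F then
      -(gen (h s) (fun G => R G s) (((F.erase v).erase a).erase b)
      - (∑ x ∈ ((F.erase v).erase a).erase b, h s v x) * R (((F.erase v).erase a).erase b) s
      - 0 * R (((F.erase v).erase a).erase b) s + 0) else 0)
      ≤ (∑ c ∈ ({v, a, b} : Finset V)ᶜ, h s a c *
        (if ({v, a, c} : Finset V) ⊆ F then
          max 0 (R ((F \ {v, a, c}).erase b) s - R (insert c ((F \ {v, a, c}).erase b)) s) else 0))
      + ∑ c ∈ ({v, b, a} : Finset V)ᶜ, h s b c *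
        (if ({v, b, c} : Finset V) ⊆ F then
          max 0 (R ((F \ {v, b, c}).erase a) s - R (insert c ((F \ {v, b, c}).erase a)) s) else 0)
      := by
    intro F
    by_cases hv : v ∈ F
    · rw [if_pos hv]
      have g1 := gen_duh_two (hh.symm s) (hh.diag s) (hh.nonneg s) (fun G => R G s)
        (fun G => hR.nonneg G s hs) hva hvb hab hv
      have g2 := xd_aux (hh.nonneg s) (R := fun G => R G s) hva hvb hab hv
      have g3 := xd_aux (hh.nonneg s) (R := fun G => R G s) hvb hva hab.symm hv
      have e2 : ((F.erase v).erase b).erase a = ((F.erase v).erase a).erase b :=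
        Finset.erase_right_comm
      rw [e2] at g3
      linarith
    · rw [if_neg hv]
      have g1 : gen (h s) (fun G => if v ∈ G then
          R (((G.erase v).erase a).erase b) s else 0) F = gen (h s) (fun _ => 0) F := by
        refine gen_congr fun G hG => ?_
        rw [if_neg (fun hh => hv (hG hh))]
      rw [g1, gen_const, add_zero]
      refine add_nonneg (Finset.sum_nonneg fun c _ => mul_nonneg (hh.nonneg _ _ _) ?_)
        (Finset.sum_nonneg fun c _ => mul_nonneg (hh.nonneg _ _ _) ?_)
      · split_ifs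
        · exact le_max_left _ _
        · exact le_rfl
      · split_ifs
        · exact le_max_left _ _
        · exact le_rfl
  refine (Finset.sum_le_sum fun F _ => mul_le_mul_of_nonneg_left (e1 F)
    (hμ.nonneg F s hs1)).trans (le_of_eq ?_)
  have e3 : ∀ a b : V, xd2 h D v a b R s = ∑ F : Finset V, lw h D s F *
      ∑ c ∈ ({v, a, b} : Finset V)ᶜ, h s a c *
        (if ({v, a, c} : Finset V) ⊆ F then
          max 0 (R ((F \ {v, a, c}).erase b) s - R (insert c ((F \ {v, a, c}).erase b)) s) else 0)
      := by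
    intro a b
    unfold xd2 ex
    simp_rw [Finset.mul_sum]
    rw [Finset.sum_comm]
    exact Finset.sum_congr rfl fun F _ => Finset.sum_congr rfl fun c _ => by ring
  rw [e3, e3, ← Finset.sum_add_distrib]
  exact Finset.sum_congr rfl fun F _ => by ring

/-- The increase of the target function of `v` by the two vertices `a`, `b`. -/
theorem del2_le (hh : Haz h H) {D : Finset V} {v a b : V} (hvD : v ∉ D) (hva : v ≠ a)
    (hvb : v ≠ b) (hab : a ≠ b) {t : ℝ} (ht : t ∈ Icc (0 : ℝ) 1) {Γ g : ℝ → ℝ}
    (hΓ : ∀ s ∈ Icc 0 t, HasDerivAt Γ (g s) s)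
    (hg : ∀ s ∈ Icc 0 t, xd2 h D v a b (RCG.tgt h v t) s + xd2 h D v b a (RCG.tgt h v t) s
      ≤ g s) :
    bb h D v t - bb h (insert a (insert b D)) v t ≤ Γ t - Γ 0 := by
  have hd : ∀ s ∈ Icc 0 t, ∃ d, HasDerivAt (Phi2 h D v a b (RCG.tgt h v t)) d s ∧
      d ≤ xd2 h D v a b (RCG.tgt h v t) s + xd2 h D v b a (RCG.tgt h v t) s := fun s hs =>
    Phi2_deriv hh D hva hvb hab ht (hh.tgt v ht).ev hs
  choose! d hd1 hd2 using hd
  have e0 : Phi2 h D v a b (RCG.tgt h v t) 0 = bb h (insert a (insert b D)) v t := by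
    rw [bb_eq hh (D := insert a (insert b D)) (u := v) (by simp [hva, hvb, hvD]) ht]
    unfold Phi2
    rw [(hh.lw D).start]
    simp only [pt, ite_mul, one_mul, zero_mul, Finset.sum_ite_eq', Finset.mem_univ, if_true]
    rw [if_pos (Finset.mem_compl.2 hvD)]
    congr 1
    ext z
    simp only [Finset.mem_erase, Finset.mem_compl, Finset.mem_insert]
    tauto
  have e1 : Phi2 h D v a b (RCG.tgt h v t) t = bb h D v t := by
    unfold Phi2 bb pr
    refine Finset.sum_congr rfl fun F _ => ?_
    rw [(hh.tgt v ht).end_]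
    simp only [Finset.singleton_subset_iff]
  have key := nonneg_of_forward (U := fun s => (Γ s - Γ 0)
      - (Phi2 h D v a b (RCG.tgt h v t) s - Phi2 h D v a b (RCG.tgt h v t) 0))
    (U' := fun s => g s - d s) (a := 0) (s := t)
    (fun s hs => ((hΓ s hs).sub_const _).sub ((hd1 s hs).sub_const _)) (by simp)
    (fun s hs _ => by have := hg s hs; have := hd2 s hs; linarith) t ⟨ht.1, le_rfl⟩
  rw [e0, e1] at key
  linarith

end Pool.Agent.RCG
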