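import Pool.Agent.RCG.Dual2

/-! Forward Duhamel identity (3.1) (MP_73ccd0_lc, general graphs). -/

namespace Pool.Agent.RCG

open Set Finset Pool.Agent.RCRSHalf

set_option linter.unusedSectionVars false

variable {V : Type*} [Fintype V] [DecidableEq V]
variable {h : ℝ → V → V → ℝ} {H : V → V → ℝ → ℝ}

theorem erase2_eq (F : Finset V) (u v : V) : (F.erase u).erase v = F \ {u, v} := by
  ext a
  simp only [Finset.mem_erase, Finset.mem_sdiff, Finset.mem_insert, Finset.mem_singleton]
  tauto

/-- generator of the test function of the Duhamel identity -/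
theorem gen_duh {h : V → V → ℝ} (hs : ∀ a b, h a b = h b a) (haa : ∀ a, h a a = 0)
    (R : Finset V → ℝ) {u v : V} (huv : u ≠ v) (F : Finset V) :
    gen h (fun G => if u ∈ G then R ((G.erase u).erase v) else 0) F
      = if u ∈ F then gen h R ((F.erase u).erase v)
          - (∑ a ∈ (F.erase u).erase v, h u a) * R ((F.erase u).erase v)
          + (if v ∈ F then -(h u v * R ((F.erase u).erase v))
              + ∑ b ∈ (F.erase u).erase v, h v b * (R (((F.erase u).erase v).erase b)
                - R ((F.erase u).erase v)) else 0)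
        else 0 := by
  by_cases hu : u ∈ F
  · rw [if_pos hu]
    have hW : ({u} : Finset V) ⊆ F := Finset.singleton_subset_iff.2 hu
    have e1 : gen h (fun G => if u ∈ G then R ((G.erase u).erase v) else 0) F
        = gen h (fun G => if ({u} : Finset V) ⊆ G then (fun G' => R (G'.erase v)) (G \ {u}) else 0) F := by
      refine gen_congr fun G _ => ?_
      simp only [Finset.singleton_subset_iff, Finset.sdiff_singleton_eq_erase]
    have e1' := e1.trans (gen_super h hs {u} F hW (fun G' => R (G'.erase v)))
    rw [e1']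
    simp only [Finset.sum_singleton, haa, mul_zero, zero_mul, sub_zero,
      Finset.sdiff_singleton_eq_erase]
    by_cases hv : v ∈ F
    · rw [if_pos hv]
      have hv' : v ∈ F.erase u := Finset.mem_erase.2 ⟨huv.symm, hv⟩
      set F0 := (F.erase u).erase v with hF0
      have hins : insert v F0 = F.erase u := Finset.insert_erase hv'
      have hvF0 : v ∉ F0 := Finset.notMem_erase _ _
      rw [← hins, gen_insert h hs haa _ hvF0, Finset.sum_insert hvF0]
      have e2 : ∀ G : Finset V, v ∉ G → (insert v G).erase v = G := fun G hG => Finset.erase_insert hG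
      have e3 : (1 / 2 : ℝ) * ∑ b ∈ F0, ∑ c ∈ F0,
          h b c * (R ((insert v ((F0.erase b).erase c)).erase v) - R ((insert v F0).erase v))
          = gen h R F0 := by
        unfold gen
        congr 1
        refine Finset.sum_congr rfl fun b _ => Finset.sum_congr rfl fun c _ => ?_
        rw [e2 _ hvF0, e2 _ (fun hh => hvF0 (Finset.mem_of_mem_erase (Finset.mem_of_mem_erase hh)))]
      have e4 : ∑ b ∈ F0, h v b * (R ((F0.erase b).erase v) - R ((insert v F0).erase v))
          = ∑ b ∈ F0, h v b * (R (F0.erase b) - R F0) := by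
        refine Finset.sum_congr rfl fun b _ => ?_
        rw [e2 _ hvF0, Finset.erase_eq_of_notMem
          (fun hh : v ∈ F0.erase b => hvF0 (Finset.mem_of_mem_erase hh))]
      rw [e3, e4]
      ring
    · rw [if_neg hv, add_zero]
      have hv' : v ∉ F.erase u := fun hh => hv (Finset.mem_of_mem_erase hh)
      rw [Finset.erase_eq_of_notMem hv']
      congr 1
      refine gen_congr fun G hG => ?_
      rw [Finset.erase_eq_of_notMem (fun hh : v ∈ G => hv' (hG hh))]
  · rw [if_neg hu]
    have : gen h (fun G => if u ∈ G then R ((G.erase u).erase v) else 0) F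
        = gen h (fun _ => 0) F := by
      refine gen_congr fun G hG => ?_
      rw [if_neg (fun hh => hu (hG hh))]
    rw [this, gen_const]

/-- the interpolating function of (3.1) -/
noncomputable def Phi (h : ℝ → V → V → ℝ) (D : Finset V) (u v : V) (R : Finset V → ℝ → ℝ) (s : ℝ) :
    ℝ := ∑ F : Finset V, lw h D s F * (if u ∈ F then R ((F.erase u).erase v) s else 0)

/-- derivative of the interpolating function -/
theorem Phi_deriv (hh : Haz h H) (D : Finset V) {u v : V} (huv : u ≠ v) {t : ℝ}
    (ht : t ∈ Icc (0 : ℝ) 1) {R : Finset V → ℝ → ℝ}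
    (hR : IsEv h (fun r a => h r u a) (fun _ => 0) (fun _ => 0) t R) {s : ℝ} (hs : s ∈ Icc 0 t) :
    HasDerivAt (Phi h D u v R)
      (-(h s u v * ex (lw h D s) {u, v} (fun F => R F s))
        + ∑ w ∈ ({u, v} : Finset V)ᶜ, h s v w *
          ex (lw h D s) {u, v, w} (fun F => R F s - R (insert w F) s)) s := by
  have hμ := hh.lw D
  have h1 := hμ.deriv_sum (φ := fun s F => if u ∈ F then R ((F.erase u).erase v) s else 0)
    (φ' := fun s F => if u ∈ F then -(gen (h s) (fun G => R G s) ((F.erase u).erase v)
      - (∑ a ∈ (F.erase u).erase v, h s u a) * R ((F.erase u).erase v) s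
      - 0 * R ((F.erase u).erase v) s + 0) else 0) (t := s) ⟨hs.1, hs.2.trans ht.2⟩
    (fun F => by
      by_cases hu : u ∈ F
      · simp only [if_pos hu]
        exact hR.deriv _ s hs
      · simp only [if_neg hu]
        exact hasDerivAt_const _ _)
  refine h1.congr_deriv ?_
  have e1 : ∀ F : Finset V, gen (h s) (fun G => if u ∈ G then R ((G.erase u).erase v) s else 0) F
      + (if u ∈ F then -(gen (h s) (fun G => R G s) ((F.erase u).erase v)
      - (∑ a ∈ (F.erase u).erase v, h s u a) * R ((F.erase u).erase v) s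
      - 0 * R ((F.erase u).erase v) s + 0) else 0)
      = if ({u, v} : Finset V) ⊆ F then -(h s u v * R (F \ {u, v}) s)
        + ∑ b ∈ F \ {u, v}, h s v b * (R ((F \ {u, v}).erase b) s - R (F \ {u, v}) s) else 0 := by
    intro F
    rw [gen_duh (hh.symm s) (hh.diag s) (fun G => R G s) huv F]
    have hsub : ({u, v} : Finset V) ⊆ F ↔ u ∈ F ∧ v ∈ F := by
      rw [Finset.insert_subset_iff, Finset.singleton_subset_iff]
    by_cases hu : u ∈ F
    · by_cases hv : v ∈ F
      · rw [if_pos hu, if_pos hu, if_pos hv, if_pos (hsub.2 ⟨hu, hv⟩), erase2_eq]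
        ring
      · rw [if_pos hu, if_pos hu, if_neg hv, if_neg (fun hh => hv (hsub.1 hh).2)]
        ring
    · rw [if_neg hu, if_neg hu, if_neg (fun hh => hu (hsub.1 hh).1)]
      ring
  have e2 : ∀ F : Finset V, lw h D s F * (gen (h s) (fun G =>
      if u ∈ G then R ((G.erase u).erase v) s else 0) F
      + (if u ∈ F then -(gen (h s) (fun G => R G s) ((F.erase u).erase v)
      - (∑ a ∈ (F.erase u).erase v, h s u a) * R ((F.erase u).erase v) s
      - 0 * R ((F.erase u).erase v) s + 0) else 0))
      = -(h s u v * (lw h D s F * (if ({u, v} : Finset V) ⊆ F then R (F \ {u, v}) s else 0)))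
        + ∑ w ∈ ({u, v} : Finset V)ᶜ, h s v w * (lw h D s F *
          (if ({u, v, w} : Finset V) ⊆ F then
            R (F \ {u, v, w}) s - R (insert w (F \ {u, v, w})) s else 0)) := by
    intro F
    rw [e1 F]
    by_cases hF : ({u, v} : Finset V) ⊆ F
    · rw [if_pos hF, if_pos hF, mul_add]
      congr 1
      · ring
      · rw [Finset.mul_sum]
        have hsubs : F \ {u, v} ⊆ ({u, v} : Finset V)ᶜ := by
          intro a ha
          rw [Finset.mem_compl]
          exact (Finset.mem_sdiff.1 ha).2
        rw [← Finset.sum_subset hsubs]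
        · refine Finset.sum_congr rfl fun w hw => ?_
          obtain ⟨hwF, hwn⟩ := Finset.mem_sdiff.1 hw
          have h3 : ({u, v, w} : Finset V) ⊆ F := by
            intro z hz
            simp only [Finset.mem_insert, Finset.mem_singleton] at hz
            rcases hz with rfl | rfl | rfl
            · exact hF (by simp)
            · exact hF (by simp)
            · exact hwF
          have e4 : (F \ {u, v}).erase w = F \ {u, v, w} := by
            ext z
            simp only [Finset.mem_erase, Finset.mem_sdiff, Finset.mem_insert, Finset.mem_singleton]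
            tauto
          have e5 : insert w (F \ {u, v, w}) = F \ {u, v} := by
            rw [← e4, Finset.insert_erase hw]
          rw [if_pos h3, e4, e5]
          ring
        · intro w hw hwn
          have : ¬ ({u, v, w} : Finset V) ⊆ F := by
            intro hh'
            exact hwn (Finset.mem_sdiff.2 ⟨hh' (by simp), Finset.mem_compl.1 hw⟩)
          rw [if_neg this]
          ring
    · rw [if_neg hF, if_neg hF]
      have : ∀ w ∈ ({u, v} : Finset V)ᶜ, ¬ ({u, v, w} : Finset V) ⊆ F := by
        intro w _ hh'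
        exact hF (fun z hz => hh' (by
          simp only [Finset.mem_insert, Finset.mem_singleton] at hz ⊢
          tauto))
      rw [Finset.sum_eq_zero fun w hw => by rw [if_neg (this w hw)]; ring]
      ring
  rw [Finset.sum_congr rfl fun F _ => e2 F, Finset.sum_add_distrib, Finset.sum_neg_distrib,
    ← Finset.mul_sum, Finset.sum_comm]
  congr 1
  refine Finset.sum_congr rfl fun w _ => ?_
  rw [← Finset.mul_sum]
  rfl

/-- value at the start -/
theorem Phi_zero (hh : Haz h H) {D : Finset V} {u v : V} (hu : u ∉ D) (huv : u ≠ v) {t : ℝ}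
    (ht : t ∈ Icc (0 : ℝ) 1) : Phi h D u v (tgt h u t) 0 = bb h (insert v D) u t := by
  rw [bb_eq hh (D := insert v D) (u := u) (by simp [huv, hu]) ht]
  unfold Phi
  rw [(hh.lw D).start]
  simp only [pt, ite_mul, one_mul, zero_mul, Finset.sum_ite_eq', Finset.mem_univ, if_true]
  rw [if_pos (Finset.mem_compl.2 hu)]
  congr 1
  ext a
  simp only [Finset.mem_erase, Finset.mem_compl, Finset.mem_insert]
  tauto

/-- value at the end -/
theorem Phi_end (hh : Haz h H) {D : Finset V} {u v : V} {t : ℝ}
    (ht : t ∈ Icc (0 : ℝ) 1) : Phi h D u v (tgt h u t) t = bb h D u t := by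
  unfold Phi bb pr
  refine Finset.sum_congr rfl fun F _ => ?_
  rw [(hh.tgt u ht).end_]
  simp only [Finset.singleton_subset_iff]

/-- upper form of (3.1) with a majorant -/
theorem duh1_le (hh : Haz h H) {D : Finset V} {u v : V} (hu : u ∉ D) (huv : u ≠ v) {t : ℝ}
    (ht : t ∈ Icc (0 : ℝ) 1) {Γ g : ℝ → ℝ} (hΓ : ∀ s ∈ Icc 0 t, HasDerivAt Γ (g s) s)
    (hg : ∀ s ∈ Icc 0 t, h s u v * ex (lw h D s) {u, v} (fun F => tgt h u t F s)
        - ∑ w ∈ ({u, v} : Finset V)ᶜ, h s v w *
          ex (lw h D s) {u, v, w} (fun F => tgt h u t F s - tgt h u t (insert w F) s) ≤ g s) :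
    bb h (insert v D) u t - bb h D u t ≤ Γ t - Γ 0 := by
  have key := nonneg_of_forward (U := fun s => (Γ s + Phi h D u v (tgt h u t) s)
      - (Γ 0 + Phi h D u v (tgt h u t) 0))
    (U' := fun s => g s + (-(h s u v * ex (lw h D s) {u, v} (fun F => tgt h u t F s))
        + ∑ w ∈ ({u, v} : Finset V)ᶜ, h s v w *
          ex (lw h D s) {u, v, w} (fun F => tgt h u t F s - tgt h u t (insert w F) s)))
    (a := 0) (s := t) (fun s hs => ((hΓ s hs).add
      (Phi_deriv hh D huv ht (hh.tgt u ht).ev hs)).sub_const _) (by simp)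
    (fun s hs _ => by have := hg s hs; linarith) t ⟨ht.1, le_rfl⟩
  rw [Phi_zero hh hu huv ht, Phi_end hh ht] at key
  linarith

/-- lower form of (3.1) with a minorant -/
theorem le_duh1 (hh : Haz h H) {D : Finset V} {u v : V} (hu : u ∉ D) (huv : u ≠ v) {t : ℝ}
    (ht : t ∈ Icc (0 : ℝ) 1) {Γ g : ℝ → ℝ} (hΓ : ∀ s ∈ Icc 0 t, HasDerivAt Γ (g s) s)
    (hg : ∀ s ∈ Icc 0 t, g s ≤ h s u v * ex (lw h D s) {u, v} (fun F => tgt h u t F s)
        - ∑ w ∈ ({u, v} : Finset V)ᶜ, h s v w *
          ex (lw h D s) {u, v, w} (fun F => tgt h u t F s - tgt h u t (insert w F) s)) :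
    Γ t - Γ 0 ≤ bb h (insert v D) u t - bb h D u t := by
  have key := nonneg_of_forward (U := fun s => (Γ 0 + Phi h D u v (tgt h u t) 0)
      - (Γ s + Phi h D u v (tgt h u t) s))
    (U' := fun s => -(g s + (-(h s u v * ex (lw h D s) {u, v} (fun F => tgt h u t F s))
        + ∑ w ∈ ({u, v} : Finset V)ᶜ, h s v w *
          ex (lw h D s) {u, v, w} (fun F => tgt h u t F s - tgt h u t (insert w F) s))))
    (a := 0) (s := t) (fun s hs => ((hΓ s hs).add
      (Phi_deriv hh D huv ht (hh.tgt u ht).ev hs)).const_sub _) (by simp)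
    (fun s hs _ => by have := hg s hs; linarith) t ⟨ht.1, le_rfl⟩
  rw [Phi_zero hh hu huv ht, Phi_end hh ht] at key
  linarith

end Pool.Agent.RCG
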