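import Pool.Agent.RCG.Duh1

/-! The interpolation identity (3.2) for the two ends of an edge (MP_73ccd0_lc, general graphs). -/

namespace Pool.Agent.RCG

open Set Finset Pool.Agent.RCRSHalf

set_option linter.unusedSectionVars false

variable {V : Type*} [Fintype V] [DecidableEq V]
variable {h : ℝ → V → V → ℝ} {H : V → V → ℝ → ℝ}

/-- the interpolating function of (3.2) -/
noncomputable def Mint (h : ℝ → V → V → ℝ) (H : V → V → ℝ → ℝ) (u v : V)
    (R R' : Finset V → ℝ → ℝ) (s : ℝ) : ℝ :=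
  Real.exp (H u v s) * ex (lw h ∅ s) {u, v} (fun F => R F s * R' F s)

/-- the covariance form of the generator -/
noncomputable def cov (h : V → V → ℝ) (R R' : Finset V → ℝ) (F : Finset V) : ℝ :=
  (1 / 2) * ∑ a ∈ F, ∑ b ∈ F, h a b *
    ((R ((F.erase a).erase b) - R F) * (R' ((F.erase a).erase b) - R' F))

theorem cov_eq (h : V → V → ℝ) (R R' : Finset V → ℝ) (F : Finset V) :
    cov h R R' F = gen h (fun G => R G * R' G) F - R' F * gen h R F - R F * gen h R' F := by
  unfold cov gen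
  rw [mul_left_comm (R' F), mul_left_comm (R F), ← mul_sub, ← mul_sub]
  congr 1
  rw [Finset.mul_sum, Finset.mul_sum, ← Finset.sum_sub_distrib, ← Finset.sum_sub_distrib]
  refine Finset.sum_congr rfl fun a _ => ?_
  rw [Finset.mul_sum, Finset.mul_sum, ← Finset.sum_sub_distrib, ← Finset.sum_sub_distrib]
  exact Finset.sum_congr rfl fun b _ => by ring

theorem HW_pair (hh : Haz h H) {u v : V} (huv : u ≠ v) (s : ℝ) : HW H {u, v} s = H u v s := by
  unfold HW
  rw [Finset.sum_pair huv, Finset.sum_pair huv, Finset.sum_pair huv, hh.Hdiag, hh.Hdiag,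
    hh.Hsymm v u s]
  ring

theorem Mint_deriv (hh : Haz h H) {u v : V} (huv : u ≠ v) {t : ℝ}
    (ht : t ∈ Icc (0 : ℝ) 1) {R R' : Finset V → ℝ → ℝ}
    (hR : IsEv h (fun r a => h r u a) (fun _ => 0) (fun _ => 0) t R)
    (hR' : IsEv h (fun r a => h r v a) (fun _ => 0) (fun _ => 0) t R') {s : ℝ}
    (hs : s ∈ Icc 0 t) :
    HasDerivAt (Mint h H u v R R')
      (Real.exp (H u v s) * ex (lw h ∅ s) {u, v}
        (fun F => cov (h s) (fun G => R G s) (fun G => R' G s) F)) s := by
  have hμ := hh.lw (∅ : Finset V)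
  have h1 := hμ.deriv_sum
    (φ := fun s F => if ({u, v} : Finset V) ⊆ F then R (F \ {u, v}) s * R' (F \ {u, v}) s else 0)
    (φ' := fun s F => if ({u, v} : Finset V) ⊆ F then
      (-(gen (h s) (fun G => R G s) (F \ {u, v}) - (∑ a ∈ F \ {u, v}, h s u a) * R (F \ {u, v}) s
        - 0 * R (F \ {u, v}) s + 0)) * R' (F \ {u, v}) s
      + R (F \ {u, v}) s * (-(gen (h s) (fun G => R' G s) (F \ {u, v})
        - (∑ a ∈ F \ {u, v}, h s v a) * R' (F \ {u, v}) s - 0 * R' (F \ {u, v}) s + 0)) else 0)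
    (t := s) ⟨hs.1, hs.2.trans ht.2⟩
    (fun F => by
      by_cases hF : ({u, v} : Finset V) ⊆ F
      · simp only [if_pos hF]
        exact (hR.deriv _ s hs).mul (hR'.deriv _ s hs)
      · simp only [if_neg hF]
        exact hasDerivAt_const _ _)
  have h2 := (hh.Hd u v s).exp.mul h1
  have e0 : Mint h H u v R R' = fun s => Real.exp (H u v s) * ∑ F : Finset V, lw h ∅ s F *
      (if ({u, v} : Finset V) ⊆ F then R (F \ {u, v}) s * R' (F \ {u, v}) s else 0) := rfl
  rw [e0]
  refine h2.congr_deriv ?_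
  have e1 : ∀ F : Finset V, gen (h s) (fun G => if ({u, v} : Finset V) ⊆ G then
        R (G \ {u, v}) s * R' (G \ {u, v}) s else 0) F
      + (if ({u, v} : Finset V) ⊆ F then
      (-(gen (h s) (fun G => R G s) (F \ {u, v}) - (∑ a ∈ F \ {u, v}, h s u a) * R (F \ {u, v}) s
        - 0 * R (F \ {u, v}) s + 0)) * R' (F \ {u, v}) s
      + R (F \ {u, v}) s * (-(gen (h s) (fun G => R' G s) (F \ {u, v})
        - (∑ a ∈ F \ {u, v}, h s v a) * R' (F \ {u, v}) s - 0 * R' (F \ {u, v}) s + 0)) else 0)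
      = if ({u, v} : Finset V) ⊆ F then cov (h s) (fun G => R G s) (fun G => R' G s) (F \ {u, v})
        - h s u v * (R (F \ {u, v}) s * R' (F \ {u, v}) s) else 0 := by
    intro F
    by_cases hF : ({u, v} : Finset V) ⊆ F
    · have e2 := gen_super (h s) (hh.symm s) {u, v} F hF (fun G => R G s * R' G s)
      rw [e2, if_pos hF, if_pos hF, cov_eq]
      have e3 : (1 / 2 : ℝ) * ∑ a ∈ ({u, v} : Finset V), ∑ b ∈ ({u, v} : Finset V), h s a b
          = h s u v := by
        rw [Finset.sum_pair huv, Finset.sum_pair huv, Finset.sum_pair huv, hh.diag, hh.diag,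
          hh.symm s v u]
        ring
      have e4 : ∑ a ∈ F \ {u, v}, ∑ w ∈ ({u, v} : Finset V), h s w a
          = ∑ a ∈ F \ {u, v}, h s u a + ∑ a ∈ F \ {u, v}, h s v a := by
        rw [← Finset.sum_add_distrib]
        exact Finset.sum_congr rfl fun a _ => by rw [Finset.sum_pair huv]
      rw [e3, e4]
      ring
    · rw [if_neg hF, if_neg hF]
      have : gen (h s) (fun G => if ({u, v} : Finset V) ⊆ G then
          R (G \ {u, v}) s * R' (G \ {u, v}) s else 0) F = gen (h s) (fun _ => 0) F := by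
        refine gen_congr fun G hG => ?_
        rw [if_neg (fun hh => hF (hh.trans hG))]
      rw [this, gen_const, add_zero]
  have e5 : ∑ F : Finset V, lw h ∅ s F * (if ({u, v} : Finset V) ⊆ F then
        cov (h s) (fun G => R G s) (fun G => R' G s) (F \ {u, v})
        - h s u v * (R (F \ {u, v}) s * R' (F \ {u, v}) s) else 0)
      = ex (lw h ∅ s) {u, v} (fun F => cov (h s) (fun G => R G s) (fun G => R' G s) F)
        - h s u v * ∑ F : Finset V, lw h ∅ s F *
      (if ({u, v} : Finset V) ⊆ F then R (F \ {u, v}) s * R' (F \ {u, v}) s else 0) := by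
    unfold ex
    rw [Finset.mul_sum, ← Finset.sum_sub_distrib]
    refine Finset.sum_congr rfl fun F _ => ?_
    split_ifs <;> ring
  simp only [e1]
  rw [e5]
  ring

theorem insert_eq_pair (u v : V) : (insert u ({v} : Finset V)) = {u, v} := rfl

theorem Mint_zero (hh : Haz h H) {u v : V} (huv : u ≠ v) {t : ℝ} (ht : t ∈ Icc (0 : ℝ) 1) :
    Mint h H u v (tgt h u t) (tgt h v t) 0 = bb h {v} u t * bb h {u} v t := by
  unfold Mint ex
  rw [(hh.lw (∅ : Finset V)).start, hh.H0, Real.exp_zero, one_mul]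
  simp only [pt, ite_mul, one_mul, zero_mul, Finset.sum_ite_eq', Finset.mem_univ, if_true]
  rw [if_pos (by simp), bb_eq hh (D := {v}) (u := u) (by simp [huv]) ht,
    bb_eq hh (D := {u}) (u := v) (by simp [huv.symm]) ht]
  have e1 : (∅ : Finset V)ᶜ \ {u, v} = (insert u {v} : Finset V)ᶜ := by
    rw [compl_sdiff_union, Finset.empty_union]
  have e2 : (insert v {u} : Finset V) = insert u {v} := Finset.pair_comm v u
  rw [e1, e2]

theorem Mint_end (hh : Haz h H) {u v : V} {t : ℝ} (ht : t ∈ Icc (0 : ℝ) 1) :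
    Mint h H u v (tgt h u t) (tgt h v t) t = Real.exp (H u v t) * pp h u v t := by
  unfold Mint pp
  rw [← ex_one]
  congr 2
  funext F
  rw [(hh.tgt u ht).end_, (hh.tgt v ht).end_, mul_one]

/-- lower form of (3.2) with a minorant -/
theorem le_duh2 (hh : Haz h H) {u v : V} (huv : u ≠ v) {t : ℝ}
    (ht : t ∈ Icc (0 : ℝ) 1) {Γ g : ℝ → ℝ} (hΓ : ∀ s ∈ Icc 0 t, HasDerivAt Γ (g s) s)
    (hg : ∀ s ∈ Icc 0 t, g s ≤ Real.exp (H u v s) * ex (lw h ∅ s) {u, v}
        (fun F => cov (h s) (fun G => tgt h u t G s) (fun G => tgt h v t G s) F)) :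
    bb h {v} u t * bb h {u} v t + (Γ t - Γ 0) ≤ Real.exp (H u v t) * pp h u v t := by
  have key := nonneg_of_forward (U := fun s => (Mint h H u v (tgt h u t) (tgt h v t) s - Γ s)
      - (Mint h H u v (tgt h u t) (tgt h v t) 0 - Γ 0))
    (U' := fun s => Real.exp (H u v s) * ex (lw h ∅ s) {u, v}
        (fun F => cov (h s) (fun G => tgt h u t G s) (fun G => tgt h v t G s) F) - g s)
    (a := 0) (s := t) (fun s hs => ((Mint_deriv hh huv ht (hh.tgt u ht).ev (hh.tgt v ht).ev hs).sub
      (hΓ s hs)).sub_const _) (by simp)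
    (fun s hs _ => by have := hg s hs; linarith) t ⟨ht.1, le_rfl⟩
  rw [Mint_zero hh huv ht, Mint_end hh ht] at key
  linarith

end Pool.Agent.RCG
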