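import Pool.Agent.RCG.GlueE

/-! Backward equations with set-dependent source (MP_73ccd0_lc, general graphs). -/

namespace Pool.Agent.RCG

open Set Finset Pool.Agent.RCRSHalf

set_option linter.unusedSectionVars false

variable {V : Type*} [Fintype V] [DecidableEq V]

/-- `R` solves the backward equation with hazards `h`, killing `k`, discount `ρ` and the
set-dependent source `S` on `[0, s1]`. -/
structure IsEvS (h : ℝ → V → V → ℝ) (k : ℝ → V → ℝ) (ρ : ℝ → ℝ) (S : Finset V → ℝ → ℝ) (s1 : ℝ)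
    (R : Finset V → ℝ → ℝ) : Prop where
  deriv : ∀ F, ∀ r ∈ Icc 0 s1, HasDerivAt (R F)
    (-(gen (h r) (fun G => R G r) F - (∑ a ∈ F, k r a) * R F r - ρ r * R F r + S F r)) r
  nonneg : ∀ F, ∀ r ∈ Icc 0 s1, 0 ≤ R F r

/-- Existence of solutions of the backward equation. -/
theorem exists_evS {h : ℝ → V → V → ℝ} {k : ℝ → V → ℝ} {ρ : ℝ → ℝ} {S : Finset V → ℝ → ℝ}
    (hc : ∀ a b, Continuous fun t => h t a b) {C : ℝ}
    (hb : ∀ t a b, h t a b ≤ C) (h0 : ∀ t a b, 0 ≤ h t a b)
    (kc : ∀ a, Continuous fun t => k t a) (kb : ∀ t a, k t a ≤ C) (k0 : ∀ t a, 0 ≤ k t a)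
    (ρc : Continuous ρ) (ρb : ∀ t, ρ t ≤ C) (ρ0 : ∀ t, 0 ≤ ρ t)
    (cc : ∀ F, Continuous (S F)) (cb : ∀ F t, S F t ≤ C) (c0 : ∀ F t, 0 ≤ S F t)
    {s : ℝ} (hs : s ∈ Icc (0 : ℝ) 1) (ψ : Finset V → ℝ) (hψ : ∀ F, 0 ≤ ψ F) :
    ∃ R : Finset V → ℝ → ℝ, IsEvS h k ρ S s R ∧ ∀ F, R F s = ψ F := by
  have hC0 : 0 ≤ C := (c0 ∅ 0).trans (cb ∅ 0)
  -- bound
  set B : ℝ := ∑ F : Finset V, ψ F + C + 1 with hB
  have hΨ0 : 0 ≤ ∑ F : Finset V, ψ F := Finset.sum_nonneg fun F _ => hψ F
  have hB0 : 0 < B := by rw [hB]; linarith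
  have hψB : ∀ F, ψ F ≤ ∑ F : Finset V, ψ F := fun F =>
    Finset.single_le_sum (f := ψ) (fun G _ => hψ G) (Finset.mem_univ F)
  have hU : ∀ a b, UBL fun (t : ℝ) (_ : Finset V → ℝ) => h t a b := fun a b =>
    UBL.ofTime (hc a b) (C := C) fun t => by rw [abs_of_nonneg (h0 t a b)]; exact hb t a b
  have kU : ∀ a, UBL fun (t : ℝ) (_ : Finset V → ℝ) => k t a := fun a =>
    UBL.ofTime (kc a) (C := C) fun t => by rw [abs_of_nonneg (k0 t a)]; exact kb t a
  have rU : UBL fun (t : ℝ) (_ : Finset V → ℝ) => ρ t :=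
    UBL.ofTime ρc (C := C) fun t => by rw [abs_of_nonneg (ρ0 t)]; exact ρb t
  have cU : ∀ F, UBL fun (t : ℝ) (_ : Finset V → ℝ) => S F t * B⁻¹ := fun F =>
    (UBL.ofTime (cc F) (C := C) fun t => by rw [abs_of_nonneg (c0 F t)]; exact cb F t).mul (UBL.const _)
  let cl : (Finset V → ℝ) → Finset V → ℝ := fun y F => max 0 (min 1 (y F))
  let f : ℝ → (Finset V → ℝ) → (Finset V → ℝ) := fun t y F =>
    -(gen (h t) (cl y) F - (∑ a ∈ F, k t a) * cl y F - ρ t * cl y F + S F t * B⁻¹)
  have hf : ∀ F, UBL fun t y => f t y F := by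
    intro F
    refine UBL.neg (UBL.add (UBL.sub (UBL.sub ?_ ?_) ?_) (cU F))
    · refine (UBL.const (1 / 2)).mul ?_
      refine UBL.sum _ fun a _ => UBL.sum _ fun b _ => ?_
      exact (hU a b).mul ((UBL.coord _).sub (UBL.coord _))
    · exact (UBL.sum _ fun a _ => kU a).mul (UBL.coord F)
    · exact rU.mul (UBL.coord F)
  obtain ⟨α, hα0, hα⟩ := exists_sol2 f hf (t0 := s) ⟨by linarith [hs.1], by linarith [hs.2]⟩
    (fun F => ψ F * B⁻¹)
  have hmem : ∀ r ∈ Icc 0 s, r ∈ Ioo (-1 : ℝ) 2 := fun r hr =>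
    ⟨by linarith [hr.1], by linarith [hr.2, hs.2]⟩
  have cl0 : ∀ y F, 0 ≤ cl y F := fun y F => le_max_left _ _
  have cl1 : ∀ y F, cl y F ≤ 1 := fun y F => max_le zero_le_one (min_le_left _ _)
  have hBi : 0 < B⁻¹ := inv_pos.2 hB0
  have hge : ∀ F, ∀ r ∈ Icc 0 s, 0 ≤ α r F := by
    intro F
    refine nonneg_of_backward (fun r hr => hα r (hmem r hr) F)
      (by rw [hα0]; exact mul_nonneg (hψ F) hBi.le) ?_
    intro r hr hlt
    have hcl : cl (α r) F = 0 := by
      simp only [cl]; exact max_eq_left ((min_le_right _ _).trans hlt.le)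
    have : 0 ≤ gen (h r) (cl (α r)) F := by
      unfold gen
      rw [hcl]
      refine mul_nonneg (by norm_num) (Finset.sum_nonneg fun a _ => Finset.sum_nonneg fun b _ => ?_)
      rw [sub_zero]
      exact mul_nonneg (h0 _ _ _) (cl0 _ _)
    have h3 : 0 ≤ S F r * B⁻¹ := mul_nonneg (c0 F r) hBi.le
    simp only [f]
    rw [hcl]
    linarith
  -- the bound β(r) = (Ψ + C (s - r)) / B
  have hβ1 : ∀ r ∈ Icc 0 s, (∑ F : Finset V, ψ F + C * (s - r)) * B⁻¹ ≤ 1 := by
    intro r hr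
    rw [← div_eq_mul_inv, div_le_one hB0, hB]
    have : C * (s - r) ≤ C * 1 := mul_le_mul_of_nonneg_left (by linarith [hr.1, hs.2]) hC0
    linarith
  have hle : ∀ n : ℕ, ∀ F : Finset V, F.card = n → ∀ r ∈ Icc 0 s,
      α r F ≤ (∑ F : Finset V, ψ F + C * (s - r)) * B⁻¹ := by
    intro n
    induction n using Nat.strong_induction_on with
    | _ n ih =>
    intro F hF r hr
    have := nonneg_of_backward (U := fun r => (∑ F : Finset V, ψ F + C * (s - r)) * B⁻¹ - α r F)
      (U' := fun r => -C * B⁻¹ - f r (α r) F) (a := 0) (s := s)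
      (fun r hr => by
        have h1 : HasDerivAt (fun r => (∑ F : Finset V, ψ F + C * (s - r)) * B⁻¹) (-C * B⁻¹) r := by
          have h2 := ((((hasDerivAt_id' r).const_sub s).const_mul C).const_add
            (∑ F : Finset V, ψ F)).mul_const B⁻¹
          refine h2.congr_deriv ?_
          ring
        exact h1.sub (hα r (hmem r hr) F))
      (by
        simp only [hα0, sub_self, mul_zero, add_zero]
        rw [← sub_mul]
        exact mul_nonneg (by linarith [hψB F]) hBi.le) ?_ r hr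
    · linarith
    · intro r hr hlt
      set β : ℝ := (∑ F : Finset V, ψ F + C * (s - r)) * B⁻¹ with hβ
      have hgt : β < α r F := by linarith
      have hβ0 : 0 ≤ β := by
        rw [hβ]
        have : 0 ≤ C * (s - r) := mul_nonneg hC0 (by linarith [hr.2])
        positivity
      have hclF : β ≤ cl (α r) F := by
        simp only [cl]
        exact le_max_of_le_right (le_min (hβ1 r hr) hgt.le)
      have hg : gen (h r) (cl (α r)) F ≤ 0 := by
        refine gen_nonpos_of (h0 r) (β := β) (fun a ha b hb => ?_) hclF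
        have hcard : ((F.erase a).erase b).card < n := by
          rw [← hF]
          exact (Finset.card_le_card (Finset.erase_subset _ _)).trans_lt
            (Finset.card_erase_lt_of_mem ha)
        have := ih _ hcard ((F.erase a).erase b) rfl r hr
        simp only [cl]
        exact max_le hβ0 ((min_le_right _ _).trans this)
      have hk : 0 ≤ (∑ a ∈ F, k r a) * cl (α r) F :=
        mul_nonneg (Finset.sum_nonneg fun a _ => k0 _ _) (cl0 _ _)
      have hρ : 0 ≤ ρ r * cl (α r) F := mul_nonneg (ρ0 r) (cl0 _ _)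
      have hcr : S F r * B⁻¹ ≤ C * B⁻¹ := mul_le_mul_of_nonneg_right (cb F r) hBi.le
      simp only [f]
      linarith
  have hcl : ∀ r ∈ Icc 0 s, cl (α r) = α r := by
    intro r hr
    funext F
    simp only [cl]
    rw [min_eq_right ((hle _ F rfl r hr).trans (hβ1 r hr)), max_eq_right (hge F r hr)]
  refine ⟨fun F r => B * α r F, ⟨fun F r hr => ?_, fun F r hr => mul_nonneg hB0.le (hge F r hr)⟩,
    fun F => ?_⟩
  · have := (hα r (hmem r hr) F).const_mul B
    refine this.congr_deriv ?_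
    simp only [f]
    rw [hcl r hr]
    have e : gen (h r) (fun G => B * α r G) F = B * gen (h r) (α r) F :=
      (genL (h r) F).map_smul B (α r)
    rw [e]
    have hBB : B * B⁻¹ = 1 := mul_inv_cancel₀ hB0.ne'
    have : B * (S F r * B⁻¹) = S F r := by rw [mul_left_comm, hBB, mul_one]
    linear_combination (-1 : ℝ) * this
  · simp only [hα0]
    field_simp

section steps

variable {h : ℝ → V → V → ℝ} {k : ℝ → V → ℝ} {ρ : ℝ → ℝ} {S : Finset V → ℝ → ℝ} {s : ℝ} {R : Finset V → ℝ → ℝ}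

/-- Step P: upper bound on the influence of `a` from lower bounds for the others. -/
theorem stepPS (hs : ∀ t a b, h t a b = h t b a) (haa : ∀ t a, h t a a = 0)
    (h0 : ∀ t a b, 0 ≤ h t a b) (k0 : ∀ t a, 0 ≤ k t a) (ρ0 : ∀ t, 0 ≤ ρ t) 
    (hR : IsEvS h k ρ S s R)
    {H0 : Finset V} {a : V} (ha : a ∉ H0) {N : V → ℝ → ℝ}
    (hN1 : ∀ b ∈ H0, ∀ r ∈ Icc 0 s, N b r ≤ 1)
    (hN : ∀ G ⊆ H0, ∀ b ∈ G, ∀ r ∈ Icc 0 s, (1 - N b r) * R G r ≤ R (G.erase b) r)
    {P P' : ℝ → ℝ} (hPd : ∀ r ∈ Icc 0 s, HasDerivAt P (P' r) r)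
    (hPs : ∀ G ⊆ H0, R G s ≤ (1 + P s) * R (insert a G) s)
    (hP0 : ∀ r ∈ Icc 0 s, 0 ≤ P r)
    (hP : ∀ r ∈ Icc 0 s, (1 + P r) * (k r a + ∑ b ∈ H0, h r a b * N b r) ≤ -P' r)
    (hN0 : ∀ b ∈ H0, ∀ r ∈ Icc 0 s, 0 ≤ N b r)
    (hS : ∀ G ⊆ H0, ∀ r ∈ Icc 0 s, S G r ≤ (1 + P r) * S (insert a G) r) :
    ∀ G ⊆ H0, ∀ r ∈ Icc 0 s, R G r ≤ (1 + P r) * R (insert a G) r := by
  intro G
  induction hn : G.card using Nat.strong_induction_on generalizing G with
  | _ n ih =>
  intro hG
  have haG : a ∉ G := fun hh => ha (hG hh)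
  have key := nonneg_of_backward (U := fun r => (1 + P r) * R (insert a G) r - R G r)
    (U' := fun r => P' r * R (insert a G) r + (1 + P r) *
        (-(gen (h r) (fun F => R F r) (insert a G) - (∑ c ∈ insert a G, k r c) * R (insert a G) r
          - ρ r * R (insert a G) r + S (insert a G) r))
      - (-(gen (h r) (fun F => R F r) G - (∑ c ∈ G, k r c) * R G r - ρ r * R G r + S G r)))
    (a := 0) (s := s) (fun r hr => by
      exact (((hPd r hr).const_add 1).mul (hR.deriv (insert a G) r hr)).sub (hR.deriv G r hr))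
    (by have := hPs G hG; linarith) ?_
  · intro r hr
    have := key r hr
    linarith
  · intro r hr hU
    set U : ℝ := (1 + P r) * R (insert a G) r - R G r with hUdef
    have hRa0 : 0 ≤ R (insert a G) r := hR.nonneg _ r hr
    have hP0r := hP0 r hr
    -- first sum
    rw [gen_insert (h r) (hs r) (haa r) _ haG, Finset.sum_insert haG]
    have t1 : 0 ≤ (1 + P r) * ((1 / 2) * ∑ b ∈ G, ∑ c ∈ G,
        h r b c * (R (insert a ((G.erase b).erase c)) r - R (insert a G) r))
        - gen (h r) (fun F => R F r) G + ((1 / 2) * ∑ b ∈ G, ∑ c ∈ G, h r b c) * U := by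
      unfold gen
      rw [hUdef]
      have : (1 + P r) * ((1 / 2) * ∑ b ∈ G, ∑ c ∈ G,
          h r b c * (R (insert a ((G.erase b).erase c)) r - R (insert a G) r))
          - (1 / 2) * ∑ b ∈ G, ∑ c ∈ G, h r b c * (R ((G.erase b).erase c) r - R G r)
          + ((1 / 2) * ∑ b ∈ G, ∑ c ∈ G, h r b c) * ((1 + P r) * R (insert a G) r - R G r)
          = (1 / 2) * ∑ b ∈ G, ∑ c ∈ G, h r b c *
            ((1 + P r) * R (insert a ((G.erase b).erase c)) r - R ((G.erase b).erase c) r) := by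
        rw [mul_left_comm, ← mul_sub, mul_assoc, ← mul_add]
        congr 1
        rw [Finset.mul_sum, Finset.sum_mul, ← Finset.sum_sub_distrib, ← Finset.sum_add_distrib]
        refine Finset.sum_congr rfl fun b _ => ?_
        rw [Finset.mul_sum, Finset.sum_mul, ← Finset.sum_sub_distrib, ← Finset.sum_add_distrib]
        refine Finset.sum_congr rfl fun c _ => ?_
        ring
      rw [this]
      refine mul_nonneg (by norm_num) (Finset.sum_nonneg fun b hb => Finset.sum_nonneg fun c hc => ?_)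
      refine mul_nonneg (h0 _ _ _) ?_
      have hcard : ((G.erase b).erase c).card < n := by
        rw [← hn]
        exact (Finset.card_le_card (Finset.erase_subset _ _)).trans_lt
          (Finset.card_erase_lt_of_mem hb)
      have := ih _ hcard ((G.erase b).erase c) rfl
        ((Finset.erase_subset _ _).trans ((Finset.erase_subset _ _).trans hG)) r hr
      linarith
    have t2 : 0 ≤ (1 + P r) * ∑ b ∈ G, h r a b * (R (G.erase b) r - R (insert a G) r)
        + (1 + P r) * (∑ b ∈ G, h r a b * N b r) * R (insert a G) r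
        + (1 + P r) * (∑ b ∈ G, h r a b * (1 - N b r)) * U := by
      have : (1 + P r) * ∑ b ∈ G, h r a b * (R (G.erase b) r - R (insert a G) r)
        + (1 + P r) * (∑ b ∈ G, h r a b * N b r) * R (insert a G) r
        + (1 + P r) * (∑ b ∈ G, h r a b * (1 - N b r)) * U
        = (1 + P r) * ∑ b ∈ G, h r a b * ((R (G.erase b) r - R (insert a G) r)
          + N b r * R (insert a G) r + (1 - N b r) * U) := by
        rw [mul_assoc, mul_assoc, ← mul_add, ← mul_add, Finset.sum_mul, Finset.sum_mul,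
          ← Finset.sum_add_distrib, ← Finset.sum_add_distrib]
        congr 1
        refine Finset.sum_congr rfl fun b _ => ?_
        ring
      rw [this]
      refine mul_nonneg (by linarith) (Finset.sum_nonneg fun b hb => mul_nonneg (h0 _ _ _) ?_)
      have e1 := hN G hG b hb r hr
      have e2 := hN1 b (hG hb) r hr
      have e3 : R G r = (1 + P r) * R (insert a G) r - U := by rw [hUdef]; ring
      rw [e3] at e1
      have e4 : 0 ≤ (1 - N b r) * P r * R (insert a G) r :=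
        mul_nonneg (mul_nonneg (by linarith) hP0r) hRa0
      nlinarith
    have t3 : 0 ≤ (∑ b ∈ G, h r a b * (1 - N b r)) := Finset.sum_nonneg fun b hb =>
      mul_nonneg (h0 _ _ _) (by linarith [hN1 b (hG hb) r hr])
    have t4 : 0 ≤ ∑ b ∈ G, ∑ c ∈ G, h r b c :=
      Finset.sum_nonneg fun b _ => Finset.sum_nonneg fun c _ => h0 _ _ _
    have t5 : 0 ≤ ∑ c ∈ G, k r c := Finset.sum_nonneg fun c _ => k0 _ _
    have t6 : (1 + P r) * (k r a + ∑ b ∈ G, h r a b * N b r) ≤ -P' r := by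
      refine le_trans ?_ (hP r hr)
      refine mul_le_mul_of_nonneg_left ?_ (by linarith)
      have : ∑ b ∈ G, h r a b * N b r ≤ ∑ b ∈ H0, h r a b * N b r :=
        Finset.sum_le_sum_of_subset_of_nonneg hG fun b hb _ => mul_nonneg (h0 _ _ _) (hN0 b hb r hr)
      linarith
    have t7 : 0 ≤ (-P' r - (1 + P r) * (k r a + ∑ b ∈ G, h r a b * N b r)) * R (insert a G) r :=
      mul_nonneg (by linarith) hRa0
    have u1 : ((1 / 2) * ∑ b ∈ G, ∑ c ∈ G, h r b c) * U ≤ 0 :=
      mul_nonpos_of_nonneg_of_nonpos (by positivity) hU.le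
    have u2 : (1 + P r) * (∑ b ∈ G, h r a b * (1 - N b r)) * U ≤ 0 :=
      mul_nonpos_of_nonneg_of_nonpos (mul_nonneg (by linarith) t3) hU.le
    have u3 : (∑ c ∈ G, k r c) * U ≤ 0 := mul_nonpos_of_nonneg_of_nonpos t5 hU.le
    have u4 : ρ r * U ≤ 0 := mul_nonpos_of_nonneg_of_nonpos (ρ0 r) hU.le
    have u5 := hS G hG r hr
    have eU : R G r = (1 + P r) * R (insert a G) r - U := by rw [hUdef]; ring
    have e8 : (∑ c ∈ G, k r c) * R G r
        = (∑ c ∈ G, k r c) * ((1 + P r) * R (insert a G) r) - (∑ c ∈ G, k r c) * U := by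
      rw [eU]; ring
    have e9 : ρ r * R G r = ρ r * ((1 + P r) * R (insert a G) r) - ρ r * U := by
      rw [eU]; ring
    nlinarith [t1, t2, t7, u1, u2, u3, u4, u5, e8, e9]

/-- Step N: lower bound on the influence of `a` from upper bounds for the others. -/
theorem stepNS (hs : ∀ t a b, h t a b = h t b a) (haa : ∀ t a, h t a a = 0)
    (h0 : ∀ t a b, 0 ≤ h t a b) (k0 : ∀ t a, 0 ≤ k t a) (ρ0 : ∀ t, 0 ≤ ρ t) 
    (hR : IsEvS h k ρ S s R)
    {H0 : Finset V} {a : V} (ha : a ∉ H0) {P : V → ℝ → ℝ}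
    (hP0 : ∀ b ∈ H0, ∀ r ∈ Icc 0 s, 0 ≤ P b r)
    (hP : ∀ G ⊆ H0, ∀ b ∈ G, ∀ r ∈ Icc 0 s, R (G.erase b) r ≤ (1 + P b r) * R G r)
    {N N' : ℝ → ℝ} (hNd : ∀ r ∈ Icc 0 s, HasDerivAt N (N' r) r)
    (hN0 : ∀ r ∈ Icc 0 s, 0 ≤ N r) (hN1 : ∀ r ∈ Icc 0 s, N r ≤ 1)
    (hNs : ∀ G ⊆ H0, (1 - N s) * R (insert a G) s ≤ R G s)
    (hN : ∀ r ∈ Icc 0 s, ∑ b ∈ H0, h r a b * P b r ≤ -N' r)
    (hS : ∀ G ⊆ H0, ∀ r ∈ Icc 0 s, (1 - N r) * S (insert a G) r ≤ S G r) :
    ∀ G ⊆ H0, ∀ r ∈ Icc 0 s, (1 - N r) * R (insert a G) r ≤ R G r := by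
  intro G
  induction hn : G.card using Nat.strong_induction_on generalizing G with
  | _ n ih =>
  intro hG
  have haG : a ∉ G := fun hh => ha (hG hh)
  have key := nonneg_of_backward (U := fun r => R G r - (1 - N r) * R (insert a G) r)
    (U' := fun r => (-(gen (h r) (fun F => R F r) G - (∑ c ∈ G, k r c) * R G r
        - ρ r * R G r + S G r))
      - ((-N' r) * R (insert a G) r + (1 - N r) *
        (-(gen (h r) (fun F => R F r) (insert a G) - (∑ c ∈ insert a G, k r c) * R (insert a G) r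
          - ρ r * R (insert a G) r + S (insert a G) r))))
    (a := 0) (s := s) (fun r hr => by
      exact (hR.deriv G r hr).sub (((hNd r hr).const_sub 1).mul (hR.deriv (insert a G) r hr)))
    (by have := hNs G hG; linarith) ?_
  · intro r hr
    have := key r hr
    linarith
  · intro r hr hU
    set U : ℝ := R G r - (1 - N r) * R (insert a G) r with hUdef
    have hRa0 : 0 ≤ R (insert a G) r := hR.nonneg _ r hr
    have hN0r := hN0 r hr
    have hN1r := hN1 r hr
    rw [gen_insert (h r) (hs r) (haa r) _ haG, Finset.sum_insert haG]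
    have t1 : 0 ≤ gen (h r) (fun F => R F r) G
        - (1 - N r) * ((1 / 2) * ∑ b ∈ G, ∑ c ∈ G,
        h r b c * (R (insert a ((G.erase b).erase c)) r - R (insert a G) r))
        + ((1 / 2) * ∑ b ∈ G, ∑ c ∈ G, h r b c) * U := by
      unfold gen
      rw [hUdef]
      have : (1 / 2) * ∑ b ∈ G, ∑ c ∈ G, h r b c * (R ((G.erase b).erase c) r - R G r)
          - (1 - N r) * ((1 / 2) * ∑ b ∈ G, ∑ c ∈ G,
          h r b c * (R (insert a ((G.erase b).erase c)) r - R (insert a G) r))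
          + ((1 / 2) * ∑ b ∈ G, ∑ c ∈ G, h r b c) * (R G r - (1 - N r) * R (insert a G) r)
          = (1 / 2) * ∑ b ∈ G, ∑ c ∈ G, h r b c *
            (R ((G.erase b).erase c) r - (1 - N r) * R (insert a ((G.erase b).erase c)) r) := by
        rw [mul_left_comm (1 - N r), ← mul_sub, mul_assoc, ← mul_add]
        congr 1
        rw [Finset.mul_sum, Finset.sum_mul, ← Finset.sum_sub_distrib, ← Finset.sum_add_distrib]
        refine Finset.sum_congr rfl fun b _ => ?_
        rw [Finset.mul_sum, Finset.sum_mul, ← Finset.sum_sub_distrib, ← Finset.sum_add_distrib]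
        refine Finset.sum_congr rfl fun c _ => ?_
        ring
      rw [this]
      refine mul_nonneg (by norm_num) (Finset.sum_nonneg fun b hb => Finset.sum_nonneg fun c hc => ?_)
      refine mul_nonneg (h0 _ _ _) ?_
      have hcard : ((G.erase b).erase c).card < n := by
        rw [← hn]
        exact (Finset.card_le_card (Finset.erase_subset _ _)).trans_lt
          (Finset.card_erase_lt_of_mem hb)
      have := ih _ hcard ((G.erase b).erase c) rfl
        ((Finset.erase_subset _ _).trans ((Finset.erase_subset _ _).trans hG)) r hr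
      linarith
    have t2 : 0 ≤ -((1 - N r) * ∑ b ∈ G, h r a b * (R (G.erase b) r - R (insert a G) r))
        + (∑ b ∈ G, h r a b * P b r) * R (insert a G) r
        + (1 - N r) * (∑ b ∈ G, h r a b * (1 + P b r)) * U := by
      have : -((1 - N r) * ∑ b ∈ G, h r a b * (R (G.erase b) r - R (insert a G) r))
        + (∑ b ∈ G, h r a b * P b r) * R (insert a G) r
        + (1 - N r) * (∑ b ∈ G, h r a b * (1 + P b r)) * U
        = ∑ b ∈ G, h r a b * (-((1 - N r) * (R (G.erase b) r - R (insert a G) r))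
          + P b r * R (insert a G) r + (1 - N r) * (1 + P b r) * U) := by
        rw [Finset.mul_sum, ← Finset.sum_neg_distrib, Finset.sum_mul, mul_assoc, Finset.sum_mul,
          Finset.mul_sum, ← Finset.sum_add_distrib, ← Finset.sum_add_distrib]
        refine Finset.sum_congr rfl fun b _ => ?_
        ring
      rw [this]
      refine Finset.sum_nonneg fun b hb => mul_nonneg (h0 _ _ _) ?_
      have e1 := hP G hG b hb r hr
      have e3 : R G r = (1 - N r) * R (insert a G) r + U := by rw [hUdef]; ring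
      rw [e3] at e1
      have hPb := hP0 b (hG hb) r hr
      have e4 : (1 - N r) * R (G.erase b) r
          ≤ (1 - N r) * ((1 + P b r) * ((1 - N r) * R (insert a G) r + U)) :=
        mul_le_mul_of_nonneg_left e1 (by linarith)
      -- (1-N)((1+P)(1-N) - 1) ≤ P
      have e5 : (1 - N r) * ((1 + P b r) * (1 - N r) - 1) ≤ P b r := by
        have f1 : (1 + P b r) * (1 - N r) - 1 ≤ P b r := by nlinarith
        have f2 : (1 - N r) * ((1 + P b r) * (1 - N r) - 1) ≤ (1 - N r) * P b r :=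
          mul_le_mul_of_nonneg_left f1 (by linarith)
        nlinarith
      have e6 : (1 - N r) * ((1 + P b r) * (1 - N r) - 1) * R (insert a G) r
          ≤ P b r * R (insert a G) r := mul_le_mul_of_nonneg_right e5 hRa0
      nlinarith
    have t3 : 0 ≤ (∑ b ∈ G, h r a b * (1 + P b r)) := Finset.sum_nonneg fun b hb =>
      mul_nonneg (h0 _ _ _) (by linarith [hP0 b (hG hb) r hr])
    have t4 : 0 ≤ ∑ b ∈ G, ∑ c ∈ G, h r b c :=
      Finset.sum_nonneg fun b _ => Finset.sum_nonneg fun c _ => h0 _ _ _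
    have t5 : 0 ≤ ∑ c ∈ G, k r c := Finset.sum_nonneg fun c _ => k0 _ _
    have t6 : ∑ b ∈ G, h r a b * P b r ≤ -N' r := by
      refine le_trans ?_ (hN r hr)
      exact Finset.sum_le_sum_of_subset_of_nonneg hG fun b hb _ =>
        mul_nonneg (h0 _ _ _) (hP0 b hb r hr)
    have t7 : 0 ≤ (-N' r - ∑ b ∈ G, h r a b * P b r) * R (insert a G) r :=
      mul_nonneg (by linarith) hRa0
    have t8 : 0 ≤ (1 - N r) * k r a * R (insert a G) r :=
      mul_nonneg (mul_nonneg (by linarith) (k0 _ _)) hRa0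
    have u1 : ((1 / 2) * ∑ b ∈ G, ∑ c ∈ G, h r b c) * U ≤ 0 :=
      mul_nonpos_of_nonneg_of_nonpos (by positivity) hU.le
    have u2 : (1 - N r) * (∑ b ∈ G, h r a b * (1 + P b r)) * U ≤ 0 :=
      mul_nonpos_of_nonneg_of_nonpos (mul_nonneg (by linarith) t3) hU.le
    have u3 : (∑ c ∈ G, k r c) * U ≤ 0 := mul_nonpos_of_nonneg_of_nonpos t5 hU.le
    have u4 : ρ r * U ≤ 0 := mul_nonpos_of_nonneg_of_nonpos (ρ0 r) hU.le
    have u5 := hS G hG r hr
    have eU : R G r = (1 - N r) * R (insert a G) r + U := by rw [hUdef]; ring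
    have e8 : (∑ c ∈ G, k r c) * R G r
        = (∑ c ∈ G, k r c) * ((1 - N r) * R (insert a G) r) + (∑ c ∈ G, k r c) * U := by
      rw [eU]; ring
    have e9 : ρ r * R G r = ρ r * ((1 - N r) * R (insert a G) r) + ρ r * U := by
      rw [eU]; ring
    nlinarith [t1, t2, t7, t8, u1, u2, u3, u4, u5, e8, e9]

end steps

/-- The influence bounds `(1.1)`, `(1.2)` from the closure inequalities. -/
theorem inflS {h : ℝ → V → V → ℝ} {k : ℝ → V → ℝ} {ρ : ℝ → ℝ} {S : Finset V → ℝ → ℝ} {s : ℝ}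
    {R : Finset V → ℝ → ℝ} (hs : ∀ t a b, h t a b = h t b a) (haa : ∀ t a, h t a a = 0)
    (h0 : ∀ t a b, 0 ≤ h t a b) (k0 : ∀ t a, 0 ≤ k t a) (ρ0 : ∀ t, 0 ≤ ρ t)
    (hR : IsEvS h k ρ S s R) (H0 : Finset V) {P P' N N' : V → ℝ → ℝ}
    (hPd : ∀ a ∈ H0, ∀ r ∈ Icc 0 s, HasDerivAt (P a) (P' a r) r)
    (hNd : ∀ a ∈ H0, ∀ r ∈ Icc 0 s, HasDerivAt (N a) (N' a r) r)
    (hP0 : ∀ a ∈ H0, ∀ r ∈ Icc 0 s, 0 ≤ P a r)
    (hN0 : ∀ a ∈ H0, ∀ r ∈ Icc 0 s, 0 ≤ N a r)
    (hN1 : ∀ a ∈ H0, ∀ r ∈ Icc 0 s, N a r ≤ 1)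
    (hP : ∀ a ∈ H0, ∀ r ∈ Icc 0 s,
      (1 + P a r) * (k r a + ∑ b ∈ H0, h r a b * N b r) ≤ -P' a r)
    (hN : ∀ a ∈ H0, ∀ r ∈ Icc 0 s, ∑ b ∈ H0, h r a b * P b r ≤ -N' a r)
    (hPs : ∀ G ⊆ H0, ∀ a ∈ G, R (G.erase a) s ≤ (1 + P a s) * R G s)
    (hNs : ∀ G ⊆ H0, ∀ a ∈ G, (1 - N a s) * R G s ≤ R (G.erase a) s)
    (hSP : ∀ G ⊆ H0, ∀ a ∈ G, ∀ r ∈ Icc 0 s, S (G.erase a) r ≤ (1 + P a r) * S G r)
    (hSN : ∀ G ⊆ H0, ∀ a ∈ G, ∀ r ∈ Icc 0 s, (1 - N a r) * S G r ≤ S (G.erase a) r) :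
    ∀ G ⊆ H0, ∀ a ∈ G, ∀ r ∈ Icc 0 s,
      R (G.erase a) r ≤ (1 + P a r) * R G r ∧ (1 - N a r) * R G r ≤ R (G.erase a) r := by
  intro G
  induction hn : G.card using Nat.strong_induction_on generalizing G with
  | _ n ih =>
  intro hG a ha r hr
  have haH := hG ha
  have hsub : G.erase a ⊆ H0 := (Finset.erase_subset _ _).trans hG
  have hna : a ∉ G.erase a := Finset.notMem_erase a G
  have hcard : ∀ G' ⊆ G.erase a, G'.card < n := fun G' hG' => by
    rw [← hn]
    exact (Finset.card_le_card hG').trans_lt (Finset.card_erase_lt_of_mem ha)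
  have hins : insert a (G.erase a) = G := Finset.insert_erase ha
  have IH : ∀ G' ⊆ G.erase a, ∀ b ∈ G', ∀ r ∈ Icc 0 s,
      R (G'.erase b) r ≤ (1 + P b r) * R G' r ∧ (1 - N b r) * R G' r ≤ R (G'.erase b) r :=
    fun G' hG' => ih _ (hcard G' hG') G' rfl (hG'.trans hsub)
  constructor
  · have := stepPS hs haa h0 k0 ρ0 hR (H0 := G.erase a) hna (N := N) (P := P a) (P' := P' a)
      (fun b hb => hN1 b (hsub hb)) (fun G' hG' b hb r hr => (IH G' hG' b hb r hr).2)
      (hPd a haH)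
      (fun G' hG' => by
        have hi : insert a G' ⊆ H0 := Finset.insert_subset haH (hG'.trans hsub)
        have := hPs (insert a G') hi a (Finset.mem_insert_self _ _)
        rwa [Finset.erase_insert (fun hh => hna (hG' hh))] at this)
      (hP0 a haH)
      (fun r hr => by
        refine le_trans ?_ (hP a haH r hr)
        refine mul_le_mul_of_nonneg_left ?_ (by linarith [hP0 a haH r hr])
        have : ∑ b ∈ G.erase a, h r a b * N b r ≤ ∑ b ∈ H0, h r a b * N b r :=
          Finset.sum_le_sum_of_subset_of_nonneg hsub fun b hb _ =>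
            mul_nonneg (h0 _ _ _) (hN0 b hb r hr)
        linarith)
      (fun b hb => hN0 b (hsub hb))
      (fun G' hG' r hr => by
        have hi : insert a G' ⊆ H0 := Finset.insert_subset haH (hG'.trans hsub)
        have := hSP (insert a G') hi a (Finset.mem_insert_self _ _) r hr
        rwa [Finset.erase_insert (fun hh => hna (hG' hh))] at this) (G.erase a)
      Finset.Subset.rfl r hr
    rwa [hins] at this
  · have := stepNS hs haa h0 k0 ρ0 hR (H0 := G.erase a) hna (P := P) (N := N a) (N' := N' a)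
      (fun b hb => hP0 b (hsub hb)) (fun G' hG' b hb r hr => (IH G' hG' b hb r hr).1)
      (hNd a haH) (hN0 a haH) (hN1 a haH)
      (fun G' hG' => by
        have hi : insert a G' ⊆ H0 := Finset.insert_subset haH (hG'.trans hsub)
        have := hNs (insert a G') hi a (Finset.mem_insert_self _ _)
        rwa [Finset.erase_insert (fun hh => hna (hG' hh))] at this)
      (fun r hr => by
        refine le_trans ?_ (hN a haH r hr)
        exact Finset.sum_le_sum_of_subset_of_nonneg hsub fun b hb _ =>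
          mul_nonneg (h0 _ _ _) (hP0 b hb r hr))
      (fun G' hG' r hr => by
        have hi : insert a G' ⊆ H0 := Finset.insert_subset haH (hG'.trans hsub)
        have := hSN (insert a G') hi a (Finset.mem_insert_self _ _) r hr
        rwa [Finset.erase_insert (fun hh => hna (hG' hh))] at this)
      (G.erase a) Finset.Subset.rfl r hr
    rwa [hins] at this


end Pool.Agent.RCG
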