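import Pool.Agent.RCG.XNeg

/-! Factorization of expectations with a two-vertex function (MP_73ccd0_lc, general graphs). -/

namespace Pool.Agent.RCG

open Set Finset Pool.Agent.RCRSHalf

set_option linter.unusedSectionVars false

variable {V : Type*} [Fintype V] [DecidableEq V]
variable {h : ℝ → V → V → ℝ} {H : V → V → ℝ → ℝ}

/-- upper comparison for grouped targets -/
theorem ex_le_grp (hh : Haz h H) {ι : Type*} [DecidableEq ι] {I : Finset ι} {D W : Finset V}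
    (hWD : Disjoint D W) {s : ℝ} (hs : s ∈ Icc (0 : ℝ) 1) {k : ι → ℝ → V → ℝ}
    (hk : ∀ r z, ∑ w ∈ W, h r w z = ∑ i ∈ I, k i r z) (k0 : ∀ i ∈ I, ∀ r z, 0 ≤ k i r z)
    {R : ι → Finset V → ℝ → ℝ} {P N : ι → V → ℝ → ℝ} {ψ : Finset V → ℝ}
    (hR : ∀ i ∈ I, IsEv h (k i) (fun _ => 0) (fun _ => 0) s (R i))
    (hI : ∀ i ∈ I, Inf (D ∪ W)ᶜ s (R i) (P i) (N i))
    (hψ0 : ∀ F, 0 ≤ ψ F) (hψ : ∀ F ⊆ (D ∪ W)ᶜ, ψ F ≤ ∏ i ∈ I, R i F s)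
    {κ κ' : ℝ → ℝ} (hκd : ∀ r ∈ Icc 0 s, HasDerivAt κ (κ' r) r) (hκs : 0 ≤ κ s)
    (hκ : ∀ r ∈ Icc 0 s,
      kupR (h r) (D ∪ W)ᶜ I (fun i a => P i a r) (fun i a => N i a r) ≤ -κ' r) :
    ex (lw h D s) W ψ ≤ Real.exp (-HW H W s + κ 0) * ∏ i ∈ I, R i (D ∪ W)ᶜ 0 := by
  obtain ⟨S, hS, hSψ⟩ := hh.exists_ev W hs ψ hψ0
  have hsub : W ⊆ Dᶜ := by
    intro a ha
    rw [Finset.mem_compl]
    exact fun hD => (Finset.disjoint_left.1 hWD) hD ha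
  have e1 := duality2 hh (hh.lw D) hsub hs hS
  have e2 : ex (lw h D s) W ψ = ex (lw h D s) W (fun F => S F s) := by
    congr 1; funext F; exact (hSψ F).symm
  have hS' : IsEv h (fun r z => ∑ i ∈ I, k i r z) (fun _ => 0) (fun _ => 0) s S :=
    hS.congr_k hk
  rw [e2, e1, compl_sdiff_union, Real.exp_add, mul_assoc]
  refine mul_le_mul_of_nonneg_left ?_ (Real.exp_pos _).le
  refine cmpU_infl (k := k) hh.nonneg hh.diag k0 hR hS' hI hκd (fun G hG => ?_) hκ _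
    Finset.Subset.rfl 0 ⟨le_rfl, hs.1⟩
  rw [hSψ]
  have hP0 : 0 ≤ ∏ i ∈ I, R i G s :=
    Finset.prod_nonneg fun i hi => (hR i hi).nonneg G s ⟨hs.1, le_rfl⟩
  have := Real.one_le_exp hκs
  calc ψ G ≤ ∏ i ∈ I, R i G s := hψ G hG
    _ = 1 * ∏ i ∈ I, R i G s := (one_mul _).symm
    _ ≤ _ := mul_le_mul_of_nonneg_right this hP0

/-- four groups -/
theorem ex_le_grp4 (hh : Haz h H) {D W : Finset V}
    (hWD : Disjoint D W) {s : ℝ} (hs : s ∈ Icc (0 : ℝ) 1) {k0 k1 k2 k3 : ℝ → V → ℝ}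
    (hk : ∀ r z, ∑ w ∈ W, h r w z = k0 r z + k1 r z + k2 r z + k3 r z)
    (h0 : ∀ r z, 0 ≤ k0 r z) (h1 : ∀ r z, 0 ≤ k1 r z) (h2 : ∀ r z, 0 ≤ k2 r z)
    (h3 : ∀ r z, 0 ≤ k3 r z)
    {R0 R1 R2 R3 : Finset V → ℝ → ℝ} {P0 N0 P1 N1 P2 N2 P3 N3 : V → ℝ → ℝ} {ψ : Finset V → ℝ}
    (hR0 : IsEv h k0 (fun _ => 0) (fun _ => 0) s R0)
    (hR1 : IsEv h k1 (fun _ => 0) (fun _ => 0) s R1)
    (hR2 : IsEv h k2 (fun _ => 0) (fun _ => 0) s R2)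
    (hR3 : IsEv h k3 (fun _ => 0) (fun _ => 0) s R3)
    (hI0 : Inf (D ∪ W)ᶜ s R0 P0 N0) (hI1 : Inf (D ∪ W)ᶜ s R1 P1 N1)
    (hI2 : Inf (D ∪ W)ᶜ s R2 P2 N2) (hI3 : Inf (D ∪ W)ᶜ s R3 P3 N3)
    (hψ0 : ∀ F, 0 ≤ ψ F) (hψ : ∀ F ⊆ (D ∪ W)ᶜ, ψ F ≤ R0 F s * R1 F s * R2 F s * R3 F s)
    {κ κ' : ℝ → ℝ} (hκd : ∀ r ∈ Icc 0 s, HasDerivAt κ (κ' r) r) (hκs : 0 ≤ κ s)
    (hκ : ∀ r ∈ Icc 0 s, (1 / 2) * ∑ c ∈ (D ∪ W)ᶜ, ∑ d ∈ (D ∪ W)ᶜ, h r c d *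
        gu4 (pq P0 c d r) (pq P1 c d r) (pq P2 c d r) (pq P3 c d r)
          (nq N0 c d r) (nq N1 c d r) (nq N2 c d r) (nq N3 c d r) ≤ -κ' r) :
    ex (lw h D s) W ψ ≤ Real.exp (-HW H W s + κ 0) *
      (R0 (D ∪ W)ᶜ 0 * R1 (D ∪ W)ᶜ 0 * R2 (D ∪ W)ᶜ 0 * R3 (D ∪ W)ᶜ 0) := by
  have e01 : (0 : Fin 4) ≠ 1 := by decide
  have e02 : (0 : Fin 4) ≠ 2 := by decide
  have e03 : (0 : Fin 4) ≠ 3 := by decide
  have e12 : (1 : Fin 4) ≠ 2 := by decide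
  have e13 : (1 : Fin 4) ≠ 3 := by decide
  have e23 : (2 : Fin 4) ≠ 3 := by decide
  have hall : ∀ {p : Fin 4 → Prop}, p 0 → p 1 → p 2 → p 3 → ∀ i, p i := by
    intro p q0 q1 q2 q3 i
    fin_cases i
    exacts [q0, q1, q2, q3]
  have key := ex_le_grp hh (ι := Fin 4) (I := {0, 1, 2, 3}) hWD hs (k := ![k0, k1, k2, k3])
    (R := ![R0, R1, R2, R3]) (P := ![P0, P1, P2, P3]) (N := ![N0, N1, N2, N3]) (ψ := ψ)
    (fun r z => by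
      rw [hk, Finset.sum_insert (by decide), Finset.sum_insert (by decide), Finset.sum_pair e23]
      simp only [Matrix.cons_val]
      ring)
    (fun i _ => hall (p := fun i => ∀ r z, 0 ≤ (![k0, k1, k2, k3] i) r z) h0 h1 h2 h3 i)
    (fun i _ => hall (p := fun i => IsEv h (![k0, k1, k2, k3] i) (fun _ => 0) (fun _ => 0) s
      (![R0, R1, R2, R3] i)) hR0 hR1 hR2 hR3 i)
    (fun i _ => hall (p := fun i => Inf (D ∪ W)ᶜ s (![R0, R1, R2, R3] i) (![P0, P1, P2, P3] i)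
      (![N0, N1, N2, N3] i)) hI0 hI1 hI2 hI3 i)
    hψ0
    (fun F hF => by
      rw [Finset.prod_insert (by decide), Finset.prod_insert (by decide), Finset.prod_pair e23]
      simp only [Matrix.cons_val]
      refine (hψ F hF).trans (le_of_eq ?_)
      ring)
    hκd hκs
    (fun r hr => by
      refine le_trans (le_of_eq ?_) (hκ r hr)
      unfold kupR
      congr 1
      refine Finset.sum_congr rfl fun c _ => Finset.sum_congr rfl fun d _ => ?_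
      rw [GUp_four e01 e02 e03 e12 e13 e23]
      rfl)
  refine key.trans (le_of_eq ?_)
  rw [Finset.prod_insert (by decide), Finset.prod_insert (by decide), Finset.prod_pair e23]
  simp only [Matrix.cons_val]
  ring

/-- three groups -/
theorem ex_le_grp3 (hh : Haz h H) {D W : Finset V}
    (hWD : Disjoint D W) {s : ℝ} (hs : s ∈ Icc (0 : ℝ) 1) {k0 k1 k2 : ℝ → V → ℝ}
    (hk : ∀ r z, ∑ w ∈ W, h r w z = k0 r z + k1 r z + k2 r z)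
    (h0 : ∀ r z, 0 ≤ k0 r z) (h1 : ∀ r z, 0 ≤ k1 r z) (h2 : ∀ r z, 0 ≤ k2 r z)
    {R0 R1 R2 : Finset V → ℝ → ℝ} {P0 N0 P1 N1 P2 N2 : V → ℝ → ℝ} {ψ : Finset V → ℝ}
    (hR0 : IsEv h k0 (fun _ => 0) (fun _ => 0) s R0)
    (hR1 : IsEv h k1 (fun _ => 0) (fun _ => 0) s R1)
    (hR2 : IsEv h k2 (fun _ => 0) (fun _ => 0) s R2)
    (hI0 : Inf (D ∪ W)ᶜ s R0 P0 N0) (hI1 : Inf (D ∪ W)ᶜ s R1 P1 N1)
    (hI2 : Inf (D ∪ W)ᶜ s R2 P2 N2)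
    (hψ0 : ∀ F, 0 ≤ ψ F) (hψ : ∀ F ⊆ (D ∪ W)ᶜ, ψ F ≤ R0 F s * R1 F s * R2 F s)
    {κ κ' : ℝ → ℝ} (hκd : ∀ r ∈ Icc 0 s, HasDerivAt κ (κ' r) r) (hκs : 0 ≤ κ s)
    (hκ : ∀ r ∈ Icc 0 s, (1 / 2) * ∑ a ∈ (D ∪ W)ᶜ, ∑ b ∈ (D ∪ W)ᶜ,
      h r a b * (((1 + P0 a r) * (1 + P0 b r) - 1) * ((1 + P1 a r) * (1 + P1 b r) - 1)
        + ((1 + P0 a r) * (1 + P0 b r) - 1) * ((1 + P2 a r) * (1 + P2 b r) - 1)
        + ((1 + P1 a r) * (1 + P1 b r) - 1) * ((1 + P2 a r) * (1 + P2 b r) - 1)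
        + ((1 + P0 a r) * (1 + P0 b r) - 1) * ((1 + P1 a r) * (1 + P1 b r) - 1)
          * ((1 + P2 a r) * (1 + P2 b r) - 1)
        + ((N0 a r + N0 b r) * (N1 a r + N1 b r) + (N0 a r + N0 b r) * (N2 a r + N2 b r)
          + (N1 a r + N1 b r) * (N2 a r + N2 b r))) ≤ -κ' r) :
    ex (lw h D s) W ψ ≤ Real.exp (-HW H W s + κ 0) *
      (R0 (D ∪ W)ᶜ 0 * R1 (D ∪ W)ᶜ 0 * R2 (D ∪ W)ᶜ 0) := by
  have e01 : (0 : Fin 3) ≠ 1 := by decide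
  have e02 : (0 : Fin 3) ≠ 2 := by decide
  have e12 : (1 : Fin 3) ≠ 2 := by decide
  have hall : ∀ {p : Fin 3 → Prop}, p 0 → p 1 → p 2 → ∀ i, p i := by
    intro p q0 q1 q2 i
    fin_cases i
    exacts [q0, q1, q2]
  have key := ex_le_grp hh (ι := Fin 3) (I := {0, 1, 2}) hWD hs (k := ![k0, k1, k2])
    (R := ![R0, R1, R2]) (P := ![P0, P1, P2]) (N := ![N0, N1, N2]) (ψ := ψ)
    (fun r z => by
      rw [hk, Finset.sum_insert (by decide), Finset.sum_pair e12]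
      simp only [Matrix.cons_val]
      ring)
    (fun i _ => hall (p := fun i => ∀ r z, 0 ≤ (![k0, k1, k2] i) r z) h0 h1 h2 i)
    (fun i _ => hall (p := fun i => IsEv h (![k0, k1, k2] i) (fun _ => 0) (fun _ => 0) s
      (![R0, R1, R2] i)) hR0 hR1 hR2 i)
    (fun i _ => hall (p := fun i => Inf (D ∪ W)ᶜ s (![R0, R1, R2] i) (![P0, P1, P2] i)
      (![N0, N1, N2] i)) hI0 hI1 hI2 i)
    hψ0
    (fun F hF => by
      rw [Finset.prod_insert (by decide), Finset.prod_pair e12]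
      simp only [Matrix.cons_val]
      refine (hψ F hF).trans (le_of_eq ?_)
      ring)
    hκd hκs
    (fun r hr => by
      refine le_trans (le_of_eq ?_) (hκ r hr)
      unfold kupR
      congr 1
      refine Finset.sum_congr rfl fun c _ => Finset.sum_congr rfl fun d _ => ?_
      rw [GUp_three e01 e02 e12]
      rfl)
  refine key.trans (le_of_eq ?_)
  rw [Finset.prod_insert (by decide), Finset.prod_pair e12]
  simp only [Matrix.cons_val]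
  ring

end Pool.Agent.RCG
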