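import Pool.Agent.RCG.ExP

/-! Expectations of the source and of the two-vertex function together with other targets
(MP_73ccd0_lc, general graphs). -/

namespace Pool.Agent.RCG

open Set Finset Pool.Agent.RCRSHalf

set_option linter.unusedSectionVars false

variable {V : Type*} [Fintype V] [DecidableEq V]
variable {h : ℝ → V → V → ℝ} {H : V → V → ℝ → ℝ}

/-- two groups -/
theorem ex_le_grp2 (hh : Haz h H) {D W : Finset V}
    (hWD : Disjoint D W) {s : ℝ} (hs : s ∈ Icc (0 : ℝ) 1) {k0 k1 : ℝ → V → ℝ}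
    (hk : ∀ r z, ∑ w ∈ W, h r w z = k0 r z + k1 r z)
    (h0 : ∀ r z, 0 ≤ k0 r z) (h1 : ∀ r z, 0 ≤ k1 r z)
    {R0 R1 : Finset V → ℝ → ℝ} {P0 N0 P1 N1 : V → ℝ → ℝ} {ψ : Finset V → ℝ}
    (hR0 : IsEv h k0 (fun _ => 0) (fun _ => 0) s R0)
    (hR1 : IsEv h k1 (fun _ => 0) (fun _ => 0) s R1)
    (hI0 : Inf (D ∪ W)ᶜ s R0 P0 N0) (hI1 : Inf (D ∪ W)ᶜ s R1 P1 N1)
    (hψ0 : ∀ F, 0 ≤ ψ F) (hψ : ∀ F ⊆ (D ∪ W)ᶜ, ψ F ≤ R0 F s * R1 F s)
    {κ κ' : ℝ → ℝ} (hκd : ∀ r ∈ Icc 0 s, HasDerivAt κ (κ' r) r) (hκs : 0 ≤ κ s)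
    (hκ : ∀ r ∈ Icc 0 s, k2R (h r) (D ∪ W)ᶜ (fun a => P0 a r) (fun a => N0 a r)
      (fun a => P1 a r) (fun a => N1 a r) ≤ -κ' r) :
    ex (lw h D s) W ψ ≤ Real.exp (-HW H W s + κ 0) *
      (R0 (D ∪ W)ᶜ 0 * R1 (D ∪ W)ᶜ 0) := by
  have e01 : (0 : Fin 2) ≠ 1 := by decide
  have hall : ∀ {p : Fin 2 → Prop}, p 0 → p 1 → ∀ i, p i := by
    intro p q0 q1 i
    fin_cases i
    exacts [q0, q1]
  have key := ex_le_grp hh (ι := Fin 2) (I := {0, 1}) hWD hs (k := ![k0, k1])
    (R := ![R0, R1]) (P := ![P0, P1]) (N := ![N0, N1]) (ψ := ψ)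
    (fun r z => by
      rw [hk, Finset.sum_pair e01]
      simp only [Matrix.cons_val])
    (fun i _ => hall (p := fun i => ∀ r z, 0 ≤ (![k0, k1] i) r z) h0 h1 i)
    (fun i _ => hall (p := fun i => IsEv h (![k0, k1] i) (fun _ => 0) (fun _ => 0) s
      (![R0, R1] i)) hR0 hR1 i)
    (fun i _ => hall (p := fun i => Inf (D ∪ W)ᶜ s (![R0, R1] i) (![P0, P1] i)
      (![N0, N1] i)) hI0 hI1 i)
    hψ0
    (fun F hF => by
      rw [Finset.prod_pair e01]
      simp only [Matrix.cons_val]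
      exact hψ F hF)
    hκd hκs
    (fun r hr => by
      refine le_trans (le_of_eq ?_) (hκ r hr)
      unfold kupR k2R
      congr 1
      refine Finset.sum_congr rfl fun c _ => Finset.sum_congr rfl fun d _ => ?_
      have h2 : (0 : Fin 2) ∉ ({1} : Finset (Fin 2)) := by decide
      rw [show ({0, 1} : Finset (Fin 2)) = insert 0 {1} from rfl, GUp_insert _ h2]
      simp only [GUp, Finset.prod_singleton, Finset.sum_singleton, Finset.erase_singleton,
        Finset.sum_empty, Matrix.cons_val]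
      ring)
  refine key.trans (le_of_eq ?_)
  rw [Finset.prod_pair e01]
  simp only [Matrix.cons_val]

/-- restarted source function and its expectation -/
theorem src_rst (hh : Haz h H) {u w : V} {t s : ℝ} (ht : t ∈ Icc (0 : ℝ) 1) (hs : s ∈ Icc 0 t)
    {D : Finset V} (hwD : w ∉ D) :
    ∃ Z, IsEv h (fun r a => h r w a) (fun _ => 0) (fun _ => 0) s Z ∧
      (∀ F, Z F s = RCG.src h u w t F s) ∧
      Z (insert w D)ᶜ 0 = Real.exp (H u w s) * zx h H D u w t s := by
  have hs1 : s ∈ Icc (0 : ℝ) 1 := ⟨hs.1, hs.2.trans ht.2⟩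
  have hSw := hh.src u w ht
  obtain ⟨Zt, hZt, hZts⟩ := hh.exists_ev {w} hs1 (fun F => RCG.src h u w t F s)
    (fun F => hSw.ev.nonneg F s hs)
  refine ⟨Zt, by simpa using hZt, hZts, ?_⟩
  have hsub : ({w} : Finset V) ⊆ Dᶜ := by
    rw [Finset.singleton_subset_iff, Finset.mem_compl]; exact hwD
  have e1 := duality2 hh (hh.lw D) hsub hs1 hZt
  have e2 : ex (lw h D s) {w} (fun F => Zt F s)
      = ex (lw h D s) {w} (fun F => RCG.src h u w t F s) := by
    congr 1; funext F; exact hZts F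
  have e3 : HW H {w} s = 0 := by unfold HW; simp [hh.Hdiag]
  have e4 : Dᶜ \ {w} = (insert w D)ᶜ := by
    rw [compl_sdiff_union, Finset.union_comm, ← Finset.insert_eq]
  rw [e2, e3, neg_zero, Real.exp_zero, one_mul, e4] at e1
  unfold zx
  rw [← e1, ← mul_assoc, ← Real.exp_add, add_neg_cancel, Real.exp_zero, one_mul]

/-- restarted two-vertex function and its expectation -/
theorem prf_rst (hh : Haz h H) {v a c : V} (hac : a ≠ c) {t s : ℝ} (ht : t ∈ Icc (0 : ℝ) 1)
    (hs : s ∈ Icc 0 t) {D : Finset V} (haD : a ∉ D) (hcD : c ∉ D) :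
    ∃ Z, IsEv h (fun r b => h r a b + h r c b) (fun _ => 0) (fun _ => 0) s Z ∧
      (∀ F, Z F s = RCG.prf h v a c t F s) ∧
      Real.exp (-H a c s) * Z (D ∪ {a, c})ᶜ 0 = zp h D v a c t s := by
  have hs1 : s ∈ Icc (0 : ℝ) 1 := ⟨hs.1, hs.2.trans ht.2⟩
  have hΩ := hh.prf v a c ht
  obtain ⟨Z, hZ, hZs⟩ := hh.exists_ev {a, c} hs1 (fun F => RCG.prf h v a c t F s)
    (fun F => hΩ.ev.nonneg F s hs)
  have e0 : ∀ r b, ∑ w ∈ ({a, c} : Finset V), h r w b = h r a b + h r c b := fun r b =>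
    Finset.sum_pair hac
  refine ⟨Z, hZ.congr_k e0, hZs, ?_⟩
  have hsub : ({a, c} : Finset V) ⊆ Dᶜ := by
    intro z hz
    simp only [Finset.mem_insert, Finset.mem_singleton] at hz
    rw [Finset.mem_compl]
    rcases hz with rfl | rfl
    · exact haD
    · exact hcD
  have e1 := duality2 hh (hh.lw D) hsub hs1 hZ
  have e2 : ex (lw h D s) {a, c} (fun F => Z F s)
      = ex (lw h D s) {a, c} (fun F => RCG.prf h v a c t F s) := by
    congr 1; funext F; exact hZs F
  rw [e2, HW_pair hh hac, compl_sdiff_union] at e1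
  unfold zp
  rw [e1]

/-- the expectation of the source function of `c` on the event that `a` and `c` are free -/
theorem pair_src_le (hh : Haz h H) {v a c : V} (hac : a ≠ c) {D : Finset V} (haD : a ∉ D)
    (hcD : c ∉ D) {t : ℝ} (ht : t ∈ Icc (0 : ℝ) 1) {s : ℝ} (hs : s ∈ Icc 0 t)
    {Pa Na Pc Nc : V → ℝ → ℝ} (hIa : Inf (D ∪ {a, c})ᶜ s (RCG.tgt h a s) Pa Na)
    (hCc : Clo h c (D ∪ {a, c})ᶜ t Pc Nc)
    {κ κ' : ℝ → ℝ} (hκd : ∀ r ∈ Icc 0 s, HasDerivAt κ (κ' r) r) (hκs : 0 ≤ κ s)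
    (hκ : ∀ r ∈ Icc 0 s, k2R (h r) (D ∪ {a, c})ᶜ (fun z => Pa z r) (fun z => Na z r)
      (fun z => Pc z r) (fun z => Nc z r) ≤ -κ' r) :
    ex (lw h D s) {a, c} (fun F => RCG.src h v c t F s)
      ≤ Real.exp (-H a c s + κ 0) *
        (bb h (insert c D) a s * (Real.exp (H v c s) * zx h H (insert a D) v c t s)) := by
  have hs1 : s ∈ Icc (0 : ℝ) 1 := ⟨hs.1, hs.2.trans ht.2⟩
  have hTa := hh.tgt a hs1
  have hSc := hh.src v c ht
  have hdis : Disjoint D {a, c} := by
    rw [Finset.disjoint_left]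
    intro z hz hz'
    simp only [Finset.mem_insert, Finset.mem_singleton] at hz'
    rcases hz' with rfl | rfl
    · exact haD hz
    · exact hcD hz
  obtain ⟨Z, hZ, hZs, hZ0⟩ := src_rst hh (u := v) (w := c) ht hs (D := insert a D)
    (by simp [hac.symm, hcD])
  have key := ex_le_grp2 hh hdis hs1 (k0 := fun r z => h r a z) (k1 := fun r z => h r c z)
    (fun r z => Finset.sum_pair hac) (fun r z => hh.nonneg _ _ _) (fun r z => hh.nonneg _ _ _)
    hTa.ev hZ hIa (hCc.src_restart hh ht hs hZ hZs)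
    (ψ := fun F => RCG.src h v c t F s) (fun F => hSc.ev.nonneg F s hs)
    (fun F _ => by rw [hTa.end_, hZs, one_mul]) hκd hκs hκ
  refine key.trans (le_of_eq ?_)
  have e1 : (D ∪ {a, c})ᶜ = (insert a (insert c D))ᶜ := by
    congr 1; ext z; simp only [Finset.mem_union, Finset.mem_insert, Finset.mem_singleton]; tauto
  have e2 : (D ∪ {a, c})ᶜ = (insert c (insert a D))ᶜ := by
    congr 1; ext z; simp only [Finset.mem_union, Finset.mem_insert, Finset.mem_singleton]; tauto
  rw [HW_pair hh hac, bb_eq hh (D := insert c D) (u := a) (by simp [hac, haD]) hs1, ← e1, ← hZ0,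
    ← e2]

/-- the pairs inside five vertices -/
theorem HW_five (hh : Haz h H) {u v b a c : V} (huv : u ≠ v) (hub : u ≠ b) (hua : u ≠ a)
    (huc : u ≠ c) (hvb : v ≠ b) (hva : v ≠ a) (hvc : v ≠ c) (hba : b ≠ a) (hbc : b ≠ c)
    (hac : a ≠ c) (s : ℝ) :
    HW H {u, v, b, a, c} s = H u v s + H u b s + H u a s + H u c s + H v b s + H v a s + H v c s
      + H b a s + H b c s + H a c s := by
  unfold HW
  have h1 : u ∉ ({v, b, a, c} : Finset V) := by simp [huv, hub, hua, huc]
  have h2 : v ∉ ({b, a, c} : Finset V) := by simp [hvb, hva, hvc]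
  have h3 : b ∉ ({a, c} : Finset V) := by simp [hba, hbc]
  have e : ∀ x, ∑ d ∈ ({u, v, b, a, c} : Finset V), H x d s
      = H x u s + H x v s + H x b s + H x a s + H x c s := fun x => by
    rw [Finset.sum_insert h1, Finset.sum_insert h2, Finset.sum_insert h3, Finset.sum_pair hac]
    ring
  rw [Finset.sum_insert h1, Finset.sum_insert h2, Finset.sum_insert h3, Finset.sum_pair hac,
    e, e, e, e, e, hh.Hdiag, hh.Hdiag, hh.Hdiag, hh.Hdiag, hh.Hdiag, hh.Hsymm v u s,
    hh.Hsymm b u s, hh.Hsymm b v s, hh.Hsymm a u s, hh.Hsymm a v s, hh.Hsymm a b s,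
    hh.Hsymm c u s, hh.Hsymm c v s, hh.Hsymm c b s, hh.Hsymm c a s]
  ring

/-- expectation of the target function of `u` with the additional free vertex `c` -/
noncomputable def px (h : ℝ → V → V → ℝ) (D : Finset V) (u c : V) (t s : ℝ) : ℝ :=
  ex (lw h D s) {u} (fun F => RCG.tgt h u t (insert c F) s)

/-- derivative bound for `px` -/
theorem px_deriv (hh : Haz h H) {D : Finset V} {u c : V} {t : ℝ}
    (ht : t ∈ Icc (0 : ℝ) 1) {s : ℝ} (hs : s ∈ Icc 0 t) (hcD : c ∈ D) :
    HasDerivAt (px h D u c t) (ex (lw h D s) {u} (fun F => h s u c * RCG.tgt h u t (insert c F) s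
      + ∑ d ∈ F, h s c d * (RCG.tgt h u t (insert c F) s - RCG.tgt h u t (F.erase d) s))) s := by
  have hs1 : s ∈ Icc (0 : ℝ) 1 := ⟨hs.1, hs.2.trans ht.2⟩
  have hμ := hh.lw D
  have hR := hh.tgt u ht
  set R := RCG.tgt h u t with hRdef
  have h1 := hμ.deriv_sum
    (φ := fun s F => if ({u} : Finset V) ⊆ F then R (insert c (F \ {u})) s else 0)
    (φ' := fun s F => if ({u} : Finset V) ⊆ F then
      (-(gen (h s) (fun G => R G s) (insert c (F \ {u}))
        - (∑ b ∈ insert c (F \ {u}), h s u b) * R (insert c (F \ {u})) s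
        - 0 * R (insert c (F \ {u})) s + 0)) else 0)
    (t := s) hs1
    (fun F => by
      by_cases hF : ({u} : Finset V) ⊆ F
      · simp only [if_pos hF]
        exact hR.ev.deriv _ s hs
      · simp only [if_neg hF]
        exact hasDerivAt_const _ _)
  have e0 : px h D u c t = fun s => ∑ F : Finset V, lw h D s F *
      (if ({u} : Finset V) ⊆ F then R (insert c (F \ {u})) s else 0) := rfl
  rw [e0]
  refine h1.congr_deriv ?_
  unfold ex
  refine Finset.sum_congr rfl fun F _ => ?_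
  by_cases h0 : lw h D s F = 0
  · rw [h0, zero_mul, zero_mul]
  congr 1
  have hFD := lw_support hh D hs1 h0
  have hcF : c ∉ F := fun hc => (Finset.mem_compl.1 (hFD hc)) hcD
  have hcG : c ∉ F \ {u} := fun hc => hcF (Finset.mem_sdiff.1 hc).1
  by_cases hF : ({u} : Finset V) ⊆ F
  · have e2 := gen_super (h s) (hh.symm s) {u} F hF (fun G => R (insert c G) s)
    have e3 := gen_insert (h s) (hh.symm s) (hh.diag s) (fun G => R G s) hcG
    have e4 : gen (h s) (fun G => R (insert c G) s) (F \ {u}) = (1 / 2) * ∑ b ∈ F \ {u},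
        ∑ d ∈ F \ {u}, h s b d * (R (insert c (((F \ {u}).erase b).erase d)) s
          - R (insert c (F \ {u})) s) := rfl
    rw [e2, if_pos hF, if_pos hF, e3, e4, Finset.sum_insert hcG]
    simp only [Finset.sum_singleton, hh.diag]
    have e5 : ∑ d ∈ F \ {u}, h s c d * (R (insert c (F \ {u})) s - R ((F \ {u}).erase d) s)
        = -∑ d ∈ F \ {u}, h s c d * (R ((F \ {u}).erase d) s - R (insert c (F \ {u})) s) := by
      rw [← Finset.sum_neg_distrib]
      exact Finset.sum_congr rfl fun d _ => by ring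
    rw [e5]
    ring
  · rw [if_neg hF, if_neg hF]
    have : gen (h s) (fun G => if ({u} : Finset V) ⊆ G then
        R (insert c (G \ {u})) s else 0) F = gen (h s) (fun _ => 0) F := by
      refine gen_congr fun G hG => ?_
      rw [if_neg (fun hh => hF (hh.trans hG))]
    rw [this, gen_const, add_zero]

theorem px_zero (hh : Haz h H) {D : Finset V} {u c : V} (huD : u ∉ D) (hcD : c ∉ D) (huc : u ≠ c)
    {t : ℝ} (ht : t ∈ Icc (0 : ℝ) 1) : px h (insert c D) u c t 0 = bb h D u t := by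
  rw [bb_eq hh huD ht]
  unfold px ex
  have e : ∀ F, lw h (insert c D) 0 F = pt (insert c D)ᶜ F := fun F => by rw [(hh.lw _).start]
  simp only [e, pt, ite_mul, one_mul, zero_mul, Finset.sum_ite_eq', Finset.mem_univ, if_true]
  have hu : ({u} : Finset V) ⊆ (insert c D)ᶜ := by
    rw [Finset.singleton_subset_iff, Finset.mem_compl, Finset.mem_insert]
    rintro (h | h)
    · exact huc h
    · exact huD h
  rw [if_pos hu]
  have e2 : insert c ((insert c D)ᶜ \ {u}) = (insert u D)ᶜ := by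
    ext z
    simp only [Finset.mem_insert, Finset.mem_sdiff, Finset.mem_compl, Finset.mem_singleton]
    constructor
    · rintro (rfl | ⟨h1, h2⟩)
      · rintro (h | h)
        · exact huc h.symm
        · exact hcD h
      · tauto
    · intro h1
      by_cases hz : z = c
      · left; exact hz
      · right; tauto
  rw [e2]

/-- bound for `px`: the vertex `c` is kept present -/
theorem px_le (hh : Haz h H) {D : Finset V} {u c : V} (huD : u ∉ D) (hcD : c ∉ D) (huc : u ≠ c)
    {t : ℝ} (ht : t ∈ Icc (0 : ℝ) 1) {H0 : Finset V} (hH0 : (insert u D)ᶜ ⊆ H0)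
    {P N : V → ℝ → ℝ} (hI : Inf H0 t (RCG.tgt h u t) P N) {n n' : ℝ → ℝ}
    (hn : ∀ s ∈ Icc 0 t, HasDerivAt n (n' s) s) (hn0 : n 0 = 0)
    (hn' : ∀ s ∈ Icc 0 t, ∑ d ∈ (insert u (insert c D))ᶜ, h s c d * (N c s + N d s) ≤ n' s) :
    ∀ s ∈ Icc 0 t, px h (insert c D) u c t s ≤ bb h D u t * Real.exp (H u c s + n s) := by
  intro s hs
  have hR := hh.tgt u ht
  have key := nonneg_of_forward
    (U := fun s => bb h D u t - px h (insert c D) u c t s * Real.exp (-(H u c s + n s)))
    (U' := fun s => -((ex (lw h (insert c D) s) {u} (fun F => h s u c *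
      RCG.tgt h u t (insert c F) s + ∑ d ∈ F, h s c d * (RCG.tgt h u t (insert c F) s
        - RCG.tgt h u t (F.erase d) s))) * Real.exp (-(H u c s + n s))
      + px h (insert c D) u c t s * (Real.exp (-(H u c s + n s)) * (-(h s u c + n' s)))))
    (a := 0) (s := t) (fun s hs => by
      have h1 := (px_deriv hh (u := u) ht hs (Finset.mem_insert_self c D)).mul
        (((hh.Hd u c s).add (hn s hs)).neg.exp)
      exact h1.const_sub (bb h D u t))
    (by
      rw [px_zero hh huD hcD huc ht, hh.H0, hn0]; simp) (fun s hs _ => ?_) s hs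
  · have h1 : Real.exp (-(H u c s + n s)) * Real.exp (H u c s + n s) = 1 := by
      rw [← Real.exp_add, neg_add_cancel, Real.exp_zero]
    have h2 := mul_le_mul_of_nonneg_right (by linarith [key] :
      px h (insert c D) u c t s * Real.exp (-(H u c s + n s)) ≤ bb h D u t)
      (Real.exp_pos (H u c s + n s)).le
    rw [mul_assoc, h1, mul_one] at h2
    exact h2
  · have hs1 : s ∈ Icc (0 : ℝ) 1 := ⟨hs.1, hs.2.trans ht.2⟩
    have h3 : ex (lw h (insert c D) s) {u} (fun F => h s u c * RCG.tgt h u t (insert c F) s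
        + ∑ d ∈ F, h s c d * (RCG.tgt h u t (insert c F) s - RCG.tgt h u t (F.erase d) s))
        ≤ (h s u c + n' s) * px h (insert c D) u c t s := by
      unfold px
      rw [← ex_smul]
      refine ex_mono (fun F => (hh.lw _).nonneg F s hs1) fun F hF h0 => ?_
      have hFD := lw_support hh _ hs1 h0
      set G := F \ {u} with hG
      have hGs : G ⊆ (insert u (insert c D))ᶜ := by
        intro z hz
        have h5 := Finset.mem_sdiff.1 hz
        have h6 := Finset.mem_compl.1 (hFD h5.1)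
        rw [Finset.mem_compl, Finset.mem_insert]
        rintro (h | h)
        · exact h5.2 (by rw [h]; simp)
        · exact h6 h
      have hcG : c ∉ G := fun hc => by
        have := Finset.mem_compl.1 (hGs hc)
        exact this (by simp)
      have hiG : insert c G ⊆ H0 := by
        refine Finset.Subset.trans ?_ hH0
        intro z hz
        rw [Finset.mem_compl, Finset.mem_insert]
        rcases Finset.mem_insert.1 hz with rfl | hz
        · rintro (h | h)
          · exact huc h.symm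
          · exact hcD h
        · have := Finset.mem_compl.1 (hGs hz)
          rintro (h | h)
          · exact this (by rw [h]; simp)
          · exact this (by simp [h])
      have hR0 : 0 ≤ RCG.tgt h u t (insert c G) s := hR.ev.nonneg _ s hs
      have h7 : ∑ d ∈ G, h s c d * (RCG.tgt h u t (insert c G) s - RCG.tgt h u t (G.erase d) s)
          ≤ (∑ d ∈ G, h s c d * (N c s + N d s)) * RCG.tgt h u t (insert c G) s := by
        rw [Finset.sum_mul]
        refine Finset.sum_le_sum fun d hd => ?_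
        have hcd : c ≠ d := fun e => hcG (e ▸ hd)
        have h8 := (hI.pair hiG (Finset.mem_insert_self c G) (Finset.mem_insert_of_mem hd) hcd hs
          hR0).2
        rw [Finset.erase_insert hcG] at h8
        have h9 := mul_le_mul_of_nonneg_left h8 (hh.nonneg s c d)
        linarith
      have h10 : ∑ d ∈ G, h s c d * (N c s + N d s) ≤ n' s := by
        refine le_trans ?_ (hn' s hs)
        refine Finset.sum_le_sum_of_subset_of_nonneg hGs fun d hd _ => ?_
        have hdH : d ∈ H0 := by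
          refine hH0 ?_
          have := Finset.mem_compl.1 hd
          rw [Finset.mem_compl, Finset.mem_insert]
          rintro (h | h)
          · exact this (by rw [h]; simp)
          · exact this (by simp [h])
        exact mul_nonneg (hh.nonneg _ _ _)
          (add_nonneg (hI.N0 c (hiG (Finset.mem_insert_self c G)) s hs) (hI.N0 d hdH s hs))
      have h11 := mul_le_mul_of_nonneg_right h10 hR0
      linarith
    have h4 := mul_le_mul_of_nonneg_right h3 (Real.exp_pos (-(H u c s + n s))).le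
    linarith

/-- restarted target function with the additional vertex `c` -/
theorem px_rst (hh : Haz h H) {u c : V} {t s : ℝ} (ht : t ∈ Icc (0 : ℝ) 1) (hs : s ∈ Icc 0 t)
    {D : Finset V} (huD : u ∉ D) {H0 H1 : Finset V} (hH : insert c H1 ⊆ H0) (hc1 : c ∉ H1)
    {P N : V → ℝ → ℝ} (hC : Clo h u H0 t P N) :
    ∃ Z, IsEv h (fun r a => h r u a) (fun _ => 0) (fun _ => 0) s Z ∧
      (∀ F, Z F s = RCG.tgt h u t (insert c F) s) ∧
      Z (insert u D)ᶜ 0 = px h D u c t s ∧ Inf H1 s Z P N := by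
  have hs1 : s ∈ Icc (0 : ℝ) 1 := ⟨hs.1, hs.2.trans ht.2⟩
  have hR := hh.tgt u ht
  obtain ⟨Z, hZ, hZs⟩ := hh.exists_ev {u} hs1 (fun F => RCG.tgt h u t (insert c F) s)
    (fun F => hR.ev.nonneg _ s hs)
  have hZ' : IsEv h (fun r a => h r u a) (fun _ => 0) (fun _ => 0) s Z := by simpa using hZ
  have hI := hC.tgt hh ht
  refine ⟨Z, hZ', hZs, ?_, ?_⟩
  · have hsub : ({u} : Finset V) ⊆ Dᶜ := by
      rw [Finset.singleton_subset_iff, Finset.mem_compl]; exact huD
    have e1 := duality2 hh (hh.lw D) hsub hs1 hZ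
    have e2 : ex (lw h D s) {u} (fun F => Z F s) = px h D u c t s := by
      unfold px
      congr 1; funext F; exact hZs F
    have e3 : HW H {u} s = 0 := by unfold HW; simp [hh.Hdiag]
    have e4 : Dᶜ \ {u} = (insert u D)ᶜ := by
      rw [compl_sdiff_union, Finset.union_comm, ← Finset.insert_eq]
    rw [e2, e3, neg_zero, Real.exp_zero, one_mul, e4] at e1
    exact e1.symm
  · have hH1 : H1 ⊆ H0 := (Finset.subset_insert _ _).trans hH
    have hC1 : Clo h u H1 t P N := by
      refine ⟨fun a ha => hC.P0 a (hH1 ha), fun a ha => hC.N0 a (hH1 ha),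
        fun a ha => hC.N1 a (hH1 ha), fun a ha r hr => ?_, fun a ha r hr => ?_⟩
      · obtain ⟨P', h1, h2⟩ := hC.Pd a (hH1 ha) r hr
        refine ⟨P', h1, le_trans ?_ h2⟩
        refine mul_le_mul_of_nonneg_left ?_ (by linarith [hC.P0 a (hH1 ha) r hr])
        have : ∑ b ∈ H1, h r a b * N b r ≤ ∑ b ∈ H0, h r a b * N b r :=
          Finset.sum_le_sum_of_subset_of_nonneg hH1 fun b hb _ =>
            mul_nonneg (hh.nonneg _ _ _) (hC.N0 b hb r hr)
        linarith
      · obtain ⟨N', h1, h2⟩ := hC.Nd a (hH1 ha) r hr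
        refine ⟨N', h1, le_trans ?_ h2⟩
        exact Finset.sum_le_sum_of_subset_of_nonneg hH1 fun b hb _ =>
            mul_nonneg (hh.nonneg _ _ _) (hC.P0 b hb r hr)
    refine hC1.inf hh hs.2 (fun _ => le_rfl) (fun _ => le_rfl) hZ' (fun G hG b hb => ?_)
      (fun G hG b hb => ?_)
    · rw [hZs, hZs]
      have hbc : b ≠ c := fun e => hc1 (hG (e ▸ hb))
      have h1 := hI.up (insert c G) ((Finset.insert_subset_insert c hG).trans hH) b
        (Finset.mem_insert_of_mem hb) s hs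
      rwa [Finset.erase_insert_of_ne hbc.symm] at h1
    · rw [hZs, hZs]
      have hbc : b ≠ c := fun e => hc1 (hG (e ▸ hb))
      have h1 := hI.lo (insert c G) ((Finset.insert_subset_insert c hG).trans hH) b
        (Finset.mem_insert_of_mem hb) s hs
      rwa [Finset.erase_insert_of_ne hbc.symm] at h1

/-- comparison for the targets `u` (with `c` present after `s`), `v` (horizon `t`), `b`
(horizon `s`) and the two-vertex function of `a` and `c` -/
theorem ex_five_le (hh : Haz h H) {u v b a c : V} (huv : u ≠ v) (hub : u ≠ b) (hua : u ≠ a)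
    (huc : u ≠ c) (hvb : v ≠ b) (hva : v ≠ a) (hvc : v ≠ c) (hba : b ≠ a) (hbc : b ≠ c)
    (hac : a ≠ c) {t s : ℝ} (ht : t ∈ Icc (0 : ℝ) 1) (hs : s ∈ Icc 0 t)
    {Pu Nu Pv Nv Pb Nb Pp Np : V → ℝ → ℝ}
    (hCu : Clo h u ({u, v, b, a} : Finset V)ᶜ t Pu Nu)
    (hIv : Inf ({u, v, b, a, c} : Finset V)ᶜ s (RCG.tgt h v t) Pv Nv)
    (hIb : Inf ({u, v, b, a, c} : Finset V)ᶜ s (RCG.tgt h b s) Pb Nb)
    (hCp : CloK h (fun r z => h r a z + h r c z) ({u, v, b, a, c} : Finset V)ᶜ t Pp Np)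
    {κ κ' : ℝ → ℝ} (hκd : ∀ r ∈ Icc 0 s, HasDerivAt κ (κ' r) r) (hκs : 0 ≤ κ s)
    (hκ : ∀ r ∈ Icc 0 s, (1 / 2) * ∑ d ∈ ({u, v, b, a, c} : Finset V)ᶜ,
      ∑ e ∈ ({u, v, b, a, c} : Finset V)ᶜ, h r d e *
        gu4 (pq Pu d e r) (pq Pv d e r) (pq Pb d e r) (pq Pp d e r)
          (nq Nu d e r) (nq Nv d e r) (nq Nb d e r) (nq Np d e r) ≤ -κ' r) :
    ex (lw h ∅ s) {u, v, b, a, c}
        (fun F => RCG.tgt h u t (insert c F) s * RCG.tgt h v t F s * RCG.prf h v a c t F s)
      ≤ Real.exp (-(H u v s + H u b s + H u a s + H u c s + H v b s + H v a s + H v c s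
          + H b a s + H b c s) + κ 0) *
        (px h {v, b, a, c} u c t s * bb h {u, b, a, c} v t * bb h {u, v, a, c} b s *
          zp h {u, v, b} v a c t s) := by
  have hs1 : s ∈ Icc (0 : ℝ) 1 := ⟨hs.1, hs.2.trans ht.2⟩
  have hTu := hh.tgt u ht
  have hTv := hh.tgt v ht
  have hTb := hh.tgt b hs1
  have hΩ := hh.prf v a c ht
  have h1 : u ∉ ({v, b, a, c} : Finset V) := by simp [huv, hub, hua, huc]
  have h2 : v ∉ ({b, a, c} : Finset V) := by simp [hvb, hva, hvc]
  have h3 : b ∉ ({a, c} : Finset V) := by simp [hba, hbc]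
  obtain ⟨Z, hZ, hZs, hZ0⟩ := prf_rst hh (v := v) hac ht hs (D := {u, v, b})
    (by simp [hua.symm, hva.symm, hba.symm]) (by simp [huc.symm, hvc.symm, hbc.symm])
  have eD : (∅ : Finset V) ∪ {u, v, b, a, c} = {u, v, b, a, c} := Finset.empty_union _
  have e10 : ({u, v, b, a, c} : Finset V)ᶜ = (insert u {v, b, a, c})ᶜ := rfl
  have hsubU : insert c ({u, v, b, a, c} : Finset V)ᶜ ⊆ ({u, v, b, a} : Finset V)ᶜ := by
    intro z hz
    simp only [Finset.mem_insert, Finset.mem_compl, Finset.mem_singleton, not_or] at hz ⊢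
    rcases hz with rfl | hz
    · exact ⟨huc.symm, hvc.symm, hbc.symm, hac.symm⟩
    · exact ⟨hz.1, hz.2.1, hz.2.2.1, hz.2.2.2.1⟩
  obtain ⟨U, hU, hUs, hU0, hUI⟩ := px_rst hh (u := u) (c := c) ht hs (D := {v, b, a, c}) h1
    hsubU (by simp) hCu
  have key := ex_le_grp4 hh (D := ∅) (W := {u, v, b, a, c}) (Finset.disjoint_empty_left _) hs1
    (k0 := fun r z => h r u z) (k1 := fun r z => h r v z) (k2 := fun r z => h r b z)
    (k3 := fun r z => h r a z + h r c z)
    (fun r z => by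
      rw [Finset.sum_insert h1, Finset.sum_insert h2, Finset.sum_insert h3, Finset.sum_pair hac]
      ring)
    (fun r z => hh.nonneg _ _ _) (fun r z => hh.nonneg _ _ _) (fun r z => hh.nonneg _ _ _)
    (fun r z => add_nonneg (hh.nonneg _ _ _) (hh.nonneg _ _ _))
    hU (hTv.ev.mono hs.2) hTb.ev hZ
    (by rw [eD]; exact hUI) (by rw [eD]; exact hIv) (by rw [eD]; exact hIb)
    (by rw [eD]; exact hCp.prf_restart hh ht hs hZ hZs)
    (ψ := fun F => RCG.tgt h u t (insert c F) s * RCG.tgt h v t F s * RCG.prf h v a c t F s)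
    (fun F => mul_nonneg (mul_nonneg (hTu.ev.nonneg _ s hs) (hTv.ev.nonneg F s hs))
      (hΩ.ev.nonneg F s hs))
    (fun F _ => by rw [hTb.end_, hZs, hUs, mul_one])
    hκd hκs (by rw [eD]; exact hκ)
  refine key.trans (le_of_eq ?_)
  rw [eD, HW_five hh huv hub hua huc hvb hva hvc hba hbc hac, e10, hU0, ← e10]
  have e6 : bb h {u, b, a, c} v t = RCG.tgt h v t ({u, v, b, a, c} : Finset V)ᶜ 0 := by
    rw [bb_eq hh (D := {u, b, a, c}) (u := v) (by simp [huv.symm, hvb, hva, hvc]) ht]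
    congr 2
    exact Finset.insert_comm v u {b, a, c}
  have e7 : bb h {u, v, a, c} b s = RCG.tgt h b s ({u, v, b, a, c} : Finset V)ᶜ 0 := by
    rw [bb_eq hh (D := {u, v, a, c}) (u := b) (by simp [hub.symm, hvb.symm, hba, hbc]) hs1]
    congr 2
    ext z
    simp only [Finset.mem_insert, Finset.mem_singleton]
    tauto
  have e8 : ({u, v, b} ∪ {a, c} : Finset V)ᶜ = ({u, v, b, a, c} : Finset V)ᶜ := by
    congr 1
    ext z
    simp only [Finset.mem_union, Finset.mem_insert, Finset.mem_singleton]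
    tauto
  rw [e8] at hZ0
  rw [← hZ0, e6, e7]
  have e9 : Real.exp (-(H u v s + H u b s + H u a s + H u c s + H v b s + H v a s + H v c s
      + H b a s + H b c s + H a c s) + κ 0)
      = Real.exp (-(H u v s + H u b s + H u a s + H u c s + H v b s + H v a s + H v c s
      + H b a s + H b c s) + κ 0) * Real.exp (-H a c s) := by
    rw [← Real.exp_add]; congr 1; ring
  rw [e9]
  ring

end Pool.Agent.RCG
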