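import Pool.Agent.RCG.ExQ

/-! Flux-level bound for the negative influence of a pair (MP_73ccd0_lc, general graphs). -/

namespace Pool.Agent.RCG

open Set Finset Pool.Agent.RCRSHalf

set_option linter.unusedSectionVars false

variable {V : Type*} [Fintype V] [DecidableEq V]
variable {h : ℝ → V → V → ℝ} {H : V → V → ℝ → ℝ}

/-- upper bound for the negative influence of `a` on the target `v` -/
noncomputable def bn (h : ℝ → V → V → ℝ) (v a : V) (t : ℝ) (κ y : V → ℝ → ℝ) (F : Finset V)
    (r : ℝ) : ℝ :=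
  ∑ c ∈ F, RCG.tgt h v t (F.erase c) r *
    (Real.exp (κ c r) * RCG.prf h v a c t (F.erase c) r + y c r)

/-- source term -/
noncomputable def sg (h : ℝ → V → V → ℝ) (v a : V) (t : ℝ) (κ Y : V → ℝ → ℝ) (F : Finset V)
    (r : ℝ) : ℝ :=
  ∑ c ∈ F, h r a c * (RCG.tgt h v t (F.erase c) r *
    (Real.exp (κ c r) * RCG.src h v c t (F.erase c) r + Y c r))

/-- data for the bound of the negative influence of `a` on the target `v` -/
structure BDat (h : ℝ → V → V → ℝ) (v a : V) (t : ℝ) (H0 : Finset V) (Pv Nv : V → ℝ → ℝ)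
    (P N : V → V → ℝ → ℝ) (κ y Y : V → ℝ → ℝ) : Prop where
  ha : a ∉ H0
  iv : Inf H0 t (RCG.tgt h v t) Pv Nv
  ic : ∀ c ∈ H0, Inf (H0.erase c) t (RCG.prf h v a c t) (P c) (N c)
  kd : ∀ c ∈ H0, ∀ r ∈ Icc 0 t, ∃ κ', HasDerivAt (κ c) κ' r ∧
    k2R (h r) (H0.erase c) (fun b => Pv b r) (fun b => Nv b r)
      (fun b => P c b r) (fun b => N c b r) ≤ -κ'
  yd : ∀ c ∈ H0, ∀ r ∈ Icc 0 t, ∃ y', HasDerivAt (y c) y' r ∧ h r a c * Y c r ≤ -y'
  y0 : ∀ c ∈ H0, ∀ r ∈ Icc 0 t, 0 ≤ y c r
  Y0 : ∀ c ∈ H0, ∀ r ∈ Icc 0 t, 0 ≤ Y c r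
  xi : ∀ c ∈ H0, ∀ G ⊆ H0.erase c, ∀ r ∈ Icc 0 t,
      RCG.tgt h v t G r - RCG.tgt h v t (insert c G) r
        ≤ RCG.tgt h v t G r * (Real.exp (κ c r) * RCG.src h v c t G r + Y c r)

section

variable {v a : V} {t : ℝ} {H0 : Finset V} {Pv Nv : V → ℝ → ℝ} {P N : V → V → ℝ → ℝ}
  {κ y Y : V → ℝ → ℝ}

theorem BDat.nonneg (hh : Haz h H) (ht : t ∈ Icc (0 : ℝ) 1)
    (hB : BDat h v a t H0 Pv Nv P N κ y Y) {F : Finset V} (hF : F ⊆ H0) {r : ℝ}
    (hr : r ∈ Icc 0 t) : 0 ≤ bn h v a t κ y F r :=
  Finset.sum_nonneg fun c hc => mul_nonneg ((hh.tgt v ht).ev.nonneg _ r hr)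
    (add_nonneg (mul_nonneg (Real.exp_pos _).le ((hh.prf v a c ht).ev.nonneg _ r hr))
      (hB.y0 c (hF hc) r hr))

theorem BDat.sg_nonneg (hh : Haz h H) (ht : t ∈ Icc (0 : ℝ) 1)
    (hB : BDat h v a t H0 Pv Nv P N κ y Y) {F : Finset V} (hF : F ⊆ H0) {r : ℝ}
    (hr : r ∈ Icc 0 t) : 0 ≤ sg h v a t κ Y F r :=
  Finset.sum_nonneg fun c hc => mul_nonneg (hh.nonneg _ _ _)
    (mul_nonneg ((hh.tgt v ht).ev.nonneg _ r hr)
    (add_nonneg (mul_nonneg (Real.exp_pos _).le ((hh.src v c ht).ev.nonneg _ r hr))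
      (hB.Y0 c (hF hc) r hr)))

/-- the source is at least the one-step influence -/
theorem BDat.sg_le (hh : Haz h H) (hB : BDat h v a t H0 Pv Nv P N κ y Y) {F : Finset V}
    (hF : F ⊆ H0) {r : ℝ} (hr : r ∈ Icc 0 t) :
    ∑ c ∈ F, h r a c * (RCG.tgt h v t (F.erase c) r - RCG.tgt h v t F r)
      ≤ sg h v a t κ Y F r := by
  refine Finset.sum_le_sum fun c hc => mul_le_mul_of_nonneg_left ?_ (hh.nonneg _ _ _)
  have h7 := hB.xi c (hF hc) (F.erase c) (Finset.erase_subset_erase c hF) r hr
  rwa [Finset.insert_erase hc] at h7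

/-- the bound is a supersolution -/
theorem BDat.super (hh : Haz h H) (ht : t ∈ Icc (0 : ℝ) 1)
    (hB : BDat h v a t H0 Pv Nv P N κ y Y) {F : Finset V} (hF : F ⊆ H0) {r : ℝ}
    (hr : r ∈ Icc 0 t) :
    ∃ B', HasDerivAt (bn h v a t κ y F) B' r ∧
      gen (h r) (fun G => bn h v a t κ y G r) F
        - ((∑ b ∈ F, h r v b) + (∑ b ∈ F, h r a b) + h r v a) * bn h v a t κ y F r
        + sg h v a t κ Y F r ≤ -B' := by
  have hR := hh.tgt v ht
  set R := RCG.tgt h v t with hRdef
  have hkd : ∀ c : F, ∃ κ', HasDerivAt (κ c) κ' r ∧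
      k2R (h r) (H0.erase c) (fun b => Pv b r) (fun b => Nv b r)
      (fun b => P c b r) (fun b => N c b r) ≤ -κ' := fun c => hB.kd c (hF c.2) r hr
  have hyd : ∀ c : F, ∃ y', HasDerivAt (y c) y' r ∧ h r a c * Y c r ≤ -y' :=
    fun c => hB.yd c (hF c.2) r hr
  set κ' : V → ℝ := fun c => deriv (κ c) r with hκ'
  set y' : V → ℝ := fun c => deriv (y c) r with hy'
  have hκ1 : ∀ c ∈ F, HasDerivAt (κ c) (κ' c) r := fun c hc => by
    obtain ⟨k, h1, _⟩ := hB.kd c (hF hc) r hr
    simp only [hκ']; rw [h1.deriv]; exact h1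
  have hκ2 : ∀ c ∈ F, k2R (h r) (H0.erase c) (fun b => Pv b r) (fun b => Nv b r)
      (fun b => P c b r) (fun b => N c b r) ≤ -κ' c := fun c hc => by
    obtain ⟨k, h1, h2⟩ := hB.kd c (hF hc) r hr
    simp only [hκ']; rw [h1.deriv]; exact h2
  have hy1 : ∀ c ∈ F, HasDerivAt (y c) (y' c) r := fun c hc => by
    obtain ⟨k, h1, _⟩ := hB.yd c (hF hc) r hr
    simp only [hy']; rw [h1.deriv]; exact h1
  have hy2 : ∀ c ∈ F, h r a c * Y c r ≤ -y' c := fun c hc => by
    obtain ⟨k, h1, h2⟩ := hB.yd c (hF hc) r hr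
    simp only [hy']; rw [h1.deriv]; exact h2
  set dR : Finset V → ℝ := fun G =>
    -(gen (h r) (fun F => R F r) G - (∑ b ∈ G, h r v b) * R G r - 0 * R G r + 0) with hdR
  set dΩ : V → Finset V → ℝ := fun c G =>
    -(gen (h r) (fun F => RCG.prf h v a c t F r) G - (∑ b ∈ G, (h r a b + h r c b)) *
      RCG.prf h v a c t G r - (h r a c + h r v a + h r v c) * RCG.prf h v a c t G r
      + h r a c * RCG.src h v c t G r) with hdΩ
  refine ⟨∑ c ∈ F, (dR (F.erase c) *
          (Real.exp (κ c r) * RCG.prf h v a c t (F.erase c) r + y c r)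
          + R (F.erase c) r * (Real.exp (κ c r) * κ' c * RCG.prf h v a c t (F.erase c) r
            + Real.exp (κ c r) * dΩ c (F.erase c) + y' c)), ?_, ?_⟩
  · unfold bn
    refine HasDerivAt.fun_sum fun c hc => ?_
    exact (hR.ev.deriv (F.erase c) r hr).mul
        ((((hκ1 c hc).exp).mul ((hh.prf v a c ht).ev.deriv (F.erase c) r hr)).add
          (hy1 c hc))
  set W : V → Finset V → ℝ := fun c G => R G r *
      (Real.exp (κ c r) * RCG.prf h v a c t G r + y c r) with hW
  have hR0 : ∀ G, 0 ≤ R G r := fun G => hR.ev.nonneg G r hr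
  have hΩ0 : ∀ c G, 0 ≤ RCG.prf h v a c t G r := fun c G =>
      (hh.prf v a c ht).ev.nonneg G r hr
  have hBe : ∀ G, bn h v a t κ y G r = ∑ c ∈ G, W c (G.erase c) := fun G => rfl
  have hper : ∀ c ∈ F, gen (h r) (W c) (F.erase c)
        - ((∑ b ∈ F.erase c, h r v b) + (∑ b ∈ F.erase c, h r a b) + (∑ b ∈ F.erase c, h r c b)
          + (h r a c + h r v a + h r v c)) * W c (F.erase c) + h r a c * (R (F.erase c) r *
            (Real.exp (κ c r) * RCG.src h v c t (F.erase c) r + Y c r))
        ≤ -(dR (F.erase c) *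
          (Real.exp (κ c r) * RCG.prf h v a c t (F.erase c) r + y c r)
          + R (F.erase c) r * (Real.exp (κ c r) * κ' c * RCG.prf h v a c t (F.erase c) r
            + Real.exp (κ c r) * dΩ c (F.erase c) + y' c)) := by
      intro c hc
      have hcH := hF hc
      have hG : F.erase c ⊆ H0.erase c := Finset.erase_subset_erase c hF
      have hins : insert c (F.erase c) = F := Finset.insert_erase hc
      set G := F.erase c with hGd
      set E := Real.exp (κ c r) with hE
      have hE0 : 0 < E := Real.exp_pos _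
      have h1 := cov_eq (h r) (fun G => R G r) (fun G => E * RCG.prf h v a c t G r + y c r) G
      have h2 : gen (h r) (fun G => E * RCG.prf h v a c t G r + y c r) G
          = E * gen (h r) (fun G => RCG.prf h v a c t G r) G := by
        rw [gen_add (h r) (fun G => E * RCG.prf h v a c t G r) (fun _ => y c r), gen_smul,
          gen_const, add_zero]
      have h3 : cov (h r) (fun G => R G r) (fun G => E * RCG.prf h v a c t G r + y c r) G
          = E * cov (h r) (fun G => R G r) (fun G => RCG.prf h v a c t G r) G := by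
        unfold cov
        rw [mul_left_comm]
        congr 1
        rw [Finset.mul_sum]
        refine Finset.sum_congr rfl fun a _ => ?_
        rw [Finset.mul_sum]
        exact Finset.sum_congr rfl fun b _ => by ring
      have h4 := cov_le hh (hB.iv.mono (Finset.erase_subset c H0) le_rfl) (hB.ic c hcH) hr
        hR0 (hΩ0 c) hG
      have h5 : cov (h r) (fun G => R G r) (fun G => RCG.prf h v a c t G r) G
          ≤ (-κ' c) * (R G r * RCG.prf h v a c t G r) :=
        h4.trans (mul_le_mul_of_nonneg_right (hκ2 c hc) (mul_nonneg (hR0 _) (hΩ0 _ _)))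
      have h6 := mul_le_mul_of_nonneg_left h5 hE0.le
      have h9 := mul_le_mul_of_nonneg_left (hy2 c hc) (hR0 G)
      have hgW : gen (h r) (W c) G
          = E * cov (h r) (fun G => R G r) (fun G => RCG.prf h v a c t G r) G
            + (E * RCG.prf h v a c t G r + y c r) * gen (h r) (fun G => R G r) G
            + R G r * (E * gen (h r) (fun G => RCG.prf h v a c t G r) G) := by
        rw [h3, h2] at h1
        rw [h1]
        ring
      have hsum : ∑ b ∈ G, (h r a b + h r c b) = ∑ b ∈ G, h r a b + ∑ b ∈ G, h r c b :=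
        Finset.sum_add_distrib
      have k1 : 0 ≤ ((∑ b ∈ G, h r a b) + (∑ b ∈ G, h r c b) + (h r a c + h r v a + h r v c))
          * (R G r * y c r) := by
        have q1 : 0 ≤ ∑ b ∈ G, h r a b := Finset.sum_nonneg fun _ _ => hh.nonneg _ _ _
        have q2 : 0 ≤ ∑ b ∈ G, h r c b := Finset.sum_nonneg fun _ _ => hh.nonneg _ _ _
        have q3 := hh.nonneg r a c
        have q4 := hh.nonneg r v a
        have q5 := hh.nonneg r v c
        exact mul_nonneg (by linarith) (mul_nonneg (hR0 _) (hB.y0 c hcH r hr))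
      rw [hgW]
      simp only [hW, hdR, hdΩ, hsum]
      nlinarith [h6, h9, k1]
  have hsumper := Finset.sum_le_sum hper
  rw [Finset.sum_neg_distrib] at hsumper
  have e0 : gen (h r) (fun G => bn h v a t κ y G r) F
      = gen (h r) (fun G => ∑ c ∈ G, W c (G.erase c)) F := rfl
  rw [e0, gen_sumerase (h r) (hh.symm r) (hh.diag r), hBe]
  refine le_trans ?_ hsumper
  have e9 : ∑ c ∈ F, (gen (h r) (W c) (F.erase c)
        - ((∑ b ∈ F.erase c, h r v b) + (∑ b ∈ F.erase c, h r a b) + (∑ b ∈ F.erase c, h r c b)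
          + (h r a c + h r v a + h r v c)) * W c (F.erase c) + h r a c * (R (F.erase c) r *
            (Real.exp (κ c r) * RCG.src h v c t (F.erase c) r + Y c r)))
        = ∑ c ∈ F, (gen (h r) (W c) (F.erase c)
            - (∑ b ∈ F.erase c, h r c b) * W c (F.erase c))
          - ((∑ b ∈ F, h r v b) + (∑ b ∈ F, h r a b) + h r v a) * ∑ c ∈ F, W c (F.erase c)
          + sg h v a t κ Y F r := by
    unfold sg
    rw [Finset.mul_sum, ← Finset.sum_sub_distrib, ← Finset.sum_add_distrib]
    refine Finset.sum_congr rfl fun c hc => ?_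
    have q2 : (∑ b ∈ F.erase c, h r a b) + h r a c = ∑ b ∈ F, h r a b :=
        Finset.sum_erase_add F _ hc
    have q3 : (∑ b ∈ F.erase c, h r v b) + h r v c = ∑ b ∈ F, h r v b :=
        Finset.sum_erase_add F _ hc
    rw [← q2, ← q3]
    ring
  rw [e9]

/-- flux-level bound for the negative influence of one vertex -/
theorem BDat.le (hh : Haz h H) (ht : t ∈ Icc (0 : ℝ) 1) (hB : BDat h v a t H0 Pv Nv P N κ y Y) :
    ∀ F ⊆ H0, ∀ r ∈ Icc 0 t,
      RCG.tgt h v t (insert a F) r - RCG.tgt h v t F r ≤ bn h v a t κ y F r := by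
  have hR := hh.tgt v ht
  set R := RCG.tgt h v t with hRdef
  intro F
  induction hn : F.card using Nat.strong_induction_on generalizing F with
  | _ n ih =>
  intro hF
  have haF : a ∉ F := fun hh => hB.ha (hF hh)
  set dR : Finset V → ℝ → ℝ := fun G r =>
    -(gen (h r) (fun F => R F r) G - (∑ b ∈ G, h r v b) * R G r - 0 * R G r + 0) with hdR
  have hdA : ∀ r ∈ Icc 0 t, HasDerivAt (bn h v a t κ y F) (deriv (bn h v a t κ y F) r) r :=
    fun r hr => by
      obtain ⟨B', h1, _⟩ := hB.super hh ht hF hr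
      rw [h1.deriv]; exact h1
  have key := nonneg_of_backward
    (U := fun r => bn h v a t κ y F r - (R (insert a F) r - R F r))
    (U' := fun r => deriv (bn h v a t κ y F) r - (dR (insert a F) r - dR F r))
    (a := 0) (s := t) (fun r hr =>
      (hdA r hr).sub ((hR.ev.deriv (insert a F) r hr).sub (hR.ev.deriv F r hr)))
    (by
      simp only [hR.end_, sub_self, sub_zero]
      exact hB.nonneg hh ht hF ⟨ht.1, le_rfl⟩) ?_
  · intro r hr
    have := key r hr
    linarith
  · intro r hr hU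
    set B := bn h v a t κ y F r with hBd
    have hB0 : 0 ≤ B := hB.nonneg hh ht hF hr
    set X : ℝ := R (insert a F) r - R F r with hX
    have hR0 : ∀ G, 0 ≤ R G r := fun G => hR.ev.nonneg G r hr
    obtain ⟨A', a1, a2⟩ := hB.super hh ht hF hr
    have sa := hB.sg_le hh hF hr
    set σa := sg h v a t κ Y F r with hσa
    have t1 : gen (h r) (fun G => R (insert a G) r - R G r) F + rate (h r) F * X
        ≤ gen (h r) (fun G => bn h v a t κ y G r) F + rate (h r) F * B := by
      refine gen_mono (h0 := hh.nonneg r) fun p hp q hq => ?_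
      have hcard : ((F.erase p).erase q).card < n := by
        rw [← hn]
        exact (Finset.card_le_card (Finset.erase_subset _ _)).trans_lt
          (Finset.card_erase_lt_of_mem hp)
      exact ih _ hcard ((F.erase p).erase q) rfl
        ((Finset.erase_subset _ _).trans ((Finset.erase_subset _ _).trans hF)) r hr
    have g1 : gen (h r) (fun G => R G r) (insert a F)
        = gen (h r) (fun G => R (insert a G) r) F
          + ∑ c ∈ F, h r a c * (R (F.erase c) r - R (insert a F) r) := by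
      rw [gen_insert (h r) (hh.symm r) (hh.diag r) _ haF]
      rfl
    have e3 : gen (h r) (fun G => R (insert a G) r - R G r) F
        = gen (h r) (fun G => R (insert a G) r) F - gen (h r) (fun G => R G r) F :=
      gen_sub (h r) (fun G => R (insert a G) r) (fun G => R G r) F
    have s1 : ∑ c ∈ F, h r a c * (R (F.erase c) r - R (insert a F) r)
        = ∑ c ∈ F, h r a c * (R (F.erase c) r - R F r) - (∑ c ∈ F, h r a c) * X := by
      rw [Finset.sum_mul, ← Finset.sum_sub_distrib]
      exact Finset.sum_congr rfl fun c _ => by rw [hX]; ring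
    have hUlt : B - X < 0 := hU
    have e10 : dR (insert a F) r - dR F r
        = -(gen (h r) (fun G => R G r) (insert a F)) + gen (h r) (fun G => R G r) F
          + (∑ c ∈ F, h r v c) * X + h r v a * R (insert a F) r := by
      simp only [hdR, hX]
      rw [Finset.sum_insert haF]
      ring
    have t5 : 0 ≤ ∑ c ∈ F, h r v c := Finset.sum_nonneg fun c _ => hh.nonneg _ _ _
    have t6 : 0 ≤ ∑ c ∈ F, h r a c := Finset.sum_nonneg fun c _ => hh.nonneg _ _ _
    have u1 : rate (h r) F * (B - X) ≤ 0 :=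
      mul_nonpos_of_nonneg_of_nonpos (rate_nonneg (hh.nonneg r) F) hUlt.le
    have u2 : ((∑ c ∈ F, h r v c) + (∑ c ∈ F, h r a c)) * (B - X) ≤ 0 :=
      mul_nonpos_of_nonneg_of_nonpos (by linarith) hUlt.le
    have u3 : h r v a * (B - X) ≤ 0 := mul_nonpos_of_nonneg_of_nonpos (hh.nonneg _ _ _) hUlt.le
    have u4 : h r v a * R (insert a F) r = h r v a * X + h r v a * R F r := by rw [hX]; ring
    have u5 : 0 ≤ h r v a * R F r := mul_nonneg (hh.nonneg _ _ _) (hR0 _)
    rw [e3] at t1
    show deriv (bn h v a t κ y F) r - (dR (insert a F) r - dR F r) ≤ 0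
    rw [a1.deriv, e10, g1, s1]
    set gA := gen (h r) (fun G => bn h v a t κ y G r) F with hgA
    set g2 := gen (h r) (fun G => R (insert a G) r) F with hg2
    set g3 := gen (h r) (fun G => R G r) F with hg3
    set rv := ∑ c ∈ F, h r v c with hrv
    set ra := ∑ c ∈ F, h r a c with hra
    have w4 : (rv + ra) * (B - X) = (rv + ra) * B - rv * X - ra * X := by ring
    have w5 : (rv + ra + h r v a) * B = (rv + ra) * B + h r v a * B := by ring
    have w6 : h r v a * (B - X) = h r v a * B - h r v a * X := by ring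
    have w8 : rate (h r) F * (B - X) = rate (h r) F * B - rate (h r) F * X := by ring
    linarith

/-- the bound on a smaller set -/
theorem BDat.erase_le (hh : Haz h H) (ht : t ∈ Icc (0 : ℝ) 1)
    (hB : BDat h v a t H0 Pv Nv P N κ y Y) {F : Finset V} (hF : F ⊆ H0) {r : ℝ}
    (hr : r ∈ Icc 0 t) {c : V} (hc : c ∈ F) {π : ℝ} (hπ0 : 0 ≤ π)
    (hπ : ∀ d ∈ H0, d ≠ c → (1 + Pv c r) * (1 + P d c r) ≤ 1 + π) :
    bn h v a t κ y (F.erase c) r ≤ (1 + π) * bn h v a t κ y F r := by
  have hR0 : ∀ G, 0 ≤ RCG.tgt h v t G r := fun G => (hh.tgt v ht).ev.nonneg G r hr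
  have hΩ0 : ∀ c G, 0 ≤ RCG.prf h v a c t G r := fun c G =>
      (hh.prf v a c ht).ev.nonneg G r hr
  unfold bn
  have hPc := hB.iv.P0 c (hF hc) r hr
  have step : ∀ d ∈ F.erase c, RCG.tgt h v t ((F.erase c).erase d) r *
      (Real.exp (κ d r) * RCG.prf h v a d t ((F.erase c).erase d) r + y d r)
      ≤ (1 + π) * (RCG.tgt h v t (F.erase d) r *
        (Real.exp (κ d r) * RCG.prf h v a d t (F.erase d) r + y d r)) := by
    intro d hd
    have hdF : d ∈ F := Finset.mem_of_mem_erase hd
    have hdc : d ≠ c := Finset.ne_of_mem_erase hd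
    have hcd : c ∈ F.erase d := Finset.mem_erase.2 ⟨hdc.symm, hc⟩
    have e : (F.erase c).erase d = (F.erase d).erase c := Finset.erase_right_comm
    have i1 := hB.iv.up (F.erase d) ((Finset.erase_subset _ _).trans hF) c hcd r hr
    have i2 := (hB.ic d (hF hdF)).up (F.erase d) (Finset.erase_subset_erase d hF) c hcd r hr
    have hP0 := (hB.ic d (hF hdF)).P0 c (Finset.mem_erase.2 ⟨hdc.symm, hF hc⟩) r hr
    have hpi := hπ d (hF hdF) hdc
    rw [e]
    have hy0 := hB.y0 d (hF hdF) r hr
    have hE := (Real.exp_pos (κ d r)).le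
    have i3 : Real.exp (κ d r) * RCG.prf h v a d t ((F.erase d).erase c) r + y d r
        ≤ (1 + P d c r) * (Real.exp (κ d r) * RCG.prf h v a d t (F.erase d) r + y d r) := by
      have := mul_le_mul_of_nonneg_left i2 hE
      nlinarith [mul_nonneg hP0 hy0]
    calc RCG.tgt h v t ((F.erase d).erase c) r *
          (Real.exp (κ d r) * RCG.prf h v a d t ((F.erase d).erase c) r + y d r)
        ≤ ((1 + Pv c r) * RCG.tgt h v t (F.erase d) r) *
          ((1 + P d c r) * (Real.exp (κ d r) * RCG.prf h v a d t (F.erase d) r + y d r)) :=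
          mul_le_mul i1 i3 (add_nonneg (mul_nonneg hE (hΩ0 _ _)) hy0)
            (mul_nonneg (by linarith) (hR0 _))
      _ = ((1 + Pv c r) * (1 + P d c r)) * (RCG.tgt h v t (F.erase d) r *
          (Real.exp (κ d r) * RCG.prf h v a d t (F.erase d) r + y d r)) := by ring
      _ ≤ _ := mul_le_mul_of_nonneg_right hpi (mul_nonneg (hR0 _)
          (add_nonneg (mul_nonneg hE (hΩ0 _ _)) hy0))
  refine (Finset.sum_le_sum step).trans ?_
  rw [← Finset.mul_sum]
  refine mul_le_mul_of_nonneg_left ?_ (by linarith)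
  refine Finset.sum_le_sum_of_subset_of_nonneg (Finset.erase_subset _ _) fun d hd _ => ?_
  exact mul_nonneg (hR0 _) (add_nonneg (mul_nonneg (Real.exp_pos _).le (hΩ0 _ _))
      (hB.y0 d (hF hd) r hr))

end

/-- Flux-level bound for the joint negative influence of `a` and `b`. -/
theorem xneg2_le (hh : Haz h H) {v a b : V} (hab : a ≠ b) {t : ℝ} (ht : t ∈ Icc (0 : ℝ) 1)
    {H0 : Finset V} {Pv Nv : V → ℝ → ℝ} {Pa Na Pb Nb : V → V → ℝ → ℝ}
    {κa ya Ya κb yb Yb : V → ℝ → ℝ} (hA : BDat h v a t H0 Pv Nv Pa Na κa ya Ya)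
    (hB : BDat h v b t H0 Pv Nv Pb Nb κb yb Yb) {π : V → ℝ → ℝ}
    (hπ0 : ∀ c ∈ H0, ∀ r ∈ Icc 0 t, 0 ≤ π c r)
    (hπa : ∀ c ∈ H0, ∀ d ∈ H0, d ≠ c → ∀ r ∈ Icc 0 t, (1 + Pv c r) * (1 + Pa d c r) ≤ 1 + π c r)
    (hπb : ∀ c ∈ H0, ∀ d ∈ H0, d ≠ c → ∀ r ∈ Icc 0 t, (1 + Pv c r) * (1 + Pb d c r) ≤ 1 + π c r)
    {ε ε' : ℝ → ℝ} (hεd : ∀ r ∈ Icc 0 t, HasDerivAt ε (ε' r) r)
    (hε0 : ∀ r ∈ Icc 0 t, 0 ≤ ε r)
    (hεa : ∀ r ∈ Icc 0 t, ∑ c ∈ H0, h r a c * π c r ≤ -ε' r)
    (hεb : ∀ r ∈ Icc 0 t, ∑ c ∈ H0, h r b c * π c r ≤ -ε' r) :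
    ∀ F ⊆ H0, ∀ r ∈ Icc 0 t,
      RCG.tgt h v t (insert a (insert b F)) r - RCG.tgt h v t F r
        ≤ Real.exp (ε r) * (bn h v a t κa ya F r + bn h v b t κb yb F r) := by
  have hR := hh.tgt v ht
  set R := RCG.tgt h v t with hRdef
  intro F
  induction hn : F.card using Nat.strong_induction_on generalizing F with
  | _ n ih =>
  intro hF
  have haF : a ∉ F := fun hh => hA.ha (hF hh)
  have hbF : b ∉ F := fun hh => hB.ha (hF hh)
  have habF : a ∉ insert b F := by simp [hab, haF]
  set dR : Finset V → ℝ → ℝ := fun G r =>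
    -(gen (h r) (fun F => R F r) G - (∑ b ∈ G, h r v b) * R G r - 0 * R G r + 0) with hdR
  have hdA : ∀ r ∈ Icc 0 t, HasDerivAt (bn h v a t κa ya F) (deriv (bn h v a t κa ya F) r) r :=
    fun r hr => by
      obtain ⟨B', h1, _⟩ := hA.super hh ht hF hr
      rw [h1.deriv]; exact h1
  have hdB : ∀ r ∈ Icc 0 t, HasDerivAt (bn h v b t κb yb F) (deriv (bn h v b t κb yb F) r) r :=
    fun r hr => by
      obtain ⟨B', h1, _⟩ := hB.super hh ht hF hr
      rw [h1.deriv]; exact h1
  have key := nonneg_of_backward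
    (U := fun r => Real.exp (ε r) * (bn h v a t κa ya F r + bn h v b t κb yb F r)
        - (R (insert a (insert b F)) r - R F r))
    (U' := fun r => (Real.exp (ε r) * ε' r * (bn h v a t κa ya F r + bn h v b t κb yb F r)
        + Real.exp (ε r) * (deriv (bn h v a t κa ya F) r + deriv (bn h v b t κb yb F) r))
        - (dR (insert a (insert b F)) r - dR F r))
    (a := 0) (s := t) (fun r hr => by
      refine HasDerivAt.sub ?_
        ((hR.ev.deriv (insert a (insert b F)) r hr).sub (hR.ev.deriv F r hr))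
      exact ((hεd r hr).exp).mul ((hdA r hr).add (hdB r hr)))
    (by
      simp only [hR.end_, sub_self, sub_zero]
      exact mul_nonneg (Real.exp_pos _).le (add_nonneg (hA.nonneg hh ht hF ⟨ht.1, le_rfl⟩)
        (hB.nonneg hh ht hF ⟨ht.1, le_rfl⟩))) ?_
  · intro r hr
    have := key r hr
    linarith
  · intro r hr hU
    set E := Real.exp (ε r) with hE
    have hE1 : 1 ≤ E := Real.one_le_exp (hε0 r hr)
    set Ba := bn h v a t κa ya F r with hBa
    set Bb := bn h v b t κb yb F r with hBb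
    have hBa0 : 0 ≤ Ba := hA.nonneg hh ht hF hr
    have hBb0 : 0 ≤ Bb := hB.nonneg hh ht hF hr
    set X : ℝ := R (insert a (insert b F)) r - R F r with hX
    have hR0 : ∀ G, 0 ≤ R G r := fun G => hR.ev.nonneg G r hr
    obtain ⟨A', a1, a2⟩ := hA.super hh ht hF hr
    obtain ⟨B', b1, b2⟩ := hB.super hh ht hF hr
    have sa := hA.sg_le hh hF hr
    have sb := hB.sg_le hh hF hr
    have sa0 := hA.sg_nonneg hh ht hF hr
    have sb0 := hB.sg_nonneg hh ht hF hr
    set σa := sg h v a t κa Ya F r with hσa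
    set σb := sg h v b t κb Yb F r with hσb
    -- induction: monotonicity of the generator
    have t1 : gen (h r) (fun G => R (insert a (insert b G)) r - R G r) F + rate (h r) F * X
        ≤ gen (h r) (fun G => E * (bn h v a t κa ya G r + bn h v b t κb yb G r)) F
          + rate (h r) F * (E * (Ba + Bb)) := by
      refine gen_mono (h0 := hh.nonneg r) fun p hp q hq => ?_
      have hcard : ((F.erase p).erase q).card < n := by
        rw [← hn]
        exact (Finset.card_le_card (Finset.erase_subset _ _)).trans_lt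
          (Finset.card_erase_lt_of_mem hp)
      exact ih _ hcard ((F.erase p).erase q) rfl
        ((Finset.erase_subset _ _).trans ((Finset.erase_subset _ _).trans hF)) r hr
    have e1 : gen (h r) (fun G => E * (bn h v a t κa ya G r + bn h v b t κb yb G r)) F
        = E * (gen (h r) (fun G => bn h v a t κa ya G r) F
          + gen (h r) (fun G => bn h v b t κb yb G r) F) := by
      rw [gen_smul (h r) E (fun G => bn h v a t κa ya G r + bn h v b t κb yb G r),
        gen_add (h r) (fun G => bn h v a t κa ya G r) (fun G => bn h v b t κb yb G r)]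
    -- expansion of the generator at the larger set
    have e2 : gen (h r) (fun G => R G r) (insert a (insert b F))
        = gen (h r) (fun G => R (insert a (insert b G)) r) F
          + ∑ c ∈ F, h r b c * (R (insert a (F.erase c)) r - R (insert a (insert b F)) r)
          + (∑ c ∈ F, h r a c * (R (insert b (F.erase c)) r - R (insert a (insert b F)) r)
            + h r a b * (R F r - R (insert a (insert b F)) r)) := by
      have g1 : gen (h r) (fun G => R G r) (insert a (insert b F))
          = gen (h r) (fun G => R (insert a G) r) (insert b F)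
            + ∑ c ∈ insert b F, h r a c * (R ((insert b F).erase c) r
              - R (insert a (insert b F)) r) := by
        rw [gen_insert (h r) (hh.symm r) (hh.diag r) _ habF]
        rfl
      have g2 : gen (h r) (fun G => R (insert a G) r) (insert b F)
          = gen (h r) (fun G => R (insert a (insert b G)) r) F
            + ∑ c ∈ F, h r b c * (R (insert a (F.erase c)) r
              - R (insert a (insert b F)) r) := by
        rw [gen_insert (h r) (hh.symm r) (hh.diag r) (fun G => R (insert a G) r) hbF]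
        rfl
      rw [g1, g2, Finset.sum_insert hbF, Finset.erase_insert hbF]
      have : ∀ c ∈ F, h r a c * (R ((insert b F).erase c) r - R (insert a (insert b F)) r)
          = h r a c * (R (insert b (F.erase c)) r - R (insert a (insert b F)) r) := by
        intro c hc
        have hbc : b ≠ c := fun e => hbF (e ▸ hc)
        rw [Finset.erase_insert_of_ne hbc]
      rw [Finset.sum_congr rfl this]
      ring
    have e3 : gen (h r) (fun G => R (insert a (insert b G)) r - R G r) F
        = gen (h r) (fun G => R (insert a (insert b G)) r) F - gen (h r) (fun G => R G r) F :=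
      gen_sub (h r) (fun G => R (insert a (insert b G)) r) (fun G => R G r) F
    -- cross terms
    have c1 : ∑ c ∈ F, h r b c * (R (insert a (F.erase c)) r - R (insert a (insert b F)) r)
        ≤ σb + ((∑ c ∈ F, h r b c) * Ba + (-ε' r) * Ba) - (∑ c ∈ F, h r b c) * X := by
      have s1 : ∑ c ∈ F, h r b c * (R (insert a (F.erase c)) r - R (insert a (insert b F)) r)
          = ∑ c ∈ F, h r b c * (R (F.erase c) r - R F r)
            + ∑ c ∈ F, h r b c * (R (insert a (F.erase c)) r - R (F.erase c) r)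
            - (∑ c ∈ F, h r b c) * X := by
        rw [Finset.sum_mul, ← Finset.sum_add_distrib, ← Finset.sum_sub_distrib]
        exact Finset.sum_congr rfl fun c _ => by rw [hX]; ring
      have s2 : ∑ c ∈ F, h r b c * (R (insert a (F.erase c)) r - R (F.erase c) r)
          ≤ (∑ c ∈ F, h r b c) * Ba + (-ε' r) * Ba := by
        have s3 : ∑ c ∈ F, h r b c * (R (insert a (F.erase c)) r - R (F.erase c) r)
            ≤ ∑ c ∈ F, h r b c * ((1 + π c r) * Ba) := by
          refine Finset.sum_le_sum fun c hc => mul_le_mul_of_nonneg_left ?_ (hh.nonneg _ _ _)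
          have q1 := hA.le hh ht (F.erase c) ((Finset.erase_subset _ _).trans hF) r hr
          have q2 := hA.erase_le hh ht hF hr hc (hπ0 c (hF hc) r hr)
            (fun d hd hdc => hπa c (hF hc) d hd hdc r hr)
          exact q1.trans q2
        have s4 : ∑ c ∈ F, h r b c * ((1 + π c r) * Ba)
            = (∑ c ∈ F, h r b c) * Ba + (∑ c ∈ F, h r b c * π c r) * Ba := by
          rw [Finset.sum_mul, Finset.sum_mul, ← Finset.sum_add_distrib]
          exact Finset.sum_congr rfl fun c _ => by ring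
        have s5 : (∑ c ∈ F, h r b c * π c r) * Ba ≤ (-ε' r) * Ba := by
          refine mul_le_mul_of_nonneg_right (le_trans ?_ (hεb r hr)) hBa0
          exact Finset.sum_le_sum_of_subset_of_nonneg hF fun c hc _ =>
            mul_nonneg (hh.nonneg _ _ _) (hπ0 c hc r hr)
        linarith
      linarith
    have c2 : ∑ c ∈ F, h r a c * (R (insert b (F.erase c)) r - R (insert a (insert b F)) r)
        ≤ σa + ((∑ c ∈ F, h r a c) * Bb + (-ε' r) * Bb) - (∑ c ∈ F, h r a c) * X := by
      have s1 : ∑ c ∈ F, h r a c * (R (insert b (F.erase c)) r - R (insert a (insert b F)) r)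
          = ∑ c ∈ F, h r a c * (R (F.erase c) r - R F r)
            + ∑ c ∈ F, h r a c * (R (insert b (F.erase c)) r - R (F.erase c) r)
            - (∑ c ∈ F, h r a c) * X := by
        rw [Finset.sum_mul, ← Finset.sum_add_distrib, ← Finset.sum_sub_distrib]
        exact Finset.sum_congr rfl fun c _ => by rw [hX]; ring
      have s2 : ∑ c ∈ F, h r a c * (R (insert b (F.erase c)) r - R (F.erase c) r)
          ≤ (∑ c ∈ F, h r a c) * Bb + (-ε' r) * Bb := by
        have s3 : ∑ c ∈ F, h r a c * (R (insert b (F.erase c)) r - R (F.erase c) r)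
            ≤ ∑ c ∈ F, h r a c * ((1 + π c r) * Bb) := by
          refine Finset.sum_le_sum fun c hc => mul_le_mul_of_nonneg_left ?_ (hh.nonneg _ _ _)
          have q1 := hB.le hh ht (F.erase c) ((Finset.erase_subset _ _).trans hF) r hr
          have q2 := hB.erase_le hh ht hF hr hc (hπ0 c (hF hc) r hr)
            (fun d hd hdc => hπb c (hF hc) d hd hdc r hr)
          exact q1.trans q2
        have s4 : ∑ c ∈ F, h r a c * ((1 + π c r) * Bb)
            = (∑ c ∈ F, h r a c) * Bb + (∑ c ∈ F, h r a c * π c r) * Bb := by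
          rw [Finset.sum_mul, Finset.sum_mul, ← Finset.sum_add_distrib]
          exact Finset.sum_congr rfl fun c _ => by ring
        have s5 : (∑ c ∈ F, h r a c * π c r) * Bb ≤ (-ε' r) * Bb := by
          refine mul_le_mul_of_nonneg_right (le_trans ?_ (hεa r hr)) hBb0
          exact Finset.sum_le_sum_of_subset_of_nonneg hF fun c hc _ =>
            mul_nonneg (hh.nonneg _ _ _) (hπ0 c hc r hr)
        linarith
      linarith
    have hUlt : E * (Ba + Bb) - X < 0 := hU
    have e10 : dR (insert a (insert b F)) r - dR F r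
        = -(gen (h r) (fun G => R G r) (insert a (insert b F))) + gen (h r) (fun G => R G r) F
          + (∑ c ∈ F, h r v c) * X + (h r v a + h r v b) * R (insert a (insert b F)) r := by
      simp only [hdR, hX]
      rw [Finset.sum_insert habF, Finset.sum_insert hbF]
      ring
    have g0 : 0 ≤ -ε' r := by
      refine le_trans ?_ (hεa r hr)
      exact Finset.sum_nonneg fun c hc => mul_nonneg (hh.nonneg _ _ _) (hπ0 c hc r hr)
    have t5 : 0 ≤ ∑ c ∈ F, h r v c := Finset.sum_nonneg fun c _ => hh.nonneg _ _ _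
    have t6 : 0 ≤ ∑ c ∈ F, h r a c := Finset.sum_nonneg fun c _ => hh.nonneg _ _ _
    have t7 : 0 ≤ ∑ c ∈ F, h r b c := Finset.sum_nonneg fun c _ => hh.nonneg _ _ _
    have u1 : rate (h r) F * (E * (Ba + Bb) - X) ≤ 0 :=
      mul_nonpos_of_nonneg_of_nonpos (rate_nonneg (hh.nonneg r) F) hUlt.le
    have u2 : (∑ c ∈ F, h r v c) * (E * (Ba + Bb) - X) ≤ 0 :=
      mul_nonpos_of_nonneg_of_nonpos t5 hUlt.le
    have u3 : ((∑ c ∈ F, h r a c) + (∑ c ∈ F, h r b c)) * (E * (Ba + Bb) - X) ≤ 0 :=
      mul_nonpos_of_nonneg_of_nonpos (by linarith) hUlt.le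
    have u4 : (h r v a + h r v b) * R (insert a (insert b F)) r
        = (h r v a + h r v b) * X + (h r v a + h r v b) * R F r := by rw [hX]; ring
    have u4' : 0 ≤ (h r v a + h r v b) * R F r :=
      mul_nonneg (add_nonneg (hh.nonneg _ _ _) (hh.nonneg _ _ _)) (hR0 _)
    have u6 : (h r v a + h r v b) * (E * (Ba + Bb) - X) ≤ 0 :=
      mul_nonpos_of_nonneg_of_nonpos (add_nonneg (hh.nonneg _ _ _) (hh.nonneg _ _ _)) hUlt.le
    have u7 : 0 ≤ E * (h r v b * Ba) :=
      mul_nonneg (by linarith) (mul_nonneg (hh.nonneg _ _ _) hBa0)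
    have u8 : 0 ≤ E * (h r v a * Bb) :=
      mul_nonneg (by linarith) (mul_nonneg (hh.nonneg _ _ _) hBb0)
    have hX0 : 0 ≤ X := by
      have := mul_nonneg (by linarith : (0:ℝ) ≤ E) (add_nonneg hBa0 hBb0)
      linarith
    have u5 : 0 ≤ h r a b * X := mul_nonneg (hh.nonneg _ _ _) hX0
    have e11 : h r a b * (R F r - R (insert a (insert b F)) r) = -(h r a b * X) := by
      rw [hX]; ring
    -- E-multiples
    have v1 := mul_le_mul_of_nonneg_left a2 (by linarith : (0:ℝ) ≤ E)
    have v2 := mul_le_mul_of_nonneg_left b2 (by linarith : (0:ℝ) ≤ E)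
    have v3 : σa ≤ E * σa := le_mul_of_one_le_left sa0 hE1
    have v4 : σb ≤ E * σb := le_mul_of_one_le_left sb0 hE1
    have v5 : (∑ c ∈ F, h r b c) * Ba ≤ E * ((∑ c ∈ F, h r b c) * Ba) :=
      le_mul_of_one_le_left (mul_nonneg t7 hBa0) hE1
    have v6 : (∑ c ∈ F, h r a c) * Bb ≤ E * ((∑ c ∈ F, h r a c) * Bb) :=
      le_mul_of_one_le_left (mul_nonneg t6 hBb0) hE1
    have v7 : (-ε' r) * (Ba + Bb) ≤ E * ((-ε' r) * (Ba + Bb)) :=
      le_mul_of_one_le_left (mul_nonneg g0 (add_nonneg hBa0 hBb0)) hE1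
    rw [e1, e3] at t1
    rw [e11] at e2
    show (E * ε' r * (Ba + Bb) + E * (deriv (bn h v a t κa ya F) r
        + deriv (bn h v b t κb yb F) r)) - (dR (insert a (insert b F)) r - dR F r) ≤ 0
    rw [a1.deriv, b1.deriv, e10, e2]
    set gA := gen (h r) (fun G => bn h v a t κa ya G r) F with hgA
    set gB := gen (h r) (fun G => bn h v b t κb yb G r) F with hgB
    set g2 := gen (h r) (fun G => R (insert a (insert b G)) r) F with hg2
    set g3 := gen (h r) (fun G => R G r) F with hg3
    set rv := ∑ c ∈ F, h r v c with hrv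
    set ra := ∑ c ∈ F, h r a c with hra
    set rb := ∑ c ∈ F, h r b c with hrb
    set C1 := ∑ c ∈ F, h r b c * (R (insert a (F.erase c)) r - R (insert a (insert b F)) r)
      with hC1
    set C2 := ∑ c ∈ F, h r a c * (R (insert b (F.erase c)) r - R (insert a (insert b F)) r)
      with hC2
    have w1 : E * ((gA - (rv + ra + h r v a) * Ba + σa)) = E * gA - E * (rv * Ba)
      - E * (ra * Ba) - E * (h r v a * Ba) + E * σa := by ring
    have w2 : E * ((gB - (rv + rb + h r v b) * Bb + σb)) = E * gB - E * (rv * Bb)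
      - E * (rb * Bb) - E * (h r v b * Bb) + E * σb := by ring
    have w10 : (h r v a + h r v b) * (E * (Ba + Bb) - X) = E * (h r v a * Ba)
      + E * (h r v a * Bb) + E * (h r v b * Ba) + E * (h r v b * Bb)
      - (h r v a + h r v b) * X := by ring
    have w3 : E * (gA + gB) = E * gA + E * gB := by ring
    have w4 : rv * (E * (Ba + Bb) - X) = E * (rv * Ba) + E * (rv * Bb) - rv * X := by ring
    have w5 : (ra + rb) * (E * (Ba + Bb) - X) = E * (ra * Ba) + E * (ra * Bb) + E * (rb * Ba)
      + E * (rb * Bb) - ra * X - rb * X := by ring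
    have w6 : E * ((-ε' r) * (Ba + Bb)) = -(E * ε' r * (Ba + Bb)) := by ring
    have w7 : (-ε' r) * (Ba + Bb) = (-ε' r) * Ba + (-ε' r) * Bb := by ring
    have w8 : rate (h r) F * (E * (Ba + Bb) - X)
      = rate (h r) F * (E * (Ba + Bb)) - rate (h r) F * X := by ring
    have w9 : E * (A' + B') = -(E * -A') - (E * -B') := by ring
    linarith

end Pool.Agent.RCG
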