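import Pool.Agent.RCG.Cx
import Pool.Agent.RCG.Rate
import Pool.Agent.RCG.ExQ
import Pool.Agent.RCG.XNeg2

/-! Exponents of the comparison lemmas as numbers (MP_73ccd0_lc, general graphs). -/

namespace Pool.Agent.RCG

open Set Finset Matrix Pool.Agent.RCRSHalf

set_option linter.unusedSectionVars false

variable {V : Type*} [Fintype V] [DecidableEq V]
variable {h : ℝ → V → V → ℝ} {H : V → V → ℝ → ℝ} {X : V → V → ℝ} {M μ : ℝ → ℝ} {t : ℝ}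

/-- `∫_0^s rate ≤ B` in the form used by the comparison lemmas -/
def Exq (rate : ℝ → ℝ) (s B : ℝ) : Prop :=
  ∃ κ κ' : ℝ → ℝ, (∀ r ∈ Icc 0 s, HasDerivAt κ (κ' r) r) ∧ 0 ≤ κ s ∧ κ 0 ≤ B ∧
    ∀ r ∈ Icc 0 s, rate r ≤ -κ' r

theorem Exq.mono {rate : ℝ → ℝ} {s B B' : ℝ} (h : Exq rate s B) (hB : B ≤ B') :
    Exq rate s B' := by
  obtain ⟨κ, κ', h1, h2, h3, h4⟩ := h
  exact ⟨κ, κ', h1, h2, h3.trans hB, h4⟩

/-- `∫_s^t rate ≤ B s` in the form used by the comparison lemmas -/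
def Exf (rate : ℝ → ℝ) (t : ℝ) (B : ℝ → ℝ) : Prop :=
  ∃ κ κ' : ℝ → ℝ, (∀ r ∈ Icc 0 t, HasDerivAt κ (κ' r) r) ∧ (∀ r ∈ Icc 0 t, 0 ≤ κ r) ∧
    (∀ r ∈ Icc 0 t, κ r ≤ B r) ∧ ∀ r ∈ Icc 0 t, rate r ≤ -κ' r

theorem Exq.of_clock (hC : Cx h H X M μ t) {s : ℝ} (hs : s ∈ Icc 0 t) {rate Φ Ψ : ℝ → ℝ}
    (hΨ : ∀ x, HasDerivAt Ψ (Φ x) x) (hr : ∀ r ∈ Icc 0 s, rate r ≤ μ r * Φ (M r)) :
    Exq rate s (Ψ (M s) - Ψ 0) := by
  refine ⟨fun r => Ψ (M s) - Ψ (M r), fun r => -(Φ (M r) * μ r), fun r hr' => ?_, by simp, ?_,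
    fun r hr' => ?_⟩
  · have hr2 : r ∈ Icc 0 t := ⟨hr'.1, hr'.2.trans hs.2⟩
    exact ((hΨ (M r)).comp r (hC.Md r hr2)).const_sub _
  · simp only [hC.M0]; exact le_rfl
  · have := hr r hr'
    simp only [neg_neg]
    linarith [mul_comm (μ r) (Φ (M r))]

theorem Exf.of_clock (hC : Cx h H X M μ t) {T : ℝ} (hT : T ∈ Icc 0 t) {rate Φ Ψ : ℝ → ℝ}
    (hΨ : ∀ x, HasDerivAt Ψ (Φ x) x) (hΦ : ∀ x ∈ Icc 0 (M T), 0 ≤ Φ x)
    (hr : ∀ r ∈ Icc 0 T, rate r ≤ μ r * Φ (M r)) :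
    Exf rate T (fun r => Ψ (M T) - Ψ (M r)) := by
  refine ⟨fun r => Ψ (M T) - Ψ (M r), fun r => -(Φ (M r) * μ r), fun r hr' => ?_, fun r hr' => ?_,
    fun _ _ => le_rfl, fun r hr' => ?_⟩
  · have hr2 : r ∈ Icc 0 t := ⟨hr'.1, hr'.2.trans hT.2⟩
    exact ((hΨ (M r)).comp r (hC.Md r hr2)).const_sub _
  · have hr2 : r ∈ Icc 0 t := ⟨hr'.1, hr'.2.trans hT.2⟩
    have h1 := hC.mono hT r hr'
    have h0 := hC.Mnn hr2
    have := nonneg_of_forward (U := fun x => Ψ x - Ψ (M r)) (U' := Φ) (a := M r) (s := M T)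
      (fun x _ => (hΨ x).sub_const _) (by simp)
      (fun x hx _ => hΦ x ⟨h0.trans hx.1, hx.2⟩) (M T) ⟨h1, le_rfl⟩
    linarith
  · have := hr r hr'
    simp only [neg_neg]
    linarith [mul_comm (μ r) (Φ (M r))]

/-! ### Rates -/

/-- two-target rate, upper -/
noncomputable def ru2 (h : V → V → ℝ) (H0 : Finset V) (P N P' N' : V → ℝ) : ℝ :=
  k2R h H0 P N P' N'

/-- two-target rate, lower -/
noncomputable def rl2 (h : V → V → ℝ) (H0 : Finset V) (P N P' N' : V → ℝ) : ℝ :=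
  (1 / 2) * ∑ a ∈ H0, ∑ b ∈ H0, h a b *
        ((N a + N b) * ((1 + P' a) * (1 + P' b) - 1)
          + (N' a + N' b) * ((1 + P a) * (1 + P b) - 1))

/-- three-target rate, upper -/
noncomputable def ru3 (h : V → V → ℝ) (H0 : Finset V) (P1 N1 P2 N2 P3 N3 : V → ℝ) : ℝ :=
  (1 / 2) * ∑ a ∈ H0, ∑ b ∈ H0,
      h a b * (((1 + P1 a) * (1 + P1 b) - 1) * ((1 + P2 a) * (1 + P2 b) - 1)
        + ((1 + P1 a) * (1 + P1 b) - 1) * ((1 + P3 a) * (1 + P3 b) - 1)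
        + ((1 + P2 a) * (1 + P2 b) - 1) * ((1 + P3 a) * (1 + P3 b) - 1)
        + ((1 + P1 a) * (1 + P1 b) - 1) * ((1 + P2 a) * (1 + P2 b) - 1)
          * ((1 + P3 a) * (1 + P3 b) - 1)
        + ((N1 a + N1 b) * (N2 a + N2 b) + (N1 a + N1 b) * (N3 a + N3 b)
          + (N2 a + N2 b) * (N3 a + N3 b)))

/-- four-target rate, upper -/
noncomputable def ru4 (h : V → V → ℝ) (H0 : Finset V) (P1 N1 P2 N2 P3 N3 P4 N4 : V → ℝ) : ℝ :=
  (1 / 2) * ∑ a ∈ H0, ∑ b ∈ H0, h a b *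
        gu4 ((1 + P1 a) * (1 + P1 b) - 1) ((1 + P2 a) * (1 + P2 b) - 1)
          ((1 + P3 a) * (1 + P3 b) - 1) ((1 + P4 a) * (1 + P4 b) - 1)
          (N1 a + N1 b) (N2 a + N2 b) (N3 a + N3 b) (N4 a + N4 b)

/-- the upper two-target rate of `(p : T)` and `(q : T')` in the context -/
noncomputable def cru2 (h : ℝ → V → V → ℝ) (H : V → V → ℝ → ℝ) (X : V → V → ℝ) (M : ℝ → ℝ)
    (H0 : Finset V) (p : V) (T : ℝ) (q : V) (T' : ℝ) (r : ℝ) : ℝ :=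
  ru2 (h r) H0 (fun a => Pt H X M H0 p T a r) (fun a => Nt X H0 p (M T - M r) a)
    (fun a => Pt H X M H0 q T' a r) (fun a => Nt X H0 q (M T' - M r) a)

/-- the lower two-target rate of `(p : T)` and `(q : T')` in the context -/
noncomputable def crl2 (h : ℝ → V → V → ℝ) (H : V → V → ℝ → ℝ) (X : V → V → ℝ) (M : ℝ → ℝ)
    (H0 : Finset V) (p : V) (T : ℝ) (q : V) (T' : ℝ) (r : ℝ) : ℝ :=
  rl2 (h r) H0 (fun a => Pt H X M H0 p T a r) (fun a => Nt X H0 p (M T - M r) a)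
    (fun a => Pt H X M H0 q T' a r) (fun a => Nt X H0 q (M T' - M r) a)

/-- the upper three-target rate in the context -/
noncomputable def cru3 (h : ℝ → V → V → ℝ) (H : V → V → ℝ → ℝ) (X : V → V → ℝ) (M : ℝ → ℝ)
    (H0 : Finset V) (p : V) (T : ℝ) (q : V) (T' : ℝ) (w : V) (T'' : ℝ) (r : ℝ) : ℝ :=
  ru3 (h r) H0 (fun a => Pt H X M H0 p T a r) (fun a => Nt X H0 p (M T - M r) a)
    (fun a => Pt H X M H0 q T' a r) (fun a => Nt X H0 q (M T' - M r) a)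
    (fun a => Pt H X M H0 w T'' a r) (fun a => Nt X H0 w (M T'' - M r) a)

/-- upper bound of `P_ab` -/
theorem Cx.pp_up (hC : Cx h H X M μ t) {a b : V} (hab : a ≠ b) {s : ℝ} (hs : s ∈ Icc 0 t) {B : ℝ}
    (hB : Exq (cru2 h H X M ({a, b} : Finset V)ᶜ a s b s) s B) :
    Real.exp (H a b s) * pp h a b s ≤ Real.exp B * (bb h {b} a s * bb h {a} b s) := by
  obtain ⟨κ, κ', h1, h2, h3, h4⟩ := hB
  have := pp_le hC.hh hab (hC.mem hs)
    (hC.inf hs (w := a) (H0 := ({a, b} : Finset V)ᶜ) (by simp) subset_rfl le_rfl)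
    (hC.inf hs (w := b) (H0 := ({a, b} : Finset V)ᶜ) (by simp) subset_rfl le_rfl) h1 h2 h4
  refine this.trans (mul_le_mul_of_nonneg_right (Real.exp_le_exp.2 h3) ?_)
  exact mul_nonneg (bb_nonneg hC.hh _ _ (hC.mem hs)) (bb_nonneg hC.hh _ _ (hC.mem hs))

/-- lower bound of `P_ab` -/
theorem Cx.pp_lo (hC : Cx h H X M μ t) {a b : V} (hab : a ≠ b) {s : ℝ} (hs : s ∈ Icc 0 t) {B : ℝ}
    (hB : Exq (crl2 h H X M ({a, b} : Finset V)ᶜ a s b s) s B) :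
    Real.exp (-B) * (bb h {b} a s * bb h {a} b s) ≤ Real.exp (H a b s) * pp h a b s := by
  obtain ⟨κ, κ', h1, h2, h3, h4⟩ := hB
  have := le_pp hC.hh hab (hC.mem hs)
    (hC.inf hs (w := a) (H0 := ({a, b} : Finset V)ᶜ) (by simp) subset_rfl le_rfl)
    (hC.inf hs (w := b) (H0 := ({a, b} : Finset V)ᶜ) (by simp) subset_rfl le_rfl) h1 h2 h4
  refine le_trans (mul_le_mul_of_nonneg_right (Real.exp_le_exp.2 (neg_le_neg h3)) ?_) this
  exact mul_nonneg (bb_nonneg hC.hh _ _ (hC.mem hs)) (bb_nonneg hC.hh _ _ (hC.mem hs))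

/-- upper bound of the pair expectation -/
theorem Cx.ex2_up (hC : Cx h H X M μ t) {D : Finset V} {p q : V} (hp : p ∉ D) (hq : q ∉ D)
    (hpq : p ≠ q) {T s : ℝ} (hT : T ∈ Icc 0 t) (hs : s ∈ Icc 0 T) {B : ℝ}
    (hB : Exq (cru2 h H X M (insert p (insert q D))ᶜ p T q s) s B) :
    ex (lw h D s) {p, q} (fun F => RCG.tgt h p T F s)
      ≤ Real.exp (-H p q s + B) * (bb h (insert q D) p T * bb h (insert p D) q s) := by
  obtain ⟨κ, κ', h1, h2, h3, h4⟩ := hB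
  have hst : s ∈ Icc 0 t := ⟨hs.1, hs.2.trans hT.2⟩
  have := ex_pair_le hC.hh hp hq hpq (hC.mem hT) hs
    (hC.inf hT (w := p) (H0 := (insert p (insert q D))ᶜ) (by simp) subset_rfl hs.2)
    (hC.inf hst (w := q) (H0 := (insert p (insert q D))ᶜ) (by simp) subset_rfl le_rfl) h1 h2 h4
  refine this.trans (mul_le_mul_of_nonneg_right (Real.exp_le_exp.2 (by linarith)) ?_)
  exact mul_nonneg (bb_nonneg hC.hh _ _ (hC.mem hT)) (bb_nonneg hC.hh _ _ (hC.mem hst))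

/-- lower bound of the pair expectation -/
theorem Cx.ex2_lo (hC : Cx h H X M μ t) {D : Finset V} {p q : V} (hp : p ∉ D) (hq : q ∉ D)
    (hpq : p ≠ q) {T s : ℝ} (hT : T ∈ Icc 0 t) (hs : s ∈ Icc 0 T) {B : ℝ}
    (hB : Exq (crl2 h H X M (insert p (insert q D))ᶜ p T q s) s B) :
    Real.exp (-H p q s - B) * (bb h (insert q D) p T * bb h (insert p D) q s)
      ≤ ex (lw h D s) {p, q} (fun F => RCG.tgt h p T F s) := by
  obtain ⟨κ, κ', h1, h2, h3, h4⟩ := hB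
  have hst : s ∈ Icc 0 t := ⟨hs.1, hs.2.trans hT.2⟩
  have := le_ex_pair hC.hh hp hq hpq (hC.mem hT) hs
    (hC.inf hT (w := p) (H0 := (insert p (insert q D))ᶜ) (by simp) subset_rfl hs.2)
    (hC.inf hst (w := q) (H0 := (insert p (insert q D))ᶜ) (by simp) subset_rfl le_rfl) h1 h2 h4
  refine le_trans (mul_le_mul_of_nonneg_right (Real.exp_le_exp.2 (by linarith)) ?_) this
  exact mul_nonneg (bb_nonneg hC.hh _ _ (hC.mem hT)) (bb_nonneg hC.hh _ _ (hC.mem hst))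

/-- deletion mark, upper -/
theorem Cx.del_up (hC : Cx h H X M μ t) {D : Finset V} {u q : V} (hu : u ∉ D) (hq : q ∉ D)
    (huq : u ≠ q) {T : ℝ} (hT : T ∈ Icc 0 t) :
    bb h (insert q D) u T
      ≤ Real.exp (H u q T + Yt X (insert u D)ᶜ u (M T) q) * bb h D u T := by
  have h1 := (bb_del hC.hh hu hq huq (hC.mem hT) subset_rfl
    (hC.inf hT (w := u) (H0 := (insert u D)ᶜ) (by simp) subset_rfl le_rfl)).1
  refine h1.trans (le_of_eq ?_)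
  congr 1
  simp only [Pt, hC.hh.H0, hC.M0, sub_zero]
  ring

/-- deletion mark, lower -/
theorem Cx.del_lo (hC : Cx h H X M μ t) {D : Finset V} {u q : V} (hu : u ∉ D) (hq : q ∉ D)
    (huq : u ≠ q) {T : ℝ} (hT : T ∈ Icc 0 t) :
    (1 - Nt X (insert u D)ᶜ u (M T) q) * bb h D u T ≤ bb h (insert q D) u T := by
  have h1 := (bb_del hC.hh hu hq huq (hC.mem hT) subset_rfl
    (hC.inf hT (w := u) (H0 := (insert u D)ᶜ) (by simp) subset_rfl le_rfl)).2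
  simpa only [hC.M0, sub_zero] using h1

/-- `W ≤ 1 / (1 - N)` -/
theorem Cx.W_sup (hC : Cx h H X M μ t) {u q : V} (huq : u ≠ q) {T : ℝ} (hT : T ∈ Icc 0 t)
    (hN : Nt X ({u} : Finset V)ᶜ u (M T) q < 1) :
    Wr h u q T ≤ (1 - Nt X ({u} : Finset V)ᶜ u (M T) q)⁻¹ := by
  have h1 := hC.del_lo (D := ∅) (by simp) (by simp) huq hT
  simp only [insert_empty_eq] at h1
  have hb := bb_pos hC.hh (show u ∉ ({q} : Finset V) by simpa using huq) (hC.mem hT)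
  unfold Wr
  rw [div_le_iff₀ hb, inv_mul_eq_div, le_div_iff₀ (by linarith)]
  linarith

/-- three-target correction expectation -/
theorem Cx.ex3c_up (hC : Cx h H X M μ t) {u v w : V} (huv : u ≠ v) (huw : u ≠ w) (hvw : v ≠ w)
    {T s : ℝ} (hT : T ∈ Icc 0 t) (hs : s ∈ Icc 0 T) {B : ℝ}
    (hB : Exq (cru3 h H X M ({u, v, w} : Finset V)ᶜ u T v s w s) s B) :
    ex (lw h ∅ s) {u, v, w} (fun F => RCG.tgt h u T F s)
      ≤ Real.exp (-(H u v s + H u w s + H v w s) + B) *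
        (bb h {v, w} u T * bb h {u, w} v s * bb h {u, v} w s) := by
  obtain ⟨κ, κ', h1, h2, h3, h4⟩ := hB
  have hst : s ∈ Icc 0 t := ⟨hs.1, hs.2.trans hT.2⟩
  have := n_corr hC.hh huv huw hvw (hC.mem hT) hs
    (hC.inf hT (w := u) (H0 := ({u, v, w} : Finset V)ᶜ) (by simp) subset_rfl hs.2)
    (hC.inf hst (w := v) (H0 := ({u, v, w} : Finset V)ᶜ) (by simp) subset_rfl le_rfl)
    (hC.inf hst (w := w) (H0 := ({u, v, w} : Finset V)ᶜ) (by simp) subset_rfl le_rfl) h1 h2 h4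
  refine this.trans (mul_le_mul_of_nonneg_right (Real.exp_le_exp.2 (by linarith)) ?_)
  exact mul_nonneg (mul_nonneg (bb_nonneg hC.hh _ _ (hC.mem hT)) (bb_nonneg hC.hh _ _ (hC.mem hst)))
    (bb_nonneg hC.hh _ _ (hC.mem hst))

/-- three-target main expectation -/
theorem Cx.ex3m_up (hC : Cx h H X M μ t) {u v w : V} (huv : u ≠ v) (huw : u ≠ w) (hvw : v ≠ w)
    {T s : ℝ} (hT : T ∈ Icc 0 t) (hs : s ∈ Icc 0 T) {B : ℝ}
    (hB : Exq (cru3 h H X M ({u, v, w} : Finset V)ᶜ u T v s w T) s B) :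
    ex (lw h ∅ s) {u, v, w} (fun F => RCG.tgt h u T F s * RCG.src h u w T F s)
      ≤ Real.exp (-(H u v s + H v w s) + B) *
        (bb h {v, w} u T * bb h {u, w} v s * zx h H {u, v} u w T s) := by
  obtain ⟨κ, κ', h1, h2, h3, h4⟩ := hB
  have hst : s ∈ Icc 0 t := ⟨hs.1, hs.2.trans hT.2⟩
  have := n_main hC.hh huv huw hvw (hC.mem hT) hs
    (hC.inf hT (w := u) (H0 := ({u, v, w} : Finset V)ᶜ) (by simp) subset_rfl hs.2)
    (hC.inf hst (w := v) (H0 := ({u, v, w} : Finset V)ᶜ) (by simp) subset_rfl le_rfl)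
    (hC.clo hT (w := w) (H0 := ({u, v, w} : Finset V)ᶜ) (by simp)) h1 h2 h4
  refine this.trans (mul_le_mul_of_nonneg_right (Real.exp_le_exp.2 (by linarith)) ?_)
  exact mul_nonneg (mul_nonneg (bb_nonneg hC.hh _ _ (hC.mem hT)) (bb_nonneg hC.hh _ _ (hC.mem hst)))
    (zx_nonneg hC.hh _ _ _ (hC.mem hT) hs)

end Pool.Agent.RCG
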