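import Pool.Agent.RCG.PairIneq
import Pool.Agent.RCG.KapE

/-! Form-level pair rates (MP_73ccd0_lc). -/

namespace Pool.Agent.RCG

open Set Finset Matrix Pool.Agent.RCRSHalf

set_option linter.unusedSectionVars false

variable {V : Type*} [Fintype V] [DecidableEq V]
variable {h : ℝ → V → V → ℝ} {H : V → V → ℝ → ℝ} {X : V → V → ℝ} {M μ : ℝ → ℝ} {t : ℝ}

/-- symmetric double sums -/
theorem dsum_symm {H0 : Finset V} {x : V → V → ℝ} (hx : ∀ a b, x a b = x b a) (g : V → V → ℝ) :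
    ∑ a ∈ H0, ∑ b ∈ H0, x a b * g a b = ∑ a ∈ H0, ∑ b ∈ H0, x a b * g b a := by
  rw [Finset.sum_comm]
  exact Finset.sum_congr rfl fun a _ => Finset.sum_congr rfl fun b _ => by rw [hx b a]

/-- data of a pair of target vectors -/
structure PV (X : V → V → ℝ) (H0 : Finset V) (p q : V → ℝ) : Prop where
  p0 : ∀ a, 0 ≤ p a
  q0 : ∀ a, 0 ≤ q a
  pp : ∀ a ∈ H0, ∀ b ∈ H0, a ≠ b → p a + p b ≤ 1
  qq : ∀ a ∈ H0, ∀ b ∈ H0, a ≠ b → q a + q b ≤ 1
  row : ∀ a ∈ H0, ∑ b ∈ H0, X a b + p a + q a ≤ 1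

theorem Wt.pair_le_one (hX : Wt X) (p : V) {a b : V} (hab : a ≠ b) : X p a + X p b ≤ 1 := by
  have h1 : ∑ c ∈ ({a, b} : Finset V), X p c ≤ 1 := hX.row_le p _
  rwa [Finset.sum_pair hab] at h1

theorem Wt.pv (hX : Wt X) {H0 : Finset V} {p q : V} (hpq : p ≠ q) (hp : p ∉ H0) (hq : q ∉ H0) :
    PV X H0 (fun a => X p a) (fun a => X q a) where
  p0 a := hX.nonneg _ _
  q0 a := hX.nonneg _ _
  pp a _ b _ hab := hX.pair_le_one p hab
  qq a _ b _ hab := hX.pair_le_one q hab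
  row a _ := by
    have h1 : ∑ b ∈ insert p (insert q H0), X a b ≤ 1 := hX.row_le a _
    have hp' : p ∉ insert q H0 := by
      simp only [Finset.mem_insert, not_or]; exact ⟨hpq, hp⟩
    rw [Finset.sum_insert hp', Finset.sum_insert hq, hX.symm a p, hX.symm a q] at h1
    show ∑ b ∈ H0, X a b + X p a + X q a ≤ 1
    linarith

/-- the first form -/
noncomputable def D1 (H0 : Finset V) (p q : V → ℝ) : ℝ := ∑ a ∈ H0, p a * q a

/-- the bilinear form of the weights -/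
noncomputable def D2 (X : V → V → ℝ) (H0 : Finset V) (p q : V → ℝ) : ℝ :=
  ∑ a ∈ H0, ∑ b ∈ H0, X a b * (p a * q b)

theorem D2_comm (hX : Wt X) (H0 : Finset V) (p q : V → ℝ) : D2 X H0 p q = D2 X H0 q p := by
  unfold D2
  rw [dsum_symm hX.symm]
  exact Finset.sum_congr rfl fun a _ => Finset.sum_congr rfl fun b _ => by ring

/-- the quadratic edge sum is controlled by the forms -/
theorem PV.main (hX : Wt X) {H0 : Finset V} {p q : V → ℝ} (hP : PV X H0 p q) :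
    (1 / 2) * ∑ a ∈ H0, ∑ b ∈ H0, X a b * (Fc (p a + p b) * Fc (q a + q b))
      ≤ 122 / 100 * (D1 H0 p q + D2 X H0 (fun a => Fc (p a)) (fun a => Fc (q a))) := by
  have step : ∀ a ∈ H0, ∀ b ∈ H0, X a b * (Fc (p a + p b) * Fc (q a + q b))
      ≤ X a b * (122 / 100 * (p a * q a * pi5 (p a + q a) + p b * q b * pi5 (p b + q b)
        + Fc (p a) * Fc (q b) + Fc (p b) * Fc (q a))) := by
    intro a ha b hb
    by_cases hab : a = b
    · subst hab; rw [hX.diag]; simp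
    · exact mul_le_mul_of_nonneg_left (pair_ineq (hP.p0 a) (hP.q0 a) (hP.p0 b) (hP.q0 b)
        (hP.pp a ha b hb hab) (hP.qq a ha b hb hab)) (hX.nonneg a b)
  have h1 : ∑ a ∈ H0, ∑ b ∈ H0, X a b * (Fc (p a + p b) * Fc (q a + q b))
      ≤ ∑ a ∈ H0, ∑ b ∈ H0, X a b * (122 / 100 * (p a * q a * pi5 (p a + q a)
        + p b * q b * pi5 (p b + q b) + Fc (p a) * Fc (q b) + Fc (p b) * Fc (q a))) :=
    Finset.sum_le_sum fun a ha => Finset.sum_le_sum fun b hb => step a ha b hb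
  have e1 : ∑ a ∈ H0, ∑ b ∈ H0, X a b * (p b * q b * pi5 (p b + q b))
      = ∑ a ∈ H0, ∑ b ∈ H0, X a b * (p a * q a * pi5 (p a + q a)) :=
    dsum_symm hX.symm (fun _ b => p b * q b * pi5 (p b + q b))
  have e2 : ∑ a ∈ H0, ∑ b ∈ H0, X a b * (Fc (p b) * Fc (q a))
      = ∑ a ∈ H0, ∑ b ∈ H0, X a b * (Fc (p a) * Fc (q b)) :=
    dsum_symm hX.symm (fun a b => Fc (p b) * Fc (q a))
  have e3 : ∑ a ∈ H0, ∑ b ∈ H0, X a b * (122 / 100 * (p a * q a * pi5 (p a + q a)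
        + p b * q b * pi5 (p b + q b) + Fc (p a) * Fc (q b) + Fc (p b) * Fc (q a)))
      = 122 / 100 * (2 * ∑ a ∈ H0, ∑ b ∈ H0, X a b * (p a * q a * pi5 (p a + q a))
        + 2 * ∑ a ∈ H0, ∑ b ∈ H0, X a b * (Fc (p a) * Fc (q b))) := by
    have : ∀ a b, X a b * (122 / 100 * (p a * q a * pi5 (p a + q a)
        + p b * q b * pi5 (p b + q b) + Fc (p a) * Fc (q b) + Fc (p b) * Fc (q a)))
        = 122 / 100 * (X a b * (p a * q a * pi5 (p a + q a)))
          + 122 / 100 * (X a b * (p b * q b * pi5 (p b + q b)))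
          + 122 / 100 * (X a b * (Fc (p a) * Fc (q b)))
          + 122 / 100 * (X a b * (Fc (p b) * Fc (q a))) := fun a b => by ring
    simp only [this, Finset.sum_add_distrib, ← Finset.mul_sum]
    rw [e1, e2]
    ring
  have e4 : ∑ a ∈ H0, ∑ b ∈ H0, X a b * (p a * q a * pi5 (p a + q a)) ≤ D1 H0 p q := by
    unfold D1
    refine Finset.sum_le_sum fun a ha => ?_
    rw [← Finset.sum_mul]
    have hs0 : 0 ≤ p a + q a := add_nonneg (hP.p0 a) (hP.q0 a)
    have hpi : 0 ≤ pi5 (p a + q a) := by unfold pi5; positivity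
    have hr : ∑ b ∈ H0, X a b ≤ 1 - (p a + q a) := by linarith [hP.row a ha]
    have h0 : 0 ≤ p a * q a := mul_nonneg (hP.p0 a) (hP.q0 a)
    calc (∑ b ∈ H0, X a b) * (p a * q a * pi5 (p a + q a))
        ≤ (1 - (p a + q a)) * (p a * q a * pi5 (p a + q a)) :=
          mul_le_mul_of_nonneg_right hr (by positivity)
      _ = (p a * q a) * ((1 - (p a + q a)) * pi5 (p a + q a)) := by ring
      _ ≤ (p a * q a) * 1 := mul_le_mul_of_nonneg_left (pi5_row hs0) h0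
      _ = _ := mul_one _
  rw [e3] at h1
  unfold D2
  linarith

end Pool.Agent.RCG
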