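import Pool.Agent.RCG.Sup2

/-! Form-level pair rates with tails (MP_73ccd0_lc). -/

namespace Pool.Agent.RCG

open Set Finset Matrix Pool.Agent.RCRSHalf

set_option linter.unusedSectionVars false

variable {V : Type*} [Fintype V] [DecidableEq V]
variable {h : ℝ → V → V → ℝ} {H : V → V → ℝ → ℝ} {X : V → V → ℝ} {M μ : ℝ → ℝ} {t : ℝ}

/-! ### walk forms -/

/-- walk forms `Fᵀ A^k G` -/
noncomputable def Tk (X : V → V → ℝ) (H0 : Finset V) (k : ℕ) (F G : V → ℝ) : ℝ :=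
  ((rm X H0) ^ k *ᵥ F) ⬝ᵥ G

theorem Tk_nonneg (hX : Wt X) (H0 : Finset V) (k : ℕ) {F G : V → ℝ} (hF : ∀ a, 0 ≤ F a)
    (hG : ∀ a, 0 ≤ G a) : 0 ≤ Tk X H0 k F G :=
  Finset.sum_nonneg fun a _ => mul_nonneg (mulVec_nonneg (MN.pow (hX.rm_nonneg H0) k) hF a) (hG a)

theorem Tk_mono (hX : Wt X) (H0 : Finset V) (k : ℕ) {F G F' G' : V → ℝ} (hF : ∀ a, 0 ≤ F a)
    (hG : ∀ a, 0 ≤ G a) (hF' : ∀ a, F a ≤ F' a) (hG' : ∀ a, G a ≤ G' a) :
    Tk X H0 k F G ≤ Tk X H0 k F' G' :=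
  Finset.sum_le_sum fun a _ => mul_le_mul (mulVec_mono (MN.pow (hX.rm_nonneg H0) k) hF' a) (hG' a)
    (hG a) (mulVec_nonneg (MN.pow (hX.rm_nonneg H0) k) (fun b => (hF b).trans (hF' b)) a)

theorem Tk_shift (hX : Wt X) (H0 : Finset V) (i j : ℕ) (F G : V → ℝ) :
    ((rm X H0) ^ i *ᵥ F) ⬝ᵥ ((rm X H0) ^ j *ᵥ G) = Tk X H0 (i + j) F G := by
  unfold Tk
  have hT : ((rm X H0) ^ j)ᵀ = (rm X H0) ^ j := by rw [Matrix.transpose_pow, hX.rm_symm]
  rw [Matrix.dotProduct_mulVec, ← Matrix.mulVec_transpose, hT, Matrix.mulVec_mulVec, ← pow_add,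
    add_comm]

theorem Tk_comm (hX : Wt X) (H0 : Finset V) (k : ℕ) (F G : V → ℝ) :
    Tk X H0 k F G = Tk X H0 k G F := by
  have h1 := Tk_shift hX H0 0 k G F
  rw [zero_add, pow_zero, Matrix.one_mulVec, dotProduct_comm] at h1
  exact h1

theorem sum_out {H0 : Finset V} {F G : V → ℝ} (hF : ∀ a ∉ H0, F a = 0) :
    ∑ a ∈ H0, F a * G a = F ⬝ᵥ G := by
  unfold dotProduct
  refine Finset.sum_subset (Finset.subset_univ _) fun a _ ha => by rw [hF a ha, zero_mul]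

theorem rm_pow_out {H0 : Finset V} {a : V} (ha : a ∉ H0) (k : ℕ) (F : V → ℝ) :
    ((rm X H0) ^ (k + 1) *ᵥ F) a = 0 := by
  rw [pow_succ', ← Matrix.mulVec_mulVec]
  exact rm_mulVec_out H0 _ ha

/-- sums over `H0` of products of walk vectors -/
theorem sum_Tk (hX : Wt X) (H0 : Finset V) (i j : ℕ) (F G : V → ℝ) :
    ∑ a ∈ H0, ((rm X H0) ^ (i + 1) *ᵥ F) a * ((rm X H0) ^ j *ᵥ G) a
      = Tk X H0 (i + 1 + j) F G := by
  rw [sum_out (fun a ha => rm_pow_out ha i F), Tk_shift hX]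

theorem dsum_Tk (hX : Wt X) (H0 : Finset V) (i j : ℕ) (F G : V → ℝ) :
    ∑ a ∈ H0, ∑ b ∈ H0, X a b * (((rm X H0) ^ i *ᵥ F) a * ((rm X H0) ^ j *ᵥ G) b)
      = Tk X H0 (i + 1 + j) F G := by
  have e : ∀ a ∈ H0, ∑ b ∈ H0, X a b * (((rm X H0) ^ i *ᵥ F) a * ((rm X H0) ^ j *ᵥ G) b)
      = ((rm X H0) ^ (j + 1) *ᵥ G) a * ((rm X H0) ^ i *ᵥ F) a := by
    intro a ha
    rw [pow_succ', ← Matrix.mulVec_mulVec, rm_mulVec H0 _ ha, Finset.sum_mul]
    exact Finset.sum_congr rfl fun b _ => by ring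
  rw [Finset.sum_congr rfl e, sum_Tk hX, Tk_comm hX]
  congr 1
  omega

theorem D2_eq (hX : Wt X) (H0 : Finset V) (F G : V → ℝ) : D2 X H0 F G = Tk X H0 1 F G := by
  have := dsum_Tk hX H0 0 0 F G
  simpa [D2, Matrix.one_mulVec] using this

/-! ### the row lemma -/

theorem row_poly {m p q : ℝ} (_hm0 : 0 ≤ m) (hm1 : m ≤ 23 / 20) (hp : 0 ≤ p) (hq : 0 ≤ q)
    (hpq : p + q ≤ 1) :
    (1 + m * Fc p) * ((1 + 877 / 1000 * q) * (1287501 / 1000000 * (1 - p - q)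
      + 54 / 100 * (1 - p)) + 4464 / 10000 * ((1 - p - q) + (1 - q))) ≤ 59 / 20 := by
  have hF := Fc_nonneg hp
  have hmF : m * Fc p ≤ 23 / 20 * Fc p := mul_le_mul_of_nonneg_right hm1 hF
  have hA0 : 0 ≤ (1 + 877 / 1000 * q) * (1287501 / 1000000 * (1 - p - q)
      + 54 / 100 * (1 - p)) + 4464 / 10000 * ((1 - p - q) + (1 - q)) := by
    have h1 : 0 ≤ 1 - p - q := by linarith
    have h2 : 0 ≤ 1 - p := by linarith
    have h3 : 0 ≤ 1 - q := by linarith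
    positivity
  have hA1 : (1 + 877 / 1000 * q) * (1287501 / 1000000 * (1 - p - q)
      + 54 / 100 * (1 - p)) + 4464 / 10000 * ((1 - p - q) + (1 - q))
      ≤ 27203 / 10000 + 1 / 1000000 - 22739 / 10000 * p := by
    nlinarith [mul_nonneg hq hp, mul_nonneg hq hq, mul_nonneg hq (sub_nonneg.2 hpq)]
  have h2 : (1 + m * Fc p) * ((1 + 877 / 1000 * q) * (1287501 / 1000000 * (1 - p - q)
      + 54 / 100 * (1 - p)) + 4464 / 10000 * ((1 - p - q) + (1 - q)))
      ≤ (1 + 23 / 20 * Fc p) * (27203 / 10000 + 1 / 1000000 - 22739 / 10000 * p) :=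
    mul_le_mul (by linarith) hA1 hA0 (by positivity)
  refine h2.trans ?_
  unfold Fc
  nlinarith [sq_nonneg (p - 37 / 100), mul_nonneg hp (sq_nonneg (p - 37 / 100)),
    mul_nonneg (show (0:ℝ) ≤ 1 - p by linarith) (sq_nonneg (p - 37 / 100))]

/-- weights of an edge seen from `a`: `x + p + q ≤ 1` -/
theorem edge_poly {m x p q : ℝ} (hm0 : 0 ≤ m) (hm1 : m ≤ 23 / 20) (hx : 0 ≤ x) (hp : 0 ≤ p)
    (hq : 0 ≤ q) (hxpq : x + p + q ≤ 1) {qa : ℝ} (hqa : 0 ≤ qa) :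
    x * ((1 + m * Fc p) * (1 + 877 / 1000 * qa + 2 * (877 / 1000) * q))
      ≤ (1 + 877 / 1000 * qa) * (1287501 / 1000000 * x + 54 / 100 * p)
        + 4464 / 10000 * (x + q) := by
  have hF := Fc_nonneg hp
  have h1 : x * Fc p ≤ 1 / 4 * x + (1 / 4 + 877 / 4000) * p := bi_bound hx hp (by linarith)
  have h2 : x * (m * Fc p) ≤ 287501 / 1000000 * x + 54 / 100 * p := by
    have : m * (x * Fc p) ≤ 23 / 20 * (1 / 4 * x + (1 / 4 + 877 / 4000) * p) :=
      mul_le_mul hm1 h1 (mul_nonneg hx hF) (by norm_num)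
    nlinarith
  have h3 : x * (1 + m * Fc p) ≤ 1287501 / 1000000 * x + 54 / 100 * p := by nlinarith
  have h4 : (2 * (877 / 1000)) * (x * q * (1 + m * Fc p)) ≤ 4464 / 10000 * (x + q) := by
    have hxq : 4 * (x * q) ≤ (1 - p) * (x + q) := by
      nlinarith [sq_nonneg (x - q), mul_nonneg (add_nonneg hx hq)
        (show 0 ≤ 1 - p - (x + q) by linarith)]
    have hg : (1 - p) * (1 + m * Fc p) ≤ 10179 / 10000 := by
      have : (1 - p) * (1 + m * Fc p) ≤ (1 - p) * (1 + 23 / 20 * Fc p) :=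
        mul_le_mul_of_nonneg_left (by nlinarith) (by linarith)
      refine this.trans ?_
      unfold Fc
      nlinarith [sq_nonneg (p - 18 / 100), mul_nonneg hp (sq_nonneg (p - 18 / 100))]
    have h0 : 0 ≤ 1 + m * Fc p := by positivity
    have := mul_le_mul_of_nonneg_right hxq h0
    have h5 : (x + q) * ((1 - p) * (1 + m * Fc p)) ≤ (x + q) * (10179 / 10000) :=
      mul_le_mul_of_nonneg_left hg (add_nonneg hx hq)
    nlinarith [add_nonneg hx hq]
  have h5 := mul_le_mul_of_nonneg_left h3 (show 0 ≤ 1 + 877 / 1000 * qa by positivity)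
  nlinarith

theorem exp_le_1158 {m P : ℝ} (hm0 : 0 ≤ m) (hm1 : m ≤ 23 / 20) (hP0 : 0 ≤ P) (hP : P ≤ 1) :
    Real.exp (m * P) ≤ 316 / 100 := by
  have h := exp_Fc (m := m) (y := P) ⟨hm0, hm1⟩ hP0 hP
  have hF : Fc P ≤ 1877 / 1000 := by unfold Fc; nlinarith
  have : m * Fc P ≤ 23 / 20 * (1877 / 1000) :=
    mul_le_mul hm1 hF (Fc_nonneg hP0) (by norm_num)
  linarith

/-- the row lemma -/
theorem PV.rowl (hX : Wt X) {H0 : Finset V} {p q : V → ℝ} (hP : PV X H0 p q)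
    (hp1 : ∑ b ∈ H0, p b ≤ 1) (hq1 : ∑ b ∈ H0, q b ≤ 1)
    {m : ℝ} (hm0 : 0 ≤ m) (hm1 : m ≤ 23 / 20) {a : V} (ha : a ∈ H0) :
    ∑ b ∈ H0, X a b * (Fc (q a + q b) * Real.exp (m * (p a + p b)))
      ≤ 59 / 20 * q a + 316 / 100 * ∑ b ∈ H0, X a b * Fc (q b) := by
  have hpa := hP.p0 a
  have hqa := hP.q0 a
  have hrow := hP.row a ha
  have hX0 : 0 ≤ ∑ b ∈ H0, X a b := Finset.sum_nonneg fun b _ => hX.nonneg a b
  have hpa1 : p a ≤ 1 := by linarith
  have e0 : Real.exp (m * p a) ≤ 1 + m * Fc (p a) := exp_Fc ⟨hm0, hm1⟩ hpa hpa1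
  have er : ∀ g : V → ℝ, ∑ b ∈ H0, X a b * g b = ∑ b ∈ H0.erase a, X a b * g b := fun g => by
    rw [← Finset.add_sum_erase H0 _ ha, hX.diag, zero_mul, zero_add]
  rw [er, er]
  have hsub : ∀ b ∈ H0.erase a, b ∈ H0 := fun b hb => Finset.mem_of_mem_erase hb
  -- termwise
  have hb : ∀ b ∈ H0.erase a, X a b * (Fc (q a + q b) * Real.exp (m * (p a + p b)))
      ≤ q a * (Real.exp (m * p a) * (X a b * ((1 + m * Fc (p b)) * (1 + 877 / 1000 * q a
          + 2 * (877 / 1000) * q b)))) + 316 / 100 * (X a b * Fc (q b)) := by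
    intro b hb'
    have hb := hsub b hb'
    have hab : a ≠ b := (Finset.ne_of_mem_erase hb').symm
    have hx := hX.nonneg a b
    have hpb := hP.p0 b
    have hqb := hP.q0 b
    have hPP := hP.pp a ha b hb hab
    have hpb1 : p b ≤ 1 := by linarith
    have hE : Real.exp (m * (p a + p b)) ≤ 316 / 100 :=
      exp_le_1158 hm0 hm1 (add_nonneg hpa hpb) hPP
    have hE2 : Real.exp (m * (p a + p b)) ≤ Real.exp (m * p a) * (1 + m * Fc (p b)) := by
      rw [mul_add, Real.exp_add]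
      exact mul_le_mul_of_nonneg_left (exp_Fc ⟨hm0, hm1⟩ hpb hpb1) (Real.exp_nonneg _)
    have hF : Fc (q a + q b) = Fc (q b) + q a * (1 + 877 / 1000 * q a + 2 * (877 / 1000) * q b) := by
      unfold Fc; ring
    have hFb := Fc_nonneg hqb
    have k0 : 0 ≤ q a * (1 + 877 / 1000 * q a + 2 * (877 / 1000) * q b) := by positivity
    rw [hF, add_mul, mul_add]
    have t1 : X a b * (Fc (q b) * Real.exp (m * (p a + p b)))
        ≤ X a b * (Fc (q b) * (316 / 100)) :=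
      mul_le_mul_of_nonneg_left (mul_le_mul_of_nonneg_left hE hFb) hx
    have t2 : X a b * (q a * (1 + 877 / 1000 * q a + 2 * (877 / 1000) * q b)
          * Real.exp (m * (p a + p b)))
        ≤ X a b * (q a * (1 + 877 / 1000 * q a + 2 * (877 / 1000) * q b)
          * (Real.exp (m * p a) * (1 + m * Fc (p b)))) :=
      mul_le_mul_of_nonneg_left (mul_le_mul_of_nonneg_left hE2 k0) hx
    calc _ ≤ X a b * (Fc (q b) * (316 / 100)) + X a b * (q a * (1 + 877 / 1000 * q a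
          + 2 * (877 / 1000) * q b) * (Real.exp (m * p a) * (1 + m * Fc (p b)))) :=
          add_le_add t1 t2
      _ = _ := by ring
  have hsum := Finset.sum_le_sum hb
  rw [Finset.sum_add_distrib, ← Finset.mul_sum, ← Finset.mul_sum, ← Finset.mul_sum] at hsum
  -- the inner sum
  have hb2 : ∀ b ∈ H0.erase a, X a b * ((1 + m * Fc (p b)) * (1 + 877 / 1000 * q a
      + 2 * (877 / 1000) * q b)) ≤ (1 + 877 / 1000 * q a) * (1287501 / 1000000 * X a b
        + 54 / 100 * p b) + 4464 / 10000 * (X a b + q b) := by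
    intro b hb'
    have hb := hsub b hb'
    refine edge_poly hm0 hm1 (hX.nonneg a b) (hP.p0 b) (hP.q0 b) ?_ hqa
    have h1 := hP.row b hb
    have h2 : X b a ≤ ∑ c ∈ H0, X b c :=
      Finset.single_le_sum (f := fun c => X b c) (fun c _ => hX.nonneg b c) ha
    rw [hX.symm a b]; linarith
  have hsum2 := Finset.sum_le_sum hb2
  have e2 : ∑ b ∈ H0.erase a, ((1 + 877 / 1000 * q a) * (1287501 / 1000000 * X a b
        + 54 / 100 * p b) + 4464 / 10000 * (X a b + q b))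
      = (1 + 877 / 1000 * q a) * (1287501 / 1000000 * ∑ b ∈ H0.erase a, X a b
        + 54 / 100 * ∑ b ∈ H0.erase a, p b)
        + 4464 / 10000 * (∑ b ∈ H0.erase a, X a b + ∑ b ∈ H0.erase a, q b) := by
    simp only [Finset.sum_add_distrib, ← Finset.mul_sum]
  rw [e2] at hsum2
  have hpa' : ∑ b ∈ H0.erase a, p b ≤ 1 - p a := by
    rw [← Finset.add_sum_erase H0 _ ha] at hp1; linarith
  have hqa' : ∑ b ∈ H0.erase a, q b ≤ 1 - q a := by
    rw [← Finset.add_sum_erase H0 _ ha] at hq1; linarith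
  have hxa' : ∑ b ∈ H0.erase a, X a b ≤ 1 - p a - q a := by
    rw [← Finset.add_sum_erase H0 _ ha, hX.diag] at hrow; linarith
  have hI0 : 0 ≤ ∑ b ∈ H0.erase a, X a b * ((1 + m * Fc (p b)) * (1 + 877 / 1000 * q a
      + 2 * (877 / 1000) * q b)) := Finset.sum_nonneg fun b _ => by
    have := hX.nonneg a b
    have := hP.p0 b
    have := hP.q0 b
    have := Fc_nonneg (hP.p0 b)
    positivity
  have hI : ∑ b ∈ H0.erase a, X a b * ((1 + m * Fc (p b)) * (1 + 877 / 1000 * q a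
      + 2 * (877 / 1000) * q b)) ≤ (1 + 877 / 1000 * q a) * (1287501 / 1000000 * (1 - p a - q a)
        + 54 / 100 * (1 - p a)) + 4464 / 10000 * ((1 - p a - q a) + (1 - q a)) := by
    refine hsum2.trans ?_
    have k1 : (1 + 877 / 1000 * q a) * (1287501 / 1000000 * ∑ b ∈ H0.erase a, X a b
        + 54 / 100 * ∑ b ∈ H0.erase a, p b) ≤ (1 + 877 / 1000 * q a) *
          (1287501 / 1000000 * (1 - p a - q a) + 54 / 100 * (1 - p a)) :=
      mul_le_mul_of_nonneg_left (by linarith) (by positivity)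
    linarith
  have hfin : Real.exp (m * p a) * ∑ b ∈ H0.erase a, X a b * ((1 + m * Fc (p b)) *
      (1 + 877 / 1000 * q a + 2 * (877 / 1000) * q b)) ≤ 59 / 20 :=
    (mul_le_mul e0 hI hI0 (by have := Fc_nonneg hpa; positivity)).trans
      (row_poly hm0 hm1 hpa hqa (by linarith))
  have := mul_le_mul_of_nonneg_left hfin hqa
  linarith

end Pool.Agent.RCG
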