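import Pool.Agent.RCG.FRate2

/-! Form-level pair rates with tails (MP_73ccd0_lc). -/

namespace Pool.Agent.RCG

open Set Finset Matrix Pool.Agent.RCRSHalf

set_option linter.unusedSectionVars false

variable {V : Type*} [Fintype V] [DecidableEq V]
variable {h : ℝ → V → V → ℝ} {H : V → V → ℝ → ℝ} {X : V → V → ℝ} {M μ : ℝ → ℝ} {t : ℝ}

theorem exp_lin {y : ℝ} (h0 : 0 ≤ y) (h1 : y ≤ 279 / 1000) : Real.exp y ≤ 1 + 116 / 100 * y := by
  have hb := Real.exp_bound' h0 (h1.trans (by norm_num)) (n := 3) (by norm_num)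
  simp only [Finset.sum_range_succ, Finset.sum_range_zero, Nat.factorial] at hb
  norm_num at hb
  have hy2 : y ^ 2 ≤ 279 / 1000 * y := by nlinarith
  have hy3 : y ^ 3 ≤ (279 / 1000) ^ 2 * y := by nlinarith [mul_nonneg h0 h0]
  nlinarith

/-- half of a symmetric double sum -/
theorem half_symm {H0 : Finset V} {x : V → V → ℝ} (hx : ∀ a b, x a b = x b a) (Y : V → ℝ)
    {g : V → V → ℝ} (hg : ∀ a b, g a b = g b a) :
    (1 / 2) * ∑ a ∈ H0, ∑ b ∈ H0, x a b * ((Y a + Y b) * g a b)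
      = ∑ a ∈ H0, Y a * ∑ b ∈ H0, x a b * g a b := by
  have e1 : ∑ a ∈ H0, ∑ b ∈ H0, x a b * ((Y a + Y b) * g a b)
      = ∑ a ∈ H0, ∑ b ∈ H0, x a b * (Y a * g a b) + ∑ a ∈ H0, ∑ b ∈ H0, x a b * (Y b * g a b) := by
    rw [← Finset.sum_add_distrib]
    refine Finset.sum_congr rfl fun a _ => ?_
    rw [← Finset.sum_add_distrib]
    exact Finset.sum_congr rfl fun b _ => by ring
  have e2 : ∑ a ∈ H0, ∑ b ∈ H0, x a b * (Y b * g a b)
      = ∑ a ∈ H0, ∑ b ∈ H0, x a b * (Y a * g a b) := by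
    rw [dsum_symm hx (fun a b => Y b * g a b)]
    exact Finset.sum_congr rfl fun a _ => Finset.sum_congr rfl fun b _ => by rw [hg b a]
  have e3 : ∑ a ∈ H0, ∑ b ∈ H0, x a b * (Y a * g a b)
      = ∑ a ∈ H0, Y a * ∑ b ∈ H0, x a b * g a b := by
    refine Finset.sum_congr rfl fun a _ => ?_
    rw [Finset.mul_sum]
    exact Finset.sum_congr rfl fun b _ => by ring
  rw [e1, e2, e3]; ring

/-- half of the product double sum -/
theorem half_prod (hX : Wt X) {H0 : Finset V} (N N' : V → ℝ) (h0 : ∀ a ∈ H0, 0 ≤ N a * N' a) :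
    (1 / 2) * ∑ a ∈ H0, ∑ b ∈ H0, X a b * ((N a + N b) * (N' a + N' b))
      ≤ ∑ a ∈ H0, N a * N' a + ∑ a ∈ H0, ∑ b ∈ H0, X a b * (N a * N' b) := by
  rw [half_symm hX.symm N (g := fun a b => N' a + N' b) (fun a b => add_comm _ _)]
  have e1 : ∀ a ∈ H0, N a * ∑ b ∈ H0, X a b * (N' a + N' b)
      ≤ N a * N' a + ∑ b ∈ H0, X a b * (N a * N' b) := by
    intro a ha
    have hr : ∑ b ∈ H0, X a b ≤ 1 := hX.row_le a H0
    have e : N a * ∑ b ∈ H0, X a b * (N' a + N' b)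
        = (∑ b ∈ H0, X a b) * (N a * N' a) + ∑ b ∈ H0, X a b * (N a * N' b) := by
      rw [Finset.mul_sum, Finset.sum_mul, ← Finset.sum_add_distrib]
      exact Finset.sum_congr rfl fun b _ => by ring
    rw [e]
    have := mul_le_mul_of_nonneg_right hr (h0 a ha)
    linarith
  exact (Finset.sum_le_sum e1).trans (by rw [Finset.sum_add_distrib])

theorem edge_full {m m' P Q y y' : ℝ} (hm0 : 0 ≤ m) (hm1 : m ≤ 23 / 20) (hm0' : 0 ≤ m')
    (hm1' : m' ≤ 23 / 20) (hP0 : 0 ≤ P) (hP1 : P ≤ 1) (hQ0 : 0 ≤ Q) (hQ1 : Q ≤ 1) (hy0 : 0 ≤ y)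
    (hy1 : y ≤ 279 / 1000) (hy0' : 0 ≤ y') (hy1' : y' ≤ 279 / 1000) :
    (Real.exp (m * P + y) - 1) * (Real.exp (m' * Q + y') - 1)
      ≤ m * m' * (Fc P * Fc Q)
        + 15355 / 10000 * m' * (y * (Fc Q * Real.exp (m * P)))
        + 116 / 100 * m * (y' * (Fc P * Real.exp (m' * Q)))
        + 425216 / 100000 * (y * y') := by
  have hE := exp_Fc (m := m) (y := P) ⟨hm0, hm1⟩ hP0 hP1
  have hG := exp_Fc (m := m') (y := Q) ⟨hm0', hm1'⟩ hQ0 hQ1
  have hE3 := exp_le_1158 hm0 hm1 hP0 hP1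
  have hy := exp_lin hy0 hy1
  have hy' := exp_lin hy0' hy1'
  have hFP := Fc_nonneg hP0
  have hFQ := Fc_nonneg hQ0
  have hE0 := Real.exp_pos (m * P)
  have hG0 := Real.exp_pos (m' * Q)
  have a1 : Real.exp (m * P + y) - 1 ≤ m * Fc P + 116 / 100 * (y * Real.exp (m * P)) := by
    rw [Real.exp_add]
    nlinarith [mul_le_mul_of_nonneg_left hy hE0.le]
  have a2 : Real.exp (m' * Q + y') - 1 ≤ m' * Fc Q + 116 / 100 * (y' * Real.exp (m' * Q)) := by
    rw [Real.exp_add]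
    nlinarith [mul_le_mul_of_nonneg_left hy' hG0.le]
  have b2 : 0 ≤ Real.exp (m' * Q + y') - 1 := by
    have := Real.one_le_exp (show 0 ≤ m' * Q + y' by positivity); linarith
  have b1 : 0 ≤ m * Fc P + 116 / 100 * (y * Real.exp (m * P)) := by positivity
  refine (mul_le_mul a1 a2 b2 b1).trans ?_
  -- expand
  have c1 : y * y' * (Real.exp (m * P) * Real.exp (m' * Q))
      ≤ y * y' * (Real.exp (m * P) * (1 + m' * Fc Q)) :=
    mul_le_mul_of_nonneg_left (mul_le_mul_of_nonneg_left hG hE0.le) (mul_nonneg hy0 hy0')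
  have c2 : y * y' * Real.exp (m * P) ≤ y * y' * (316 / 100) :=
    mul_le_mul_of_nonneg_left hE3 (mul_nonneg hy0 hy0')
  have c3 : y' * (m' * (y * (Fc Q * Real.exp (m * P))))
      ≤ 279 / 1000 * (m' * (y * (Fc Q * Real.exp (m * P)))) :=
    mul_le_mul_of_nonneg_right hy1' (by positivity)
  have n1 : 0 ≤ m' * (y * (Fc Q * Real.exp (m * P))) := by positivity
  have n2 : 0 ≤ y * y' := mul_nonneg hy0 hy0'
  have d1 := mul_le_mul_of_nonneg_left c1 (show (0 : ℝ) ≤ 13456 / 10000 by norm_num)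
  have d2 := mul_le_mul_of_nonneg_left c2 (show (0 : ℝ) ≤ 13456 / 10000 by norm_num)
  have d3 := mul_le_mul_of_nonneg_left c3 (show (0 : ℝ) ≤ 13456 / 10000 by norm_num)
  ring_nf at d1 d2 d3 n1 n2 ⊢
  linarith

/-- a pair of full influence vectors -/
theorem PV.full (hX : Wt X) {H0 : Finset V} {p q : V → ℝ} (hP : PV X H0 p q)
    (hQ : PV X H0 q p)
    (hp1 : ∑ b ∈ H0, p b ≤ 1) (hq1 : ∑ b ∈ H0, q b ≤ 1)
    {m m' : ℝ} (hm0 : 0 ≤ m) (hm1 : m ≤ 23 / 20) (hm0' : 0 ≤ m') (hm1' : m' ≤ 23 / 20)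
    {Y Y' : V → ℝ} (hY0 : ∀ a ∈ H0, 0 ≤ Y a) (hY0' : ∀ a ∈ H0, 0 ≤ Y' a)
    (hY1 : ∀ a ∈ H0, Y a ≤ 1395 / 10000) (hY1' : ∀ a ∈ H0, Y' a ≤ 1395 / 10000) :
    (1 / 2) * ∑ a ∈ H0, ∑ b ∈ H0, X a b * ((Real.exp (m * (p a + p b) + (Y a + Y b)) - 1)
        * (Real.exp (m' * (q a + q b) + (Y' a + Y' b)) - 1))
      ≤ m * m' * (122 / 100 * (D1 H0 p q + D2 X H0 (fun a => Fc (p a)) (fun a => Fc (q a))))
        + 15355 / 10000 * m' * ∑ a ∈ H0, Y a * (59 / 20 * q a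
            + 316 / 100 * ∑ b ∈ H0, X a b * Fc (q b))
        + 116 / 100 * m * ∑ a ∈ H0, Y' a * (59 / 20 * p a
            + 316 / 100 * ∑ b ∈ H0, X a b * Fc (p b))
        + 425216 / 100000 * (∑ a ∈ H0, Y a * Y' a + ∑ a ∈ H0, ∑ b ∈ H0, X a b * (Y a * Y' b)) := by
  have step : ∀ a ∈ H0, ∀ b ∈ H0, X a b * ((Real.exp (m * (p a + p b) + (Y a + Y b)) - 1)
        * (Real.exp (m' * (q a + q b) + (Y' a + Y' b)) - 1))
      ≤ m * m' * (X a b * (Fc (p a + p b) * Fc (q a + q b)))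
        + 15355 / 10000 * m' * (X a b * ((Y a + Y b) * (Fc (q a + q b)
            * Real.exp (m * (p a + p b)))))
        + 116 / 100 * m * (X a b * ((Y' a + Y' b) * (Fc (p a + p b)
            * Real.exp (m' * (q a + q b)))))
        + 425216 / 100000 * (X a b * ((Y a + Y b) * (Y' a + Y' b))) := by
    intro a ha b hb
    by_cases hab : a = b
    · subst hab; rw [hX.diag]; simp
    have h1 := edge_full hm0 hm1 hm0' hm1' (add_nonneg (hP.p0 a) (hP.p0 b))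
      (hP.pp a ha b hb hab) (add_nonneg (hP.q0 a) (hP.q0 b)) (hP.qq a ha b hb hab)
      (add_nonneg (hY0 a ha) (hY0 b hb)) (by linarith [hY1 a ha, hY1 b hb])
      (add_nonneg (hY0' a ha) (hY0' b hb)) (by linarith [hY1' a ha, hY1' b hb])
    have := mul_le_mul_of_nonneg_left h1 (hX.nonneg a b)
    refine this.trans (le_of_eq ?_)
    ring
  have hs := Finset.sum_le_sum fun a ha => Finset.sum_le_sum fun b hb => step a ha b hb
  have e1 : ∀ (f g k l : V → V → ℝ) (c1 c2 c3 c4 : ℝ),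
      ∑ a ∈ H0, ∑ b ∈ H0, (c1 * f a b + c2 * g a b + c3 * k a b + c4 * l a b)
        = c1 * (∑ a ∈ H0, ∑ b ∈ H0, f a b) + c2 * (∑ a ∈ H0, ∑ b ∈ H0, g a b)
          + c3 * (∑ a ∈ H0, ∑ b ∈ H0, k a b) + c4 * (∑ a ∈ H0, ∑ b ∈ H0, l a b) := by
    intro f g k l c1 c2 c3 c4
    simp only [Finset.sum_add_distrib, Finset.mul_sum]
  rw [e1] at hs
  have m1 := hP.main hX
  have m2 := half_symm (H0 := H0) hX.symm Y
    (g := fun a b => Fc (q a + q b) * Real.exp (m * (p a + p b)))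
    (fun a b => by rw [add_comm (q a), add_comm (p a)])
  have m3 := half_symm (H0 := H0) hX.symm Y'
    (g := fun a b => Fc (p a + p b) * Real.exp (m' * (q a + q b)))
    (fun a b => by rw [add_comm (q a), add_comm (p a)])
  have m4 := half_prod hX (H0 := H0) Y Y' (fun a ha => mul_nonneg (hY0 a ha) (hY0' a ha))
  have r2 : ∑ a ∈ H0, Y a * ∑ b ∈ H0, X a b * (Fc (q a + q b) * Real.exp (m * (p a + p b)))
      ≤ ∑ a ∈ H0, Y a * (59 / 20 * q a + 316 / 100 * ∑ b ∈ H0, X a b * Fc (q b)) :=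
    Finset.sum_le_sum fun a ha => mul_le_mul_of_nonneg_left
      (hP.rowl hX hp1 hq1 hm0 hm1 ha) (hY0 a ha)
  have r3 : ∑ a ∈ H0, Y' a * ∑ b ∈ H0, X a b * (Fc (p a + p b) * Real.exp (m' * (q a + q b)))
      ≤ ∑ a ∈ H0, Y' a * (59 / 20 * p a + 316 / 100 * ∑ b ∈ H0, X a b * Fc (p b)) :=
    Finset.sum_le_sum fun a ha => mul_le_mul_of_nonneg_left
      (hQ.rowl hX hq1 hp1 hm0' hm1' ha) (hY0' a ha)
  have k1 := mul_le_mul_of_nonneg_left m1 (mul_nonneg hm0 hm0')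
  have k2 := mul_le_mul_of_nonneg_left r2 (show 0 ≤ 15355 / 10000 * m' by positivity)
  have k3 := mul_le_mul_of_nonneg_left r3 (show 0 ≤ 116 / 100 * m by positivity)
  rw [← m2] at k2
  rw [← m3] at k3
  linarith

end Pool.Agent.RCG
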