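import Pool.Agent.RCG.FRate3

/-! Explicit form-level rates in the context (MP_73ccd0_lc). -/

namespace Pool.Agent.RCG

open Set Finset Matrix Pool.Agent.RCRSHalf

set_option linter.unusedSectionVars false

variable {V : Type*} [Fintype V] [DecidableEq V]
variable {h : ℝ → V → V → ℝ} {H : V → V → ℝ → ℝ} {X : V → V → ℝ} {M μ : ℝ → ℝ} {t : ℝ}

/-- the kernels with `c = 151/1000` -/
noncomputable def B2 (m : ℝ) : ℝ := b2 (151 / 1000) m
noncomputable def G3 (m : ℝ) : ℝ := g3 (151 / 1000) m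

theorem B2_nonneg {m : ℝ} (hm : 0 ≤ m) : 0 ≤ B2 m := b2_nonneg (by norm_num) hm
theorem G3_nonneg {m : ℝ} (hm : 0 ≤ m) : 0 ≤ G3 m := g3_nonneg (by norm_num) hm

/-- forms of a pair of targets -/
noncomputable def Tp (X : V → V → ℝ) (H0 : Finset V) (p q : V) (k : ℕ) : ℝ :=
  Tk X H0 k (Rh X H0 p) (Rh X H0 q)

/-- the leading form of a pair of targets -/
noncomputable def Ph (X : V → V → ℝ) (H0 : Finset V) (p q : V) : ℝ :=
  D1 H0 (fun a => X p a) (fun a => X q a)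
    + D2 X H0 (fun a => Fc (X p a)) (fun a => Fc (X q a))

theorem Tp_nonneg (hX : Wt X) (H0 : Finset V) (p q : V) (k : ℕ) : 0 ≤ Tp X H0 p q k :=
  Tk_nonneg hX H0 k (Rh_nonneg hX H0 p) (Rh_nonneg hX H0 q)

theorem Tp_comm (hX : Wt X) (H0 : Finset V) (p q : V) (k : ℕ) : Tp X H0 p q k = Tp X H0 q p k :=
  Tk_comm hX H0 k _ _

theorem Ph_nonneg (hX : Wt X) (H0 : Finset V) (p q : V) : 0 ≤ Ph X H0 p q :=
  add_nonneg (Finset.sum_nonneg fun _ _ => mul_nonneg (hX.nonneg _ _) (hX.nonneg _ _))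
    (Finset.sum_nonneg fun _ _ => Finset.sum_nonneg fun _ _ => mul_nonneg (hX.nonneg _ _)
      (mul_nonneg (Fc_nonneg (hX.nonneg _ _)) (Fc_nonneg (hX.nonneg _ _))))

noncomputable def fru2 (X : V → V → ℝ) (H0 : Finset V) (p q : V) (m m' : ℝ) : ℝ :=
  122 / 100 * (m * m') * Ph X H0 p q
    + (15355 / 10000 * (m' * G3 m) + 116 / 100 * (m * G3 m'))
      * (59 / 20 * Tp X H0 p q 2 + 316 / 100 * Tp X H0 p q 3)
    + 425216 / 100000 * (G3 m * G3 m') * (Tp X H0 p q 4 + Tp X H0 p q 5)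
    + B2 m * B2 m' * (Tp X H0 p q 2 + Tp X H0 p q 3)

noncomputable def frl2 (X : V → V → ℝ) (H0 : Finset V) (p q : V) (m m' : ℝ) : ℝ :=
  (m' * B2 m + m * B2 m') * (1877 / 1000 * Tp X H0 p q 1 + Tp X H0 p q 2)
    + 366560 / 100000 * (B2 m * G3 m' + B2 m' * G3 m) * (Tp X H0 p q 3 + Tp X H0 p q 4)

theorem fru2_nonneg (hX : Wt X) (H0 : Finset V) (p q : V) {m m' : ℝ} (hm : 0 ≤ m) (hm' : 0 ≤ m') :
    0 ≤ fru2 X H0 p q m m' := by
  have h1 := Ph_nonneg hX H0 p q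
  have h2 := Tp_nonneg hX H0 p q 2
  have h3 := Tp_nonneg hX H0 p q 3
  have h4 := Tp_nonneg hX H0 p q 4
  have h5 := Tp_nonneg hX H0 p q 5
  have a := G3_nonneg hm
  have a' := G3_nonneg hm'
  have b := B2_nonneg hm
  have b' := B2_nonneg hm'
  have c1 := mul_nonneg hm hm'
  have c2 := mul_nonneg hm' a
  have c3 := mul_nonneg hm a'
  have c4 := mul_nonneg a a'
  have c5 := mul_nonneg b b'
  unfold fru2
  refine add_nonneg (add_nonneg (add_nonneg ?_ ?_) ?_) ?_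
  · exact mul_nonneg (by linarith) h1
  · exact mul_nonneg (by linarith) (by linarith)
  · exact mul_nonneg (by linarith) (by linarith)
  · exact mul_nonneg c5 (by linarith)

theorem frl2_nonneg (hX : Wt X) (H0 : Finset V) (p q : V) {m m' : ℝ} (hm : 0 ≤ m) (hm' : 0 ≤ m') :
    0 ≤ frl2 X H0 p q m m' := by
  have h1 := Tp_nonneg hX H0 p q 1
  have h2 := Tp_nonneg hX H0 p q 2
  have h3 := Tp_nonneg hX H0 p q 3
  have h4 := Tp_nonneg hX H0 p q 4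
  have a := G3_nonneg hm
  have a' := G3_nonneg hm'
  have b := B2_nonneg hm
  have b' := B2_nonneg hm'
  have c1 := mul_nonneg hm' b
  have c2 := mul_nonneg hm b'
  have c3 := mul_nonneg b a'
  have c4 := mul_nonneg b' a
  unfold frl2
  refine add_nonneg ?_ ?_
  · exact mul_nonneg (by linarith) (by linarith)
  · exact mul_nonneg (by linarith) (by linarith)

/-- closure values of one target -/
structure Tv (X : V → V → ℝ) (H0 : Finset V) (p : V) (m : ℝ) (P N Y : V → ℝ) : Prop where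
  P0 : ∀ a ∈ H0, 0 ≤ P a
  PY : ∀ a ∈ H0, 1 + P a ≤ Real.exp (m * X p a + Y a)
  Y0 : ∀ a ∈ H0, 0 ≤ Y a
  YR : ∀ a ∈ H0, Y a ≤ G3 m * ((rm X H0) ^ 2 *ᵥ Rh X H0 p) a
  N0 : ∀ a ∈ H0, 0 ≤ N a
  NR : ∀ a ∈ H0, N a ≤ B2 m * ((rm X H0) ^ 1 *ᵥ Rh X H0 p) a

theorem G3_le {m : ℝ} (hm : m ∈ Icc (0 : ℝ) (23 / 20)) : G3 m ≤ 26513 / 100000 := by
  unfold G3 g3
  have h3 : m ^ 3 ≤ (23 / 20) ^ 3 := pow_le_pow_left₀ hm.1 hm.2 3
  have h6 : m ^ 6 ≤ (23 / 20) ^ 6 := pow_le_pow_left₀ hm.1 hm.2 6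
  norm_num at h3 h6 ⊢
  linarith

theorem Cx.tv (hC : Cx h H X M μ t) {H0 : Finset V} {p : V} (hp : p ∉ H0) {T r : ℝ}
    (hT : T ∈ Icc 0 t) (hr : r ∈ Icc 0 T) :
    Tv X H0 p (M T - M r) (fun a => Pt H X M H0 p T a r) (fun a => Nt X H0 p (M T - M r) a)
      (fun a => Yt X H0 p (M T - M r) a) := by
  have hm : M T - M r ∈ Icc (0 : ℝ) (23 / 20) :=
    ⟨sub_nonneg.2 (hC.mono hT r hr), by
      linarith [hC.Mle hT, hC.Mnn (r := r) ⟨hr.1, hr.2.trans hT.2⟩]⟩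
  have hcl := hC.clo hT hp
  refine ⟨fun a ha => hcl.P0 a ha r hr, fun a _ => ?_, fun a _ => Yt_nonneg hC.hX H0 p hm a,
    fun a _ => ?_, fun a ha => hcl.N0 a ha r hr, fun a _ => ?_⟩
  · show 1 + (Real.exp (H p a T - H p a r + Yt X H0 p (M T - M r) a) - 1) ≤ _
    have := hC.dH p a hr.1 hr.2 hT.2
    have h2 : Real.exp (H p a T - H p a r + Yt X H0 p (M T - M r) a)
        ≤ Real.exp ((M T - M r) * X p a + Yt X H0 p (M T - M r) a) :=
      Real.exp_le_exp.2 (by linarith)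
    linarith
  · have := Yt_le hC.hX H0 p hm a
    rw [pow_two, ← Matrix.mulVec_mulVec]
    exact this
  · have := Nt_le hC.hX H0 p hm a
    rw [pow_one]
    exact this

theorem Tv.Ysup (hX : Wt X) {H0 : Finset V} {p : V} (hp : p ∉ H0) {m : ℝ}
    (hm : m ∈ Icc (0 : ℝ) (23 / 20)) {P N Y : V → ℝ} (hT : Tv X H0 p m P N Y) {a : V}
    (ha : a ∈ H0) : Y a ≤ 1395 / 10000 := by
  have h1 := hT.YR a ha
  have h2 := rh_two hX hp a
  rw [pow_two, ← Matrix.mulVec_mulVec] at h1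
  have h3 := G3_le hm
  have h4 := G3_nonneg hm.1
  have h5 : G3 m * (rm X H0 *ᵥ (rm X H0 *ᵥ Rh X H0 p)) a ≤ 26513 / 100000 * (526 / 1000) :=
    mul_le_mul h3 h2 (mulVec_nonneg (hX.rm_nonneg H0) (fun b => mulVec_nonneg (hX.rm_nonneg H0)
      (fun b => Rh_nonneg hX H0 p b) b) a) (by norm_num)
  have h6 : (26513 / 100000 * (526 / 1000) : ℝ) ≤ 1395 / 10000 := by norm_num
  exact (h1.trans h5).trans h6

/-- sums against the closure vectors -/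
theorem sumY_le (hX : Wt X) {H0 : Finset V} {p q : V} {i j : ℕ} {Y Z : V → ℝ} {y z : ℝ}
    (hy : 0 ≤ y) (hZ0 : ∀ a ∈ H0, 0 ≤ Z a)
    (hY : ∀ a ∈ H0, Y a ≤ y * ((rm X H0) ^ (i + 1) *ᵥ Rh X H0 p) a)
    (hZ : ∀ a ∈ H0, Z a ≤ z * ((rm X H0) ^ j *ᵥ Rh X H0 q) a) :
    ∑ a ∈ H0, Y a * Z a ≤ y * z * Tp X H0 p q (i + 1 + j) := by
  unfold Tp
  rw [← sum_Tk hX H0 i j, Finset.mul_sum]
  refine Finset.sum_le_sum fun a ha => ?_
  have h1 : 0 ≤ ((rm X H0) ^ (i + 1) *ᵥ Rh X H0 p) a :=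
    mulVec_nonneg (MN.pow (hX.rm_nonneg H0) _) (fun b => Rh_nonneg hX H0 p b) a
  calc Y a * Z a ≤ (y * ((rm X H0) ^ (i + 1) *ᵥ Rh X H0 p) a) * Z a :=
        mul_le_mul_of_nonneg_right (hY a ha) (hZ0 a ha)
    _ ≤ (y * ((rm X H0) ^ (i + 1) *ᵥ Rh X H0 p) a) * (z * ((rm X H0) ^ j *ᵥ Rh X H0 q) a) :=
        mul_le_mul_of_nonneg_left (hZ a ha) (mul_nonneg hy h1)
    _ = _ := by ring

theorem dsumY_le (hX : Wt X) {H0 : Finset V} {p q : V} {i j : ℕ} {Y Z : V → ℝ} {y z : ℝ}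
    (hy : 0 ≤ y) (hZ0 : ∀ a ∈ H0, 0 ≤ Z a)
    (hY : ∀ a ∈ H0, Y a ≤ y * ((rm X H0) ^ i *ᵥ Rh X H0 p) a)
    (hZ : ∀ a ∈ H0, Z a ≤ z * ((rm X H0) ^ j *ᵥ Rh X H0 q) a) :
    ∑ a ∈ H0, ∑ b ∈ H0, X a b * (Y a * Z b) ≤ y * z * Tp X H0 p q (i + 1 + j) := by
  unfold Tp
  rw [← dsum_Tk hX H0 i j, Finset.mul_sum]
  refine Finset.sum_le_sum fun a ha => ?_
  rw [Finset.mul_sum]
  refine Finset.sum_le_sum fun b hb => ?_
  have h1 : 0 ≤ ((rm X H0) ^ i *ᵥ Rh X H0 p) a :=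
    mulVec_nonneg (MN.pow (hX.rm_nonneg H0) _) (fun b => Rh_nonneg hX H0 p b) a
  have h2 : Y a * Z b ≤ y * z * (((rm X H0) ^ i *ᵥ Rh X H0 p) a
      * ((rm X H0) ^ j *ᵥ Rh X H0 q) b) := by
    calc Y a * Z b ≤ (y * ((rm X H0) ^ i *ᵥ Rh X H0 p) a) * Z b :=
        mul_le_mul_of_nonneg_right (hY a ha) (hZ0 b hb)
      _ ≤ (y * ((rm X H0) ^ i *ᵥ Rh X H0 p) a) * (z * ((rm X H0) ^ j *ᵥ Rh X H0 q) b) :=
        mul_le_mul_of_nonneg_left (hZ b hb) (mul_nonneg hy h1)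
      _ = _ := by ring
  calc X a b * (Y a * Z b) ≤ X a b * (y * z * (((rm X H0) ^ i *ᵥ Rh X H0 p) a
      * ((rm X H0) ^ j *ᵥ Rh X H0 q) b)) := mul_le_mul_of_nonneg_left h2 (hX.nonneg a b)
    _ = _ := by ring

theorem Fc_row (hX : Wt X) {H0 : Finset V} (q : V) {a : V} (ha : a ∈ H0) :
    ∑ b ∈ H0, X a b * Fc (X q b) ≤ ((rm X H0) ^ 1 *ᵥ Rh X H0 q) a := by
  rw [pow_one, rm_mulVec H0 _ ha]
  exact Finset.sum_le_sum fun b _ => mul_le_mul_of_nonneg_left (Fc_le_Rh hX H0 q b) (hX.nonneg a b)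

theorem X_le_Rh (hX : Wt X) (H0 : Finset V) (q a : V) :
    X q a ≤ ((rm X H0) ^ 0 *ᵥ Rh X H0 q) a := by
  rw [pow_zero, Matrix.one_mulVec]
  refine le_trans ?_ (Fc_le_Rh hX H0 q a)
  have := hX.nonneg q a
  unfold Fc
  nlinarith [mul_nonneg this this]

/-- the explicit upper pair rate -/
theorem ru2_le (hX : Wt X) {H0 : Finset V} {p q : V} (hpq : p ≠ q) (hp : p ∉ H0) (hq : q ∉ H0)
    {m m' : ℝ} (hm : m ∈ Icc (0 : ℝ) (23 / 20)) (hm' : m' ∈ Icc (0 : ℝ) (23 / 20))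
    {P N Y P' N' Y' : V → ℝ} (hT : Tv X H0 p m P N Y) (hT' : Tv X H0 q m' P' N' Y')
    {hr : V → V → ℝ} {μr : ℝ} (hμ : 0 ≤ μr)
    (hle : ∀ a b, hr a b ≤ μr * X a b) :
    ru2 hr H0 P N P' N' ≤ μr * fru2 X H0 p q m m' := by
  have hPV : PV X H0 (fun a => X p a) (fun a => X q a) := hX.pv hpq hp hq
  have hPV' : PV X H0 (fun a => X q a) (fun a => X p a) := hX.pv hpq.symm hq hp
  have hs1 : ∑ b ∈ H0, X p b ≤ 1 := hX.row_le p _
  have hs2 : ∑ b ∈ H0, X q b ≤ 1 := hX.row_le q _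
  have hfull := hPV.full hX hPV' hs1 hs2 hm.1 hm.2 hm'.1 hm'.2 hT.Y0 hT'.Y0
    (fun a ha => hT.Ysup hX hp hm ha) (fun a ha => hT'.Ysup hX hq hm' ha)
  have hNN := half_prod hX (H0 := H0) N N' (fun a ha => mul_nonneg (hT.N0 a ha) (hT'.N0 a ha))
  -- reduction to the full sums
  have hterm : ∀ a ∈ H0, ∀ b ∈ H0,
      hr a b * (((1 + P a) * (1 + P b) - 1) * ((1 + P' a) * (1 + P' b) - 1)
        + (N a + N b) * (N' a + N' b))
      ≤ μr * (X a b * ((Real.exp (m * (X p a + X p b) + (Y a + Y b)) - 1)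
        * (Real.exp (m' * (X q a + X q b) + (Y' a + Y' b)) - 1))
        + X a b * ((N a + N b) * (N' a + N' b))) := by
    intro a ha b hb
    have e1 : (1 + P a) * (1 + P b) ≤ Real.exp (m * (X p a + X p b) + (Y a + Y b)) := by
      have := mul_le_mul (hT.PY a ha) (hT.PY b hb) (by linarith [hT.P0 b hb])
        (Real.exp_nonneg _)
      rw [← Real.exp_add] at this
      exact this.trans (Real.exp_le_exp.2 (by linarith))
    have e2 : (1 + P' a) * (1 + P' b) ≤ Real.exp (m' * (X q a + X q b) + (Y' a + Y' b)) := by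
      have := mul_le_mul (hT'.PY a ha) (hT'.PY b hb) (by linarith [hT'.P0 b hb])
        (Real.exp_nonneg _)
      rw [← Real.exp_add] at this
      exact this.trans (Real.exp_le_exp.2 (by linarith))
    have f1 : 0 ≤ (1 + P a) * (1 + P b) - 1 := by
      have := hT.P0 a ha; have := hT.P0 b hb; nlinarith
    have f2 : 0 ≤ (1 + P' a) * (1 + P' b) - 1 := by
      have := hT'.P0 a ha; have := hT'.P0 b hb; nlinarith
    have g1 : ((1 + P a) * (1 + P b) - 1) * ((1 + P' a) * (1 + P' b) - 1)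
        ≤ (Real.exp (m * (X p a + X p b) + (Y a + Y b)) - 1)
        * (Real.exp (m' * (X q a + X q b) + (Y' a + Y' b)) - 1) :=
      mul_le_mul (by linarith) (by linarith) f2 (by linarith)
    have hn : 0 ≤ (N a + N b) * (N' a + N' b) :=
      mul_nonneg (add_nonneg (hT.N0 a ha) (hT.N0 b hb)) (add_nonneg (hT'.N0 a ha) (hT'.N0 b hb))
    have k0 : 0 ≤ ((1 + P a) * (1 + P b) - 1) * ((1 + P' a) * (1 + P' b) - 1)
        + (N a + N b) * (N' a + N' b) := add_nonneg (mul_nonneg f1 f2) hn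
    calc _ ≤ μr * X a b * (((1 + P a) * (1 + P b) - 1) * ((1 + P' a) * (1 + P' b) - 1)
        + (N a + N b) * (N' a + N' b)) := mul_le_mul_of_nonneg_right (hle a b) k0
      _ ≤ μr * X a b * ((Real.exp (m * (X p a + X p b) + (Y a + Y b)) - 1)
        * (Real.exp (m' * (X q a + X q b) + (Y' a + Y' b)) - 1)
        + (N a + N b) * (N' a + N' b)) :=
          mul_le_mul_of_nonneg_left (by linarith) (mul_nonneg hμ (hX.nonneg a b))
      _ = _ := by ring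
  have hsum := Finset.sum_le_sum fun a ha => Finset.sum_le_sum fun b hb => hterm a ha b hb
  have e1 : ∀ (f g : V → V → ℝ), ∑ a ∈ H0, ∑ b ∈ H0, μr * (f a b + g a b)
      = μr * ((∑ a ∈ H0, ∑ b ∈ H0, f a b) + ∑ a ∈ H0, ∑ b ∈ H0, g a b) := by
    intro f g
    simp only [← Finset.mul_sum, Finset.sum_add_distrib]
  rw [e1] at hsum
  -- forms
  have hg := G3_nonneg hm.1
  have hg' := G3_nonneg hm'.1
  have hb := B2_nonneg hm.1
  have hb' := B2_nonneg hm'.1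
  have hq0 : ∀ a ∈ H0, 0 ≤ X q a := fun a _ => hX.nonneg _ _
  have hp0 : ∀ a ∈ H0, 0 ≤ X p a := fun a _ => hX.nonneg _ _
  have hFq0 : ∀ a ∈ H0, 0 ≤ ∑ b ∈ H0, X a b * Fc (X q b) := fun a _ =>
    Finset.sum_nonneg fun b _ => mul_nonneg (hX.nonneg a b) (Fc_nonneg (hX.nonneg q b))
  have hFp0 : ∀ a ∈ H0, 0 ≤ ∑ b ∈ H0, X a b * Fc (X p b) := fun a _ =>
    Finset.sum_nonneg fun b _ => mul_nonneg (hX.nonneg a b) (Fc_nonneg (hX.nonneg p b))
  have y1 := sumY_le hX (i := 1) (j := 0) (y := G3 m) (z := 1) hg hq0 hT.YR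
    (fun a _ => by rw [one_mul]; exact X_le_Rh hX H0 q a)
  have y2 := sumY_le hX (i := 1) (j := 1) (y := G3 m) (z := 1) hg hFq0 hT.YR
    (fun a ha => by rw [one_mul]; exact Fc_row hX q ha)
  have z1 := sumY_le hX (p := q) (q := p) (i := 1) (j := 0) (y := G3 m') (z := 1) hg' hp0 hT'.YR
    (fun a _ => by rw [one_mul]; exact X_le_Rh hX H0 p a)
  have z2 := sumY_le hX (p := q) (q := p) (i := 1) (j := 1) (y := G3 m') (z := 1) hg' hFp0 hT'.YR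
    (fun a ha => by rw [one_mul]; exact Fc_row hX p ha)
  have w1 := sumY_le hX (i := 1) (j := 2) (y := G3 m) (z := G3 m') hg hT'.Y0 hT.YR hT'.YR
  have w2 := dsumY_le hX (i := 2) (j := 2) (y := G3 m) (z := G3 m') hg hT'.Y0 hT.YR hT'.YR
  have n1 := sumY_le hX (i := 0) (j := 1) (y := B2 m) (z := B2 m') hb hT'.N0 hT.NR hT'.NR
  have n2 := dsumY_le hX (i := 1) (j := 1) (y := B2 m) (z := B2 m') hb hT'.N0 hT.NR hT'.NR
  rw [Tp_comm hX H0 q p] at z1 z2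
  have s1 : ∑ a ∈ H0, Y a * (59 / 20 * X q a + 316 / 100 * ∑ b ∈ H0, X a b * Fc (X q b))
      = 59 / 20 * ∑ a ∈ H0, Y a * X q a
        + 316 / 100 * ∑ a ∈ H0, Y a * ∑ b ∈ H0, X a b * Fc (X q b) := by
    rw [Finset.mul_sum, Finset.mul_sum, ← Finset.sum_add_distrib]
    exact Finset.sum_congr rfl fun a _ => by ring
  have s2 : ∑ a ∈ H0, Y' a * (59 / 20 * X p a + 316 / 100 * ∑ b ∈ H0, X a b * Fc (X p b))
      = 59 / 20 * ∑ a ∈ H0, Y' a * X p a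
        + 316 / 100 * ∑ a ∈ H0, Y' a * ∑ b ∈ H0, X a b * Fc (X p b) := by
    rw [Finset.mul_sum, Finset.mul_sum, ← Finset.sum_add_distrib]
    exact Finset.sum_congr rfl fun a _ => by ring
  rw [s1, s2] at hfull
  simp only [Nat.reduceAdd, mul_one] at y1 y2 z1 z2 w1 w2 n1 n2
  have k1 : 15355 / 10000 * m' * (59 / 20 * ∑ a ∈ H0, Y a * X q a
        + 316 / 100 * ∑ a ∈ H0, Y a * ∑ b ∈ H0, X a b * Fc (X q b))
      ≤ 15355 / 10000 * m' * (59 / 20 * (G3 m * Tp X H0 p q 2)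
        + 316 / 100 * (G3 m * Tp X H0 p q 3)) :=
    mul_le_mul_of_nonneg_left (by linarith) (by have := hm'.1; positivity)
  have k2 : 116 / 100 * m * (59 / 20 * ∑ a ∈ H0, Y' a * X p a
        + 316 / 100 * ∑ a ∈ H0, Y' a * ∑ b ∈ H0, X a b * Fc (X p b))
      ≤ 116 / 100 * m * (59 / 20 * (G3 m' * Tp X H0 p q 2)
        + 316 / 100 * (G3 m' * Tp X H0 p q 3)) :=
    mul_le_mul_of_nonneg_left (by linarith) (by have := hm.1; positivity)
  unfold ru2 k2R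
  calc _ ≤ μr * ((1 / 2) * ∑ a ∈ H0, ∑ b ∈ H0, X a b * ((Real.exp (m * (X p a + X p b)
            + (Y a + Y b)) - 1) * (Real.exp (m' * (X q a + X q b) + (Y' a + Y' b)) - 1))
        + (1 / 2) * ∑ a ∈ H0, ∑ b ∈ H0, X a b * ((N a + N b) * (N' a + N' b))) := by
        linarith [hsum]
    _ ≤ _ := by
        refine mul_le_mul_of_nonneg_left ?_ hμ
        unfold fru2 Ph
        linarith

end Pool.Agent.RCG
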