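import Pool.Agent.RCG.FRate4

/-! Explicit lower pair rates and row sums (MP_73ccd0_lc). -/

namespace Pool.Agent.RCG

open Set Finset Matrix Pool.Agent.RCRSHalf

set_option linter.unusedSectionVars false

variable {V : Type*} [Fintype V] [DecidableEq V]
variable {h : ℝ → V → V → ℝ} {H : V → V → ℝ → ℝ} {X : V → V → ℝ} {M μ : ℝ → ℝ} {t : ℝ}

/-- the row lemma without marks -/
theorem rowl0 (hX : Wt X) {H0 : Finset V} {q : V} (hq : q ∉ H0) {a : V} (ha : a ∈ H0) :
    ∑ b ∈ H0, X a b * Fc (X q a + X q b)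
      ≤ 1877 / 1000 * X q a + ∑ b ∈ H0, X a b * Fc (X q b) := by
  have er : ∀ g : V → ℝ, ∑ b ∈ H0, X a b * g b = ∑ b ∈ H0.erase a, X a b * g b := fun g => by
    rw [← Finset.add_sum_erase H0 _ ha, hX.diag, zero_mul, zero_add]
  rw [er, er]
  have hqa := hX.nonneg q a
  have hb : ∀ b ∈ H0.erase a, X a b * Fc (X q a + X q b)
      ≤ X q a * ((1 + 877 / 1000 * X q a) * X a b + 877 / 2000 * (X a b + X q b))
        + X a b * Fc (X q b) := by
    intro b hb
    have hx := hX.nonneg a b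
    have hqb := hX.nonneg q b
    have h1 : X a b + X q b ≤ 1 := by
      have := hX.pair_row (show a ≠ q from fun h => hq (h ▸ ha)) b
      exact this
    have h2 : 4 * (X a b * X q b) ≤ X a b + X q b := by
      nlinarith [sq_nonneg (X a b - X q b), mul_nonneg (add_nonneg hx hqb)
        (show 0 ≤ 1 - (X a b + X q b) by linarith)]
    have e : X a b * Fc (X q a + X q b) = X a b * Fc (X q b)
        + X q a * ((1 + 877 / 1000 * X q a) * X a b + 2 * (877 / 1000) * (X a b * X q b)) := by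
      unfold Fc; ring
    rw [e]
    have := mul_le_mul_of_nonneg_left h2 hqa
    nlinarith
  have hsum := Finset.sum_le_sum hb
  rw [Finset.sum_add_distrib, ← Finset.mul_sum, Finset.sum_add_distrib, ← Finset.mul_sum,
    ← Finset.mul_sum, Finset.sum_add_distrib] at hsum
  have s1 : ∑ b ∈ H0.erase a, X a b ≤ 1 - X q a := by
    have hqn : q ∉ H0.erase a := fun h => hq (Finset.mem_of_mem_erase h)
    have h1 : ∑ b ∈ insert q (H0.erase a), X a b ≤ 1 := hX.row_le a _
    rw [Finset.sum_insert hqn, hX.symm a q] at h1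
    linarith
  have s2 : ∑ b ∈ H0.erase a, X q b ≤ 1 - X q a := by
    have h1 : ∑ b ∈ insert a (H0.erase a), X q b ≤ 1 := hX.row_le q _
    rw [Finset.sum_insert (by simp)] at h1
    linarith
  have k : (1 + 877 / 1000 * X q a) * ∑ b ∈ H0.erase a, X a b
      + 877 / 2000 * (∑ b ∈ H0.erase a, X a b + ∑ b ∈ H0.erase a, X q b) ≤ 1877 / 1000 := by
    have h1 := mul_le_mul_of_nonneg_left s1 (show 0 ≤ 1 + 877 / 1000 * X q a by positivity)
    have : (1 + 877 / 1000 * X q a) * (1 - X q a) + 877 / 2000 * ((1 - X q a) + (1 - X q a))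
        ≤ 1877 / 1000 := by nlinarith
    linarith
  have := mul_le_mul_of_nonneg_left k hqa
  linarith

/-- the explicit lower pair rate -/
theorem rl2_le (hX : Wt X) {H0 : Finset V} {p q : V} (hp : p ∉ H0) (hq : q ∉ H0)
    {m m' : ℝ} (hm : m ∈ Icc (0 : ℝ) (23 / 20)) (hm' : m' ∈ Icc (0 : ℝ) (23 / 20))
    {P N Y P' N' Y' : V → ℝ} (hT : Tv X H0 p m P N Y) (hT' : Tv X H0 q m' P' N' Y')
    {hr : V → V → ℝ} {μr : ℝ} (hμ : 0 ≤ μr)
    (hle : ∀ a b, hr a b ≤ μr * X a b) :
    rl2 hr H0 P N P' N' ≤ μr * frl2 X H0 p q m m' := by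
  -- one half
  have half : ∀ {p q : V} {m m' : ℝ} {P N Y P' N' Y' : V → ℝ}, p ∉ H0 → q ∉ H0 →
      m ∈ Icc (0 : ℝ) (23 / 20) → m' ∈ Icc (0 : ℝ) (23 / 20) →
      Tv X H0 p m P N Y → Tv X H0 q m' P' N' Y' →
      (1 / 2) * ∑ a ∈ H0, ∑ b ∈ H0, hr a b * ((N a + N b) * ((1 + P' a) * (1 + P' b) - 1))
        ≤ μr * (m' * B2 m * (1877 / 1000 * Tp X H0 p q 1 + Tp X H0 p q 2)
          + 366560 / 100000 * (B2 m * G3 m') * (Tp X H0 p q 3 + Tp X H0 p q 4)) := by
    intro p q m m' P N Y P' N' Y' hp hq hm hm' hT hT'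
    have hterm : ∀ a ∈ H0, ∀ b ∈ H0, hr a b * ((N a + N b) * ((1 + P' a) * (1 + P' b) - 1))
        ≤ μr * (m' * (X a b * ((N a + N b) * Fc (X q a + X q b)))
          + 366560 / 100000 * (X a b * ((N a + N b) * (Y' a + Y' b)))) := by
      intro a ha b hb
      have hn : 0 ≤ N a + N b := add_nonneg (hT.N0 a ha) (hT.N0 b hb)
      have e2 : (1 + P' a) * (1 + P' b) ≤ Real.exp (m' * (X q a + X q b) + (Y' a + Y' b)) := by
        have := mul_le_mul (hT'.PY a ha) (hT'.PY b hb) (by linarith [hT'.P0 b hb])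
          (Real.exp_nonneg _)
        rw [← Real.exp_add] at this
        exact this.trans (Real.exp_le_exp.2 (by linarith))
      have f2 : 0 ≤ (1 + P' a) * (1 + P' b) - 1 := by
        have := hT'.P0 a ha; have := hT'.P0 b hb; nlinarith
      by_cases hab : a = b
      · subst hab
        have h0 : hr a a * ((N a + N a) * ((1 + P' a) * (1 + P' a) - 1)) ≤ 0 := by
          have h1 := hle a a
          rw [hX.diag, mul_zero] at h1
          exact mul_nonpos_of_nonpos_of_nonneg h1 (mul_nonneg hn f2)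
        rw [hX.diag]; simpa using h0
      have hQ1 := hX.pair_le_one q hab
      have hQ0 : 0 ≤ X q a + X q b := add_nonneg (hX.nonneg _ _) (hX.nonneg _ _)
      have hy0 : 0 ≤ Y' a + Y' b := add_nonneg (hT'.Y0 a ha) (hT'.Y0 b hb)
      have hy1 : Y' a + Y' b ≤ 279 / 1000 := by
        linarith [hT'.Ysup hX hq hm' ha, hT'.Ysup hX hq hm' hb]
      have hE := exp_Fc (m := m') (y := X q a + X q b) hm' hQ0 hQ1
      have hE3 := exp_le_1158 hm'.1 hm'.2 hQ0 hQ1
      have hyy := exp_lin hy0 hy1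
      have g1 : Real.exp (m' * (X q a + X q b) + (Y' a + Y' b)) - 1
          ≤ m' * Fc (X q a + X q b) + 366560 / 100000 * (Y' a + Y' b) := by
        rw [Real.exp_add]
        have h1 := mul_le_mul_of_nonneg_left hyy (Real.exp_nonneg (m' * (X q a + X q b)))
        have h2 := mul_le_mul_of_nonneg_right hE3 hy0
        nlinarith
      calc _ ≤ μr * X a b * ((N a + N b) * ((1 + P' a) * (1 + P' b) - 1)) :=
            mul_le_mul_of_nonneg_right (hle a b) (mul_nonneg hn f2)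
        _ ≤ μr * X a b * ((N a + N b) * (m' * Fc (X q a + X q b)
            + 366560 / 100000 * (Y' a + Y' b))) :=
            mul_le_mul_of_nonneg_left (mul_le_mul_of_nonneg_left (by linarith) hn)
              (mul_nonneg hμ (hX.nonneg a b))
        _ = _ := by ring
    have hsum := Finset.sum_le_sum fun a ha => Finset.sum_le_sum fun b hb => hterm a ha b hb
    have e1 : ∀ (f g : V → V → ℝ) (c1 c2 : ℝ),
        ∑ a ∈ H0, ∑ b ∈ H0, μr * (c1 * f a b + c2 * g a b)
        = μr * (c1 * (∑ a ∈ H0, ∑ b ∈ H0, f a b) + c2 * ∑ a ∈ H0, ∑ b ∈ H0, g a b) := by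
      intro f g c1 c2
      simp only [← Finset.mul_sum, Finset.sum_add_distrib]
    rw [e1] at hsum
    have m2 := half_symm (H0 := H0) hX.symm N (g := fun a b => Fc (X q a + X q b))
      (fun a b => by rw [add_comm (X q a)])
    have r2 : ∑ a ∈ H0, N a * ∑ b ∈ H0, X a b * Fc (X q a + X q b)
        ≤ ∑ a ∈ H0, N a * (1877 / 1000 * X q a + ∑ b ∈ H0, X a b * Fc (X q b)) :=
      Finset.sum_le_sum fun a ha => mul_le_mul_of_nonneg_left (rowl0 hX hq ha) (hT.N0 a ha)
    have hNY := half_prod hX (H0 := H0) N Y' (fun a ha => mul_nonneg (hT.N0 a ha) (hT'.Y0 a ha))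
    have hg' := G3_nonneg hm'.1
    have hb := B2_nonneg hm.1
    have hq0 : ∀ a ∈ H0, 0 ≤ X q a := fun a _ => hX.nonneg _ _
    have hFq0 : ∀ a ∈ H0, 0 ≤ ∑ b ∈ H0, X a b * Fc (X q b) := fun a _ =>
      Finset.sum_nonneg fun b _ => mul_nonneg (hX.nonneg a b) (Fc_nonneg (hX.nonneg q b))
    have y1 := sumY_le hX (i := 0) (j := 0) (y := B2 m) (z := 1) hb hq0 hT.NR
      (fun a _ => by rw [one_mul]; exact X_le_Rh hX H0 q a)
    have y2 := sumY_le hX (i := 0) (j := 1) (y := B2 m) (z := 1) hb hFq0 hT.NR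
      (fun a ha => by rw [one_mul]; exact Fc_row hX q ha)
    have w1 := sumY_le hX (i := 0) (j := 2) (y := B2 m) (z := G3 m') hb hT'.Y0 hT.NR hT'.YR
    have w2 := dsumY_le hX (i := 1) (j := 2) (y := B2 m) (z := G3 m') hb hT'.Y0 hT.NR hT'.YR
    have s1 : ∑ a ∈ H0, N a * (1877 / 1000 * X q a + ∑ b ∈ H0, X a b * Fc (X q b))
        = 1877 / 1000 * ∑ a ∈ H0, N a * X q a
          + ∑ a ∈ H0, N a * ∑ b ∈ H0, X a b * Fc (X q b) := by
      rw [Finset.mul_sum, ← Finset.sum_add_distrib]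
      exact Finset.sum_congr rfl fun a _ => by ring
    simp only [Nat.reduceAdd, mul_one] at y1 y2 w1 w2
    rw [s1] at r2
    have k1 := mul_le_mul_of_nonneg_left (r2.trans (add_le_add (mul_le_mul_of_nonneg_left y1
      (by norm_num : (0:ℝ) ≤ 1877 / 1000)) y2)) hm'.1
    rw [← m2] at k1
    have k2 := hNY.trans (add_le_add w1 w2)
    have k3 := mul_le_mul_of_nonneg_left k2 (by norm_num : (0:ℝ) ≤ 366560 / 100000)
    calc _ ≤ μr * (m' * ((1 / 2) * ∑ a ∈ H0, ∑ b ∈ H0, X a b * ((N a + N b) *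
              Fc (X q a + X q b)))
          + 366560 / 100000 * ((1 / 2) * ∑ a ∈ H0, ∑ b ∈ H0, X a b * ((N a + N b) *
              (Y' a + Y' b)))) := by linarith [hsum]
      _ ≤ _ := mul_le_mul_of_nonneg_left (by linarith) hμ
  have h1 := half hp hq hm hm' hT hT'
  have h2 := half hq hp hm' hm hT' hT
  have e : rl2 hr H0 P N P' N'
      = (1 / 2) * ∑ a ∈ H0, ∑ b ∈ H0, hr a b * ((N a + N b) * ((1 + P' a) * (1 + P' b) - 1))
        + (1 / 2) * ∑ a ∈ H0, ∑ b ∈ H0, hr a b * ((N' a + N' b) * ((1 + P a) * (1 + P b) - 1)) := by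
    unfold rl2
    rw [← mul_add, ← Finset.sum_add_distrib]
    congr 1
    refine Finset.sum_congr rfl fun a _ => ?_
    rw [← Finset.sum_add_distrib]
    exact Finset.sum_congr rfl fun b _ => by ring
  rw [e]
  rw [Tp_comm hX H0 q p 1, Tp_comm hX H0 q p 2, Tp_comm hX H0 q p 3, Tp_comm hX H0 q p 4] at h2
  unfold frl2
  linarith

end Pool.Agent.RCG
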