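import Pool.Agent.RCG.FRate5

/-! Three-target rates; rates in the context (MP_73ccd0_lc). -/

namespace Pool.Agent.RCG

open Set Finset Matrix Pool.Agent.RCRSHalf

set_option linter.unusedSectionVars false

variable {V : Type*} [Fintype V] [DecidableEq V]
variable {h : ℝ → V → V → ℝ} {H : V → V → ℝ → ℝ} {X : V → V → ℝ} {M μ : ℝ → ℝ} {t : ℝ}

theorem ru2_comm (hr : V → V → ℝ) (H0 : Finset V) (P N P' N' : V → ℝ) :
    ru2 hr H0 P N P' N' = ru2 hr H0 P' N' P N := by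
  unfold ru2 k2R
  congr 1
  exact Finset.sum_congr rfl fun a _ => Finset.sum_congr rfl fun b _ => by ring

/-- the three-target rate through pair rates -/
theorem ru3_le {H0 : Finset V} {hr : V → V → ℝ} (h0 : ∀ a b, 0 ≤ hr a b) (hd : ∀ a, hr a a = 0)
    {P1 N1 P2 N2 P3 N3 : V → ℝ} (p1 : ∀ a ∈ H0, 0 ≤ P1 a)
    (p3 : ∀ a ∈ H0, 0 ≤ P3 a) (n1 : ∀ a ∈ H0, 0 ≤ N1 a)
    (n3 : ∀ a ∈ H0, 0 ≤ N3 a) {φ : ℝ} (hφ0 : 0 ≤ φ)
    (hφ : ∀ a ∈ H0, ∀ b ∈ H0, a ≠ b → (1 + P2 a) * (1 + P2 b) ≤ 1 + φ) :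
    ru3 hr H0 P1 N1 P2 N2 P3 N3
      ≤ ru2 hr H0 P1 N1 P2 N2 + ru2 hr H0 P2 N2 P3 N3 + (1 + φ) * ru2 hr H0 P1 N1 P3 N3 := by
  unfold ru3 ru2 k2R
  have e : (1 / 2) * ∑ a ∈ H0, ∑ b ∈ H0, hr a b *
        (((1 + P1 a) * (1 + P1 b) - 1) * ((1 + P2 a) * (1 + P2 b) - 1)
          + (N1 a + N1 b) * (N2 a + N2 b))
      + (1 / 2) * ∑ a ∈ H0, ∑ b ∈ H0, hr a b *
        (((1 + P2 a) * (1 + P2 b) - 1) * ((1 + P3 a) * (1 + P3 b) - 1)
          + (N2 a + N2 b) * (N3 a + N3 b))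
      + (1 + φ) * ((1 / 2) * ∑ a ∈ H0, ∑ b ∈ H0, hr a b *
        (((1 + P1 a) * (1 + P1 b) - 1) * ((1 + P3 a) * (1 + P3 b) - 1)
          + (N1 a + N1 b) * (N3 a + N3 b)))
      = (1 / 2) * ∑ a ∈ H0, ∑ b ∈ H0, hr a b *
        ((((1 + P1 a) * (1 + P1 b) - 1) * ((1 + P2 a) * (1 + P2 b) - 1)
          + (N1 a + N1 b) * (N2 a + N2 b))
        + (((1 + P2 a) * (1 + P2 b) - 1) * ((1 + P3 a) * (1 + P3 b) - 1)
          + (N2 a + N2 b) * (N3 a + N3 b))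
        + (1 + φ) * (((1 + P1 a) * (1 + P1 b) - 1) * ((1 + P3 a) * (1 + P3 b) - 1)
          + (N1 a + N1 b) * (N3 a + N3 b))) := by
    simp only [Finset.mul_sum, ← Finset.sum_add_distrib]
    exact Finset.sum_congr rfl fun a _ => Finset.sum_congr rfl fun b _ => by ring
  rw [e]
  refine mul_le_mul_of_nonneg_left ?_ (by norm_num)
  refine Finset.sum_le_sum fun a ha => Finset.sum_le_sum fun b hb => ?_
  by_cases hab : a = b
  · subst hab; rw [hd a]; simp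
  refine mul_le_mul_of_nonneg_left ?_ (h0 a b)
  have f1 : 0 ≤ (1 + P1 a) * (1 + P1 b) - 1 := by
    have := p1 a ha; have := p1 b hb; nlinarith
  have f3 : 0 ≤ (1 + P3 a) * (1 + P3 b) - 1 := by
    have := p3 a ha; have := p3 b hb; nlinarith
  have hn : 0 ≤ (N1 a + N1 b) * (N3 a + N3 b) :=
    mul_nonneg (add_nonneg (n1 a ha) (n1 b hb)) (add_nonneg (n3 a ha) (n3 b hb))
  have h2 := hφ a ha b hb hab
  have h3 : ((1 + P1 a) * (1 + P1 b) - 1) * ((1 + P2 a) * (1 + P2 b) - 1)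
      * ((1 + P3 a) * (1 + P3 b) - 1)
      ≤ φ * (((1 + P1 a) * (1 + P1 b) - 1) * ((1 + P3 a) * (1 + P3 b) - 1)) := by
    have := mul_le_mul_of_nonneg_right (show (1 + P2 a) * (1 + P2 b) - 1 ≤ φ by linarith)
      (mul_nonneg f1 f3)
    linarith
  have h4 := mul_nonneg hφ0 hn
  linarith

/-- sup of the influence of one target with horizon `m` -/
theorem Tv.phi (hX : Wt X) {H0 : Finset V} {p : V} (hp : p ∉ H0) {m : ℝ}
    (hm : m ∈ Icc (0 : ℝ) (23 / 20)) {P N Y : V → ℝ} (hT : Tv X H0 p m P N Y) {a b : V}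
    (ha : a ∈ H0) (hb : b ∈ H0) (hab : a ≠ b) :
    (1 + P a) * (1 + P b) ≤ 1 + (m + 77 / 100 * m ^ 2 + 386 / 100 * G3 m) := by
  have e1 : (1 + P a) * (1 + P b) ≤ Real.exp (m * (X p a + X p b) + (Y a + Y b)) := by
    have := mul_le_mul (hT.PY a ha) (hT.PY b hb) (by linarith [hT.P0 b hb])
      (Real.exp_nonneg _)
    rw [← Real.exp_add] at this
    exact this.trans (Real.exp_le_exp.2 (by linarith))
  have hQ1 := hX.pair_le_one p hab
  have hQ0 : 0 ≤ X p a + X p b := add_nonneg (hX.nonneg _ _) (hX.nonneg _ _)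
  have hy0 : 0 ≤ Y a + Y b := add_nonneg (hT.Y0 a ha) (hT.Y0 b hb)
  have hy1 : Y a + Y b ≤ 279 / 1000 := by
    linarith [hT.Ysup hX hp hm ha, hT.Ysup hX hp hm hb]
  have hg := G3_nonneg hm.1
  have hy2 : Y a + Y b ≤ 1052 / 1000 * G3 m := by
    have h1 := hT.YR a ha
    have h2 := hT.YR b hb
    have h3 := rh_two hX hp a
    have h4 := rh_two hX hp b
    rw [pow_two, ← Matrix.mulVec_mulVec] at h1 h2
    have h5 := mul_le_mul_of_nonneg_left h3 hg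
    have h6 := mul_le_mul_of_nonneg_left h4 hg
    linarith
  have hE3 := exp_le_1158 hm.1 hm.2 zero_le_one le_rfl
  have hE : Real.exp (m * (X p a + X p b)) ≤ Real.exp (m * 1) :=
    Real.exp_le_exp.2 (mul_le_mul_of_nonneg_left hQ1 hm.1)
  have hyy := exp_lin hy0 hy1
  have hEm : Real.exp (m * 1) ≤ 1 + m + 77 / 100 * m ^ 2 := by
    rw [mul_one]
    -- convexity-free: series bound
    rcases le_total m 1 with h1 | h1
    · have hb := Real.exp_bound' hm.1 h1 (n := 4) (by norm_num)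
      simp only [Finset.sum_range_succ, Finset.sum_range_zero, Nat.factorial] at hb
      norm_num at hb
      have m2 : 0 ≤ m ^ 2 := by positivity
      have m3 : m ^ 3 ≤ m ^ 2 := by nlinarith
      have m4 : m ^ 4 ≤ m ^ 2 := by
        have : m ^ 4 = m ^ 2 * m ^ 2 := by ring
        have h22 : m ^ 2 ≤ 1 := by nlinarith [hm.1]
        rw [this]; nlinarith
      nlinarith
    · have h2 : Real.exp m = Real.exp 1 * Real.exp (m - 1) := by rw [← Real.exp_add]; ring_nf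
      have h3 : Real.exp 1 ≤ 27183 / 10000 := by
        have := Real.exp_one_lt_d9; norm_num at this ⊢; linarith
      have h4 : m - 1 ∈ Icc (0 : ℝ) (3 / 20) := ⟨by linarith, by linarith [hm.2]⟩
      have hb := Real.exp_bound' h4.1 (h4.2.trans (by norm_num)) (n := 3) (by norm_num)
      simp only [Finset.sum_range_succ, Finset.sum_range_zero, Nat.factorial] at hb
      norm_num at hb
      rw [h2]
      have hc : (m - 1) ^ 3 * 4 / 18 ≤ (m - 1) ^ 2 * (1 / 30) := by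
        have : (m - 1) ^ 3 = (m - 1) ^ 2 * (m - 1) := by ring
        rw [this]
        nlinarith [mul_nonneg (sq_nonneg (m - 1)) (sub_nonneg.2 h4.2)]
      have h5 : Real.exp 1 * Real.exp (m - 1) ≤ 27183 / 10000 *
          (1 + (m - 1) + (m - 1) ^ 2 * (8 / 15)) := by
        refine mul_le_mul h3 ?_ (Real.exp_nonneg _) (by norm_num)
        linarith
      refine h5.trans ?_
      nlinarith [h4.1, h4.2, mul_nonneg h4.1 (sub_nonneg.2 h4.2)]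
  calc _ ≤ Real.exp (m * (X p a + X p b)) * Real.exp (Y a + Y b) := by
        rw [← Real.exp_add]; exact e1
    _ ≤ Real.exp (m * 1) * (1 + 116 / 100 * (Y a + Y b)) :=
        mul_le_mul hE hyy (Real.exp_nonneg _) (Real.exp_nonneg _)
    _ = Real.exp (m * 1) + 116 / 100 * (Real.exp (m * 1) * (Y a + Y b)) := by ring
    _ ≤ (1 + m + 77 / 100 * m ^ 2) + 116 / 100 * (316 / 100 * (1052 / 1000 * G3 m)) := by
        have := mul_le_mul hE3 hy2 hy0 (by norm_num)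
        linarith
    _ ≤ _ := by linarith

theorem Cx.mm (hC : Cx h H X M μ t) {T r : ℝ} (hT : T ∈ Icc 0 t) (hr : r ∈ Icc 0 T) :
    M T - M r ∈ Icc (0 : ℝ) (23 / 20) :=
  ⟨sub_nonneg.2 (hC.mono hT r hr), by
    linarith [hC.Mle hT, hC.Mnn (r := r) ⟨hr.1, hr.2.trans hT.2⟩]⟩

theorem Cx.cru2_le (hC : Cx h H X M μ t) {H0 : Finset V} {p q : V} (hpq : p ≠ q) (hp : p ∉ H0)
    (hq : q ∉ H0) {T T' r : ℝ} (hT : T ∈ Icc 0 t) (hT' : T' ∈ Icc 0 t) (hr0 : 0 ≤ r)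
    (hrT : r ≤ T) (hrT' : r ≤ T') :
    cru2 h H X M H0 p T q T' r ≤ μ r * fru2 X H0 p q (M T - M r) (M T' - M r) :=
  ru2_le hC.hX hpq hp hq (hC.mm hT ⟨hr0, hrT⟩) (hC.mm hT' ⟨hr0, hrT'⟩)
    (hC.tv hp hT ⟨hr0, hrT⟩) (hC.tv hq hT' ⟨hr0, hrT'⟩) (hC.μ0 r ⟨hr0, hrT.trans hT.2⟩)
    (hC.le r ⟨hr0, hrT.trans hT.2⟩)

theorem Cx.crl2_le (hC : Cx h H X M μ t) {H0 : Finset V} {p q : V} (hp : p ∉ H0)
    (hq : q ∉ H0) {T T' r : ℝ} (hT : T ∈ Icc 0 t) (hT' : T' ∈ Icc 0 t) (hr0 : 0 ≤ r)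
    (hrT : r ≤ T) (hrT' : r ≤ T') :
    crl2 h H X M H0 p T q T' r ≤ μ r * frl2 X H0 p q (M T - M r) (M T' - M r) :=
  rl2_le hC.hX hp hq (hC.mm hT ⟨hr0, hrT⟩) (hC.mm hT' ⟨hr0, hrT'⟩)
    (hC.tv hp hT ⟨hr0, hrT⟩) (hC.tv hq hT' ⟨hr0, hrT'⟩) (hC.μ0 r ⟨hr0, hrT.trans hT.2⟩)
    (hC.le r ⟨hr0, hrT.trans hT.2⟩)

/-- the three-target rate, the middle target carries the triple term -/
theorem Cx.cru3_le (hC : Cx h H X M μ t) {H0 : Finset V} {p q w : V} (hpq : p ≠ q) (hpw : p ≠ w)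
    (hqw : q ≠ w) (hp : p ∉ H0) (hq : q ∉ H0) (hw : w ∉ H0) {T T' T'' r : ℝ} (hT : T ∈ Icc 0 t)
    (hT' : T' ∈ Icc 0 t) (hT'' : T'' ∈ Icc 0 t) (hr0 : 0 ≤ r) (hrT : r ≤ T) (hrT' : r ≤ T')
    (hrT'' : r ≤ T'') :
    cru3 h H X M H0 p T q T' w T'' r
      ≤ μ r * (fru2 X H0 p q (M T - M r) (M T' - M r)
        + fru2 X H0 w q (M T'' - M r) (M T' - M r)
        + (1 + ((M T' - M r) + 77 / 100 * (M T' - M r) ^ 2 + 386 / 100 * G3 (M T' - M r)))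
          * fru2 X H0 p w (M T - M r) (M T'' - M r)) := by
  have hrt : r ∈ Icc 0 t := ⟨hr0, hrT.trans hT.2⟩
  have t1 := hC.tv hp hT ⟨hr0, hrT⟩
  have t2 := hC.tv hq hT' ⟨hr0, hrT'⟩
  have t3 := hC.tv hw hT'' ⟨hr0, hrT''⟩
  have m2 := hC.mm hT' ⟨hr0, hrT'⟩
  have hg := G3_nonneg m2.1
  have hφ0 : 0 ≤ (M T' - M r) + 77 / 100 * (M T' - M r) ^ 2 + 386 / 100 * G3 (M T' - M r) := by
    have := m2.1
    positivity
  have h1 := ru3_le (H0 := H0) (hr := h r) (fun a b => hC.hh.nonneg r a b)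
    (fun a => hC.hh.diag r a) (N2 := fun a => Nt X H0 q (M T' - M r) a) t1.P0 t3.P0 t1.N0 t3.N0
    hφ0 (fun a ha b hb hab => t2.phi hC.hX hq m2 ha hb hab)
  have a1 := hC.cru2_le hpq hp hq hT hT' hr0 hrT hrT'
  have a2 := hC.cru2_le hqw.symm hw hq hT'' hT' hr0 hrT'' hrT'
  have a3 := hC.cru2_le hpw hp hw hT hT'' hr0 hrT hrT''
  unfold cru2 at a1 a2 a3
  rw [ru2_comm] at a2
  unfold cru3
  have a4 := mul_le_mul_of_nonneg_left a3 (by linarith : 0 ≤ 1 + ((M T' - M r)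
    + 77 / 100 * (M T' - M r) ^ 2 + 386 / 100 * G3 (M T' - M r)))
  refine h1.trans ?_
  calc _ ≤ μ r * fru2 X H0 p q (M T - M r) (M T' - M r)
        + μ r * fru2 X H0 w q (M T'' - M r) (M T' - M r)
        + (1 + ((M T' - M r) + 77 / 100 * (M T' - M r) ^ 2 + 386 / 100 * G3 (M T' - M r)))
          * (μ r * fru2 X H0 p w (M T - M r) (M T'' - M r)) :=
        add_le_add (add_le_add a1 a2) a4
    _ = _ := by ring

end Pool.Agent.RCG
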