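import Pool.Agent.RCG.KapE

/-! Own gain, A-lemma and N-part in number form (MP_73ccd0_lc, general graphs). -/

namespace Pool.Agent.RCG

open Set Finset Matrix Pool.Agent.RCRSHalf

set_option linter.unusedSectionVars false

variable {V : Type*} [Fintype V] [DecidableEq V]
variable {h : ℝ → V → V → ℝ} {H : V → V → ℝ → ℝ} {X : V → V → ℝ} {M μ : ℝ → ℝ} {t : ℝ}

theorem compl_pair_eq (p q : V) : (insert p (insert q (∅ : Finset V)))ᶜ = ({p, q} : Finset V)ᶜ := by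
  rw [insert_empty_eq]

/-- simple upper bound of the N-part -/
theorem n_simple (hh : Haz h H) {p q : V} {T : ℝ} (hT : T ∈ Icc (0 : ℝ) 1)
    {P N : V → ℝ → ℝ} (hI : Inf ({p, q} : Finset V)ᶜ T (RCG.tgt h p T) P N) {s : ℝ}
    (hs : s ∈ Icc 0 T) :
    ∑ w ∈ ({p, q} : Finset V)ᶜ, h s q w *
          ex (lw h ∅ s) {p, q, w} (fun F => RCG.tgt h p T F s - RCG.tgt h p T (insert w F) s)
      ≤ (∑ w ∈ ({p, q} : Finset V)ᶜ, h s q w * P w s) *
        ex (lw h ∅ s) {p, q} (fun F => RCG.tgt h p T F s) := by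
  have hTp := hh.tgt p hT
  have hs1 : s ∈ Icc (0 : ℝ) 1 := ⟨hs.1, hs.2.trans hT.2⟩
  have hμ0 := fun F => (hh.lw ∅).nonneg F s hs1
  set X := ex (lw h ∅ s) {p, q} (fun F => RCG.tgt h p T F s) with hX
  have hX0 : 0 ≤ X := ex_nonneg hμ0 fun F => hTp.ev.nonneg F s hs
  rw [Finset.sum_mul]
  refine Finset.sum_le_sum fun w hw => ?_
  rw [mul_assoc]
  refine mul_le_mul_of_nonneg_left ?_ (hh.nonneg _ _ _)
  have hPw := hI.P0 w hw s hs
  rw [hX]
  unfold ex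
  rw [Finset.mul_sum]
  refine Finset.sum_le_sum fun F _ => ?_
  by_cases hF : ({p, q, w} : Finset V) ⊆ F
  · have hF2 : ({p, q} : Finset V) ⊆ F := fun z hz => hF (by
      simp only [Finset.mem_insert, Finset.mem_singleton] at hz ⊢
      tauto)
    rw [if_pos hF, if_pos hF2]
    have hwF : w ∈ F := hF (by simp)
    have hwn : w ∉ ({p, q} : Finset V) := by
      rw [← Finset.mem_compl]; exact hw
    have e4 : insert w (F \ {p, q, w}) = F \ {p, q} := by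
      ext z
      simp only [Finset.mem_insert, Finset.mem_sdiff, Finset.mem_singleton]
      constructor
      · rintro (rfl | ⟨h1, h2⟩)
        · refine ⟨hwF, ?_⟩
          simpa using hwn
        · tauto
      · rintro ⟨h1, h2⟩
        by_cases hz : z = w
        · exact Or.inl hz
        · right; tauto
    beta_reduce
    rw [e4]
    have hsubs : F \ {p, q} ⊆ ({p, q} : Finset V)ᶜ := by
      intro z hz
      have h2 := (Finset.mem_sdiff.1 hz).2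
      rw [Finset.mem_compl]; exact h2
    have h3 := hI.up (F \ {p, q}) hsubs w (Finset.mem_sdiff.2 ⟨hwF, hwn⟩) s hs
    have e7 : (F \ {p, q}).erase w = F \ {p, q, w} := by
      rw [← e4, Finset.erase_insert (by simp)]
    rw [e7] at h3
    have h4 := mul_le_mul_of_nonneg_left h3 (hμ0 F)
    nlinarith
  · rw [if_neg hF, mul_zero]
    refine mul_nonneg hPw (mul_nonneg (hμ0 F) ?_)
    split_ifs
    · exact hTp.ev.nonneg _ s hs
    · exact le_rfl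

/-- The own gain in number form. -/
theorem Cx.W_E (hC : Cx h H X M μ t) {p q : V} (hpq : p ≠ q) {T : ℝ} (hT : T ∈ Icc 0 t)
    {E : ℝ → ℝ} (hE : ∀ s ∈ Icc 0 T, HasDerivAt E (dE h p q s) s) (hE0 : E 0 = 0)
    {K Q : ℝ → ℝ → ℝ} {β : ℝ → ℝ} {d d' ν ν' : ℝ}
    (hK : ∀ T' ∈ Icc 0 T, ∀ s ∈ Icc 0 T', Exq (cru2 h H X M ({p, q} : Finset V)ᶜ p T' q s) s (K T' s))
    (hQ : ∀ T' ∈ Icc 0 T, ∀ s ∈ Icc 0 T', Exq (crl2 h H X M ({p, q} : Finset V)ᶜ p T' q s) s (Q T' s))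
    (hd0 : 0 ≤ d + d') (hd'0 : 0 ≤ d') (hν0 : 0 ≤ ν)
    (hd : ∀ s ∈ Icc 0 T, K s s + Q T s ≤ d)
    (hd' : ∀ T' ∈ Icc 0 T, ∀ s ∈ Icc 0 T', K T' s + Q s s ≤ d')
    (hβ : ∀ s ∈ Icc 0 T, Real.exp (-H p q s) * bb h {p} q s ≤ β s)
    {Γ2 g2 : ℝ → ℝ} (hΓ2 : ∀ s ∈ Icc 0 T, HasDerivAt Γ2 (g2 s) s)
    (hg2 : ∀ s ∈ Icc 0 T, (∑ w ∈ ({p, q} : Finset V)ᶜ, h s q w *
      Pt H X M ({p, q} : Finset V)ᶜ p T w s) * (Real.exp (K T s) * β s) ≤ g2 s)
    (hν' : Γ2 T - Γ2 0 ≤ ν')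
    (hlow : ∀ T' ∈ Icc 0 T, ∃ Γ3 g3 : ℝ → ℝ, (∀ s ∈ Icc 0 T', HasDerivAt Γ3 (g3 s) s) ∧
      (∀ s ∈ Icc 0 T', (∑ w ∈ ({p, q} : Finset V)ᶜ, h s q w *
        Nt X ({p, q} : Finset V)ᶜ p (M T' - M s) w) * (Real.exp (K T' s) * β s) ≤ g3 s) ∧
      Γ3 T' - Γ3 0 ≤ ν) :
    Wr h p q T ≤ Real.exp (-E T) + ν' + (1 - Real.exp (-E T)) * (ν + (d + d')) := by
  have hh := hC.hh
  have hTt : T ∈ Icc (0 : ℝ) 1 := hC.mem hT
  have hpe : p ∉ (∅ : Finset V) := Finset.notMem_empty p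
  have hqe : q ∉ (∅ : Finset V) := Finset.notMem_empty q
  have ex_up : ∀ T' ∈ Icc 0 T, ∀ s ∈ Icc 0 T', ex (lw h ∅ s) {p, q}
      (fun F => RCG.tgt h p T' F s)
      ≤ Real.exp (-H p q s + K T' s) * (bb h {q} p T' * bb h {p} q s) := fun T' hT' s hs => by
    have := hC.ex2_up hpe hqe hpq (T := T') (s := s) ⟨hT'.1, hT'.2.trans hT.2⟩ hs
      (B := K T' s) (by rw [compl_pair_eq]; exact hK T' hT' s hs)
    simpa only [insert_empty_eq] using this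
  have key : ∀ T' ∈ Icc 0 T, ∀ s ∈ Icc 0 T', ∀ c : ℝ, 0 ≤ c →
      c * ex (lw h ∅ s) {p, q} (fun F => RCG.tgt h p T' F s)
      ≤ bb h {q} p T' * (c * (Real.exp (K T' s) * β s)) := fun T' hT' s hs c hc => by
    have h1 := ex_up T' hT' s hs
    have h2 := hβ s ⟨hs.1, hs.2.trans hT'.2⟩
    have hb : 0 ≤ bb h {q} p T' := bb_nonneg hh _ _ ⟨hT'.1, hT'.2.trans hTt.2⟩
    calc c * ex (lw h ∅ s) {p, q} (fun F => RCG.tgt h p T' F s)
        ≤ c * (Real.exp (-H p q s + K T' s) * (bb h {q} p T' * bb h {p} q s)) :=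
          mul_le_mul_of_nonneg_left h1 hc
      _ = c * Real.exp (K T' s) * bb h {q} p T' * (Real.exp (-H p q s) * bb h {p} q s) := by
          rw [Real.exp_add]; ring
      _ ≤ c * Real.exp (K T' s) * bb h {q} p T' * β s :=
          mul_le_mul_of_nonneg_left h2 (by positivity)
      _ = _ := by ring
  refine own_E hh hpq hTt hE hE0 (κ1 := fun s => K s s) (Q1 := fun s => Q T s)
    (Q2 := fun s => Q s s) (κ2 := K) hd0 hd'0 hν0 ?_ ?_ hd ?_ ex_up hd' hΓ2 ?_ hν' ?_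
  · intro s hs
    exact hC.pp_up hpq ⟨hs.1, hs.2.trans hT.2⟩ (hK s hs s ⟨hs.1, le_rfl⟩)
  · intro s hs
    have := hC.ex2_lo hpe hqe hpq (T := T) (s := s) hT hs
      (B := Q T s) (by rw [compl_pair_eq]; exact hQ T ⟨hT.1, le_rfl⟩ s hs)
    simpa only [insert_empty_eq] using this
  · intro s hs
    exact hC.pp_lo hpq ⟨hs.1, hs.2.trans hT.2⟩ (hQ s hs s ⟨hs.1, le_rfl⟩)
  · intro s hs
    have hI := hC.inf hT (w := p) (H0 := ({p, q} : Finset V)ᶜ) (by simp)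
      (subset_rfl : ({p, q} : Finset V)ᶜ ⊆ _) le_rfl
    have h1 := n_simple hh hTt hI hs
    have hc : 0 ≤ ∑ w ∈ ({p, q} : Finset V)ᶜ, h s q w *
      Pt H X M ({p, q} : Finset V)ᶜ p T w s :=
      Finset.sum_nonneg fun w hw => mul_nonneg (hh.nonneg _ _ _) (hI.P0 w hw s hs)
    have h2 := key T ⟨hT.1, le_rfl⟩ s hs _ hc
    refine h1.trans (h2.trans ?_)
    exact mul_le_mul_of_nonneg_left (hg2 s hs) (bb_nonneg hh _ _ hTt)
  · intro T' hT'
    obtain ⟨Γ3, g3, h1, h2, h3⟩ := hlow T' hT'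
    refine ⟨Γ3, g3, h1, fun s hs => ?_, h3⟩
    have hT'1 : T' ∈ Icc (0 : ℝ) 1 := ⟨hT'.1, hT'.2.trans hTt.2⟩
    have hI := hC.inf (T := T') ⟨hT'.1, hT'.2.trans hT.2⟩ (w := p)
      (H0 := ({p, q} : Finset V)ᶜ) (by simp)
      (subset_rfl : ({p, q} : Finset V)ᶜ ⊆ _) le_rfl
    have h4 := n_low (D := ∅) hh hT'1 (p := p) (q := q) (by rw [compl_pair_eq]; exact hI) hs
      (yb := ∑ w ∈ ({p, q} : Finset V)ᶜ, h s q w *
        Nt X ({p, q} : Finset V)ᶜ p (M T' - M s) w) (by rw [compl_pair_eq])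
    have hc : 0 ≤ ∑ w ∈ ({p, q} : Finset V)ᶜ, h s q w *
        Nt X ({p, q} : Finset V)ᶜ p (M T' - M s) w :=
      Finset.sum_nonneg fun w hw => mul_nonneg (hh.nonneg _ _ _) (hI.N0 w hw s hs)
    have h5 := key T' hT' s hs _ hc
    have h6 := mul_le_mul_of_nonneg_left (h2 s hs)
      (bb_nonneg hh {q} p hT'1)
    linarith

/-- The A-lemma in number form. -/
theorem Cx.A_E (hC : Cx h H X M μ t) {D : Finset V} {p q : V} (hp : p ∉ D) (hq : q ∉ D)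
    (hpq : p ≠ q) {T : ℝ} (hT : T ∈ Icc 0 t)
    {E : ℝ → ℝ} (hE : ∀ s ∈ Icc 0 T, HasDerivAt E (dE h p q s) s) (hE0 : E 0 = 0)
    {K Q r β w : ℝ → ℝ} {ε n α : ℝ}
    (hK : ∀ s ∈ Icc 0 T, Exq (cru2 h H X M (insert p (insert q D))ᶜ p T q s) s (K s))
    (hQ : ∀ s ∈ Icc 0 T, Exq (crl2 h H X M ({p, q} : Finset V)ᶜ p s q s) s (Q s))
    (hr : ∀ s ∈ Icc 0 T, bb h (insert p D) q s ≤ r s * bb h {p} q s)
    (hβ : ∀ s ∈ Icc 0 T, Real.exp (-H p q s) * bb h (insert p D) q s ≤ β s)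
    (hw : ∀ s ∈ Icc 0 T, Wr h p q s ≤ Real.exp (-E s) * (1 + w s))
    (hε : ∀ s ∈ Icc 0 T, (1 + w s) * (r s * Real.exp (K s + Q s)) ≤ 1 + ε)
    {Z Z' : ℝ → ℝ} (hZ : ∀ s ∈ Icc 0 T, HasDerivAt Z (Z' s) s)
    (hZ' : ∀ s ∈ Icc 0 T, (∑ w ∈ (insert p (insert q D))ᶜ, h s q w *
      Nt X (insert p (insert q D))ᶜ p (M T - M s) w) * (Real.exp (K s) * β s) ≤ Z' s)
    (hZn : Z T - Z 0 ≤ n) (hα0 : 0 ≤ α)
    (hα : 1 ≤ (1 + α) * (1 - (Real.exp (E T) - 1) * ε - Real.exp (E T) * n)) :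
    bb h (insert q D) p T ≤ Real.exp (E T) * (1 + α) * bb h D p T := by
  have hh := hC.hh
  have hI := hC.inf hT (w := p) (H0 := (insert p (insert q D))ᶜ) (by simp)
      (subset_rfl : (insert p (insert q D))ᶜ ⊆ _) le_rfl
  refine ratio_E (bb_nonneg hh _ _ (hC.mem hT)) hα0 (aLem_E hh hp hq hpq (hC.mem hT) hI hE hE0
    (yb := fun s => ∑ w ∈ (insert p (insert q D))ᶜ, h s q w *
      Nt X (insert p (insert q D))ᶜ p (M T - M s) w)
    (fun s _ => le_rfl) (fun s hs => Finset.sum_nonneg fun w hw =>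
      mul_nonneg (hh.nonneg _ _ _) (hI.N0 w hw s hs))
    (fun s hs => hC.ex2_up hp hq hpq hT hs (hK s hs))
    (fun s hs => hC.pp_lo hpq ⟨hs.1, hs.2.trans hT.2⟩ (hQ s hs)) hr hβ hw hε hZ
    (fun s hs => ?_) hZn) hα
  rw [mul_assoc]
  exact hZ' s hs

/-- derivative of the closure exponent -/
theorem Cx.Yd (hC : Cx h H X M μ t) {T : ℝ} (hT : T ∈ Icc 0 t) (H0 : Finset V) (u a : V) {r : ℝ}
    (hr : r ∈ Icc 0 T) :
    HasDerivAt (fun r => Yt X H0 u (M T - M r) a)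
      (-(μ r * (rm X H0 *ᵥ fun b => Nt X H0 u (M T - M r) b) a)) r := by
  have h1 := Yw_deriv (151 / 1000) (1111 / 1000) (745 / 10000) (rm X H0) (fun b => Fc (X u b))
    (M T - M r) a
  have h2 := (hC.Md r ⟨hr.1, hr.2.trans hT.2⟩).const_sub (M T)
  refine (h1.comp r h2).congr_deriv ?_
  show _ * -μ r = -(μ r * _)
  rw [mul_comm]
  have : (rm X H0 *ᵥ Nw (151 / 1000) (1111 / 1000) (745 / 10000) (rm X H0)
      (fun b => Fc (X u b)) (M T - M r)) a = (rm X H0 *ᵥ fun b => Nt X H0 u (M T - M r) b) a := rfl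
  rw [this]; ring

theorem Cx.Y_closed (hC : Cx h H X M μ t) {T : ℝ} (hT : T ∈ Icc 0 t) {H0 : Finset V} {u a : V}
    (hu : u ∉ H0) (ha : a ∈ H0) {S : Finset V} (hS : S ⊆ H0) {r : ℝ} (hr : r ∈ Icc 0 T) :
    ∑ c ∈ S, h r a c * Nt X H0 u (M T - M r) c
      ≤ μ r * (rm X H0 *ᵥ fun b => Nt X H0 u (M T - M r) b) a := by
  have hI := hC.inf hT (w := u) (H0 := H0) hu (subset_rfl : H0 ⊆ _) le_rfl
  rw [mulVec_rm_eq H0 _ ha, Finset.mul_sum]
  calc ∑ c ∈ S, h r a c * Nt X H0 u (M T - M r) c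
      ≤ ∑ c ∈ H0, h r a c * Nt X H0 u (M T - M r) c :=
        Finset.sum_le_sum_of_subset_of_nonneg hS fun c hc _ =>
          mul_nonneg (hC.hh.nonneg _ _ _) (hI.N0 c hc r hr)
    _ ≤ ∑ c ∈ H0, μ r * (X a c * Nt X H0 u (M T - M r) c) := by
        refine Finset.sum_le_sum fun c hc => ?_
        have := mul_le_mul_of_nonneg_right (hC.le r ⟨hr.1, hr.2.trans hT.2⟩ a c) (hI.N0 c hc r hr)
        linarith

theorem Cx.Y_nonneg (hC : Cx h H X M μ t) {T : ℝ} (hT : T ∈ Icc 0 t) (H0 : Finset V) (u a : V)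
    {r : ℝ} (hr : r ∈ Icc 0 T) : 0 ≤ Yt X H0 u (M T - M r) a :=
  Yw_nonneg good1 (hC.hX.rm_nonneg H0) (fun b => Fc_nonneg (hC.hX.nonneg u b))
    ((hC.clk hT).m r hr) a

/-- the bound of the `Ξ` function -/
theorem Cx.xi (hC : Cx h H X M μ t) {u v w : V} (huv : u ≠ v) (huw : u ≠ w) (hvw : v ≠ w)
    {s : ℝ} (hs : s ∈ Icc 0 t) {B : ℝ → ℝ}
    (hB : Exf (cru2 h H X M ({u, v, w} : Finset V)ᶜ u t w t) t B) :
    ex (lw h ∅ s) {u, v, w} (fun F => RCG.tgt h u t F s - RCG.tgt h u t (insert w F) s)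
      ≤ Real.exp (B s) * ex (lw h ∅ s) {u, v, w} (fun F => RCG.tgt h u t F s * RCG.src h u w t F s)
        + Yt X ({u, v} : Finset V)ᶜ u (M t - M s) w *
          ex (lw h ∅ s) {u, v, w} (fun F => RCG.tgt h u t F s) := by
  obtain ⟨κ, κ', h1, h2, h3, h4⟩ := hB
  have ht : t ∈ Icc 0 t := ⟨hC.t0, le_rfl⟩
  have hwm : w ∈ ({u, v} : Finset V)ᶜ := by simp [huw.symm, hvw.symm]
  have hsub : ({u, v, w} : Finset V)ᶜ ⊆ ({u, v} : Finset V)ᶜ := by
    rw [Finset.compl_subset_compl]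
    intro z hz
    simp only [Finset.mem_insert, Finset.mem_singleton] at hz ⊢
    tauto
  have hIu := hC.inf ht (w := u) (H0 := ({u, v, w} : Finset V)ᶜ) (by simp)
    (subset_rfl : ({u, v, w} : Finset V)ᶜ ⊆ _) le_rfl
  have hIw := (hC.clo ht (w := w) (H0 := ({u, v, w} : Finset V)ᶜ) (by simp)).src (u := u) hC.hh hC.ht
  have mono : ∀ c m, m ∈ Icc (0 : ℝ) (23 / 20) →
      Nt X ({u, v, w} : Finset V)ᶜ u m c ≤ Nt X ({u, v} : Finset V)ᶜ u m c := by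
    intro c m hm
    have hA1 := hC.hX.rm_nonneg ({u, v, w} : Finset V)ᶜ
    have hA2 := hC.hX.rm_nonneg ({u, v} : Finset V)ᶜ
    have hML := hC.hX.rm_mono hsub
    have hF : ∀ b, 0 ≤ Fc (X u b) := fun b => Fc_nonneg (hC.hX.nonneg u b)
    unfold Nt Nw
    set A1 := rm X ({u, v, w} : Finset V)ᶜ
    set A2 := rm X ({u, v} : Finset V)ᶜ
    have r1 := hC.hX.rm_row ({u, v, w} : Finset V)ᶜ
    have r2 := hC.hX.rm_row ({u, v} : Finset V)ᶜ
    have step : ∀ {F G : V → ℝ}, (∀ b, 0 ≤ F b) → (∀ b, F b ≤ G b) → ∀ b,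
        (A1 *ᵥ F) b ≤ (A2 *ᵥ G) b := by
      intro F G hF hFG b
      refine (mulVec_mono hA1 hFG b).trans ?_
      exact mulVec_mono_mat hML (fun b => (hF b).trans (hFG b)) b
    have hsqn : ∀ n : ℕ, ML ((A1 * A1) ^ n) ((A2 * A2) ^ n) := by
      intro n
      induction n with
      | zero => intro a b; simp
      | succ n ihn =>
        intro a b
        rw [pow_succ, pow_succ]
        simp only [Matrix.mul_apply]
        refine Finset.sum_le_sum fun c _ => ?_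
        have hp1 : 0 ≤ ((A1 * A1) ^ n) a c := (MN.pow (hA1.mul hA1) n) a c
        have hq : ∑ j, A1 c j * A1 j b ≤ ∑ j, A2 c j * A2 j b :=
          Finset.sum_le_sum fun j _ => mul_le_mul (hML c j) (hML j b) (hA1 j b) (hA2 c j)
        have hq0 : 0 ≤ ∑ j, A1 c j * A1 j b :=
          Finset.sum_nonneg fun j _ => mul_nonneg (hA1 c j) (hA1 j b)
        exact mul_le_mul (ihn a c) hq hq0 (hp1.trans (ihn a c))
    have hres : ∀ b, Res (745 / 10000) (A1 * A1) (fun b => Fc (X u b)) b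
        ≤ Res (745 / 10000) (A2 * A2) (fun b => Fc (X u b)) b := by
      intro b
      unfold Res
      have s1 := Res_summable (θ := 745 / 10000) (by norm_num) (by norm_num) (hA1.mul hA1)
        (sq_row hA1 r1) hF b
      have s2 := Res_summable (θ := 745 / 10000) (by norm_num) (by norm_num) (hA2.mul hA2)
        (sq_row hA2 r2) hF b
      refine s1.tsum_le_tsum (fun n => ?_) s2
      exact mul_le_mul_of_nonneg_left (mulVec_mono_mat (hsqn n) hF b) (by positivity)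
    have hr0 : ∀ b, 0 ≤ Res (745 / 10000) (A1 * A1) (fun b => Fc (X u b)) b :=
      Res_nonneg (by norm_num) (hA1.mul hA1) hF
    have e1 := step hF (fun b => le_rfl) c
    have e2 := step hr0 hres
    have e3 := step (fun b => mulVec_nonneg hA1 hr0 b) e2
    have e4 := step (fun b => mulVec_nonneg hA1 (fun b => mulVec_nonneg hA1 hr0 b) b) e3 c
    exact add_le_add (mul_le_mul_of_nonneg_left e1 (b2_nonneg (by norm_num) hm.1))
      (mul_le_mul_of_nonneg_left e4 (b4_nonneg (by norm_num) (by norm_num) hm.1))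
  have key := xi_ex_le hC.hh (u := u) (v := v) (w := w) hC.ht hIu hIw h1
    (Y := fun r => Yt X ({u, v} : Finset V)ᶜ u (M t - M r) w)
    (fun r hr => hC.Yd ht _ u w hr) h2 (fun r hr => hC.Y_nonneg ht _ u w hr) h4
    (fun r hr => by
      rw [neg_neg]
      refine le_trans ?_ (hC.Y_closed ht (H0 := ({u, v} : Finset V)ᶜ) (u := u) (a := w) (by simp)
        hwm hsub hr)
      refine Finset.sum_le_sum fun c hc => mul_le_mul_of_nonneg_left ?_ (hC.hh.nonneg _ _ _)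
      exact mono c _ ((hC.clk ht).m r hr)) hs
  refine key.trans (add_le_add ?_ le_rfl)
  refine mul_le_mul_of_nonneg_right (Real.exp_le_exp.2 (h3 s hs)) ?_
  exact ex_nonneg (fun F => (hC.hh.lw ∅).nonneg F s (hC.mem hs)) fun F =>
    mul_nonneg ((hC.hh.tgt u hC.ht).ev.nonneg F s hs) ((hC.hh.src u w hC.ht).ev.nonneg F s hs)

end Pool.Agent.RCG
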