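import Pool.Agent.RCG.Shift
import Pool.Agent.RCG.NPN

/-! Family form of the influence of an additional vertex: the horizon of the second target varies
(MP_73ccd0_lc, general graphs). -/

namespace Pool.Agent.RCG

open Set Finset Matrix Pool.Agent.RCRSHalf

set_option linter.unusedSectionVars false

variable {V : Type*} [Fintype V] [DecidableEq V]
variable {h : ℝ → V → V → ℝ} {H : V → V → ℝ → ℝ} {X : V → V → ℝ} {M μ : ℝ → ℝ} {t : ℝ}

/-- `∫_s^r rate ≤ B` in the form used by the comparison lemmas -/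
def Exi (rate : ℝ → ℝ) (s r B : ℝ) : Prop :=
  ∃ κ κ' : ℝ → ℝ, (∀ x ∈ Icc s r, HasDerivAt κ (κ' x) x) ∧ 0 ≤ κ r ∧ κ s ≤ B ∧
    ∀ x ∈ Icc s r, rate x ≤ -κ' x

theorem Exi.mono {rate : ℝ → ℝ} {s r B B' : ℝ} (h : Exi rate s r B) (hB : B ≤ B') :
    Exi rate s r B' := by
  obtain ⟨κ, κ', h1, h2, h3, h4⟩ := h
  exact ⟨κ, κ', h1, h2, h3.trans hB, h4⟩

theorem Exi.rate_mono {rate rate' : ℝ → ℝ} {s r B : ℝ} (h : Exi rate s r B)
    (hr : ∀ x ∈ Icc s r, rate' x ≤ rate x) : Exi rate' s r B := by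
  obtain ⟨κ, κ', h1, h2, h3, h4⟩ := h
  exact ⟨κ, κ', h1, h2, h3, fun x hx => (hr x hx).trans (h4 x hx)⟩

theorem Exq.rate_mono {rate rate' : ℝ → ℝ} {s B : ℝ} (h : Exq rate s B)
    (hr : ∀ x ∈ Icc 0 s, rate' x ≤ rate x) : Exq rate' s B := by
  obtain ⟨κ, κ', h1, h2, h3, h4⟩ := h
  exact ⟨κ, κ', h1, h2, h3, fun x hx => (hr x hx).trans (h4 x hx)⟩

theorem Exi.shift {rate : ℝ → ℝ} {s r B : ℝ} (h : Exi rate s r B) :
    Exq (fun x => rate (s + x)) (r - s) B := by
  obtain ⟨κ, κ', h1, h2, h3, h4⟩ := h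
  refine ⟨fun x => κ (s + x), fun x => κ' (s + x), fun x hx => ?_, ?_, ?_, fun x hx => ?_⟩
  · exact hasDerivAt_shift (h1 (s + x) ⟨by linarith [hx.1], by linarith [hx.2]⟩)
  · simpa only [add_sub_cancel] using h2
  · simpa only [add_zero] using h3
  · exact h4 (s + x) ⟨by linarith [hx.1], by linarith [hx.2]⟩

theorem Exi.of_clock (hC : Cx h H X M μ t) {s r : ℝ} (hr : r ∈ Icc 0 t) (hs : 0 ≤ s)
    {rate Φ Ψ : ℝ → ℝ}
    (hΨ : ∀ x, HasDerivAt Ψ (Φ x) x) (hrt : ∀ x ∈ Icc s r, rate x ≤ μ x * Φ (M x)) :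
    Exi rate s r (Ψ (M r) - Ψ (M s)) := by
  refine ⟨fun x => Ψ (M r) - Ψ (M x), fun x => -(Φ (M x) * μ x), fun x hx => ?_, by simp,
    le_rfl, fun x hx => ?_⟩
  · have hx2 : x ∈ Icc 0 t := ⟨hs.trans hx.1, hx.2.trans hr.2⟩
    exact ((hΨ (M x)).comp x (hC.Md x hx2)).const_sub _
  · have := hrt x hx
    simp only [neg_neg]
    linarith [mul_comm (μ x) (Φ (M x))]

theorem k2R_subset {h : V → V → ℝ} (h0 : ∀ a b, 0 ≤ h a b) {F H0 : Finset V} (hF : F ⊆ H0)
    {P N P' N' : V → ℝ} (hP : ∀ a ∈ H0, 0 ≤ P a) (hN : ∀ a ∈ H0, 0 ≤ N a)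
    (hP' : ∀ a ∈ H0, 0 ≤ P' a) (hN' : ∀ a ∈ H0, 0 ≤ N' a) :
    k2R h F P N P' N' ≤ k2R h H0 P N P' N' := by
  have hterm0 : ∀ a ∈ H0, ∀ b ∈ H0, 0 ≤ h a b *
      (((1 + P a) * (1 + P b) - 1) * ((1 + P' a) * (1 + P' b) - 1)
        + (N a + N b) * (N' a + N' b)) := by
    intro a ha b hb
    have e1 : 0 ≤ (1 + P a) * (1 + P b) - 1 := pair_P0 (hP a ha) (hP b hb)
    have e2 : 0 ≤ (1 + P' a) * (1 + P' b) - 1 := pair_P0 (hP' a ha) (hP' b hb)
    have q5 := hN a ha
    have q6 := hN b hb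
    have q7 := hN' a ha
    have q8 := hN' b hb
    have := h0 a b
    positivity
  unfold k2R
  refine mul_le_mul_of_nonneg_left ?_ (by norm_num)
  refine le_trans (Finset.sum_le_sum fun a ha => Finset.sum_le_sum_of_subset_of_nonneg hF
    fun b hb _ => hterm0 a (hF ha) b hb) ?_
  exact Finset.sum_le_sum_of_subset_of_nonneg hF fun a ha _ => Finset.sum_nonneg fun b hb =>
    hterm0 a ha b hb

theorem compl_ins_ins {u w : V} {F : Finset V} (hu : u ∉ F) (hw : w ∉ F) :
    (insert u (insert w (insert u (insert w F))ᶜ))ᶜ = F := by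
  ext a
  simp only [Finset.mem_compl, Finset.mem_insert]
  constructor
  · intro h1
    by_contra h2
    exact h1 (by tauto)
  · intro h1 h2
    have : a ≠ u := fun e => hu (e ▸ h1)
    have : a ≠ w := fun e => hw (e ▸ h1)
    tauto

theorem ins_compl {u w : V} {F : Finset V} (huw : u ≠ w) (hw : w ∉ F) :
    insert w (insert u (insert w F))ᶜ = (insert u F)ᶜ := by
  ext a
  simp only [Finset.mem_compl, Finset.mem_insert]
  constructor
  · rintro (h1 | h1)
    · subst h1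
      rintro (h2 | h2)
      · exact huw h2.symm
      · exact hw h2
    · tauto
  · intro h1
    tauto

/-- the pair comparison in the restarted world -/
theorem Cx.pairF (hC : Cx h H X M μ t) {H0 F : Finset V} (hF : F ⊆ H0) {u w : V} (hu : u ∉ H0)
    (hw : w ∉ H0) (huw : u ≠ w) {T r s : ℝ} (hT : T ∈ Icc 0 t) (hr : r ∈ Icc 0 T)
    (hs : s ∈ Icc 0 r) {B : ℝ} (hB : Exi (cru2 h H X M H0 u T w r) s r B) :
    ex (lw (sh h s) (insert u (insert w F))ᶜ (r - s)) {u, w} (fun G => RCG.tgt h u T G r)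
      ≤ Real.exp (-(H u w r - H u w s) + B) * (RCG.tgt h u T F s * RCG.tgt h w r F s) := by
  have huF : u ∉ F := fun hh => hu (hF hh)
  have hwF : w ∉ F := fun hh => hw (hF hh)
  have hst : s ∈ Icc 0 t := ⟨hs.1, hs.2.trans (hr.2.trans hT.2)⟩
  have hsT : s ∈ Icc 0 T := ⟨hs.1, hs.2.trans hr.2⟩
  have hrt : r ∈ Icc 0 t := ⟨hr.1, hr.2.trans hT.2⟩
  have hC' := hC.shift hst
  have hT' : T - s ∈ Icc 0 (t - s) := ⟨by linarith [hsT.2], by linarith [hT.2]⟩
  have hr' : r - s ∈ Icc 0 (T - s) := ⟨by linarith [hs.2], by linarith [hr.2]⟩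
  have hr'' : r - s ∈ Icc 0 (t - s) := ⟨hr'.1, hr'.2.trans hT'.2⟩
  obtain ⟨κ, κ', h1, h2, h3, h4⟩ := hB.shift
  have hF' := compl_ins_ins huF hwF
  have key := ex_pair_le hC'.hh (D := (insert u (insert w F))ᶜ) (p := u) (q := w) (by simp)
    (by simp) huw (hC'.mem hT') hr' (κ := κ) (κ' := κ')
    (by rw [hF']; exact hC'.inf hT' (w := u) (H0 := H0) hu hF hr'.2)
    (by rw [hF']; exact hC'.inf hr'' (w := w) (H0 := H0) hw hF le_rfl) h1 h2
    (fun x hx => by
      rw [hF']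
      refine le_trans ?_ (h4 x hx)
      have hx1 : s + x ∈ Icc 0 T := ⟨by linarith [hx.1, hs.1], by linarith [hx.2, hr.2]⟩
      have hx2 : s + x ∈ Icc 0 r := ⟨by linarith [hx.1, hs.1], by linarith [hx.2]⟩
      have i1 := hC.inf hT (w := u) (H0 := H0) hu (subset_rfl : H0 ⊆ H0) le_rfl
      have i2 := hC.inf hrt (w := w) (H0 := H0) hw (subset_rfl : H0 ⊆ H0) le_rfl
      have e1 : M (s + (T - s)) - M s - (M (s + x) - M s) = M T - M (s + x) := by
        rw [add_sub_cancel]; ring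
      have e2 : M (s + (r - s)) - M s - (M (s + x) - M s) = M r - M (s + x) := by
        rw [add_sub_cancel]; ring
      simp only [Pt_shift, e1, e2]
      unfold cru2 ru2
      exact k2R_subset (h := h (s + x)) (fun a b => hC.hh.nonneg _ a b) hF
        (fun a ha => i1.P0 a ha _ hx1) (fun a ha => i1.N0 a ha _ hx1)
        (fun a ha => i2.P0 a ha _ hx2) (fun a ha => i2.N0 a ha _ hx2))
  have e3 : ex (lw (sh h s) (insert u (insert w F))ᶜ (r - s)) {u, w}
        (fun G => RCG.tgt (sh h s) u (T - s) G (r - s))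
      = ex (lw (sh h s) (insert u (insert w F))ᶜ (r - s)) {u, w} (fun G => RCG.tgt h u T G r) := by
    congr 1
    funext G
    rw [tgt_shift hC.hh u (hC.mem hT) hsT G hr', add_sub_cancel]
  have e4 : bb (sh h s) (insert w (insert u (insert w F))ᶜ) u (T - s) = RCG.tgt h u T F s := by
    rw [ins_compl huw hwF]
    exact bb_shift hC.hh (hC.mem hT) hsT huF
  have e5 : bb (sh h s) (insert u (insert u (insert w F))ᶜ) w (r - s) = RCG.tgt h w r F s := by
    rw [Finset.insert_comm u w F, ins_compl huw.symm huF]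
    exact bb_shift hC.hh (hC.mem hrt) hs hwF
  rw [e3, e4, e5] at key
  refine key.trans ?_
  refine mul_le_mul_of_nonneg_right (Real.exp_le_exp.2 ?_) ?_
  · have : sH H s u w (r - s) = H u w r - H u w s := by
      unfold sH; rw [add_sub_cancel]
    rw [this]
    linarith
  · exact mul_nonneg ((hC.hh.tgt u (hC.mem hT)).ev.nonneg F s hsT)
      ((hC.hh.tgt w (hC.mem hrt)).ev.nonneg F s hs)

/-- family form of the influence of `w` for a fixed set -/
theorem Cx.xiF (hC : Cx h H X M μ t) {H0 F : Finset V} (hF : F ⊆ H0) {u w : V} (hu : u ∉ H0)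
    (hw : w ∉ H0) (huw : u ≠ w) {T s : ℝ} (hT : T ∈ Icc 0 t) (hs : s ∈ Icc 0 T)
    {Γ g : ℝ → ℝ} (hΓ : ∀ r ∈ Icc s T, HasDerivAt Γ (g r) r)
    (hg : ∀ r ∈ Icc s T, (h r u w + ∑ c ∈ H0, h r w c * Nt X H0 u (M T - M r) c) *
      ex (lw (sh h s) (insert u (insert w F))ᶜ (r - s)) {u, w} (fun G => RCG.tgt h u T G r)
        ≤ g r) :
    RCG.tgt h u T F s - RCG.tgt h u T (insert w F) s ≤ Γ T - Γ s := by
  have huF : u ∉ F := fun hh => hu (hF hh)
  have hwF : w ∉ F := fun hh => hw (hF hh)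
  have hst : s ∈ Icc 0 t := ⟨hs.1, hs.2.trans hT.2⟩
  have hC' := hC.shift hst
  have hT' : T - s ∈ Icc 0 (t - s) := ⟨by linarith [hs.2], by linarith [hT.2]⟩
  have hF' := compl_ins_ins huF hwF
  set D : Finset V := (insert u (insert w F))ᶜ with hD
  have hInf := hC'.inf hT' (w := u) (H0 := H0) hu hF le_rfl
  have key := duh1_le hC'.hh (D := D) (u := u) (v := w) (by simp [hD]) huw (hC'.mem hT')
    (Γ := fun x => Γ (s + x)) (g := fun x => g (s + x))
    (fun x hx => hasDerivAt_shift (hΓ (s + x) ⟨by linarith [hx.1], by linarith [hx.2]⟩))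
    (fun x hx => by
      have hx1 : s + x ∈ Icc s T := ⟨by linarith [hx.1], by linarith [hx.2]⟩
      have hx0 : s + x ∈ Icc 0 T := ⟨by linarith [hx.1, hs.1], by linarith [hx.2]⟩
      have e1 : M (s + (T - s)) - M s - (M (s + x) - M s) = M T - M (s + x) := by
        rw [add_sub_cancel]; ring
      have n1 := n_low hC'.hh (D := D) (p := u) (q := w) (T := T - s) (hC'.mem hT')
        (P := Pt (sH H s) X (fun r => M (s + r) - M s) H0 u (T - s))
        (N := fun a r => Nt X H0 u ((fun r => M (s + r) - M s) (T - s)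
          - (fun r => M (s + r) - M s) r) a)
        (by rw [hF']; exact hInf) hx (yb := ∑ c ∈ H0, h (s + x) w c * Nt X H0 u (M T - M (s + x)) c)
        (by
          rw [hF']
          simp only [e1]
          have i1 := hC.inf hT (w := u) (H0 := H0) hu (subset_rfl : H0 ⊆ H0) le_rfl
          exact Finset.sum_le_sum_of_subset_of_nonneg hF fun c hc _ =>
            mul_nonneg (hC.hh.nonneg _ _ _) (i1.N0 c hc _ hx0))
      have e3 : ex (lw (sh h s) D x) {u, w} (fun G => RCG.tgt (sh h s) u (T - s) G x)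
          = ex (lw (sh h s) D (s + x - s)) {u, w} (fun G => RCG.tgt h u T G (s + x)) := by
        rw [add_sub_cancel_left]
        congr 1
        funext G
        rw [tgt_shift hC.hh u (hC.mem hT) hs G hx]
      have n2 := hg (s + x) hx1
      rw [← e3] at n2
      have n3 : sh h s x u w = h (s + x) u w := rfl
      rw [n3]
      linarith)
  have e4 : bb (sh h s) (insert w D) u (T - s) = RCG.tgt h u T F s := by
    rw [hD, ins_compl huw hwF]
    exact bb_shift hC.hh (hC.mem hT) hs huF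
  have e5 : bb (sh h s) D u (T - s) = RCG.tgt h u T (insert w F) s := by
    rw [hD]
    exact bb_shift hC.hh (hC.mem hT) hs (by simp [huw, huF])
  simp only [add_sub_cancel, add_zero] at key
  rw [e4, e5] at key
  exact key

/-- continuity of the expectation in the restarted world -/
theorem Cx.gg_cont (hC : Cx h H X M μ t) (D : Finset V) (u w : V) {T s : ℝ} (hT : T ∈ Icc 0 t)
    (hs : s ∈ Icc 0 T) :
    ContinuousOn (fun r => ex (lw (sh h s) D (r - s)) {u, w} (fun G => RCG.tgt h u T G r))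
      (Icc s T) := by
  unfold ex
  refine continuousOn_finsetSum _ fun G _ => ?_
  refine ContinuousOn.mul ?_ ?_
  · intro r hr
    have h1 := (hC.shift (s := s) ⟨hs.1, hs.2.trans hT.2⟩).hh.lw D
    have h2 := h1.deriv G (r - s) ⟨by linarith [hr.1], by
      linarith [hr.2, hs.1, hT.2, hC.t1]⟩
    have h3 : HasDerivAt (fun r : ℝ => r - s) 1 r := (hasDerivAt_id' r).sub_const s
    exact (h2.comp r h3).continuousAt.continuousWithinAt
  · by_cases hG : ({u, w} : Finset V) ⊆ G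
    · simp only [if_pos hG]
      intro r hr
      exact ((hC.hh.tgt u (hC.mem hT)).ev.deriv _ r
        ⟨hs.1.trans hr.1, hr.2⟩).continuousAt.continuousWithinAt
    · simp only [if_neg hG]
      exact continuousOn_const

/-- primitives on an interval -/
theorem exists_prim' {g : ℝ → ℝ} {s T : ℝ} (hsT : s ≤ T) (hg : ContinuousOn g (Icc s T)) :
    ∃ Γ : ℝ → ℝ, Γ s = 0 ∧ ∀ r ∈ Icc s T, HasDerivAt Γ (g r) r := by
  have hcl : Continuous fun x : ℝ => max s (min T x) := by fun_prop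
  have hg' : Continuous fun x => g (max s (min T x)) :=
    hg.comp_continuous hcl fun x => ⟨le_max_left _ _, max_le hsT (min_le_left _ _)⟩
  refine ⟨fun x => ∫ r in s..x, g (max s (min T r)), by simp, fun x hx => ?_⟩
  have := hg'.integral_hasStrictDerivAt s x
  have e : max s (min T x) = x := by rw [min_eq_right hx.2, max_eq_right hx.1]
  have h2 := this.hasDerivAt
  simp only [e] at h2
  exact h2

theorem Cx.M_cont (hC : Cx h H X M μ t) : ContinuousOn M (Icc 0 t) := fun r hr =>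
  (hC.Md r hr).continuousAt.continuousWithinAt

theorem Nt_cont (X : V → V → ℝ) (H0 : Finset V) (u a : V) :
    Continuous fun m => Nt X H0 u m a := by
  unfold Nt
  exact continuous_iff_continuousAt.2 fun m => (Nw_deriv _ _ _ _ _ m a).continuousAt

theorem Cx.y_cont (hC : Cx h H X M μ t) (H0 : Finset V) (u w : V) {T : ℝ} (hT : T ∈ Icc 0 t) :
    ContinuousOn (fun r => h r u w + ∑ c ∈ H0, h r w c * Nt X H0 u (M T - M r) c) (Icc 0 T) := by
  refine ContinuousOn.add (hC.hh.cont u w).continuousOn ?_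
  refine continuousOn_finsetSum _ fun c _ => ?_
  refine (hC.hh.cont w c).continuousOn.mul ?_
  exact (Nt_cont X H0 u c).comp_continuousOn
    (continuousOn_const.sub (hC.M_cont.mono (Icc_subset_Icc le_rfl hT.2)))

/-- Expectation of the influence, family form. -/
theorem Cx.xiE (hC : Cx h H X M μ t) {D W H0 : Finset V} (hH0 : ∀ F, W ⊆ F → F ⊆ Dᶜ → F \ W ⊆ H0)
    {u w : V} (hu : u ∉ H0) (hw : w ∉ H0) (huw : u ≠ w) {T s : ℝ} (hT : T ∈ Icc 0 t)
    (hs : s ∈ Icc 0 T) {B : ℝ → ℝ}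
    (hB : ∀ r ∈ Icc s T, Exi (cru2 h H X M H0 u T w r) s r (B r))
    {Ψ ψ : ℝ → ℝ} (hΨ : ∀ r ∈ Icc s T, HasDerivAt Ψ (ψ r) r)
    (hψ : ∀ r ∈ Icc s T, (h r u w + ∑ c ∈ H0, h r w c * Nt X H0 u (M T - M r) c) *
      (Real.exp (-(H u w r - H u w s) + B r) *
        ex (lw h D s) W (fun F => RCG.tgt h u T F s * RCG.tgt h w r F s)) ≤ ψ r) :
    ex (lw h D s) W (fun F => RCG.tgt h u T F s - RCG.tgt h u T (insert w F) s)
      ≤ Ψ T - Ψ s := by
  have hst : s ∈ Icc 0 t := ⟨hs.1, hs.2.trans hT.2⟩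
  have hμ0 := fun F => (hC.hh.lw D).nonneg F s (hC.mem hst)
  set y : ℝ → ℝ := fun r => h r u w + ∑ c ∈ H0, h r w c * Nt X H0 u (M T - M r) c with hy
  have hy0 : ∀ r ∈ Icc s T, 0 ≤ y r := by
    intro r hr
    have i1 := hC.inf hT (w := u) (H0 := H0) hu (subset_rfl : H0 ⊆ H0) le_rfl
    exact add_nonneg (hC.hh.nonneg _ _ _) (Finset.sum_nonneg fun c hc =>
      mul_nonneg (hC.hh.nonneg _ _ _) (i1.N0 c hc r ⟨hs.1.trans hr.1, hr.2⟩))
  have hyc : ContinuousOn y (Icc s T) := (hC.y_cont H0 u w hT).mono (Icc_subset_Icc hs.1 le_rfl)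
  have hex : ∀ F : Finset V, ∃ Γ : ℝ → ℝ, Γ s = 0 ∧ ∀ r ∈ Icc s T, HasDerivAt Γ
      (y r * ex (lw (sh h s) (insert u (insert w F))ᶜ (r - s)) {u, w}
        (fun G => RCG.tgt h u T G r)) r := fun F =>
    exists_prim' hs.2 (hyc.mul (hC.gg_cont _ u w hT hs))
  choose Γ hΓ0 hΓ using hex
  -- the expectation
  have hsum : ∀ r ∈ Icc s T, HasDerivAt (fun r => ex (lw h D s) W (fun F => Γ F r))
      (ex (lw h D s) W (fun F => y r * ex (lw (sh h s) (insert u (insert w F))ᶜ (r - s)) {u, w}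
        (fun G => RCG.tgt h u T G r))) r := by
    intro r hr
    unfold ex
    refine HasDerivAt.fun_sum fun F _ => ?_
    refine HasDerivAt.const_mul _ ?_
    by_cases hWF : W ⊆ F
    · simp only [if_pos hWF]
      exact hΓ (F \ W) r hr
    · simp only [if_neg hWF]
      exact hasDerivAt_const _ _
  have hmono : ex (lw h D s) W (fun F => RCG.tgt h u T F s - RCG.tgt h u T (insert w F) s)
      ≤ ex (lw h D s) W (fun F => Γ F T) := by
    refine ex_mono hμ0 fun F hWF hF0 => ?_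
    have hFH := hH0 F hWF (lw_support hC.hh D (hC.mem hst) hF0)
    have := hC.xiF hFH hu hw huw hT hs (hΓ (F \ W)) (fun r _ => le_rfl)
    rw [hΓ0, sub_zero] at this
    exact this
  have hle : ∀ r ∈ Icc s T, ex (lw h D s) W (fun F => y r *
      ex (lw (sh h s) (insert u (insert w F))ᶜ (r - s)) {u, w}
        (fun G => RCG.tgt h u T G r)) ≤ ψ r := by
    intro r hr
    have hr0 : r ∈ Icc 0 T := ⟨hs.1.trans hr.1, hr.2⟩
    refine le_trans ?_ (hψ r hr)
    rw [← ex_smul, ← ex_smul]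
    refine ex_mono hμ0 fun F hWF hF0 => ?_
    have hFH := hH0 F hWF (lw_support hC.hh D (hC.mem hst) hF0)
    have h1 := hC.pairF hFH hu hw huw hT hr0 ⟨hs.1, hr.1⟩ (hB r hr)
    exact mul_le_mul_of_nonneg_left h1 (hy0 r hr)
  have key := nonneg_of_forward
    (U := fun r => (Ψ r - Ψ s) - ex (lw h D s) W (fun F => Γ F r))
    (U' := fun r => ψ r - ex (lw h D s) W (fun F => y r *
      ex (lw (sh h s) (insert u (insert w F))ᶜ (r - s)) {u, w} (fun G => RCG.tgt h u T G r)))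
    (a := s) (s := T) (fun r hr => ((hΨ r hr).sub_const _).sub (hsum r hr))
    (by
      have : ex (lw h D s) W (fun F => Γ F s) = 0 := by
        unfold ex
        refine Finset.sum_eq_zero fun F _ => ?_
        simp [hΓ0]
      simp [this])
    (fun r hr _ => by have := hle r hr; linarith) T ⟨hs.2, le_rfl⟩
  linarith

end Pool.Agent.RCG
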