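import Pool.Agent.RCG.KapE
import Pool.Agent.RCG.XNeg3

/-! The cost `Γ` in number form (MP_73ccd0_lc, general graphs). -/

namespace Pool.Agent.RCG

open Set Finset Matrix Pool.Agent.RCRSHalf

set_option linter.unusedSectionVars false

variable {V : Type*} [Fintype V] [DecidableEq V]
variable {h : ℝ → V → V → ℝ} {H : V → V → ℝ → ℝ} {X : V → V → ℝ} {M μ : ℝ → ℝ} {t : ℝ}

/-- the five-target rate `(u:t, v:t, b:s, {a,c}:t)` in the context -/
noncomputable def cru5 (h : ℝ → V → V → ℝ) (H : V → V → ℝ → ℝ) (X : V → V → ℝ) (M : ℝ → ℝ)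
    (u v b a c : V) (t s : ℝ) (r : ℝ) : ℝ :=
  ru4 (h r) ({u, v, b, a, c} : Finset V)ᶜ
    (fun d => Pt H X M ({u, v, b, a} : Finset V)ᶜ u t d r)
    (fun d => Nt X ({u, v, b, a} : Finset V)ᶜ u (M t - M r) d)
    (fun d => Pt H X M ({u, v, b, a} : Finset V)ᶜ v t d r)
    (fun d => Nt X ({u, v, b, a} : Finset V)ᶜ v (M t - M r) d)
    (fun d => Pt H X M ({u, v, b, a, c} : Finset V)ᶜ b s d r)
    (fun d => Nt X ({u, v, b, a, c} : Finset V)ᶜ b (M s - M r) d)
    (fun d => Pt2 H X M ({u, v, b, a, c} : Finset V)ᶜ a c t d r)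
    (fun d => Nt2 X ({u, v, b, a, c} : Finset V)ᶜ a c (M t - M r) d)

/-- the four-target rate `(u:t, v:t, a:s, b:s)` in the context -/
noncomputable def cru4 (h : ℝ → V → V → ℝ) (H : V → V → ℝ → ℝ) (X : V → V → ℝ) (M : ℝ → ℝ)
    (u v a b : V) (t s : ℝ) (r : ℝ) : ℝ :=
  ru4 (h r) ({u, v, a, b} : Finset V)ᶜ
    (fun d => Pt H X M ({u, v, a, b} : Finset V)ᶜ u t d r)
    (fun d => Nt X ({u, v, a, b} : Finset V)ᶜ u (M t - M r) d)
    (fun d => Pt H X M ({u, v, a, b} : Finset V)ᶜ v t d r)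
    (fun d => Nt X ({u, v, a, b} : Finset V)ᶜ v (M t - M r) d)
    (fun d => Pt H X M ({u, v, a, b} : Finset V)ᶜ a s d r)
    (fun d => Nt X ({u, v, a, b} : Finset V)ᶜ a (M s - M r) d)
    (fun d => Pt H X M ({u, v, a, b} : Finset V)ᶜ b s d r)
    (fun d => Nt X ({u, v, a, b} : Finset V)ᶜ b (M s - M r) d)

theorem px_nonneg (hh : Haz h H) (D : Finset V) (u c : V) {t s : ℝ} (ht : t ∈ Icc (0 : ℝ) 1)
    (hs : s ∈ Icc 0 t) : 0 ≤ px h D u c t s :=
  ex_nonneg (fun F => (hh.lw D).nonneg F s ⟨hs.1, hs.2.trans ht.2⟩)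
    fun F => (hh.tgt u ht).ev.nonneg _ s hs

theorem Cx.ex5_up (hC : Cx h H X M μ t) {u v b a c : V} (huv : u ≠ v) (hub : u ≠ b) (hua : u ≠ a)
    (huc : u ≠ c) (hvb : v ≠ b) (hva : v ≠ a) (hvc : v ≠ c) (hba : b ≠ a) (hbc : b ≠ c)
    (hac : a ≠ c) {s : ℝ} (hs : s ∈ Icc 0 t) {B : ℝ}
    (hB : Exq (cru5 h H X M u v b a c t s) s B) :
    ex (lw h ∅ s) {u, v, b, a, c}
        (fun F => RCG.tgt h u t (insert c F) s * RCG.tgt h v t F s * RCG.prf h v a c t F s)
      ≤ Real.exp (-(H u v s + H u b s + H u a s + H u c s + H v b s + H v a s + H v c s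
          + H b a s + H b c s) + B) *
        (px h {v, b, a, c} u c t s * bb h {u, b, a, c} v t * bb h {u, v, a, c} b s *
          zp h {u, v, b} v a c t s) := by
  obtain ⟨κ, κ', h1, h2, h3, h4⟩ := hB
  have ht : t ∈ Icc 0 t := ⟨hC.t0, le_rfl⟩
  have hsub : ({u, v, b, a, c} : Finset V)ᶜ ⊆ ({u, v, b, a} : Finset V)ᶜ := by
    rw [Finset.compl_subset_compl]
    intro z hz
    simp only [Finset.mem_insert, Finset.mem_singleton] at hz ⊢
    tauto
  have := ex_five_le hC.hh huv hub hua huc hvb hva hvc hba hbc hac hC.ht hs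
    (hC.clo ht (w := u) (H0 := ({u, v, b, a} : Finset V)ᶜ) (by simp))
    (hC.inf ht (w := v) (H0 := ({u, v, b, a} : Finset V)ᶜ) (by simp) hsub hs.2)
    (hC.inf hs (w := b) (H0 := ({u, v, b, a, c} : Finset V)ᶜ) (by simp) subset_rfl le_rfl)
    (hC.clo2 ht hac (H0 := ({u, v, b, a, c} : Finset V)ᶜ) (by simp) (by simp)) h1 h2 h4
  refine this.trans (mul_le_mul_of_nonneg_right (Real.exp_le_exp.2 (by linarith)) ?_)
  exact mul_nonneg (mul_nonneg (mul_nonneg (px_nonneg hC.hh _ _ _ hC.ht hs)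
    (bb_nonneg hC.hh _ _ hC.ht)) (bb_nonneg hC.hh _ _ (hC.mem hs)))
    (zp_nonneg hC.hh _ _ _ _ hC.ht hs)

theorem Cx.ex4_up (hC : Cx h H X M μ t) {u v a b : V} (huv : u ≠ v) (hua : u ≠ a) (hub : u ≠ b)
    (hva : v ≠ a) (hvb : v ≠ b) (hab : a ≠ b) {s : ℝ} (hs : s ∈ Icc 0 t) {B : ℝ}
    (hB : Exq (cru4 h H X M u v a b t s) s B) :
    ex (lw h ∅ s) {u, v, a, b} (fun F => RCG.tgt h u t F s * RCG.tgt h v t F s)
      ≤ Real.exp (-HW H {u, v, a, b} s + B) *
        (bb h {v, a, b} u t * bb h {u, a, b} v t * bb h {u, v, b} a s * bb h {u, v, a} b s) := by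
  obtain ⟨κ, κ', h1, h2, h3, h4⟩ := hB
  have ht : t ∈ Icc 0 t := ⟨hC.t0, le_rfl⟩
  have := ex_four_le hC.hh huv hua hub hva hvb hab hC.ht hs
    (hC.inf ht (w := u) (H0 := ({u, v, a, b} : Finset V)ᶜ) (by simp) subset_rfl hs.2)
    (hC.inf ht (w := v) (H0 := ({u, v, a, b} : Finset V)ᶜ) (by simp) subset_rfl hs.2)
    (hC.inf hs (w := a) (H0 := ({u, v, a, b} : Finset V)ᶜ) (by simp) subset_rfl le_rfl)
    (hC.inf hs (w := b) (H0 := ({u, v, a, b} : Finset V)ᶜ) (by simp) subset_rfl le_rfl) h1 h2 h4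
  refine this.trans (mul_le_mul_of_nonneg_right (Real.exp_le_exp.2 (by linarith)) ?_)
  exact mul_nonneg (mul_nonneg (mul_nonneg (bb_nonneg hC.hh _ _ hC.ht)
    (bb_nonneg hC.hh _ _ hC.ht)) (bb_nonneg hC.hh _ _ (hC.mem hs)))
    (bb_nonneg hC.hh _ _ (hC.mem hs))

/-- One half of the cost of the pair `(a, b)`: `a` is the vertex whose later match influences
`v`. -/
theorem Cx.T_bound (hC : Cx h H X M μ t) {u v a b : V} (huv : u ≠ v) (hua : u ≠ a) (hub : u ≠ b)
    (hva : v ≠ a) (hvb : v ≠ b) (hab : a ≠ b) {s : ℝ} (hs : s ∈ Icc 0 t)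
    {Pv Nv : V → ℝ → ℝ} {P N : V → V → ℝ → ℝ} {κ y Y : V → ℝ → ℝ}
    (hB : BDat h v a t ({u, v, a, b} : Finset V)ᶜ Pv Nv P N κ y Y)
    {K5 nc Av J : V → ℝ} {K4 Q Ya Yb Au Av4 : ℝ}
    (hK5 : ∀ c ∈ ({u, v, a, b} : Finset V)ᶜ, Exq (cru5 h H X M u v b a c t s) s (K5 c))
    (hpx : ∀ c ∈ ({u, v, a, b} : Finset V)ᶜ,
      px h {v, b, a, c} u c t s ≤ bb h {v, b, a} u t * Real.exp (H u c s + nc c))
    (hQ : Real.exp (-Q) * (bb h {b} a s * bb h {a} b s) ≤ Real.exp (H a b s) * pp h a b s)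
    (hdb : ∀ c ∈ ({u, v, a, b} : Finset V)ᶜ,
      bb h {u, v, a, c} b s ≤ Real.exp (H u b s + H v b s + H b c s + Yb) * bb h {a} b s)
    (hAu : bb h {v, b, a} u t ≤ Au * bb h {v} u t)
    (hAv : ∀ c ∈ ({u, v, a, b} : Finset V)ᶜ, bb h {u, b, a, c} v t ≤ Av c * bb h {u} v t)
    (hJ : ∀ c ∈ ({u, v, a, b} : Finset V)ᶜ,
      Real.exp (-(H v a s + H v c s)) * zp h {u, v, b} v a c t s ≤ J c)
    (hK4 : Exq (cru4 h H X M u v a b t s) s K4)
    (hda4 : bb h {u, v, b} a s ≤ Real.exp (H u a s + H v a s + Ya) * bb h {b} a s)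
    (hdb4 : bb h {u, v, a} b s ≤ Real.exp (H u b s + H v b s + Yb) * bb h {a} b s)
    (hAv4 : bb h {u, a, b} v t ≤ Av4 * bb h {u} v t) :
    Real.exp (H u v s) * (h s a b *
        ex (lw h ∅ s) {u, v, a, b} (fun G => RCG.tgt h u t G s * bn h v a t κ y G s))
      ≤ bb h {v} u t * bb h {u} v t *
        (dE h a b s * Wr h a b s * Au * Real.exp (Q + Yb - H u a s) *
          ∑ c ∈ ({u, v, a, b} : Finset V)ᶜ, Av c * Real.exp (κ c s + K5 c + nc c) * J c
        + (h s a b * pp h a b s) * (Au * Av4 * Real.exp (K4 + Q + Ya + Yb)) *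
          ∑ c ∈ ({u, v, a, b} : Finset V)ᶜ, (1 + Pv c s) * y c s) := by
  have hh := hC.hh
  have hs1 := hC.mem hs
  have hbn := ex_bn_le hh hC.ht hB hs
  have hX := mul_le_mul_of_nonneg_left hbn
    (mul_nonneg (Real.exp_pos (H u v s)).le (hh.nonneg s a b))
  have e0 : Real.exp (H u v s) * (h s a b *
        ex (lw h ∅ s) {u, v, a, b} (fun G => RCG.tgt h u t G s * bn h v a t κ y G s))
      = Real.exp (H u v s) * h s a b *
        ex (lw h ∅ s) {u, v, a, b} (fun G => RCG.tgt h u t G s * bn h v a t κ y G s) := by ring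
  rw [e0]
  refine hX.trans ?_
  rw [mul_add, mul_add (bb h {v} u t * bb h {u} v t)]
  refine add_le_add ?_ ?_
  · -- the main terms
    rw [Finset.mul_sum, Finset.mul_sum, Finset.mul_sum]
    refine Finset.sum_le_sum fun c hc => ?_
    have hc' := hc
    simp only [Finset.mem_compl, Finset.mem_insert, Finset.mem_singleton, not_or] at hc'
    obtain ⟨hcu, hcv, hca, hcb⟩ := hc'
    have h5 := hC.ex5_up huv hub hua (Ne.symm hcu) hvb hva (Ne.symm hcv) hab.symm (Ne.symm hcb)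
      (Ne.symm hca) hs (hK5 c hc)
    have h6 := five_up hh huv hub hua hvb hva (Ne.symm hcv) hab.symm (Ne.symm hcb) hC.ht hs h5
      (hpx c hc) hQ (hdb c hc) hAu (hAv c hc) (hJ c hc)
    have h7 := mul_le_mul_of_nonneg_left h6 (Real.exp_pos (κ c s)).le
    refine le_trans (le_of_eq ?_) (h7.trans (le_of_eq ?_))
    · ring
    · have e1 : Real.exp (K5 c + Q + Yb + nc c - H u a s) * Real.exp (κ c s)
          = Real.exp (Q + Yb - H u a s) * Real.exp (κ c s + K5 c + nc c) := by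
        rw [← Real.exp_add, ← Real.exp_add]; congr 1; ring
      calc Real.exp (κ c s) * (bb h {v} u t * bb h {u} v t * (h s a b * pp h a b s / bb h ∅ a s *
            Wr h a b s * (Au * Av c * Real.exp (K5 c + Q + Yb + nc c - H u a s) * J c)))
          = bb h {v} u t * bb h {u} v t * (dE h a b s * Wr h a b s * Au * Av c * J c *
              (Real.exp (K5 c + Q + Yb + nc c - H u a s) * Real.exp (κ c s))) := by
            unfold dE; ring
        _ = _ := by rw [e1]; ring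
  · -- the correction
    have h4 := hC.ex4_up huv hua hub hva hvb hab hs hK4
    have hAu' : bb h {v, a, b} u t ≤ Au * bb h {v} u t := by
      have : ({v, a, b} : Finset V) = {v, b, a} := by
        ext z; simp only [Finset.mem_insert, Finset.mem_singleton]; tauto
      rw [this]; exact hAu
    have h5 := g_up hh huv hua hub hva hvb hab hC.ht hs h4 hQ hda4 hdb4 hAu' hAv4
    have hy0 : 0 ≤ ∑ c ∈ ({u, v, a, b} : Finset V)ᶜ, (1 + Pv c s) * y c s := by
      refine Finset.sum_nonneg fun c hc => mul_nonneg ?_ (hB.y0 c hc s hs)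
      have := hB.iv.P0 c hc s hs
      linarith
    have h6 := mul_le_mul_of_nonneg_right h5 hy0
    refine le_trans (le_of_eq ?_) (h6.trans (le_of_eq ?_))
    · ring
    · ring

/-- Assembly of the cost: `P_e ≥ b b (1 - G)`. -/
theorem Cx.gam (hC : Cx h H X M μ t) {u v : V} (huv : u ≠ v)
    {κ y Y κ' y' Y' : V → V → V → ℝ → ℝ}
    (hBv : ∀ a ∈ ({u, v} : Finset V)ᶜ, ∀ b ∈ ({u, v} : Finset V)ᶜ, a ≠ b → X a b ≠ 0 →
      BDe h v a b t ({u, v, a, b} : Finset V)ᶜ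
        (fun d r => Pt H X M ({u, v} : Finset V)ᶜ v t d r)
        (fun d r => Nt X ({u, v} : Finset V)ᶜ v (M t - M r) d)
        (fun c d r => Pt2 H X M ({u, v, a, b, c} : Finset V)ᶜ a c t d r)
        (fun c d r => Nt2 X ({u, v, a, b, c} : Finset V)ᶜ a c (M t - M r) d)
        (κ a b) (y a b) (Y a b))
    (hBu : ∀ a ∈ ({u, v} : Finset V)ᶜ, ∀ b ∈ ({u, v} : Finset V)ᶜ, a ≠ b → X a b ≠ 0 →
      BDe h u a b t ({u, v, a, b} : Finset V)ᶜ
        (fun d r => Pt H X M ({u, v} : Finset V)ᶜ u t d r)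
        (fun d r => Nt X ({u, v} : Finset V)ᶜ u (M t - M r) d)
        (fun c d r => Pt2 H X M ({u, v, a, b, c} : Finset V)ᶜ a c t d r)
        (fun c d r => Nt2 X ({u, v, a, b, c} : Finset V)ᶜ a c (M t - M r) d)
        (κ' a b) (y' a b) (Y' a b))
    {Tv Tu : V → V → ℝ → ℝ}
    (hTv : ∀ s ∈ Icc 0 t, ∀ a ∈ ({u, v} : Finset V)ᶜ, ∀ b ∈ ({u, v} : Finset V)ᶜ, a ≠ b →
      X a b ≠ 0 → Real.exp (H u v s) * (h s a b *
        ex (lw h ∅ s) {u, v, a, b} (fun G => RCG.tgt h u t G s * bn h v a t (κ a b) (y a b) G s))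
      ≤ bb h {v} u t * bb h {u} v t * Tv a b s)
    (hTu : ∀ s ∈ Icc 0 t, ∀ a ∈ ({u, v} : Finset V)ᶜ, ∀ b ∈ ({u, v} : Finset V)ᶜ, a ≠ b →
      X a b ≠ 0 → Real.exp (H u v s) * (h s a b *
        ex (lw h ∅ s) {u, v, a, b} (fun G => RCG.tgt h v t G s * bn h u a t (κ' a b) (y' a b) G s))
      ≤ bb h {v} u t * bb h {u} v t * Tu a b s)
    (hT0 : ∀ s ∈ Icc 0 t, ∀ a b, 0 ≤ Tv a b s ∧ 0 ≤ Tu a b s)
    {Γ g : ℝ → ℝ} (hΓ : ∀ s ∈ Icc 0 t, HasDerivAt Γ (g s) s)
    (hg : ∀ s ∈ Icc 0 t, ∑ a ∈ ({u, v} : Finset V)ᶜ, ∑ b ∈ ({u, v} : Finset V)ᶜ,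
      (gP (Pt H X M ({u, v} : Finset V)ᶜ u t a s) (Pt H X M ({u, v} : Finset V)ᶜ u t b s)
          * Tv a b s
        + gP (Pt H X M ({u, v} : Finset V)ᶜ v t a s) (Pt H X M ({u, v} : Finset V)ᶜ v t b s)
          * Tu a b s) ≤ g s) :
    bb h {v} u t * bb h {u} v t * (1 - (Γ t - Γ 0)) ≤ Real.exp (H u v t) * pp h u v t := by
  have hh := hC.hh
  have ht : t ∈ Icc 0 t := ⟨hC.t0, le_rfl⟩
  have hab4 : ∀ a b : V, ({u, v, b, a} : Finset V) = {u, v, a, b} := fun a b => by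
    ext z; simp only [Finset.mem_insert, Finset.mem_singleton]; tauto
  refine gam2_assemble hh huv hC.ht
    (hC.inf ht (w := u) (H0 := ({u, v} : Finset V)ᶜ) (by simp) subset_rfl le_rfl)
    (hC.inf ht (w := v) (H0 := ({u, v} : Finset V)ᶜ) (by simp) subset_rfl le_rfl)
    (Xu := fun s a b G => if X a b = 0 then 0 else
      bn h u a t (κ' a b) (y' a b) G s + bn h u b t (κ' b a) (y' b a) G s)
    (Xv := fun s a b G => if X a b = 0 then 0 else
      bn h v a t (κ a b) (y a b) G s + bn h v b t (κ b a) (y b a) G s)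
    (Cv := fun a b s => Tv a b s + Tv b a s) (Cu := fun a b s => Tu a b s + Tu b a s)
    ?_ ?_ ?_ ?_ ?_ ?_ ?_ hΓ ?_
  · intro s hs a ha b hb hab G hG
    split_ifs with h0
    · exact le_rfl
    · refine add_nonneg ((hBu a ha b hb hab h0).base.nonneg hh hC.ht hG hs)
        ((hBu b hb a ha hab.symm (by rwa [hC.hX.symm])).base.nonneg hh hC.ht ?_ hs)
      rwa [hab4]
  · intro s hs a ha b hb hab G hG
    split_ifs with h0
    · exact le_rfl
    · refine add_nonneg ((hBv a ha b hb hab h0).base.nonneg hh hC.ht hG hs)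
        ((hBv b hb a ha hab.symm (by rwa [hC.hX.symm])).base.nonneg hh hC.ht ?_ hs)
      rwa [hab4]
  · intro s hs a ha b hb hab hne G hG
    have h0 : X a b ≠ 0 := fun e => hne (hC.hz0 e hs)
    rw [if_neg h0]
    have hb2 := hBu b hb a ha hab.symm (by rwa [hC.hX.symm])
    rw [hab4 a b] at hb2
    have e5 : ∀ c : V, ({u, v, b, a, c} : Finset V) = {u, v, a, b, c} := fun c => by
      ext z; simp only [Finset.mem_insert, Finset.mem_singleton]; tauto
    simp only [e5] at hb2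
    exact xneg3_le hh hab hC.ht (hBu a ha b hb hab h0) hb2 G hG s hs
  · intro s hs a ha b hb hab hne G hG
    have h0 : X a b ≠ 0 := fun e => hne (hC.hz0 e hs)
    rw [if_neg h0]
    have hb2 := hBv b hb a ha hab.symm (by rwa [hC.hX.symm])
    rw [hab4 a b] at hb2
    have e5 : ∀ c : V, ({u, v, b, a, c} : Finset V) = {u, v, a, b, c} := fun c => by
      ext z; simp only [Finset.mem_insert, Finset.mem_singleton]; tauto
    simp only [e5] at hb2
    exact xneg3_le hh hab hC.ht (hBv a ha b hb hab h0) hb2 G hG s hs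
  · intro s hs a ha b hb hab
    have hbb : 0 ≤ bb h {v} u t * bb h {u} v t :=
      mul_nonneg (bb_nonneg hh _ _ hC.ht) (bb_nonneg hh _ _ hC.ht)
    by_cases h0 : X a b = 0
    · rw [hC.hz0 h0 hs, zero_mul, mul_zero]
      exact mul_nonneg hbb (add_nonneg (hT0 s hs a b).1 (hT0 s hs b a).1)
    · have h1 := hTv s hs a ha b hb hab h0
      have h2 := hTv s hs b hb a ha hab.symm (by rwa [hC.hX.symm])
      rw [hab4 a b, hh.symm s b a] at h2
      simp only [if_neg h0, mul_add]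
      have e1 : ex (lw h ∅ s) {u, v, a, b} (fun G => RCG.tgt h u t G s *
            bn h v a t (κ a b) (y a b) G s + RCG.tgt h u t G s * bn h v b t (κ b a) (y b a) G s)
          = ex (lw h ∅ s) {u, v, a, b} (fun G => RCG.tgt h u t G s *
            bn h v a t (κ a b) (y a b) G s)
          + ex (lw h ∅ s) {u, v, a, b} (fun G => RCG.tgt h u t G s *
            bn h v b t (κ b a) (y b a) G s) := ex_add _ _ _ _
      rw [e1, mul_add, mul_add]
      exact add_le_add h1 h2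
  · intro s hs a ha b hb hab
    have hbb : 0 ≤ bb h {v} u t * bb h {u} v t :=
      mul_nonneg (bb_nonneg hh _ _ hC.ht) (bb_nonneg hh _ _ hC.ht)
    by_cases h0 : X a b = 0
    · rw [hC.hz0 h0 hs, zero_mul, mul_zero]
      exact mul_nonneg hbb (add_nonneg (hT0 s hs a b).2 (hT0 s hs b a).2)
    · have h1 := hTu s hs a ha b hb hab h0
      have h2 := hTu s hs b hb a ha hab.symm (by rwa [hC.hX.symm])
      rw [hab4 a b, hh.symm s b a] at h2
      simp only [if_neg h0, mul_add]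
      have e1 : ex (lw h ∅ s) {u, v, a, b} (fun G => RCG.tgt h v t G s *
            bn h u a t (κ' a b) (y' a b) G s + RCG.tgt h v t G s * bn h u b t (κ' b a) (y' b a) G s)
          = ex (lw h ∅ s) {u, v, a, b} (fun G => RCG.tgt h v t G s *
            bn h u a t (κ' a b) (y' a b) G s)
          + ex (lw h ∅ s) {u, v, a, b} (fun G => RCG.tgt h v t G s *
            bn h u b t (κ' b a) (y' b a) G s) := ex_add _ _ _ _
      rw [e1, mul_add, mul_add]
      exact add_le_add h1 h2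
  · intro s hs a
    have := hT0 s hs a a
    exact ⟨add_nonneg this.1 this.1, add_nonneg this.2 this.2⟩
  · intro s hs
    refine le_trans (le_of_eq ?_) (hg s hs)
    have gs : ∀ p q : ℝ, gP p q = gP q p := fun p q => by unfold gP; rw [mul_comm (1 + p)]
    set PU := fun a => Pt H X M ({u, v} : Finset V)ᶜ u t a s with hPU
    set PV := fun a => Pt H X M ({u, v} : Finset V)ᶜ v t a s with hPV
    have key : ∀ S : Finset V, ∀ G T : V → V → ℝ, (∀ a b, G a b = G b a) →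
        ∑ a ∈ S, ∑ b ∈ S, G a b * (T a b + T b a) = 2 * ∑ a ∈ S, ∑ b ∈ S, G a b * T a b := by
      intro S G T hG
      have h1 : ∑ a ∈ S, ∑ b ∈ S, G a b * T b a = ∑ a ∈ S, ∑ b ∈ S, G a b * T a b := by
        rw [Finset.sum_comm]
        exact Finset.sum_congr rfl fun a _ => Finset.sum_congr rfl fun b _ => by rw [hG]
      have h2 : ∑ a ∈ S, ∑ b ∈ S, G a b * (T a b + T b a)
          = ∑ a ∈ S, ∑ b ∈ S, G a b * T a b + ∑ a ∈ S, ∑ b ∈ S, G a b * T b a := by
        rw [← Finset.sum_add_distrib]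
        refine Finset.sum_congr rfl fun a _ => ?_
        rw [← Finset.sum_add_distrib]
        exact Finset.sum_congr rfl fun b _ => by ring
      rw [h2, h1]; ring
    have k1 := key ({u, v} : Finset V)ᶜ (fun a b => gP (PU a) (PU b)) (fun a b => Tv a b s)
      (fun a b => gs _ _)
    have k2 := key ({u, v} : Finset V)ᶜ (fun a b => gP (PV a) (PV b)) (fun a b => Tu a b s)
      (fun a b => gs _ _)
    have e3 : ∀ F G : V → V → ℝ, ∑ a ∈ ({u, v} : Finset V)ᶜ, ∑ b ∈ ({u, v} : Finset V)ᶜ,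
        (F a b + G a b) = ∑ a ∈ ({u, v} : Finset V)ᶜ, ∑ b ∈ ({u, v} : Finset V)ᶜ, F a b
        + ∑ a ∈ ({u, v} : Finset V)ᶜ, ∑ b ∈ ({u, v} : Finset V)ᶜ, G a b := by
      intro F G
      rw [← Finset.sum_add_distrib]
      exact Finset.sum_congr rfl fun a _ => Finset.sum_add_distrib
    rw [e3, e3]
    simp only [hPU, hPV] at k1 k2
    rw [k1, k2]
    ring

end Pool.Agent.RCG
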