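import Pool.Agent.RCG.CmpB
import Pool.Agent.RCG.GamN

/-! Expectations for the family form of the covariance part (MP_73ccd0_lc, general graphs). -/

namespace Pool.Agent.RCG

open Set Finset Matrix Pool.Agent.RCRSHalf

set_option linter.unusedSectionVars false

variable {V : Type*} [Fintype V] [DecidableEq V]
variable {h : ℝ → V → V → ℝ} {H : V → V → ℝ → ℝ} {X : V → V → ℝ} {M μ : ℝ → ℝ} {t : ℝ}

theorem hasDerivAt_ex {y : Finset V → ℝ} {W : Finset V} {f : Finset V → ℝ → ℝ}
    {f' : Finset V → ℝ} {q : ℝ} (hf : ∀ F, HasDerivAt (f F) (f' F) q) :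
    HasDerivAt (fun q => ex y W (fun F => f F q)) (ex y W f') q := by
  unfold ex
  refine HasDerivAt.fun_sum fun F _ => HasDerivAt.const_mul _ ?_
  by_cases hWF : W ⊆ F
  · simp only [if_pos hWF]
    exact hf (F \ W)
  · simp only [if_neg hWF]
    exact hasDerivAt_const _ _

/-- comparison for expectations with an additional vertex -/
theorem ex_le_ext (hh : Haz h H) {D W H0 : Finset V} {b : V} (hWD : Disjoint D W)
    (hsub : (D ∪ W)ᶜ ⊆ insert b H0) {s : ℝ} (hs : s ∈ Icc (0 : ℝ) 1)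
    {R : V → Finset V → ℝ → ℝ} {P N : V → V → ℝ → ℝ} {ψ : Finset V → ℝ}
    (hR : ∀ w ∈ W, IsEv h (fun r a => h r w a) (fun _ => 0) (fun _ => 0) s (R w))
    (hI : ∀ w ∈ W, Inf H0 s (R w) (P w) (N w))
    (hψ0 : ∀ F, 0 ≤ ψ F) (hψ : ∀ F ⊆ insert b H0, ψ F ≤ ∏ w ∈ W, R w (F.erase b) s)
    {κ κ' : ℝ → ℝ} (hκd : ∀ r ∈ Icc 0 s, HasDerivAt κ (κ' r) r) (hκs : 0 ≤ κ s)
    (hκ : ∀ r ∈ Icc 0 s, kupR (h r) H0 W (fun i a => P i a r) (fun i a => N i a r)
      + exB (h r) H0 b W (fun i a => P i a r) ≤ -κ' r) :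
    ex (lw h D s) W ψ ≤ Real.exp (-HW H W s + κ 0) * ∏ w ∈ W, R w ((D ∪ W)ᶜ.erase b) 0 := by
  obtain ⟨S, hS, hSψ⟩ := hh.exists_ev W hs ψ hψ0
  have hsubW : W ⊆ Dᶜ := by
    intro a ha
    rw [Finset.mem_compl]
    exact fun hD => (Finset.disjoint_left.1 hWD) hD ha
  have e1 := duality2 hh (hh.lw D) hsubW hs hS
  have e2 : ex (lw h D s) W ψ = ex (lw h D s) W (fun F => S F s) := by
    congr 1; funext F; exact (hSψ F).symm
  rw [e2, e1, compl_sdiff_union, Real.exp_add, mul_assoc]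
  refine mul_le_mul_of_nonneg_left ?_ (Real.exp_pos _).le
  refine cmpU_ext (ι := V) (k := fun w r a => h r w a) hh.symm hh.diag hh.nonneg
    (fun w _ t a => hh.nonneg t w a) hR hS hI hκd (fun G hG => ?_) hκ _ hsub 0
    ⟨le_rfl, hs.1⟩
  rw [hSψ]
  have hP0 : 0 ≤ ∏ w ∈ W, R w (G.erase b) s :=
    Finset.prod_nonneg fun w hw => (hR w hw).nonneg _ s ⟨hs.1, le_rfl⟩
  have := Real.one_le_exp hκs
  calc ψ G ≤ ∏ w ∈ W, R w (G.erase b) s := hψ G hG
    _ = 1 * ∏ w ∈ W, R w (G.erase b) s := (one_mul _).symm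
    _ ≤ _ := mul_le_mul_of_nonneg_right this hP0

/-- three-target rate with an additional vertex `b` -/
noncomputable def cru3e (h : ℝ → V → V → ℝ) (H : V → V → ℝ → ℝ) (X : V → V → ℝ) (M : ℝ → ℝ)
    (H0 : Finset V) (b : V) (p : V) (T : ℝ) (q : V) (T' : ℝ) (w : V) (T'' : ℝ) (r : ℝ) : ℝ :=
  cru3 h H X M H0 p T q T' w T'' r + ∑ d ∈ H0, h r b d *
    ((1 + Pt H X M H0 p T d r) * (1 + Pt H X M H0 q T' d r) * (1 + Pt H X M H0 w T'' d r) - 1)

/-- three targets in the restarted world with an additional vertex -/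
theorem Cx.tripleF (hC : Cx h H X M μ t) {H0 G : Finset V} {v a b c : V} (hva : v ≠ a)
    (hvb : v ≠ b) (hvc : v ≠ c) (hab : a ≠ b) (hac : a ≠ c) (hbc : b ≠ c) (hv0 : v ∉ H0)
    (ha0 : a ∉ H0) (hb0 : b ∉ H0) (hc0 : c ∉ H0) (hG : G.erase c ⊆ H0) (hcG : c ∈ G) {T q r s : ℝ}
    (hT : T ∈ Icc 0 t) (hq : q ∈ Icc 0 t) (hr : r ∈ Icc 0 T) (hrq : r ≤ q)
    (hs : s ∈ Icc 0 r) {B : ℝ}
    (hB : Exi (cru3e h H X M H0 b v T a r c q) s r B) :
    ex (lw (sh h s) (insert v (insert a (insert b G)))ᶜ (r - s)) {v, a, c}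
        (fun K => RCG.tgt h v T (K.erase b) r * RCG.tgt h c q (K.erase b) r)
      ≤ Real.exp (-((H v a r + H v c r + H a c r) - (H v a s + H v c s + H a c s)) + B) *
        (RCG.tgt h v T (G.erase c) s * RCG.tgt h a r (G.erase c) s
          * RCG.tgt h c q (G.erase c) s) := by
  have hrt : r ∈ Icc 0 t := ⟨hr.1, hr.2.trans hT.2⟩
  have hst : s ∈ Icc 0 t := ⟨hs.1, hs.2.trans hrt.2⟩
  have hsT : s ∈ Icc 0 T := ⟨hs.1, hs.2.trans hr.2⟩
  have hsq : s ∈ Icc 0 q := ⟨hs.1, hs.2.trans hrq⟩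
  have hC' := hC.shift hst
  have hT' : T - s ∈ Icc 0 (t - s) := ⟨by linarith [hsT.2], by linarith [hT.2]⟩
  have hq' : q - s ∈ Icc 0 (t - s) := ⟨by linarith [hsq.2], by linarith [hq.2]⟩
  have hr' : r - s ∈ Icc 0 (t - s) := ⟨by linarith [hs.2], by linarith [hrt.2]⟩
  have hrT' : r - s ∈ Icc 0 (T - s) := ⟨hr'.1, by linarith [hr.2]⟩
  have hrq' : r - s ∈ Icc 0 (q - s) := ⟨hr'.1, by linarith⟩
  have hvG : v ∉ G := fun hh => hv0 (hG (Finset.mem_erase.2 ⟨hvc, hh⟩))
  have haG : a ∉ G := fun hh => ha0 (hG (Finset.mem_erase.2 ⟨hac, hh⟩))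
  have hbG : b ∉ G := fun hh => hb0 (hG (Finset.mem_erase.2 ⟨hbc, hh⟩))
  obtain ⟨κ, κ', h1, h2, h3, h4⟩ := hB.shift
  set D : Finset V := (insert v (insert a (insert b G)))ᶜ with hD
  have hdis : Disjoint D {v, a, c} := by
    rw [Finset.disjoint_left]
    intro z hz
    simp only [hD, Finset.mem_compl, Finset.mem_insert, not_or] at hz
    simp only [Finset.mem_insert, Finset.mem_singleton, not_or]
    exact ⟨hz.1, hz.2.1, fun e => hz.2.2.2 (e ▸ hcG)⟩
  have hDW : (D ∪ {v, a, c})ᶜ = insert b (G.erase c) := by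
    ext z
    simp only [hD, Finset.mem_compl, Finset.mem_union, Finset.mem_insert, Finset.mem_singleton,
      Finset.mem_erase, not_or, not_not, not_and]
    constructor
    · rintro ⟨h1, h2⟩
      by_cases hzb : z = b
      · exact Or.inl hzb
      · exact Or.inr ⟨h2.2.2, h1 h2.1 h2.2.1 hzb⟩
    · rintro (h5 | h5)
      · subst h5
        exact ⟨fun _ _ h6 => absurd rfl h6, hvb.symm, hab.symm, hbc⟩
      · refine ⟨fun _ _ _ => h5.2, ?_, ?_, h5.1⟩
        · rintro rfl; exact hvG h5.2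
        · rintro rfl; exact haG h5.2
  have hpr : v ∉ ({a, c} : Finset V) := by simp [hva, hvc]
  have tsh : ∀ (w : V) (T' : ℝ), T' ∈ Icc 0 t → s ∈ Icc 0 T' → ∀ (F : Finset V) (x : ℝ),
      x ∈ Icc 0 (T' - s) → RCG.tgt (sh h s) w (T' - s) F x = RCG.tgt h w T' F (s + x) :=
    fun w T' hT' hsT' F x hx => tgt_shift hC.hh w (hC.mem hT') hsT' F hx
  have key := ex_le_ext hC'.hh (D := D) (W := {v, a, c}) (H0 := H0) (b := b) (s := r - s) hdis
    (by rw [hDW]; exact Finset.insert_subset_insert _ hG) (hC'.mem hr')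
    (R := fun z => if z = v then RCG.tgt (sh h s) v (T - s) else
      if z = a then RCG.tgt (sh h s) a (r - s) else RCG.tgt (sh h s) c (q - s))
    (P := fun z => if z = v then Pt (sH H s) X (fun r => M (s + r) - M s) H0 v (T - s) else
      if z = a then Pt (sH H s) X (fun r => M (s + r) - M s) H0 a (r - s) else
      Pt (sH H s) X (fun r => M (s + r) - M s) H0 c (q - s))
    (N := fun z => if z = v then (fun d x => Nt X H0 v ((fun r => M (s + r) - M s) (T - s)
        - (fun r => M (s + r) - M s) x) d) else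
      if z = a then (fun d x => Nt X H0 a ((fun r => M (s + r) - M s) (r - s)
        - (fun r => M (s + r) - M s) x) d) else
      (fun d x => Nt X H0 c ((fun r => M (s + r) - M s) (q - s)
        - (fun r => M (s + r) - M s) x) d))
    (ψ := fun K => RCG.tgt h v T (K.erase b) r * RCG.tgt h c q (K.erase b) r)
    (fun z hz => by
      simp only [Finset.mem_insert, Finset.mem_singleton] at hz
      rcases hz with rfl | rfl | rfl
      · simp only [if_true]; exact (hC'.hh.tgt z (hC'.mem hT')).ev.mono hrT'.2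
      · simp only [if_neg hva.symm, if_true]; exact (hC'.hh.tgt z (hC'.mem hr')).ev
      · simp only [if_neg hvc.symm, if_neg hac.symm]
        exact (hC'.hh.tgt z (hC'.mem hq')).ev.mono hrq'.2)
    (fun z hz => by
      simp only [Finset.mem_insert, Finset.mem_singleton] at hz
      rcases hz with rfl | rfl | rfl
      · simp only [if_true]; exact hC'.inf hT' hv0 subset_rfl hrT'.2
      · simp only [if_neg hva.symm, if_true]; exact hC'.inf hr' ha0 subset_rfl le_rfl
      · simp only [if_neg hvc.symm, if_neg hac.symm]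
        exact hC'.inf hq' hc0 subset_rfl hrq'.2)
    (fun K => mul_nonneg ((hC.hh.tgt v (hC.mem hT)).ev.nonneg _ r hr)
      ((hC.hh.tgt c (hC.mem hq)).ev.nonneg _ r ⟨hr.1, hrq⟩))
    (fun K _ => by
      rw [Finset.prod_insert hpr, Finset.prod_pair hac]
      simp only [if_true, if_neg hva.symm, if_neg hvc.symm, if_neg hac.symm]
      rw [tsh v T hT hsT _ _ hrT', tsh c q hq hsq _ _ hrq', add_sub_cancel,
        (hC'.hh.tgt a (hC'.mem hr')).end_, one_mul])
    h1 h2
    (fun x hx => by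
      refine le_trans ?_ (h4 x hx)
      have e1 : M (s + (T - s)) - M s - (M (s + x) - M s) = M T - M (s + x) := by
        rw [add_sub_cancel]; ring
      have e2 : M (s + (r - s)) - M s - (M (s + x) - M s) = M r - M (s + x) := by
        rw [add_sub_cancel]; ring
      have e3 : M (s + (q - s)) - M s - (M (s + x) - M s) = M q - M (s + x) := by
        rw [add_sub_cancel]; ring
      unfold cru3e
      refine add_le_add (le_of_eq ?_) (le_of_eq ?_)
      · unfold kupR cru3 ru3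
        congr 1
        refine Finset.sum_congr rfl fun z _ => Finset.sum_congr rfl fun z' _ => ?_
        rw [GUp_three hva hvc hac]
        simp only [if_true, if_neg hva.symm, if_neg hvc.symm, if_neg hac.symm, Pt_shift, e1, e2,
          e3]
        rfl
      · unfold exB
        refine Finset.sum_congr rfl fun z _ => ?_
        rw [Finset.prod_insert hpr, Finset.prod_pair hac]
        simp only [if_true, if_neg hva.symm, if_neg hvc.symm, if_neg hac.symm, Pt_shift]
        unfold sh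
        ring)
  refine key.trans ?_
  rw [hDW, Finset.erase_insert (fun hh : b ∈ G.erase c => hbG (Finset.mem_of_mem_erase hh)),
    Finset.prod_insert hpr, Finset.prod_pair hac, HW_three hC'.hh hva hvc hac]
  simp only [if_true, if_neg hva.symm, if_neg hvc.symm, if_neg hac.symm]
  rw [tsh v T hT hsT _ _ ⟨le_rfl, hT'.1⟩, tsh c q hq hsq _ _ ⟨le_rfl, hq'.1⟩,
    tsh a r hrt hs _ _ ⟨le_rfl, hr'.1⟩, add_zero]
  have n1 := (hC.hh.tgt v (hC.mem hT)).ev.nonneg (G.erase c) s hsT
  have n2 := (hC.hh.tgt a (hC.mem hrt)).ev.nonneg (G.erase c) s hs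
  have n3 := (hC.hh.tgt c (hC.mem hq)).ev.nonneg (G.erase c) s hsq
  rw [mul_assoc (RCG.tgt h v T (G.erase c) s)]
  refine mul_le_mul_of_nonneg_right (Real.exp_le_exp.2 ?_) (by positivity)
  have e5 : ∀ p z : V, sH H s p z (r - s) = H p z r - H p z s := fun p z => by
    unfold sH; rw [add_sub_cancel]
  rw [e5, e5, e5]
  linarith

/-! ### Five targets -/

/-- excess for five factors -/
def gu5 (p1 p2 p3 p4 p5 n1 n2 n3 n4 n5 : ℝ) : ℝ :=
  ((1 + p1) * (1 + p2) * (1 + p3) * (1 + p4) * (1 + p5) - 1 - p1 - p2 - p3 - p4 - p5)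
    + (n1 * n2 + n1 * n3 + n1 * n4 + n1 * n5 + n2 * n3 + n2 * n4 + n2 * n5 + n3 * n4 + n3 * n5
      + n4 * n5)

theorem GUp_five {ι : Type*} [DecidableEq ι] {a b c d e : ι} (hab : a ≠ b) (hac : a ≠ c)
    (had : a ≠ d) (hae : a ≠ e) (hbc : b ≠ c) (hbd : b ≠ d) (hbe : b ≠ e) (hcd : c ≠ d)
    (hce : c ≠ e) (hde : d ≠ e) (p n : ι → ℝ) : GUp {a, b, c, d, e} p n
      = gu5 (p a) (p b) (p c) (p d) (p e) (n a) (n b) (n c) (n d) (n e) := by
  rw [GUp_insert _ (by simp [hab, hac, had, hae]), GUp_four hbc hbd hbe hcd hce hde,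
    Finset.prod_insert (by simp [hbc, hbd, hbe]), Finset.prod_insert (by simp [hcd, hce]),
    Finset.prod_pair hde, Finset.sum_insert (by simp [hbc, hbd, hbe]),
    Finset.sum_insert (by simp [hcd, hce]), Finset.sum_pair hde]
  unfold gu5
  ring

/-- five-target rate -/
noncomputable def ru5 (h : V → V → ℝ) (H0 : Finset V)
    (P1 N1 P2 N2 P3 N3 P4 N4 P5 N5 : V → ℝ) : ℝ :=
  (1 / 2) * ∑ a ∈ H0, ∑ b ∈ H0, h a b *
        gu5 ((1 + P1 a) * (1 + P1 b) - 1) ((1 + P2 a) * (1 + P2 b) - 1)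
          ((1 + P3 a) * (1 + P3 b) - 1) ((1 + P4 a) * (1 + P4 b) - 1)
          ((1 + P5 a) * (1 + P5 b) - 1)
          (N1 a + N1 b) (N2 a + N2 b) (N3 a + N3 b) (N4 a + N4 b) (N5 a + N5 b)

/-- the five-target rate of `(u : t)` (with `c` present), `(v : t)`, `(b : s)`, `(a : r)`,
`(c : q)` -/
noncomputable def cru5f (h : ℝ → V → V → ℝ) (H : V → V → ℝ → ℝ) (X : V → V → ℝ) (M : ℝ → ℝ)
    (u v b a c : V) (t s r q : ℝ) (x : ℝ) : ℝ :=
  ru5 (h x) ({u, v, b, a, c} : Finset V)ᶜ
    (fun d => Pt H X M ({u, v, b, a} : Finset V)ᶜ u t d x)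
    (fun d => Nt X ({u, v, b, a} : Finset V)ᶜ u (M t - M x) d)
    (fun d => Pt H X M ({u, v, b, a, c} : Finset V)ᶜ v t d x)
    (fun d => Nt X ({u, v, b, a, c} : Finset V)ᶜ v (M t - M x) d)
    (fun d => Pt H X M ({u, v, b, a, c} : Finset V)ᶜ b s d x)
    (fun d => Nt X ({u, v, b, a, c} : Finset V)ᶜ b (M s - M x) d)
    (fun d => Pt H X M ({u, v, b, a, c} : Finset V)ᶜ a r d x)
    (fun d => Nt X ({u, v, b, a, c} : Finset V)ᶜ a (M r - M x) d)
    (fun d => Pt H X M ({u, v, b, a, c} : Finset V)ᶜ c q d x)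
    (fun d => Nt X ({u, v, b, a, c} : Finset V)ᶜ c (M q - M x) d)

/-- five targets with different horizons -/
theorem Cx.ex5f_up (hC : Cx h H X M μ t) {u v b a c : V} (huv : u ≠ v) (hub : u ≠ b)
    (hua : u ≠ a) (huc : u ≠ c) (hvb : v ≠ b) (hva : v ≠ a) (hvc : v ≠ c) (hba : b ≠ a)
    (hbc : b ≠ c) (hac : a ≠ c) {s r q : ℝ} (hs : s ∈ Icc 0 t) (hr : r ∈ Icc s t)
    (hq : q ∈ Icc s t) {B : ℝ} (hB : Exq (cru5f h H X M u v b a c t s r q) s B) :
    ex (lw h ∅ s) {u, v, b, a, c} (fun F => RCG.tgt h u t (insert c F) s *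
        (RCG.tgt h v t F s * RCG.tgt h a r F s * RCG.tgt h c q F s))
      ≤ Real.exp (-(H u v s + H u b s + H u a s + H u c s + H v b s + H v a s + H v c s
          + H b a s + H b c s + H a c s) + B) *
        (px h {v, b, a, c} u c t s * bb h {u, b, a, c} v t * bb h {u, v, a, c} b s *
          bb h {u, v, b, c} a r * bb h {u, v, b, a} c q) := by
  obtain ⟨κ, κ', k1, k2, k3, k4⟩ := hB
  have hh := hC.hh
  have ht : t ∈ Icc 0 t := ⟨hC.t0, le_rfl⟩
  have hr0 : r ∈ Icc 0 t := ⟨hs.1.trans hr.1, hr.2⟩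
  have hq0 : q ∈ Icc 0 t := ⟨hs.1.trans hq.1, hq.2⟩
  have hs1 := hC.mem hs
  have hTu := hh.tgt u hC.ht
  have hTv := hh.tgt v hC.ht
  have hTb := hh.tgt b hs1
  have hTa := hh.tgt a (hC.mem hr0)
  have hTc := hh.tgt c (hC.mem hq0)
  have h1 : u ∉ ({v, b, a, c} : Finset V) := by simp [huv, hub, hua, huc]
  have h2 : v ∉ ({b, a, c} : Finset V) := by simp [hvb, hva, hvc]
  have h3 : b ∉ ({a, c} : Finset V) := by simp [hba, hbc]
  have eD : (∅ : Finset V) ∪ {u, v, b, a, c} = {u, v, b, a, c} := Finset.empty_union _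
  have e10 : ({u, v, b, a, c} : Finset V)ᶜ = (insert u {v, b, a, c})ᶜ := rfl
  have hsubU : insert c ({u, v, b, a, c} : Finset V)ᶜ ⊆ ({u, v, b, a} : Finset V)ᶜ := by
    intro z hz
    simp only [Finset.mem_insert, Finset.mem_compl, Finset.mem_singleton, not_or] at hz ⊢
    rcases hz with rfl | hz
    · exact ⟨huc.symm, hvc.symm, hbc.symm, hac.symm⟩
    · exact ⟨hz.1, hz.2.1, hz.2.2.1, hz.2.2.2.1⟩
  obtain ⟨U, hU, hUs, hU0, hUI⟩ := px_rst hh (u := u) (c := c) hC.ht hs (D := {v, b, a, c}) h1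
    hsubU (by simp) (hC.clo ht (w := u) (H0 := ({u, v, b, a} : Finset V)ᶜ) (by simp))
  set H5 : Finset V := ({u, v, b, a, c} : Finset V)ᶜ with hH5
  have key := ex_le hh (D := ∅) (W := {u, v, b, a, c}) (s := s)
    (R := fun z => if z = u then U else if z = v then RCG.tgt h v t else
      if z = b then RCG.tgt h b s else if z = a then RCG.tgt h a r else RCG.tgt h c q)
    (P := fun z => if z = u then Pt H X M ({u, v, b, a} : Finset V)ᶜ u t else
      if z = v then Pt H X M H5 v t else if z = b then Pt H X M H5 b s else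
      if z = a then Pt H X M H5 a r else Pt H X M H5 c q)
    (N := fun z => if z = u then (fun d x => Nt X ({u, v, b, a} : Finset V)ᶜ u (M t - M x) d) else
      if z = v then (fun d x => Nt X H5 v (M t - M x) d) else
      if z = b then (fun d x => Nt X H5 b (M s - M x) d) else
      if z = a then (fun d x => Nt X H5 a (M r - M x) d) else
      (fun d x => Nt X H5 c (M q - M x) d))
    (ψ := fun F => RCG.tgt h u t (insert c F) s *
        (RCG.tgt h v t F s * RCG.tgt h a r F s * RCG.tgt h c q F s))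
    (Finset.disjoint_empty_left _) hs1
    (fun z hz => by
      simp only [Finset.mem_insert, Finset.mem_singleton] at hz
      rcases hz with rfl | rfl | rfl | rfl | rfl
      · simp only [if_true]; exact hU
      · simp only [if_neg huv.symm, if_true]; exact hTv.ev.mono hs.2
      · simp only [if_neg hub.symm, if_neg hvb.symm, if_true]; exact hTb.ev
      · simp only [if_neg hua.symm, if_neg hva.symm, if_neg hba.symm, if_true]
        exact hTa.ev.mono hr.1
      · simp only [if_neg huc.symm, if_neg hvc.symm, if_neg hbc.symm, if_neg hac.symm]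
        exact hTc.ev.mono hq.1)
    (fun z hz => by
      rw [eD]
      simp only [Finset.mem_insert, Finset.mem_singleton] at hz
      rcases hz with rfl | rfl | rfl | rfl | rfl
      · simp only [if_true]; exact hUI
      · simp only [if_neg huv.symm, if_true]
        exact hC.inf ht (w := z) (H0 := H5) (by simp [hH5]) subset_rfl hs.2
      · simp only [if_neg hub.symm, if_neg hvb.symm, if_true]
        exact hC.inf hs (w := z) (H0 := H5) (by simp [hH5]) subset_rfl le_rfl
      · simp only [if_neg hua.symm, if_neg hva.symm, if_neg hba.symm, if_true]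
        exact hC.inf hr0 (w := z) (H0 := H5) (by simp [hH5]) subset_rfl hr.1
      · simp only [if_neg huc.symm, if_neg hvc.symm, if_neg hbc.symm, if_neg hac.symm]
        exact hC.inf hq0 (w := z) (H0 := H5) (by simp [hH5]) subset_rfl hq.1)
    (fun F => mul_nonneg (hTu.ev.nonneg _ s hs) (mul_nonneg (mul_nonneg (hTv.ev.nonneg F s hs)
      (hTa.ev.nonneg F s ⟨hs.1, hr.1⟩)) (hTc.ev.nonneg F s ⟨hs.1, hq.1⟩)))
    (fun F _ => by
      rw [Finset.prod_insert h1, Finset.prod_insert h2, Finset.prod_insert h3,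
        Finset.prod_pair hac]
      simp only [if_true, if_neg huv.symm, if_neg hub.symm, if_neg hvb.symm, if_neg hua.symm,
        if_neg hva.symm, if_neg hba.symm, if_neg huc.symm, if_neg hvc.symm, if_neg hbc.symm,
        if_neg hac.symm, hTb.end_, one_mul, hUs]
      exact le_of_eq (by ring))
    k1 k2 (fun x hx => by
      refine le_trans (le_of_eq ?_) (k4 x hx)
      rw [eD]
      unfold kupR cru5f ru5
      rw [← hH5]
      congr 1
      refine Finset.sum_congr rfl fun d _ => Finset.sum_congr rfl fun e _ => ?_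
      rw [GUp_five huv hub hua huc hvb hva hvc hba hbc hac]
      simp only [if_true, if_neg huv.symm, if_neg hub.symm, if_neg hvb.symm, if_neg hua.symm,
        if_neg hva.symm, if_neg hba.symm, if_neg huc.symm, if_neg hvc.symm, if_neg hbc.symm,
        if_neg hac.symm])
  refine key.trans ?_
  rw [eD, HW_five hh huv hub hua huc hvb hva hvc hba hbc hac, Finset.prod_insert h1,
    Finset.prod_insert h2, Finset.prod_insert h3, Finset.prod_pair hac]
  simp only [if_true, if_neg huv.symm, if_neg hub.symm, if_neg hvb.symm, if_neg hua.symm,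
        if_neg hva.symm, if_neg hba.symm, if_neg huc.symm, if_neg hvc.symm, if_neg hbc.symm,
        if_neg hac.symm]
  have f1 : U ({u, v, b, a, c} : Finset V)ᶜ 0 = px h {v, b, a, c} u c t s := hU0
  have f2 : bb h {u, b, a, c} v t = RCG.tgt h v t ({u, v, b, a, c} : Finset V)ᶜ 0 := by
    rw [bb_eq hh (D := {u, b, a, c}) (u := v) (by simp [huv.symm, hvb, hva, hvc]) hC.ht]
    congr 2
    exact Finset.insert_comm v u {b, a, c}
  have f3 : bb h {u, v, a, c} b s = RCG.tgt h b s ({u, v, b, a, c} : Finset V)ᶜ 0 := by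
    rw [bb_eq hh (D := {u, v, a, c}) (u := b) (by simp [hub.symm, hvb.symm, hba, hbc]) hs1]
    congr 2
    ext z
    simp only [Finset.mem_insert, Finset.mem_singleton]
    tauto
  have f4 : bb h {u, v, b, c} a r = RCG.tgt h a r ({u, v, b, a, c} : Finset V)ᶜ 0 := by
    rw [bb_eq hh (D := {u, v, b, c}) (u := a) (by simp [hua.symm, hva.symm, hba.symm, hac])
      (hC.mem hr0)]
    congr 2
    ext z
    simp only [Finset.mem_insert, Finset.mem_singleton]
    tauto
  have f5 : bb h {u, v, b, a} c q = RCG.tgt h c q ({u, v, b, a, c} : Finset V)ᶜ 0 := by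
    rw [bb_eq hh (D := {u, v, b, a}) (u := c)
      (by simp [huc.symm, hvc.symm, hbc.symm, hac.symm]) (hC.mem hq0)]
    congr 2
    ext z
    simp only [Finset.mem_insert, Finset.mem_singleton]
    tauto
  rw [← f1, f2, f3, f4, f5]
  have n1 := px_nonneg hh {v, b, a, c} u c hC.ht hs
  rw [← f1] at n1
  have n2 := bb_nonneg hh {u, b, a, c} v hC.ht
  have n3 := bb_nonneg hh {u, v, a, c} b hs1
  have n4 := bb_nonneg hh {u, v, b, c} a (hC.mem hr0)
  have n5 := bb_nonneg hh {u, v, b, a} c (hC.mem hq0)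
  rw [f2] at n2
  rw [f3] at n3
  rw [f4] at n4
  rw [f5] at n5
  calc _ ≤ Real.exp (-(H u v s + H u b s + H u a s + H u c s + H v b s + H v a s + H v c s
          + H b a s + H b c s + H a c s) + B) * (U ({u, v, b, a, c} : Finset V)ᶜ 0 *
          (RCG.tgt h v t ({u, v, b, a, c} : Finset V)ᶜ 0 *
          (RCG.tgt h b s ({u, v, b, a, c} : Finset V)ᶜ 0 *
          (RCG.tgt h a r ({u, v, b, a, c} : Finset V)ᶜ 0 *
          RCG.tgt h c q ({u, v, b, a, c} : Finset V)ᶜ 0)))) := by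
        refine mul_le_mul_of_nonneg_right (Real.exp_le_exp.2 (by linarith)) ?_
        exact mul_nonneg n1 (mul_nonneg n2 (mul_nonneg n3 (mul_nonneg n4 n5)))
    _ = _ := by ring

end Pool.Agent.RCG
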