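import Pool.Agent.RCG.FamG

/-! The family form of the covariance part: integrals (MP_73ccd0_lc, general graphs). -/

namespace Pool.Agent.RCG

open Set Finset Matrix Pool.Agent.RCRSHalf

set_option linter.unusedSectionVars false

variable {V : Type*} [Fintype V] [DecidableEq V]
variable {h : ℝ → V → V → ℝ} {H : V → V → ℝ → ℝ} {X : V → V → ℝ} {M μ : ℝ → ℝ} {t : ℝ}

theorem xd2_nonneg (hh : Haz h H) (D : Finset V) (v a b : V) (R : Finset V → ℝ → ℝ) {s : ℝ}
    (hs : s ∈ Icc (0 : ℝ) 1) : 0 ≤ xd2 h D v a b R s := by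
  unfold xd2
  exact Finset.sum_nonneg fun c _ => mul_nonneg (hh.nonneg _ _ _)
    (ex_nonneg (fun F => (hh.lw D).nonneg F s hs) fun F => le_max_left _ _)

theorem xd2_cont (hh : Haz h H) (D : Finset V) (v a b : V) {t : ℝ} (ht : t ∈ Icc (0 : ℝ) 1) :
    ContinuousOn (xd2 h D v a b (RCG.tgt h v t)) (Icc 0 t) := by
  unfold xd2 ex
  have hR := hh.tgt v ht
  have hRc : ∀ F, ContinuousOn (RCG.tgt h v t F) (Icc 0 t) := fun F r hr =>
    (hR.ev.deriv F r hr).continuousAt.continuousWithinAt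
  refine continuousOn_finsetSum _ fun c _ => (hh.cont a c).continuousOn.mul ?_
  refine continuousOn_finsetSum _ fun F _ => ContinuousOn.mul ?_ ?_
  · intro r hr
    exact ((hh.lw D).deriv F r ⟨hr.1, hr.2.trans ht.2⟩).continuousAt.continuousWithinAt
  · by_cases hF : ({v, a, c} : Finset V) ⊆ F
    · simp only [if_pos hF]
      exact (continuous_const.max continuous_id).comp_continuousOn ((hRc _).sub (hRc _))
    · simp only [if_neg hF]
      exact continuousOn_const

/-- the integrand in the restarted world -/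
noncomputable def xgi (h : ℝ → V → V → ℝ) (v a b : V) (t s : ℝ) (G : Finset V) (r : ℝ) : ℝ :=
  xd2 (sh h s) (insert v (insert a (insert b G)))ᶜ v a b (RCG.tgt (sh h s) v (t - s)) (r - s)

/-- the integral of the influence of `a` (with `b` deleted) -/
noncomputable def xg (h : ℝ → V → V → ℝ) (v a b : V) (t s : ℝ) (G : Finset V) : ℝ :=
  ∫ r in s..t, xgi h v a b t s G (max s (min t r))

theorem xgi_cont (hh : Haz h H) (v a b : V) {t s : ℝ} (ht : t ∈ Icc (0 : ℝ) 1)
    (hs : s ∈ Icc 0 t) (G : Finset V) : ContinuousOn (xgi h v a b t s G) (Icc s t) := by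
  have h1 := xd2_cont (hh.shift s) (insert v (insert a (insert b G)))ᶜ v a b (t := t - s)
    ⟨by linarith [hs.2], by linarith [hs.1, ht.2]⟩
  unfold xgi
  refine h1.comp (by fun_prop) fun r hr => ⟨by linarith [hr.1], by linarith [hr.2]⟩

theorem xgi_nonneg (hh : Haz h H) (v a b : V) {t s : ℝ} (ht : t ∈ Icc (0 : ℝ) 1)
    (hs : s ∈ Icc 0 t) (G : Finset V) {r : ℝ} (hr : r ∈ Icc s t) : 0 ≤ xgi h v a b t s G r :=
  xd2_nonneg (hh.shift s) _ _ _ _ _ ⟨by linarith [hr.1], by linarith [hr.2, hs.1, ht.2]⟩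

theorem xg_prim (hh : Haz h H) (v a b : V) {t s : ℝ} (ht : t ∈ Icc (0 : ℝ) 1)
    (hs : s ∈ Icc 0 t) (G : Finset V) : ∃ Γ : ℝ → ℝ, Γ s = 0 ∧
      (∀ r ∈ Icc s t, HasDerivAt Γ (xgi h v a b t s G r) r) ∧ Γ t = xg h v a b t s G := by
  have hcl : Continuous fun x : ℝ => max s (min t x) := by fun_prop
  have hg' : Continuous fun x => xgi h v a b t s G (max s (min t x)) :=
    (xgi_cont hh v a b ht hs G).comp_continuous hcl fun x =>
      ⟨le_max_left _ _, max_le hs.2 (min_le_left _ _)⟩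
  refine ⟨fun x => ∫ r in s..x, xgi h v a b t s G (max s (min t r)), by simp, fun x hx => ?_, rfl⟩
  have := hg'.integral_hasStrictDerivAt s x
  have e : max s (min t x) = x := by rw [min_eq_right hx.2, max_eq_right hx.1]
  have h2 := this.hasDerivAt
  simp only [e] at h2
  exact h2

theorem xg_nonneg (hh : Haz h H) (v a b : V) {t s : ℝ} (ht : t ∈ Icc (0 : ℝ) 1)
    (hs : s ∈ Icc 0 t) (G : Finset V) : 0 ≤ xg h v a b t s G := by
  obtain ⟨Γ, h1, h2, h3⟩ := xg_prim hh v a b ht hs G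
  rw [← h3]
  exact nonneg_of_forward (U' := xgi h v a b t s G) (a := s) (s := t) h2 h1.ge
    (fun r hr _ => xgi_nonneg hh v a b ht hs G hr) t ⟨hs.2, le_rfl⟩

/-- the bound of the increase by the two vertices -/
theorem xg_le (hh : Haz h H) {v a b : V} (hva : v ≠ a) (hvb : v ≠ b) (hab : a ≠ b) {t s : ℝ}
    (ht : t ∈ Icc (0 : ℝ) 1) (hs : s ∈ Icc 0 t) {G : Finset V} (hv : v ∉ G) (ha : a ∉ G)
    (hb : b ∉ G) :
    RCG.tgt h v t (insert a (insert b G)) s - RCG.tgt h v t G s
      ≤ xg h v a b t s G + xg h v b a t s G := by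
  obtain ⟨Γ, h1, h2, h3⟩ := xg_prim hh v a b ht hs G
  obtain ⟨Γ', h1', h2', h3'⟩ := xg_prim hh v b a ht hs G
  set D : Finset V := (insert v (insert a (insert b G)))ᶜ with hD
  have hD' : (insert v (insert b (insert a G)))ᶜ = D := by
    rw [hD, Finset.insert_comm b a G]
  have key := del2_le (hh.shift s) (D := D) (v := v) (a := a) (b := b) (by simp [hD]) hva hvb hab
    (t := t - s) ⟨by linarith [hs.2], by linarith [hs.1, ht.2]⟩
    (Γ := fun x => Γ (s + x) + Γ' (s + x))
    (g := fun x => xgi h v a b t s G (s + x) + xgi h v b a t s G (s + x))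
    (fun x hx => by
      have hx1 : s + x ∈ Icc s t := ⟨by linarith [hx.1], by linarith [hx.2]⟩
      exact (hasDerivAt_shift (h2 _ hx1)).add (hasDerivAt_shift (h2' _ hx1)))
    (fun x hx => by
      unfold xgi
      rw [hD', add_sub_cancel_left])
  have e4 : bb (sh h s) D v (t - s) = RCG.tgt h v t (insert a (insert b G)) s := by
    rw [hD]
    exact bb_shift hh ht hs (by simp [hva, hvb, hv])
  have e5 : bb (sh h s) (insert a (insert b D)) v (t - s) = RCG.tgt h v t G s := by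
    have : insert a (insert b D) = (insert v G)ᶜ := by
      rw [hD]
      ext z
      simp only [Finset.mem_compl, Finset.mem_insert]
      constructor
      · rintro (h1 | h1 | h1)
        · subst h1; rintro (h2 | h2)
          · exact hva h2.symm
          · exact ha h2
        · subst h1; rintro (h2 | h2)
          · exact hvb h2.symm
          · exact hb h2
        · tauto
      · intro h1
        tauto
    rw [this]
    exact bb_shift hh ht hs hv
  simp only [add_sub_cancel, add_zero, h1, h1', h3, h3'] at key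
  rw [e4, e5] at key
  linarith

theorem ex_sum {ι : Type*} (S : Finset ι) (y : Finset V → ℝ) (W : Finset V)
    (f : ι → Finset V → ℝ) :
    ex y W (fun F => ∑ c ∈ S, f c F) = ∑ c ∈ S, ex y W (f c) := by
  unfold ex
  rw [Finset.sum_comm]
  refine Finset.sum_congr rfl fun F _ => ?_
  split_ifs
  · rw [Finset.mul_sum]
  · simp

/-- the expectation of the influence of `c` in the restarted world -/
noncomputable def xl (h : ℝ → V → V → ℝ) (v a b c : V) (t s r : ℝ) (G : Finset V) : ℝ :=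
  ex (lw (sh h s) (insert v (insert a (insert b G)))ᶜ (r - s)) {v, a, c}
    (fun K => max 0 (RCG.tgt h v t (K.erase b) r - RCG.tgt h v t (insert c (K.erase b)) r))

theorem xgi_eq (hh : Haz h H) (v a b : V) {t s : ℝ} (ht : t ∈ Icc (0 : ℝ) 1)
    (hs : s ∈ Icc 0 t) (G : Finset V) {r : ℝ} (hr : r ∈ Icc s t) :
    xgi h v a b t s G r = ∑ c ∈ ({v, a, b} : Finset V)ᶜ, h r a c * xl h v a b c t s r G := by
  unfold xgi xd2 xl
  have e0 : sh h s (r - s) = h r := by unfold sh; rw [add_sub_cancel]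
  rw [e0]
  refine Finset.sum_congr rfl fun c _ => ?_
  congr 2
  funext K
  rw [tgt_shift hh v ht hs _ ⟨by linarith [hr.1], by linarith [hr.2]⟩,
    tgt_shift hh v ht hs _ ⟨by linarith [hr.1], by linarith [hr.2]⟩, add_sub_cancel]

/-- if the law does not charge sets containing `W` -/
theorem ex_zero (hh : Haz h H) {D W : Finset V} {s : ℝ} (hs : s ∈ Icc (0 : ℝ) 1)
    {ψ : Finset V → ℝ} {z : V} (hz : z ∈ W) (hzD : z ∈ D) : ex (lw h D s) W ψ = 0 := by
  unfold ex
  refine Finset.sum_eq_zero fun F _ => ?_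
  by_cases hF0 : lw h D s F = 0
  · rw [hF0, zero_mul]
  · have hFD := lw_support hh D hs hF0
    rw [if_neg, mul_zero]
    intro hsub
    have := hFD (hsub hz)
    rw [Finset.mem_compl] at this
    exact this hzD

theorem xl_zero (hh : Haz h H) {v a b c : V} {t s r : ℝ} {G : Finset V}
    (hr : r - s ∈ Icc (0 : ℝ) 1) (hc : c ∉ insert v (insert a (insert b G))) :
    xl h v a b c t s r G = 0 :=
  ex_zero (hh.shift s) hr (z := c) (by simp) (Finset.mem_compl.2 hc)

/-- Expectation of the integral, first level. -/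
theorem Cx.xgE (hC : Cx h H X M μ t) {u v a b : V} (huv : u ≠ v) (hua : u ≠ a)
    (hub : u ≠ b) {s : ℝ} (hs : s ∈ Icc 0 t)
    {Y : V → ℝ → ℝ}
    (hY : ∀ c ∈ ({u, v, a, b} : Finset V)ᶜ, ∀ r ∈ Icc s t,
      ex (lw h ∅ s) {u, v, a, b} (fun G => RCG.tgt h u t G s * xl h v a b c t s r G) ≤ Y c r)
    {Ψ ψ : ℝ → ℝ} (hΨ : ∀ r ∈ Icc s t, HasDerivAt Ψ (ψ r) r)
    (hψ : ∀ r ∈ Icc s t, ∑ c ∈ ({u, v, a, b} : Finset V)ᶜ, h r a c * Y c r ≤ ψ r) :
    ex (lw h ∅ s) {u, v, a, b} (fun G => RCG.tgt h u t G s * xg h v a b t s G) ≤ Ψ t - Ψ s := by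
  have hh := hC.hh
  have hμ0 := fun F => (hh.lw (∅ : Finset V)).nonneg F s (hC.mem hs)
  have hT := hh.tgt u hC.ht
  choose Γ h1 h2 h3 using fun G => xg_prim hh v a b hC.ht hs G
  have hd : ∀ r ∈ Icc s t, HasDerivAt
      (fun r => ex (lw h ∅ s) {u, v, a, b} (fun G => RCG.tgt h u t G s * Γ G r))
      (ex (lw h ∅ s) {u, v, a, b} (fun G => RCG.tgt h u t G s * xgi h v a b t s G r)) r :=
    fun r hr => hasDerivAt_ex (f := fun G r => RCG.tgt h u t G s * Γ G r)
      fun G => (h2 G r hr).const_mul _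
  have hle : ∀ r ∈ Icc s t,
      ex (lw h ∅ s) {u, v, a, b} (fun G => RCG.tgt h u t G s * xgi h v a b t s G r) ≤ ψ r := by
    intro r hr
    refine le_trans ?_ (hψ r hr)
    have hrs : r - s ∈ Icc (0 : ℝ) 1 := ⟨by linarith [hr.1], by linarith [hr.2, hs.1, hC.t1]⟩
    have e1 : (fun G => RCG.tgt h u t G s * xgi h v a b t s G r)
        = fun G => ∑ c ∈ ({v, a, b} : Finset V)ᶜ,
          h r a c * (RCG.tgt h u t G s * xl h v a b c t s r G) := by
      funext G
      rw [xgi_eq hh v a b hC.ht hs G hr, Finset.mul_sum]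
      exact Finset.sum_congr rfl fun c _ => by ring
    rw [e1, ex_sum]
    have hu : u ∈ ({v, a, b} : Finset V)ᶜ := by simp [huv, hua, hub]
    have hsplit : ({v, a, b} : Finset V)ᶜ = insert u ({u, v, a, b} : Finset V)ᶜ := by
      ext z
      simp only [Finset.mem_compl, Finset.mem_insert, Finset.mem_singleton]
      constructor
      · intro h1
        by_cases hz : z = u
        · exact Or.inl hz
        · right; tauto
      · rintro (h1 | h1)
        · subst h1; simp [huv, hua, hub]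
        · tauto
    rw [hsplit, Finset.sum_insert (by simp)]
    have hzero : ex (lw h ∅ s) {u, v, a, b}
        (fun G => h r a u * (RCG.tgt h u t G s * xl h v a b u t s r G)) = 0 := by
      unfold ex
      refine Finset.sum_eq_zero fun F _ => ?_
      split_ifs
      · have h0 : xl h v a b u t s r (F \ {u, v, a, b}) = 0 :=
          xl_zero hh hrs (by simp [huv, hua, hub])
        beta_reduce
        rw [h0, mul_zero, mul_zero, mul_zero]
      · rw [mul_zero]
    rw [hzero, zero_add]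
    refine Finset.sum_le_sum fun c hc => ?_
    rw [ex_smul]
    exact mul_le_mul_of_nonneg_left (hY c hc r hr) (hh.nonneg _ _ _)
  have key := nonneg_of_forward
    (U := fun r => (Ψ r - Ψ s)
      - ex (lw h ∅ s) {u, v, a, b} (fun G => RCG.tgt h u t G s * Γ G r))
    (U' := fun r => ψ r
      - ex (lw h ∅ s) {u, v, a, b} (fun G => RCG.tgt h u t G s * xgi h v a b t s G r))
    (a := s) (s := t) (fun r hr => ((hΨ r hr).sub_const _).sub (hd r hr))
    (by
      have : ex (lw h ∅ s) {u, v, a, b} (fun G => RCG.tgt h u t G s * Γ G s) = 0 := by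
        unfold ex
        refine Finset.sum_eq_zero fun F _ => ?_
        simp [h1]
      simp [this])
    (fun r hr _ => by have := hle r hr; linarith) t ⟨hs.2, le_rfl⟩
  have e2 : ex (lw h ∅ s) {u, v, a, b} (fun G => RCG.tgt h u t G s * Γ G t)
      = ex (lw h ∅ s) {u, v, a, b} (fun G => RCG.tgt h u t G s * xg h v a b t s G) := by
    congr 1; funext G; rw [h3]
  simp only [e2] at key
  linarith

/-- the double expectation -/
noncomputable def LL (h : ℝ → V → V → ℝ) (u v a b c : V) (t s r : ℝ) (f : Finset V → ℝ) : ℝ :=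
  ex (lw h ∅ s) {u, v, a, b} (fun G => RCG.tgt h u t G s *
    ex (lw (sh h s) (insert v (insert a (insert b G)))ᶜ (r - s)) {v, a, c}
      (fun K => f (K.erase b)))

theorem LL_smul (u v a b c : V) (t s r x : ℝ) (f : Finset V → ℝ) :
    LL h u v a b c t s r (fun K => x * f K) = x * LL h u v a b c t s r f := by
  unfold LL
  rw [← ex_smul]
  congr 1
  funext G
  rw [ex_smul]
  ring

theorem LL_zero (u v a b c : V) (t s r : ℝ) : LL h u v a b c t s r (fun _ => 0) = 0 := by
  have := LL_smul (h := h) u v a b c t s r 0 (fun _ => 0)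
  simpa using this

theorem LL_deriv (u v a b c : V) (t s r : ℝ) {f : Finset V → ℝ → ℝ} {f' : Finset V → ℝ} {q : ℝ}
    (hf : ∀ F, HasDerivAt (f F) (f' F) q) :
    HasDerivAt (fun q => LL h u v a b c t s r (fun K => f K q)) (LL h u v a b c t s r f') q := by
  unfold LL
  refine hasDerivAt_ex (f := fun G q => RCG.tgt h u t G s *
      ex (lw (sh h s) (insert v (insert a (insert b G)))ᶜ (r - s)) {v, a, c}
      (fun K => f (K.erase b) q)) fun G => HasDerivAt.const_mul _ ?_
  exact hasDerivAt_ex (f := fun K q => f (K.erase b) q) fun K => hf _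

theorem LL_mono (hh : Haz h H) {u v a b c : V} {t s r : ℝ} (ht : t ∈ Icc (0 : ℝ) 1)
    (hs : s ∈ Icc 0 t) (hr : r ∈ Icc s t) {f g : Finset V → ℝ}
    (hfg : ∀ K ⊆ ({u, v, b, a, c} : Finset V)ᶜ, f K ≤ g K) :
    LL h u v a b c t s r f ≤ LL h u v a b c t s r g := by
  have hs1 : s ∈ Icc (0 : ℝ) 1 := ⟨hs.1, hs.2.trans ht.2⟩
  have hrs : r - s ∈ Icc (0 : ℝ) 1 := ⟨by linarith [hr.1], by linarith [hr.2, hs.1, ht.2]⟩
  have hμ0 := fun F => (hh.lw (∅ : Finset V)).nonneg F s hs1
  unfold LL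
  refine ex_mono hμ0 fun F hF _ => mul_le_mul_of_nonneg_left ?_ ((hh.tgt u ht).ev.nonneg _ s hs)
  refine ex_mono (fun E => ((hh.shift s).lw _).nonneg E _ hrs) fun E _ hE0 => ?_
  have hED := lw_support (hh.shift s) _ hrs hE0
  rw [compl_compl] at hED
  refine hfg _ ?_
  intro z hz
  obtain ⟨hzb, hz2⟩ := Finset.mem_erase.1 hz
  obtain ⟨hzE, hz3⟩ := Finset.mem_sdiff.1 hz2
  have hz4 := hED hzE
  simp only [Finset.mem_insert, Finset.mem_sdiff, Finset.mem_singleton, not_or] at hz3 hz4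
  simp only [Finset.mem_compl, Finset.mem_insert, Finset.mem_singleton, not_or]
  refine ⟨?_, hz3.1, hzb, hz3.2.1, hz3.2.2⟩
  rcases hz4 with h1 | h1 | h1 | h1
  · exact absurd h1 hz3.1
  · exact absurd h1 hz3.2.1
  · exact absurd h1 hzb
  · exact h1.2.1

theorem ex_le_of {y : Finset V → ℝ} (hy : ∀ F, 0 ≤ y F) {W W' : Finset V}
    {ψ ψ' : Finset V → ℝ}
    (h : ∀ F, (if W ⊆ F then ψ (F \ W) else 0) ≤ (if W' ⊆ F then ψ' (F \ W') else 0)) :
    ex y W ψ ≤ ex y W' ψ' :=
  Finset.sum_le_sum fun F _ => mul_le_mul_of_nonneg_left (h F) (hy F)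

/-- the double expectation of the product of the two target functions -/
theorem Cx.LL_prod (hC : Cx h H X M μ t) {u v a b c : V} (huv : u ≠ v) (hua : u ≠ a)
    (hub : u ≠ b) (huc : u ≠ c) (hva : v ≠ a) (hvb : v ≠ b) (hvc : v ≠ c) (hab : a ≠ b)
    (hac : a ≠ c) (hbc : b ≠ c) {s r q : ℝ} (hs : s ∈ Icc 0 t) (hr : r ∈ Icc s t)
    (hq : q ∈ Icc r t) {B3 B5 : ℝ}
    (hB3 : Exi (cru3e h H X M ({u, v, b, a, c} : Finset V)ᶜ b v t a r c q) s r B3)
    (hB5 : Exq (cru5f h H X M u v b a c t s r q) s B5) :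
    LL h u v a b c t s r (fun K => RCG.tgt h v t K r * RCG.tgt h c q K r)
      ≤ Real.exp (-((H v a r + H v c r + H a c r) - (H v a s + H v c s + H a c s)) + B3) *
          (Real.exp (-(H u v s + H u b s + H u a s + H u c s + H v b s + H v a s + H v c s
            + H b a s + H b c s + H a c s) + B5) *
          (px h {v, b, a, c} u c t s * bb h {u, b, a, c} v t * bb h {u, v, a, c} b s *
            bb h {u, v, b, c} a r * bb h {u, v, b, a} c q)) := by
  have hh := hC.hh
  have ht : t ∈ Icc 0 t := ⟨hC.t0, le_rfl⟩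
  have hr0 : r ∈ Icc 0 t := ⟨hs.1.trans hr.1, hr.2⟩
  have hq0 : q ∈ Icc 0 t := ⟨hr0.1.trans hq.1, hq.2⟩
  have hrs : r - s ∈ Icc (0 : ℝ) 1 := ⟨by linarith [hr.1], by linarith [hr.2, hs.1, hC.t1]⟩
  have hμ0 := fun F => (hh.lw (∅ : Finset V)).nonneg F s (hC.mem hs)
  have hT := hh.tgt u hC.ht
  have h5 := hC.ex5f_up huv hub hua huc hvb hva hvc hab.symm hbc hac hs hr
      ⟨hr.1.trans hq.1, hq.2⟩ hB5
  refine le_trans ?_ (mul_le_mul_of_nonneg_left h5 (Real.exp_pos _).le)
  rw [← ex_smul]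
  unfold LL
  generalize hC3 : Real.exp (-((H v a r + H v c r + H a c r) - (H v a s + H v c s + H a c s))
      + B3) = C3
  have tri : ∀ G : Finset V, c ∈ G → G.erase c ⊆ ({u, v, b, a, c} : Finset V)ᶜ →
      ex (lw (sh h s) (insert v (insert a (insert b G)))ᶜ (r - s))
              {v, a, c} (fun K => RCG.tgt h v t (K.erase b) r * RCG.tgt h c q (K.erase b) r)
            ≤ C3 * (RCG.tgt h v t (G.erase c) s *
              RCG.tgt h a r (G.erase c) s * RCG.tgt h c q (G.erase c) s) := by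
    intro G hcG hGH
    rw [← hC3]
    exact hC.tripleF hva hvb hvc hab hac hbc (by simp) (by simp) (by simp) (by simp) hGH hcG
      ht hq0 hr0 hq.1 ⟨hs.1, hr.1⟩ hB3
  refine ex_le_of hμ0 fun F => ?_
  by_cases hF : ({u, v, a, b} : Finset V) ⊆ F
  · rw [if_pos hF]
    have hcase : c ∈ F ∨ c ∉ F := em _
    rcases hcase with hcF | hcF
    · have hcG : c ∈ F \ {u, v, a, b} := by
        simp only [Finset.mem_sdiff, Finset.mem_insert, Finset.mem_singleton, not_or]
        exact ⟨hcF, huc.symm, hvc.symm, hac.symm, hbc.symm⟩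
      have hF5 : ({u, v, b, a, c} : Finset V) ⊆ F := by
        intro z hz
        simp only [Finset.mem_insert, Finset.mem_singleton] at hz
        rcases hz with rfl | rfl | rfl | rfl | rfl
        · exact hF (by simp)
        · exact hF (by simp)
        · exact hF (by simp)
        · exact hF (by simp)
        · exact hcF
      have e1 : F \ {u, v, b, a, c} = (F \ {u, v, a, b}).erase c := by
        ext z
        simp only [Finset.mem_erase, Finset.mem_sdiff, Finset.mem_insert,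
          Finset.mem_singleton]
        tauto
      have hGH : (F \ {u, v, a, b}).erase c ⊆ ({u, v, b, a, c} : Finset V)ᶜ := by
        rw [← e1]
        intro z hz
        exact Finset.mem_compl.2 (Finset.mem_sdiff.1 hz).2
      have h3 := tri _ hcG hGH
      rw [if_pos hF5, e1]
      beta_reduce
      rw [Finset.insert_erase hcG]
      have h4 := mul_le_mul_of_nonneg_left h3 (hT.ev.nonneg (F \ {u, v, a, b}) s hs)
      refine h4.trans (le_of_eq ?_)
      ring
    · have hcG : c ∉ insert v (insert a (insert b (F \ {u, v, a, b}))) := by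
        simp only [Finset.mem_insert, not_or]
        refine ⟨hvc.symm, hac.symm, hbc.symm, fun hh' => hcF (Finset.mem_sdiff.1 hh').1⟩
      have e2 := ex_zero (hh.shift s) hrs
        (D := (insert v (insert a (insert b (F \ {u, v, a, b}))))ᶜ)
        (W := {v, a, c}) (z := c)
        (ψ := fun K => RCG.tgt h v t (K.erase b) r * RCG.tgt h c q (K.erase b) r) (by simp)
        (Finset.mem_compl.2 hcG)
      have hF5 : ¬ ({u, v, b, a, c} : Finset V) ⊆ F := fun hh' => hcF (hh' (by simp))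
      rw [if_neg hF5]
      beta_reduce
      rw [e2, mul_zero]
  · rw [if_neg hF]
    have hF5 : ¬ ({u, v, b, a, c} : Finset V) ⊆ F := fun hh' => hF (by
      intro z hz
      refine hh' ?_
      simp only [Finset.mem_insert, Finset.mem_singleton] at hz ⊢
      tauto)
    rw [if_neg hF5]

/-- Expectation of the influence of `c`, second level. -/
theorem Cx.xlE (hC : Cx h H X M μ t) {u v a b c : V} (huv : u ≠ v) (hua : u ≠ a)
    (hub : u ≠ b) (huc : u ≠ c) (hva : v ≠ a) (hvb : v ≠ b) (hvc : v ≠ c) (hab : a ≠ b)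
    (hac : a ≠ c) (hbc : b ≠ c) {s r : ℝ} (hs : s ∈ Icc 0 t) (hr : r ∈ Icc s t)
    {B2 B3 B5 : ℝ → ℝ}
    (hB2 : ∀ q ∈ Icc r t, Exi (cru2 h H X M ({u, v, b, a, c} : Finset V)ᶜ v t c q) r q (B2 q))
    (hB3 : ∀ q ∈ Icc r t,
      Exi (cru3e h H X M ({u, v, b, a, c} : Finset V)ᶜ b v t a r c q) s r (B3 q))
    (hB5 : ∀ q ∈ Icc r t, Exq (cru5f h H X M u v b a c t s r q) s (B5 q))
    {Ψ ψ : ℝ → ℝ} (hΨ : ∀ q ∈ Icc r t, HasDerivAt Ψ (ψ q) q)
    (hψ : ∀ q ∈ Icc r t, (h q v c
        + ∑ d ∈ ({u, v, b, a, c} : Finset V)ᶜ,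
          h q c d * Nt X ({u, v, b, a, c} : Finset V)ᶜ v (M t - M q) d) *
      Real.exp (-(H v c q - H v c r) + B2 q) *
        (Real.exp (-((H v a r + H v c r + H a c r) - (H v a s + H v c s + H a c s)) + B3 q) *
          (Real.exp (-(H u v s + H u b s + H u a s + H u c s + H v b s + H v a s + H v c s
            + H b a s + H b c s + H a c s) + B5 q) *
          (px h {v, b, a, c} u c t s * bb h {u, b, a, c} v t * bb h {u, v, a, c} b s *
            bb h {u, v, b, c} a r * bb h {u, v, b, a} c q))) ≤ ψ q) :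
    ex (lw h ∅ s) {u, v, a, b} (fun G => RCG.tgt h u t G s * xl h v a b c t s r G)
      ≤ Ψ t - Ψ r := by
  have hh := hC.hh
  have ht : t ∈ Icc 0 t := ⟨hC.t0, le_rfl⟩
  have hr0 : r ∈ Icc 0 t := ⟨hs.1.trans hr.1, hr.2⟩
  have hTv := hh.tgt v hC.ht
  generalize hH5 : ({u, v, b, a, c} : Finset V)ᶜ = H5 at hB2 hB3 hψ
  have hv5 : v ∉ H5 := by rw [← hH5]; simp
  have hc5 : c ∉ H5 := by rw [← hH5]; simp
  obtain ⟨y, hy⟩ : ∃ y : ℝ → ℝ, y = fun q => h q v c
      + ∑ d ∈ H5, h q c d * Nt X H5 v (M t - M q) d := ⟨_, rfl⟩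
  have hy' : ∀ q, h q v c + ∑ d ∈ H5, h q c d * Nt X H5 v (M t - M q) d = y q := fun q => by
    rw [hy]
  simp only [hy'] at hψ
  have hy0 : ∀ q ∈ Icc r t, 0 ≤ y q := by
    intro q hq
    rw [← hy']
    have i1 := hC.inf ht (w := v) (H0 := H5) hv5 (subset_rfl : H5 ⊆ H5) le_rfl
    exact add_nonneg (hh.nonneg _ _ _) (Finset.sum_nonneg fun d hd =>
      mul_nonneg (hh.nonneg _ _ _) (i1.N0 d hd q ⟨hr0.1.trans hq.1, hq.2⟩))
  have hyc : ContinuousOn y (Icc r t) := by
    rw [hy]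
    exact (hC.y_cont H5 v c ht).mono (Icc_subset_Icc hr0.1 le_rfl)
  -- the expectations in the world restarted at `r`
  obtain ⟨gg, hgg⟩ : ∃ gg : Finset V → ℝ → ℝ, gg = fun K q =>
    ex (lw (sh h r) (insert v (insert c K))ᶜ (q - r)) {v, c} (fun G => RCG.tgt h v t G q) :=
    ⟨_, rfl⟩
  have hgg0 : ∀ K, ∀ q ∈ Icc r t, 0 ≤ gg K q := by
    intro K q hq
    rw [hgg]
    refine ex_nonneg (fun F => ((hh.shift r).lw _).nonneg F _ ⟨by linarith [hq.1], by
      linarith [hq.2, hr0.1, hC.t1]⟩) fun F => hTv.ev.nonneg F q ⟨hr0.1.trans hq.1, hq.2⟩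
  have hggc : ∀ K, ContinuousOn (gg K) (Icc r t) := fun K => by
    rw [hgg]; exact hC.gg_cont _ v c ht hr0
  have hexΓ : ∀ K : Finset V, ∃ Γ : ℝ → ℝ, Γ r = 0 ∧ ∀ q ∈ Icc r t,
      HasDerivAt Γ (y q * gg K q) q := fun K =>
    exists_prim' hr.2 (hyc.mul (hggc K))
  choose Γ hΓ0 hΓ using hexΓ
  have hΓt : ∀ K, 0 ≤ Γ K t := fun K =>
    nonneg_of_forward (U' := fun q => y q * gg K q) (a := r) (s := t) (hΓ K) (hΓ0 K).ge
      (fun q hq _ => mul_nonneg (hy0 q hq) (hgg0 K q hq)) t ⟨hr.2, le_rfl⟩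
  have hxi : ∀ K ⊆ H5, max 0 (RCG.tgt h v t K r - RCG.tgt h v t (insert c K) r) ≤ Γ K t := by
    intro K hK
    refine max_le (hΓt K) ?_
    have := hC.xiF hK hv5 hc5 hvc ht hr0 (hΓ K) (fun q _ => by rw [hy', hgg])
    rwa [hΓ0, sub_zero] at this
  have hstep1 : ex (lw h ∅ s) {u, v, a, b} (fun G => RCG.tgt h u t G s * xl h v a b c t s r G)
      ≤ LL h u v a b c t s r (fun K => Γ K t) :=
    LL_mono hh hC.ht hs hr
      (f := fun K => max 0 (RCG.tgt h v t K r - RCG.tgt h v t (insert c K) r))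
      (g := fun K => Γ K t) (by rw [hH5]; exact hxi)
  have hLd : ∀ q ∈ Icc r t, HasDerivAt (fun q => LL h u v a b c t s r (fun K => Γ K q))
      (LL h u v a b c t s r (fun K => y q * gg K q)) q := fun q hq =>
    LL_deriv u v a b c t s r (f := Γ) (f' := fun K => y q * gg K q) fun K => hΓ K q hq
  have hLr : LL h u v a b c t s r (fun K => Γ K r) = 0 := by
    simp only [hΓ0]
    exact LL_zero u v a b c t s r
  have hle : ∀ q ∈ Icc r t, LL h u v a b c t s r (fun K => y q * gg K q) ≤ ψ q := by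
    intro q hq
    have hq0 : q ∈ Icc 0 t := ⟨hr0.1.trans hq.1, hq.2⟩
    refine le_trans ?_ (hψ q hq)
    have s1 : LL h u v a b c t s r (fun K => y q * gg K q)
        ≤ LL h u v a b c t s r (fun K => (y q *
        Real.exp (-(H v c q - H v c r) + B2 q)) * (RCG.tgt h v t K r * RCG.tgt h c q K r)) := by
      refine LL_mono hh hC.ht hs hr ?_
      rw [hH5]
      intro K hK
      rw [mul_assoc, hgg]
      exact mul_le_mul_of_nonneg_left (hC.pairF hK hv5 hc5 hvc ht hq0 ⟨hr0.1, hq.1⟩ (hB2 q hq))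
        (hy0 q hq)
    refine s1.trans ?_
    rw [LL_smul]
    refine mul_le_mul_of_nonneg_left ?_ (mul_nonneg (hy0 q hq) (Real.exp_pos _).le)
    refine hC.LL_prod huv hua hub huc hva hvb hvc hab hac hbc hs hr hq ?_ (hB5 q hq)
    rw [hH5]
    exact hB3 q hq
  have key := nonneg_of_forward
    (U := fun q => (Ψ q - Ψ r) - LL h u v a b c t s r (fun K => Γ K q))
    (U' := fun q => ψ q - LL h u v a b c t s r (fun K => y q * gg K q)) (a := r) (s := t)
    (fun q hq => ((hΨ q hq).sub_const _).sub (hLd q hq))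
    (by simp only [hLr]; simp)
    (fun q hq _ => by have := hle q hq; linarith) t ⟨hr.2, le_rfl⟩
  linarith

end Pool.Agent.RCG
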