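import Pool.Agent.RCG.Fam

/-! Family form of the terms of the N-part (MP_73ccd0_lc, general graphs). -/

namespace Pool.Agent.RCG

open Set Finset Matrix Pool.Agent.RCRSHalf

set_option linter.unusedSectionVars false

variable {V : Type*} [Fintype V] [DecidableEq V]
variable {h : ℝ → V → V → ℝ} {H : V → V → ℝ → ℝ} {X : V → V → ℝ} {M μ : ℝ → ℝ} {t : ℝ}

/-- three targets with three horizons -/
theorem Cx.ex3_up (hC : Cx h H X M μ t) {u v w : V} (huv : u ≠ v) (huw : u ≠ w) (hvw : v ≠ w)
    {T r s : ℝ} (hT : T ∈ Icc 0 t) (hr : r ∈ Icc 0 t) (hst : s ∈ Icc 0 t) (hsT : s ≤ T)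
    (hsr : s ≤ r) {K : ℝ}
    (hK : Exq (cru3 h H X M ({u, v, w} : Finset V)ᶜ u T v s w r) s K) :
    ex (lw h ∅ s) {u, v, w} (fun F => RCG.tgt h u T F s * RCG.tgt h w r F s)
      ≤ Real.exp (-(H u v s + H u w s + H v w s) + K) *
        (bb h {v, w} u T * bb h {u, w} v s * bb h {u, v} w r) := by
  obtain ⟨κ, κ', h1, h2, h3, h4⟩ := hK
  have hs1 := hC.mem hst
  have hTu := hC.hh.tgt u (hC.mem hT)
  have hTv := hC.hh.tgt v hs1
  have hTw := hC.hh.tgt w (hC.mem hr)
  have eD : (∅ : Finset V) ∪ {u, v, w} = {u, v, w} := Finset.empty_union _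
  have key := ex_le_grp3 hC.hh (D := ∅) (W := {u, v, w}) (Finset.disjoint_empty_left _) hs1
    (k0 := fun r z => h r u z) (k1 := fun r z => h r v z) (k2 := fun r z => h r w z)
    (fun r z => by
      rw [Finset.sum_insert (by simp [huv, huw]), Finset.sum_pair hvw]; ring)
    (fun r z => hC.hh.nonneg _ _ _) (fun r z => hC.hh.nonneg _ _ _)
    (fun r z => hC.hh.nonneg _ _ _)
    (hTu.ev.mono hsT) hTv.ev (hTw.ev.mono hsr)
    (by rw [eD]; exact hC.inf hT (w := u) (H0 := ({u, v, w} : Finset V)ᶜ) (by simp) subset_rfl hsT)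
    (by rw [eD]; exact hC.inf hst (w := v) (H0 := ({u, v, w} : Finset V)ᶜ) (by simp) subset_rfl le_rfl)
    (by rw [eD]; exact hC.inf hr (w := w) (H0 := ({u, v, w} : Finset V)ᶜ) (by simp) subset_rfl hsr)
    (ψ := fun F => RCG.tgt h u T F s * RCG.tgt h w r F s)
    (fun F => mul_nonneg (hTu.ev.nonneg F s ⟨hst.1, hsT⟩) (hTw.ev.nonneg F s ⟨hst.1, hsr⟩))
    (fun F _ => by rw [hTv.end_, mul_one])
    h1 h2 (fun x hx => by
      rw [eD]
      exact h4 x hx)
  rw [eD, HW_three hC.hh huv huw hvw] at key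
  have e5 : bb h {v, w} u T = RCG.tgt h u T ({u, v, w} : Finset V)ᶜ 0 :=
    bb_eq hC.hh (D := {v, w}) (by simp [huv, huw]) (hC.mem hT)
  have e6 : bb h {u, w} v s = RCG.tgt h v s ({u, v, w} : Finset V)ᶜ 0 := by
    rw [bb_eq hC.hh (D := {u, w}) (u := v) (by simp [huv.symm, hvw]) hs1]
    congr 1
    congr 1
    exact Finset.insert_comm v u {w}
  have e7 : bb h {u, v} w r = RCG.tgt h w r ({u, v, w} : Finset V)ᶜ 0 := by
    rw [bb_eq hC.hh (D := {u, v}) (u := w) (by simp [huw.symm, hvw.symm]) (hC.mem hr)]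
    congr 1
    congr 1
    ext z
    simp only [Finset.mem_insert, Finset.mem_singleton]
    tauto
  rw [← e5, ← e6, ← e7] at key
  refine key.trans (mul_le_mul_of_nonneg_right (Real.exp_le_exp.2 (by linarith)) ?_)
  exact mul_nonneg (mul_nonneg (bb_nonneg hC.hh _ _ (hC.mem hT)) (bb_nonneg hC.hh _ _ hs1))
    (bb_nonneg hC.hh _ _ (hC.mem hr))

/-- A term of the N-part of the edge `(u, v)`, family form. -/
theorem Cx.N_fam (hC : Cx h H X M μ t) {u v w : V} (huv : u ≠ v) (huw : u ≠ w) (hvw : v ≠ w)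
    {s : ℝ} (hs : s ∈ Icc 0 t) {B K Qr Ar : ℝ → ℝ} {Q At : ℝ}
    (hB : ∀ r ∈ Icc s t, Exi (cru2 h H X M ({u, v, w} : Finset V)ᶜ u t w r) s r (B r))
    (hK : ∀ r ∈ Icc s t, Exq (cru3 h H X M ({u, v, w} : Finset V)ᶜ u t v s w r) s (K r))
    (hQ : Exq (crl2 h H X M ({v, w} : Finset V)ᶜ v s w s) s Q)
    (hQr : ∀ r ∈ Icc s t, Exq (crl2 h H X M ({u, w} : Finset V)ᶜ u r w r) r (Qr r))
    (hAt : bb h {v, w} u t ≤ At * bb h {v} u t)
    (hAr : ∀ r ∈ Icc s t, bb h {u, v} w r ≤ Ar r * bb h {u} w r)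
    (hAr0 : ∀ r ∈ Icc s t, 0 ≤ Ar r)
    {Ψ ψ : ℝ → ℝ} (hΨ : ∀ r ∈ Icc s t, HasDerivAt Ψ (ψ r) r)
    (hψ : ∀ r ∈ Icc s t, (dE h u w r * Wr h u w r * Real.exp (Qr r)
      + (∑ c ∈ ({u, v, w} : Finset V)ᶜ, h r w c * Nt X ({u, v, w} : Finset V)ᶜ u (M t - M r) c)
        * (Real.exp (-H u w r) * bb h {u} w r)) * (Ar r * Real.exp (B r + K r)) ≤ ψ r) :
    h s v w * ex (lw h ∅ s) {u, v, w}
        (fun F => RCG.tgt h u t F s - RCG.tgt h u t (insert w F) s)
      ≤ bb h {v} u t * (At * (dE h w v s * Wr h w v s *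
        Real.exp (Q + Yt X ({v, w} : Finset V)ᶜ v (M s) u)) * (Ψ t - Ψ s)) := by
  have ht : t ∈ Icc 0 t := ⟨hC.t0, le_rfl⟩
  have hs1 := hC.mem hs
  set H0 : Finset V := ({u, v, w} : Finset V)ᶜ with hH0
  have hu0 : u ∉ H0 := by simp [hH0]
  have hw0 : w ∉ H0 := by simp [hH0]
  -- constants
  set bu := bb h {v, w} u t with hbu
  set bv := bb h {u, w} v s with hbv
  have hbu0 : 0 ≤ bu := bb_nonneg hC.hh _ _ (hC.mem ht)
  have hbv0 : 0 ≤ bv := bb_nonneg hC.hh _ _ hs1
  set C0 : ℝ := Real.exp (-(H u v s + H v w s)) * (bu * bv) with hC0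
  have hC00 : 0 ≤ C0 := by positivity
  have hxi := hC.xiE (D := ∅) (W := {u, v, w}) (H0 := H0) (fun F _ _ => by
      intro z hz
      rw [hH0, Finset.mem_compl]
      exact (Finset.mem_sdiff.1 hz).2) hu0 hw0 huw ht hs hB
    (Ψ := fun r => C0 * Ψ r) (ψ := fun r => C0 * ψ r) (fun r hr => (hΨ r hr).const_mul C0)
    (fun r hr => by
      have hr0 : r ∈ Icc 0 t := ⟨hs.1.trans hr.1, hr.2⟩
      have hr1 := hC.mem hr0
      have e3 := hC.ex3_up huv huw hvw ht hr0 hs hs.2 hr.1 (hK r hr)
      have i1 := hC.inf ht (w := u) (H0 := H0) hu0 (subset_rfl : H0 ⊆ H0) le_rfl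
      set y := ∑ c ∈ H0, h r w c * Nt X H0 u (M t - M r) c with hy
      have hy0 : 0 ≤ y := Finset.sum_nonneg fun c hc =>
        mul_nonneg (hC.hh.nonneg _ _ _) (i1.N0 c hc r hr0)
      have hh0 := hC.hh.nonneg r u w
      have hbw := hAr r hr
      have hbw0 := bb_nonneg hC.hh {u} w hr1
      have hQ' := hC.pp_lo huw hr0 (hQr r hr)
      have hz := hz_up hC.hh huw hr1 hQ'
      have hbup := bb_pos hC.hh (show u ∉ ({w} : Finset V) by simpa using huw) hr1
      -- the direct part
      have d1 : h r u w * (Real.exp (-H u w r) * bb h {u} w r)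
          ≤ dE h u w r * Wr h u w r * Real.exp (Qr r) := by
        have e0 : dE h u w r * Wr h u w r = h r u w * pp h u w r * (bb h {w} u r)⁻¹ := by
          rw [inv_bb hC.hh huw hr1]; unfold dE; ring
        rw [e0]
        have : h r u w * (Real.exp (-H u w r) * bb h {u} w r)
            = (h r u w * Real.exp (-H u w r) * (bb h {w} u r * bb h {u} w r))
              * (bb h {w} u r)⁻¹ := by
          field_simp
        rw [this]
        calc _ ≤ (h r u w * pp h u w r * Real.exp (Qr r)) * (bb h {w} u r)⁻¹ :=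
              mul_le_mul_of_nonneg_right hz (inv_nonneg.2 hbup.le)
          _ = _ := by ring
      have d2 : (h r u w + y) * (Real.exp (-H u w r) * bb h {u, v} w r)
          ≤ (dE h u w r * Wr h u w r * Real.exp (Qr r)
            + y * (Real.exp (-H u w r) * bb h {u} w r)) * Ar r := by
        calc (h r u w + y) * (Real.exp (-H u w r) * bb h {u, v} w r)
            ≤ (h r u w + y) * (Real.exp (-H u w r) * (Ar r * bb h {u} w r)) := by
              refine mul_le_mul_of_nonneg_left (mul_le_mul_of_nonneg_left hbw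
                (Real.exp_pos _).le) (by positivity)
          _ = (h r u w * (Real.exp (-H u w r) * bb h {u} w r)
              + y * (Real.exp (-H u w r) * bb h {u} w r)) * Ar r := by ring
          _ ≤ _ := by
              refine mul_le_mul_of_nonneg_right (add_le_add d1 le_rfl) (hAr0 r hr)
      calc (h r u w + y) * (Real.exp (-(H u w r - H u w s) + B r) *
            ex (lw h ∅ s) {u, v, w} (fun F => RCG.tgt h u t F s * RCG.tgt h w r F s))
          ≤ (h r u w + y) * (Real.exp (-(H u w r - H u w s) + B r) *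
            (Real.exp (-(H u v s + H u w s + H v w s) + K r) * (bu * bv * bb h {u, v} w r))) := by
            refine mul_le_mul_of_nonneg_left (mul_le_mul_of_nonneg_left e3
              (Real.exp_pos _).le) (by positivity)
        _ = C0 * (((h r u w + y) * (Real.exp (-H u w r) * bb h {u, v} w r))
            * Real.exp (B r + K r)) := by
            rw [hC0, show -(H u w r - H u w s) + B r = -H u w r + (H u w s + B r) by ring,
              show -(H u v s + H u w s + H v w s) + K r
                = -(H u v s + H v w s) + (-H u w s + K r) by ring,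
              Real.exp_add (-H u w r), Real.exp_add (-(H u v s + H v w s)),
              Real.exp_add (H u w s), Real.exp_add (-H u w s), Real.exp_add (B r)]
            have e1 : Real.exp (H u w s) * Real.exp (-H u w s) = 1 := by
              rw [← Real.exp_add, add_neg_cancel, Real.exp_zero]
            linear_combination ((h r u w + y) * Real.exp (-H u w r) * Real.exp (B r) *
              Real.exp (-(H u v s + H v w s)) * Real.exp (K r) *
              (bu * bv * bb h {u, v} w r)) * e1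
        _ ≤ C0 * (((dE h u w r * Wr h u w r * Real.exp (Qr r)
            + y * (Real.exp (-H u w r) * bb h {u} w r)) * Ar r) * Real.exp (B r + K r)) := by
            refine mul_le_mul_of_nonneg_left (mul_le_mul_of_nonneg_right d2
              (Real.exp_pos _).le) hC00
        _ ≤ C0 * ψ r := by
            refine mul_le_mul_of_nonneg_left ?_ hC00
            refine le_trans (le_of_eq ?_) (hψ r hr)
            ring)
  have hΨ0 : 0 ≤ Ψ t - Ψ s := by
    have := nonneg_of_forward (U := fun r => Ψ r - Ψ s) (U' := ψ) (a := s) (s := t)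
      (fun r hr => (hΨ r hr).sub_const _) (by simp) (fun r hr _ => by
        refine le_trans ?_ (hψ r hr)
        have hr0 : r ∈ Icc 0 t := ⟨hs.1.trans hr.1, hr.2⟩
        have hr1 := hC.mem hr0
        have i1 := hC.inf ht (w := u) (H0 := H0) hu0 (subset_rfl : H0 ⊆ H0) le_rfl
        have hy0 : 0 ≤ ∑ c ∈ H0, h r w c * Nt X H0 u (M t - M r) c :=
          Finset.sum_nonneg fun c hc => mul_nonneg (hC.hh.nonneg _ _ _) (i1.N0 c hc r hr0)
        have h1 := dE_nonneg hC.hh u w hr1
        have h2 := (Wr_pos hC.hh huw hr1).le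
        have h3 := bb_nonneg hC.hh {u} w hr1
        have h4 := hAr0 r hr
        positivity) t ⟨hs.2, le_rfl⟩
    exact this
  have h0 := hC.hh.nonneg s v w
  have hQ' := hC.pp_lo hvw hs hQ
  have hz := hz_up hC.hh hvw hs1 hQ'
  have hdv : bv ≤ Real.exp (H u v s + Yt X ({v, w} : Finset V)ᶜ v (M s) u) * bb h {w} v s := by
    have h1 := hC.del_up (D := {w}) (u := v) (q := u) (by simpa using hvw) (by simpa using huw)
      huv.symm hs
    rw [hC.hh.Hsymm v u] at h1
    exact h1
  have hbw := bb_pos hC.hh (show w ∉ ({v} : Finset V) by simpa using hvw.symm) hs1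
  have e0 : dE h w v s * Wr h w v s = h s v w * pp h v w s * (bb h {v} w s)⁻¹ := by
    rw [inv_bb hC.hh hvw.symm hs1]
    unfold dE
    rw [hC.hh.symm s w v]
    have : pp h w v s = pp h v w s := by unfold pp; rw [Finset.pair_comm]
    rw [this]; ring
  set Yv := Yt X ({v, w} : Finset V)ᶜ v (M s) u with hYv
  have hbv' := bb_nonneg hC.hh {w} v hs1
  have m1 : h s v w * C0 ≤ bu * ((dE h w v s * Wr h w v s) * Real.exp (Q + Yv)) := by
    calc h s v w * C0 = h s v w * (Real.exp (-(H u v s + H v w s)) * (bu * bv)) := by rw [hC0]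
      _ ≤ h s v w * (Real.exp (-(H u v s + H v w s)) *
          (bu * (Real.exp (H u v s + Yv) * bb h {w} v s))) := by gcongr
      _ = bu * ((h s v w * Real.exp (-H v w s) * (bb h {w} v s * bb h {v} w s))
          * (bb h {v} w s)⁻¹ * Real.exp Yv) := by
          rw [show -(H u v s + H v w s) = -H u v s + -H v w s by ring, Real.exp_add (-H u v s),
            Real.exp_add (H u v s)]
          have e1 : Real.exp (-H u v s) * Real.exp (H u v s) = 1 := by
            rw [← Real.exp_add, neg_add_cancel, Real.exp_zero]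
          have e2 : bb h {v} w s * (bb h {v} w s)⁻¹ = 1 := mul_inv_cancel₀ hbw.ne'
          linear_combination (h s v w * Real.exp (-H v w s) * bu * Real.exp Yv *
            bb h {w} v s) * e1
            - (bu * h s v w * Real.exp (-H v w s) * bb h {w} v s * Real.exp Yv) * e2
      _ ≤ bu * ((h s v w * pp h v w s * Real.exp Q) * (bb h {v} w s)⁻¹ * Real.exp Yv) := by
          gcongr
      _ = _ := by rw [e0, Real.exp_add]; ring
  have hd0 : 0 ≤ dE h w v s * Wr h w v s * Real.exp (Q + Yv) := by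
    have h1 := dE_nonneg hC.hh w v hs1
    have h2 := (Wr_pos hC.hh hvw.symm hs1).le
    positivity
  calc h s v w * ex (lw h ∅ s) {u, v, w}
        (fun F => RCG.tgt h u t F s - RCG.tgt h u t (insert w F) s)
      ≤ h s v w * (C0 * Ψ t - C0 * Ψ s) := mul_le_mul_of_nonneg_left hxi h0
    _ = (h s v w * C0) * (Ψ t - Ψ s) := by ring
    _ ≤ (bu * ((dE h w v s * Wr h w v s) * Real.exp (Q + Yv))) * (Ψ t - Ψ s) :=
        mul_le_mul_of_nonneg_right m1 hΨ0
    _ ≤ ((At * bb h {v} u t) * ((dE h w v s * Wr h w v s) * Real.exp (Q + Yv))) * (Ψ t - Ψ s) := by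
        refine mul_le_mul_of_nonneg_right (mul_le_mul_of_nonneg_right hAt hd0) hΨ0
    _ = _ := by ring

end Pool.Agent.RCG
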