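import Pool.Agent.RCG.FamH

/-! Group version of the terms of the N-part: only `v` is decoupled from the pair `(u, w)`
(MP_73ccd0_lc, general graphs). -/

namespace Pool.Agent.RCG

open Set Finset Matrix Pool.Agent.RCRSHalf

set_option linter.unusedSectionVars false

variable {V : Type*} [Fintype V] [DecidableEq V]
variable {h : ℝ → V → V → ℝ} {H : V → V → ℝ → ℝ} {X : V → V → ℝ} {M μ : ℝ → ℝ} {t : ℝ}

/-! ### Monotonicity of the explicit closures in the parameters -/

theorem Res_mono_par {B : Matrix V V ℝ} {θ θ' : ℝ} (hθ : 0 ≤ θ) (hθθ : θ ≤ θ') (hθ1 : θ' < 1)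
    (hB : MN B) (hrow : ∀ a, (B *ᵥ fun _ => 1) a ≤ 1) {F F' : V → ℝ} (hF : ∀ a, 0 ≤ F a)
    (hFF : ∀ a, F a ≤ F' a) (a : V) : Res θ B F a ≤ Res θ' B F' a := by
  unfold Res
  refine (Res_summable hθ (hθθ.trans_lt hθ1) hB hrow hF a).tsum_le_tsum (fun n => ?_)
    (Res_summable (hθ.trans hθθ) hθ1 hB hrow (fun a => (hF a).trans (hFF a)) a)
  exact mul_le_mul (pow_le_pow_left₀ hθ hθθ n) (mulVec_mono (MN.pow hB n) hFF a)
    (mulVec_nonneg (MN.pow hB n) hF a) (pow_nonneg (hθ.trans hθθ) n)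

section mono

variable {c c' κ κ' θ θ' : ℝ} {A : Matrix V V ℝ} {F F' : V → ℝ} {m : ℝ}

theorem Nw_mono_par (hc : 0 ≤ c) (hcc : c ≤ c') (hκ : 0 ≤ κ) (hκκ : κ ≤ κ') (hθ : 0 ≤ θ)
    (hθθ : θ ≤ θ') (hθ1 : θ' < 1) (hA : MN A) (hrow : ∀ a, (A *ᵥ fun _ => 1) a ≤ 1)
    (hF : ∀ a, 0 ≤ F a) (hFF : ∀ a, F a ≤ F' a) (hm : 0 ≤ m) (a : V) :
    Nw c κ θ A F m a ≤ Nw c' κ' θ' A F' m a := by
  have hR := Res_mono_par hθ hθθ hθ1 (hA.mul hA) (sq_row hA hrow) hF hFF
  have hR0 := Res_nonneg hθ (hA.mul hA) hF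
  have e1 := mulVec_mono hA hFF a
  have e2 := mulVec_mono hA (mulVec_mono hA (mulVec_mono hA hR)) a
  have n1 := mulVec_nonneg hA hF a
  have n2 := mulVec_nonneg hA (mulVec_nonneg hA (mulVec_nonneg hA hR0)) a
  have b1 : b2 c m ≤ b2 c' m := by
    unfold b2
    have := mul_le_mul_of_nonneg_right hcc (pow_nonneg hm 5)
    linarith
  have b4' : b4 c κ m ≤ b4 c' κ' m := by
    unfold b4
    have h1 := mul_le_mul_of_nonneg_right hcc (pow_nonneg hm 7)
    have h0 := mul_nonneg hc (pow_nonneg hm 7)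
    have h2 := pow_nonneg hm 4
    exact mul_le_mul hκκ (by linarith) (by positivity) (hκ.trans hκκ)
  unfold Nw
  exact add_le_add (mul_le_mul b1 e1 n1 (b2_nonneg (hc.trans hcc) hm))
    (mul_le_mul b4' e2 n2 (b4_nonneg (hc.trans hcc) (hκ.trans hκκ) hm))

theorem Yw_mono_par (hc : 0 ≤ c) (hcc : c ≤ c') (hκ : 0 ≤ κ) (hκκ : κ ≤ κ') (hθ : 0 ≤ θ)
    (hθθ : θ ≤ θ') (hθ1 : θ' < 1) (hA : MN A) (hrow : ∀ a, (A *ᵥ fun _ => 1) a ≤ 1)
    (hF : ∀ a, 0 ≤ F a) (hFF : ∀ a, F a ≤ F' a) (hm : 0 ≤ m) (a : V) :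
    Yw c κ θ A F m a ≤ Yw c' κ' θ' A F' m a := by
  have hR := Res_mono_par hθ hθθ hθ1 (hA.mul hA) (sq_row hA hrow) hF hFF
  have hR0 := Res_nonneg hθ (hA.mul hA) hF
  have e1 := mulVec_mono hA (mulVec_mono hA hFF) a
  have e2 := mulVec_mono hA (mulVec_mono hA (mulVec_mono hA (mulVec_mono hA hR))) a
  have n1 := mulVec_nonneg hA (mulVec_nonneg hA hF) a
  have n2 := mulVec_nonneg hA (mulVec_nonneg hA (mulVec_nonneg hA (mulVec_nonneg hA hR0))) a
  have b1 : g3 c m ≤ g3 c' m := by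
    unfold g3
    have := mul_le_mul_of_nonneg_right hcc (pow_nonneg hm 6)
    linarith
  have b4' : g5 c κ m ≤ g5 c' κ' m := by
    unfold g5
    have h1 := mul_le_mul_of_nonneg_right hcc (pow_nonneg hm 8)
    have h0 := mul_nonneg hc (pow_nonneg hm 8)
    have h2 := pow_nonneg hm 5
    exact mul_le_mul hκκ (by linarith) (by positivity) (hκ.trans hκκ)
  unfold Yw
  exact add_le_add (mul_le_mul b1 e1 n1 (g3_nonneg (hc.trans hcc) hm))
    (mul_le_mul b4' e2 n2 (g5_nonneg (hc.trans hcc) (hκ.trans hκκ) hm))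

end mono

theorem Fc_mono {x y : ℝ} (hx : 0 ≤ x) (hxy : x ≤ y) : Fc x ≤ Fc y := by
  unfold Fc
  have hy : 0 ≤ y := hx.trans hxy
  have : 0 ≤ x * y := mul_nonneg hx hy
  nlinarith

theorem Nt_le_Nt2 (hX : Wt X) (H0 : Finset V) (p q : V) {m : ℝ} (hm : 0 ≤ m) (a : V) :
    Nt X H0 p m a ≤ Nt2 X H0 p q m a :=
  Nw_mono_par (by norm_num) (by norm_num) (by norm_num) (by norm_num) (by norm_num) (by norm_num)
    (by norm_num) (hX.rm_nonneg H0) (hX.rm_row H0) (fun b => Fc_nonneg (hX.nonneg p b))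
    (fun b => Fc_mono (hX.nonneg p b) (by linarith [hX.nonneg q b])) hm a

theorem Yt_le_Yt2 (hX : Wt X) (H0 : Finset V) (p q : V) {m : ℝ} (hm : 0 ≤ m) (a : V) :
    Yt X H0 p m a ≤ Yt2 X H0 p q m a :=
  Yw_mono_par (by norm_num) (by norm_num) (by norm_num) (by norm_num) (by norm_num) (by norm_num)
    (by norm_num) (hX.rm_nonneg H0) (hX.rm_row H0) (fun b => Fc_nonneg (hX.nonneg p b))
    (fun b => Fc_mono (hX.nonneg p b) (by linarith [hX.nonneg q b])) hm a

/-! ### The group function of `(u : t)` and `(w : r)` -/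

/-- influence bounds on `[0, s]` of every group function with terminal value `R_u^t (·, r)` -/
def GInf (h : ℝ → V → V → ℝ) (H0 : Finset V) (u w : V) (t r s : ℝ) (P N : V → ℝ → ℝ) : Prop :=
  ∀ S : Finset V → ℝ → ℝ, IsEv h (fun x z => h x u z + h x w z) (fun _ => 0) (fun _ => 0) r S →
    (∀ F, S F r = RCG.tgt h u t F r) → Inf H0 s S P N

/-- the group closure with horizon `t` -/
theorem Cx.ginf (hC : Cx h H X M μ t) {H0 : Finset V} {u w : V} (huw : u ≠ w) (hu : u ∉ H0)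
    (hw : w ∉ H0) {T r s : ℝ} (hT : T ∈ Icc 0 t) (hr : r ∈ Icc 0 T) (hs : s ≤ r) :
    GInf h H0 u w T r s (Pt2 H X M H0 u w T) (fun a x => Nt2 X H0 u w (M T - M x) a) := by
  intro S hS hSr
  have hcl := hC.clo2 hT huw hu hw
  have hI := hC.inf hT (w := u) (H0 := H0) hu (subset_rfl : H0 ⊆ H0) le_rfl
  have hm : 0 ≤ M T - M r := by linarith [hC.mono hT r hr]
  have hRn := (hC.hh.tgt u (hC.mem hT)).ev.nonneg
  refine (hcl.inf0 hC.hh (fun x b => add_nonneg (hC.hh.nonneg _ _ _) (hC.hh.nonneg _ _ _)) hr.2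
    hS (fun G hG b hb => ?_) (fun G hG b hb => ?_)).mono subset_rfl hs
  · rw [hSr, hSr]
    refine (hI.up G hG b hb r hr).trans (mul_le_mul_of_nonneg_right ?_ (hRn G r hr))
    unfold Pt Pt2
    have h1 := Yt_le_Yt2 hC.hX H0 u w hm b
    have h2 := hC.hh.Hmono w b hr.2
    have := Real.exp_le_exp.2 (show H u b T - H u b r + Yt X H0 u (M T - M r) b
      ≤ H u b T + H w b T - (H u b r + H w b r) + Yt2 X H0 u w (M T - M r) b by linarith)
    linarith
  · rw [hSr, hSr]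
    refine le_trans (mul_le_mul_of_nonneg_right ?_ (hRn G r hr)) (hI.lo G hG b hb r hr)
    have := Nt_le_Nt2 hC.hX H0 u w hm b
    linarith

/-- the expectation in the restarted world as value of the group function -/
theorem gg_eq (hh : Haz h H) {u w : V} (huw : u ≠ w) {T r s : ℝ} (hT : T ∈ Icc (0 : ℝ) 1)
    (hr : r ∈ Icc 0 T) (hs : s ∈ Icc 0 r) {S : Finset V → ℝ → ℝ}
    (hS : IsEv h (fun x z => h x u z + h x w z) (fun _ => 0) (fun _ => 0) r S)
    (hSr : ∀ F, S F r = RCG.tgt h u T F r) {F : Finset V} (hu : u ∉ F) (hw : w ∉ F) :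
    ex (lw (sh h s) (insert u (insert w F))ᶜ (r - s)) {u, w} (fun G => RCG.tgt h u T G r)
      = Real.exp (-(H u w r - H u w s)) * S F s := by
  have hh' := hh.shift s
  have hrs : r - s ∈ Icc (0 : ℝ) 1 := ⟨by linarith [hs.2], by linarith [hr.2, hs.1, hT.2]⟩
  have hS' : IsEv (sh h s) (fun x z => ∑ w' ∈ ({u, w} : Finset V), sh h s x w' z) (fun _ => 0)
      (fun _ => 0) (r - s) (fun F x => S F (s + x)) := by
    refine (hS.shift hs.1).congr_k fun x z => ?_
    rw [Finset.sum_pair huw]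
    rfl
  have e1 := duality2 hh' (hh'.lw (insert u (insert w F))ᶜ) (W := {u, w})
    (by
      rw [compl_compl]
      intro z hz
      simp only [Finset.mem_insert, Finset.mem_singleton] at hz ⊢
      tauto) hrs hS'
  have e2 : (insert u (insert w F))ᶜᶜ \ {u, w} = F := by
    rw [compl_compl]
    ext z
    simp only [Finset.mem_sdiff, Finset.mem_insert, Finset.mem_singleton]
    constructor
    · tauto
    · intro hz
      have : z ≠ u := fun e => hu (e ▸ hz)
      have : z ≠ w := fun e => hw (e ▸ hz)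
      tauto
  rw [e2, add_zero] at e1
  have e3 : HW (sH H s) {u, w} (r - s) = H u w r - H u w s := by
    unfold HW
    rw [Finset.sum_pair huw, Finset.sum_pair huw, Finset.sum_pair huw]
    unfold sH
    rw [hh.Hdiag, hh.Hdiag, hh.Hdiag, hh.Hdiag, hh.Hsymm w u, hh.Hsymm w u, add_sub_cancel]
    ring
  rw [e3] at e1
  rw [← e1]
  congr 1
  funext G
  rw [add_sub_cancel, hSr]

/-- the group function at time zero as an expectation -/
theorem grp_zero (hh : Haz h H) {u w : V} (huw : u ≠ w) {D : Finset V} (hu : u ∉ D) (hw : w ∉ D)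
    {T r : ℝ} (hT : T ∈ Icc (0 : ℝ) 1) (hr : r ∈ Icc 0 T) {S : Finset V → ℝ → ℝ}
    (hS : IsEv h (fun x z => h x u z + h x w z) (fun _ => 0) (fun _ => 0) r S)
    (hSr : ∀ F, S F r = RCG.tgt h u T F r) :
    S (D ∪ {u, w})ᶜ 0 = Real.exp (H u w r) *
      ex (lw h D r) {u, w} (fun F => RCG.tgt h u T F r) := by
  have hr1 : r ∈ Icc (0 : ℝ) 1 := ⟨hr.1, hr.2.trans hT.2⟩
  have hS' : IsEv h (fun x z => ∑ w' ∈ ({u, w} : Finset V), h x w' z) (fun _ => 0)
      (fun _ => 0) r S := by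
    refine hS.congr_k fun x z => ?_
    rw [Finset.sum_pair huw]
  have e1 := duality2 hh (hh.lw D) (W := {u, w})
    (by
      intro z hz
      simp only [Finset.mem_insert, Finset.mem_singleton] at hz
      rw [Finset.mem_compl]
      rcases hz with rfl | rfl
      · exact hu
      · exact hw) hr1 hS'
  have e2 : ex (lw h D r) {u, w} (fun F => S F r)
      = ex (lw h D r) {u, w} (fun F => RCG.tgt h u T F r) := by
    congr 1; funext F; exact hSr F
  have e3 : HW H {u, w} r = H u w r := by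
    unfold HW
    rw [Finset.sum_pair huw, Finset.sum_pair huw, Finset.sum_pair huw]
    rw [hh.Hdiag, hh.Hdiag, hh.Hsymm w u]
    ring
  rw [e2, e3, compl_sdiff_union] at e1
  rw [e1, ← mul_assoc, ← Real.exp_add, add_neg_cancel, Real.exp_zero, one_mul]

/-- decoupling of `v` from the group -/
theorem Cx.grp_up (hC : Cx h H X M μ t) {u v w : V} (huv : u ≠ v) (huw : u ≠ w) (hvw : v ≠ w)
    {T r s : ℝ} (hT : T ∈ Icc 0 t) (hr : r ∈ Icc 0 T) (hs : s ∈ Icc 0 r)
    {Pg Ng : V → ℝ → ℝ} (hG : GInf h ({u, v, w} : Finset V)ᶜ u w T r s Pg Ng) {K : ℝ}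
    (hK : Exq (fun x => ru2 (h x) ({u, v, w} : Finset V)ᶜ
      (fun a => Pt H X M ({u, v, w} : Finset V)ᶜ v s a x)
      (fun a => Nt X ({u, v, w} : Finset V)ᶜ v (M s - M x) a)
      (fun a => Pg a x) (fun a => Ng a x)) s K) :
    ex (lw h ∅ s) {u, v, w} (fun F =>
        ex (lw (sh h s) (insert u (insert w F))ᶜ (r - s)) {u, w} (fun G => RCG.tgt h u T G r))
      ≤ Real.exp (-(H u v s + H v w s) + K) *
        (bb h {u, w} v s * ex (lw h {v} r) {u, w} (fun F => RCG.tgt h u T F r)) := by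
  obtain ⟨κ, κ', h1, h2, h3, h4⟩ := hK
  have hh := hC.hh
  have hrt : r ∈ Icc 0 t := ⟨hr.1, hr.2.trans hT.2⟩
  have hst : s ∈ Icc 0 t := ⟨hs.1, hs.2.trans hrt.2⟩
  have hs1 := hC.mem hst
  have hTv := hh.tgt v hs1
  obtain ⟨S, hS0, hSr⟩ := hh.exists_ev {u, w} (hC.mem hrt) (fun F => RCG.tgt h u T F r)
    (fun F => (hh.tgt u (hC.mem hT)).ev.nonneg F r hr)
  have hS : IsEv h (fun x z => h x u z + h x w z) (fun _ => 0) (fun _ => 0) r S :=
    hS0.congr_k fun x z => by rw [Finset.sum_pair huw]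
  have hμ0 := fun F => (hh.lw (∅ : Finset V)).nonneg F s hs1
  -- replace the inner expectation
  have e1 : ex (lw h ∅ s) {u, v, w} (fun F =>
        ex (lw (sh h s) (insert u (insert w F))ᶜ (r - s)) {u, w} (fun G => RCG.tgt h u T G r))
      = Real.exp (-(H u w r - H u w s)) * ex (lw h ∅ s) {u, v, w} (fun F => S F s) := by
    rw [← ex_smul]
    unfold ex
    refine Finset.sum_congr rfl fun F _ => ?_
    by_cases hF : ({u, v, w} : Finset V) ⊆ F
    · rw [if_pos hF, if_pos hF]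
      congr 1
      exact gg_eq hh huw (hC.mem hT) hr hs hS hSr (by simp) (by simp)
    · rw [if_neg hF, if_neg hF]
  rw [e1]
  have eD : (∅ : Finset V) ∪ {u, v, w} = {u, v, w} := Finset.empty_union _
  have key := ex_le_grp2 hh (D := ∅) (W := {u, v, w}) (Finset.disjoint_empty_left _) hs1
    (k0 := fun x z => h x v z) (k1 := fun x z => h x u z + h x w z)
    (fun x z => by
      rw [Finset.sum_insert (by simp [huv, huw]), Finset.sum_pair hvw]; ring)
    (fun x z => hh.nonneg _ _ _) (fun x z => add_nonneg (hh.nonneg _ _ _) (hh.nonneg _ _ _))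
    hTv.ev (hS.mono hs.2)
    (by rw [eD]; exact hC.inf hst (w := v) (H0 := ({u, v, w} : Finset V)ᶜ) (by simp)
          subset_rfl le_rfl)
    (by rw [eD]; exact hG S hS hSr)
    (ψ := fun F => S F s) (fun F => hS.nonneg F s hs)
    (fun F _ => by rw [hTv.end_, one_mul]) h1 h2 (fun x hx => by
      rw [eD]
      exact h4 x hx)
  rw [eD, HW_three hh huv huw hvw] at key
  have e6 : bb h {u, w} v s = RCG.tgt h v s ({u, v, w} : Finset V)ᶜ 0 := by
    rw [bb_eq hh (D := {u, w}) (u := v) (by simp [huv.symm, hvw]) hs1]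
    congr 1
    congr 1
    exact Finset.insert_comm v u {w}
  have e7 := grp_zero hh huw (D := {v}) (by simpa using huv) (by simpa using hvw.symm)
    (hC.mem hT) hr hS hSr
  have e8 : ({v} ∪ {u, w} : Finset V)ᶜ = ({u, v, w} : Finset V)ᶜ := by
    congr 1
    ext z
    simp only [Finset.mem_union, Finset.mem_insert, Finset.mem_singleton]
    tauto
  rw [e8] at e7
  rw [← e6, e7] at key
  set Xw := ex (lw h {v} r) {u, w} (fun F => RCG.tgt h u T F r) with hXw
  have hX0 : 0 ≤ Xw := ex_nonneg (fun F => (hh.lw {v}).nonneg F r (hC.mem hrt)) fun F =>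
    (hh.tgt u (hC.mem hT)).ev.nonneg F r hr
  have hb0 := bb_nonneg hh {u, w} v hs1
  calc Real.exp (-(H u w r - H u w s)) * ex (lw h ∅ s) {u, v, w} (fun F => S F s)
      ≤ Real.exp (-(H u w r - H u w s)) * (Real.exp (-(H u v s + H u w s + H v w s) + κ 0) *
        (bb h {u, w} v s * (Real.exp (H u w r) * Xw))) :=
        mul_le_mul_of_nonneg_left key (Real.exp_pos _).le
    _ = Real.exp (-(H u v s + H v w s) + κ 0) * (bb h {u, w} v s * Xw) := by
        have e9 : Real.exp (-(H u w r - H u w s)) *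
            Real.exp (-(H u v s + H u w s + H v w s) + κ 0) * Real.exp (H u w r)
            = Real.exp (-(H u v s + H v w s) + κ 0) := by
          rw [← Real.exp_add, ← Real.exp_add]; congr 1; ring
        linear_combination (bb h {u, w} v s * Xw) * e9
    _ ≤ _ := by
        refine mul_le_mul_of_nonneg_right (Real.exp_le_exp.2 (by linarith)) (by positivity)

end Pool.Agent.RCG
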