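import Pool.Agent.RCG.FamX

/-! Terms of the N-part, group version, in number form (MP_73ccd0_lc, general graphs). -/

namespace Pool.Agent.RCG

open Set Finset Matrix Pool.Agent.RCRSHalf

set_option linter.unusedSectionVars false

variable {V : Type*} [Fintype V] [DecidableEq V]
variable {h : ℝ → V → V → ℝ} {H : V → V → ℝ → ℝ} {X : V → V → ℝ} {M μ : ℝ → ℝ} {t : ℝ}

/-- the pair expectation in the graph without `v` -/
noncomputable def Xw (h : ℝ → V → V → ℝ) (D : Finset V) (u w : V) (t r : ℝ) : ℝ :=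
  ex (lw h D r) {u, w} (fun F => RCG.tgt h u t F r)

theorem Xw_nonneg (hh : Haz h H) (D : Finset V) (u w : V) {t r : ℝ} (ht : t ∈ Icc (0 : ℝ) 1)
    (hr : r ∈ Icc 0 t) : 0 ≤ Xw h D u w t r :=
  ex_nonneg (fun F => (hh.lw D).nonneg F r ⟨hr.1, hr.2.trans ht.2⟩) fun F =>
    (hh.tgt u ht).ev.nonneg F r hr

/-- total source rate of `w` for the target `u` -/
noncomputable def yw (h : ℝ → V → V → ℝ) (X : V → V → ℝ) (M : ℝ → ℝ) (H0 : Finset V) (u w : V)
    (t r : ℝ) : ℝ := ∑ c ∈ H0, h r w c * Nt X H0 u (M t - M r) c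

theorem Cx.yw_nonneg (hC : Cx h H X M μ t) {H0 : Finset V} {u w : V} (hu : u ∉ H0) {r : ℝ}
    (hr : r ∈ Icc 0 t) : 0 ≤ yw h X M H0 u w t r := by
  have i1 := hC.inf ⟨hC.t0, le_rfl⟩ (w := u) (H0 := H0) hu (subset_rfl : H0 ⊆ H0) le_rfl
  exact Finset.sum_nonneg fun c hc => mul_nonneg (hC.hh.nonneg _ _ _) (i1.N0 c hc r hr)

/-- A term of the N-part of the edge `(u, v)`, group form, structure. -/
theorem Cx.N_grp0 (hC : Cx h H X M μ t) {u v w : V} (huv : u ≠ v) (huw : u ≠ w) (hvw : v ≠ w)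
    {s : ℝ} (hs : s ∈ Icc 0 t) {Pg Ng : ℝ → V → ℝ → ℝ}
    (hG : ∀ r ∈ Icc s t, GInf h ({u, v, w} : Finset V)ᶜ u w t r s (Pg r) (Ng r)) {K : ℝ → ℝ}
    (hK : ∀ r ∈ Icc s t, Exq (fun x => ru2 (h x) ({u, v, w} : Finset V)ᶜ
      (fun a => Pt H X M ({u, v, w} : Finset V)ᶜ v s a x)
      (fun a => Nt X ({u, v, w} : Finset V)ᶜ v (M s - M x) a)
      (fun a => Pg r a x) (fun a => Ng r a x)) s (K r))
    {Ψ ψ : ℝ → ℝ} (hΨ : ∀ r ∈ Icc s t, HasDerivAt Ψ (ψ r) r)
    (hψ : ∀ r ∈ Icc s t, (h r u w + yw h X M ({u, v, w} : Finset V)ᶜ u w t r) *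
      (Real.exp (K r) * Xw h {v} u w t r) ≤ ψ r) :
    ex (lw h ∅ s) {u, v, w} (fun F => RCG.tgt h u t F s - RCG.tgt h u t (insert w F) s)
      ≤ Real.exp (-(H u v s + H v w s)) * bb h {u, w} v s * (Ψ t - Ψ s) := by
  have ht : t ∈ Icc 0 t := ⟨hC.t0, le_rfl⟩
  have hs1 := hC.mem hs
  have hh := hC.hh
  have hμ0 := fun F => (hh.lw (∅ : Finset V)).nonneg F s hs1
  set C0 : ℝ := Real.exp (-(H u v s + H v w s)) * bb h {u, w} v s with hC0
  have hC00 : 0 ≤ C0 := mul_nonneg (Real.exp_pos _).le (bb_nonneg hh _ _ hs1)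
  generalize hH3 : ({u, v, w} : Finset V)ᶜ = H0 at hG hK hψ
  have hu0 : u ∉ H0 := by rw [← hH3]; simp
  have hw0 : w ∉ H0 := by rw [← hH3]; simp
  obtain ⟨y, hy⟩ : ∃ y : ℝ → ℝ, y = fun r => h r u w
      + ∑ c ∈ H0, h r w c * Nt X H0 u (M t - M r) c := ⟨_, rfl⟩
  have hy' : ∀ r, h r u w + yw h X M H0 u w t r = y r := fun r => by rw [hy]; rfl
  simp only [hy'] at hψ
  have hy0 : ∀ r ∈ Icc s t, 0 ≤ y r := by
    intro r hr
    rw [← hy']
    exact add_nonneg (hh.nonneg _ _ _) (hC.yw_nonneg hu0 ⟨hs.1.trans hr.1, hr.2⟩)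
  have hyc : ContinuousOn y (Icc s t) := by
    rw [hy]
    exact (hC.y_cont H0 u w ht).mono (Icc_subset_Icc hs.1 le_rfl)
  obtain ⟨gg, hgg⟩ : ∃ gg : Finset V → ℝ → ℝ, gg = fun F r =>
    ex (lw (sh h s) (insert u (insert w F))ᶜ (r - s)) {u, w} (fun G => RCG.tgt h u t G r) :=
    ⟨_, rfl⟩
  have hggc : ∀ F, ContinuousOn (gg F) (Icc s t) := fun F => by
    rw [hgg]; exact hC.gg_cont _ u w ht hs
  have hexΓ : ∀ F : Finset V, ∃ Γ : ℝ → ℝ, Γ s = 0 ∧ ∀ r ∈ Icc s t,
      HasDerivAt Γ (y r * gg F r) r := fun F =>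
    exists_prim' hs.2 (hyc.mul (hggc F))
  choose Γ hΓ0 hΓ using hexΓ
  have hsubs : ∀ F : Finset V, F \ {u, v, w} ⊆ H0 := by
    intro F z hz
    rw [← hH3, Finset.mem_compl]
    exact (Finset.mem_sdiff.1 hz).2
  have hstep : ex (lw h ∅ s) {u, v, w} (fun F => RCG.tgt h u t F s
      - RCG.tgt h u t (insert w F) s) ≤ ex (lw h ∅ s) {u, v, w} (fun F => Γ F t) := by
    refine ex_mono hμ0 fun F _ _ => ?_
    have := hC.xiF (hsubs F) hu0 hw0 huw ht hs (hΓ (F \ {u, v, w})) (fun r _ => by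
      rw [hgg]
      have := hy' r
      unfold yw at this
      rw [this])
    rwa [hΓ0, sub_zero] at this
  have hd : ∀ r ∈ Icc s t, HasDerivAt (fun r => ex (lw h ∅ s) {u, v, w} (fun F => Γ F r))
      (ex (lw h ∅ s) {u, v, w} (fun F => y r * gg F r)) r := fun r hr =>
    hasDerivAt_ex (f := Γ) fun F => hΓ F r hr
  have hle : ∀ r ∈ Icc s t, ex (lw h ∅ s) {u, v, w} (fun F => y r * gg F r) ≤ C0 * ψ r := by
    intro r hr
    have hr0 : r ∈ Icc 0 t := ⟨hs.1.trans hr.1, hr.2⟩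
    rw [ex_smul]
    have h1 := hC.grp_up huv huw hvw ht hr0 ⟨hs.1, hr.1⟩ (by rw [hH3]; exact hG r hr)
      (by rw [hH3]; exact hK r hr)
    have h2 : ex (lw h ∅ s) {u, v, w} (fun F => gg F r)
        ≤ Real.exp (-(H u v s + H v w s) + K r) * (bb h {u, w} v s * Xw h {v} u w t r) := by
      rw [hgg]; exact h1
    calc y r * ex (lw h ∅ s) {u, v, w} (fun F => gg F r)
        ≤ y r * (Real.exp (-(H u v s + H v w s) + K r) *
          (bb h {u, w} v s * Xw h {v} u w t r)) := mul_le_mul_of_nonneg_left h2 (hy0 r hr)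
      _ = C0 * (y r * (Real.exp (K r) * Xw h {v} u w t r)) := by
          rw [Real.exp_add, hC0]; ring
      _ ≤ C0 * ψ r := mul_le_mul_of_nonneg_left (hψ r hr) hC00
  have key := nonneg_of_forward
    (U := fun r => C0 * (Ψ r - Ψ s) - ex (lw h ∅ s) {u, v, w} (fun F => Γ F r))
    (U' := fun r => C0 * ψ r - ex (lw h ∅ s) {u, v, w} (fun F => y r * gg F r))
    (a := s) (s := t) (fun r hr => (((hΨ r hr).sub_const _).const_mul C0).sub (hd r hr))
    (by
      have : ex (lw h ∅ s) {u, v, w} (fun F => Γ F s) = 0 := by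
        unfold ex
        refine Finset.sum_eq_zero fun F _ => ?_
        simp [hΓ0]
      simp [this])
    (fun r hr _ => by have := hle r hr; linarith) t ⟨hs.2, le_rfl⟩
  linarith

/-- hazard of a pair times its factors by the density of `E` -/
theorem hz_dE (hh : Haz h H) {a b : V} (hab : a ≠ b) {s Q : ℝ} (hs : s ∈ Icc (0 : ℝ) 1)
    (hQ : Real.exp (-Q) * (bb h {b} a s * bb h {a} b s) ≤ Real.exp (H a b s) * pp h a b s) :
    h s a b * (Real.exp (-H a b s) * bb h {a} b s) ≤ dE h a b s * Wr h a b s * Real.exp Q := by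
  have hz := hz_up hh hab hs hQ
  have hb := bb_pos hh (show a ∉ ({b} : Finset V) by simpa using hab) hs
  have e0 : dE h a b s * Wr h a b s = h s a b * pp h a b s * (bb h {b} a s)⁻¹ := by
    rw [inv_bb hh hab hs]; unfold dE; ring
  rw [e0]
  have : h s a b * (Real.exp (-H a b s) * bb h {a} b s)
      = (h s a b * Real.exp (-H a b s) * (bb h {b} a s * bb h {a} b s)) * (bb h {b} a s)⁻¹ := by
    field_simp
  rw [this]
  calc _ ≤ (h s a b * pp h a b s * Real.exp Q) * (bb h {b} a s)⁻¹ :=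
        mul_le_mul_of_nonneg_right hz (inv_nonneg.2 hb.le)
    _ = _ := by ring

/-- A term of the N-part of the edge `(u, v)`, group form, number form. -/
theorem Cx.N_grp (hC : Cx h H X M μ t) {u v w : V} (huv : u ≠ v) (huw : u ≠ w) (hvw : v ≠ w)
    {s : ℝ} (hs : s ∈ Icc 0 t) {Pg Ng : ℝ → V → ℝ → ℝ}
    (hG : ∀ r ∈ Icc s t, GInf h ({u, v, w} : Finset V)ᶜ u w t r s (Pg r) (Ng r)) {K : ℝ → ℝ}
    (hK : ∀ r ∈ Icc s t, Exq (fun x => ru2 (h x) ({u, v, w} : Finset V)ᶜ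
      (fun a => Pt H X M ({u, v, w} : Finset V)ᶜ v s a x)
      (fun a => Nt X ({u, v, w} : Finset V)ᶜ v (M s - M x) a)
      (fun a => Pg r a x) (fun a => Ng r a x)) s (K r))
    {Q At : ℝ} {Qr Cr Ar : ℝ → ℝ}
    (hQ : Real.exp (-Q) * (bb h {w} v s * bb h {v} w s) ≤ Real.exp (H v w s) * pp h v w s)
    (hQr : ∀ r ∈ Icc s t, Real.exp (-Qr r) * (bb h {w} u r * bb h {u} w r)
      ≤ Real.exp (H u w r) * pp h u w r)
    (hCr : ∀ r ∈ Icc s t, Real.exp (H u w r) * Xw h {v} u w t r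
      ≤ Cr r * (bb h {v, w} u t * bb h {u, v} w r))
    (hAr : ∀ r ∈ Icc s t, bb h {u, v} w r ≤ Ar r * bb h {u} w r)
    (hAr0 : ∀ r ∈ Icc s t, 0 ≤ Ar r) (hCr0 : ∀ r ∈ Icc s t, 0 ≤ Cr r)
    (hAt : bb h {v, w} u t ≤ At * bb h {v} u t)
    {Ψ ψ : ℝ → ℝ} (hΨ : ∀ r ∈ Icc s t, HasDerivAt Ψ (ψ r) r)
    (hψ : ∀ r ∈ Icc s t, (dE h u w r * Wr h u w r * Real.exp (Qr r)
      + yw h X M ({u, v, w} : Finset V)ᶜ u w t r * (Real.exp (-H u w r) * bb h {u} w r))
        * (Ar r * Cr r * Real.exp (K r)) ≤ ψ r) :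
    h s v w * ex (lw h ∅ s) {u, v, w}
        (fun F => RCG.tgt h u t F s - RCG.tgt h u t (insert w F) s)
      ≤ bb h {v} u t * (At * (dE h w v s * Wr h w v s *
        Real.exp (Q + Yt X ({v, w} : Finset V)ᶜ v (M s) u)) * (Ψ t - Ψ s)) := by
  have ht : t ∈ Icc 0 t := ⟨hC.t0, le_rfl⟩
  have hs1 := hC.mem hs
  have hh := hC.hh
  set bu := bb h {v, w} u t with hbu
  have hbu0 : 0 ≤ bu := bb_nonneg hh _ _ (hC.mem ht)
  have hgrp := hC.N_grp0 huv huw hvw hs hG hK (Ψ := fun r => bu * Ψ r) (ψ := fun r => bu * ψ r)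
    (fun r hr => (hΨ r hr).const_mul bu) (fun r hr => by
      have hr0 : r ∈ Icc 0 t := ⟨hs.1.trans hr.1, hr.2⟩
      have hr1 := hC.mem hr0
      set y := yw h X M ({u, v, w} : Finset V)ᶜ u w t r with hy
      have hy0 : 0 ≤ y := hC.yw_nonneg (by simp) hr0
      have hh0 := hh.nonneg r u w
      have d1 := hz_dE hh huw hr1 (hQr r hr)
      have hb0 := bb_nonneg hh {u} w hr1
      have hX : Xw h {v} u w t r
          ≤ Real.exp (-H u w r) * (Cr r * (bu * (Ar r * bb h {u} w r))) := by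
        have e1 : Xw h {v} u w t r = Real.exp (-H u w r) *
            (Real.exp (H u w r) * Xw h {v} u w t r) := by
          rw [← mul_assoc, ← Real.exp_add, neg_add_cancel, Real.exp_zero, one_mul]
        rw [e1]
        refine mul_le_mul_of_nonneg_left ((hCr r hr).trans ?_) (Real.exp_pos _).le
        exact mul_le_mul_of_nonneg_left (mul_le_mul_of_nonneg_left (hAr r hr) hbu0) (hCr0 r hr)
      have hA0 := hAr0 r hr
      have hC0 := hCr0 r hr
      calc (h r u w + y) * (Real.exp (K r) * Xw h {v} u w t r)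
          ≤ (h r u w + y) * (Real.exp (K r) *
            (Real.exp (-H u w r) * (Cr r * (bu * (Ar r * bb h {u} w r))))) := by
            gcongr
        _ = bu * ((h r u w * (Real.exp (-H u w r) * bb h {u} w r)
              + y * (Real.exp (-H u w r) * bb h {u} w r)) * (Ar r * Cr r * Real.exp (K r))) := by
            ring
        _ ≤ bu * ((dE h u w r * Wr h u w r * Real.exp (Qr r)
              + y * (Real.exp (-H u w r) * bb h {u} w r)) * (Ar r * Cr r * Real.exp (K r))) := by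
            gcongr
        _ ≤ bu * ψ r := mul_le_mul_of_nonneg_left (hψ r hr) hbu0)
  have hΨ0 : 0 ≤ Ψ t - Ψ s := by
    have := nonneg_of_forward (U := fun r => Ψ r - Ψ s) (U' := ψ) (a := s) (s := t)
      (fun r hr => (hΨ r hr).sub_const _) (by simp) (fun r hr _ => by
        refine le_trans ?_ (hψ r hr)
        have hr0 : r ∈ Icc 0 t := ⟨hs.1.trans hr.1, hr.2⟩
        have hr1 := hC.mem hr0
        have hy0 : 0 ≤ yw h X M ({u, v, w} : Finset V)ᶜ u w t r := hC.yw_nonneg (by simp) hr0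
        have h1 := dE_nonneg hh u w hr1
        have h2 := (Wr_pos hh huw hr1).le
        have h3 := bb_nonneg hh {u} w hr1
        have h4 := hAr0 r hr
        have h5 := hCr0 r hr
        positivity) t ⟨hs.2, le_rfl⟩
    exact this
  have h0 := hh.nonneg s v w
  have hdv : bb h {u, w} v s
      ≤ Real.exp (H u v s + Yt X ({v, w} : Finset V)ᶜ v (M s) u) * bb h {w} v s := by
    have h1 := hC.del_up (D := {w}) (u := v) (q := u) (by simpa using hvw) (by simpa using huw)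
      huv.symm hs
    rw [hh.Hsymm v u] at h1
    exact h1
  have e0 : h s v w * (Real.exp (-H v w s) * bb h {w} v s)
      ≤ dE h w v s * Wr h w v s * Real.exp Q := by
    have hQ' : Real.exp (-Q) * (bb h {v} w s * bb h {w} v s)
        ≤ Real.exp (H w v s) * pp h w v s := by
      have e1 : pp h w v s = pp h v w s := by unfold pp; rw [Finset.pair_comm]
      rw [e1, hh.Hsymm w v, mul_comm (bb h {v} w s)]
      exact hQ
    have := hz_dE hh hvw.symm hs1 hQ'
    rwa [hh.symm s w v, hh.Hsymm w v] at this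
  set Yv := Yt X ({v, w} : Finset V)ᶜ v (M s) u with hYv
  have m1 : h s v w * (Real.exp (-(H u v s + H v w s)) * bb h {u, w} v s)
      ≤ (dE h w v s * Wr h w v s) * Real.exp (Q + Yv) := by
    calc h s v w * (Real.exp (-(H u v s + H v w s)) * bb h {u, w} v s)
        ≤ h s v w * (Real.exp (-(H u v s + H v w s)) *
          (Real.exp (H u v s + Yv) * bb h {w} v s)) := by gcongr
      _ = (h s v w * (Real.exp (-H v w s) * bb h {w} v s)) * Real.exp Yv := by
          have e1 : Real.exp (-(H u v s + H v w s)) * Real.exp (H u v s + Yv)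
              = Real.exp (-H v w s) * Real.exp Yv := by
            rw [← Real.exp_add, ← Real.exp_add]; congr 1; ring
          linear_combination (h s v w * bb h {w} v s) * e1
      _ ≤ (dE h w v s * Wr h w v s * Real.exp Q) * Real.exp Yv := by gcongr
      _ = _ := by rw [Real.exp_add]; ring
  have hd0 : 0 ≤ dE h w v s * Wr h w v s * Real.exp (Q + Yv) := by
    have h1 := dE_nonneg hh w v hs1
    have h2 := (Wr_pos hh hvw.symm hs1).le
    positivity
  calc h s v w * ex (lw h ∅ s) {u, v, w}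
        (fun F => RCG.tgt h u t F s - RCG.tgt h u t (insert w F) s)
      ≤ h s v w * (Real.exp (-(H u v s + H v w s)) * bb h {u, w} v s *
          (bu * Ψ t - bu * Ψ s)) := mul_le_mul_of_nonneg_left hgrp h0
    _ = (h s v w * (Real.exp (-(H u v s + H v w s)) * bb h {u, w} v s)) *
          (bu * (Ψ t - Ψ s)) := by ring
    _ ≤ ((dE h w v s * Wr h w v s) * Real.exp (Q + Yv)) * (bu * (Ψ t - Ψ s)) :=
        mul_le_mul_of_nonneg_right m1 (mul_nonneg hbu0 hΨ0)
    _ ≤ ((dE h w v s * Wr h w v s) * Real.exp (Q + Yv)) * ((At * bb h {v} u t) * (Ψ t - Ψ s)) := by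
        refine mul_le_mul_of_nonneg_left (mul_le_mul_of_nonneg_right hAt hΨ0) hd0
    _ = _ := by ring

end Pool.Agent.RCG
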