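import Pool.Agent.RCG.Boot
import Pool.Agent.RCRSHalf.Final2

/-! The extended graph with many pendant vertices at every vertex, and the ring laws
(MP_73ccd0_lc, general graphs). -/

set_option linter.unusedSectionVars false

namespace Pool.Agent.RCG.SK

open MeasureTheory Set Pool.Agent.RCRS Pool.Agent.RCRSHalf Pool.Agent.RCG

section FinA

variable {V : Type} [Fintype V] [DecidableEq V] {G : SimpleGraph V} [Fintype G.edgeSet]
  [DecidableEq G.edgeSet] {K : ℕ} (x : G.edgeSet → ℝ)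
  (h : ℝ → V ⊕ V × Fin K → V ⊕ V × Fin K → ℝ)
  (H : V ⊕ V × Fin K → V ⊕ V × Fin K → ℝ → ℝ)

/-- the extended weights; every vertex has `K` pendant vertices -/
noncomputable def xk : V ⊕ V × Fin K → V ⊕ V × Fin K → ℝ
  | Sum.inl a, Sum.inl b => xw x a b
  | Sum.inl a, Sum.inr b => if a = b.1 then defect x a / K else 0
  | Sum.inr a, Sum.inl b => if a.1 = b then defect x b / K else 0
  | Sum.inr _, Sum.inr _ => 0

theorem xk_symm (a b : V ⊕ V × Fin K) : xk x a b = xk x b a := by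
  rcases a with a | a <;> rcases b with b | b
  · exact xw_symm x a b
  · simp only [xk]
    by_cases hab : a = b.1
    · subst hab; simp
    · simp [hab, Ne.symm hab]
  · simp only [xk]
    by_cases hab : a.1 = b
    · subst hab; simp
    · simp [hab, Ne.symm hab]
  · rfl

theorem xk_nonneg (hx : IsFractionalMatching G x) (a b : V ⊕ V × Fin K) : 0 ≤ xk x a b := by
  have hxw : ∀ a b, 0 ≤ xw x a b := fun a b => by
    by_cases h : G.Adj a b
    · rw [xw_adj x h]; exact (hx.1 _).1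
    · rw [xw_nadj x h]
  rcases a with a | a <;> rcases b with b | b
  · exact hxw a b
  · simp only [xk]
    split_ifs
    · exact div_nonneg (defect_nonneg hx a) (Nat.cast_nonneg K)
    · exact le_rfl
  · simp only [xk]
    split_ifs
    · exact div_nonneg (defect_nonneg hx b) (Nat.cast_nonneg K)
    · exact le_rfl
  · exact le_rfl

theorem xk_diag (a : V ⊕ V × Fin K) : xk x a a = 0 := by
  rcases a with a | a
  · exact xw_nadj x (G.loopless.irrefl a)
  · rfl

theorem sum_pend (hK : 0 < K) (a : V) :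
    ∑ b : V × Fin K, xk x (Sum.inl a) (Sum.inr b) = defect x a := by
  rw [Fintype.sum_prod_type, Finset.sum_eq_single a]
  · have hK' : (K : ℝ) ≠ 0 := by positivity
    simp only [xk, if_true, Finset.sum_const, Finset.card_univ, Fintype.card_fin, nsmul_eq_mul]
    field_simp
  · intro b _ hb
    simp [xk, Ne.symm hb]
  · intro hh; exact absurd (Finset.mem_univ _) hh

/-- rows of the non-pendant vertices -/
theorem xk_row_inl (hK : 0 < K) (a : V) :
    ∑ b : V ⊕ V × Fin K, xk x (Sum.inl a) b = 1 := by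
  rw [Fintype.sum_sum_type, sum_pend x hK a]
  have e2 : ∑ b : V, xk x (Sum.inl a) (Sum.inl b : V ⊕ V × Fin K)
      = ∑ e : G.edgeSet, if a ∈ (e : Sym2 V) then x e else 0 := xw_row x a
  rw [e2]
  unfold defect
  linarith

theorem div_K_le (hK : 0 < K) {y : ℝ} (hy : 0 ≤ y) : y / K ≤ y := by
  refine div_le_self hy ?_
  exact_mod_cast hK

/-- rows of the extended weights -/
theorem xk_row (hx : IsFractionalMatching G x) (hK : 0 < K) (a : V ⊕ V × Fin K) :
    ∑ b, xk x a b ≤ 1 := by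
  rcases a with a | a
  · exact (xk_row_inl x hK a).le
  · rw [Fintype.sum_sum_type]
    have e1 : ∑ b : V × Fin K, xk x (Sum.inr a) (Sum.inr b) = 0 := by simp [xk]
    have e2 : ∑ b : V, xk x (Sum.inr a) (Sum.inl b : V ⊕ V × Fin K) = defect x a.1 / K := by
      simp [xk]
    rw [e1, e2, add_zero]
    exact (div_K_le hK (defect_nonneg hx a.1)).trans (defect_le_one hx a.1)

/-- hazard of an item -/
noncomputable def hi (i : G.edgeSet ⊕ V) (t : ℝ) : ℝ := match i with
  | Sum.inl e => h t (Sum.inl (fe e)) (Sum.inl (se e))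
  | Sum.inr v => ∑ k, h t (Sum.inl v) (Sum.inr (v, k))

/-- cumulative hazard of an item -/
noncomputable def Hi (i : G.edgeSet ⊕ V) (t : ℝ) : ℝ := match i with
  | Sum.inl e => H (Sum.inl (fe e)) (Sum.inl (se e)) t
  | Sum.inr v => ∑ k, H (Sum.inl v) (Sum.inr (v, k)) t

/-- acceptance probability of an item -/
noncomputable def accI (i : G.edgeSet ⊕ V) : ℝ → ℝ :=
  cut fun t => hi h i t * Real.exp (-Hi H i t) / wt x i

/-- all laws -/
noncomputable def lwI2 : G.edgeSet ⊕ V → Measure ℝ :=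
  laws (fun e => accI x h H (Sum.inl e)) x (fun v => mixture (defect x v) (accI x h H (Sum.inr v)))

/-- all densities -/
noncomputable def dnI2 (i : G.edgeSet ⊕ V) (t : ℝ) : ℝ := wt x i * accI x h H i t

/-- all hazards -/
noncomputable def hzI2 (i : G.edgeSet ⊕ V) : ℝ → ℝ := cut (hi h i)

theorem lwI2_eq (i : G.edgeSet ⊕ V) : lwI2 x h H i = mixture (wt x i) (accI x h H i) := by
  rcases i with e | v
  · rfl
  · rfl

/-- what the hazards have to satisfy -/
structure Sol (φ : V ⊕ V × Fin K → V ⊕ V × Fin K → ℝ → ℝ) : Prop where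
  hz : Haz h H
  fl : ∀ t ∈ Icc (0 : ℝ) 1, ∀ a b, h t a b * pp h a b t = xk x a b * φ a b t
  z : ∀ t ∈ Icc (0 : ℝ) 1, ∀ a b, xk x a b = 0 → h t a b = 0
  ac : ∀ t ∈ Icc (0 : ℝ) 1, ∀ a b, xk x a b ≠ 0 → φ a b t ≤ Real.exp (H a b t) * pp h a b t
  ps : ∀ t ∈ Icc (0 : ℝ) 1, ∀ a b, xk x a b ≠ 0 → 0 < pp h a b t

variable {x h H} {φ : V ⊕ V × Fin K → V ⊕ V × Fin K → ℝ → ℝ}

theorem Hcont (hh : Haz h H) (a b : V ⊕ V × Fin K) : Continuous (H a b) :=
  continuous_iff_continuousAt.2 fun t => (hh.Hd a b t).continuousAt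

theorem hi_cont (hh : Haz h H) (i : G.edgeSet ⊕ V) : Continuous (hi h i) := by
  rcases i with e | v
  · exact hh.cont _ _
  · exact continuous_finsetSum _ fun k _ => hh.cont _ _

theorem Hi_cont (hh : Haz h H) (i : G.edgeSet ⊕ V) : Continuous (Hi H i) := by
  rcases i with e | v
  · exact Hcont hh _ _
  · exact continuous_finsetSum _ fun k _ => Hcont hh _ _

theorem hi_nonneg (hh : Haz h H) (i : G.edgeSet ⊕ V) (t : ℝ) : 0 ≤ hi h i t := by
  rcases i with e | v
  · exact hh.nonneg _ _ _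
  · exact Finset.sum_nonneg fun k _ => hh.nonneg _ _ _

theorem Hi_deriv (hh : Haz h H) (i : G.edgeSet ⊕ V) (t : ℝ) :
    HasDerivAt (Hi H i) (hi h i t) t := by
  rcases i with e | v
  · exact hh.Hd _ _ t
  · exact HasDerivAt.fun_sum fun k _ => hh.Hd _ _ t

theorem Hi_zero (hh : Haz h H) (i : G.edgeSet ⊕ V) : Hi H i 0 = 0 := by
  rcases i with e | v
  · exact hh.H0 _ _
  · exact Finset.sum_eq_zero fun k _ => hh.H0 _ _

theorem measurable_accI (hh : Haz h H) (i : G.edgeSet ⊕ V) : Measurable (accI x h H i) := by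
  unfold accI
  refine measurable_cut ?_
  refine Measurable.div_const (Measurable.mul ?_ ?_) _
  · exact (hi_cont hh i).measurable
  · exact Real.measurable_exp.comp (Hi_cont hh i).measurable.neg

theorem int_hi (hh : Haz h H) (i : G.edgeSet ⊕ V) {τ : ℝ} (hτ : τ ∈ Icc (0:ℝ) 1) :
    ∫ t in Ico 0 τ, hzI2 h i t = Hi H i τ := by
  unfold hzI2
  rw [integral_cut _ hτ.2, integral_Ico_eq_integral_Ioc, ← intervalIntegral.integral_of_le hτ.1]
  have hFTC := intervalIntegral.integral_eq_sub_of_hasDerivAt (a := 0) (b := τ)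
    (f := fun t => Hi H i t) (f' := fun t => hi h i t)
    (fun t _ => Hi_deriv hh i t) ((hi_cont hh i).intervalIntegrable _ _)
  rw [hFTC]
  simp only [Hi_zero hh, sub_zero]

theorem int_dens2 (hh : Haz h H) (i : G.edgeSet ⊕ V) {τ : ℝ} (hτ : τ ∈ Icc (0:ℝ) 1) :
    ∫ t in Ico 0 τ, hi h i t * Real.exp (-Hi H i t) = 1 - Real.exp (-Hi H i τ) := by
  rw [integral_Ico_eq_integral_Ioc, ← intervalIntegral.integral_of_le hτ.1]
  have hFTC := intervalIntegral.integral_eq_sub_of_hasDerivAt (a := 0) (b := τ)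
    (f := fun t => -Real.exp (-Hi H i t))
    (f' := fun t => hi h i t * Real.exp (-Hi H i t))
    (fun t _ => by
      have h1 : HasDerivAt (fun t => -Real.exp (-Hi H i t))
          (-(Real.exp (-Hi H i t) * -hi h i t)) t := (Hi_deriv hh i t).neg.exp.neg
      refine h1.congr_deriv ?_
      ring)
    ((((hi_cont hh i).mul (Real.continuous_exp.comp (Hi_cont hh i).neg))).intervalIntegrable _ _)
  rw [hFTC]
  simp only [Hi_zero hh]
  simp
  ring

/-- the pointwise bound -/
theorem h_exp_le (hS : Sol x h H φ) (hx : IsFractionalMatching G x) (a b : V ⊕ V × Fin K)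
    {t : ℝ} (ht : t ∈ Icc (0:ℝ) 1) : h t a b * Real.exp (-H a b t) ≤ xk x a b := by
  by_cases hne : xk x a b = 0
  · rw [hS.z t ht a b hne, hne, zero_mul]
  have hw := xk_nonneg x hx a b
  have h1 := hS.fl t ht a b
  have h2 := hS.ac t ht a b hne
  have h3 := hS.ps t ht a b hne
  set P := pp h a b t with hP
  have hE : Real.exp (H a b t) * Real.exp (-H a b t) = 1 := by
    rw [← Real.exp_add, add_neg_cancel, Real.exp_zero]
  have h4 : (h t a b * Real.exp (-H a b t)) * P ≤ xk x a b * P := by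
    calc (h t a b * Real.exp (-H a b t)) * P
        = (h t a b * P) * Real.exp (-H a b t) := by ring
      _ = xk x a b * φ a b t * Real.exp (-H a b t) := by rw [h1]
      _ ≤ xk x a b * (Real.exp (H a b t) * P) * Real.exp (-H a b t) :=
          mul_le_mul_of_nonneg_right (mul_le_mul_of_nonneg_left h2 hw) (Real.exp_pos _).le
      _ = xk x a b * P * (Real.exp (H a b t) * Real.exp (-H a b t)) := by ring
      _ = xk x a b * P := by rw [hE, mul_one]
  exact le_of_mul_le_mul_right h4 h3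

theorem H_nonneg (hh : Haz h H) (a b : V ⊕ V × Fin K) {t : ℝ} (ht : 0 ≤ t) : 0 ≤ H a b t := by
  have key := nonneg_of_forward (a := 0) (s := t)
    (U := fun s => H a b s) (U' := fun s => h s a b)
    (fun r _ => hh.Hd _ _ r) (by simp [hh.H0]) (fun r _ _ => hh.nonneg _ _ _) t ⟨ht, le_rfl⟩
  exact key

theorem hi_exp_le (hS : Sol x h H φ) (hx : IsFractionalMatching G x) (hK : 0 < K)
    (i : G.edgeSet ⊕ V) {t : ℝ} (ht : t ∈ Icc (0:ℝ) 1) :
    hi h i t * Real.exp (-Hi H i t) ≤ wt x i := by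
  rcases i with e | v
  · have h1 := h_exp_le hS hx (Sum.inl (fe e)) (Sum.inl (se e)) ht
    have e5 : xk x (Sum.inl (fe e) : V ⊕ V × Fin K) (Sum.inl (se e)) = x e := xw_rep x e
    rw [e5] at h1
    exact h1
  · have h1 : hi h (Sum.inr v : G.edgeSet ⊕ V) t * Real.exp (-Hi H (Sum.inr v : G.edgeSet ⊕ V) t)
        ≤ ∑ k : Fin K, xk x (Sum.inl v : V ⊕ V × Fin K) (Sum.inr (v, k)) := by
      simp only [hi, Hi]
      rw [Finset.sum_mul]
      refine Finset.sum_le_sum fun k _ => ?_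
      refine le_trans (mul_le_mul_of_nonneg_left (Real.exp_le_exp.2 (neg_le_neg ?_))
        (hS.hz.nonneg _ _ _)) (h_exp_le hS hx (Sum.inl v) (Sum.inr (v, k)) ht)
      exact Finset.single_le_sum (f := fun k => H (Sum.inl v) (Sum.inr (v, k)) t)
        (fun k _ => H_nonneg hS.hz _ _ ht.1) (Finset.mem_univ k)
    refine h1.trans (le_of_eq ?_)
    have hK' : (K : ℝ) ≠ 0 := by positivity
    simp only [xk, if_true, Finset.sum_const, Finset.card_univ, Fintype.card_fin, nsmul_eq_mul]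
    show (K : ℝ) * (defect x v / K) = defect x v
    field_simp

theorem hi_zero (hS : Sol x h H φ) (i : G.edgeSet ⊕ V) {t : ℝ} (ht : t ∈ Icc (0:ℝ) 1)
    (hw : wt x i = 0) : hi h i t = 0 := by
  rcases i with e | v
  · refine hS.z t ht _ _ ?_
    have e5 : xk x (Sum.inl (fe e) : V ⊕ V × Fin K) (Sum.inl (se e)) = x e := xw_rep x e
    rw [e5]; exact hw
  · have hw' : defect x v = 0 := hw
    refine Finset.sum_eq_zero fun k _ => hS.z t ht _ _ ?_
    simp only [xk, if_true, hw', zero_div]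

theorem mul_accI (hS : Sol x h H φ) (i : G.edgeSet ⊕ V) {t : ℝ} (ht : t ∈ Ico (0:ℝ) 1) :
    wt x i * accI x h H i t = hi h i t * Real.exp (-Hi H i t) := by
  unfold accI
  rw [cut_of_mem ht]
  by_cases hx : wt x i = 0
  · have h0 : hi h i t = 0 := hi_zero hS i ⟨ht.1, ht.2.le⟩ hx
    rw [h0]; simp
  · field_simp

theorem accI_le_one (hS : Sol x h H φ) (hx : IsFractionalMatching G x) (hK : 0 < K)
    (i : G.edgeSet ⊕ V) (t : ℝ) : 0 ≤ accI x h H i t ∧ accI x h H i t ≤ 1 := by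
  have hw := wt_nonneg hx i
  unfold accI
  by_cases ht : t ∈ Ico (0:ℝ) 1
  · rw [cut_of_mem ht]
    refine ⟨div_nonneg (mul_nonneg (hi_nonneg hS.hz _ _) (Real.exp_pos _).le) hw, ?_⟩
    exact div_le_one_of_le₀ (hi_exp_le hS hx hK i ⟨ht.1, ht.2.le⟩) hw
  · unfold cut
    rw [Set.indicator_of_notMem ht]
    exact ⟨le_rfl, zero_le_one⟩

theorem ringLawI2 (hS : Sol x h H φ) (hx : IsFractionalMatching G x) (hK : 0 < K)
    (i : G.edgeSet ⊕ V) :
    RingLaw (lwI2 x h H i) (dnI2 x h H i) (hzI2 h i) := by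
  rw [lwI2_eq]
  refine ringLaw_mixture (wt_nonneg hx i) (measurable_accI hS.hz i)
    (fun t => (accI_le_one hS hx hK i t).1) (fun t => (accI_le_one hS hx hK i t).2)
    (measurable_cut (hi_cont hS.hz i).measurable) (fun t => ?_) ?_ (fun τ hτ => ?_)
  · unfold hzI2 cut
    exact Set.indicator_nonneg (fun t _ => hi_nonneg hS.hz _ _) t
  · have h2 : IntegrableOn (hi h i) (Ico 0 1) :=
      ((hi_cont hS.hz i).continuousOn.integrableOn_Icc (a := 0) (b := 1)).mono_set
        Ico_subset_Icc_self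
    refine h2.congr_fun (fun t ht => ?_) measurableSet_Ico
    unfold hzI2
    rw [cut_of_mem ht]
  · rw [int_hi hS.hz i hτ, ← int_dens2 hS.hz i hτ]
    exact setIntegral_congr_fun measurableSet_Ico fun t ht =>
      mul_accI hS i ⟨ht.1, ht.2.trans_le hτ.2⟩

theorem dn_eq2 (hS : Sol x h H φ) (i : G.edgeSet ⊕ V) {t : ℝ} (ht : t ∈ Ico (0:ℝ) 1) :
    dnI2 x h H i t = hzI2 h i t * Real.exp (-∫ q in Ico 0 t, hzI2 h i q) := by
  unfold dnI2
  rw [mul_accI hS i ht, int_hi hS.hz i ⟨ht.1, ht.2.le⟩]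
  unfold hzI2
  rw [cut_of_mem ht]

theorem hzI2_bound (hh : Haz h H) :
    ∃ C, 0 ≤ C ∧ ∀ (f : G.edgeSet ⊕ V) t, |hzI2 h f t| ≤ C := by
  obtain ⟨C, hC⟩ := hh.bdd
  have hC0 : 0 ≤ |C| := abs_nonneg C
  refine ⟨(K + 1) * |C|, by positivity, fun f t => ?_⟩
  unfold hzI2 cut
  by_cases ht : t ∈ Ico (0:ℝ) 1
  · rw [Set.indicator_of_mem ht]
    have h1 : 0 ≤ hi h f t := hi_nonneg hh _ _
    rw [abs_of_nonneg h1]
    rcases f with e | v
    · have := (hC t (Sum.inl (fe e)) (Sum.inl (se e))).trans (le_abs_self C)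
      have h2 : 0 ≤ (K : ℝ) * |C| := by positivity
      show h t (Sum.inl (fe e)) (Sum.inl (se e)) ≤ _
      linarith
    · show ∑ k, h t (Sum.inl v) (Sum.inr (v, k)) ≤ _
      have h2 : ∑ k : Fin K, h t (Sum.inl v) (Sum.inr (v, k)) ≤ ∑ _k : Fin K, |C| :=
        Finset.sum_le_sum fun k _ => (hC _ _ _).trans (le_abs_self C)
      rw [Finset.sum_const, Finset.card_univ, Fintype.card_fin, nsmul_eq_mul] at h2
      linarith
  · rw [Set.indicator_of_notMem ht]
    simp only [abs_zero]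
    positivity

theorem hzI2_int (hh : Haz h H) (f : G.edgeSet ⊕ V) : IntegrableOn (hzI2 h f) (Ico 0 1) := by
  have h2 : IntegrableOn (hi h f) (Ico 0 1) :=
    ((hi_cont hh f).continuousOn.integrableOn_Icc (a := 0) (b := 1)).mono_set
      Ico_subset_Icc_self
  refine h2.congr_fun (fun t ht => ?_) measurableSet_Ico
  unfold hzI2
  rw [cut_of_mem ht]

/-- the ring process satisfies the hierarchy -/
theorem pf_hier2 (hS : Sol x h H φ) (hx : IsFractionalMatching G x) (hK : 0 < K)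
    [∀ i, IsProbabilityMeasure (lwI2 x h H i)] :
    Hier (ends G) (hzI2 h) (pf (ends G) (lwI2 x h H) Finset.univ) := by
  intro W s hs
  rw [pf_eq (ends G) (lwI2 x h H) (dnI2 x h H) (hzI2 h) (ringLawI2 hS hx hK) Finset.univ W hs.2]
  congr 1
  refine Finset.sum_congr rfl fun f _ => ?_
  refine setIntegral_congr_fun measurableSet_Ico fun t ht => ?_
  have ht1 : t ∈ Ico (0:ℝ) 1 := ⟨ht.1, ht.2.trans_le hs.2⟩
  rw [pf_erase (ends G) (lwI2 x h H) (dnI2 x h H) (hzI2 h) (ringLawI2 hS hx hK) Finset.univ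
    (W ∪ ends G f) (Finset.mem_univ f) Finset.subset_union_right (ends_nonempty f)
    ⟨ht1.1, ht1.2.le⟩, dn_eq2 hS f ht1]
  ring

end FinA

end Pool.Agent.RCG.SK
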