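import Pool.Agent.RCG.OwnN
import Pool.Agent.RCG.GamN

/-! Monotonicity and sup bounds of the closures, elementary inequalities
(MP_73ccd0_lc, general graphs). -/

namespace Pool.Agent.RCG

open Set Finset Matrix Pool.Agent.RCRSHalf

set_option linter.unusedSectionVars false

variable {V : Type*} [Fintype V] [DecidableEq V]
variable {h : ℝ → V → V → ℝ} {H : V → V → ℝ → ℝ} {X : V → V → ℝ} {M μ : ℝ → ℝ} {t : ℝ}

/-! ### Monotonicity -/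

theorem mulVec_mono2 {A1 A2 : Matrix V V ℝ} (hA1 : MN A1) (hML : ML A1 A2) {F G : V → ℝ}
    (hF : ∀ b, 0 ≤ F b) (hFG : ∀ b, F b ≤ G b) (b : V) : (A1 *ᵥ F) b ≤ (A2 *ᵥ G) b := by
  refine (mulVec_mono hA1 hFG b).trans ?_
  exact mulVec_mono_mat hML (fun b => (hF b).trans (hFG b)) b

theorem sqn_mono {A1 A2 : Matrix V V ℝ} (hA1 : MN A1) (hA2 : MN A2) (hML : ML A1 A2) (n : ℕ) :
    ML ((A1 * A1) ^ n) ((A2 * A2) ^ n) := by
  induction n with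
  | zero => intro a b; simp
  | succ n ihn =>
    intro a b
    rw [pow_succ, pow_succ]
    simp only [Matrix.mul_apply]
    refine Finset.sum_le_sum fun c _ => ?_
    have hp1 : 0 ≤ ((A1 * A1) ^ n) a c := (MN.pow (hA1.mul hA1) n) a c
    have hq : ∑ j, A1 c j * A1 j b ≤ ∑ j, A2 c j * A2 j b :=
      Finset.sum_le_sum fun j _ => mul_le_mul (hML c j) (hML j b) (hA1 j b) (hA2 c j)
    have hq0 : 0 ≤ ∑ j, A1 c j * A1 j b :=
      Finset.sum_nonneg fun j _ => mul_nonneg (hA1 c j) (hA1 j b)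
    exact mul_le_mul (ihn a c) hq hq0 (hp1.trans (ihn a c))

theorem Res_mono {A1 A2 : Matrix V V ℝ} (hA1 : MN A1) (hA2 : MN A2) (hML : ML A1 A2)
    (r1 : ∀ a, (A1 *ᵥ fun _ => 1) a ≤ 1) (r2 : ∀ a, (A2 *ᵥ fun _ => 1) a ≤ 1) {θ : ℝ}
    (hθ : 0 ≤ θ) (hθ1 : θ < 1) {F G : V → ℝ} (hF : ∀ b, 0 ≤ F b) (hFG : ∀ b, F b ≤ G b) (b : V) :
    Res θ (A1 * A1) F b ≤ Res θ (A2 * A2) G b := by
  unfold Res
  have s1 := Res_summable hθ hθ1 (hA1.mul hA1) (sq_row hA1 r1) hF b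
  have s2 := Res_summable hθ hθ1 (hA2.mul hA2) (sq_row hA2 r2)
    (fun b => (hF b).trans (hFG b)) b
  refine s1.tsum_le_tsum (fun n => ?_) s2
  exact mul_le_mul_of_nonneg_left (mulVec_mono2 (MN.pow (hA1.mul hA1) n)
    (sqn_mono hA1 hA2 hML n) hF hFG b) (pow_nonneg hθ n)

section mono

variable {A1 A2 : Matrix V V ℝ} (hA1 : MN A1) (hA2 : MN A2) (hML : ML A1 A2)
    (r1 : ∀ a, (A1 *ᵥ fun _ => 1) a ≤ 1) (r2 : ∀ a, (A2 *ᵥ fun _ => 1) a ≤ 1) {c κ θ σ m1 m : ℝ}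
    (hG : Good c κ θ σ m1) (hm : m ∈ Icc 0 m1) {F G : V → ℝ} (hF : ∀ b, 0 ≤ F b)
    (hFG : ∀ b, F b ≤ G b)

include hA1 hA2 hML r1 r2 hG hm hF hFG in
theorem Nw_mono (a : V) : Nw c κ θ A1 F m a ≤ Nw c κ θ A2 G m a := by
  have hr0 : ∀ b, 0 ≤ Res θ (A1 * A1) F b := Res_nonneg hG.θ0 (hA1.mul hA1) hF
  have e0 := Res_mono hA1 hA2 hML r1 r2 hG.θ0 hG.θ1 hF hFG
  have e1 := mulVec_mono2 hA1 hML hF hFG a
  have e2 := mulVec_mono2 hA1 hML hr0 e0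
  have e3 := mulVec_mono2 hA1 hML (fun b => mulVec_nonneg hA1 hr0 b) e2
  have e4 := mulVec_mono2 hA1 hML (fun b => mulVec_nonneg hA1 (fun b => mulVec_nonneg hA1 hr0 b) b)
    e3 a
  exact add_le_add (mul_le_mul_of_nonneg_left e1 (b2_nonneg hG.c0 hm.1))
    (mul_le_mul_of_nonneg_left e4 (b4_nonneg hG.c0 hG.κ0 hm.1))

include hA1 hA2 hML r1 r2 hG hm hF hFG in
theorem Yw_mono (a : V) : Yw c κ θ A1 F m a ≤ Yw c κ θ A2 G m a := by
  have hr0 : ∀ b, 0 ≤ Res θ (A1 * A1) F b := Res_nonneg hG.θ0 (hA1.mul hA1) hF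
  have e0 := Res_mono hA1 hA2 hML r1 r2 hG.θ0 hG.θ1 hF hFG
  have e1 := mulVec_mono2 hA1 hML hF hFG
  have e1' := mulVec_mono2 hA1 hML (fun b => mulVec_nonneg hA1 hF b) e1 a
  have e2 := mulVec_mono2 hA1 hML hr0 e0
  have e3 := mulVec_mono2 hA1 hML (fun b => mulVec_nonneg hA1 hr0 b) e2
  have e4 := mulVec_mono2 hA1 hML (fun b => mulVec_nonneg hA1 (fun b => mulVec_nonneg hA1 hr0 b) b)
    e3
  have e5 := mulVec_mono2 hA1 hML (fun b => mulVec_nonneg hA1 (fun b => mulVec_nonneg hA1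
    (fun b => mulVec_nonneg hA1 hr0 b) b) b) e4 a
  exact add_le_add (mul_le_mul_of_nonneg_left e1' (g3_nonneg hG.c0 hm.1))
    (mul_le_mul_of_nonneg_left e5 (g5_nonneg hG.c0 hG.κ0 hm.1))

end mono

theorem Nt_mono (hX : Wt X) {H0 H1 : Finset V} (hH : H0 ⊆ H1) (w : V) {m : ℝ}
    (hm : m ∈ Icc (0 : ℝ) (23 / 20)) (a : V) : Nt X H0 w m a ≤ Nt X H1 w m a :=
  Nw_mono (hX.rm_nonneg _) (hX.rm_nonneg _) (hX.rm_mono hH) (hX.rm_row _) (hX.rm_row _) good1 hm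
    (fun b => Fc_nonneg (hX.nonneg w b)) (fun _ => le_rfl) a

theorem Yt_mono (hX : Wt X) {H0 H1 : Finset V} (hH : H0 ⊆ H1) (w : V) {m : ℝ}
    (hm : m ∈ Icc (0 : ℝ) (23 / 20)) (a : V) : Yt X H0 w m a ≤ Yt X H1 w m a :=
  Yw_mono (hX.rm_nonneg _) (hX.rm_nonneg _) (hX.rm_mono hH) (hX.rm_row _) (hX.rm_row _) good1 hm
    (fun b => Fc_nonneg (hX.nonneg w b)) (fun _ => le_rfl) a

theorem Nt2_mono (hX : Wt X) {H0 H1 : Finset V} (hH : H0 ⊆ H1) (p q : V) {m : ℝ}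
    (hm : m ∈ Icc (0 : ℝ) (23 / 20)) (a : V) : Nt2 X H0 p q m a ≤ Nt2 X H1 p q m a :=
  Nw_mono (hX.rm_nonneg _) (hX.rm_nonneg _) (hX.rm_mono hH) (hX.rm_row _) (hX.rm_row _) good2 hm
    (fun b => Fc_nonneg (add_nonneg (hX.nonneg p b) (hX.nonneg q b))) (fun _ => le_rfl) a

theorem Yt2_mono (hX : Wt X) {H0 H1 : Finset V} (hH : H0 ⊆ H1) (p q : V) {m : ℝ}
    (hm : m ∈ Icc (0 : ℝ) (23 / 20)) (a : V) : Yt2 X H0 p q m a ≤ Yt2 X H1 p q m a :=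
  Yw_mono (hX.rm_nonneg _) (hX.rm_nonneg _) (hX.rm_mono hH) (hX.rm_row _) (hX.rm_row _) good2 hm
    (fun b => Fc_nonneg (add_nonneg (hX.nonneg p b) (hX.nonneg q b))) (fun _ => le_rfl) a

/-! ### Sup bounds -/

theorem Yt_nonneg (hX : Wt X) (H0 : Finset V) (w : V) {m : ℝ}
    (hm : m ∈ Icc (0 : ℝ) (23 / 20)) (a : V) : 0 ≤ Yt X H0 w m a :=
  Yw_nonneg good1 (hX.rm_nonneg H0) (fun b => Fc_nonneg (hX.nonneg w b)) hm a

theorem Nt_nonneg (hX : Wt X) (H0 : Finset V) (w : V) {m : ℝ}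
    (hm : m ∈ Icc (0 : ℝ) (23 / 20)) (a : V) : 0 ≤ Nt X H0 w m a :=
  Nw_nonneg good1 (hX.rm_nonneg H0) (fun b => Fc_nonneg (hX.nonneg w b)) hm a

theorem Yt2_nonneg (hX : Wt X) (H0 : Finset V) (p q : V) {m : ℝ}
    (hm : m ∈ Icc (0 : ℝ) (23 / 20)) (a : V) : 0 ≤ Yt2 X H0 p q m a :=
  Yw_nonneg good2 (hX.rm_nonneg H0) (fun b => Fc_nonneg (add_nonneg (hX.nonneg p b)
    (hX.nonneg q b))) hm a

theorem Nt2_nonneg (hX : Wt X) (H0 : Finset V) (p q : V) {m : ℝ}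
    (hm : m ∈ Icc (0 : ℝ) (23 / 20)) (a : V) : 0 ≤ Nt2 X H0 p q m a :=
  Nw_nonneg good2 (hX.rm_nonneg H0) (fun b => Fc_nonneg (add_nonneg (hX.nonneg p b)
    (hX.nonneg q b))) hm a

theorem poly_sup3 {c κ θ σ y m : ℝ} (hc : 0 ≤ c) (hκ : 0 ≤ κ) (hθ1 : θ < 1) (hσ : 0 ≤ σ)
    (hm : m ∈ Icc (0 : ℝ) (23 / 20))
    (hY : σ * (1 / 6 + c * (23 / 20) ^ 3 / 30)
      + σ / (1 - θ) * (κ * ((23 / 20) ^ 2 / 120 + c * (23 / 20) ^ 5 / 1680)) ≤ y) :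
    σ * g3 c m + σ / (1 - θ) * g5 c κ m ≤ y * m ^ 3 := by
  have hsθ : 0 ≤ σ / (1 - θ) := div_nonneg hσ (by linarith)
  have hp : ∀ n : ℕ, m ^ n ≤ (23 / 20) ^ n := fun n => pow_le_pow_left₀ hm.1 hm.2 n
  have e1 : σ * g3 c m + σ / (1 - θ) * g5 c κ m
      = (σ * (1 / 6 + c * m ^ 3 / 30) + σ / (1 - θ) * (κ * (m ^ 2 / 120 + c * m ^ 5 / 1680)))
        * m ^ 3 := by
    unfold g3 g5; ring
  rw [e1]
  refine mul_le_mul_of_nonneg_right (le_trans ?_ hY) (pow_nonneg hm.1 3)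
  have a1 : σ * (1 / 6 + c * m ^ 3 / 30) ≤ σ * (1 / 6 + c * (23 / 20) ^ 3 / 30) := by
    refine mul_le_mul_of_nonneg_left ?_ hσ
    have := mul_le_mul_of_nonneg_left (hp 3) hc
    linarith
  have a2 : σ / (1 - θ) * (κ * (m ^ 2 / 120 + c * m ^ 5 / 1680))
      ≤ σ / (1 - θ) * (κ * ((23 / 20) ^ 2 / 120 + c * (23 / 20) ^ 5 / 1680)) := by
    refine mul_le_mul_of_nonneg_left (mul_le_mul_of_nonneg_left ?_ hκ) hsθ
    have := mul_le_mul_of_nonneg_left (hp 5) hc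
    have := hp 2
    linarith
  linarith

theorem poly_sup2 {c κ θ σ y m : ℝ} (hc : 0 ≤ c) (hκ : 0 ≤ κ) (hθ1 : θ < 1) (hσ : 0 ≤ σ)
    (hm : m ∈ Icc (0 : ℝ) (23 / 20))
    (hY : σ * (1 / 2 + c * (23 / 20) ^ 3 / 5)
      + σ / (1 - θ) * (κ * ((23 / 20) ^ 2 / 24 + c * (23 / 20) ^ 5 / 210)) ≤ y) :
    σ * b2 c m + σ / (1 - θ) * b4 c κ m ≤ y * m ^ 2 := by
  have hsθ : 0 ≤ σ / (1 - θ) := div_nonneg hσ (by linarith)
  have hp : ∀ n : ℕ, m ^ n ≤ (23 / 20) ^ n := fun n => pow_le_pow_left₀ hm.1 hm.2 n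
  have e1 : σ * b2 c m + σ / (1 - θ) * b4 c κ m
      = (σ * (1 / 2 + c * m ^ 3 / 5) + σ / (1 - θ) * (κ * (m ^ 2 / 24 + c * m ^ 5 / 210)))
        * m ^ 2 := by
    unfold b2 b4; ring
  rw [e1]
  refine mul_le_mul_of_nonneg_right (le_trans ?_ hY) (pow_nonneg hm.1 2)
  have a1 : σ * (1 / 2 + c * m ^ 3 / 5) ≤ σ * (1 / 2 + c * (23 / 20) ^ 3 / 5) := by
    refine mul_le_mul_of_nonneg_left ?_ hσ
    have := mul_le_mul_of_nonneg_left (hp 3) hc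
    linarith
  have a2 : σ / (1 - θ) * (κ * (m ^ 2 / 24 + c * m ^ 5 / 210))
      ≤ σ / (1 - θ) * (κ * ((23 / 20) ^ 2 / 24 + c * (23 / 20) ^ 5 / 210)) := by
    refine mul_le_mul_of_nonneg_left (mul_le_mul_of_nonneg_left ?_ hκ) hsθ
    have := mul_le_mul_of_nonneg_left (hp 5) hc
    have := hp 2
    linarith
  linarith

theorem Yt_sup (hX : Wt X) {H0 : Finset V} {w : V} (hw : w ∉ H0) {m : ℝ}
    (hm : m ∈ Icc (0 : ℝ) (23 / 20)) (a : V) : Yt X H0 w m a ≤ 1351 / 10000 * m ^ 3 :=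
  (Yw_le good1 (hX.rm_nonneg H0) (hX.rm_row H0) (fun b => Fc_nonneg (hX.nonneg w b))
    (sup1 hX hw) hm a).trans
    (poly_sup3 (by norm_num) (by norm_num) (by norm_num) (by norm_num) hm (by norm_num))

theorem Yt2_sup (hX : Wt X) {H0 : Finset V} {p q : V} (hpq : p ≠ q) (hp : p ∉ H0) (hq : q ∉ H0)
    {m : ℝ} (hm : m ∈ Icc (0 : ℝ) (23 / 20)) (a : V) :
    Yt2 X H0 p q m a ≤ 20425 / 100000 * m ^ 3 :=
  (Yw_le good2 (hX.rm_nonneg H0) (hX.rm_row H0) (fun b => Fc_nonneg (add_nonneg (hX.nonneg p b)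
    (hX.nonneg q b))) (sup2 hX hpq hp hq) hm a).trans
    (poly_sup3 (by norm_num) (by norm_num) (by norm_num) (by norm_num) hm (by norm_num))

theorem Nw_le (c κ θ σ : ℝ) {A : Matrix V V ℝ} {F : V → ℝ} {m m1 : ℝ} (hG : Good c κ θ σ m1)
    (hA : MN A) (hrow : ∀ a, (A *ᵥ fun _ => 1) a ≤ 1) (hF : ∀ a, 0 ≤ F a)
    (hσ : ∀ a, (A *ᵥ F) a ≤ σ) (hm : m ∈ Icc 0 m1) (a : V) :
    Nw c κ θ A F m a ≤ σ * b2 c m + σ / (1 - θ) * b4 c κ m := by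
  have hs : 0 ≤ σ / (1 - θ) := div_nonneg hG.σ0 (by linarith [hG.θ1])
  have h1 := hσ a
  have h2 : (A *ᵥ (A *ᵥ (A *ᵥ Res θ (A * A) F))) a ≤ σ / (1 - θ) :=
    A_const_le hA hrow hs (A_const_le hA hrow hs
      (AResA_le hG.θ0 hG.θ1 hA hrow hF hG.σ0 hσ)) a
  unfold Nw
  have := mul_le_mul_of_nonneg_left h1 (b2_nonneg hG.c0 hm.1)
  have := mul_le_mul_of_nonneg_left h2 (b4_nonneg hG.c0 hG.κ0 hm.1)
  linarith

theorem Nt_sup (hX : Wt X) {H0 : Finset V} {w : V} (hw : w ∉ H0) {m : ℝ}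
    (hm : m ∈ Icc (0 : ℝ) (23 / 20)) (a : V) : Nt X H0 w m a ≤ 4416 / 10000 * m ^ 2 :=
  (Nw_le _ _ _ _ good1 (hX.rm_nonneg H0) (hX.rm_row H0) (fun b => Fc_nonneg (hX.nonneg w b))
    (sup1 hX hw) hm a).trans
    (poly_sup2 (by norm_num) (by norm_num) (by norm_num) (by norm_num) hm (by norm_num))

theorem Nt2_sup (hX : Wt X) {H0 : Finset V} {p q : V} (hpq : p ≠ q) (hp : p ∉ H0) (hq : q ∉ H0)
    {m : ℝ} (hm : m ∈ Icc (0 : ℝ) (23 / 20)) (a : V) :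
    Nt2 X H0 p q m a ≤ 6831 / 10000 * m ^ 2 :=
  (Nw_le _ _ _ _ good2 (hX.rm_nonneg H0) (hX.rm_row H0) (fun b => Fc_nonneg (add_nonneg
    (hX.nonneg p b) (hX.nonneg q b))) (sup2 hX hpq hp hq) hm a).trans
    (poly_sup2 (by norm_num) (by norm_num) (by norm_num) (by norm_num) hm (by norm_num))

/-! ### Elementary inequalities -/

theorem exp_two_sub {x : ℝ} (hx : 0 ≤ x) : Real.exp x * (2 - x) ≤ 2 + x := by
  have key := nonneg_of_forward (U := fun s => (2 + s) * Real.exp (-s) - (2 - s))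
    (U' := fun s => 1 * Real.exp (-s) + (2 + s) * (Real.exp (-s) * -1) - (-1)) (a := 0) (s := x)
    (fun s _ => by
      have d1 : HasDerivAt (fun s : ℝ => 2 + s) 1 s := (hasDerivAt_id s).const_add 2
      have d2 : HasDerivAt (fun s : ℝ => Real.exp (-s)) (Real.exp (-s) * -1) s :=
        (hasDerivAt_neg s).exp
      have d3 : HasDerivAt (fun s : ℝ => 2 - s) (-1) s := (hasDerivAt_id s).const_sub 2
      exact (d1.mul d2).sub d3)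
    (by simp) (fun s hs _ => by
      have h1 := Real.add_one_le_exp s
      have h2 : Real.exp (-s) * Real.exp s = 1 := by
        rw [← Real.exp_add, neg_add_cancel, Real.exp_zero]
      have h3 := Real.exp_pos (-s)
      have h4 : Real.exp (-s) * (s + 1) ≤ 1 := by
        calc Real.exp (-s) * (s + 1) ≤ Real.exp (-s) * Real.exp s :=
              mul_le_mul_of_nonneg_left h1 h3.le
          _ = 1 := h2
      linarith) x ⟨hx, le_rfl⟩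
  have h2 : Real.exp x * Real.exp (-x) = 1 := by rw [← Real.exp_add, add_neg_cancel, Real.exp_zero]
  have h3 := mul_nonneg (Real.exp_pos x).le key
  have h4 : Real.exp x * ((2 + x) * Real.exp (-x) - (2 - x))
      = (2 + x) * (Real.exp x * Real.exp (-x)) - Real.exp x * (2 - x) := by ring
  rw [h4, h2] at h3
  linarith

/-- `E(x) E(y) (x + y) ≤ E(x + y) x y` for `E(x) = e^x - 1` -/
theorem exp_pair {x y : ℝ} (hx : 0 ≤ x) (hy : 0 ≤ y) :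
    (Real.exp x - 1) * (Real.exp y - 1) * (x + y) ≤ (Real.exp (x + y) - 1) * (x * y) := by
  have h1 := exp_two_sub hx
  have h2 := exp_two_sub hy
  have a : 0 ≤ Real.exp x - 1 := by have := Real.one_le_exp hx; linarith
  have b : 0 ≤ Real.exp y - 1 := by have := Real.one_le_exp hy; linarith
  -- `x ≥ (1 - x/2) E(x)`
  have k1 : (1 - x / 2) * (Real.exp x - 1) ≤ x := by nlinarith
  have k2 : (1 - y / 2) * (Real.exp y - 1) ≤ y := by nlinarith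
  rw [Real.exp_add]
  have m1 := mul_le_mul_of_nonneg_left k1 (mul_nonneg hy b)
  have m2 := mul_le_mul_of_nonneg_left k2 (mul_nonneg hx a)
  nlinarith

end Pool.Agent.RCG
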