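import Pool.Agent.RCG.NPart

/-! The Gamma part (section 8) (MP_73ccd0_lc, general graphs). -/

namespace Pool.Agent.RCG

open Set Finset Pool.Agent.RCRSHalf

set_option linter.unusedSectionVars false

variable {V : Type*} [Fintype V] [DecidableEq V]
variable {h : ℝ → V → V → ℝ} {H : V → V → ℝ → ℝ}

/-- corner inequality -/
theorem corner {R R' D D' α n p α' n' p' : ℝ} (hR : 0 ≤ R) (hR' : 0 ≤ R') (hα : 0 ≤ α)
    (hαp : α ≤ p) (hn : 0 ≤ n) (hα' : 0 ≤ α') (hαp' : α' ≤ p') (hn' : 0 ≤ n')
    (h1 : (α - n) * R ≤ D) (h2 : D ≤ p * R) (h3 : (α' - n') * R' ≤ D') (h4 : D' ≤ p' * R') :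
    (α * α' - n' * p - n * p') * (R * R') ≤ D * D' := by
  have hRR : 0 ≤ R * R' := mul_nonneg hR hR'
  -- reduce to X = D / R etc. by bilinearity: treat signs
  rcases eq_or_lt_of_le hR with hR0 | hRpos
  · have hD : D = 0 := by
      rw [← hR0, mul_zero] at h1 h2
      exact le_antisymm h2 h1
    rw [← hR0, hD]; simp
  rcases eq_or_lt_of_le hR' with hR0' | hRpos'
  · have hD : D' = 0 := by
      rw [← hR0', mul_zero] at h3 h4
      exact le_antisymm h4 h3
    rw [← hR0', hD]; simp
  obtain ⟨x, rfl⟩ : ∃ x, D = x * R := ⟨D / R, by field_simp⟩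
  obtain ⟨y, rfl⟩ : ∃ y, D' = y * R' := ⟨D' / R', by field_simp⟩
  have a1 := le_of_mul_le_mul_right h1 hRpos
  have a2 := le_of_mul_le_mul_right h2 hRpos
  have a3 := le_of_mul_le_mul_right h3 hRpos'
  have a4 := le_of_mul_le_mul_right h4 hRpos'
  have key : α * α' - n' * p - n * p' ≤ x * y := by
    -- x in [α - n, p], y in [α' - n', p']
    rcases le_total 0 (y - α') with hy | hy
    · -- y ≥ α'
      rcases le_total 0 (x - α) with hx | hx
      · nlinarith [mul_nonneg hx hy, mul_nonneg hα hy, mul_nonneg hα' hx, mul_nonneg hn (hα'.trans hαp'),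
          mul_nonneg hn' (hα.trans hαp)]
      · -- x ≤ α, y ≥ α'
        have b1 : 0 ≤ y := by linarith
        have b2 := mul_nonneg (by linarith : 0 ≤ x - (α - n)) b1
        have b3 := mul_nonneg hn (by linarith : 0 ≤ p' - y)
        have b4 := mul_nonneg hα hy
        have b5 := mul_nonneg hn' (hα.trans hαp)
        nlinarith
    · rcases le_total 0 (x - α) with hx | hx
      · have b1 : 0 ≤ x := by linarith
        have b2 := mul_nonneg (by linarith : 0 ≤ y - (α' - n')) b1
        have b3 := mul_nonneg hn' (by linarith : 0 ≤ p - x)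
        have b4 := mul_nonneg hα' hx
        have b5 := mul_nonneg hn (hα'.trans hαp')
        nlinarith
      · -- x ≤ α, y ≤ α'
        have b1 := mul_nonneg (by linarith : 0 ≤ α - x) (by linarith : 0 ≤ α' - y)
        have b2 := mul_nonneg hα (by linarith : 0 ≤ y - (α' - n'))
        have b3 := mul_nonneg hα' (by linarith : 0 ≤ x - (α - n))
        have b4 := mul_nonneg hn' (by linarith : 0 ≤ p - α)
        have b5 := mul_nonneg hn (by linarith : 0 ≤ p' - α')
        nlinarith
  have := mul_le_mul_of_nonneg_right key hRR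
  refine this.trans (le_of_eq (by ring))

/-- pair gain -/
noncomputable def gA (pa pb : ℝ) : ℝ := 1 - (1 - pa) * (1 - pb)
/-- pair loss -/
noncomputable def gN (pa pb na nb : ℝ) : ℝ := (1 - pa + na) * (1 - pb + nb) - (1 - pa) * (1 - pb)
/-- pair upper bound -/
noncomputable def gP (Pa Pb : ℝ) : ℝ := 1 - ((1 + Pa) * (1 + Pb))⁻¹

/-- coefficient of the pair -/
noncomputable def gC (pu Pu Nu pv Pv Nv : V → ℝ) (a b : V) : ℝ :=
  gA (pu a) (pu b) * gA (pv a) (pv b) - gN (pv a) (pv b) (Nv a) (Nv b) * gP (Pu a) (Pu b)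
    - gN (pu a) (pu b) (Nu a) (Nu b) * gP (Pv a) (Pv b)

/-- relative range of the deviation with base `F \ g` -/
theorem base_range {R : Finset V → ℝ → ℝ} {H0 : Finset V} {t : ℝ} {P N p : V → ℝ → ℝ}
    (hI : Inf H0 t R P N) (hins : ∀ a ∈ H0, InsB a (H0.erase a) t R (p a) (N a))
    {r : ℝ} (hr : r ∈ Icc 0 t) (hR0 : ∀ F, 0 ≤ R F r)
    (hp1 : ∀ a ∈ H0, p a r ≤ 1) {F : Finset V} (hF : F ⊆ H0) {a b : V} (ha : a ∈ F) (hb : b ∈ F)
    (hab : a ≠ b) :
    (gA (p a r) (p b r) - gN (p a r) (p b r) (N a r) (N b r)) * R ((F.erase a).erase b) r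
      ≤ R ((F.erase a).erase b) r - R F r ∧
    R ((F.erase a).erase b) r - R F r ≤ gP (P a r) (P b r) * R ((F.erase a).erase b) r := by
  set G := (F.erase a).erase b with hG
  have hbG : b ∈ F.erase a := Finset.mem_erase.2 ⟨hab.symm, hb⟩
  have hGsub : G ⊆ H0 := (Finset.erase_subset _ _).trans ((Finset.erase_subset _ _).trans hF)
  have e1 : insert b G = F.erase a := Finset.insert_erase hbG
  have e2 : insert a (F.erase a) = F := Finset.insert_erase ha
  have haH := hF ha
  have hbH := hF hb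
  have hG1 : G ⊆ H0.erase b := fun z hz => Finset.mem_erase.2
    ⟨by rintro rfl; exact Finset.notMem_erase _ _ hz, hGsub hz⟩
  have hF1 : F.erase a ⊆ H0.erase a := Finset.erase_subset_erase a hF
  have i1 := (hins b hbH).up G hG1 r hr
  have i2 := (hins a haH).up (F.erase a) hF1 r hr
  rw [e1] at i1
  rw [e2] at i2
  have Na := hI.N0 a haH r hr
  have Nb := hI.N0 b hbH r hr
  have Pa := hI.P0 a haH r hr
  have Pb := hI.P0 b hbH r hr
  have pa := hp1 a haH
  have RG := hR0 G
  constructor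
  · have i3 : R F r ≤ (1 - p a r + N a r) * ((1 - p b r + N b r) * R G r) :=
      i2.trans (mul_le_mul_of_nonneg_left i1 (by linarith))
    unfold gA gN
    nlinarith
  · have j1 := hI.up F hF a ha r hr
    have j2 := hI.up (F.erase a) ((Finset.erase_subset _ _).trans hF) b hbG r hr
    have j3 : R G r ≤ (1 + P b r) * ((1 + P a r) * R F r) :=
      j2.trans (mul_le_mul_of_nonneg_left j1 (by linarith))
    have hpos : 0 < (1 + P a r) * (1 + P b r) := by positivity
    have j4 : ((1 + P a r) * (1 + P b r))⁻¹ * R G r ≤ R F r := by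
      rw [inv_mul_le_iff₀ hpos]
      refine j3.trans (le_of_eq (by ring))
    unfold gP
    linarith

/-- lower bound for the covariance expectation -/
theorem gam_low (hh : Haz h H) {u v : V} {t : ℝ} (ht : t ∈ Icc (0 : ℝ) 1)
    {Pu Nu pu Pv Nv pv : V → ℝ → ℝ}
    (hIu : Inf ({u, v} : Finset V)ᶜ t (RCG.tgt h u t) Pu Nu)
    (hIv : Inf ({u, v} : Finset V)ᶜ t (RCG.tgt h v t) Pv Nv)
    (hinsu : ∀ a ∈ ({u, v} : Finset V)ᶜ,
      InsB a (({u, v} : Finset V)ᶜ.erase a) t (RCG.tgt h u t) (pu a) (Nu a))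
    (hinsv : ∀ a ∈ ({u, v} : Finset V)ᶜ,
      InsB a (({u, v} : Finset V)ᶜ.erase a) t (RCG.tgt h v t) (pv a) (Nv a))
    (hpu0 : ∀ a ∈ ({u, v} : Finset V)ᶜ, ∀ r ∈ Icc 0 t, 0 ≤ pu a r)
    (hpv0 : ∀ a ∈ ({u, v} : Finset V)ᶜ, ∀ r ∈ Icc 0 t, 0 ≤ pv a r)
    (hpu1 : ∀ a ∈ ({u, v} : Finset V)ᶜ, ∀ r ∈ Icc 0 t, 1 ≤ (1 - pu a r) * (1 + Pu a r))
    (hpv1 : ∀ a ∈ ({u, v} : Finset V)ᶜ, ∀ r ∈ Icc 0 t, 1 ≤ (1 - pv a r) * (1 + Pv a r))
    {s : ℝ} (hs : s ∈ Icc 0 t) :
    (1 / 2) * ∑ a ∈ ({u, v} : Finset V)ᶜ, ∑ b ∈ ({u, v} : Finset V)ᶜ, h s a b *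
      gC (fun a => pu a s) (fun a => Pu a s) (fun a => Nu a s) (fun a => pv a s)
        (fun a => Pv a s) (fun a => Nv a s) a b *
        ex (lw h ∅ s) {u, v, a, b} (fun F => RCG.tgt h u t F s * RCG.tgt h v t F s)
      ≤ ex (lw h ∅ s) {u, v} (fun F => cov (h s) (fun G => RCG.tgt h u t G s)
          (fun G => RCG.tgt h v t G s) F) := by
  have hs1 : s ∈ Icc (0 : ℝ) 1 := ⟨hs.1, hs.2.trans ht.2⟩
  have hTu := hh.tgt u ht
  have hTv := hh.tgt v ht
  set c : V → V → ℝ := gC (fun a => pu a s) (fun a => Pu a s) (fun a => Nu a s) (fun a => pv a s)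
        (fun a => Pv a s) (fun a => Nv a s) with hc
  set Ru := RCG.tgt h u t with hRu
  set Rv := RCG.tgt h v t with hRv
  have hone : ∀ {x y : ℝ}, 0 ≤ y → 1 ≤ (1 - x) * (1 + y) → x ≤ 1 := by
    intro x y hy h1
    by_contra hx
    push Not at hx
    nlinarith
  have hμ0 := fun F => (hh.lw (∅ : Finset V)).nonneg F s hs1
  -- pointwise
  have hpt : ∀ F ⊆ ({u, v} : Finset V)ᶜ, (1 / 2) * ∑ a ∈ F, ∑ b ∈ F, h s a b * c a b *
      (Ru ((F.erase a).erase b) s * Rv ((F.erase a).erase b) s)
      ≤ cov (h s) (fun G => Ru G s) (fun G => Rv G s) F := by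
    intro F hF
    unfold cov
    refine mul_le_mul_of_nonneg_left (Finset.sum_le_sum fun a ha => Finset.sum_le_sum fun b hb => ?_)
      (by norm_num)
    by_cases hab : a = b
    · subst hab; rw [hh.diag]; simp
    · obtain ⟨i1, i2⟩ := base_range hIu hinsu hs (fun F => hTu.ev.nonneg F s hs)
        (fun a ha => hone (hIu.P0 a ha s hs) (hpu1 a ha s hs)) hF ha hb hab
      obtain ⟨j1, j2⟩ := base_range hIv hinsv hs (fun F => hTv.ev.nonneg F s hs)
        (fun a ha => hone (hIv.P0 a ha s hs) (hpv1 a ha s hs)) hF ha hb hab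
      have aH := hF ha
      have bH := hF hb
      have gen1 : ∀ {p P N : V → ℝ → ℝ}, (0 ≤ p a s) → (0 ≤ p b s) → (1 ≤ (1 - p a s) * (1 + P a s)) →
          (1 ≤ (1 - p b s) * (1 + P b s)) → 0 ≤ P a s → 0 ≤ P b s → 0 ≤ N a s → 0 ≤ N b s →
          0 ≤ gA (p a s) (p b s) ∧ gA (p a s) (p b s) ≤ gP (P a s) (P b s) ∧
          0 ≤ gN (p a s) (p b s) (N a s) (N b s) := by
        intro p P N q1 q2 q3 q4 q5 q6 q7 q8
        have p1a := hone q5 q3
        have p1b := hone q6 q4
        refine ⟨?_, ?_, ?_⟩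
        · unfold gA; nlinarith
        · unfold gA gP
          have hpos : 0 < (1 + P a s) * (1 + P b s) := by positivity
          have : ((1 + P a s) * (1 + P b s))⁻¹ ≤ (1 - p a s) * (1 - p b s) := by
            rw [inv_le_iff_one_le_mul₀ hpos]
            have := mul_le_mul q3 q4 zero_le_one (by linarith)
            nlinarith
          linarith
        · unfold gN
          have := mul_nonneg q7 (by linarith : 0 ≤ 1 - p b s)
          have := mul_nonneg q8 (by linarith : 0 ≤ 1 - p a s)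
          nlinarith [mul_nonneg q7 q8]
      obtain ⟨k1, k2, k3⟩ := gen1 (p := pu) (P := Pu) (N := Nu) (hpu0 a aH s hs) (hpu0 b bH s hs)
        (hpu1 a aH s hs) (hpu1 b bH s hs) (hIu.P0 a aH s hs) (hIu.P0 b bH s hs)
        (hIu.N0 a aH s hs) (hIu.N0 b bH s hs)
      obtain ⟨l1, l2, l3⟩ := gen1 (p := pv) (P := Pv) (N := Nv) (hpv0 a aH s hs) (hpv0 b bH s hs)
        (hpv1 a aH s hs) (hpv1 b bH s hs) (hIv.P0 a aH s hs) (hIv.P0 b bH s hs)
        (hIv.N0 a aH s hs) (hIv.N0 b bH s hs)
      have := corner (hTu.ev.nonneg ((F.erase a).erase b) s hs)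
        (hTv.ev.nonneg ((F.erase a).erase b) s hs) k1 k2 k3 l1 l2 l3 i1 i2 j1 j2
      have k := mul_le_mul_of_nonneg_left this (hh.nonneg s a b)
      refine le_trans (le_of_eq ?_) k
      simp only [hc, gC]
      ring
  -- expectation
  have e1 : ex (lw h ∅ s) {u, v} (fun F => (1 / 2) * ∑ a ∈ F, ∑ b ∈ F, h s a b * c a b *
      (Ru ((F.erase a).erase b) s * Rv ((F.erase a).erase b) s))
      = (1 / 2) * ∑ a ∈ ({u, v} : Finset V)ᶜ, ∑ b ∈ ({u, v} : Finset V)ᶜ, h s a b * c a b *
        ex (lw h ∅ s) {u, v, a, b} (fun F => Ru F s * Rv F s) := by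
    unfold ex
    have e2 : ∀ F : Finset V, lw h ∅ s F * (if ({u, v} : Finset V) ⊆ F then
        (1 / 2) * ∑ a ∈ F \ {u, v}, ∑ b ∈ F \ {u, v}, h s a b * c a b *
          (Ru (((F \ {u, v}).erase a).erase b) s * Rv (((F \ {u, v}).erase a).erase b) s) else 0)
        = (1 / 2) * ∑ a ∈ ({u, v} : Finset V)ᶜ, ∑ b ∈ ({u, v} : Finset V)ᶜ, h s a b * c a b *
          (lw h ∅ s F * (if ({u, v, a, b} : Finset V) ⊆ F then
            Ru (F \ {u, v, a, b}) s * Rv (F \ {u, v, a, b}) s else 0)) := by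
      intro F
      by_cases hF : ({u, v} : Finset V) ⊆ F
      · rw [if_pos hF, mul_left_comm, Finset.mul_sum]
        congr 1
        have hsubs : F \ {u, v} ⊆ ({u, v} : Finset V)ᶜ := fun z hz =>
          Finset.mem_compl.2 (Finset.mem_sdiff.1 hz).2
        rw [← Finset.sum_subset hsubs]
        · refine Finset.sum_congr rfl fun a ha => ?_
          rw [Finset.mul_sum, ← Finset.sum_subset hsubs]
          · refine Finset.sum_congr rfl fun b hb => ?_
            have h4 : ({u, v, a, b} : Finset V) ⊆ F := by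
              intro z hz
              simp only [Finset.mem_insert, Finset.mem_singleton] at hz
              rcases hz with rfl | rfl | rfl | rfl
              · exact hF (by simp)
              · exact hF (by simp)
              · exact (Finset.mem_sdiff.1 ha).1
              · exact (Finset.mem_sdiff.1 hb).1
            have e5 : ((F \ {u, v}).erase a).erase b = F \ {u, v, a, b} := by
              ext z
              simp only [Finset.mem_erase, Finset.mem_sdiff, Finset.mem_insert,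
                Finset.mem_singleton]
              tauto
            rw [if_pos h4, e5]
            ring
          · intro b hb hbn
            rw [if_neg]
            · ring
            · intro hh'
              exact hbn (Finset.mem_sdiff.2 ⟨hh' (by simp), Finset.mem_compl.1 hb⟩)
        · intro a ha han
          refine Finset.sum_eq_zero fun b hb => ?_
          rw [if_neg]
          · ring
          · intro hh'
            exact han (Finset.mem_sdiff.2 ⟨hh' (by simp), Finset.mem_compl.1 ha⟩)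
      · rw [if_neg hF, mul_zero]
        symm
        rw [Finset.sum_eq_zero, mul_zero]
        intro a _
        refine Finset.sum_eq_zero fun b _ => ?_
        rw [if_neg]
        · ring
        · intro hh'
          exact hF fun z hz => hh' (by
            simp only [Finset.mem_insert, Finset.mem_singleton] at hz ⊢
            tauto)
    rw [Finset.sum_congr rfl fun F _ => e2 F, ← Finset.mul_sum, Finset.sum_comm]
    congr 1
    refine Finset.sum_congr rfl fun a _ => ?_
    rw [Finset.sum_comm]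
    refine Finset.sum_congr rfl fun b _ => ?_
    rw [← Finset.mul_sum]
  rw [← e1]
  refine ex_mono hμ0 fun F hF _ => hpt _ fun z hz => Finset.mem_compl.2 (Finset.mem_sdiff.1 hz).2

end Pool.Agent.RCG
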