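import Pool.Agent.RCG.FamY
import Pool.Agent.RCG.GamN

/-! The cost `Γ`, family version, in number form (MP_73ccd0_lc, general graphs). -/

namespace Pool.Agent.RCG

open Set Finset Matrix Pool.Agent.RCRSHalf

set_option linter.unusedSectionVars false

variable {V : Type*} [Fintype V] [DecidableEq V]
variable {h : ℝ → V → V → ℝ} {H : V → V → ℝ → ℝ} {X : V → V → ℝ} {M μ : ℝ → ℝ} {t : ℝ}

/-- flux of the pair divided by the deletion value of `a` -/
noncomputable def fw (h : ℝ → V → V → ℝ) (a b : V) (s : ℝ) : ℝ := dE h a b s * Wr h a b s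

theorem fw_nonneg (hh : Haz h H) {a b : V} (hab : a ≠ b) {s : ℝ} (hs : s ∈ Icc (0 : ℝ) 1) :
    0 ≤ fw h a b s := mul_nonneg (dE_nonneg hh a b hs) (Wr_pos hh hab hs).le

/-- Second level: the later match of `a` with `c` influences `v`. -/
theorem Cx.xl_num (hC : Cx h H X M μ t) {u v a b c : V} (huv : u ≠ v) (hua : u ≠ a)
    (hub : u ≠ b) (huc : u ≠ c) (hva : v ≠ a) (hvb : v ≠ b) (hvc : v ≠ c) (hab : a ≠ b)
    (hac : a ≠ c) (hbc : b ≠ c) {s r : ℝ} (hs : s ∈ Icc 0 t) (hr : r ∈ Icc s t)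
    {Yb Nc Av Ma bu bv : ℝ} {Qc Mc B2 B3 B5 : ℝ → ℝ}
    (hYb : bb h {u, v, a, c} b s
      ≤ Real.exp (H u b s + H v b s + H b c s + Yb) * bb h {a} b s)
    (hMa : bb h {u, v, b, c} a r ≤ Real.exp (H u a s + H v a r) * Ma * bb h {c} a r)
    (hQc : ∀ q ∈ Icc r t, Real.exp (-Qc q) * (bb h {c} v q * bb h {v} c q)
      ≤ Real.exp (H v c q) * pp h v c q)
    (hMc : ∀ q ∈ Icc r t, bb h {u, v, b, a} c q ≤ Mc q * bb h {v} c q)
    (hpx : px h {v, b, a, c} u c t s ≤ bu * (Real.exp (H u c s) * Nc))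
    (hAv : bb h {u, b, a, c} v t ≤ Av * bv)
    (hMc0 : ∀ q ∈ Icc r t, 0 ≤ Mc q)
    (hB2 : ∀ q ∈ Icc r t, Exi (cru2 h H X M ({u, v, b, a, c} : Finset V)ᶜ v t c q) r q (B2 q))
    (hB3 : ∀ q ∈ Icc r t,
      Exi (cru3e h H X M ({u, v, b, a, c} : Finset V)ᶜ b v t a r c q) s r (B3 q))
    (hB5 : ∀ q ∈ Icc r t, Exq (cru5f h H X M u v b a c t s r q) s (B5 q))
    {Φ φ : ℝ → ℝ} (hΦ : ∀ q ∈ Icc r t, HasDerivAt Φ (φ q) q)
    (hφ : ∀ q ∈ Icc r t, (fw h v c q * Real.exp (Qc q)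
      + yw h X M ({u, v, b, a, c} : Finset V)ᶜ v c t q * (Real.exp (-H v c q) * bb h {v} c q))
        * (Mc q * Real.exp (B2 q + B3 q + B5 q)) ≤ φ q) :
    ex (lw h ∅ s) {u, v, a, b} (fun G => RCG.tgt h u t G s * xl h v a b c t s r G)
      ≤ Real.exp (-(H u v s + H a b s) + Yb) * bb h {a} b s * (bu * bv * (Nc * Av)) *
        (Real.exp (-H a c r) * bb h {c} a r * Ma) * (Φ t - Φ r) := by
  have hh := hC.hh
  have hs1 := hC.mem hs
  have hr0 : r ∈ Icc 0 t := ⟨hs.1.trans hr.1, hr.2⟩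
  have hr1 := hC.mem hr0
  have ht1 := hC.ht
  set K : ℝ := Real.exp (-(H u v s + H a b s) + Yb) * bb h {a} b s * (bu * bv * (Nc * Av)) *
        (Real.exp (-H a c r) * bb h {c} a r * Ma) with hK
  have hpx0 := px_nonneg hh {v, b, a, c} u c ht1 hs
  have hv0 := bb_nonneg hh {u, b, a, c} v ht1
  have hb0 := bb_nonneg hh {u, v, a, c} b hs1
  have ha0 := bb_nonneg hh {u, v, b, c} a hr1
  have h1 := hC.xlE huv hua hub huc hva hvb hvc hab hac hbc hs hr hB2 hB3 hB5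
    (Ψ := fun q => K * Φ q) (ψ := fun q => K * φ q) (fun q hq => (hΦ q hq).const_mul K) ?_
  · refine h1.trans (le_of_eq ?_); ring
  intro q hq
  have hq0 : q ∈ Icc 0 t := ⟨hr0.1.trans hq.1, hq.2⟩
  have hq1 := hC.mem hq0
  have hy0 : 0 ≤ yw h X M ({u, v, b, a, c} : Finset V)ᶜ v c t q := hC.yw_nonneg (by simp) hq0
  have hz := hz_dE hh hvc hq1 (hQc q hq)
  have hc0 := bb_nonneg hh {u, v, b, a} c hq1
  have hcv0 := bb_nonneg hh {v} c hq1
  have hhv := hh.nonneg q v c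
  -- the part at `q`
  have e1 : (h q v c + yw h X M ({u, v, b, a, c} : Finset V)ᶜ v c t q)
        * (Real.exp (-H v c q) * bb h {u, v, b, a} c q)
      ≤ (fw h v c q * Real.exp (Qc q)
      + yw h X M ({u, v, b, a, c} : Finset V)ᶜ v c t q * (Real.exp (-H v c q) * bb h {v} c q))
        * Mc q := by
    have hM0 := hMc0 q hq
    calc (h q v c + yw h X M ({u, v, b, a, c} : Finset V)ᶜ v c t q)
          * (Real.exp (-H v c q) * bb h {u, v, b, a} c q)
        ≤ (h q v c + yw h X M ({u, v, b, a, c} : Finset V)ᶜ v c t q)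
          * (Real.exp (-H v c q) * (Mc q * bb h {v} c q)) := by
          have := hMc q hq
          gcongr
      _ = (h q v c * (Real.exp (-H v c q) * bb h {v} c q)
          + yw h X M ({u, v, b, a, c} : Finset V)ᶜ v c t q * (Real.exp (-H v c q) * bb h {v} c q))
          * Mc q := by ring
      _ ≤ _ := by
          unfold fw
          gcongr
  -- the part not depending on `q`
  have e2 : Real.exp (-(H v a r + H a c r) - (H u v s + H u b s + H u a s + H u c s + H v b s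
        + H b a s + H b c s)) *
      (px h {v, b, a, c} u c t s * bb h {u, b, a, c} v t * bb h {u, v, a, c} b s *
        bb h {u, v, b, c} a r) ≤ K := by
    calc Real.exp (-(H v a r + H a c r) - (H u v s + H u b s + H u a s + H u c s + H v b s
          + H b a s + H b c s)) *
        (px h {v, b, a, c} u c t s * bb h {u, b, a, c} v t * bb h {u, v, a, c} b s *
          bb h {u, v, b, c} a r)
        ≤ Real.exp (-(H v a r + H a c r) - (H u v s + H u b s + H u a s + H u c s + H v b s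
          + H b a s + H b c s)) *
        ((bu * (Real.exp (H u c s) * Nc)) * (Av * bv) *
          (Real.exp (H u b s + H v b s + H b c s + Yb) * bb h {a} b s) *
          (Real.exp (H u a s + H v a r) * Ma * bb h {c} a r)) := by
          refine mul_le_mul_of_nonneg_left ?_ (Real.exp_pos _).le
          have m1 := mul_le_mul hpx hAv hv0 (hpx0.trans hpx)
          have m2 := mul_le_mul m1 hYb hb0 ((mul_nonneg hpx0 hv0).trans m1)
          exact mul_le_mul m2 hMa ha0 ((mul_nonneg (mul_nonneg hpx0 hv0) hb0).trans m2)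
      _ = (Real.exp (-(H v a r + H a c r) - (H u v s + H u b s + H u a s + H u c s + H v b s
          + H b a s + H b c s)) * Real.exp (H u c s) * Real.exp (H u b s + H v b s + H b c s + Yb)
          * Real.exp (H u a s + H v a r)) *
          (bb h {a} b s * (bu * bv * (Nc * Av)) * (bb h {c} a r * Ma)) := by ring
      _ = (Real.exp (-(H u v s + H a b s) + Yb) * Real.exp (-H a c r)) *
          (bb h {a} b s * (bu * bv * (Nc * Av)) * (bb h {c} a r * Ma)) := by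
          rw [← Real.exp_add, ← Real.exp_add, ← Real.exp_add, ← Real.exp_add, hh.Hsymm b a]
          congr 2
          ring
      _ = K := by rw [hK]; ring
  have hφ0 := hφ q hq
  have hK0 : 0 ≤ K := le_trans (by positivity) e2
  refine le_trans ?_ (mul_le_mul_of_nonneg_left hφ0 hK0)
  have e3 : (h q v c + ∑ d ∈ ({u, v, b, a, c} : Finset V)ᶜ,
          h q c d * Nt X ({u, v, b, a, c} : Finset V)ᶜ v (M t - M q) d) *
      Real.exp (-(H v c q - H v c r) + B2 q) *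
        (Real.exp (-((H v a r + H v c r + H a c r) - (H v a s + H v c s + H a c s)) + B3 q) *
          (Real.exp (-(H u v s + H u b s + H u a s + H u c s + H v b s + H v a s + H v c s
            + H b a s + H b c s + H a c s) + B5 q) *
          (px h {v, b, a, c} u c t s * bb h {u, b, a, c} v t * bb h {u, v, a, c} b s *
            bb h {u, v, b, c} a r * bb h {u, v, b, a} c q)))
      = (Real.exp (-(H v a r + H a c r) - (H u v s + H u b s + H u a s + H u c s + H v b s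
        + H b a s + H b c s)) *
      (px h {v, b, a, c} u c t s * bb h {u, b, a, c} v t * bb h {u, v, a, c} b s *
        bb h {u, v, b, c} a r)) *
        (((h q v c + yw h X M ({u, v, b, a, c} : Finset V)ᶜ v c t q)
          * (Real.exp (-H v c q) * bb h {u, v, b, a} c q)) * Real.exp (B2 q + B3 q + B5 q)) := by
    have e4 : Real.exp (-(H v c q - H v c r) + B2 q) *
        Real.exp (-((H v a r + H v c r + H a c r) - (H v a s + H v c s + H a c s)) + B3 q) *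
        Real.exp (-(H u v s + H u b s + H u a s + H u c s + H v b s + H v a s + H v c s
            + H b a s + H b c s + H a c s) + B5 q)
        = Real.exp (-(H v a r + H a c r) - (H u v s + H u b s + H u a s + H u c s + H v b s
        + H b a s + H b c s)) * Real.exp (-H v c q) * Real.exp (B2 q + B3 q + B5 q) := by
      rw [← Real.exp_add, ← Real.exp_add, ← Real.exp_add, ← Real.exp_add]
      congr 1
      ring
    unfold yw
    linear_combination ((h q v c + ∑ d ∈ ({u, v, b, a, c} : Finset V)ᶜ,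
          h q c d * Nt X ({u, v, b, a, c} : Finset V)ᶜ v (M t - M q) d) *
      (px h {v, b, a, c} u c t s * bb h {u, b, a, c} v t * bb h {u, v, a, c} b s *
            bb h {u, v, b, c} a r * bb h {u, v, b, a} c q)) * e4
  rw [e3]
  have e5 : ((h q v c + yw h X M ({u, v, b, a, c} : Finset V)ᶜ v c t q)
          * (Real.exp (-H v c q) * bb h {u, v, b, a} c q)) * Real.exp (B2 q + B3 q + B5 q)
      ≤ (fw h v c q * Real.exp (Qc q)
      + yw h X M ({u, v, b, a, c} : Finset V)ᶜ v c t q * (Real.exp (-H v c q) * bb h {v} c q))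
        * (Mc q * Real.exp (B2 q + B3 q + B5 q)) := by
    rw [← mul_assoc _ (Mc q)]
    exact mul_le_mul_of_nonneg_right e1 (Real.exp_pos _).le
  exact mul_le_mul e2 e5 (by positivity) hK0

/-- One half of the cost of the pair `(a, b)`, family version: `a` is the vertex whose later match
influences `v`. -/
theorem Cx.T_boundF (hC : Cx h H X M μ t) {u v a b : V} (huv : u ≠ v) (hua : u ≠ a) (hub : u ≠ b)
    (hva : v ≠ a) (hvb : v ≠ b) (hab : a ≠ b) {s : ℝ} (hs : s ∈ Icc 0 t)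
    {Qb Yb Au : ℝ} {Nc Av : V → ℝ} {Qa Ma Qc Mc : V → ℝ → ℝ} {B2 B3 B5 : V → ℝ → ℝ → ℝ}
    (hQb : Real.exp (-Qb) * (bb h {b} a s * bb h {a} b s) ≤ Real.exp (H a b s) * pp h a b s)
    (hYb : ∀ c ∈ ({u, v, a, b} : Finset V)ᶜ,
      bb h {u, v, a, c} b s ≤ Real.exp (H u b s + H v b s + H b c s + Yb) * bb h {a} b s)
    (hQa : ∀ c ∈ ({u, v, a, b} : Finset V)ᶜ, ∀ r ∈ Icc s t,
      Real.exp (-Qa c r) * (bb h {a} c r * bb h {c} a r) ≤ Real.exp (H c a r) * pp h c a r)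
    (hMa : ∀ c ∈ ({u, v, a, b} : Finset V)ᶜ, ∀ r ∈ Icc s t,
      bb h {u, v, b, c} a r ≤ Real.exp (H u a s + H v a r) * Ma c r * bb h {c} a r)
    (hQc : ∀ c ∈ ({u, v, a, b} : Finset V)ᶜ, ∀ q ∈ Icc s t,
      Real.exp (-Qc c q) * (bb h {c} v q * bb h {v} c q) ≤ Real.exp (H v c q) * pp h v c q)
    (hMc : ∀ c ∈ ({u, v, a, b} : Finset V)ᶜ, ∀ q ∈ Icc s t,
      bb h {u, v, b, a} c q ≤ Mc c q * bb h {v} c q)
    (hpx : ∀ c ∈ ({u, v, a, b} : Finset V)ᶜ,
      px h {v, b, a, c} u c t s ≤ bb h {v, b, a} u t * (Real.exp (H u c s) * Nc c))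
    (hAu : bb h {v, b, a} u t ≤ Au * bb h {v} u t)
    (hAv : ∀ c ∈ ({u, v, a, b} : Finset V)ᶜ, bb h {u, b, a, c} v t ≤ Av c * bb h {u} v t)
    (hMa0 : ∀ c ∈ ({u, v, a, b} : Finset V)ᶜ, ∀ r ∈ Icc s t, 0 ≤ Ma c r)
    (hMc0 : ∀ c ∈ ({u, v, a, b} : Finset V)ᶜ, ∀ q ∈ Icc s t, 0 ≤ Mc c q)
    (hNA : ∀ c ∈ ({u, v, a, b} : Finset V)ᶜ, 0 ≤ Nc c * Av c)
    (hB2 : ∀ c ∈ ({u, v, a, b} : Finset V)ᶜ, ∀ r ∈ Icc s t, ∀ q ∈ Icc r t,
      Exi (cru2 h H X M ({u, v, b, a, c} : Finset V)ᶜ v t c q) r q (B2 c r q))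
    (hB3 : ∀ c ∈ ({u, v, a, b} : Finset V)ᶜ, ∀ r ∈ Icc s t, ∀ q ∈ Icc r t,
      Exi (cru3e h H X M ({u, v, b, a, c} : Finset V)ᶜ b v t a r c q) s r (B3 c r q))
    (hB5 : ∀ c ∈ ({u, v, a, b} : Finset V)ᶜ, ∀ r ∈ Icc s t, ∀ q ∈ Icc r t,
      Exq (cru5f h H X M u v b a c t s r q) s (B5 c r q))
    {Φ φ : V → ℝ → ℝ → ℝ}
    (hΦ : ∀ c ∈ ({u, v, a, b} : Finset V)ᶜ, ∀ r ∈ Icc s t, ∀ q ∈ Icc r t,
      HasDerivAt (Φ c r) (φ c r q) q)
    (hφ : ∀ c ∈ ({u, v, a, b} : Finset V)ᶜ, ∀ r ∈ Icc s t, ∀ q ∈ Icc r t,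
      (fw h v c q * Real.exp (Qc c q)
      + yw h X M ({u, v, b, a, c} : Finset V)ᶜ v c t q * (Real.exp (-H v c q) * bb h {v} c q))
        * (Mc c q * Real.exp (B2 c r q + B3 c r q + B5 c r q)) ≤ φ c r q)
    {Ψ ψ : ℝ → ℝ} (hΨ : ∀ r ∈ Icc s t, HasDerivAt Ψ (ψ r) r)
    (hψ : ∀ r ∈ Icc s t, ∑ c ∈ ({u, v, a, b} : Finset V)ᶜ,
      fw h c a r * Real.exp (Qa c r) * (Ma c r * (Nc c * Av c)) * (Φ c r t - Φ c r r) ≤ ψ r) :
    Real.exp (H u v s) * (h s a b *
        ex (lw h ∅ s) {u, v, a, b} (fun G => RCG.tgt h u t G s * xg h v a b t s G))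
      ≤ bb h {v} u t * bb h {u} v t *
        (Au * (fw h a b s * Real.exp (Qb + Yb)) * (Ψ t - Ψ s)) := by
  have hh := hC.hh
  have hs1 := hC.mem hs
  have ht1 := hC.ht
  have hbu0 := bb_nonneg hh {v, b, a} u ht1
  have hbv0 := bb_nonneg hh {u} v ht1
  have hbu1 := bb_nonneg hh {v} u ht1
  have hab0 := bb_nonneg hh {a} b hs1
  have hmem : ∀ c ∈ ({u, v, a, b} : Finset V)ᶜ, u ≠ c ∧ v ≠ c ∧ a ≠ c ∧ b ≠ c := by
    intro c hc
    simp only [Finset.mem_compl, Finset.mem_insert, Finset.mem_singleton, not_or] at hc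
    exact ⟨Ne.symm hc.1, Ne.symm hc.2.1, Ne.symm hc.2.2.1, Ne.symm hc.2.2.2⟩
  -- nonnegativity
  have hφ0 : ∀ c ∈ ({u, v, a, b} : Finset V)ᶜ, ∀ r ∈ Icc s t, ∀ q ∈ Icc r t, 0 ≤ φ c r q := by
    intro c hc r hr q hq
    obtain ⟨c1, c2, c3, c4⟩ := hmem c hc
    have hq0 : q ∈ Icc 0 t := ⟨hs.1.trans (hr.1.trans hq.1), hq.2⟩
    have hq1 := hC.mem hq0
    refine le_trans ?_ (hφ c hc r hr q hq)
    have i1 := fw_nonneg hh c2 hq1
    have i2 : 0 ≤ yw h X M ({u, v, b, a, c} : Finset V)ᶜ v c t q := hC.yw_nonneg (by simp) hq0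
    have i3 := bb_nonneg hh {v} c hq1
    have i4 := hMc0 c hc q ⟨hr.1.trans hq.1, hq.2⟩
    positivity
  have hΦ0 : ∀ c ∈ ({u, v, a, b} : Finset V)ᶜ, ∀ r ∈ Icc s t, 0 ≤ Φ c r t - Φ c r r := by
    intro c hc r hr
    exact nonneg_of_forward (U := fun q => Φ c r q - Φ c r r) (U' := φ c r) (a := r) (s := t)
      (fun q hq => (hΦ c hc r hr q hq).sub_const _) (by simp)
      (fun q hq _ => hφ0 c hc r hr q hq) t ⟨hr.2, le_rfl⟩
  have hψ0 : ∀ r ∈ Icc s t, 0 ≤ ψ r := by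
    intro r hr
    refine le_trans (Finset.sum_nonneg fun c hc => ?_) (hψ r hr)
    obtain ⟨c1, c2, c3, c4⟩ := hmem c hc
    have i1 := fw_nonneg hh c3.symm (hC.mem ⟨hs.1.trans hr.1, hr.2⟩)
    have i2 := hMa0 c hc r hr
    have i3 := hNA c hc
    have i4 := hΦ0 c hc r hr
    positivity
  have hΨ0 : 0 ≤ Ψ t - Ψ s :=
    nonneg_of_forward (U := fun q => Ψ q - Ψ s) (U' := ψ) (a := s) (s := t)
      (fun q hq => (hΨ q hq).sub_const _) (by simp)
      (fun q hq _ => hψ0 q hq) t ⟨hs.2, le_rfl⟩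
  -- the constant
  obtain ⟨K0, hK0⟩ : ∃ K0, K0 = Real.exp (-(H u v s + H a b s) + Yb) * bb h {a} b s *
      (bb h {v, b, a} u t * bb h {u} v t) := ⟨_, rfl⟩
  have hK00 : 0 ≤ K0 := by rw [hK0]; positivity
  have key := hC.xgE huv hua hub hs
    (Y := fun c r => K0 * (Real.exp (-H a c r) * bb h {c} a r) * (Ma c r * (Nc c * Av c)) *
      (Φ c r t - Φ c r r))
    (fun c hc r hr => by
      obtain ⟨c1, c2, c3, c4⟩ := hmem c hc
      have := hC.xl_num huv hua hub c1 hva hvb c2 hab c3 c4 hs hr (hYb c hc) (hMa c hc r hr)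
        (fun q hq => hQc c hc q ⟨hr.1.trans hq.1, hq.2⟩)
        (fun q hq => hMc c hc q ⟨hr.1.trans hq.1, hq.2⟩) (hpx c hc) (hAv c hc)
        (fun q hq => hMc0 c hc q ⟨hr.1.trans hq.1, hq.2⟩)
        (hB2 c hc r hr) (hB3 c hc r hr) (hB5 c hc r hr) (hΦ c hc r hr) (hφ c hc r hr)
      refine this.trans (le_of_eq ?_)
      rw [hK0]; ring)
    (Ψ := fun r => K0 * Ψ r) (ψ := fun r => K0 * ψ r) (fun r hr => (hΨ r hr).const_mul K0)
    (fun r hr => by
      have hr1 := hC.mem (⟨hs.1.trans hr.1, hr.2⟩ : r ∈ Icc 0 t)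
      refine le_trans ?_ (mul_le_mul_of_nonneg_left (hψ r hr) hK00)
      rw [Finset.mul_sum]
      refine Finset.sum_le_sum fun c hc => ?_
      obtain ⟨c1, c2, c3, c4⟩ := hmem c hc
      have hz := hz_dE hh c3.symm hr1 (hQa c hc r hr)
      rw [hh.symm r c a, hh.Hsymm c a] at hz
      have i2 := hMa0 c hc r hr
      have i3 := hNA c hc
      have i4 := hΦ0 c hc r hr
      calc h r a c * (K0 * (Real.exp (-H a c r) * bb h {c} a r) * (Ma c r * (Nc c * Av c)) *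
            (Φ c r t - Φ c r r))
          = K0 * ((h r a c * (Real.exp (-H a c r) * bb h {c} a r)) * (Ma c r * (Nc c * Av c)) *
            (Φ c r t - Φ c r r)) := by ring
        _ ≤ K0 * ((dE h c a r * Wr h c a r * Real.exp (Qa c r)) * (Ma c r * (Nc c * Av c)) *
            (Φ c r t - Φ c r r)) := by gcongr
        _ = _ := by unfold fw; ring)
  have hz := hz_dE hh hab hs1 hQb
  have hhab := hh.nonneg s a b
  have hfw := fw_nonneg hh hab hs1
  calc Real.exp (H u v s) * (h s a b *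
        ex (lw h ∅ s) {u, v, a, b} (fun G => RCG.tgt h u t G s * xg h v a b t s G))
      ≤ Real.exp (H u v s) * (h s a b * (K0 * Ψ t - K0 * Ψ s)) := by gcongr
    _ = (bb h {v, b, a} u t * bb h {u} v t) *
        (h s a b * (Real.exp (-H a b s) * bb h {a} b s)) * Real.exp Yb * (Ψ t - Ψ s) := by
        have e1 : Real.exp (-(H u v s + H a b s) + Yb)
            = Real.exp (-H u v s) * Real.exp (-H a b s) * Real.exp Yb := by
          rw [← Real.exp_add, ← Real.exp_add]; congr 1; ring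
        have e2 : Real.exp (H u v s) * Real.exp (-H u v s) = 1 := by
          rw [← Real.exp_add, add_neg_cancel, Real.exp_zero]
        rw [hK0, e1]
        linear_combination (h s a b * Real.exp (-H a b s) * Real.exp Yb * bb h {a} b s *
          (bb h {v, b, a} u t * bb h {u} v t) * (Ψ t - Ψ s)) * e2
    _ ≤ ((Au * bb h {v} u t) * bb h {u} v t) *
        (fw h a b s * Real.exp Qb) * Real.exp Yb * (Ψ t - Ψ s) := by
        have hz' : h s a b * (Real.exp (-H a b s) * bb h {a} b s) ≤ fw h a b s * Real.exp Qb := hz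
        have i0 : 0 ≤ Au * bb h {v} u t := hbu0.trans hAu
        gcongr
    _ = _ := by rw [Real.exp_add]; ring

/-- Assembly of the cost, family version, with the factors `θ`. -/
theorem Cx.gamF (hC : Cx h H X M μ t) {u v : V} (huv : u ≠ v) {θv θu : V → V → ℝ → ℝ}
    (hθv0 : ∀ s ∈ Icc 0 t, ∀ a b, 0 ≤ θv a b s) (hθu0 : ∀ s ∈ Icc 0 t, ∀ a b, 0 ≤ θu a b s)
    (hθv : ∀ a ∈ ({u, v} : Finset V)ᶜ, ∀ b ∈ ({u, v} : Finset V)ᶜ, a ≠ b → X a b ≠ 0 →
      ∀ s ∈ Icc 0 t, ∀ G ⊆ ({u, v, a, b} : Finset V)ᶜ,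
      RCG.tgt h v t (insert a (insert b G)) s - RCG.tgt h v t G s
        ≤ θv a b s * xg h v a b t s G + θv b a s * xg h v b a t s G)
    (hθu : ∀ a ∈ ({u, v} : Finset V)ᶜ, ∀ b ∈ ({u, v} : Finset V)ᶜ, a ≠ b → X a b ≠ 0 →
      ∀ s ∈ Icc 0 t, ∀ G ⊆ ({u, v, a, b} : Finset V)ᶜ,
      RCG.tgt h u t (insert a (insert b G)) s - RCG.tgt h u t G s
        ≤ θu a b s * xg h u a b t s G + θu b a s * xg h u b a t s G)
    {Tv Tu : V → V → ℝ → ℝ}
    (hTv : ∀ s ∈ Icc 0 t, ∀ a ∈ ({u, v} : Finset V)ᶜ, ∀ b ∈ ({u, v} : Finset V)ᶜ, a ≠ b →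
      X a b ≠ 0 → Real.exp (H u v s) * (h s a b *
        ex (lw h ∅ s) {u, v, a, b} (fun G => RCG.tgt h u t G s * xg h v a b t s G))
      ≤ bb h {v} u t * bb h {u} v t * Tv a b s)
    (hTu : ∀ s ∈ Icc 0 t, ∀ a ∈ ({u, v} : Finset V)ᶜ, ∀ b ∈ ({u, v} : Finset V)ᶜ, a ≠ b →
      X a b ≠ 0 → Real.exp (H u v s) * (h s a b *
        ex (lw h ∅ s) {u, v, a, b} (fun G => RCG.tgt h v t G s * xg h u a b t s G))
      ≤ bb h {v} u t * bb h {u} v t * Tu a b s)
    (hT0 : ∀ s ∈ Icc 0 t, ∀ a b, 0 ≤ Tv a b s ∧ 0 ≤ Tu a b s)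
    {Γ g : ℝ → ℝ} (hΓ : ∀ s ∈ Icc 0 t, HasDerivAt Γ (g s) s)
    (hg : ∀ s ∈ Icc 0 t, ∑ a ∈ ({u, v} : Finset V)ᶜ, ∑ b ∈ ({u, v} : Finset V)ᶜ,
      (gP (Pt H X M ({u, v} : Finset V)ᶜ u t a s) (Pt H X M ({u, v} : Finset V)ᶜ u t b s)
          * (θv a b s * Tv a b s)
        + gP (Pt H X M ({u, v} : Finset V)ᶜ v t a s) (Pt H X M ({u, v} : Finset V)ᶜ v t b s)
          * (θu a b s * Tu a b s)) ≤ g s) :
    bb h {v} u t * bb h {u} v t * (1 - (Γ t - Γ 0)) ≤ Real.exp (H u v t) * pp h u v t := by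
  have hh := hC.hh
  have ht : t ∈ Icc 0 t := ⟨hC.t0, le_rfl⟩
  have hab4 : ∀ a b : V, ({u, v, b, a} : Finset V) = {u, v, a, b} := fun a b => by
    ext z; simp only [Finset.mem_insert, Finset.mem_singleton]; tauto
  have hbb : 0 ≤ bb h {v} u t * bb h {u} v t :=
    mul_nonneg (bb_nonneg hh _ _ hC.ht) (bb_nonneg hh _ _ hC.ht)
  -- the bound of one half, with both orders
  have half : ∀ (θ : V → V → ℝ → ℝ) (T : V → V → ℝ → ℝ) (w w' : V),
      (∀ s ∈ Icc 0 t, ∀ a b, 0 ≤ θ a b s) →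
      (∀ s ∈ Icc 0 t, ∀ a ∈ ({u, v} : Finset V)ᶜ, ∀ b ∈ ({u, v} : Finset V)ᶜ, a ≠ b →
        X a b ≠ 0 → Real.exp (H u v s) * (h s a b *
        ex (lw h ∅ s) {u, v, a, b} (fun G => RCG.tgt h w' t G s * xg h w a b t s G))
        ≤ bb h {v} u t * bb h {u} v t * T a b s) →
      (∀ s ∈ Icc 0 t, ∀ a b, 0 ≤ T a b s) →
      ∀ s ∈ Icc 0 t, ∀ a ∈ ({u, v} : Finset V)ᶜ, ∀ b ∈ ({u, v} : Finset V)ᶜ, a ≠ b →
      Real.exp (H u v s) * (h s a b * ex (lw h ∅ s) {u, v, a, b} (fun G => RCG.tgt h w' t G s *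
        (if X a b = 0 then 0 else θ a b s * xg h w a b t s G + θ b a s * xg h w b a t s G)))
      ≤ bb h {v} u t * bb h {u} v t * (θ a b s * T a b s + θ b a s * T b a s) := by
    intro θ T w w' hθ0 hT hT0 s hs a ha b hb hab
    by_cases h0 : X a b = 0
    · rw [hC.hz0 h0 hs, zero_mul, mul_zero]
      exact mul_nonneg hbb (add_nonneg (mul_nonneg (hθ0 s hs a b) (hT0 s hs a b))
        (mul_nonneg (hθ0 s hs b a) (hT0 s hs b a)))
    · have h1 := hT s hs a ha b hb hab h0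
      have h2 := hT s hs b hb a ha hab.symm (by rwa [hC.hX.symm])
      rw [hab4 a b, hh.symm s b a] at h2
      simp only [if_neg h0]
      have e1 : ex (lw h ∅ s) {u, v, a, b} (fun G => RCG.tgt h w' t G s *
            (θ a b s * xg h w a b t s G + θ b a s * xg h w b a t s G))
          = θ a b s * ex (lw h ∅ s) {u, v, a, b} (fun G => RCG.tgt h w' t G s *
            xg h w a b t s G)
          + θ b a s * ex (lw h ∅ s) {u, v, a, b} (fun G => RCG.tgt h w' t G s *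
            xg h w b a t s G) := by
        rw [← ex_smul, ← ex_smul, ← ex_add]
        congr 1
        funext G
        ring
      rw [e1]
      have h3 := mul_le_mul_of_nonneg_left h1 (hθ0 s hs a b)
      have h4 := mul_le_mul_of_nonneg_left h2 (hθ0 s hs b a)
      linarith
  refine gam2_assemble hh huv hC.ht
    (hC.inf ht (w := u) (H0 := ({u, v} : Finset V)ᶜ) (by simp) subset_rfl le_rfl)
    (hC.inf ht (w := v) (H0 := ({u, v} : Finset V)ᶜ) (by simp) subset_rfl le_rfl)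
    (Xu := fun s a b G => if X a b = 0 then 0 else
      θu a b s * xg h u a b t s G + θu b a s * xg h u b a t s G)
    (Xv := fun s a b G => if X a b = 0 then 0 else
      θv a b s * xg h v a b t s G + θv b a s * xg h v b a t s G)
    (Cv := fun a b s => θv a b s * Tv a b s + θv b a s * Tv b a s)
    (Cu := fun a b s => θu a b s * Tu a b s + θu b a s * Tu b a s)
    ?_ ?_ ?_ ?_ ?_ ?_ ?_ hΓ ?_
  · intro s hs a ha b hb hab G hG
    split_ifs with h0
    · exact le_rfl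
    · exact add_nonneg (mul_nonneg (hθu0 s hs a b) (xg_nonneg hh _ _ _ hC.ht hs G))
        (mul_nonneg (hθu0 s hs b a) (xg_nonneg hh _ _ _ hC.ht hs G))
  · intro s hs a ha b hb hab G hG
    split_ifs with h0
    · exact le_rfl
    · exact add_nonneg (mul_nonneg (hθv0 s hs a b) (xg_nonneg hh _ _ _ hC.ht hs G))
        (mul_nonneg (hθv0 s hs b a) (xg_nonneg hh _ _ _ hC.ht hs G))
  · intro s hs a ha b hb hab hne G hG
    have h0 : X a b ≠ 0 := fun e => hne (hC.hz0 e hs)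
    rw [if_neg h0]
    exact hθu a ha b hb hab h0 s hs G hG
  · intro s hs a ha b hb hab hne G hG
    have h0 : X a b ≠ 0 := fun e => hne (hC.hz0 e hs)
    rw [if_neg h0]
    exact hθv a ha b hb hab h0 s hs G hG
  · exact half θv Tv v u hθv0 hTv (fun s hs a b => (hT0 s hs a b).1)
  · exact half θu Tu u v hθu0 hTu (fun s hs a b => (hT0 s hs a b).2)
  · intro s hs a
    have := hT0 s hs a a
    exact ⟨add_nonneg (mul_nonneg (hθv0 s hs a a) this.1) (mul_nonneg (hθv0 s hs a a) this.1),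
      add_nonneg (mul_nonneg (hθu0 s hs a a) this.2) (mul_nonneg (hθu0 s hs a a) this.2)⟩
  · intro s hs
    refine le_trans (le_of_eq ?_) (hg s hs)
    have gs : ∀ p q : ℝ, gP p q = gP q p := fun p q => by unfold gP; rw [mul_comm (1 + p)]
    set PU := fun a => Pt H X M ({u, v} : Finset V)ᶜ u t a s with hPU
    set PV := fun a => Pt H X M ({u, v} : Finset V)ᶜ v t a s with hPV
    have key : ∀ S : Finset V, ∀ G T : V → V → ℝ, (∀ a b, G a b = G b a) →
        ∑ a ∈ S, ∑ b ∈ S, G a b * (T a b + T b a) = 2 * ∑ a ∈ S, ∑ b ∈ S, G a b * T a b := by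
      intro S G T hG
      have h1 : ∑ a ∈ S, ∑ b ∈ S, G a b * T b a = ∑ a ∈ S, ∑ b ∈ S, G a b * T a b := by
        rw [Finset.sum_comm]
        exact Finset.sum_congr rfl fun a _ => Finset.sum_congr rfl fun b _ => by rw [hG]
      have h2 : ∑ a ∈ S, ∑ b ∈ S, G a b * (T a b + T b a)
          = ∑ a ∈ S, ∑ b ∈ S, G a b * T a b + ∑ a ∈ S, ∑ b ∈ S, G a b * T b a := by
        rw [← Finset.sum_add_distrib]
        refine Finset.sum_congr rfl fun a _ => ?_
        rw [← Finset.sum_add_distrib]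
        exact Finset.sum_congr rfl fun b _ => by ring
      rw [h2, h1]; ring
    have k1 := key ({u, v} : Finset V)ᶜ (fun a b => gP (PU a) (PU b))
      (fun a b => θv a b s * Tv a b s) (fun a b => gs _ _)
    have k2 := key ({u, v} : Finset V)ᶜ (fun a b => gP (PV a) (PV b))
      (fun a b => θu a b s * Tu a b s) (fun a b => gs _ _)
    have e3 : ∀ F G : V → V → ℝ, ∑ a ∈ ({u, v} : Finset V)ᶜ, ∑ b ∈ ({u, v} : Finset V)ᶜ,
        (F a b + G a b) = ∑ a ∈ ({u, v} : Finset V)ᶜ, ∑ b ∈ ({u, v} : Finset V)ᶜ, F a b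
        + ∑ a ∈ ({u, v} : Finset V)ᶜ, ∑ b ∈ ({u, v} : Finset V)ᶜ, G a b := by
      intro F G
      rw [← Finset.sum_add_distrib]
      exact Finset.sum_congr rfl fun a _ => Finset.sum_add_distrib
    rw [e3, e3]
    simp only [hPU, hPV] at k1 k2
    rw [k1, k2]
    ring

end Pool.Agent.RCG
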