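import Pool.Agent.RCG.Own
import Pool.Agent.RCG.Boot

/-! Positivity, single vertices, primitives (MP_73ccd0_lc, general graphs). -/

namespace Pool.Agent.RCG

open Set Finset Pool.Agent.RCRSHalf

set_option linter.unusedSectionVars false

variable {V : Type*} [Fintype V] [DecidableEq V]
variable {h : ℝ → V → V → ℝ} {H : V → V → ℝ → ℝ}

/-- lower bound for backward functions -/
theorem IsEv.lower (hh : Haz h H) {k : ℝ → V → ℝ} {K : V → ℝ → ℝ} {s : ℝ}
    (hK : ∀ a, ∀ r ∈ Icc 0 s, HasDerivAt (K a) (k r a) r)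
    {R : Finset V → ℝ → ℝ} (hR : IsEv h k (fun _ => 0) (fun _ => 0) s R) (F : Finset V) :
    ∀ r ∈ Icc 0 s, R F s * Real.exp (-(HW H F s + ∑ a ∈ F, K a s)) ≤
      R F r * Real.exp (-(HW H F r + ∑ a ∈ F, K a r)) := by
  intro r hr
  have hd : ∀ r ∈ Icc 0 s, HasDerivAt
      (fun r => R F r * Real.exp (-(HW H F r + ∑ a ∈ F, K a r))
        - R F s * Real.exp (-(HW H F s + ∑ a ∈ F, K a s)))
      (-(Real.exp (-(HW H F r + ∑ a ∈ F, K a r)) *
        ((1 / 2) * ∑ a ∈ F, ∑ b ∈ F, h r a b * R ((F.erase a).erase b) r))) r := by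
    intro r hr
    have h1 := hR.deriv F r hr
    have h2 : HasDerivAt (fun r => HW H F r + ∑ a ∈ F, K a r)
        ((1 / 2) * ∑ a ∈ F, ∑ b ∈ F, h r a b + ∑ a ∈ F, k r a) r :=
      (hh.HWd F r).add (HasDerivAt.fun_sum fun a _ => hK a r hr)
    have h3 := (h1.mul h2.neg.exp).sub_const (R F s * Real.exp (-(HW H F s + ∑ a ∈ F, K a s)))
    refine h3.congr_deriv ?_
    have e : gen (h r) (fun G => R G r) F
        = (1 / 2) * ∑ a ∈ F, ∑ b ∈ F, h r a b * R ((F.erase a).erase b) r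
          - ((1 / 2) * ∑ a ∈ F, ∑ b ∈ F, h r a b) * R F r := by
      unfold gen
      simp_rw [mul_sub, Finset.sum_sub_distrib, mul_sub]
      congr 1
      rw [mul_assoc, Finset.sum_mul]
      congr 1
      exact Finset.sum_congr rfl fun a _ => by rw [Finset.sum_mul]
    rw [e]
    simp only [Pi.neg_apply]
    ring
  have := nonneg_of_backward (a := 0) (s := s) hd (by simp) (fun r hr _ => by
    rw [neg_nonpos]
    refine mul_nonneg (Real.exp_pos _).le (mul_nonneg (by norm_num) (Finset.sum_nonneg fun a _ =>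
      Finset.sum_nonneg fun b _ => mul_nonneg (hh.nonneg _ _ _) (hR.nonneg _ r hr)))) r hr
  linarith

theorem tgt_pos (hh : Haz h H) {u : V} {t : ℝ} (ht : t ∈ Icc (0 : ℝ) 1) (F : Finset V) {r : ℝ}
    (hr : r ∈ Icc 0 t) : 0 < tgt h u t F r := by
  have h1 := (hh.tgt u ht).ev.lower hh (K := fun a => H u a) (fun a r _ => hh.Hd u a r) F r hr
  rw [(hh.tgt u ht).end_ F] at h1
  have h2 : 0 < tgt h u t F r * Real.exp (-(HW H F r + ∑ a ∈ F, H u a r)) :=
    lt_of_lt_of_le (by positivity) h1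
  exact (pos_iff_pos_of_mul_pos h2).2 (Real.exp_pos _)

theorem bb_pos (hh : Haz h H) {D : Finset V} {u : V} (hu : u ∉ D) {t : ℝ}
    (ht : t ∈ Icc (0 : ℝ) 1) : 0 < bb h D u t := by
  rw [bb_eq hh hu ht]
  exact tgt_pos hh ht _ ⟨le_rfl, ht.1⟩

/-- derivative of the free probability of a vertex -/
theorem bb_deriv (hh : Haz h H) (a : V) {s : ℝ} (hs : s ∈ Icc (0 : ℝ) 1) :
    HasDerivAt (bb h ∅ a) (-∑ b, h s a b * pp h a b s) s :=
  (hh.lw ∅).deriv_single hh.symm hh.diag a hs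

theorem bb_start (hh : Haz h H) {D : Finset V} {a : V} (ha : a ∉ D) : bb h D a 0 = 1 := by
  unfold bb
  rw [(hh.lw D).pr_start, if_pos]
  simpa using ha

/-- continuity on the unit interval -/
theorem bb_cont (hh : Haz h H) (D : Finset V) (a : V) : ContinuousOn (bb h D a) (Icc 0 1) :=
  fun s hs => ((hh.lw D).deriv_pr {a} hs).continuousAt.continuousWithinAt

theorem pp_cont (hh : Haz h H) (a b : V) : ContinuousOn (pp h a b) (Icc 0 1) :=
  fun s hs => ((hh.lw ∅).deriv_pr {a, b} hs).continuousAt.continuousWithinAt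

theorem pp_nonneg (hh : Haz h H) (a b : V) {s : ℝ} (hs : s ∈ Icc (0 : ℝ) 1) : 0 ≤ pp h a b s :=
  (hh.lw ∅).pr_nonneg _ hs

/-- the free probability of a vertex from the fluxes -/
theorem bb_eq_of_flux (hh : Haz h H) {t : ℝ} (ht : t ∈ Icc (0 : ℝ) 1) (a : V) {f : V → ℝ → ℝ}
    (hf : ∀ s ∈ Icc 0 t, ∀ b, h s a b * pp h a b s = f b s) {α : ℝ → ℝ}
    (hα : ∀ s ∈ Icc 0 t, HasDerivAt α (-∑ b, f b s) s) (hα0 : α 0 = 1) :
    ∀ s ∈ Icc 0 t, bb h ∅ a s = α s := by
  intro s hs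
  have hd : ∀ r ∈ Icc 0 t, HasDerivAt (fun r => bb h ∅ a r - α r) 0 r := by
    intro r hr
    have h1 := (bb_deriv hh a ⟨hr.1, hr.2.trans ht.2⟩).sub (hα r hr)
    refine h1.congr_deriv ?_
    simp_rw [hf r hr]
    ring
  have h0 : bb h ∅ a 0 - α 0 = 0 := by
    rw [bb_start hh (Finset.notMem_empty a), hα0, sub_self]
  have h1 := nonneg_of_forward (a := 0) (s := t) hd h0.ge (fun _ _ _ => le_rfl) s hs
  have h2 := nonneg_of_forward (a := 0) (s := t) (fun r hr => (hd r hr).neg)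
    (by simp only [Pi.neg_apply, neg_nonneg]; exact h0.le)
    (fun _ _ _ => by simp) s hs
  simp only [Pi.neg_apply] at h1 h2
  linarith

/-- primitives of continuous functions -/
theorem exists_prim {g : ℝ → ℝ} {t : ℝ} (ht : 0 ≤ t) (hg : ContinuousOn g (Icc 0 t)) :
    ∃ Γ : ℝ → ℝ, Γ 0 = 0 ∧ ∀ s ∈ Icc 0 t, HasDerivAt Γ (g s) s := by
  have hcl : Continuous fun s : ℝ => max 0 (min t s) := by fun_prop
  have hg' : Continuous fun s => g (max 0 (min t s)) :=
    hg.comp_continuous hcl fun s => ⟨le_max_left _ _, max_le ht (min_le_left _ _)⟩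
  refine ⟨fun s => ∫ r in (0 : ℝ)..s, g (max 0 (min t r)), by simp, fun s hs => ?_⟩
  have := hg'.integral_hasStrictDerivAt 0 s
  have e : max 0 (min t s) = s := by rw [min_eq_right hs.2, max_eq_right hs.1]
  have h2 := this.hasDerivAt
  simp only [e] at h2
  exact h2

end Pool.Agent.RCG
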