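import Pool.Agent.RCG.GlueA

/-! The own gain in integrated form (MP_73ccd0_lc, general graphs). -/

namespace Pool.Agent.RCG

open Set Finset Pool.Agent.RCRSHalf

set_option linter.unusedSectionVars false

variable {V : Type*} [Fintype V] [DecidableEq V]
variable {h : ℝ → V → V → ℝ} {H : V → V → ℝ → ℝ}

/-- deletion ratio `a_p / b_{p|q}` -/
noncomputable def Wr (h : ℝ → V → V → ℝ) (p q : V) (s : ℝ) : ℝ := bb h ∅ p s / bb h {q} p s

theorem Wr_pos (hh : Haz h H) {p q : V} (hpq : p ≠ q) {s : ℝ} (hs : s ∈ Icc (0 : ℝ) 1) :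
    0 < Wr h p q s :=
  div_pos (bb_pos hh (by simp) hs) (bb_pos hh (by simpa using hpq) hs)

theorem Wr_zero (hh : Haz h H) {p q : V} (hpq : p ≠ q) : Wr h p q 0 = 1 := by
  unfold Wr
  rw [bb_start hh (by simp), bb_start hh (by simpa using hpq), div_one]

theorem Wr_cont (hh : Haz h H) {p q : V} (hpq : p ≠ q) : ContinuousOn (Wr h p q) (Icc 0 1) :=
  (bb_cont hh ∅ p).div (bb_cont hh {q} p) fun s hs =>
    (bb_pos hh (by simpa using hpq) hs).ne'

theorem Wr_mul (hh : Haz h H) {p q : V} (hpq : p ≠ q) {s : ℝ} (hs : s ∈ Icc (0 : ℝ) 1) :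
    Wr h p q s * bb h {q} p s = bb h ∅ p s :=
  div_mul_cancel₀ _ (bb_pos hh (by simpa using hpq) hs).ne'

/-- `1 / b = W / a` -/
theorem inv_bb (hh : Haz h H) {p q : V} (hpq : p ≠ q) {s : ℝ} (hs : s ∈ Icc (0 : ℝ) 1) :
    (bb h {q} p s)⁻¹ = Wr h p q s / bb h ∅ p s := by
  have h1 := (bb_pos hh (show p ∉ (∅ : Finset V) by simp) hs).ne'
  have h2 := (bb_pos hh (show p ∉ ({q} : Finset V) by simpa using hpq) hs).ne'
  unfold Wr
  field_simp

/-- upper bound for the hazards by the fluxes -/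
theorem hz_up (hh : Haz h H) {a b : V} (hab : a ≠ b) {s Q : ℝ} (hs : s ∈ Icc (0 : ℝ) 1)
    (hQ : Real.exp (-Q) * (bb h {b} a s * bb h {a} b s) ≤ Real.exp (H a b s) * pp h a b s) :
    h s a b * Real.exp (-H a b s) * (bb h {b} a s * bb h {a} b s)
      ≤ h s a b * pp h a b s * Real.exp Q := by
  have h0 := hh.nonneg s a b
  have h1 : bb h {b} a s * bb h {a} b s ≤ Real.exp Q * (Real.exp (H a b s) * pp h a b s) := by
    have := mul_le_mul_of_nonneg_left hQ (Real.exp_pos Q).le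
    rwa [← mul_assoc, ← Real.exp_add, add_neg_cancel, Real.exp_zero, one_mul] at this
  have h2 := mul_le_mul_of_nonneg_left h1 (mul_nonneg h0 (Real.exp_pos (-H a b s)).le)
  refine h2.trans (le_of_eq ?_)
  have : Real.exp (-H a b s) * Real.exp (H a b s) = 1 := by
    rw [← Real.exp_add, neg_add_cancel, Real.exp_zero]
  calc h s a b * Real.exp (-H a b s) * (Real.exp Q * (Real.exp (H a b s) * pp h a b s))
      = (Real.exp (-H a b s) * Real.exp (H a b s)) * (h s a b * pp h a b s * Real.exp Q) := by ring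
    _ = _ := by rw [this, one_mul]

/-- lower bound for the hazards by the fluxes -/
theorem hz_lo (hh : Haz h H) {a b : V} {s κ : ℝ}
    (hκ : Real.exp (H a b s) * pp h a b s ≤ Real.exp κ * (bb h {b} a s * bb h {a} b s)) :
    h s a b * pp h a b s * Real.exp (-κ)
      ≤ h s a b * Real.exp (-H a b s) * (bb h {b} a s * bb h {a} b s) := by
  have h0 := hh.nonneg s a b
  have h2 := mul_le_mul_of_nonneg_left hκ
    (mul_nonneg (mul_nonneg h0 (Real.exp_pos (-H a b s)).le) (Real.exp_pos (-κ)).le)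
  have e1 : Real.exp (-H a b s) * Real.exp (H a b s) = 1 := by
    rw [← Real.exp_add, neg_add_cancel, Real.exp_zero]
  have e2 : Real.exp (-κ) * Real.exp κ = 1 := by
    rw [← Real.exp_add, neg_add_cancel, Real.exp_zero]
  calc h s a b * pp h a b s * Real.exp (-κ)
      = h s a b * Real.exp (-H a b s) * Real.exp (-κ) * (Real.exp (H a b s) * pp h a b s) := by
        rw [show h s a b * Real.exp (-H a b s) * Real.exp (-κ) * (Real.exp (H a b s) * pp h a b s)
          = (Real.exp (-H a b s) * Real.exp (H a b s)) * (h s a b * pp h a b s * Real.exp (-κ)) by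
            ring, e1, one_mul]
    _ ≤ h s a b * Real.exp (-H a b s) * Real.exp (-κ) *
          (Real.exp κ * (bb h {b} a s * bb h {a} b s)) := h2
    _ = (Real.exp (-κ) * Real.exp κ) *
          (h s a b * Real.exp (-H a b s) * (bb h {b} a s * bb h {a} b s)) := by ring
    _ = _ := by rw [e2, one_mul]

/-- own gain, upper form -/
theorem own_up (hh : Haz h H) {u v : V} (huv : u ≠ v) {t : ℝ} (ht : t ∈ Icc (0 : ℝ) 1)
    {κ Q d : ℝ → ℝ}
    (hpp : ∀ s ∈ Icc 0 t,
      Real.exp (H u v s) * pp h u v s ≤ Real.exp (κ s) * (bb h {v} u s * bb h {u} v s))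
    (hex : ∀ s ∈ Icc 0 t, Real.exp (-H u v s - Q s) * (bb h {v} u t * bb h {u} v s)
      ≤ ex (lw h ∅ s) {u, v} (fun F => RCG.tgt h u t F s))
    (hd : ∀ s ∈ Icc 0 t, κ s + Q s ≤ d s)
    {Γ Γ2 g2 : ℝ → ℝ}
    (hΓ : ∀ s ∈ Icc 0 t, HasDerivAt Γ
      (h s u v * pp h u v s / bb h ∅ u s * Wr h u v s * Real.exp (-d s)) s)
    (hΓ2 : ∀ s ∈ Icc 0 t, HasDerivAt Γ2 (g2 s) s)
    (hg2 : ∀ s ∈ Icc 0 t, ∑ w ∈ ({u, v} : Finset V)ᶜ, h s v w *
          ex (lw h ∅ s) {u, v, w} (fun F => RCG.tgt h u t F s - RCG.tgt h u t (insert w F) s)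
      ≤ bb h {v} u t * g2 s) :
    Wr h u v t ≤ 1 - (Γ t - Γ 0) + (Γ2 t - Γ2 0) := by
  have hbt := bb_pos hh (show u ∉ ({v} : Finset V) by simpa using huv) ht
  have key := own_le hh huv ht hΓ hΓ2 (fun s hs => ?_) hg2
  · unfold Wr
    rw [div_le_iff₀ hbt]
    linarith
  · have hs1 : s ∈ Icc (0 : ℝ) 1 := ⟨hs.1, hs.2.trans ht.2⟩
    have hbs := bb_pos hh (show u ∉ ({v} : Finset V) by simpa using huv) hs1
    have hbv := bb_pos hh (show v ∉ ({u} : Finset V) by simpa using huv.symm) hs1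
    have e0 : h s u v * pp h u v s / bb h ∅ u s * Wr h u v s
        = h s u v * pp h u v s * (bb h {v} u s)⁻¹ := by
      rw [inv_bb hh huv hs1]; ring
    rw [e0]
    have h1 := hz_lo hh (hpp s hs)
    have h2 := mul_le_mul_of_nonneg_left (hex s hs) (hh.nonneg s u v)
    refine le_trans ?_ h2
    have hf : 0 ≤ h s u v * pp h u v s := mul_nonneg (hh.nonneg _ _ _) (pp_nonneg hh _ _ hs1)
    calc bb h {v} u t * (h s u v * pp h u v s * (bb h {v} u s)⁻¹ * Real.exp (-d s))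
        ≤ bb h {v} u t * (h s u v * pp h u v s * (bb h {v} u s)⁻¹ * Real.exp (-κ s - Q s)) := by
          refine mul_le_mul_of_nonneg_left ?_ hbt.le
          refine mul_le_mul_of_nonneg_left (Real.exp_le_exp.2 (by linarith [hd s hs])) ?_
          exact mul_nonneg hf (inv_nonneg.2 hbs.le)
      _ = bb h {v} u t * (bb h {v} u s)⁻¹ * Real.exp (-Q s) *
            (h s u v * pp h u v s * Real.exp (-κ s)) := by
          rw [show -κ s - Q s = -Q s + -κ s by ring, Real.exp_add]; ring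
      _ ≤ bb h {v} u t * (bb h {v} u s)⁻¹ * Real.exp (-Q s) *
            (h s u v * Real.exp (-H u v s) * (bb h {v} u s * bb h {u} v s)) :=
          mul_le_mul_of_nonneg_left h1 (by positivity)
      _ = ((bb h {v} u s)⁻¹ * bb h {v} u s) * (h s u v *
            (Real.exp (-H u v s) * Real.exp (-Q s) * (bb h {v} u t * bb h {u} v s))) := by ring
      _ = _ := by
          rw [inv_mul_cancel₀ hbs.ne', one_mul, ← Real.exp_add]
          rfl

/-- own gain, lower form -/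
theorem own_lo (hh : Haz h H) {u v : V} (huv : u ≠ v) {t : ℝ} (ht : t ∈ Icc (0 : ℝ) 1)
    {κ Q d : ℝ → ℝ}
    (hpp : ∀ s ∈ Icc 0 t,
      Real.exp (-Q s) * (bb h {v} u s * bb h {u} v s) ≤ Real.exp (H u v s) * pp h u v s)
    (hex : ∀ s ∈ Icc 0 t, ex (lw h ∅ s) {u, v} (fun F => RCG.tgt h u t F s)
      ≤ Real.exp (-H u v s + κ s) * (bb h {v} u t * bb h {u} v s))
    (hd : ∀ s ∈ Icc 0 t, κ s + Q s ≤ d s)
    {Γ Γ2 g2 : ℝ → ℝ}
    (hΓ : ∀ s ∈ Icc 0 t, HasDerivAt Γ
      (h s u v * pp h u v s / bb h ∅ u s * Wr h u v s * Real.exp (d s)) s)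
    (hΓ2 : ∀ s ∈ Icc 0 t, HasDerivAt Γ2 (g2 s) s)
    (hg2 : ∀ s ∈ Icc 0 t, -(bb h {v} u t * g2 s) ≤ ∑ w ∈ ({u, v} : Finset V)ᶜ, h s v w *
          ex (lw h ∅ s) {u, v, w} (fun F => RCG.tgt h u t F s - RCG.tgt h u t (insert w F) s)) :
    1 - (Γ t - Γ 0) - (Γ2 t - Γ2 0) ≤ Wr h u v t := by
  have hbt := bb_pos hh (show u ∉ ({v} : Finset V) by simpa using huv) ht
  have key := le_own hh huv ht hΓ hΓ2 (fun s hs => ?_) hg2
  · unfold Wr
    rw [le_div_iff₀ hbt]
    linarith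
  · have hs1 : s ∈ Icc (0 : ℝ) 1 := ⟨hs.1, hs.2.trans ht.2⟩
    have hbs := bb_pos hh (show u ∉ ({v} : Finset V) by simpa using huv) hs1
    have hbv := bb_pos hh (show v ∉ ({u} : Finset V) by simpa using huv.symm) hs1
    have e0 : h s u v * pp h u v s / bb h ∅ u s * Wr h u v s
        = h s u v * pp h u v s * (bb h {v} u s)⁻¹ := by
      rw [inv_bb hh huv hs1]; ring
    rw [e0]
    have h1 := hz_up hh huv hs1 (hpp s hs)
    have h2 := mul_le_mul_of_nonneg_left (hex s hs) (hh.nonneg s u v)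
    refine le_trans h2 ?_
    have hf : 0 ≤ h s u v * pp h u v s := mul_nonneg (hh.nonneg _ _ _) (pp_nonneg hh _ _ hs1)
    calc h s u v * (Real.exp (-H u v s + κ s) * (bb h {v} u t * bb h {u} v s))
        = bb h {v} u t * ((bb h {v} u s)⁻¹ * bb h {v} u s) * Real.exp (κ s) *
            (h s u v * Real.exp (-H u v s) * bb h {u} v s) := by
          rw [inv_mul_cancel₀ hbs.ne', Real.exp_add]; ring
      _ = bb h {v} u t * (bb h {v} u s)⁻¹ * Real.exp (κ s) *
            (h s u v * Real.exp (-H u v s) * (bb h {v} u s * bb h {u} v s)) := by ring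
      _ ≤ bb h {v} u t * (bb h {v} u s)⁻¹ * Real.exp (κ s) *
            (h s u v * pp h u v s * Real.exp (Q s)) :=
          mul_le_mul_of_nonneg_left h1 (by positivity)
      _ = bb h {v} u t * (h s u v * pp h u v s * (bb h {v} u s)⁻¹ * Real.exp (κ s + Q s)) := by
          rw [Real.exp_add]; ring
      _ ≤ _ := by
          refine mul_le_mul_of_nonneg_left ?_ hbt.le
          refine mul_le_mul_of_nonneg_left (Real.exp_le_exp.2 (hd s hs)) ?_
          exact mul_nonneg hf (inv_nonneg.2 hbs.le)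

/-- Gronwall step -/
theorem gron {W I E E' : ℝ → ℝ} {t c : ℝ} (ht : 0 ≤ t)
    (hE : ∀ s ∈ Icc 0 t, HasDerivAt E (E' s) s) (hE0 : E 0 = 0) (hE' : ∀ s ∈ Icc 0 t, 0 ≤ E' s)
    (hI : ∀ s ∈ Icc 0 t, HasDerivAt I (E' s * W s) s) (hI0 : I 0 = 0)
    (hlow : ∀ s ∈ Icc 0 t, c - I s ≤ W s) :
    c * (1 - Real.exp (-E t)) ≤ I t := by
  have key := nonneg_of_forward
    (U := fun s => Real.exp (E s) * I s - c * (Real.exp (E s) - 1))
    (U' := fun s => Real.exp (E s) * E' s * I s + Real.exp (E s) * (E' s * W s)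
      - c * (Real.exp (E s) * E' s))
    (a := 0) (s := t)
    (fun s hs => by
      have d1 := (hE s hs).exp
      have d2 := hI s hs
      exact (d1.mul d2).sub ((d1.sub_const 1).const_mul c))
    (by simp [hE0, hI0])
    (fun s hs _ => by
      have e0 := (Real.exp_pos (E s)).le
      have e1 := hlow s hs
      have e2 := hE' s hs
      have e3 : 0 ≤ E' s * Real.exp (E s) * (W s - (c - I s)) := by
        have : 0 ≤ W s - (c - I s) := by linarith
        positivity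
      nlinarith) t ⟨ht, le_rfl⟩
  have h1 : Real.exp (-E t) * Real.exp (E t) = 1 := by
    rw [← Real.exp_add, neg_add_cancel, Real.exp_zero]
  have h2 := mul_nonneg (Real.exp_pos (-E t)).le key
  have h3 : Real.exp (-E t) * (Real.exp (E t) * I t - c * (Real.exp (E t) - 1))
      = (Real.exp (-E t) * Real.exp (E t)) * I t
        - c * (Real.exp (-E t) * Real.exp (E t) - Real.exp (-E t)) := by ring
  rw [h3, h1] at h2
  linarith

/-- The own gain, integrated form: `W ≤ e^{-E} + ν⁺ + δ + (1 - e^{-E}) (ν⁻ + δ')`. -/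
theorem own_final {W I I1 I2 E E' d d' : ℝ → ℝ} {t ν ν' δ δ' : ℝ} (ht : 0 ≤ t)
    (hE : ∀ s ∈ Icc 0 t, HasDerivAt E (E' s) s) (hE0 : E 0 = 0) (hE' : ∀ s ∈ Icc 0 t, 0 ≤ E' s)
    (hW : ∀ s ∈ Icc 0 t, 0 ≤ W s)
    (hI : ∀ s ∈ Icc 0 t, HasDerivAt I (E' s * W s) s) (hI0 : I 0 = 0)
    (hI1 : ∀ s ∈ Icc 0 t, HasDerivAt I1 (E' s * W s * Real.exp (-d s)) s) (hI10 : I1 0 = 0)
    (hI2 : ∀ s ∈ Icc 0 t, HasDerivAt I2 (E' s * W s * Real.exp (d' s)) s) (hI20 : I2 0 = 0)
    (hd' : ∀ s ∈ Icc 0 t, 0 ≤ d' s)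
    {J J' : ℝ → ℝ} (hJ : ∀ s ∈ Icc 0 t, HasDerivAt J (J' s) s) (hJ0 : J 0 = 0)
    (hJle : ∀ s ∈ Icc 0 t, E' s * W s * d s ≤ J' s) (hJt : J t ≤ δ)
    {K K' : ℝ → ℝ} (hK : ∀ s ∈ Icc 0 t, HasDerivAt K (K' s) s) (hK0 : K 0 = 0)
    (hKle : ∀ s ∈ Icc 0 t, E' s * W s * (Real.exp (d' s) - 1) ≤ K' s) (hKt : K t ≤ δ')
    (hlow : ∀ s ∈ Icc 0 t, 1 - ν - I2 s ≤ W s)
    (hup : W t ≤ 1 + ν' - I1 t) :
    W t ≤ Real.exp (-E t) + ν' + δ + (1 - Real.exp (-E t)) * (ν + δ') := by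
  have hEt : 0 ≤ E t :=
    nonneg_of_forward (U := E) (U' := E') (a := 0) (s := t) hE (by rw [hE0])
      (fun r hr _ => hE' r hr) t ⟨ht, le_rfl⟩
  -- `I1 ≥ I - δ`
  have h1 : I t - δ ≤ I1 t := by
    have := nonneg_of_forward (U := fun s => I1 s - I s + J s)
      (U' := fun s => E' s * W s * Real.exp (-d s) - E' s * W s + J' s) (a := 0) (s := t)
      (fun s hs => ((hI1 s hs).sub (hI s hs)).add (hJ s hs)) (by simp [hI10, hI0, hJ0])
      (fun s hs _ => by
        have e1 := hJle s hs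
        have e2 : 1 - d s ≤ Real.exp (-d s) := by linarith [Real.add_one_le_exp (-d s)]
        have e3 := mul_le_mul_of_nonneg_left e2 (mul_nonneg (hE' s hs) (hW s hs))
        nlinarith) t ⟨ht, le_rfl⟩
    linarith
  -- `I2 ≤ I + δ'`
  have h2 : ∀ s ∈ Icc 0 t, I2 s ≤ I s + δ' := by
    intro s hs
    have a1 := nonneg_of_forward (U := fun s => I s - I2 s + K s)
      (U' := fun s => E' s * W s - E' s * W s * Real.exp (d' s) + K' s) (a := 0) (s := t)
      (fun s hs => ((hI s hs).sub (hI2 s hs)).add (hK s hs)) (by simp [hI20, hI0, hK0])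
      (fun s hs _ => by have := hKle s hs; nlinarith) s hs
    have a2 := nonneg_of_forward (U := fun r => K r - K s) (U' := K') (a := s) (s := t)
      (fun r hr => (hK r ⟨hs.1.trans hr.1, hr.2⟩).sub_const _) (by simp)
      (fun r hr _ => by
        have hr' : r ∈ Icc 0 t := ⟨hs.1.trans hr.1, hr.2⟩
        have e1 := hKle r hr'
        have e2 : 0 ≤ Real.exp (d' r) - 1 := by
          have := Real.one_le_exp (hd' r hr'); linarith
        exact (mul_nonneg (mul_nonneg (hE' r hr') (hW r hr')) e2).trans e1) t ⟨hs.2, le_rfl⟩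
    linarith
  have h3 := gron (c := 1 - ν - δ') ht hE hE0 hE' hI hI0 (fun s hs => by
    have := hlow s hs; have := h2 s hs; linarith)
  nlinarith

end Pool.Agent.RCG
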