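import Pool.Agent.RCG.GlueB

/-! The N-part in multiplicative form (MP_73ccd0_lc, general graphs). -/

namespace Pool.Agent.RCG

open Set Finset Pool.Agent.RCRSHalf

set_option linter.unusedSectionVars false

variable {V : Type*} [Fintype V] [DecidableEq V]
variable {h : ℝ → V → V → ℝ} {H : V → V → ℝ → ℝ}

/-- the source expectation is bounded by a double flux integral -/
theorem zx_flux (hh : Haz h H) {u v w : V} (huw : u ≠ w) {t : ℝ} (ht : t ∈ Icc (0 : ℝ) 1)
    {Q A J J' : ℝ → ℝ}
    (hQ : ∀ r ∈ Icc 0 t, Real.exp (-Q r) * (bb h {w} u r * bb h {u} w r)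
      ≤ Real.exp (H u w r) * pp h u w r)
    (hA : ∀ r ∈ Icc 0 t, bb h {u, v} w r ≤ A r * bb h {u} w r)
    (hJ : ∀ s ∈ Icc 0 t, HasDerivAt J (J' s) s) (hJt : 0 ≤ J t)
    (hJ' : ∀ r ∈ Icc 0 t, h r u w * pp h u w r / bb h ∅ u r * Wr h u w r * A r * Real.exp (Q r)
      ≤ -J' r) :
    ∀ s ∈ Icc 0 t, zx h H {u, v} u w t s ≤ J s := by
  refine zx_le hh ht hJ hJt fun r hr => le_trans ?_ (hJ' r hr)
  have hr1 : r ∈ Icc (0 : ℝ) 1 := ⟨hr.1, hr.2.trans ht.2⟩
  have hb := bb_pos hh (show u ∉ ({w} : Finset V) by simpa using huw) hr1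
  have hb2 := bb_pos hh (show w ∉ ({u} : Finset V) by simpa using huw.symm) hr1
  have e0 : h r u w * pp h u w r / bb h ∅ u r * Wr h u w r
      = h r u w * pp h u w r * (bb h {w} u r)⁻¹ := by
    rw [inv_bb hh huw hr1]; ring
  rw [e0]
  have h1 := hz_up hh huw hr1 (hQ r hr)
  have hA0 : 0 ≤ A r := by
    have h3 := bb_pos hh (D := {u, v}) (u := w) (t := r)
    by_contra hneg
    push Not at hneg
    have h4 := hA r hr
    have h5 : 0 ≤ bb h {u, v} w r := bb_nonneg hh _ _ hr1
    nlinarith
  have h0 := hh.nonneg r u w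
  calc h r u w * Real.exp (-H u w r) * bb h {u, v} w r
      ≤ h r u w * Real.exp (-H u w r) * (A r * bb h {u} w r) :=
        mul_le_mul_of_nonneg_left (hA r hr) (by positivity)
    _ = (bb h {w} u r)⁻¹ * A r *
          (h r u w * Real.exp (-H u w r) * (bb h {w} u r * bb h {u} w r)) := by
        field_simp
    _ ≤ (bb h {w} u r)⁻¹ * A r * (h r u w * pp h u w r * Real.exp (Q r)) :=
        mul_le_mul_of_nonneg_left h1 (by positivity)
    _ = _ := by ring

theorem zx_nonneg (hh : Haz h H) (D : Finset V) (u w : V) {t : ℝ} (ht : t ∈ Icc (0 : ℝ) 1) {s : ℝ}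
    (hs : s ∈ Icc 0 t) : 0 ≤ zx h H D u w t s := by
  have hs1 : s ∈ Icc (0 : ℝ) 1 := ⟨hs.1, hs.2.trans ht.2⟩
  exact mul_nonneg (Real.exp_pos _).le (ex_nonneg (fun F => (hh.lw D).nonneg F s hs1)
    fun F => (hh.src u w ht).ev.nonneg F s hs)

/-- one term of the N-part -/
theorem n_term (hh : Haz h H) {u v w : V} (huv : u ≠ v) (huw : u ≠ w) (hvw : v ≠ w) {t : ℝ}
    (ht : t ∈ Icc (0 : ℝ) 1) {s : ℝ} (hs : s ∈ Icc 0 t) {K κ K' Y Q Yv Yw A J : ℝ}
    (hxi : ex (lw h ∅ s) {u, v, w} (fun F => RCG.tgt h u t F s - RCG.tgt h u t (insert w F) s)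
      ≤ Real.exp κ * ex (lw h ∅ s) {u, v, w} (fun F => RCG.tgt h u t F s * RCG.src h u w t F s)
        + Y * ex (lw h ∅ s) {u, v, w} (fun F => RCG.tgt h u t F s))
    (hm : ex (lw h ∅ s) {u, v, w} (fun F => RCG.tgt h u t F s * RCG.src h u w t F s)
      ≤ Real.exp (-(H u v s + H v w s) + K) *
        (bb h {v, w} u t * bb h {u, w} v s * zx h H {u, v} u w t s))
    (hc : ex (lw h ∅ s) {u, v, w} (fun F => RCG.tgt h u t F s)
      ≤ Real.exp (-(H u v s + H u w s + H v w s) + K') *
        (bb h {v, w} u t * bb h {u, w} v s * bb h {u, v} w s))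
    (hY0 : 0 ≤ Y)
    (hQ : Real.exp (-Q) * (bb h {w} v s * bb h {v} w s) ≤ Real.exp (H v w s) * pp h v w s)
    (hdv : bb h {u, w} v s ≤ Real.exp (H u v s + Yv) * bb h {w} v s)
    (hdw : bb h {u, v} w s ≤ Real.exp (H u w s + Yw) * bb h {v} w s)
    (hA : bb h {v, w} u t ≤ A * bb h {v} u t)
    (hJ : zx h H {u, v} u w t s ≤ J) (hJ0 : 0 ≤ J) :
    h s v w * ex (lw h ∅ s) {u, v, w}
        (fun F => RCG.tgt h u t F s - RCG.tgt h u t (insert w F) s)
      ≤ bb h {v} u t * (A * (h s v w * pp h v w s / bb h ∅ w s * Wr h w v s * J *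
          Real.exp (κ + K + Q + Yv) + Y * (h s v w * pp h v w s) * Real.exp (K' + Q + Yv + Yw))) := by
  have hs1 : s ∈ Icc (0 : ℝ) 1 := ⟨hs.1, hs.2.trans ht.2⟩
  have hbw := bb_pos hh (show w ∉ ({v} : Finset V) by simpa using hvw.symm) hs1
  have hbv := bb_pos hh (show v ∉ ({w} : Finset V) by simpa using hvw) hs1
  have hbu := bb_pos hh (show u ∉ ({v} : Finset V) by simpa using huv) ht
  have hbuv := bb_pos hh (show u ∉ ({v, w} : Finset V) by simp [huv, huw]) ht
  have hbvuw := bb_pos hh (show v ∉ ({u, w} : Finset V) by simp [huv.symm, hvw]) hs1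
  have hbwuv := bb_pos hh (show w ∉ ({u, v} : Finset V) by simp [huw.symm, hvw.symm]) hs1
  have e0 : h s v w * pp h v w s / bb h ∅ w s * Wr h w v s
      = h s v w * pp h v w s * (bb h {v} w s)⁻¹ := by
    rw [inv_bb hh hvw.symm hs1]; ring
  rw [e0]
  have h1 := hz_up hh hvw hs1 hQ
  have h0 := hh.nonneg s v w
  have hf : 0 ≤ h s v w * pp h v w s := mul_nonneg h0 (pp_nonneg hh _ _ hs1)
  have hz0 := zx_nonneg hh {u, v} u w ht hs
  -- main term
  have hmain : h s v w * (Real.exp κ * ex (lw h ∅ s) {u, v, w}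
        (fun F => RCG.tgt h u t F s * RCG.src h u w t F s))
      ≤ bb h {v, w} u t * (h s v w * pp h v w s * (bb h {v} w s)⁻¹ * J *
        Real.exp (κ + K + Q + Yv)) := by
    calc h s v w * (Real.exp κ * ex (lw h ∅ s) {u, v, w}
          (fun F => RCG.tgt h u t F s * RCG.src h u w t F s))
        ≤ h s v w * (Real.exp κ * (Real.exp (-(H u v s + H v w s) + K) *
          (bb h {v, w} u t * bb h {u, w} v s * zx h H {u, v} u w t s))) := by gcongr
      _ ≤ h s v w * (Real.exp κ * (Real.exp (-(H u v s + H v w s) + K) *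
          (bb h {v, w} u t * (Real.exp (H u v s + Yv) * bb h {w} v s) * J))) := by gcongr
      _ = bb h {v, w} u t * J * (bb h {v} w s)⁻¹ * Real.exp (κ + K + Yv) *
          (h s v w * Real.exp (-H v w s) * (bb h {w} v s * bb h {v} w s)) := by
          rw [show -(H u v s + H v w s) + K = -H u v s + (-H v w s + K) by ring,
            Real.exp_add (-H u v s), Real.exp_add (-H v w s), Real.exp_add (H u v s),
            show κ + K + Yv = κ + (K + Yv) by ring, Real.exp_add κ, Real.exp_add K]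
          have e1 : Real.exp (-H u v s) * Real.exp (H u v s) = 1 := by
            rw [← Real.exp_add, neg_add_cancel, Real.exp_zero]
          have e2 : (bb h {v} w s)⁻¹ * bb h {v} w s = 1 := inv_mul_cancel₀ hbw.ne'
          linear_combination (h s v w * Real.exp κ * Real.exp (-H v w s) * Real.exp K *
            bb h {v, w} u t * Real.exp Yv * bb h {w} v s * J) * e1
            - (bb h {v, w} u t * J * (Real.exp κ * (Real.exp K * Real.exp Yv)) *
              h s v w * Real.exp (-H v w s) * bb h {w} v s) * e2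
      _ ≤ bb h {v, w} u t * J * (bb h {v} w s)⁻¹ * Real.exp (κ + K + Yv) *
          (h s v w * pp h v w s * Real.exp Q) := by
          refine mul_le_mul_of_nonneg_left h1 ?_
          positivity
      _ = _ := by
          rw [show κ + K + Q + Yv = (κ + K + Yv) + Q by ring, Real.exp_add (κ + K + Yv)]
          ring
  -- correction term
  have hcorr : h s v w * (Y * ex (lw h ∅ s) {u, v, w} (fun F => RCG.tgt h u t F s))
      ≤ bb h {v, w} u t * (Y * (h s v w * pp h v w s) * Real.exp (K' + Q + Yv + Yw)) := by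
    calc h s v w * (Y * ex (lw h ∅ s) {u, v, w} (fun F => RCG.tgt h u t F s))
        ≤ h s v w * (Y * (Real.exp (-(H u v s + H u w s + H v w s) + K') *
          (bb h {v, w} u t * bb h {u, w} v s * bb h {u, v} w s))) := by gcongr
      _ ≤ h s v w * (Y * (Real.exp (-(H u v s + H u w s + H v w s) + K') *
          (bb h {v, w} u t * (Real.exp (H u v s + Yv) * bb h {w} v s) *
            (Real.exp (H u w s + Yw) * bb h {v} w s)))) := by gcongr
      _ = bb h {v, w} u t * Y * Real.exp (K' + Yv + Yw) *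
          (h s v w * Real.exp (-H v w s) * (bb h {w} v s * bb h {v} w s)) := by
          have e : Real.exp (-(H u v s + H u w s + H v w s) + K') * Real.exp (H u v s + Yv) *
              Real.exp (H u w s + Yw) = Real.exp (K' + Yv + Yw) * Real.exp (-H v w s) := by
            rw [← Real.exp_add, ← Real.exp_add, ← Real.exp_add]
            congr 1
            ring
          linear_combination (h s v w * Y * bb h {v, w} u t * bb h {w} v s * bb h {v} w s) * e
      _ ≤ bb h {v, w} u t * Y * Real.exp (K' + Yv + Yw) *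
          (h s v w * pp h v w s * Real.exp Q) := by
          refine mul_le_mul_of_nonneg_left h1 ?_
          positivity
      _ = _ := by
          rw [show K' + Q + Yv + Yw = (K' + Yv + Yw) + Q by ring, Real.exp_add (K' + Yv + Yw)]
          ring
  calc h s v w * ex (lw h ∅ s) {u, v, w}
        (fun F => RCG.tgt h u t F s - RCG.tgt h u t (insert w F) s)
      ≤ h s v w * (Real.exp κ * ex (lw h ∅ s) {u, v, w}
          (fun F => RCG.tgt h u t F s * RCG.src h u w t F s)
        + Y * ex (lw h ∅ s) {u, v, w} (fun F => RCG.tgt h u t F s)) :=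
        mul_le_mul_of_nonneg_left hxi h0
    _ ≤ bb h {v, w} u t * (h s v w * pp h v w s * (bb h {v} w s)⁻¹ * J *
          Real.exp (κ + K + Q + Yv) + Y * (h s v w * pp h v w s) *
            Real.exp (K' + Q + Yv + Yw)) := by
        rw [mul_add, mul_add]
        exact add_le_add hmain hcorr
    _ ≤ (A * bb h {v} u t) * (h s v w * pp h v w s * (bb h {v} w s)⁻¹ * J *
          Real.exp (κ + K + Q + Yv) + Y * (h s v w * pp h v w s) *
            Real.exp (K' + Q + Yv + Yw)) := by
        refine mul_le_mul_of_nonneg_right hA ?_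
        positivity
    _ = _ := by ring

end Pool.Agent.RCG
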