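import Pool.Agent.RCG.GlueC

/-! The Gamma-part in multiplicative form (MP_73ccd0_lc, general graphs). -/

namespace Pool.Agent.RCG

open Set Finset Pool.Agent.RCRSHalf

set_option linter.unusedSectionVars false

variable {V : Type*} [Fintype V] [DecidableEq V]
variable {h : ℝ → V → V → ℝ} {H : V → V → ℝ → ℝ}

/-- weight of a pair, upper bound (8.1) -/
theorem g_up (hh : Haz h H) {u v a b : V} (huv : u ≠ v) (hua : u ≠ a) (hub : u ≠ b)
    (hva : v ≠ a) (hvb : v ≠ b) (hab : a ≠ b) {t : ℝ} (ht : t ∈ Icc (0 : ℝ) 1) {s : ℝ}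
    (hs : s ∈ Icc 0 t) {K Q Ya Yb Au Av : ℝ}
    (hm : ex (lw h ∅ s) {u, v, a, b} (fun F => RCG.tgt h u t F s * RCG.tgt h v t F s)
      ≤ Real.exp (-HW H {u, v, a, b} s + K) *
        (bb h {v, a, b} u t * bb h {u, a, b} v t * bb h {u, v, b} a s * bb h {u, v, a} b s))
    (hQ : Real.exp (-Q) * (bb h {b} a s * bb h {a} b s) ≤ Real.exp (H a b s) * pp h a b s)
    (hda : bb h {u, v, b} a s ≤ Real.exp (H u a s + H v a s + Ya) * bb h {b} a s)
    (hdb : bb h {u, v, a} b s ≤ Real.exp (H u b s + H v b s + Yb) * bb h {a} b s)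
    (hAu : bb h {v, a, b} u t ≤ Au * bb h {v} u t) (hAv : bb h {u, a, b} v t ≤ Av * bb h {u} v t) :
    Real.exp (H u v s) * (h s a b *
        ex (lw h ∅ s) {u, v, a, b} (fun F => RCG.tgt h u t F s * RCG.tgt h v t F s))
      ≤ bb h {v} u t * bb h {u} v t * (h s a b * pp h a b s) *
        (Au * Av * Real.exp (K + Q + Ya + Yb)) := by
  have hs1 : s ∈ Icc (0 : ℝ) 1 := ⟨hs.1, hs.2.trans ht.2⟩
  have b1 := bb_pos hh (show u ∉ ({v, a, b} : Finset V) by simp [huv, hua, hub]) ht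
  have b2 := bb_pos hh (show v ∉ ({u, a, b} : Finset V) by simp [huv.symm, hva, hvb]) ht
  have b3 := bb_pos hh (show a ∉ ({u, v, b} : Finset V) by simp [hua.symm, hva.symm, hab]) hs1
  have b4 := bb_pos hh (show b ∉ ({u, v, a} : Finset V) by
    simp [hub.symm, hvb.symm, hab.symm]) hs1
  have b5 := bb_pos hh (show u ∉ ({v} : Finset V) by simpa using huv) ht
  have b6 := bb_pos hh (show v ∉ ({u} : Finset V) by simpa using huv.symm) ht
  have b7 := bb_pos hh (show a ∉ ({b} : Finset V) by simpa using hab) hs1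
  have b8 := bb_pos hh (show b ∉ ({a} : Finset V) by simpa using hab.symm) hs1
  have h0 := hh.nonneg s a b
  have h1 := hz_up hh hab hs1 hQ
  have hHW := HW_four hh huv hua hub hva hvb hab s
  have hAu0 : 0 < Au := by
    by_contra hneg; push Not at hneg; nlinarith
  have hAv0 : 0 < Av := by
    by_contra hneg; push Not at hneg; nlinarith
  calc Real.exp (H u v s) * (h s a b *
        ex (lw h ∅ s) {u, v, a, b} (fun F => RCG.tgt h u t F s * RCG.tgt h v t F s))
      ≤ Real.exp (H u v s) * (h s a b * (Real.exp (-HW H {u, v, a, b} s + K) *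
        (bb h {v, a, b} u t * bb h {u, a, b} v t * bb h {u, v, b} a s *
          bb h {u, v, a} b s))) := by gcongr
    _ ≤ Real.exp (H u v s) * (h s a b * (Real.exp (-HW H {u, v, a, b} s + K) *
        ((Au * bb h {v} u t) * (Av * bb h {u} v t) *
          (Real.exp (H u a s + H v a s + Ya) * bb h {b} a s) *
          (Real.exp (H u b s + H v b s + Yb) * bb h {a} b s)))) := by gcongr
    _ = bb h {v} u t * bb h {u} v t * (Au * Av * Real.exp (K + Ya + Yb)) *
          (h s a b * Real.exp (-H a b s) * (bb h {b} a s * bb h {a} b s)) := by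
        have e : Real.exp (H u v s) * Real.exp (-HW H {u, v, a, b} s + K) *
            Real.exp (H u a s + H v a s + Ya) * Real.exp (H u b s + H v b s + Yb)
            = Real.exp (K + Ya + Yb) * Real.exp (-H a b s) := by
          rw [hHW, ← Real.exp_add, ← Real.exp_add, ← Real.exp_add, ← Real.exp_add]
          congr 1
          ring
        linear_combination (h s a b * Au * bb h {v} u t * Av * bb h {u} v t * bb h {b} a s *
          bb h {a} b s) * e
    _ ≤ bb h {v} u t * bb h {u} v t * (Au * Av * Real.exp (K + Ya + Yb)) *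
          (h s a b * pp h a b s * Real.exp Q) := by
        refine mul_le_mul_of_nonneg_left h1 ?_
        positivity
    _ = _ := by
        rw [show K + Q + Ya + Yb = (K + Ya + Yb) + Q by ring, Real.exp_add (K + Ya + Yb)]
        ring

/-- weight of a pair, lower bound (8.2) -/
theorem g_lo (hh : Haz h H) {u v a b : V} (huv : u ≠ v) (hua : u ≠ a) (hub : u ≠ b)
    (hva : v ≠ a) (hvb : v ≠ b) (hab : a ≠ b) {t : ℝ} (ht : t ∈ Icc (0 : ℝ) 1) {s : ℝ}
    (hs : s ∈ Icc 0 t) {K κ La Lb Lu Lv : ℝ}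
    (hm : Real.exp (-HW H {u, v, a, b} s - K) *
        (bb h {v, a, b} u t * bb h {u, a, b} v t * bb h {u, v, b} a s * bb h {u, v, a} b s)
      ≤ ex (lw h ∅ s) {u, v, a, b} (fun F => RCG.tgt h u t F s * RCG.tgt h v t F s))
    (hκ : Real.exp (H a b s) * pp h a b s ≤ Real.exp κ * (bb h {b} a s * bb h {a} b s))
    (hda : La * bb h {b} a s ≤ bb h {u, v, b} a s) (hdb : Lb * bb h {a} b s ≤ bb h {u, v, a} b s)
    (hLu : Lu * bb h {v} u t ≤ bb h {v, a, b} u t) (hLv : Lv * bb h {u} v t ≤ bb h {u, a, b} v t)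
    (hLa0 : 0 ≤ La) (hLb0 : 0 ≤ Lb) (hLu0 : 0 ≤ Lu) (hLv0 : 0 ≤ Lv) :
    bb h {v} u t * bb h {u} v t * (h s a b * pp h a b s) *
        (Lu * Lv * La * Lb * Real.exp (-(H u a s + H u b s + H v a s + H v b s) - K - κ))
      ≤ Real.exp (H u v s) * (h s a b *
        ex (lw h ∅ s) {u, v, a, b} (fun F => RCG.tgt h u t F s * RCG.tgt h v t F s)) := by
  have hs1 : s ∈ Icc (0 : ℝ) 1 := ⟨hs.1, hs.2.trans ht.2⟩
  have b1 := bb_pos hh (show u ∉ ({v, a, b} : Finset V) by simp [huv, hua, hub]) ht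
  have b2 := bb_pos hh (show v ∉ ({u, a, b} : Finset V) by simp [huv.symm, hva, hvb]) ht
  have b3 := bb_pos hh (show a ∉ ({u, v, b} : Finset V) by simp [hua.symm, hva.symm, hab]) hs1
  have b4 := bb_pos hh (show b ∉ ({u, v, a} : Finset V) by
    simp [hub.symm, hvb.symm, hab.symm]) hs1
  have b5 := bb_pos hh (show u ∉ ({v} : Finset V) by simpa using huv) ht
  have b6 := bb_pos hh (show v ∉ ({u} : Finset V) by simpa using huv.symm) ht
  have b7 := bb_pos hh (show a ∉ ({b} : Finset V) by simpa using hab) hs1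
  have b8 := bb_pos hh (show b ∉ ({a} : Finset V) by simpa using hab.symm) hs1
  have h0 := hh.nonneg s a b
  have h1 := hz_lo hh hκ
  have hHW := HW_four hh huv hua hub hva hvb hab s
  calc bb h {v} u t * bb h {u} v t * (h s a b * pp h a b s) *
        (Lu * Lv * La * Lb * Real.exp (-(H u a s + H u b s + H v a s + H v b s) - K - κ))
      = bb h {v} u t * bb h {u} v t * (Lu * Lv * La * Lb *
          Real.exp (-(H u a s + H u b s + H v a s + H v b s) - K)) *
          (h s a b * pp h a b s * Real.exp (-κ)) := by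
        rw [show -(H u a s + H u b s + H v a s + H v b s) - K - κ
          = (-(H u a s + H u b s + H v a s + H v b s) - K) + -κ by ring, Real.exp_add _ (-κ)]
        ring
    _ ≤ bb h {v} u t * bb h {u} v t * (Lu * Lv * La * Lb *
          Real.exp (-(H u a s + H u b s + H v a s + H v b s) - K)) *
          (h s a b * Real.exp (-H a b s) * (bb h {b} a s * bb h {a} b s)) := by
        refine mul_le_mul_of_nonneg_left h1 ?_
        positivity
    _ = Real.exp (H u v s) * (h s a b * (Real.exp (-HW H {u, v, a, b} s - K) *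
        ((Lu * bb h {v} u t) * (Lv * bb h {u} v t) * (La * bb h {b} a s) *
          (Lb * bb h {a} b s)))) := by
        have e : Real.exp (H u v s) * Real.exp (-HW H {u, v, a, b} s - K)
            = Real.exp (-(H u a s + H u b s + H v a s + H v b s) - K) * Real.exp (-H a b s) := by
          rw [hHW, ← Real.exp_add, ← Real.exp_add]
          congr 1
          ring
        linear_combination (-(h s a b * Lu * bb h {v} u t * Lv * bb h {u} v t * La *
          bb h {b} a s * Lb * bb h {a} b s)) * e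
    _ ≤ Real.exp (H u v s) * (h s a b * (Real.exp (-HW H {u, v, a, b} s - K) *
        (bb h {v, a, b} u t * bb h {u, a, b} v t * bb h {u, v, b} a s *
          bb h {u, v, a} b s))) := by gcongr
    _ ≤ _ := by gcongr

/-- The Gamma-part: lower bound with costs and gains. -/
theorem gam_assemble (hh : Haz h H) {u v : V} (huv : u ≠ v) {t : ℝ} (ht : t ∈ Icc (0 : ℝ) 1)
    {pu Pu Nu pv Pv Nv : V → ℝ → ℝ}
    (hlow : ∀ s ∈ Icc 0 t,
      (1 / 2) * ∑ a ∈ ({u, v} : Finset V)ᶜ, ∑ b ∈ ({u, v} : Finset V)ᶜ, h s a b *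
        gC (fun a => pu a s) (fun a => Pu a s) (fun a => Nu a s) (fun a => pv a s)
          (fun a => Pv a s) (fun a => Nv a s) a b *
          ex (lw h ∅ s) {u, v, a, b} (fun F => RCG.tgt h u t F s * RCG.tgt h v t F s)
        ≤ ex (lw h ∅ s) {u, v} (fun F => cov (h s) (fun G => RCG.tgt h u t G s)
            (fun G => RCG.tgt h v t G s) F))
    {U L c : V → V → ℝ → ℝ}
    (hU : ∀ s ∈ Icc 0 t, ∀ a ∈ ({u, v} : Finset V)ᶜ, ∀ b ∈ ({u, v} : Finset V)ᶜ, a ≠ b →
      Real.exp (H u v s) * (h s a b *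
        ex (lw h ∅ s) {u, v, a, b} (fun F => RCG.tgt h u t F s * RCG.tgt h v t F s))
      ≤ bb h {v} u t * bb h {u} v t * (h s a b * pp h a b s) * U a b s)
    (hL : ∀ s ∈ Icc 0 t, ∀ a ∈ ({u, v} : Finset V)ᶜ, ∀ b ∈ ({u, v} : Finset V)ᶜ, a ≠ b →
      bb h {v} u t * bb h {u} v t * (h s a b * pp h a b s) * L a b s
      ≤ Real.exp (H u v s) * (h s a b *
        ex (lw h ∅ s) {u, v, a, b} (fun F => RCG.tgt h u t F s * RCG.tgt h v t F s)))
    (hg0 : ∀ s ∈ Icc 0 t, ∀ a ∈ ({u, v} : Finset V)ᶜ, ∀ b ∈ ({u, v} : Finset V)ᶜ,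
      0 ≤ gA (pu a s) (pu b s) * gA (pv a s) (pv b s))
    (hc0 : ∀ s ∈ Icc 0 t, ∀ a ∈ ({u, v} : Finset V)ᶜ, ∀ b ∈ ({u, v} : Finset V)ᶜ,
      0 ≤ gN (pv a s) (pv b s) (Nv a s) (Nv b s) * gP (Pu a s) (Pu b s)
        + gN (pu a s) (pu b s) (Nu a s) (Nu b s) * gP (Pv a s) (Pv b s))
    (hc : ∀ s ∈ Icc 0 t, ∀ a ∈ ({u, v} : Finset V)ᶜ, ∀ b ∈ ({u, v} : Finset V)ᶜ, a ≠ b →
      c a b s ≤ gA (pu a s) (pu b s) * gA (pv a s) (pv b s) * L a b s
        - (gN (pv a s) (pv b s) (Nv a s) (Nv b s) * gP (Pu a s) (Pu b s)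
        + gN (pu a s) (pu b s) (Nu a s) (Nu b s) * gP (Pv a s) (Pv b s)) * U a b s)
    {Γ g : ℝ → ℝ} (hΓ : ∀ s ∈ Icc 0 t, HasDerivAt Γ (g s) s)
    (hg : ∀ s ∈ Icc 0 t, g s ≤ (1 / 2) * ∑ a ∈ ({u, v} : Finset V)ᶜ, ∑ b ∈ ({u, v} : Finset V)ᶜ,
      (h s a b * pp h a b s) * c a b s) :
    bb h {v} u t * bb h {u} v t * (1 + (Γ t - Γ 0)) ≤ Real.exp (H u v t) * pp h u v t := by
  have key := le_duh2 hh huv ht (Γ := fun s => bb h {v} u t * bb h {u} v t * Γ s)
    (g := fun s => bb h {v} u t * bb h {u} v t * g s) (fun s hs => (hΓ s hs).const_mul _)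
    (fun s hs => ?_)
  · linarith
  · have hs1 : s ∈ Icc (0 : ℝ) 1 := ⟨hs.1, hs.2.trans ht.2⟩
    have hb0 : 0 ≤ bb h {v} u t * bb h {u} v t :=
      mul_nonneg (bb_nonneg hh _ _ ht) (bb_nonneg hh _ _ ht)
    have h1 := mul_le_mul_of_nonneg_left (hlow s hs) (Real.exp_pos (H u v s)).le
    refine le_trans ?_ h1
    have h2 := mul_le_mul_of_nonneg_left (hg s hs) hb0
    refine h2.trans ?_
    have e1 : bb h {v} u t * bb h {u} v t * ((1 / 2) * ∑ a ∈ ({u, v} : Finset V)ᶜ,
          ∑ b ∈ ({u, v} : Finset V)ᶜ, (h s a b * pp h a b s) * c a b s)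
        = (1 / 2) * ∑ a ∈ ({u, v} : Finset V)ᶜ, ∑ b ∈ ({u, v} : Finset V)ᶜ,
          bb h {v} u t * bb h {u} v t * ((h s a b * pp h a b s) * c a b s) := by
      rw [mul_left_comm, Finset.mul_sum]
      simp_rw [Finset.mul_sum]
    have e2 : Real.exp (H u v s) * ((1 / 2) * ∑ a ∈ ({u, v} : Finset V)ᶜ,
          ∑ b ∈ ({u, v} : Finset V)ᶜ, h s a b *
        gC (fun a => pu a s) (fun a => Pu a s) (fun a => Nu a s) (fun a => pv a s)
          (fun a => Pv a s) (fun a => Nv a s) a b *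
          ex (lw h ∅ s) {u, v, a, b} (fun F => RCG.tgt h u t F s * RCG.tgt h v t F s))
        = (1 / 2) * ∑ a ∈ ({u, v} : Finset V)ᶜ, ∑ b ∈ ({u, v} : Finset V)ᶜ,
          Real.exp (H u v s) * (h s a b *
        gC (fun a => pu a s) (fun a => Pu a s) (fun a => Nu a s) (fun a => pv a s)
          (fun a => Pv a s) (fun a => Nv a s) a b *
          ex (lw h ∅ s) {u, v, a, b} (fun F => RCG.tgt h u t F s * RCG.tgt h v t F s)) := by
      rw [mul_left_comm, Finset.mul_sum]
      simp_rw [Finset.mul_sum]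
    rw [e1, e2]
    refine mul_le_mul_of_nonneg_left (Finset.sum_le_sum fun a ha => Finset.sum_le_sum
      fun b hb => ?_) (by norm_num)
    rcases eq_or_ne a b with rfl | hab
    · rw [hh.diag]; simp
    have hf : 0 ≤ bb h {v} u t * bb h {u} v t * (h s a b * pp h a b s) :=
      mul_nonneg hb0 (mul_nonneg (hh.nonneg _ _ _) (pp_nonneg hh _ _ hs1))
    have i1 := hU s hs a ha b hb hab
    have i2 := hL s hs a ha b hb hab
    have i3 := hc s hs a ha b hb hab
    have i4 := hg0 s hs a ha b hb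
    have i5 := hc0 s hs a ha b hb
    have j1 := mul_le_mul_of_nonneg_left i3 hf
    have j2 := mul_le_mul_of_nonneg_left i2 i4
    have j3 := mul_le_mul_of_nonneg_left i1 i5
    unfold gC
    nlinarith

/-- Final assembly (section 9). -/
theorem assemble (hh : Haz h H) {u v : V} (huv : u ≠ v) {t : ℝ} (ht : t ∈ Icc (0 : ℝ) 1)
    {G ηu ηv Eu Ev : ℝ}
    (hG : bb h {v} u t * bb h {u} v t * (1 - G) ≤ Real.exp (H u v t) * pp h u v t) (hG1 : G ≤ 1)
    (hu : Wr h u v t ≤ Real.exp (-Eu) * (1 + ηu)) (hv : Wr h v u t ≤ Real.exp (-Ev) * (1 + ηv))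
    (hηu : 0 ≤ ηu) (hηv : 0 ≤ ηv) (hG0 : 0 ≤ G) :
    bb h ∅ u t * Real.exp Eu * (bb h ∅ v t * Real.exp Ev) * (1 - (G + ηu + ηv))
      ≤ Real.exp (H u v t) * pp h u v t := by
  refine le_trans ?_ hG
  have au := bb_pos hh (show u ∉ (∅ : Finset V) by simp) ht
  have av := bb_pos hh (show v ∉ (∅ : Finset V) by simp) ht
  have bu := bb_pos hh (show u ∉ ({v} : Finset V) by simpa using huv) ht
  have bv := bb_pos hh (show v ∉ ({u} : Finset V) by simpa using huv.symm) ht
  have h1 : bb h ∅ u t * Real.exp Eu * (1 - ηu) ≤ bb h {v} u t := by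
    have e1 := Wr_mul hh huv ht
    have e2 : bb h ∅ u t ≤ Real.exp (-Eu) * (1 + ηu) * bb h {v} u t := by
      rw [← e1]; exact mul_le_mul_of_nonneg_right hu bu.le
    have e3 : bb h ∅ u t * Real.exp Eu ≤ (1 + ηu) * bb h {v} u t := by
      have := mul_le_mul_of_nonneg_left e2 (Real.exp_pos Eu).le
      have e4 : Real.exp Eu * Real.exp (-Eu) = 1 := by
        rw [← Real.exp_add, add_neg_cancel, Real.exp_zero]
      calc bb h ∅ u t * Real.exp Eu = Real.exp Eu * bb h ∅ u t := mul_comm _ _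
        _ ≤ _ := this
        _ = (Real.exp Eu * Real.exp (-Eu)) * ((1 + ηu) * bb h {v} u t) := by ring
        _ = _ := by rw [e4, one_mul]
    by_cases hη1 : ηu ≤ 1
    · have := mul_le_mul_of_nonneg_right e3 (by linarith : 0 ≤ 1 - ηu)
      nlinarith [mul_nonneg bu.le (mul_self_nonneg ηu)]
    · push Not at hη1
      have : bb h ∅ u t * Real.exp Eu * (1 - ηu) ≤ 0 :=
        mul_nonpos_of_nonneg_of_nonpos (by positivity) (by linarith)
      linarith
  have h2 : bb h ∅ v t * Real.exp Ev * (1 - ηv) ≤ bb h {u} v t := by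
    have e1 := Wr_mul hh huv.symm ht
    have e2 : bb h ∅ v t ≤ Real.exp (-Ev) * (1 + ηv) * bb h {u} v t := by
      rw [← e1]; exact mul_le_mul_of_nonneg_right hv bv.le
    have e3 : bb h ∅ v t * Real.exp Ev ≤ (1 + ηv) * bb h {u} v t := by
      have := mul_le_mul_of_nonneg_left e2 (Real.exp_pos Ev).le
      have e4 : Real.exp Ev * Real.exp (-Ev) = 1 := by
        rw [← Real.exp_add, add_neg_cancel, Real.exp_zero]
      calc bb h ∅ v t * Real.exp Ev = Real.exp Ev * bb h ∅ v t := mul_comm _ _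
        _ ≤ _ := this
        _ = (Real.exp Ev * Real.exp (-Ev)) * ((1 + ηv) * bb h {u} v t) := by ring
        _ = _ := by rw [e4, one_mul]
    by_cases hη1 : ηv ≤ 1
    · have := mul_le_mul_of_nonneg_right e3 (by linarith : 0 ≤ 1 - ηv)
      nlinarith [mul_nonneg bv.le (mul_self_nonneg ηv)]
    · push Not at hη1
      have : bb h ∅ v t * Real.exp Ev * (1 - ηv) ≤ 0 :=
        mul_nonpos_of_nonneg_of_nonpos (by positivity) (by linarith)
      linarith
  have hX : 0 < bb h ∅ u t * Real.exp Eu := by positivity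
  have hY : 0 < bb h ∅ v t * Real.exp Ev := by positivity
  set X := bb h ∅ u t * Real.exp Eu with hXd
  set Y := bb h ∅ v t * Real.exp Ev with hYd
  by_cases hs : G + ηu + ηv ≤ 1
  · have k1 : X * (1 - ηu) * (Y * (1 - ηv)) ≤ bb h {v} u t * bb h {u} v t := by
      have : 0 ≤ 1 - ηv := by linarith
      exact mul_le_mul h1 h2 (by positivity) bu.le
    have k2 := mul_le_mul_of_nonneg_right k1 (by linarith : 0 ≤ 1 - G)
    refine le_trans ?_ k2
    have k3 : 1 - (G + ηu + ηv) ≤ (1 - ηu) * (1 - ηv) * (1 - G) := by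
      have : 0 ≤ ηu * ηv := mul_nonneg hηu hηv
      nlinarith [mul_nonneg hG0 hηu, mul_nonneg hG0 hηv, mul_nonneg (mul_nonneg hηu hηv)
        (by linarith : 0 ≤ 1 - G)]
    calc X * Y * (1 - (G + ηu + ηv)) ≤ X * Y * ((1 - ηu) * (1 - ηv) * (1 - G)) :=
          mul_le_mul_of_nonneg_left k3 (by positivity)
      _ = _ := by ring
  · push Not at hs
    have k1 : X * Y * (1 - (G + ηu + ηv)) ≤ 0 :=
      mul_nonpos_of_nonneg_of_nonpos (by positivity) (by linarith)
    have k2 : 0 ≤ bb h {v} u t * bb h {u} v t * (1 - G) :=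
      mul_nonneg (mul_nonneg bu.le bv.le) (by linarith)
    linarith

end Pool.Agent.RCG
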