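import Pool.Agent.RCG.GlueD

/-! The A-lemma in flux form, deletion marks, closures in the uniform clock (MP_73ccd0_lc, general
graphs). -/

namespace Pool.Agent.RCG

open Set Finset Pool.Agent.RCRSHalf

set_option linter.unusedSectionVars false

variable {V : Type*} [Fintype V] [DecidableEq V]
variable {h : ℝ → V → V → ℝ} {H : V → V → ℝ → ℝ}

/-- The A-lemma (5.2) in flux form. -/
theorem aLem_flux (hh : Haz h H) {D : Finset V} {p q : V} (hp : p ∉ D) (hq : q ∉ D) (hpq : p ≠ q)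
    {T : ℝ} (hT : T ∈ Icc (0 : ℝ) 1) {P N : V → ℝ → ℝ}
    (hI : Inf (insert p (insert q D))ᶜ T (RCG.tgt h p T) P N)
    {yb κ Q r β : ℝ → ℝ}
    (hyb : ∀ s ∈ Icc 0 T, ∑ w ∈ (insert p (insert q D))ᶜ, h s q w * N w s ≤ yb s)
    (hyb0 : ∀ s ∈ Icc 0 T, 0 ≤ yb s)
    (hcmp : ∀ s ∈ Icc 0 T, ex (lw h D s) {p, q} (fun F => RCG.tgt h p T F s)
      ≤ Real.exp (-H p q s + κ s) * (bb h (insert q D) p T * bb h (insert p D) q s))
    (hQ : ∀ s ∈ Icc 0 T, Real.exp (-Q s) * (bb h {q} p s * bb h {p} q s)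
      ≤ Real.exp (H p q s) * pp h p q s)
    (hr : ∀ s ∈ Icc 0 T, bb h (insert p D) q s ≤ r s * bb h {p} q s)
    (hβ : ∀ s ∈ Icc 0 T, Real.exp (-H p q s) * bb h (insert p D) q s ≤ β s)
    {Γ g : ℝ → ℝ} (hΓ : ∀ s ∈ Icc 0 T, HasDerivAt Γ (g s) s)
    (hg : ∀ s ∈ Icc 0 T,
      h s p q * pp h p q s / bb h ∅ p s * Wr h p q s * r s * Real.exp (κ s + Q s)
        + yb s * Real.exp (κ s) * β s ≤ g s) :
    bb h (insert q D) p T * (1 - (Γ T - Γ 0)) ≤ bb h D p T := by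
  refine aLem hh hp hq hpq hT hI hyb hcmp hΓ fun s hs => le_trans ?_ (hg s hs)
  have hs1 : s ∈ Icc (0 : ℝ) 1 := ⟨hs.1, hs.2.trans hT.2⟩
  have bp := bb_pos hh (show p ∉ ({q} : Finset V) by simpa using hpq) hs1
  have bq := bb_pos hh (show q ∉ ({p} : Finset V) by simpa using hpq.symm) hs1
  have e0 : h s p q * pp h p q s / bb h ∅ p s * Wr h p q s
      = h s p q * pp h p q s * (bb h {q} p s)⁻¹ := by
    rw [inv_bb hh hpq hs1]; ring
  rw [e0]
  have h0 := hh.nonneg s p q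
  have h1 := hz_up hh hpq hs1 (hQ s hs)
  have hr0 : 0 ≤ r s := by
    by_contra hneg
    push Not at hneg
    have h4 := hr s hs
    have h5 : 0 ≤ bb h (insert p D) q s := bb_nonneg hh _ _ hs1
    nlinarith
  rw [add_mul]
  refine add_le_add ?_ ?_
  · calc h s p q * (Real.exp (-H p q s + κ s) * bb h (insert p D) q s)
        ≤ h s p q * (Real.exp (-H p q s + κ s) * (r s * bb h {p} q s)) := by
          have := hr s hs
          gcongr
      _ = (bb h {q} p s)⁻¹ * r s * Real.exp (κ s) *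
            (h s p q * Real.exp (-H p q s) * (bb h {q} p s * bb h {p} q s)) := by
          rw [Real.exp_add]
          field_simp
      _ ≤ (bb h {q} p s)⁻¹ * r s * Real.exp (κ s) * (h s p q * pp h p q s * Real.exp (Q s)) :=
          mul_le_mul_of_nonneg_left h1 (by positivity)
      _ = _ := by rw [Real.exp_add]; ring
  · have := mul_le_mul_of_nonneg_left (hβ s hs)
      (mul_nonneg (hyb0 s hs) (Real.exp_pos (κ s)).le)
    calc yb s * (Real.exp (-H p q s + κ s) * bb h (insert p D) q s)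
        = yb s * Real.exp (κ s) * (Real.exp (-H p q s) * bb h (insert p D) q s) := by
          rw [Real.exp_add]; ring
      _ ≤ _ := this

/-- consequence: bound of the ratio -/
theorem ratio_of_aLem {x y o : ℝ} (ho : o < 1) (h : x * (1 - o) ≤ y) : x ≤ (1 - o)⁻¹ * y := by
  have : 0 < 1 - o := by linarith
  rw [inv_mul_eq_div, le_div_iff₀ this]
  exact h

/-- cumulative hazards in the clock -/
theorem Haz.clock (hh : Haz h H) {x : V → V → ℝ} {M μ : ℝ → ℝ} {T : ℝ}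
    (hM : ∀ r ∈ Icc 0 T, HasDerivAt M (μ r) r)
    (hle : ∀ r ∈ Icc 0 T, ∀ a b, h r a b ≤ μ r * x a b) (a b : V) {r s : ℝ} (hr : 0 ≤ r)
    (hrs : r ≤ s) (hs : s ≤ T) : H a b s - H a b r ≤ (M s - M r) * x a b := by
  have := nonneg_of_forward (U := fun z => (M z - M r) * x a b - (H a b z - H a b r))
    (U' := fun z => μ z * x a b - h z a b) (a := r) (s := s)
    (fun z hz => by
      have hz' : z ∈ Icc 0 T := ⟨hr.trans hz.1, hz.2.trans hs⟩
      exact (((hM z hz').sub_const _).mul_const _).sub ((hh.Hd a b z).sub_const _))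
    (by simp) (fun z hz _ => by
      have hz' : z ∈ Icc 0 T := ⟨hr.trans hz.1, hz.2.trans hs⟩
      linarith [hle z hz' a b]) s ⟨hrs, le_rfl⟩
  linarith

/-- Closure data in the uniform clock. The functions `N a`, `Y a` depend on `m = M T - M r`. -/
theorem Clo.of_clock (hh : Haz h H) {x : V → V → ℝ} {M μ : ℝ → ℝ} {T m1 : ℝ} {w : V}
    {H0 : Finset V} (hT0 : 0 ≤ T)
    (hM : ∀ r ∈ Icc 0 T, HasDerivAt M (μ r) r) (hμ : ∀ r ∈ Icc 0 T, 0 ≤ μ r)
    (hm : ∀ r ∈ Icc 0 T, M T - M r ∈ Icc 0 m1)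
    (hx0 : ∀ a b, 0 ≤ x a b)
    (hle : ∀ r ∈ Icc 0 T, ∀ a b, h r a b ≤ μ r * x a b)
    {N N' Y Y' : V → ℝ → ℝ}
    (hN0 : ∀ a ∈ H0, ∀ m ∈ Icc 0 m1, 0 ≤ N a m) (hN1 : ∀ a ∈ H0, ∀ m ∈ Icc 0 m1, N a m ≤ 1)
    (hY0 : ∀ a ∈ H0, ∀ m ∈ Icc 0 m1, 0 ≤ Y a m)
    (hNd : ∀ a ∈ H0, ∀ m ∈ Icc 0 m1, HasDerivAt (N a) (N' a m) m)
    (hYd : ∀ a ∈ H0, ∀ m ∈ Icc 0 m1, HasDerivAt (Y a) (Y' a m) m)
    (hN : ∀ a ∈ H0, ∀ m ∈ Icc 0 m1,
      ∑ b ∈ H0, x a b * (Real.exp (m * x w b + Y b m) - 1) ≤ N' a m)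
    (hY : ∀ a ∈ H0, ∀ m ∈ Icc 0 m1, ∑ b ∈ H0, x a b * N b m ≤ Y' a m) :
    Clo h w H0 T (fun a r => Real.exp (H w a T - H w a r + Y a (M T - M r)) - 1)
      (fun a r => N a (M T - M r)) := by
  have hmd : ∀ r ∈ Icc 0 T, HasDerivAt (fun r => M T - M r) (-μ r) r := fun r hr =>
    (hM r hr).const_sub (M T)
  refine Clo.mk_exp hh (Y := fun a r => Y a (M T - M r)) (Y' := fun a r => Y' a (M T - M r) * -μ r)
    (N' := fun a r => N' a (M T - M r) * -μ r) hT0
    (fun a ha r hr => hY0 a ha _ (hm r hr)) (fun a ha r hr => hN0 a ha _ (hm r hr))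
    (fun a ha r hr => hN1 a ha _ (hm r hr))
    (fun a ha r hr => (hYd a ha _ (hm r hr)).comp r (hmd r hr))
    (fun a ha r hr => (hNd a ha _ (hm r hr)).comp r (hmd r hr)) (fun a ha r hr => ?_)
    (fun a ha r hr => ?_)
  · have h1 := mul_le_mul_of_nonneg_left (hY a ha _ (hm r hr)) (hμ r hr)
    rw [mul_neg, neg_neg, mul_comm (Y' a _)]
    refine le_trans ?_ h1
    rw [Finset.mul_sum]
    refine Finset.sum_le_sum fun b hb => ?_
    have := mul_le_mul_of_nonneg_right (hle r hr a b) (hN0 b hb _ (hm r hr))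
    linarith
  · have h1 := mul_le_mul_of_nonneg_left (hN a ha _ (hm r hr)) (hμ r hr)
    rw [mul_neg, neg_neg, mul_comm (N' a _)]
    refine le_trans ?_ h1
    rw [Finset.mul_sum]
    refine Finset.sum_le_sum fun b hb => ?_
    have hK := hh.clock hM hle w b hr.1 hr.2 le_rfl
    have hK0 : 0 ≤ H w b T - H w b r := by linarith [hh.Hmono w b hr.2]
    have hYb := hY0 b hb _ (hm r hr)
    have e1 : Real.exp (H w b T - H w b r + Y b (M T - M r)) - 1
        ≤ Real.exp ((M T - M r) * x w b + Y b (M T - M r)) - 1 := by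
      have := Real.exp_le_exp.2 (add_le_add_left hK (Y b (M T - M r)))
      linarith
    have e2 : 0 ≤ Real.exp (H w b T - H w b r + Y b (M T - M r)) - 1 := by
      have := Real.one_le_exp (add_nonneg hK0 hYb); linarith
    calc h r a b * (Real.exp (H w b T - H w b r + Y b (M T - M r)) - 1)
        ≤ (μ r * x a b) * (Real.exp (H w b T - H w b r + Y b (M T - M r)) - 1) :=
          mul_le_mul_of_nonneg_right (hle r hr a b) e2
      _ ≤ (μ r * x a b) * (Real.exp ((M T - M r) * x w b + Y b (M T - M r)) - 1) :=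
          mul_le_mul_of_nonneg_left e1 (mul_nonneg (hμ r hr) (hx0 a b))
      _ = _ := by ring

end Pool.Agent.RCG
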