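import Pool.Agent.RCG.GlueE
import Pool.Agent.RCG.CostA

/-! The flux-level cost in multiplicative form (MP_73ccd0_lc, general graphs). -/

namespace Pool.Agent.RCG

open Set Finset Pool.Agent.RCRSHalf

set_option linter.unusedSectionVars false

variable {V : Type*} [Fintype V] [DecidableEq V]
variable {h : ℝ → V → V → ℝ} {H : V → V → ℝ → ℝ}

/-- the source expectation is bounded by a flux integral, general world -/
theorem zx_fluxD (hh : Haz h H) {v c : V} (hvc : v ≠ c) {D : Finset V} {t : ℝ}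
    (ht : t ∈ Icc (0 : ℝ) 1) {Q A J J' : ℝ → ℝ}
    (hQ : ∀ r ∈ Icc 0 t, Real.exp (-Q r) * (bb h {c} v r * bb h {v} c r)
      ≤ Real.exp (H v c r) * pp h v c r)
    (hA : ∀ r ∈ Icc 0 t, bb h D c r ≤ A r * bb h {v} c r)
    (hJ : ∀ s ∈ Icc 0 t, HasDerivAt J (J' s) s) (hJt : 0 ≤ J t)
    (hJ' : ∀ r ∈ Icc 0 t, h r v c * pp h v c r / bb h ∅ v r * Wr h v c r * A r * Real.exp (Q r)
      ≤ -J' r) :
    ∀ s ∈ Icc 0 t, zx h H D v c t s ≤ J s := by
  refine zx_le hh ht hJ hJt fun r hr => le_trans ?_ (hJ' r hr)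
  have hr1 : r ∈ Icc (0 : ℝ) 1 := ⟨hr.1, hr.2.trans ht.2⟩
  have hb := bb_pos hh (show v ∉ ({c} : Finset V) by simpa using hvc) hr1
  have hb2 := bb_pos hh (show c ∉ ({v} : Finset V) by simpa using hvc.symm) hr1
  have e0 : h r v c * pp h v c r / bb h ∅ v r * Wr h v c r
      = h r v c * pp h v c r * (bb h {c} v r)⁻¹ := by
    rw [inv_bb hh hvc hr1]; ring
  rw [e0]
  have h1 := hz_up hh hvc hr1 (hQ r hr)
  have hA0 : 0 ≤ A r := by
    by_contra hneg
    push Not at hneg
    have h4 := hA r hr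
    have h5 : 0 ≤ bb h D c r := bb_nonneg hh _ _ hr1
    nlinarith
  have h0 := hh.nonneg r v c
  calc h r v c * Real.exp (-H v c r) * bb h D c r
      ≤ h r v c * Real.exp (-H v c r) * (A r * bb h {v} c r) :=
        mul_le_mul_of_nonneg_left (hA r hr) (by positivity)
    _ = (bb h {c} v r)⁻¹ * A r *
          (h r v c * Real.exp (-H v c r) * (bb h {c} v r * bb h {v} c r)) := by
        field_simp
    _ ≤ (bb h {c} v r)⁻¹ * A r * (h r v c * pp h v c r * Real.exp (Q r)) :=
        mul_le_mul_of_nonneg_left h1 (by positivity)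
    _ = _ := by ring

/-- the expectation of the two-vertex function is bounded by a double flux integral -/
theorem zp_flux (hh : Haz h H) {v a c : V} (hac : a ≠ c) {D : Finset V} {t : ℝ}
    (ht : t ∈ Icc (0 : ℝ) 1) {κ Q A Jx J J' : ℝ → ℝ}
    (hps : ∀ r ∈ Icc 0 t, ex (lw h D r) {a, c} (fun F => RCG.src h v c t F r)
      ≤ Real.exp (-H a c r + κ r) *
        (bb h (insert c D) a r * (Real.exp (H v c r) * zx h H (insert a D) v c t r)))
    (hQ : ∀ r ∈ Icc 0 t, Real.exp (-Q r) * (bb h {c} a r * bb h {a} c r)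
      ≤ Real.exp (H a c r) * pp h a c r)
    (hA : ∀ r ∈ Icc 0 t, bb h (insert c D) a r ≤ A r * bb h {c} a r)
    (hz : ∀ r ∈ Icc 0 t, zx h H (insert a D) v c t r ≤ Jx r)
    (hJ : ∀ s ∈ Icc 0 t, HasDerivAt J (J' s) s) (hJt : 0 ≤ J t)
    (hJ' : ∀ r ∈ Icc 0 t, h r a c * pp h a c r / bb h ∅ c r * Wr h c a r * A r *
      Real.exp (Q r + κ r - H v a r) * Jx r ≤ -J' r) :
    ∀ s ∈ Icc 0 t, Real.exp (-(H v a s + H v c s)) * zp h D v a c t s ≤ J s := by
  refine zp_le hh hac ht hJ hJt fun r hr => le_trans ?_ (hJ' r hr)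
  have hr1 : r ∈ Icc (0 : ℝ) 1 := ⟨hr.1, hr.2.trans ht.2⟩
  have hb := bb_pos hh (show c ∉ ({a} : Finset V) by simpa using hac.symm) hr1
  have hb2 := bb_pos hh (show a ∉ ({c} : Finset V) by simpa using hac) hr1
  have e0 : h r a c * pp h a c r / bb h ∅ c r * Wr h c a r
      = h r a c * pp h a c r * (bb h {a} c r)⁻¹ := by
    rw [inv_bb hh hac.symm hr1]; ring
  rw [e0]
  have h1 := hz_up hh hac hr1 (hQ r hr)
  have hA0 : 0 ≤ A r := by
    by_contra hneg
    push Not at hneg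
    have h4 := hA r hr
    have h5 : 0 ≤ bb h (insert c D) a r := bb_nonneg hh _ _ hr1
    nlinarith
  have h0 := hh.nonneg r a c
  have hz0 := zx_nonneg hh (insert a D) v c ht hr
  have hJx0 : 0 ≤ Jx r := hz0.trans (hz r hr)
  have hbb0 : 0 ≤ bb h (insert c D) a r := bb_nonneg hh _ _ hr1
  calc Real.exp (-(H v a r + H v c r)) *
        (h r a c * ex (lw h D r) {a, c} (fun F => RCG.src h v c t F r))
      ≤ Real.exp (-(H v a r + H v c r)) * (h r a c * (Real.exp (-H a c r + κ r) *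
        (bb h (insert c D) a r * (Real.exp (H v c r) * zx h H (insert a D) v c t r)))) := by
        have := hps r hr
        gcongr
    _ ≤ Real.exp (-(H v a r + H v c r)) * (h r a c * (Real.exp (-H a c r + κ r) *
        ((A r * bb h {c} a r) * (Real.exp (H v c r) * Jx r)))) := by
        have := hA r hr
        have := hz r hr
        gcongr
    _ = (bb h {a} c r)⁻¹ * A r * Real.exp (κ r - H v a r) * Jx r *
          (h r a c * Real.exp (-H a c r) * (bb h {c} a r * bb h {a} c r)) := by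
        have e : Real.exp (-(H v a r + H v c r)) * Real.exp (-H a c r + κ r) *
            Real.exp (H v c r) = Real.exp (κ r - H v a r) * Real.exp (-H a c r) := by
          rw [← Real.exp_add, ← Real.exp_add, ← Real.exp_add]
          congr 1
          ring
        have e2 : (bb h {a} c r)⁻¹ * bb h {a} c r = 1 := inv_mul_cancel₀ hb.ne'
        linear_combination (h r a c * A r * bb h {c} a r * Jx r) * e
          - (A r * Real.exp (κ r - H v a r) * Jx r * h r a c * Real.exp (-H a c r) *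
            bb h {c} a r) * e2
    _ ≤ (bb h {a} c r)⁻¹ * A r * Real.exp (κ r - H v a r) * Jx r *
          (h r a c * pp h a c r * Real.exp (Q r)) :=
        mul_le_mul_of_nonneg_left h1 (by positivity)
    _ = _ := by
        rw [show Q r + κ r - H v a r = (κ r - H v a r) + Q r by ring,
          Real.exp_add (κ r - H v a r)]
        ring

/-- weight of a triple, upper bound -/
theorem five_up (hh : Haz h H) {u v b a c : V} (huv : u ≠ v) (hub : u ≠ b) (hua : u ≠ a)
    (hvb : v ≠ b) (hva : v ≠ a) (hvc : v ≠ c) (hba : b ≠ a) (hbc : b ≠ c)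
    {t : ℝ} (ht : t ∈ Icc (0 : ℝ) 1) {s : ℝ}
    (hs : s ∈ Icc 0 t) {K Q Yb Au Av J nc : ℝ}
    (hm : ex (lw h ∅ s) {u, v, b, a, c}
        (fun F => RCG.tgt h u t (insert c F) s * RCG.tgt h v t F s * RCG.prf h v a c t F s)
      ≤ Real.exp (-(H u v s + H u b s + H u a s + H u c s + H v b s + H v a s + H v c s
          + H b a s + H b c s) + K) *
        (px h {v, b, a, c} u c t s * bb h {u, b, a, c} v t * bb h {u, v, a, c} b s *
          zp h {u, v, b} v a c t s))
    (hpx : px h {v, b, a, c} u c t s ≤ bb h {v, b, a} u t * Real.exp (H u c s + nc))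
    (hQ : Real.exp (-Q) * (bb h {b} a s * bb h {a} b s) ≤ Real.exp (H a b s) * pp h a b s)
    (hdb : bb h {u, v, a, c} b s ≤ Real.exp (H u b s + H v b s + H b c s + Yb) * bb h {a} b s)
    (hAu : bb h {v, b, a} u t ≤ Au * bb h {v} u t)
    (hAv : bb h {u, b, a, c} v t ≤ Av * bb h {u} v t)
    (hJ : Real.exp (-(H v a s + H v c s)) * zp h {u, v, b} v a c t s ≤ J) :
    Real.exp (H u v s) * (h s a b * ex (lw h ∅ s) {u, v, b, a, c}
        (fun F => RCG.tgt h u t (insert c F) s * RCG.tgt h v t F s * RCG.prf h v a c t F s))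
      ≤ bb h {v} u t * bb h {u} v t * (h s a b * pp h a b s / bb h ∅ a s * Wr h a b s *
        (Au * Av * Real.exp (K + Q + Yb + nc - H u a s) * J)) := by
  have hs1 : s ∈ Icc (0 : ℝ) 1 := ⟨hs.1, hs.2.trans ht.2⟩
  have b1 := bb_pos hh (show u ∉ ({v, b, a} : Finset V) by simp [huv, hub, hua]) ht
  have b2 := bb_pos hh (show v ∉ ({u, b, a, c} : Finset V) by
    simp [huv.symm, hvb, hva, hvc]) ht
  have b3 := bb_pos hh (show b ∉ ({u, v, a, c} : Finset V) by
    simp [hub.symm, hvb.symm, hba, hbc]) hs1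
  have b5 := bb_pos hh (show u ∉ ({v} : Finset V) by simpa using huv) ht
  have b6 := bb_pos hh (show v ∉ ({u} : Finset V) by simpa using huv.symm) ht
  have b7 := bb_pos hh (show a ∉ ({b} : Finset V) by simpa using hba.symm) hs1
  have b8 := bb_pos hh (show b ∉ ({a} : Finset V) by simpa using hba) hs1
  have h0 := hh.nonneg s a b
  have h1 := hz_up hh hba.symm hs1 hQ
  have hAu0 : 0 < Au := by
    by_contra hneg; push Not at hneg; nlinarith
  have hAv0 : 0 < Av := by
    by_contra hneg; push Not at hneg; nlinarith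
  have hz0 := zp_nonneg hh {u, v, b} v a c ht hs
  have hJ0 : 0 ≤ J := (mul_nonneg (Real.exp_pos _).le hz0).trans hJ
  have hpx0 : 0 ≤ px h {v, b, a, c} u c t s :=
    ex_nonneg (fun F => (hh.lw _).nonneg F s hs1) fun F => (hh.tgt u ht).ev.nonneg _ s hs
  have e0 : h s a b * pp h a b s / bb h ∅ a s * Wr h a b s
      = h s a b * pp h a b s * (bb h {b} a s)⁻¹ := by
    rw [inv_bb hh hba.symm hs1]; ring
  rw [e0]
  have hsym : H b a s = H a b s := hh.Hsymm b a s
  set zz := zp h {u, v, b} v a c t s with hzz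
  have eZ : zz = Real.exp (H v a s + H v c s) * (Real.exp (-(H v a s + H v c s)) * zz) := by
    rw [← mul_assoc, ← Real.exp_add, add_neg_cancel, Real.exp_zero, one_mul]
  calc Real.exp (H u v s) * (h s a b * ex (lw h ∅ s) {u, v, b, a, c}
        (fun F => RCG.tgt h u t (insert c F) s * RCG.tgt h v t F s * RCG.prf h v a c t F s))
      ≤ Real.exp (H u v s) * (h s a b * (Real.exp (-(H u v s + H u b s + H u a s + H u c s
          + H v b s + H v a s + H v c s + H b a s + H b c s) + K) *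
        (px h {v, b, a, c} u c t s * bb h {u, b, a, c} v t * bb h {u, v, a, c} b s *
          zz))) := by gcongr
    _ = Real.exp (H u v s) * (h s a b * (Real.exp (-(H u v s + H u b s + H u a s + H u c s
          + H v b s + H v a s + H v c s + H b a s + H b c s) + K) *
        (px h {v, b, a, c} u c t s * bb h {u, b, a, c} v t * bb h {u, v, a, c} b s *
          (Real.exp (H v a s + H v c s) * (Real.exp (-(H v a s + H v c s)) * zz))))) := by
        rw [← eZ]
    _ ≤ Real.exp (H u v s) * (h s a b * (Real.exp (-(H u v s + H u b s + H u a s + H u c s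
          + H v b s + H v a s + H v c s + H b a s + H b c s) + K) *
        (((Au * bb h {v} u t) * Real.exp (H u c s + nc)) * (Av * bb h {u} v t) *
          (Real.exp (H u b s + H v b s + H b c s + Yb) * bb h {a} b s) *
            (Real.exp (H v a s + H v c s) * J)))) := by
        have hpx2 : px h {v, b, a, c} u c t s ≤ (Au * bb h {v} u t) * Real.exp (H u c s + nc) :=
          hpx.trans (mul_le_mul_of_nonneg_right hAu (Real.exp_pos _).le)
        gcongr
    _ = bb h {v} u t * bb h {u} v t * (Au * Av *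
          Real.exp (K + Yb + nc - H u a s) * J * (bb h {b} a s)⁻¹) *
          (h s a b * Real.exp (-H a b s) * (bb h {b} a s * bb h {a} b s)) := by
        have e : Real.exp (H u v s) * Real.exp (-(H u v s + H u b s + H u a s + H u c s
            + H v b s + H v a s + H v c s + H b a s + H b c s) + K) *
            Real.exp (H u c s + nc) *
            Real.exp (H u b s + H v b s + H b c s + Yb) * Real.exp (H v a s + H v c s)
            = Real.exp (K + Yb + nc - H u a s) * Real.exp (-H a b s) := by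
          rw [← Real.exp_add, ← Real.exp_add, ← Real.exp_add, ← Real.exp_add,
            ← Real.exp_add, hsym]
          congr 1
          ring
        have e2 : (bb h {b} a s)⁻¹ * bb h {b} a s = 1 := inv_mul_cancel₀ b7.ne'
        linear_combination (h s a b * Au * bb h {v} u t * Av * bb h {u} v t *
          bb h {a} b s * J) * e
          - (bb h {v} u t * bb h {u} v t * Au * Av *
          Real.exp (K + Yb + nc - H u a s) * J *
          h s a b * Real.exp (-H a b s) * bb h {a} b s) * e2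
    _ ≤ bb h {v} u t * bb h {u} v t * (Au * Av *
          Real.exp (K + Yb + nc - H u a s) * J * (bb h {b} a s)⁻¹) *
          (h s a b * pp h a b s * Real.exp Q) := by
        refine mul_le_mul_of_nonneg_left h1 ?_
        positivity
    _ = _ := by
        rw [show K + Q + Yb + nc - H u a s = (K + Yb + nc - H u a s) + Q by ring,
          Real.exp_add (K + Yb + nc - H u a s)]
        ring

/-- The Gamma part with flux-level costs. -/
theorem gam2_assemble (hh : Haz h H) {u v : V} (huv : u ≠ v) {t : ℝ} (ht : t ∈ Icc (0 : ℝ) 1)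
    {Pu Nu Pv Nv : V → ℝ → ℝ}
    (hIu : Inf ({u, v} : Finset V)ᶜ t (RCG.tgt h u t) Pu Nu)
    (hIv : Inf ({u, v} : Finset V)ᶜ t (RCG.tgt h v t) Pv Nv)
    {Xu Xv : ℝ → V → V → Finset V → ℝ}
    (hXu0 : ∀ s ∈ Icc 0 t, ∀ a ∈ ({u, v} : Finset V)ᶜ, ∀ b ∈ ({u, v} : Finset V)ᶜ, a ≠ b →
      ∀ G ⊆ ({u, v, a, b} : Finset V)ᶜ, 0 ≤ Xu s a b G)
    (hXv0 : ∀ s ∈ Icc 0 t, ∀ a ∈ ({u, v} : Finset V)ᶜ, ∀ b ∈ ({u, v} : Finset V)ᶜ, a ≠ b →
      ∀ G ⊆ ({u, v, a, b} : Finset V)ᶜ, 0 ≤ Xv s a b G)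
    (hXu : ∀ s ∈ Icc 0 t, ∀ a ∈ ({u, v} : Finset V)ᶜ, ∀ b ∈ ({u, v} : Finset V)ᶜ, a ≠ b →
      h s a b ≠ 0 → ∀ G ⊆ ({u, v, a, b} : Finset V)ᶜ,
      RCG.tgt h u t (insert a (insert b G)) s - RCG.tgt h u t G s ≤ Xu s a b G)
    (hXv : ∀ s ∈ Icc 0 t, ∀ a ∈ ({u, v} : Finset V)ᶜ, ∀ b ∈ ({u, v} : Finset V)ᶜ, a ≠ b →
      h s a b ≠ 0 → ∀ G ⊆ ({u, v, a, b} : Finset V)ᶜ,
      RCG.tgt h v t (insert a (insert b G)) s - RCG.tgt h v t G s ≤ Xv s a b G)
    {Cu Cv : V → V → ℝ → ℝ}
    (hCv : ∀ s ∈ Icc 0 t, ∀ a ∈ ({u, v} : Finset V)ᶜ, ∀ b ∈ ({u, v} : Finset V)ᶜ, a ≠ b →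
      Real.exp (H u v s) * (h s a b *
        ex (lw h ∅ s) {u, v, a, b} (fun G => RCG.tgt h u t G s * Xv s a b G))
      ≤ bb h {v} u t * bb h {u} v t * Cv a b s)
    (hCu : ∀ s ∈ Icc 0 t, ∀ a ∈ ({u, v} : Finset V)ᶜ, ∀ b ∈ ({u, v} : Finset V)ᶜ, a ≠ b →
      Real.exp (H u v s) * (h s a b *
        ex (lw h ∅ s) {u, v, a, b} (fun G => RCG.tgt h v t G s * Xu s a b G))
      ≤ bb h {v} u t * bb h {u} v t * Cu a b s)
    (hC0 : ∀ s ∈ Icc 0 t, ∀ a, 0 ≤ Cv a a s ∧ 0 ≤ Cu a a s)
    {Γ g : ℝ → ℝ} (hΓ : ∀ s ∈ Icc 0 t, HasDerivAt Γ (g s) s)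
    (hg : ∀ s ∈ Icc 0 t, (1 / 2) * ∑ a ∈ ({u, v} : Finset V)ᶜ, ∑ b ∈ ({u, v} : Finset V)ᶜ,
      (gP (Pu a s) (Pu b s) * Cv a b s + gP (Pv a s) (Pv b s) * Cu a b s) ≤ g s) :
    bb h {v} u t * bb h {u} v t * (1 - (Γ t - Γ 0)) ≤ Real.exp (H u v t) * pp h u v t := by
  have key := le_duh2 hh huv ht (Γ := fun s => bb h {v} u t * bb h {u} v t * (-Γ s))
    (g := fun s => bb h {v} u t * bb h {u} v t * (-g s))
    (fun s hs => ((hΓ s hs).neg).const_mul _)
    (fun s hs => ?_)
  · linarith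
  · have hs1 : s ∈ Icc (0 : ℝ) 1 := ⟨hs.1, hs.2.trans ht.2⟩
    have hb0 : 0 ≤ bb h {v} u t * bb h {u} v t :=
      mul_nonneg (bb_nonneg hh _ _ ht) (bb_nonneg hh _ _ ht)
    have hlow := cov_lower hh ht hIu hIv hs (hXu0 s hs) (hXv0 s hs) (hXu s hs) (hXv s hs)
    have h1 := mul_le_mul_of_nonneg_left hlow (Real.exp_pos (H u v s)).le
    refine le_trans ?_ h1
    rw [mul_neg, mul_neg, neg_le_neg_iff]
    have h2 := mul_le_mul_of_nonneg_left (hg s hs) hb0
    refine le_trans ?_ h2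
    have e1 : bb h {v} u t * bb h {u} v t * ((1 / 2) * ∑ a ∈ ({u, v} : Finset V)ᶜ,
          ∑ b ∈ ({u, v} : Finset V)ᶜ,
            (gP (Pu a s) (Pu b s) * Cv a b s + gP (Pv a s) (Pv b s) * Cu a b s))
        = (1 / 2) * ∑ a ∈ ({u, v} : Finset V)ᶜ, ∑ b ∈ ({u, v} : Finset V)ᶜ,
          bb h {v} u t * bb h {u} v t *
            (gP (Pu a s) (Pu b s) * Cv a b s + gP (Pv a s) (Pv b s) * Cu a b s) := by
      rw [mul_left_comm, Finset.mul_sum]
      simp_rw [Finset.mul_sum]
    rw [e1, mul_left_comm, Finset.mul_sum]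
    refine mul_le_mul_of_nonneg_left (Finset.sum_le_sum fun a ha => ?_) (by norm_num)
    rw [Finset.mul_sum]
    refine Finset.sum_le_sum fun b hb => ?_
    have g1 := gP_nonneg (hIu.P0 a ha s hs) (hIu.P0 b hb s hs)
    have g2 := gP_nonneg (hIv.P0 a ha s hs) (hIv.P0 b hb s hs)
    rcases eq_or_ne a b with rfl | hab
    · rw [hh.diag, zero_mul, mul_zero]
      obtain ⟨c1, c2⟩ := hC0 s hs a
      positivity
    have i1 := hCv s hs a ha b hb hab
    have i2 := hCu s hs a ha b hb hab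
    have e2 : ex (lw h ∅ s) {u, v, a, b} (fun G => gP (Pu a s) (Pu b s) *
          (RCG.tgt h u t G s * Xv s a b G) + gP (Pv a s) (Pv b s) *
          (RCG.tgt h v t G s * Xu s a b G))
        = gP (Pu a s) (Pu b s) * ex (lw h ∅ s) {u, v, a, b}
            (fun G => RCG.tgt h u t G s * Xv s a b G)
          + gP (Pv a s) (Pv b s) * ex (lw h ∅ s) {u, v, a, b}
            (fun G => RCG.tgt h v t G s * Xu s a b G) := by
      rw [ex_add, ex_smul, ex_smul]
    rw [e2]
    have j1 := mul_le_mul_of_nonneg_left i1 g1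
    have j2 := mul_le_mul_of_nonneg_left i2 g2
    calc _ = gP (Pu a s) (Pu b s) * (Real.exp (H u v s) * (h s a b *
        ex (lw h ∅ s) {u, v, a, b} (fun G => RCG.tgt h u t G s * Xv s a b G)))
        + gP (Pv a s) (Pv b s) * (Real.exp (H u v s) * (h s a b *
        ex (lw h ∅ s) {u, v, a, b} (fun G => RCG.tgt h v t G s * Xu s a b G))) := by ring
      _ ≤ _ := add_le_add j1 j2
      _ = _ := by ring

end Pool.Agent.RCG
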