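import Pool.Agent.RCG.Cmp

/-! Algebraic bounds for products of relative deviations (MP_73ccd0_lc, general graphs). -/

namespace Pool.Agent.RCG

open Set Finset Pool.Agent.RCRSHalf

set_option linter.unusedSectionVars false

section alg

variable {ι : Type*} [DecidableEq ι]

/-- upper excess of a product -/
noncomputable def GUp (W : Finset ι) (p n : ι → ℝ) : ℝ :=
  ∏ i ∈ W, (1 + p i) - 1 - ∑ i ∈ W, p i + (1 / 2) * ∑ i ∈ W, ∑ j ∈ W.erase i, n i * n j

/-- lower excess of a product -/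
noncomputable def GLo (W : Finset ι) (p n : ι → ℝ) : ℝ :=
  ∑ i ∈ W, ∑ j ∈ W.erase i, n i * p j * ∏ l ∈ (W.erase i).erase j, (1 + p l)

theorem prod_one_add_ge (W : Finset ι) {d n : ι → ℝ} (hn : ∀ i ∈ W, 0 ≤ n i)
    (h1 : ∀ i ∈ W, 0 ≤ 1 + d i) (hd : ∀ i ∈ W, -n i ≤ d i) :
    1 - ∑ i ∈ W, n i ≤ ∏ i ∈ W, (1 + d i) := by
  induction W using Finset.induction_on with
  | empty => simp
  | insert a W ha ih =>
    rw [Finset.sum_insert ha, Finset.prod_insert ha]
    have hW : ∀ i ∈ W, i ∈ insert a W := fun i hi => Finset.mem_insert_of_mem hi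
    have IH := ih (fun i hi => hn i (hW i hi)) (fun i hi => h1 i (hW i hi))
      (fun i hi => hd i (hW i hi))
    have na := hn a (Finset.mem_insert_self _ _)
    have xa := h1 a (Finset.mem_insert_self _ _)
    have da := hd a (Finset.mem_insert_self _ _)
    have S0 : 0 ≤ ∑ i ∈ W, n i := Finset.sum_nonneg fun i hi => hn i (hW i hi)
    have y0 : 0 ≤ ∏ i ∈ W, (1 + d i) := Finset.prod_nonneg fun i hi => h1 i (hW i hi)
    by_cases hneg : 1 - (n a + ∑ i ∈ W, n i) ≤ 0
    · exact hneg.trans (mul_nonneg xa y0)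
    · push Not at hneg
      have e1 : (1 - n a) * (1 - ∑ i ∈ W, n i) ≤ (1 + d a) * ∏ i ∈ W, (1 + d i) :=
        mul_le_mul (by linarith) IH (by linarith) xa
      nlinarith [mul_nonneg na S0]

theorem prod_one_add_le (W : Finset ι) {d p : ι → ℝ}
    (h1 : ∀ i ∈ W, 0 ≤ 1 + d i) (hd : ∀ i ∈ W, d i ≤ p i) :
    ∏ i ∈ W, (1 + d i) ≤ ∏ i ∈ W, (1 + p i) :=
  Finset.prod_le_prod h1 fun i hi => by linarith [hd i hi]

theorem one_le_prod (W : Finset ι) {p : ι → ℝ} (hp : ∀ i ∈ W, 0 ≤ p i) :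
    1 ≤ ∏ i ∈ W, (1 + p i) := by
  calc (1 : ℝ) = ∏ i ∈ W, 1 := by simp
    _ ≤ _ := Finset.prod_le_prod (fun _ _ => zero_le_one) fun i hi => by linarith [hp i hi]

/-- two-sided control of one more factor -/
theorem mul_dev_le {d p n X Y Z : ℝ} (hn : 0 ≤ n) (hp : 0 ≤ p) (h1 : -n ≤ d) (h2 : d ≤ p)
    (hX1 : 1 - Z ≤ X) (hX2 : X ≤ Y) (hY : 1 ≤ Y) (hZ : 0 ≤ Z) :
    d * (X - 1) ≤ p * (Y - 1) + n * Z ∧ -(p * Z + n * (Y - 1)) ≤ d * (X - 1) := by
  have a1 : 0 ≤ p * (Y - 1) := mul_nonneg hp (by linarith)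
  have a2 : 0 ≤ n * Z := mul_nonneg hn hZ
  have a3 : 0 ≤ p * Z := mul_nonneg hp hZ
  have a4 : 0 ≤ n * (Y - 1) := mul_nonneg hn (by linarith)
  rcases le_total 0 d with hd | hd <;> rcases le_total 1 X with hX | hX
  · have := mul_le_mul h2 (by linarith : X - 1 ≤ Y - 1) (by linarith) hp
    have := mul_nonneg hd (by linarith : 0 ≤ X - 1)
    constructor <;> linarith
  · have b1 := mul_nonneg hd (by linarith : 0 ≤ 1 - X)
    have b2 := mul_le_mul h2 (by linarith : 1 - X ≤ Z) (by linarith) hp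
    constructor <;> nlinarith
  · have b1 := mul_nonneg (by linarith : 0 ≤ -d) (by linarith : 0 ≤ X - 1)
    have b2 := mul_le_mul (by linarith : -d ≤ n) (by linarith : X - 1 ≤ Y - 1) (by linarith) hn
    constructor <;> nlinarith
  · have b1 := mul_nonneg (by linarith : 0 ≤ -d) (by linarith : 0 ≤ 1 - X)
    have b2 := mul_le_mul (by linarith : -d ≤ n) (by linarith : 1 - X ≤ Z) (by linarith) hn
    constructor <;> nlinarith

theorem erase_insert_sum (W : Finset ι) {a : ι} (ha : a ∉ W) (f : ι → ι → ℝ) :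
    ∑ i ∈ insert a W, ∑ j ∈ (insert a W).erase i, f i j
      = ∑ i ∈ W, ∑ j ∈ W.erase i, f i j + ∑ j ∈ W, f a j + ∑ i ∈ W, f i a := by
  rw [Finset.sum_insert ha, Finset.erase_insert ha]
  have : ∑ i ∈ W, ∑ j ∈ (insert a W).erase i, f i j
      = ∑ i ∈ W, (f i a + ∑ j ∈ W.erase i, f i j) := by
    refine Finset.sum_congr rfl fun i hi => ?_
    have hne : a ≠ i := fun e => ha (e ▸ hi)
    rw [Finset.erase_insert_of_ne hne, Finset.sum_insert]
    exact fun hh => ha (Finset.mem_of_mem_erase hh)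
  rw [this, Finset.sum_add_distrib]
  ring

theorem GUp_insert (W : Finset ι) {a : ι} (ha : a ∉ W) (p n : ι → ℝ) :
    GUp (insert a W) p n = GUp W p n + p a * (∏ i ∈ W, (1 + p i) - 1) + n a * ∑ j ∈ W, n j := by
  unfold GUp
  rw [erase_insert_sum W ha, Finset.prod_insert ha, Finset.sum_insert ha, ← Finset.mul_sum,
    ← Finset.sum_mul]
  ring

theorem prod_sub_one_le (W : Finset ι) {p : ι → ℝ} (hp : ∀ i ∈ W, 0 ≤ p i) :
    ∏ i ∈ W, (1 + p i) - 1 ≤ ∑ j ∈ W, p j * ∏ l ∈ W.erase j, (1 + p l) := by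
  induction W using Finset.induction_on with
  | empty => simp
  | insert a W ha ih =>
    have hW : ∀ i ∈ W, 0 ≤ p i := fun i hi => hp i (Finset.mem_insert_of_mem hi)
    have IH := ih hW
    rw [Finset.prod_insert ha, Finset.sum_insert ha, Finset.erase_insert ha]
    have : ∑ j ∈ W, p j * ∏ l ∈ W.erase j, (1 + p l)
        ≤ ∑ j ∈ W, p j * ∏ l ∈ (insert a W).erase j, (1 + p l) := by
      refine Finset.sum_le_sum fun j hj => mul_le_mul_of_nonneg_left ?_ (hW j hj)
      have hne : a ≠ j := fun e => ha (e ▸ hj)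
      rw [Finset.erase_insert_of_ne hne, Finset.prod_insert
        (fun hh => ha (Finset.mem_of_mem_erase hh))]
      have h1 : 0 ≤ ∏ l ∈ W.erase j, (1 + p l) := Finset.prod_nonneg fun l hl => by
        linarith [hW l (Finset.mem_of_mem_erase hl)]
      have := hp a (Finset.mem_insert_self _ _)
      nlinarith
    linarith

/-- upper bound -/
theorem dev_le (W : Finset ι) {d p n : ι → ℝ} (hn : ∀ i ∈ W, 0 ≤ n i) (hp : ∀ i ∈ W, 0 ≤ p i)
    (h1 : ∀ i ∈ W, 0 ≤ 1 + d i) (hd1 : ∀ i ∈ W, -n i ≤ d i) (hd2 : ∀ i ∈ W, d i ≤ p i) :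
    ∏ i ∈ W, (1 + d i) - 1 - ∑ i ∈ W, d i ≤ GUp W p n := by
  induction W using Finset.induction_on with
  | empty => simp [GUp]
  | insert a W ha ih =>
    have hW : ∀ i ∈ W, i ∈ insert a W := fun i hi => Finset.mem_insert_of_mem hi
    have haW : a ∈ insert a W := Finset.mem_insert_self _ _
    have IH := ih (fun i hi => hn i (hW i hi)) (fun i hi => hp i (hW i hi))
      (fun i hi => h1 i (hW i hi)) (fun i hi => hd1 i (hW i hi)) (fun i hi => hd2 i (hW i hi))
    rw [GUp_insert W ha, Finset.prod_insert ha, Finset.sum_insert ha]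
    have key := (mul_dev_le (X := ∏ i ∈ W, (1 + d i)) (Y := ∏ i ∈ W, (1 + p i))
      (Z := ∑ i ∈ W, n i) (hn a haW) (hp a haW) (hd1 a haW) (hd2 a haW)
      (prod_one_add_ge W (fun i hi => hn i (hW i hi)) (fun i hi => h1 i (hW i hi))
        (fun i hi => hd1 i (hW i hi)))
      (prod_one_add_le W (fun i hi => h1 i (hW i hi)) (fun i hi => hd2 i (hW i hi)))
      (one_le_prod W fun i hi => hp i (hW i hi))
      (Finset.sum_nonneg fun i hi => hn i (hW i hi))).1
    nlinarith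

/-- lower bound -/
theorem le_dev (W : Finset ι) {d p n : ι → ℝ} (hn : ∀ i ∈ W, 0 ≤ n i) (hp : ∀ i ∈ W, 0 ≤ p i)
    (h1 : ∀ i ∈ W, 0 ≤ 1 + d i) (hd1 : ∀ i ∈ W, -n i ≤ d i) (hd2 : ∀ i ∈ W, d i ≤ p i) :
    -GLo W p n ≤ ∏ i ∈ W, (1 + d i) - 1 - ∑ i ∈ W, d i := by
  induction W using Finset.induction_on with
  | empty => simp [GLo]
  | insert a W ha ih =>
    have hW : ∀ i ∈ W, i ∈ insert a W := fun i hi => Finset.mem_insert_of_mem hi
    have haW : a ∈ insert a W := Finset.mem_insert_self _ _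
    have IH := ih (fun i hi => hn i (hW i hi)) (fun i hi => hp i (hW i hi))
      (fun i hi => h1 i (hW i hi)) (fun i hi => hd1 i (hW i hi)) (fun i hi => hd2 i (hW i hi))
    rw [Finset.prod_insert ha, Finset.sum_insert ha]
    have key := (mul_dev_le (X := ∏ i ∈ W, (1 + d i)) (Y := ∏ i ∈ W, (1 + p i))
      (Z := ∑ i ∈ W, n i) (hn a haW) (hp a haW) (hd1 a haW) (hd2 a haW)
      (prod_one_add_ge W (fun i hi => hn i (hW i hi)) (fun i hi => h1 i (hW i hi))
        (fun i hi => hd1 i (hW i hi)))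
      (prod_one_add_le W (fun i hi => h1 i (hW i hi)) (fun i hi => hd2 i (hW i hi)))
      (one_le_prod W fun i hi => hp i (hW i hi))
      (Finset.sum_nonneg fun i hi => hn i (hW i hi))).2
    have hGL : GLo W p n + p a * ∑ i ∈ W, n i + n a * (∏ i ∈ W, (1 + p i) - 1)
        ≤ GLo (insert a W) p n := by
      unfold GLo
      rw [erase_insert_sum W ha]
      have na := hn a haW
      have pa := hp a haW
      have b1 : ∑ i ∈ W, ∑ j ∈ W.erase i, n i * p j * ∏ l ∈ (W.erase i).erase j, (1 + p l)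
          ≤ ∑ i ∈ W, ∑ j ∈ W.erase i, n i * p j *
            ∏ l ∈ ((insert a W).erase i).erase j, (1 + p l) := by
        refine Finset.sum_le_sum fun i hi => Finset.sum_le_sum fun j hj => ?_
        have hj' := Finset.mem_of_mem_erase hj
        have hai : a ≠ i := fun e => ha (e ▸ hi)
        have haj : a ≠ j := fun e => ha (e ▸ hj')
        rw [Finset.erase_insert_of_ne hai, Finset.erase_insert_of_ne haj, Finset.prod_insert
          (fun hh => ha (Finset.mem_of_mem_erase (Finset.mem_of_mem_erase hh)))]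
        have h3 : 0 ≤ ∏ l ∈ (W.erase i).erase j, (1 + p l) := Finset.prod_nonneg fun l hl => by
          linarith [hp l (hW l (Finset.mem_of_mem_erase (Finset.mem_of_mem_erase hl)))]
        have h4 : 0 ≤ n i * p j := mul_nonneg (hn i (hW i hi)) (hp j (hW j hj'))
        have h5 := mul_nonneg (mul_nonneg h4 h3) pa
        nlinarith
      have b2 : n a * (∏ i ∈ W, (1 + p i) - 1)
          ≤ ∑ j ∈ W, n a * p j * ∏ l ∈ ((insert a W).erase a).erase j, (1 + p l) := by
        rw [Finset.erase_insert ha]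
        refine (mul_le_mul_of_nonneg_left (prod_sub_one_le W fun i hi => hp i (hW i hi)) na).trans
          (le_of_eq ?_)
        rw [Finset.mul_sum]
        exact Finset.sum_congr rfl fun j _ => by ring
      have b3 : p a * ∑ i ∈ W, n i
          ≤ ∑ i ∈ W, n i * p a * ∏ l ∈ ((insert a W).erase i).erase a, (1 + p l) := by
        rw [Finset.mul_sum]
        refine Finset.sum_le_sum fun i hi => ?_
        have hai : a ≠ i := fun e => ha (e ▸ hi)
        rw [Finset.erase_insert_of_ne hai, Finset.erase_insert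
          (fun hh => ha (Finset.mem_of_mem_erase hh))]
        have h3 : 1 ≤ ∏ l ∈ W.erase i, (1 + p l) :=
          one_le_prod _ fun l hl => hp l (hW l (Finset.mem_of_mem_erase hl))
        have h4 : 0 ≤ n i * p a := mul_nonneg (hn i (hW i hi)) pa
        nlinarith
      linarith
    linarith

theorem GUp_nonneg (W : Finset ι) {p n : ι → ℝ} (hn : ∀ i ∈ W, 0 ≤ n i) (hp : ∀ i ∈ W, 0 ≤ p i) :
    0 ≤ GUp W p n := by
  have := dev_le W (d := fun _ => 0) hn hp (fun _ _ => by norm_num)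
    (fun i hi => by have := hn i hi; linarith) (fun i hi => hp i hi)
  simpa using this

theorem GLo_nonneg (W : Finset ι) {p n : ι → ℝ} (hn : ∀ i ∈ W, 0 ≤ n i) (hp : ∀ i ∈ W, 0 ≤ p i) :
    0 ≤ GLo W p n := by
  unfold GLo
  refine Finset.sum_nonneg fun i hi => Finset.sum_nonneg fun j hj => ?_
  refine mul_nonneg (mul_nonneg (hn i hi) (hp j (Finset.mem_of_mem_erase hj))) ?_
  exact Finset.prod_nonneg fun l hl => by
    linarith [hp l (Finset.mem_of_mem_erase (Finset.mem_of_mem_erase hl))]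

/-- the version without division -/
theorem prod_dev (W : Finset ι) {x y p n : ι → ℝ} (hx : ∀ i ∈ W, 0 ≤ x i) (hy : ∀ i ∈ W, 0 ≤ y i)
    (hn : ∀ i ∈ W, 0 ≤ n i) (hp : ∀ i ∈ W, 0 ≤ p i)
    (h1 : ∀ i ∈ W, (1 - n i) * x i ≤ y i) (h2 : ∀ i ∈ W, y i ≤ (1 + p i) * x i) :
    ∏ i ∈ W, y i - ∏ i ∈ W, x i - ∑ i ∈ W, (∏ j ∈ W.erase i, x j) * (y i - x i)
      ≤ GUp W p n * ∏ i ∈ W, x i ∧
    -(GLo W p n * ∏ i ∈ W, x i)
      ≤ ∏ i ∈ W, y i - ∏ i ∈ W, x i - ∑ i ∈ W, (∏ j ∈ W.erase i, x j) * (y i - x i) := by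
  by_cases hz : ∃ i ∈ W, x i = 0
  · obtain ⟨i0, hi0, hxi⟩ := hz
    have hyi : y i0 = 0 := by
      have := h2 i0 hi0
      rw [hxi, mul_zero] at this
      exact le_antisymm this (hy i0 hi0)
    have e1 : ∏ i ∈ W, x i = 0 := Finset.prod_eq_zero hi0 hxi
    have e2 : ∏ i ∈ W, y i = 0 := Finset.prod_eq_zero hi0 hyi
    have e3 : ∑ i ∈ W, (∏ j ∈ W.erase i, x j) * (y i - x i) = 0 := by
      refine Finset.sum_eq_zero fun i hi => ?_
      by_cases hii : i = i0
      · subst hii; rw [hxi, hyi]; ring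
      · rw [Finset.prod_eq_zero (Finset.mem_erase.2 ⟨fun e => hii e.symm, hi0⟩) hxi, zero_mul]
    rw [e1, e2, e3]
    simp
  · push Not at hz
    have hpos : ∀ i ∈ W, 0 < x i := fun i hi => lt_of_le_of_ne (hx i hi) (Ne.symm (hz i hi))
    set d : ι → ℝ := fun i => y i / x i - 1 with hd
    have hyd : ∀ i ∈ W, y i = (1 + d i) * x i := fun i hi => by
      simp only [hd]
      have := (hpos i hi).ne'
      field_simp
      ring
    have e1 : ∏ i ∈ W, y i = (∏ i ∈ W, (1 + d i)) * ∏ i ∈ W, x i := by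
      rw [← Finset.prod_mul_distrib]
      exact Finset.prod_congr rfl hyd
    have e2 : ∑ i ∈ W, (∏ j ∈ W.erase i, x j) * (y i - x i) = (∑ i ∈ W, d i) * ∏ i ∈ W, x i := by
      rw [Finset.sum_mul]
      refine Finset.sum_congr rfl fun i hi => ?_
      rw [← Finset.mul_prod_erase W x hi, hyd i hi]
      ring
    have hP0 : 0 ≤ ∏ i ∈ W, x i := Finset.prod_nonneg hx
    have c1 : ∀ i ∈ W, 0 ≤ 1 + d i := fun i hi => by
      have : 1 + d i = y i / x i := by simp only [hd]; ring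
      rw [this]
      exact div_nonneg (hy i hi) (hx i hi)
    have c2 : ∀ i ∈ W, -n i ≤ d i := fun i hi => by
      have := h1 i hi
      rw [hyd i hi] at this
      have := le_of_mul_le_mul_right this (hpos i hi)
      linarith
    have c3 : ∀ i ∈ W, d i ≤ p i := fun i hi => by
      have := h2 i hi
      rw [hyd i hi] at this
      have := le_of_mul_le_mul_right this (hpos i hi)
      linarith
    have k1 := mul_le_mul_of_nonneg_right (dev_le W hn hp c1 c2 c3) hP0
    have k2 := mul_le_mul_of_nonneg_right (le_dev W hn hp c1 c2 c3) hP0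
    rw [e1, e2]
    constructor <;> nlinarith

end alg

end Pool.Agent.RCG
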