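import Pool.Agent.RCG.Steps

/-! Joint induction for the one-step influences (MP_73ccd0_lc, general graphs). -/

namespace Pool.Agent.RCG

open Set Finset Pool.Agent.RCRSHalf

set_option linter.unusedSectionVars false

variable {V : Type*} [Fintype V] [DecidableEq V]

variable {h : ℝ → V → V → ℝ} {k : ℝ → V → ℝ} {ρ cs : ℝ → ℝ} {s : ℝ} {R : Finset V → ℝ → ℝ}

/-- The influence bounds `(1.1)`, `(1.2)` from the closure inequalities. -/
theorem infl (hs : ∀ t a b, h t a b = h t b a) (haa : ∀ t a, h t a a = 0)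
    (h0 : ∀ t a b, 0 ≤ h t a b) (k0 : ∀ t a, 0 ≤ k t a) (ρ0 : ∀ t, 0 ≤ ρ t) (c0 : ∀ t, 0 ≤ cs t)
    (hR : IsEv h k ρ cs s R) (H0 : Finset V) {P P' N N' : V → ℝ → ℝ}
    (hPd : ∀ a ∈ H0, ∀ r ∈ Icc 0 s, HasDerivAt (P a) (P' a r) r)
    (hNd : ∀ a ∈ H0, ∀ r ∈ Icc 0 s, HasDerivAt (N a) (N' a r) r)
    (hP0 : ∀ a ∈ H0, ∀ r ∈ Icc 0 s, 0 ≤ P a r)
    (hN0 : ∀ a ∈ H0, ∀ r ∈ Icc 0 s, 0 ≤ N a r)
    (hN1 : ∀ a ∈ H0, ∀ r ∈ Icc 0 s, N a r ≤ 1)
    (hP : ∀ a ∈ H0, ∀ r ∈ Icc 0 s,
      (1 + P a r) * (k r a + ∑ b ∈ H0, h r a b * N b r) ≤ -P' a r)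
    (hN : ∀ a ∈ H0, ∀ r ∈ Icc 0 s, ∑ b ∈ H0, h r a b * P b r ≤ -N' a r)
    (hPs : ∀ G ⊆ H0, ∀ a ∈ G, R (G.erase a) s ≤ (1 + P a s) * R G s)
    (hNs : ∀ G ⊆ H0, ∀ a ∈ G, (1 - N a s) * R G s ≤ R (G.erase a) s) :
    ∀ G ⊆ H0, ∀ a ∈ G, ∀ r ∈ Icc 0 s,
      R (G.erase a) r ≤ (1 + P a r) * R G r ∧ (1 - N a r) * R G r ≤ R (G.erase a) r := by
  intro G
  induction hn : G.card using Nat.strong_induction_on generalizing G with
  | _ n ih =>
  intro hG a ha r hr
  have haH := hG ha
  have hsub : G.erase a ⊆ H0 := (Finset.erase_subset _ _).trans hG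
  have hna : a ∉ G.erase a := Finset.notMem_erase a G
  have hcard : ∀ G' ⊆ G.erase a, G'.card < n := fun G' hG' => by
    rw [← hn]
    exact (Finset.card_le_card hG').trans_lt (Finset.card_erase_lt_of_mem ha)
  have hins : insert a (G.erase a) = G := Finset.insert_erase ha
  have IH : ∀ G' ⊆ G.erase a, ∀ b ∈ G', ∀ r ∈ Icc 0 s,
      R (G'.erase b) r ≤ (1 + P b r) * R G' r ∧ (1 - N b r) * R G' r ≤ R (G'.erase b) r :=
    fun G' hG' => ih _ (hcard G' hG') G' rfl (hG'.trans hsub)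
  constructor
  · have := stepP hs haa h0 k0 ρ0 c0 hR (H0 := G.erase a) hna (N := N) (P := P a) (P' := P' a)
      (fun b hb => hN1 b (hsub hb)) (fun G' hG' b hb r hr => (IH G' hG' b hb r hr).2)
      (hPd a haH)
      (fun G' hG' => by
        have hi : insert a G' ⊆ H0 := Finset.insert_subset haH (hG'.trans hsub)
        have := hPs (insert a G') hi a (Finset.mem_insert_self _ _)
        rwa [Finset.erase_insert (fun hh => hna (hG' hh))] at this)
      (hP0 a haH)
      (fun r hr => by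
        refine le_trans ?_ (hP a haH r hr)
        refine mul_le_mul_of_nonneg_left ?_ (by linarith [hP0 a haH r hr])
        have : ∑ b ∈ G.erase a, h r a b * N b r ≤ ∑ b ∈ H0, h r a b * N b r :=
          Finset.sum_le_sum_of_subset_of_nonneg hsub fun b hb _ =>
            mul_nonneg (h0 _ _ _) (hN0 b hb r hr)
        linarith)
      (fun b hb => hN0 b (hsub hb)) (G.erase a) Finset.Subset.rfl r hr
    rwa [hins] at this
  · have := stepN hs haa h0 k0 ρ0 c0 hR (H0 := G.erase a) hna (P := P) (N := N a) (N' := N' a)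
      (fun b hb => hP0 b (hsub hb)) (fun G' hG' b hb r hr => (IH G' hG' b hb r hr).1)
      (hNd a haH) (hN0 a haH) (hN1 a haH)
      (fun G' hG' => by
        have hi : insert a G' ⊆ H0 := Finset.insert_subset haH (hG'.trans hsub)
        have := hNs (insert a G') hi a (Finset.mem_insert_self _ _)
        rwa [Finset.erase_insert (fun hh => hna (hG' hh))] at this)
      (fun r hr => by
        refine le_trans ?_ (hN a haH r hr)
        exact Finset.sum_le_sum_of_subset_of_nonneg hsub fun b hb _ =>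
          mul_nonneg (h0 _ _ _) (hP0 b hb r hr))
      (G.erase a) Finset.Subset.rfl r hr
    rwa [hins] at this

/-- Step I (insertion): upper bound for `R (insert a G)` in terms of `R G`. -/
theorem insertion (hs : ∀ t a b, h t a b = h t b a) (haa : ∀ t a, h t a a = 0)
    (h0 : ∀ t a b, 0 ≤ h t a b) (k0 : ∀ t a, 0 ≤ k t a)
    (hR : IsEv h k (fun _ => 0) (fun _ => 0) s R)
    {H0 : Finset V} {a : V} (ha : a ∉ H0) {P : V → ℝ → ℝ}
    (hP0 : ∀ b ∈ H0, ∀ r ∈ Icc 0 s, 0 ≤ P b r)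
    (hP : ∀ G ⊆ H0, ∀ b ∈ G, ∀ r ∈ Icc 0 s, R (G.erase b) r ≤ (1 + P b r) * R G r)
    {N N' p p' full : ℝ → ℝ} (hNd : ∀ r ∈ Icc 0 s, HasDerivAt N (N' r) r)
    (hpd : ∀ r ∈ Icc 0 s, HasDerivAt p (p' r) r)
    (hp' : ∀ r ∈ Icc 0 s, -k r a + full r * p r ≤ p' r)
    (hfull : ∀ r ∈ Icc 0 s, k r a + ∑ b ∈ H0, h r a b ≤ full r)
    (hN0 : ∀ r ∈ Icc 0 s, 0 ≤ N r) (hp0 : ∀ r ∈ Icc 0 s, 0 ≤ p r)
    (hNs : ∀ G ⊆ H0, R (insert a G) s ≤ (1 - p s + N s) * R G s)
    (hN : ∀ r ∈ Icc 0 s, ∑ b ∈ H0, h r a b * P b r ≤ -N' r) :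
    ∀ G ⊆ H0, ∀ r ∈ Icc 0 s, R (insert a G) r ≤ (1 - p r + N r) * R G r := by
  intro G
  induction hn : G.card using Nat.strong_induction_on generalizing G with
  | _ n ih =>
  intro hG
  have haG : a ∉ G := fun hh => ha (hG hh)
  have key := nonneg_of_backward (U := fun r => (1 - p r + N r) * R G r - R (insert a G) r)
    (U' := fun r => (-p' r + N' r) * R G r + (1 - p r + N r) *
        (-(gen (h r) (fun F => R F r) G - (∑ c ∈ G, k r c) * R G r - 0 * R G r + 0))
      - (-(gen (h r) (fun F => R F r) (insert a G) - (∑ c ∈ insert a G, k r c) * R (insert a G) r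
          - 0 * R (insert a G) r + 0)))
    (a := 0) (s := s) (fun r hr => by
      refine HasDerivAt.sub ?_ (hR.deriv (insert a G) r hr)
      exact (((hpd r hr).const_sub 1).add (hNd r hr)).mul (hR.deriv G r hr))
    (by have := hNs G hG; linarith) ?_
  · intro r hr
    have := key r hr
    linarith
  · intro r hr hU
    set U : ℝ := (1 - p r + N r) * R G r - R (insert a G) r with hUdef
    have hRG : 0 ≤ R G r := hR.nonneg _ r hr
    have hN0r := hN0 r hr
    have hp0r := hp0 r hr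
    rw [gen_insert (h r) (hs r) (haa r) _ haG, Finset.sum_insert haG]
    have t1 : 0 ≤ (1 - p r + N r) * gen (h r) (fun F => R F r) G
        - ((1 / 2) * ∑ b ∈ G, ∑ c ∈ G,
        h r b c * (R (insert a ((G.erase b).erase c)) r - R (insert a G) r))
        + ((1 / 2) * ∑ b ∈ G, ∑ c ∈ G, h r b c) * U := by
      unfold gen
      rw [hUdef]
      have : (1 - p r + N r) * ((1 / 2) * ∑ b ∈ G, ∑ c ∈ G, h r b c * (R ((G.erase b).erase c) r - R G r))
          - (1 / 2) * ∑ b ∈ G, ∑ c ∈ G,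
          h r b c * (R (insert a ((G.erase b).erase c)) r - R (insert a G) r)
          + ((1 / 2) * ∑ b ∈ G, ∑ c ∈ G, h r b c) * ((1 - p r + N r) * R G r - R (insert a G) r)
          = (1 / 2) * ∑ b ∈ G, ∑ c ∈ G, h r b c *
            ((1 - p r + N r) * R ((G.erase b).erase c) r - R (insert a ((G.erase b).erase c)) r) := by
        rw [mul_left_comm (1 - p r + N r), ← mul_sub, mul_assoc, ← mul_add]
        congr 1
        rw [Finset.mul_sum, Finset.sum_mul, ← Finset.sum_sub_distrib, ← Finset.sum_add_distrib]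
        refine Finset.sum_congr rfl fun b _ => ?_
        rw [Finset.mul_sum, Finset.sum_mul, ← Finset.sum_sub_distrib, ← Finset.sum_add_distrib]
        refine Finset.sum_congr rfl fun c _ => ?_
        ring
      rw [this]
      refine mul_nonneg (by norm_num) (Finset.sum_nonneg fun b hb => Finset.sum_nonneg fun c hc => ?_)
      refine mul_nonneg (h0 _ _ _) ?_
      have hcard : ((G.erase b).erase c).card < n := by
        rw [← hn]
        exact (Finset.card_le_card (Finset.erase_subset _ _)).trans_lt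
          (Finset.card_erase_lt_of_mem hb)
      have := ih _ hcard ((G.erase b).erase c) rfl
        ((Finset.erase_subset _ _).trans ((Finset.erase_subset _ _).trans hG)) r hr
      linarith
    -- the row terms
    set row : ℝ := ∑ b ∈ G, h r a b with hrow
    have hrow0 : 0 ≤ row := Finset.sum_nonneg fun b _ => h0 _ _ _
    have t2 : -(∑ b ∈ G, h r a b * (R (G.erase b) r - R (insert a G) r))
        = row * R (insert a G) r - ∑ b ∈ G, h r a b * R (G.erase b) r := by
      rw [hrow, Finset.sum_mul, ← Finset.sum_sub_distrib, ← Finset.sum_neg_distrib]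
      exact Finset.sum_congr rfl fun b _ => by ring
    have t3 : ∑ b ∈ G, h r a b * R (G.erase b) r
        ≤ (row + ∑ b ∈ G, h r a b * P b r) * R G r := by
      rw [hrow, ← Finset.sum_add_distrib, Finset.sum_mul]
      refine Finset.sum_le_sum fun b hb => ?_
      have := mul_le_mul_of_nonneg_left (hP G hG b hb r hr) (h0 r a b)
      linarith
    have t5 : 0 ≤ ∑ c ∈ G, k r c := Finset.sum_nonneg fun c _ => k0 _ _
    have t6 : ∑ b ∈ G, h r a b * P b r ≤ -N' r := by
      refine le_trans ?_ (hN r hr)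
      exact Finset.sum_le_sum_of_subset_of_nonneg hG fun b hb _ =>
        mul_nonneg (h0 _ _ _) (hP0 b hb r hr)
    have t7 : row + k r a ≤ full r := by
      have : row ≤ ∑ b ∈ H0, h r a b :=
        Finset.sum_le_sum_of_subset_of_nonneg hG fun b _ _ => h0 _ _ _
      linarith [hfull r hr]
    have t8 : 0 ≤ ((full r - row - k r a) * p r + (row + k r a) * N r
        + (-N' r - ∑ b ∈ G, h r a b * P b r)) * R G r := by
      refine mul_nonneg ?_ hRG
      have h1 := mul_nonneg (by linarith : 0 ≤ full r - row - k r a) hp0r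
      have h2 := mul_nonneg (add_nonneg hrow0 (k0 r a)) hN0r
      linarith
    have t9 : (-k r a + full r * p r) * R G r ≤ p' r * R G r :=
      mul_le_mul_of_nonneg_right (hp' r hr) hRG
    have t4 : 0 ≤ ∑ b ∈ G, ∑ c ∈ G, h r b c :=
      Finset.sum_nonneg fun b _ => Finset.sum_nonneg fun c _ => h0 _ _ _
    have u1 : ((1 / 2) * ∑ b ∈ G, ∑ c ∈ G, h r b c) * U ≤ 0 :=
      mul_nonpos_of_nonneg_of_nonpos (by positivity) hU.le
    have u2 : (row + k r a) * U ≤ 0 :=
      mul_nonpos_of_nonneg_of_nonpos (add_nonneg hrow0 (k0 r a)) hU.le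
    have u3 : (∑ c ∈ G, k r c) * U ≤ 0 := mul_nonpos_of_nonneg_of_nonpos t5 hU.le
    have eU : R (insert a G) r = (1 - p r + N r) * R G r - U := by rw [hUdef]; ring
    have e1 : row * R (insert a G) r = row * ((1 - p r + N r) * R G r) - row * U := by
      rw [eU]; ring
    have e2 : k r a * R (insert a G) r = k r a * ((1 - p r + N r) * R G r) - k r a * U := by
      rw [eU]; ring
    have e3 : (∑ c ∈ G, k r c) * R (insert a G) r
        = (∑ c ∈ G, k r c) * ((1 - p r + N r) * R G r) - (∑ c ∈ G, k r c) * U := by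
      rw [eU]; ring
    nlinarith [t1, t2, t3, t8, t9, u1, u2, u3, e1, e2, e3]

end Pool.Agent.RCG
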