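import Pool.Agent.RCG.FRate6

/-! Clock integrals of the explicit rates (MP_73ccd0_lc). -/

namespace Pool.Agent.RCG

open Set Finset Matrix Pool.Agent.RCRSHalf

set_option linter.unusedSectionVars false

variable {V : Type*} [Fintype V] [DecidableEq V]
variable {h : ℝ → V → V → ℝ} {H : V → V → ℝ → ℝ} {X : V → V → ℝ} {M μ : ℝ → ℝ} {t : ℝ}

/-- `∫_0^a (x + δ)^i x^k dx` -/
noncomputable def Jn (i k : ℕ) (a δ : ℝ) : ℝ :=
  ∑ j ∈ Finset.range (i + 1), (i.choose j : ℝ) * δ ^ (i - j) * (a ^ (k + j + 1) / (k + j + 1))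

theorem Jn_zero (i k : ℕ) (δ : ℝ) : Jn i k 0 δ = 0 := by
  unfold Jn
  exact Finset.sum_eq_zero fun j _ => by rw [zero_pow (by omega)]; simp

theorem Jn_nonneg (i k : ℕ) {a δ : ℝ} (ha : 0 ≤ a) (hδ : 0 ≤ δ) : 0 ≤ Jn i k a δ :=
  Finset.sum_nonneg fun j _ => by positivity

theorem Jn_deriv (i k : ℕ) (a δ x : ℝ) :
    HasDerivAt (fun x => -Jn i k (a - x) δ) ((a - x + δ) ^ i * (a - x) ^ k) x := by
  have h1 : HasDerivAt (fun x : ℝ => a - x) (-1) x := (hasDerivAt_id x).const_sub a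
  have h2 : ∀ j ∈ Finset.range (i + 1), HasDerivAt
      (fun x => (i.choose j : ℝ) * δ ^ (i - j) * ((a - x) ^ (k + j + 1) / (k + j + 1)))
      (-((i.choose j : ℝ) * δ ^ (i - j) * (a - x) ^ (k + j))) x := by
    intro j _
    have h3 := (h1.pow (k + j + 1)).div_const ((k : ℝ) + j + 1)
    have h4 := h3.const_mul ((i.choose j : ℝ) * δ ^ (i - j))
    refine h4.congr_deriv ?_
    have hk : ((k : ℝ) + j + 1) ≠ 0 := by positivity
    push_cast
    field_simp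
  have h5 := (HasDerivAt.fun_sum h2).neg
  refine h5.congr_deriv ?_
  rw [add_pow, Finset.sum_mul, ← Finset.sum_neg_distrib]
  refine Finset.sum_congr rfl fun j _ => ?_
  rw [pow_add]
  ring

theorem B2_le {m : ℝ} (hm : m ∈ Icc (0 : ℝ) (23 / 20)) : B2 m ≤ 546 / 1000 * m ^ 2 := by
  unfold B2 b2
  have h3 : m ^ 3 ≤ (23 / 20) ^ 3 := pow_le_pow_left₀ hm.1 hm.2 3
  have e : m ^ 5 = m ^ 3 * m ^ 2 := by ring
  have h2 : 0 ≤ m ^ 2 := by positivity
  have := mul_le_mul_of_nonneg_right h3 h2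
  rw [e]
  norm_num at this ⊢
  linarith

theorem G3_le' {m : ℝ} (hm : m ∈ Icc (0 : ℝ) (23 / 20)) : G3 m ≤ 1744 / 10000 * m ^ 3 := by
  unfold G3 g3
  have h3 : m ^ 3 ≤ (23 / 20) ^ 3 := pow_le_pow_left₀ hm.1 hm.2 3
  have e : m ^ 6 = m ^ 3 * m ^ 3 := by ring
  have h2 : 0 ≤ m ^ 3 := pow_nonneg hm.1 3
  have := mul_le_mul_of_nonneg_right h3 h2
  rw [e]
  norm_num at this ⊢
  linarith

/-- monomial form of the upper rate -/
noncomputable def mru2 (X : V → V → ℝ) (H0 : Finset V) (p q : V) (m m' : ℝ) : ℝ :=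
  122 / 100 * (m * m') * Ph X H0 p q
    + (2678 / 10000 * (m ^ 3 * m') + 2024 / 10000 * (m * m' ^ 3))
      * (59 / 20 * Tp X H0 p q 2 + 316 / 100 * Tp X H0 p q 3)
    + 1294 / 10000 * (m ^ 3 * m' ^ 3) * (Tp X H0 p q 4 + Tp X H0 p q 5)
    + 2982 / 10000 * (m ^ 2 * m' ^ 2) * (Tp X H0 p q 2 + Tp X H0 p q 3)

/-- monomial form of the lower rate -/
noncomputable def mrl2 (X : V → V → ℝ) (H0 : Finset V) (p q : V) (m m' : ℝ) : ℝ :=
  546 / 1000 * (m ^ 2 * m' + m * m' ^ 2) * (1877 / 1000 * Tp X H0 p q 1 + Tp X H0 p q 2)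
    + 3491 / 10000 * (m ^ 2 * m' ^ 3 + m ^ 3 * m' ^ 2) * (Tp X H0 p q 3 + Tp X H0 p q 4)

theorem fru2_le_mru2 (hX : Wt X) (H0 : Finset V) (p q : V) {m m' : ℝ}
    (hm : m ∈ Icc (0 : ℝ) (23 / 20)) (hm' : m' ∈ Icc (0 : ℝ) (23 / 20)) :
    fru2 X H0 p q m m' ≤ mru2 X H0 p q m m' := by
  have h2 := Tp_nonneg hX H0 p q 2
  have h3 := Tp_nonneg hX H0 p q 3
  have h4 := Tp_nonneg hX H0 p q 4
  have h5 := Tp_nonneg hX H0 p q 5
  have g := G3_le' hm
  have g' := G3_le' hm'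
  have b := B2_le hm
  have b' := B2_le hm'
  have g0 := G3_nonneg hm.1
  have g0' := G3_nonneg hm'.1
  have b0 := B2_nonneg hm.1
  have b0' := B2_nonneg hm'.1
  have c1 : 15355 / 10000 * (m' * G3 m) + 116 / 100 * (m * G3 m')
      ≤ 2678 / 10000 * (m ^ 3 * m') + 2024 / 10000 * (m * m' ^ 3) := by
    have k1 := mul_le_mul_of_nonneg_left g hm'.1
    have k2 := mul_le_mul_of_nonneg_left g' hm.1
    have k3 : 0 ≤ m ^ 3 * m' := mul_nonneg (pow_nonneg hm.1 3) hm'.1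
    have k4 : 0 ≤ m * m' ^ 3 := mul_nonneg hm.1 (pow_nonneg hm'.1 3)
    nlinarith
  have c2 : 425216 / 100000 * (G3 m * G3 m') ≤ 1294 / 10000 * (m ^ 3 * m' ^ 3) := by
    have k1 := mul_le_mul g g' g0' (mul_nonneg (by norm_num) (pow_nonneg hm.1 3))
    have k3 : 0 ≤ m ^ 3 * m' ^ 3 := mul_nonneg (pow_nonneg hm.1 3) (pow_nonneg hm'.1 3)
    nlinarith
  have c3 : B2 m * B2 m' ≤ 2982 / 10000 * (m ^ 2 * m' ^ 2) := by
    have k1 := mul_le_mul b b' b0' (mul_nonneg (by norm_num) (pow_nonneg hm.1 2))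
    have k3 : 0 ≤ m ^ 2 * m' ^ 2 := mul_nonneg (pow_nonneg hm.1 2) (pow_nonneg hm'.1 2)
    nlinarith
  unfold fru2 mru2
  have d1 := mul_le_mul_of_nonneg_right c1
    (show 0 ≤ 59 / 20 * Tp X H0 p q 2 + 316 / 100 * Tp X H0 p q 3 by linarith)
  have d2 := mul_le_mul_of_nonneg_right c2 (show 0 ≤ Tp X H0 p q 4 + Tp X H0 p q 5 by linarith)
  have d3 := mul_le_mul_of_nonneg_right c3 (show 0 ≤ Tp X H0 p q 2 + Tp X H0 p q 3 by linarith)
  linarith

theorem frl2_le_mrl2 (hX : Wt X) (H0 : Finset V) (p q : V) {m m' : ℝ}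
    (hm : m ∈ Icc (0 : ℝ) (23 / 20)) (hm' : m' ∈ Icc (0 : ℝ) (23 / 20)) :
    frl2 X H0 p q m m' ≤ mrl2 X H0 p q m m' := by
  have h1 := Tp_nonneg hX H0 p q 1
  have h2 := Tp_nonneg hX H0 p q 2
  have h3 := Tp_nonneg hX H0 p q 3
  have h4 := Tp_nonneg hX H0 p q 4
  have g := G3_le' hm
  have g' := G3_le' hm'
  have b := B2_le hm
  have b' := B2_le hm'
  have g0 := G3_nonneg hm.1
  have g0' := G3_nonneg hm'.1
  have b0 := B2_nonneg hm.1
  have b0' := B2_nonneg hm'.1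
  have c1 : m' * B2 m + m * B2 m' ≤ 546 / 1000 * (m ^ 2 * m' + m * m' ^ 2) := by
    have k1 := mul_le_mul_of_nonneg_left b hm'.1
    have k2 := mul_le_mul_of_nonneg_left b' hm.1
    nlinarith
  have c2 : 366560 / 100000 * (B2 m * G3 m' + B2 m' * G3 m)
      ≤ 3491 / 10000 * (m ^ 2 * m' ^ 3 + m ^ 3 * m' ^ 2) := by
    have k1 := mul_le_mul b g' g0' (mul_nonneg (by norm_num) (pow_nonneg hm.1 2))
    have k2 := mul_le_mul b' g g0 (mul_nonneg (by norm_num) (pow_nonneg hm'.1 2))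
    have k3 : 0 ≤ m ^ 2 * m' ^ 3 := mul_nonneg (pow_nonneg hm.1 2) (pow_nonneg hm'.1 3)
    have k4 : 0 ≤ m ^ 3 * m' ^ 2 := mul_nonneg (pow_nonneg hm.1 3) (pow_nonneg hm'.1 2)
    nlinarith
  unfold frl2 mrl2
  have d1 := mul_le_mul_of_nonneg_right c1
    (show 0 ≤ 1877 / 1000 * Tp X H0 p q 1 + Tp X H0 p q 2 by linarith)
  have d2 := mul_le_mul_of_nonneg_right c2 (show 0 ≤ Tp X H0 p q 3 + Tp X H0 p q 4 by linarith)
  linarith

/-- integrated upper rate: `p` has horizon `a + δ`, `q` horizon `a` -/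
noncomputable def eru2 (X : V → V → ℝ) (H0 : Finset V) (p q : V) (a δ : ℝ) : ℝ :=
  122 / 100 * Jn 1 1 a δ * Ph X H0 p q
    + (2678 / 10000 * Jn 3 1 a δ + 2024 / 10000 * Jn 1 3 a δ)
      * (59 / 20 * Tp X H0 p q 2 + 316 / 100 * Tp X H0 p q 3)
    + 1294 / 10000 * Jn 3 3 a δ * (Tp X H0 p q 4 + Tp X H0 p q 5)
    + 2982 / 10000 * Jn 2 2 a δ * (Tp X H0 p q 2 + Tp X H0 p q 3)

noncomputable def erl2 (X : V → V → ℝ) (H0 : Finset V) (p q : V) (a δ : ℝ) : ℝ :=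
  546 / 1000 * (Jn 2 1 a δ + Jn 1 2 a δ) * (1877 / 1000 * Tp X H0 p q 1 + Tp X H0 p q 2)
    + 3491 / 10000 * (Jn 2 3 a δ + Jn 3 2 a δ) * (Tp X H0 p q 3 + Tp X H0 p q 4)

theorem eru2_deriv (X : V → V → ℝ) (H0 : Finset V) (p q : V) (a δ x : ℝ) :
    HasDerivAt (fun x => -eru2 X H0 p q (a - x) δ) (mru2 X H0 p q (a - x + δ) (a - x)) x := by
  have j11 := Jn_deriv 1 1 a δ x
  have j31 := Jn_deriv 3 1 a δ x
  have j13 := Jn_deriv 1 3 a δ x
  have j33 := Jn_deriv 3 3 a δ x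
  have j22 := Jn_deriv 2 2 a δ x
  have h := (((j11.const_mul (122 / 100)).mul_const (Ph X H0 p q)).add
    ((((j31.const_mul (2678 / 10000)).add (j13.const_mul (2024 / 10000))).mul_const
      (59 / 20 * Tp X H0 p q 2 + 316 / 100 * Tp X H0 p q 3)))).add
    ((j33.const_mul (1294 / 10000)).mul_const (Tp X H0 p q 4 + Tp X H0 p q 5))
  have h2 := h.add ((j22.const_mul (2982 / 10000)).mul_const (Tp X H0 p q 2 + Tp X H0 p q 3))
  refine (h2.congr_deriv ?_).congr_of_eventuallyEq (Filter.Eventually.of_forall fun y => ?_)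
  · unfold mru2; ring
  · simp only [Pi.add_apply]
    unfold eru2; ring

theorem erl2_deriv (X : V → V → ℝ) (H0 : Finset V) (p q : V) (a δ x : ℝ) :
    HasDerivAt (fun x => -erl2 X H0 p q (a - x) δ) (mrl2 X H0 p q (a - x + δ) (a - x)) x := by
  have j21 := Jn_deriv 2 1 a δ x
  have j12 := Jn_deriv 1 2 a δ x
  have j23 := Jn_deriv 2 3 a δ x
  have j32 := Jn_deriv 3 2 a δ x
  have h := (((j21.add j12).const_mul (546 / 1000)).mul_const
      (1877 / 1000 * Tp X H0 p q 1 + Tp X H0 p q 2)).add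
    (((j23.add j32).const_mul (3491 / 10000)).mul_const (Tp X H0 p q 3 + Tp X H0 p q 4))
  refine (h.congr_deriv ?_).congr_of_eventuallyEq (Filter.Eventually.of_forall fun y => ?_)
  · unfold mrl2; ring
  · simp only [Pi.add_apply]
    unfold erl2; ring

/-- the upper pair exponent, `p` with horizon `T ≥ s`, `q` with horizon `s` -/
theorem Cx.exq2 (hC : Cx h H X M μ t) {H0 : Finset V} {p q : V} (hpq : p ≠ q) (hp : p ∉ H0)
    (hq : q ∉ H0) {T s : ℝ} (hT : T ∈ Icc 0 t) (hs : s ∈ Icc 0 T) :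
    Exq (cru2 h H X M H0 p T q s) s (eru2 X H0 p q (M s) (M T - M s)) := by
  have hst : s ∈ Icc 0 t := ⟨hs.1, hs.2.trans hT.2⟩
  have := Exq.of_clock hC hst (rate := cru2 h H X M H0 p T q s)
    (Ψ := fun x => -eru2 X H0 p q (M s - x) (M T - M s))
    (Φ := fun x => mru2 X H0 p q (M s - x + (M T - M s)) (M s - x))
    (fun x => eru2_deriv X H0 p q (M s) (M T - M s) x) (fun r hr => by
      have h1 := hC.cru2_le hpq hp hq hT hst hr.1 (hr.2.trans hs.2) hr.2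
      have m1 := hC.mm hT ⟨hr.1, hr.2.trans hs.2⟩
      have m2 := hC.mm hst hr
      have h2 := mul_le_mul_of_nonneg_left (fru2_le_mru2 hC.hX H0 p q m1 m2)
        (hC.μ0 r ⟨hr.1, hr.2.trans hst.2⟩)
      have e : M s - M r + (M T - M s) = M T - M r := by ring
      rw [e]
      exact h1.trans h2)
  refine this.mono (le_of_eq ?_)
  have z : eru2 X H0 p q 0 (M T - M s) = 0 := by unfold eru2; simp [Jn_zero]
  simp only [sub_self, z, neg_zero, sub_zero, zero_sub, neg_neg]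

theorem Cx.exl2 (hC : Cx h H X M μ t) {H0 : Finset V} {p q : V} (hp : p ∉ H0)
    (hq : q ∉ H0) {T s : ℝ} (hT : T ∈ Icc 0 t) (hs : s ∈ Icc 0 T) :
    Exq (crl2 h H X M H0 p T q s) s (erl2 X H0 p q (M s) (M T - M s)) := by
  have hst : s ∈ Icc 0 t := ⟨hs.1, hs.2.trans hT.2⟩
  have := Exq.of_clock hC hst (rate := crl2 h H X M H0 p T q s)
    (Ψ := fun x => -erl2 X H0 p q (M s - x) (M T - M s))
    (Φ := fun x => mrl2 X H0 p q (M s - x + (M T - M s)) (M s - x))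
    (fun x => erl2_deriv X H0 p q (M s) (M T - M s) x) (fun r hr => by
      have h1 := hC.crl2_le hp hq hT hst hr.1 (hr.2.trans hs.2) hr.2
      have m1 := hC.mm hT ⟨hr.1, hr.2.trans hs.2⟩
      have m2 := hC.mm hst hr
      have h2 := mul_le_mul_of_nonneg_left (frl2_le_mrl2 hC.hX H0 p q m1 m2)
        (hC.μ0 r ⟨hr.1, hr.2.trans hst.2⟩)
      have e : M s - M r + (M T - M s) = M T - M r := by ring
      rw [e]
      exact h1.trans h2)
  refine this.mono (le_of_eq ?_)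
  have z : erl2 X H0 p q 0 (M T - M s) = 0 := by unfold erl2; simp [Jn_zero]
  simp only [sub_self, z, neg_zero, sub_zero, zero_sub, neg_neg]

/-- the upper pair exponent from `s` to `T`, both with horizon `T` -/
theorem Cx.exf2 (hC : Cx h H X M μ t) {H0 : Finset V} {p q : V} (hpq : p ≠ q) (hp : p ∉ H0)
    (hq : q ∉ H0) {T : ℝ} (hT : T ∈ Icc 0 t) :
    Exf (cru2 h H X M H0 p T q T) T (fun s => eru2 X H0 p q (M T - M s) 0) := by
  have := Exf.of_clock hC hT (rate := cru2 h H X M H0 p T q T)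
    (Ψ := fun x => -eru2 X H0 p q (M T - x) 0)
    (Φ := fun x => mru2 X H0 p q (M T - x + 0) (M T - x))
    (fun x => eru2_deriv X H0 p q (M T) 0 x)
    (fun x hx => by
      have h0 : 0 ≤ M T - x := sub_nonneg.2 hx.2
      have h1 := Ph_nonneg hC.hX H0 p q
      have h2 := Tp_nonneg hC.hX H0 p q 2
      have h3 := Tp_nonneg hC.hX H0 p q 3
      have h4 := Tp_nonneg hC.hX H0 p q 4
      have h5 := Tp_nonneg hC.hX H0 p q 5
      rw [add_zero]
      have k0 := mul_nonneg h0 h0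
      have k1 := mul_nonneg (pow_nonneg h0 3) h0
      have k2 := mul_nonneg h0 (pow_nonneg h0 3)
      have k3 := mul_nonneg (pow_nonneg h0 3) (pow_nonneg h0 3)
      have k4 := mul_nonneg (pow_nonneg h0 2) (pow_nonneg h0 2)
      unfold mru2
      refine add_nonneg (add_nonneg (add_nonneg ?_ ?_) ?_) ?_
      · exact mul_nonneg (by linarith) h1
      · exact mul_nonneg (by linarith) (by linarith)
      · exact mul_nonneg (by linarith) (by linarith)
      · exact mul_nonneg (by linarith) (by linarith))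
    (fun r hr => by
      have h1 := hC.cru2_le hpq hp hq hT hT hr.1 hr.2 hr.2
      have m1 := hC.mm hT hr
      have h2 := mul_le_mul_of_nonneg_left (fru2_le_mru2 hC.hX H0 p q m1 m1)
        (hC.μ0 r ⟨hr.1, hr.2.trans hT.2⟩)
      rw [add_zero]
      exact h1.trans h2)
  have z : eru2 X H0 p q 0 0 = 0 := by unfold eru2; simp [Jn_zero]
  obtain ⟨κ, κ', a1, a2, a3, a4⟩ := this
  refine ⟨κ, κ', a1, a2, fun r hr => ?_, a4⟩
  have := a3 r hr
  simpa only [sub_self, z, neg_zero, zero_sub, neg_neg] using this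

end Pool.Agent.RCG
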