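import Pool.Agent.RCG.SupR

/-! Several targets: row inequalities and the `ℓ²` bound (MP_73ccd0_lc, general graphs). -/

namespace Pool.Agent.RCG

open Set Finset Matrix Pool.Agent.RCRSHalf

set_option linter.unusedSectionVars false

namespace MTar
open QE PairIneq

def x : QE := QE.c 13 10 * (A * B)
/-- `1 + x/2 + x^2/6 + .0555 x^3` -/
def u : QE := k 1 + x * (QE.c 1 2 + x * (QE.c 1 6 + x * QE.c 555 10000))
def m : QE := QE.c 13 10 * B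
def G1 : QE := QE.c 253 1000 + m * (QE.c 1 8 + m * QE.c 9 100)
  + k (-1) * ((k 1 + k (-1) * A) * (A * (u * u)))
set_option maxRecDepth 100000 in
theorem ck1 : nonnegB 24 10 0 0 G1 = true := by decide +kernel
def e1 : QE := k 1 + x * u
def G2 : QE := QE.c 10390 10000 + k (-1) * ((k 1 + k (-1) * A) * e1)
set_option maxRecDepth 100000 in
theorem ck2 : nonnegB 30 4 0 0 G2 = true := by decide +kernel

def oA : QE := k 1 + k (-1) * A
def G3 : QE := QE.c 113 1000 + m * (QE.c 2 100 + m * QE.c 19 100)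
  + k (-1) * (oA * (oA * (oA * (A * ((e1 * e1) * (u * u))))))
set_option maxRecDepth 100000 in
theorem ck3 : nonnegB 30 14 0 0 G3 = true := by decide +kernel

/-- `(1-s) s (1+.877 s)^2 <= .5907 (1 - (1-s)^2/3)` -/
def G4 : QE := QE.c 5907 10000 * (k 1 + k (-1) * (QE.c 1 3 * (oA * oA)))
  + k (-1) * (oA * (A * ((k 1 + QE.c 877 1000 * A) * (k 1 + QE.c 877 1000 * A))))
set_option maxRecDepth 100000 in
theorem ck4 : nonnegB 60 0 0 0 G4 = true := by decide +kernel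

theorem poly1 {s m : ℝ} (hs0 : 0 ≤ s) (hs1 : s ≤ 1) (hm0 : 0 ≤ m) (hm1 : m ≤ 13 / 10) :
    (1 - s) * (s * (1 + m * s / 2 + (m * s) ^ 2 / 6 + 555 / 10000 * (m * s) ^ 3) ^ 2)
      ≤ 253 / 1000 + m / 8 + 9 / 100 * m ^ 2 := by
  have h := QE.nonneg_of_check ck1 hs0 hs1 (show 0 ≤ m * (10 / 13) by positivity)
    (show m * (10 / 13) ≤ 1 by linarith) (le_refl (0 : ℝ)) zero_le_one
    (le_refl (0 : ℝ)) zero_le_one
  simp only [G1, MTar.m, MTar.x, u, PairIneq.eval_add, k, QE.eval] at h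
  push_cast at h
  ring_nf at h ⊢
  linarith

theorem poly2 {s m : ℝ} (hs0 : 0 ≤ s) (hs1 : s ≤ 1) (hm0 : 0 ≤ m) (hm1 : m ≤ 13 / 10) :
    (1 - s) * (1 + (m * s) * (1 + m * s / 2 + (m * s) ^ 2 / 6 + 555 / 10000 * (m * s) ^ 3))
      ≤ 10390 / 10000 := by
  have h := QE.nonneg_of_check ck2 hs0 hs1 (show 0 ≤ m * (10 / 13) by positivity)
    (show m * (10 / 13) ≤ 1 by linarith) (le_refl (0 : ℝ)) zero_le_one
    (le_refl (0 : ℝ)) zero_le_one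
  simp only [G2, e1, MTar.x, u, PairIneq.eval_add, k, QE.eval] at h
  push_cast at h
  ring_nf at h ⊢
  linarith

theorem poly3 {s m : ℝ} (hs0 : 0 ≤ s) (hs1 : s ≤ 1) (hm0 : 0 ≤ m) (hm1 : m ≤ 13 / 10) :
    (1 - s) * ((1 - s) * ((1 - s) * (s * ((1 + (m * s) * (1 + m * s / 2 + (m * s) ^ 2 / 6
      + 555 / 10000 * (m * s) ^ 3)) ^ 2 * (1 + m * s / 2 + (m * s) ^ 2 / 6
      + 555 / 10000 * (m * s) ^ 3) ^ 2))))
      ≤ 113 / 1000 + 2 / 100 * m + 19 / 100 * m ^ 2 := by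
  have h := QE.nonneg_of_check ck3 hs0 hs1 (show 0 ≤ m * (10 / 13) by positivity)
    (show m * (10 / 13) ≤ 1 by linarith) (le_refl (0 : ℝ)) zero_le_one
    (le_refl (0 : ℝ)) zero_le_one
  simp only [G3, e1, oA, MTar.m, MTar.x, u, PairIneq.eval_add, k, QE.eval] at h
  push_cast at h
  ring_nf at h ⊢
  linarith

theorem poly4 {s : ℝ} (hs0 : 0 ≤ s) (hs1 : s ≤ 1) :
    (1 - s) * (s * (1 + 877 / 1000 * s) ^ 2) ≤ 5907 / 10000 * (1 - (1 - s) ^ 2 / 3) := by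
  have h := QE.nonneg_of_check ck4 hs0 hs1 (le_refl (0 : ℝ)) zero_le_one (le_refl (0 : ℝ))
    zero_le_one (le_refl (0 : ℝ)) zero_le_one
  simp only [G4, oA, PairIneq.eval_add, k, QE.eval] at h
  push_cast at h
  ring_nf at h ⊢
  linarith

end MTar

theorem exp_u13 {x : ℝ} (hx0 : 0 ≤ x) (hx1 : x ≤ 13 / 10) :
    Real.exp x ≤ 1 + x * (1 + x / 2 + x ^ 2 / 6 + 555 / 10000 * x ^ 3) := by
  set z := x / 2 with hz
  have hz0 : 0 ≤ z := by positivity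
  have hz1 : z ≤ 13 / 20 := by rw [hz]; linarith
  have hb := Real.exp_bound' hz0 (show z ≤ 1 by linarith) (n := 7) (by norm_num)
  have hsum : ∑ m ∈ Finset.range 7, z ^ m / (m.factorial : ℝ)
      = 1 + z + z ^ 2 / 2 + z ^ 3 / 6 + z ^ 4 / 24 + z ^ 5 / 120 + z ^ 6 / 720 := by
    simp [Finset.sum_range_succ, Nat.factorial]
  have hf : ((7 : ℕ).factorial : ℝ) = 5040 := by norm_num [Nat.factorial]
  rw [hsum, hf] at hb
  push_cast at hb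
  have hexp : Real.exp x = Real.exp z ^ 2 := by
    rw [← Real.exp_nat_mul]; congr 1; rw [hz]; push_cast; ring
  rw [hexp]
  have h7 : z ^ 7 ≤ z ^ 6 * (13 / 20) := by
    rw [pow_succ]; exact mul_le_mul_of_nonneg_left hz1 (pow_nonneg hz0 6)
  set P := 1 + z + z ^ 2 / 2 + z ^ 3 / 6 + z ^ 4 / 24 + z ^ 5 / 120 + z ^ 6 * (1537 / 1000000)
    with hP
  have h60 := pow_nonneg hz0 6
  have hb' : Real.exp z ≤ P := by
    refine hb.trans ?_
    rw [hP]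
    linarith
  have h1 : Real.exp z ^ 2 ≤ P ^ 2 := pow_le_pow_left₀ (Real.exp_pos z).le hb' 2
  refine h1.trans ?_
  have hp : ∀ n : ℕ, z ^ n ≤ (13 / 20) ^ n := fun n => pow_le_pow_left₀ hz0 hz1 n
  have h2 : P ^ 2 = 1 + 2 * z + 2 * z ^ 2 + 4 / 3 * z ^ 3 + z ^ 4 * (2 / 3 + (4 / 15) * z ^ 1
      + (1 / 24 + 1 / 60 + 1 / 36 + 3074 / 1000000) * z ^ 2
      + (1 / 120 + 1 / 72 + 3074 / 1000000) * z ^ 3
      + (1 / 576 + 1 / 360 + 1537 / 1000000) * z ^ 4 + (1 / 1440 + 1537 / 3000000) * z ^ 5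
      + (1 / 14400 + 1537 / 12000000) * z ^ 6 + (1537 / 60000000) * z ^ 7
      + (1537 / 1000000) ^ 2 * z ^ 8) := by
    rw [hP]; ring
  have h3 : 2 / 3 + (4 / 15) * z ^ 1
      + (1 / 24 + 1 / 60 + 1 / 36 + 3074 / 1000000) * z ^ 2
      + (1 / 120 + 1 / 72 + 3074 / 1000000) * z ^ 3
      + (1 / 576 + 1 / 360 + 1537 / 1000000) * z ^ 4 + (1 / 1440 + 1537 / 3000000) * z ^ 5
      + (1 / 14400 + 1537 / 12000000) * z ^ 6 + (1537 / 60000000) * z ^ 7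
      + (1537 / 1000000) ^ 2 * z ^ 8
      ≤ 888 / 1000 := by
    have a1 := hp 1
    have a2 := hp 2
    have a3 := hp 3
    have a4 := hp 4
    have a5 := hp 5
    have a6 := hp 6
    have a7 := hp 7
    have a8 := hp 8
    norm_num at a1 a2 a3 a4 a5 a6 a7 a8
    rw [pow_one]
    linarith
  have h4 := mul_le_mul_of_nonneg_left h3 (pow_nonneg hz0 4)
  rw [h2]
  have e : x = 2 * z := by rw [hz]; ring
  rw [e]
  nlinarith

/-- `D(m)` -/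
noncomputable def Dm (m : ℝ) : ℝ := 113 / 1000 + 2 / 100 * m + 19 / 100 * m ^ 2

theorem Dm_nonneg {m : ℝ} (hm : 0 ≤ m) : 0 ≤ Dm m := by unfold Dm; positivity

theorem rowC {s ρ m : ℝ} (hs0 : 0 ≤ s) (hρ0 : 0 ≤ ρ) (hρ : ρ + s ≤ 1) (hm0 : 0 ≤ m)
    (hm1 : m ≤ 13 / 10) : ρ * (Real.exp (m * s) - 1) ^ 2 ≤ s * (m ^ 2 * Cm m) := by
  have hs1 : s ≤ 1 := by linarith
  have hx0 : 0 ≤ m * s := mul_nonneg hm0 hs0
  have hx1 : m * s ≤ 13 / 10 := by nlinarith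
  have h1 := exp_u13 hx0 hx1
  have h2 : 0 ≤ Real.exp (m * s) - 1 := by linarith [Real.add_one_le_exp (m * s)]
  have h3 : Real.exp (m * s) - 1 ≤
      (m * s) * (1 + m * s / 2 + (m * s) ^ 2 / 6 + 555 / 10000 * (m * s) ^ 3) := by linarith
  have h4 := pow_le_pow_left₀ h2 h3 2
  have h5 := MTar.poly1 hs0 hs1 hm0 hm1
  calc ρ * (Real.exp (m * s) - 1) ^ 2
      ≤ (1 - s) * ((m * s) * (1 + m * s / 2 + (m * s) ^ 2 / 6 + 555 / 10000 * (m * s) ^ 3)) ^ 2 :=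
        mul_le_mul (by linarith) h4 (sq_nonneg _) (by linarith)
    _ = (m ^ 2 * s) * ((1 - s) * (s * (1 + m * s / 2 + (m * s) ^ 2 / 6
          + 555 / 10000 * (m * s) ^ 3) ^ 2)) := by ring
    _ ≤ (m ^ 2 * s) * Cm m := mul_le_mul_of_nonneg_left h5 (by positivity)
    _ = _ := by ring

theorem rowE {s ρ m : ℝ} (hs0 : 0 ≤ s) (hρ0 : 0 ≤ ρ) (hρ : ρ + s ≤ 1) (hm0 : 0 ≤ m)
    (hm1 : m ≤ 13 / 10) : ρ * Real.exp (m * s) ≤ 10390 / 10000 := by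
  have hs1 : s ≤ 1 := by linarith
  have hx0 : 0 ≤ m * s := mul_nonneg hm0 hs0
  have hx1 : m * s ≤ 13 / 10 := by nlinarith
  have h1 := exp_u13 hx0 hx1
  exact (mul_le_mul (by linarith : ρ ≤ 1 - s) h1 (Real.exp_pos _).le (by linarith)).trans
    (MTar.poly2 hs0 hs1 hm0 hm1)

theorem rowG {s ρ m : ℝ} (hs0 : 0 ≤ s) (hρ0 : 0 ≤ ρ) (hρ : ρ + s ≤ 1) (hm0 : 0 ≤ m)
    (hm1 : m ≤ 13 / 10) :
    ρ * (ρ * Real.exp (m * s) * (Real.exp (m * s) - 1)) ^ 2 ≤ s * (m ^ 2 * Dm m) := by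
  have hs1 : s ≤ 1 := by linarith
  have hx0 : 0 ≤ m * s := mul_nonneg hm0 hs0
  have hx1 : m * s ≤ 13 / 10 := by nlinarith
  have h1 := exp_u13 hx0 hx1
  set U := 1 + m * s / 2 + (m * s) ^ 2 / 6 + 555 / 10000 * (m * s) ^ 3 with hU
  have hU0 : 0 ≤ U := by positivity
  have h2 : 0 ≤ Real.exp (m * s) - 1 := by linarith [Real.add_one_le_exp (m * s)]
  have h3 : Real.exp (m * s) - 1 ≤ (m * s) * U := by linarith
  have hE := (Real.exp_pos (m * s)).le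
  have hρ1 : ρ ≤ 1 - s := by linarith
  have h0 : 0 ≤ ρ * Real.exp (m * s) * (Real.exp (m * s) - 1) :=
    mul_nonneg (mul_nonneg hρ0 hE) h2
  have h4 : ρ * Real.exp (m * s) * (Real.exp (m * s) - 1)
      ≤ (1 - s) * (1 + (m * s) * U) * ((m * s) * U) :=
    mul_le_mul (mul_le_mul hρ1 h1 hE (by linarith)) h3 h2
      (mul_nonneg (by linarith) (by positivity))
  have h5 := pow_le_pow_left₀ h0 h4 2
  have h6 := MTar.poly3 hs0 hs1 hm0 hm1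
  rw [← hU] at h6
  calc ρ * (ρ * Real.exp (m * s) * (Real.exp (m * s) - 1)) ^ 2
      ≤ (1 - s) * ((1 - s) * (1 + (m * s) * U) * ((m * s) * U)) ^ 2 :=
        mul_le_mul hρ1 h5 (sq_nonneg _) (by linarith)
    _ = (m ^ 2 * s) * ((1 - s) * ((1 - s) * ((1 - s) * (s * ((1 + (m * s) * U) ^ 2 * U ^ 2))))) := by
        ring
    _ ≤ (m ^ 2 * s) * Dm m := mul_le_mul_of_nonneg_left h6 (by positivity)
    _ = _ := by ring

theorem rowF {s ρ : ℝ} (hs0 : 0 ≤ s) (hρ0 : 0 ≤ ρ) (hρ : ρ + s ≤ 1) :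
    ρ * (s * (1 + 877 / 1000 * s) ^ 2) ≤ 5907 / 10000 * (1 - ρ ^ 2 / 3) := by
  have hs1 : s ≤ 1 := by linarith
  have h := MTar.poly4 hs0 hs1
  have h1 : ρ * (s * (1 + 877 / 1000 * s) ^ 2) ≤ (1 - s) * (s * (1 + 877 / 1000 * s) ^ 2) :=
    mul_le_mul_of_nonneg_right (by linarith) (by positivity)
  have h2 : ρ ^ 2 ≤ (1 - s) ^ 2 := pow_le_pow_left₀ hρ0 (by linarith) 2
  linarith

end Pool.Agent.RCG
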