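import Pool.Agent.RCG.MTarA

/-! Several targets: the `ℓ²` bounds (MP_73ccd0_lc, general graphs). -/

namespace Pool.Agent.RCG

open Set Finset Matrix Pool.Agent.RCRSHalf

set_option linter.unusedSectionVars false

variable {V : Type*} [Fintype V] [DecidableEq V]
variable {X : V → V → ℝ} {H0 : Finset V} {ι : Type*} {W : Finset ι}

/-- weights of several targets -/
structure MW (X : V → V → ℝ) (H0 : Finset V) (W : Finset ι) (p : ι → V → ℝ) : Prop where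
  p0 : ∀ i ∈ W, ∀ a ∈ H0, 0 ≤ p i a
  row : ∀ a ∈ H0, rho X H0 a + ∑ i ∈ W, p i a ≤ 1

/-- mass of a target -/
noncomputable def mas (H0 : Finset V) (p : V → ℝ) : ℝ := ∑ a ∈ H0, p a

/-- Jensen for powers -/
theorem jen {p m : ι → ℝ} (hp : ∀ i ∈ W, 0 ≤ p i) (hm : ∀ i ∈ W, 0 ≤ m i)
    (hs : 0 < ∑ i ∈ W, p i) (k : ℕ) :
    (∑ i ∈ W, p i) * ((∑ i ∈ W, m i * p i) / ∑ i ∈ W, p i) ^ k ≤ ∑ i ∈ W, p i * m i ^ k := by
  set s := ∑ i ∈ W, p i with hs'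
  have h := Real.pow_arith_mean_le_arith_mean_pow W (fun i => p i / s) m
    (fun i hi => div_nonneg (hp i hi) hs.le) (by
      rw [← Finset.sum_div]; exact div_self hs.ne') hm k
  have e1 : ∑ i ∈ W, p i / s * m i = (∑ i ∈ W, m i * p i) / s := by
    rw [Finset.sum_div]
    exact Finset.sum_congr rfl fun i _ => by ring
  have e2 : ∑ i ∈ W, p i / s * m i ^ k = (∑ i ∈ W, p i * m i ^ k) / s := by
    rw [Finset.sum_div]
    exact Finset.sum_congr rfl fun i _ => by ring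
  rw [e1, e2] at h
  calc s * ((∑ i ∈ W, m i * p i) / s) ^ k ≤ s * ((∑ i ∈ W, p i * m i ^ k) / s) :=
        mul_le_mul_of_nonneg_left h hs.le
    _ = _ := by field_simp

/-- average horizon of a vertex -/
theorem avg {p m : ι → ℝ} (hp : ∀ i ∈ W, 0 ≤ p i) (hm : ∀ i ∈ W, 0 ≤ m i)
    {m1 : ℝ} (hm1 : ∀ i ∈ W, m i ≤ m1) (hm0 : 0 ≤ m1) :
    ∃ mb, 0 ≤ mb ∧ mb ≤ m1 ∧ mb * (∑ i ∈ W, p i) = ∑ i ∈ W, m i * p i ∧
      ∀ k : ℕ, (∑ i ∈ W, p i) * mb ^ k ≤ ∑ i ∈ W, p i * m i ^ k := by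
  have hs0 : 0 ≤ ∑ i ∈ W, p i := Finset.sum_nonneg hp
  rcases hs0.eq_or_lt with h | h
  · have hz : ∀ i ∈ W, p i = 0 := (Finset.sum_eq_zero_iff_of_nonneg hp).1 h.symm
    refine ⟨0, le_rfl, hm0, ?_, fun k => ?_⟩
    · rw [zero_mul]
      exact (Finset.sum_eq_zero fun i hi => by rw [hz i hi, mul_zero]).symm
    · rw [← h, zero_mul]
      exact Finset.sum_nonneg fun i hi => mul_nonneg (hp i hi) (pow_nonneg (hm i hi) k)
  · have hq0 : 0 ≤ ∑ i ∈ W, m i * p i := Finset.sum_nonneg fun i hi =>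
      mul_nonneg (hm i hi) (hp i hi)
    refine ⟨(∑ i ∈ W, m i * p i) / ∑ i ∈ W, p i, div_nonneg hq0 h.le, ?_, ?_,
      fun k => jen hp hm h k⟩
    · rw [div_le_iff₀ h, Finset.mul_sum]
      exact Finset.sum_le_sum fun i hi => mul_le_mul_of_nonneg_right (hm1 i hi) (hp i hi)
    · field_simp

theorem MW.s0 {p : ι → V → ℝ} (hW : MW X H0 W p) {a : V} (ha : a ∈ H0) :
    0 ≤ ∑ i ∈ W, p i a := Finset.sum_nonneg fun i hi => hW.p0 i hi a ha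

/-- sum over the vertices of a row bound -/
theorem MW.sum_le {p : ι → V → ℝ} {f : V → ℝ} {g : ι → ℝ}
    (hf : ∀ a ∈ H0, f a ≤ ∑ i ∈ W, p i a * g i) :
    ∑ a ∈ H0, f a ≤ ∑ i ∈ W, mas H0 (p i) * g i := by
  refine (Finset.sum_le_sum hf).trans (le_of_eq ?_)
  rw [Finset.sum_comm]
  refine Finset.sum_congr rfl fun i _ => ?_
  unfold mas
  rw [Finset.sum_mul]

theorem MW.rowC (hX : Wt X) {p : ι → V → ℝ} (hW : MW X H0 W p) {m : ι → ℝ}
    (hm0 : ∀ i ∈ W, 0 ≤ m i) (hm1 : ∀ i ∈ W, m i ≤ 13 / 10) {a : V} (ha : a ∈ H0) :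
    rho X H0 a * (Real.exp (∑ i ∈ W, m i * p i a) - 1) ^ 2
      ≤ ∑ i ∈ W, p i a * (m i ^ 2 * Cm (m i)) := by
  obtain ⟨mb, h1, h2, h3, h4⟩ := avg (p := fun i => p i a) (fun i hi => hW.p0 i hi a ha) hm0 hm1
    (by norm_num)
  rw [← h3]
  refine (RCG.rowC (hW.s0 ha) (rho_nonneg hX H0 a) (hW.row a ha) h1 h2).trans ?_
  have e : ∑ i ∈ W, p i a * (m i ^ 2 * Cm (m i)) = 253 / 1000 * ∑ i ∈ W, p i a * m i ^ 2
      + 1 / 8 * ∑ i ∈ W, p i a * m i ^ 3 + 9 / 100 * ∑ i ∈ W, p i a * m i ^ 4 := by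
    rw [Finset.mul_sum, Finset.mul_sum, Finset.mul_sum, ← Finset.sum_add_distrib,
      ← Finset.sum_add_distrib]
    refine Finset.sum_congr rfl fun i _ => ?_
    unfold Cm; ring
  rw [e]
  have k2 := h4 2
  have k3 := h4 3
  have k4 := h4 4
  unfold Cm
  nlinarith

theorem MW.rowG (hX : Wt X) {p : ι → V → ℝ} (hW : MW X H0 W p) {m : ι → ℝ}
    (hm0 : ∀ i ∈ W, 0 ≤ m i) (hm1 : ∀ i ∈ W, m i ≤ 13 / 10) {a : V} (ha : a ∈ H0) :
    rho X H0 a * (rho X H0 a * Real.exp (∑ i ∈ W, m i * p i a)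
      * (Real.exp (∑ i ∈ W, m i * p i a) - 1)) ^ 2
      ≤ ∑ i ∈ W, p i a * (m i ^ 2 * Dm (m i)) := by
  obtain ⟨mb, h1, h2, h3, h4⟩ := avg (p := fun i => p i a) (fun i hi => hW.p0 i hi a ha) hm0 hm1
    (by norm_num)
  rw [← h3]
  refine (RCG.rowG (hW.s0 ha) (rho_nonneg hX H0 a) (hW.row a ha) h1 h2).trans ?_
  have e : ∑ i ∈ W, p i a * (m i ^ 2 * Dm (m i)) = 113 / 1000 * ∑ i ∈ W, p i a * m i ^ 2
      + 2 / 100 * ∑ i ∈ W, p i a * m i ^ 3 + 19 / 100 * ∑ i ∈ W, p i a * m i ^ 4 := by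
    rw [Finset.mul_sum, Finset.mul_sum, Finset.mul_sum, ← Finset.sum_add_distrib,
      ← Finset.sum_add_distrib]
    refine Finset.sum_congr rfl fun i _ => ?_
    unfold Dm; ring
  rw [e]
  have k2 := h4 2
  have k3 := h4 3
  have k4 := h4 4
  unfold Dm
  nlinarith

theorem MW.rowE (hX : Wt X) {p : ι → V → ℝ} (hW : MW X H0 W p) {m : ι → ℝ}
    (hm0 : ∀ i ∈ W, 0 ≤ m i) (hm1 : ∀ i ∈ W, m i ≤ 13 / 10) {a : V} (ha : a ∈ H0) :
    rho X H0 a * Real.exp (∑ i ∈ W, m i * p i a) ≤ 10390 / 10000 := by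
  obtain ⟨mb, h1, h2, h3, h4⟩ := avg (p := fun i => p i a) (fun i hi => hW.p0 i hi a ha) hm0 hm1
    (by norm_num)
  rw [← h3]
  exact RCG.rowE (hW.s0 ha) (rho_nonneg hX H0 a) (hW.row a ha) h1 h2

/-- the row bound for the source of the resolvent -/
theorem MW.rowF (hX : Wt X) {p : ι → V → ℝ} (hW : MW X H0 W p) {w : ι → ℝ}
    (hw : ∀ i ∈ W, 0 ≤ w i) {a : V} (ha : a ∈ H0) {G : ℝ} (hG0 : 0 ≤ G)
    (hG : G ≤ ∑ i ∈ W, w i * Fc (p i a)) :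
    rho X H0 a * G ^ 2 ≤ (1 - rho X H0 a ^ 2 / 3)
      * ∑ i ∈ W, p i a * (5907 / 10000 * w i ^ 2) := by
  have hρ := rho_nonneg hX H0 a
  have hs := hW.s0 ha
  set s := ∑ i ∈ W, p i a with hs'
  have hle : ∀ i ∈ W, p i a ≤ s := fun i hi =>
    Finset.single_le_sum (fun j hj => hW.p0 j hj a ha) hi
  have h1 : G ≤ (1 + 877 / 1000 * s) * ∑ i ∈ W, w i * p i a := by
    refine hG.trans ?_
    rw [Finset.mul_sum]
    refine Finset.sum_le_sum fun i hi => ?_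
    have h0 := hW.p0 i hi a ha
    have h2 : Fc (p i a) ≤ p i a * (1 + 877 / 1000 * s) := by
      unfold Fc
      exact mul_le_mul_of_nonneg_left (by linarith [hle i hi]) h0
    calc w i * Fc (p i a) ≤ w i * (p i a * (1 + 877 / 1000 * s)) :=
          mul_le_mul_of_nonneg_left h2 (hw i hi)
      _ = _ := by ring
  have hq0 : 0 ≤ ∑ i ∈ W, w i * p i a :=
    Finset.sum_nonneg fun i hi => mul_nonneg (hw i hi) (hW.p0 i hi a ha)
  have h2 : (∑ i ∈ W, w i * p i a) ^ 2 ≤ s * ∑ i ∈ W, p i a * w i ^ 2 := by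
    obtain ⟨mb, k1, k2, k3, k4⟩ := avg (p := fun i => p i a) (m := w) (fun i hi => hW.p0 i hi a ha)
      hw (m1 := ∑ i ∈ W, w i) (fun i hi => Finset.single_le_sum hw hi)
      (Finset.sum_nonneg hw)
    have k5 := mul_le_mul_of_nonneg_left (k4 2) hs
    rw [← k3]
    calc (mb * s) ^ 2 = s * (s * mb ^ 2) := by ring
      _ ≤ _ := k5
  have h3 : G ^ 2 ≤ (1 + 877 / 1000 * s) ^ 2 * (s * ∑ i ∈ W, p i a * w i ^ 2) := by
    calc G ^ 2 ≤ ((1 + 877 / 1000 * s) * ∑ i ∈ W, w i * p i a) ^ 2 := pow_le_pow_left₀ hG0 h1 2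
      _ = (1 + 877 / 1000 * s) ^ 2 * (∑ i ∈ W, w i * p i a) ^ 2 := by ring
      _ ≤ _ := mul_le_mul_of_nonneg_left h2 (sq_nonneg _)
  have h4 := RCG.rowF hs hρ (hW.row a ha)
  have h5 : 0 ≤ ∑ i ∈ W, p i a * w i ^ 2 :=
    Finset.sum_nonneg fun i hi => mul_nonneg (hW.p0 i hi a ha) (sq_nonneg _)
  calc rho X H0 a * G ^ 2
      ≤ rho X H0 a * ((1 + 877 / 1000 * s) ^ 2 * (s * ∑ i ∈ W, p i a * w i ^ 2)) :=
        mul_le_mul_of_nonneg_left h3 hρ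
    _ = (rho X H0 a * (s * (1 + 877 / 1000 * s) ^ 2)) * ∑ i ∈ W, p i a * w i ^ 2 := by ring
    _ ≤ (5907 / 10000 * (1 - rho X H0 a ^ 2 / 3)) * ∑ i ∈ W, p i a * w i ^ 2 :=
        mul_le_mul_of_nonneg_right h4 h5
    _ = _ := by
        rw [Finset.mul_sum, Finset.mul_sum]
        refine Finset.sum_congr rfl fun i _ => ?_
        ring

/-- The `ℓ²` bound: `v` is the image of `R`, and `R ≤ G + .13 A v`; `c` is an additional value from
outside of `H0` with the weights `q`. -/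
theorem l2v (hX : Wt X) (H0 : Finset V) {R G v q : V → ℝ} {Rc : ℝ} {K : V → ℝ}
    (hR0 : ∀ a ∈ H0, 0 ≤ R a) (hv0 : ∀ a ∈ H0, 0 ≤ v a)
    (hv : ∀ a ∈ H0, v a ^ 2 ≤ ∑ b ∈ H0, X a b * R b ^ 2 + q a * Rc ^ 2)
    (hR : ∀ a ∈ H0, R a ≤ G a + 13 / 100 * (rm X H0 *ᵥ v) a)
    (hG : ∀ a ∈ H0, rho X H0 a * G a ^ 2 ≤ (1 - rho X H0 a ^ 2 / 3) * K a) :
    ∑ a ∈ H0, v a ^ 2 ≤ 10535 / 10000 * (∑ a ∈ H0, K a + mas H0 q * Rc ^ 2) := by
  set S := ∑ a ∈ H0, v a ^ 2 with hS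
  have hρ1 := rho_le_one hX H0
  have hρ0 := rho_nonneg hX H0
  -- first sum
  have h1 : S ≤ ∑ b ∈ H0, rho X H0 b * R b ^ 2 + mas H0 q * Rc ^ 2 := by
    refine (Finset.sum_le_sum hv).trans (le_of_eq ?_)
    rw [Finset.sum_add_distrib, Finset.sum_comm]
    congr 1
    · refine Finset.sum_congr rfl fun b hb => ?_
      rw [rho_in hb, Finset.sum_mul]
      exact Finset.sum_congr rfl fun a _ => by rw [hX.symm a b]
    · unfold mas; rw [Finset.sum_mul]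
  -- pointwise
  have h2 : ∀ a ∈ H0, rho X H0 a * R a ^ 2 ≤ K a
      + 507 / 10000 * ∑ b ∈ H0, X a b * v b ^ 2 := by
    intro a ha
    set ρ := rho X H0 a with hρ
    set z := (rm X H0 *ᵥ v) a with hz
    set Z := ∑ b ∈ H0, X a b * v b ^ 2 with hZ
    have hz0 : 0 ≤ z := by
      rw [hz, rm_mulVec H0 _ ha]
      exact Finset.sum_nonneg fun b hb => mul_nonneg (hX.nonneg _ _) (hv0 b hb)
    have hZ0 : 0 ≤ Z := Finset.sum_nonneg fun b _ => mul_nonneg (hX.nonneg _ _) (sq_nonneg _)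
    have hzZ : z ^ 2 ≤ ρ * Z := by
      have := A_sq hX H0 v a
      rw [rm_mulVec H0 (fun b => v b ^ 2) ha] at this
      exact this
    have h3 : R a ^ 2 ≤ (G a + 13 / 100 * z) ^ 2 := pow_le_pow_left₀ (hR0 a ha) (hR a ha) 2
    have hρa := hρ0 a
    have hρb := hρ1 a
    rw [← hρ] at hρa hρb
    have hD : 0 < 1 - ρ ^ 2 / 3 := by nlinarith
    have hg := hG a ha
    rw [← hρ] at hg
    have h4 : ρ * (G a + 13 / 100 * z) ^ 2 ≤ K a + 507 / 10000 * Z := by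
      -- `(1 - λ)(f+g)² ≤ f² + (1-λ) g² / λ`, `λ = ρ²/3`
      rcases hρa.eq_or_lt with h0 | h0
      · rw [← h0] at hg ⊢
        simp only [zero_mul] at hg ⊢
        nlinarith
      · have k1 : ρ * (1 - ρ ^ 2 / 3) * (G a + 13 / 100 * z) ^ 2 * ρ
            ≤ ρ * ρ * G a ^ 2 + (1 - ρ ^ 2 / 3) * (507 / 10000) * z ^ 2 := by
          nlinarith [sq_nonneg (ρ ^ 2 / 3 * G a - (1 - ρ ^ 2 / 3) * (13 / 100 * z)),
            mul_nonneg (sq_nonneg ρ) (sq_nonneg (G a)), sq_nonneg (ρ * G a), sq_nonneg z,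
            sq_nonneg (ρ ^ 2 * G a - (3 - ρ ^ 2) * (13 / 100 * z))]
        have k2 : (1 - ρ ^ 2 / 3) * (507 / 10000) * z ^ 2
            ≤ (1 - ρ ^ 2 / 3) * (507 / 10000) * (ρ * Z) :=
          mul_le_mul_of_nonneg_left hzZ (by positivity)
        have k3 : ρ * (ρ * G a ^ 2) ≤ ρ * ((1 - ρ ^ 2 / 3) * K a) :=
          mul_le_mul_of_nonneg_left hg h0.le
        have k4 : (ρ * (1 - ρ ^ 2 / 3)) * (ρ * (G a + 13 / 100 * z) ^ 2)
            ≤ (ρ * (1 - ρ ^ 2 / 3)) * (K a + 507 / 10000 * Z) := by nlinarith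
        exact le_of_mul_le_mul_left k4 (mul_pos h0 hD)
    exact (mul_le_mul_of_nonneg_left h3 hρa).trans h4
  have h5 : ∑ a ∈ H0, rho X H0 a * R a ^ 2 ≤ ∑ a ∈ H0, K a + 507 / 10000 * S := by
    refine (Finset.sum_le_sum h2).trans ?_
    rw [Finset.sum_add_distrib, ← Finset.mul_sum]
    refine add_le_add le_rfl (mul_le_mul_of_nonneg_left ?_ (by norm_num))
    rw [Finset.sum_comm]
    refine Finset.sum_le_sum fun b hb => ?_
    have : ∑ a ∈ H0, X a b * v b ^ 2 = rho X H0 b * v b ^ 2 := by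
      rw [rho_in hb, Finset.sum_mul]
      exact Finset.sum_congr rfl fun a _ => by rw [hX.symm a b]
    rw [this]
    have := mul_le_mul_of_nonneg_right (hρ1 b) (sq_nonneg (v b))
    linarith
  have hK : 0 ≤ ∑ a ∈ H0, K a + mas H0 q * Rc ^ 2 := by
    have hS0 : 0 ≤ S := Finset.sum_nonneg fun _ _ => sq_nonneg _
    nlinarith
  nlinarith

end Pool.Agent.RCG
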