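import Pool.Agent.RCG.MTarB
import Pool.Agent.RCG.Gul

/-! Several targets: the rate (MP_73ccd0_lc, general graphs). -/

namespace Pool.Agent.RCG

open Set Finset Matrix Pool.Agent.RCRSHalf

set_option linter.unusedSectionVars false

variable {V : Type*} [Fintype V] [DecidableEq V]
variable {X : V → V → ℝ} {H0 : Finset V} {ι : Type*} {W : Finset ι}

/-- The sup-level rate of several targets with tails. -/
theorem MW.rate (hX : Wt X) {p : ι → V → ℝ} (hW : MW X H0 W p) {m : ι → ℝ}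
    (hm0 : ∀ i ∈ W, 0 ≤ m i) (hm1 : ∀ i ∈ W, m i ≤ 13 / 10) {Y N v : V → ℝ} {c η S3 S2 : ℝ}
    (hc : 0 ≤ c) (hη : 0 < η) (hY0 : ∀ a ∈ H0, 0 ≤ Y a) (hv0 : ∀ a ∈ H0, 0 ≤ v a)
    (hYv : ∀ a ∈ H0, Y a ≤ (rm X H0 *ᵥ v) a)
    (hYe : ∀ a ∈ H0, Real.exp (Y a) ≤ 1 + c * Y a)
    (hS3 : ∑ a ∈ H0, v a ^ 2 ≤ S3) (hS2 : ∑ a ∈ H0, rho X H0 a * N a ^ 2 ≤ S2) :
    ∑ a ∈ H0, rho X H0 a * ((Real.exp (∑ i ∈ W, m i * p i a + Y a) - 1) ^ 2 + N a ^ 2)
      ≤ ∑ i ∈ W, mas H0 (p i) * (m i ^ 2 * Cm (m i))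
        + c * (η * ∑ i ∈ W, mas H0 (p i) * (m i ^ 2 * Dm (m i)) + S3 / η)
        + c ^ 2 * (10796 / 10000) * S3 + S2 := by
  have hAn := hX.rm_nonneg H0
  have hρ0 := rho_nonneg hX H0
  have hρ1 := rho_le_one hX H0
  have hT0 : ∀ a ∈ H0, 0 ≤ ∑ i ∈ W, m i * p i a := fun a ha =>
    Finset.sum_nonneg fun i hi => mul_nonneg (hm0 i hi) (hW.p0 i hi a ha)
  -- restrict v to H0
  set v' : V → ℝ := fun a => if a ∈ H0 then v a else 0 with hv'
  have hv'0 : ∀ a, 0 ≤ v' a := fun a => by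
    rw [hv']; dsimp only
    split_ifs with h
    · exact hv0 a h
    · exact le_rfl
  have hvv : ∀ a ∈ H0, (rm X H0 *ᵥ v) a = (rm X H0 *ᵥ v') a := fun a ha => by
    rw [rm_mulVec H0 _ ha, rm_mulVec H0 _ ha]
    refine Finset.sum_congr rfl fun b hb => ?_
    rw [hv']; dsimp only
    rw [if_pos hb]
  have hsq : sqs v' = ∑ a ∈ H0, v a ^ 2 := by
    unfold sqs
    symm
    rw [← Finset.sum_subset (Finset.subset_univ H0)]
    · refine Finset.sum_congr rfl fun a ha => ?_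
      rw [hv']; dsimp only
      rw [if_pos ha]
    · intro a _ ha
      rw [hv']; dsimp only
      rw [if_neg ha]; norm_num
  have hsq3 : sqs v' ≤ S3 := hsq.le.trans hS3
  have hS30 : 0 ≤ S3 := (sqs_nonneg _).trans hsq3
  -- main
  have hmain : ∑ a ∈ H0, rho X H0 a * (Real.exp (∑ i ∈ W, m i * p i a) - 1) ^ 2
      ≤ ∑ i ∈ W, mas H0 (p i) * (m i ^ 2 * Cm (m i)) :=
    MW.sum_le fun a ha => hW.rowC hX hm0 hm1 ha
  -- vector g
  set g : V → ℝ := fun a => if a ∈ H0 then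
    rho X H0 a * Real.exp (∑ i ∈ W, m i * p i a) * (Real.exp (∑ i ∈ W, m i * p i a) - 1)
    else 0 with hg
  have hg1 : ∀ a ∈ H0, g a = rho X H0 a * Real.exp (∑ i ∈ W, m i * p i a)
      * (Real.exp (∑ i ∈ W, m i * p i a) - 1) := fun a ha => by
    rw [hg]; dsimp only; rw [if_pos ha]
  have hgn : sqs (rm X H0 *ᵥ g) ≤ ∑ i ∈ W, mas H0 (p i) * (m i ^ 2 * Dm (m i)) := by
    refine (sqs_A hX H0 g).trans ?_
    have e : ∑ a, rho X H0 a * g a ^ 2 = ∑ a ∈ H0, rho X H0 a * g a ^ 2 := by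
      symm
      refine Finset.sum_subset (Finset.subset_univ _) fun a _ ha => ?_
      rw [rho_out ha, zero_mul]
    rw [e]
    refine MW.sum_le fun a ha => ?_
    rw [hg1 a ha]
    exact hW.rowG hX hm0 hm1 ha
  have hcross : 2 * ∑ a ∈ H0, g a * (rm X H0 *ᵥ v') a
      ≤ η * ∑ i ∈ W, mas H0 (p i) * (m i ^ 2 * Dm (m i)) + S3 / η := by
    have e1 : ∑ a ∈ H0, g a * (rm X H0 *ᵥ v') a = ∑ a, g a * (rm X H0 *ᵥ v') a :=
      Finset.sum_subset (Finset.subset_univ _) fun a _ ha => by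
        rw [rm_mulVec_out H0 _ ha, mul_zero]
    rw [e1, sum_A hX H0 g v', Finset.mul_sum]
    have h1 : ∑ a, 2 * ((rm X H0 *ᵥ g) a * v' a)
        ≤ η * sqs (rm X H0 *ᵥ g) + sqs v' / η := by
      unfold sqs
      rw [Finset.mul_sum, Finset.sum_div, ← Finset.sum_add_distrib]
      refine Finset.sum_le_sum fun a _ => ?_
      have : 2 * ((rm X H0 *ᵥ g) a * v' a) * η
          ≤ (η * (rm X H0 *ᵥ g) a ^ 2 + v' a ^ 2 / η) * η := by
        have e : (η * (rm X H0 *ᵥ g) a ^ 2 + v' a ^ 2 / η) * η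
            = η ^ 2 * (rm X H0 *ᵥ g) a ^ 2 + v' a ^ 2 := by field_simp
        rw [e]
        nlinarith [sq_nonneg (η * (rm X H0 *ᵥ g) a - v' a)]
      exact le_of_mul_le_mul_right this hη
    refine h1.trans (add_le_add (mul_le_mul_of_nonneg_left hgn hη.le) ?_)
    exact (div_le_div_iff_of_pos_right hη).2 hsq3
  -- y²
  have hyy : ∑ a ∈ H0, rho X H0 a * Real.exp (∑ i ∈ W, m i * p i a) ^ 2
      * (rm X H0 *ᵥ v') a ^ 2 ≤ 10796 / 10000 * S3 := by
    have h1 : ∀ a ∈ H0, rho X H0 a * Real.exp (∑ i ∈ W, m i * p i a) ^ 2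
        * (rm X H0 *ᵥ v') a ^ 2 ≤ 10796 / 10000 * (rm X H0 *ᵥ fun b => v' b ^ 2) a := by
      intro a ha
      have h2 := A_sq hX H0 v' a
      have h3 := hW.rowE hX hm0 hm1 ha
      set E := Real.exp (∑ i ∈ W, m i * p i a) with hE
      have h4 : 0 ≤ rho X H0 a * E := mul_nonneg (hρ0 a) (Real.exp_pos _).le
      have h5 : (rho X H0 a * E) ^ 2 ≤ 10796 / 10000 :=
        (pow_le_pow_left₀ h4 h3 2).trans (by norm_num)
      have h6 : 0 ≤ (rm X H0 *ᵥ fun b => v' b ^ 2) a :=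
        mulVec_nonneg hAn (fun _ => sq_nonneg _) a
      calc rho X H0 a * E ^ 2 * (rm X H0 *ᵥ v') a ^ 2
          ≤ rho X H0 a * E ^ 2 * (rho X H0 a * (rm X H0 *ᵥ fun b => v' b ^ 2) a) :=
            mul_le_mul_of_nonneg_left h2 (mul_nonneg (hρ0 a) (sq_nonneg _))
        _ = (rho X H0 a * E) ^ 2 * (rm X H0 *ᵥ fun b => v' b ^ 2) a := by ring
        _ ≤ _ := mul_le_mul_of_nonneg_right h5 h6
    refine (Finset.sum_le_sum h1).trans ?_
    rw [← Finset.mul_sum]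
    refine mul_le_mul_of_nonneg_left ?_ (by norm_num)
    have h8 : ∑ a ∈ H0, (rm X H0 *ᵥ fun b => v' b ^ 2) a
        ≤ ∑ a, 1 * (rm X H0 *ᵥ fun b => v' b ^ 2) a := by
      simp only [one_mul]
      exact Finset.sum_le_sum_of_subset_of_nonneg (Finset.subset_univ _) fun a _ _ =>
        mulVec_nonneg hAn (fun _ => sq_nonneg _) a
    rw [sum_A hX H0 (fun _ => 1) (fun b => v' b ^ 2)] at h8
    refine h8.trans (le_trans (Finset.sum_le_sum fun a _ => ?_) hsq3)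
    have := mul_le_mul_of_nonneg_right (hρ1 a) (sq_nonneg (v' a))
    have e : (rm X H0 *ᵥ fun _ => 1) a = rho X H0 a := rfl
    rw [e]; linarith
  -- pointwise
  have hpt : ∀ a ∈ H0, rho X H0 a * ((Real.exp (∑ i ∈ W, m i * p i a + Y a) - 1) ^ 2 + N a ^ 2)
      ≤ rho X H0 a * (Real.exp (∑ i ∈ W, m i * p i a) - 1) ^ 2
        + c * (2 * (g a * (rm X H0 *ᵥ v') a))
        + c ^ 2 * (rho X H0 a * Real.exp (∑ i ∈ W, m i * p i a) ^ 2
          * (rm X H0 *ᵥ v') a ^ 2) + rho X H0 a * N a ^ 2 := by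
    intro a ha
    have hρ := hρ0 a
    have e1 := Real.one_le_exp (hT0 a ha)
    have e2 := hYe a ha
    have e3 := Real.one_le_exp (hY0 a ha)
    have hyv := hYv a ha
    rw [hvv a ha] at hyv
    rw [hg1 a ha, Real.exp_add]
    set E := Real.exp (∑ i ∈ W, m i * p i a) with hE
    have e4 : c * Y a ≤ c * (rm X H0 *ᵥ v') a := mul_le_mul_of_nonneg_left hyv hc
    have e6 : E * Real.exp (Y a) - 1 ≤ (E - 1) + E * (c * (rm X H0 *ᵥ v') a) := by
      have := mul_le_mul_of_nonneg_left (e2.trans (add_le_add le_rfl e4))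
        (show 0 ≤ E by linarith)
      linarith
    have e7 : 0 ≤ E * Real.exp (Y a) - 1 := by
      have := mul_le_mul e1 e3 zero_le_one (by linarith)
      linarith
    have e8 := mul_le_mul_of_nonneg_left (pow_le_pow_left₀ e7 e6 2) hρ
    calc rho X H0 a * ((E * Real.exp (Y a) - 1) ^ 2 + N a ^ 2)
        = rho X H0 a * (E * Real.exp (Y a) - 1) ^ 2 + rho X H0 a * N a ^ 2 := by ring
      _ ≤ rho X H0 a * ((E - 1) + E * (c * (rm X H0 *ᵥ v') a)) ^ 2 + rho X H0 a * N a ^ 2 :=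
          add_le_add e8 le_rfl
      _ = _ := by ring
  refine (Finset.sum_le_sum hpt).trans ?_
  rw [Finset.sum_add_distrib, Finset.sum_add_distrib, Finset.sum_add_distrib, ← Finset.mul_sum,
    ← Finset.mul_sum, ← Finset.mul_sum]
  have k1 := mul_le_mul_of_nonneg_left hcross hc
  have k2 := mul_le_mul_of_nonneg_left hyy (sq_nonneg c)
  linarith

/-! ### The excess of several factors -/

theorem exp_exc {n : ℝ} (hn : 2 ≤ n) {x : ℝ} (hx : 0 ≤ x) :
    Real.exp x - 1 - n * (Real.exp (x / n) - 1) ≤ 2 * (1 - 1 / n) * (Real.exp (x / 2) - 1) ^ 2 := by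
  have hn0 : 0 < n := by linarith
  set F : ℝ → ℝ := fun x => 2 * (1 - 1 / n) * (Real.exp (x / 2) - 1) ^ 2
    - (Real.exp x - 1 - n * (Real.exp (x / n) - 1)) with hF
  set F' : ℝ → ℝ := fun x => 2 * (1 - 1 / n) * (2 * (Real.exp (x / 2) - 1)
    * (Real.exp (x / 2) * (1 / 2))) - (Real.exp x - n * (Real.exp (x / n) * (1 / n))) with hF'
  have hd : ∀ z, HasDerivAt F (F' z) z := by
    intro z
    have d1 : HasDerivAt (fun x : ℝ => Real.exp (x / 2)) (Real.exp (z / 2) * (1 / 2)) z :=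
      ((hasDerivAt_id z).div_const 2).exp
    have d2 : HasDerivAt (fun x : ℝ => Real.exp (x / n)) (Real.exp (z / n) * (1 / n)) z :=
      ((hasDerivAt_id z).div_const n).exp
    have d3 : HasDerivAt (fun x : ℝ => (Real.exp (x / 2) - 1) ^ 2)
        (2 * (Real.exp (z / 2) - 1) * (Real.exp (z / 2) * (1 / 2))) z := by
      have := (d1.sub_const 1).pow 2
      refine this.congr_deriv ?_
      push_cast; ring
    exact (d3.const_mul _).sub (((Real.hasDerivAt_exp z).sub_const 1).sub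
      ((d2.sub_const 1).const_mul n))
  have hpos : ∀ z, 0 ≤ z → 0 ≤ F' z := by
    intro z hz
    have e1 : Real.exp (z / 2) * Real.exp (z / 2) = Real.exp z := by
      rw [← Real.exp_add]; congr 1; ring
    have e2 : F' z = (1 - 2 / n) * Real.exp z + Real.exp (z / n)
        - 2 * (1 - 1 / n) * Real.exp (z / 2) := by
      rw [hF']; dsimp only
      have e3 : n * (Real.exp (z / n) * (1 / n)) = Real.exp (z / n) := by field_simp
      rw [e3]
      linear_combination (2 * (1 - 1 / n)) * e1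
    rw [e2]
    have hα : 0 ≤ 1 - 2 / n := by
      rw [sub_nonneg, div_le_one hn0]; exact hn
    have hαβ : 0 < 2 * (1 - 1 / n) := by
      have : 1 / n < 1 := by rw [div_lt_one hn0]; linarith
      linarith
    have hc := convexOn_exp.2 (Set.mem_univ z) (Set.mem_univ (z / n))
      (div_nonneg hα hαβ.le) (div_nonneg zero_le_one hαβ.le) (by
        rw [← add_div, div_eq_one_iff_eq hαβ.ne']; field_simp; ring)
    simp only [smul_eq_mul] at hc
    have e4 : (1 - 2 / n) / (2 * (1 - 1 / n)) * z + 1 / (2 * (1 - 1 / n)) * (z / n) = z / 2 := by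
      have : n - 1 ≠ 0 := by linarith
      field_simp
      ring
    rw [e4] at hc
    have h5 := mul_le_mul_of_nonneg_left hc hαβ.le
    have e6 : 2 * (1 - 1 / n) * ((1 - 2 / n) / (2 * (1 - 1 / n)) * Real.exp z
        + 1 / (2 * (1 - 1 / n)) * Real.exp (z / n)) = (1 - 2 / n) * Real.exp z
        + Real.exp (z / n) := by
      have h7 : 2 * (1 - 1 / n) ≠ 0 := hαβ.ne'
      have h8 : ∀ a b : ℝ, 2 * (1 - 1 / n) * (a / (2 * (1 - 1 / n)) * b) = a * b := fun a b => by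
        rw [← mul_assoc, mul_div_cancel₀ _ h7]
      rw [mul_add, h8, h8, one_mul]
    linarith
  have h0 : F 0 = 0 := by rw [hF]; simp
  have := nonneg_of_forward (U := F) (U' := F') (a := 0) (s := x)
    (fun q _ => hd q) (by rw [h0]) (fun q hq _ => hpos q hq.1) x ⟨hx, le_rfl⟩
  rw [hF] at this
  linarith

theorem sq_mid {x y : ℝ} (hx : 0 ≤ x) (hy : 0 ≤ y) :
    2 * (Real.exp ((x + y) / 2) - 1) ^ 2 ≤ (Real.exp x - 1) ^ 2 + (Real.exp y - 1) ^ 2 := by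
  set α := Real.exp (x / 2) with hα
  set β := Real.exp (y / 2) with hβ
  have e1 : Real.exp x = α ^ 2 := by rw [hα, ← Real.exp_nat_mul]; congr 1; push_cast; ring
  have e2 : Real.exp y = β ^ 2 := by rw [hβ, ← Real.exp_nat_mul]; congr 1; push_cast; ring
  have e3 : Real.exp ((x + y) / 2) = α * β := by rw [hα, hβ, ← Real.exp_add]; congr 1; ring
  rw [e1, e2, e3]
  have hα1 : 1 ≤ α := Real.one_le_exp (by linarith)
  have hβ1 : 1 ≤ β := Real.one_le_exp (by linarith)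
  have : (α ^ 2 - 1) ^ 2 + (β ^ 2 - 1) ^ 2 - 2 * (α * β - 1) ^ 2
      = (α - β) ^ 2 * ((α + β) ^ 2 - 2) := by ring
  have h2 : 0 ≤ (α + β) ^ 2 - 2 := by nlinarith
  nlinarith [mul_nonneg (sq_nonneg (α - β)) h2]

/-! ### The rate of several targets -/

/-- the product part of the excess is monotone -/
theorem exc_mono (W : Finset ι) {p q : ι → ℝ} (hp : ∀ i ∈ W, 0 ≤ p i)
    (hpq : ∀ i ∈ W, p i ≤ q i) :
    ∏ i ∈ W, (1 + p i) - 1 - ∑ i ∈ W, p i ≤ ∏ i ∈ W, (1 + q i) - 1 - ∑ i ∈ W, q i ∧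
      1 ≤ ∏ i ∈ W, (1 + p i) ∧ ∏ i ∈ W, (1 + p i) ≤ ∏ i ∈ W, (1 + q i) := by
  classical
  induction W using Finset.induction_on with
  | empty => simp
  | insert a W ha ih =>
    obtain ⟨i1, i2, i3⟩ := ih (fun i hi => hp i (Finset.mem_insert_of_mem hi))
      (fun i hi => hpq i (Finset.mem_insert_of_mem hi))
    have h1 := hp a (Finset.mem_insert_self _ _)
    have h2 := hpq a (Finset.mem_insert_self _ _)
    rw [Finset.prod_insert ha, Finset.prod_insert ha, Finset.sum_insert ha, Finset.sum_insert ha]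
    refine ⟨?_, ?_, ?_⟩
    · have h3 : p a * (∏ i ∈ W, (1 + p i) - 1) ≤ q a * (∏ i ∈ W, (1 + q i) - 1) :=
        mul_le_mul h2 (by linarith) (by linarith) (by linarith)
      nlinarith
    · nlinarith
    · exact mul_le_mul (by linarith) i3 (by linarith) (by linarith)

theorem exc_le {n : ℝ} (hn : 2 ≤ n) (W : Finset ι) (hcard : (W.card : ℝ) = n) {p x : ι → ℝ}
    (hp : ∀ i ∈ W, 0 ≤ p i) (hx0 : ∀ i ∈ W, 0 ≤ x i) (hpx : ∀ i ∈ W, 1 + p i ≤ Real.exp (x i)) :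
    ∏ i ∈ W, (1 + p i) - 1 - ∑ i ∈ W, p i
      ≤ 2 * (1 - 1 / n) * (Real.exp ((∑ i ∈ W, x i) / 2) - 1) ^ 2 := by
  have hn0 : 0 < n := by linarith
  have h1 := (exc_mono W (p := p) (q := fun i => Real.exp (x i) - 1) hp
    (fun i hi => by linarith [hpx i hi])).1
  refine h1.trans ?_
  have e1 : ∏ i ∈ W, (1 + (Real.exp (x i) - 1)) = Real.exp (∑ i ∈ W, x i) := by
    rw [Real.exp_sum]
    exact Finset.prod_congr rfl fun i _ => by ring
  have hX : 0 ≤ ∑ i ∈ W, x i := Finset.sum_nonneg hx0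
  have h2 : n * (Real.exp ((∑ i ∈ W, x i) / n) - 1) ≤ ∑ i ∈ W, (Real.exp (x i) - 1) := by
    have hc := convexOn_exp.map_sum_le (t := W) (w := fun _ => 1 / n) (p := x)
      (fun i _ => by positivity) (by
        rw [Finset.sum_const, nsmul_eq_mul, hcard]; field_simp) (fun i _ => Set.mem_univ _)
    simp only [smul_eq_mul] at hc
    rw [← Finset.mul_sum, ← Finset.mul_sum] at hc
    have h3 := mul_le_mul_of_nonneg_left hc hn0.le
    have e3 : n * (1 / n * ∑ i ∈ W, Real.exp (x i)) = ∑ i ∈ W, Real.exp (x i) := by field_simp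
    have e4 : 1 / n * ∑ i ∈ W, x i = (∑ i ∈ W, x i) / n := by ring
    rw [e3, e4] at h3
    rw [Finset.sum_sub_distrib, Finset.sum_const, nsmul_eq_mul, hcard]
    linarith
  rw [e1]
  have := exp_exc hn hX
  linarith

theorem nn_le {n : ℝ} (hn : 2 ≤ n) [DecidableEq ι] (W : Finset ι) (hcard : (W.card : ℝ) = n)
    (x : ι → ℝ) :
    (1 / 2) * ∑ i ∈ W, ∑ j ∈ W.erase i, x i * x j ≤ 1 / 2 * (1 - 1 / n) * (∑ i ∈ W, x i) ^ 2 := by
  have hn0 : 0 < n := by linarith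
  have e1 : ∑ i ∈ W, ∑ j ∈ W.erase i, x i * x j = (∑ i ∈ W, x i) ^ 2 - ∑ i ∈ W, x i ^ 2 := by
    have : ∀ i ∈ W, ∑ j ∈ W.erase i, x i * x j = x i * ∑ j ∈ W, x j - x i ^ 2 := fun i hi => by
      rw [← Finset.mul_sum, ← Finset.add_sum_erase W x hi]; ring
    rw [Finset.sum_congr rfl this, Finset.sum_sub_distrib, ← Finset.sum_mul]; ring
  have h1 := sq_sum_le_card_mul_sum_sq (s := W) (f := x)
  rw [hcard] at h1
  rw [e1]
  have h2 : 1 / n * (∑ i ∈ W, x i) ^ 2 ≤ ∑ i ∈ W, x i ^ 2 := by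
    rw [div_mul_eq_mul_div, one_mul, div_le_iff₀ hn0]; linarith
  linarith

/-- The pair bound. -/
theorem GUp_le {n : ℝ} (hn : 2 ≤ n) [DecidableEq ι] (W : Finset ι) (hcard : (W.card : ℝ) = n)
    {P Q x y N K : ι → ℝ} (hP : ∀ i ∈ W, 0 ≤ P i) (hQ : ∀ i ∈ W, 0 ≤ Q i)
    (hx0 : ∀ i ∈ W, 0 ≤ x i) (hy0 : ∀ i ∈ W, 0 ≤ y i)
    (hPx : ∀ i ∈ W, 1 + P i ≤ Real.exp (x i)) (hQy : ∀ i ∈ W, 1 + Q i ≤ Real.exp (y i)) :
    GUp W (fun i => (1 + P i) * (1 + Q i) - 1) (fun i => N i + K i)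
      ≤ (1 - 1 / n) * (((Real.exp (∑ i ∈ W, x i) - 1) ^ 2 + (∑ i ∈ W, N i) ^ 2)
        + ((Real.exp (∑ i ∈ W, y i) - 1) ^ 2 + (∑ i ∈ W, K i) ^ 2)) := by
  have hn0 : 0 < n := by linarith
  have h1n : 0 ≤ 1 - 1 / n := by
    have : 1 / n ≤ 1 := by rw [div_le_one hn0]; linarith
    linarith
  have h1 := exc_le hn W hcard (p := fun i => (1 + P i) * (1 + Q i) - 1) (x := fun i => x i + y i)
    (fun i hi => by
      have := hP i hi; have := hQ i hi
      nlinarith [mul_nonneg (hP i hi) (hQ i hi)])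
    (fun i hi => add_nonneg (hx0 i hi) (hy0 i hi))
    (fun i hi => by
      rw [Real.exp_add]
      have := mul_le_mul (hPx i hi) (hQy i hi) (by linarith [hQ i hi]) (Real.exp_pos _).le
      linarith)
  have h2 := nn_le hn W hcard (fun i => N i + K i)
  have hX : 0 ≤ ∑ i ∈ W, x i := Finset.sum_nonneg hx0
  have hY : 0 ≤ ∑ i ∈ W, y i := Finset.sum_nonneg hy0
  have h3 := sq_mid hX hY
  unfold GUp
  rw [Finset.sum_add_distrib] at h1 h2
  have h4 := mul_le_mul_of_nonneg_left h3 h1n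
  have h5 : (∑ i ∈ W, N i + ∑ i ∈ W, K i) ^ 2
      ≤ 2 * ((∑ i ∈ W, N i) ^ 2 + (∑ i ∈ W, K i) ^ 2) := by
    nlinarith [sq_nonneg (∑ i ∈ W, N i - ∑ i ∈ W, K i)]
  have h6 := mul_le_mul_of_nonneg_left h5 h1n
  linarith

/-- The rate of several targets in terms of the row sums. -/
theorem kupR_le (hX : Wt X) {n : ℝ} (hn : 2 ≤ n) [DecidableEq ι] (W : Finset ι)
    (hcard : (W.card : ℝ) = n) {h : V → V → ℝ} {μ : ℝ}
    (hh0 : ∀ a b, 0 ≤ h a b) (hh : ∀ a b, h a b ≤ μ * X a b) {P N x : ι → V → ℝ}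
    (hP : ∀ i ∈ W, ∀ a ∈ H0, 0 ≤ P i a) (hx0 : ∀ i ∈ W, ∀ a ∈ H0, 0 ≤ x i a)
    (hPx : ∀ i ∈ W, ∀ a ∈ H0, 1 + P i a ≤ Real.exp (x i a)) :
    (1 / 2) * ∑ a ∈ H0, ∑ b ∈ H0, h a b *
      GUp W (fun i => (1 + P i a) * (1 + P i b) - 1) (fun i => N i a + N i b)
      ≤ μ * ((1 - 1 / n) * ∑ a ∈ H0, rho X H0 a * ((Real.exp (∑ i ∈ W, x i a) - 1) ^ 2
        + (∑ i ∈ W, N i a) ^ 2)) := by
  have hn0 : 0 < n := by linarith
  have h1n : 0 ≤ 1 - 1 / n := by
    have : 1 / n ≤ 1 := by rw [div_le_one hn0]; linarith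
    linarith
  set φ : V → ℝ := fun a => (Real.exp (∑ i ∈ W, x i a) - 1) ^ 2 + (∑ i ∈ W, N i a) ^ 2 with hφ
  have hφ0 : ∀ a, 0 ≤ φ a := fun a => by rw [hφ]; positivity
  have h1 : ∑ a ∈ H0, ∑ b ∈ H0, h a b *
      GUp W (fun i => (1 + P i a) * (1 + P i b) - 1) (fun i => N i a + N i b)
      ≤ ∑ a ∈ H0, ∑ b ∈ H0, (μ * (1 - 1 / n)) * (X a b * φ a + X a b * φ b) := by
    refine Finset.sum_le_sum fun a ha => Finset.sum_le_sum fun b hb => ?_
    have h2 := GUp_le hn W hcard (P := fun i => P i a) (Q := fun i => P i b)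
      (x := fun i => x i a) (y := fun i => x i b) (N := fun i => N i a) (K := fun i => N i b)
      (fun i hi => hP i hi a ha) (fun i hi => hP i hi b hb) (fun i hi => hx0 i hi a ha)
      (fun i hi => hx0 i hi b hb) (fun i hi => hPx i hi a ha) (fun i hi => hPx i hi b hb)
    have h3 : 0 ≤ (1 - 1 / n) * (φ a + φ b) := mul_nonneg h1n (add_nonneg (hφ0 a) (hφ0 b))
    calc h a b * GUp W (fun i => (1 + P i a) * (1 + P i b) - 1) (fun i => N i a + N i b)
        ≤ h a b * ((1 - 1 / n) * (φ a + φ b)) := mul_le_mul_of_nonneg_left h2 (hh0 a b)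
      _ ≤ (μ * X a b) * ((1 - 1 / n) * (φ a + φ b)) := mul_le_mul_of_nonneg_right (hh a b) h3
      _ = _ := by ring
  have e1 : ∑ a ∈ H0, ∑ b ∈ H0, (μ * (1 - 1 / n)) * (X a b * φ a + X a b * φ b)
      = 2 * (μ * ((1 - 1 / n) * ∑ a ∈ H0, rho X H0 a * φ a)) := by
    have e2 : ∑ a ∈ H0, ∑ b ∈ H0, X a b * φ a = ∑ a ∈ H0, rho X H0 a * φ a :=
      Finset.sum_congr rfl fun a ha => by rw [rho_in ha, Finset.sum_mul]
    have e3 : ∑ a ∈ H0, ∑ b ∈ H0, X a b * φ b = ∑ a ∈ H0, rho X H0 a * φ a := by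
      rw [Finset.sum_comm]
      refine Finset.sum_congr rfl fun a ha => ?_
      rw [rho_in ha, Finset.sum_mul]
      exact Finset.sum_congr rfl fun b _ => by rw [hX.symm]
    simp only [← Finset.mul_sum, Finset.sum_add_distrib, e2, e3]
    ring
  rw [e1] at h1
  linarith

end Pool.Agent.RCG
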