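import Pool.Agent.RCG.MTarC

/-! Several targets: the pair of two targets with different horizons (MP_73ccd0_lc). -/

namespace Pool.Agent.RCG

open Set Finset Matrix Pool.Agent.RCRSHalf

set_option linter.unusedSectionVars false

variable {V : Type*} [Fintype V] [DecidableEq V]
variable {X : V → V → ℝ} {H0 : Finset V}

theorem MW.two {p q : V → ℝ} (hp0 : ∀ a ∈ H0, 0 ≤ p a) (hq0 : ∀ a ∈ H0, 0 ≤ q a)
    (hrow : ∀ a ∈ H0, rho X H0 a + (p a + q a) ≤ 1) :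
    MW X H0 (Finset.univ : Finset Bool) (fun i => if i then p else q) where
  p0 i _ a ha := by
    cases i
    · simpa using hq0 a ha
    · simpa using hp0 a ha
  row a ha := by
    rw [Fintype.sum_bool]
    simpa using hrow a ha

/-- the `ℓ²` bound for a combination of two resolvent vectors -/
theorem l2_two (hX : Wt X) {p q R S : V → ℝ} (hp0 : ∀ a ∈ H0, 0 ≤ p a)
    (hq0 : ∀ a ∈ H0, 0 ≤ q a) (hrow : ∀ a ∈ H0, rho X H0 a + (p a + q a) ≤ 1)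
    (hR0 : ∀ a, 0 ≤ R a) (hS0 : ∀ a, 0 ≤ S a)
    (hR : ∀ a ∈ H0, R a ≤ Fc (p a) + 13 / 100 * (rm X H0 *ᵥ (rm X H0 *ᵥ R)) a)
    (hS : ∀ a ∈ H0, S a ≤ Fc (q a) + 13 / 100 * (rm X H0 *ᵥ (rm X H0 *ᵥ S)) a)
    {g k : ℝ} (hg : 0 ≤ g) (hk : 0 ≤ k) :
    ∑ a ∈ H0, (g * (rm X H0 *ᵥ R) a + k * (rm X H0 *ᵥ S) a) ^ 2
      ≤ 62231 / 100000 * (g ^ 2 * mas H0 p + k ^ 2 * mas H0 q) := by
  have hA := hX.rm_nonneg H0
  have hW := MW.two hp0 hq0 hrow
  set v : V → ℝ := fun a => g * (rm X H0 *ᵥ R) a + k * (rm X H0 *ᵥ S) a with hv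
  have e1 : ∀ a, v a = (rm X H0 *ᵥ fun b => g * R b + k * S b) a := fun a => by
    rw [hv]
    simp only [mulVec_eq_sum, Finset.mul_sum, ← Finset.sum_add_distrib]
    exact Finset.sum_congr rfl fun b _ => by ring
  have e2 : ∀ a, (rm X H0 *ᵥ v) a
      = g * (rm X H0 *ᵥ (rm X H0 *ᵥ R)) a + k * (rm X H0 *ᵥ (rm X H0 *ᵥ S)) a := fun a => by
    rw [hv]
    simp only [mulVec_eq_sum _ _ a, Finset.mul_sum, ← Finset.sum_add_distrib]
    exact Finset.sum_congr rfl fun b _ => by ring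
  have hv0 : ∀ a, 0 ≤ v a := fun a => by
    rw [e1]
    exact mulVec_nonneg hA (fun b => add_nonneg (mul_nonneg hg (hR0 b)) (mul_nonneg hk (hS0 b))) a
  have h := l2v hX H0 (R := fun a => g * R a + k * S a)
    (G := fun a => g * Fc (p a) + k * Fc (q a)) (v := v) (q := fun _ => 0) (Rc := 0)
    (K := fun a => 5907 / 10000 * (g ^ 2 * p a + k ^ 2 * q a))
    (fun a _ => add_nonneg (mul_nonneg hg (hR0 a)) (mul_nonneg hk (hS0 a)))
    (fun a _ => hv0 a)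
    (fun a ha => by
      rw [e1 a]
      have h1 := A_sq hX H0 (fun b => g * R b + k * S b) a
      rw [rm_mulVec H0 (fun b => (g * R b + k * S b) ^ 2) ha] at h1
      have h2 : 0 ≤ ∑ b ∈ H0, X a b * (g * R b + k * S b) ^ 2 :=
        Finset.sum_nonneg fun b _ => mul_nonneg (hX.nonneg _ _) (sq_nonneg _)
      have h3 := mul_le_mul_of_nonneg_right (rho_le_one hX H0 a) h2
      linarith)
    (fun a ha => by
      rw [e2 a]
      have h1 := mul_le_mul_of_nonneg_left (hR a ha) hg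
      have h2 := mul_le_mul_of_nonneg_left (hS a ha) hk
      linarith)
    (fun a ha => by
      have h1 := hW.rowF hX (w := fun i => if i then g else k)
        (fun i _ => by cases i <;> simp [hg, hk]) ha
        (G := g * Fc (p a) + k * Fc (q a))
        (add_nonneg (mul_nonneg hg (Fc_nonneg (hp0 a ha))) (mul_nonneg hk (Fc_nonneg (hq0 a ha))))
        (by rw [Fintype.sum_bool]; simp)
      rw [Fintype.sum_bool] at h1
      simp only [if_true, Bool.false_eq_true, if_false] at h1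
      refine h1.trans (le_of_eq ?_)
      ring)
  have e3 : ∑ a ∈ H0, 5907 / 10000 * (g ^ 2 * p a + k ^ 2 * q a)
      = 5907 / 10000 * (g ^ 2 * mas H0 p + k ^ 2 * mas H0 q) := by
    unfold mas
    rw [← Finset.mul_sum, Finset.sum_add_distrib, Finset.mul_sum, Finset.mul_sum]
  rw [e3] at h
  have h0 : 0 ≤ g ^ 2 * mas H0 p + k ^ 2 * mas H0 q :=
    add_nonneg (mul_nonneg (sq_nonneg _) (Finset.sum_nonneg hp0))
      (mul_nonneg (sq_nonneg _) (Finset.sum_nonneg hq0))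
  nlinarith

theorem exp_theta {θ z : ℝ} (h0 : 0 ≤ θ) (h1 : θ ≤ 1) :
    Real.exp (θ * z) - 1 ≤ θ * (Real.exp z - 1) := by
  have hc := convexOn_exp.2 (Set.mem_univ z) (Set.mem_univ (0 : ℝ)) h0 (sub_nonneg.2 h1)
    (by ring)
  simp only [smul_eq_mul, mul_zero, add_zero, Real.exp_zero, mul_one] at hc
  linarith

theorem exp_amgm (x z : ℝ) :
    (Real.exp x - 1) * (Real.exp z - 1) ≤ (Real.exp ((x + z) / 2) - 1) ^ 2 := by
  set α := Real.exp (x / 2) with hα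
  set β := Real.exp (z / 2) with hβ
  have e1 : Real.exp x = α ^ 2 := by rw [hα, ← Real.exp_nat_mul]; congr 1; push_cast; ring
  have e2 : Real.exp z = β ^ 2 := by rw [hβ, ← Real.exp_nat_mul]; congr 1; push_cast; ring
  have e3 : Real.exp ((x + z) / 2) = α * β := by rw [hα, hβ, ← Real.exp_add]; congr 1; ring
  rw [e1, e2, e3]
  nlinarith [sq_nonneg (α - β)]

/-- sup-level rate of a pair of targets with the horizons `m' ≤ m` -/
noncomputable def rP2 (mp mq g k c η m : ℝ) : ℝ :=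
  (mp + mq) * (m ^ 2 * Cm m)
    + c * (η * ((mp + mq) * (m ^ 2 * Dm m))
      + 62231 / 100000 * (g ^ 2 * mp + k ^ 2 * mq) / η)
    + c ^ 2 * (10796 / 10000) * (62231 / 100000 * (g ^ 2 * mp + k ^ 2 * mq))

theorem ru2_sup (hX : Wt X) {h : V → V → ℝ} {μ : ℝ} (hμ : 0 ≤ μ) (hh0 : ∀ a b, 0 ≤ h a b)
    (hh : ∀ a b, h a b ≤ μ * X a b) {p q R S : V → ℝ} (hp0 : ∀ a ∈ H0, 0 ≤ p a)
    (hq0 : ∀ a ∈ H0, 0 ≤ q a) (hrow : ∀ a ∈ H0, rho X H0 a + (p a + q a) ≤ 1)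
    (hR0 : ∀ a, 0 ≤ R a) (hS0 : ∀ a, 0 ≤ S a)
    (hR : ∀ a ∈ H0, R a ≤ Fc (p a) + 13 / 100 * (rm X H0 *ᵥ (rm X H0 *ᵥ R)) a)
    (hS : ∀ a ∈ H0, S a ≤ Fc (q a) + 13 / 100 * (rm X H0 *ᵥ (rm X H0 *ᵥ S)) a)
    {m θ g k b b' c η : ℝ} (hm0 : 0 ≤ m) (hm1 : m ≤ 13 / 10) (hθ0 : 0 ≤ θ) (hθ1 : θ ≤ 1)
    (hg : 0 ≤ g) (hk : 0 ≤ k) (hb : 0 ≤ b) (hb' : 0 ≤ b') (hc : 0 ≤ c) (hη : 0 < η)
    {P N P' N' : V → ℝ} (P0 : ∀ a ∈ H0, 0 ≤ P a)
    (P0' : ∀ a ∈ H0, 0 ≤ P' a) (N0' : ∀ a ∈ H0, 0 ≤ N' a)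
    (hP : ∀ a ∈ H0, 1 + P a ≤ Real.exp (m * p a + g * (rm X H0 *ᵥ (rm X H0 *ᵥ R)) a))
    (hP' : ∀ a ∈ H0, 1 + P' a
      ≤ Real.exp (θ * (m * q a + k * (rm X H0 *ᵥ (rm X H0 *ᵥ S)) a)))
    (hN : ∀ a ∈ H0, N a ≤ b * (rm X H0 *ᵥ R) a) (hN' : ∀ a ∈ H0, N' a ≤ b' * (rm X H0 *ᵥ S) a)
    (hY : ∀ a ∈ H0, Real.exp (g * (rm X H0 *ᵥ (rm X H0 *ᵥ R)) a
        + k * (rm X H0 *ᵥ (rm X H0 *ᵥ S)) a)
      ≤ 1 + c * (g * (rm X H0 *ᵥ (rm X H0 *ᵥ R)) a + k * (rm X H0 *ᵥ (rm X H0 *ᵥ S)) a)) :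
    ru2 h H0 P N P' N' ≤ μ * (1 / 2 * (θ * rP2 (mas H0 p) (mas H0 q) g k c η m
      + b * b' * (62231 / 100000 * (mas H0 p + mas H0 q)))) := by
  have hA := hX.rm_nonneg H0
  have hρ0 := rho_nonneg hX H0
  have hρ1 := rho_le_one hX H0
  have hAR : ∀ a, 0 ≤ (rm X H0 *ᵥ R) a := mulVec_nonneg hA hR0
  have hAS : ∀ a, 0 ≤ (rm X H0 *ᵥ S) a := mulVec_nonneg hA hS0
  have hAAR : ∀ a, 0 ≤ (rm X H0 *ᵥ (rm X H0 *ᵥ R)) a := mulVec_nonneg hA hAR
  have hAAS : ∀ a, 0 ≤ (rm X H0 *ᵥ (rm X H0 *ᵥ S)) a := mulVec_nonneg hA hAS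
  set x : V → ℝ := fun a => m * p a + g * (rm X H0 *ᵥ (rm X H0 *ᵥ R)) a with hx
  set z : V → ℝ := fun a => m * q a + k * (rm X H0 *ᵥ (rm X H0 *ᵥ S)) a with hz
  set w : V → ℝ := fun a => (rm X H0 *ᵥ R) a + (rm X H0 *ᵥ S) a with hw
  have hx0 : ∀ a ∈ H0, 0 ≤ x a := fun a ha =>
    add_nonneg (mul_nonneg hm0 (hp0 a ha)) (mul_nonneg hg (hAAR a))
  have hz0 : ∀ a ∈ H0, 0 ≤ z a := fun a ha =>
    add_nonneg (mul_nonneg hm0 (hq0 a ha)) (mul_nonneg hk (hAAS a))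
  -- pair bound
  have hpair : ∀ a ∈ H0, ∀ d ∈ H0,
      ((1 + P a) * (1 + P d) - 1) * ((1 + P' a) * (1 + P' d) - 1)
        + (N a + N d) * (N' a + N' d)
      ≤ (θ * (1 / 2 * (Real.exp (x a + z a) - 1) ^ 2) + b * b' * (1 / 2 * w a ^ 2))
        + (θ * (1 / 2 * (Real.exp (x d + z d) - 1) ^ 2) + b * b' * (1 / 2 * w d ^ 2)) := by
    intro a ha d hd
    have a1 : (1 + P a) * (1 + P d) - 1 ≤ Real.exp (x a + x d) - 1 := by
      rw [Real.exp_add]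
      have := mul_le_mul (hP a ha) (hP d hd) (by linarith [P0 d hd]) (Real.exp_pos _).le
      linarith
    have a2 : (1 + P' a) * (1 + P' d) - 1 ≤ θ * (Real.exp (z a + z d) - 1) := by
      have h1 := mul_le_mul (hP' a ha) (hP' d hd) (by linarith [P0' d hd]) (Real.exp_pos _).le
      rw [← Real.exp_add, ← mul_add] at h1
      have h2 := exp_theta (z := z a + z d) hθ0 hθ1
      linarith
    have p1 : 0 ≤ (1 + P a) * (1 + P d) - 1 := pair_P0 (P0 a ha) (P0 d hd)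
    have p2 : 0 ≤ (1 + P' a) * (1 + P' d) - 1 := pair_P0 (P0' a ha) (P0' d hd)
    have a3 := mul_le_mul a1 a2 p2 (p1.trans a1)
    have a4 := exp_amgm (x a + x d) (z a + z d)
    have a5 := sq_mid (add_nonneg (hx0 a ha) (hz0 a ha)) (add_nonneg (hx0 d hd) (hz0 d hd))
    have e5 : (x a + z a + (x d + z d)) / 2 = (x a + x d + (z a + z d)) / 2 := by ring
    rw [e5] at a5
    have a6 := mul_le_mul_of_nonneg_left (a4.trans (show _ ≤ 1 / 2 * ((Real.exp (x a + z a) - 1) ^ 2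
      + (Real.exp (x d + z d) - 1) ^ 2) by linarith)) hθ0
    have n1 : N a + N d ≤ b * ((rm X H0 *ᵥ R) a + (rm X H0 *ᵥ R) d) := by
      linarith [hN a ha, hN d hd]
    have n2 : N' a + N' d ≤ b' * ((rm X H0 *ᵥ S) a + (rm X H0 *ᵥ S) d) := by
      linarith [hN' a ha, hN' d hd]
    have n3 := mul_le_mul n1 n2 (add_nonneg (N0' a ha) (N0' d hd))
      (mul_nonneg hb (add_nonneg (hAR a) (hAR d)))
    have n4 : ((rm X H0 *ᵥ R) a + (rm X H0 *ᵥ R) d) * ((rm X H0 *ᵥ S) a + (rm X H0 *ᵥ S) d)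
        ≤ 1 / 2 * (w a ^ 2 + w d ^ 2) := by
      rw [hw]; dsimp only
      nlinarith [sq_nonneg (((rm X H0 *ᵥ R) a + (rm X H0 *ᵥ R) d)
          - ((rm X H0 *ᵥ S) a + (rm X H0 *ᵥ S) d)),
        sq_nonneg (((rm X H0 *ᵥ R) a + (rm X H0 *ᵥ S) a)
          - ((rm X H0 *ᵥ R) d + (rm X H0 *ᵥ S) d))]
    have n5 := mul_le_mul_of_nonneg_left n4 (mul_nonneg hb hb')
    nlinarith
  -- sum
  set φ : V → ℝ := fun a => θ * (1 / 2 * (Real.exp (x a + z a) - 1) ^ 2)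
    + b * b' * (1 / 2 * w a ^ 2) with hφ
  have hφ0 : ∀ a, 0 ≤ φ a := fun a => by
    rw [hφ]; dsimp only
    exact add_nonneg (mul_nonneg hθ0 (by positivity))
      (mul_nonneg (mul_nonneg hb hb') (by positivity))
  have h1 : ru2 h H0 P N P' N' ≤ μ * ∑ a ∈ H0, rho X H0 a * φ a := by
    unfold ru2 k2R
    have h2 : ∑ a ∈ H0, ∑ d ∈ H0, h a d *
        (((1 + P a) * (1 + P d) - 1) * ((1 + P' a) * (1 + P' d) - 1)
          + (N a + N d) * (N' a + N' d))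
        ≤ ∑ a ∈ H0, ∑ d ∈ H0, μ * (X a d * φ a + X a d * φ d) := by
      refine Finset.sum_le_sum fun a ha => Finset.sum_le_sum fun d hd => ?_
      calc _ ≤ h a d * (φ a + φ d) := mul_le_mul_of_nonneg_left (hpair a ha d hd) (hh0 a d)
        _ ≤ (μ * X a d) * (φ a + φ d) :=
            mul_le_mul_of_nonneg_right (hh a d) (add_nonneg (hφ0 a) (hφ0 d))
        _ = _ := by ring
    have e1 : ∑ a ∈ H0, ∑ d ∈ H0, μ * (X a d * φ a + X a d * φ d)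
        = 2 * (μ * ∑ a ∈ H0, rho X H0 a * φ a) := by
      have e2 : ∑ a ∈ H0, ∑ b ∈ H0, X a b * φ a = ∑ a ∈ H0, rho X H0 a * φ a :=
        Finset.sum_congr rfl fun a ha => by rw [rho_in ha, Finset.sum_mul]
      have e3 : ∑ a ∈ H0, ∑ b ∈ H0, X a b * φ b = ∑ a ∈ H0, rho X H0 a * φ a := by
        rw [Finset.sum_comm]
        refine Finset.sum_congr rfl fun a ha => ?_
        rw [rho_in ha, Finset.sum_mul]
        exact Finset.sum_congr rfl fun b _ => by rw [hX.symm]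
      simp only [← Finset.mul_sum, Finset.sum_add_distrib, e2, e3]
      ring
    rw [e1] at h2
    linarith
  -- the two parts
  have hW := MW.two hp0 hq0 hrow
  have s3 := l2_two hX hp0 hq0 hrow hR0 hS0 hR hS hg hk
  have s2 := l2_two hX hp0 hq0 hrow hR0 hS0 hR hS zero_le_one zero_le_one
  have hrate := hW.rate hX (m := fun _ => m) (fun _ _ => hm0) (fun _ _ => hm1)
    (Y := fun a => g * (rm X H0 *ᵥ (rm X H0 *ᵥ R)) a + k * (rm X H0 *ᵥ (rm X H0 *ᵥ S)) a)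
    (N := fun _ => 0)
    (v := fun a => g * (rm X H0 *ᵥ R) a + k * (rm X H0 *ᵥ S) a) hc hη
    (fun a _ => add_nonneg (mul_nonneg hg (hAAR a)) (mul_nonneg hk (hAAS a)))
    (fun a _ => add_nonneg (mul_nonneg hg (hAR a)) (mul_nonneg hk (hAS a)))
    (fun a _ => le_of_eq (by
      simp only [mulVec_eq_sum _ _ a, Finset.mul_sum, ← Finset.sum_add_distrib]
      exact Finset.sum_congr rfl fun b _ => by ring))
    hY s3 (S2 := 0) (by simp)
  simp only [Fintype.sum_bool, if_true, Bool.false_eq_true, if_false] at hrate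
  have e4 : ∑ a ∈ H0, rho X H0 a * φ a
      = θ * (1 / 2) * ∑ a ∈ H0, rho X H0 a * ((Real.exp (x a + z a) - 1) ^ 2 + 0 ^ 2)
        + b * b' * (1 / 2) * ∑ a ∈ H0, rho X H0 a * w a ^ 2 := by
    rw [Finset.mul_sum, Finset.mul_sum, ← Finset.sum_add_distrib]
    refine Finset.sum_congr rfl fun a _ => ?_
    rw [hφ]; dsimp only; ring
  have e5 : ∑ a ∈ H0, rho X H0 a * ((Real.exp (x a + z a) - 1) ^ 2 + 0 ^ 2)
      ≤ rP2 (mas H0 p) (mas H0 q) g k c η m := by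
    refine le_trans (le_of_eq ?_) (hrate.trans (le_of_eq ?_))
    · refine Finset.sum_congr rfl fun a _ => ?_
      have : x a + z a = m * p a + m * q a + (g * (rm X H0 *ᵥ (rm X H0 *ᵥ R)) a
          + k * (rm X H0 *ᵥ (rm X H0 *ᵥ S)) a) := by rw [hx, hz]; ring
      rw [this]
    · unfold rP2; ring
  have e6 : ∑ a ∈ H0, rho X H0 a * w a ^ 2
      ≤ 62231 / 100000 * (mas H0 p + mas H0 q) := by
    refine le_trans (Finset.sum_le_sum fun a _ => ?_) (s2.trans (le_of_eq (by ring)))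
    have := mul_le_mul_of_nonneg_right (hρ1 a) (sq_nonneg (w a))
    rw [hw] at this ⊢
    dsimp only at this ⊢
    linarith
  refine h1.trans (mul_le_mul_of_nonneg_left ?_ hμ)
  rw [e4]
  have k1 := mul_le_mul_of_nonneg_left e5 (show 0 ≤ θ * (1 / 2) by positivity)
  have k2 := mul_le_mul_of_nonneg_left e6 (show 0 ≤ b * b' * (1 / 2) by positivity)
  linarith

end Pool.Agent.RCG
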