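import Pool.Agent.RCG.Del

/-! The terms of the N-part (section 7) (MP_73ccd0_lc, general graphs). -/

namespace Pool.Agent.RCG

open Set Finset Pool.Agent.RCRSHalf

set_option linter.unusedSectionVars false

variable {V : Type*} [Fintype V] [DecidableEq V]
variable {h : ℝ → V → V → ℝ} {H : V → V → ℝ → ℝ}

theorem GUp_three {ι : Type*} [DecidableEq ι] {a b c : ι} (hab : a ≠ b) (hac : a ≠ c) (hbc : b ≠ c)
    (p n : ι → ℝ) : GUp {a, b, c} p n = p a * p b + p a * p c + p b * p c + p a * p b * p c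
      + (n a * n b + n a * n c + n b * n c) := by
  have h1 : a ∉ ({b, c} : Finset ι) := by simp [hab, hac]
  have h2 : b ∉ ({c} : Finset ι) := by simp [hbc]
  rw [show ({a, b, c} : Finset ι) = insert a {b, c} from rfl, GUp_insert _ h1,
    show ({b, c} : Finset ι) = insert b {c} from rfl, GUp_insert _ h2]
  rw [Finset.prod_insert h2, Finset.sum_insert h2]
  simp only [GUp, Finset.prod_singleton, Finset.sum_singleton, Finset.erase_singleton,
    Finset.sum_empty]
  ring

theorem GUp_four {ι : Type*} [DecidableEq ι] {a b c d : ι} (hab : a ≠ b) (hac : a ≠ c)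
    (had : a ≠ d) (hbc : b ≠ c) (hbd : b ≠ d) (hcd : c ≠ d)
    (p n : ι → ℝ) : GUp {a, b, c, d} p n
      = ((1 + p a) * (1 + p b) * (1 + p c) * (1 + p d) - 1 - p a - p b - p c - p d)
      + (n a * n b + n a * n c + n a * n d + n b * n c + n b * n d + n c * n d) := by
  have h1 : a ∉ ({b, c, d} : Finset ι) := by simp [hab, hac, had]
  have h2 : b ∉ ({c, d} : Finset ι) := by simp [hbc, hbd]
  have h3 : c ∉ ({d} : Finset ι) := by simp [hcd]
  rw [show ({a, b, c, d} : Finset ι) = insert a {b, c, d} from rfl, GUp_insert _ h1,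
    GUp_three hbc hbd hcd, Finset.prod_insert h2, Finset.sum_insert h2,
    Finset.prod_insert h3, Finset.sum_insert h3]
  simp only [Finset.prod_singleton, Finset.sum_singleton]
  ring

theorem HW_three (hh : Haz h H) {u v w : V} (huv : u ≠ v) (huw : u ≠ w) (hvw : v ≠ w) (s : ℝ) :
    HW H {u, v, w} s = H u v s + H u w s + H v w s := by
  unfold HW
  have h1 : u ∉ ({v, w} : Finset V) := by simp [huv, huw]
  have e : ∀ x, ∑ b ∈ ({u, v, w} : Finset V), H x b s = H x u s + H x v s + H x w s := fun x => by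
    rw [Finset.sum_insert h1, Finset.sum_pair hvw]; ring
  rw [Finset.sum_insert h1, Finset.sum_pair hvw, e, e, e, hh.Hdiag, hh.Hdiag, hh.Hdiag,
    hh.Hsymm v u s, hh.Hsymm w u s, hh.Hsymm w v s]
  ring

theorem HW_four (hh : Haz h H) {u v a b : V} (huv : u ≠ v) (hua : u ≠ a) (hub : u ≠ b)
    (hva : v ≠ a) (hvb : v ≠ b) (hab : a ≠ b) (s : ℝ) :
    HW H {u, v, a, b} s = H u v s + H u a s + H u b s + H v a s + H v b s + H a b s := by
  unfold HW
  have h1 : u ∉ ({v, a, b} : Finset V) := by simp [huv, hua, hub]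
  have h2 : v ∉ ({a, b} : Finset V) := by simp [hva, hvb]
  have e : ∀ x, ∑ c ∈ ({u, v, a, b} : Finset V), H x c s
      = H x u s + H x v s + H x a s + H x b s := fun x => by
    rw [Finset.sum_insert h1, Finset.sum_insert h2, Finset.sum_pair hab]; ring
  rw [Finset.sum_insert h1, Finset.sum_insert h2, Finset.sum_pair hab, e, e, e, e, hh.Hdiag,
    hh.Hdiag, hh.Hdiag, hh.Hdiag, hh.Hsymm v u s, hh.Hsymm a u s, hh.Hsymm b u s, hh.Hsymm a v s,
    hh.Hsymm b v s, hh.Hsymm b a s]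
  ring

/-- splitting of the influence term (section 7, first step) -/
theorem xi_ex_le (hh : Haz h H) {u v w : V} {t : ℝ} (ht : t ∈ Icc (0 : ℝ) 1)
    {Pu Nu Pw Nw : V → ℝ → ℝ} (hIu : Inf ({u, v, w} : Finset V)ᶜ t (RCG.tgt h u t) Pu Nu)
    (hIw : Inf ({u, v, w} : Finset V)ᶜ t (RCG.src h u w t) Pw Nw)
    {κ κ' Y Y' : ℝ → ℝ} (hκd : ∀ r ∈ Icc 0 t, HasDerivAt κ (κ' r) r)
    (hYd : ∀ r ∈ Icc 0 t, HasDerivAt Y (Y' r) r)
    (hκ0 : ∀ r ∈ Icc 0 t, 0 ≤ κ r) (hY0 : ∀ r ∈ Icc 0 t, 0 ≤ Y r)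
    (hκ : ∀ r ∈ Icc 0 t, k2R (h r) ({u, v, w} : Finset V)ᶜ (fun a => Pu a r) (fun a => Nu a r)
      (fun a => Pw a r) (fun a => Nw a r) ≤ -κ' r)
    (hY : ∀ r ∈ Icc 0 t, ∑ c ∈ ({u, v, w} : Finset V)ᶜ, h r w c * Nu c r ≤ -Y' r)
    {s : ℝ} (hs : s ∈ Icc 0 t) :
    ex (lw h ∅ s) {u, v, w} (fun F => RCG.tgt h u t F s - RCG.tgt h u t (insert w F) s)
      ≤ Real.exp (κ s) * ex (lw h ∅ s) {u, v, w} (fun F => RCG.tgt h u t F s * RCG.src h u w t F s)
        + Y s * ex (lw h ∅ s) {u, v, w} (fun F => RCG.tgt h u t F s) := by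
  have hs1 : s ∈ Icc (0 : ℝ) 1 := ⟨hs.1, hs.2.trans ht.2⟩
  have key := xi_le hh (u := u) (w := w) ht (H0 := ({u, v, w} : Finset V)ᶜ) (by simp)
    (hh.tgt u ht) (hh.src u w ht) hIu hIw hκd hYd hκ0 hY0 hκ hY
  rw [← ex_smul, ← ex_smul, ← ex_add]
  refine ex_mono (fun F => (hh.lw ∅).nonneg F s hs1) fun F hF _ => ?_
  have hsub : F \ {u, v, w} ⊆ ({u, v, w} : Finset V)ᶜ := fun z hz =>
    Finset.mem_compl.2 (Finset.mem_sdiff.1 hz).2
  refine (key _ hsub s hs).trans (le_of_eq ?_)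
  ring

/-- (7), the factorisation of the main term -/
theorem n_main (hh : Haz h H) {u v w : V} (huv : u ≠ v) (huw : u ≠ w) (hvw : v ≠ w) {t : ℝ}
    (ht : t ∈ Icc (0 : ℝ) 1) {s : ℝ} (hs : s ∈ Icc 0 t)
    {Pu Nu Pv Nv Pw Nw : V → ℝ → ℝ} (hIu : Inf ({u, v, w} : Finset V)ᶜ s (RCG.tgt h u t) Pu Nu)
    (hIv : Inf ({u, v, w} : Finset V)ᶜ s (RCG.tgt h v s) Pv Nv)
    (hCw : Clo h w ({u, v, w} : Finset V)ᶜ t Pw Nw)
    {κ κ' : ℝ → ℝ} (hκd : ∀ r ∈ Icc 0 s, HasDerivAt κ (κ' r) r) (hκs : 0 ≤ κ s)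
    (hκ : ∀ r ∈ Icc 0 s, (1 / 2) * ∑ a ∈ ({u, v, w} : Finset V)ᶜ, ∑ b ∈ ({u, v, w} : Finset V)ᶜ,
      h r a b * (((1 + Pu a r) * (1 + Pu b r) - 1) * ((1 + Pv a r) * (1 + Pv b r) - 1)
        + ((1 + Pu a r) * (1 + Pu b r) - 1) * ((1 + Pw a r) * (1 + Pw b r) - 1)
        + ((1 + Pv a r) * (1 + Pv b r) - 1) * ((1 + Pw a r) * (1 + Pw b r) - 1)
        + ((1 + Pu a r) * (1 + Pu b r) - 1) * ((1 + Pv a r) * (1 + Pv b r) - 1)
          * ((1 + Pw a r) * (1 + Pw b r) - 1)
        + ((Nu a r + Nu b r) * (Nv a r + Nv b r) + (Nu a r + Nu b r) * (Nw a r + Nw b r)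
          + (Nv a r + Nv b r) * (Nw a r + Nw b r))) ≤ -κ' r) :
    ex (lw h ∅ s) {u, v, w} (fun F => RCG.tgt h u t F s * RCG.src h u w t F s)
      ≤ Real.exp (-(H u v s + H v w s) + κ 0) *
        (bb h {v, w} u t * bb h {u, w} v s * zx h H {u, v} u w t s) := by
  have hs1 : s ∈ Icc (0 : ℝ) 1 := ⟨hs.1, hs.2.trans ht.2⟩
  have hTu := hh.tgt u ht
  have hTv := hh.tgt v hs1
  have hSw := hh.src u w ht
  -- restarted source function
  obtain ⟨Zt, hZt, hZts⟩ := hh.exists_ev {w} hs1 (fun F => RCG.src h u w t F s)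
    (fun F => hSw.ev.nonneg F s hs)
  have hZt' : IsEv h (fun r a => h r w a) (fun _ => 0) (fun _ => 0) s Zt := by simpa using hZt
  have hIw := hCw.src_restart hh ht hs hZt' hZts
  have hdisE : Disjoint (∅ : Finset V) {u, v, w} := Finset.disjoint_empty_left _
  have eD : (∅ : Finset V) ∪ {u, v, w} = {u, v, w} := Finset.empty_union _
  have h1 : u ∉ ({v, w} : Finset V) := by simp [huv, huw]
  have key := ex_le hh (W := {u, v, w}) (D := ∅) (s := s)
    (R := fun z => if z = u then RCG.tgt h u t else if z = v then RCG.tgt h v s else Zt)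
    (P := fun z => if z = u then Pu else if z = v then Pv else Pw)
    (N := fun z => if z = u then Nu else if z = v then Nv else Nw)
    (ψ := fun F => RCG.tgt h u t F s * RCG.src h u w t F s) hdisE hs1
    (fun z hz => by
      simp only [Finset.mem_insert, Finset.mem_singleton] at hz
      rcases hz with rfl | rfl | rfl
      · simpa using hTu.ev.mono hs.2
      · simp only [if_neg huv.symm, if_true]; exact hTv.ev
      · simp only [if_neg huw.symm, if_neg hvw.symm]; exact hZt')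
    (fun z hz => by
      rw [eD]
      simp only [Finset.mem_insert, Finset.mem_singleton] at hz
      rcases hz with rfl | rfl | rfl
      · simpa using hIu
      · simp only [if_neg huv.symm, if_true]; exact hIv
      · simp only [if_neg huw.symm, if_neg hvw.symm]; exact hIw)
    (fun F => mul_nonneg (hTu.ev.nonneg F s hs) (hSw.ev.nonneg F s hs))
    (fun F _ => by
      rw [Finset.prod_insert h1, Finset.prod_pair hvw]
      simp only [if_true, if_neg huv.symm, if_neg huw.symm, if_neg hvw.symm, hTv.end_, one_mul,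
        hZts]
      exact le_rfl)
    hκd hκs
    (fun r hr => by
      refine le_trans (le_of_eq ?_) (hκ r hr)
      rw [eD]
      unfold kupR
      congr 1
      refine Finset.sum_congr rfl fun a _ => Finset.sum_congr rfl fun b _ => ?_
      rw [GUp_three huv huw hvw]
      simp only [if_true, if_neg huv.symm, if_neg huw.symm, if_neg hvw.symm])
  refine key.trans (le_of_eq ?_)
  rw [eD, Finset.prod_insert h1, Finset.prod_pair hvw, HW_three hh huv huw hvw]
  simp only [if_true, if_neg huv.symm, if_neg huw.symm, if_neg hvw.symm]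
  -- the last factor as an expectation
  have hsub : ({w} : Finset V) ⊆ ({u, v} : Finset V)ᶜ := by
    rw [Finset.singleton_subset_iff, Finset.mem_compl]
    simp [huw.symm, hvw.symm]
  have e1 := duality2 hh (hh.lw {u, v}) hsub hs1 hZt
  have e2 : ex (lw h {u, v} s) {w} (fun F => Zt F s)
      = ex (lw h {u, v} s) {w} (fun F => RCG.src h u w t F s) := by
    congr 1; funext F; exact hZts F
  have e3 : HW H {w} s = 0 := by unfold HW; simp [hh.Hdiag]
  have e4 : ({u, v} : Finset V)ᶜ \ {w} = ({u, v, w} : Finset V)ᶜ := by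
    rw [compl_sdiff_union]
    congr 1
    ext z
    simp only [Finset.mem_union, Finset.mem_insert, Finset.mem_singleton]
    tauto
  rw [e2, e3, neg_zero, Real.exp_zero, one_mul, e4] at e1
  have e5 : bb h {v, w} u t = RCG.tgt h u t ({u, v, w} : Finset V)ᶜ 0 :=
    bb_eq hh (D := {v, w}) h1 ht
  have e6 : bb h {u, w} v s = RCG.tgt h v s ({u, v, w} : Finset V)ᶜ 0 := by
    rw [bb_eq hh (D := {u, w}) (u := v) (by simp [huv.symm, hvw]) hs1]
    congr 1
    congr 1
    exact Finset.insert_comm v u {w}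
  unfold zx
  rw [e1, ← e5, ← e6]
  have e7 : Real.exp (-(H u v s + H u w s + H v w s) + κ 0)
      = Real.exp (-(H u v s + H v w s) + κ 0) * Real.exp (-H u w s) := by
    rw [← Real.exp_add]; congr 1; ring
  rw [e7]
  ring

/-- (7), the factorisation of the correction term -/
theorem n_corr (hh : Haz h H) {u v w : V} (huv : u ≠ v) (huw : u ≠ w) (hvw : v ≠ w) {t : ℝ}
    (ht : t ∈ Icc (0 : ℝ) 1) {s : ℝ} (hs : s ∈ Icc 0 t)
    {Pu Nu Pv Nv Pw Nw : V → ℝ → ℝ} (hIu : Inf ({u, v, w} : Finset V)ᶜ s (RCG.tgt h u t) Pu Nu)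
    (hIv : Inf ({u, v, w} : Finset V)ᶜ s (RCG.tgt h v s) Pv Nv)
    (hIw : Inf ({u, v, w} : Finset V)ᶜ s (RCG.tgt h w s) Pw Nw)
    {κ κ' : ℝ → ℝ} (hκd : ∀ r ∈ Icc 0 s, HasDerivAt κ (κ' r) r) (hκs : 0 ≤ κ s)
    (hκ : ∀ r ∈ Icc 0 s, (1 / 2) * ∑ a ∈ ({u, v, w} : Finset V)ᶜ, ∑ b ∈ ({u, v, w} : Finset V)ᶜ,
      h r a b * (((1 + Pu a r) * (1 + Pu b r) - 1) * ((1 + Pv a r) * (1 + Pv b r) - 1)
        + ((1 + Pu a r) * (1 + Pu b r) - 1) * ((1 + Pw a r) * (1 + Pw b r) - 1)
        + ((1 + Pv a r) * (1 + Pv b r) - 1) * ((1 + Pw a r) * (1 + Pw b r) - 1)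
        + ((1 + Pu a r) * (1 + Pu b r) - 1) * ((1 + Pv a r) * (1 + Pv b r) - 1)
          * ((1 + Pw a r) * (1 + Pw b r) - 1)
        + ((Nu a r + Nu b r) * (Nv a r + Nv b r) + (Nu a r + Nu b r) * (Nw a r + Nw b r)
          + (Nv a r + Nv b r) * (Nw a r + Nw b r))) ≤ -κ' r) :
    ex (lw h ∅ s) {u, v, w} (fun F => RCG.tgt h u t F s)
      ≤ Real.exp (-(H u v s + H u w s + H v w s) + κ 0) *
        (bb h {v, w} u t * bb h {u, w} v s * bb h {u, v} w s) := by
  have hs1 : s ∈ Icc (0 : ℝ) 1 := ⟨hs.1, hs.2.trans ht.2⟩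
  have hTu := hh.tgt u ht
  have hTv := hh.tgt v hs1
  have hTw := hh.tgt w hs1
  have hdisE : Disjoint (∅ : Finset V) {u, v, w} := Finset.disjoint_empty_left _
  have eD : (∅ : Finset V) ∪ {u, v, w} = {u, v, w} := Finset.empty_union _
  have h1 : u ∉ ({v, w} : Finset V) := by simp [huv, huw]
  have key := ex_le hh (W := {u, v, w}) (D := ∅) (s := s)
    (R := fun z => if z = u then RCG.tgt h u t else if z = v then RCG.tgt h v s
      else RCG.tgt h w s)
    (P := fun z => if z = u then Pu else if z = v then Pv else Pw)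
    (N := fun z => if z = u then Nu else if z = v then Nv else Nw)
    (ψ := fun F => RCG.tgt h u t F s) hdisE hs1
    (fun z hz => by
      simp only [Finset.mem_insert, Finset.mem_singleton] at hz
      rcases hz with rfl | rfl | rfl
      · simpa using hTu.ev.mono hs.2
      · simp only [if_neg huv.symm, if_true]; exact hTv.ev
      · simp only [if_neg huw.symm, if_neg hvw.symm]; exact hTw.ev)
    (fun z hz => by
      rw [eD]
      simp only [Finset.mem_insert, Finset.mem_singleton] at hz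
      rcases hz with rfl | rfl | rfl
      · simpa using hIu
      · simp only [if_neg huv.symm, if_true]; exact hIv
      · simp only [if_neg huw.symm, if_neg hvw.symm]; exact hIw)
    (fun F => hTu.ev.nonneg F s hs)
    (fun F _ => by
      rw [Finset.prod_insert h1, Finset.prod_pair hvw]
      simp only [if_true, if_neg huv.symm, if_neg huw.symm, if_neg hvw.symm, hTv.end_, hTw.end_,
        mul_one]
      exact le_rfl)
    hκd hκs
    (fun r hr => by
      refine le_trans (le_of_eq ?_) (hκ r hr)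
      rw [eD]
      unfold kupR
      congr 1
      refine Finset.sum_congr rfl fun a _ => Finset.sum_congr rfl fun b _ => ?_
      rw [GUp_three huv huw hvw]
      simp only [if_true, if_neg huv.symm, if_neg huw.symm, if_neg hvw.symm])
  refine key.trans (le_of_eq ?_)
  rw [eD, Finset.prod_insert h1, Finset.prod_pair hvw, HW_three hh huv huw hvw]
  simp only [if_true, if_neg huv.symm, if_neg huw.symm, if_neg hvw.symm]
  have e5 : bb h {v, w} u t = RCG.tgt h u t ({u, v, w} : Finset V)ᶜ 0 :=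
    bb_eq hh (D := {v, w}) h1 ht
  have e6 : bb h {u, w} v s = RCG.tgt h v s ({u, v, w} : Finset V)ᶜ 0 := by
    rw [bb_eq hh (D := {u, w}) (u := v) (by simp [huv.symm, hvw]) hs1]
    congr 1
    congr 1
    exact Finset.insert_comm v u {w}
  have e7 : bb h {u, v} w s = RCG.tgt h w s ({u, v, w} : Finset V)ᶜ 0 := by
    rw [bb_eq hh (D := {u, v}) (u := w) (by simp [huw.symm, hvw.symm]) hs1]
    congr 1
    congr 1
    ext z
    simp only [Finset.mem_insert, Finset.mem_singleton]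
    tauto
  rw [← e5, ← e6, ← e7]
  ring

end Pool.Agent.RCG
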