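import Pool.Agent.RCG.Gam2

/-! Flux versus deletion (4.1), own gain (6), Gronwall step (6.1) (MP_73ccd0_lc, general graphs). -/

namespace Pool.Agent.RCG

open Set Finset Pool.Agent.RCRSHalf

set_option linter.unusedSectionVars false

variable {V : Type*} [Fintype V] [DecidableEq V]
variable {h : ℝ → V → V → ℝ} {H : V → V → ℝ → ℝ}

theorem tgt_ex_end (hh : Haz h H) {D W : Finset V} {p : V} {s : ℝ} (hs : s ∈ Icc (0 : ℝ) 1) :
    ex (lw h D s) W (fun F => RCG.tgt h p s F s) = pr (lw h D s) W := by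
  rw [← ex_one]; congr 1; funext F; exact (hh.tgt p hs).end_ F

/-- (4.1), upper bound for the flux -/
theorem pp_le (hh : Haz h H) {a b : V} (hab : a ≠ b) {s : ℝ} (hs : s ∈ Icc (0 : ℝ) 1)
    {Pa Na Pb Nb : V → ℝ → ℝ}
    (hIa : Inf ({a, b} : Finset V)ᶜ s (RCG.tgt h a s) Pa Na)
    (hIb : Inf ({a, b} : Finset V)ᶜ s (RCG.tgt h b s) Pb Nb)
    {κ κ' : ℝ → ℝ} (hκd : ∀ r ∈ Icc 0 s, HasDerivAt κ (κ' r) r) (hκs : 0 ≤ κ s)
    (hκ : ∀ r ∈ Icc 0 s, k2R (h r) ({a, b} : Finset V)ᶜ (fun c => Pa c r) (fun c => Na c r)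
      (fun c => Pb c r) (fun c => Nb c r) ≤ -κ' r) :
    Real.exp (H a b s) * pp h a b s ≤ Real.exp (κ 0) * (bb h {b} a s * bb h {a} b s) := by
  have key := ex_pair_le hh (D := ∅) (p := a) (q := b) (by simp) (by simp) hab hs
    (s := s) ⟨hs.1, le_rfl⟩ hIa hIb hκd hκs hκ
  rw [tgt_ex_end hh hs] at key
  have e := mul_le_mul_of_nonneg_left key (Real.exp_pos (H a b s)).le
  refine e.trans (le_of_eq ?_)
  rw [← mul_assoc, ← Real.exp_add, add_neg_cancel_left]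
  rfl

/-- (4.1), lower bound for the flux -/
theorem le_pp (hh : Haz h H) {a b : V} (hab : a ≠ b) {s : ℝ} (hs : s ∈ Icc (0 : ℝ) 1)
    {Pa Na Pb Nb : V → ℝ → ℝ}
    (hIa : Inf ({a, b} : Finset V)ᶜ s (RCG.tgt h a s) Pa Na)
    (hIb : Inf ({a, b} : Finset V)ᶜ s (RCG.tgt h b s) Pb Nb)
    {κ κ' : ℝ → ℝ} (hκd : ∀ r ∈ Icc 0 s, HasDerivAt κ (κ' r) r) (hκs : 0 ≤ κ s)
    (hκ : ∀ r ∈ Icc 0 s, (1 / 2) * ∑ c ∈ ({a, b} : Finset V)ᶜ,
      ∑ d ∈ ({a, b} : Finset V)ᶜ, h r c d *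
        ((Na c r + Na d r) * ((1 + Pb c r) * (1 + Pb d r) - 1)
          + (Nb c r + Nb d r) * ((1 + Pa c r) * (1 + Pa d r) - 1)) ≤ -κ' r) :
    Real.exp (-κ 0) * (bb h {b} a s * bb h {a} b s) ≤ Real.exp (H a b s) * pp h a b s := by
  have key := le_ex_pair hh (D := ∅) (p := a) (q := b) (by simp) (by simp) hab hs
    (s := s) ⟨hs.1, le_rfl⟩ hIa hIb hκd hκs hκ
  rw [tgt_ex_end hh hs] at key
  have e := mul_le_mul_of_nonneg_left key (Real.exp_pos (H a b s)).le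
  refine le_trans (le_of_eq ?_) e
  rw [← mul_assoc (Real.exp (H a b s)), ← Real.exp_add]
  have : H a b s + (-H a b s - κ 0) = -κ 0 := by ring
  rw [this]
  rfl

/-- own gain, upper bound for `a_u` in terms of `b_{u|v}` (section 6) -/
theorem own_le (hh : Haz h H) {u v : V} (huv : u ≠ v) {t : ℝ} (ht : t ∈ Icc (0 : ℝ) 1)
    {Γ g Γ2 g2 : ℝ → ℝ} (hΓ : ∀ s ∈ Icc 0 t, HasDerivAt Γ (g s) s)
    (hΓ2 : ∀ s ∈ Icc 0 t, HasDerivAt Γ2 (g2 s) s)
    (hg : ∀ s ∈ Icc 0 t, bb h {v} u t * g s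
      ≤ h s u v * ex (lw h ∅ s) {u, v} (fun F => RCG.tgt h u t F s))
    (hg2 : ∀ s ∈ Icc 0 t, ∑ w ∈ ({u, v} : Finset V)ᶜ, h s v w *
          ex (lw h ∅ s) {u, v, w} (fun F => RCG.tgt h u t F s - RCG.tgt h u t (insert w F) s)
      ≤ bb h {v} u t * g2 s) :
    bb h ∅ u t ≤ bb h {v} u t * (1 - (Γ t - Γ 0) + (Γ2 t - Γ2 0)) := by
  have key := le_duh1 hh (D := ∅) (u := u) (v := v) (by simp) huv ht
    (Γ := fun s => bb h {v} u t * Γ s - bb h {v} u t * Γ2 s)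
    (g := fun s => bb h {v} u t * g s - bb h {v} u t * g2 s)
    (fun s hs => ((hΓ s hs).const_mul _).sub ((hΓ2 s hs).const_mul _))
    (fun s hs => by have := hg s hs; have := hg2 s hs; linarith)
  have e : (insert v (∅ : Finset V)) = {v} := rfl
  rw [e] at key
  nlinarith

/-- own gain, lower bound for `a_u` in terms of `b_{u|v}` (section 6) -/
theorem le_own (hh : Haz h H) {u v : V} (huv : u ≠ v) {t : ℝ} (ht : t ∈ Icc (0 : ℝ) 1)
    {Γ g Γ2 g2 : ℝ → ℝ} (hΓ : ∀ s ∈ Icc 0 t, HasDerivAt Γ (g s) s)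
    (hΓ2 : ∀ s ∈ Icc 0 t, HasDerivAt Γ2 (g2 s) s)
    (hg : ∀ s ∈ Icc 0 t, h s u v * ex (lw h ∅ s) {u, v} (fun F => RCG.tgt h u t F s)
      ≤ bb h {v} u t * g s)
    (hg2 : ∀ s ∈ Icc 0 t, -(bb h {v} u t * g2 s) ≤ ∑ w ∈ ({u, v} : Finset V)ᶜ, h s v w *
          ex (lw h ∅ s) {u, v, w} (fun F => RCG.tgt h u t F s - RCG.tgt h u t (insert w F) s)) :
    bb h {v} u t * (1 - (Γ t - Γ 0) - (Γ2 t - Γ2 0)) ≤ bb h ∅ u t := by
  have key := duh1_le hh (D := ∅) (u := u) (v := v) (by simp) huv ht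
    (Γ := fun s => bb h {v} u t * Γ s + bb h {v} u t * Γ2 s)
    (g := fun s => bb h {v} u t * g s + bb h {v} u t * g2 s)
    (fun s hs => ((hΓ s hs).const_mul _).add ((hΓ2 s hs).const_mul _))
    (fun s hs => by have := hg s hs; have := hg2 s hs; linarith)
  have e : (insert v (∅ : Finset V)) = {v} := rfl
  rw [e] at key
  nlinarith

/-- Gronwall step (6.1) -/
theorem own_gronwall {W I E E' : ℝ → ℝ} {t d ν ν' : ℝ} (ht : 0 ≤ t) (hd0 : 0 ≤ d)
    (hd1 : 2 * d ≤ 1) (hν0 : 0 ≤ ν) (hν1 : ν ≤ 1)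
    (hE : ∀ s ∈ Icc 0 t, HasDerivAt E (E' s) s) (hE0 : E 0 = 0) (hE' : ∀ s ∈ Icc 0 t, 0 ≤ E' s)
    (hI : ∀ s ∈ Icc 0 t, HasDerivAt I (E' s * W s) s) (hI0 : I 0 = 0)
    (hlow : ∀ s ∈ Icc 0 t, 1 - ν - (1 + d) * I s ≤ W s)
    (hup : W t ≤ 1 + ν' - (1 - d) * I t) :
    W t ≤ Real.exp (-E t) + ν' + (1 - Real.exp (-E t)) * (2 * d + ν) := by
  have hEt : 0 ≤ E t := by
    have := nonneg_of_forward (U := E) (U' := E') (a := 0) (s := t) hE (by rw [hE0])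
      (fun r hr _ => hE' r hr) t ⟨ht, le_rfl⟩
    exact this
  have h1d : 0 < 1 + d := by linarith
  -- the comparison function, multiplied by the integrating factor
  have key := nonneg_of_forward
    (U := fun s => Real.exp ((1 + d) * E s) * ((1 + d) * I s)
      - (1 - ν) * (Real.exp ((1 + d) * E s) - 1))
    (U' := fun s => Real.exp ((1 + d) * E s) * ((1 + d) * E' s) * ((1 + d) * I s)
      + Real.exp ((1 + d) * E s) * ((1 + d) * (E' s * W s))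
      - (1 - ν) * (Real.exp ((1 + d) * E s) * ((1 + d) * E' s)))
    (a := 0) (s := t)
    (fun s hs => by
      have d1 := ((hE s hs).const_mul (1 + d)).exp
      have d2 := (hI s hs).const_mul (1 + d)
      exact (d1.mul d2).sub ((d1.sub_const 1).const_mul (1 - ν)))
    (by simp [hE0, hI0])
    (fun s hs _ => by
      have e0 := (Real.exp_pos ((1 + d) * E s)).le
      have e1 := hlow s hs
      have e2 := hE' s hs
      have e3 : 0 ≤ (1 + d) * E' s * Real.exp ((1 + d) * E s) * (W s - (1 - ν - (1 + d) * I s)) := by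
        have : 0 ≤ W s - (1 - ν - (1 + d) * I s) := by linarith
        positivity
      nlinarith) t ⟨ht, le_rfl⟩
  -- conclusion
  set X := Real.exp ((1 + d) * E t) with hX
  have hXpos : 0 < X := Real.exp_pos _
  set Z := Real.exp (-E t) with hZ
  have hZpos : 0 < Z := Real.exp_pos _
  have hZ1 : Z ≤ 1 := Real.exp_le_one_iff.2 (by linarith)
  have hXZ : 1 ≤ X * Z := by
    rw [hX, hZ, ← Real.exp_add]
    exact Real.one_le_exp (by nlinarith)
  have h3 : (1 - ν) * (1 - Z) ≤ (1 + d) * I t := by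
    have h4 : (1 - ν) * (X - 1) ≤ X * ((1 + d) * I t) := by linarith
    have h5 : X * ((1 - ν) * (1 - Z)) ≤ (1 - ν) * (X - 1) := by nlinarith
    exact le_of_mul_le_mul_left (h5.trans h4) hXpos
  have hI0' : (1 - ν) * (1 - Z) / (1 + d) ≤ I t := by
    rw [div_le_iff₀ h1d]; linarith
  have h6 : (1 - 2 * d) * ((1 - ν) * (1 - Z)) ≤ (1 - d) * I t := by
    have h7 : (1 - d) * ((1 - ν) * (1 - Z) / (1 + d)) ≤ (1 - d) * I t :=
      mul_le_mul_of_nonneg_left hI0' (by linarith)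
    refine le_trans ?_ h7
    rw [mul_div_assoc', le_div_iff₀ h1d]
    have h8 : 0 ≤ (1 - ν) * (1 - Z) := mul_nonneg (by linarith) (by linarith)
    nlinarith [mul_nonneg h8 (mul_nonneg hd0 hd0)]
  have h9 : (1 - 2 * d - ν) * (1 - Z) ≤ (1 - 2 * d) * ((1 - ν) * (1 - Z)) := by
    nlinarith [mul_nonneg (mul_nonneg hd0 hν0) (by linarith : 0 ≤ 1 - Z)]
  nlinarith

end Pool.Agent.RCG
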