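import Pool.Agent.RCG.NPN

/-! The N-part terms and the own gain of the edge itself in number form
(MP_73ccd0_lc, general graphs). -/

namespace Pool.Agent.RCG

open Set Finset Matrix Pool.Agent.RCRSHalf

set_option linter.unusedSectionVars false

variable {V : Type*} [Fintype V] [DecidableEq V]
variable {h : ℝ → V → V → ℝ} {H : V → V → ℝ → ℝ} {X : V → V → ℝ} {M μ : ℝ → ℝ} {t : ℝ}

/-- A term of the N-part of the edge `(u, v)`. -/
theorem Cx.N_term (hC : Cx h H X M μ t) {u v w : V} (huv : u ≠ v) (huw : u ≠ w) (hvw : v ≠ w)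
    {s : ℝ} (hs : s ∈ Icc 0 t) {B : ℝ → ℝ} {K K' Q Rs Pt' α2 w2 c Ψ Θ : ℝ}
    (hB : Exf (cru2 h H X M ({u, v, w} : Finset V)ᶜ u t w t) t B)
    (hK : Exq (cru3 h H X M ({u, v, w} : Finset V)ᶜ u t v s w t) s K)
    (hK' : Exq (cru3 h H X M ({u, v, w} : Finset V)ᶜ u t v s w s) s K')
    (hQ : Exq (crl2 h H X M ({v, w} : Finset V)ᶜ v s w s) s Q)
    (hA : bb h {v, w} u t ≤ Real.exp Pt' * (1 + α2) * bb h {v} u t) (hα2 : 0 ≤ 1 + α2)
    (hW : Wr h w v s ≤ Real.exp (-Rs) * (1 + w2))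
    (hJ : zx h H {u, v} u w t s ≤ (1 + c) * (Real.exp (-Pt' + Rs) * Ψ)) (hΨ : 0 ≤ Ψ)
    (hc : 0 ≤ 1 + c)
    (hΘ : (1 + α2) * (1 + w2) * (1 + c) *
      Real.exp (B s + K + Q + Yt X ({v, w} : Finset V)ᶜ v (M s) u) ≤ Θ) :
    h s v w * ex (lw h ∅ s) {u, v, w}
        (fun F => RCG.tgt h u t F s - RCG.tgt h u t (insert w F) s)
      ≤ bb h {v} u t * (dE h w v s * Ψ * Θ +
        Real.exp Pt' * (1 + α2) * (Yt X ({u, v} : Finset V)ᶜ u (M t - M s) w *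
          (h s v w * pp h v w s) *
          Real.exp (K' + Q + Yt X ({v, w} : Finset V)ᶜ v (M s) u
            + Yt X ({w, v} : Finset V)ᶜ w (M s) u))) := by
  have ht : t ∈ Icc 0 t := ⟨hC.t0, le_rfl⟩
  have e1 : ({u, w} : Finset V) = insert u {w} := rfl
  have e2 : ({u, v} : Finset V) = insert u {v} := rfl
  refine t1_term hC.hh huv huw hvw hC.ht hs (hC.xi huv huw hvw hs hB)
    (hC.ex3m_up huv huw hvw ht hs hK) (hC.ex3c_up huv huw hvw ht hs hK')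
    (hC.Y_nonneg ht _ u w hs) (hC.pp_lo hvw hs hQ) ?_ ?_ hA hα2 hW hJ hΨ hc hΘ
  · have h1 := hC.del_up (D := {w}) (u := v) (q := u) (by simpa using hvw) (by simpa using huw)
      huv.symm hs
    rw [hC.hh.Hsymm v u] at h1
    exact h1
  · have h1 := hC.del_up (D := {v}) (u := w) (q := u) (by simpa using hvw.symm) (by simpa using huv)
      huw.symm hs
    rw [hC.hh.Hsymm w u] at h1
    exact h1

/-- The own gain of the edge `(u, v)` in number form, with integrated exponents. -/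
theorem Cx.own_outer (hC : Cx h H X M μ t) {p q : V} (hpq : p ≠ q)
    {E : ℝ → ℝ} (hE : ∀ s ∈ Icc 0 t, HasDerivAt E (dE h p q s) s) (hE0 : E 0 = 0)
    {K Q : ℝ → ℝ → ℝ} {β d d' w : ℝ → ℝ} {ν ν' δ δ' : ℝ}
    (hK : ∀ T ∈ Icc 0 t, ∀ s ∈ Icc 0 T, Exq (cru2 h H X M ({p, q} : Finset V)ᶜ p T q s) s (K T s))
    (hQ : ∀ T ∈ Icc 0 t, ∀ s ∈ Icc 0 T, Exq (crl2 h H X M ({p, q} : Finset V)ᶜ p T q s) s (Q T s))
    (hd : ∀ s ∈ Icc 0 t, K s s + Q t s ≤ d s) (hdc : Continuous d)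
    (hd' : ∀ T ∈ Icc 0 t, ∀ s ∈ Icc 0 T, K T s + Q s s ≤ d' s) (hd'c : Continuous d')
    (hd'0 : ∀ s ∈ Icc 0 t, 0 ≤ d' s)
    (hW : ∀ s ∈ Icc 0 t, Wr h p q s ≤ w s)
    (hβ : ∀ s ∈ Icc 0 t, Real.exp (-H p q s) * bb h {p} q s ≤ β s)
    {Γ2 g2 : ℝ → ℝ} (hΓ2 : ∀ s ∈ Icc 0 t, HasDerivAt Γ2 (g2 s) s)
    (hg2 : ∀ s ∈ Icc 0 t, ∑ w ∈ ({p, q} : Finset V)ᶜ, h s q w *
          ex (lw h ∅ s) {p, q, w} (fun F => RCG.tgt h p t F s - RCG.tgt h p t (insert w F) s)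
      ≤ bb h {q} p t * g2 s)
    (hν' : Γ2 t - Γ2 0 ≤ ν')
    (hlow : ∀ T ∈ Icc 0 t, ∃ Γ3 g3 : ℝ → ℝ, (∀ s ∈ Icc 0 T, HasDerivAt Γ3 (g3 s) s) ∧
      (∀ s ∈ Icc 0 T, (∑ w ∈ ({p, q} : Finset V)ᶜ, h s q w *
        Nt X ({p, q} : Finset V)ᶜ p (M T - M s) w) * (Real.exp (K T s) * β s) ≤ g3 s) ∧
      Γ3 T - Γ3 0 ≤ ν)
    {J J' : ℝ → ℝ} (hJ : ∀ s ∈ Icc 0 t, HasDerivAt J (J' s) s) (hJ0 : J 0 = 0)
    (hd0 : ∀ s ∈ Icc 0 t, 0 ≤ d s)
    (hJle : ∀ s ∈ Icc 0 t, dE h p q s * w s * d s ≤ J' s) (hJt : J t ≤ δ)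
    {L L' : ℝ → ℝ} (hL : ∀ s ∈ Icc 0 t, HasDerivAt L (L' s) s) (hL0 : L 0 = 0)
    (hLle : ∀ s ∈ Icc 0 t, dE h p q s * w s * (Real.exp (d' s) - 1) ≤ L' s) (hLt : L t ≤ δ') :
    Wr h p q t ≤ Real.exp (-E t) + ν' + δ + (1 - Real.exp (-E t)) * (ν + δ') := by
  have hh := hC.hh
  have ht : t ∈ Icc 0 t := ⟨hC.t0, le_rfl⟩
  have hpe : p ∉ (∅ : Finset V) := Finset.notMem_empty p
  have hqe : q ∉ (∅ : Finset V) := Finset.notMem_empty q
  have hcW : ContinuousOn (fun s => dE h p q s * Wr h p q s) (Icc 0 t) :=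
    ((dE_cont hh p q).mul (Wr_cont hh hpq)).mono (Icc_subset_Icc le_rfl hC.t1)
  have hc1 : ContinuousOn (fun s => dE h p q s * Wr h p q s * Real.exp (-d s)) (Icc 0 t) :=
    hcW.mul (Real.continuous_exp.comp hdc.neg).continuousOn
  have hc2 : ContinuousOn (fun s => dE h p q s * Wr h p q s * Real.exp (d' s)) (Icc 0 t) :=
    hcW.mul (Real.continuous_exp.comp hd'c).continuousOn
  obtain ⟨I, hI0, hI⟩ := exists_prim hC.t0 hcW
  obtain ⟨I1, hI10, hI1⟩ := exists_prim hC.t0 hc1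
  obtain ⟨I2, hI20, hI2⟩ := exists_prim hC.t0 hc2
  have hW0 : ∀ s ∈ Icc 0 t, 0 ≤ Wr h p q s := fun s hs => (Wr_pos hh hpq (hC.mem hs)).le
  have hE'0 : ∀ s ∈ Icc 0 t, 0 ≤ dE h p q s := fun s hs => dE_nonneg hh p q (hC.mem hs)
  have ex_up : ∀ T ∈ Icc 0 t, ∀ s ∈ Icc 0 T, ex (lw h ∅ s) {p, q}
      (fun F => RCG.tgt h p T F s)
      ≤ Real.exp (-H p q s + K T s) * (bb h {q} p T * bb h {p} q s) := fun T hT s hs => by
    have := hC.ex2_up hpe hqe hpq (T := T) (s := s) hT hs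
      (B := K T s) (by rw [compl_pair_eq]; exact hK T hT s hs)
    simpa only [insert_empty_eq] using this
  have hup := own_up hh hpq hC.ht (κ := fun s => K s s) (Q := fun s => Q t s) (d := d)
    (fun s hs => hC.pp_up hpq hs (hK s hs s ⟨hs.1, le_rfl⟩))
    (fun s hs => by
      have := hC.ex2_lo hpe hqe hpq (T := t) (s := s) ht hs
        (B := Q t s) (by rw [compl_pair_eq]; exact hQ t ht s hs)
      simpa only [insert_empty_eq] using this) hd (Γ := I1) hI1 hΓ2 hg2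
  have hlo : ∀ T ∈ Icc 0 t, 1 - ν - I2 T ≤ Wr h p q T := by
    intro T hT
    obtain ⟨Γ3, g3, h1, h2, h3⟩ := hlow T hT
    have hT1 : T ∈ Icc (0 : ℝ) 1 := hC.mem hT
    have := own_lo hh hpq hT1 (κ := K T) (Q := fun s => Q s s) (d := d')
      (fun s hs => hC.pp_lo hpq ⟨hs.1, hs.2.trans hT.2⟩
        (hQ s ⟨hs.1, hs.2.trans hT.2⟩ s ⟨hs.1, le_rfl⟩)) (ex_up T hT) (hd' T hT)
      (Γ := I2) (fun s hs => hI2 s ⟨hs.1, hs.2.trans hT.2⟩) h1 (fun s hs => by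
        have hIn := hC.inf hT (w := p) (H0 := ({p, q} : Finset V)ᶜ) (by simp)
          (subset_rfl : ({p, q} : Finset V)ᶜ ⊆ _) le_rfl
        have h4 := n_low (D := ∅) hh hT1 (p := p) (q := q) (by rw [compl_pair_eq]; exact hIn) hs
          (yb := ∑ w ∈ ({p, q} : Finset V)ᶜ, h s q w *
            Nt X ({p, q} : Finset V)ᶜ p (M T - M s) w) (by rw [compl_pair_eq])
        have hc : 0 ≤ ∑ w ∈ ({p, q} : Finset V)ᶜ, h s q w *
            Nt X ({p, q} : Finset V)ᶜ p (M T - M s) w :=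
          Finset.sum_nonneg fun w hw => mul_nonneg (hh.nonneg _ _ _) (hIn.N0 w hw s hs)
        have h5 := mul_le_mul_of_nonneg_left (ex_up T hT s hs) hc
        have h6 := mul_le_mul_of_nonneg_left (h2 s hs) (bb_nonneg hh {q} p hT1)
        have hb : 0 ≤ bb h {q} p T := bb_nonneg hh _ _ hT1
        have h7 : (∑ w ∈ ({p, q} : Finset V)ᶜ, h s q w *
            Nt X ({p, q} : Finset V)ᶜ p (M T - M s) w) *
            (Real.exp (-H p q s + K T s) * (bb h {q} p T * bb h {p} q s))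
            ≤ bb h {q} p T * ((∑ w ∈ ({p, q} : Finset V)ᶜ, h s q w *
            Nt X ({p, q} : Finset V)ᶜ p (M T - M s) w) * (Real.exp (K T s) * β s)) := by
          have h8 := mul_le_mul_of_nonneg_left (hβ s ⟨hs.1, hs.2.trans hT.2⟩)
            (mul_nonneg (mul_nonneg hc hb) (Real.exp_pos (K T s)).le)
          rw [Real.exp_add]
          linarith
        linarith)
    rw [hI20, sub_zero] at this
    linarith
  rw [hI10, sub_zero] at hup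
  refine own_final hC.t0 hE hE0 hE'0 hW0 hI hI0 hI1 hI10 hI2 hI20 hd'0 hJ hJ0 (fun s hs => ?_) hJt
    hL hL0 (fun s hs => ?_) hLt hlo (by linarith)
  · refine le_trans ?_ (hJle s hs)
    exact mul_le_mul_of_nonneg_right (mul_le_mul_of_nonneg_left (hW s hs) (hE'0 s hs)) (hd0 s hs)
  · refine le_trans ?_ (hLle s hs)
    refine mul_le_mul_of_nonneg_right (mul_le_mul_of_nonneg_left (hW s hs) (hE'0 s hs)) ?_
    have := Real.one_le_exp (hd'0 s hs)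
    linarith

end Pool.Agent.RCG
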