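import Pool.Agent.RCG.EvS

/-! The two-vertex function with source and its expectation (MP_73ccd0_lc, general graphs). -/

namespace Pool.Agent.RCG

open Set Finset Pool.Agent.RCRSHalf

set_option linter.unusedSectionVars false

variable {V : Type*} [Fintype V] [DecidableEq V]
variable {h : ℝ → V → V → ℝ} {H : V → V → ℝ → ℝ}

/-- closure data for a general killing rate -/
structure CloK (h : ℝ → V → V → ℝ) (k : ℝ → V → ℝ) (H0 : Finset V) (t : ℝ) (P N : V → ℝ → ℝ) :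
    Prop where
  P0 : ∀ a ∈ H0, ∀ r ∈ Icc 0 t, 0 ≤ P a r
  N0 : ∀ a ∈ H0, ∀ r ∈ Icc 0 t, 0 ≤ N a r
  N1 : ∀ a ∈ H0, ∀ r ∈ Icc 0 t, N a r ≤ 1
  Pd : ∀ a ∈ H0, ∀ r ∈ Icc 0 t, ∃ P', HasDerivAt (P a) P' r ∧
    (1 + P a r) * (k r a + ∑ b ∈ H0, h r a b * N b r) ≤ -P'
  Nd : ∀ a ∈ H0, ∀ r ∈ Icc 0 t, ∃ N', HasDerivAt (N a) N' r ∧ ∑ b ∈ H0, h r a b * P b r ≤ -N'

theorem Clo.toK {w : V} {H0 : Finset V} {t : ℝ} {P N : V → ℝ → ℝ} (hC : Clo h w H0 t P N) :
    CloK h (fun r a => h r w a) H0 t P N := ⟨hC.P0, hC.N0, hC.N1, hC.Pd, hC.Nd⟩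

theorem CloK.toClo {w : V} {H0 : Finset V} {t : ℝ} {P N : V → ℝ → ℝ}
    (hC : CloK h (fun r a => h r w a) H0 t P N) : Clo h w H0 t P N :=
  ⟨hC.P0, hC.N0, hC.N1, hC.Pd, hC.Nd⟩

theorem CloK.mono_k {k k' : ℝ → V → ℝ} {H0 : Finset V} {t : ℝ} {P N : V → ℝ → ℝ}
    (hC : CloK h k H0 t P N) (hk : ∀ r ∈ Icc 0 t, ∀ a ∈ H0, k' r a ≤ k r a) :
    CloK h k' H0 t P N := by
  refine ⟨hC.P0, hC.N0, hC.N1, fun a ha r hr => ?_, hC.Nd⟩
  obtain ⟨P', h1, h2⟩ := hC.Pd a ha r hr
  refine ⟨P', h1, le_trans ?_ h2⟩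
  exact mul_le_mul_of_nonneg_left (by linarith [hk r hr a ha]) (by linarith [hC.P0 a ha r hr])

/-- influence bounds from closure data, set-dependent source -/
theorem CloK.infS (hh : Haz h H) {k : ℝ → V → ℝ} (k0 : ∀ t a, 0 ≤ k t a) {H0 : Finset V} {t s : ℝ}
    {P N : V → ℝ → ℝ} (hC : CloK h k H0 t P N) (hs : s ≤ t) {ρ : ℝ → ℝ} (ρ0 : ∀ t, 0 ≤ ρ t)
    {S : Finset V → ℝ → ℝ} {R : Finset V → ℝ → ℝ} (hR : IsEvS h k ρ S s R)
    (hPs : ∀ G ⊆ H0, ∀ a ∈ G, R (G.erase a) s ≤ (1 + P a s) * R G s)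
    (hNs : ∀ G ⊆ H0, ∀ a ∈ G, (1 - N a s) * R G s ≤ R (G.erase a) s)
    (hSP : ∀ G ⊆ H0, ∀ a ∈ G, ∀ r ∈ Icc 0 s, S (G.erase a) r ≤ (1 + P a r) * S G r)
    (hSN : ∀ G ⊆ H0, ∀ a ∈ G, ∀ r ∈ Icc 0 s, (1 - N a r) * S G r ≤ S (G.erase a) r) :
    Inf H0 s R P N := by
  have hm : ∀ r ∈ Icc 0 s, r ∈ Icc 0 t := fun r hr => ⟨hr.1, hr.2.trans hs⟩
  have key := inflS (P := P) (N := N) (P' := fun a => deriv (P a)) (N' := fun a => deriv (N a))
    hh.symm hh.diag hh.nonneg k0 ρ0 hR H0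
    (fun a ha r hr => by
      obtain ⟨P', h1, _⟩ := hC.Pd a ha r (hm r hr)
      rw [h1.deriv]; exact h1)
    (fun a ha r hr => by
      obtain ⟨N', h1, _⟩ := hC.Nd a ha r (hm r hr)
      rw [h1.deriv]; exact h1)
    (fun a ha r hr => hC.P0 a ha r (hm r hr)) (fun a ha r hr => hC.N0 a ha r (hm r hr))
    (fun a ha r hr => hC.N1 a ha r (hm r hr))
    (fun a ha r hr => by
      obtain ⟨P', h1, h2⟩ := hC.Pd a ha r (hm r hr)
      rw [h1.deriv]; exact h2)
    (fun a ha r hr => by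
      obtain ⟨N', h1, h2⟩ := hC.Nd a ha r (hm r hr)
      rw [h1.deriv]; exact h2)
    hPs hNs hSP hSN
  exact ⟨fun a ha r hr => hC.P0 a ha r (hm r hr), fun a ha r hr => hC.N0 a ha r (hm r hr),
    fun a ha r hr => hC.N1 a ha r (hm r hr), fun G hG a ha r hr => (key G hG a ha r hr).1,
    fun G hG a ha r hr => (key G hG a ha r hr).2⟩

/-- from scalar to set-dependent sources -/
theorem IsEv.toS {k : ℝ → V → ℝ} {ρ c : ℝ → ℝ} {s : ℝ} {R : Finset V → ℝ → ℝ}
    (hR : IsEv h k ρ c s R) : IsEvS h k ρ (fun _ => c) s R := ⟨hR.deriv, hR.nonneg⟩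

/-- influence bounds for evolutions without source -/
theorem CloK.inf0 (hh : Haz h H) {k : ℝ → V → ℝ} (k0 : ∀ t a, 0 ≤ k t a) {H0 : Finset V} {t s : ℝ}
    {P N : V → ℝ → ℝ} (hC : CloK h k H0 t P N) (hs : s ≤ t) {R : Finset V → ℝ → ℝ}
    (hR : IsEv h k (fun _ => 0) (fun _ => 0) s R)
    (hPs : ∀ G ⊆ H0, ∀ a ∈ G, R (G.erase a) s ≤ (1 + P a s) * R G s)
    (hNs : ∀ G ⊆ H0, ∀ a ∈ G, (1 - N a s) * R G s ≤ R (G.erase a) s) :
    Inf H0 s R P N :=
  hC.infS hh k0 hs (fun _ => le_rfl) hR.toS hPs hNs (fun _ _ _ _ _ _ => by simp)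
    (fun _ _ _ _ _ _ => by simp)

/-- the two-vertex function: `a` and `c` survive (and do not meet `v`) until they meet, then `c`
kills `v` -/
structure IsPr (h : ℝ → V → V → ℝ) (v a c : V) (t : ℝ) (Ω : Finset V → ℝ → ℝ) : Prop where
  ev : IsEvS h (fun r b => h r a b + h r c b) (fun r => h r a c + h r v a + h r v c)
    (fun G r => h r a c * src h v c t G r) t Ω
  end_ : ∀ F, Ω F t = 0

theorem Haz.exists_prf (hh : Haz h H) (v a c : V) {t : ℝ} (ht : t ∈ Icc (0 : ℝ) 1) :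
    ∃ Ω, IsPr h v a c t Ω := by
  obtain ⟨C, hC⟩ := hh.bdd
  have hZ := hh.src v c ht
  have hcl : Continuous fun r : ℝ => max 0 (min t r) := by fun_prop
  have hmem : ∀ r : ℝ, max 0 (min t r) ∈ Icc 0 t := fun r =>
    ⟨le_max_left _ _, max_le ht.1 (min_le_left _ _)⟩
  have hZc : ∀ F, Continuous fun r => RCG.src h v c t F (max 0 (min t r)) := fun F =>
    ContinuousOn.comp_continuous (fun r hr =>
      (hZ.ev.deriv F r hr).continuousAt.continuousWithinAt) hcl hmem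
  have hZb : ∃ K, ∀ F r, RCG.src h v c t F (max 0 (min t r)) ≤ K := by
    have h1 : ∀ F : Finset V, ∃ K, 0 ≤ K ∧ ∀ r ∈ Icc 0 t, |RCG.src h v c t F r| ≤ K := by
      intro F
      obtain ⟨K, hK⟩ := isCompact_Icc.exists_bound_of_continuousOn
        (f := RCG.src h v c t F) (s := Icc 0 t)
        (fun r hr => (hZ.ev.deriv F r hr).continuousAt.continuousWithinAt)
      exact ⟨K, (abs_nonneg _).trans (hK 0 ⟨le_rfl, ht.1⟩), fun r hr => hK r hr⟩
    choose K hK0 hK using h1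
    refine ⟨∑ F, K F, fun F r => ?_⟩
    exact ((le_abs_self _).trans (hK F _ (hmem r))).trans
      (Finset.single_le_sum (f := K) (fun G _ => hK0 G) (Finset.mem_univ F))
  obtain ⟨K, hK⟩ := hZb
  have hZ0 : ∀ F r, 0 ≤ RCG.src h v c t F (max 0 (min t r)) := fun F r =>
    hZ.ev.nonneg F _ (hmem r)
  have hK0 : 0 ≤ K := (hZ0 ∅ 0).trans (hK ∅ 0)
  have hC0 : 0 ≤ C := (hh.nonneg 0 a a).trans (hC 0 a a)
  obtain ⟨Ω, hΩ, hΩt⟩ := exists_evS (h := h) (k := fun r b => h r a b + h r c b)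
    (ρ := fun r => h r a c + h r v a + h r v c)
    (S := fun F r => h r a c * RCG.src h v c t F (max 0 (min t r)))
    hh.cont (C := C + C + C + C * K)
    (fun t a b => (hC t a b).trans (by nlinarith [mul_nonneg hC0 hK0])) hh.nonneg
    (fun b => (hh.cont a b).add (hh.cont c b))
    (fun t b => (add_le_add (hC t a b) (hC t c b)).trans (by nlinarith [mul_nonneg hC0 hK0]))
    (fun t b => add_nonneg (hh.nonneg _ _ _) (hh.nonneg _ _ _))
    (((hh.cont a c).add (hh.cont v a)).add (hh.cont v c))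
    (fun t => by
      have := add_le_add (add_le_add (hC t a c) (hC t v a)) (hC t v c)
      have h2 := mul_nonneg hC0 hK0
      linarith)
    (fun t => add_nonneg (add_nonneg (hh.nonneg t a c) (hh.nonneg t v a)) (hh.nonneg t v c))
    (fun F => (hh.cont a c).mul (hZc F))
    (fun F r => by
      have := mul_le_mul (hC r a c) (hK F r) (hZ0 F r) hC0
      linarith)
    (fun F r => mul_nonneg (hh.nonneg _ _ _) (hZ0 F r)) ht (fun _ => 0) (fun _ => le_rfl)
  refine ⟨Ω, ⟨⟨fun F r hr => ?_, hΩ.nonneg⟩, hΩt⟩⟩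
  have := hΩ.deriv F r hr
  have e : max 0 (min t r) = r := by rw [min_eq_right hr.2, max_eq_right hr.1]
  simp only [e] at this
  exact this

open Classical in
/-- the two-vertex function -/
noncomputable def prf (h : ℝ → V → V → ℝ) (v a c : V) (t : ℝ) : Finset V → ℝ → ℝ :=
  if hex : ∃ Ω, IsPr h v a c t Ω then hex.choose else fun _ _ => 1

theorem Haz.prf (hh : Haz h H) (v a c : V) {t : ℝ} (ht : t ∈ Icc (0 : ℝ) 1) :
    IsPr h v a c t (prf h v a c t) := by
  have := hh.exists_prf v a c ht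
  unfold RCG.prf
  rw [dif_pos this]
  exact this.choose_spec

/-- influence bounds for the two-vertex function -/
theorem CloK.prf (hh : Haz h H) {v a c : V} {H0 : Finset V} {t : ℝ} {P N : V → ℝ → ℝ}
    (hC : CloK h (fun r b => h r a b + h r c b) H0 t P N) (ht : t ∈ Icc (0 : ℝ) 1) :
    Inf H0 t (prf h v a c t) P N := by
  have hΩ := hh.prf v a c ht
  have hCc : Clo h c H0 t P N := (hC.mono_k (k' := fun r b => h r c b)
    (fun r _ b _ => by linarith [hh.nonneg r a b])).toClo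
  have hI := hCc.src (u := v) hh ht
  refine hC.infS hh (fun t b => add_nonneg (hh.nonneg _ _ _) (hh.nonneg _ _ _)) le_rfl
    (fun r => add_nonneg (add_nonneg (hh.nonneg r a c) (hh.nonneg r v a)) (hh.nonneg r v c))
    hΩ.ev (fun G hG b hb => ?_) (fun G hG b hb => ?_)
    (fun G hG b hb r hr => ?_) (fun G hG b hb r hr => ?_)
  · rw [hΩ.end_, hΩ.end_]; simp
  · rw [hΩ.end_, hΩ.end_]; simp
  · have := mul_le_mul_of_nonneg_left (hI.up G hG b hb r hr) (hh.nonneg r a c)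
    linarith
  · have := mul_le_mul_of_nonneg_left (hI.lo G hG b hb r hr) (hh.nonneg r a c)
    linarith

/-- influence bounds for the restarted two-vertex function -/
theorem CloK.prf_restart (hh : Haz h H) {v a c : V} {H0 : Finset V} {t s : ℝ} {P N : V → ℝ → ℝ}
    (hC : CloK h (fun r b => h r a b + h r c b) H0 t P N) (ht : t ∈ Icc (0 : ℝ) 1)
    (hs : s ∈ Icc 0 t) {R : Finset V → ℝ → ℝ}
    (hR : IsEv h (fun r b => h r a b + h r c b) (fun _ => 0) (fun _ => 0) s R)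
    (hRs : ∀ F, R F s = RCG.prf h v a c t F s) : Inf H0 s R P N := by
  have hI := hC.prf (v := v) hh ht
  refine hC.inf0 hh (fun t b => add_nonneg (hh.nonneg _ _ _) (hh.nonneg _ _ _)) hs.2 hR
    (fun G hG b hb => ?_) (fun G hG b hb => ?_)
  · rw [hRs, hRs]; exact hI.up G hG b hb s hs
  · rw [hRs, hRs]; exact hI.lo G hG b hb s hs

/-- expectation of the two-vertex function -/
noncomputable def zp (h : ℝ → V → V → ℝ) (D : Finset V) (v a c : V) (t s : ℝ) : ℝ :=
  ex (lw h D s) {a, c} (fun F => prf h v a c t F s)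

theorem zp_deriv (hh : Haz h H) {D : Finset V} {v a c : V} (hac : a ≠ c) {t : ℝ}
    (ht : t ∈ Icc (0 : ℝ) 1) {s : ℝ} (hs : s ∈ Icc 0 t) :
    HasDerivAt (zp h D v a c t)
      (-(h s a c * ex (lw h D s) {a, c} (fun F => RCG.src h v c t F s))
        + (h s v a + h s v c) * zp h D v a c t s) s := by
  have hμ := hh.lw D
  have hΩ := hh.prf v a c ht
  set Ω := RCG.prf h v a c t with hΩdef
  set Z := RCG.src h v c t with hZdef
  have h1 := hμ.deriv_sum
    (φ := fun s F => if ({a, c} : Finset V) ⊆ F then Ω (F \ {a, c}) s else 0)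
    (φ' := fun s F => if ({a, c} : Finset V) ⊆ F then
      (-(gen (h s) (fun G => Ω G s) (F \ {a, c})
        - (∑ b ∈ F \ {a, c}, (h s a b + h s c b)) * Ω (F \ {a, c}) s
        - (h s a c + h s v a + h s v c) * Ω (F \ {a, c}) s
        + h s a c * Z (F \ {a, c}) s)) else 0)
    (t := s) ⟨hs.1, hs.2.trans ht.2⟩
    (fun F => by
      by_cases hF : ({a, c} : Finset V) ⊆ F
      · simp only [if_pos hF]
        exact hΩ.ev.deriv _ s hs
      · simp only [if_neg hF]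
        exact hasDerivAt_const _ _)
  have e0 : zp h D v a c t = fun s => ∑ F : Finset V, lw h D s F *
      (if ({a, c} : Finset V) ⊆ F then Ω (F \ {a, c}) s else 0) := rfl
  rw [e0]
  refine h1.congr_deriv ?_
  have e1 : ∀ F : Finset V, gen (h s) (fun G => if ({a, c} : Finset V) ⊆ G then
        Ω (G \ {a, c}) s else 0) F
      + (if ({a, c} : Finset V) ⊆ F then
      (-(gen (h s) (fun G => Ω G s) (F \ {a, c})
        - (∑ b ∈ F \ {a, c}, (h s a b + h s c b)) * Ω (F \ {a, c}) s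
        - (h s a c + h s v a + h s v c) * Ω (F \ {a, c}) s
        + h s a c * Z (F \ {a, c}) s)) else 0)
      = if ({a, c} : Finset V) ⊆ F then -(h s a c * Z (F \ {a, c}) s)
        + (h s v a + h s v c) * Ω (F \ {a, c}) s else 0 := by
    intro F
    by_cases hF : ({a, c} : Finset V) ⊆ F
    · have e2 := gen_super (h s) (hh.symm s) {a, c} F hF (fun G => Ω G s)
      have e3 : (1 / 2 : ℝ) * ∑ x ∈ ({a, c} : Finset V), ∑ y ∈ ({a, c} : Finset V), h s x y
          = h s a c := by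
        rw [Finset.sum_pair hac, Finset.sum_pair hac, Finset.sum_pair hac, hh.diag, hh.diag,
          hh.symm s c a]
        ring
      have e4 : ∀ b, ∑ w ∈ ({a, c} : Finset V), h s w b = h s a b + h s c b := fun b =>
        Finset.sum_pair hac
      rw [e2, if_pos hF, if_pos hF]
      simp only [e4, e3]
      ring
    · rw [if_neg hF, if_neg hF]
      have : gen (h s) (fun G => if ({a, c} : Finset V) ⊆ G then
          Ω (G \ {a, c}) s else 0) F = gen (h s) (fun _ => 0) F := by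
        refine gen_congr fun G hG => ?_
        rw [if_neg (fun hh => hF (hh.trans hG))]
      rw [this, gen_const, add_zero]
  simp only [e1]
  unfold ex
  rw [Finset.mul_sum, Finset.mul_sum, ← Finset.sum_neg_distrib, ← Finset.sum_add_distrib]
  refine Finset.sum_congr rfl fun F _ => ?_
  split_ifs <;> ring

theorem zp_end (hh : Haz h H) {D : Finset V} {v a c : V} {t : ℝ} (ht : t ∈ Icc (0 : ℝ) 1) :
    zp h D v a c t t = 0 := by
  unfold zp ex
  refine Finset.sum_eq_zero fun F _ => ?_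
  have := (hh.prf v a c ht).end_ (F \ {a, c})
  split_ifs
  · simp only [this, mul_zero]
  · simp

theorem zp_nonneg (hh : Haz h H) (D : Finset V) (v a c : V) {t : ℝ} (ht : t ∈ Icc (0 : ℝ) 1)
    {s : ℝ} (hs : s ∈ Icc 0 t) : 0 ≤ zp h D v a c t s :=
  ex_nonneg (fun F => (hh.lw D).nonneg F s ⟨hs.1, hs.2.trans ht.2⟩)
    fun F => (hh.prf v a c ht).ev.nonneg F s hs

/-- upper bound for the expectation of the two-vertex function -/
theorem zp_le (hh : Haz h H) {D : Finset V} {v a c : V} (hac : a ≠ c) {t : ℝ}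
    (ht : t ∈ Icc (0 : ℝ) 1) {J J' : ℝ → ℝ} (hJ : ∀ s ∈ Icc 0 t, HasDerivAt J (J' s) s)
    (hJt : 0 ≤ J t)
    (hJ' : ∀ s ∈ Icc 0 t, Real.exp (-(H v a s + H v c s)) *
      (h s a c * ex (lw h D s) {a, c} (fun F => RCG.src h v c t F s)) ≤ -J' s) :
    ∀ s ∈ Icc 0 t, Real.exp (-(H v a s + H v c s)) * zp h D v a c t s ≤ J s := by
  intro s hs
  have key := nonneg_of_backward
    (U := fun s => J s - Real.exp (-(H v a s + H v c s)) * zp h D v a c t s)
    (U' := fun s => J' s - (Real.exp (-(H v a s + H v c s)) * (-(h s v a + h s v c))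
        * zp h D v a c t s + Real.exp (-(H v a s + H v c s)) *
        (-(h s a c * ex (lw h D s) {a, c} (fun F => RCG.src h v c t F s))
        + (h s v a + h s v c) * zp h D v a c t s)))
    (a := 0) (s := t) (fun s hs => (hJ s hs).sub
      ((((hh.Hd v a s).add (hh.Hd v c s)).neg.exp).mul (zp_deriv hh hac ht hs)))
    (by rw [zp_end hh ht]; simpa using hJt) (fun s hs _ => by
      have := hJ' s hs
      linarith) s hs
  linarith

end Pool.Agent.RCG
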