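import Pool.Agent.RCG.Poly4
import Pool.Agent.RCG.Forms

/-! The edge inequality for pair rates (MP_73ccd0_lc). -/

namespace Pool.Agent.RCG

open QE

namespace PairIneq

instance : Add QE := ⟨QE.add⟩
instance : Mul QE := ⟨QE.mul⟩

def k (n : ℤ) : QE := QE.c n 1

def oneL : QE := k 1 + k (-1) * A
def oneN : QE := k 1 + k (-1) * B
def s1 : QE := A * C + B * D
def s2 : QE := oneL * C + oneN * D
def pi5 (s : QE) : QE := k 1 + s * (k 1 + s * (k 1 + s * (k 1 + s)))
def lin (x : QE) : QE := k 1000 + k 877 * x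

def G : QE :=
  k 122000000 * (A * B * pi5 s1 + oneL * oneN * pi5 s2)
    + k 122 * (A * oneN * (lin (A * C) * lin (oneN * D)) + oneL * B * (lin (oneL * C) * lin (B * D)))
    + k (-100) * (lin C * lin D)

set_option maxRecDepth 100000 in
theorem ck : nonnegB 5 5 5 5 G = true := by decide +kernel

theorem eval_add (x y z w : ℝ) (a b : QE) : (a + b).eval x y z w = a.eval x y z w + b.eval x y z w :=
  rfl
theorem eval_mul (x y z w : ℝ) (a b : QE) : (a * b).eval x y z w = a.eval x y z w * b.eval x y z w :=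
  rfl

theorem poly {L N P Q : ℝ} (hL0 : 0 ≤ L) (hL1 : L ≤ 1) (hN0 : 0 ≤ N) (hN1 : N ≤ 1)
    (hP0 : 0 ≤ P) (hP1 : P ≤ 1) (hQ0 : 0 ≤ Q) (hQ1 : Q ≤ 1) :
    (1 + 877 / 1000 * P) * (1 + 877 / 1000 * Q)
      ≤ 122 / 100 * (L * N * (1 + (L * P + N * Q) + (L * P + N * Q) ^ 2 + (L * P + N * Q) ^ 3
          + (L * P + N * Q) ^ 4)
        + (1 - L) * (1 - N) * (1 + ((1 - L) * P + (1 - N) * Q) + ((1 - L) * P + (1 - N) * Q) ^ 2
          + ((1 - L) * P + (1 - N) * Q) ^ 3 + ((1 - L) * P + (1 - N) * Q) ^ 4)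
        + L * (1 - N) * ((1 + 877 / 1000 * (L * P)) * (1 + 877 / 1000 * ((1 - N) * Q)))
        + (1 - L) * N * ((1 + 877 / 1000 * ((1 - L) * P)) * (1 + 877 / 1000 * (N * Q)))) := by
  have h := QE.nonneg_of_check ck hL0 hL1 hN0 hN1 hP0 hP1 hQ0 hQ1
  simp only [G, eval_add, eval_mul, k, oneL, oneN, s1, s2, pi5, lin, QE.eval] at h
  push_cast at h
  ring_nf at h ⊢
  linarith

end PairIneq

/-- the geometric polynomial -/
noncomputable def pi5 (s : ℝ) : ℝ := 1 + s + s ^ 2 + s ^ 3 + s ^ 4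

theorem pi5_row {s : ℝ} (hs : 0 ≤ s) : (1 - s) * pi5 s ≤ 1 := by
  unfold pi5
  have : 0 ≤ s ^ 5 := by positivity
  nlinarith [this]

theorem pair_ineq {p q p' q' : ℝ} (hp : 0 ≤ p) (hq : 0 ≤ q) (hp' : 0 ≤ p') (hq' : 0 ≤ q')
    (hP : p + p' ≤ 1) (hQ : q + q' ≤ 1) :
    Fc (p + p') * Fc (q + q') ≤ 122 / 100 * (p * q * pi5 (p + q) + p' * q' * pi5 (p' + q')
      + Fc p * Fc q' + Fc p' * Fc q) := by
  rcases (add_nonneg hp hp').eq_or_lt with h0 | hP0
  · have e1 : p = 0 := by linarith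
    have e2 : p' = 0 := by linarith
    subst e1; subst e2
    simp [Fc]
  rcases (add_nonneg hq hq').eq_or_lt with h0 | hQ0
  · have e1 : q = 0 := by linarith
    have e2 : q' = 0 := by linarith
    subst e1; subst e2
    simp [Fc]
  have h := PairIneq.poly (L := p / (p + p')) (N := q / (q + q')) (P := p + p') (Q := q + q')
    (by positivity) (by rw [div_le_one hP0]; linarith) (by positivity)
    (by rw [div_le_one hQ0]; linarith) hP0.le hP hQ0.le hQ
  have e1 : p / (p + p') * (p + p') = p := div_mul_cancel₀ _ hP0.ne'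
  have e2 : q / (q + q') * (q + q') = q := div_mul_cancel₀ _ hQ0.ne'
  have e3 : (1 - p / (p + p')) * (p + p') = p' := by rw [sub_mul, e1]; ring
  have e4 : (1 - q / (q + q')) * (q + q') = q' := by rw [sub_mul, e2]; ring
  rw [e1, e2, e3, e4] at h
  have h2 := mul_le_mul_of_nonneg_left h (mul_nonneg hP0.le hQ0.le)
  have f1 : (p + p') * (q + q') * (122 / 100 *
      (p / (p + p') * (q / (q + q')) * (1 + (p + q) + (p + q) ^ 2 + (p + q) ^ 3 + (p + q) ^ 4)
        + (1 - p / (p + p')) * (1 - q / (q + q')) * (1 + (p' + q') + (p' + q') ^ 2 + (p' + q') ^ 3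
          + (p' + q') ^ 4)
        + p / (p + p') * (1 - q / (q + q')) * ((1 + 877 / 1000 * p) * (1 + 877 / 1000 * q'))
        + (1 - p / (p + p')) * (q / (q + q')) * ((1 + 877 / 1000 * p') * (1 + 877 / 1000 * q))))
      = 122 / 100 * ((p / (p + p') * (p + p')) * (q / (q + q') * (q + q')) * pi5 (p + q)
        + ((1 - p / (p + p')) * (p + p')) * ((1 - q / (q + q')) * (q + q')) * pi5 (p' + q')
        + (p / (p + p') * (p + p')) * ((1 - q / (q + q')) * (q + q'))
          * ((1 + 877 / 1000 * p) * (1 + 877 / 1000 * q'))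
        + ((1 - p / (p + p')) * (p + p')) * (q / (q + q') * (q + q'))
          * ((1 + 877 / 1000 * p') * (1 + 877 / 1000 * q))) := by
    unfold pi5; ring
  rw [f1, e1, e2, e3, e4] at h2
  unfold Fc
  calc _ = (p + p') * (q + q') * ((1 + 877 / 1000 * (p + p')) * (1 + 877 / 1000 * (q + q'))) := by
        ring
    _ ≤ _ := h2
    _ = _ := by ring

end Pool.Agent.RCG
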