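import Pool.Agent.RCRSHalf.Poly

/-! Reflective verification of polynomial inequalities in four variables on the unit cube
(MP_73ccd0_lc). -/

namespace Pool.Agent.RCG

open Pool.Agent.RCRSHalf.Poly

/-- polynomial expressions in four variables with rational constants -/
inductive QE where
  | c (n : ℤ) (d : ℕ)
  | A
  | B
  | C
  | D
  | add (a b : QE)
  | mul (a b : QE)

namespace QE

/-- value -/
noncomputable def eval (x y z w : ℝ) : QE → ℝ
  | c n d => (n : ℝ) / (d : ℝ)
  | A => x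
  | B => y
  | C => z
  | D => w
  | add a b => eval x y z w a + eval x y z w b
  | mul a b => eval x y z w a * eval x y z w b

/-- coefficient type -/
abbrev P4 := List (List (List (List ℤ)))

/-- operations with the subdivision depths for the variables -/
def ops (n1 n2 n3 n4 : ℕ) : Ops P4 := opsL (opsL (opsL (opsL opsZ n4) n3) n2) n1

/-- value of a coefficient array -/
noncomputable def val (x y z w : ℝ) (p : P4) : ℝ :=
  ev (fun q => ev (fun r => ev (fun s => ev (fun a : ℤ => (a : ℝ)) s w) r z) q y) p x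

theorem homQ (n1 n2 n3 n4 : ℕ) {x y z w : ℝ} (hx0 : 0 ≤ x) (hx1 : x ≤ 1) (hy0 : 0 ≤ y)
    (hy1 : y ≤ 1) (hz0 : 0 ≤ z) (hz1 : z ≤ 1) (hw0 : 0 ≤ w) (hw1 : w ≤ 1) :
    Hom (ops n1 n2 n3 n4) (val x y z w) :=
  homL (homL (homL (homL homZ n4 hw0 hw1) n3 hz0 hz1) n2 hy0 hy1) n1 hx0 hx1

/-- normal form with a common denominator -/
def norm : QE → ℕ × P4
  | c n d => match d with
    | 0 => (1, [])
    | d + 1 => (d + 1, [[[[n]]]])
  | A => (1, [[], [[[1]]]])
  | B => (1, [[[], [[1]]]])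
  | C => (1, [[[[], [1]]]])
  | D => (1, [[[[0, 1]]]])
  | add a b =>
    let p := norm a
    let q := norm b
    if p.1 = q.1 then (p.1, (ops 0 0 0 0).add p.2 q.2) else
      (p.1 * q.1, (ops 0 0 0 0).add ((ops 0 0 0 0).smul q.1 p.2) ((ops 0 0 0 0).smul p.1 q.2))
  | mul a b =>
    let p := norm a
    let q := norm b
    (p.1 * q.1, (ops 0 0 0 0).mul p.2 q.2)

theorem norm_pos (e : QE) : 0 < (norm e).1 := by
  induction e with
  | c n d => cases d <;> simp [norm]
  | A => simp [norm]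
  | B => simp [norm]
  | C => simp [norm]
  | D => simp [norm]
  | add a b iha ihb =>
    simp only [norm]
    split_ifs
    · exact iha
    · exact Nat.mul_pos iha ihb
  | mul a b iha ihb => exact Nat.mul_pos iha ihb

theorem norm_val (e : QE) {x y z w : ℝ} (hx0 : 0 ≤ x) (hx1 : x ≤ 1) (hy0 : 0 ≤ y)
    (hy1 : y ≤ 1) (hz0 : 0 ≤ z) (hz1 : z ≤ 1) (hw0 : 0 ≤ w) (hw1 : w ≤ 1) :
    val x y z w (norm e).2 = (norm e).1 * eval x y z w e := by
  have hom := homQ 0 0 0 0 hx0 hx1 hy0 hy1 hz0 hz1 hw0 hw1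
  induction e with
  | c n d =>
    cases d with
    | zero => simp [norm, val, ev, eval]
    | succ d =>
      simp only [norm, val, ev, eval]
      have : ((d + 1 : ℕ) : ℝ) ≠ 0 := by positivity
      field_simp
      ring
  | A => simp [norm, val, ev, eval]
  | B => simp [norm, val, ev, eval]
  | C => simp [norm, val, ev, eval]
  | D => simp [norm, val, ev, eval]
  | add a b iha ihb =>
    simp only [norm, eval]
    split_ifs with h
    · rw [hom.add, iha, ihb]
      rw [h]; ring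
    · rw [hom.add, hom.smul, hom.smul, iha, ihb]
      push_cast
      ring
  | mul a b iha ihb =>
    simp only [norm, eval]
    rw [hom.mul, iha, ihb]
    push_cast
    ring

/-- the nonnegativity check on the unit cube -/
def nonnegB (n1 n2 n3 n4 : ℕ) (e : QE) : Bool := (ops n1 n2 n3 n4).nn (norm e).2

theorem nonneg_of_check {n1 n2 n3 n4 : ℕ} {e : QE} (h : nonnegB n1 n2 n3 n4 e = true)
    {x y z w : ℝ} (hx0 : 0 ≤ x) (hx1 : x ≤ 1) (hy0 : 0 ≤ y)
    (hy1 : y ≤ 1) (hz0 : 0 ≤ z) (hz1 : z ≤ 1) (hw0 : 0 ≤ w) (hw1 : w ≤ 1) :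
    0 ≤ eval x y z w e := by
  have hom := homQ n1 n2 n3 n4 hx0 hx1 hy0 hy1 hz0 hz1 hw0 hw1
  have h1 := hom.nn _ h
  rw [norm_val e hx0 hx1 hy0 hy1 hz0 hz1 hw0 hw1] at h1
  have h2 : (0 : ℝ) < (norm e).1 := by exact_mod_cast norm_pos e
  exact nonneg_of_mul_nonneg_right h1 h2

end QE

end Pool.Agent.RCG
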