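import Pool.Agent.RCG.MTarD
import Pool.Agent.RCG.GamF

/-! Small edges: sup data of the targets (MP_73ccd0_lc, general graphs, edge values at most `1/100`). -/

namespace Pool.Agent.RCG

open Set Finset Matrix Pool.Agent.RCRSHalf

set_option linter.unusedSectionVars false

variable {V : Type*} [Fintype V] [DecidableEq V]
variable {h : ℝ → V → V → ℝ} {H : V → V → ℝ → ℝ} {X : V → V → ℝ} {M μ : ℝ → ℝ} {t : ℝ}

theorem good1s : Good (151 / 1000) (1111 / 1000) (745 / 10000) (101 / 10000) (23 / 20) :=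
  good_aux2 (Y := 19 / 10000) (by norm_num) (by norm_num) (by norm_num) (by norm_num)
    (by norm_num) (by norm_num) (by norm_num) (by norm_num) (by norm_num) (by norm_num)
    (by norm_num) (by norm_num)

theorem Fc_s {x : ℝ} (hx0 : 0 ≤ x) (hx1 : x ≤ 1 / 100) : Fc x ≤ 100877 / 100000 * x := by
  unfold Fc; nlinarith

theorem AF_s (hX : Wt X) (hδ : ∀ a b, X a b ≤ 1 / 100) (H0 : Finset V) (w a : V) :
    (rm X H0 *ᵥ fun b => Fc (X w b)) a ≤ 101 / 10000 := by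
  rw [mulVec_eq_sum]
  calc ∑ b, rm X H0 a b * Fc (X w b)
      ≤ ∑ b, 1 / 100 * (100877 / 100000 * X w b) := by
        refine Finset.sum_le_sum fun b _ => ?_
        have h1 : rm X H0 a b ≤ 1 / 100 := (hX.rm_le H0 a b).trans (hδ a b)
        have h2 := Fc_s (hX.nonneg w b) (hδ w b)
        have h3 := hX.rm_nonneg H0 a b
        have h4 := Fc_nonneg (hX.nonneg w b)
        exact mul_le_mul h1 h2 h4 (by norm_num)
    _ = 100877 / 10000000 * ∑ b, X w b := by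
        rw [Finset.mul_sum]
        exact Finset.sum_congr rfl fun b _ => by ring
    _ ≤ 101 / 10000 := by have := hX.row w; nlinarith

theorem Nt_s (hX : Wt X) (hδ : ∀ a b, X a b ≤ 1 / 100) (H0 : Finset V) (w : V) {m : ℝ}
    (hm : m ∈ Icc (0 : ℝ) (23 / 20)) (a : V) : Nt X H0 w m a ≤ 63 / 10000 * m ^ 2 :=
  (Nw_le _ _ _ _ good1s (hX.rm_nonneg H0) (hX.rm_row H0) (fun b => Fc_nonneg (hX.nonneg w b))
    (AF_s hX hδ H0 w) hm a).trans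
    (poly_sup2 (by norm_num) (by norm_num) (by norm_num) (by norm_num) hm (by norm_num))

theorem Yt_s (hX : Wt X) (hδ : ∀ a b, X a b ≤ 1 / 100) (H0 : Finset V) (w : V) {m : ℝ}
    (hm : m ∈ Icc (0 : ℝ) (23 / 20)) (a : V) : Yt X H0 w m a ≤ 19 / 10000 * m ^ 3 :=
  (Yw_le good1s (hX.rm_nonneg H0) (hX.rm_row H0) (fun b => Fc_nonneg (hX.nonneg w b))
    (AF_s hX hδ H0 w) hm a).trans
    (poly_sup3 (by norm_num) (by norm_num) (by norm_num) (by norm_num) hm (by norm_num))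

theorem sum_A_le (hX : Wt X) (H0 : Finset V) {f : V → ℝ} (hf : ∀ a, 0 ≤ f a) :
    ∑ a, (rm X H0 *ᵥ f) a ≤ ∑ a, f a := by
  have h1 := sum_A hX H0 (fun _ => 1) f
  simp only [one_mul] at h1
  rw [h1]
  refine Finset.sum_le_sum fun a _ => ?_
  have := hX.rm_row H0 a
  nlinarith [hf a]

theorem sum_Rh (hX : Wt X) (hδ : ∀ a b, X a b ≤ 1 / 100) (H0 : Finset V) (w : V) :
    ∑ a, Rh X H0 w a ≤ 116 / 100 := by
  have hA := hX.rm_nonneg H0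
  have hr := hX.rm_row H0
  have hF : ∀ b, 0 ≤ Fc (X w b) := fun b => Fc_nonneg (hX.nonneg w b)
  have hR := Rh_nonneg hX H0 w
  have e : ∀ a, Rh X H0 w a = Fc (X w a) + 13 / 100 * (rm X H0 *ᵥ (rm X H0 *ᵥ Rh X H0 w)) a :=
    fun a => Res_sq (by norm_num) (by norm_num) hA hr hF a
  have h1 : ∑ a, Rh X H0 w a = ∑ a, Fc (X w a)
      + 13 / 100 * ∑ a, (rm X H0 *ᵥ (rm X H0 *ᵥ Rh X H0 w)) a := by
    rw [Finset.mul_sum, ← Finset.sum_add_distrib]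
    exact Finset.sum_congr rfl fun a _ => e a
  have h2 : ∑ a, (rm X H0 *ᵥ (rm X H0 *ᵥ Rh X H0 w)) a ≤ ∑ a, Rh X H0 w a :=
    (sum_A_le hX H0 (fun a => mulVec_nonneg hA hR a)).trans (sum_A_le hX H0 hR)
  have h3 : ∑ a, Fc (X w a) ≤ 100877 / 100000 := by
    calc ∑ a, Fc (X w a) ≤ ∑ a, 100877 / 100000 * X w a :=
          Finset.sum_le_sum fun a _ => Fc_s (hX.nonneg w a) (hδ w a)
      _ = 100877 / 100000 * ∑ a, X w a := by rw [Finset.mul_sum]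
      _ ≤ _ := by have := hX.row w; nlinarith
  linarith

theorem b2_s {m : ℝ} (hm : m ∈ Icc (0 : ℝ) (213 / 200)) :
    b2 (151 / 1000) m ≤ 5365 / 10000 * m ^ 2 := by
  unfold b2
  have h1 : m ^ 3 ≤ (213 / 200) ^ 3 := pow_le_pow_left₀ hm.1 hm.2 3
  nlinarith [mul_le_mul_of_nonneg_left h1 (pow_nonneg hm.1 2)]

theorem g3_s {m : ℝ} (hm : m ∈ Icc (0 : ℝ) (213 / 200)) :
    g3 (151 / 1000) m ≤ 1728 / 10000 * m ^ 3 := by
  unfold g3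
  have h1 : m ^ 3 ≤ (213 / 200) ^ 3 := pow_le_pow_left₀ hm.1 hm.2 3
  nlinarith [mul_le_mul_of_nonneg_left h1 (pow_nonneg hm.1 3)]

theorem sum_Nt (hX : Wt X) (hδ : ∀ a b, X a b ≤ 1 / 100) (H0 : Finset V) (w : V) {m : ℝ}
    (hm : m ∈ Icc (0 : ℝ) (213 / 200)) : ∑ a, Nt X H0 w m a ≤ 6224 / 10000 * m ^ 2 := by
  have hm' : m ∈ Icc (0 : ℝ) (23 / 20) := ⟨hm.1, hm.2.trans (by norm_num)⟩
  have hR := Rh_nonneg hX H0 w
  have h0 : 0 ≤ ∑ a, Rh X H0 w a := Finset.sum_nonneg fun a _ => hR a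
  have h1 := (sum_A_le hX H0 hR).trans (sum_Rh hX hδ H0 w)
  have h2 := b2_s hm
  have h3 : 0 ≤ ∑ a, (rm X H0 *ᵥ Rh X H0 w) a :=
    Finset.sum_nonneg fun a _ => mulVec_nonneg (hX.rm_nonneg H0) hR a
  calc ∑ a, Nt X H0 w m a ≤ ∑ a, b2 (151 / 1000) m * (rm X H0 *ᵥ Rh X H0 w) a :=
        Finset.sum_le_sum fun a _ => Nt_le hX H0 w hm' a
    _ = b2 (151 / 1000) m * ∑ a, (rm X H0 *ᵥ Rh X H0 w) a := by rw [Finset.mul_sum]
    _ ≤ (5365 / 10000 * m ^ 2) * (116 / 100) := by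
        exact mul_le_mul h2 h1 h3 (by positivity)
    _ ≤ _ := by nlinarith [sq_nonneg m]

theorem sum_Yt (hX : Wt X) (hδ : ∀ a b, X a b ≤ 1 / 100) (H0 : Finset V) (w : V) {m : ℝ}
    (hm : m ∈ Icc (0 : ℝ) (213 / 200)) : ∑ a, Yt X H0 w m a ≤ 2005 / 10000 * m ^ 3 := by
  have hm' : m ∈ Icc (0 : ℝ) (23 / 20) := ⟨hm.1, hm.2.trans (by norm_num)⟩
  have hA := hX.rm_nonneg H0
  have hR := Rh_nonneg hX H0 w
  have h1 := (sum_A_le hX H0 (fun a => mulVec_nonneg hA hR a)).trans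
    ((sum_A_le hX H0 hR).trans (sum_Rh hX hδ H0 w))
  have h2 := g3_s hm
  have h3 : 0 ≤ ∑ a, (rm X H0 *ᵥ (rm X H0 *ᵥ Rh X H0 w)) a :=
    Finset.sum_nonneg fun a _ => mulVec_nonneg hA (fun b => mulVec_nonneg hA hR b) a
  calc ∑ a, Yt X H0 w m a ≤ ∑ a, g3 (151 / 1000) m * (rm X H0 *ᵥ (rm X H0 *ᵥ Rh X H0 w)) a :=
        Finset.sum_le_sum fun a _ => Yt_le hX H0 w hm' a
    _ = g3 (151 / 1000) m * ∑ a, (rm X H0 *ᵥ (rm X H0 *ᵥ Rh X H0 w)) a := by rw [Finset.mul_sum]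
    _ ≤ (1728 / 10000 * m ^ 3) * (116 / 100) := by
        have := pow_nonneg hm.1 3
        exact mul_le_mul h2 h1 h3 (by positivity)
    _ ≤ _ := by nlinarith [pow_nonneg hm.1 3]

/-- data of a target at horizon at most `m` -/
structure TD (H0 : Finset V) (m : ℝ) (P N ξ : V → ℝ) : Prop where
  P0 : ∀ a ∈ H0, 0 ≤ P a
  Pe : ∀ a ∈ H0, 1 + P a ≤ Real.exp (ξ a)
  x0 : ∀ a ∈ H0, 0 ≤ ξ a
  xs : ∀ a ∈ H0, ξ a ≤ 1216 / 100000 * m
  xm : ∑ a ∈ H0, ξ a ≤ 1228 / 1000 * m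
  N0 : ∀ a ∈ H0, 0 ≤ N a
  Ns : ∀ a ∈ H0, N a ≤ 63 / 10000 * m ^ 2
  Nm : ∑ a ∈ H0, N a ≤ 6224 / 10000 * m ^ 2

theorem TD.sub {H0 H1 : Finset V} {m : ℝ} {P N ξ : V → ℝ} (hT : TD H0 m P N ξ) (h1 : H1 ⊆ H0) :
    TD H1 m P N ξ where
  P0 a ha := hT.P0 a (h1 ha)
  Pe a ha := hT.Pe a (h1 ha)
  x0 a ha := hT.x0 a (h1 ha)
  xs a ha := hT.xs a (h1 ha)
  xm := (Finset.sum_le_sum_of_subset_of_nonneg h1 fun a ha _ => hT.x0 a ha).trans hT.xm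
  N0 a ha := hT.N0 a (h1 ha)
  Ns a ha := hT.Ns a (h1 ha)
  Nm := (Finset.sum_le_sum_of_subset_of_nonneg h1 fun a ha _ => hT.N0 a ha).trans hT.Nm

theorem Cx.td (hC : Cx h H X M μ t) (hδ : ∀ a b, X a b ≤ 1 / 100) (hM : M t ≤ 213 / 200)
    {H0 : Finset V} {w : V} (hw : w ∉ H0) {T r : ℝ} (hT : T ∈ Icc 0 t) (hr : r ∈ Icc 0 T) :
    TD H0 (M t - M r) (fun a => Pt H X M H0 w T a r) (fun a => Nt X H0 w (M T - M r) a)
      (fun a => (M T - M r) * X w a + Yt X H0 w (M T - M r) a) := by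
  have hX := hC.hX
  have hrt : r ∈ Icc 0 t := ⟨hr.1, hr.2.trans hT.2⟩
  have hm0 : 0 ≤ M T - M r := by have := hC.mono hT r hr; linarith
  have hTt : M T ≤ M t := hC.mono ⟨hC.t0, le_rfl⟩ T hT
  have hmm : M T - M r ≤ M t - M r := by linarith
  have hr0 := hC.Mnn hrt
  have hm1 : M t - M r ≤ 213 / 200 := by linarith
  have hmI : M T - M r ∈ Icc (0 : ℝ) (213 / 200) := ⟨hm0, hmm.trans hm1⟩
  have hmI' : M T - M r ∈ Icc (0 : ℝ) (23 / 20) := ⟨hm0, hmI.2.trans (by norm_num)⟩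
  have hclo := hC.clo hT hw
  have hY0 : ∀ a, 0 ≤ Yt X H0 w (M T - M r) a := fun a => Yt_nonneg hX H0 w hmI' a
  obtain ⟨m, hm⟩ : ∃ m, m = M T - M r := ⟨_, rfl⟩
  obtain ⟨m', hm'⟩ : ∃ m', m' = M t - M r := ⟨_, rfl⟩
  rw [← hm] at hm0 hmm hmI hmI' hY0 ⊢
  rw [← hm'] at hmm hm1 ⊢
  have hm'0 : 0 ≤ m' := hm0.trans hmm
  have q2 : m ^ 2 ≤ m' ^ 2 := pow_le_pow_left₀ hm0 hmm 2
  have q3 : m ^ 3 ≤ m' ^ 3 := pow_le_pow_left₀ hm0 hmm 3
  have q2' : m' ^ 2 ≤ (213 / 200) ^ 2 := pow_le_pow_left₀ hm'0 hm1 2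
  have q3' : m' ^ 3 ≤ (213 / 200) ^ 2 * m' := by nlinarith
  refine ⟨fun a ha => hclo.P0 a ha r hr, fun a ha => ?_, fun a ha => ?_, fun a ha => ?_, ?_,
    fun a ha => ?_, fun a ha => ?_, ?_⟩
  · unfold Pt
    have := hC.dH w a hr.1 hr.2 hT.2
    rw [← hm] at this
    simp only [add_sub_cancel]
    rw [Real.exp_le_exp, ← hm]
    linarith
  · have := hX.nonneg w a
    exact add_nonneg (mul_nonneg hm0 this) (hY0 a)
  · have h1 := Yt_s hX hδ H0 w hmI' a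
    have h2 : m * X w a ≤ m' * (1 / 100) := mul_le_mul hmm (hδ w a) (hX.nonneg w a) hm'0
    show m * X w a + Yt X H0 w m a ≤ _
    nlinarith
  · show ∑ a ∈ H0, (m * X w a + Yt X H0 w m a) ≤ _
    rw [Finset.sum_add_distrib, ← Finset.mul_sum]
    have h1 : ∑ a ∈ H0, Yt X H0 w m a ≤ 2005 / 10000 * m ^ 3 :=
      (Finset.sum_le_sum_of_subset_of_nonneg (Finset.subset_univ H0) fun a _ _ => hY0 a).trans
        (sum_Yt hX hδ H0 w hmI)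
    have h2 : m * ∑ a ∈ H0, X w a ≤ m' * 1 :=
      mul_le_mul hmm (hX.row_le w H0) (Finset.sum_nonneg fun a _ => hX.nonneg w a) hm'0
    nlinarith
  · exact Nt_nonneg hX H0 w hmI' a
  · have h1 := Nt_s hX hδ H0 w hmI' a
    show Nt X H0 w m a ≤ _
    nlinarith
  · have h1 : ∑ a ∈ H0, Nt X H0 w m a ≤ 6224 / 10000 * m ^ 2 :=
      (Finset.sum_le_sum_of_subset_of_nonneg (Finset.subset_univ H0)
        fun a _ _ => Nt_nonneg hX H0 w hmI' a).trans (sum_Nt hX hδ H0 w hmI)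
    show ∑ a ∈ H0, Nt X H0 w m a ≤ _
    nlinarith

end Pool.Agent.RCG
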