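import Pool.Agent.RCG.S1A

/-! Small edges: the rates and the exponents of the comparisons (MP_73ccd0_lc). -/

namespace Pool.Agent.RCG

open Set Finset Matrix Pool.Agent.RCRSHalf

set_option linter.unusedSectionVars false

variable {V : Type*} [Fintype V] [DecidableEq V]
variable {h : ℝ → V → V → ℝ} {H : V → V → ℝ → ℝ} {X : V → V → ℝ} {M μ : ℝ → ℝ} {t : ℝ}

theorem exp_s {z : ℝ} (h0 : 0 ≤ z) (h1 : z ≤ 65 / 1000) :
    Real.exp z ≤ 1 + z * (1 + z / 2 + z ^ 2 / 5) := by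
  have := exp_u h0 (h1.trans (by norm_num))
  nlinarith [pow_nonneg h0 3, pow_nonneg h0 2]

theorem rate_s (hX : Wt X) {n : ℝ} (hn : 2 ≤ n) (hn5 : n ≤ 5) {ι : Type*} [DecidableEq ι]
    {W : Finset ι} (hcard : (W.card : ℝ) = n) {h : V → V → ℝ} {μ : ℝ} (hμ : 0 ≤ μ)
    (hh0 : ∀ a b, 0 ≤ h a b) (hh : ∀ a b, h a b ≤ μ * X a b) {H0 : Finset V} {m : ℝ}
    (hm : m ∈ Icc (0 : ℝ) (213 / 200)) {P N ξ : ι → V → ℝ}
    (hT : ∀ i ∈ W, TD H0 m (P i) (N i) (ξ i)) :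
    (1 / 2) * ∑ a ∈ H0, ∑ b ∈ H0, h a b *
      GUp W (fun i => (1 + P i a) * (1 + P i b) - 1) (fun i => N i a + N i b)
      ≤ μ * (n * (n - 1) * (205 / 10000) * m ^ 2) := by
  refine (kupR_le hX hn W hcard hh0 hh (x := ξ) (fun i hi => (hT i hi).P0)
    (fun i hi => (hT i hi).x0) (fun i hi => (hT i hi).Pe)).trans ?_
  refine mul_le_mul_of_nonneg_left ?_ hμ
  have hn0 : 0 < n := by linarith
  obtain ⟨hm0, hm1⟩ := hm
  have key : ∀ a ∈ H0, rho X H0 a * ((Real.exp (∑ i ∈ W, ξ i a) - 1) ^ 2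
        + (∑ i ∈ W, N i a) ^ 2)
      ≤ n * (1301 / 100000 * m) * (∑ i ∈ W, ξ i a) + n * (63 / 10000 * m ^ 2) * ∑ i ∈ W, N i a := by
    intro a ha
    have hρ1 := rho_le_one hX H0 a
    have hρ0 := rho_nonneg hX H0 a
    have z0 : 0 ≤ ∑ i ∈ W, ξ i a := Finset.sum_nonneg fun i hi => (hT i hi).x0 a ha
    have n0 : 0 ≤ ∑ i ∈ W, N i a := Finset.sum_nonneg fun i hi => (hT i hi).N0 a ha
    have z1 : ∑ i ∈ W, ξ i a ≤ n * (1216 / 100000 * m) := by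
      rw [← hcard, ← nsmul_eq_mul]
      exact Finset.sum_le_card_nsmul _ _ _ fun i hi => (hT i hi).xs a ha
    have n1 : ∑ i ∈ W, N i a ≤ n * (63 / 10000 * m ^ 2) := by
      rw [← hcard, ← nsmul_eq_mul]
      exact Finset.sum_le_card_nsmul _ _ _ fun i hi => (hT i hi).Ns a ha
    obtain ⟨z, hz⟩ : ∃ z, z = ∑ i ∈ W, ξ i a := ⟨_, rfl⟩
    obtain ⟨y, hy⟩ : ∃ y, y = ∑ i ∈ W, N i a := ⟨_, rfl⟩
    rw [← hz] at z0 z1 ⊢
    rw [← hy] at n0 n1 ⊢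
    have z2 : z ≤ 65 / 1000 := by nlinarith
    have he := exp_s z0 z2
    have he1 : Real.exp z - 1 ≤ 1034 / 1000 * z := by nlinarith [sq_nonneg z]
    have he0 : 0 ≤ Real.exp z - 1 := by have := Real.add_one_le_exp z; linarith
    have e2 : (Real.exp z - 1) ^ 2 ≤ (1034 / 1000 * z) ^ 2 := pow_le_pow_left₀ he0 he1 2
    have e3 : (1034 / 1000 * z) ^ 2 ≤ n * (1301 / 100000 * m) * z := by
      have : z * z ≤ n * (1216 / 100000 * m) * z := mul_le_mul_of_nonneg_right z1 z0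
      have h5 : 0 ≤ n * m * z := by positivity
      nlinarith
    have e4 : y ^ 2 ≤ n * (63 / 10000 * m ^ 2) * y := by nlinarith
    calc rho X H0 a * ((Real.exp z - 1) ^ 2 + y ^ 2) ≤ 1 * ((Real.exp z - 1) ^ 2 + y ^ 2) :=
          mul_le_mul_of_nonneg_right hρ1 (by positivity)
      _ ≤ _ := by linarith
  have s1 : ∑ a ∈ H0, ∑ i ∈ W, ξ i a ≤ n * (1228 / 1000 * m) := by
    rw [Finset.sum_comm, ← hcard, ← nsmul_eq_mul]
    exact Finset.sum_le_card_nsmul _ _ _ fun i hi => (hT i hi).xm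
  have s2 : ∑ a ∈ H0, ∑ i ∈ W, N i a ≤ n * (6224 / 10000 * m ^ 2) := by
    rw [Finset.sum_comm, ← hcard, ← nsmul_eq_mul]
    exact Finset.sum_le_card_nsmul _ _ _ fun i hi => (hT i hi).Nm
  have s3 : ∑ a ∈ H0, rho X H0 a * ((Real.exp (∑ i ∈ W, ξ i a) - 1) ^ 2
        + (∑ i ∈ W, N i a) ^ 2) ≤ n ^ 2 * (205 / 10000 * m ^ 2) := by
    refine (Finset.sum_le_sum key).trans ?_
    rw [Finset.sum_add_distrib, ← Finset.mul_sum, ← Finset.mul_sum]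
    have a1 : n * (1301 / 100000 * m) * ∑ a ∈ H0, ∑ i ∈ W, ξ i a
        ≤ n * (1301 / 100000 * m) * (n * (1228 / 1000 * m)) :=
      mul_le_mul_of_nonneg_left s1 (by positivity)
    have a2 : n * (63 / 10000 * m ^ 2) * ∑ a ∈ H0, ∑ i ∈ W, N i a
        ≤ n * (63 / 10000 * m ^ 2) * (n * (6224 / 10000 * m ^ 2)) :=
      mul_le_mul_of_nonneg_left s2 (by positivity)
    have a3 : m ^ 2 ≤ (213 / 200) ^ 2 := pow_le_pow_left₀ hm0 hm1 2
    have a4 : n ^ 2 * m ^ 2 * m ^ 2 ≤ n ^ 2 * m ^ 2 * (213 / 200) ^ 2 :=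
      mul_le_mul_of_nonneg_left a3 (by positivity)
    nlinarith [mul_nonneg (sq_nonneg n) (sq_nonneg m)]
  have h1n : 0 ≤ 1 - 1 / n := by
    have : 1 / n ≤ 1 := by rw [div_le_one hn0]; linarith
    linarith
  calc (1 - 1 / n) * ∑ a ∈ H0, rho X H0 a * ((Real.exp (∑ i ∈ W, ξ i a) - 1) ^ 2
        + (∑ i ∈ W, N i a) ^ 2)
      ≤ (1 - 1 / n) * (n ^ 2 * (205 / 10000 * m ^ 2)) := mul_le_mul_of_nonneg_left s3 h1n
    _ = n * (n - 1) * (205 / 10000) * m ^ 2 := by field_simp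

section fin

variable {h : V → V → ℝ} {H0 : Finset V} {P1 N1 P2 N2 P3 N3 P4 N4 P5 N5 : V → ℝ}
  {x1 x2 x3 x4 x5 : V → ℝ} {μ m : ℝ}

theorem ru2_s (hX : Wt X) (hμ : 0 ≤ μ) (hh0 : ∀ a b, 0 ≤ h a b)
    (hh : ∀ a b, h a b ≤ μ * X a b) (hm : m ∈ Icc (0 : ℝ) (213 / 200))
    (h1 : TD H0 m P1 N1 x1) (h2 : TD H0 m P2 N2 x2) :
    ru2 h H0 P1 N1 P2 N2 ≤ μ * (41 / 1000 * m ^ 2) := by
  have key := rate_s (ι := Fin 2) (n := 2) hX le_rfl (by norm_num) (W := {0, 1}) (by norm_num) hμ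
    hh0 hh hm (H0 := H0) (P := ![P1, P2]) (N := ![N1, N2]) (ξ := ![x1, x2]) (by
      intro i _
      fin_cases i
      · exact h1
      · exact h2)
  refine le_trans (le_of_eq ?_) (key.trans (le_of_eq (by ring)))
  unfold ru2 k2R
  congr 1
  refine Finset.sum_congr rfl fun a _ => Finset.sum_congr rfl fun b _ => ?_
  congr 1
  have e : ({0, 1} : Finset (Fin 2)) = insert 0 {1} := rfl
  rw [e, GUp_insert _ (by decide)]
  simp [GUp]

theorem ru3_s (hX : Wt X) (hμ : 0 ≤ μ) (hh0 : ∀ a b, 0 ≤ h a b)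
    (hh : ∀ a b, h a b ≤ μ * X a b) (hm : m ∈ Icc (0 : ℝ) (213 / 200))
    (h1 : TD H0 m P1 N1 x1) (h2 : TD H0 m P2 N2 x2) (h3 : TD H0 m P3 N3 x3) :
    ru3 h H0 P1 N1 P2 N2 P3 N3 ≤ μ * (123 / 1000 * m ^ 2) := by
  have key := rate_s (ι := Fin 3) (n := 3) hX (by norm_num) (by norm_num) (W := {0, 1, 2})
    (by rw [show ({0, 1, 2} : Finset (Fin 3)).card = 3 from rfl]; norm_num) hμ
    hh0 hh hm (H0 := H0) (P := ![P1, P2, P3]) (N := ![N1, N2, N3]) (ξ := ![x1, x2, x3]) (by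
      intro i _
      fin_cases i
      · exact h1
      · exact h2
      · exact h3)
  refine le_trans (le_of_eq ?_) (key.trans (le_of_eq (by ring)))
  unfold ru3
  congr 1
  refine Finset.sum_congr rfl fun a _ => Finset.sum_congr rfl fun b _ => ?_
  congr 1
  rw [GUp_three (by decide) (by decide) (by decide)]
  rfl

theorem ru5_s (hX : Wt X) (hμ : 0 ≤ μ) (hh0 : ∀ a b, 0 ≤ h a b)
    (hh : ∀ a b, h a b ≤ μ * X a b) (hm : m ∈ Icc (0 : ℝ) (213 / 200))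
    (h1 : TD H0 m P1 N1 x1) (h2 : TD H0 m P2 N2 x2) (h3 : TD H0 m P3 N3 x3)
    (h4 : TD H0 m P4 N4 x4) (h5 : TD H0 m P5 N5 x5) :
    ru5 h H0 P1 N1 P2 N2 P3 N3 P4 N4 P5 N5 ≤ μ * (41 / 100 * m ^ 2) := by
  have key := rate_s (ι := Fin 5) (n := 5) hX (by norm_num) (by norm_num) (W := {0, 1, 2, 3, 4})
    (by rw [show ({0, 1, 2, 3, 4} : Finset (Fin 5)).card = 5 from rfl]; norm_num) hμ
    hh0 hh hm (H0 := H0) (P := ![P1, P2, P3, P4, P5]) (N := ![N1, N2, N3, N4, N5])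
    (ξ := ![x1, x2, x3, x4, x5]) (by
      intro i _
      fin_cases i
      · exact h1
      · exact h2
      · exact h3
      · exact h4
      · exact h5)
  refine le_trans (le_of_eq ?_) (key.trans (le_of_eq (by ring)))
  unfold ru5
  congr 1
  refine Finset.sum_congr rfl fun a _ => Finset.sum_congr rfl fun b _ => ?_
  congr 1
  rw [GUp_five (by decide) (by decide) (by decide) (by decide) (by decide) (by decide)
    (by decide) (by decide) (by decide) (by decide)]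
  rfl

theorem ext_s (hX : Wt X) (hμ : 0 ≤ μ) (hh : ∀ a b, h a b ≤ μ * X a b)
    (hm : m ∈ Icc (0 : ℝ) (213 / 200))
    (h1 : TD H0 m P1 N1 x1) (h2 : TD H0 m P2 N2 x2) (h3 : TD H0 m P3 N3 x3) (b : V) :
    ∑ d ∈ H0, h b d * ((1 + P1 d) * (1 + P2 d) * (1 + P3 d) - 1) ≤ μ * (372 / 10000 * m) := by
  obtain ⟨hm0, hm1⟩ := hm
  have key : ∀ d ∈ H0, h b d * ((1 + P1 d) * (1 + P2 d) * (1 + P3 d) - 1)
      ≤ (μ * (372 / 10000 * m)) * X b d := by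
    intro d hd
    have a1 := h1.P0 d hd
    have a2 := h2.P0 d hd
    have a3 := h3.P0 d hd
    have p1 : (1 + P1 d) * (1 + P2 d) ≤ Real.exp (x1 d) * Real.exp (x2 d) :=
      mul_le_mul (h1.Pe d hd) (h2.Pe d hd) (by linarith) (Real.exp_pos _).le
    have p2 : (1 + P1 d) * (1 + P2 d) * (1 + P3 d)
        ≤ Real.exp (x1 d) * Real.exp (x2 d) * Real.exp (x3 d) :=
      mul_le_mul p1 (h3.Pe d hd) (by linarith) (by positivity)
    rw [← Real.exp_add, ← Real.exp_add] at p2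
    have z0 : 0 ≤ x1 d + x2 d + x3 d := by
      have := h1.x0 d hd
      have := h2.x0 d hd
      have := h3.x0 d hd
      linarith
    have z1 : x1 d + x2 d + x3 d ≤ 3648 / 100000 * m := by
      have := h1.xs d hd
      have := h2.xs d hd
      have := h3.xs d hd
      linarith
    obtain ⟨z, hz⟩ : ∃ z, z = x1 d + x2 d + x3 d := ⟨_, rfl⟩
    rw [← hz] at z0 z1 p2
    have he := exp_s z0 (by nlinarith)
    have z2 : z ≤ 389 / 10000 := by nlinarith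
    have e1 : (1 + P1 d) * (1 + P2 d) * (1 + P3 d) - 1 ≤ 372 / 10000 * m := by
      nlinarith [sq_nonneg z]
    have e0 : 0 ≤ (1 + P1 d) * (1 + P2 d) * (1 + P3 d) - 1 := by
      nlinarith [mul_nonneg a1 a2, mul_nonneg (add_nonneg a1 a2) a3,
        mul_nonneg (mul_nonneg a1 a2) a3]
    calc h b d * ((1 + P1 d) * (1 + P2 d) * (1 + P3 d) - 1)
        ≤ (μ * X b d) * (372 / 10000 * m) := by
          have := hX.nonneg b d
          exact mul_le_mul (hh b d) e1 e0 (by positivity)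
      _ = _ := by ring
  refine (Finset.sum_le_sum key).trans ?_
  rw [← Finset.mul_sum]
  have := hX.row_le b H0
  have h0 : 0 ≤ μ * (372 / 10000 * m) := by positivity
  nlinarith

theorem rl2_s (hX : Wt X) (hμ : 0 ≤ μ)
    (hh : ∀ a b, h a b ≤ μ * X a b) (hm : m ∈ Icc (0 : ℝ) (213 / 200))
    (h1 : TD H0 m P1 N1 x1) (h2 : TD H0 m P2 N2 x2) :
    rl2 h H0 P1 N1 P2 N2 ≤ μ * (314 / 10000 * m ^ 3) := by
  obtain ⟨hm0, hm1⟩ := hm
  have pe : ∀ {P N x : V → ℝ}, TD H0 m P N x → ∀ a ∈ H0, ∀ b ∈ H0,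
      (1 + P a) * (1 + P b) - 1 ≤ 1014 / 1000 * (x a + x b) ∧ 0 ≤ (1 + P a) * (1 + P b) - 1 ∧
      N a + N b ≤ 126 / 10000 * m ^ 2 ∧ 0 ≤ N a + N b := by
    intro P N x hT a ha b hb
    have a1 := hT.P0 a ha
    have a2 := hT.P0 b hb
    have p1 : (1 + P a) * (1 + P b) ≤ Real.exp (x a) * Real.exp (x b) :=
      mul_le_mul (hT.Pe a ha) (hT.Pe b hb) (by linarith) (Real.exp_pos _).le
    rw [← Real.exp_add] at p1
    have z0 : 0 ≤ x a + x b := add_nonneg (hT.x0 a ha) (hT.x0 b hb)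
    have z1 : x a + x b ≤ 2432 / 100000 * m := by
      have := hT.xs a ha
      have := hT.xs b hb
      linarith
    obtain ⟨z, hz⟩ : ∃ z, z = x a + x b := ⟨_, rfl⟩
    rw [← hz] at z0 z1 p1 ⊢
    have he := exp_s z0 (by nlinarith)
    have z2 : z ≤ 26 / 1000 := by nlinarith
    refine ⟨by nlinarith [sq_nonneg z], by nlinarith [mul_nonneg a1 a2], ?_,
      add_nonneg (hT.N0 a ha) (hT.N0 b hb)⟩
    have := hT.Ns a ha
    have := hT.Ns b hb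
    linarith
  have key : ∀ a ∈ H0, ∀ b ∈ H0, h a b *
        ((N1 a + N1 b) * ((1 + P2 a) * (1 + P2 b) - 1)
          + (N2 a + N2 b) * ((1 + P1 a) * (1 + P1 b) - 1))
      ≤ (μ * (1278 / 100000 * m ^ 2)) * (X a b * (x1 a + x2 a) + X a b * (x1 b + x2 b)) := by
    intro a ha b hb
    obtain ⟨c1, c2, c3, c4⟩ := pe h1 a ha b hb
    obtain ⟨d1, d2, d3, d4⟩ := pe h2 a ha b hb
    have e1 : (N1 a + N1 b) * ((1 + P2 a) * (1 + P2 b) - 1)
        ≤ (126 / 10000 * m ^ 2) * (1014 / 1000 * (x2 a + x2 b)) :=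
      mul_le_mul c3 d1 d2 (by positivity)
    have e2 : (N2 a + N2 b) * ((1 + P1 a) * (1 + P1 b) - 1)
        ≤ (126 / 10000 * m ^ 2) * (1014 / 1000 * (x1 a + x1 b)) :=
      mul_le_mul d3 c1 c2 (by positivity)
    have e3 : 0 ≤ (N1 a + N1 b) * ((1 + P2 a) * (1 + P2 b) - 1)
          + (N2 a + N2 b) * ((1 + P1 a) * (1 + P1 b) - 1) :=
      add_nonneg (mul_nonneg c4 d2) (mul_nonneg d4 c2)
    have e5 : 0 ≤ x1 a + x1 b + (x2 a + x2 b) := by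
      have := h1.x0 a ha
      have := h1.x0 b hb
      have := h2.x0 a ha
      have := h2.x0 b hb
      linarith
    have e4 : (N1 a + N1 b) * ((1 + P2 a) * (1 + P2 b) - 1)
          + (N2 a + N2 b) * ((1 + P1 a) * (1 + P1 b) - 1)
        ≤ (1278 / 100000 * m ^ 2) * (x1 a + x1 b + (x2 a + x2 b)) := by
      nlinarith [mul_nonneg (sq_nonneg m) e5]
    have hX0 := hX.nonneg a b
    calc h a b * ((N1 a + N1 b) * ((1 + P2 a) * (1 + P2 b) - 1)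
          + (N2 a + N2 b) * ((1 + P1 a) * (1 + P1 b) - 1))
        ≤ (μ * X a b) * ((1278 / 100000 * m ^ 2) * (x1 a + x1 b + (x2 a + x2 b))) :=
          mul_le_mul (hh a b) e4 e3 (by positivity)
      _ = _ := by ring
  have hs : ∑ a ∈ H0, ∑ b ∈ H0, (X a b * (x1 a + x2 a) + X a b * (x1 b + x2 b))
      ≤ 4 * (1228 / 1000 * m) := by
    have g0 : ∀ a ∈ H0, 0 ≤ x1 a + x2 a := fun a ha => add_nonneg (h1.x0 a ha) (h2.x0 a ha)
    have g1 : ∑ a ∈ H0, (x1 a + x2 a) ≤ 2 * (1228 / 1000 * m) := by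
      rw [Finset.sum_add_distrib]
      linarith [h1.xm, h2.xm]
    have g2 : ∑ a ∈ H0, ∑ b ∈ H0, X a b * (x1 a + x2 a) ≤ ∑ a ∈ H0, (x1 a + x2 a) := by
      refine Finset.sum_le_sum fun a ha => ?_
      rw [← Finset.sum_mul]
      have := hX.row_le a H0
      nlinarith [g0 a ha]
    have g3 : ∑ a ∈ H0, ∑ b ∈ H0, X a b * (x1 b + x2 b) ≤ ∑ a ∈ H0, (x1 a + x2 a) := by
      rw [Finset.sum_comm]
      refine Finset.sum_le_sum fun b hb => ?_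
      rw [← Finset.sum_mul]
      have : ∑ a ∈ H0, X a b ≤ 1 := by
        have := hX.row_le b H0
        refine le_trans (le_of_eq (Finset.sum_congr rfl fun a _ => hX.symm a b)) this
      nlinarith [g0 b hb]
    have e : ∑ a ∈ H0, ∑ b ∈ H0, (X a b * (x1 a + x2 a) + X a b * (x1 b + x2 b))
        = ∑ a ∈ H0, ∑ b ∈ H0, X a b * (x1 a + x2 a)
          + ∑ a ∈ H0, ∑ b ∈ H0, X a b * (x1 b + x2 b) := by
      rw [← Finset.sum_add_distrib]
      exact Finset.sum_congr rfl fun a _ => Finset.sum_add_distrib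
    rw [e]
    linarith
  unfold rl2
  have s1 : ∑ a ∈ H0, ∑ b ∈ H0, h a b *
        ((N1 a + N1 b) * ((1 + P2 a) * (1 + P2 b) - 1)
          + (N2 a + N2 b) * ((1 + P1 a) * (1 + P1 b) - 1))
      ≤ (μ * (1278 / 100000 * m ^ 2)) * (4 * (1228 / 1000 * m)) := by
    refine (Finset.sum_le_sum fun a ha => Finset.sum_le_sum fun b hb => key a ha b hb).trans ?_
    simp only [← Finset.mul_sum]
    exact mul_le_mul_of_nonneg_left hs (by positivity)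
  have h3 : 0 ≤ μ * m ^ 3 := by positivity
  nlinarith

end fin

/-! ### Exponents -/

theorem int2_deriv (C m x : ℝ) : HasDerivAt (fun x => -(C / 3 * (m - x) ^ 3)) (C * (m - x) ^ 2) x := by
  have h1 : HasDerivAt (fun x : ℝ => m - x) (-1) x := (hasDerivAt_id x).const_sub m
  have h2 := ((h1.pow 3).const_mul (C / 3)).neg
  exact h2.congr_deriv (by simp; ring)

theorem int1_deriv (C m x : ℝ) : HasDerivAt (fun x => -(C / 2 * (m - x) ^ 2)) (C * (m - x)) x := by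
  have h1 : HasDerivAt (fun x : ℝ => m - x) (-1) x := (hasDerivAt_id x).const_sub m
  have h2 := ((h1.pow 2).const_mul (C / 2)).neg
  exact h2.congr_deriv (by simp; ring)

theorem int3_deriv (C m x : ℝ) : HasDerivAt (fun x => -(C / 4 * (m - x) ^ 4)) (C * (m - x) ^ 3) x := by
  have h1 : HasDerivAt (fun x : ℝ => m - x) (-1) x := (hasDerivAt_id x).const_sub m
  have h2 := ((h1.pow 4).const_mul (C / 4)).neg
  exact h2.congr_deriv (by simp; ring)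

theorem Cx.mI (hC : Cx h H X M μ t) (hM : M t ≤ 213 / 200) {r : ℝ} (hr : r ∈ Icc 0 t) :
    M t - M r ∈ Icc (0 : ℝ) (213 / 200) := by
  have h1 := hC.mono ⟨hC.t0, le_rfl⟩ r hr
  have h2 := hC.Mnn hr
  exact ⟨by linarith, by linarith⟩

theorem Cx.exi2_s (hC : Cx h H X M μ t) (hδ : ∀ a b, X a b ≤ 1 / 100) (hM : M t ≤ 213 / 200)
    {H0 : Finset V} {p q : V} (hp : p ∉ H0) (hq : q ∉ H0) {T T' s r : ℝ} (hT : T ∈ Icc 0 t)
    (hT' : T' ∈ Icc 0 t) (hrT : r ≤ T) (hrT' : r ≤ T') (hs : 0 ≤ s) (hsr : s ≤ r) :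
    Exi (cru2 h H X M H0 p T q T') s r
      (41 / 3000 * ((M t - M s) ^ 3 - (M t - M r) ^ 3)) := by
  have hr : r ∈ Icc 0 t := ⟨hs.trans hsr, hrT.trans hT.2⟩
  refine (Exi.of_clock hC hr hs (Φ := fun x => 41 / 1000 * (M t - x) ^ 2)
    (Ψ := fun x => -(41 / 1000 / 3 * (M t - x) ^ 3)) (fun x => int2_deriv _ _ _)
    (fun x hx => ?_)).mono (le_of_eq (by ring))
  have hx0 : 0 ≤ x := hs.trans hx.1
  have hxt : x ∈ Icc 0 t := ⟨hx0, hx.2.trans hr.2⟩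
  exact ru2_s hC.hX (hC.μ0 x hxt) (hC.hh.nonneg x) (hC.le x hxt) (hC.mI hM hxt)
    (hC.td hδ hM hp hT ⟨hx0, hx.2.trans hrT⟩) (hC.td hδ hM hq hT' ⟨hx0, hx.2.trans hrT'⟩)

theorem Cx.exi3_s (hC : Cx h H X M μ t) (hδ : ∀ a b, X a b ≤ 1 / 100) (hM : M t ≤ 213 / 200)
    {H0 : Finset V} {b p q w : V} (hp : p ∉ H0) (hq : q ∉ H0) (hw : w ∉ H0) {T T' T'' s r : ℝ}
    (hT : T ∈ Icc 0 t) (hT' : T' ∈ Icc 0 t) (hT'' : T'' ∈ Icc 0 t) (hrT : r ≤ T) (hrT' : r ≤ T')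
    (hrT'' : r ≤ T'') (hs : 0 ≤ s) (hsr : s ≤ r) :
    Exi (cru3e h H X M H0 b p T q T' w T'') s r
      (123 / 3000 * ((M t - M s) ^ 3 - (M t - M r) ^ 3)
        + 186 / 10000 * ((M t - M s) ^ 2 - (M t - M r) ^ 2)) := by
  have hr : r ∈ Icc 0 t := ⟨hs.trans hsr, hrT.trans hT.2⟩
  refine (Exi.of_clock hC hr hs
    (Φ := fun x => 123 / 1000 * (M t - x) ^ 2 + 372 / 10000 * (M t - x))
    (Ψ := fun x => -(123 / 1000 / 3 * (M t - x) ^ 3) + -(372 / 10000 / 2 * (M t - x) ^ 2))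
    (fun x => (int2_deriv _ _ _).add (int1_deriv _ _ _))
    (fun x hx => ?_)).mono (le_of_eq (by ring))
  have hx0 : 0 ≤ x := hs.trans hx.1
  have hxt : x ∈ Icc 0 t := ⟨hx0, hx.2.trans hr.2⟩
  have d1 := hC.td hδ hM hp hT ⟨hx0, hx.2.trans hrT⟩
  have d2 := hC.td hδ hM hq hT' ⟨hx0, hx.2.trans hrT'⟩
  have d3 := hC.td hδ hM hw hT'' ⟨hx0, hx.2.trans hrT''⟩
  have i1 := ru3_s hC.hX (hC.μ0 x hxt) (hC.hh.nonneg x) (hC.le x hxt) (hC.mI hM hxt) d1 d2 d3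
  have i2 := ext_s hC.hX (hC.μ0 x hxt) (hC.le x hxt) (hC.mI hM hxt) d1 d2 d3 b
  unfold cru3e cru3
  linarith

theorem Cx.exq5_s (hC : Cx h H X M μ t) (hδ : ∀ a b, X a b ≤ 1 / 100) (hM : M t ≤ 213 / 200)
    {u v b a c : V} {s r q : ℝ} (hs : s ∈ Icc 0 t) (hr : r ∈ Icc s t) (hq : q ∈ Icc s t) :
    Exq (cru5f h H X M u v b a c t s r q) s
      (41 / 300 * ((M t) ^ 3 - (M t - M s) ^ 3)) := by
  refine (Exq.of_clock hC hs (Φ := fun x => 41 / 100 * (M t - x) ^ 2)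
    (Ψ := fun x => -(41 / 100 / 3 * (M t - x) ^ 3)) (fun x => int2_deriv _ _ _)
    (fun x hx => ?_)).mono (le_of_eq (by ring))
  have hxt : x ∈ Icc 0 t := ⟨hx.1, hx.2.trans hs.2⟩
  have htt : t ∈ Icc 0 t := ⟨hC.t0, le_rfl⟩
  have hrt : r ∈ Icc 0 t := ⟨hs.1.trans hr.1, hr.2⟩
  have hqt : q ∈ Icc 0 t := ⟨hs.1.trans hq.1, hq.2⟩
  have hsub : ({u, v, b, a, c} : Finset V)ᶜ ⊆ ({u, v, b, a} : Finset V)ᶜ := by
    intro z hz
    simp only [Finset.mem_compl, Finset.mem_insert, Finset.mem_singleton, not_or] at hz ⊢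
    exact ⟨hz.1, hz.2.1, hz.2.2.1, hz.2.2.2.1⟩
  exact ru5_s hC.hX (hC.μ0 x hxt) (hC.hh.nonneg x) (hC.le x hxt) (hC.mI hM hxt)
    ((hC.td hδ hM (w := u) (H0 := ({u, v, b, a} : Finset V)ᶜ) (by simp) htt hxt).sub hsub)
    (hC.td hδ hM (w := v) (by simp) htt hxt)
    (hC.td hδ hM (w := b) (by simp) hs hx)
    (hC.td hδ hM (w := a) (by simp) hrt ⟨hx.1, hx.2.trans hr.1⟩)
    (hC.td hδ hM (w := c) (by simp) hqt ⟨hx.1, hx.2.trans hq.1⟩)

theorem Cx.exql_s (hC : Cx h H X M μ t) (hδ : ∀ a b, X a b ≤ 1 / 100) (hM : M t ≤ 213 / 200)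
    {a b : V} {s : ℝ} (hs : s ∈ Icc 0 t) :
    Exq (crl2 h H X M ({a, b} : Finset V)ᶜ a s b s) s (101 / 10000) := by
  refine (Exq.of_clock hC hs (Φ := fun x => 314 / 10000 * (M t - x) ^ 3)
    (Ψ := fun x => -(314 / 10000 / 4 * (M t - x) ^ 4)) (fun x => int3_deriv _ _ _)
    (fun x hx => ?_)).mono ?_
  · have hxt : x ∈ Icc 0 t := ⟨hx.1, hx.2.trans hs.2⟩
    exact rl2_s hC.hX (hC.μ0 x hxt) (hC.le x hxt) (hC.mI hM hxt)
      (hC.td hδ hM (w := a) (by simp) hs hx) (hC.td hδ hM (w := b) (by simp) hs hx)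
  · have h1 := (hC.mI hM hs).1
    have h2 := hC.Mnn ⟨hC.t0, le_rfl⟩
    have h3 : M t ^ 4 ≤ (213 / 200) ^ 4 := pow_le_pow_left₀ h2 hM 4
    have h4 := pow_nonneg h1 4
    nlinarith

end Pool.Agent.RCG
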