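import Pool.Agent.RCG.S1B

/-! Small edges: one half of the cost of a pair (MP_73ccd0_lc). -/

namespace Pool.Agent.RCG

open Set Finset Matrix Pool.Agent.RCRSHalf

set_option linter.unusedSectionVars false

variable {V : Type*} [Fintype V] [DecidableEq V]
variable {h : ℝ → V → V → ℝ} {H : V → V → ℝ → ℝ} {X : V → V → ℝ} {M μ : ℝ → ℝ} {t : ℝ}

/-- cubic majorant of `1/(1+s)` -/
noncomputable def pi3 (s : ℝ) : ℝ := 1 - 17 / 18 * s + 2 / 3 * s ^ 2 - 2 / 9 * s ^ 3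

noncomputable def Pi3 (s : ℝ) : ℝ := s - 17 / 36 * s ^ 2 + 2 / 9 * s ^ 3 - 1 / 18 * s ^ 4

theorem pi3_inv {s : ℝ} (hs : s ∈ Icc (0 : ℝ) 1) : 1 / (1 + s) ≤ pi3 s := by
  obtain ⟨h0, h1⟩ := hs
  rw [div_le_iff₀ (by linarith)]
  unfold pi3
  nlinarith [mul_nonneg (mul_nonneg h0 (sub_nonneg.2 h1)) (sq_nonneg (s - 1 / 2))]

theorem pi3_nonneg {s : ℝ} (hs : s ∈ Icc (0 : ℝ) 1) : 0 ≤ pi3 s :=
  le_trans (by have := hs.1; positivity) (pi3_inv hs)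

theorem Pi3_deriv (s : ℝ) : HasDerivAt Pi3 (pi3 s) s := by
  have h0 := hasDerivAt_id s
  have h1 : HasDerivAt (fun s : ℝ => s - 17 / 36 * s ^ 2 + 2 / 9 * s ^ 3 - 1 / 18 * s ^ 4) _ s :=
    ((h0.sub ((h0.pow 2).const_mul (17 / 36))).add ((h0.pow 3).const_mul (2 / 9))).sub
      ((h0.pow 4).const_mul (1 / 18))
  refine HasDerivAt.congr_deriv h1 ?_
  unfold pi3
  simp
  ring

theorem Cx.H_s (hC : Cx h H X M μ t) (hδ : ∀ a b, X a b ≤ 1 / 100) (hM : M t ≤ 213 / 200)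
    (p q : V) {r s : ℝ} (hr : 0 ≤ r) (hrs : r ≤ s) (hs : s ≤ t) :
    H p q s - H p q r ≤ 1065 / 100000 := by
  have h1 := hC.dH p q hr hrs hs
  have h2 := hC.Mnn (r := r) ⟨hr, hrs.trans hs⟩
  have h3 : M s ≤ M t := hC.mono ⟨hC.t0, le_rfl⟩ s ⟨hr.trans hrs, hs⟩
  have h4 := hC.mono ⟨hr.trans hrs, hs⟩ r ⟨hr, hrs⟩
  have h5 := hC.hX.nonneg p q
  have h6 := hδ p q
  nlinarith

theorem Cx.del_s (hC : Cx h H X M μ t) (hδ : ∀ a b, X a b ≤ 1 / 100) (hM : M t ≤ 213 / 200)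
    {D : Finset V} {p q : V} (hp : p ∉ D) (hq : q ∉ D) (hpq : p ≠ q) {T : ℝ} (hT : T ∈ Icc 0 t) :
    bb h (insert q D) p T ≤ Real.exp (H p q T + 23 / 10000) * bb h D p T := by
  refine (hC.del_up hp hq hpq hT).trans ?_
  refine mul_le_mul_of_nonneg_right ?_ (bb_nonneg hC.hh _ _ (hC.mem hT))
  rw [Real.exp_le_exp]
  have h0 := hC.Mnn hT
  have h1 : M T ≤ 213 / 200 := (hC.mono ⟨hC.t0, le_rfl⟩ T hT).trans hM
  have h2 := Yt_s hC.hX hδ (insert p D)ᶜ p (m := M T) ⟨h0, h1.trans (by norm_num)⟩ q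
  have h3 : M T ^ 3 ≤ (213 / 200) ^ 3 := pow_le_pow_left₀ h0 h1 3
  nlinarith

theorem Cx.del_s' (hC : Cx h H X M μ t) (hδ : ∀ a b, X a b ≤ 1 / 100) (hM : M t ≤ 213 / 200)
    {D : Finset V} {p q : V} (hp : p ∉ D) (hq : q ∉ D) (hpq : p ≠ q) {T : ℝ} (hT : T ∈ Icc 0 t) :
    bb h (insert q D) p T ≤ Real.exp (1295 / 100000) * bb h D p T := by
  refine (hC.del_s hδ hM hp hq hpq hT).trans ?_
  refine mul_le_mul_of_nonneg_right ?_ (bb_nonneg hC.hh _ _ (hC.mem hT))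
  rw [Real.exp_le_exp]
  have := hC.H_s hδ hM p q le_rfl hT.1 hT.2
  rw [hC.hh.H0] at this
  linarith

theorem Cx.pp_s (hC : Cx h H X M μ t) (hδ : ∀ a b, X a b ≤ 1 / 100) (hM : M t ≤ 213 / 200)
    {a b : V} (hab : a ≠ b) {s : ℝ} (hs : s ∈ Icc 0 t) :
    Real.exp (-(101 / 10000)) * (bb h {b} a s * bb h {a} b s) ≤ Real.exp (H a b s) * pp h a b s :=
  hC.pp_lo hab hs (hC.exql_s hδ hM hs)

theorem Cx.W_s (hC : Cx h H X M μ t) (hδ : ∀ a b, X a b ≤ 1 / 100) (hM : M t ≤ 213 / 200)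
    {p q : V} (hpq : p ≠ q) {T : ℝ} (hT : T ∈ Icc 0 t) : Wr h p q T ≤ 10073 / 10000 := by
  have h0 := hC.Mnn hT
  have h1 : M T ≤ 213 / 200 := (hC.mono ⟨hC.t0, le_rfl⟩ T hT).trans hM
  have h2 := Nt_s hC.hX hδ ({p} : Finset V)ᶜ p (m := M T) ⟨h0, h1.trans (by norm_num)⟩ q
  have h3 : M T ^ 2 ≤ (213 / 200) ^ 2 := pow_le_pow_left₀ h0 h1 2
  have h4 : Nt X ({p} : Finset V)ᶜ p (M T) q ≤ 715 / 100000 := by nlinarith
  refine (hC.W_sup hpq hT (by linarith)).trans ?_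
  rw [inv_le_comm₀ (by linarith) (by norm_num)]
  have : (10073 / 10000 : ℝ)⁻¹ ≤ 1 - 715 / 100000 := by norm_num
  linarith

/-- the hypothesis on the rates -/
def ERate (h : ℝ → V → V → ℝ) (X : V → V → ℝ) (t ρ : ℝ) : Prop :=
  ∀ p q, p ≠ q → ∀ s ∈ Icc 0 t, dE h p q s ≤ ρ * X p q / (1 + s)

theorem Cx.fw_s (hC : Cx h H X M μ t) (hδ : ∀ a b, X a b ≤ 1 / 100) (hM : M t ≤ 213 / 200)
    {ρ : ℝ} (hρ : 0 ≤ ρ) (hE : ERate h X t ρ) {p q : V} (hpq : p ≠ q) {s : ℝ} (hs : s ∈ Icc 0 t) :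
    fw h p q s ≤ 10073 / 10000 * (ρ * X p q * pi3 s) := by
  have h1 := hE p q hpq s hs
  have h2 := hC.W_s hδ hM hpq hs
  have h3 := pi3_inv (hC.mem hs)
  have h4 := dE_nonneg hC.hh p q (hC.mem hs)
  have h5 := (Wr_pos hC.hh hpq (hC.mem hs)).le
  have h6 := hC.hX.nonneg p q
  have h7 : dE h p q s ≤ ρ * X p q * pi3 s := by
    refine h1.trans ?_
    rw [div_eq_mul_one_div]
    exact mul_le_mul_of_nonneg_left h3 (by positivity)
  unfold fw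
  calc dE h p q s * Wr h p q s ≤ (ρ * X p q * pi3 s) * (10073 / 10000) :=
        mul_le_mul h7 h2 h5 (h4.trans h7)
    _ = _ := by ring

/-- the two-step vector of a target -/
noncomputable def Zs (X : V → V → ℝ) (H0 : Finset V) (w : V) : V → ℝ :=
  rm X H0 *ᵥ (rm X H0 *ᵥ Rh X H0 w)

theorem Zs_nonneg (hX : Wt X) (H0 : Finset V) (w a : V) : 0 ≤ Zs X H0 w a :=
  mulVec_nonneg (hX.rm_nonneg H0) (fun b => mulVec_nonneg (hX.rm_nonneg H0) (Rh_nonneg hX H0 w) b) a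

theorem Cx.yw_s (hC : Cx h H X M μ t) (hM : M t ≤ 213 / 200) {H0 H1 : Finset V} (hsub : H1 ⊆ H0)
    {v c : V} (hc : c ∈ H0) {q : ℝ} (hq : q ∈ Icc 0 t) :
    yw h X M H1 v c t q ≤ 5365 / 10000 * ((M t - M q) ^ 2 * μ q) * Zs X H0 v c := by
  have hX := hC.hX
  have hm := hC.mI hM hq
  have hm' : M t - M q ∈ Icc (0 : ℝ) (23 / 20) := ⟨hm.1, hm.2.trans (by norm_num)⟩
  have hμ := hC.μ0 q hq
  have hb := b2_s hm
  have hR := Rh_nonneg hX H0 v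
  have hAR : ∀ d, 0 ≤ (rm X H0 *ᵥ Rh X H0 v) d := fun d => mulVec_nonneg (hX.rm_nonneg H0) hR d
  have hN : ∀ d, Nt X H1 v (M t - M q) d
      ≤ 5365 / 10000 * (M t - M q) ^ 2 * (rm X H0 *ᵥ Rh X H0 v) d := fun d =>
    (Nt_mono hX hsub v hm' d).trans ((Nt_le hX H0 v hm' d).trans
      (mul_le_mul_of_nonneg_right hb (hAR d)))
  unfold yw
  calc ∑ d ∈ H1, h q c d * Nt X H1 v (M t - M q) d
      ≤ ∑ d ∈ H1, (5365 / 10000 * ((M t - M q) ^ 2 * μ q)) * (X c d * (rm X H0 *ᵥ Rh X H0 v) d) := by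
        refine Finset.sum_le_sum fun d hd => ?_
        have h1 := hC.le q hq c d
        have h2 := hC.hh.nonneg q c d
        have h3 := hX.nonneg c d
        calc h q c d * Nt X H1 v (M t - M q) d
            ≤ (μ q * X c d) * (5365 / 10000 * (M t - M q) ^ 2 * (rm X H0 *ᵥ Rh X H0 v) d) :=
              mul_le_mul h1 (hN d) (Nt_nonneg hX H1 v hm' d) (by positivity)
          _ = _ := by ring
    _ ≤ ∑ d ∈ H0, (5365 / 10000 * ((M t - M q) ^ 2 * μ q)) * (X c d * (rm X H0 *ᵥ Rh X H0 v) d) :=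
        Finset.sum_le_sum_of_subset_of_nonneg hsub fun d _ _ => by
          have h3 := hX.nonneg c d
          have := hAR d
          positivity
    _ = _ := by
        rw [← Finset.mul_sum]
        unfold Zs
        rw [mulVec_rm_eq H0 _ hc]

end Pool.Agent.RCG
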