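import Pool.Agent.RCG.S1C

/-! Small edges: one half of the cost of a pair, final form (MP_73ccd0_lc). -/

namespace Pool.Agent.RCG

open Set Finset Matrix Pool.Agent.RCRSHalf

set_option linter.unusedSectionVars false

variable {V : Type*} [Fintype V] [DecidableEq V]
variable {h : ℝ → V → V → ℝ} {H : V → V → ℝ → ℝ} {X : V → V → ℝ} {M μ : ℝ → ℝ} {t : ℝ}

theorem exp_small {x : ℝ} (h0 : 0 ≤ x) (h1 : x ≤ 1) :
    Real.exp x ≤ 1 + x * (1 + x / 2 + x ^ 2 / 6 + 535 / 10000 * x ^ 3) :=
  exp_u h0 (h1.trans (by norm_num))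

/-- three deletions -/
theorem Cx.del3_s (hC : Cx h H X M μ t) (hδ : ∀ a b, X a b ≤ 1 / 100) (hM : M t ≤ 213 / 200)
    {p q1 q2 q3 d : V} (h1 : p ≠ q1) (h2 : p ≠ q2) (h3 : p ≠ q3) (hd : p ≠ d) (e12 : q1 ≠ q2)
    (e13 : q1 ≠ q3) (e23 : q2 ≠ q3) (d1 : d ≠ q1) (d2 : d ≠ q2) (d3 : d ≠ q3)
    {T : ℝ} (hT : T ∈ Icc 0 t) :
    bb h {q1, q2, q3, d} p T ≤ Real.exp (H p q1 T + H p q2 T + H p q3 T + 69 / 10000)
      * bb h {d} p T := by
  have hh := hC.hh
  have hT1 := hC.mem hT
  have a1 := hC.del_s hδ hM (D := {q2, q3, d}) (p := p) (q := q1) (by simp [h2, h3, hd])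
    (by simp [e12, e13, d1.symm]) h1 hT
  have a2 := hC.del_s hδ hM (D := {q3, d}) (p := p) (q := q2) (by simp [h3, hd])
    (by simp [e23, d2.symm]) h2 hT
  have a3 := hC.del_s hδ hM (D := {d}) (p := p) (q := q3) (by simp [hd])
    (by simp [d3.symm]) h3 hT
  calc bb h {q1, q2, q3, d} p T
      ≤ Real.exp (H p q1 T + 23 / 10000) * (Real.exp (H p q2 T + 23 / 10000)
        * (Real.exp (H p q3 T + 23 / 10000) * bb h {d} p T)) :=
        a1.trans (mul_le_mul_of_nonneg_left (a2.trans (mul_le_mul_of_nonneg_left a3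
          (Real.exp_pos _).le)) (Real.exp_pos _).le)
    _ = _ := by
        rw [← mul_assoc, ← mul_assoc, ← Real.exp_add, ← Real.exp_add]
        congr 2
        ring

theorem Cx.px_s (hC : Cx h H X M μ t) (hδ : ∀ a b, X a b ≤ 1 / 100) (hM : M t ≤ 213 / 200)
    {u v a b c : V} (huv : u ≠ v) (hua : u ≠ a) (hub : u ≠ b) (huc : u ≠ c)
    (hvc : v ≠ c) (hac : a ≠ c) (hbc : b ≠ c) {s : ℝ} (hs : s ∈ Icc 0 t) :
    px h {v, b, a, c} u c t s
      ≤ bb h {v, b, a} u t * (Real.exp (H u c s) * Real.exp (51 / 10000)) := by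
  have hh := hC.hh
  have htt : t ∈ Icc 0 t := ⟨hC.t0, le_rfl⟩
  have hX := hC.hX
  have hI := hC.inf htt (w := u) (H0 := ({u, v, b, a} : Finset V)ᶜ) (by simp) subset_rfl le_rfl
  have hset : ({v, b, a, c} : Finset V) = insert c {v, b, a} := by
    ext z; simp only [Finset.mem_insert, Finset.mem_singleton]; tauto
  have key := px_le hh (D := {v, b, a}) (u := u) (c := c) (by simp [huv, hub, hua])
    (by simp [hvc.symm, hbc.symm, hac.symm]) huc hC.ht (H0 := ({u, v, b, a} : Finset V)ᶜ)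
    (by intro z hz; simpa using hz) hI
    (n := fun s => 42 / 10000 * ((M t) ^ 3 - (M t - M s) ^ 3))
    (n' := fun s => 126 / 10000 * (M t - M s) ^ 2 * μ s)
    (fun s hs => by
      have h1 : HasDerivAt (fun s => M t - M s) (-μ s) s := (hC.Md s hs).const_sub (M t)
      have h2 := ((h1.pow 3).const_sub ((M t) ^ 3)).const_mul (42 / 10000)
      exact h2.congr_deriv (by simp; ring))
    (by rw [hC.M0]; ring)
    (fun s hs => by
      have hm := hC.mI hM hs
      have hm' : M t - M s ∈ Icc (0 : ℝ) (23 / 20) := ⟨hm.1, hm.2.trans (by norm_num)⟩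
      have hμ := hC.μ0 s hs
      have hN : ∀ d, Nt X ({u, v, b, a} : Finset V)ᶜ u (M t - M s) d
          ≤ 63 / 10000 * (M t - M s) ^ 2 := fun d => Nt_s hX hδ _ _ hm' d
      have hN0 : ∀ d, 0 ≤ Nt X ({u, v, b, a} : Finset V)ᶜ u (M t - M s) d :=
        fun d => Nt_nonneg hX _ _ hm' d
      calc ∑ d ∈ (insert u (insert c ({v, b, a} : Finset V)))ᶜ, h s c d *
            (Nt X ({u, v, b, a} : Finset V)ᶜ u (M t - M s) c
              + Nt X ({u, v, b, a} : Finset V)ᶜ u (M t - M s) d)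
          ≤ ∑ d ∈ (insert u (insert c ({v, b, a} : Finset V)))ᶜ,
              (126 / 10000 * (M t - M s) ^ 2 * μ s) * X c d := by
            refine Finset.sum_le_sum fun d _ => ?_
            have h1 := hC.le s hs c d
            have h3 := hX.nonneg c d
            calc h s c d * (Nt X ({u, v, b, a} : Finset V)ᶜ u (M t - M s) c
                  + Nt X ({u, v, b, a} : Finset V)ᶜ u (M t - M s) d)
                ≤ (μ s * X c d) * (126 / 10000 * (M t - M s) ^ 2) :=
                  mul_le_mul h1 (by linarith [hN c, hN d]) (add_nonneg (hN0 c) (hN0 d))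
                    (by positivity)
              _ = _ := by ring
        _ ≤ _ := by
            rw [← Finset.mul_sum]
            have := hX.row_le c (insert u (insert c ({v, b, a} : Finset V)))ᶜ
            have h0 : 0 ≤ 126 / 10000 * (M t - M s) ^ 2 * μ s := by positivity
            nlinarith)
    s hs
  rw [← hset] at key
  refine key.trans ?_
  refine mul_le_mul_of_nonneg_left ?_ (bb_nonneg hh _ _ hC.ht)
  rw [← Real.exp_add, Real.exp_le_exp]
  have h1 := (hC.mI hM hs).1
  have h2 := hC.Mnn htt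
  have h3 : M t ^ 3 ≤ (213 / 200) ^ 3 := pow_le_pow_left₀ h2 hM 3
  have h4 := pow_nonneg h1 3
  nlinarith

/-- One half of the cost of the pair `(a, b)`. -/
theorem Cx.T_s (hC : Cx h H X M μ t) (hδ : ∀ a b, X a b ≤ 1 / 100) (hM : M t ≤ 213 / 200)
    {ρ : ℝ} (hρ : 0 ≤ ρ) (hE : ERate h X t ρ) {J : ℝ → ℝ}
    (hJ : ∀ r ∈ Icc 0 t, HasDerivAt J (-(pi3 r * (M t - M r) ^ 3)) r)
    {u v a b : V} (huv : u ≠ v) (hua : u ≠ a) (hub : u ≠ b)
    (hva : v ≠ a) (hvb : v ≠ b) (hab : a ≠ b) {s : ℝ} (hs : s ∈ Icc 0 t) :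
    Real.exp (H u v s) * (h s a b *
        ex (lw h ∅ s) {u, v, a, b} (fun G => RCG.tgt h u t G s * xg h v a b t s G))
      ≤ bb h {v} u t * bb h {u} v t *
        (1466 / 1000 * ρ ^ 2 * (X a b * pi3 s *
          (ρ * ((Pi3 t - Pi3 s) ^ 2 / 2) * (rm X ({u, v} : Finset V)ᶜ *ᵥ X v) a
          + 17884 / 100000 * (J s - J t) * (rm X ({u, v} : Finset V)ᶜ *ᵥ
            Zs X ({u, v} : Finset V)ᶜ v) a))) := by
  have hh := hC.hh
  have hX := hC.hX
  have htt : t ∈ Icc 0 t := ⟨hC.t0, le_rfl⟩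
  have ht0 := hC.Mnn htt
  have hs1 := hC.mem hs
  obtain ⟨D, hD⟩ : ∃ D, D = ({u, v} : Finset V)ᶜ := ⟨_, rfl⟩
  have haD : a ∈ D := by rw [hD]; simp [hua.symm, hva.symm]
  have hmem : ∀ c ∈ ({u, v, a, b} : Finset V)ᶜ, u ≠ c ∧ v ≠ c ∧ a ≠ c ∧ b ≠ c ∧ c ∈ D := by
    intro c hc
    simp only [Finset.mem_compl, Finset.mem_insert, Finset.mem_singleton, not_or] at hc
    refine ⟨Ne.symm hc.1, Ne.symm hc.2.1, Ne.symm hc.2.2.1, Ne.symm hc.2.2.2, ?_⟩
    rw [hD]
    simp [hc.1, hc.2.1]
  have hZ0 := Zs_nonneg hX D v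
  have hsubD : ({u, v, a, b} : Finset V)ᶜ ⊆ D := fun c hc => (hmem c hc).2.2.2.2
  -- monotonicity of the clock
  have hmt : ∀ x ∈ Icc 0 t, 0 ≤ M t - M x := fun x hx => (hC.mI hM hx).1
  have hPi : ∀ x ∈ Icc 0 t, 0 ≤ Pi3 t - Pi3 x := by
    intro x hx
    exact nonneg_of_forward (U := fun y => Pi3 y - Pi3 x) (U' := pi3) (a := x) (s := t)
      (fun y _ => (Pi3_deriv y).sub_const _) (by simp)
      (fun y hy _ => pi3_nonneg (hC.mem ⟨hx.1.trans hy.1, hy.2⟩)) t ⟨hx.2, le_rfl⟩
  have key := hC.T_boundF huv hua hub hva hvb hab hs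
    (Qb := 101 / 10000) (Yb := 69 / 10000) (Au := Real.exp (259 / 10000))
    (Nc := fun _ => Real.exp (51 / 10000)) (Av := fun _ => Real.exp (3885 / 100000))
    (Qa := fun _ _ => 101 / 10000) (Ma := fun _ _ => Real.exp (282 / 10000))
    (Qc := fun _ _ => 101 / 10000) (Mc := fun _ _ => Real.exp (3885 / 100000))
    (B2 := fun _ r q => 41 / 3000 * ((M t - M r) ^ 3 - (M t - M q) ^ 3))
    (B3 := fun _ r _ => 123 / 3000 * ((M t - M s) ^ 3 - (M t - M r) ^ 3)
        + 186 / 10000 * ((M t - M s) ^ 2 - (M t - M r) ^ 2))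
    (B5 := fun _ _ _ => 41 / 300 * ((M t) ^ 3 - (M t - M s) ^ 3))
    (hC.pp_s hδ hM hab hs)
    (fun c hc => by
      obtain ⟨c1, c2, c3, c4, -⟩ := hmem c hc
      have := hC.del3_s hδ hM (p := b) (q1 := u) (q2 := v) (q3 := c) (d := a) hub.symm hvb.symm
        c4 hab.symm huv c1 c2 hua.symm hva.symm c3 hs
      have e : ({u, v, a, c} : Finset V) = {u, v, c, a} := by
        ext z; simp only [Finset.mem_insert, Finset.mem_singleton]; tauto
      rw [e]
      refine this.trans (le_of_eq ?_)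
      rw [hh.Hsymm b u, hh.Hsymm b v])
    (fun c hc r hr => by
      obtain ⟨c1, c2, c3, c4, -⟩ := hmem c hc
      exact hC.pp_s hδ hM c3.symm ⟨hs.1.trans hr.1, hr.2⟩)
    (fun c hc r hr => by
      obtain ⟨c1, c2, c3, c4, -⟩ := hmem c hc
      have hr0 : r ∈ Icc 0 t := ⟨hs.1.trans hr.1, hr.2⟩
      have := hC.del3_s hδ hM (p := a) (q1 := u) (q2 := v) (q3 := b) (d := c) hua.symm hva.symm
        hab c3 huv hub hvb c1.symm c2.symm c4.symm hr0
      refine this.trans ?_
      refine mul_le_mul_of_nonneg_right ?_ (bb_nonneg hh _ _ (hC.mem hr0))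
      rw [← Real.exp_add, Real.exp_le_exp, hh.Hsymm a u, hh.Hsymm a v]
      have i1 := hC.H_s hδ hM u a hs.1 hr.1 hr.2
      have i2 := hC.H_s hδ hM a b le_rfl hr0.1 hr0.2
      rw [hh.H0] at i2
      linarith)
    (fun c hc q hq => by
      obtain ⟨c1, c2, c3, c4, -⟩ := hmem c hc
      exact hC.pp_s hδ hM c2 ⟨hs.1.trans hq.1, hq.2⟩)
    (fun c hc q hq => by
      obtain ⟨c1, c2, c3, c4, -⟩ := hmem c hc
      have hq0 : q ∈ Icc 0 t := ⟨hs.1.trans hq.1, hq.2⟩
      have := hC.del3_s hδ hM (p := c) (q1 := u) (q2 := b) (q3 := a) (d := v) c1.symm c4.symm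
        c3.symm c2.symm hub hua hab.symm huv.symm hvb hva hq0
      have e : ({u, v, b, a} : Finset V) = {u, b, a, v} := by
        ext z; simp only [Finset.mem_insert, Finset.mem_singleton]; tauto
      rw [e]
      refine this.trans ?_
      refine mul_le_mul_of_nonneg_right ?_ (bb_nonneg hh _ _ (hC.mem hq0))
      rw [Real.exp_le_exp]
      have i1 := hC.H_s hδ hM c u le_rfl hq0.1 hq0.2
      have i2 := hC.H_s hδ hM c b le_rfl hq0.1 hq0.2
      have i3 := hC.H_s hδ hM c a le_rfl hq0.1 hq0.2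
      rw [hh.H0] at i1 i2 i3
      linarith)
    (fun c hc => by
      obtain ⟨c1, c2, c3, c4, -⟩ := hmem c hc
      exact hC.px_s hδ hM huv hua hub c1 c2 c3 c4 hs)
    (by
      have a1 := hC.del_s' hδ hM (D := {a, v}) (p := u) (q := b) (by simp [hua, huv])
        (by simp [hab.symm, hvb.symm]) hub htt
      have a2 := hC.del_s' hδ hM (D := {v}) (p := u) (q := a) (by simp [huv])
        (by simp [hva.symm]) hua htt
      have e : ({v, b, a} : Finset V) = insert b (insert a {v}) := by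
        ext z; simp only [Finset.mem_insert, Finset.mem_singleton]; tauto
      rw [e]
      refine (a1.trans (mul_le_mul_of_nonneg_left a2 (Real.exp_pos _).le)).trans (le_of_eq ?_)
      rw [← mul_assoc, ← Real.exp_add]
      congr 2
      norm_num)
    (fun c hc => by
      obtain ⟨c1, c2, c3, c4, -⟩ := hmem c hc
      have := hC.del3_s hδ hM (p := v) (q1 := b) (q2 := a) (q3 := c) (d := u) hvb hva c2
        huv.symm hab.symm c4 c3 hub hua c1 htt
      have e : ({u, b, a, c} : Finset V) = {b, a, c, u} := by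
        ext z; simp only [Finset.mem_insert, Finset.mem_singleton]; tauto
      rw [e]
      refine this.trans ?_
      refine mul_le_mul_of_nonneg_right ?_ (bb_nonneg hh _ _ hC.ht)
      rw [Real.exp_le_exp]
      have i1 := hC.H_s hδ hM v b le_rfl htt.1 htt.2
      have i2 := hC.H_s hδ hM v a le_rfl htt.1 htt.2
      have i3 := hC.H_s hδ hM v c le_rfl htt.1 htt.2
      rw [hh.H0] at i1 i2 i3
      linarith)
    (fun c _ r _ => (Real.exp_pos _).le) (fun c _ r _ => (Real.exp_pos _).le)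
    (fun c _ => by positivity)
    (fun c hc r hr q hq => by
      exact hC.exi2_s hδ hM (by simp) (by simp) htt
        ⟨hs.1.trans (hr.1.trans hq.1), hq.2⟩ hq.2 le_rfl (hs.1.trans hr.1) hq.1)
    (fun c hc r hr q hq => by
      exact hC.exi3_s hδ hM (by simp) (by simp) (by simp) htt
        ⟨hs.1.trans hr.1, hr.2⟩ ⟨hs.1.trans (hr.1.trans hq.1), hq.2⟩ hr.2 le_rfl hq.1 hs.1 hr.1)
    (fun c hc r hr q hq => hC.exq5_s hδ hM hs hr ⟨hr.1.trans hq.1, hq.2⟩)
    (Φ := fun c _ q => (10073 / 10000 * Real.exp (23515 / 100000)) *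
      (ρ * X v c * Pi3 q - 17884 / 100000 * (M t - M q) ^ 3 * Zs X D v c))
    (φ := fun c _ q => (10073 / 10000 * Real.exp (23515 / 100000)) *
      (ρ * X v c * pi3 q + 53652 / 100000 * ((M t - M q) ^ 2 * μ q) * Zs X D v c))
    (fun c hc r hr q hq => by
      have hq0 : q ∈ Icc 0 t := ⟨hs.1.trans (hr.1.trans hq.1), hq.2⟩
      have h1 : HasDerivAt (fun s => M t - M s) (-μ q) q := (hC.Md q hq0).const_sub (M t)
      have h2 := (((Pi3_deriv q).const_mul (ρ * X v c)).sub
        (((h1.pow 3).const_mul (17884 / 100000)).mul_const (Zs X D v c))).const_mul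
          (10073 / 10000 * Real.exp (23515 / 100000))
      exact h2.congr_deriv (by push_cast; ring))
    (fun c hc r hr q hq => by
      obtain ⟨c1, c2, c3, c4, cD⟩ := hmem c hc
      have hr0 : r ∈ Icc 0 t := ⟨hs.1.trans hr.1, hr.2⟩
      have hq0 : q ∈ Icc 0 t := ⟨hs.1.trans (hr.1.trans hq.1), hq.2⟩
      have hq1 := hC.mem hq0
      have i1 := hC.fw_s hδ hM hρ hE c2 hq0
      have hsub : ({u, v, b, a, c} : Finset V)ᶜ ⊆ D := by
        intro z hz
        rw [hD]
        simp only [Finset.mem_compl, Finset.mem_insert, Finset.mem_singleton, not_or] at hz ⊢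
        exact ⟨hz.1, hz.2.1⟩
      have i2 := hC.yw_s hM hsub (v := v) cD hq0
      have hy0 : 0 ≤ yw h X M ({u, v, b, a, c} : Finset V)ᶜ v c t q := hC.yw_nonneg (by simp) hq0
      have hμ := hC.μ0 q hq0
      have hp := pi3_nonneg hq1
      have hx := hX.nonneg v c
      have hz := hZ0 c
      have hfw := fw_nonneg hh c2 hq1
      have i3 : Real.exp (-H v c q) * bb h {v} c q ≤ 1 := by
        have e1 : Real.exp (-H v c q) ≤ 1 := by
          rw [Real.exp_le_one_iff]
          have := hh.Hnn v c hq0.1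
          linarith
        have e2 := bb_le_one hh {v} c hq1
        have e3 := bb_nonneg hh {v} c hq1
        have e4 := Real.exp_pos (-H v c q)
        nlinarith
      have i4 : 0 ≤ Real.exp (-H v c q) * bb h {v} c q := by
        have e3 := bb_nonneg hh {v} c hq1
        positivity
      have hexp : (41 / 3000 * ((M t - M r) ^ 3 - (M t - M q) ^ 3)
          + (123 / 3000 * ((M t - M s) ^ 3 - (M t - M r) ^ 3)
            + 186 / 10000 * ((M t - M s) ^ 2 - (M t - M r) ^ 2))
          + 41 / 300 * ((M t) ^ 3 - (M t - M s) ^ 3)) ≤ 1862 / 10000 := by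
        have k1 := hmt q hq0
        have k2 := hmt r hr0
        have k3 := hmt s hs
        have k4 : M t - M q ≤ M t - M r := by have := hC.mono hq0 r ⟨hr0.1, hq.1⟩; linarith
        have k5 : M t - M r ≤ M t - M s := by have := hC.mono hr0 s ⟨hs.1, hr.1⟩; linarith
        have k6 : M t - M s ≤ M t := by have := hC.Mnn hs; linarith
        have l1 : (M t - M q) ^ 3 ≤ (M t - M r) ^ 3 := pow_le_pow_left₀ k1 k4 3
        have l2 : (M t - M r) ^ 3 ≤ (M t - M s) ^ 3 := pow_le_pow_left₀ k2 k5 3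
        have l4 : (M t - M s) ^ 2 ≤ (213 / 200) ^ 2 := pow_le_pow_left₀ k3 (k6.trans hM) 2
        have l5 : M t ^ 3 ≤ (213 / 200) ^ 3 := pow_le_pow_left₀ ht0 hM 3
        have l6 := pow_nonneg k1 3
        have l7 := pow_nonneg k2 2
        nlinarith
      have i5 : Real.exp (3885 / 100000) * Real.exp (41 / 3000 * ((M t - M r) ^ 3 - (M t - M q) ^ 3)
          + (123 / 3000 * ((M t - M s) ^ 3 - (M t - M r) ^ 3)
            + 186 / 10000 * ((M t - M s) ^ 2 - (M t - M r) ^ 2))
          + 41 / 300 * ((M t) ^ 3 - (M t - M s) ^ 3)) ≤ Real.exp (22505 / 100000) := by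
        rw [← Real.exp_add, Real.exp_le_exp]
        linarith
      have i6 : fw h v c q * Real.exp (101 / 10000)
          + yw h X M ({u, v, b, a, c} : Finset V)ᶜ v c t q *
            (Real.exp (-H v c q) * bb h {v} c q)
          ≤ (10073 / 10000 * Real.exp (101 / 10000)) * (ρ * X v c * pi3 q
            + 53652 / 100000 * ((M t - M q) ^ 2 * μ q) * Zs X D v c) := by
        have j1 : fw h v c q * Real.exp (101 / 10000)
            ≤ 10073 / 10000 * (ρ * X v c * pi3 q) * Real.exp (101 / 10000) :=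
          mul_le_mul_of_nonneg_right i1 (Real.exp_pos _).le
        have j2 : yw h X M ({u, v, b, a, c} : Finset V)ᶜ v c t q *
            (Real.exp (-H v c q) * bb h {v} c q)
            ≤ (5365 / 10000 * ((M t - M q) ^ 2 * μ q) * Zs X D v c) * 1 :=
          mul_le_mul i2 i3 i4 (by positivity)
        have j3 : (1 : ℝ) ≤ 10073 / 10000 * Real.exp (101 / 10000) := by
          have := Real.one_le_exp (x := 101 / 10000) (by norm_num)
          linarith
        have j4 : 0 ≤ 53652 / 100000 * ((M t - M q) ^ 2 * μ q) * Zs X D v c := by positivity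
        have j5 : (5365 / 10000 * ((M t - M q) ^ 2 * μ q) * Zs X D v c)
            ≤ 53652 / 100000 * ((M t - M q) ^ 2 * μ q) * Zs X D v c := by
          have : 0 ≤ ((M t - M q) ^ 2 * μ q) * Zs X D v c := by positivity
          nlinarith
        nlinarith
      calc (fw h v c q * Real.exp (101 / 10000)
          + yw h X M ({u, v, b, a, c} : Finset V)ᶜ v c t q *
            (Real.exp (-H v c q) * bb h {v} c q)) *
          (Real.exp (3885 / 100000) * Real.exp (41 / 3000 * ((M t - M r) ^ 3 - (M t - M q) ^ 3)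
          + (123 / 3000 * ((M t - M s) ^ 3 - (M t - M r) ^ 3)
            + 186 / 10000 * ((M t - M s) ^ 2 - (M t - M r) ^ 2))
          + 41 / 300 * ((M t) ^ 3 - (M t - M s) ^ 3)))
          ≤ ((10073 / 10000 * Real.exp (101 / 10000)) * (ρ * X v c * pi3 q
            + 53652 / 100000 * ((M t - M q) ^ 2 * μ q) * Zs X D v c))
            * Real.exp (22505 / 100000) :=
            mul_le_mul i6 i5 (by positivity) (by positivity)
        _ = _ := by
            have : Real.exp (23515 / 100000) = Real.exp (101 / 10000) * Real.exp (22505 / 100000) := by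
              rw [← Real.exp_add]; norm_num
            rw [this]; ring)
    (Ψ := fun r => (10073 / 10000 * Real.exp (8225 / 100000)) *
      (10073 / 10000 * Real.exp (23515 / 100000)) * ρ *
      (-(ρ * ((Pi3 t - Pi3 r) ^ 2 / 2) * (rm X D *ᵥ X v) a)
        - 17884 / 100000 * (J r) * (rm X D *ᵥ Zs X D v) a))
    (ψ := fun r => (10073 / 10000 * Real.exp (8225 / 100000)) *
      (10073 / 10000 * Real.exp (23515 / 100000)) * ρ * (pi3 r *
      (ρ * (Pi3 t - Pi3 r) * (rm X D *ᵥ X v) a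
        + 17884 / 100000 * (M t - M r) ^ 3 * (rm X D *ᵥ Zs X D v) a)))
    (fun r hr => by
      have hr0 : r ∈ Icc 0 t := ⟨hs.1.trans hr.1, hr.2⟩
      have h1 := (Pi3_deriv r).const_sub (Pi3 t)
      have h2 := ((((h1.pow 2).div_const 2).const_mul ρ).mul_const ((rm X D *ᵥ X v) a)).neg
      have h3 := ((hJ r hr0).const_mul (17884 / 100000)).mul_const ((rm X D *ᵥ Zs X D v) a)
      have h4 := (h2.sub h3).const_mul ((10073 / 10000 * Real.exp (8225 / 100000)) *
        (10073 / 10000 * Real.exp (23515 / 100000)) * ρ)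
      exact h4.congr_deriv (by push_cast; ring))
    (fun r hr => by
      have hr0 : r ∈ Icc 0 t := ⟨hs.1.trans hr.1, hr.2⟩
      have hr1 := hC.mem hr0
      have hp := pi3_nonneg hr1
      have hP := hPi r hr0
      have hm := hmt r hr0
      have e0 : Real.exp (8225 / 100000) = Real.exp (101 / 10000) * (Real.exp (282 / 10000) *
          (Real.exp (51 / 10000) * Real.exp (3885 / 100000))) := by
        rw [← Real.exp_add, ← Real.exp_add, ← Real.exp_add]; norm_num
      obtain ⟨K1, hK1⟩ : ∃ K1, K1 = 10073 / 10000 * Real.exp (23515 / 100000) := ⟨_, rfl⟩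
      have hK0 : 0 ≤ K1 := by rw [hK1]; positivity
      rw [← hK1]
      obtain ⟨E0, hE0⟩ : ∃ E0, E0 = Real.exp (101 / 10000) * (Real.exp (282 / 10000) *
          (Real.exp (51 / 10000) * Real.exp (3885 / 100000))) := ⟨_, rfl⟩
      have hE00 : 0 ≤ E0 := by rw [hE0]; positivity
      rw [e0, ← hE0]
      have step : ∀ c ∈ ({u, v, a, b} : Finset V)ᶜ,
          fw h c a r * Real.exp (101 / 10000) * (Real.exp (282 / 10000) *
          (Real.exp (51 / 10000) * Real.exp (3885 / 100000))) *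
          (K1 * (ρ * X v c * Pi3 t - 17884 / 100000 * (M t - M t) ^ 3 * Zs X D v c)
            - K1 * (ρ * X v c * Pi3 r - 17884 / 100000 * (M t - M r) ^ 3 * Zs X D v c))
          ≤ (10073 / 10000 * E0 * K1 * ρ * pi3 r) * (X a c * (ρ * (Pi3 t - Pi3 r) * X v c
            + 17884 / 100000 * (M t - M r) ^ 3 * Zs X D v c)) := by
        intro c hc
        obtain ⟨c1, c2, c3, c4, cD⟩ := hmem c hc
        have i1 := hC.fw_s hδ hM hρ hE c3.symm hr0
        rw [hX.symm c a] at i1
        have hx := hX.nonneg v c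
        have hx' := hX.nonneg a c
        have hz := hZ0 c
        have i2 : 0 ≤ K1 * (ρ * (Pi3 t - Pi3 r) * X v c
            + 17884 / 100000 * (M t - M r) ^ 3 * Zs X D v c) := by positivity
        have e1 : (K1 * (ρ * X v c * Pi3 t - 17884 / 100000 * (M t - M t) ^ 3 * Zs X D v c)
            - K1 * (ρ * X v c * Pi3 r - 17884 / 100000 * (M t - M r) ^ 3 * Zs X D v c))
            = K1 * (ρ * (Pi3 t - Pi3 r) * X v c
            + 17884 / 100000 * (M t - M r) ^ 3 * Zs X D v c) := by ring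
        rw [e1]
        calc fw h c a r * Real.exp (101 / 10000) * (Real.exp (282 / 10000) *
            (Real.exp (51 / 10000) * Real.exp (3885 / 100000))) *
            (K1 * (ρ * (Pi3 t - Pi3 r) * X v c
            + 17884 / 100000 * (M t - M r) ^ 3 * Zs X D v c))
            = fw h c a r * (E0 * (K1 * (ρ * (Pi3 t - Pi3 r) * X v c
            + 17884 / 100000 * (M t - M r) ^ 3 * Zs X D v c))) := by rw [hE0]; ring
          _ ≤ (10073 / 10000 * (ρ * X a c * pi3 r)) *
              (E0 * (K1 * (ρ * (Pi3 t - Pi3 r) * X v c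
            + 17884 / 100000 * (M t - M r) ^ 3 * Zs X D v c))) :=
              mul_le_mul_of_nonneg_right i1 (mul_nonneg hE00 i2)
          _ = _ := by ring
      refine (Finset.sum_le_sum step).trans ?_
      rw [← Finset.mul_sum]
      have s1 : ∑ c ∈ ({u, v, a, b} : Finset V)ᶜ, X a c * (ρ * (Pi3 t - Pi3 r) * X v c
            + 17884 / 100000 * (M t - M r) ^ 3 * Zs X D v c)
          ≤ ρ * (Pi3 t - Pi3 r) * (rm X D *ᵥ X v) a
            + 17884 / 100000 * (M t - M r) ^ 3 * (rm X D *ᵥ Zs X D v) a := by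
        refine (Finset.sum_le_sum_of_subset_of_nonneg hsubD fun c _ _ => ?_).trans
          (le_of_eq ?_)
        · have hx := hX.nonneg v c
          have hx' := hX.nonneg a c
          have hz := hZ0 c
          positivity
        · rw [mulVec_rm_eq D _ haD, mulVec_rm_eq D _ haD, Finset.mul_sum, Finset.mul_sum,
            ← Finset.sum_add_distrib]
          exact Finset.sum_congr rfl fun c _ => by ring
      refine (mul_le_mul_of_nonneg_left s1 (by positivity)).trans (le_of_eq ?_)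
      ring)
  refine key.trans ?_
  have hbb : 0 ≤ bb h {v} u t * bb h {u} v t :=
    mul_nonneg (bb_nonneg hh _ _ hC.ht) (bb_nonneg hh _ _ hC.ht)
  refine mul_le_mul_of_nonneg_left ?_ hbb
  have i1 := hC.fw_s hδ hM hρ hE hab hs
  have hP := hPi s hs
  have hp := pi3_nonneg hs1
  have hx := hX.nonneg a b
  have hJ0 : 0 ≤ J s - J t := by
    have := nonneg_of_forward (U := fun y => J s - J y) (U' := fun y => pi3 y * (M t - M y) ^ 3)
      (a := s) (s := t)
      (fun y hy => by
        have := (hJ y ⟨hs.1.trans hy.1, hy.2⟩).const_sub (J s)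
        exact this.congr_deriv (by ring)) (by simp)
      (fun y hy _ => by
        have hy0 : y ∈ Icc 0 t := ⟨hs.1.trans hy.1, hy.2⟩
        have := pi3_nonneg (hC.mem hy0)
        have := hmt y hy0
        positivity) t ⟨hs.2, le_rfl⟩
    exact this
  have hA1 : 0 ≤ (rm X D *ᵥ X v) a := mulVec_nonneg (hX.rm_nonneg D) (hX.nonneg v) a
  have hA2 : 0 ≤ (rm X D *ᵥ Zs X D v) a := mulVec_nonneg (hX.rm_nonneg D) hZ0 a
  rw [← hD]
  obtain ⟨A1, hA1e⟩ : ∃ A1, A1 = (rm X D *ᵥ X v) a := ⟨_, rfl⟩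
  obtain ⟨A2, hA2e⟩ : ∃ A2, A2 = (rm X D *ᵥ Zs X D v) a := ⟨_, rfl⟩
  rw [← hA1e] at hA1 ⊢
  rw [← hA2e] at hA2 ⊢
  obtain ⟨G, hG⟩ : ∃ G, G = ρ * ((Pi3 t - Pi3 s) ^ 2 / 2) * A1
    + 17884 / 100000 * (J s - J t) * A2 := ⟨_, rfl⟩
  have hG0 : 0 ≤ G := by rw [hG]; positivity
  have hnum : Real.exp (259 / 10000) * (10073 / 10000) * Real.exp (101 / 10000 + 69 / 10000)
      * ((10073 / 10000 * Real.exp (8225 / 100000)) *
      (10073 / 10000 * Real.exp (23515 / 100000))) ≤ 1466 / 1000 := by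
    have e1 : Real.exp (259 / 10000) * (10073 / 10000) * Real.exp (101 / 10000 + 69 / 10000)
      * ((10073 / 10000 * Real.exp (8225 / 100000)) *
      (10073 / 10000 * Real.exp (23515 / 100000))) = (10073 / 10000) ^ 3 *
        Real.exp (3603 / 10000) := by
      have : Real.exp (3603 / 10000) = Real.exp (259 / 10000) * Real.exp (101 / 10000 + 69 / 10000)
          * Real.exp (8225 / 100000) * Real.exp (23515 / 100000) := by
        rw [← Real.exp_add, ← Real.exp_add, ← Real.exp_add]; norm_num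
      rw [this]; ring
    rw [e1]
    have := exp_small (x := 3603 / 10000) (by norm_num) (by norm_num)
    norm_num at this ⊢
    linarith
  have e1 : (10073 / 10000 * Real.exp (8225 / 100000)) *
      (10073 / 10000 * Real.exp (23515 / 100000)) * ρ *
      (-(ρ * ((Pi3 t - Pi3 t) ^ 2 / 2) * A1) - 17884 / 100000 * (J t) * A2)
      - (10073 / 10000 * Real.exp (8225 / 100000)) *
      (10073 / 10000 * Real.exp (23515 / 100000)) * ρ *
      (-(ρ * ((Pi3 t - Pi3 s) ^ 2 / 2) * A1) - 17884 / 100000 * (J s) * A2)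
      = (10073 / 10000 * Real.exp (8225 / 100000)) *
      (10073 / 10000 * Real.exp (23515 / 100000)) * ρ * G := by rw [hG]; ring
  rw [e1]
  calc Real.exp (259 / 10000) * (fw h a b s * Real.exp (101 / 10000 + 69 / 10000)) *
        ((10073 / 10000 * Real.exp (8225 / 100000)) *
      (10073 / 10000 * Real.exp (23515 / 100000)) * ρ * G)
      ≤ Real.exp (259 / 10000) * ((10073 / 10000 * (ρ * X a b * pi3 s)) *
        Real.exp (101 / 10000 + 69 / 10000)) *
        ((10073 / 10000 * Real.exp (8225 / 100000)) *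
      (10073 / 10000 * Real.exp (23515 / 100000)) * ρ * G) := by gcongr
    _ = (Real.exp (259 / 10000) * (10073 / 10000) * Real.exp (101 / 10000 + 69 / 10000)
      * ((10073 / 10000 * Real.exp (8225 / 100000)) *
      (10073 / 10000 * Real.exp (23515 / 100000)))) * (ρ ^ 2 * (X a b * pi3 s * G)) := by ring
    _ ≤ 1466 / 1000 * (ρ ^ 2 * (X a b * pi3 s * G)) :=
        mul_le_mul_of_nonneg_right hnum (by positivity)
    _ = _ := by rw [hG]; ring

end Pool.Agent.RCG
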