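import Pool.Agent.RCG.S1D

/-! Small edges: the cost of the pairs, summed (MP_73ccd0_lc). -/

namespace Pool.Agent.RCG

open Set Finset Matrix Pool.Agent.RCRSHalf

set_option linter.unusedSectionVars false

variable {V : Type*} [Fintype V] [DecidableEq V]
variable {h : ℝ → V → V → ℝ} {H : V → V → ℝ → ℝ} {X : V → V → ℝ} {M μ : ℝ → ℝ} {t : ℝ}

/-- the form `f · (A + A²) g` -/
noncomputable def F12 (X : V → V → ℝ) (D : Finset V) (f g : V → ℝ) : ℝ :=
  ∑ a ∈ D, f a * ((rm X D *ᵥ g) a + (rm X D *ᵥ (rm X D *ᵥ g)) a)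

theorem F12_nonneg (hX : Wt X) (D : Finset V) {f g : V → ℝ} (hf : ∀ a, 0 ≤ f a)
    (hg : ∀ a, 0 ≤ g a) : 0 ≤ F12 X D f g := by
  have hA := hX.rm_nonneg D
  refine Finset.sum_nonneg fun a _ => mul_nonneg (hf a) (add_nonneg (mulVec_nonneg hA hg a)
    (mulVec_nonneg hA (fun b => mulVec_nonneg hA hg b) a))

theorem sum_D_eq (D : Finset V) (f g : V → ℝ) :
    ∑ a ∈ D, f a * (rm X D *ᵥ g) a = ∑ a, f a * (rm X D *ᵥ g) a := by
  refine Finset.sum_subset (Finset.subset_univ D) fun a _ ha => ?_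
  have : (rm X D *ᵥ g) a = 0 := by
    rw [mulVec_eq_sum]
    refine Finset.sum_eq_zero fun b _ => ?_
    simp [rm, ha]
  rw [this, mul_zero]

theorem F12_symm (hX : Wt X) (D : Finset V) (f g : V → ℝ) : F12 X D f g = F12 X D g f := by
  have e1 : ∀ f g : V → ℝ, ∑ a ∈ D, f a * (rm X D *ᵥ g) a = ∑ a ∈ D, g a * (rm X D *ᵥ f) a := by
    intro f g
    rw [sum_D_eq, sum_D_eq, sum_A hX D f g]
    exact Finset.sum_congr rfl fun a _ => mul_comm _ _
  have e2 : ∀ f g : V → ℝ, F12 X D f g = ∑ a ∈ D, f a * (rm X D *ᵥ g) a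
      + ∑ a ∈ D, f a * (rm X D *ᵥ (rm X D *ᵥ g)) a := by
    intro f g
    unfold F12
    rw [← Finset.sum_add_distrib]
    exact Finset.sum_congr rfl fun a _ => by ring
  rw [e2, e2, e1 f g]
  congr 1
  calc ∑ a ∈ D, f a * (rm X D *ᵥ (rm X D *ᵥ g)) a
      = ∑ a, (rm X D *ᵥ f) a * (rm X D *ᵥ g) a := by rw [sum_D_eq, sum_A hX D]
    _ = ∑ a, (rm X D *ᵥ g) a * (rm X D *ᵥ f) a := Finset.sum_congr rfl fun a _ => mul_comm _ _
    _ = _ := by rw [sum_D_eq, sum_A hX D g]

theorem gP_le {Pa Pb La Lb : ℝ} (ha : 1 + Pa = Real.exp La) (hb : 1 + Pb = Real.exp Lb) :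
    gP Pa Pb ≤ La + Lb := by
  unfold gP
  rw [ha, hb, ← Real.exp_add, ← Real.exp_neg]
  have := Real.add_one_le_exp (-(La + Lb))
  linarith

/-- summing a pair weight against the forms -/
theorem pair_sum (hX : Wt X) (D : Finset V) {p q : V → ℝ} (hp : ∀ a, 0 ≤ p a)
    (hq : ∀ a, 0 ≤ q a) :
    ∑ a ∈ D, ∑ b ∈ D, (p a + p b) * (X a b * q a)
      ≤ ∑ a ∈ D, p a * q a + ∑ a ∈ D, p a * (rm X D *ᵥ q) a := by
  have e : ∑ a ∈ D, ∑ b ∈ D, (p a + p b) * (X a b * q a)
      = ∑ a ∈ D, ∑ b ∈ D, X a b * (p a * q a) + ∑ a ∈ D, ∑ b ∈ D, p b * (X b a * q a) := by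
    rw [← Finset.sum_add_distrib]
    refine Finset.sum_congr rfl fun a _ => ?_
    rw [← Finset.sum_add_distrib]
    exact Finset.sum_congr rfl fun b _ => by rw [hX.symm b a]; ring
  rw [e]
  refine add_le_add ?_ (le_of_eq ?_)
  · refine Finset.sum_le_sum fun a _ => ?_
    rw [← Finset.sum_mul]
    have := hX.row_le a D
    nlinarith [mul_nonneg (hp a) (hq a)]
  · rw [Finset.sum_comm]
    refine Finset.sum_congr rfl fun b hb => ?_
    rw [mulVec_rm_eq D _ hb, Finset.mul_sum]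

/-- The cost for small edges, before the integration in `s`. -/
theorem Cx.G_s (hC : Cx h H X M μ t) (hδ : ∀ a b, X a b ≤ 1 / 100) (hM : M t ≤ 213 / 200)
    {ρ : ℝ} (hρ : 0 ≤ ρ) (hE : ERate h X t ρ) {J : ℝ → ℝ}
    (hJ : ∀ r ∈ Icc 0 t, HasDerivAt J (-(pi3 r * (M t - M r) ^ 3)) r) {u v : V} (huv : u ≠ v)
    {G1 G2 G3 : ℝ → ℝ}
    (hG1 : ∀ s ∈ Icc 0 t, HasDerivAt G1 ((M t - M s) * pi3 s * ((Pi3 t - Pi3 s) ^ 2 / 2)) s)
    (hG2 : ∀ s ∈ Icc 0 t, HasDerivAt G2 (17884 / 100000 * ((M t - M s) * pi3 s * (J s - J t))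
      + 1728 / 10000 * ρ * ((M t - M s) ^ 3 * pi3 s * ((Pi3 t - Pi3 s) ^ 2 / 2))) s)
    (hG3 : ∀ s ∈ Icc 0 t, HasDerivAt G3 ((M t - M s) ^ 3 * pi3 s * (J s - J t)) s) :
    bb h {v} u t * bb h {u} v t * (1 - 1466 / 1000 * ρ ^ 2 * (
        2 * ρ * (G1 t - G1 0) * F12 X ({u, v} : Finset V)ᶜ (X u) (X v)
        + (G2 t - G2 0) * (F12 X ({u, v} : Finset V)ᶜ (X u) (Zs X ({u, v} : Finset V)ᶜ v)
          + F12 X ({u, v} : Finset V)ᶜ (X v) (Zs X ({u, v} : Finset V)ᶜ u))
        + 2 * (17884 / 100000) * (1728 / 10000) * (G3 t - G3 0) *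
          F12 X ({u, v} : Finset V)ᶜ (Zs X ({u, v} : Finset V)ᶜ u) (Zs X ({u, v} : Finset V)ᶜ v)))
      ≤ Real.exp (H u v t) * pp h u v t := by
  have hh := hC.hh
  have hX := hC.hX
  have htt : t ∈ Icc 0 t := ⟨hC.t0, le_rfl⟩
  obtain ⟨D, hD⟩ : ∃ D, D = ({u, v} : Finset V)ᶜ := ⟨_, rfl⟩
  have hD' : ({v, u} : Finset V)ᶜ = D := by rw [hD, Finset.pair_comm]
  have hA := hX.rm_nonneg D
  rw [← hD]
  have hmt : ∀ x ∈ Icc 0 t, 0 ≤ M t - M x := fun x hx => (hC.mI hM hx).1
  have hJ0 : ∀ s ∈ Icc 0 t, 0 ≤ J s - J t := by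
    intro s hs
    have := nonneg_of_forward (U := fun y => J s - J y) (U' := fun y => pi3 y * (M t - M y) ^ 3)
      (a := s) (s := t)
      (fun y hy => by
        have := (hJ y ⟨hs.1.trans hy.1, hy.2⟩).const_sub (J s)
        exact this.congr_deriv (by ring)) (by simp)
      (fun y hy _ => by
        have hy0 : y ∈ Icc 0 t := ⟨hs.1.trans hy.1, hy.2⟩
        have := pi3_nonneg (hC.mem hy0)
        have := hmt y hy0
        positivity) t ⟨hs.2, le_rfl⟩
    exact this
  -- the half costs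
  set Tf : V → V → V → ℝ → ℝ := fun w a b s => 1466 / 1000 * ρ ^ 2 * (X a b * pi3 s *
          (ρ * ((Pi3 t - Pi3 s) ^ 2 / 2) * (rm X D *ᵥ X w) a
          + 17884 / 100000 * (J s - J t) * (rm X D *ᵥ Zs X D w) a)) with hTf
  have hTn : ∀ w, ∀ s ∈ Icc 0 t, ∀ a b, 0 ≤ Tf w a b s := by
    intro w s hs a b
    have h1 := pi3_nonneg (hC.mem hs)
    have h2 := hX.nonneg a b
    have h3 := hJ0 s hs
    have h4 : 0 ≤ (rm X D *ᵥ X w) a := mulVec_nonneg hA (hX.nonneg w) a
    have h5 : 0 ≤ (rm X D *ᵥ Zs X D w) a := mulVec_nonneg hA (Zs_nonneg hX D w) a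
    simp only [hTf]
    positivity
  have hθ : ∀ w ∈ ({u, v} : Finset V), ∀ a ∈ ({u, v} : Finset V)ᶜ,
      ∀ b ∈ ({u, v} : Finset V)ᶜ, a ≠ b → X a b ≠ 0 →
      ∀ s ∈ Icc 0 t, ∀ G ⊆ ({u, v, a, b} : Finset V)ᶜ,
      RCG.tgt h w t (insert a (insert b G)) s - RCG.tgt h w t G s
        ≤ 1 * xg h w a b t s G + 1 * xg h w b a t s G := by
    intro w hw a ha b hb hab _ s hs G hG
    rw [one_mul, one_mul]
    simp only [Finset.mem_compl, Finset.mem_insert, Finset.mem_singleton, not_or] at ha hb hw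
    have hm : ∀ z ∈ ({u, v, a, b} : Finset V), z ∉ G := fun z hz hz' => by
      have := hG hz'
      rw [Finset.mem_compl] at this
      exact this hz
    have hwa : w ≠ a := by rcases hw with rfl | rfl; exacts [Ne.symm ha.1, Ne.symm ha.2]
    have hwb : w ≠ b := by rcases hw with rfl | rfl; exacts [Ne.symm hb.1, Ne.symm hb.2]
    have hwG : w ∉ G := hm w (by rcases hw with rfl | rfl <;> simp)
    exact xg_le hh hwa hwb hab hC.ht hs hwG (hm a (by simp)) (hm b (by simp))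
  have key := hC.gamF huv (θv := fun _ _ _ => 1) (θu := fun _ _ _ => 1)
    (fun _ _ _ _ => zero_le_one) (fun _ _ _ _ => zero_le_one)
    (hθ v (by simp)) (hθ u (by simp))
    (Tv := Tf v) (Tu := Tf u)
    (fun s hs a ha b hb hab _ => by
      simp only [Finset.mem_compl, Finset.mem_insert, Finset.mem_singleton, not_or] at ha hb
      have := hC.T_s hδ hM hρ hE hJ huv (Ne.symm ha.1) (Ne.symm hb.1) (Ne.symm ha.2)
        (Ne.symm hb.2) hab hs
      rw [← hD] at this
      exact this)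
    (fun s hs a ha b hb hab _ => by
      simp only [Finset.mem_compl, Finset.mem_insert, Finset.mem_singleton, not_or] at ha hb
      have := hC.T_s hδ hM hρ hE hJ huv.symm (Ne.symm ha.2) (Ne.symm hb.2) (Ne.symm ha.1)
        (Ne.symm hb.1) hab hs
      rw [hD'] at this
      have e : ({v, u, a, b} : Finset V) = {u, v, a, b} := by
        ext z; simp only [Finset.mem_insert, Finset.mem_singleton]; tauto
      rw [e, hh.Hsymm v u, mul_comm (bb h {u} v t)] at this
      exact this)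
    (fun s hs a b => ⟨hTn v s hs a b, hTn u s hs a b⟩)
    (Γ := fun s => 1466 / 1000 * ρ ^ 2 * (2 * ρ * G1 s * F12 X D (X u) (X v)
        + G2 s * (F12 X D (X u) (Zs X D v) + F12 X D (X v) (Zs X D u))
        + 2 * (17884 / 100000) * (1728 / 10000) * G3 s * F12 X D (Zs X D u) (Zs X D v)))
    (g := fun s => 1466 / 1000 * ρ ^ 2 * (
        2 * ρ * ((M t - M s) * pi3 s * ((Pi3 t - Pi3 s) ^ 2 / 2)) * F12 X D (X u) (X v)
        + (17884 / 100000 * ((M t - M s) * pi3 s * (J s - J t))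
          + 1728 / 10000 * ρ * ((M t - M s) ^ 3 * pi3 s * ((Pi3 t - Pi3 s) ^ 2 / 2)))
          * (F12 X D (X u) (Zs X D v) + F12 X D (X v) (Zs X D u))
        + 2 * (17884 / 100000) * (1728 / 10000) * ((M t - M s) ^ 3 * pi3 s * (J s - J t))
          * F12 X D (Zs X D u) (Zs X D v)))
    (fun s hs => by
      have h1 := ((hG1 s hs).const_mul (2 * ρ)).mul_const (F12 X D (X u) (X v))
      have h2 := (hG2 s hs).mul_const (F12 X D (X u) (Zs X D v) + F12 X D (X v) (Zs X D u))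
      have h3 := ((hG3 s hs).const_mul (2 * (17884 / 100000) * (1728 / 10000))).mul_const
        (F12 X D (Zs X D u) (Zs X D v))
      exact ((h1.add h2).add h3).const_mul (1466 / 1000 * ρ ^ 2))
    (fun s hs => by
      have hs1 := hC.mem hs
      have hm := hC.mI hM hs
      have hm' : M t - M s ∈ Icc (0 : ℝ) (23 / 20) := ⟨hm.1, hm.2.trans (by norm_num)⟩
      have hp3 := pi3_nonneg hs1
      have hJs := hJ0 s hs
      obtain ⟨m, hmd⟩ : ∃ m, m = M t - M s := ⟨_, rfl⟩
      rw [← hmd] at hm hm' ⊢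
      obtain ⟨P, hP⟩ : ∃ P, P = (Pi3 t - Pi3 s) ^ 2 / 2 := ⟨_, rfl⟩
      have hP0 : 0 ≤ P := by rw [hP]; positivity
      rw [← hP]
      obtain ⟨Jd, hJd⟩ : ∃ Jd, Jd = J s - J t := ⟨_, rfl⟩
      rw [← hJd] at hJs ⊢
      -- vectors
      obtain ⟨pw, hpw⟩ : ∃ pw : V → V → ℝ, pw = fun w a => m * X w a
        + 1728 / 10000 * m ^ 3 * Zs X D w a := ⟨_, rfl⟩
      obtain ⟨qw, hqw⟩ : ∃ qw : V → V → ℝ, qw = fun w a => ρ * P * (rm X D *ᵥ X w) a
        + 17884 / 100000 * Jd * (rm X D *ᵥ Zs X D w) a := ⟨_, rfl⟩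
      have hpw0 : ∀ w a, 0 ≤ pw w a := fun w a => by
        have h1 := hX.nonneg w a
        have h2 := Zs_nonneg hX D w a
        have h3 := hm.1
        rw [hpw]
        positivity
      have hqw0 : ∀ w a, 0 ≤ qw w a := fun w a => by
        have h4 : 0 ≤ (rm X D *ᵥ X w) a := mulVec_nonneg hA (hX.nonneg w) a
        have h5 : 0 ≤ (rm X D *ᵥ Zs X D w) a := mulVec_nonneg hA (Zs_nonneg hX D w) a
        rw [hqw]
        positivity
      have hgp : ∀ w ∈ ({u, v} : Finset V), ∀ a b,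
          gP (Pt H X M D w t a s) (Pt H X M D w t b s) ≤ pw w a + pw w b := by
        intro w hw a b
        refine (gP_le (La := H w a t - H w a s + Yt X D w m a)
          (Lb := H w b t - H w b s + Yt X D w m b) (by unfold Pt; rw [hmd]; ring)
          (by unfold Pt; rw [hmd]; ring)).trans ?_
        have hl : ∀ a, H w a t - H w a s + Yt X D w m a ≤ pw w a := by
          intro a
          have h1 := hC.dH w a hs.1 hs.2 le_rfl
          rw [← hmd] at h1
          have h2 := Yt_le hX D w hm' a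
          have h3 := g3_s hm
          have h4 := Zs_nonneg hX D w a
          have h5 : Yt X D w m a ≤ 1728 / 10000 * m ^ 3 * Zs X D w a :=
            h2.trans (mul_le_mul_of_nonneg_right h3 h4)
          rw [hpw]
          show _ ≤ m * X w a + 1728 / 10000 * m ^ 3 * Zs X D w a
          linarith
        exact add_le_add (hl a) (hl b)
      -- one half
      have half : ∀ w w', w ∈ ({u, v} : Finset V) →
          ∑ a ∈ D, ∑ b ∈ D, gP (Pt H X M D w t a s) (Pt H X M D w t b s) * (1 * Tf w' a b s)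
          ≤ 1466 / 1000 * ρ ^ 2 * (pi3 s * (∑ a ∈ D, pw w a * qw w' a
            + ∑ a ∈ D, pw w a * (rm X D *ᵥ qw w') a)) := by
        intro w w' hw
        have h1 := pair_sum hX D (hpw0 w) (hqw0 w')
        have h2 : ∑ a ∈ D, ∑ b ∈ D, gP (Pt H X M D w t a s) (Pt H X M D w t b s)
            * (1 * Tf w' a b s)
            ≤ ∑ a ∈ D, ∑ b ∈ D, (1466 / 1000 * ρ ^ 2 * pi3 s) *
              ((pw w a + pw w b) * (X a b * qw w' a)) := by
          refine Finset.sum_le_sum fun a _ => Finset.sum_le_sum fun b _ => ?_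
          have e : Tf w' a b s = (1466 / 1000 * ρ ^ 2 * pi3 s) * (X a b * qw w' a) := by
            simp only [hTf, hqw, hP, hJd]; ring
          rw [one_mul, e]
          have h3 := hX.nonneg a b
          have h4 := hqw0 w' a
          calc gP (Pt H X M D w t a s) (Pt H X M D w t b s) *
                ((1466 / 1000 * ρ ^ 2 * pi3 s) * (X a b * qw w' a))
              ≤ (pw w a + pw w b) * ((1466 / 1000 * ρ ^ 2 * pi3 s) * (X a b * qw w' a)) :=
                mul_le_mul_of_nonneg_right (hgp w hw a b) (by positivity)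
            _ = _ := by ring
        refine h2.trans ?_
        simp only [← Finset.mul_sum]
        refine (mul_le_mul_of_nonneg_left h1 (by positivity)).trans (le_of_eq ?_)
        ring
      -- the forms
      have form : ∀ w w', ∑ a ∈ D, pw w a * qw w' a + ∑ a ∈ D, pw w a * (rm X D *ᵥ qw w') a
          = m * (ρ * P) * F12 X D (X w) (X w')
            + m * (17884 / 100000 * Jd) * F12 X D (X w) (Zs X D w')
            + 1728 / 10000 * m ^ 3 * (ρ * P) * F12 X D (Zs X D w) (X w')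
            + 1728 / 10000 * m ^ 3 * (17884 / 100000 * Jd) * F12 X D (Zs X D w) (Zs X D w') := by
        intro w w'
        have e1 : (qw w') = (ρ * P) • (rm X D *ᵥ X w')
            + (17884 / 100000 * Jd) • (rm X D *ᵥ Zs X D w') := by
          rw [hqw]; funext a; simp [Pi.add_apply, Pi.smul_apply, smul_eq_mul]
        have e2 : ∀ a, (rm X D *ᵥ qw w') a = ρ * P * (rm X D *ᵥ (rm X D *ᵥ X w')) a
            + 17884 / 100000 * Jd * (rm X D *ᵥ (rm X D *ᵥ Zs X D w')) a := by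
          intro a
          rw [e1, Matrix.mulVec_add, Matrix.mulVec_smul, Matrix.mulVec_smul]
          simp [Pi.add_apply, Pi.smul_apply, smul_eq_mul]
        unfold F12
        rw [← Finset.sum_add_distrib, Finset.mul_sum, Finset.mul_sum, Finset.mul_sum,
          Finset.mul_sum, ← Finset.sum_add_distrib, ← Finset.sum_add_distrib,
          ← Finset.sum_add_distrib]
        refine Finset.sum_congr rfl fun a _ => ?_
        rw [e2, hpw, hqw]
        ring
      rw [← hD]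
      have e3 : ∑ a ∈ D, ∑ b ∈ D,
          (gP (Pt H X M D u t a s) (Pt H X M D u t b s) * (1 * Tf v a b s)
            + gP (Pt H X M D v t a s) (Pt H X M D v t b s) * (1 * Tf u a b s))
          = ∑ a ∈ D, ∑ b ∈ D, gP (Pt H X M D u t a s) (Pt H X M D u t b s) * (1 * Tf v a b s)
          + ∑ a ∈ D, ∑ b ∈ D, gP (Pt H X M D v t a s) (Pt H X M D v t b s)
            * (1 * Tf u a b s) := by
        rw [← Finset.sum_add_distrib]
        exact Finset.sum_congr rfl fun a _ => Finset.sum_add_distrib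
      rw [e3]
      refine (add_le_add (half u v (by simp)) (half v u (by simp))).trans (le_of_eq ?_)
      rw [form u v, form v u, F12_symm hX D (X v) (X u), F12_symm hX D (Zs X D u) (X v),
        F12_symm hX D (Zs X D v) (X u), F12_symm hX D (Zs X D v) (Zs X D u)]
      ring)
  refine le_trans (le_of_eq ?_) key
  ring

end Pool.Agent.RCG
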