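import Pool.Agent.RCG.Cx

/-! Restart at a positive time: shifted hazards (MP_73ccd0_lc, general graphs). -/

namespace Pool.Agent.RCG

open Set Finset Pool.Agent.RCRSHalf

set_option linter.unusedSectionVars false

variable {V : Type*} [Fintype V] [DecidableEq V]
variable {h : ℝ → V → V → ℝ} {H : V → V → ℝ → ℝ} {X : V → V → ℝ} {M μ : ℝ → ℝ} {t : ℝ}

/-- shifted hazards -/
def sh (h : ℝ → V → V → ℝ) (s : ℝ) : ℝ → V → V → ℝ := fun r => h (s + r)

/-- shifted cumulative hazards -/
def sH (H : V → V → ℝ → ℝ) (s : ℝ) : V → V → ℝ → ℝ := fun a b r => H a b (s + r) - H a b s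

theorem hasDerivAt_shift {f : ℝ → ℝ} {f' s r : ℝ} (hf : HasDerivAt f f' (s + r)) :
    HasDerivAt (fun r => f (s + r)) f' r := hf.comp_const_add s r

theorem Haz.shift (hh : Haz h H) (s : ℝ) : Haz (sh h s) (sH H s) where
  symm t a b := hh.symm _ a b
  diag t a := hh.diag _ a
  nonneg t a b := hh.nonneg _ a b
  cont a b := (hh.cont a b).comp (continuous_const.add continuous_id)
  bdd := by obtain ⟨C, hC⟩ := hh.bdd; exact ⟨C, fun t a b => hC _ a b⟩
  Hd a b r := (hasDerivAt_shift (hh.Hd a b (s + r))).sub_const _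
  H0 a b := by simp [sH]

theorem IsEv.shift {k : ℝ → V → ℝ} {ρ c : ℝ → ℝ} {s1 s : ℝ} {R : Finset V → ℝ → ℝ}
    (hR : IsEv h k ρ c s1 R) (hs : 0 ≤ s) :
    IsEv (sh h s) (fun r => k (s + r)) (fun r => ρ (s + r)) (fun r => c (s + r)) (s1 - s)
      (fun F r => R F (s + r)) where
  deriv F r hr := by
    have := hR.deriv F (s + r) ⟨by linarith [hr.1], by linarith [hr.2]⟩
    exact hasDerivAt_shift this
  nonneg F r hr := hR.nonneg F (s + r) ⟨by linarith [hr.1], by linarith [hr.2]⟩

/-- uniqueness for the backward equation -/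
theorem IsEv.unique (h0 : ∀ t a b, 0 ≤ h t a b) {k : ℝ → V → ℝ}
    {ρ c : ℝ → ℝ} (k0 : ∀ t a, 0 ≤ k t a) (ρ0 : ∀ t, 0 ≤ ρ t) {s1 : ℝ}
    {R R' : Finset V → ℝ → ℝ} (hR : IsEv h k ρ c s1 R) (hR' : IsEv h k ρ c s1 R')
    (he : ∀ F, R F s1 = R' F s1) : ∀ F, ∀ r ∈ Icc 0 s1, R F r = R' F r := by
  intro F
  induction hn : F.card using Nat.strong_induction_on generalizing F with
  | _ n ih =>
  have hih : ∀ r ∈ Icc 0 s1, ∀ a ∈ F, ∀ b ∈ F,
      R ((F.erase a).erase b) r = R' ((F.erase a).erase b) r := by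
    intro r hr a ha b hb
    have hcard : ((F.erase a).erase b).card < n := by
      rw [← hn]
      exact (Finset.card_le_card (Finset.erase_subset _ _)).trans_lt
        (Finset.card_erase_lt_of_mem ha)
    exact ih _ hcard _ rfl r hr
  have hgen : ∀ r ∈ Icc 0 s1, gen (h r) (fun G => R G r) F - gen (h r) (fun G => R' G r) F
      = -(rate (h r) F * (R F r - R' F r)) := by
    intro r hr
    unfold gen rate
    rw [← mul_sub, ← Finset.sum_sub_distrib, mul_assoc, Finset.sum_mul, ← mul_neg,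
      ← Finset.sum_neg_distrib]
    congr 1
    refine Finset.sum_congr rfl fun a ha => ?_
    rw [← Finset.sum_sub_distrib, Finset.sum_mul, ← Finset.sum_neg_distrib]
    refine Finset.sum_congr rfl fun b hb => ?_
    beta_reduce
    rw [hih r hr a ha b hb]
    ring
  have main : ∀ σ : ℝ, ∀ r ∈ Icc 0 s1, 0 ≤ σ * (R F r - R' F r) := by
    intro σ
    refine nonneg_of_backward (U' := fun r => σ *
      (-(gen (h r) (fun G => R G r) F - (∑ a ∈ F, k r a) * R F r - ρ r * R F r + c r)
      - -(gen (h r) (fun G => R' G r) F - (∑ a ∈ F, k r a) * R' F r - ρ r * R' F r + c r)))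
      (fun r hr => ((hR.deriv F r hr).sub (hR'.deriv F r hr)).const_mul σ) ?_ ?_
    · rw [he F]; simp
    · intro r hr hlt
      have e := hgen r hr
      have h1 := rate_nonneg (h0 r) F
      have h2 : 0 ≤ ∑ a ∈ F, k r a := Finset.sum_nonneg fun a _ => k0 r a
      have h3 := ρ0 r
      have h4 : σ * (-(gen (h r) (fun G => R G r) F - (∑ a ∈ F, k r a) * R F r - ρ r * R F r + c r)
          - -(gen (h r) (fun G => R' G r) F - (∑ a ∈ F, k r a) * R' F r - ρ r * R' F r + c r))
          = (rate (h r) F + ∑ a ∈ F, k r a + ρ r) * (σ * (R F r - R' F r)) := by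
        linear_combination (-σ) * e
      rw [h4]
      exact mul_nonpos_of_nonneg_of_nonpos (by positivity) hlt.le
  intro r hr
  have h1 := main 1 r hr
  have h2 := main (-1) r hr
  linarith

/-- the target function in the shifted world -/
theorem tgt_shift (hh : Haz h H) (u : V) {t s : ℝ} (ht : t ∈ Icc (0 : ℝ) 1) (hs : s ∈ Icc 0 t)
    (F : Finset V) {r : ℝ} (hr : r ∈ Icc 0 (t - s)) :
    tgt (sh h s) u (t - s) F r = tgt h u t F (s + r) := by
  have h1 := (hh.shift s).tgt u (t := t - s) ⟨by linarith [hs.2], by linarith [hs.1, ht.2]⟩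
  have h2 := (hh.tgt u ht).ev.shift hs.1
  refine IsEv.unique (hh.shift s).nonneg (fun t a => hh.nonneg _ _ _)
    (fun _ => le_rfl) h1.ev h2 (fun F => ?_) F r hr
  rw [h1.end_ F]
  simp only [add_sub_cancel]
  rw [(hh.tgt u ht).end_ F]

/-- the target function as a probability in the shifted world -/
theorem bb_shift (hh : Haz h H) {u : V} {t s : ℝ} (ht : t ∈ Icc (0 : ℝ) 1) (hs : s ∈ Icc 0 t)
    {F : Finset V} (hu : u ∉ F) :
    bb (sh h s) (insert u F)ᶜ u (t - s) = tgt h u t F s := by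
  rw [bb_eq (hh.shift s) (D := (insert u F)ᶜ) (u := u) (by simp)
    ⟨by linarith [hs.2], by linarith [hs.1, ht.2]⟩,
    tgt_shift hh u ht hs _ ⟨le_rfl, by linarith [hs.2]⟩, add_zero]
  congr 1
  ext a
  simp only [Finset.mem_compl, Finset.mem_insert]
  constructor
  · intro h1
    by_contra h2
    exact h1 (by tauto)
  · intro h1 h2
    have : a ≠ u := fun e => hu (e ▸ h1)
    tauto

/-- the context in the shifted world -/
theorem Cx.shift (hC : Cx h H X M μ t) {s : ℝ} (hs : s ∈ Icc 0 t) :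
    Cx (sh h s) (sH H s) X (fun r => M (s + r) - M s) (fun r => μ (s + r)) (t - s) where
  hh := hC.hh.shift s
  hX := hC.hX
  t0 := by linarith [hs.2]
  t1 := by linarith [hs.1, hC.t1]
  Md r hr := (hasDerivAt_shift (hC.Md (s + r) ⟨by linarith [hs.1, hr.1], by linarith [hr.2]⟩)).sub_const _
  μ0 r hr := hC.μ0 (s + r) ⟨by linarith [hs.1, hr.1], by linarith [hr.2]⟩
  M0 := by simp
  Mt := by
    have h1 := hC.Mnn hs
    have h2 := hC.Mt
    simp only [add_sub_cancel]
    linarith
  le r hr := hC.le (s + r) ⟨by linarith [hs.1, hr.1], by linarith [hr.2]⟩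

/-! ### Values of the closures in the shifted world -/

theorem Pt_shift (H0 : Finset V) (w : V) (s T : ℝ) (a : V) (r : ℝ) :
    Pt (sH H s) X (fun r => M (s + r) - M s) H0 w (T - s) a r
      = Pt H X M H0 w T a (s + r) := by
  unfold Pt sH
  simp only [add_sub_cancel]
  congr 2
  congr 1
  · ring
  · congr 1; ring

theorem Pt2_shift (H0 : Finset V) (p q : V) (s T : ℝ) (a : V) (r : ℝ) :
    Pt2 (sH H s) X (fun r => M (s + r) - M s) H0 p q (T - s) a r
      = Pt2 H X M H0 p q T a (s + r) := by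
  unfold Pt2 sH
  simp only [add_sub_cancel]
  congr 2
  congr 1
  · ring
  · congr 1; ring

end Pool.Agent.RCG
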