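import Pool.Agent.RCG.Rh
import Pool.Agent.RCG.FRate

/-! Sup bound for the two step walk (MP_73ccd0_lc, general graphs). -/

namespace Pool.Agent.RCG

open Set Finset Matrix Pool.Agent.RCRSHalf

set_option linter.unusedSectionVars false

variable {V : Type*} [Fintype V] [DecidableEq V]
variable {h : ℝ → V → V → ℝ} {H : V → V → ℝ → ℝ} {X : V → V → ℝ} {M μ : ℝ → ℝ} {t : ℝ}

noncomputable def pi7 (s : ℝ) : ℝ := 1 + s + s ^ 2 + s ^ 3 + s ^ 4 + s ^ 5 + s ^ 6

theorem pi7_row {s : ℝ} (hs : 0 ≤ s) : (1 - s) * pi7 s ≤ 1 := by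
  unfold pi7
  have : 0 ≤ s ^ 7 := by positivity
  nlinarith [this]

theorem pi7_nonneg {s : ℝ} (hs : 0 ≤ s) : 0 ≤ pi7 s := by unfold pi7; positivity

namespace Sup2

open QE PairIneq

def pi (s : QE) : QE := k 1 + s * (k 1 + s * (k 1 + s * (k 1 + s * (k 1 + s * (k 1 + s)))))

def G : QE := k 160 * (A * pi A) + k 220 * (B * pi B) + k (-1) * (A * (B * (k 1000 + k 877 * B)))

set_option maxRecDepth 100000 in
theorem ck : nonnegB 6 6 0 0 G = true := by decide +kernel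

theorem poly {x p : ℝ} (hx0 : 0 ≤ x) (hx1 : x ≤ 1) (hp0 : 0 ≤ p) (hp1 : p ≤ 1) :
    x * Fc p ≤ 16 / 100 * (x * pi7 x) + 22 / 100 * (p * pi7 p) := by
  have h := QE.nonneg_of_check ck hx0 hx1 hp0 hp1 (le_refl (0 : ℝ)) zero_le_one
    (le_refl (0 : ℝ)) zero_le_one
  simp only [G, PairIneq.eval_add, PairIneq.eval_mul, k, pi, QE.eval] at h
  unfold Fc pi7
  push_cast at h
  ring_nf at h ⊢
  linarith

end Sup2

theorem two_step_poly {p : ℝ} (hp0 : 0 ≤ p) (hp1 : p ≤ 1) :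
    (1 - p) * (38 / 100 + Fc p * (1 - p)) ≤ 457 / 1000 := by
  unfold Fc
  nlinarith [sq_nonneg (p - 24 / 100), mul_nonneg hp0 (sq_nonneg (p - 24 / 100)),
    mul_nonneg (sub_nonneg.2 hp1) (sq_nonneg (p - 24 / 100)),
    mul_nonneg (mul_nonneg hp0 (sub_nonneg.2 hp1)) (sq_nonneg (p - 24 / 100)),
    mul_nonneg (mul_nonneg hp0 hp0) (sq_nonneg (p - 24 / 100))]

theorem sup_two (hX : Wt X) {w : V} {H0 : Finset V} (hw : w ∉ H0) (a : V) :
    (rm X H0 *ᵥ (rm X H0 *ᵥ fun b => Fc (X w b))) a ≤ 457 / 1000 := by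
  by_cases ha : a ∈ H0
  swap
  · rw [rm_mulVec_out H0 _ ha]; norm_num
  rw [rm_mulVec H0 _ ha]
  have hwr : ∀ b ∈ H0, ∑ c ∈ H0, X c b + X w b ≤ 1 := fun b _ => by
    have h1 : ∑ c ∈ insert w H0, X b c ≤ 1 := hX.row_le b _
    rw [Finset.sum_insert hw] at h1
    have e : ∑ c ∈ H0, X c b = ∑ c ∈ H0, X b c := Finset.sum_congr rfl fun c _ => hX.symm c b
    rw [e, hX.symm w b]; linarith
  have hp0 := hX.nonneg w a
  have hp1 := hX.le_one w a
  set p := X w a with hp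
  -- expand
  have e1 : ∑ c ∈ H0, X a c * (rm X H0 *ᵥ fun b => Fc (X w b)) c
      = ∑ c ∈ H0, (X a c * (X c a * Fc p)) + ∑ c ∈ H0, ∑ b ∈ H0.erase a, X c b * (X a c * Fc (X w b)) := by
    rw [← Finset.sum_add_distrib]
    refine Finset.sum_congr rfl fun c hc => ?_
    rw [rm_mulVec H0 _ hc, ← Finset.add_sum_erase H0 _ ha, mul_add, Finset.mul_sum]
    congr 1
    exact Finset.sum_congr rfl fun b _ => by ring
  rw [e1]
  have hrow_a : ∑ c ∈ H0, X a c ≤ 1 - p := by
    have := hwr a ha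
    have e : ∑ c ∈ H0, X c a = ∑ c ∈ H0, X a c := Finset.sum_congr rfl fun c _ => hX.symm c a
    rw [e] at this; linarith
  -- the return part
  have r1 : ∑ c ∈ H0, (X a c * (X c a * Fc p)) ≤ (1 - p) * ((1 - p) * Fc p) := by
    have hF := Fc_nonneg hp0
    have hsq : ∑ c ∈ H0, X a c * X c a ≤ (1 - p) * (1 - p) := by
      calc ∑ c ∈ H0, X a c * X c a ≤ ∑ c ∈ H0, X a c * (1 - p) := by
            refine Finset.sum_le_sum fun c hc => mul_le_mul_of_nonneg_left ?_ (hX.nonneg a c)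
            rw [hX.symm c a]
            exact (Finset.single_le_sum (f := fun c => X a c) (fun c _ => hX.nonneg a c) hc).trans
              hrow_a
        _ = (∑ c ∈ H0, X a c) * (1 - p) := by rw [Finset.sum_mul]
        _ ≤ (1 - p) * (1 - p) := mul_le_mul_of_nonneg_right hrow_a (by linarith)
    calc ∑ c ∈ H0, (X a c * (X c a * Fc p)) = (∑ c ∈ H0, X a c * X c a) * Fc p := by
          rw [Finset.sum_mul]; exact Finset.sum_congr rfl fun c _ => by ring
      _ ≤ (1 - p) * (1 - p) * Fc p := mul_le_mul_of_nonneg_right hsq hF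
      _ = _ := by ring
  -- the other part
  have r2 : ∑ c ∈ H0, ∑ b ∈ H0.erase a, X c b * (X a c * Fc (X w b)) ≤ 38 / 100 * (1 - p) := by
    have s1 : ∑ c ∈ H0, ∑ b ∈ H0.erase a, X c b * (X a c * Fc (X w b))
        ≤ ∑ c ∈ H0, ∑ b ∈ H0.erase a, X c b * (16 / 100 * (X a c * pi7 (X a c))
          + 22 / 100 * (X w b * pi7 (X w b))) :=
      Finset.sum_le_sum fun c _ => Finset.sum_le_sum fun b _ =>
        mul_le_mul_of_nonneg_left (Sup2.poly (hX.nonneg _ _) (hX.le_one _ _) (hX.nonneg _ _)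
          (hX.le_one _ _)) (hX.nonneg c b)
    have s2 : ∑ c ∈ H0, ∑ b ∈ H0.erase a, X c b * (16 / 100 * (X a c * pi7 (X a c))
          + 22 / 100 * (X w b * pi7 (X w b)))
        = 16 / 100 * ∑ c ∈ H0, (∑ b ∈ H0.erase a, X c b) * (X a c * pi7 (X a c))
          + 22 / 100 * ∑ b ∈ H0.erase a, (∑ c ∈ H0, X c b) * (X w b * pi7 (X w b)) := by
      simp only [mul_add, Finset.sum_add_distrib]
      congr 1
      · rw [Finset.mul_sum]
        refine Finset.sum_congr rfl fun c _ => ?_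
        rw [Finset.sum_mul, Finset.mul_sum]
        exact Finset.sum_congr rfl fun b _ => by ring
      · rw [Finset.sum_comm, Finset.mul_sum]
        refine Finset.sum_congr rfl fun c _ => ?_
        rw [Finset.sum_mul, Finset.mul_sum]
        exact Finset.sum_congr rfl fun b _ => by ring
    have s3 : ∑ c ∈ H0, (∑ b ∈ H0.erase a, X c b) * (X a c * pi7 (X a c)) ≤ 1 - p := by
      refine le_trans (Finset.sum_le_sum fun c hc => ?_) hrow_a
      have hx0 := hX.nonneg a c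
      have hr : ∑ b ∈ H0.erase a, X c b ≤ 1 - X a c := by
        have h1 : ∑ b ∈ insert a (H0.erase a), X c b ≤ 1 := hX.row_le c _
        rw [Finset.sum_insert (by simp), hX.symm c a] at h1
        linarith
      calc (∑ b ∈ H0.erase a, X c b) * (X a c * pi7 (X a c))
          ≤ (1 - X a c) * (X a c * pi7 (X a c)) :=
            mul_le_mul_of_nonneg_right hr (mul_nonneg hx0 (pi7_nonneg hx0))
        _ = X a c * ((1 - X a c) * pi7 (X a c)) := by ring
        _ ≤ X a c * 1 := mul_le_mul_of_nonneg_left (pi7_row hx0) hx0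
        _ = X a c := mul_one _
    have s4 : ∑ b ∈ H0.erase a, (∑ c ∈ H0, X c b) * (X w b * pi7 (X w b)) ≤ 1 - p := by
      have h1 : ∑ b ∈ insert a (H0.erase a), X w b ≤ 1 := hX.row_le w _
      rw [Finset.sum_insert (by simp)] at h1
      refine le_trans (Finset.sum_le_sum fun b hb => ?_) (show ∑ b ∈ H0.erase a, X w b ≤ 1 - p by
        linarith)
      have hx0 := hX.nonneg w b
      have hr : ∑ c ∈ H0, X c b ≤ 1 - X w b := by
        have := hwr b (Finset.mem_of_mem_erase hb); linarith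
      calc (∑ c ∈ H0, X c b) * (X w b * pi7 (X w b))
          ≤ (1 - X w b) * (X w b * pi7 (X w b)) :=
            mul_le_mul_of_nonneg_right hr (mul_nonneg hx0 (pi7_nonneg hx0))
        _ = X w b * ((1 - X w b) * pi7 (X w b)) := by ring
        _ ≤ X w b * 1 := mul_le_mul_of_nonneg_left (pi7_row hx0) hx0
        _ = X w b := mul_one _
    rw [s2] at s1
    linarith
  have := two_step_poly hp0 hp1
  nlinarith

theorem rh_two (hX : Wt X) {w : V} {H0 : Finset V} (hw : w ∉ H0) (a : V) :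
    (rm X H0 *ᵥ (rm X H0 *ᵥ Rh X H0 w)) a ≤ 526 / 1000 := by
  have hA := hX.rm_nonneg H0
  have hr := hX.rm_row H0
  have hF : ∀ b, 0 ≤ Fc (X w b) := fun b => Fc_nonneg (hX.nonneg w b)
  have hF1 : ∀ b, 0 ≤ (rm X H0 *ᵥ fun b => Fc (X w b)) b := mulVec_nonneg hA hF
  have hF2 : ∀ b, 0 ≤ (rm X H0 *ᵥ (rm X H0 *ᵥ fun b => Fc (X w b))) b := mulVec_nonneg hA hF1
  have hc1 : rm X H0 * (rm X H0 * rm X H0) = (rm X H0 * rm X H0) * rm X H0 := by
    rw [Matrix.mul_assoc]
  have e1 : rm X H0 *ᵥ Rh X H0 w = Res (13 / 100) (rm X H0 * rm X H0)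
      (rm X H0 *ᵥ fun b => Fc (X w b)) :=
    Res_comm (by norm_num) (by norm_num) (hA.mul hA) (sq_row hA hr) hc1 hF
  have e2 : rm X H0 *ᵥ (rm X H0 *ᵥ Rh X H0 w) = Res (13 / 100) (rm X H0 * rm X H0)
      (rm X H0 *ᵥ (rm X H0 *ᵥ fun b => Fc (X w b))) := by
    rw [e1]
    exact Res_comm (by norm_num) (by norm_num) (hA.mul hA) (sq_row hA hr) hc1 hF1
  rw [e2]
  have := Res_le (θ := 13 / 100) (by norm_num) (by norm_num) (hA.mul hA) (sq_row hA hr) hF2
    (c := 457 / 1000) (by norm_num) (sup_two hX hw) a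
  refine this.trans ?_
  norm_num

end Pool.Agent.RCG
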