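import Pool.Agent.RCG.Jint
import Pool.Agent.RCG.Sup2

/-! Sup-level pair rates with the joint row constraint (MP_73ccd0_lc, general graphs). -/

namespace Pool.Agent.RCG

open Set Finset Matrix Pool.Agent.RCRSHalf

set_option linter.unusedSectionVars false

namespace SupR
open QE PairIneq

def x : QE := QE.c 23 20 * (A * B)
/-- `1 + x/2 + x^2/6 + .0535 x^3` -/
def u : QE := k 1 + x * (QE.c 1 2 + x * (QE.c 1 6 + x * QE.c 535 10000))
def m : QE := QE.c 23 20 * B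
def G1 : QE := QE.c 253 1000 + m * (QE.c 1 8 + m * QE.c 9 100)
  + k (-1) * ((k 1 + k (-1) * A) * (A * (u * u)))
set_option maxRecDepth 100000 in
theorem ck1 : nonnegB 24 10 0 0 G1 = true := by decide +kernel
def e1 : QE := k 1 + x * u
def G2 : QE := QE.c 10125 10000 + k (-1) * ((k 1 + k (-1) * A) * e1)
set_option maxRecDepth 100000 in
theorem ck2 : nonnegB 30 4 0 0 G2 = true := by decide +kernel

theorem poly1 {s m : ℝ} (hs0 : 0 ≤ s) (hs1 : s ≤ 1) (hm0 : 0 ≤ m) (hm1 : m ≤ 23 / 20) :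
    (1 - s) * (s * (1 + m * s / 2 + (m * s) ^ 2 / 6 + 535 / 10000 * (m * s) ^ 3) ^ 2)
      ≤ 253 / 1000 + m / 8 + 9 / 100 * m ^ 2 := by
  have h := QE.nonneg_of_check ck1 hs0 hs1 (show 0 ≤ m * (20 / 23) by positivity)
    (show m * (20 / 23) ≤ 1 by linarith) (le_refl (0 : ℝ)) zero_le_one
    (le_refl (0 : ℝ)) zero_le_one
  simp only [G1, SupR.m, SupR.x, u, PairIneq.eval_add, PairIneq.eval_mul, k, QE.eval] at h
  push_cast at h
  ring_nf at h ⊢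
  linarith

theorem poly2 {s m : ℝ} (hs0 : 0 ≤ s) (hs1 : s ≤ 1) (hm0 : 0 ≤ m) (hm1 : m ≤ 23 / 20) :
    (1 - s) * (1 + (m * s) * (1 + m * s / 2 + (m * s) ^ 2 / 6 + 535 / 10000 * (m * s) ^ 3))
      ≤ 10125 / 10000 := by
  have h := QE.nonneg_of_check ck2 hs0 hs1 (show 0 ≤ m * (20 / 23) by positivity)
    (show m * (20 / 23) ≤ 1 by linarith) (le_refl (0 : ℝ)) zero_le_one
    (le_refl (0 : ℝ)) zero_le_one
  simp only [G2, e1, SupR.x, u, PairIneq.eval_add, PairIneq.eval_mul, k, QE.eval] at h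
  push_cast at h
  ring_nf at h ⊢
  linarith

end SupR

theorem exp_u {x : ℝ} (hx0 : 0 ≤ x) (hx1 : x ≤ 23 / 20) :
    Real.exp x ≤ 1 + x * (1 + x / 2 + x ^ 2 / 6 + 535 / 10000 * x ^ 3) := by
  set z := x / 2 with hz
  have hz0 : 0 ≤ z := by positivity
  have hz1 : z ≤ 23 / 40 := by rw [hz]; linarith
  have hb := Real.exp_bound' hz0 (show z ≤ 1 by linarith) (n := 6) (by norm_num)
  have hsum : ∑ m ∈ Finset.range 6, z ^ m / (m.factorial : ℝ)
      = 1 + z + z ^ 2 / 2 + z ^ 3 / 6 + z ^ 4 / 24 + z ^ 5 / 120 := by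
    simp [Finset.sum_range_succ, Nat.factorial]
  have hf : ((6 : ℕ).factorial : ℝ) = 720 := by norm_num [Nat.factorial]
  rw [hsum, hf] at hb
  push_cast at hb
  have hexp : Real.exp x = Real.exp z ^ 2 := by
    rw [← Real.exp_nat_mul]; congr 1; rw [hz]; push_cast; ring
  rw [hexp]
  set P := 1 + z + z ^ 2 / 2 + z ^ 3 / 6 + z ^ 4 / 24 + z ^ 5 / 120 + z ^ 6 * (7 / 4320) with hP
  have hb' : Real.exp z ≤ P := hb.trans (le_of_eq (by rw [hP]; ring))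
  have h1 : Real.exp z ^ 2 ≤ P ^ 2 := pow_le_pow_left₀ (Real.exp_pos z).le hb' 2
  refine h1.trans ?_
  have hp : ∀ n : ℕ, z ^ n ≤ (23 / 40) ^ n := fun n => pow_le_pow_left₀ hz0 hz1 n
  have h2 : P ^ 2 = 1 + 2 * z + 2 * z ^ 2 + 4 / 3 * z ^ 3 + z ^ 4 * (2 / 3 + (4 / 15) * z ^ 1
      + (193 / 2160) * z ^ 2 + (11 / 432) * z ^ 3 + (53 / 8640) * z ^ 4 + (1 / 810) * z ^ 5
      + (53 / 259200) * z ^ 6 + (7 / 259200) * z ^ 7 + (49 / 18662400) * z ^ 8) := by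
    rw [hP]; ring
  have h3 : 2 / 3 + (4 / 15) * z ^ 1
      + (193 / 2160) * z ^ 2 + (11 / 432) * z ^ 3 + (53 / 8640) * z ^ 4 + (1 / 810) * z ^ 5
      + (53 / 259200) * z ^ 6 + (7 / 259200) * z ^ 7 + (49 / 18662400) * z ^ 8
      ≤ 856 / 1000 := by
    have a1 := hp 1
    have a2 := hp 2
    have a3 := hp 3
    have a4 := hp 4
    have a5 := hp 5
    have a6 := hp 6
    have a7 := hp 7
    have a8 := hp 8
    norm_num at a1 a2 a3 a4 a5 a6 a7 a8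
    rw [pow_one]
    linarith
  have h4 := mul_le_mul_of_nonneg_left h3 (pow_nonneg hz0 4)
  rw [h2]
  have e : x = 2 * z := by rw [hz]; ring
  rw [e]
  nlinarith

/-- `(1 - s)(e^{ms} - 1)^2 ≤ s m² C(m)` -/
noncomputable def Cm (m : ℝ) : ℝ := 253 / 1000 + m / 8 + 9 / 100 * m ^ 2

theorem Cm_nonneg {m : ℝ} (hm : 0 ≤ m) : 0 ≤ Cm m := by unfold Cm; positivity

theorem row_main {s ρ m : ℝ} (hs0 : 0 ≤ s) (hρ0 : 0 ≤ ρ) (hρ : ρ + s ≤ 1) (hm0 : 0 ≤ m)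
    (hm1 : m ≤ 23 / 20) : ρ * (Real.exp (m * s) - 1) ^ 2 ≤ s * (m ^ 2 * Cm m) := by
  have hs1 : s ≤ 1 := by linarith
  have hx0 : 0 ≤ m * s := mul_nonneg hm0 hs0
  have hx1 : m * s ≤ 23 / 20 := by nlinarith
  have h1 := exp_u hx0 hx1
  have h2 : 0 ≤ Real.exp (m * s) - 1 := by linarith [Real.add_one_le_exp (m * s)]
  have h3 : Real.exp (m * s) - 1 ≤
      (m * s) * (1 + m * s / 2 + (m * s) ^ 2 / 6 + 535 / 10000 * (m * s) ^ 3) := by linarith
  have h4 := pow_le_pow_left₀ h2 h3 2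
  have h5 := SupR.poly1 hs0 hs1 hm0 hm1
  calc ρ * (Real.exp (m * s) - 1) ^ 2
      ≤ (1 - s) * ((m * s) * (1 + m * s / 2 + (m * s) ^ 2 / 6 + 535 / 10000 * (m * s) ^ 3)) ^ 2 :=
        mul_le_mul (by linarith) h4 (sq_nonneg _) (by linarith)
    _ = (m ^ 2 * s) * ((1 - s) * (s * (1 + m * s / 2 + (m * s) ^ 2 / 6
          + 535 / 10000 * (m * s) ^ 3) ^ 2)) := by ring
    _ ≤ (m ^ 2 * s) * Cm m := mul_le_mul_of_nonneg_left h5 (by positivity)
    _ = _ := by ring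

theorem row_exp {s ρ m : ℝ} (hs0 : 0 ≤ s) (hρ0 : 0 ≤ ρ) (hρ : ρ + s ≤ 1) (hm0 : 0 ≤ m)
    (hm1 : m ≤ 23 / 20) : ρ * Real.exp (m * s) ≤ 10125 / 10000 := by
  have hs1 : s ≤ 1 := by linarith
  have hx0 : 0 ≤ m * s := mul_nonneg hm0 hs0
  have hx1 : m * s ≤ 23 / 20 := by nlinarith
  have h1 := exp_u hx0 hx1
  exact (mul_le_mul (by linarith : ρ ≤ 1 - s) h1 (Real.exp_pos _).le (by linarith)).trans
    (SupR.poly2 hs0 hs1 hm0 hm1)

theorem row_F {s ρ : ℝ} (hs0 : 0 ≤ s) (hρ0 : 0 ≤ ρ) (hρ : ρ + s ≤ 1) :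
    ρ * Fc s ^ 2 ≤ 562 / 1000 * s := by
  have hs1 : s ≤ 1 := by linarith
  have h1 : ρ * Fc s ^ 2 ≤ (1 - s) * Fc s ^ 2 :=
    mul_le_mul_of_nonneg_right (by linarith) (sq_nonneg _)
  have h2 : (1 - s) * (s * (1 + 877 / 1000 * s) ^ 2) ≤ 562 / 1000 := by
    nlinarith [sq_nonneg (s - 63 / 100), mul_nonneg hs0 (sq_nonneg (s - 63 / 100)),
      mul_nonneg (sub_nonneg.2 hs1) (sq_nonneg (s - 63 / 100)),
      mul_nonneg (mul_nonneg hs0 hs0) (sq_nonneg (s - 63 / 100)),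
      mul_nonneg (mul_nonneg hs0 (sub_nonneg.2 hs1)) (sq_nonneg (s - 63 / 100))]
  have h3 := mul_le_mul_of_nonneg_left h2 hs0
  have e : s * ((1 - s) * (s * (1 + 877 / 1000 * s) ^ 2)) = (1 - s) * Fc s ^ 2 := by
    unfold Fc; ring
  linarith

variable {V : Type*} [Fintype V] [DecidableEq V]
variable {h : ℝ → V → V → ℝ} {H : V → V → ℝ → ℝ} {X : V → V → ℝ} {M μ : ℝ → ℝ} {t : ℝ}

noncomputable def sqs (f : V → ℝ) : ℝ := ∑ a, f a ^ 2

theorem sqs_nonneg (f : V → ℝ) : 0 ≤ sqs f := Finset.sum_nonneg fun _ _ => sq_nonneg _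

/-- weighted Cauchy -/
theorem cauchy_w {w f : V → ℝ} (hw : ∀ b, 0 ≤ w b) :
    (∑ b, w b * f b) ^ 2 ≤ (∑ b, w b) * ∑ b, w b * f b ^ 2 := by
  have h1 := Finset.sum_mul_sq_le_sq_mul_sq Finset.univ (fun b => Real.sqrt (w b))
    (fun b => Real.sqrt (w b) * f b)
  have e1 : ∀ b, Real.sqrt (w b) * (Real.sqrt (w b) * f b) = w b * f b := fun b => by
    rw [← mul_assoc, Real.mul_self_sqrt (hw b)]
  have e2 : ∀ b, Real.sqrt (w b) ^ 2 = w b := fun b => Real.sq_sqrt (hw b)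
  have e3 : ∀ b, (Real.sqrt (w b) * f b) ^ 2 = w b * f b ^ 2 := fun b => by
    rw [mul_pow, Real.sq_sqrt (hw b)]
  simp only [e1, e2, e3] at h1
  exact h1

/-- the row sums -/
noncomputable def rho (X : V → V → ℝ) (H0 : Finset V) (a : V) : ℝ := (rm X H0 *ᵥ fun _ => 1) a

theorem rho_nonneg (hX : Wt X) (H0 : Finset V) (a : V) : 0 ≤ rho X H0 a :=
  mulVec_nonneg (hX.rm_nonneg H0) (fun _ => zero_le_one) a

theorem rho_le_one (hX : Wt X) (H0 : Finset V) (a : V) : rho X H0 a ≤ 1 := hX.rm_row H0 a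

theorem rho_in {H0 : Finset V} {a : V} (ha : a ∈ H0) : rho X H0 a = ∑ b ∈ H0, X a b := by
  unfold rho; rw [rm_mulVec H0 _ ha]; simp

theorem rho_out {H0 : Finset V} {a : V} (ha : a ∉ H0) : rho X H0 a = 0 := by
  unfold rho; rw [rm_mulVec_out H0 _ ha]

theorem A_sq (hX : Wt X) (H0 : Finset V) (f : V → ℝ) (a : V) :
    (rm X H0 *ᵥ f) a ^ 2 ≤ rho X H0 a * (rm X H0 *ᵥ fun b => f b ^ 2) a := by
  have h := cauchy_w (w := fun b => rm X H0 a b) (f := f) (fun b => hX.rm_nonneg H0 a b)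
  have e : ∑ b, rm X H0 a b = rho X H0 a := by
    unfold rho; rw [mulVec_eq_sum]; simp
  rw [e] at h
  exact h

theorem sum_A (hX : Wt X) (H0 : Finset V) (g f : V → ℝ) :
    ∑ a, g a * (rm X H0 *ᵥ f) a = ∑ a, (rm X H0 *ᵥ g) a * f a := by
  simp only [mulVec_eq_sum, Finset.mul_sum, Finset.sum_mul]
  rw [Finset.sum_comm]
  refine Finset.sum_congr rfl fun a _ => Finset.sum_congr rfl fun b _ => ?_
  have : rm X H0 b a = rm X H0 a b := by
    have := congrFun (congrFun (hX.rm_symm H0) a) b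
    simpa [Matrix.transpose_apply] using this
  rw [this]; ring

theorem sqs_A (hX : Wt X) (H0 : Finset V) (f : V → ℝ) :
    sqs (rm X H0 *ᵥ f) ≤ ∑ a, rho X H0 a * f a ^ 2 := by
  have h1 : sqs (rm X H0 *ᵥ f) ≤ ∑ a, 1 * (rm X H0 *ᵥ fun b => f b ^ 2) a := by
    refine Finset.sum_le_sum fun a _ => (A_sq hX H0 f a).trans ?_
    exact mul_le_mul_of_nonneg_right (rho_le_one hX H0 a)
      (mulVec_nonneg (hX.rm_nonneg H0) (fun _ => sq_nonneg _) a)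
  rw [sum_A hX H0 (fun _ => 1) (fun b => f b ^ 2)] at h1
  exact h1

theorem sqs_A_le (hX : Wt X) (H0 : Finset V) (f : V → ℝ) : sqs (rm X H0 *ᵥ f) ≤ sqs f := by
  refine (sqs_A hX H0 f).trans (Finset.sum_le_sum fun a _ => ?_)
  have := mul_le_mul_of_nonneg_right (rho_le_one hX H0 a) (sq_nonneg (f a))
  linarith

/-- the resolvent in `ℓ²` -/
theorem sqs_res (hX : Wt X) (H0 : Finset V) {F R : V → ℝ}
    (hR : ∀ a, (rm X H0 *ᵥ R) a = (rm X H0 *ᵥ F) a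
      + 13 / 100 * (rm X H0 *ᵥ (rm X H0 *ᵥ (rm X H0 *ᵥ R))) a) :
    sqs (rm X H0 *ᵥ R) ≤ (100 / 87) ^ 2 * sqs (rm X H0 *ᵥ F) := by
  set v := rm X H0 *ᵥ R with hv
  have h1 : sqs v ≤ 100 / 87 * sqs (rm X H0 *ᵥ F)
      + 13 / 100 * sqs (rm X H0 *ᵥ (rm X H0 *ᵥ v)) := by
    unfold sqs
    rw [Finset.mul_sum, Finset.mul_sum, ← Finset.sum_add_distrib]
    refine Finset.sum_le_sum fun a _ => ?_
    rw [hR a]
    nlinarith [sq_nonneg ((rm X H0 *ᵥ F) a - 87 / 100 * (rm X H0 *ᵥ (rm X H0 *ᵥ v)) a)]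
  have h2 : sqs (rm X H0 *ᵥ (rm X H0 *ᵥ v)) ≤ sqs v :=
    (sqs_A_le hX H0 _).trans (sqs_A_le hX H0 _)
  nlinarith

/-- data of a group of targets at the horizon `m` -/
structure SD (X : V → V → ℝ) (H0 : Finset V) (σ γ β c m : ℝ) (s y n : V → ℝ) : Prop where
  ex : ∃ F R : V → ℝ, (∀ a ∈ H0, 0 ≤ F a ∧ F a ≤ Fc (s a)) ∧
    (∀ a, (rm X H0 *ᵥ R) a = (rm X H0 *ᵥ F) a
      + 13 / 100 * (rm X H0 *ᵥ (rm X H0 *ᵥ (rm X H0 *ᵥ R))) a) ∧
    (∀ a, 0 ≤ R a) ∧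
    (∀ a ∈ H0, y a ≤ γ * m ^ 3 * (rm X H0 *ᵥ (rm X H0 *ᵥ R)) a) ∧
    (∀ a ∈ H0, n a ≤ β * m ^ 2 * (rm X H0 *ᵥ R) a)
  s0 : ∀ a ∈ H0, 0 ≤ s a
  row : ∀ a ∈ H0, rho X H0 a + s a ≤ 1
  mass : ∑ a ∈ H0, s a ≤ σ
  y0 : ∀ a ∈ H0, 0 ≤ y a
  n0 : ∀ a ∈ H0, 0 ≤ n a
  ye : ∀ a ∈ H0, Real.exp (y a) ≤ 1 + c * y a

/-- the sup-level rate function (per unit of mass) -/
noncomputable def Rs (γ β c m : ℝ) : ℝ :=
  m ^ 2 * Cm m + c * γ * m ^ 4 * (12303 / 10000 * Cm m + 61895 / 100000)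
    + 7615 / 10000 * (c * γ) ^ 2 * m ^ 6 + 7426 / 10000 * β ^ 2 * m ^ 4

theorem SD.main (hX : Wt X) {H0 : Finset V} {σ γ β c m : ℝ} {s y n : V → ℝ}
    (hD : SD X H0 σ γ β c m s y n) (hm0 : 0 ≤ m) (hm1 : m ≤ 23 / 20) (hγ : 0 ≤ γ) (hβ : 0 ≤ β)
    (hc : 0 ≤ c) :
    ∑ a ∈ H0, rho X H0 a * ((Real.exp (m * s a + y a) - 1) ^ 2 + n a ^ 2)
      ≤ σ * Rs γ β c m := by
  obtain ⟨F, R, hF, hR, hR0, hy, hn⟩ := hD.ex
  have hAn := hX.rm_nonneg H0
  have hCm := Cm_nonneg hm0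
  have hσ : 0 ≤ σ := (Finset.sum_nonneg fun a ha => hD.s0 a ha).trans hD.mass
  set v := rm X H0 *ᵥ R with hv
  have hv0 : ∀ a, 0 ≤ v a := mulVec_nonneg hAn hR0
  -- the norm of v
  have hvn : sqs v ≤ 7426 / 10000 * σ := by
    have h1 := sqs_res hX H0 hR
    have h2 : sqs (rm X H0 *ᵥ F) ≤ 562 / 1000 * σ := by
      refine (sqs_A hX H0 F).trans ?_
      have : ∑ a, rho X H0 a * F a ^ 2 = ∑ a ∈ H0, rho X H0 a * F a ^ 2 := by
        symm
        refine Finset.sum_subset (Finset.subset_univ _) fun a _ ha => ?_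
        rw [rho_out ha, zero_mul]
      rw [this]
      refine le_trans (Finset.sum_le_sum fun a ha => ?_) (by
        have := mul_le_mul_of_nonneg_left hD.mass (show (0 : ℝ) ≤ 562 / 1000 by norm_num)
        rwa [Finset.mul_sum] at this)
      have h3 := row_F (hD.s0 a ha) (rho_nonneg hX H0 a) (hD.row a ha)
      have h4 : F a ^ 2 ≤ Fc (s a) ^ 2 := pow_le_pow_left₀ (hF a ha).1 (hF a ha).2 2
      exact (mul_le_mul_of_nonneg_left h4 (rho_nonneg hX H0 a)).trans h3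
    nlinarith
  -- main sum
  have hmain : ∑ a ∈ H0, rho X H0 a * (Real.exp (m * s a) - 1) ^ 2 ≤ σ * (m ^ 2 * Cm m) := by
    have h1 : ∀ a ∈ H0, rho X H0 a * (Real.exp (m * s a) - 1) ^ 2 ≤ s a * (m ^ 2 * Cm m) :=
      fun a ha => row_main (hD.s0 a ha) (rho_nonneg hX H0 a) (hD.row a ha) hm0 hm1
    refine (Finset.sum_le_sum h1).trans ?_
    rw [← Finset.sum_mul]
    exact mul_le_mul_of_nonneg_right hD.mass (by positivity)
  -- the vector g
  set g : V → ℝ := fun a => if a ∈ H0 then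
    rho X H0 a * Real.exp (m * s a) * (Real.exp (m * s a) - 1) else 0 with hg
  have hg0 : ∀ a, 0 ≤ g a := fun a => by
    by_cases ha : a ∈ H0
    · rw [hg]; simp only [if_pos ha]
      have := Real.one_le_exp (mul_nonneg hm0 (hD.s0 a ha))
      exact mul_nonneg (mul_nonneg (rho_nonneg hX H0 a) (Real.exp_pos _).le) (by linarith)
    · rw [hg]; simp only [if_neg ha]; exact le_rfl
  have hgn : sqs (rm X H0 *ᵥ g) ≤ 102516 / 100000 * (σ * (m ^ 2 * Cm m)) := by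
    refine (sqs_A hX H0 g).trans ?_
    have e : ∑ a, rho X H0 a * g a ^ 2 = ∑ a ∈ H0, rho X H0 a * g a ^ 2 := by
      symm
      refine Finset.sum_subset (Finset.subset_univ _) fun a _ ha => ?_
      rw [rho_out ha, zero_mul]
    rw [e]
    have hpt : ∀ a ∈ H0, rho X H0 a * g a ^ 2
        ≤ 102516 / 100000 * (rho X H0 a * (Real.exp (m * s a) - 1) ^ 2) := by
      intro a ha
      rw [hg]; simp only [if_pos ha]
      have h1 := row_exp (hD.s0 a ha) (rho_nonneg hX H0 a) (hD.row a ha) hm0 hm1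
      have h2 : 0 ≤ rho X H0 a * Real.exp (m * s a) :=
        mul_nonneg (rho_nonneg hX H0 a) (Real.exp_pos _).le
      have h3 : (rho X H0 a * Real.exp (m * s a)) ^ 2 ≤ 102516 / 100000 :=
        (pow_le_pow_left₀ h2 h1 2).trans (by norm_num)
      have h4 : 0 ≤ rho X H0 a * (Real.exp (m * s a) - 1) ^ 2 :=
        mul_nonneg (rho_nonneg hX H0 a) (sq_nonneg _)
      have := mul_le_mul_of_nonneg_right h3 h4
      calc rho X H0 a * (rho X H0 a * Real.exp (m * s a) * (Real.exp (m * s a) - 1)) ^ 2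
          = (rho X H0 a * Real.exp (m * s a)) ^ 2
            * (rho X H0 a * (Real.exp (m * s a) - 1) ^ 2) := by ring
        _ ≤ _ := this
    refine (Finset.sum_le_sum hpt).trans ?_
    rw [← Finset.mul_sum]
    exact mul_le_mul_of_nonneg_left hmain (by norm_num)
  -- cross term
  have hcross : 2 * m * ∑ a ∈ H0, rho X H0 a * Real.exp (m * s a) * (Real.exp (m * s a) - 1)
      * (rm X H0 *ᵥ v) a ≤ m ^ 2 * σ * (12303 / 10000 * Cm m + 61895 / 100000)  := by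
    have e1 : ∑ a ∈ H0, rho X H0 a * Real.exp (m * s a) * (Real.exp (m * s a) - 1)
        * (rm X H0 *ᵥ v) a = ∑ a, g a * (rm X H0 *ᵥ v) a := by
      have : ∑ a ∈ H0, g a * (rm X H0 *ᵥ v) a = ∑ a, g a * (rm X H0 *ᵥ v) a :=
        Finset.sum_subset (Finset.subset_univ _) fun a _ ha => by
          rw [hg]; simp only [if_neg ha, zero_mul]
      rw [← this]
      refine Finset.sum_congr rfl fun a ha => ?_
      rw [hg]; simp only [if_pos ha]
    rw [e1, sum_A hX H0 g v, Finset.mul_sum]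
    have h1 : ∑ a, 2 * m * ((rm X H0 *ᵥ g) a * v a)
        ≤ 12 / 10 * sqs (rm X H0 *ᵥ g) + m ^ 2 * (10 / 12) * sqs v := by
      unfold sqs
      rw [Finset.mul_sum, Finset.mul_sum, ← Finset.sum_add_distrib]
      refine Finset.sum_le_sum fun a _ => ?_
      nlinarith [sq_nonneg (12 / 10 * (rm X H0 *ᵥ g) a - m * v a)]
    refine h1.trans ?_
    have h2 := mul_le_mul_of_nonneg_left hvn (show 0 ≤ m ^ 2 * (10 / 12) by positivity)
    have h3 : 0 ≤ m ^ 2 * σ * Cm m := by positivity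
    have h4 : 0 ≤ m ^ 2 * σ := by positivity
    nlinarith
  -- y² term
  have hyy : ∑ a ∈ H0, rho X H0 a * Real.exp (m * s a) ^ 2 * (rm X H0 *ᵥ v) a ^ 2
      ≤ 7615 / 10000 * σ := by
    have h1 : ∀ a ∈ H0, rho X H0 a * Real.exp (m * s a) ^ 2 * (rm X H0 *ᵥ v) a ^ 2
        ≤ 102516 / 100000 * (rm X H0 *ᵥ fun b => v b ^ 2) a := by
      intro a ha
      have h2 := A_sq hX H0 v a
      have h3 := row_exp (hD.s0 a ha) (rho_nonneg hX H0 a) (hD.row a ha) hm0 hm1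
      have h4 : 0 ≤ rho X H0 a * Real.exp (m * s a) :=
        mul_nonneg (rho_nonneg hX H0 a) (Real.exp_pos _).le
      have h5 : (rho X H0 a * Real.exp (m * s a)) ^ 2 ≤ 102516 / 100000 :=
        (pow_le_pow_left₀ h4 h3 2).trans (by norm_num)
      have h6 : 0 ≤ (rm X H0 *ᵥ fun b => v b ^ 2) a :=
        mulVec_nonneg hAn (fun _ => sq_nonneg _) a
      calc rho X H0 a * Real.exp (m * s a) ^ 2 * (rm X H0 *ᵥ v) a ^ 2
          ≤ rho X H0 a * Real.exp (m * s a) ^ 2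
            * (rho X H0 a * (rm X H0 *ᵥ fun b => v b ^ 2) a) :=
            mul_le_mul_of_nonneg_left h2 (mul_nonneg (rho_nonneg hX H0 a) (sq_nonneg _))
        _ = (rho X H0 a * Real.exp (m * s a)) ^ 2 * (rm X H0 *ᵥ fun b => v b ^ 2) a := by ring
        _ ≤ _ := mul_le_mul_of_nonneg_right h5 h6
    refine (Finset.sum_le_sum h1).trans ?_
    rw [← Finset.mul_sum]
    have h7 : ∑ a ∈ H0, (rm X H0 *ᵥ fun b => v b ^ 2) a ≤ sqs v := by
      have h8 : ∑ a ∈ H0, (rm X H0 *ᵥ fun b => v b ^ 2) a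
          ≤ ∑ a, 1 * (rm X H0 *ᵥ fun b => v b ^ 2) a := by
        simp only [one_mul]
        exact Finset.sum_le_sum_of_subset_of_nonneg (Finset.subset_univ _) fun a _ _ =>
          mulVec_nonneg hAn (fun _ => sq_nonneg _) a
      rw [sum_A hX H0 (fun _ => 1) (fun b => v b ^ 2)] at h8
      refine h8.trans (Finset.sum_le_sum fun a _ => ?_)
      have := mul_le_mul_of_nonneg_right (rho_le_one hX H0 a) (sq_nonneg (v a))
      have e : (rm X H0 *ᵥ fun _ => 1) a = rho X H0 a := rfl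
      rw [e]; linarith
    have h9 : ∑ a ∈ H0, (rm X H0 *ᵥ fun b => v b ^ 2) a ≤ 7426 / 10000 * σ := h7.trans hvn
    nlinarith
  -- n² term
  have hnn : ∑ a ∈ H0, rho X H0 a * n a ^ 2 ≤ 7426 / 10000 * β ^ 2 * m ^ 4 * σ := by
    have h1 : ∀ a ∈ H0, rho X H0 a * n a ^ 2 ≤ (β * m ^ 2) ^ 2 * v a ^ 2 := by
      intro a ha
      have h2 : n a ^ 2 ≤ (β * m ^ 2 * v a) ^ 2 := pow_le_pow_left₀ (hD.n0 a ha) (hn a ha) 2
      have h3 := mul_le_mul (rho_le_one hX H0 a) h2 (sq_nonneg _) zero_le_one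
      calc rho X H0 a * n a ^ 2 ≤ 1 * (β * m ^ 2 * v a) ^ 2 := h3
        _ = _ := by ring
    refine (Finset.sum_le_sum h1).trans ?_
    rw [← Finset.mul_sum]
    have h4 : ∑ a ∈ H0, v a ^ 2 ≤ sqs v :=
      Finset.sum_le_sum_of_subset_of_nonneg (Finset.subset_univ _) fun _ _ _ => sq_nonneg _
    have h5 : 0 ≤ (β * m ^ 2) ^ 2 := sq_nonneg _
    calc (β * m ^ 2) ^ 2 * ∑ a ∈ H0, v a ^ 2 ≤ (β * m ^ 2) ^ 2 * (7426 / 10000 * σ) :=
          mul_le_mul_of_nonneg_left (h4.trans hvn) h5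
      _ = 7426 / 10000 * (β ^ 2 * m ^ 4 * σ) := by ring
      _ ≤ _ := by
        have : 0 ≤ β ^ 2 * m ^ 4 * σ := by positivity
        nlinarith
  -- pointwise
  have hpt : ∀ a ∈ H0, rho X H0 a * (Real.exp (m * s a + y a) - 1) ^ 2
      ≤ rho X H0 a * (Real.exp (m * s a) - 1) ^ 2
        + c * γ * m ^ 2 * (2 * m * (rho X H0 a * Real.exp (m * s a) * (Real.exp (m * s a) - 1)
          * (rm X H0 *ᵥ v) a))
        + (c * γ * m ^ 3) ^ 2 * (rho X H0 a * Real.exp (m * s a) ^ 2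
          * (rm X H0 *ᵥ v) a ^ 2) := by
    intro a ha
    have hρ := rho_nonneg hX H0 a
    have e1 := Real.one_le_exp (mul_nonneg hm0 (hD.s0 a ha))
    have e2 := hD.ye a ha
    have e3 := Real.one_le_exp (hD.y0 a ha)
    set E := Real.exp (m * s a) with hE
    have e4 : c * y a ≤ c * (γ * m ^ 3 * (rm X H0 *ᵥ v) a) :=
      mul_le_mul_of_nonneg_left (hy a ha) hc
    have e5 : Real.exp (m * s a + y a) = E * Real.exp (y a) := by rw [Real.exp_add]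
    have e6 : Real.exp (m * s a + y a) - 1
        ≤ (E - 1) + E * (c * γ * m ^ 3 * (rm X H0 *ᵥ v) a) := by
      rw [e5]
      have := mul_le_mul_of_nonneg_left (e2.trans (add_le_add le_rfl e4))
        (show 0 ≤ E by linarith)
      linarith
    have e7 : 0 ≤ Real.exp (m * s a + y a) - 1 := by
      rw [e5]
      have := mul_le_mul e1 e3 zero_le_one (by linarith)
      linarith
    have e8 := pow_le_pow_left₀ e7 e6 2
    calc rho X H0 a * (Real.exp (m * s a + y a) - 1) ^ 2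
        ≤ rho X H0 a * ((E - 1) + E * (c * γ * m ^ 3 * (rm X H0 *ᵥ v) a)) ^ 2 :=
          mul_le_mul_of_nonneg_left e8 hρ
      _ = _ := by ring
  have hsum : ∑ a ∈ H0, rho X H0 a * ((Real.exp (m * s a + y a) - 1) ^ 2 + n a ^ 2)
      ≤ ∑ a ∈ H0, rho X H0 a * (Real.exp (m * s a) - 1) ^ 2
        + c * γ * m ^ 2 * (2 * m * ∑ a ∈ H0, rho X H0 a * Real.exp (m * s a)
          * (Real.exp (m * s a) - 1) * (rm X H0 *ᵥ v) a)
        + (c * γ * m ^ 3) ^ 2 * ∑ a ∈ H0, rho X H0 a * Real.exp (m * s a) ^ 2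
          * (rm X H0 *ᵥ v) a ^ 2
        + ∑ a ∈ H0, rho X H0 a * n a ^ 2 := by
    rw [Finset.mul_sum, Finset.mul_sum, Finset.mul_sum, ← Finset.sum_add_distrib,
      ← Finset.sum_add_distrib, ← Finset.sum_add_distrib]
    refine Finset.sum_le_sum fun a ha => ?_
    rw [mul_add]
    exact add_le_add (hpt a ha) le_rfl
  have k1 : 0 ≤ c * γ * m ^ 2 := by positivity
  have k2 := mul_le_mul_of_nonneg_left hcross k1
  have k3 := mul_le_mul_of_nonneg_left hyy (sq_nonneg (c * γ * m ^ 3))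
  refine hsum.trans ?_
  unfold Rs
  have e : σ * (m ^ 2 * Cm m + c * γ * m ^ 4 * (12303 / 10000 * Cm m + 61895 / 100000)
    + 7615 / 10000 * (c * γ) ^ 2 * m ^ 6 + 7426 / 10000 * β ^ 2 * m ^ 4)
    = σ * (m ^ 2 * Cm m) + c * γ * m ^ 2 * (m ^ 2 * σ * (12303 / 10000 * Cm m + 61895 / 100000))
      + (c * γ * m ^ 3) ^ 2 * (7615 / 10000 * σ) + 7426 / 10000 * β ^ 2 * m ^ 4 * σ := by ring
  rw [e]
  linarith

end Pool.Agent.RCG
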