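import Pool.Agent.RCG.OwnN

/-! The kernel of the main N term (MP_73ccd0_lc, general graphs). -/

namespace Pool.Agent.RCG

open Set Finset Matrix Pool.Agent.RCRSHalf

set_option linter.unusedSectionVars false

variable {V : Type*} [Fintype V] [DecidableEq V]
variable {h : ℝ → V → V → ℝ} {H : V → V → ℝ → ℝ} {X : V → V → ℝ} {M μ : ℝ → ℝ} {t : ℝ}

/-- the light clock: relative fluxes are at most `q` times the weights -/
structure Lx (h : ℝ → V → V → ℝ) (X : V → V → ℝ) (L q : ℝ → ℝ) (t : ℝ) : Prop where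
  Ld : ∀ r ∈ Icc 0 t, HasDerivAt L (q r) r
  q0 : ∀ r ∈ Icc 0 t, 0 ≤ q r
  L0 : L 0 = 0
  Lt : L t ≤ 3 / 4
  le : ∀ r ∈ Icc 0 t, ∀ a b, a ≠ b → dE h a b r ≤ q r * X a b

variable {L q : ℝ → ℝ}

theorem Lx.mono (hL : Lx h X L q t) {T : ℝ} (hT : T ∈ Icc 0 t) : ∀ r ∈ Icc 0 T, L r ≤ L T := by
  intro r hr
  have := nonneg_of_forward (U := fun x => L x - L r) (U' := q) (a := r) (s := T)
    (fun x hx => (hL.Ld x ⟨hr.1.trans hx.1, hx.2.trans hT.2⟩).sub_const _) (by simp)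
    (fun x hx _ => hL.q0 x ⟨hr.1.trans hx.1, hx.2.trans hT.2⟩) T ⟨hr.2, le_rfl⟩
  linarith

theorem Lx.Lnn (hL : Lx h X L q t) {r : ℝ} (hr : r ∈ Icc 0 t) : 0 ≤ L r := by
  have := hL.mono hr 0 ⟨le_rfl, hr.1⟩
  rwa [hL.L0] at this

theorem Lx.Lle (hL : Lx h X L q t) {r : ℝ} (hr : r ∈ Icc 0 t) : L r ≤ 3 / 4 :=
  (hL.mono ⟨hr.1.trans hr.2, le_rfl⟩ r hr).trans hL.Lt

theorem Lx.sub (hL : Lx h X L q t) {T : ℝ} (hT : T ∈ Icc 0 t) : Lx h X L q T where
  Ld r hr := hL.Ld r ⟨hr.1, hr.2.trans hT.2⟩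
  q0 r hr := hL.q0 r ⟨hr.1, hr.2.trans hT.2⟩
  L0 := hL.L0
  Lt := hL.Lle hT
  le r hr := hL.le r ⟨hr.1, hr.2.trans hT.2⟩

/-- primitives of the relative flux against the light clock -/
theorem Lx.E_le (hL : Lx h X L q t) {a b : V} (hab : a ≠ b) {E : ℝ → ℝ}
    (hE : ∀ s ∈ Icc 0 t, HasDerivAt E (dE h a b s) s) {r s : ℝ} (hr : 0 ≤ r) (hrs : r ≤ s)
    (hs : s ≤ t) : E s - E r ≤ X a b * (L s - L r) := by
  have := nonneg_of_forward (U := fun x => X a b * (L x - L r) - (E x - E r))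
    (U' := fun x => X a b * q x - dE h a b x) (a := r) (s := s)
    (fun x hx => by
      have hx' : x ∈ Icc 0 t := ⟨hr.trans hx.1, hx.2.trans hs⟩
      have h1 := ((hL.Ld x hx').sub_const (L r)).const_mul (X a b)
      exact h1.sub ((hE x hx').sub_const _)) (by simp)
    (fun x hx _ => by
      have hx' : x ∈ Icc 0 t := ⟨hr.trans hx.1, hx.2.trans hs⟩
      have := hL.le x hx' a b hab
      linarith [mul_comm (X a b) (q x)]) s ⟨hrs, le_rfl⟩
  linarith

noncomputable def gq (x : ℝ) : ℝ := x ^ 2 / 2 + x ^ 3 / 6 + 513 / 10000 * x ^ 4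

noncomputable def gq' (x : ℝ) : ℝ := x + x ^ 2 / 2 + 2052 / 10000 * x ^ 3

noncomputable def Gq (x : ℝ) : ℝ := x ^ 3 / 6 + x ^ 4 / 24 + 1026 / 100000 * x ^ 5

theorem gq_deriv (x : ℝ) : HasDerivAt gq (gq' x) x := by
  have h2 := (hasDerivAt_pow 2 x).div_const 2
  have h3 := (hasDerivAt_pow 3 x).div_const 6
  have h4 := (hasDerivAt_pow 4 x).const_mul (513 / 10000 : ℝ)
  have := (h2.add h3).add h4
  exact this.congr_deriv (by unfold gq'; norm_num; ring)

theorem Gq_deriv (x : ℝ) : HasDerivAt Gq (gq x) x := by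
  have h2 := (hasDerivAt_pow 3 x).div_const 6
  have h3 := (hasDerivAt_pow 4 x).div_const 24
  have h4 := (hasDerivAt_pow 5 x).const_mul (1026 / 100000 : ℝ)
  have := (h2.add h3).add h4
  exact this.congr_deriv (by unfold gq; norm_num; ring)

theorem gq_nonneg {x : ℝ} (hx : 0 ≤ x) : 0 ≤ gq x := by unfold gq; positivity

theorem Gq_nonneg {x : ℝ} (hx : 0 ≤ x) : 0 ≤ Gq x := by unfold Gq; positivity

theorem exp_le_gq' {x : ℝ} (hx : 0 ≤ x) (hx1 : x ≤ 3 / 4) : Real.exp x - 1 ≤ gq' x := by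
  have h := Real.exp_bound' hx (hx1.trans (by norm_num)) (n := 6) (by norm_num)
  simp only [Finset.sum_range_succ, Finset.sum_range_zero, Nat.factorial] at h
  unfold gq'
  have hp : x ^ 4 / 24 + x ^ 5 / 120 + x ^ 6 * (7 / 4320) ≤ (2052 / 10000 - 1 / 6) * x ^ 3 := by
    have h3 : 0 ≤ x ^ 3 := by positivity
    have h1 : x / 24 + x ^ 2 / 120 + x ^ 3 * (7 / 4320) ≤ (2052 / 10000 - 1 / 6 : ℝ) := by
      have hx2 : x ^ 2 ≤ (3 / 4) ^ 2 := pow_le_pow_left₀ hx hx1 2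
      have hx3 : x ^ 3 ≤ (3 / 4) ^ 3 := pow_le_pow_left₀ hx hx1 3
      norm_num at hx2 hx3 ⊢
      linarith
    have := mul_le_mul_of_nonneg_right h1 h3
    nlinarith [this]
  norm_num at h
  have h6 : x ^ 6 * (7 / 4320) = x ^ 6 * 7 / 4320 := by ring
  linarith [h, hp]

theorem gq_le_gq' {x : ℝ} (hx : 0 ≤ x) (hx1 : x ≤ 3 / 4) : x + gq x ≤ gq' x := by
  unfold gq gq'
  have h3 : 0 ≤ x ^ 3 := by positivity
  nlinarith [mul_le_mul_of_nonneg_left hx1 h3]

/-- the kernel inequality -/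
theorem t1_kernel {y z l : ℝ} (hy : 0 ≤ y) (hz : 0 ≤ z) (hyz : y + z ≤ 1) (hl : 0 ≤ l)
    (hl1 : l ≤ 3 / 4) :
    (y * l + y * (y + z) * gq l) * z + y * Real.exp (y * l) ≤ y + y * (y + z) * gq' l := by
  have h1 := exp_le_gq' hl hl1
  have h2 := gq_le_gq' hl hl1
  have hg := gq_nonneg hl
  have hy1 : y ≤ 1 := by linarith
  have he : Real.exp (y * l) ≤ 1 + y * (Real.exp l - 1) := by
    have hc := convexOn_exp.2 (Set.mem_univ 0) (Set.mem_univ l) (by linarith : (0:ℝ) ≤ 1 - y) hy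
      (by ring)
    simp only [smul_eq_mul, mul_zero, zero_add, Real.exp_zero, mul_one] at hc
    linarith
  have a1 : z * (y + z) * gq l ≤ z * gq l := by
    have : (y + z) * (z * gq l) ≤ 1 * (z * gq l) :=
      mul_le_mul_of_nonneg_right hyz (by positivity)
    linarith
  have a2 : y * (Real.exp l - 1) ≤ y * gq' l := mul_le_mul_of_nonneg_left h1 hy
  have a3 : z * (l + gq l) ≤ z * gq' l := mul_le_mul_of_nonneg_left h2 hz
  have key : z * l + z * (y + z) * gq l + Real.exp (y * l) ≤ 1 + (y + z) * gq' l := by nlinarith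
  have := mul_le_mul_of_nonneg_left key hy
  nlinarith [this]

/-- the inner integral -/
theorem Lx.psi (hL : Lx h X L q t) (ht : t ∈ Icc (0 : ℝ) 1) (hX : Wt X) {u v w : V}
    (huv : u ≠ v) (huw : u ≠ w) {P R' : ℝ → ℝ}
    (hP : ∀ s ∈ Icc 0 t, HasDerivAt P (dE h u w s) s)
    (hR : ∀ s ∈ Icc 0 t, R' s ≤ q s * X w v) {s : ℝ} (hs : s ∈ Icc 0 t) :
    (X u w * (L t - L s) + X u w * (X u w + X w v) * gq (L t - L s)) * R' s
        + dE h u w s * Real.exp (P t - P s)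
      ≤ -(-(q s * (X u w + X u w * (X u w + X w v) * gq' (L t - L s)))) := by
  have hl0 : 0 ≤ L t - L s := sub_nonneg.2 (hL.mono ⟨ht.1, le_rfl⟩ s hs)
  have hl1 : L t - L s ≤ 3 / 4 := by linarith [hL.Lt, hL.Lnn hs]
  have hy := hX.nonneg u w
  have hz := hX.nonneg w v
  have hyz : X u w + X w v ≤ 1 := by
    have := hX.pair_row huv w
    rwa [hX.symm v w] at this
  have hk := t1_kernel hy hz hyz hl0 hl1
  have hq := hL.q0 s hs
  have hg := gq_nonneg hl0
  have hPe : P t - P s ≤ X u w * (L t - L s) := hL.E_le huw hP hs.1 hs.2 le_rfl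
  have he : Real.exp (P t - P s) ≤ Real.exp (X u w * (L t - L s)) := Real.exp_le_exp.2 hPe
  have h1 : dE h u w s * Real.exp (P t - P s)
      ≤ (q s * X u w) * Real.exp (X u w * (L t - L s)) :=
    mul_le_mul (hL.le s hs u w huw) he (Real.exp_nonneg _) (mul_nonneg hq hy)
  have h2 : (X u w * (L t - L s) + X u w * (X u w + X w v) * gq (L t - L s)) * R' s
      ≤ (X u w * (L t - L s) + X u w * (X u w + X w v) * gq (L t - L s)) * (q s * X w v) :=
    mul_le_mul_of_nonneg_left (hR s hs) (by positivity)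
  have h3 := mul_le_mul_of_nonneg_left hk hq
  rw [neg_neg]
  calc _ ≤ (X u w * (L t - L s) + X u w * (X u w + X w v) * gq (L t - L s)) * (q s * X w v)
        + (q s * X u w) * Real.exp (X u w * (L t - L s)) := add_le_add h2 h1
    _ = q s * ((X u w * (L t - L s) + X u w * (X u w + X w v) * gq (L t - L s)) * X w v
        + X u w * Real.exp (X u w * (L t - L s))) := by ring
    _ ≤ _ := h3

theorem Lx.psi_deriv (hL : Lx h X L q t) (y c : ℝ) {s : ℝ} (hs : s ∈ Icc 0 t) :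
    HasDerivAt (fun s => y * (L t - L s) + y * c * gq (L t - L s))
      (-(q s * (y + y * c * gq' (L t - L s)))) s := by
  have h1 : HasDerivAt (fun s => L t - L s) (-(q s)) s := (hL.Ld s hs).const_sub _
  have h2 := (gq_deriv (L t - L s)).comp s h1
  have h3 := (h1.const_mul y).add (h2.const_mul (y * c))
  refine h3.congr_deriv ?_
  ring

theorem Lx.psi_int (hL : Lx h X L q t) (y c : ℝ) {s : ℝ} (hs : s ∈ Icc 0 t) :
    HasDerivAt (fun s => -(y * ((L t - L s) ^ 2 / 2) + y * c * Gq (L t - L s)))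
      (q s * (y * (L t - L s) + y * c * gq (L t - L s))) s := by
  have h1 : HasDerivAt (fun s => L t - L s) (-(q s)) s := (hL.Ld s hs).const_sub _
  have h2 := (Gq_deriv (L t - L s)).comp s h1
  have h4 := (h1.pow 2).div_const 2
  have h3 := ((h4.const_mul y).add (h2.const_mul (y * c))).neg
  refine h3.congr_deriv ?_
  simp only [Nat.cast_ofNat]
  ring

end Pool.Agent.RCG
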