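import Pool.Agent.RCG.T1K
import Pool.Agent.RCG.OwnN

/-! The product rule for the main N-part, and the refined versions of `t1_J`, `aLem_E`
(MP_73ccd0_lc, general graphs). -/

namespace Pool.Agent.RCG

open Set Finset Matrix Pool.Agent.RCRSHalf

set_option linter.unusedSectionVars false

section prod

variable {t : ℝ} {P P' R R' I : ℝ → ℝ}

/-- the one-sided main term with horizon `τ` -/
noncomputable def uI (P I : ℝ → ℝ) (τ : ℝ) : ℝ := 1 - Real.exp (P τ) + Real.exp (P τ) * I τ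

theorem uI_deriv {τ : ℝ} (hP : HasDerivAt P (P' τ) τ)
    (hI : HasDerivAt I (P' τ * Real.exp (-P τ + R τ)) τ) :
    HasDerivAt (uI P I) (P' τ * (uI P I τ + (Real.exp (R τ) - 1))) τ := by
  have d1 := hP.exp
  have := (d1.const_sub 1).add (d1.mul hI)
  refine this.congr_deriv ?_
  have e : Real.exp (P τ) * Real.exp (-P τ + R τ) = Real.exp (R τ) := by
    rw [← Real.exp_add]; congr 1; ring
  have e2 : Real.exp (P τ) * (P' τ * Real.exp (-P τ + R τ)) = P' τ * Real.exp (R τ) := by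
    rw [← e]; ring
  rw [e2]
  unfold uI; ring

theorem uI_nonneg (hP : ∀ s ∈ Icc 0 t, HasDerivAt P (P' s) s) (hP0 : P 0 = 0)
    (hP' : ∀ s ∈ Icc 0 t, 0 ≤ P' s) (hR0 : ∀ s ∈ Icc 0 t, 0 ≤ R s)
    (hI : ∀ s ∈ Icc 0 t, HasDerivAt I (P' s * Real.exp (-P s + R s)) s) (hI0 : I 0 = 0) :
    ∀ s ∈ Icc 0 t, 0 ≤ uI P I s := by
  intro s hs
  have h := nonneg_of_forward (U := fun s => I s + Real.exp (-P s) - 1)
    (U' := fun s => P' s * Real.exp (-P s + R s) + Real.exp (-P s) * (-P' s)) (a := 0) (s := t)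
    (fun s hs => ((hI s hs).add ((hP s hs).neg.exp)).sub_const 1) (by simp [hI0, hP0])
    (fun s hs _ => by
      have e1 : Real.exp (-P s) ≤ Real.exp (-P s + R s) :=
        Real.exp_le_exp.2 (by linarith [hR0 s hs])
      nlinarith [mul_le_mul_of_nonneg_left e1 (hP' s hs)]) s hs
  have e : Real.exp (P s) * Real.exp (-P s) = 1 := by
    rw [← Real.exp_add, add_neg_cancel, Real.exp_zero]
  have h2 := mul_nonneg (Real.exp_pos (P s)).le h
  unfold uI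
  nlinarith

variable {Fy Fy' Fz Fz' : ℝ → ℝ}

theorem uI_le (hP : ∀ s ∈ Icc 0 t, HasDerivAt P (P' s) s) (hP0 : P 0 = 0)
    (hP' : ∀ s ∈ Icc 0 t, 0 ≤ P' s) (hR0 : ∀ s ∈ Icc 0 t, 0 ≤ R s)
    (hI : ∀ s ∈ Icc 0 t, HasDerivAt I (P' s * Real.exp (-P s + R s)) s) (hI0 : I 0 = 0)
    (hFy : ∀ s ∈ Icc 0 t, HasDerivAt Fy (Fy' s) s) (hFy0 : Fy 0 = 0)
    (hFz : ∀ s ∈ Icc 0 t, HasDerivAt Fz (Fz' s) s) (hFz0 : Fz 0 = 0)
    (hFz' : ∀ s ∈ Icc 0 t, 0 ≤ Fz' s) (hPF : ∀ s ∈ Icc 0 t, P' s ≤ Fy' s)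
    (hRF : ∀ s ∈ Icc 0 t, R s ≤ Fz s) (hFyn : ∀ s ∈ Icc 0 t, 0 ≤ Fy s) :
    ∀ s ∈ Icc 0 t, uI P I s ≤ (Real.exp (Fy s) - 1) * (Real.exp (Fz s) - 1) := by
  intro s hs
  have hU := uI_nonneg hP hP0 hP' hR0 hI hI0
  have h := nonneg_of_forward
    (U := fun s => Real.exp (-Fy s) * ((Real.exp (Fy s) - 1) * (Real.exp (Fz s) - 1) - uI P I s))
    (U' := fun s => Real.exp (-Fy s) * (-Fy' s) *
        ((Real.exp (Fy s) - 1) * (Real.exp (Fz s) - 1) - uI P I s)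
      + Real.exp (-Fy s) * (Real.exp (Fy s) * Fy' s * (Real.exp (Fz s) - 1)
        + (Real.exp (Fy s) - 1) * (Real.exp (Fz s) * Fz' s)
        - P' s * (uI P I s + (Real.exp (R s) - 1)))) (a := 0) (s := t)
    (fun s hs => ((hFy s hs).neg.exp).mul (((((hFy s hs).exp).sub_const 1).mul
      (((hFz s hs).exp).sub_const 1)).sub (uI_deriv (hP s hs) (hI s hs))))
    (by simp [hFy0, hFz0, uI, hP0, hI0])
    (fun s hs _ => by
      have e0 := (Real.exp_pos (-Fy s)).le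
      have e1 : Real.exp (R s) ≤ Real.exp (Fz s) := Real.exp_le_exp.2 (hRF s hs)
      have e2 := hU s hs
      have e3 : 1 ≤ Real.exp (R s) := Real.one_le_exp (hR0 s hs)
      have e4 : 1 ≤ Real.exp (Fy s) := Real.one_le_exp (hFyn s hs)
      have e5 := hPF s hs
      have e6 := hP' s hs
      have e7 : P' s * (uI P I s + (Real.exp (R s) - 1))
          ≤ Fy' s * (uI P I s + (Real.exp (Fz s) - 1)) :=
        mul_le_mul e5 (by linarith) (by linarith) (e6.trans e5)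
      have e8 : 0 ≤ (Real.exp (Fy s) - 1) * (Real.exp (Fz s) * Fz' s) :=
        mul_nonneg (by linarith) (mul_nonneg (Real.exp_pos _).le (hFz' s hs))
      have e9 : Real.exp (-Fy s) * (-Fy' s) *
          ((Real.exp (Fy s) - 1) * (Real.exp (Fz s) - 1) - uI P I s)
        + Real.exp (-Fy s) * (Real.exp (Fy s) * Fy' s * (Real.exp (Fz s) - 1)
          + (Real.exp (Fy s) - 1) * (Real.exp (Fz s) * Fz' s)
          - P' s * (uI P I s + (Real.exp (R s) - 1)))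
        = Real.exp (-Fy s) * ((Real.exp (Fy s) - 1) * (Real.exp (Fz s) * Fz' s)
          + (Fy' s * (uI P I s + (Real.exp (Fz s) - 1))
            - P' s * (uI P I s + (Real.exp (R s) - 1)))) := by ring
      show 0 ≤ _
      rw [e9]
      exact mul_nonneg e0 (by linarith)) s hs
  have h3 := (mul_nonneg_iff_of_pos_left (Real.exp_pos (-Fy s))).1 h
  linarith

/-- The product rule: both one-sided main terms together. -/
theorem t1_prod {P2 P2' R2 I2 : ℝ → ℝ} (ht : 0 ≤ t)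
    (hP : ∀ s ∈ Icc 0 t, HasDerivAt P (P' s) s) (hP0 : P 0 = 0)
    (hP' : ∀ s ∈ Icc 0 t, 0 ≤ P' s) (hR0 : ∀ s ∈ Icc 0 t, 0 ≤ R s)
    (hI : ∀ s ∈ Icc 0 t, HasDerivAt I (P' s * Real.exp (-P s + R s)) s) (hI0 : I 0 = 0)
    (hP2 : ∀ s ∈ Icc 0 t, HasDerivAt P2 (P2' s) s) (hP20 : P2 0 = 0)
    (hP2' : ∀ s ∈ Icc 0 t, 0 ≤ P2' s) (hR20 : ∀ s ∈ Icc 0 t, 0 ≤ R2 s)
    (hI2 : ∀ s ∈ Icc 0 t, HasDerivAt I2 (P2' s * Real.exp (-P2 s + R2 s)) s) (hI20 : I2 0 = 0)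
    (hFy : ∀ s ∈ Icc 0 t, HasDerivAt Fy (Fy' s) s) (hFy0 : Fy 0 = 0)
    (hFz : ∀ s ∈ Icc 0 t, HasDerivAt Fz (Fz' s) s) (hFz0 : Fz 0 = 0)
    (hPF : ∀ s ∈ Icc 0 t, P' s ≤ Fy' s) (hRF : ∀ s ∈ Icc 0 t, R s ≤ Fz s)
    (hP2F : ∀ s ∈ Icc 0 t, P2' s ≤ Fz' s) (hR2F : ∀ s ∈ Icc 0 t, R2 s ≤ Fy s) :
    uI P I t + uI P2 I2 t ≤ (Real.exp (Fy t) - 1) * (Real.exp (Fz t) - 1) := by
  have hFz' : ∀ s ∈ Icc 0 t, 0 ≤ Fz' s := fun s hs => (hP2' s hs).trans (hP2F s hs)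
  have hFy' : ∀ s ∈ Icc 0 t, 0 ≤ Fy' s := fun s hs => (hP' s hs).trans (hPF s hs)
  have hFyn : ∀ s ∈ Icc 0 t, 0 ≤ Fy s := fun s hs => (hR20 s hs).trans (hR2F s hs)
  have hFzn : ∀ s ∈ Icc 0 t, 0 ≤ Fz s := fun s hs => (hR0 s hs).trans (hRF s hs)
  have a1 := uI_le hP hP0 hP' hR0 hI hI0 hFy hFy0 hFz hFz0 hFz' hPF hRF hFyn
  have a2 := uI_le hP2 hP20 hP2' hR20 hI2 hI20 hFz hFz0 hFy hFy0 hFy' hP2F hR2F hFzn
  have hU := uI_nonneg hP hP0 hP' hR0 hI hI0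
  have hU2 := uI_nonneg hP2 hP20 hP2' hR20 hI2 hI20
  have h := nonneg_of_forward
    (U := fun s => (Real.exp (Fy s) - 1) * (Real.exp (Fz s) - 1) - uI P I s - uI P2 I2 s)
    (U' := fun s => (Real.exp (Fy s) * Fy' s * (Real.exp (Fz s) - 1)
        + (Real.exp (Fy s) - 1) * (Real.exp (Fz s) * Fz' s))
        - P' s * (uI P I s + (Real.exp (R s) - 1))
        - P2' s * (uI P2 I2 s + (Real.exp (R2 s) - 1))) (a := 0) (s := t)
    (fun s hs => ((((((hFy s hs).exp).sub_const 1).mul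
      (((hFz s hs).exp).sub_const 1)).sub (uI_deriv (hP s hs) (hI s hs)))).sub
        (uI_deriv (hP2 s hs) (hI2 s hs)))
    (by simp [hFy0, hFz0, uI, hP0, hI0, hP20, hI20])
    (fun s hs _ => by
      have e1 : Real.exp (R s) ≤ Real.exp (Fz s) := Real.exp_le_exp.2 (hRF s hs)
      have e1' : Real.exp (R2 s) ≤ Real.exp (Fy s) := Real.exp_le_exp.2 (hR2F s hs)
      have e3 : 1 ≤ Real.exp (R s) := Real.one_le_exp (hR0 s hs)
      have e3' : 1 ≤ Real.exp (R2 s) := Real.one_le_exp (hR20 s hs)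
      have b1 := a1 s hs
      have b2 := a2 s hs
      have e7 : P' s * (uI P I s + (Real.exp (R s) - 1))
          ≤ Fy' s * ((Real.exp (Fy s) - 1) * (Real.exp (Fz s) - 1) + (Real.exp (Fz s) - 1)) :=
        mul_le_mul (hPF s hs) (by linarith) (by linarith [hU s hs]) (hFy' s hs)
      have e8 : P2' s * (uI P2 I2 s + (Real.exp (R2 s) - 1))
          ≤ Fz' s * ((Real.exp (Fz s) - 1) * (Real.exp (Fy s) - 1) + (Real.exp (Fy s) - 1)) :=
        mul_le_mul (hP2F s hs) (by linarith) (by linarith [hU2 s hs]) (hFz' s hs)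
      show 0 ≤ _
      nlinarith) t ⟨ht, le_rfl⟩
  linarith

/-- The integral of the one-sided main term. -/
theorem uI_int {s : ℝ} (hP : HasDerivAt P (P' s) s) (hR : HasDerivAt R (R' s) s)
    (hI : HasDerivAt I (P' s * Real.exp (-P s + R s)) s) :
    HasDerivAt (fun s => Real.exp (P t) * (-(Real.exp (-R s) * (I t - I s)) + Real.exp (-P s)))
      (R' s * (Real.exp (P t - R s) * (I t - I s))) s := by
  have d1 := ((hR.neg.exp).mul (hI.const_sub (I t))).neg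
  have d2 := hP.neg.exp
  refine ((d1.add d2).const_mul (Real.exp (P t))).congr_deriv ?_
  have e : Real.exp (P t - R s) = Real.exp (P t) * Real.exp (-R s) := by
    rw [← Real.exp_add]; congr 1
  have e2 : Real.exp (-P s + R s) = Real.exp (-P s) * Real.exp (R s) := Real.exp_add _ _
  have e3 : Real.exp (-R s) * Real.exp (R s) = 1 := by
    rw [← Real.exp_add, neg_add_cancel, Real.exp_zero]
  rw [e, e2]
  simp only [Pi.neg_apply]
  linear_combination (Real.exp (P t) * Real.exp (-P s) * P' s) * e3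

end prod

variable {V : Type*} [Fintype V] [DecidableEq V]
variable {h : ℝ → V → V → ℝ} {H : V → V → ℝ → ℝ} {X : V → V → ℝ} {M μ : ℝ → ℝ} {t : ℝ}

/-- the source value in exponential form, with an `r`-dependent inner factor -/
theorem t1_J2 (hh : Haz h H) {u v w : V} (huw : u ≠ w) {t : ℝ} (ht : t ∈ Icc (0 : ℝ) 1)
    {P R R' : ℝ → ℝ} (hR : ∀ s ∈ Icc 0 t, HasDerivAt R (R' s) s) {Q w1 α c : ℝ → ℝ}
    (hQ : ∀ r ∈ Icc 0 t, Real.exp (-Q r) * (bb h {w} u r * bb h {u} w r)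
      ≤ Real.exp (H u w r) * pp h u w r)
    (hW : ∀ r ∈ Icc 0 t, Wr h u w r ≤ Real.exp (-P r) * (1 + w1 r))
    (hA : ∀ r ∈ Icc 0 t, bb h {u, v} w r ≤ Real.exp (R r) * (1 + α r) * bb h {u} w r)
    (hα0 : ∀ r ∈ Icc 0 t, 0 ≤ α r)
    (hc : ∀ r ∈ Icc 0 t, (1 + w1 r) * (1 + α r) * Real.exp (Q r) ≤ 1 + c r)
    {Ψ Ψ' : ℝ → ℝ} (hΨd : ∀ s ∈ Icc 0 t, HasDerivAt Ψ (Ψ' s) s) (hΨt : 0 ≤ Ψ t)
    (hΨ : ∀ s ∈ Icc 0 t, Ψ s * R' s + dE h u w s * (1 + c s) * Real.exp (P t - P s) ≤ -Ψ' s) :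
    ∀ s ∈ Icc 0 t, zx h H {u, v} u w t s ≤ (1 + 0) * (Real.exp (-P t + R s) * Ψ s) := by
  rw [add_zero, ]
  simp only [one_mul]
  refine zx_flux hh huw ht (Q := Q) (A := fun r => Real.exp (R r) * (1 + α r)) hQ hA
    (J' := fun s => (Real.exp (-P t + R s) * R' s * Ψ s + Real.exp (-P t + R s) * Ψ' s))
    (fun s hs => ((((hR s hs).const_add (-P t)).exp).mul (hΨd s hs)))
    (mul_nonneg (Real.exp_pos _).le hΨt) fun r hr => ?_
  have hr1 : r ∈ Icc (0 : ℝ) 1 := ⟨hr.1, hr.2.trans ht.2⟩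
  have e0 := dE_nonneg hh u w hr1
  have e1 : 0 ≤ Real.exp (R r) * (1 + α r) * Real.exp (Q r) := by
    have := hα0 r hr; positivity
  calc h r u w * pp h u w r / bb h ∅ u r * Wr h u w r * (Real.exp (R r) * (1 + α r)) *
        Real.exp (Q r)
      = dE h u w r * Wr h u w r * (Real.exp (R r) * (1 + α r) * Real.exp (Q r)) := by
        unfold dE; ring
    _ ≤ dE h u w r * (Real.exp (-P r) * (1 + w1 r)) *
          (Real.exp (R r) * (1 + α r) * Real.exp (Q r)) :=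
        mul_le_mul_of_nonneg_right (mul_le_mul_of_nonneg_left (hW r hr) e0) e1
    _ = dE h u w r * Real.exp (-P r) * Real.exp (R r) *
          ((1 + w1 r) * (1 + α r) * Real.exp (Q r)) := by ring
    _ ≤ dE h u w r * Real.exp (-P r) * Real.exp (R r) * (1 + c r) :=
        mul_le_mul_of_nonneg_left (hc r hr)
          (mul_nonneg (mul_nonneg e0 (Real.exp_pos _).le) (Real.exp_pos _).le)
    _ = Real.exp (-P t + R r) * (dE h u w r * (1 + c r) * Real.exp (P t - P r)) := by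
        have : Real.exp (-P r) * Real.exp (R r) = Real.exp (-P t + R r) * Real.exp (P t - P r) := by
          rw [← Real.exp_add, ← Real.exp_add]; congr 1; ring
        rw [mul_assoc (dE h u w r), this]; ring
    _ ≤ Real.exp (-P t + R r) * (-Ψ' r - Ψ r * R' r) :=
        mul_le_mul_of_nonneg_left (by linarith [hΨ r hr]) (Real.exp_pos _).le
    _ = _ := by ring

/-- The A-lemma in exponential form, with an `s`-dependent error. -/
theorem aLem_E2 (hh : Haz h H) {D : Finset V} {p q : V} (hp : p ∉ D) (hq : q ∉ D) (hpq : p ≠ q)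
    {T : ℝ} (hT : T ∈ Icc (0 : ℝ) 1) {P N : V → ℝ → ℝ}
    (hI : Inf (insert p (insert q D))ᶜ T (RCG.tgt h p T) P N)
    {E : ℝ → ℝ} (hE : ∀ s ∈ Icc 0 T, HasDerivAt E (dE h p q s) s) (hE0 : E 0 = 0)
    {yb κ Q r β w ε : ℝ → ℝ} {n : ℝ}
    (hyb : ∀ s ∈ Icc 0 T, ∑ w ∈ (insert p (insert q D))ᶜ, h s q w * N w s ≤ yb s)
    (hyb0 : ∀ s ∈ Icc 0 T, 0 ≤ yb s)
    (hcmp : ∀ s ∈ Icc 0 T, ex (lw h D s) {p, q} (fun F => RCG.tgt h p T F s)
      ≤ Real.exp (-H p q s + κ s) * (bb h (insert q D) p T * bb h (insert p D) q s))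
    (hQ : ∀ s ∈ Icc 0 T, Real.exp (-Q s) * (bb h {q} p s * bb h {p} q s)
      ≤ Real.exp (H p q s) * pp h p q s)
    (hr : ∀ s ∈ Icc 0 T, bb h (insert p D) q s ≤ r s * bb h {p} q s)
    (hβ : ∀ s ∈ Icc 0 T, Real.exp (-H p q s) * bb h (insert p D) q s ≤ β s)
    (hw : ∀ s ∈ Icc 0 T, Wr h p q s ≤ Real.exp (-E s) * (1 + w s))
    (hε : ∀ s ∈ Icc 0 T, (1 + w s) * (r s * Real.exp (κ s + Q s)) ≤ 1 + ε s)
    {Z Z' : ℝ → ℝ} (hZ : ∀ s ∈ Icc 0 T, HasDerivAt Z (Z' s) s)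
    (hZ' : ∀ s ∈ Icc 0 T, dE h p q s * Real.exp (-E s) * ε s + yb s * Real.exp (κ s) * β s ≤ Z' s)
    (hZn : Z T - Z 0 ≤ n) :
    bb h (insert q D) p T * (Real.exp (-E T) - n) ≤ bb h D p T := by
  have hr0 : ∀ s ∈ Icc 0 T, 0 ≤ r s := by
    intro s hs
    have hs1 : s ∈ Icc (0 : ℝ) 1 := ⟨hs.1, hs.2.trans hT.2⟩
    by_contra hneg
    push Not at hneg
    have h4 := hr s hs
    have h5 : 0 ≤ bb h (insert p D) q s := bb_nonneg hh _ _ hs1
    have h6 := bb_pos hh (show q ∉ ({p} : Finset V) by simpa using hpq.symm) hs1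
    nlinarith
  have key := aLem_flux hh hp hq hpq hT hI hyb hyb0 hcmp hQ hr hβ
    (Γ := fun s => (-Real.exp (-E s)) + Z s)
    (g := fun s => (Real.exp (-E s) * dE h p q s) + Z' s)
    (fun s hs => by
      have d1 := ((hE s hs).neg.exp).neg
      refine (d1.add (hZ s hs)).congr_deriv ?_
      simp only [Pi.neg_apply]
      ring)
    (fun s hs => by
      have hs1 : s ∈ Icc (0 : ℝ) 1 := ⟨hs.1, hs.2.trans hT.2⟩
      have e0 := dE_nonneg hh p q hs1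
      have e1 : 0 ≤ r s * Real.exp (κ s + Q s) := mul_nonneg (hr0 s hs) (Real.exp_pos _).le
      have e2 : h s p q * pp h p q s / bb h ∅ p s * Wr h p q s * r s * Real.exp (κ s + Q s)
          ≤ dE h p q s * Real.exp (-E s) * (1 + ε s) := by
        calc h s p q * pp h p q s / bb h ∅ p s * Wr h p q s * r s * Real.exp (κ s + Q s)
            = dE h p q s * Wr h p q s * (r s * Real.exp (κ s + Q s)) := by unfold dE; ring
          _ ≤ dE h p q s * (Real.exp (-E s) * (1 + w s)) * (r s * Real.exp (κ s + Q s)) :=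
              mul_le_mul_of_nonneg_right (mul_le_mul_of_nonneg_left (hw s hs) e0) e1
          _ = dE h p q s * Real.exp (-E s) * ((1 + w s) * (r s * Real.exp (κ s + Q s))) := by
              ring
          _ ≤ dE h p q s * Real.exp (-E s) * (1 + ε s) :=
              mul_le_mul_of_nonneg_left (hε s hs) (mul_nonneg e0 (Real.exp_pos _).le)
      have := hZ' s hs
      nlinarith)
  have hB0 : 0 ≤ bb h (insert q D) p T := bb_nonneg hh _ _ hT
  refine le_trans (mul_le_mul_of_nonneg_left ?_ hB0) key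
  simp only [hE0, neg_zero, Real.exp_zero]
  linarith

theorem ratio_E2 {x y E n α : ℝ} (hx : 0 ≤ x) (hα0 : 0 ≤ α)
    (h : x * (Real.exp (-E) - n) ≤ y) (hα : 1 ≤ (1 + α) * (1 - Real.exp E * n)) :
    x ≤ Real.exp E * (1 + α) * y := by
  refine ratio_E (ε := 0) hx hα0 (n := n) ?_ ?_
  · simpa using h
  · simpa using hα

/-- The A-lemma in number form, with an `s`-dependent error. -/
theorem Cx.A_E2 (hC : Cx h H X M μ t) {D : Finset V} {p q : V} (hp : p ∉ D) (hq : q ∉ D)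
    (hpq : p ≠ q) {T : ℝ} (hT : T ∈ Icc 0 t)
    {E : ℝ → ℝ} (hE : ∀ s ∈ Icc 0 T, HasDerivAt E (dE h p q s) s) (hE0 : E 0 = 0)
    {K Q r β w ε : ℝ → ℝ} {n α : ℝ}
    (hK : ∀ s ∈ Icc 0 T, Exq (cru2 h H X M (insert p (insert q D))ᶜ p T q s) s (K s))
    (hQ : ∀ s ∈ Icc 0 T, Exq (crl2 h H X M ({p, q} : Finset V)ᶜ p s q s) s (Q s))
    (hr : ∀ s ∈ Icc 0 T, bb h (insert p D) q s ≤ r s * bb h {p} q s)
    (hβ : ∀ s ∈ Icc 0 T, Real.exp (-H p q s) * bb h (insert p D) q s ≤ β s)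
    (hw : ∀ s ∈ Icc 0 T, Wr h p q s ≤ Real.exp (-E s) * (1 + w s))
    (hε : ∀ s ∈ Icc 0 T, (1 + w s) * (r s * Real.exp (K s + Q s)) ≤ 1 + ε s)
    {Z Z' : ℝ → ℝ} (hZ : ∀ s ∈ Icc 0 T, HasDerivAt Z (Z' s) s)
    (hZ' : ∀ s ∈ Icc 0 T, dE h p q s * Real.exp (-E s) * ε s
      + (∑ w ∈ (insert p (insert q D))ᶜ, h s q w *
      Nt X (insert p (insert q D))ᶜ p (M T - M s) w) * (Real.exp (K s) * β s) ≤ Z' s)
    (hZn : Z T - Z 0 ≤ n) (hα0 : 0 ≤ α) (hα : 1 ≤ (1 + α) * (1 - Real.exp (E T) * n)) :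
    bb h (insert q D) p T ≤ Real.exp (E T) * (1 + α) * bb h D p T := by
  have hh := hC.hh
  have hI := hC.inf hT (w := p) (H0 := (insert p (insert q D))ᶜ) (by simp)
      (subset_rfl : (insert p (insert q D))ᶜ ⊆ _) le_rfl
  refine ratio_E2 (bb_nonneg hh _ _ (hC.mem hT)) hα0 (aLem_E2 hh hp hq hpq (hC.mem hT) hI hE hE0
    (yb := fun s => ∑ w ∈ (insert p (insert q D))ᶜ, h s q w *
      Nt X (insert p (insert q D))ᶜ p (M T - M s) w)
    (fun s _ => le_rfl) (fun s hs => Finset.sum_nonneg fun w hw =>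
      mul_nonneg (hh.nonneg _ _ _) (hI.N0 w hw s hs))
    (fun s hs => hC.ex2_up hp hq hpq hT hs (hK s hs))
    (fun s hs => hC.pp_lo hpq ⟨hs.1, hs.2.trans hT.2⟩ (hQ s hs)) hr hβ hw hε hZ
    (fun s hs => ?_) hZn) hα
  rw [mul_assoc (∑ w ∈ (insert p (insert q D))ᶜ, h s q w *
      Nt X (insert p (insert q D))ᶜ p (M T - M s) w)]
  exact hZ' s hs

end Pool.Agent.RCG
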