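import Pool.Agent.RCG.Wk

/-! Explicit closures from walk vectors (MP_73ccd0_lc, general graphs). -/

namespace Pool.Agent.RCG

open Set Finset Matrix Pool.Agent.RCRSHalf

set_option linter.unusedSectionVars false

variable {V : Type*} [Fintype V] [DecidableEq V]

/-- lower influence bound -/
noncomputable def Nw (c κ θ : ℝ) (A : Matrix V V ℝ) (F : V → ℝ) (m : ℝ) (a : V) : ℝ :=
  b2 c m * (A *ᵥ F) a + b4 c κ m * (A *ᵥ (A *ᵥ (A *ᵥ Res θ (A * A) F))) a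

/-- exponent of the upper influence bound -/
noncomputable def Yw (c κ θ : ℝ) (A : Matrix V V ℝ) (F : V → ℝ) (m : ℝ) (a : V) : ℝ :=
  g3 c m * (A *ᵥ (A *ᵥ F)) a + g5 c κ m * (A *ᵥ (A *ᵥ (A *ᵥ (A *ᵥ Res θ (A * A) F)))) a

section vec

variable {c κ θ σ m1 : ℝ} {A : Matrix V V ℝ} {F : V → ℝ} {m : ℝ}

theorem sq_row (hA : MN A) (hrow : ∀ a, (A *ᵥ fun _ => 1) a ≤ 1) (a : V) :
    ((A * A) *ᵥ fun _ => 1) a ≤ 1 := by
  rw [← Matrix.mulVec_mulVec]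
  exact A_const_le hA hrow zero_le_one hrow a

theorem ResA_nonneg (hθ : 0 ≤ θ) (hA : MN A) (hF : ∀ a, 0 ≤ F a) (a : V) :
    0 ≤ Res θ (A * A) F a := Res_nonneg hθ (hA.mul hA) hF a

theorem ResA_eq (hθ : 0 ≤ θ) (hθ1 : θ < 1) (hA : MN A) (hrow : ∀ a, (A *ᵥ fun _ => 1) a ≤ 1)
    (hF : ∀ a, 0 ≤ F a) : Res θ (A * A) F = F + θ • (A *ᵥ (A *ᵥ Res θ (A * A) F)) := by
  rw [Matrix.mulVec_mulVec]
  exact Res_eq hθ hθ1 (hA.mul hA) (sq_row hA hrow) hF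

/-- `A Φ ≤ σ / (1 - θ)` -/
theorem AResA_le (hθ : 0 ≤ θ) (hθ1 : θ < 1) (hA : MN A) (hrow : ∀ a, (A *ᵥ fun _ => 1) a ≤ 1)
    (hF : ∀ a, 0 ≤ F a) (hσ0 : 0 ≤ σ) (hσ : ∀ a, (A *ᵥ F) a ≤ σ) (a : V) :
    (A *ᵥ Res θ (A * A) F) a ≤ σ / (1 - θ) := by
  rw [Res_comm hθ hθ1 (hA.mul hA) (sq_row hA hrow) (by rw [Matrix.mul_assoc]) hF]
  exact Res_le hθ hθ1 (hA.mul hA) (sq_row hA hrow) (fun a => mulVec_nonneg hA hF a) hσ0 hσ a

variable (hG : Good c κ θ σ m1) (hA : MN A) (hrow : ∀ a, (A *ᵥ fun _ => 1) a ≤ 1)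
  (hF : ∀ a, 0 ≤ F a) (hσ : ∀ a, (A *ᵥ F) a ≤ σ) (hm : m ∈ Icc 0 m1)

include hG hA hF hm in
theorem Nw_nonneg (a : V) : 0 ≤ Nw c κ θ A F m a := by
  unfold Nw
  exact add_nonneg (mul_nonneg (b2_nonneg hG.c0 hm.1) (mulVec_nonneg hA hF a))
    (mul_nonneg (b4_nonneg hG.c0 hG.κ0 hm.1) (mulVec_nonneg hA (mulVec_nonneg hA
      (mulVec_nonneg hA (ResA_nonneg hG.θ0 hA hF))) a))

include hG hA hF hm in
theorem Yw_nonneg (a : V) : 0 ≤ Yw c κ θ A F m a := by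
  unfold Yw
  exact add_nonneg (mul_nonneg (g3_nonneg hG.c0 hm.1) (mulVec_nonneg hA (mulVec_nonneg hA hF) a))
    (mul_nonneg (g5_nonneg hG.c0 hG.κ0 hm.1) (mulVec_nonneg hA (mulVec_nonneg hA (mulVec_nonneg hA
      (mulVec_nonneg hA (ResA_nonneg hG.θ0 hA hF)))) a))

include hG hA hrow hF hσ hm in
theorem Nw_le_one (a : V) : Nw c κ θ A F m a ≤ 1 := by
  refine le_trans ?_ (hG.n1 m hm)
  have hs : 0 ≤ σ / (1 - θ) := div_nonneg hG.σ0 (by linarith [hG.θ1])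
  have h1 := hσ a
  have h2 : (A *ᵥ (A *ᵥ (A *ᵥ Res θ (A * A) F))) a ≤ σ / (1 - θ) :=
    A_const_le hA hrow hs (A_const_le hA hrow hs
      (AResA_le hG.θ0 hG.θ1 hA hrow hF hG.σ0 hσ)) a
  unfold Nw
  have := mul_le_mul_of_nonneg_left h1 (b2_nonneg hG.c0 hm.1)
  have := mul_le_mul_of_nonneg_left h2 (b4_nonneg hG.c0 hG.κ0 hm.1)
  linarith

include hG hA hrow hF hσ hm in
theorem Yw_le (a : V) :
    Yw c κ θ A F m a ≤ σ * g3 c m + σ / (1 - θ) * g5 c κ m := by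
  have hs : 0 ≤ σ / (1 - θ) := div_nonneg hG.σ0 (by linarith [hG.θ1])
  have h1 := A_const_le hA hrow hG.σ0 hσ a
  have h2 : (A *ᵥ (A *ᵥ (A *ᵥ (A *ᵥ Res θ (A * A) F)))) a ≤ σ / (1 - θ) :=
    A_const_le hA hrow hs (A_const_le hA hrow hs (A_const_le hA hrow hs
      (AResA_le hG.θ0 hG.θ1 hA hrow hF hG.σ0 hσ))) a
  unfold Yw
  have := mul_le_mul_of_nonneg_left h1 (g3_nonneg hG.c0 hm.1)
  have := mul_le_mul_of_nonneg_left h2 (g5_nonneg hG.c0 hG.κ0 hm.1)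
  linarith

include hG hA hrow hF hm in
/-- bound of the exponent by `Φ` -/
theorem Yw_le_Res (a : V) :
    Yw c κ θ A F m a ≤ g3 c m * (A *ᵥ (A *ᵥ Res θ (A * A) F)) a := by
  have h4 : 0 ≤ (A *ᵥ (A *ᵥ (A *ᵥ (A *ᵥ Res θ (A * A) F)))) a :=
    mulVec_nonneg hA (mulVec_nonneg hA (mulVec_nonneg hA
      (mulVec_nonneg hA (ResA_nonneg hG.θ0 hA hF)))) a
  have e : (A *ᵥ (A *ᵥ Res θ (A * A) F)) a
      = (A *ᵥ (A *ᵥ F)) a + θ * (A *ᵥ (A *ᵥ (A *ᵥ (A *ᵥ Res θ (A * A) F)))) a := by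
    conv_lhs => rw [ResA_eq hG.θ0 hG.θ1 hA hrow hF]
    rw [Matrix.mulVec_add, Matrix.mulVec_add, Matrix.mulVec_smul, Matrix.mulVec_smul]
    simp [Pi.add_apply, Pi.smul_apply, smul_eq_mul]
  rw [e]
  unfold Yw
  have := mul_le_mul_of_nonneg_right (hG.g5le m hm) h4
  nlinarith

include hG hA hrow hF hσ hm in
/-- upper bound of the one-step influence -/
theorem Pw_bound (a : V) {K : ℝ} (hK : Real.exp K ≤ 1 + m * F a) :
    Real.exp (K + Yw c κ θ A F m a) - 1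
      ≤ al c m * F a + κ * g3 c m * (A *ᵥ (A *ᵥ Res θ (A * A) F)) a := by
  have hY0 := Yw_nonneg hG hA hF hm a
  have hYl := Yw_le hG hA hrow hF hσ hm a
  obtain ⟨e1, e2⟩ := hG.ey m hm _ hY0 hYl
  have e3 := Yw_le_Res hG hA hrow hF hm a
  rw [Real.exp_add]
  have hmF : 0 ≤ m * F a := mul_nonneg hm.1 (hF a)
  have h1 : Real.exp K * Real.exp (Yw c κ θ A F m a)
      ≤ (1 + m * F a) * (1 + κ * Yw c κ θ A F m a) :=
    mul_le_mul hK e1 (Real.exp_pos _).le (by linarith)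
  have h2 : (m * F a) * (κ * Yw c κ θ A F m a) ≤ (m * F a) * (c * m ^ 3) :=
    mul_le_mul_of_nonneg_left e2 hmF
  have h3 := mul_le_mul_of_nonneg_left e3 hG.κ0
  unfold al
  nlinarith

include hG hA hrow hF hσ hm in
/-- small bound when there is no direct killing -/
theorem Pw_small (a : V) : Real.exp (Yw c κ θ A F m a) - 1 ≤ c * m ^ 3 := by
  obtain ⟨e1, e2⟩ := hG.ey m hm _ (Yw_nonneg hG hA hF hm a) (Yw_le hG hA hrow hF hσ hm a)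
  linarith

end vec

variable {h : ℝ → V → V → ℝ} {H : V → V → ℝ → ℝ} {X : V → V → ℝ}

/-- derivative of the lower influence bound -/
theorem Nw_deriv (c κ θ : ℝ) (A : Matrix V V ℝ) (F : V → ℝ) (m : ℝ) (a : V) :
    HasDerivAt (fun m => Nw c κ θ A F m a)
      (al c m * (A *ᵥ F) a + κ * g3 c m * (A *ᵥ (A *ᵥ (A *ᵥ Res θ (A * A) F))) a) m := by
  unfold Nw
  exact ((b2_deriv c m).mul_const _).add ((b4_deriv c κ m).mul_const _)

theorem Yw_deriv (c κ θ : ℝ) (A : Matrix V V ℝ) (F : V → ℝ) (m : ℝ) (a : V) :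
    HasDerivAt (fun m => Yw c κ θ A F m a) ((A *ᵥ Nw c κ θ A F m) a) m := by
  have h1 : HasDerivAt (fun m => Yw c κ θ A F m a)
      (b2 c m * (A *ᵥ (A *ᵥ F)) a + b4 c κ m * (A *ᵥ (A *ᵥ (A *ᵥ (A *ᵥ Res θ (A * A) F)))) a) m := by
    unfold Yw
    exact ((g3_deriv c m).mul_const _).add ((g5_deriv c κ m).mul_const _)
  refine h1.congr_deriv ?_
  have e : Nw c κ θ A F m = b2 c m • (A *ᵥ F)
      + b4 c κ m • (A *ᵥ (A *ᵥ (A *ᵥ Res θ (A * A) F))) := by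
    funext b; simp [Nw, Pi.add_apply, Pi.smul_apply, smul_eq_mul]
  rw [e, Matrix.mulVec_add, Matrix.mulVec_smul, Matrix.mulVec_smul]
  simp [Pi.add_apply, Pi.smul_apply, smul_eq_mul]

/-- the hazards are dominated by the weights in the clock `M` -/
structure Clk (h : ℝ → V → V → ℝ) (X : V → V → ℝ) (M μ : ℝ → ℝ) (T m1 : ℝ) : Prop where
  Md : ∀ r ∈ Icc 0 T, HasDerivAt M (μ r) r
  μ0 : ∀ r ∈ Icc 0 T, 0 ≤ μ r
  le : ∀ r ∈ Icc 0 T, ∀ a b, h r a b ≤ μ r * X a b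
  m : ∀ r ∈ Icc 0 T, M T - M r ∈ Icc 0 m1

/-- the explicit closure -/
theorem wclo (hh : Haz h H) (hX : Wt X) {M μ : ℝ → ℝ} {T m1 : ℝ} (hT0 : 0 ≤ T)
    (hc : Clk h X M μ T m1) {c κ θ σ : ℝ} (hG : Good c κ θ σ m1) {w : V} {H0 : Finset V}
    {F : V → ℝ} (hF : ∀ a, 0 ≤ F a) (hσ : ∀ a, (rm X H0 *ᵥ F) a ≤ σ)
    (hFe : ∀ a ∈ H0, ∀ b ∈ H0, X a b ≠ 0 → ∀ m ∈ Icc 0 m1, Real.exp (m * X w b) ≤ 1 + m * F b) :
    Clo h w H0 T
      (fun a r => Real.exp (H w a T - H w a r + Yw c κ θ (rm X H0) F (M T - M r) a) - 1)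
      (fun a r => Nw c κ θ (rm X H0) F (M T - M r) a) := by
  have hA := hX.rm_nonneg H0
  have hrow := hX.rm_row H0
  refine Clo.of_clock hh hT0 hc.Md hc.μ0 hc.m hX.nonneg hc.le
    (N := fun a m => Nw c κ θ (rm X H0) F m a)
    (N' := fun a m => al c m * (rm X H0 *ᵥ F) a
      + κ * g3 c m * (rm X H0 *ᵥ (rm X H0 *ᵥ (rm X H0 *ᵥ Res θ (rm X H0 * rm X H0) F))) a)
    (Y := fun a m => Yw c κ θ (rm X H0) F m a)
    (Y' := fun a m => (rm X H0 *ᵥ Nw c κ θ (rm X H0) F m) a)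
    (fun a _ m hm => Nw_nonneg hG hA hF hm a)
    (fun a _ m hm => Nw_le_one hG hA hrow hF hσ hm a)
    (fun a _ m hm => Yw_nonneg hG hA hF hm a)
    (fun a _ m _ => Nw_deriv c κ θ _ F m a) (fun a _ m _ => Yw_deriv c κ θ _ F m a)
    (fun a ha m hm => ?_) (fun a ha m hm => ?_)
  · set A := rm X H0 with hAd
    have e : al c m * (A *ᵥ F) a + κ * g3 c m * (A *ᵥ (A *ᵥ (A *ᵥ Res θ (A * A) F))) a
        = ∑ b ∈ H0, X a b * (al c m * F b + κ * g3 c m * (A *ᵥ (A *ᵥ Res θ (A * A) F)) b) := by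
      rw [hAd, rm_mulVec H0 F ha, rm_mulVec H0 _ ha, ← hAd, Finset.mul_sum, Finset.mul_sum,
        ← Finset.sum_add_distrib]
      exact Finset.sum_congr rfl fun b _ => by ring
    rw [e]
    refine Finset.sum_le_sum fun b hb => ?_
    by_cases hab : X a b = 0
    · rw [hab, zero_mul, zero_mul]
    · exact mul_le_mul_of_nonneg_left
        (Pw_bound hG hA hrow hF hσ hm b (hFe a ha b hb hab m hm)) (hX.nonneg a b)
  · rw [rm_mulVec H0 _ ha]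

end Pool.Agent.RCG
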