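import Pool.Agent.RCG.GlueE
import Pool.Agent.RCRSHalf.Bounds

/-! Weights, walk matrices and resolvents (MP_73ccd0_lc, general graphs). -/

namespace Pool.Agent.RCG

open Set Finset Matrix Pool.Agent.RCRSHalf

set_option linter.unusedSectionVars false

variable {V : Type*} [Fintype V] [DecidableEq V]

/-- symmetric substochastic weights -/
structure Wt (X : V → V → ℝ) : Prop where
  symm : ∀ a b, X a b = X b a
  nonneg : ∀ a b, 0 ≤ X a b
  diag : ∀ a, X a a = 0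
  row : ∀ a, ∑ b, X a b ≤ 1

variable {X : V → V → ℝ}

theorem Wt.le_one (hX : Wt X) (a b : V) : X a b ≤ 1 :=
  (Finset.single_le_sum (f := fun b => X a b) (fun c _ => hX.nonneg a c) (Finset.mem_univ b)).trans
    (hX.row a)

theorem Wt.rm_nonneg (hX : Wt X) (H : Finset V) : MN (rm X H) := fun a b => by
  unfold rm; split_ifs; exacts [hX.nonneg a b, le_rfl]

theorem Wt.rm_symm (hX : Wt X) (H : Finset V) : (rm X H)ᵀ = rm X H := by
  ext a b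
  simp only [Matrix.transpose_apply, rm]
  by_cases h : a ∈ H ∧ b ∈ H
  · rw [if_pos h, if_pos ⟨h.2, h.1⟩, hX.symm]
  · rw [if_neg h, if_neg fun h' => h ⟨h'.2, h'.1⟩]

theorem Wt.rm_mono (hX : Wt X) {H K : Finset V} (h : H ⊆ K) : ML (rm X H) (rm X K) :=
  fun a b => by
  unfold rm
  by_cases h1 : a ∈ H ∧ b ∈ H
  · rw [if_pos h1, if_pos ⟨h h1.1, h h1.2⟩]
  · rw [if_neg h1]; split_ifs; exacts [hX.nonneg a b, le_rfl]

theorem Wt.rm_le (hX : Wt X) (H : Finset V) (a b : V) : rm X H a b ≤ X a b := by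
  unfold rm; split_ifs; exacts [le_rfl, hX.nonneg a b]

theorem Wt.rm_row (hX : Wt X) (H : Finset V) (a : V) : (rm X H *ᵥ fun _ => 1) a ≤ 1 := by
  by_cases ha : a ∈ H
  · rw [rm_mulVec H _ ha]
    simp only [mul_one]
    exact (Finset.sum_le_sum_of_subset_of_nonneg (Finset.subset_univ _)
      fun b _ _ => hX.nonneg _ _).trans (hX.row a)
  · rw [rm_mulVec_out H _ ha]; norm_num

theorem mulVec_eq_sum (M : Matrix V V ℝ) (y : V → ℝ) (a : V) :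
    (M *ᵥ y) a = ∑ b, M a b * y b := rfl

section res

variable {B : Matrix V V ℝ} {θ : ℝ}

theorem MN.pow (hB : MN B) (n : ℕ) : MN (B ^ n) := by
  induction n with
  | zero => rw [pow_zero]; exact MN.one
  | succ n ih => rw [pow_succ]; exact ih.mul hB

theorem pow_mulVec_le (hB : MN B) (hrow : ∀ a, (B *ᵥ fun _ => 1) a ≤ 1) {F : V → ℝ} {c : ℝ}
    (hc : 0 ≤ c) (hF : ∀ a, F a ≤ c) (n : ℕ) (a : V) : ((B ^ n) *ᵥ F) a ≤ c := by
  induction n generalizing a with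
  | zero => simpa using hF a
  | succ n ih =>
    rw [pow_succ', ← Matrix.mulVec_mulVec]
    exact A_const_le hB hrow hc ih a

/-- the resolvent `∑ θⁿ Bⁿ F` -/
noncomputable def Res (θ : ℝ) (B : Matrix V V ℝ) (F : V → ℝ) (a : V) : ℝ :=
  ∑' n : ℕ, θ ^ n * ((B ^ n) *ᵥ F) a

theorem Res_summable (hθ : 0 ≤ θ) (hθ1 : θ < 1) (hB : MN B)
    (hrow : ∀ a, (B *ᵥ fun _ => 1) a ≤ 1) {F : V → ℝ} (hF : ∀ a, 0 ≤ F a) (a : V) :
    Summable fun n : ℕ => θ ^ n * ((B ^ n) *ᵥ F) a := by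
  obtain ⟨c, hc⟩ : ∃ c, ∀ a, F a ≤ c := ⟨∑ a, F a, fun a =>
    Finset.single_le_sum (f := F) (fun b _ => hF b) (Finset.mem_univ a)⟩
  have hc0 : 0 ≤ c := (hF a).trans (hc a)
  refine Summable.of_nonneg_of_le (f := fun n => θ ^ n * c)
    (fun n => mul_nonneg (pow_nonneg hθ n) (mulVec_nonneg (MN.pow hB n) hF a))
    (fun n => mul_le_mul_of_nonneg_left (pow_mulVec_le hB hrow hc0 hc n a) (pow_nonneg hθ n)) ?_
  exact (summable_geometric_of_lt_one hθ hθ1).mul_right c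

theorem Res_nonneg (hθ : 0 ≤ θ) (hB : MN B) {F : V → ℝ} (hF : ∀ a, 0 ≤ F a) (a : V) :
    0 ≤ Res θ B F a :=
  tsum_nonneg fun n => mul_nonneg (pow_nonneg hθ n) (mulVec_nonneg (MN.pow hB n) hF a)

theorem Res_eq (hθ : 0 ≤ θ) (hθ1 : θ < 1) (hB : MN B)
    (hrow : ∀ a, (B *ᵥ fun _ => 1) a ≤ 1) {F : V → ℝ} (hF : ∀ a, 0 ≤ F a) :
    Res θ B F = F + θ • (B *ᵥ Res θ B F) := by
  funext a
  have hs := Res_summable hθ hθ1 hB hrow hF
  have h1 := (hs a).tsum_eq_zero_add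
  have h2 : (B *ᵥ Res θ B F) a = ∑' n : ℕ, θ ^ n * ((B ^ (n + 1)) *ᵥ F) a := by
    have e1 : (B *ᵥ Res θ B F) a = ∑ b, ∑' n : ℕ, B a b * (θ ^ n * ((B ^ n) *ᵥ F) b) := by
      rw [mulVec_eq_sum]
      exact Finset.sum_congr rfl fun b _ => by unfold Res; rw [tsum_mul_left]
    rw [e1, ← Summable.tsum_finsetSum (fun b _ => (hs b).mul_left (B a b))]
    refine tsum_congr fun n => ?_
    rw [pow_succ', ← Matrix.mulVec_mulVec, mulVec_eq_sum, Finset.mul_sum]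
    exact Finset.sum_congr rfl fun b _ => by ring
  rw [Pi.add_apply, Pi.smul_apply, smul_eq_mul, h2, ← tsum_mul_left]
  unfold Res
  rw [h1]
  simp only [pow_zero, Matrix.one_mulVec, one_mul]
  congr 1
  refine tsum_congr fun n => ?_
  rw [pow_succ θ]
  ring

theorem Res_le (hθ : 0 ≤ θ) (hθ1 : θ < 1) (hB : MN B)
    (hrow : ∀ a, (B *ᵥ fun _ => 1) a ≤ 1) {F : V → ℝ} (hF : ∀ a, 0 ≤ F a) {c : ℝ}
    (hc0 : 0 ≤ c) (hc : ∀ a, F a ≤ c) (a : V) : Res θ B F a ≤ c / (1 - θ) := by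
  have h1 : Res θ B F a ≤ ∑' n : ℕ, θ ^ n * c :=
    (Res_summable hθ hθ1 hB hrow hF a).tsum_le_tsum
      (fun n => mul_le_mul_of_nonneg_left (pow_mulVec_le hB hrow hc0 hc n a) (pow_nonneg hθ n))
      ((summable_geometric_of_lt_one hθ hθ1).mul_right c)
  rw [tsum_mul_right, tsum_geometric_of_lt_one hθ hθ1] at h1
  rw [div_eq_inv_mul]
  exact h1

theorem Res_comm (hθ : 0 ≤ θ) (hθ1 : θ < 1) (hB : MN B)
    (hrow : ∀ a, (B *ᵥ fun _ => 1) a ≤ 1) {A : Matrix V V ℝ} (hAB : A * B = B * A)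
    {F : V → ℝ} (hF : ∀ a, 0 ≤ F a) :
    A *ᵥ Res θ B F = Res θ B (A *ᵥ F) := by
  funext a
  have hs := Res_summable hθ hθ1 hB hrow hF
  have hpow : ∀ n : ℕ, A * B ^ n = B ^ n * A := fun n =>
    (Commute.pow_right (show Commute A B from hAB) n)
  have e1 : (A *ᵥ Res θ B F) a = ∑ b, ∑' n : ℕ, A a b * (θ ^ n * ((B ^ n) *ᵥ F) b) := by
    rw [mulVec_eq_sum]
    exact Finset.sum_congr rfl fun b _ => by unfold Res; rw [tsum_mul_left]
  rw [e1, ← Summable.tsum_finsetSum (fun b _ => (hs b).mul_left (A a b))]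
  unfold Res
  refine tsum_congr fun n => ?_
  rw [Matrix.mulVec_mulVec, ← hpow, ← Matrix.mulVec_mulVec, mulVec_eq_sum A, Finset.mul_sum]
  exact Finset.sum_congr rfl fun b _ => by ring

theorem Res_symm (hθ : 0 ≤ θ) (hθ1 : θ < 1) (hB : MN B)
    (hrow : ∀ a, (B *ᵥ fun _ => 1) a ≤ 1) (hBs : Bᵀ = B)
    {F G : V → ℝ} (hF : ∀ a, 0 ≤ F a) (hG : ∀ a, 0 ≤ G a) :
    F ⬝ᵥ Res θ B G = Res θ B F ⬝ᵥ G := by
  have hsF := Res_summable hθ hθ1 hB hrow hF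
  have hsG := Res_summable hθ hθ1 hB hrow hG
  simp only [dotProduct, Res]
  rw [show (∑ a, F a * ∑' n : ℕ, θ ^ n * ((B ^ n) *ᵥ G) a)
      = ∑ a, ∑' n : ℕ, F a * (θ ^ n * ((B ^ n) *ᵥ G) a) from
        Finset.sum_congr rfl fun b _ => by rw [tsum_mul_left],
    show (∑ a, (∑' n : ℕ, θ ^ n * ((B ^ n) *ᵥ F) a) * G a)
      = ∑ a, ∑' n : ℕ, (θ ^ n * ((B ^ n) *ᵥ F) a) * G a from
        Finset.sum_congr rfl fun b _ => by rw [tsum_mul_right]]
  rw [← Summable.tsum_finsetSum (fun b _ => (hsG b).mul_left (F b)),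
    ← Summable.tsum_finsetSum (fun b _ => (hsF b).mul_right (G b))]
  refine tsum_congr fun n => ?_
  have hT : (B ^ n)ᵀ = B ^ n := by rw [Matrix.transpose_pow, hBs]
  have h1 : F ⬝ᵥ ((B ^ n) *ᵥ G) = ((B ^ n) *ᵥ F) ⬝ᵥ G := by
    rw [Matrix.dotProduct_mulVec, ← Matrix.mulVec_transpose, hT]
  have h2 : ∑ a, F a * (θ ^ n * ((B ^ n) *ᵥ G) a) = θ ^ n * (F ⬝ᵥ ((B ^ n) *ᵥ G)) := by
    simp only [dotProduct, Finset.mul_sum]
    exact Finset.sum_congr rfl fun a _ => by ring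
  have h3 : ∑ a, θ ^ n * ((B ^ n) *ᵥ F) a * G a = θ ^ n * (((B ^ n) *ᵥ F) ⬝ᵥ G) := by
    simp only [dotProduct, Finset.mul_sum]
    exact Finset.sum_congr rfl fun a _ => by ring
  rw [h2, h3, h1]

end res

end Pool.Agent.RCG
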