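import Pool.Agent.RCG.PairF

/-! Generator of a function which depends on a distinguished element (MP_73ccd0_lc, general
graphs). -/

namespace Pool.Agent.RCG

open Set Finset Pool.Agent.RCRSHalf

set_option linter.unusedSectionVars false

variable {V : Type*} [Fintype V] [DecidableEq V]
variable {h : ℝ → V → V → ℝ} {H : V → V → ℝ → ℝ}

/-- generator of a function which depends on a distinguished element -/
theorem gen_sumerase (h : V → V → ℝ) (hs : ∀ a b, h a b = h b a) (haa : ∀ a, h a a = 0)
    (W : V → Finset V → ℝ) (F : Finset V) :
    gen h (fun G => ∑ c ∈ G, W c (G.erase c)) F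
      = ∑ c ∈ F, (gen h (W c) (F.erase c) - (∑ b ∈ F.erase c, h c b) * W c (F.erase c)) := by
  have e1 : (fun G : Finset V => ∑ c ∈ G, W c (G.erase c))
      = fun G => ∑ c : V, (if c ∈ G then W c (G.erase c) else 0) := by
    funext G
    rw [Finset.sum_ite_mem, Finset.univ_inter]
  have e2 : gen h (fun G => ∑ c : V, (if c ∈ G then W c (G.erase c) else 0)) F
      = ∑ c : V, gen h (fun G => if c ∈ G then W c (G.erase c) else 0) F := by
    have := map_sum (genL h F) (fun c : V => fun G : Finset V =>
      if c ∈ G then W c (G.erase c) else 0) Finset.univ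
    have e3 : (∑ c : V, fun G : Finset V => if c ∈ G then W c (G.erase c) else 0)
        = fun G => ∑ c : V, (if c ∈ G then W c (G.erase c) else 0) := by
      funext G; simp
    rw [e3] at this
    exact this
  rw [e1, e2]
  rw [← Finset.sum_subset (Finset.subset_univ F)]
  · refine Finset.sum_congr rfl fun c hc => ?_
    have hn : c ∉ F.erase c := Finset.notMem_erase c F
    have hins : insert c (F.erase c) = F := Finset.insert_erase hc
    have h1 := gen_insert h hs haa (fun G => if c ∈ G then W c (G.erase c) else 0) hn
    rw [hins] at h1
    rw [h1]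
    simp only [if_pos hc]
    have h2 : ∀ b ∈ F.erase c, h c b * ((if c ∈ (F.erase c).erase b then
        W c (((F.erase c).erase b).erase c) else 0) - W c (F.erase c))
        = -(h c b * W c (F.erase c)) := fun b _ => by
      rw [if_neg (fun hh => hn (Finset.mem_of_mem_erase hh))]; ring
    rw [Finset.sum_congr rfl h2, Finset.sum_neg_distrib, ← Finset.sum_mul, ← sub_eq_add_neg]
    congr 1
    unfold gen
    congr 1
    refine Finset.sum_congr rfl fun b _ => Finset.sum_congr rfl fun d _ => ?_
    have h3 : c ∉ ((F.erase c).erase b).erase d := fun hh =>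
      hn (Finset.mem_of_mem_erase (Finset.mem_of_mem_erase hh))
    rw [if_pos (Finset.mem_insert_self _ _), Finset.erase_insert h3]
  · intro c _ hc
    have : gen h (fun G => if c ∈ G then W c (G.erase c) else 0) F = gen h (fun _ => 0) F := by
      refine gen_congr fun G hG => ?_
      rw [if_neg (fun hh => hc (hG hh))]
    rw [this, gen_const]

end Pool.Agent.RCG
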