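import Pool.Agent.RCG.Duh2

/-! The influence of the additional vertex `w` through the source function (3.3), and the identity
(3.4) (MP_73ccd0_lc, general graphs). -/

namespace Pool.Agent.RCG

open Set Finset Pool.Agent.RCRSHalf

set_option linter.unusedSectionVars false

variable {V : Type*} [Fintype V] [DecidableEq V]
variable {h : ℝ → V → V → ℝ} {H : V → V → ℝ → ℝ}

theorem mul_dev_up {R R' D D' p n p' n' : ℝ} (hR : 0 ≤ R) (hR' : 0 ≤ R') (hp : 0 ≤ p)
    (hn : 0 ≤ n) (hp' : 0 ≤ p') (hn' : 0 ≤ n') (h1 : -(n * R) ≤ D) (h2 : D ≤ p * R)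
    (h3 : -(n' * R') ≤ D') (h4 : D' ≤ p' * R') : D * D' ≤ (p * p' + n * n') * (R * R') := by
  have a1 : 0 ≤ p * p' * (R * R') := by positivity
  have a2 : 0 ≤ n * n' * (R * R') := by positivity
  rcases le_total 0 D with hD | hD <;> rcases le_total 0 D' with hD' | hD'
  · have := mul_le_mul h2 h4 hD' (by positivity)
    nlinarith
  · have := mul_nonneg hD (by linarith : 0 ≤ -D')
    nlinarith
  · have := mul_nonneg (by linarith : 0 ≤ -D) hD'
    nlinarith
  · have : (-D) * (-D') ≤ (n * R) * (n' * R') :=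
      mul_le_mul (by linarith) (by linarith) (by linarith) (by positivity)
    nlinarith

/-- rate of the exponent for two functions -/
noncomputable def k2R (h : V → V → ℝ) (H0 : Finset V) (P N P' N' : V → ℝ) : ℝ :=
  (1 / 2) * ∑ a ∈ H0, ∑ b ∈ H0, h a b *
    (((1 + P a) * (1 + P b) - 1) * ((1 + P' a) * (1 + P' b) - 1) + (N a + N b) * (N' a + N' b))

/-- upper bound for the covariance form -/
theorem cov_le {s : ℝ} {R R' : Finset V → ℝ → ℝ} {H0 : Finset V} {P N P' N' : V → ℝ → ℝ}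
    (hh : Haz h H) (hI : Inf H0 s R P N) (hI' : Inf H0 s R' P' N') {r : ℝ} (hr : r ∈ Icc 0 s)
    (hR : ∀ F, 0 ≤ R F r) (hR' : ∀ F, 0 ≤ R' F r) {G : Finset V} (hG : G ⊆ H0) :
    cov (h r) (fun F => R F r) (fun F => R' F r) G
      ≤ k2R (h r) H0 (fun a => P a r) (fun a => N a r) (fun a => P' a r) (fun a => N' a r)
        * (R G r * R' G r) := by
  have hRR : 0 ≤ R G r * R' G r := mul_nonneg (hR G) (hR' G)
  unfold cov k2R
  have hterm0 : ∀ a ∈ H0, ∀ b ∈ H0, 0 ≤ h r a b *
      (((1 + P a r) * (1 + P b r) - 1) * ((1 + P' a r) * (1 + P' b r) - 1)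
        + (N a r + N b r) * (N' a r + N' b r)) := by
    intro a ha b hb
    have q1 := hI.P0 a ha r hr
    have q2 := hI.P0 b hb r hr
    have q3 := hI'.P0 a ha r hr
    have q4 := hI'.P0 b hb r hr
    have q5 := hI.N0 a ha r hr
    have q6 := hI.N0 b hb r hr
    have q7 := hI'.N0 a ha r hr
    have q8 := hI'.N0 b hb r hr
    have e1 : 0 ≤ (1 + P a r) * (1 + P b r) - 1 := by nlinarith [mul_nonneg q1 q2]
    have e2 : 0 ≤ (1 + P' a r) * (1 + P' b r) - 1 := by nlinarith [mul_nonneg q3 q4]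
    have := hh.nonneg r a b
    positivity
  refine le_trans (b := ((1 / 2) * ∑ a ∈ G, ∑ b ∈ G, h r a b *
      (((1 + P a r) * (1 + P b r) - 1) * ((1 + P' a r) * (1 + P' b r) - 1)
        + (N a r + N b r) * (N' a r + N' b r))) * (R G r * R' G r)) ?_ ?_
  · rw [mul_assoc, Finset.sum_mul]
    refine mul_le_mul_of_nonneg_left (Finset.sum_le_sum fun a ha => ?_) (by norm_num)
    rw [Finset.sum_mul]
    refine Finset.sum_le_sum fun b hb => ?_
    by_cases hab : a = b
    · subst hab; rw [hh.diag]; simp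
    · obtain ⟨i1, i2⟩ := hI.pair hG ha hb hab hr (hR G)
      obtain ⟨j1, j2⟩ := hI'.pair hG ha hb hab hr (hR' G)
      have q1 := hI.P0 a (hG ha) r hr
      have q2 := hI.P0 b (hG hb) r hr
      have q3 := hI'.P0 a (hG ha) r hr
      have q4 := hI'.P0 b (hG hb) r hr
      have q5 := hI.N0 a (hG ha) r hr
      have q6 := hI.N0 b (hG hb) r hr
      have q7 := hI'.N0 a (hG ha) r hr
      have q8 := hI'.N0 b (hG hb) r hr
      have e1 : 0 ≤ (1 + P a r) * (1 + P b r) - 1 := by nlinarith [mul_nonneg q1 q2]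
      have e2 : 0 ≤ (1 + P' a r) * (1 + P' b r) - 1 := by nlinarith [mul_nonneg q3 q4]
      have := mul_dev_up (hR G) (hR' G) e1 (add_nonneg q5 q6) e2 (add_nonneg q7 q8)
        (D := R ((G.erase a).erase b) r - R G r) (D' := R' ((G.erase a).erase b) r - R' G r)
        (by linarith) (by linarith) (by linarith) (by linarith)
      have k := mul_le_mul_of_nonneg_left this (hh.nonneg r a b)
      refine k.trans (le_of_eq (by ring))
  · refine mul_le_mul_of_nonneg_right ?_ hRR
    refine mul_le_mul_of_nonneg_left ?_ (by norm_num)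
    refine le_trans (Finset.sum_le_sum fun a ha => Finset.sum_le_sum_of_subset_of_nonneg hG
      fun b hb _ => hterm0 a (hG ha) b hb) ?_
    exact Finset.sum_le_sum_of_subset_of_nonneg hG fun a ha _ => Finset.sum_nonneg fun b hb =>
      hterm0 a ha b hb

/-- (3.3) -/
theorem xi_le (hh : Haz h H) {u w : V} {t : ℝ} (ht : t ∈ Icc (0 : ℝ) 1) {H0 : Finset V}
    (hw : w ∉ H0) {Ru Z : Finset V → ℝ → ℝ} (hRu : IsTgt h u t Ru) (hZ : IsSrc h u w t Z)
    {Pu Nu Pw Nw : V → ℝ → ℝ} (hIu : Inf H0 t Ru Pu Nu) (hIw : Inf H0 t Z Pw Nw)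
    {κ κ' Y Y' : ℝ → ℝ} (hκd : ∀ r ∈ Icc 0 t, HasDerivAt κ (κ' r) r)
    (hYd : ∀ r ∈ Icc 0 t, HasDerivAt Y (Y' r) r)
    (hκ0 : ∀ r ∈ Icc 0 t, 0 ≤ κ r) (hY0 : ∀ r ∈ Icc 0 t, 0 ≤ Y r)
    (hκ : ∀ r ∈ Icc 0 t, k2R (h r) H0 (fun a => Pu a r) (fun a => Nu a r) (fun a => Pw a r)
      (fun a => Nw a r) ≤ -κ' r)
    (hY : ∀ r ∈ Icc 0 t, ∑ c ∈ H0, h r w c * Nu c r ≤ -Y' r) :
    ∀ F ⊆ H0, ∀ r ∈ Icc 0 t,
      Ru F r - Ru (insert w F) r ≤ Ru F r * (Real.exp (κ r) * Z F r + Y r) := by
  intro F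
  induction hn : F.card using Nat.strong_induction_on generalizing F with
  | _ n ih =>
  intro hF
  have hwF : w ∉ F := fun hh => hw (hF hh)
  have key := nonneg_of_backward
    (U := fun r => Ru F r * (Real.exp (κ r) * Z F r + Y r) - (Ru F r - Ru (insert w F) r))
    (U' := fun r => ((-(gen (h r) (fun G => Ru G r) F - (∑ a ∈ F, h r u a) * Ru F r
        - 0 * Ru F r + 0)) * (Real.exp (κ r) * Z F r + Y r)
      + Ru F r * (Real.exp (κ r) * κ' r * Z F r + Real.exp (κ r) *
        (-(gen (h r) (fun G => Z G r) F - (∑ a ∈ F, h r w a) * Z F r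
        - h r u w * Z F r + h r u w)) + Y' r))
      - ((-(gen (h r) (fun G => Ru G r) F - (∑ a ∈ F, h r u a) * Ru F r
        - 0 * Ru F r + 0)) - (-(gen (h r) (fun G => Ru G r) (insert w F)
          - (∑ a ∈ insert w F, h r u a) * Ru (insert w F) r - 0 * Ru (insert w F) r + 0))))
    (a := 0) (s := t) (fun r hr => by
      have d1 := hRu.ev.deriv F r hr
      have d2 := hRu.ev.deriv (insert w F) r hr
      have d3 := hZ.ev.deriv F r hr
      exact (d1.mul (((hκd r hr).exp.mul d3).add (hYd r hr))).sub (d1.sub d2))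
    (by
      simp only [hRu.end_, hZ.end_]
      have := hY0 t ⟨ht.1, le_rfl⟩
      simpa using this) ?_
  · intro r hr
    have := key r hr
    linarith
  · intro r hr hU
    have hR0 : 0 ≤ Ru F r := hRu.ev.nonneg F r hr
    have hZ0 : 0 ≤ Z F r := hZ.ev.nonneg F r hr
    set E : ℝ := Real.exp (κ r) with hE
    have hE1 : 1 ≤ E := Real.one_le_exp (hκ0 r hr)
    have hY0r := hY0 r hr
    set B : ℝ := Ru F r * (E * Z F r + Y r) with hB
    set X : ℝ := Ru F r - Ru (insert w F) r with hX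
    -- monotonicity of the generator
    have t1 : gen (h r) (fun G => Ru G r - Ru (insert w G) r) F + rate (h r) F * X
        ≤ gen (h r) (fun G => Ru G r * (E * Z G r + Y r)) F + rate (h r) F * B := by
      refine gen_mono (h0 := hh.nonneg r) fun a ha b hb => ?_
      have hcard : ((F.erase a).erase b).card < n := by
        rw [← hn]
        exact (Finset.card_le_card (Finset.erase_subset _ _)).trans_lt
          (Finset.card_erase_lt_of_mem ha)
      exact ih _ hcard ((F.erase a).erase b) rfl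
        ((Finset.erase_subset _ _).trans ((Finset.erase_subset _ _).trans hF)) r hr
    have e1 := cov_eq (h r) (fun G => Ru G r) (fun G => E * Z G r + Y r) F
    have e2 : gen (h r) (fun G => E * Z G r + Y r) F = E * gen (h r) (fun G => Z G r) F := by
      rw [gen_add (h r) (fun G => E * Z G r) (fun _ => Y r), gen_smul, gen_const, add_zero]
    have e3 : cov (h r) (fun G => Ru G r) (fun G => E * Z G r + Y r) F
        = E * cov (h r) (fun G => Ru G r) (fun G => Z G r) F := by
      unfold cov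
      rw [mul_left_comm]
      congr 1
      rw [Finset.mul_sum]
      refine Finset.sum_congr rfl fun a _ => ?_
      rw [Finset.mul_sum]
      exact Finset.sum_congr rfl fun b _ => by ring
    have e4 := cov_le hh hIu hIw hr (fun F => hRu.ev.nonneg F r hr)
      (fun F => hZ.ev.nonneg F r hr) hF
    have e5 : cov (h r) (fun G => Ru G r) (fun G => Z G r) F ≤ (-κ' r) * (Ru F r * Z F r) :=
      e4.trans (mul_le_mul_of_nonneg_right (hκ r hr) (mul_nonneg hR0 hZ0))
    have e6 := mul_le_mul_of_nonneg_left e5 (by linarith : (0:ℝ) ≤ E)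
    -- the generator of the influence
    have e7 : gen (h r) (fun G => Ru G r - Ru (insert w G) r) F
        = gen (h r) (fun G => Ru G r) F - (gen (h r) (fun G => Ru G r) (insert w F)
          - ∑ b ∈ F, h r w b * (Ru (F.erase b) r - Ru (insert w F) r)) := by
      rw [gen_insert (h r) (hh.symm r) (hh.diag r) _ hwF, add_sub_cancel_right, gen_sub]
      rfl
    have e8 : ∑ b ∈ F, h r w b * (Ru (F.erase b) r - Ru (insert w F) r)
        ≥ (∑ a ∈ F, h r w a) * X - (-Y' r) * Ru F r := by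
      have s1 : ∑ b ∈ F, h r w b * (Ru (F.erase b) r - Ru (insert w F) r)
          = ∑ b ∈ F, h r w b * (Ru (F.erase b) r - Ru F r) + (∑ a ∈ F, h r w a) * X := by
        rw [Finset.sum_mul, ← Finset.sum_add_distrib]
        exact Finset.sum_congr rfl fun b _ => by rw [hX]; ring
      have s2 : -((∑ b ∈ F, h r w b * Nu b r) * Ru F r)
          ≤ ∑ b ∈ F, h r w b * (Ru (F.erase b) r - Ru F r) := by
        rw [Finset.sum_mul, ← Finset.sum_neg_distrib]
        refine Finset.sum_le_sum fun b hb => ?_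
        have := mul_le_mul_of_nonneg_left (hIu.lo F hF b hb r hr) (hh.nonneg r w b)
        linarith
      have s3 : (∑ b ∈ F, h r w b * Nu b r) * Ru F r ≤ (-Y' r) * Ru F r := by
        refine mul_le_mul_of_nonneg_right (le_trans ?_ (hY r hr)) hR0
        exact Finset.sum_le_sum_of_subset_of_nonneg hF fun b hb _ =>
          mul_nonneg (hh.nonneg _ _ _) (hIu.N0 b hb r hr)
      linarith
    rw [Finset.sum_insert hwF]
    have t5 : 0 ≤ ∑ a ∈ F, h r u a := Finset.sum_nonneg fun c _ => hh.nonneg _ _ _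
    have t6 : 0 ≤ ∑ a ∈ F, h r w a := Finset.sum_nonneg fun c _ => hh.nonneg _ _ _
    have t7 := hh.nonneg r u w
    have hU' : B - X < 0 := hU
    have u1 : rate (h r) F * (B - X) ≤ 0 :=
      mul_nonpos_of_nonneg_of_nonpos (rate_nonneg (hh.nonneg r) F) hU'.le
    have u2 : (∑ a ∈ F, h r u a) * (B - X) ≤ 0 := mul_nonpos_of_nonneg_of_nonpos t5 hU'.le
    have u3 : (∑ a ∈ F, h r w a) * (B - X) ≤ 0 := mul_nonpos_of_nonneg_of_nonpos t6 hU'.le
    have u4 : h r u w * (B - X) ≤ 0 := mul_nonpos_of_nonneg_of_nonpos t7 hU'.le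
    have v1 : 0 ≤ h r u w * ((E - 1) * Ru F r) :=
      mul_nonneg t7 (mul_nonneg (by linarith) hR0)
    have v2 : 0 ≤ (∑ a ∈ F, h r w a + h r u w) * (Ru F r * Y r) :=
      mul_nonneg (add_nonneg t6 t7) (mul_nonneg hR0 hY0r)
    have eB : B = Ru F r * (E * Z F r + Y r) := hB
    have eX : Ru (insert w F) r = Ru F r - X := by rw [hX]; ring
    have w1 : (∑ a ∈ F, h r u a) * Ru (insert w F) r
        = (∑ a ∈ F, h r u a) * Ru F r - (∑ a ∈ F, h r u a) * X := by rw [eX]; ring
    have w2 : h r u w * Ru (insert w F) r = h r u w * Ru F r - h r u w * X := by rw [eX]; ring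
    have w3 : (∑ a ∈ F, h r u a) * B = (∑ a ∈ F, h r u a) * (Ru F r * (E * Z F r + Y r)) := by
      rw [eB]
    have w4 : (∑ a ∈ F, h r w a) * B = (∑ a ∈ F, h r w a) * (Ru F r * (E * Z F r + Y r)) := by
      rw [eB]
    have w5 : h r u w * B = h r u w * (Ru F r * (E * Z F r + Y r)) := by rw [eB]
    have w6 : rate (h r) F * (B - X) = rate (h r) F * B - rate (h r) F * X := by ring
    rw [e7] at t1
    rw [e3, e2] at e1
    linarith [t1, e1, e6, e8, u1, u2, u3, u4, v1, v2, w1, w2, w3, w4, w5, w6]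

end Pool.Agent.RCG
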